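import Mathlib

/-!
# The factor `χ(s) = Γ_ℝ(1 - s) / Γ_ℝ(s)` of the functional equation is inner for `Re s > 1/2`

`‖χ(1/2 + x + it)‖ ≤ (9/t)^x` for `0 ≤ x ≤ 2` and `t ≥ 20`, and `χ` is unimodular on the
critical line.
-/

namespace Pool.Agent.Lib.ChiBound

open Complex Filter Topology Finset

/-- auxiliary denominators `(j + b)^2 + y^2` -/
noncomputable def D (b y : ℝ) (j : ℝ) : ℝ := (j + b) ^ 2 + y ^ 2

lemma D_pos {b y j : ℝ} (hy : 0 < y) : 0 < D b y j := by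
  unfold D; positivity

lemma prod_lower {b y h : ℝ} (hb : -(3 / 4) ≤ b) (hy : 10 ≤ y) (hh0 : 0 ≤ h) (n : ℕ) :
    D b y (-1) / D b y n * (1 - 2 / (y - 11 / 4) + 2 / (n + 1 + y - 11 / 4)) ≤
      ∏ j ∈ range (n + 1), (1 - (2 * j + 2 * b - h) / D b y j) := by
  have hy0 : 0 < y := by linarith
  have hfac : ∀ j : ℕ, (D b y (j - 1) - 1) / D b y j ≤ 1 - (2 * j + 2 * b - h) / D b y j := by
    intro j
    have hD : 0 < D b y j := D_pos hy0
    rw [div_le_iff₀ hD, sub_mul, div_mul_cancel₀ _ hD.ne']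
    unfold D
    nlinarith
  have hDm : ∀ j : ℕ, 1 / D b y ((j : ℝ) - 1) ≤
      2 / (j + y - 11 / 4) - 2 / (j + 1 + y - 11 / 4) := by
    intro j
    have hj : (0 : ℝ) ≤ j := Nat.cast_nonneg j
    have h1 : 0 < (j : ℝ) + y - 11 / 4 := by linarith
    have h2 : 0 < (j : ℝ) + 1 + y - 11 / 4 := by linarith
    have h3 : 2 / ((j : ℝ) + y - 11 / 4) - 2 / (j + 1 + y - 11 / 4) =
        1 / ((((j : ℝ) + y - 11 / 4) * (j + 1 + y - 11 / 4)) / 2) := by
      rw [div_sub_div _ _ h1.ne' h2.ne', one_div_div]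
      congr 1
      ring
    rw [h3]
    apply one_div_le_one_div_of_le (by positivity)
    unfold D
    have h4 : ((j : ℝ) + y - 11 / 4) * (j + 1 + y - 11 / 4) / 2 ≤
        (j + y - 7 / 4) ^ 2 / 2 := by nlinarith
    by_cases hm : 0 ≤ (j : ℝ) - 1 + b
    · nlinarith [sq_nonneg ((j : ℝ) - 1 + b - y)]
    · push Not at hm
      have hj1 : (j : ℝ) < 7 / 4 := by linarith
      nlinarith [sq_nonneg ((j : ℝ) - 1 + b)]
  have hpos : ∀ j : ℕ, 0 ≤ D b y ((j : ℝ) - 1) - 1 := by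
    intro j
    unfold D
    nlinarith [sq_nonneg ((j : ℝ) - 1 + b)]
  induction n with
  | zero =>
    simp only [zero_add, range_one, prod_singleton, Nat.cast_zero]
    refine le_trans ?_ (by simpa using hfac 0)
    have hD0 : 0 < D b y 0 := D_pos hy0
    have hD1 : 0 < D b y (-1) := D_pos hy0
    have h1 := hDm 0
    simp only [Nat.cast_zero, zero_sub, zero_add] at h1
    have h2 : (D b y (-1) - 1) / D b y 0 = D b y (-1) / D b y 0 * (1 - 1 / D b y (-1)) := by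
      field_simp
    rw [h2]
    apply mul_le_mul_of_nonneg_left _ (by positivity)
    linarith
  | succ n ih =>
    rw [prod_range_succ]
    have hDn : 0 < D b y n := D_pos hy0
    have hDn1 : 0 < D b y ((n + 1 : ℕ) : ℝ) := D_pos hy0
    have hD1 : 0 < D b y (-1) := D_pos hy0
    have hn : (0 : ℝ) ≤ n := Nat.cast_nonneg n
    set E : ℝ := 1 - 2 / (y - 11 / 4) + 2 / (n + 1 + y - 11 / 4) with hE
    have hE0 : 0 ≤ E := by
      have h1 : 2 / (y - 11 / 4) ≤ 1 := by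
        rw [div_le_one (by linarith)]; linarith
      have h2 : 0 ≤ 2 / ((n : ℝ) + 1 + y - 11 / 4) := by
        apply div_nonneg (by norm_num); linarith
      linarith
    have hE1 : E ≤ 1 := by
      have h2 : 2 / ((n : ℝ) + 1 + y - 11 / 4) ≤ 2 / (y - 11 / 4) := by
        apply div_le_div_of_nonneg_left (by norm_num) (by linarith) (by linarith)
      linarith
    have hE' : E * (1 - 1 / D b y n) ≥
        1 - 2 / (y - 11 / 4) + 2 / (((n + 1 : ℕ) : ℝ) + 1 + y - 11 / 4) := by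
      have h1 := hDm (n + 1)
      push_cast at h1 ⊢
      rw [show (n : ℝ) + 1 - 1 = n by ring] at h1
      have h2 : 0 ≤ 1 / D b y n := by positivity
      nlinarith
    have hf := hfac (n + 1)
    push_cast at hf
    rw [show (n : ℝ) + 1 - 1 = n by ring] at hf
    have hp := hpos (n + 1)
    push_cast at hp
    rw [show (n : ℝ) + 1 - 1 = n by ring] at hp
    push_cast
    calc D b y (-1) / D b y (↑n + 1) * (1 - 2 / (y - 11 / 4) + 2 / (↑n + 1 + 1 + y - 11 / 4))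
        ≤ D b y (-1) / D b y (↑n + 1) * (E * (1 - 1 / D b y n)) := by
          apply mul_le_mul_of_nonneg_left
          · push_cast at hE'
            exact hE'
          · push_cast at hDn1
            positivity
      _ = (D b y (-1) / D b y n * E) * ((D b y n - 1) / D b y (↑n + 1)) := by
          field_simp
      _ ≤ _ := by
          apply mul_le_mul ih hf
          · push_cast at hDn1
            positivity
          · refine le_trans ?_ ih
            positivity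

lemma prod_lower' {b y h : ℝ} (hb : -(3 / 4) ≤ b) (hb2 : b ≤ 2) (hy : 10 ≤ y) (hh0 : 0 ≤ h)
    (n : ℕ) :
    y ^ 2 / (2 * ((n + 2) ^ 2 + y ^ 2)) ≤
      ∏ j ∈ range (n + 1), (1 - (2 * j + 2 * b - h) / D b y j) := by
  refine le_trans ?_ (prod_lower hb hy hh0 n)
  have hy0 : 0 < y := by linarith
  have hn : (0 : ℝ) ≤ n := Nat.cast_nonneg n
  have h1 : 2 / (y - 11 / 4) ≤ 1 / 2 := by
    rw [div_le_iff₀ (by linarith)]; linarith
  have h2 : 0 ≤ 2 / ((n : ℝ) + 1 + y - 11 / 4) := by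
    apply div_nonneg (by norm_num); linarith
  have h3 : y ^ 2 ≤ D b y (-1) := by
    unfold D; nlinarith [sq_nonneg (-1 + b)]
  have h4 : D b y n ≤ (n + 2) ^ 2 + y ^ 2 := by
    unfold D
    nlinarith
  have h5 : 0 < D b y n := D_pos hy0
  calc y ^ 2 / (2 * (((n : ℝ) + 2) ^ 2 + y ^ 2)) = y ^ 2 / ((n + 2) ^ 2 + y ^ 2) * (1 / 2) := by
        field_simp
    _ ≤ D b y (-1) / D b y n * (1 - 2 / (y - 11 / 4) + 2 / (n + 1 + y - 11 / 4)) := by
        apply mul_le_mul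
        · exact div_le_div₀ (le_trans (by positivity) h3) h3 h5 h4
        · linarith
        · norm_num
        · have : 0 ≤ D b y (-1) := le_trans (by positivity) h3
          positivity

/-- squared norm of a factor -/
lemma normSq_factor (a y : ℝ) (j : ℕ) : ‖(a + y * I + j : ℂ)‖ ^ 2 = D a y j := by
  rw [← Complex.normSq_eq_norm_sq, Complex.normSq_apply]
  unfold D
  simp
  ring

lemma gammaSeq_ratio {a h y : ℝ} (hh0 : 0 ≤ h) (hh1 : h ≤ 1) (hb : -(3 / 4) ≤ a + h)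
    (hb2 : a + h ≤ 2) (hy : 10 ≤ y) {n : ℕ} (hn : n ≠ 0) :
    ‖GammaSeq (a + y * I) n‖ ^ 2 *
        ((n : ℝ) ^ 2 * (y ^ 2 / (2 * ((n + 2) ^ 2 + y ^ 2)))) ^ h ≤
      ‖GammaSeq ((a + h : ℝ) + y * I) n‖ ^ 2 := by
  have hy0 : 0 < y := by linarith
  have hnpos : (0 : ℝ) < n := Nat.cast_pos.mpr (Nat.pos_of_ne_zero hn)
  have hn0 : (n : ℂ) ≠ 0 := Nat.cast_ne_zero.mpr hn
  have hG : ∀ c : ℝ, ‖GammaSeq (c + y * I) n‖ ^ 2 =
      (((n : ℝ) ^ c * n.factorial) ^ 2) / ∏ j ∈ range (n + 1), D c y j := by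
    intro c
    unfold GammaSeq
    rw [norm_div, norm_mul, norm_prod, div_pow, ← Finset.prod_pow]
    congr 1
    · congr 2
      · rw [← ofReal_natCast, Complex.norm_cpow_eq_rpow_re_of_pos hnpos]
        simp
      · simp
    · apply Finset.prod_congr rfl
      intro j _
      exact normSq_factor c y j
  rw [hG, hG]
  set b := a + h with hb_def
  have hDa : ∀ j : ℕ, 0 < D a y j := fun j => D_pos hy0
  have hDb : ∀ j : ℕ, 0 < D b y j := fun j => D_pos hy0
  have hPa : 0 < ∏ j ∈ range (n + 1), D a y j := prod_pos fun j _ => hDa j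
  have hPb : 0 < ∏ j ∈ range (n + 1), D b y j := prod_pos fun j _ => hDb j
  have hv : ∀ j : ℕ, 0 ≤ 1 - (2 * j + 2 * b - h) / D b y j := by
    intro j
    rw [sub_nonneg, div_le_one (hDb j)]
    unfold D
    nlinarith [sq_nonneg ((j : ℝ) + b - 1)]
  have hratio : (∏ j ∈ range (n + 1), (1 - (2 * j + 2 * b - h) / D b y j)) ^ h ≤
      (∏ j ∈ range (n + 1), D a y j) / ∏ j ∈ range (n + 1), D b y j := by
    rw [← Finset.prod_div_distrib, ← Real.finsetProd_rpow _ _ (fun j _ => hv j)]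
    apply Finset.prod_le_prod
    · intro j _
      exact Real.rpow_nonneg (hv j) _
    · intro j _
      have h1 := rpow_one_add_le_one_add_mul_self (s := -((2 * j + 2 * b - h) / D b y j))
        (by linarith [hv j]) hh0 hh1
      rw [← sub_eq_add_neg] at h1
      refine h1.trans (le_of_eq ?_)
      have := (hDb j).ne'
      rw [eq_div_iff this, add_mul, one_mul, mul_assoc, neg_mul, div_mul_cancel₀ _ this]
      unfold D
      rw [hb_def]
      ring
  have hlow := prod_lower' hb hb2 hy hh0 n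
  have hlow0 : 0 ≤ y ^ 2 / (2 * (((n : ℝ) + 2) ^ 2 + y ^ 2)) := by positivity
  have h1 : (y ^ 2 / (2 * (((n : ℝ) + 2) ^ 2 + y ^ 2))) ^ h ≤
      (∏ j ∈ range (n + 1), D a y j) / ∏ j ∈ range (n + 1), D b y j :=
    (Real.rpow_le_rpow hlow0 hlow hh0).trans hratio
  rw [Real.mul_rpow (by positivity) hlow0]
  have h2 : ((n : ℝ) ^ 2) ^ h * ((n : ℝ) ^ a * n.factorial) ^ 2 =
      ((n : ℝ) ^ b * n.factorial) ^ 2 := by
    rw [hb_def, Real.rpow_add hnpos, ← Real.rpow_natCast, ← Real.rpow_mul hnpos.le,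
      show ((2 : ℕ) : ℝ) * h = h * 2 by push_cast; ring, Real.rpow_mul hnpos.le]
    norm_num
    ring
  calc ((n : ℝ) ^ a * n.factorial) ^ 2 / (∏ j ∈ range (n + 1), D a y j) *
        (((n : ℝ) ^ 2) ^ h * (y ^ 2 / (2 * (((n : ℝ) + 2) ^ 2 + y ^ 2))) ^ h)
      = (((n : ℝ) ^ b * n.factorial) ^ 2 / ∏ j ∈ range (n + 1), D a y j) *
        (y ^ 2 / (2 * (((n : ℝ) + 2) ^ 2 + y ^ 2))) ^ h := by rw [← h2]; ring
    _ ≤ (((n : ℝ) ^ b * n.factorial) ^ 2 / ∏ j ∈ range (n + 1), D a y j) *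
        ((∏ j ∈ range (n + 1), D a y j) / ∏ j ∈ range (n + 1), D b y j) := by
        apply mul_le_mul_of_nonneg_left h1 (by positivity)
    _ = _ := by
        field_simp

lemma gamma_ratio {a h y : ℝ} (hh0 : 0 ≤ h) (hh1 : h ≤ 1) (hb : -(3 / 4) ≤ a + h)
    (hb2 : a + h ≤ 2) (hy : 10 ≤ y) :
    ‖Gamma (a + y * I)‖ ^ 2 * (y ^ 2 / 2) ^ h ≤ ‖Gamma ((a + h : ℝ) + y * I)‖ ^ 2 := by
  have hy0 : 0 < y := by linarith
  have h1 : Tendsto (fun n : ℕ => ‖GammaSeq (a + y * I) n‖ ^ 2 *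
        ((n : ℝ) ^ 2 * (y ^ 2 / (2 * ((n + 2) ^ 2 + y ^ 2)))) ^ h) atTop
      (𝓝 (‖Gamma (a + y * I)‖ ^ 2 * (y ^ 2 / 2) ^ h)) := by
    apply Tendsto.mul
    · exact ((GammaSeq_tendsto_Gamma _).norm).pow 2
    · apply Tendsto.rpow_const
      · have h2 : Tendsto (fun n : ℕ => (y ^ 2 / (2 * ((1 + 2 / (n : ℝ)) ^ 2 + (y / n) ^ 2))))
            atTop (𝓝 (y ^ 2 / (2 * ((1 + 0) ^ 2 + 0 ^ 2)))) := by
          apply Tendsto.div tendsto_const_nhds
          · apply Tendsto.const_mul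
            apply Tendsto.add
            · apply Tendsto.pow
              apply Tendsto.const_add
              exact tendsto_const_div_atTop_nhds_zero_nat 2
            · apply Tendsto.pow
              exact tendsto_const_div_atTop_nhds_zero_nat y
          · norm_num
        have h3 : y ^ 2 / (2 * ((1 + 0) ^ 2 + 0 ^ 2)) = y ^ 2 / 2 := by norm_num
        rw [h3] at h2
        refine h2.congr' ?_
        filter_upwards [eventually_gt_atTop 0] with n hn
        have hn' : (0 : ℝ) < n := Nat.cast_pos.mpr hn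
        field_simp
      · right; exact hh0
  have h2 : Tendsto (fun n : ℕ => ‖GammaSeq ((a + h : ℝ) + y * I) n‖ ^ 2) atTop
      (𝓝 (‖Gamma ((a + h : ℝ) + y * I)‖ ^ 2)) := ((GammaSeq_tendsto_Gamma _).norm).pow 2
  refine le_of_tendsto_of_tendsto h1 h2 ?_
  filter_upwards [eventually_ne_atTop 0] with n hn
  exact gammaSeq_ratio hh0 hh1 hb hb2 hy hn

/-- the factor of the functional equation `ζ(s) = χ(s) ζ(1 - s)` -/
noncomputable def chi (s : ℂ) : ℂ := Gammaℝ (1 - s) / Gammaℝ s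

lemma norm_Gammaℝ (σ t : ℝ) : ‖Gammaℝ (σ + t * I)‖ =
    Real.pi ^ (-σ / 2) * ‖Gamma ((σ / 2 : ℝ) + (t / 2 : ℝ) * I)‖ := by
  rw [Gammaℝ_def, norm_mul, Complex.norm_cpow_eq_rpow_re_of_pos Real.pi_pos]
  congr 2
  · simp
  · congr 1
    push_cast
    ring

lemma norm_Gammaℝ_conj (s : ℂ) : ‖Gammaℝ ((starRingEnd ℂ) s)‖ = ‖Gammaℝ s‖ := by
  have h1 : s = s.re + s.im * I := (re_add_im s).symm
  have h2 : (starRingEnd ℂ) s = (s.re : ℂ) + ((-s.im : ℝ) : ℂ) * I := by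
    apply Complex.ext <;> simp
  have h3 : ‖Gammaℝ s‖ = ‖Gammaℝ (s.re + s.im * I)‖ := by rw [← h1]
  rw [h3, h2, norm_Gammaℝ, norm_Gammaℝ]
  congr 1
  rw [← Complex.norm_conj, ← Complex.Gamma_conj]
  congr 2
  rw [map_add, map_mul, conj_I, conj_ofReal, conj_ofReal]
  push_cast
  ring

lemma chi_norm_line (t : ℝ) : ‖chi (1 / 2 + t * I)‖ = 1 := by
  unfold chi
  have h1 : (1 - (1 / 2 + t * I) : ℂ) = (starRingEnd ℂ) (1 / 2 + t * I) := by
    apply Complex.ext <;> simp <;> norm_num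
  rw [h1, norm_div, norm_Gammaℝ_conj, div_self]
  rw [norm_ne_zero_iff]
  apply Gammaℝ_ne_zero_of_re_pos
  simp

lemma chi_norm_le {x t : ℝ} (hx0 : 0 ≤ x) (hx2 : x ≤ 2) (ht : 20 ≤ t) :
    ‖chi ((1 / 2 + x : ℝ) + t * I)‖ ≤ (9 / t) ^ x := by
  have ht0 : 0 < t := by linarith
  unfold chi
  have h1 : (1 - ((1 / 2 + x : ℝ) + t * I) : ℂ) =
      (starRingEnd ℂ) (((1 / 2 - x : ℝ) : ℂ) + t * I) := by
    apply Complex.ext <;> simp <;> ring
  rw [h1, norm_div, norm_Gammaℝ_conj, norm_Gammaℝ, norm_Gammaℝ]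
  set y : ℝ := t / 2 with hy_def
  have hy : 10 ≤ y := by rw [hy_def]; linarith
  have hy0 : 0 < y := by linarith
  set Ga := ‖Gamma (((1 / 2 - x) / 2 : ℝ) + (y : ℝ) * I)‖ with hGa
  set Gb := ‖Gamma (((1 / 2 + x) / 2 : ℝ) + (y : ℝ) * I)‖ with hGb
  have e1 := gamma_ratio (a := (1 / 2 - x) / 2) (h := x / 2) (y := y) (by linarith) (by linarith)
    (by linarith) (by linarith) hy
  have e2 := gamma_ratio (a := 1 / 4) (h := x / 2) (y := y) (by linarith) (by linarith)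
    (by linarith) (by linarith) hy
  have e3 : ((1 / 2 - x) / 2 + x / 2 : ℝ) = 1 / 4 := by ring
  have e4 : (1 / 4 + x / 2 : ℝ) = (1 / 2 + x) / 2 := by ring
  rw [e3] at e1
  rw [e4] at e2
  have hGa0 : 0 ≤ Ga := norm_nonneg _
  have hGb0 : 0 < Gb := by
    rw [hGb, norm_pos_iff]
    apply Gamma_ne_zero_of_re_pos
    simp
    linarith
  have hq : 0 ≤ (y ^ 2 / 2 : ℝ) := by positivity
  have e5 : Ga ^ 2 * ((y ^ 2 / 2) ^ (x / 2) * (y ^ 2 / 2) ^ (x / 2)) ≤ Gb ^ 2 := by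
    have h5 : (0 : ℝ) ≤ (y ^ 2 / 2) ^ (x / 2) := Real.rpow_nonneg hq _
    calc Ga ^ 2 * ((y ^ 2 / 2) ^ (x / 2) * (y ^ 2 / 2) ^ (x / 2))
        = (Ga ^ 2 * (y ^ 2 / 2) ^ (x / 2)) * (y ^ 2 / 2) ^ (x / 2) := by ring
      _ ≤ ‖Gamma ((1 / 4 : ℝ) + (y : ℝ) * I)‖ ^ 2 * (y ^ 2 / 2) ^ (x / 2) := by
          apply mul_le_mul_of_nonneg_right _ h5
          exact e1
      _ ≤ Gb ^ 2 := e2
  rw [← Real.rpow_add (by positivity), add_halves] at e5
  have e6 : (y ^ 2 / 2 : ℝ) ^ x = ((y / Real.sqrt 2) ^ x) ^ 2 := by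
    rw [← Real.rpow_natCast ((y / Real.sqrt 2) ^ x) 2, ← Real.rpow_mul (by positivity), mul_comm x,
      Real.rpow_mul (by positivity)]
    congr 1
    rw [Real.rpow_natCast, div_pow y (Real.sqrt 2), Real.sq_sqrt (by norm_num : (0 : ℝ) ≤ 2)]
  rw [e6, ← mul_pow] at e5
  have e7 : Ga * (y / Real.sqrt 2) ^ x ≤ Gb :=
    le_of_sq_le_sq e5 hGb0.le
  have hs2 : 0 < Real.sqrt 2 := by positivity
  have hys : 0 < (y / Real.sqrt 2) ^ x := Real.rpow_pos_of_pos (by positivity) _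
  have hpi := Real.pi_pos
  have e8 : Real.pi ^ (-(1 / 2 - x) / 2) = Real.pi ^ (-(1 / 2 + x) / 2) * Real.pi ^ x := by
    rw [← Real.rpow_add hpi]; congr 1; ring
  rw [e8]
  have hp1 : 0 < Real.pi ^ (-(1 / 2 + x) / 2) := Real.rpow_pos_of_pos hpi _
  have hpx : 0 < Real.pi ^ x := Real.rpow_pos_of_pos hpi _
  calc Real.pi ^ (-(1 / 2 + x) / 2) * Real.pi ^ x * Ga / (Real.pi ^ (-(1 / 2 + x) / 2) * Gb)
      = Real.pi ^ x * (Ga / Gb) := by field_simp
    _ ≤ Real.pi ^ x * (1 / (y / Real.sqrt 2) ^ x) := by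
        apply mul_le_mul_of_nonneg_left _ hpx.le
        rw [div_le_div_iff₀ hGb0 hys]
        linarith
    _ = (Real.pi / (y / Real.sqrt 2)) ^ x := by
        rw [Real.div_rpow hpi.le (by positivity)]; ring
    _ ≤ (9 / t) ^ x := by
        apply Real.rpow_le_rpow (by positivity) _ hx0
        rw [hy_def, div_div_eq_mul_div, div_div_eq_mul_div]
        apply div_le_div_of_nonneg_right _ ht0.le
        have h1 := Real.pi_lt_d2
        have h2 : Real.sqrt 2 < 1.4143 := by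
          rw [Real.sqrt_lt' (by norm_num)]; norm_num
        nlinarith

end Pool.Agent.Lib.ChiBound
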