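import Mathlib

/-!
# Crude polynomial bounds for the Riemann zeta function in `Re s > 0`

`(s - 1) ζ(s) = 1 + ∑ g_n(s)` for `Re s > 0`, where
`g_n(s) = (s - 1) n^{-s} + (n+1)^{1-s} - n^{1-s}` is `O(|s||s-1| n^{-σ-1})`.
-/

namespace Pool.Agent.Lib.ZetaCrude

open Complex Filter Topology

/-- the `n`-th term (with `n + 1` in place of `n`) -/
noncomputable def g (n : ℕ) (s : ℂ) : ℂ :=
  (s - 1) * ((n + 1 : ℝ) : ℂ) ^ (-s) + ((n + 2 : ℝ) : ℂ) ^ (1 - s) - ((n + 1 : ℝ) : ℂ) ^ (1 - s)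

lemma hasDerivAt_cpow_real {x : ℝ} (hx : 0 < x) (s : ℂ) :
    HasDerivAt (fun y : ℝ => (y : ℂ) ^ s) (s * (x : ℂ) ^ (s - 1)) x := by
  by_cases hs : s = 0
  · subst hs
    simp only [cpow_zero, zero_mul]
    exact hasDerivAt_const x 1
  · exact hasDerivAt_ofReal_cpow_const (x := x) hx.ne' hs

lemma norm_cpow_sub_le {a x : ℝ} (ha : 0 < a) (hax : a ≤ x) (s : ℂ) (hs : 0 ≤ s.re) :
    ‖(x : ℂ) ^ (-s) - (a : ℂ) ^ (-s)‖ ≤ ‖s‖ * a ^ (-s.re - 1) * (x - a) := by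
  have hbd : ∀ y ∈ Set.Icc a x, ‖(-s) * (y : ℂ) ^ (-s - 1)‖ ≤ ‖s‖ * a ^ (-s.re - 1) := by
    intro y hy
    have hy0 : 0 < y := lt_of_lt_of_le ha hy.1
    rw [norm_mul, norm_neg, norm_cpow_eq_rpow_re_of_pos hy0]
    have : (-s - 1).re = -s.re - 1 := by simp
    rw [this]
    apply mul_le_mul_of_nonneg_left _ (norm_nonneg _)
    exact Real.rpow_le_rpow_of_nonpos ha hy.1 (by linarith)
  have hder : ∀ y ∈ Set.Icc a x, HasDerivWithinAt (fun y : ℝ => (y : ℂ) ^ (-s))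
      ((-s) * (y : ℂ) ^ (-s - 1)) (Set.Icc a x) y := by
    intro y hy
    exact (hasDerivAt_cpow_real (lt_of_lt_of_le ha hy.1) (-s)).hasDerivWithinAt
  have := Convex.norm_image_sub_le_of_norm_hasDerivWithin_le hder hbd (convex_Icc a x)
    (Set.left_mem_Icc.mpr hax) (Set.right_mem_Icc.mpr hax)
  simpa [Real.norm_eq_abs, abs_of_nonneg (sub_nonneg.mpr hax)] using this

lemma norm_g_le (n : ℕ) (s : ℂ) (hs : 0 ≤ s.re) :
    ‖g n s‖ ≤ ‖s - 1‖ * ‖s‖ * (n + 1 : ℝ) ^ (-s.re - 1) := by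
  set a : ℝ := n + 1 with ha
  have ha0 : 0 < a := by positivity
  let F : ℝ → ℂ := fun x => (s - 1) * ((x : ℂ) - a) * (a : ℂ) ^ (-s) + (x : ℂ) ^ (1 - s)
  have hder : ∀ x ∈ Set.Icc a (a + 1), HasDerivWithinAt F
      ((s - 1) * ((a : ℂ) ^ (-s) - (x : ℂ) ^ (-s))) (Set.Icc a (a + 1)) x := by
    intro x hx
    have hx0 : 0 < x := lt_of_lt_of_le ha0 hx.1
    have h1 : HasDerivAt (fun x : ℝ => (x : ℂ) ^ (1 - s)) ((1 - s) * (x : ℂ) ^ (1 - s - 1)) x :=
      hasDerivAt_cpow_real hx0 (1 - s)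
    have h2 : HasDerivAt (fun x : ℝ => (s - 1) * ((x : ℂ) - a) * (a : ℂ) ^ (-s))
        ((s - 1) * 1 * (a : ℂ) ^ (-s)) x := by
      have h3 : HasDerivAt (fun x : ℝ => (x : ℂ) - a) 1 x := (ofRealCLM.hasDerivAt).sub_const _
      exact (h3.const_mul _).mul_const _
    have h4 := (h2.add h1).hasDerivWithinAt (s := Set.Icc a (a + 1))
    have e : (s - 1) * 1 * (a : ℂ) ^ (-s) + (1 - s) * (x : ℂ) ^ (1 - s - 1) =
        (s - 1) * ((a : ℂ) ^ (-s) - (x : ℂ) ^ (-s)) := by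
      rw [show (1 - s - 1) = -s by ring]
      ring
    rw [e] at h4
    exact h4
  have hbd : ∀ x ∈ Set.Icc a (a + 1), ‖(s - 1) * ((a : ℂ) ^ (-s) - (x : ℂ) ^ (-s))‖ ≤
      ‖s - 1‖ * ‖s‖ * a ^ (-s.re - 1) := by
    intro x hx
    rw [norm_mul, mul_assoc]
    apply mul_le_mul_of_nonneg_left _ (norm_nonneg _)
    rw [norm_sub_rev]
    refine (norm_cpow_sub_le ha0 hx.1 s hs).trans ?_
    have : 0 ≤ ‖s‖ * a ^ (-s.re - 1) := by positivity
    have h5 : x - a ≤ 1 := by linarith [hx.2]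
    nlinarith
  have h6 := Convex.norm_image_sub_le_of_norm_hasDerivWithin_le hder hbd (convex_Icc a (a + 1))
    (Set.left_mem_Icc.mpr (by linarith)) (Set.right_mem_Icc.mpr (by linarith))
  have h7 : F (a + 1) - F a = g n s := by
    simp only [F, g, ha]
    push_cast
    ring_nf
  rw [h7] at h6
  simpa using h6

lemma differentiable_g (n : ℕ) : Differentiable ℂ (g n) := by
  intro s
  unfold g
  have h1 : ((n + 1 : ℝ) : ℂ) ≠ 0 := by
    exact_mod_cast (by positivity : (n + 1 : ℝ) ≠ 0)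
  have h2 : ((n + 2 : ℝ) : ℂ) ≠ 0 := by
    exact_mod_cast (by positivity : (n + 2 : ℝ) ≠ 0)
  apply DifferentiableAt.sub
  · apply DifferentiableAt.add
    · apply DifferentiableAt.mul (by fun_prop)
      exact DifferentiableAt.const_cpow (by fun_prop) (Or.inl h1)
    · exact DifferentiableAt.const_cpow (by fun_prop) (Or.inl h2)
  · exact DifferentiableAt.const_cpow (by fun_prop) (Or.inl h1)

lemma summable_rpow_aux {σ : ℝ} (hσ : 0 < σ) : Summable fun n : ℕ => (n + 1 : ℝ) ^ (-σ - 1) := by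
  have h := (Real.summable_nat_rpow (p := -σ - 1)).mpr (by linarith)
  have h2 := (summable_nat_add_iff 1).mpr h
  simpa using h2

/-- `G s = 1 + ∑ g_n(s)`. -/
noncomputable def G (s : ℂ) : ℂ := 1 + ∑' n, g n s

lemma differentiableOn_G : DifferentiableOn ℂ G {s | 0 < s.re} := by
  have hopen : IsOpen {s : ℂ | 0 < s.re} := isOpen_lt continuous_const continuous_re
  intro s hs
  -- a neighbourhood on which the terms are dominated
  set σ := s.re / 2 with hσ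
  have hσ0 : 0 < σ := by simp only [Set.mem_ofPred_eq] at hs; linarith
  set R := ‖s‖ + 1 with hR
  have hR0 : 0 < R := by positivity
  let U : Set ℂ := {z | σ < z.re} ∩ Metric.ball 0 R
  have hU : IsOpen U := (isOpen_lt continuous_const continuous_re).inter Metric.isOpen_ball
  have hsU : s ∈ U := by
    refine ⟨?_, ?_⟩
    · simp only [Set.mem_ofPred_eq] at hs ⊢; linarith
    · simp [hR]
  have hsum : Summable fun n : ℕ => (R + 1) * R * (n + 1 : ℝ) ^ (-σ - 1) :=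
    (summable_rpow_aux hσ0).mul_left _
  have hdiff : DifferentiableOn ℂ (fun z => ∑' n, g n z) U := by
    apply differentiableOn_tsum_of_summable_norm hsum
    · intro n; exact (differentiable_g n).differentiableOn
    · exact hU
    · intro n z hz
      obtain ⟨hz1, hz2⟩ := hz
      simp only [Set.mem_ofPred_eq] at hz1
      rw [Metric.mem_ball, dist_zero_right] at hz2
      refine (norm_g_le n z (by linarith)).trans ?_
      have h1 : ‖z - 1‖ ≤ R + 1 := by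
        calc ‖z - 1‖ ≤ ‖z‖ + ‖(1 : ℂ)‖ := norm_sub_le _ _
          _ ≤ R + 1 := by simp; linarith
      have h2 : (n + 1 : ℝ) ^ (-z.re - 1) ≤ (n + 1 : ℝ) ^ (-σ - 1) := by
        apply Real.rpow_le_rpow_of_exponent_le
        · have : (0 : ℝ) ≤ n := Nat.cast_nonneg n
          linarith
        · linarith
      gcongr
  have hdG : DifferentiableOn ℂ G U := by
    unfold G
    exact (differentiableOn_const 1).add hdiff
  exact ((hdG s hsU).differentiableAt (hU.mem_nhds hsU)).differentiableWithinAt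

lemma tendsto_cpow_zero {s : ℂ} (hs : 1 < s.re) :
    Tendsto (fun n : ℕ => ((n + 1 : ℝ) : ℂ) ^ (1 - s)) atTop (𝓝 0) := by
  rw [tendsto_zero_iff_norm_tendsto_zero]
  have h1 : ∀ n : ℕ, ‖((n + 1 : ℝ) : ℂ) ^ (1 - s)‖ = (n + 1 : ℝ) ^ (-(s.re - 1)) := by
    intro n
    rw [norm_cpow_eq_rpow_re_of_pos (by positivity)]
    congr 1
    simp
  simp_rw [h1]
  have h2 := tendsto_rpow_neg_atTop (y := s.re - 1) (by linarith)
  have h3 : Tendsto (fun n : ℕ => (n + 1 : ℝ)) atTop atTop :=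
    tendsto_atTop_add_const_right _ _ tendsto_natCast_atTop_atTop
  exact h2.comp h3

lemma G_eq_of_one_lt {s : ℂ} (hs : 1 < s.re) : G s = (s - 1) * riemannZeta s := by
  have hz := zeta_eq_tsum_one_div_nat_add_one_cpow hs
  have hsummable : Summable (fun n : ℕ => 1 / ((n : ℂ) + 1) ^ s) := by
    have := Complex.summable_one_div_nat_cpow.mpr hs
    have h2 := (summable_nat_add_iff 1).mpr this
    simpa using h2
  have hterm : ∀ n : ℕ, ((n + 1 : ℝ) : ℂ) ^ (-s) = 1 / ((n : ℂ) + 1) ^ s := by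
    intro n
    rw [cpow_neg, one_div]
    push_cast
    rfl
  have htel : HasSum (fun n : ℕ => ((n + 2 : ℝ) : ℂ) ^ (1 - s) - ((n + 1 : ℝ) : ℂ) ^ (1 - s)) (-1) := by
    have h1 : ∀ N : ℕ, ∑ n ∈ Finset.range N, (((n + 2 : ℝ) : ℂ) ^ (1 - s) - ((n + 1 : ℝ) : ℂ) ^ (1 - s))
        = ((N + 1 : ℝ) : ℂ) ^ (1 - s) - 1 := by
      intro N
      induction N with
      | zero => simp
      | succ N ih =>
        rw [Finset.sum_range_succ, ih]
        push_cast
        ring_nf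
    have hsumm : Summable (fun n : ℕ => ((n + 2 : ℝ) : ℂ) ^ (1 - s) - ((n + 1 : ℝ) : ℂ) ^ (1 - s)) := by
      have hg : Summable (fun n => g n s) := by
        apply Summable.of_norm_bounded (g := fun n : ℕ => ‖s - 1‖ * ‖s‖ * (n + 1 : ℝ) ^ (-s.re - 1))
        · exact (summable_rpow_aux (by linarith)).mul_left _
        · intro n; exact norm_g_le n s (by linarith)
      have h2 : Summable (fun n : ℕ => (s - 1) * ((n + 1 : ℝ) : ℂ) ^ (-s)) := by
        simp_rw [hterm]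
        exact hsummable.mul_left _
      have h3 := hg.sub h2
      refine h3.congr ?_
      intro n
      unfold g
      ring
    rw [hsumm.hasSum_iff_tendsto_nat]
    simp_rw [h1]
    have := (tendsto_cpow_zero hs).sub_const 1
    simpa using this
  unfold G g
  have h5 : (fun n : ℕ => (s - 1) * ((n + 1 : ℝ) : ℂ) ^ (-s) + ((n + 2 : ℝ) : ℂ) ^ (1 - s)
      - ((n + 1 : ℝ) : ℂ) ^ (1 - s)) = fun n : ℕ => (s - 1) * (1 / ((n : ℂ) + 1) ^ s) +
      (((n + 2 : ℝ) : ℂ) ^ (1 - s) - ((n + 1 : ℝ) : ℂ) ^ (1 - s)) := by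
    ext n
    rw [hterm]
    ring
  rw [h5, (hsummable.mul_left (s - 1)).tsum_add htel.summable, htel.tsum_eq, tsum_mul_left, ← hz]
  ring

lemma G_eq {s : ℂ} (hs : 0 < s.re) : G s = riemannZeta₁ s := by
  have hopen : IsOpen {s : ℂ | 0 < s.re} := isOpen_lt continuous_const continuous_re
  have hpre : IsPreconnected {s : ℂ | 0 < s.re} := (convex_halfSpace_re_gt 0).isPreconnected
  have hG : AnalyticOnNhd ℂ G {s | 0 < s.re} := differentiableOn_G.analyticOnNhd hopen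
  have hZ : AnalyticOnNhd ℂ riemannZeta₁ {s | 0 < s.re} :=
    (differentiable_riemannZeta₁.differentiableOn).analyticOnNhd hopen
  have h2 : (2 : ℂ) ∈ {s : ℂ | 0 < s.re} := by simp
  have hev : G =ᶠ[𝓝 2] riemannZeta₁ := by
    have : {s : ℂ | 1 < s.re} ∈ 𝓝 (2 : ℂ) :=
      (isOpen_lt continuous_const continuous_re).mem_nhds (by simp)
    filter_upwards [this] with z hz
    rw [G_eq_of_one_lt hz]
    have hz1 : z ≠ 1 := by
      rintro rfl
      simp at hz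
    rw [riemannZeta_eq_inv_sub_mul hz1]
    have : z - 1 ≠ 0 := sub_ne_zero.mpr hz1
    field_simp
  exact hG.eqOn_of_preconnected_of_eventuallyEq hZ hpre h2 hev hs

/-- Crude bound in the half plane `Re s ≥ 1/4`. -/
theorem norm_zeta_le_crude : ∃ C : ℝ, 1 ≤ C ∧ ∀ s : ℂ, 1 / 4 ≤ s.re → 1 ≤ ‖s - 1‖ →
    ‖riemannZeta s‖ ≤ C * (1 + ‖s‖) := by
  set S := ∑' n : ℕ, (n + 1 : ℝ) ^ (-(1 / 4 : ℝ) - 1) with hS
  have hsumm := summable_rpow_aux (σ := 1 / 4) (by norm_num)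
  have hS0 : 0 ≤ S := tsum_nonneg fun n => by positivity
  refine ⟨1 + S, by linarith, ?_⟩
  intro s hs hs1
  have hsne : s ≠ 1 := by
    rintro rfl
    simp at hs1
    linarith
  have hre : 0 < s.re := by linarith
  have hbound : ∀ n : ℕ, ‖g n s‖ ≤ ‖s - 1‖ * ‖s‖ * (n + 1 : ℝ) ^ (-(1 / 4 : ℝ) - 1) := by
    intro n
    refine (norm_g_le n s hre.le).trans ?_
    apply mul_le_mul_of_nonneg_left _ (by positivity)
    apply Real.rpow_le_rpow_of_exponent_le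
    · have : (0 : ℝ) ≤ n := Nat.cast_nonneg n
      linarith
    · linarith
  have hts : ‖∑' n, g n s‖ ≤ ‖s - 1‖ * ‖s‖ * S := by
    rw [hS, ← tsum_mul_left]
    exact tsum_of_norm_bounded (hsumm.mul_left _).hasSum hbound
  have hG : ‖G s‖ ≤ 1 + ‖s - 1‖ * ‖s‖ * S := by
    unfold G
    refine (norm_add_le _ _).trans ?_
    simpa using hts
  rw [riemannZeta_eq_inv_sub_mul hsne, ← G_eq hre, norm_mul, norm_inv]
  have h1 : ‖s - 1‖⁻¹ * ‖G s‖ ≤ ‖s - 1‖⁻¹ * (1 + ‖s - 1‖ * ‖s‖ * S) := by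
    gcongr
  refine h1.trans ?_
  have h2 : ‖s - 1‖⁻¹ ≤ 1 := inv_le_one_of_one_le₀ hs1
  have h3 : ‖s - 1‖⁻¹ * (1 + ‖s - 1‖ * ‖s‖ * S) = ‖s - 1‖⁻¹ + ‖s‖ * S := by
    have : ‖s - 1‖ ≠ 0 := by positivity
    field_simp
  rw [h3]
  have h4 : 0 ≤ ‖s‖ := norm_nonneg s
  nlinarith

/-- For `Re s ≥ 2` zeta is bounded. -/
theorem norm_zeta_le_of_two_le : ∃ C : ℝ, 1 ≤ C ∧ ∀ s : ℂ, 2 ≤ s.re → ‖riemannZeta s‖ ≤ C := by
  have hsumm : Summable fun n : ℕ => (n + 1 : ℝ) ^ (-(1 : ℝ) - 1) := summable_rpow_aux one_pos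
  have hnn : ∀ n : ℕ, 0 ≤ (n + 1 : ℝ) ^ (-(1 : ℝ) - 1) := fun n => by positivity
  have hT : 0 ≤ ∑' n : ℕ, (n + 1 : ℝ) ^ (-(1 : ℝ) - 1) := tsum_nonneg hnn
  refine ⟨1 + ∑' n : ℕ, (n + 1 : ℝ) ^ (-(1 : ℝ) - 1), by linarith, ?_⟩
  intro s hs
  have hz := zeta_eq_tsum_one_div_nat_add_one_cpow (s := s) (by linarith)
  rw [hz]
  have hb : ∀ n : ℕ, ‖1 / ((n : ℂ) + 1) ^ s‖ ≤ (n + 1 : ℝ) ^ (-(1 : ℝ) - 1) := by
    intro n
    have : ((n : ℂ) + 1) = ((n + 1 : ℝ) : ℂ) := by push_cast; rfl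
    rw [this, norm_div, norm_one, norm_cpow_eq_rpow_re_of_pos (by positivity), one_div,
      ← Real.rpow_neg (by positivity)]
    apply Real.rpow_le_rpow_of_exponent_le
    · have : (0 : ℝ) ≤ n := Nat.cast_nonneg n
      linarith
    · linarith
  have := tsum_of_norm_bounded hsumm.hasSum hb
  linarith

end Pool.Agent.Lib.ZetaCrude
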