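import Pool.Agent.Lib.BrouwerC1

/-!
# Brouwer's fixed point theorem, no retraction, surjectivity of norm preserving deformations
-/

open Metric Set Topology Filter
open scoped ContDiff InnerProductSpace

namespace Pool.Agent.Brouwer

variable {E : Type*} [NormedAddCommGroup E] [InnerProductSpace ℝ E] [FiniteDimensional ℝ E]

/-- Brouwer for smooth maps. -/
theorem fixed_point_smooth {p : E → E} (hp : ContDiff ℝ 1 p)
    (hm : ∀ x ∈ closedBall (0 : E) 1, ‖p x‖ ≤ 1) : ∃ x ∈ closedBall (0 : E) 1, p x = x := by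
  by_contra hcon
  push Not at hcon
  set v : E → E := fun x => x - p x with hv
  set D : E → ℝ := fun x => ⟪x, v x⟫_ℝ ^ 2 + ‖v x‖ ^ 2 * (1 - ‖x‖ ^ 2) with hD
  set s : E → ℝ := fun x => (-⟪x, v x⟫_ℝ + Real.sqrt (D x)) / ‖v x‖ ^ 2 with hs
  set r : E → E := fun x => x + s x • v x with hr
  have hvC : ContDiff ℝ 1 v := contDiff_id.sub hp
  have hin : ContDiff ℝ 1 (fun x => ⟪x, v x⟫_ℝ) := contDiff_id.inner ℝ hvC
  have hDC : ContDiff ℝ 1 D :=
    (hin.pow 2).add ((hvC.norm_sq ℝ).mul (contDiff_const.sub (contDiff_id.norm_sq ℝ)))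
  set V : Set E := {x | v x ≠ 0 ∧ 0 < D x} with hV
  have hVo : IsOpen V := (isOpen_ne_fun hvC.continuous continuous_const).inter
    (isOpen_lt continuous_const hDC.continuous)
  have hvne : ∀ x ∈ closedBall (0 : E) 1, v x ≠ 0 := fun x hx h0 =>
    hcon x hx (sub_eq_zero.1 h0).symm
  have hinpos : ∀ x : E, ‖x‖ = 1 → 0 < ⟪x, v x⟫_ℝ := by
    intro x hx
    have hxB : x ∈ closedBall (0 : E) 1 := by rw [mem_closedBall_zero_iff, hx]
    have h1 : ⟪x, v x⟫_ℝ = 1 - ⟪x, p x⟫_ℝ := by
      rw [hv]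
      simp only [inner_sub_right, real_inner_self_eq_norm_sq, hx]
      norm_num
    rw [h1]
    have h2 : ⟪x, p x⟫_ℝ ≤ 1 := by
      refine (real_inner_le_norm _ _).trans ?_
      rw [hx, one_mul]
      exact hm x hxB
    rcases lt_or_eq_of_le h2 with h | h
    · linarith
    · exfalso
      have h3 : ‖x - p x‖ ^ 2 ≤ 0 := by
        rw [norm_sub_sq_real, hx, h]
        have := hm x hxB
        have := norm_nonneg (p x)
        nlinarith
      have h4 : ‖x - p x‖ = 0 := by
        have := norm_nonneg (x - p x)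
        nlinarith
      exact hvne x hxB (norm_eq_zero.1 h4)
  have hDpos : ∀ x ∈ closedBall (0 : E) 1, 0 < D x := by
    intro x hx
    rcases eq_or_lt_of_le (mem_closedBall_zero_iff.1 hx) with h | h
    · have := hinpos x h
      simp only [hD, h]
      nlinarith
    · have h1 : 0 < ‖v x‖ := norm_pos_iff.2 (hvne x hx)
      have h2 : 0 < 1 - ‖x‖ ^ 2 := by
        have := norm_nonneg x
        nlinarith
      simp only [hD]
      positivity
  have hBV : closedBall (0 : E) 1 ⊆ V := fun x hx => ⟨hvne x hx, hDpos x hx⟩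
  have hsC : ContDiffOn ℝ 1 s V := by
    intro x hx
    refine ContDiffAt.contDiffWithinAt ?_
    have h1 : ‖v x‖ ^ 2 ≠ 0 := by
      have := norm_pos_iff.2 hx.1
      positivity
    exact (hin.contDiffAt.neg.add (hDC.contDiffAt.sqrt hx.2.ne')).div
      (hvC.norm_sq ℝ).contDiffAt h1
  have hrC : ContDiffOn ℝ 1 r V := contDiffOn_id.add (hsC.smul hvC.contDiffOn)
  refine no_C1_retraction hVo hBV hrC ?_ ?_
  · intro x hx
    have h1 : 0 < ‖v x‖ := norm_pos_iff.2 (hvne x hx)
    have h2 : Real.sqrt (D x) ^ 2 = D x := Real.sq_sqrt (hDpos x hx).le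
    have h3 : ‖r x‖ ^ 2 = 1 := by
      have h4 : ‖r x‖ ^ 2 = ‖x‖ ^ 2 + 2 * (s x * ⟪x, v x⟫_ℝ) + (s x) ^ 2 * ‖v x‖ ^ 2 := by
        simp only [hr]
        rw [norm_add_sq_real, inner_smul_right, norm_smul, mul_pow, Real.norm_eq_abs, sq_abs]
      have h5 : s x * ‖v x‖ ^ 2 = -⟪x, v x⟫_ℝ + Real.sqrt (D x) := by
        simp only [hs]
        rw [div_mul_cancel₀]
        positivity
      have h6 : ‖v x‖ ^ 2 * (‖r x‖ ^ 2 - 1) = 0 := by
        rw [h4]
        have e1 : ‖v x‖ ^ 2 * (‖x‖ ^ 2 + 2 * (s x * ⟪x, v x⟫_ℝ) + (s x) ^ 2 * ‖v x‖ ^ 2 - 1) =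
            ‖v x‖ ^ 2 * (‖x‖ ^ 2 - 1) + 2 * ⟪x, v x⟫_ℝ * (s x * ‖v x‖ ^ 2) +
              (s x * ‖v x‖ ^ 2) ^ 2 := by ring
        rw [e1, h5]
        have e2 : Real.sqrt (D x) ^ 2 = ⟪x, v x⟫_ℝ ^ 2 + ‖v x‖ ^ 2 * (1 - ‖x‖ ^ 2) := by
          rw [h2]
        nlinarith [e2]
      have h7 : ‖v x‖ ^ 2 ≠ 0 := by positivity
      have := (mul_eq_zero.1 h6).resolve_left h7
      linarith
    have := norm_nonneg (r x)
    nlinarith
  · intro x hx
    have h1 := hinpos x hx
    have h2 : D x = ⟪x, v x⟫_ℝ ^ 2 := by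
      simp only [hD, hx]; ring
    have h3 : s x = 0 := by
      simp only [hs]
      rw [h2, Real.sqrt_sq h1.le]
      simp
    simp only [hr, h3, zero_smul, add_zero]

/-- Radial projection onto the closed unit ball. -/
noncomputable def proj (x : E) : E := (max 1 ‖x‖)⁻¹ • x

lemma continuous_proj : Continuous (proj : E → E) := by
  unfold proj
  refine Continuous.smul (Continuous.inv₀ (continuous_const.max continuous_norm) ?_) continuous_id
  intro x
  have : (1 : ℝ) ≤ max 1 ‖x‖ := le_max_left _ _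
  linarith

lemma norm_proj_le (x : E) : ‖proj x‖ ≤ 1 := by
  unfold proj
  have h1 : (0 : ℝ) < max 1 ‖x‖ := lt_of_lt_of_le one_pos (le_max_left _ _)
  rw [norm_smul, norm_inv, Real.norm_of_nonneg h1.le, inv_mul_le_iff₀ h1, mul_one]
  exact le_max_right _ _

lemma proj_eq {x : E} (h : ‖x‖ ≤ 1) : proj x = x := by
  unfold proj
  rw [max_eq_left h, inv_one, one_smul]

/-- **Brouwer's fixed point theorem** for the closed unit ball. -/
theorem fixed_point {f : E → E} (hf : ContinuousOn f (closedBall 0 1))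
    (hm : MapsTo f (closedBall 0 1) (closedBall 0 1)) : ∃ x ∈ closedBall (0 : E) 1, f x = x := by
  by_contra hcon
  push Not at hcon
  set F : E → E := fun x => f (proj x) with hF
  have hFc : Continuous F := hf.comp_continuous continuous_proj fun x => by
    rw [mem_closedBall_zero_iff]; exact norm_proj_le x
  have hFm : ∀ x, ‖F x‖ ≤ 1 := fun x => by
    have := hm (mem_closedBall_zero_iff.2 (norm_proj_le x))
    exact mem_closedBall_zero_iff.1 this
  have hcpt : IsCompact (closedBall (0 : E) 1) := isCompact_closedBall 0 1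
  obtain ⟨x₀, hx₀, hmin⟩ := hcpt.exists_isMinOn ⟨0, by simp⟩
    ((hFc.sub continuous_id).norm.continuousOn (s := closedBall (0 : E) 1))
  set m : ℝ := ‖F x₀ - x₀‖ with hm0
  have hmpos : 0 < m := by
    rw [hm0, norm_pos_iff, sub_ne_zero]
    have : proj x₀ = x₀ := proj_eq (mem_closedBall_zero_iff.1 hx₀)
    simp only [hF, this]
    exact hcon x₀ hx₀
  have hmle : ∀ x ∈ closedBall (0 : E) 1, m ≤ ‖F x - x‖ := fun x hx => hmin hx
  set ε : ℝ := m / 4 with hε
  have hε0 : 0 < ε := by positivity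
  obtain ⟨q, hq, hqF, -⟩ := hFc.exists_contDiff_approx 1 (continuous_const (y := ε))
    (fun _ => hε0)
  set p : E → E := fun x => (1 + ε)⁻¹ • q x with hp
  have hqn : ∀ x, ‖q x‖ ≤ 1 + ε := fun x => by
    have h1 : q x = F x + (q x - F x) := by abel
    rw [h1]
    refine (norm_add_le _ _).trans ?_
    have h2 := (hqF x).le
    rw [dist_eq_norm] at h2
    have := hFm x
    linarith
  obtain ⟨x, hx, hpx⟩ := fixed_point_smooth (p := p) (contDiff_const.smul hq) (fun x _ => by
    simp only [hp]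
    rw [norm_smul, norm_inv, Real.norm_of_nonneg (by linarith), inv_mul_le_iff₀ (by linarith),
      mul_one]
    exact hqn x)
  have h1 := hmle x hx
  have h2 : q x - x = ε • x := by
    have h3 : q x = (1 + ε) • x := by
      have h4 : (1 + ε) • p x = (1 + ε) • x := by rw [hpx]
      simp only [hp] at h4
      rw [smul_smul, mul_inv_cancel₀ (by linarith), one_smul] at h4
      exact h4
    rw [h3, add_smul, one_smul]; abel
  have h3 : ‖F x - x‖ ≤ 2 * ε := by
    have h4 : F x - x = (F x - q x) + (q x - x) := by abel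
    rw [h4]
    refine (norm_add_le _ _).trans ?_
    have h5 := (hqF x).le
    rw [dist_eq_norm, norm_sub_rev] at h5
    have h6 : ‖q x - x‖ ≤ ε := by
      rw [h2, norm_smul, Real.norm_of_nonneg hε0.le]
      have := mem_closedBall_zero_iff.1 hx
      nlinarith
    linarith
  linarith

/-- No retraction of the ball of radius `ρ` onto its boundary. -/
theorem no_retraction {ρ : ℝ} (hρ : 0 < ρ) {f : E → E} (hf : ContinuousOn f (closedBall 0 ρ))
    (h1 : ∀ x ∈ closedBall (0 : E) ρ, ‖f x‖ = ρ) (h2 : ∀ x, ‖x‖ = ρ → f x = x) : False := by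
  set F : E → E := fun x => -(ρ⁻¹ • f (ρ • x)) with hF
  have hmem : ∀ x ∈ closedBall (0 : E) 1, ρ • x ∈ closedBall (0 : E) ρ := by
    intro x hx
    rw [mem_closedBall_zero_iff] at hx ⊢
    rw [norm_smul, Real.norm_of_nonneg hρ.le]
    nlinarith
  have hFn : ∀ x ∈ closedBall (0 : E) 1, ‖F x‖ = 1 := by
    intro x hx
    simp only [hF]
    rw [norm_neg, norm_smul, h1 _ (hmem x hx), norm_inv, Real.norm_of_nonneg hρ.le,
      inv_mul_cancel₀ hρ.ne']
  obtain ⟨x, hx, hxF⟩ := fixed_point (f := F)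
    (((hf.comp (continuousOn_id.const_smul ρ) hmem).const_smul ρ⁻¹).neg)
    (fun x hx => by rw [mem_closedBall_zero_iff]; exact (hFn x hx).le)
  have h3 : ‖x‖ = 1 := by rw [← hxF]; exact hFn x hx
  have h4 : f (ρ • x) = ρ • x := h2 _ (by rw [norm_smul, h3, Real.norm_of_nonneg hρ.le, mul_one])
  have h5 : F x = -x := by
    simp only [hF]
    rw [h4, smul_smul, inv_mul_cancel₀ hρ.ne', one_smul]
  have h6 : x = -x := hxF.symm.trans h5
  have h7 : x = 0 := by
    have h8 : (2 : ℝ) • x = 0 := by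
      rw [two_smul]
      nth_rewrite 2 [h6]
      exact add_neg_cancel x
    exact (smul_eq_zero.1 h8).resolve_left (by norm_num)
  rw [h7, norm_zero] at h3
  norm_num at h3

/-- A map which can be deformed to the identity through norm preserving maps is surjective. -/
theorem surjective_of_norm_preserving {T : ℝ} (hT : 0 ≤ T) {Φ : ℝ → E → E}
    (hc : ContinuousOn (fun q : ℝ × E => Φ q.1 q.2) (Icc 0 T ×ˢ univ))
    (h0 : ∀ x, Φ 0 x = x) (hn : ∀ t ∈ Icc 0 T, ∀ x, ‖Φ t x‖ = ‖x‖) (y : E) :
    ∃ x, Φ T x = y := by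
  by_contra hcon
  push Not at hcon
  have hTmem : T ∈ Icc (0 : ℝ) T := ⟨hT, le_rfl⟩
  have hy0 : y ≠ 0 := by
    intro h
    have h1 : ‖Φ T 0‖ = 0 := by rw [hn T hTmem, norm_zero]
    exact hcon 0 (by rw [h, ← norm_eq_zero, h1])
  obtain ⟨ρ, hρ⟩ : ∃ ρ, ρ = ‖y‖ := ⟨_, rfl⟩
  have hρ0 : 0 < ρ := hρ ▸ norm_pos_iff.2 hy0
  -- the normalised direction of x
  set e : E → E := fun x => (ρ * ‖x‖⁻¹) • x with he
  have hen : ∀ x, x ≠ 0 → ‖e x‖ = ρ := by
    intro x hx
    simp only [he]
    have := norm_pos_iff.2 hx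
    rw [norm_smul, norm_mul, norm_inv, norm_norm, Real.norm_of_nonneg hρ0.le, mul_assoc,
      inv_mul_cancel₀ this.ne', mul_one]
  have hen' : ∀ x, ‖e x‖ ≤ ρ := by
    intro x
    by_cases hx : x = 0
    · simp only [he, hx, smul_zero, norm_zero]
      exact hρ0.le
    · exact (hen x hx).le
  have hec : ContinuousOn e {x | x ≠ 0} := by
    refine ContinuousOn.smul (continuousOn_const.mul (continuous_norm.continuousOn.inv₀ ?_))
      continuousOn_id
    intro x hx
    exact (norm_pos_iff.2 hx).ne'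
  -- time parameter
  set τ : E → ℝ := fun x => max 0 (min T (T * (2 - 2 * (‖x‖ / ρ)))) with hτ
  have hτm : ∀ x, τ x ∈ Icc (0 : ℝ) T := fun x =>
    ⟨le_max_left _ _, max_le hT (min_le_left _ _)⟩
  have hτc : Continuous τ := by
    simp only [hτ]
    fun_prop
  -- interpolation parameter
  set σ : E → ℝ := fun x => max 0 (1 - 2 * (‖x‖ / ρ)) with hσ
  have hσc : Continuous σ := by
    simp only [hσ]
    fun_prop
  have hσ1 : ∀ x, σ x ≤ 1 := by
    intro x
    simp only [hσ]
    refine max_le zero_le_one ?_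
    have : 0 ≤ ‖x‖ / ρ := by positivity
    linarith
  have hσ0 : ∀ x, 0 ≤ σ x := fun x => le_max_left _ _
  -- the vector before normalisation
  set P : E → E := fun x => Φ (τ x) (e x) with hP
  have hPn : ∀ x, ‖P x‖ = ‖e x‖ := fun x => hn _ (hτm x) _
  set W : E → E := fun x => (1 - σ x) • P x - σ x • y with hW
  have hPc : ContinuousOn P {x | x ≠ 0} := by
    refine hc.comp (hτc.continuousOn.prodMk hec) ?_
    intro x _
    exact ⟨hτm x, mem_univ _⟩
  have hWc : Continuous W := by
    rw [continuous_iff_continuousAt]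
    intro x
    by_cases hx : x = 0
    · subst hx
      have hσz : σ 0 = 1 := by simp [hσ]
      have hW0 : W 0 = -y := by simp [hW, hσz]
      rw [ContinuousAt, hW0, tendsto_iff_norm_sub_tendsto_zero]
      have hb : ∀ x, ‖W x - -y‖ ≤ (1 - σ x) * (2 * ρ) := by
        intro x
        have h1 : W x - -y = (1 - σ x) • (P x + y) := by
          simp only [hW, smul_add, sub_smul, one_smul]
          abel
        rw [h1, norm_smul, Real.norm_of_nonneg (by linarith [hσ1 x])]
        have h2 : ‖P x + y‖ ≤ 2 * ρ := by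
          refine (norm_add_le _ _).trans ?_
          rw [hPn, ← hρ]
          have := hen' x
          linarith
        have := hσ1 x
        gcongr
      have hlim : Tendsto (fun x => (1 - σ x) * (2 * ρ)) (𝓝 0) (𝓝 0) := by
        have h1 : Tendsto (fun x => (1 - σ x) * (2 * ρ)) (𝓝 0) (𝓝 ((1 - σ 0) * (2 * ρ))) :=
          ((continuous_const.sub hσc).mul continuous_const).tendsto 0
        rw [hσz, sub_self, zero_mul] at h1
        exact h1
      exact squeeze_zero (fun _ => norm_nonneg _) hb hlim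
    · have h1 : ContinuousAt P x := hPc.continuousAt (isOpen_ne.mem_nhds hx)
      exact ((continuousAt_const.sub hσc.continuousAt).smul h1).sub
        (hσc.continuousAt.smul continuousAt_const)
  have hWne : ∀ x, W x ≠ 0 := by
    intro x hx0
    have h1 : (1 - σ x) • P x = σ x • y := sub_eq_zero.1 hx0
    by_cases hx : x = 0
    · subst hx
      have hσz : σ 0 = 1 := by simp [hσ]
      rw [hσz, sub_self, zero_smul, one_smul] at h1
      exact hy0 h1.symm
    have h2 := congrArg norm h1
    rw [norm_smul, norm_smul, Real.norm_of_nonneg (by linarith [hσ1 x]),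
      Real.norm_of_nonneg (hσ0 x), hPn, hen x hx, ← hρ] at h2
    have h3 : σ x = 1 / 2 := by
      have := mul_right_cancel₀ hρ0.ne' h2
      linarith
    have h4 : P x = y := by
      rw [h3] at h1
      have h5 : ((1 : ℝ) / 2) • P x = ((1 : ℝ) / 2) • y := by
        convert h1 using 2
        norm_num
      exact smul_right_injective E (by norm_num : ((1 : ℝ) / 2) ≠ 0) h5
    have h5 : τ x = T := by
      have h6 : 1 - 2 * (‖x‖ / ρ) = 1 / 2 := by
        have : σ x = 1 - 2 * (‖x‖ / ρ) := by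
          simp only [hσ]
          refine max_eq_right ?_
          by_contra hneg
          rw [not_le] at hneg
          have : σ x = 0 := by
            simp only [hσ]
            exact max_eq_left hneg.le
          rw [h3] at this
          norm_num at this
        rw [← this, h3]
      simp only [hτ]
      have h7 : 2 - 2 * (‖x‖ / ρ) = 3 / 2 := by linarith
      rw [h7, min_eq_left (by linarith), max_eq_right hT]
    have h6 : Φ T (e x) = y := by rw [← h4, hP]; simp only [h5]
    exact hcon _ h6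
  set R : E → E := fun x => (ρ * ‖W x‖⁻¹) • W x with hR
  have hRc : Continuous R :=
    (continuous_const.mul (hWc.norm.inv₀ fun x => (norm_pos_iff.2 (hWne x)).ne')).smul hWc
  have hRn : ∀ x, ‖R x‖ = ρ := by
    intro x
    simp only [hR]
    have := norm_pos_iff.2 (hWne x)
    rw [norm_smul, norm_mul, norm_inv, norm_norm, Real.norm_of_nonneg hρ0.le, mul_assoc,
      inv_mul_cancel₀ this.ne', mul_one]
  refine no_retraction hρ0 hRc.continuousOn (fun x _ => hRn x) ?_
  intro x hx
  have hx0 : ‖x‖ / ρ = 1 := by rw [hx, div_self hρ0.ne']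
  have hσx : σ x = 0 := by
    simp only [hσ, hx0]
    norm_num
  have hτx : τ x = 0 := by
    simp only [hτ, hx0]
    norm_num
  have hex : e x = x := by
    simp only [he]
    rw [hx, mul_inv_cancel₀ hρ0.ne', one_smul]
  have hWx : W x = x := by
    simp only [hW, hσx, hP, hτx, hex, h0]
    simp
  simp only [hR, hWx]
  rw [hx, mul_inv_cancel₀ hρ0.ne', one_smul]

end Pool.Agent.Brouwer
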