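import Mathlib

/-!
# The Prekopa-Leindler inequality (midpoint form) on `Fin n → ℝ`

`Pool.Agent.Lib.PL.prekopa_leindler`: if `f x * g y ≤ h ((x+y)/2)^2` for all `x, y` then
`(∫⁻ f) * (∫⁻ g) ≤ (∫⁻ h)^2`, for measurable `f g h : (Fin n → ℝ) → ℝ≥0∞`.
-/

set_option autoImplicit false

open MeasureTheory Set
open scoped ENNReal

namespace Pool.Agent.Lib.PL

/-- One dimensional Brunn-Minkowski for midpoints, compact case. -/
lemma volume_midpoint_compact {A B C : Set ℝ} (hA : IsCompact A) (hB : IsCompact B)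
    (hAne : A.Nonempty) (hBne : B.Nonempty) (hC : ∀ a ∈ A, ∀ b ∈ B, (a + b) / 2 ∈ C) :
    volume A / 2 + volume B / 2 ≤ volume C := by
  obtain ⟨α, hα, hαmax⟩ := hA.exists_isMaxOn hAne continuousOn_id
  obtain ⟨β, hβ, hβmin⟩ := hB.exists_isMinOn hBne continuousOn_id
  set S₁ : Set ℝ := (AffineMap.homothety β (1/2 : ℝ)) '' A with hS₁
  set S₂ : Set ℝ := (AffineMap.homothety α (1/2 : ℝ)) '' B with hS₂
  have hv₁ : volume S₁ = volume A / 2 := by
    rw [hS₁, Measure.addHaar_image_homothety]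
    rw [show |(1/2 : ℝ) ^ Module.finrank ℝ ℝ| = 1/2 by norm_num]
    rw [show ENNReal.ofReal (1/2) = 2⁻¹ by
      rw [one_div, ENNReal.ofReal_inv_of_pos (by norm_num)]; norm_num]
    rw [ENNReal.div_eq_inv_mul]
  have hv₂ : volume S₂ = volume B / 2 := by
    rw [hS₂, Measure.addHaar_image_homothety]
    rw [show |(1/2 : ℝ) ^ Module.finrank ℝ ℝ| = 1/2 by norm_num]
    rw [show ENNReal.ofReal (1/2) = 2⁻¹ by
      rw [one_div, ENNReal.ofReal_inv_of_pos (by norm_num)]; norm_num]
    rw [ENNReal.div_eq_inv_mul]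
  have hm₂ : MeasurableSet S₂ := by
    apply IsCompact.measurableSet
    apply hB.image
    exact AffineMap.homothety_continuous _ _
  have hdis : AEDisjoint volume S₁ S₂ := by
    have : S₁ ∩ S₂ ⊆ {(α + β) / 2} := by
      rintro x ⟨⟨a, ha, rfl⟩, ⟨b, hb, hab⟩⟩
      have h1 : a ≤ α := hαmax ha
      have h2 : β ≤ b := hβmin hb
      simp only [AffineMap.homothety_apply, vsub_eq_sub, smul_eq_mul, vadd_eq_add] at hab ⊢
      simp only [mem_singleton_iff]
      linarith
    exact measure_mono_null this (by simp)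
  have hun : volume (S₁ ∪ S₂) = volume S₁ + volume S₂ :=
    measure_union₀ hm₂.nullMeasurableSet hdis
  rw [← hv₁, ← hv₂, ← hun]
  apply measure_mono
  rintro x (⟨a, ha, rfl⟩ | ⟨b, hb, rfl⟩)
  · have := hC a ha β hβ
    simp only [AffineMap.homothety_apply, vsub_eq_sub, smul_eq_mul, vadd_eq_add]
    convert this using 1
    ring
  · have := hC α hα b hb
    simp only [AffineMap.homothety_apply, vsub_eq_sub, smul_eq_mul, vadd_eq_add]
    convert this using 1
    ring

/-- One dimensional Brunn-Minkowski for midpoints. -/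
lemma volume_midpoint {A B C : Set ℝ} (hA : MeasurableSet A) (hB : MeasurableSet B)
    (hAne : A.Nonempty) (hBne : B.Nonempty) (hC : ∀ a ∈ A, ∀ b ∈ B, (a + b) / 2 ∈ C) :
    volume A / 2 + volume B / 2 ≤ volume C := by
  obtain ⟨a₀, ha₀⟩ := hAne
  obtain ⟨b₀, hb₀⟩ := hBne
  have key : ∀ K₁ ⊆ A, IsCompact K₁ → ∀ K₂ ⊆ B, IsCompact K₂ →
      volume K₁ / 2 + volume K₂ / 2 ≤ volume C := by
    intro K₁ hK₁ hc₁ K₂ hK₂ hc₂
    have h := volume_midpoint_compact (A := insert a₀ K₁) (B := insert b₀ K₂) (C := C)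
      (hc₁.insert a₀) (hc₂.insert b₀) ⟨a₀, mem_insert _ _⟩ ⟨b₀, mem_insert _ _⟩
      (fun a ha b hb => hC a (insert_subset ha₀ hK₁ ha) b (insert_subset hb₀ hK₂ hb))
    refine le_trans ?_ h
    gcongr
    · exact subset_insert _ _
    · exact subset_insert _ _
  have hA' : volume A = ⨆ K : {K : Set ℝ // K ⊆ A ∧ IsCompact K}, volume K.1 := by
    rw [hA.measure_eq_iSup_isCompact]; simp [iSup_subtype, iSup_and]
  have hB' : volume B = ⨆ K : {K : Set ℝ // K ⊆ B ∧ IsCompact K}, volume K.1 := by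
    rw [hB.measure_eq_iSup_isCompact]; simp [iSup_subtype, iSup_and]
  have : Nonempty {K : Set ℝ // K ⊆ A ∧ IsCompact K} :=
    ⟨⟨∅, empty_subset _, isCompact_empty⟩⟩
  have : Nonempty {K : Set ℝ // K ⊆ B ∧ IsCompact K} :=
    ⟨⟨∅, empty_subset _, isCompact_empty⟩⟩
  rw [hA', hB']
  simp only [ENNReal.div_eq_inv_mul, ENNReal.mul_iSup]
  refine ENNReal.iSup_add_iSup_le ?_
  rintro ⟨K₁, hK₁, hc₁⟩ ⟨K₂, hK₂, hc₂⟩
  have := key K₁ hK₁ hc₁ K₂ hK₂ hc₂
  simpa only [ENNReal.div_eq_inv_mul] using this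

/-- One dimensional inequality with equal suprema. -/
lemma pl_one_eq {f g h : ℝ → ℝ≥0∞} (hf : Measurable f) (hg : Measurable g) (hh : Measurable h)
    {c : ℝ≥0∞} (hc : c ≠ ∞) (hfc : ∀ x, f x ≤ c) (hgc : ∀ x, g x ≤ c)
    (hfs : ∀ t < c, ∃ x, t < f x) (hgs : ∀ t < c, ∃ x, t < g x)
    (H : ∀ x y, f x * g y ≤ h ((x + y) / 2) ^ 2) :
    (∫⁻ x, f x) / 2 + (∫⁻ x, g x) / 2 ≤ ∫⁻ x, h x := by
  have lay : ∀ {F : ℝ → ℝ≥0∞}, Measurable F → (∀ x, F x ≤ c) →
      ∫⁻ x, F x = ∫⁻ t in Ioi (0:ℝ), volume {x | ENNReal.ofReal t < F x} := by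
    intro F hF hFc
    have hFfin : ∀ x, F x ≠ ∞ := fun x => ne_top_of_le_ne_top hc (hFc x)
    have h1 : ∀ x, F x = ENNReal.ofReal ((F x).toReal) := fun x =>
      (ENNReal.ofReal_toReal (hFfin x)).symm
    have h2 := lintegral_eq_lintegral_meas_lt (f := fun x => (F x).toReal) volume
      (Filter.Eventually.of_forall (fun x => ENNReal.toReal_nonneg))
      (hF.ennreal_toReal.aemeasurable)
    rw [lintegral_congr h1, h2]
    refine setLIntegral_congr_fun measurableSet_Ioi ?_
    intro t ht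
    simp only
    congr 1
    ext x
    simp only [mem_ofPred_eq]
    rw [ENNReal.ofReal_lt_iff_lt_toReal (le_of_lt ht) (hFfin x)]
  set h' : ℝ → ℝ≥0∞ := fun x => min (h x) c with hh'
  have hh'm : Measurable h' := hh.min measurable_const
  have hh'c : ∀ x, h' x ≤ c := fun x => min_le_right _ _
  calc (∫⁻ x, f x) / 2 + (∫⁻ x, g x) / 2
      = ∫⁻ t in Ioi (0:ℝ), (volume {x | ENNReal.ofReal t < f x} / 2
          + volume {x | ENNReal.ofReal t < g x} / 2) := by
        rw [lay hf hfc, lay hg hgc]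
        have hmf : Measurable fun t : ℝ => volume {x | ENNReal.ofReal t < f x} := by
          apply Antitone.measurable
          intro s t hst
          exact measure_mono (fun x hx => lt_of_le_of_lt (ENNReal.ofReal_le_ofReal hst) hx)
        rw [lintegral_add_left (by exact hmf.div_const 2)]
        simp only [ENNReal.div_eq_inv_mul]
        rw [lintegral_const_mul' _ _ (by norm_num), lintegral_const_mul' _ _ (by norm_num)]
    _ ≤ ∫⁻ t in Ioi (0:ℝ), volume {x | ENNReal.ofReal t < h' x} := by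
        refine setLIntegral_mono' measurableSet_Ioi ?_
        intro t ht
        by_cases htc : ENNReal.ofReal t < c
        · apply volume_midpoint
          · exact measurableSet_lt measurable_const hf
          · exact measurableSet_lt measurable_const hg
          · exact hfs _ htc
          · exact hgs _ htc
          · intro a ha b hb
            simp only [mem_ofPred_eq] at ha hb ⊢
            refine lt_min ?_ htc
            by_contra hcon
            push Not at hcon
            have h1 := H a b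
            have h2 : h ((a + b) / 2) ^ 2 ≤ (ENNReal.ofReal t) ^ 2 := by gcongr
            have h3 : (ENNReal.ofReal t) ^ 2 < f a * g b := by
              rw [sq]
              exact ENNReal.mul_lt_mul ha hb
            exact absurd (h3.trans_le (h1.trans h2)) (lt_irrefl _)
        · have e1 : {x | ENNReal.ofReal t < f x} = ∅ := by
            ext x
            simp only [mem_ofPred_eq, mem_empty_iff_false, iff_false, not_lt]
            exact (hfc x).trans (not_lt.mp htc)
          have e2 : {x | ENNReal.ofReal t < g x} = ∅ := by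
            ext x
            simp only [mem_ofPred_eq, mem_empty_iff_false, iff_false, not_lt]
            exact (hgc x).trans (not_lt.mp htc)
          rw [e1, e2]
          simp
    _ = ∫⁻ x, h' x := (lay hh'm hh'c).symm
    _ ≤ ∫⁻ x, h x := lintegral_mono (fun x => min_le_left _ _)

/-- AM-GM in `ℝ≥0∞`. -/
lemma mul_le_half_add_sq (x y : ℝ≥0∞) : x * y ≤ (x / 2 + y / 2) ^ 2 := by
  by_cases hx : x = ∞
  · have : x / 2 + y / 2 = ∞ := by rw [hx]; simp [ENNReal.top_div]
    rw [this]; simp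
  by_cases hy : y = ∞
  · have : x / 2 + y / 2 = ∞ := by rw [hy]; simp [ENNReal.top_div]
    rw [this]; simp
  lift x to NNReal using hx
  lift y to NNReal using hy
  have : (x : ℝ≥0∞) * y = ((x * y : NNReal) : ℝ≥0∞) := by push_cast; rfl
  have h2 : ((x : ℝ≥0∞) / 2 + y / 2) ^ 2 = (((x / 2 + y / 2) ^ 2 : NNReal) : ℝ≥0∞) := by
    push_cast
    rfl
  rw [this, h2, ENNReal.coe_le_coe]
  rw [← NNReal.coe_le_coe]
  push_cast
  nlinarith [sq_nonneg ((x : ℝ) - y)]

/-- One dimensional Prekopa-Leindler for bounded functions. -/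
lemma pl_one_bdd {f g h : ℝ → ℝ≥0∞} (hf : Measurable f) (hg : Measurable g) (hh : Measurable h)
    (hfb : (⨆ x, f x) ≠ ∞) (hgb : (⨆ x, g x) ≠ ∞)
    (H : ∀ x y, f x * g y ≤ h ((x + y) / 2) ^ 2) :
    (∫⁻ x, f x) * (∫⁻ x, g x) ≤ (∫⁻ x, h x) ^ 2 := by
  set a := ⨆ x, f x with ha
  set b := ⨆ x, g x with hb
  by_cases ha0 : a = 0
  · have : ∀ x, f x = 0 := fun x => by
      have := le_iSup f x
      rw [← ha, ha0] at this
      exact le_antisymm this zero_le
    simp [this]
  by_cases hb0 : b = 0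
  · have : ∀ x, g x = 0 := fun x => by
      have := le_iSup g x
      rw [← hb, hb0] at this
      exact le_antisymm this zero_le
    simp [this]
  -- scale so that both suprema are equal to `a * b`... we use `f₁ = f * b`, `g₁ = g * a`
  have h1 := pl_one_eq (f := fun x => b * f x) (g := fun x => a * g x)
    (h := fun x => (a * b) ^ (1/2 : ℝ) * h x) (hf.const_mul _) (hg.const_mul _) (hh.const_mul _)
    (c := a * b) (ENNReal.mul_ne_top hfb hgb)
    (fun x => by rw [mul_comm a b]; gcongr; exact le_iSup f x)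
    (fun x => by gcongr; exact le_iSup g x)
    (by
      intro t ht
      have : t / b < a := by
        rw [ENNReal.div_lt_iff (Or.inl hb0) (Or.inl hgb)]
        exact ht
      obtain ⟨x, hx⟩ := lt_iSup_iff.mp this
      refine ⟨x, ?_⟩
      rw [ENNReal.div_lt_iff (Or.inl hb0) (Or.inl hgb)] at hx
      rwa [mul_comm]
      )
    (by
      intro t ht
      have : t / a < b := by
        rw [ENNReal.div_lt_iff (Or.inl ha0) (Or.inl hfb), mul_comm b a]
        exact ht
      obtain ⟨x, hx⟩ := lt_iSup_iff.mp this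
      refine ⟨x, ?_⟩
      rw [ENNReal.div_lt_iff (Or.inl ha0) (Or.inl hfb)] at hx
      rwa [mul_comm]
      )
    (by
      intro x y
      have e : ((a * b) ^ (1/2 : ℝ)) ^ 2 = a * b := by
        rw [← ENNReal.rpow_natCast, ← ENNReal.rpow_mul]; norm_num
      calc b * f x * (a * g y) = (a * b) * (f x * g y) := by ring
        _ ≤ (a * b) * (h ((x + y) / 2)) ^ 2 := by gcongr; exact H x y
        _ = _ := by rw [mul_pow, e])
  have e : ((a * b) ^ (1/2 : ℝ)) ^ 2 = a * b := by
    rw [← ENNReal.rpow_natCast, ← ENNReal.rpow_mul]; norm_num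
  have h2 : (a * b) * ((∫⁻ x, f x) * (∫⁻ x, g x)) ≤ (a * b) * (∫⁻ x, h x) ^ 2 := by
    calc (a * b) * ((∫⁻ x, f x) * (∫⁻ x, g x))
        = (∫⁻ x, b * f x) * (∫⁻ x, a * g x) := by
          rw [lintegral_const_mul _ hf, lintegral_const_mul _ hg]; ring
      _ ≤ ((∫⁻ x, b * f x) / 2 + (∫⁻ x, a * g x) / 2) ^ 2 := mul_le_half_add_sq _ _
      _ ≤ (∫⁻ x, (a * b) ^ (1/2 : ℝ) * h x) ^ 2 := by gcongr
      _ = (a * b) * (∫⁻ x, h x) ^ 2 := by
          rw [lintegral_const_mul _ hh, mul_pow, e]
  have hab0 : a * b ≠ 0 := mul_ne_zero ha0 hb0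
  have habt : a * b ≠ ∞ := ENNReal.mul_ne_top hfb hgb
  exact (ENNReal.mul_le_mul_iff_right hab0 habt).mp h2

/-- One dimensional Prekopa-Leindler. -/
lemma pl_one {f g h : ℝ → ℝ≥0∞} (hf : Measurable f) (hg : Measurable g) (hh : Measurable h)
    (H : ∀ x y, f x * g y ≤ h ((x + y) / 2) ^ 2) :
    (∫⁻ x, f x) * (∫⁻ x, g x) ≤ (∫⁻ x, h x) ^ 2 := by
  have lim : ∀ {F : ℝ → ℝ≥0∞}, Measurable F →
      ∫⁻ x, F x = ⨆ N : ℕ, ∫⁻ x, min (F x) N := by
    intro F hF
    rw [← lintegral_iSup (fun N => hF.min measurable_const)]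
    · refine lintegral_congr (fun x => ?_)
      apply le_antisymm
      · refine le_of_forall_lt (fun t ht => ?_)
        obtain ⟨N, hN⟩ := ENNReal.exists_nat_gt (ne_top_of_lt ht)
        exact lt_iSup_iff.mpr ⟨N, lt_min ht hN⟩
      · exact iSup_le (fun N => min_le_left _ _)
    · intro N M hNM x
      simp only
      gcongr
  rw [lim hf, lim hg, ENNReal.iSup_mul]
  refine iSup_le (fun N => ?_)
  rw [ENNReal.mul_iSup]
  refine iSup_le (fun M => ?_)
  apply pl_one_bdd (hf.min measurable_const) (hg.min measurable_const) hh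
  · exact ne_top_of_le_ne_top (ENNReal.natCast_ne_top N) (iSup_le (fun x => min_le_right _ _))
  · exact ne_top_of_le_ne_top (ENNReal.natCast_ne_top M) (iSup_le (fun x => min_le_right _ _))
  · intro x y
    refine le_trans ?_ (H x y)
    gcongr <;> exact min_le_left _ _

/-- Prekopa-Leindler (midpoint form) on `Fin n → ℝ`. -/
theorem prekopa_leindler : ∀ (n : ℕ) {f g h : (Fin n → ℝ) → ℝ≥0∞} (_ : Measurable f)
    (_ : Measurable g) (_ : Measurable h)
    (_ : ∀ x y, f x * g y ≤ h ((1 / 2 : ℝ) • (x + y)) ^ 2),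
    (∫⁻ x, f x) * (∫⁻ x, g x) ≤ (∫⁻ x, h x) ^ 2 := by
  intro n
  induction n with
  | zero =>
    intro f g h hf hg hh H
    have : ∀ F : (Fin 0 → ℝ) → ℝ≥0∞, Measurable F → ∫⁻ x, F x = F 0 := by
      intro F hF
      have hv : (volume : Measure (Fin 0 → ℝ)) = Measure.dirac 0 := by
        rw [volume_pi, Measure.pi_of_empty (fun _ => volume) 0]
      rw [hv, lintegral_dirac' _ hF]
    rw [this f hf, this g hg, this h hh]
    have := H 0 0
    simpa using this
  | succ n ih =>
    intro f g h hf hg hh H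
    set e := (MeasurableEquiv.piFinSuccAbove (fun _ : Fin (n+1) => ℝ) 0).symm with he
    have hmp : MeasurePreserving e (volume.prod volume) volume :=
      (volume_preserving_piFinSuccAbove (fun _ : Fin (n+1) => ℝ) 0).symm
    have fub : ∀ F : (Fin (n+1) → ℝ) → ℝ≥0∞, Measurable F →
        ∫⁻ x, F x = ∫⁻ s : ℝ, ∫⁻ x : Fin n → ℝ, F (e (s, x)) := by
      intro F hF
      rw [← hmp.lintegral_comp hF]
      exact lintegral_prod (fun z => F (e z)) (hF.comp e.measurable).aemeasurable
    have meas : ∀ F : (Fin (n+1) → ℝ) → ℝ≥0∞, Measurable F →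
        Measurable (fun s : ℝ => ∫⁻ x : Fin n → ℝ, F (e (s, x))) := by
      intro F hF
      exact (hF.comp e.measurable).lintegral_prod_right'
    rw [fub f hf, fub g hg, fub h hh]
    apply pl_one (meas f hf) (meas g hg) (meas h hh)
    intro s t
    apply ih
    · exact (hf.comp e.measurable).comp (measurable_const.prodMk measurable_id)
    · exact (hg.comp e.measurable).comp (measurable_const.prodMk measurable_id)
    · exact (hh.comp e.measurable).comp (measurable_const.prodMk measurable_id)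
    · intro x y
      have := H (e (s, x)) (e (t, y))
      convert this using 3
      ext i
      refine Fin.cases ?_ (fun j => ?_) i
      · simp [he, MeasurableEquiv.piFinSuccAbove]
        ring
      · simp [he, MeasurableEquiv.piFinSuccAbove]
        ring

end Pool.Agent.Lib.PL
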