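import Mathlib

/-!
# A weighted two-constants theorem

An analytic function in a rectangle `[0,K] × [-K,K]`, bounded by `M₀`, and by `M₀ e^{-Λ w(y)}` on
the left side, is bounded by about `M₀ e^{-Λ u}` inside, `u` the Poisson integral of `w`.
-/

namespace Pool.Agent.Lib.TwoConst

open Complex Filter Topology Set MeasureTheory intervalIntegral

/-- the Cauchy transform of the weight -/
noncomputable def H (w : ℝ → ℝ) (L x₀ : ℝ) (z : ℂ) : ℂ :=
  (1 / Real.pi : ℝ) * ∫ t in (-L)..L, (w t : ℂ) / (z + x₀ - t * I)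

/-- the Poisson kernel (without the factor `1/π`) -/
noncomputable def P (x y t : ℝ) : ℝ := x / (x ^ 2 + (y - t) ^ 2)

lemma den_ne {z : ℂ} {x₀ t : ℝ} (hz : 0 < z.re + x₀) : z + x₀ - t * I ≠ 0 := by
  intro h
  have := congrArg Complex.re h
  simp at this
  linarith

lemma kernel_re {z : ℂ} {x₀ t w : ℝ} :
    ((w : ℂ) / (z + x₀ - t * I)).re = w * P (z.re + x₀) z.im t := by
  rw [div_eq_mul_inv, re_ofReal_mul, inv_re]
  congr 1
  unfold P
  rw [normSq_apply]
  simp
  ring_nf

lemma continuous_kernel {w : ℝ → ℝ} (hw : Continuous w) {z : ℂ} {x₀ : ℝ} (hz : 0 < z.re + x₀) :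
    Continuous fun t : ℝ => (w t : ℂ) / (z + x₀ - t * I) := by
  apply Continuous.div
  · exact continuous_ofReal.comp hw
  · fun_prop
  · intro t; exact den_ne hz

lemma H_re {w : ℝ → ℝ} (hw : Continuous w) {L x₀ : ℝ} {z : ℂ} (hz : 0 < z.re + x₀) :
    (H w L x₀ z).re = 1 / Real.pi * ∫ t in (-L)..L, w t * P (z.re + x₀) z.im t := by
  unfold H
  rw [re_ofReal_mul]
  congr 1
  have h := Complex.reCLM.intervalIntegral_comp_comm
    ((continuous_kernel hw hz).intervalIntegrable (μ := volume) (-L) L)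
  simp only [Complex.reCLM_apply] at h
  rw [← h]
  apply intervalIntegral.integral_congr
  intro t _
  exact kernel_re

lemma differentiableAt_H {w : ℝ → ℝ} (hw : Continuous w) {L x₀ : ℝ} {z : ℂ}
    (hz : 0 < z.re + x₀) : DifferentiableAt ℂ (H w L x₀) z := by
  unfold H
  apply DifferentiableAt.const_mul
  set r : ℝ := (z.re + x₀) / 2 with hr
  have hr0 : 0 < r := by positivity
  have hball : ∀ z' ∈ Metric.ball z r, r < z'.re + x₀ := by
    intro z' hz'
    rw [Metric.mem_ball, dist_eq_norm] at hz'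
    have := abs_re_le_norm (z' - z)
    rw [sub_re, abs_le] at this
    linarith
  have hbd : ∀ z' ∈ Metric.ball z r, ∀ t : ℝ, r ≤ ‖z' + x₀ - t * I‖ := by
    intro z' hz' t
    have h1 := hball z' hz'
    have h2 := re_le_norm (z' + x₀ - t * I)
    simp at h2
    linarith
  obtain ⟨Bw, hBw⟩ := (isCompact_Icc (a := -|L|) (b := |L|)).exists_bound_of_continuousOn
    hw.continuousOn
  have hsub : Set.uIoc (-L) L ⊆ Icc (-|L|) |L| := by
    intro t ht
    rw [Set.mem_uIoc] at ht
    rcases ht with ⟨h1, h2⟩ | ⟨h1, h2⟩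
    · exact ⟨by linarith [neg_le_abs L, le_abs_self L, neg_abs_le L], h2.trans (le_abs_self L)⟩
    · exact ⟨by linarith [neg_abs_le L], by linarith [neg_le_abs L]⟩
  have key := intervalIntegral.hasDerivAt_integral_of_dominated_loc_of_deriv_le
    (μ := volume) (a := -L) (b := L) (x₀ := z) (s := Metric.ball z r)
    (F := fun z' t => (w t : ℂ) / (z' + x₀ - t * I))
    (F' := fun z' t => -(w t : ℂ) / (z' + x₀ - t * I) ^ 2)
    (bound := fun _ => |Bw| / r ^ 2)
    (Metric.ball_mem_nhds z hr0) ?_ ?_ ?_ ?_ ?_ ?_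
  · exact key.2.differentiableAt
  · filter_upwards [Metric.ball_mem_nhds z hr0] with z' hz'
    exact (continuous_kernel hw (by linarith [hball z' hz'])).aestronglyMeasurable
  · exact (continuous_kernel hw hz).intervalIntegrable _ _
  · have : Continuous fun t : ℝ => -(w t : ℂ) / (z + x₀ - t * I) ^ 2 := by
      apply Continuous.div
      · exact (continuous_ofReal.comp hw).neg
      · fun_prop
      · intro t; exact pow_ne_zero 2 (den_ne hz)
    exact this.aestronglyMeasurable
  · refine Filter.Eventually.of_forall ?_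
    intro t ht z' hz'
    rw [norm_div, norm_neg, Complex.norm_real, norm_pow]
    have h1 := hBw t (hsub ht)
    have h2 : ‖w t‖ ≤ |Bw| := h1.trans (le_abs_self _)
    have h3 := hbd z' hz' t
    gcongr
  · exact intervalIntegrable_const
  · refine Filter.Eventually.of_forall ?_
    intro t ht z' hz'
    have hne : z' + x₀ - t * I ≠ 0 := den_ne (by linarith [hball z' hz'])
    have h1 : HasDerivAt (fun z'' : ℂ => z'' + x₀ - t * I) 1 z' :=
      ((hasDerivAt_id z').add_const _).sub_const _
    have h2 := (hasDerivAt_const z' (w t : ℂ)).div h1 hne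
    exact h2.congr_deriv (by ring)

lemma P_nonneg {x : ℝ} (hx : 0 ≤ x) (y t : ℝ) : 0 ≤ P x y t := by
  unfold P; positivity

lemma continuous_P {x : ℝ} (hx : 0 < x) (y : ℝ) : Continuous (P x y) := by
  unfold P
  apply Continuous.div
  · fun_prop
  · fun_prop
  · intro t; positivity

lemma integral_P {x : ℝ} (hx : 0 < x) (y a b : ℝ) :
    ∫ t in a..b, P x y t = Real.arctan ((b - y) / x) - Real.arctan ((a - y) / x) := by
  apply integral_eq_sub_of_hasDerivAt
  · intro t _
    have h1 : HasDerivAt (fun t : ℝ => (t - y) / x) (1 / x) t :=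
      ((hasDerivAt_id t).sub_const y).div_const x
    have h2 := h1.arctan
    refine h2.congr_deriv ?_
    unfold P
    field_simp
    ring
  · exact (continuous_P hx y).intervalIntegrable _ _

lemma integral_P_le {x : ℝ} (hx : 0 < x) (y a b : ℝ) : ∫ t in a..b, P x y t ≤ Real.pi := by
  rw [integral_P hx]
  have h1 := Real.arctan_lt_pi_div_two ((b - y) / x)
  have h2 := Real.neg_pi_div_two_lt_arctan ((a - y) / x)
  linarith

/-- approximate identity, one-sided -/
lemma exists_small {w : ℝ → ℝ} (hw : Continuous w) (hw0 : ∀ t, 0 ≤ w t) (hw1 : ∀ t, w t ≤ 1)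
    {L K η a : ℝ} (hL : 0 < L) (hLK : L < K) (hη : 0 < η) (ha : 0 < a) :
    ∃ x₀ : ℝ, 0 < x₀ ∧ x₀ < a ∧ ∀ y : ℝ, |y| ≤ K →
      1 / Real.pi * ∫ t in (-L)..L, w t * P x₀ y t ≤ w y + η := by
  have hpi := Real.pi_pos
  have huc := (isCompact_Icc (a := -K) (b := K)).uniformContinuousOn_of_continuous hw.continuousOn
  rw [Metric.uniformContinuousOn_iff] at huc
  obtain ⟨r, hr, hur⟩ := huc (η / 2) (by positivity)
  set x₀ : ℝ := min (a / 2) (Real.pi * η * r ^ 2 / (4 * L)) with hx₀
  have hx₀0 : 0 < x₀ := lt_min (by positivity) (by positivity)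
  have hx₀a : x₀ < a := (min_le_left _ _).trans_lt (by linarith)
  have hx₀r : x₀ ≤ Real.pi * η * r ^ 2 / (4 * L) := min_le_right _ _
  refine ⟨x₀, hx₀0, hx₀a, ?_⟩
  intro y hy
  rw [abs_le] at hy
  have hpt : ∀ t ∈ Icc (-L) L, w t * P x₀ y t ≤ (w y + η / 2) * P x₀ y t + x₀ / r ^ 2 := by
    intro t ht
    have hP := P_nonneg hx₀0.le y t
    by_cases hd : dist t y < r
    · have h1 := hur t ⟨by linarith [ht.1], by linarith [ht.2]⟩ y ⟨hy.1, hy.2⟩ hd
      rw [Real.dist_eq, abs_lt] at h1
      have h2 : w t ≤ w y + η / 2 := by linarith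
      have h3 : 0 ≤ x₀ / r ^ 2 := by positivity
      nlinarith
    · push Not at hd
      rw [Real.dist_eq] at hd
      have h1 : P x₀ y t ≤ x₀ / r ^ 2 := by
        unfold P
        apply div_le_div_of_nonneg_left hx₀0.le (by positivity)
        have h4 : r ^ 2 ≤ (y - t) ^ 2 := by
          rw [← sq_abs (y - t), abs_sub_comm]
          exact pow_le_pow_left₀ hr.le hd 2
        nlinarith [sq_nonneg x₀]
      have h2 : w t * P x₀ y t ≤ P x₀ y t := by nlinarith [hw1 t]
      have h3 : 0 ≤ (w y + η / 2) * P x₀ y t := by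
        have := hw0 y
        positivity
      linarith
  have hint : ∫ t in (-L)..L, w t * P x₀ y t ≤
      ∫ t in (-L)..L, ((w y + η / 2) * P x₀ y t + x₀ / r ^ 2) := by
    apply integral_mono_on (by linarith)
    · exact (hw.mul (continuous_P hx₀0 y)).intervalIntegrable _ _
    · exact (((continuous_P hx₀0 y).const_mul _).add continuous_const).intervalIntegrable _ _
    · exact hpt
  have hint2 : ∫ t in (-L)..L, ((w y + η / 2) * P x₀ y t + x₀ / r ^ 2) =
      (w y + η / 2) * (∫ t in (-L)..L, P x₀ y t) + 2 * L * (x₀ / r ^ 2) := by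
    rw [intervalIntegral.integral_add, intervalIntegral.integral_const_mul,
      intervalIntegral.integral_const]
    · rw [smul_eq_mul]; ring
    · exact ((continuous_P hx₀0 y).const_mul _).intervalIntegrable _ _
    · exact continuous_const.intervalIntegrable _ _
  have hle := integral_P_le hx₀0 y (-L) L
  have h5 : (w y + η / 2) * (∫ t in (-L)..L, P x₀ y t) ≤ (w y + η / 2) * Real.pi := by
    apply mul_le_mul_of_nonneg_left hle
    have := hw0 y
    positivity
  have h6 : 2 * L * (x₀ / r ^ 2) ≤ Real.pi * (η / 2) := by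
    rw [le_div_iff₀ (by positivity)] at hx₀r
    rw [← mul_div_assoc, div_le_iff₀ (by positivity)]
    nlinarith
  rw [hint2] at hint
  have h7 : ∫ t in (-L)..L, w t * P x₀ y t ≤ Real.pi * (w y + η) := by linarith
  rw [one_div, inv_mul_le_iff₀ hpi]
  linarith

/-- the weighted two-constants theorem -/
theorem two_const {f : ℂ → ℂ} {w : ℝ → ℝ} (hw : Continuous w) (hw0 : ∀ t, 0 ≤ w t)
    (hw1 : ∀ t, w t ≤ 1) {L K η a Λ M₀ : ℝ} (hL : 0 < L) (hη : 0 < η)
    (ha : 0 < a) (hΛ : 0 ≤ Λ) (hM₀ : 0 ≤ M₀) (hKL : 2 * L / (Real.pi * (K - L)) ≤ η) (hLK : L < K)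
    (hf : ∀ z : ℂ, 0 ≤ z.re → z.re ≤ K → |z.im| ≤ K → DifferentiableAt ℂ f z)
    (hb : ∀ z : ℂ, 0 ≤ z.re → z.re ≤ K → |z.im| ≤ K → ‖f z‖ ≤ M₀)
    (hl : ∀ y : ℝ, |y| ≤ K → ‖f (y * I)‖ * Real.exp (Λ * w y) ≤ M₀) :
    ∃ x₀ : ℝ, 0 < x₀ ∧ x₀ < a ∧ ∀ x : ℝ, 0 < x → x < K →
      ‖f x‖ * Real.exp (Λ * (1 / Real.pi * ∫ t in (-L)..L, w t * P (x + x₀) 0 t)) ≤
        M₀ * Real.exp (Λ * η) := by
  have hpi := Real.pi_pos
  have hK : 0 < K := by linarith
  obtain ⟨x₀, hx₀, hx₀a, hsmall⟩ := exists_small hw hw0 hw1 hL hLK hη ha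
  refine ⟨x₀, hx₀, hx₀a, ?_⟩
  intro x hx hxK
  let U : Set ℂ := {z | 0 < z.re ∧ z.re < K ∧ -K < z.im ∧ z.im < K}
  have hUopen : IsOpen U := by
    apply IsOpen.inter (isOpen_lt continuous_const continuous_re)
    apply IsOpen.inter (isOpen_lt continuous_re continuous_const)
    exact IsOpen.inter (isOpen_lt continuous_const continuous_im)
      (isOpen_lt continuous_im continuous_const)
  have hclU : closure U ⊆ {z | 0 ≤ z.re ∧ z.re ≤ K ∧ -K ≤ z.im ∧ z.im ≤ K} := by
    apply closure_minimal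
    · rintro z ⟨a, b, c, d⟩
      exact ⟨a.le, b.le, c.le, d.le⟩
    · apply IsClosed.inter (isClosed_le continuous_const continuous_re)
      apply IsClosed.inter (isClosed_le continuous_re continuous_const)
      exact IsClosed.inter (isClosed_le continuous_const continuous_im)
        (isClosed_le continuous_im continuous_const)
  have hUbdd : Bornology.IsBounded U := by
    rw [isBounded_iff_forall_norm_le]
    refine ⟨K + K, ?_⟩
    rintro z ⟨h1, h2, h3, h4⟩
    refine (norm_le_abs_re_add_abs_im z).trans ?_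
    have h5 : |z.re| ≤ K := by rw [abs_le]; constructor <;> linarith
    have h6 : |z.im| ≤ K := by rw [abs_le]; constructor <;> linarith
    linarith
  let Φ : ℂ → ℂ := fun z => f z * Complex.exp (Λ * H w L x₀ z)
  have hΦn : ∀ z, ‖Φ z‖ = ‖f z‖ * Real.exp (Λ * (H w L x₀ z).re) := by
    intro z
    simp only [Φ, norm_mul, Complex.norm_exp, re_ofReal_mul]
  have hΦd : DiffContOnCl ℂ Φ U := by
    apply DifferentiableOn.diffContOnCl
    intro z hz
    obtain ⟨h1, h2, h3, h4⟩ := hclU hz
    apply DifferentiableAt.differentiableWithinAt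
    apply (hf z h1 h2 (abs_le.mpr ⟨h3, h4⟩)).mul
    apply DifferentiableAt.cexp
    exact (differentiableAt_H hw (by linarith)).const_mul _
  -- far sides
  have hfar : ∀ z : ℂ, 0 ≤ z.re → (∀ t : ℝ, |t| ≤ L → K - L ≤ ‖z + x₀ - t * I‖) →
      (H w L x₀ z).re ≤ η := by
    intro z hz hfar
    have h0 : 0 < z.re + x₀ := by linarith
    have h1 : ‖∫ t in (-L)..L, (w t : ℂ) / (z + x₀ - t * I)‖ ≤ (1 / (K - L)) * |L - -L| := by
      apply intervalIntegral.norm_integral_le_of_norm_le_const
      intro t ht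
      rw [Set.uIoc_of_le (by linarith)] at ht
      have h2 := hfar t (abs_le.mpr ⟨ht.1.le, ht.2⟩)
      rw [norm_div, Complex.norm_real, Real.norm_of_nonneg (hw0 t)]
      apply div_le_div₀ (by norm_num) (hw1 t) (by linarith) h2
    have h3 : (H w L x₀ z).re ≤ ‖H w L x₀ z‖ := re_le_norm _
    have h4 : ‖H w L x₀ z‖ ≤ 1 / Real.pi * ((1 / (K - L)) * |L - -L|) := by
      unfold H
      rw [norm_mul, Complex.norm_real, Real.norm_of_nonneg (by positivity)]
      gcongr
    have h5 : 1 / Real.pi * ((1 / (K - L)) * |L - -L|) = 2 * L / (Real.pi * (K - L)) := by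
      rw [abs_of_pos (by linarith)]
      have : K - L ≠ 0 := by linarith
      field_simp
      ring
    linarith
  have hfront : ∀ z ∈ frontier U, ‖Φ z‖ ≤ M₀ * Real.exp (Λ * η) := by
    intro z hz
    rw [hUopen.frontier_eq] at hz
    obtain ⟨hzc, hzU⟩ := hz
    obtain ⟨h1, h2, h3, h4⟩ := hclU hzc
    have habs : |z.im| ≤ K := abs_le.mpr ⟨h3, h4⟩
    rw [hΦn]
    by_cases h0 : z.re = 0
    · have hz' : z = (z.im : ℝ) * I := by
        apply Complex.ext <;> simp [h0]
      have hre := H_re hw (L := L) (x₀ := x₀) (z := z) (by linarith)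
      have hs := hsmall z.im habs
      rw [h0, zero_add] at hre
      rw [← hre] at hs
      have hl' := hl z.im habs
      rw [← hz'] at hl'
      calc ‖f z‖ * Real.exp (Λ * (H w L x₀ z).re)
          ≤ ‖f z‖ * Real.exp (Λ * (w z.im + η)) := by
            gcongr
        _ = (‖f z‖ * Real.exp (Λ * w z.im)) * Real.exp (Λ * η) := by
            rw [mul_add, Real.exp_add]; ring
        _ ≤ M₀ * Real.exp (Λ * η) := by gcongr
    · have hzre : 0 < z.re := lt_of_le_of_ne h1 (Ne.symm h0)
      have hfar' : ∀ t : ℝ, |t| ≤ L → K - L ≤ ‖z + x₀ - t * I‖ := by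
        intro t ht
        rw [abs_le] at ht
        by_cases hK' : z.re = K
        · have := re_le_norm (z + x₀ - t * I)
          simp at this
          linarith
        · have hzK : z.re < K := lt_of_le_of_ne h2 hK'
          have him : z.im = K ∨ z.im = -K := by
            by_contra hcon
            push Not at hcon
            exact hzU ⟨hzre, hzK, lt_of_le_of_ne h3 (Ne.symm hcon.2), lt_of_le_of_ne h4 hcon.1⟩
          have := abs_im_le_norm (z + x₀ - t * I)
          simp at this
          refine le_trans ?_ this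
          rcases him with h | h
          · rw [h]
            refine le_trans ?_ (le_abs_self _)
            linarith
          · rw [h]
            refine le_trans ?_ (neg_le_abs _)
            linarith
      have h5 := hfar z h1 hfar'
      have h6 := hb z h1 h2 habs
      gcongr
  have hxU : (x : ℂ) ∈ U := by
    refine ⟨by simpa using hx, by simpa using hxK, by simpa using hK, by simpa using hK⟩
  have hfin := norm_le_of_forall_mem_frontier_norm_le hUbdd hΦd hfront (subset_closure hxU)
  rw [hΦn, H_re hw (by simp; linarith)] at hfin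
  simpa using hfin

end Pool.Agent.Lib.TwoConst
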