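import Mathlib
import Pool.Agent.Lib.TwoConst

/-!
# Lower bound for Poisson integrals of weights with positive local averages
-/

namespace Pool.Agent.Lib.PoissonLower

open Filter Topology Set MeasureTheory intervalIntegral Pool.Agent.Lib.TwoConst

lemma P_lip {x a s t : ℝ} (ha : 0 < a) (hx : a ≤ x) : |P x 0 t - P x 0 s| ≤ |t - s| / a ^ 2 := by
  have hx0 : 0 < x := by linarith
  unfold P
  simp only [zero_sub, neg_sq]
  have h1 : 0 < x ^ 2 + t ^ 2 := by positivity
  have h2 : 0 < x ^ 2 + s ^ 2 := by positivity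
  rw [div_sub_div _ _ h1.ne' h2.ne']
  have e : x * (x ^ 2 + s ^ 2) - (x ^ 2 + t ^ 2) * x = x * (s + t) * (s - t) := by ring
  rw [e, abs_div, abs_mul, abs_of_pos (mul_pos h1 h2), abs_sub_comm s t]
  rw [div_le_div_iff₀ (by positivity) (by positivity)]
  have h3 : |x * (s + t)| * a ^ 2 ≤ (x ^ 2 + t ^ 2) * (x ^ 2 + s ^ 2) := by
    have h4 : |x * (s + t)| ≤ x * |s| + x * |t| := by
      rw [abs_mul, abs_of_pos hx0]
      have := abs_add_le s t
      nlinarith
    have h5 : a ^ 2 ≤ x ^ 2 := pow_le_pow_left₀ ha.le hx 2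
    have h6 : 2 * (x * |s|) ≤ x ^ 2 + s ^ 2 := by
      have := sq_nonneg (x - |s|)
      rw [← sq_abs s]; nlinarith
    have h7 : 2 * (x * |t|) ≤ x ^ 2 + t ^ 2 := by
      have := sq_nonneg (x - |t|)
      rw [← sq_abs t]; nlinarith
    have h8 : 0 ≤ x * |s| := by positivity
    have h9 : 0 ≤ x * |t| := by positivity
    have h10 : x ^ 2 ≤ x ^ 2 + t ^ 2 := by nlinarith [sq_nonneg t]
    have h11 : x ^ 2 ≤ x ^ 2 + s ^ 2 := by nlinarith [sq_nonneg s]
    calc |x * (s + t)| * a ^ 2 ≤ (x * |s| + x * |t|) * x ^ 2 := by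
          apply mul_le_mul h4 h5 (by positivity) (by positivity)
      _ = (x * |s|) * x ^ 2 + (x * |t|) * x ^ 2 := by ring
      _ ≤ ((x ^ 2 + s ^ 2) / 2) * (x ^ 2 + t ^ 2) + ((x ^ 2 + t ^ 2) / 2) * (x ^ 2 + s ^ 2) := by
          apply add_le_add
          · apply mul_le_mul (by linarith) h10 (by positivity) (by positivity)
          · apply mul_le_mul (by linarith) h11 (by positivity) (by positivity)
      _ = (x ^ 2 + t ^ 2) * (x ^ 2 + s ^ 2) := by ring
  calc |x * (s + t)| * |t - s| * a ^ 2 = (|x * (s + t)| * a ^ 2) * |t - s| := by ring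
    _ ≤ ((x ^ 2 + t ^ 2) * (x ^ 2 + s ^ 2)) * |t - s| := by gcongr
    _ = |t - s| * ((x ^ 2 + t ^ 2) * (x ^ 2 + s ^ 2)) := by ring

/-- lower bound on one cell -/
lemma cell {w : ℝ → ℝ} (hw : Continuous w) (hw0 : ∀ t, 0 ≤ w t) (hw1 : ∀ t, w t ≤ 1)
    {x a c α δ : ℝ} (ha : 0 < a) (hx : a ≤ x) (hc0 : 0 ≤ c) (hc1 : c ≤ 1) (hδ : 0 ≤ δ)
    (h : c * δ ≤ ∫ t in α..(α + δ), w t) :
    c * (∫ t in α..(α + δ), P x 0 t) - δ ^ 2 / a ^ 2 ≤ ∫ t in α..(α + δ), w t * P x 0 t := by
  have hx0 : 0 < x := by linarith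
  have hP := continuous_P hx0 0
  have hpt : ∀ t ∈ Icc α (α + δ), c * P x 0 t + (w t - c) * P x 0 α - δ / a ^ 2 ≤ w t * P x 0 t := by
    intro t ht
    have h1 := P_lip (s := α) (t := t) ha hx
    have h2 : |t - α| ≤ δ := by rw [abs_le]; constructor <;> linarith [ht.1, ht.2]
    have h3 : |P x 0 t - P x 0 α| ≤ δ / a ^ 2 := h1.trans (by gcongr)
    have h4 : |(w t - c) * (P x 0 α - P x 0 t)| ≤ δ / a ^ 2 := by
      rw [abs_mul, abs_sub_comm (P x 0 α)]
      have h5 : |w t - c| ≤ 1 := by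
        rw [abs_le]; constructor <;> linarith [hw0 t, hw1 t]
      have := abs_nonneg (P x 0 t - P x 0 α)
      nlinarith
    have h6 := (abs_le.mp h4).2
    nlinarith
  have hint := integral_mono_on (μ := volume) (by linarith : α ≤ α + δ)
    (((((continuous_const.mul hP).add ((hw.sub continuous_const).mul continuous_const)).sub
      continuous_const)).intervalIntegrable _ _)
    ((hw.mul hP).intervalIntegrable _ _) hpt
  have e : ∫ t in α..(α + δ), (c * P x 0 t + (w t - c) * P x 0 α - δ / a ^ 2) =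
      c * (∫ t in α..(α + δ), P x 0 t) + ((∫ t in α..(α + δ), w t) - c * δ) * P x 0 α
        - δ ^ 2 / a ^ 2 := by
    rw [intervalIntegral.integral_sub, intervalIntegral.integral_add,
      intervalIntegral.integral_const_mul, intervalIntegral.integral_mul_const,
      intervalIntegral.integral_sub, intervalIntegral.integral_const,
      intervalIntegral.integral_const]
    · simp only [smul_eq_mul]; ring
    · exact hw.intervalIntegrable _ _
    · exact continuous_const.intervalIntegrable _ _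
    · exact (continuous_const.mul hP).intervalIntegrable _ _
    · exact ((hw.sub continuous_const).mul continuous_const).intervalIntegrable _ _
    · exact ((continuous_const.mul hP).add
        ((hw.sub continuous_const).mul continuous_const)).intervalIntegrable _ _
    · exact continuous_const.intervalIntegrable _ _
  have h7 : 0 ≤ ((∫ t in α..(α + δ), w t) - c * δ) * P x 0 α :=
    mul_nonneg (by linarith) (P_nonneg hx0.le 0 α)
  have h8 : c * (∫ t in α..(α + δ), P x 0 t) - δ ^ 2 / a ^ 2 ≤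
      ∫ t in α..(α + δ), (c * P x 0 t + (w t - c) * P x 0 α - δ / a ^ 2) := by
    rw [e]; linarith
  exact h8.trans hint

lemma sum_cells {F : ℝ → ℝ} (hF : Continuous F) (α δ : ℝ) (N : ℕ) :
    ∫ t in α..(α + N * δ), F t = ∑ j ∈ Finset.range N, ∫ t in (α + j * δ)..(α + j * δ + δ), F t := by
  induction N with
  | zero => simp
  | succ N ih =>
    rw [Finset.sum_range_succ, ← ih]
    rw [integral_add_adjacent_intervals (hF.intervalIntegrable _ _) (hF.intervalIntegrable _ _)]
    congr 1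
    push_cast
    ring

/-- Lower bound for the Poisson integral. -/
theorem lower {a X η : ℝ} (ha : 0 < a) (hX : 0 < X) (hη : 0 < η) :
    ∃ L₀ : ℝ, 0 < L₀ ∧ ∀ L : ℝ, L₀ ≤ L → ∃ N : ℕ, 1 ≤ N ∧ ∀ (w : ℝ → ℝ) (c : ℝ), Continuous w →
      (∀ t, 0 ≤ w t) → (∀ t, w t ≤ 1) → 0 ≤ c → c ≤ 1 →
      (∀ j < N, c * (2 * L / N) ≤
        ∫ t in (-L + j * (2 * L / N))..(-L + j * (2 * L / N) + 2 * L / N), w t) →
      ∀ x : ℝ, a ≤ x → x ≤ X → c - η ≤ 1 / Real.pi * ∫ t in (-L)..L, w t * P x 0 t := by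
  have hpi := Real.pi_pos
  refine ⟨4 * X / (Real.pi * η), by positivity, ?_⟩
  intro L hL
  have hL0 : 0 < L := lt_of_lt_of_le (by positivity) hL
  obtain ⟨N, hN⟩ := exists_nat_ge (max 1 (8 * L ^ 2 / (a ^ 2 * Real.pi * η)))
  have hN1 : (1 : ℝ) ≤ N := (le_max_left _ _).trans hN
  have hN2 : 8 * L ^ 2 / (a ^ 2 * Real.pi * η) ≤ N := (le_max_right _ _).trans hN
  refine ⟨N, by exact_mod_cast hN1, ?_⟩
  intro w c hw hw0 hw1 hc0 hc1 hcell x hax hxX
  have hx0 : 0 < x := by linarith
  have hN0 : (0 : ℝ) < N := by linarith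
  set δ : ℝ := 2 * L / N with hδ
  have hδ0 : 0 < δ := by positivity
  have hNδ : N * δ = 2 * L := by rw [hδ]; field_simp
  have hend : -L + N * δ = L := by rw [hNδ]; ring
  have hP := continuous_P hx0 0
  have h1 := sum_cells (hw.mul hP) (-L) δ N
  have h2 := sum_cells hP (-L) δ N
  rw [hend] at h1 h2
  have h3 : c * (∫ t in (-L)..L, P x 0 t) - N * (δ ^ 2 / a ^ 2) ≤ ∫ t in (-L)..L, w t * P x 0 t := by
    have h1' : ∫ t in (-L)..L, w t * P x 0 t = ∑ j ∈ Finset.range N,
        ∫ t in (-L + j * δ)..(-L + j * δ + δ), w t * P x 0 t := h1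
    rw [h1', h2, Finset.mul_sum]
    have : (N : ℝ) * (δ ^ 2 / a ^ 2) = ∑ j ∈ Finset.range N, δ ^ 2 / a ^ 2 := by simp
    rw [this, ← Finset.sum_sub_distrib]
    apply Finset.sum_le_sum
    intro j hj
    exact cell hw hw0 hw1 ha hax hc0 hc1 hδ0.le (hcell j (Finset.mem_range.mp hj))
  have h4 : Real.pi - Real.pi * η / 2 ≤ ∫ t in (-L)..L, P x 0 t := by
    rw [integral_P hx0]
    have e1 : (-L - 0) / x = -((L - 0) / x) := by ring
    rw [e1, Real.arctan_neg]
    simp only [sub_zero]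
    have e2 : Real.arctan (L / x) = Real.pi / 2 - Real.arctan (x / L) := by
      rw [← Real.arctan_inv_of_pos (by positivity : 0 < x / L), inv_div]
    rw [e2]
    have e3 : Real.arctan (x / L) ≤ x / L := by
      have h0 : 0 ≤ x / L := by positivity
      rcases h0.eq_or_lt with h | h
      · rw [← h]; simp
      · have := Real.lt_tan (x := Real.arctan (x / L)) (Real.arctan_pos.mpr h)
          (Real.arctan_lt_pi_div_two _)
        rw [Real.tan_arctan] at this
        exact this.le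
    have e4 : x / L ≤ Real.pi * η / 4 := by
      rw [div_le_iff₀ hL0]
      rw [div_le_iff₀ (by positivity)] at hL
      nlinarith
    linarith
  have h5 : N * (δ ^ 2 / a ^ 2) ≤ Real.pi * η / 2 := by
    have e1 : N * (δ ^ 2 / a ^ 2) = 4 * L ^ 2 / (a ^ 2 * N) := by
      rw [hδ]; field_simp; ring
    rw [e1, div_le_iff₀ (by positivity)]
    rw [div_le_iff₀ (by positivity)] at hN2
    nlinarith
  have h6 : c * (Real.pi - Real.pi * η / 2) ≤ c * (∫ t in (-L)..L, P x 0 t) := by gcongr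
  have h7 : Real.pi * (c - η) ≤ ∫ t in (-L)..L, w t * P x 0 t := by
    have : c * (Real.pi * η / 2) ≤ 1 * (Real.pi * η / 2) := by gcongr
    nlinarith
  rw [one_div, le_inv_mul_iff₀ hpi]
  exact h7

/-- integrals over cells dominate the measure of the set where the weight is `1` -/
lemma integral_ge {W : ℝ → ℝ} (hW : Continuous W) (hW0 : ∀ t, 0 ≤ W t) {α δ : ℝ} (hδ : 0 ≤ δ)
    {G : Set ℝ} (hG : MeasurableSet G) (hsub : G ⊆ Icc α (α + δ)) (h1 : ∀ t ∈ G, W t = 1) :
    volume.real G ≤ ∫ t in α..(α + δ), W t := by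
  rw [intervalIntegral.integral_of_le (by linarith), ← integral_Icc_eq_integral_Ioc]
  have h2 : ∫ t in G, W t = volume.real G := by
    rw [setIntegral_congr_fun hG (g := fun _ => (1 : ℝ)) h1]
    simp
  rw [← h2]
  apply setIntegral_mono_set
  · exact hW.continuousOn.integrableOn_compact isCompact_Icc
  · exact Filter.Eventually.of_forall fun t => hW0 t
  · exact Filter.Eventually.of_forall hsub

end Pool.Agent.Lib.PoissonLower
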