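import Mathlib
import Pool.Agent.Lib.ZetaCrude

/-!
# Bounds for zeta to the right of a vertical line; passing to the critical line

`BoundOn x B` says that `ζ(σ + it) = O(t ^ B)` uniformly in `σ ≥ x`, `t → ∞`.
-/

namespace Pool.Agent.Lib.ZetaLine

open Complex Filter Topology Set

/-- `ζ(s) = O((Im s)^B)` uniformly for `Re s ≥ x`, `Im s → ∞`. -/
def BoundOn (x B : ℝ) : Prop :=
  ∃ C T₁ : ℝ, 1 ≤ C ∧ 1 ≤ T₁ ∧ ∀ s : ℂ, x ≤ s.re → T₁ ≤ s.im → ‖riemannZeta s‖ ≤ C * s.im ^ B

lemma BoundOn.mono {x B x' B' : ℝ} (h : BoundOn x B) (hx : x ≤ x') (hB : B ≤ B') :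
    BoundOn x' B' := by
  obtain ⟨C, T₁, hC, hT, h⟩ := h
  refine ⟨C, T₁, hC, hT, fun s hs ht => (h s (hx.trans hs) ht).trans ?_⟩
  have h1 : 1 ≤ s.im := hT.trans ht
  have h2 := Real.rpow_le_rpow_of_exponent_le h1 hB
  nlinarith

lemma boundOn_crude : BoundOn (1 / 4) 1 := by
  obtain ⟨C, hC, h⟩ := ZetaCrude.norm_zeta_le_crude
  obtain ⟨C', hC', h'⟩ := ZetaCrude.norm_zeta_le_of_two_le
  refine ⟨4 * C + C', 1, by linarith, le_rfl, ?_⟩
  intro s hs ht
  rw [Real.rpow_one]
  by_cases h2 : 2 ≤ s.re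
  · have := h' s h2
    nlinarith
  · push Not at h2
    have h3 : 1 ≤ ‖s - 1‖ := by
      have := abs_im_le_norm (s - 1)
      simp only [sub_im, one_im, sub_zero] at this
      exact ht.trans ((le_abs_self _).trans this)
    have h4 : ‖s‖ ≤ 2 + s.im := by
      refine (norm_le_abs_re_add_abs_im s).trans ?_
      rw [abs_of_nonneg (by linarith : 0 ≤ s.re), abs_of_nonneg (by linarith : 0 ≤ s.im)]
      linarith
    have h5 := h s hs h3
    nlinarith

/-- Hadamard's three circles theorem. -/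
lemma three_circles {f : ℂ → ℂ} {c z : ℂ} {r₁ r₃ M₁ M₃ : ℝ} (h1 : 0 < r₁) (h13 : r₁ < r₃)
    (hf : DifferentiableOn ℂ f (Metric.closedBall c r₃))
    (hM₁ : ∀ z ∈ Metric.sphere c r₁, ‖f z‖ ≤ M₁) (hM₃ : ∀ z ∈ Metric.closedBall c r₃, ‖f z‖ ≤ M₃)
    (hz1 : r₁ ≤ ‖z - c‖) (hz3 : ‖z - c‖ ≤ r₃) :
    ‖f z‖ ≤ M₁ ^ (1 - (Real.log ‖z - c‖ - Real.log r₁) / (Real.log r₃ - Real.log r₁)) *
      M₃ ^ ((Real.log ‖z - c‖ - Real.log r₁) / (Real.log r₃ - Real.log r₁)) := by
  have h3 : 0 < r₃ := h1.trans h13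
  have hr : 0 < ‖z - c‖ := lt_of_lt_of_le h1 hz1
  have hzc : z - c ≠ 0 := norm_pos_iff.mp hr
  have hmaps : ∀ w : ℂ, w.re ≤ Real.log r₃ → c + Complex.exp w ∈ Metric.closedBall c r₃ := by
    intro w hw
    rw [Metric.mem_closedBall, dist_eq_norm, add_sub_cancel_left, Complex.norm_exp]
    rwa [← Real.le_log_iff_exp_le h3]
  have key := Complex.HadamardThreeLines.norm_le_interp_of_mem_verticalClosedStrip'
    (f := fun w => f (c + Complex.exp w)) (z := Complex.log (z - c)) (a := M₁) (b := M₃)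
    (l := Real.log r₁) (u := Real.log r₃) (Real.log_lt_log h1 h13) ?_ ?_ ?_ ?_ ?_
  · simpa [Complex.exp_log hzc, Complex.log_re] using key
  · simp only [HadamardThreeLines.verticalClosedStrip, mem_preimage, Complex.log_re, mem_Icc]
    exact ⟨Real.log_le_log h1 hz1, Real.log_le_log hr hz3⟩
  · apply DifferentiableOn.diffContOnCl
    have hcl : closure (HadamardThreeLines.verticalStrip (Real.log r₁) (Real.log r₃)) ⊆
        {w : ℂ | w.re ≤ Real.log r₃} := by
      apply closure_minimal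
      · intro w hw
        exact hw.2.le
      · exact isClosed_le continuous_re continuous_const
    refine DifferentiableOn.mono ?_ hcl
    have : DifferentiableOn ℂ (fun w => c + Complex.exp w) {w : ℂ | w.re ≤ Real.log r₃} :=
      ((differentiable_const c).add Complex.differentiable_exp).differentiableOn
    exact hf.comp this (fun w hw => hmaps w hw)
  · refine ⟨M₃, ?_⟩
    rintro _ ⟨w, hw, rfl⟩
    exact hM₃ _ (hmaps w hw.2)
  · intro w hw
    apply hM₁
    simp only [mem_preimage, mem_singleton_iff] at hw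
    rw [Metric.mem_sphere, dist_eq_norm, add_sub_cancel_left, Complex.norm_exp, hw,
      Real.exp_log h1]
  · intro w hw
    simp only [mem_preimage, mem_singleton_iff] at hw
    exact hM₃ _ (hmaps w hw.le)

/-- the loss in the exponent when passing from `1/2 + a` to `1/2` -/
noncomputable def θ (a : ℝ) : ℝ :=
  (Real.log (1 / 2) - Real.log (1 / 2 - a)) / (Real.log (3 / 4) - Real.log (1 / 2 - a))

lemma exists_θ_le {ε : ℝ} (hε : 0 < ε) : ∃ a : ℝ, 0 < a ∧ a < 1 / 4 ∧ θ a ≤ ε := by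
  have hcont : ContinuousAt θ 0 := by
    unfold θ
    have h1 : ContinuousAt (fun a : ℝ => Real.log (1 / 2 - a)) 0 := by
      apply ContinuousAt.log
      · fun_prop
      · norm_num
    apply ContinuousAt.div
    · exact continuousAt_const.sub h1
    · exact continuousAt_const.sub h1
    · rw [sub_zero]
      have := Real.log_lt_log (by norm_num : (0 : ℝ) < 1 / 2) (by norm_num : (1 / 2 : ℝ) < 3 / 4)
      linarith
  have h0 : θ 0 = 0 := by simp [θ]
  have hev : ∀ᶠ a in 𝓝 (0 : ℝ), θ a < ε := by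
    apply hcont.eventually_lt continuousAt_const
    rw [h0]; exact hε
  have hev2 : ∀ᶠ a in 𝓝 (0 : ℝ), a < 1 / 4 := eventually_lt_nhds (by norm_num)
  have hev3 : ∀ᶠ a in 𝓝[>] (0 : ℝ), θ a < ε ∧ a < 1 / 4 :=
    (hev.and hev2).filter_mono nhdsWithin_le_nhds
  obtain ⟨a, ⟨h1, h2⟩, h3⟩ := (hev3.and self_mem_nhdsWithin).exists
  exact ⟨a, h3, h2, h1.le⟩

lemma BoundOn.half {a B : ℝ} (ha : 0 < a) (ha4 : a < 1 / 4) (hB : 0 ≤ B)
    (h : BoundOn (1 / 2 + a) B) : BoundOn (1 / 2) (B + θ a) := by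
  obtain ⟨C, T₁, hC, hT, h⟩ := h
  obtain ⟨C', T₁', hC', hT', h'⟩ := boundOn_crude
  set r₁ : ℝ := 1 / 2 - a with hr₁
  have hr₁pos : 0 < r₁ := by linarith
  set l₁ := Real.log r₁ with hl₁
  set l₃ := Real.log (3 / 4) with hl₃
  have hl13 : l₁ < l₃ := Real.log_lt_log hr₁pos (by linarith)
  have hl12 : l₁ ≤ Real.log (1 / 2) := Real.log_le_log hr₁pos (by linarith)
  have hθ0 : 0 ≤ θ a := by
    unfold θ
    apply div_nonneg <;> [skip; skip] <;> linarith
  set K : ℝ := C * 2 ^ B + 2 * C' with hK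
  have h2B : (1 : ℝ) ≤ 2 ^ B := Real.one_le_rpow (by norm_num) hB
  have hK1 : 1 ≤ K := by nlinarith
  refine ⟨K, T₁ + T₁' + 1, hK1, by linarith, ?_⟩
  intro s hs ht
  set t := s.im with ht_def
  have ht1 : 1 ≤ t := by linarith
  by_cases hsa : 1 / 2 + a ≤ s.re
  · refine (h s hsa (by linarith)).trans ?_
    have e1 : t ^ B ≤ t ^ (B + θ a) := Real.rpow_le_rpow_of_exponent_le ht1 (by linarith)
    have e2 : C ≤ K := by nlinarith
    have e3 : 0 ≤ t ^ B := by positivity
    calc C * t ^ B ≤ K * t ^ B := by gcongr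
      _ ≤ K * t ^ (B + θ a) := by gcongr
  · push Not at hsa
    set c : ℂ := ⟨1, t⟩ with hc
    have hsc : s - c = ((s.re - 1 : ℝ) : ℂ) := by
      apply Complex.ext <;> simp [hc, ht_def]
    have hnorm : ‖s - c‖ = 1 - s.re := by
      rw [hsc, Complex.norm_real, Real.norm_eq_abs, abs_of_nonpos (by linarith)]
      ring
    have himle : ∀ z : ℂ, ‖z - c‖ ≤ 3 / 4 → T₁ ≤ z.im ∧ T₁' ≤ z.im ∧ 1 ≤ z.im ∧ z.im ≤ 2 * t ∧
        1 - ‖z - c‖ ≤ z.re := by
      intro z hz
      have h1 := abs_im_le_norm (z - c)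
      have h2 := abs_re_le_norm (z - c)
      simp only [sub_im, sub_re, hc] at h1 h2
      rw [abs_le] at h1 h2
      refine ⟨by linarith, by linarith, by linarith, by linarith, by linarith⟩
    have hMle : ∀ z : ℂ, ‖z - c‖ ≤ 3 / 4 → ‖riemannZeta z‖ ≤ K * t := by
      intro z hz
      obtain ⟨h1, h2, h3, h4, h5⟩ := himle z hz
      refine (h' z (by linarith) h2).trans ?_
      rw [Real.rpow_one]
      have : 0 ≤ C * 2 ^ B := by positivity
      nlinarith
    have key := three_circles (f := riemannZeta) (c := c) (z := s) (r₁ := r₁) (r₃ := 3 / 4)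
      (M₁ := K * t ^ B) (M₃ := K * t) hr₁pos (by linarith) ?_ ?_ ?_ ?_ ?_
    · refine key.trans ?_
      rw [hnorm]
      set φ := (Real.log (1 - s.re) - Real.log r₁) / (Real.log (3 / 4) - Real.log r₁) with hφ
      have hφ0 : 0 ≤ φ := by
        apply div_nonneg
        · have := Real.log_le_log hr₁pos (by linarith : r₁ ≤ 1 - s.re)
          linarith
        · linarith
      have hφθ : φ ≤ θ a := by
        rw [hφ]
        unfold θ
        have := Real.log_le_log (by linarith : 0 < 1 - s.re) (by linarith : 1 - s.re ≤ 1 / 2)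
        apply div_le_div_of_nonneg_right _ (by linarith)
        linarith
      have ht0 : 0 < t := by linarith
      have hK0 : 0 < K := by linarith
      rw [Real.mul_rpow hK0.le (by positivity), Real.mul_rpow hK0.le ht0.le, ← Real.rpow_mul ht0.le]
      have e : K ^ (1 - φ) * t ^ (B * (1 - φ)) * (K ^ φ * t ^ φ) = K * t ^ (B * (1 - φ) + φ) := by
        rw [Real.rpow_add ht0]
        have : K ^ (1 - φ) * K ^ φ = K := by
          rw [← Real.rpow_add hK0]; simp
        calc K ^ (1 - φ) * t ^ (B * (1 - φ)) * (K ^ φ * t ^ φ)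
            = (K ^ (1 - φ) * K ^ φ) * (t ^ (B * (1 - φ)) * t ^ φ) := by ring
          _ = _ := by rw [this]
      rw [e]
      apply mul_le_mul_of_nonneg_left _ hK0.le
      apply Real.rpow_le_rpow_of_exponent_le ht1
      nlinarith
    · intro z hz
      apply DifferentiableAt.differentiableWithinAt
      apply differentiableAt_riemannZeta
      rintro rfl
      rw [Metric.mem_closedBall, dist_eq_norm] at hz
      have := (himle 1 hz).2.2.1
      simp at this
      linarith
    · intro z hz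
      rw [Metric.mem_sphere, dist_eq_norm] at hz
      obtain ⟨h1, h2, h3, h4, h5⟩ := himle z (by linarith)
      refine (h z (by linarith) h1).trans ?_
      have e1 : z.im ^ B ≤ (2 * t) ^ B := Real.rpow_le_rpow (by linarith) h4 hB
      rw [Real.mul_rpow (by norm_num) (by linarith)] at e1
      have e2 : 0 ≤ t ^ B := by positivity
      calc C * z.im ^ B ≤ C * (2 ^ B * t ^ B) := by gcongr
        _ = (C * 2 ^ B) * t ^ B := by ring
        _ ≤ K * t ^ B := by gcongr; linarith
    · intro z hz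
      rw [Metric.mem_closedBall, dist_eq_norm] at hz
      exact hMle z hz
    · rw [hnorm]; linarith
    · rw [hnorm]; linarith

/-- If `ζ(σ+it) = O(t^B)` in `σ ≥ 1/2 + a` for every `a > 0` then `O(t^{B+ε})` in `σ ≥ 1/2`. -/
lemma boundOn_half_of_forall {B : ℝ} (hB : 0 ≤ B) (h : ∀ a > 0, BoundOn (1 / 2 + a) B) :
    ∀ ε > 0, BoundOn (1 / 2) (B + ε) := by
  intro ε hε
  obtain ⟨a, ha, ha4, hθ⟩ := exists_θ_le hε
  exact ((h a ha).half ha ha4 hB).mono le_rfl (by linarith)

/-- From large positive heights to the whole critical line. -/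
lemma BoundOn.line {B : ℝ} (hB : 0 ≤ B) (h : BoundOn (1 / 2) B) :
    ∃ C : ℝ, ∀ t : ℝ, ‖riemannZeta (1 / 2 + t * I)‖ ≤ C * (1 + |t|) ^ B := by
  obtain ⟨C, T₁, hC, hT, h⟩ := h
  have hcont : Continuous fun t : ℝ => riemannZeta (1 / 2 + t * I) := by
    rw [continuous_iff_continuousAt]
    intro t
    have h1 : ContinuousAt riemannZeta (1 / 2 + t * I) := by
      apply (differentiableAt_riemannZeta _).continuousAt
      intro h
      have := congrArg Complex.re h
      norm_num at this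
    exact ContinuousAt.comp (f := fun t : ℝ => (1 / 2 + t * I : ℂ)) h1 (by fun_prop)
  obtain ⟨D, hD⟩ := (isCompact_Icc (a := -T₁) (b := T₁)).exists_bound_of_continuousOn
    hcont.continuousOn
  refine ⟨|D| + C, ?_⟩
  have hpos : ∀ t : ℝ, 0 ≤ t → ‖riemannZeta (1 / 2 + t * I)‖ ≤ (|D| + C) * (1 + |t|) ^ B := by
    intro t ht
    have h1 : (1 : ℝ) ≤ (1 + |t|) ^ B := Real.one_le_rpow (by linarith [abs_nonneg t]) hB
    by_cases htT : t ≤ T₁
    · have := hD t ⟨by linarith, htT⟩
      have h2 := le_abs_self D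
      have : ‖riemannZeta (1 / 2 + t * I)‖ ≤ |D| := by linarith
      have h3 := abs_nonneg D
      nlinarith
    · push Not at htT
      have h2 := h (1 / 2 + t * I) (by simp) (by simpa using htT.le)
      have h3 : (1 / 2 + t * I : ℂ).im = t := by simp
      rw [h3] at h2
      have h4 : t ^ B ≤ (1 + |t|) ^ B :=
        Real.rpow_le_rpow ht (by rw [abs_of_nonneg ht]; linarith) hB
      have h3 := abs_nonneg D
      have h5 : 0 ≤ t ^ B := by positivity
      calc ‖riemannZeta (1 / 2 + t * I)‖ ≤ C * t ^ B := h2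
        _ ≤ (|D| + C) * (1 + |t|) ^ B := by
          apply mul_le_mul (by linarith) h4 h5 (by linarith)
  intro t
  rcases le_total 0 t with ht | ht
  · exact hpos t ht
  · have h1 := hpos (-t) (by linarith)
    have h2 : riemannZeta (1 / 2 + t * I) =
        (starRingEnd ℂ) (riemannZeta (1 / 2 + (-t : ℝ) * I)) := by
      rw [← riemannZeta_conj]
      congr 1
      apply Complex.ext <;> simp
    rw [h2, Complex.norm_conj]
    simpa using h1

end Pool.Agent.Lib.ZetaLine
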