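import Mathlib
import Pool.Agent.Lib.ZetaLine
import Pool.Agent.Lib.PoissonLower

/-!
# Failures of the Lindelöf hypothesis are thick

For every `A ≥ 0`, the bound `ζ(1/2 + it) = O(|t|^{A+ε})` for all `ε > 0` holds as soon as, for
every `B > A`, a fixed positive proportion of the points of each short interval `[T, T + δ]`
satisfies `|ζ(1/2 + it)| ≤ T ^ B`.  The case `A = 0` is the Lindelöf hypothesis.
-/

namespace Pool.Agent.Lib.ThickFailure

open Complex Filter Topology Set MeasureTheory
open Pool.Agent.Lib.ZetaLine Pool.Agent.Lib.TwoConst Pool.Agent.Lib.PoissonLower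

/-- the set of good points in `[T, T + δ]` -/
def Good (E T δ : ℝ) : Set ℝ :=
  {t : ℝ | t ∈ Icc T (T + δ) ∧ ‖riemannZeta (1 / 2 + t * I)‖ ≤ T ^ E}

lemma continuous_zeta_line : Continuous fun t : ℝ => riemannZeta (1 / 2 + t * I) := by
  rw [continuous_iff_continuousAt]
  intro t
  have h1 : ContinuousAt riemannZeta (1 / 2 + t * I) := by
    apply (differentiableAt_riemannZeta _).continuousAt
    intro h
    have := congrArg Complex.re h
    norm_num at this
  exact ContinuousAt.comp (f := fun t : ℝ => (1 / 2 + t * I : ℂ)) h1 (by fun_prop)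

lemma measurable_Good (E T δ : ℝ) : MeasurableSet (Good E T δ) := by
  apply IsClosed.measurableSet
  exact isClosed_Icc.inter (isClosed_le continuous_zeta_line.norm continuous_const)

/-- the weight, in absolute coordinates -/
noncomputable def W (P₀ : ℝ) (t : ℝ) : ℝ :=
  max 0 (min 1 (2 - ‖riemannZeta (1 / 2 + t * I)‖ / P₀))

lemma continuous_W (P₀ : ℝ) : Continuous (W P₀) := by
  unfold W
  exact continuous_const.max (continuous_const.min
    (continuous_const.sub (continuous_zeta_line.norm.div_const _)))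

lemma W_nonneg (P₀ t : ℝ) : 0 ≤ W P₀ t := le_max_left _ _

lemma W_le_one (P₀ t : ℝ) : W P₀ t ≤ 1 := max_le (by norm_num) (min_le_left _ _)

lemma W_eq_one {P₀ t : ℝ} (hP : 0 < P₀) (h : ‖riemannZeta (1 / 2 + t * I)‖ ≤ P₀) :
    W P₀ t = 1 := by
  unfold W
  have h1 : ‖riemannZeta (1 / 2 + t * I)‖ / P₀ ≤ 1 := (div_le_one hP).mpr h
  rw [min_eq_left (by linarith), max_eq_right (by norm_num)]

lemma W_eq_zero {P₀ t : ℝ} (hP : 0 < P₀) (h : 2 * P₀ ≤ ‖riemannZeta (1 / 2 + t * I)‖) :
    W P₀ t = 0 := by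
  unfold W
  have h1 : 2 ≤ ‖riemannZeta (1 / 2 + t * I)‖ / P₀ := (le_div_iff₀ hP).mpr h
  apply max_eq_left
  exact (min_le_right _ _).trans (by linarith)

set_option maxHeartbeats 2000000 in
/-- The contraction step. -/
lemma contraction {B E c a η : ℝ} (hE : 0 ≤ E) (hEB : E < B) (hc0 : 0 < c) (hc1 : c ≤ 1)
    (ha : 0 < a) (hη : 0 < η)
    (hD : ∀ δ > 0, ∃ T₀ : ℝ, ∀ T : ℝ, T₀ ≤ T → c * δ ≤ volume.real (Good E T δ))
    (hbound : BoundOn (1 / 2) B) : BoundOn (1 / 2 + a) (B - (B - E) * (c - 2 * η)) := by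
  obtain ⟨C, T₁, hC, hT₁, hC'⟩ := hbound
  obtain ⟨C₂, hC₂, hright⟩ := Pool.Agent.Lib.ZetaCrude.norm_zeta_le_of_two_le
  obtain ⟨L₀, hL₀, hlow⟩ := lower (a := a) (X := 3) (η := η) ha (by norm_num) hη
  set L : ℝ := max L₀ 2 with hL
  have hL2 : 2 ≤ L := le_max_right _ _
  have hL0 : 0 < L := by linarith
  obtain ⟨N, hN, hlow⟩ := hlow L (le_max_left _ _)
  set δ : ℝ := 2 * L / N with hδ
  have hN0 : (0 : ℝ) < N := by exact_mod_cast hN
  have hδ0 : 0 < δ := by positivity
  have hNδ : N * δ = 2 * L := by rw [hδ]; field_simp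
  obtain ⟨T₀, hT₀⟩ := hD δ hδ0
  set K : ℝ := L + L / η with hK
  have hKL : L < K := by rw [hK]; have : 0 < L / η := by positivity
                         linarith
  have hK0 : 0 < K := by linarith
  have hpi := Real.pi_gt_three
  have hKL2 : 2 * L / (Real.pi * (K - L)) ≤ η := by
    rw [hK, add_sub_cancel_left, div_le_iff₀ (by positivity)]
    have : η * (Real.pi * (L / η)) = Real.pi * L := by field_simp
    rw [this]
    nlinarith
  have hB : 0 < B := by linarith
  have h2B : (1 : ℝ) ≤ 2 ^ B := Real.one_le_rpow (by norm_num) hB.le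
  have h2E : (1 : ℝ) ≤ 2 ^ E := Real.one_le_rpow (by norm_num) hE
  set C₃ : ℝ := C * 2 ^ B + 2 * 2 ^ E with hC₃
  have hC₃1 : 1 ≤ C₃ := by nlinarith
  refine ⟨C₃ + C₂, max (T₀ + K) (T₁ + K), by linarith, le_trans (by linarith) (le_max_right _ _), ?_⟩
  intro s hs hT
  set T : ℝ := s.im with hTdef
  have hTK0 : T₀ + K ≤ T := (le_max_left _ _).trans hT
  have hTK1 : T₁ + K ≤ T := (le_max_right _ _).trans hT
  have hTpos : 1 ≤ T := by linarith
  have hT0 : 0 < T := by linarith
  set B' : ℝ := B - (B - E) * (c - 2 * η) with hB'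
  have hB'0 : 0 ≤ B' := by
    rw [hB']
    have : (B - E) * (c - 2 * η) ≤ (B - E) * 1 := by
      apply mul_le_mul_of_nonneg_left _ (by linarith)
      linarith
    linarith
  have hTB' : (1 : ℝ) ≤ T ^ B' := Real.one_le_rpow hTpos hB'0
  by_cases h2 : 2 ≤ s.re
  · have := hright s h2
    nlinarith
  · push Not at h2
    -- rectangle data
    set P₀ : ℝ := (2 * T) ^ E with hP₀
    have hP₀0 : 0 < P₀ := by positivity
    let f : ℂ → ℂ := fun z => riemannZeta (1 / 2 + T * I + z)
    let w : ℝ → ℝ := fun y => W P₀ (T + y)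
    have hw : Continuous w := (continuous_W P₀).comp (continuous_const.add continuous_id)
    set Λ : ℝ := (B - E) * Real.log T with hΛ
    have hlogT : 0 ≤ Real.log T := Real.log_nonneg hTpos
    have hΛ0 : 0 ≤ Λ := mul_nonneg (by linarith) hlogT
    set M₀ : ℝ := C₃ * T ^ B with hM₀
    have hTB : 0 < T ^ B := by positivity
    have hM₀0 : 0 ≤ M₀ := by positivity
    have him : ∀ z : ℂ, (1 / 2 + T * I + z).im = T + z.im := by intro z; simp
    have hre : ∀ z : ℂ, (1 / 2 + T * I + z).re = 1 / 2 + z.re := by intro z; simp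
    have hfd : ∀ z : ℂ, 0 ≤ z.re → z.re ≤ K → |z.im| ≤ K → DifferentiableAt ℂ f z := by
      intro z h1 _ h3
      have hne : 1 / 2 + T * I + z ≠ 1 := by
        intro h
        have := congrArg Complex.im h
        rw [him, one_im] at this
        rw [abs_le] at h3
        linarith
      have := differentiableAt_riemannZeta hne
      exact this.comp z (by fun_prop)
    have hzb : ∀ z : ℂ, 0 ≤ z.re → |z.im| ≤ K → ‖f z‖ ≤ (C * 2 ^ B) * T ^ B := by
      intro z h1 h3
      rw [abs_le] at h3
      have h4 := hC' (1 / 2 + T * I + z) (by rw [hre]; linarith) (by rw [him]; linarith)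
      refine h4.trans ?_
      rw [him, mul_assoc, ← Real.mul_rpow (by norm_num) hT0.le]
      apply mul_le_mul_of_nonneg_left _ (by linarith)
      apply Real.rpow_le_rpow (by linarith) (by linarith) hB.le
    have hfb : ∀ z : ℂ, 0 ≤ z.re → z.re ≤ K → |z.im| ≤ K → ‖f z‖ ≤ M₀ := by
      intro z h1 _ h3
      refine (hzb z h1 h3).trans ?_
      rw [hM₀]
      gcongr
      rw [hC₃]
      linarith
    have hl : ∀ y : ℝ, |y| ≤ K → ‖f (y * I)‖ * Real.exp (Λ * w y) ≤ M₀ := by
      intro y hy
      have hfy : f (y * I) = riemannZeta (1 / 2 + ((T + y : ℝ) : ℂ) * I) := by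
        simp only [f]
        congr 1
        push_cast
        ring
      by_cases hbig : 2 * P₀ ≤ ‖riemannZeta (1 / 2 + ((T + y : ℝ) : ℂ) * I)‖
      · have h0 : w y = 0 := W_eq_zero hP₀0 hbig
        rw [h0, mul_zero, Real.exp_zero, mul_one]
        exact hfb _ (by simp) (by simpa using hK0.le) (by simpa using hy)
      · push Not at hbig
        rw [hfy]
        have h1 : Real.exp (Λ * w y) ≤ T ^ (B - E) := by
          rw [Real.rpow_def_of_pos hT0, Real.exp_le_exp]
          have := W_le_one P₀ (T + y)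
          calc Λ * w y ≤ Λ * 1 := mul_le_mul_of_nonneg_left this hΛ0
            _ = Real.log T * (B - E) := by rw [hΛ]; ring
        have h2 : T ^ E * T ^ (B - E) = T ^ B := by
          rw [← Real.rpow_add hT0]; congr 1; ring
        calc ‖riemannZeta (1 / 2 + ((T + y : ℝ) : ℂ) * I)‖ * Real.exp (Λ * w y)
            ≤ (2 * P₀) * T ^ (B - E) := by
              apply mul_le_mul hbig.le h1 (Real.exp_pos _).le (by positivity)
          _ = (2 * 2 ^ E) * T ^ B := by
              rw [hP₀, Real.mul_rpow (by norm_num) hT0.le, ← h2]; ring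
          _ ≤ M₀ := by
              rw [hM₀]
              gcongr
              rw [hC₃]
              have : 0 ≤ C * 2 ^ B := by positivity
              linarith
    obtain ⟨x₀, hx₀, hx₀a, hmain⟩ := two_const hw (fun t => W_nonneg _ _) (fun t => W_le_one _ _)
      (L := L) (K := K) (η := η) (a := a) (Λ := Λ) (M₀ := M₀) hL0 hη ha hΛ0 hM₀0 hKL2 hKL
      hfd hfb hl
    -- the cells
    have hcells : ∀ j < N, c * (2 * L / N) ≤
        ∫ t in (-L + j * (2 * L / N))..(-L + j * (2 * L / N) + 2 * L / N), w t := by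
      intro j hj
      rw [← hδ]
      have hjN : (j : ℝ) ≤ N := by exact_mod_cast hj.le
      have hj0 : (0 : ℝ) ≤ j := Nat.cast_nonneg j
      have hjδ : j * δ ≤ 2 * L := by rw [← hNδ]; gcongr
      have hjδ0 : 0 ≤ j * δ := by positivity
      set α : ℝ := -L + j * δ with hα
      have hshift : ∫ t in α..(α + δ), w t = ∫ t in (T + α)..(T + α + δ), W P₀ t := by
        have := intervalIntegral.integral_comp_add_left (f := W P₀) (a := α) (b := α + δ) T
        simp only [w]
        rw [this, show T + (α + δ) = T + α + δ by ring]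
      rw [hshift]
      have h5 : T₀ ≤ T + α := by rw [hα]; linarith
      refine (hT₀ (T + α) h5).trans ?_
      apply integral_ge (continuous_W P₀) (W_nonneg P₀) hδ0.le (measurable_Good _ _ _)
      · intro t ht; exact ht.1
      · intro t ht
        apply W_eq_one hP₀0
        refine ht.2.trans ?_
        rw [hP₀]
        apply Real.rpow_le_rpow (by rw [hα]; linarith) (by rw [hα]; linarith) hE
    -- conclusion
    set x : ℝ := s.re - 1 / 2 with hx
    have hxa : a ≤ x := by rw [hx]; linarith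
    have hlow' := hlow w c hw (fun t => W_nonneg _ _) (fun t => W_le_one _ _) hc0.le hc1 hcells
      (x + x₀) (by linarith) (by rw [hx]; linarith)
    have hm := hmain x (by linarith) (by rw [hx]; linarith)
    have hfx : f x = riemannZeta s := by
      simp only [f]
      congr 1
      apply Complex.ext <;> simp [hx, hTdef]
    rw [hfx] at hm
    have h6 : ‖riemannZeta s‖ * Real.exp (Λ * (c - η)) ≤ M₀ * Real.exp (Λ * η) := by
      refine le_trans ?_ hm
      gcongr
    have h7 : ‖riemannZeta s‖ ≤ M₀ * Real.exp (-(Λ * (c - 2 * η))) := by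
      have e1 : Real.exp (Λ * (c - η)) * Real.exp (-(Λ * (c - η))) = 1 := by
        rw [← Real.exp_add]; simp
      calc ‖riemannZeta s‖ = (‖riemannZeta s‖ * Real.exp (Λ * (c - η))) *
            Real.exp (-(Λ * (c - η))) := by rw [mul_assoc, e1, mul_one]
        _ ≤ (M₀ * Real.exp (Λ * η)) * Real.exp (-(Λ * (c - η))) := by gcongr
        _ = M₀ * Real.exp (-(Λ * (c - 2 * η))) := by
            rw [mul_assoc, ← Real.exp_add]; congr 2; ring
    have h8 : T ^ B * Real.exp (-(Λ * (c - 2 * η))) = T ^ B' := by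
      rw [Real.rpow_def_of_pos hT0, Real.rpow_def_of_pos hT0, ← Real.exp_add]
      congr 1
      rw [hΛ, hB']
      ring
    calc ‖riemannZeta s‖ ≤ M₀ * Real.exp (-(Λ * (c - 2 * η))) := h7
      _ = C₃ * T ^ B' := by rw [hM₀, mul_assoc, h8]
      _ ≤ (C₃ + C₂) * T ^ B' := by
          gcongr
          linarith

/-- Positive local density of good points at level `E` gives the bound with exponent `E + ε`. -/
lemma boundOn_of_density {E c : ℝ} (hE : 0 ≤ E) (hc0 : 0 < c)
    (hD : ∀ δ > 0, ∃ T₀ : ℝ, ∀ T : ℝ, T₀ ≤ T → c * δ ≤ volume.real (Good E T δ)) :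
    ∀ ε > 0, BoundOn (1 / 2) (E + ε) := by
  have hc1 : c ≤ 1 := by
    obtain ⟨T₀, hT₀⟩ := hD 1 one_pos
    have h1 := hT₀ T₀ le_rfl
    have h2 : (volume (Good E T₀ 1)).toReal ≤ (volume (Icc T₀ (T₀ + 1))).toReal := by
      apply ENNReal.toReal_mono
      · rw [Real.volume_Icc]; exact ENNReal.ofReal_ne_top
      · exact measure_mono fun t ht => ht.1
    rw [Real.volume_Icc, ENNReal.toReal_ofReal (by linarith)] at h2
    have h3 : volume.real (Good E T₀ 1) = (volume (Good E T₀ 1)).toReal := rfl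
    linarith
  -- one step of improvement
  have step : ∀ B : ℝ, E < B → BoundOn (1 / 2) B → ∀ ε > 0,
      BoundOn (1 / 2) (B - (B - E) * (c / 2) + ε) := by
    intro B hB hb ε hε
    have h0 : 0 ≤ B - (B - E) * (c / 2) := by nlinarith
    apply boundOn_half_of_forall h0 _ ε hε
    intro a ha
    have h1 := contraction hE hB hc0 hc1 (a := a) (η := c / 4) ha (by positivity) hD hb
    have h2 : B - (B - E) * (c - 2 * (c / 4)) = B - (B - E) * (c / 2) := by ring
    rwa [h2] at h1
  -- the infimum of the admissible exponents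
  set Sset : Set ℝ := {B | E ≤ B ∧ BoundOn (1 / 2) B} with hS
  have hne : Sset.Nonempty :=
    ⟨max E 1, le_max_left _ _, boundOn_crude.mono (by norm_num) (le_max_right _ _)⟩
  have hbdd : BddBelow Sset := ⟨E, fun B hB => hB.1⟩
  set β := sInf Sset with hβ
  have hEβ : E ≤ β := le_csInf hne fun B hB => hB.1
  have hβE : β = E := by
    by_contra hne'
    have hlt : E < β := lt_of_le_of_ne hEβ (Ne.symm hne')
    set Δ := β - E with hΔ
    have hΔ0 : 0 < Δ := by linarith
    obtain ⟨B, hBS, hBlt⟩ := exists_lt_of_csInf_lt hne (show sInf Sset < β + c * Δ / 8 by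
      rw [← hβ]; have : 0 < c * Δ / 8 := by positivity
      linarith)
    have hβB : β ≤ B := csInf_le hbdd hBS
    have h1 := step B (by linarith) hBS.2 (c * Δ / 8) (by positivity)
    have h2 : E ≤ B - (B - E) * (c / 2) + c * Δ / 8 := by
      have : 0 < c * Δ / 8 := by positivity
      nlinarith
    have h3 : β ≤ B - (B - E) * (c / 2) + c * Δ / 8 := csInf_le hbdd ⟨h2, h1⟩
    have h4 : Δ * (c / 2) ≤ (B - E) * (c / 2) := by
      apply mul_le_mul_of_nonneg_right _ (by positivity)
      linarith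
    nlinarith
  intro ε hε
  obtain ⟨B, hBS, hBlt⟩ := exists_lt_of_csInf_lt hne (show sInf Sset < E + ε by
    rw [← hβ, hβE]; linarith)
  exact hBS.2.mono le_rfl hBlt.le

/-- **Failures of Lindelöf are thick.**  For every `A ≥ 0`, the bound
`ζ(1/2 + it) = O(|t|^{A + ε})` holds for all `ε > 0` if and only if for every `B > A` there is a
proportion `c > 0` such that for every length `δ > 0` and all large `T` the set of
`t ∈ [T, T + δ]` with `|ζ(1/2 + it)| ≤ T ^ B` has measure at least `c * δ`. -/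
theorem result : ∀ A : ℝ, 0 ≤ A →
    ((∀ ε : ℝ, 0 < ε → ∃ C : ℝ, ∀ t : ℝ,
        ‖riemannZeta (1 / 2 + t * I)‖ ≤ C * (1 + |t|) ^ (A + ε)) ↔
      (∀ B : ℝ, A < B → ∃ c : ℝ, 0 < c ∧ ∀ δ : ℝ, 0 < δ → ∃ T₀ : ℝ, ∀ T : ℝ, T₀ ≤ T →
        c * δ ≤ volume.real
          {t : ℝ | t ∈ Set.Icc T (T + δ) ∧ ‖riemannZeta (1 / 2 + t * I)‖ ≤ T ^ B})) := by
  intro A hA
  constructor
  · intro h B hB
    refine ⟨1, one_pos, ?_⟩
    intro δ hδ
    obtain ⟨C, hC⟩ := h ((B - A) / 2) (by linarith)
    have h1 : Tendsto (fun t : ℝ => t ^ ((B - A) / 2)) atTop atTop :=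
      tendsto_rpow_atTop (by linarith)
    obtain ⟨T₁, hT₁⟩ := eventually_atTop.mp
      ((h1.eventually_ge_atTop (|C| * (2 + δ) ^ (A + (B - A) / 2))).and (eventually_ge_atTop 1))
    refine ⟨T₁, ?_⟩
    intro T hT
    obtain ⟨h2, h3⟩ := hT₁ T hT
    have hT0 : 0 < T := by linarith
    have hall : {t : ℝ | t ∈ Set.Icc T (T + δ) ∧ ‖riemannZeta (1 / 2 + t * I)‖ ≤ T ^ B} =
        Set.Icc T (T + δ) := by
      ext t
      simp only [Set.mem_ofPred_eq, and_iff_left_iff_imp]
      intro ht
      have h4 := hC t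
      have ht0 : 0 < t := by linarith [ht.1]
      have h5 : (1 + |t|) ^ (A + (B - A) / 2) ≤ ((2 + δ) * T) ^ (A + (B - A) / 2) := by
        apply Real.rpow_le_rpow (by positivity) _ (by linarith)
        rw [abs_of_pos ht0]
        nlinarith [ht.2]
      rw [Real.mul_rpow (by positivity) hT0.le] at h5
      have h6 : T ^ B = T ^ (A + (B - A) / 2) * T ^ ((B - A) / 2) := by
        rw [← Real.rpow_add hT0]; congr 1; ring
      have h7 : 0 < T ^ (A + (B - A) / 2) := by positivity
      have h8 : C * (1 + |t|) ^ (A + (B - A) / 2) ≤ |C| * (1 + |t|) ^ (A + (B - A) / 2) := by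
        apply mul_le_mul_of_nonneg_right (le_abs_self C) (by positivity)
      have h9 : |C| * (1 + |t|) ^ (A + (B - A) / 2) ≤
          |C| * ((2 + δ) ^ (A + (B - A) / 2) * T ^ (A + (B - A) / 2)) := by
        apply mul_le_mul_of_nonneg_left h5 (abs_nonneg C)
      have h10 : (|C| * (2 + δ) ^ (A + (B - A) / 2)) * T ^ (A + (B - A) / 2) ≤
          T ^ ((B - A) / 2) * T ^ (A + (B - A) / 2) := by
        apply mul_le_mul_of_nonneg_right h2 h7.le
      rw [h6]
      nlinarith
    rw [hall, Real.volume_real_Icc_of_le (by linarith)]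
    linarith
  · intro h ε hε
    obtain ⟨c, hc, hD⟩ := h (A + ε / 2) (by linarith)
    have h2 := boundOn_of_density (E := A + ε / 2) (by linarith) hc hD (ε / 2) (by linarith)
    have h3 := h2.line (by linarith)
    rwa [show A + ε / 2 + ε / 2 = A + ε by ring] at h3

end Pool.Agent.Lib.ThickFailure
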