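import Mathlib
import Pool.Agent.Lib.ZetaLine
import Pool.Agent.Lib.ChiBound

/-!
# Values of zeta on one ray determine the growth of zeta on the critical line

With `b = ω² χ`, the function `(ω ζ + P (1 + b)/2) / (1 - b)` is purely imaginary on the critical
line (`P` real there), and its poles are simple with the sign of `ω ζ + P` (real at such points).
-/

namespace Pool.Agent.Lib.ZetaRay

open Complex Filter Topology Set
open Pool.Agent.Lib.ChiBound Pool.Agent.Lib.ZetaLine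

/-- `Γ_ℝ (1 - s) ≠ 0` off the real axis (no junk value). -/
lemma gammaR_one_sub_ne {s : ℂ} (hs : s.im ≠ 0) : Gammaℝ (1 - s) ≠ 0 := by
  rw [Ne, Gammaℝ_eq_zero_iff]
  rintro ⟨n, hn⟩
  have := congrArg Complex.im hn
  simp at this
  exact hs this

lemma functional {s : ℂ} (hs : 0 < s.re) (hi : s.im ≠ 0) :
    riemannZeta s = chi s * riemannZeta (1 - s) := by
  have h0 : s ≠ 0 := by rintro rfl; simp at hs
  have h1 : (1 - s) ≠ 0 := by
    intro h
    have := congrArg Complex.im h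
    simp at this
    exact hi this
  rw [riemannZeta_def_of_ne_zero h0, riemannZeta_def_of_ne_zero h1, completedRiemannZeta_one_sub,
    chi]
  have h2 := Gammaℝ_ne_zero_of_re_pos hs
  have h3 := gammaR_one_sub_ne hi
  field_simp

lemma differentiableAt_chi {s : ℂ} (hi : s.im ≠ 0) : DifferentiableAt ℂ chi s := by
  unfold chi
  have h1 : DifferentiableAt ℂ (fun z => ((Gammaℝ (1 - z))⁻¹)⁻¹) s := by
    apply DifferentiableAt.inv
    · exact (differentiable_Gammaℝ_inv.differentiableAt (x := 1 - s)).comp s (by fun_prop)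
    · exact inv_ne_zero (gammaR_one_sub_ne hi)
  simp only [inv_inv] at h1
  simp only [div_eq_mul_inv]
  exact h1.mul (differentiable_Gammaℝ_inv.differentiableAt)

/-- the inner function `ω² χ` -/
noncomputable def b (ω : ℂ) (s : ℂ) : ℂ := ω ^ 2 * chi s

lemma differentiableAt_b (ω : ℂ) {s : ℂ} (hi : s.im ≠ 0) : DifferentiableAt ℂ (b ω) s :=
  (differentiableAt_const _).mul (differentiableAt_chi hi)

lemma norm_b {ω : ℂ} (hω : ‖ω‖ = 1) (s : ℂ) : ‖b ω s‖ = ‖chi s‖ := by
  simp [b, hω]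

lemma norm_b_line {ω : ℂ} (hω : ‖ω‖ = 1) {s : ℂ} (hs : s.re = 1 / 2) : ‖b ω s‖ = 1 := by
  rw [norm_b hω]
  have : s = 1 / 2 + s.im * I := by
    apply Complex.ext <;> simp [hs]
  rw [this]
  exact chi_norm_line _

lemma norm_b_mul_le {ω : ℂ} (hω : ‖ω‖ = 1) {s : ℂ} (h1 : 1 / 2 ≤ s.re) (h2 : s.re ≤ 5 / 2)
    (ht : 900 ≤ s.im) : ‖b ω s‖ * (1 + 4 * (s.re - 1 / 2)) ≤ 1 := by
  rw [norm_b hω]
  set x := s.re - 1 / 2 with hx
  have hx0 : 0 ≤ x := by linarith
  have hs : s = ((1 / 2 + x : ℝ) : ℂ) + s.im * I := by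
    apply Complex.ext <;> simp [hx]
  have h3 : ‖chi s‖ ≤ (9 / s.im) ^ x := by
    rw [hs]
    have := chi_norm_le (x := x) (t := s.im) hx0 (by linarith) (by linarith)
    simpa using this
  have h4 : (9 / s.im) ^ x ≤ Real.exp (-(4 * x)) := by
    have h5 : (9 / s.im : ℝ) ≤ 1 / 100 := by
      rw [div_le_iff₀ (by linarith)]
      linarith
    have h6 : (9 / s.im : ℝ) ^ x ≤ (1 / 100) ^ x := by
      apply Real.rpow_le_rpow _ h5 hx0
      apply div_nonneg (by norm_num) (by linarith)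
    refine h6.trans ?_
    have h7 : (1 / 100 : ℝ) ≤ Real.exp (-4) := by
      rw [Real.exp_neg, ← one_div]
      apply one_div_le_one_div_of_le (Real.exp_pos _)
      have := Real.exp_one_lt_d9
      calc Real.exp 4 = (Real.exp 1) ^ 4 := by rw [← Real.exp_nat_mul]; norm_num
        _ ≤ (2.7182818286 : ℝ) ^ 4 := by gcongr
        _ ≤ 100 := by norm_num
    calc (1 / 100 : ℝ) ^ x ≤ (Real.exp (-4)) ^ x := Real.rpow_le_rpow (by norm_num) h7 hx0
      _ = Real.exp (-(4 * x)) := by rw [← Real.exp_mul]; ring_nf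
  have h8 : 1 + 4 * x ≤ Real.exp (4 * x) := by
    have := Real.add_one_le_exp (4 * x); linarith
  calc ‖chi s‖ * (1 + 4 * x) ≤ Real.exp (-(4 * x)) * Real.exp (4 * x) := by
        apply mul_le_mul (h3.trans h4) h8 (by linarith) (Real.exp_pos _).le
    _ = 1 := by rw [← Real.exp_add]; simp

lemma norm_b_le_one {ω : ℂ} (hω : ‖ω‖ = 1) {s : ℂ} (h1 : 1 / 2 ≤ s.re) (h2 : s.re ≤ 5 / 2)
    (ht : 900 ≤ s.im) : ‖b ω s‖ ≤ 1 := by
  have := norm_b_mul_le hω h1 h2 ht
  have h3 := norm_nonneg (b ω s)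
  nlinarith

lemma norm_b_lt_one {ω : ℂ} (hω : ‖ω‖ = 1) {s : ℂ} (h1 : 1 / 2 < s.re) (h2 : s.re ≤ 5 / 2)
    (ht : 900 ≤ s.im) : ‖b ω s‖ < 1 := by
  have := norm_b_mul_le hω h1.le h2 ht
  have h3 := norm_nonneg (b ω s)
  by_contra h
  push Not at h
  nlinarith

/-- `1 - ‖b‖² ≥ x / 3`. -/
lemma one_sub_sq_ge {ω : ℂ} (hω : ‖ω‖ = 1) {s : ℂ} (h1 : 1 / 2 ≤ s.re) (h2 : s.re ≤ 5 / 2)
    (ht : 900 ≤ s.im) : (s.re - 1 / 2) / 3 ≤ 1 - ‖b ω s‖ ^ 2 := by
  have h3 := norm_b_mul_le hω h1 h2 ht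
  have h4 := norm_nonneg (b ω s)
  have h5 := norm_b_le_one hω h1 h2 ht
  set x := s.re - 1 / 2 with hx
  have hx0 : 0 ≤ x := by linarith
  have hx2 : x ≤ 2 := by linarith
  nlinarith [mul_nonneg hx0 h4, mul_nonneg h4 (sub_nonneg.mpr h5)]

lemma b_ne_one {ω : ℂ} (hω : ‖ω‖ = 1) {s : ℂ} (h1 : 1 / 2 < s.re) (h2 : s.re ≤ 5 / 2)
    (ht : 900 ≤ s.im) : 1 - b ω s ≠ 0 := by
  intro h
  have h3 : b ω s = 1 := by linear_combination -h
  have := norm_b_lt_one hω h1 h2 ht
  rw [h3, norm_one] at this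
  exact lt_irrefl _ this

/-- reflection across the critical line -/
noncomputable def refl (s : ℂ) : ℂ := 1 - (starRingEnd ℂ) s

/-- `ω ζ(s) conj (b s) = |b s|² conj (ω ζ (refl s))`. -/
lemma zeta_mul_conj_b {ω : ℂ} (hω : ‖ω‖ = 1) {s : ℂ} (hs : 0 < s.re) (hi : s.im ≠ 0) :
    ω * riemannZeta s * (starRingEnd ℂ) (b ω s) =
      (‖b ω s‖ ^ 2 : ℝ) * (starRingEnd ℂ) (ω * riemannZeta (refl s)) := by
  have hωω : ω * (starRingEnd ℂ) ω = 1 := by
    rw [Complex.mul_conj, Complex.normSq_eq_norm_sq, hω]; simp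
  have h1 : (starRingEnd ℂ) (riemannZeta (refl s)) = riemannZeta (1 - s) := by
    rw [← riemannZeta_conj]
    congr 1
    simp [refl]
  have h2 : ((‖b ω s‖ ^ 2 : ℝ) : ℂ) = chi s * (starRingEnd ℂ) (chi s) := by
    rw [norm_b hω, Complex.mul_conj, Complex.normSq_eq_norm_sq]
  rw [map_mul, h1, h2, functional hs hi, b, map_mul, map_pow]
  linear_combination (chi s * riemannZeta (1 - s) * (starRingEnd ℂ) ω *
    (starRingEnd ℂ) (chi s)) * hωω

/-- the master formula for the real part -/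
lemma master (u P β : ℂ) (hβ : 1 - β ≠ 0) :
    ((u + P * (1 + β) / 2) / (1 - β)).re * ‖1 - β‖ ^ 2 =
      (u * (1 - (starRingEnd ℂ) β)).re + P.re * (1 - ‖β‖ ^ 2) / 2 - P.im * β.im := by
  have h1 : ((u + P * (1 + β) / 2) / (1 - β)).re * ‖1 - β‖ ^ 2 =
      ((u + P * (1 + β) / 2) * (starRingEnd ℂ) (1 - β)).re := by
    have h2 : (u + P * (1 + β) / 2) * (starRingEnd ℂ) (1 - β) =
        ((u + P * (1 + β) / 2) / (1 - β)) * ((‖1 - β‖ ^ 2 : ℝ) : ℂ) := by
      rw [← Complex.normSq_eq_norm_sq, ← Complex.mul_conj]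
      field_simp
    rw [h2, mul_comm _ ((‖1 - β‖ ^ 2 : ℝ) : ℂ), re_ofReal_mul, mul_comm]
  rw [h1, ← Complex.normSq_eq_norm_sq, Complex.normSq_apply]
  simp only [map_sub, map_one, mul_re, add_re, sub_re, one_re, conj_re, conj_im, add_im, sub_im,
    one_im, mul_im, div_ofNat_re, div_ofNat_im]
  ring

lemma re_line_eq_zero {ω : ℂ} (hω : ‖ω‖ = 1) {s P : ℂ} (hs : s.re = 1 / 2) (hi : s.im ≠ 0)
    (hP : P.im = 0) (hb : 1 - b ω s ≠ 0) :
    ((ω * riemannZeta s + P * (1 + b ω s) / 2) / (1 - b ω s)).re = 0 := by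
  have h1 := master (ω * riemannZeta s) P (b ω s) hb
  have h2 : refl s = s := by
    apply Complex.ext <;> simp [refl, hs]
    norm_num
  have h3 := zeta_mul_conj_b hω (s := s) (by rw [hs]; norm_num) hi
  rw [h2, norm_b_line hω hs] at h3
  have h4 : (ω * riemannZeta s * (1 - (starRingEnd ℂ) (b ω s))).re = 0 := by
    rw [mul_sub, h3, mul_one, sub_re]
    simp
  rw [h4, hP, norm_b_line hω hs] at h1
  have h5 : ‖1 - b ω s‖ ^ 2 ≠ 0 := by positivity
  have h6 : ((ω * riemannZeta s + P * (1 + b ω s) / 2) / (1 - b ω s)).re * ‖1 - b ω s‖ ^ 2 = 0 := by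
    rw [h1]; ring
  exact (mul_eq_zero.mp h6).resolve_right h5

/-- At the points where `b = 1` the number `ω ζ` is real. -/
lemma im_eq_zero_of_b {ω : ℂ} (hω : ‖ω‖ = 1) {s : ℂ} (hs : s.re = 1 / 2) (hi : s.im ≠ 0)
    (hb : b ω s = 1) : (ω * riemannZeta s).im = 0 := by
  have h2 : refl s = s := by
    apply Complex.ext <;> simp [refl, hs]
    norm_num
  have h3 := zeta_mul_conj_b hω (s := s) (by rw [hs]; norm_num) hi
  rw [h2, hb] at h3
  simp only [map_one, mul_one, norm_one, one_pow, ofReal_one, one_mul] at h3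
  exact Complex.conj_eq_iff_im.mp h3.symm

/-- **Crude positivity.** -/
lemma crude_pos : ∃ C₁ T₁ : ℝ, 1 ≤ C₁ ∧ 900 ≤ T₁ ∧ ∀ ω : ℂ, ‖ω‖ = 1 → ∀ s : ℂ,
    1 / 2 ≤ s.re → s.re ≤ 5 / 2 → T₁ ≤ s.im →
    -(C₁ * s.im * (1 - ‖b ω s‖ ^ 2)) ≤
      (ω * riemannZeta s * (1 - (starRingEnd ℂ) (b ω s))).re := by
  obtain ⟨C, T₀, hC, hT₀, h⟩ := boundOn_crude
  refine ⟨200 * C, T₀ + 900, by linarith, by linarith, ?_⟩
  intro ω hω s h1 h2 ht
  set t := s.im with ht_def
  have hb1 := norm_b_le_one hω h1 h2 (by linarith)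
  have hbs := one_sub_sq_ge hω h1 h2 (by linarith)
  have hb0 := norm_nonneg (b ω s)
  have hz : ∀ z : ℂ, 1 / 4 ≤ z.re → t - 1 / 8 ≤ z.im → z.im ≤ t + 1 / 8 →
      ‖riemannZeta z‖ ≤ 2 * C * t := by
    intro z hz1 hz2 hz3
    have := h z hz1 (by linarith)
    rw [Real.rpow_one] at this
    nlinarith
  have hi : s.im ≠ 0 := by
    intro h0
    linarith
  by_cases hx : s.re ≤ 5 / 8
  · -- near the critical line
    have hre : (ω * riemannZeta s * (1 - (starRingEnd ℂ) (b ω s))).re =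
        (ω * (riemannZeta s - riemannZeta (refl s))).re +
          (1 - ‖b ω s‖ ^ 2) * (ω * riemannZeta (refl s)).re := by
      have h3 := zeta_mul_conj_b hω (s := s) (by linarith) hi
      rw [mul_sub, mul_one, h3, sub_re, re_ofReal_mul, conj_re, mul_sub, sub_re]
      ring
    have hr1 : (refl s).re = 1 - s.re := by simp [refl]
    have hr2 : (refl s).im = t := by simp [refl, ht_def]
    have hzr : ‖riemannZeta (refl s)‖ ≤ 2 * C * t := by
      apply hz <;> [rw [hr1]; rw [hr2]; rw [hr2]] <;> linarith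
    -- mean value
    have hder : ‖riemannZeta s - riemannZeta (refl s)‖ ≤ (16 * C * t) * ‖s - refl s‖ := by
      have hconv : Convex ℝ ({z : ℂ | 3 / 8 ≤ z.re} ∩ {z : ℂ | z.im = t}) := by
        apply Convex.inter
        · exact convex_halfSpace_re_ge _
        · exact convex_hyperplane (f := fun z : ℂ => z.im) (IsLinearMap.mk (by simp) (by simp)) t
      apply hconv.norm_image_sub_le_of_norm_deriv_le (𝕜 := ℂ)
      · rintro z ⟨hz1, hz2⟩
        simp only [mem_ofPred_eq] at hz1 hz2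
        apply differentiableAt_riemannZeta
        rintro rfl
        simp only [one_im] at hz2
        linarith
      · rintro z ⟨hz1, hz2⟩
        simp only [mem_ofPred_eq] at hz1 hz2
        have hcd : ‖deriv riemannZeta z‖ ≤ 2 * C * t / (1 / 8) := by
          apply Complex.norm_deriv_le_of_forall_mem_sphere_norm_le (by norm_num)
          · apply DifferentiableOn.diffContOnCl
            intro w hw
            apply DifferentiableAt.differentiableWithinAt
            apply differentiableAt_riemannZeta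
            have hw' := Metric.closure_ball_subset_closedBall hw
            rw [Metric.mem_closedBall, dist_eq_norm] at hw'
            rintro rfl
            have := (abs_im_le_norm (1 - z)).trans hw'
            rw [sub_im, one_im, hz2, abs_le] at this
            linarith
          · intro w hw
            rw [mem_sphere_iff_norm] at hw
            have e1 := (abs_re_le_norm (w - z)).trans hw.le
            have e2 := (abs_im_le_norm (w - z)).trans hw.le
            rw [sub_re, abs_le] at e1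
            rw [sub_im, hz2, abs_le] at e2
            apply hz <;> linarith
        refine hcd.trans (le_of_eq ?_)
        ring
      · exact ⟨by simp only [mem_ofPred_eq, hr1]; linarith, by simp only [mem_ofPred_eq, hr2]⟩
      · exact ⟨by simp only [mem_ofPred_eq]; linarith, by simp only [mem_ofPred_eq, ht_def]⟩
    have hsr : ‖s - refl s‖ = 2 * (s.re - 1 / 2) := by
      have : s - refl s = ((2 * (s.re - 1 / 2) : ℝ) : ℂ) := by
        apply Complex.ext <;> simp [refl]
        ring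
      rw [this, Complex.norm_real, Real.norm_of_nonneg (by linarith)]
    rw [hsr] at hder
    rw [hre]
    have e1 : -(‖riemannZeta s - riemannZeta (refl s)‖) ≤
        (ω * (riemannZeta s - riemannZeta (refl s))).re := by
      have := neg_le_of_abs_le (abs_re_le_norm (ω * (riemannZeta s - riemannZeta (refl s))))
      rwa [norm_mul, hω, one_mul] at this
    have e2 : -(‖riemannZeta (refl s)‖) ≤ (ω * riemannZeta (refl s)).re := by
      have := neg_le_of_abs_le (abs_re_le_norm (ω * riemannZeta (refl s)))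
      rwa [norm_mul, hω, one_mul] at this
    have hb2 : 0 ≤ 1 - ‖b ω s‖ ^ 2 := by nlinarith
    have hCt : 0 ≤ C * t := by nlinarith
    have e3 : (1 - ‖b ω s‖ ^ 2) * -(2 * C * t) ≤
        (1 - ‖b ω s‖ ^ 2) * (ω * riemannZeta (refl s)).re :=
      mul_le_mul_of_nonneg_left (by linarith) hb2
    have e4 : 16 * C * t * (2 * (s.re - 1 / 2)) ≤ 96 * (C * t) * (1 - ‖b ω s‖ ^ 2) := by
      nlinarith [mul_le_mul_of_nonneg_left hbs hCt]
    nlinarith
  · push Not at hx
    have hb2 : 1 / 24 ≤ 1 - ‖b ω s‖ ^ 2 := by linarith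
    have hzs : ‖riemannZeta s‖ ≤ 2 * C * t := hz s (by linarith) (by linarith) (by linarith)
    have e1 : -(‖ω * riemannZeta s * (1 - (starRingEnd ℂ) (b ω s))‖) ≤
        (ω * riemannZeta s * (1 - (starRingEnd ℂ) (b ω s))).re :=
      neg_le_of_abs_le (abs_re_le_norm _)
    rw [norm_mul, norm_mul, hω, one_mul] at e1
    have e2 : ‖1 - (starRingEnd ℂ) (b ω s)‖ ≤ 2 := by
      refine (norm_sub_le _ _).trans ?_
      rw [norm_one, Complex.norm_conj]
      linarith
    have hCt : 0 ≤ C * t := by nlinarith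
    have e3 : ‖riemannZeta s‖ * ‖1 - (starRingEnd ℂ) (b ω s)‖ ≤ 2 * C * t * 2 :=
      mul_le_mul hzs e2 (norm_nonneg _) (by linarith)
    nlinarith

end Pool.Agent.Lib.ZetaRay
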