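import Mathlib
import Pool.Agent.Lib.ZetaRay

/-!
# The minimum principle for `(ω ζ + P (1 + b)/2) / (1 - b)`
-/

namespace Pool.Agent.Lib.ZetaRay

open Complex Filter Topology Set
open Pool.Agent.Lib.ChiBound Pool.Agent.Lib.ZetaLine

/-- Minimum principle for the real part in a rectangle `1/2 < Re s ≤ 5/2`, `|Im s - T| ≤ Y`. -/
lemma min_principle {F : ℂ → ℂ} {T Y : ℝ}
    (hF : ∀ s : ℂ, 1 / 2 < s.re → s.re ≤ 5 / 2 → |s.im - T| ≤ Y → DifferentiableAt ℂ F s)
    (hright : ∀ s : ℂ, s.re = 5 / 2 → |s.im - T| ≤ Y → 0 ≤ (F s).re)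
    (htop : ∀ s : ℂ, 1 / 2 < s.re → s.re ≤ 5 / 2 → |s.im - T| = Y → 0 ≤ (F s).re)
    (hleft : ∀ τ : ℝ, |τ - T| ≤ Y → ∀ δ > 0, ∀ᶠ s in 𝓝 ((1 / 2 : ℝ) + τ * I : ℂ),
      1 / 2 < s.re → -δ ≤ (F s).re) :
    ∀ s : ℂ, 1 / 2 < s.re → s.re ≤ 5 / 2 → |s.im - T| ≤ Y → 0 ≤ (F s).re := by
  intro s₀ h1 h2 h3
  by_contra hneg
  push Not at hneg
  set δ : ℝ := -(F s₀).re / 2 with hδ
  have hδ0 : 0 < δ := by rw [hδ]; linarith
  -- uniform collar
  set K : Set ℂ := (fun τ : ℝ => ((1 / 2 : ℝ) + τ * I : ℂ)) '' (Icc (T - Y) (T + Y)) with hK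
  have hKc : IsCompact K := by
    apply (isCompact_Icc).image
    fun_prop
  set U : Set ℂ := interior {s : ℂ | 1 / 2 < s.re → -δ ≤ (F s).re} with hU
  have hKU : K ⊆ U := by
    rintro _ ⟨τ, hτ, rfl⟩
    rw [hU, mem_interior_iff_mem_nhds]
    apply hleft τ _ δ hδ0
    rw [abs_le]
    exact ⟨by linarith [hτ.1], by linarith [hτ.2]⟩
  obtain ⟨η₀, hη₀, hη₀U⟩ := hKc.exists_thickening_subset_open isOpen_interior hKU
  set η : ℝ := min (η₀ / 2) ((s₀.re - 1 / 2) / 2) with hη
  have hηpos : 0 < η := lt_min (by linarith) (by linarith)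
  have hη1 : η < η₀ := lt_of_le_of_lt (min_le_left _ _) (by linarith)
  have hη2 : η < s₀.re - 1 / 2 := lt_of_le_of_lt (min_le_right _ _) (by linarith)
  have hcollar : ∀ s : ℂ, s.re = 1 / 2 + η → |s.im - T| ≤ Y → -δ ≤ (F s).re := by
    intro s hs hsY
    have hmem : s ∈ Metric.thickening η₀ K := by
      rw [Metric.mem_thickening_iff]
      refine ⟨(1 / 2 : ℝ) + s.im * I, ⟨s.im, ?_, rfl⟩, ?_⟩
      · rw [abs_le] at hsY
        exact ⟨by linarith, by linarith⟩
      · have : s - ((1 / 2 : ℝ) + s.im * I : ℂ) = (η : ℂ) := by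
          apply Complex.ext <;> simp [hs]
        rw [dist_eq_norm, this, Complex.norm_real, Real.norm_of_nonneg hηpos.le]
        exact hη1
    have h5 := interior_subset (hη₀U hmem)
    exact h5 (by rw [hs]; linarith)
  -- maximum modulus principle for exp (-F)
  set R : Set ℂ := {s | s.re ∈ Ioo (1 / 2 + η) (5 / 2)} ∩ {s | s.im ∈ Ioo (T - Y) (T + Y)} with hR
  have hRsub : closure R ⊆ {s | s.re ∈ Icc (1 / 2 + η) (5 / 2)} ∩ {s | s.im ∈ Icc (T - Y) (T + Y)} := by
    apply closure_minimal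
    · rintro s ⟨⟨a1, a2⟩, ⟨a3, a4⟩⟩
      exact ⟨⟨a1.le, a2.le⟩, ⟨a3.le, a4.le⟩⟩
    · exact (isClosed_Icc.preimage continuous_re).inter (isClosed_Icc.preimage continuous_im)
  have hRopen : IsOpen R :=
    (isOpen_Ioo.preimage continuous_re).inter (isOpen_Ioo.preimage continuous_im)
  have hRb : Bornology.IsBounded R := by
    have : R ⊆ (Icc (1 / 2 + η) (5 / 2)) ×ℂ (Icc (T - Y) (T + Y)) := by
      rintro s ⟨⟨a1, a2⟩, ⟨a3, a4⟩⟩
      rw [Complex.mem_reProdIm]
      exact ⟨⟨a1.le, a2.le⟩, ⟨a3.le, a4.le⟩⟩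
    exact ((isCompact_Icc.reProdIm isCompact_Icc).isBounded).subset this
  have habs : ∀ s : ℂ, s.im ∈ Icc (T - Y) (T + Y) → |s.im - T| ≤ Y := by
    intro s hs
    rw [abs_le]
    exact ⟨by linarith [hs.1], by linarith [hs.2]⟩
  have hdiff : DiffContOnCl ℂ (fun s => Complex.exp (-F s)) R := by
    apply DifferentiableOn.diffContOnCl
    intro s hs
    obtain ⟨⟨a1, a2⟩, a3⟩ := hRsub hs
    exact ((hF s (by linarith) a2 (habs s a3)).neg.cexp).differentiableWithinAt
  have hfr : ∀ s ∈ frontier R, ‖Complex.exp (-F s)‖ ≤ Real.exp δ := by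
    intro s hs
    have hsc := hRsub (frontier_subset_closure hs)
    have hsn : s ∉ R := by
      rw [hRopen.frontier_eq] at hs
      exact hs.2
    obtain ⟨⟨a1, a2⟩, a3⟩ := hsc
    rw [Complex.norm_exp, Real.exp_le_exp, neg_re]
    by_cases c1 : s.re = 5 / 2
    · linarith [hright s c1 (habs s a3)]
    by_cases c2 : |s.im - T| = Y
    · linarith [htop s (by linarith) a2 c2]
    by_cases c3 : s.re = 1 / 2 + η
    · linarith [hcollar s c3 (habs s a3)]
    · exfalso
      apply hsn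
      refine ⟨⟨lt_of_le_of_ne a1 (Ne.symm c3), lt_of_le_of_ne a2 c1⟩, ?_⟩
      have h6 := lt_of_le_of_ne (habs s a3) c2
      rw [abs_lt] at h6
      exact ⟨by linarith, by linarith⟩
  -- the point itself
  by_cases c1 : s₀.re = 5 / 2
  · linarith [hright s₀ c1 h3]
  by_cases c2 : |s₀.im - T| = Y
  · linarith [htop s₀ h1 h2 c2]
  have hmemR : s₀ ∈ closure R := by
    apply subset_closure
    refine ⟨⟨by linarith, lt_of_le_of_ne h2 c1⟩, ?_⟩
    have h6 := lt_of_le_of_ne h3 c2
    rw [abs_lt] at h6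
    exact ⟨by linarith, by linarith⟩
  have hfin := Complex.norm_le_of_forall_mem_frontier_norm_le hRb hdiff hfr hmemR
  rw [Complex.norm_exp, Real.exp_le_exp, neg_re] at hfin
  linarith

/-- The function. -/
noncomputable def FF (ω : ℂ) (P : ℂ → ℂ) (s : ℂ) : ℂ :=
  (ω * riemannZeta s + P s * (1 + b ω s) / 2) / (1 - b ω s)

lemma differentiableAt_FF {ω : ℂ} {P : ℂ → ℂ} (hP : Differentiable ℂ P) {s : ℂ} (hi : s.im ≠ 0)
    (hb : 1 - b ω s ≠ 0) : DifferentiableAt ℂ (FF ω P) s := by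
  unfold FF
  have hs1 : s ≠ 1 := by rintro rfl; simp at hi
  have h1 := differentiableAt_riemannZeta hs1
  have h2 := differentiableAt_b ω hi
  have h3 := hP s
  have hnum : DifferentiableAt ℂ (fun s => ω * riemannZeta s + P s * (1 + b ω s) / 2) s := by
    fun_prop
  have hden : DifferentiableAt ℂ (fun s => 1 - b ω s) s := by fun_prop
  exact hnum.div hden hb

/-- Boundary behaviour at the critical line. -/
lemma left_boundary {ω : ℂ} (hω : ‖ω‖ = 1) {P : ℂ → ℂ} (hP : Differentiable ℂ P) {τ : ℝ}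
    (hτ : 900 < τ) (hPim : ∀ t : ℝ, (P ((1 / 2 : ℝ) + t * I)).im = 0)
    (hpos : b ω ((1 / 2 : ℝ) + τ * I) = 1 →
      0 ≤ (ω * riemannZeta ((1 / 2 : ℝ) + τ * I)).re + (P ((1 / 2 : ℝ) + τ * I)).re) :
    ∀ δ > 0, ∀ᶠ s in 𝓝 ((1 / 2 : ℝ) + τ * I : ℂ), 1 / 2 < s.re → -δ ≤ (FF ω P s).re := by
  intro δ hδ
  set s₀ : ℂ := ((1 / 2 : ℝ) + τ * I : ℂ) with hs₀
  have hs₀re : s₀.re = 1 / 2 := by simp [hs₀]
  have hs₀im : s₀.im = τ := by simp [hs₀]
  have hi₀ : s₀.im ≠ 0 := by rw [hs₀im]; linarith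
  -- on the line the real part vanishes
  have hline : ∀ (Q : ℂ → ℂ), (∀ t : ℝ, (Q ((1 / 2 : ℝ) + t * I)).im = 0) → ∀ t : ℝ, 0 < t →
      1 - b ω ((1 / 2 : ℝ) + t * I) ≠ 0 → (FF ω Q ((1 / 2 : ℝ) + t * I)).re = 0 := by
    intro Q hQ t ht hb
    unfold FF
    apply re_line_eq_zero hω _ _ (hQ t) hb
    · simp
    · simp; linarith
  by_cases hb : 1 - b ω s₀ = 0
  · have hb1 : b ω s₀ = 1 := by linear_combination -hb
    have hN := hpos hb1
    have hu_im : (ω * riemannZeta s₀).im = 0 := im_eq_zero_of_b hω hs₀re hi₀ hb1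
    set β : ℂ → ℂ := b ω with hβ
    have hβd : DifferentiableAt ℂ β s₀ := differentiableAt_b ω hi₀
    set A : ℂ → ℂ := fun s => ω * riemannZeta s + P s with hA
    have hζd : DifferentiableAt ℂ riemannZeta s₀ := by
      apply differentiableAt_riemannZeta
      rintro h
      rw [h] at hi₀
      simp at hi₀
    have hAd : DifferentiableAt ℂ A s₀ := (hζd.const_mul ω).add (hP s₀)
    have hA0 : A s₀ = ((A s₀).re : ℂ) := by
      apply Complex.ext
      · simp
      · simp only [hA, add_im, hu_im, ofReal_im]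
        rw [hs₀, hPim τ, zero_add]
    have hA0re : 0 ≤ (A s₀).re := by simpa [hA] using hN
    -- derivative of b does not vanish
    have hβ' : deriv β s₀ ≠ 0 := by
      intro h0
      have hd := hβd.hasDerivAt
      rw [h0] at hd
      have hlo := hd.isLittleO
      have hlo2 := hlo.def (c := 1) one_pos
      have hpath : Tendsto (fun x : ℝ => s₀ + (x : ℂ)) (𝓝[>] 0) (𝓝 s₀) := by
        have : Tendsto (fun x : ℝ => s₀ + (x : ℂ)) (𝓝 0) (𝓝 (s₀ + ((0 : ℝ) : ℂ))) := by
          apply Continuous.tendsto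
          fun_prop
        rw [ofReal_zero, add_zero] at this
        exact this.mono_left nhdsWithin_le_nhds
      have hev := hpath.eventually hlo2
      have hev2 : ∀ᶠ x : ℝ in 𝓝[>] 0, x < 1 / 4 := by
        filter_upwards [Ioo_mem_nhdsGT (show (0 : ℝ) < 1 / 4 by norm_num)] with x hx
        exact hx.2
      obtain ⟨x, ⟨hx1, hx2⟩, hx3⟩ := ((hev.and hev2).and self_mem_nhdsWithin).exists
      have hx3 : 0 < x := hx3
      have hxre : (s₀ + (x : ℂ)).re = 1 / 2 + x := by simp [hs₀re]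
      have hxim : (s₀ + (x : ℂ)).im = τ := by simp [hs₀im]
      have hbb := norm_b_mul_le hω (s := s₀ + (x : ℂ)) (by rw [hxre]; linarith)
        (by rw [hxre]; linarith) (by rw [hxim]; linarith)
      rw [hxre] at hbb
      simp only [smul_zero, sub_zero, add_sub_cancel_left, Complex.norm_real, one_mul,
        Real.norm_of_nonneg hx3.le, hβ] at hx1
      have hb1' : b ω s₀ = 1 := hb1
      rw [hb1'] at hx1
      have h5 : 1 - ‖b ω (s₀ + (x : ℂ))‖ ≤ ‖b ω (s₀ + (x : ℂ)) - 1‖ := by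
        have := norm_sub_norm_le (1 : ℂ) (b ω (s₀ + (x : ℂ)))
        rw [norm_one, norm_sub_rev] at this
        exact this
      have h6 : 1 - x ≤ ‖b ω (s₀ + (x : ℂ))‖ := by linarith
      have h7 : (1 - x) * (1 + 4 * x) ≤ 1 := by
        refine le_trans ?_ hbb
        apply mul_le_mul h6 _ (by linarith) (norm_nonneg _)
        linarith
      nlinarith
    -- the regular part
    set dβ : ℂ → ℂ := dslope β s₀ with hdβ
    set dA : ℂ → ℂ := dslope A s₀ with hdA
    have hdβc : ContinuousAt dβ s₀ := continuousAt_dslope_same.mpr hβd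
    have hdAc : ContinuousAt dA s₀ := continuousAt_dslope_same.mpr hAd
    have hdβ0 : dβ s₀ ≠ 0 := by rw [hdβ, dslope_same]; exact hβ'
    set G : ℂ → ℂ := fun s => -(dA s * (1 + β s)) / (2 * dβ s) + ω * riemannZeta s / 2 with hG
    have hGc : ContinuousAt G s₀ := by
      apply ContinuousAt.add
      · apply ContinuousAt.div
        · exact (hdAc.mul (continuousAt_const.add hβd.continuousAt)).neg
        · exact continuousAt_const.mul hdβc
        · simp [hdβ0]
      · exact (continuousAt_const.mul hζd.continuousAt).div_const 2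
    have hid : ∀ s : ℂ, s ≠ s₀ → dβ s ≠ 0 →
        1 - β s ≠ 0 ∧ FF ω P s = A s₀ * ((1 + β s) / (2 * (1 - β s))) + G s := by
      intro s hs hds
      have e1 : 1 - β s = -((s - s₀) * dβ s) := by
        have := sub_smul_dslope β s₀ s
        rw [smul_eq_mul] at this
        rw [hdβ, this, hb1]
        ring
      have e2 : A s = A s₀ + (s - s₀) * dA s := by
        have := sub_smul_dslope A s₀ s
        rw [smul_eq_mul] at this
        rw [hdA, this]
        ring
      have hss : s - s₀ ≠ 0 := sub_ne_zero.mpr hs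
      have hne : 1 - β s ≠ 0 := by
        rw [e1]
        exact neg_ne_zero.mpr (mul_ne_zero hss hds)
      refine ⟨hne, ?_⟩
      have e3 : FF ω P s = A s * ((1 + β s) / (2 * (1 - β s))) + ω * riemannZeta s / 2 := by
        simp only [FF, hA]
        change (ω * riemannZeta s + P s * (1 + β s) / 2) / (1 - β s) = _
        field_simp
        ring
      rw [e3, e2, hG]
      simp only
      rw [e1]
      field_simp
      ring
    have hdβev : ∀ᶠ s in 𝓝 s₀, dβ s ≠ 0 := hdβc.eventually_ne hdβ0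
    -- real part of G at s₀ vanishes
    have hG0 : (G s₀).re = 0 := by
      have hpath : Tendsto (fun y : ℝ => ((1 / 2 : ℝ) + y * I : ℂ)) (𝓝[≠] τ) (𝓝 s₀) := by
        have : Tendsto (fun y : ℝ => ((1 / 2 : ℝ) + y * I : ℂ)) (𝓝 τ) (𝓝 s₀) := by
          rw [hs₀]
          apply Continuous.tendsto
          fun_prop
        exact this.mono_left nhdsWithin_le_nhds
      have hlim : Tendsto (fun y : ℝ => (G ((1 / 2 : ℝ) + y * I)).re) (𝓝[≠] τ) (𝓝 (G s₀).re) :=
        (continuous_re.tendsto _).comp (hGc.tendsto.comp hpath)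
      have hzero : ∀ᶠ y : ℝ in 𝓝[≠] τ, (G ((1 / 2 : ℝ) + y * I)).re = 0 := by
        have hy0 : ∀ᶠ y : ℝ in 𝓝[≠] τ, 0 < y :=
          (eventually_gt_nhds (by linarith : (0 : ℝ) < τ)).filter_mono nhdsWithin_le_nhds
        filter_upwards [hpath.eventually hdβev, self_mem_nhdsWithin, hy0] with y hy1 hy2 hy3
        have hyne : ((1 / 2 : ℝ) + y * I : ℂ) ≠ s₀ := by
          intro h
          have := congrArg Complex.im h
          rw [hs₀im] at this
          simp at this
          exact hy2 this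
        obtain ⟨hne, hFF⟩ := hid _ hyne hy1
        have e1 := hline P hPim y hy3 hne
        have e2 : (((1 + β ((1 / 2 : ℝ) + y * I)) / (2 * (1 - β ((1 / 2 : ℝ) + y * I))) : ℂ)).re
            = 0 := by
          have h7 := master 0 1 (β ((1 / 2 : ℝ) + y * I)) hne
          have h8 : ‖β ((1 / 2 : ℝ) + y * I)‖ = 1 := norm_b_line hω (by simp)
          rw [h8] at h7
          simp only [zero_mul, zero_re, one_re, one_pow, sub_self, mul_zero, zero_div, one_im,
            sub_zero, zero_add, one_mul] at h7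
          have h9 : ‖1 - β ((1 / 2 : ℝ) + y * I)‖ ^ 2 ≠ 0 := by positivity
          have h10 := (mul_eq_zero.mp (h7.trans (by ring))).resolve_right h9
          rw [← h10]
          congr 1
          field_simp
        rw [hFF, add_re, hA0, re_ofReal_mul, e2, mul_zero, zero_add] at e1
        exact e1
      have := hlim.congr' hzero
      exact tendsto_nhds_unique hlim (tendsto_const_nhds.congr' (hzero.mono fun _ h => h.symm))
    have hGev : ∀ᶠ s in 𝓝 s₀, -δ < (G s).re := by
      have : Tendsto (fun s => (G s).re) (𝓝 s₀) (𝓝 (G s₀).re) :=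
        (continuous_re.tendsto _).comp hGc.tendsto
      rw [hG0] at this
      exact this.eventually (lt_mem_nhds (by linarith))
    have hbox : ∀ᶠ s : ℂ in 𝓝 s₀, s.re < 5 / 2 ∧ 900 < s.im := by
      apply Filter.Eventually.and
      · exact (continuous_re.tendsto s₀).eventually (gt_mem_nhds (by rw [hs₀re]; norm_num))
      · exact (continuous_im.tendsto s₀).eventually (lt_mem_nhds (by rw [hs₀im]; exact hτ))
    filter_upwards [hdβev, hGev, hbox] with s hs1 hs2 hs3 hs4
    have hne : s ≠ s₀ := by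
      rintro rfl
      rw [hs₀re] at hs4
      exact lt_irrefl _ hs4
    obtain ⟨hne2, hFF⟩ := hid s hne hs1
    rw [hFF, add_re, hA0, re_ofReal_mul]
    have hk : 0 ≤ ((1 + β s) / (2 * (1 - β s))).re := by
      have h7 := master 0 1 (β s) hne2
      have h8 : ‖β s‖ ≤ 1 := norm_b_le_one hω hs4.le hs3.1.le hs3.2.le
      simp only [zero_mul, zero_re, one_re, one_im, sub_zero, zero_add, one_mul] at h7
      have h9 : 0 < ‖1 - β s‖ ^ 2 := by positivity
      have h10 : ((1 + β s) / (2 * (1 - β s))) = ((1 + β s) / 2 / (1 - β s)) := by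
        field_simp
      rw [h10]
      have h11 : 0 ≤ (1 - ‖β s‖ ^ 2) / 2 := by
        have := norm_nonneg (β s)
        nlinarith
      by_contra hneg
      push Not at hneg
      nlinarith
    nlinarith [mul_nonneg hA0re hk]
  · -- regular point
    have hd := differentiableAt_FF hP hi₀ hb
    have h0 : (FF ω P s₀).re = 0 := hline P hPim τ (by linarith) hb
    have hc : Tendsto (fun s => (FF ω P s).re) (𝓝 s₀) (𝓝 0) := by
      rw [← h0]
      exact (continuous_re.tendsto _).comp hd.continuousAt.tendsto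
    filter_upwards [hc.eventually (lt_mem_nhds (show -δ < 0 by linarith))] with s hs _
    exact hs.le

end Pool.Agent.Lib.ZetaRay
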