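import Mathlib
import Pool.Agent.Lib.ZetaRay2

/-!
# The ray theorem

If, for large `t`, the real values of `ω ζ(1/2 + it)` are `≥ -t^B`, then `ζ(s) = O(t^B)` in
`Re s ≥ 1/2 + a` for every `a > 0`.
-/

namespace Pool.Agent.Lib.ZetaRay

open Complex Filter Topology Set
open Pool.Agent.Lib.ChiBound Pool.Agent.Lib.ZetaLine

/-- For `Re s ≥ 3/2` zeta is bounded. -/
theorem norm_zeta_le_three_halves :
    ∃ C : ℝ, 1 ≤ C ∧ ∀ s : ℂ, 3 / 2 ≤ s.re → ‖riemannZeta s‖ ≤ C := by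
  have hsumm : Summable fun n : ℕ => (n + 1 : ℝ) ^ (-(1 / 2 : ℝ) - 1) :=
    ZetaCrude.summable_rpow_aux (by norm_num)
  have hnn : ∀ n : ℕ, 0 ≤ (n + 1 : ℝ) ^ (-(1 / 2 : ℝ) - 1) := fun n => by positivity
  have hT : 0 ≤ ∑' n : ℕ, (n + 1 : ℝ) ^ (-(1 / 2 : ℝ) - 1) := tsum_nonneg hnn
  refine ⟨1 + ∑' n : ℕ, (n + 1 : ℝ) ^ (-(1 / 2 : ℝ) - 1), by linarith, ?_⟩
  intro s hs
  have hz := zeta_eq_tsum_one_div_nat_add_one_cpow (s := s) (by linarith)
  rw [hz]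
  have hb : ∀ n : ℕ, ‖1 / ((n : ℂ) + 1) ^ s‖ ≤ (n + 1 : ℝ) ^ (-(1 / 2 : ℝ) - 1) := by
    intro n
    have : ((n : ℂ) + 1) = ((n + 1 : ℝ) : ℂ) := by push_cast; rfl
    rw [this, norm_div, norm_one, norm_cpow_eq_rpow_re_of_pos (by positivity), one_div,
      ← Real.rpow_neg (by positivity)]
    apply Real.rpow_le_rpow_of_exponent_le
    · have : (0 : ℝ) ≤ n := Nat.cast_nonneg n
      linarith
    · linarith
  have := tsum_of_norm_bounded hsumm.hasSum hb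
  linarith

/-- the polynomial `M - (s - (1/2 + iT))^6 / T` -/
noncomputable def PP (M T : ℝ) (s : ℂ) : ℂ := M - (s - ((1 / 2 : ℝ) + T * I)) ^ 6 / T

lemma differentiable_PP (M T : ℝ) : Differentiable ℂ (PP M T) := by
  unfold PP; fun_prop

lemma PP_eq (M T : ℝ) (s : ℂ) {x y : ℝ} (hx : s.re - 1 / 2 = x) (hy : s.im - T = y) :
    PP M T s = ((M + (y ^ 2 * (3 * x ^ 2 - y ^ 2) ^ 2 - x ^ 2 * (x ^ 2 - 3 * y ^ 2) ^ 2) / T : ℝ) :
      ℂ) + ((-(2 * x * (x ^ 2 - 3 * y ^ 2) * y * (3 * x ^ 2 - y ^ 2)) / T : ℝ) : ℂ) * I := by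
  unfold PP
  have h : (s - ((1 / 2 : ℝ) + T * I)) = (x : ℂ) + (y : ℂ) * I := by
    apply Complex.ext <;> simp [← hx, ← hy]
  rw [h]
  have h2 := Complex.I_sq
  have e3 : ((x : ℂ) + y * I) ^ 3 = x * (x ^ 2 - 3 * y ^ 2) + y * (3 * x ^ 2 - y ^ 2) * I := by
    linear_combination (3 * x * y ^ 2 + y ^ 3 * I : ℂ) * h2
  have e6 : ((x : ℂ) + y * I) ^ 6 = (x ^ 2 * (x ^ 2 - 3 * y ^ 2) ^ 2 -
      y ^ 2 * (3 * x ^ 2 - y ^ 2) ^ 2) +
      (2 * x * (x ^ 2 - 3 * y ^ 2) * y * (3 * x ^ 2 - y ^ 2)) * I := by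
    calc ((x : ℂ) + y * I) ^ 6 = (((x : ℂ) + y * I) ^ 3) ^ 2 := by ring
      _ = _ := by
        rw [e3]
        linear_combination ((y : ℂ) * (3 * x ^ 2 - y ^ 2)) ^ 2 * h2
  rw [e6]
  push_cast
  ring

lemma PP_re (M T : ℝ) (s : ℂ) {x y : ℝ} (hx : s.re - 1 / 2 = x) (hy : s.im - T = y) :
    (PP M T s).re =
      M + (y ^ 2 * (3 * x ^ 2 - y ^ 2) ^ 2 - x ^ 2 * (x ^ 2 - 3 * y ^ 2) ^ 2) / T := by
  rw [PP_eq M T s hx hy, add_re, ofReal_re, re_ofReal_mul, I_re, mul_zero, add_zero]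

lemma PP_im (M T : ℝ) (s : ℂ) {x y : ℝ} (hx : s.re - 1 / 2 = x) (hy : s.im - T = y) :
    (PP M T s).im = -(2 * x * (x ^ 2 - 3 * y ^ 2) * y * (3 * x ^ 2 - y ^ 2)) / T := by
  rw [PP_eq M T s hx hy, add_im, ofReal_im, im_ofReal_mul, I_im, mul_one, zero_add]

/-! ### polynomial inequalities -/

lemma poly_top_re {x T : ℝ} (hx0 : 0 ≤ x) (hx2 : x ≤ 2) (hT : 20736 ≤ T) :
    T ^ 3 / 2 ≤ T * (3 * x ^ 2 - T) ^ 2 - x ^ 2 * (x ^ 2 - 3 * T) ^ 2 := by
  have e2 : x ^ 2 ≤ 4 := by nlinarith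
  have e0 : 0 ≤ x ^ 2 := sq_nonneg x
  have hT0 : 0 < T := by linarith
  have e3 : (T - 12) ^ 2 ≤ (3 * x ^ 2 - T) ^ 2 := by
    have : (3 * x ^ 2 - T) ^ 2 = (T - 3 * x ^ 2) ^ 2 := by ring
    rw [this]
    apply pow_le_pow_left₀ (by linarith)
    linarith
  have e4 : (x ^ 2 - 3 * T) ^ 2 ≤ (3 * T) ^ 2 := by
    have : (x ^ 2 - 3 * T) ^ 2 = (3 * T - x ^ 2) ^ 2 := by ring
    rw [this]
    apply pow_le_pow_left₀ (by linarith)
    linarith
  have e5 : x ^ 2 * (x ^ 2 - 3 * T) ^ 2 ≤ 4 * (3 * T) ^ 2 := by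
    apply mul_le_mul e2 e4 (sq_nonneg _) (by norm_num)
  have e6 : T * (T - 12) ^ 2 ≤ T * (3 * x ^ 2 - T) ^ 2 :=
    mul_le_mul_of_nonneg_left e3 hT0.le
  have e7 : T ^ 3 / 2 ≤ T * (T - 12) ^ 2 - 4 * (3 * T) ^ 2 := by
    have : T * (T - 12) ^ 2 - 4 * (3 * T) ^ 2 - T ^ 3 / 2 = T * (T * (T / 2 - 60) + 144) := by ring
    have h2 : 0 ≤ T * (T * (T / 2 - 60) + 144) := by
      apply mul_nonneg hT0.le
      have : 0 ≤ T * (T / 2 - 60) := mul_nonneg hT0.le (by linarith)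
      linarith
    linarith
  linarith

lemma abs_top₁ {x T : ℝ} (hx0 : 0 ≤ x) (hx2 : x ≤ 2) (hT : 20736 ≤ T) :
    |x ^ 2 - 3 * T| ≤ 3 * T ∧ |3 * x ^ 2 - T| ≤ T := by
  have e2 : x ^ 2 ≤ 4 := by nlinarith
  have e0 : 0 ≤ x ^ 2 := sq_nonneg x
  constructor <;> rw [abs_le] <;> constructor <;> linarith

lemma poly_right_small {y T : ℝ} (hy : |y| ≤ 100) (hT : 10 ^ 14 ≤ T) :
    -T ≤ y ^ 2 * (3 * 2 ^ 2 - y ^ 2) ^ 2 - 2 ^ 2 * (2 ^ 2 - 3 * y ^ 2) ^ 2 ∧
    4 * |(2 : ℝ) ^ 2 - 3 * y ^ 2| * |y| * |3 * (2 : ℝ) ^ 2 - y ^ 2| ≤ T := by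
  have hy2 : y ^ 2 ≤ 10 ^ 4 := by
    rw [← sq_abs]
    nlinarith [abs_nonneg y]
  have hy20 : 0 ≤ y ^ 2 := sq_nonneg y
  constructor
  · have e2 : (2 ^ 2 - 3 * y ^ 2) ^ 2 ≤ (4 * 10 ^ 4) ^ 2 := by
      apply sq_le_sq' <;> linarith
    have e3 : 0 ≤ y ^ 2 * (3 * 2 ^ 2 - y ^ 2) ^ 2 := by positivity
    linarith
  · have f1 : |(2 : ℝ) ^ 2 - 3 * y ^ 2| ≤ 4 * 10 ^ 4 := by
      rw [abs_le]; constructor <;> linarith
    have f2 : |3 * (2 : ℝ) ^ 2 - y ^ 2| ≤ 2 * 10 ^ 4 := by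
      rw [abs_le]; constructor <;> linarith
    calc 4 * |(2 : ℝ) ^ 2 - 3 * y ^ 2| * |y| * |3 * (2 : ℝ) ^ 2 - y ^ 2|
        ≤ 4 * (4 * 10 ^ 4) * 100 * (2 * 10 ^ 4) := by gcongr
      _ ≤ T := by linarith

lemma poly_right_large {w : ℝ} (hw : 100 < w) :
    4 * |(2 : ℝ) ^ 2 - 3 * w ^ 2| * w * |3 * (2 : ℝ) ^ 2 - w ^ 2| ≤
      w ^ 2 * (3 * 2 ^ 2 - w ^ 2) ^ 2 - 2 ^ 2 * (2 ^ 2 - 3 * w ^ 2) ^ 2 := by
  have hw2 : (10 : ℝ) ^ 4 < w ^ 2 := by nlinarith
  have f1 : |(2 : ℝ) ^ 2 - 3 * w ^ 2| = 3 * w ^ 2 - 4 := by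
    rw [abs_of_nonpos (by linarith)]; ring
  have f2 : |3 * (2 : ℝ) ^ 2 - w ^ 2| = w ^ 2 - 12 := by
    rw [abs_of_nonpos (by linarith)]; ring
  rw [f1, f2]
  have w3 : 0 ≤ w ^ 3 := by positivity
  have w4 : 0 ≤ w ^ 4 := by positivity
  have w5 : 0 ≤ w ^ 5 := by positivity
  have f4 : 4 * (3 * w ^ 2 - 4) * w * (w ^ 2 - 12) ≤ 12 * w ^ 5 := by
    have : 12 * w ^ 5 - 4 * (3 * w ^ 2 - 4) * w * (w ^ 2 - 12) =
        w * (160 * w ^ 2 - 192) := by ring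
    have h2 : 0 ≤ w * (160 * w ^ 2 - 192) := by
      apply mul_nonneg (by linarith); linarith
    linarith
  have f5 : w ^ 2 * (3 * 2 ^ 2 - w ^ 2) ^ 2 - 2 ^ 2 * (2 ^ 2 - 3 * w ^ 2) ^ 2 =
      w ^ 6 - 60 * w ^ 4 + 240 * w ^ 2 - 64 := by ring
  rw [f5]
  refine f4.trans ?_
  have g1 : 100 * w ^ 5 ≤ w ^ 6 := by
    have : w ^ 6 - 100 * w ^ 5 = w ^ 5 * (w - 100) := by ring
    have := mul_nonneg w5 (by linarith : 0 ≤ w - 100)
    linarith
  have g2 : 100 * w ^ 4 ≤ w ^ 5 := by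
    have : w ^ 5 - 100 * w ^ 4 = w ^ 4 * (w - 100) := by ring
    have := mul_nonneg w4 (by linarith : 0 ≤ w - 100)
    linarith
  linarith

/-- positivity test -/
lemma re_FF_nonneg {ω : ℂ} {P : ℂ → ℂ} {s : ℂ} (hb : 1 - b ω s ≠ 0)
    (h : 0 ≤ (ω * riemannZeta s * (1 - (starRingEnd ℂ) (b ω s))).re +
      (P s).re * (1 - ‖b ω s‖ ^ 2) / 2 - (P s).im * (b ω s).im) : 0 ≤ (FF ω P s).re := by
  have h1 := master (ω * riemannZeta s) (P s) (b ω s) hb
  rw [← h1] at h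
  have h2 : 0 < ‖1 - b ω s‖ ^ 2 := by positivity
  unfold FF
  by_contra hneg
  push Not at hneg
  nlinarith

/-- the top and bottom sides -/
lemma top_side {ω : ℂ} (hω : ‖ω‖ = 1) {C₁ T₁ M T : ℝ} (hC₁ : 1 ≤ C₁) (hT₁ : 900 ≤ T₁)
    (hcrude : ∀ s : ℂ, 1 / 2 ≤ s.re → s.re ≤ 5 / 2 → T₁ ≤ s.im →
      -(C₁ * s.im * (1 - ‖b ω s‖ ^ 2)) ≤ (ω * riemannZeta s * (1 - (starRingEnd ℂ) (b ω s))).re)
    (hM : 0 ≤ M) (hTC : 16 * C₁ ≤ T) (hT2 : 20736 ≤ T) (hTT : 2 * T₁ ≤ T)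
    {s : ℂ} (h1 : 1 / 2 < s.re) (h2 : s.re ≤ 5 / 2) (h3 : |s.im - T| = Real.sqrt T) :
    0 ≤ (FF ω (PP M T) s).re := by
  have hT0 : 0 < T := by linarith
  set x : ℝ := s.re - 1 / 2 with hx
  set y : ℝ := s.im - T with hy
  set Y : ℝ := Real.sqrt T with hY
  have hY0 : 0 < Y := Real.sqrt_pos.mpr hT0
  have hYsq : Y ^ 2 = T := Real.sq_sqrt hT0.le
  have hYY : 144 ≤ Y := by
    rw [hY]
    apply Real.le_sqrt_of_sq_le
    linarith
  have hysq : y ^ 2 = T := by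
    rw [← hYsq, ← h3, sq_abs]
  have hYT : Y ≤ T / 2 := by nlinarith
  have hyabs := h3.le
  rw [abs_le] at hyabs
  have hst : T₁ ≤ s.im := by
    have : s.im = T + y := by rw [hy]; ring
    linarith
  have hst2 : s.im ≤ 2 * T := by
    have : s.im = T + y := by rw [hy]; ring
    linarith
  have h900 : 900 ≤ s.im := by linarith
  have hb := b_ne_one hω h1 h2 h900
  apply re_FF_nonneg hb
  have hq := hcrude s h1.le h2 hst
  have hos := one_sub_sq_ge hω h1.le h2 h900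
  set m : ℝ := 1 - ‖b ω s‖ ^ 2 with hm
  have hm0 : 0 < m := by
    have : 0 < x / 3 := by rw [hx]; linarith
    linarith
  have hx0 : 0 < x := by rw [hx]; linarith
  have hx2 : x ≤ 2 := by rw [hx]; linarith
  -- real part
  have hPre : T ^ 2 / 2 ≤ (PP M T s).re := by
    rw [PP_re M T s hx.symm hy.symm, hysq]
    have e1 := poly_top_re hx0.le hx2 hT2
    have e7 : T ^ 2 / 2 = (T ^ 3 / 2) / T := by field_simp
    rw [e7]
    have := div_le_div_of_nonneg_right e1 hT0.le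
    linarith
  have hPim : |(PP M T s).im| ≤ 6 * x * (T * Y) := by
    rw [PP_im M T s hx.symm hy.symm, hysq, abs_div, abs_of_pos hT0, div_le_iff₀ hT0, abs_neg,
      abs_mul, abs_mul, abs_mul, h3]
    obtain ⟨e3, e4⟩ := abs_top₁ hx0.le hx2 hT2
    have e5 : |2 * x| = 2 * x := abs_of_pos (by linarith)
    rw [e5]
    calc 2 * x * |x ^ 2 - 3 * T| * Y * |3 * x ^ 2 - T|
        ≤ 2 * x * (3 * T) * Y * T := by gcongr
      _ = 6 * x * (T * Y) * T := by ring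
  have hbim : |(b ω s).im| ≤ 1 := (abs_im_le_norm _).trans (norm_b_le_one hω h1.le h2 h900)
  have hprod : (PP M T s).im * (b ω s).im ≤ 18 * (T * Y) * m := by
    calc (PP M T s).im * (b ω s).im ≤ |(PP M T s).im * (b ω s).im| := le_abs_self _
      _ = |(PP M T s).im| * |(b ω s).im| := abs_mul _ _
      _ ≤ (6 * x * (T * Y)) * 1 := by
          apply mul_le_mul hPim hbim (abs_nonneg _)
          positivity
      _ ≤ 18 * (T * Y) * m := by
          have : x ≤ 3 * m := by linarith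
          have h5 : 0 ≤ T * Y := by positivity
          nlinarith [mul_le_mul_of_nonneg_left this h5]
  have hY2 : 18 * (T * Y) ≤ T ^ 2 / 8 := by
    have : 144 * Y ≤ T := by rw [← hYsq]; nlinarith
    nlinarith
  have hC2 : C₁ * s.im ≤ T ^ 2 / 8 := by
    have : C₁ * s.im ≤ C₁ * (2 * T) := by
      apply mul_le_mul_of_nonneg_left hst2 (by linarith)
    nlinarith
  have e8 : C₁ * s.im * m ≤ T ^ 2 / 8 * m := mul_le_mul_of_nonneg_right hC2 hm0.le
  have e9 : 18 * (T * Y) * m ≤ T ^ 2 / 8 * m := mul_le_mul_of_nonneg_right hY2 hm0.le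
  have e10 : T ^ 2 / 2 * m ≤ (PP M T s).re * m := mul_le_mul_of_nonneg_right hPre hm0.le
  nlinarith

/-- the right side -/
lemma right_side {ω : ℂ} (hω : ‖ω‖ = 1) {K₀ M T : ℝ} (hK₀ : 1 ≤ K₀)
    (hK : ∀ s : ℂ, 3 / 2 ≤ s.re → ‖riemannZeta s‖ ≤ K₀)
    (hM : 5 * K₀ + 5 ≤ M) (hT : 10 ^ 14 ≤ T) (hT2 : 1800 ≤ T)
    {s : ℂ} (h2 : s.re = 5 / 2) (h3 : |s.im - T| ≤ Real.sqrt T) :
    0 ≤ (FF ω (PP M T) s).re := by
  have hT0 : 0 < T := by linarith
  set y : ℝ := s.im - T with hy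
  set Y : ℝ := Real.sqrt T with hY
  have hYsq : Y ^ 2 = T := Real.sq_sqrt hT0.le
  have hY0 : 0 < Y := Real.sqrt_pos.mpr hT0
  have hYT : Y ≤ T / 2 := by nlinarith
  have hyabs := h3
  rw [abs_le] at hyabs
  have h900 : 900 ≤ s.im := by
    have : s.im = T + y := by rw [hy]; ring
    linarith
  have hb := b_ne_one hω (by rw [h2]; norm_num) h2.le h900
  apply re_FF_nonneg hb
  have hbn := norm_b_mul_le hω (by rw [h2]; norm_num) h2.le h900
  rw [h2] at hbn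
  have hb9 : ‖b ω s‖ ≤ 1 / 9 := by linarith
  have hb0 := norm_nonneg (b ω s)
  set m : ℝ := 1 - ‖b ω s‖ ^ 2 with hm
  have hm1 : 80 / 81 ≤ m := by rw [hm]; nlinarith
  have hm2 : m ≤ 1 := by rw [hm]; nlinarith
  have hq : -(2 * K₀) ≤ (ω * riemannZeta s * (1 - (starRingEnd ℂ) (b ω s))).re := by
    have e1 := neg_le_of_abs_le (abs_re_le_norm (ω * riemannZeta s * (1 - (starRingEnd ℂ) (b ω s))))
    rw [norm_mul, norm_mul, hω, one_mul] at e1
    have e2 : ‖1 - (starRingEnd ℂ) (b ω s)‖ ≤ 2 := by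
      refine (norm_sub_le _ _).trans ?_
      rw [norm_one, Complex.norm_conj]
      linarith
    have e3 : ‖riemannZeta s‖ * ‖1 - (starRingEnd ℂ) (b ω s)‖ ≤ K₀ * 2 :=
      mul_le_mul (hK s (by rw [h2]; norm_num)) e2 (norm_nonneg _) (by linarith)
    linarith
  have hbim : |(b ω s).im| ≤ 1 / 9 := (abs_im_le_norm _).trans hb9
  have hx : s.re - 1 / 2 = 2 := by rw [h2]; norm_num
  have hPre := PP_re M T s hx hy.symm
  have hPim := PP_im M T s hx hy.symm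
  have hprod : (PP M T s).im * (b ω s).im ≤ |(PP M T s).im| / 9 := by
    calc (PP M T s).im * (b ω s).im ≤ |(PP M T s).im * (b ω s).im| := le_abs_self _
      _ = |(PP M T s).im| * |(b ω s).im| := abs_mul _ _
      _ ≤ |(PP M T s).im| * (1 / 9) := by
          apply mul_le_mul_of_nonneg_left hbim (abs_nonneg _)
      _ = _ := by ring
  by_cases hyl : |y| ≤ 100
  · -- small |y|
    obtain ⟨p1, p2⟩ := poly_right_small hyl hT
    have e1 : -1 + M ≤ (PP M T s).re := by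
      rw [hPre]
      have e4 := div_le_div_of_nonneg_right p1 hT0.le
      rw [neg_div, div_self hT0.ne'] at e4
      linarith
    have e5 : |(PP M T s).im| ≤ 1 := by
      rw [hPim, abs_div, abs_of_pos hT0, div_le_one hT0, abs_neg, abs_mul, abs_mul, abs_mul]
      have f3 : |(2 : ℝ) * 2| = 4 := by norm_num
      rw [f3]
      exact p2
    have e6 : (M - 1) * (80 / 81) ≤ (PP M T s).re * m := by
      apply mul_le_mul _ hm1 (by norm_num) _ <;> linarith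
    linarith
  · push Not at hyl
    set w : ℝ := |y| with hw
    have hw2 : y ^ 2 = w ^ 2 := (sq_abs y).symm
    have e1 : |(PP M T s).im| ≤ (PP M T s).re - M := by
      rw [hPim, hPre, abs_div, abs_of_pos hT0, add_sub_cancel_left, abs_neg]
      apply div_le_div_of_nonneg_right _ hT0.le
      rw [abs_mul, abs_mul, abs_mul, ← hw, hw2]
      have f3 : |(2 : ℝ) * 2| = 4 := by norm_num
      rw [f3]
      exact poly_right_large hyl
    have e2 : 0 ≤ |(PP M T s).im| := abs_nonneg _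
    have e6 : (PP M T s).re * (80 / 81) ≤ (PP M T s).re * m :=
      mul_le_mul_of_nonneg_left hm1 (by linarith)
    linarith

/-- **Ray theorem**, growth to the right of the critical line. -/
theorem ray_bound {ω : ℂ} (hω : ‖ω‖ = 1) {B T₀ : ℝ} (hB : 0 < B)
    (h : ∀ t : ℝ, T₀ ≤ t → ∀ r : ℝ, ω * riemannZeta (1 / 2 + t * I) = r → -(t ^ B) ≤ r) :
    ∀ a > 0, BoundOn (1 / 2 + a) B := by
  intro a ha
  obtain ⟨C₁, T₁, hC₁, hT₁, hcrude⟩ := crude_pos
  obtain ⟨K₀, hK₀, hK⟩ := norm_zeta_le_three_halves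
  obtain ⟨T₂, hT₂⟩ : ∃ T₂ : ℝ, ∀ T : ℝ, T₂ ≤ T → 5 * K₀ + 5 ≤ (2 * T) ^ B := by
    have := (tendsto_rpow_atTop hB).comp (tendsto_id.const_mul_atTop (two_pos (α := ℝ)))
    exact eventually_atTop.mp (this.eventually_ge_atTop (5 * K₀ + 5))
  set T₃ : ℝ := 2 * |T₀| + 2 * T₁ + |T₂| + 16 * C₁ + 10 ^ 14 with hT₃
  have hT₀' := abs_nonneg T₀
  have hT₂' := abs_nonneg T₂
  set C : ℝ := K₀ + (8 * K₀ + 10) * 2 ^ B / a + 2 * 2 ^ B with hC
  have h2B : (0 : ℝ) < 2 ^ B := by positivity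
  refine ⟨C, T₃, ?_, by rw [hT₃]; linarith, ?_⟩
  · have : 0 ≤ (8 * K₀ + 10) * 2 ^ B / a := by positivity
    rw [hC]; linarith
  intro s hs hsT
  set T : ℝ := s.im with hT
  have hTB : (1 : ℝ) ≤ T ^ B := Real.one_le_rpow (by rw [hT₃] at hsT; linarith) hB.le
  have hfrac : 0 ≤ (8 * K₀ + 10) * 2 ^ B / a := by positivity
  by_cases hs3 : 3 / 2 ≤ s.re
  · have := hK s hs3
    rw [hC]
    nlinarith
  push Not at hs3
  have hT1 : 2 * |T₀| ≤ T := by rw [hT₃] at hsT; linarith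
  have hT2 : 2 * T₁ ≤ T := by rw [hT₃] at hsT; linarith
  have hT3 : 16 * C₁ ≤ T := by rw [hT₃] at hsT; linarith
  have hT4 : 10 ^ 14 ≤ T := by rw [hT₃] at hsT; linarith
  have hT5 : T₂ ≤ T := (le_abs_self _).trans (by rw [hT₃] at hsT; linarith)
  have hT0 : 0 < T := by linarith
  set M : ℝ := (2 * T) ^ B with hM
  have hM5 : 5 * K₀ + 5 ≤ M := hT₂ T hT5
  set Y : ℝ := Real.sqrt T with hY
  have hYsq : Y ^ 2 = T := Real.sq_sqrt hT0.le
  have hY0 : 0 < Y := Real.sqrt_pos.mpr hT0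
  have hY2 : 2 ≤ Y := by
    rw [hY]
    apply Real.le_sqrt_of_sq_le
    linarith
  have hYT : Y ≤ T / 2 := by nlinarith
  have h900 : ∀ z : ℂ, |z.im - T| ≤ Y → 900 ≤ z.im := by
    intro z hz
    rw [abs_le] at hz
    linarith
  have hnonneg : ∀ z : ℂ, 1 / 2 < z.re → z.re ≤ 5 / 2 → |z.im - T| ≤ Y →
      0 ≤ (FF ω (PP M T) z).re := by
    apply min_principle
    · intro z h1 h2 h3
      have h9 := h900 z h3
      exact differentiableAt_FF (differentiable_PP M T) (by linarith) (b_ne_one hω h1 h2 h9)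
    · intro z h1 h2
      exact right_side hω hK₀ hK hM5 hT4 (by linarith) h1 h2
    · intro z h1 h2 h3
      exact top_side hω hC₁ hT₁ (hcrude ω hω) (by linarith) hT3 (by linarith) hT2 h1 h2 h3
    · intro τ hτ
      rw [abs_le] at hτ
      apply left_boundary hω (differentiable_PP M T) (by linarith)
      · intro t
        rw [PP_im M T _ (x := 0) (y := t - T) (by simp) (by simp)]
        simp
      · intro hb
        have h1 : (ω * riemannZeta ((1 / 2 : ℝ) + τ * I)).im = 0 := by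
          apply im_eq_zero_of_b hω _ _ hb
          · simp
          · simp; linarith
        have h2 := h τ ((le_abs_self _).trans (by linarith))
          (ω * riemannZeta ((1 / 2 : ℝ) + τ * I)).re (by
            apply Complex.ext
            · simp
            · rw [ofReal_im, ← h1]
              simp)
        rw [PP_re M T _ (x := 0) (y := τ - T) (by simp) (by simp)]
        have h3 : τ ^ B ≤ M := by
          rw [hM]
          apply Real.rpow_le_rpow (by linarith) (by linarith) hB.le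
        have h4 : 0 ≤ ((τ - T) ^ 2 * (3 * 0 ^ 2 - (τ - T) ^ 2) ^ 2 -
            0 ^ 2 * (0 ^ 2 - 3 * (τ - T) ^ 2) ^ 2) / T := by
          apply div_nonneg _ hT0.le
          have : (τ - T) ^ 2 * (3 * 0 ^ 2 - (τ - T) ^ 2) ^ 2 -
            0 ^ 2 * (0 ^ 2 - 3 * (τ - T) ^ 2) ^ 2 = (τ - T) ^ 6 := by ring
          rw [this]
          positivity
        linarith
  -- Borel-Caratheodory
  set c : ℂ := ⟨3 / 2, T⟩ with hc
  set f : ℂ → ℂ := fun z => -FF ω (PP M T) (c + z) with hf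
  have hin : ∀ z ∈ Metric.ball (0 : ℂ) 1, 1 / 2 < (c + z).re ∧ (c + z).re ≤ 5 / 2 ∧
      |(c + z).im - T| ≤ Y := by
    intro z hz
    rw [Metric.mem_ball, dist_zero_right] at hz
    have h5 := (abs_re_le_norm z).trans_lt hz
    have h6 := (abs_im_le_norm z).trans_lt hz
    rw [abs_lt] at h5 h6
    simp only [hc, add_re, add_im]
    refine ⟨by linarith, by linarith, ?_⟩
    rw [abs_le]
    constructor <;> linarith
  have hfd : DifferentiableOn ℂ f (Metric.ball 0 1) := by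
    intro z hz
    obtain ⟨i1, i2, i3⟩ := hin z hz
    have h9 := h900 _ i3
    apply DifferentiableAt.differentiableWithinAt
    apply DifferentiableAt.fun_neg
    have := differentiableAt_FF (ω := ω) (differentiable_PP M T) (s := c + z) (by linarith)
      (b_ne_one hω i1 i2 h9)
    exact this.comp z (by fun_prop)
  have hfre : MapsTo f (Metric.ball 0 1) {z | z.re ≤ 1} := by
    intro z hz
    obtain ⟨i1, i2, i3⟩ := hin z hz
    have := hnonneg _ i1 i2 i3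
    simp only [Set.mem_ofPred_eq, hf, neg_re]
    linarith
  set z₀ : ℂ := s - c with hz₀
  have hz₀c : c + z₀ = s := by rw [hz₀]; ring
  have hz₀n : ‖z₀‖ = 3 / 2 - s.re := by
    have : z₀ = ((s.re - 3 / 2 : ℝ) : ℂ) := by
      apply Complex.ext <;> simp [hz₀, hc, hT]
    rw [this, Complex.norm_real, Real.norm_eq_abs, abs_of_nonpos (by linarith)]
    ring
  have hz₀b : z₀ ∈ Metric.ball (0 : ℂ) 1 := by
    rw [Metric.mem_ball, dist_zero_right, hz₀n]; linarith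
  have hBC := borelCaratheodory (M := 1) one_pos hfd hfre one_pos hz₀b
  rw [hz₀n] at hBC
  have hPPn : ∀ z : ℂ, z.im = T → |z.re - 1 / 2| ≤ 1 → ‖PP M T z‖ ≤ M + 1 := by
    intro z hz1 hz2
    unfold PP
    have e1 : z - ((1 / 2 : ℝ) + T * I) = ((z.re - 1 / 2 : ℝ) : ℂ) := by
      apply Complex.ext <;> simp [hz1]
    rw [e1]
    refine (norm_sub_le _ _).trans ?_
    rw [Complex.norm_real, Real.norm_of_nonneg (by linarith : 0 ≤ M), norm_div, norm_pow,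
      Complex.norm_real, Complex.norm_real, Real.norm_eq_abs, Real.norm_of_nonneg hT0.le]
    have e2 : |z.re - 1 / 2| ^ 6 ≤ 1 := pow_le_one₀ (abs_nonneg _) hz2
    have e3 : |z.re - 1 / 2| ^ 6 / T ≤ 1 := by
      rw [div_le_one hT0]
      linarith
    linarith
  have hf0 : ‖f 0‖ ≤ 2 * K₀ + M + 1 := by
    simp only [hf, add_zero, norm_neg, FF]
    have i9 : (900 : ℝ) ≤ c.im := by simp only [hc]; linarith
    have hbc := norm_b_mul_le hω (s := c) (by simp only [hc]; norm_num)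
      (by simp only [hc]; norm_num) i9
    have hcre : c.re = 3 / 2 := rfl
    rw [hcre] at hbc
    have hb5 : ‖b ω c‖ ≤ 1 / 5 := by linarith
    have hden : 4 / 5 ≤ ‖1 - b ω c‖ := by
      have := norm_sub_norm_le (1 : ℂ) (b ω c)
      rw [norm_one] at this
      linarith
    have hnum : ‖ω * riemannZeta c + PP M T c * (1 + b ω c) / 2‖ ≤ K₀ + (M + 1) * (6 / 5) / 2 := by
      refine (norm_add_le _ _).trans ?_
      rw [norm_mul, hω, one_mul, norm_div, norm_mul]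
      have e1 : ‖1 + b ω c‖ ≤ 6 / 5 := by
        refine (norm_add_le _ _).trans ?_
        rw [norm_one]; linarith
      have e2 : ‖PP M T c‖ ≤ M + 1 := hPPn c rfl (by rw [hcre]; norm_num)
      have e3 := hK c (by rw [hcre])
      have e4 : ‖(2 : ℂ)‖ = 2 := by simp
      rw [e4]
      have e5 : ‖PP M T c‖ * ‖1 + b ω c‖ ≤ (M + 1) * (6 / 5) :=
        mul_le_mul e2 e1 (norm_nonneg _) (by linarith)
      linarith
    rw [norm_div]
    rw [div_le_iff₀ (by linarith)]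
    have : (2 * K₀ + M + 1) * (4 / 5) ≤ (2 * K₀ + M + 1) * ‖1 - b ω c‖ :=
      mul_le_mul_of_nonneg_left hden (by linarith)
    linarith
  have hden : a ≤ 1 - (3 / 2 - s.re) := by linarith
  have hden0 : 0 < 1 - (3 / 2 - s.re) := by linarith
  have hFs : ‖FF ω (PP M T) s‖ ≤ (4 * K₀ + 2 * M + 4) / a := by
    have e0 : ‖f z₀‖ = ‖FF ω (PP M T) s‖ := by
      simp only [hf, hz₀c, norm_neg]
    rw [← e0]
    refine hBC.trans ?_
    have e1 : 2 * 1 * (3 / 2 - s.re) / (1 - (3 / 2 - s.re)) ≤ 2 / a := by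
      apply div_le_div₀ (by norm_num) (by linarith) ha hden
    have e2 : ‖f 0‖ * (1 + (3 / 2 - s.re)) / (1 - (3 / 2 - s.re)) ≤
        (4 * K₀ + 2 * M + 2) / a := by
      apply div_le_div₀ (by linarith) _ ha hden
      have := norm_nonneg (f 0)
      nlinarith
    calc _ ≤ 2 / a + (4 * K₀ + 2 * M + 2) / a := add_le_add e1 e2
      _ = _ := by ring
  have h9s : 900 ≤ s.im := by linarith
  have hbne := b_ne_one hω (s := s) (by linarith) (by linarith) h9s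
  have hb1 := norm_b_le_one hω (s := s) (by linarith) (by linarith) h9s
  have hz : ω * riemannZeta s = FF ω (PP M T) s * (1 - b ω s) - PP M T s * (1 + b ω s) / 2 := by
    unfold FF
    field_simp
    ring
  have hzn : ‖riemannZeta s‖ ≤ ‖FF ω (PP M T) s‖ * 2 + (M + 1) := by
    have e1 : ‖riemannZeta s‖ = ‖ω * riemannZeta s‖ := by rw [norm_mul, hω, one_mul]
    rw [e1, hz]
    refine (norm_sub_le _ _).trans ?_
    rw [norm_mul, norm_div, norm_mul]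
    have e2 : ‖1 - b ω s‖ ≤ 2 := by
      refine (norm_sub_le _ _).trans ?_
      rw [norm_one]; linarith
    have e3 : ‖1 + b ω s‖ ≤ 2 := by
      refine (norm_add_le _ _).trans ?_
      rw [norm_one]; linarith
    have e4 : ‖(2 : ℂ)‖ = 2 := by simp
    have e5 : ‖PP M T s‖ ≤ M + 1 := hPPn s rfl (by rw [abs_le]; constructor <;> linarith)
    rw [e4]
    have e6 : ‖FF ω (PP M T) s‖ * ‖1 - b ω s‖ ≤ ‖FF ω (PP M T) s‖ * 2 :=
      mul_le_mul_of_nonneg_left e2 (norm_nonneg _)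
    have e7 : ‖PP M T s‖ * ‖1 + b ω s‖ ≤ (M + 1) * 2 :=
      mul_le_mul e5 e3 (norm_nonneg _) (by linarith)
    linarith
  have hMB : M = 2 ^ B * T ^ B := by rw [hM, Real.mul_rpow (by norm_num) hT0.le]
  have hM1 : 1 ≤ M := by linarith
  calc ‖riemannZeta s‖ ≤ ‖FF ω (PP M T) s‖ * 2 + (M + 1) := hzn
    _ ≤ (4 * K₀ + 2 * M + 4) / a * 2 + (M + M) := by linarith
    _ ≤ ((4 * K₀ + 5) * M) / a * 2 + (M + M) := by
        have : (4 * K₀ + 2 * M + 4) / a ≤ ((4 * K₀ + 5) * M) / a := by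
          apply div_le_div_of_nonneg_right _ ha.le
          nlinarith
        linarith
    _ = ((8 * K₀ + 10) * 2 ^ B / a + 2 * 2 ^ B) * T ^ B := by rw [hMB]; ring
    _ ≤ C * T ^ B := by
        apply mul_le_mul_of_nonneg_right _ (by linarith)
        rw [hC]; linarith

end Pool.Agent.Lib.ZetaRay
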