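import Mathlib
import Pool.Agent.Lib.ZetaRay3

/-!
# Convexity for zeta to the right of the critical line, and the left side

From a bound `O(t^B)` on the critical line: `ζ(σ + it) = O(t^(B(2-2σ)+η))` for `1/2 ≤ σ ≤ 1`,
and the bound to the left of the line given by the functional equation.
-/

namespace Pool.Agent.Lib.ZetaConv

open Complex Filter Topology Set
open Pool.Agent.Lib.ChiBound Pool.Agent.Lib.ZetaLine Pool.Agent.Lib.ZetaRay

/-- `ζ(1/2 + it) = O(t^B)` for large `t`. -/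
def LineB (B : ℝ) : Prop :=
  ∃ C T₁ : ℝ, 1 ≤ C ∧ 1 ≤ T₁ ∧ ∀ t : ℝ, T₁ ≤ t → ‖riemannZeta ((1 / 2 : ℝ) + t * I)‖ ≤ C * t ^ B

lemma LineB.mono {B B' : ℝ} (h : LineB B) (hB : B ≤ B') : LineB B' := by
  obtain ⟨C, T₁, hC, hT, h⟩ := h
  refine ⟨C, T₁, hC, hT, fun t ht => (h t ht).trans ?_⟩
  have h1 : 1 ≤ t := hT.trans ht
  have h2 := Real.rpow_le_rpow_of_exponent_le h1 hB
  nlinarith

lemma lineB_one : LineB 1 := by
  obtain ⟨C, T₁, hC, hT, h⟩ := boundOn_crude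
  refine ⟨C, T₁, hC, hT, fun t ht => ?_⟩
  have := h ((1 / 2 : ℝ) + t * I) (by simp; norm_num) (by simpa using ht)
  simpa using this

/-- For `Re s ≥ σ₀ > 1` zeta is bounded. -/
theorem norm_zeta_le_of_re {δ : ℝ} (hδ : 0 < δ) :
    ∃ C : ℝ, 1 ≤ C ∧ ∀ s : ℂ, 1 + δ ≤ s.re → ‖riemannZeta s‖ ≤ C := by
  have hsumm : Summable fun n : ℕ => (n + 1 : ℝ) ^ (-δ - 1) :=
    ZetaCrude.summable_rpow_aux hδ
  have hnn : ∀ n : ℕ, 0 ≤ (n + 1 : ℝ) ^ (-δ - 1) := fun n => by positivity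
  have hT : 0 ≤ ∑' n : ℕ, (n + 1 : ℝ) ^ (-δ - 1) := tsum_nonneg hnn
  refine ⟨1 + ∑' n : ℕ, (n + 1 : ℝ) ^ (-δ - 1), by linarith, ?_⟩
  intro s hs
  have hz := zeta_eq_tsum_one_div_nat_add_one_cpow (s := s) (by linarith)
  rw [hz]
  have hb : ∀ n : ℕ, ‖1 / ((n : ℂ) + 1) ^ s‖ ≤ (n + 1 : ℝ) ^ (-δ - 1) := by
    intro n
    have : ((n : ℂ) + 1) = ((n + 1 : ℝ) : ℂ) := by push_cast; rfl
    rw [this, norm_div, norm_one, norm_cpow_eq_rpow_re_of_pos (by positivity), one_div,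
      ← Real.rpow_neg (by positivity)]
    apply Real.rpow_le_rpow_of_exponent_le
    · have : (0 : ℝ) ≤ n := Nat.cast_nonneg n
      linarith
    · linarith
  have := tsum_of_norm_bounded hsumm.hasSum hb
  linarith

/-- local maximum principle in a rectangle, with a Gaussian factor -/
lemma gauss_max {a b κ T Y M : ℝ} (hab : a < b) (hY : 0 < Y) (hYT : Y < T) {L : ℝ}
    (hM : ∀ s : ℂ, a ≤ s.re → s.re ≤ b → |s.im - T| ≤ Y →
      (s.re = a ∨ s.re = b ∨ |s.im - T| = Y) →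
      ‖riemannZeta s‖ * Real.exp (κ * L * (s.re - a)) * Real.exp (-(s.im - T) ^ 2) ≤ M)
    {σ : ℝ} (h1 : a ≤ σ) (h2 : σ ≤ b) :
    ‖riemannZeta (σ + T * I)‖ * Real.exp (κ * L * (σ - a)) ≤ M * Real.exp ((b - a) ^ 2) := by
  set s₀ : ℂ := σ + T * I with hs₀
  set f : ℂ → ℂ := fun s => riemannZeta s * Complex.exp (κ * L * (s - a)) *
    Complex.exp ((s - s₀) ^ 2) with hf
  have hfn : ∀ s, ‖f s‖ = ‖riemannZeta s‖ * Real.exp (κ * L * (s.re - a)) *
      Real.exp ((s.re - σ) ^ 2 - (s.im - T) ^ 2) := by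
    intro s
    simp only [hf]
    rw [norm_mul, norm_mul, Complex.norm_exp, Complex.norm_exp]
    have e1 : (κ * L * (s - a) : ℂ).re = κ * L * (s.re - a) := by
      have : (κ * L * (s - a) : ℂ) = ((κ * L : ℝ) : ℂ) * (s - a) := by push_cast; ring
      rw [this, Complex.re_ofReal_mul, Complex.sub_re, Complex.ofReal_re]
    have e2 : ((s - s₀) ^ 2).re = (s.re - σ) ^ 2 - (s.im - T) ^ 2 := by
      rw [pow_two, Complex.mul_re]
      simp [hs₀]
      ring
    rw [e1, e2]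
  set Rr : Set ℂ := {z | z.re ∈ Ioo a b} ∩ {z | z.im ∈ Ioo (T - Y) (T + Y)} with hRr
  have hRsub : closure Rr ⊆ {z | z.re ∈ Icc a b} ∩ {z | z.im ∈ Icc (T - Y) (T + Y)} := by
    apply closure_minimal
    · rintro z ⟨⟨a1, a2⟩, ⟨a3, a4⟩⟩
      exact ⟨⟨a1.le, a2.le⟩, ⟨a3.le, a4.le⟩⟩
    · exact (isClosed_Icc.preimage continuous_re).inter (isClosed_Icc.preimage continuous_im)
  have hRopen : IsOpen Rr :=
    (isOpen_Ioo.preimage continuous_re).inter (isOpen_Ioo.preimage continuous_im)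
  have hRb : Bornology.IsBounded Rr := by
    have : Rr ⊆ (Icc a b) ×ℂ (Icc (T - Y) (T + Y)) := by
      rintro z ⟨⟨a1, a2⟩, ⟨a3, a4⟩⟩
      rw [Complex.mem_reProdIm]
      exact ⟨⟨a1.le, a2.le⟩, ⟨a3.le, a4.le⟩⟩
    exact ((isCompact_Icc.reProdIm isCompact_Icc).isBounded).subset this
  have hdiffc : DiffContOnCl ℂ f Rr := by
    apply DifferentiableOn.diffContOnCl
    intro z hz
    obtain ⟨a1, a2⟩ := hRsub hz
    have hz1 : z ≠ 1 := by
      rintro rfl
      simp only [mem_ofPred_eq, one_im, mem_Icc] at a2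
      linarith [a2.1]
    have h1 := differentiableAt_riemannZeta hz1
    have h2 : DifferentiableAt ℂ (fun z : ℂ => Complex.exp (κ * L * (z - a))) z := by fun_prop
    have h3 : DifferentiableAt ℂ (fun z : ℂ => Complex.exp ((z - s₀) ^ 2)) z := by fun_prop
    exact ((h1.mul h2).mul h3).differentiableWithinAt
  have hcl : closure Rr = {z | z.re ∈ Icc a b} ∩ {z | z.im ∈ Icc (T - Y) (T + Y)} := by
    have e1 : Rr = (Ioo a b) ×ℂ (Ioo (T - Y) (T + Y)) := rfl
    rw [e1, Complex.closure_reProdIm, closure_Ioo hab.ne, closure_Ioo (by linarith)]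
    rfl
  have h0R : s₀ ∈ closure Rr := by
    rw [hcl]
    refine ⟨⟨by simpa [hs₀] using h1, by simpa [hs₀] using h2⟩, ⟨?_, ?_⟩⟩
    · simp [hs₀, hY.le]
    · simp [hs₀, hY.le]
  have hmain : ‖f s₀‖ ≤ M * Real.exp ((b - a) ^ 2) := by
    apply Complex.norm_le_of_forall_mem_frontier_norm_le hRb hdiffc _ h0R
    intro z hz
    have hzc := hRsub (frontier_subset_closure hz)
    obtain ⟨⟨a1, a2⟩, ⟨a3, a4⟩⟩ := hzc
    have hzn : z ∉ Rr := by
      rw [hRopen.frontier_eq] at hz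
      exact hz.2
    have habs : |z.im - T| ≤ Y := by rw [abs_le]; constructor <;> linarith
    have hside : z.re = a ∨ z.re = b ∨ |z.im - T| = Y := by
      by_contra hcon
      push Not at hcon
      obtain ⟨c1, c2, c3⟩ := hcon
      apply hzn
      have c4 : |z.im - T| < Y := lt_of_le_of_ne habs c3
      rw [abs_lt] at c4
      exact ⟨⟨lt_of_le_of_ne a1 (Ne.symm c1), lt_of_le_of_ne a2 c2⟩, ⟨by linarith [c4.1], by linarith [c4.2]⟩⟩
    have hz0 := hM z a1 a2 habs hside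
    have hM0 : 0 ≤ M := le_trans (by positivity) hz0
    rw [hfn, sub_eq_add_neg ((z.re - σ) ^ 2), Real.exp_add, ← mul_assoc]
    have e3 : Real.exp ((z.re - σ) ^ 2) ≤ Real.exp ((b - a) ^ 2) := by
      rw [Real.exp_le_exp]
      apply sq_le_sq'
      · linarith
      · linarith
    calc ‖riemannZeta z‖ * Real.exp (κ * L * (z.re - a)) * Real.exp ((z.re - σ) ^ 2) *
          Real.exp (-(z.im - T) ^ 2)
        = (‖riemannZeta z‖ * Real.exp (κ * L * (z.re - a)) * Real.exp (-(z.im - T) ^ 2)) *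
            Real.exp ((z.re - σ) ^ 2) := by ring
      _ ≤ M * Real.exp ((b - a) ^ 2) := mul_le_mul hz0 e3 (Real.exp_pos _).le hM0
  rw [hfn] at hmain
  have e4 : s₀.re = σ := by simp [hs₀]
  have e5 : s₀.im = T := by simp [hs₀]
  rw [e4, e5] at hmain
  simpa using hmain

/-- **Convexity** -/
theorem LineB.conv {B : ℝ} (hB : 0 ≤ B) (h : LineB B) {η : ℝ} (hη : 0 < η) :
    ∃ C T₁ : ℝ, 1 ≤ C ∧ 1 ≤ T₁ ∧ ∀ t : ℝ, T₁ ≤ t → ∀ x : ℝ, 0 ≤ x → x ≤ 1 / 2 →
      ‖riemannZeta ((1 / 2 + x : ℝ) + t * I)‖ ≤ C * t ^ (B * (1 - 2 * x) + η) := by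
  obtain ⟨C₀, T₀, hC₀, hT₀, h⟩ := h
  obtain ⟨Cc, Tc, hCc, hTc, hc⟩ := boundOn_crude
  set δ : ℝ := η / (2 * B + 1) with hδ
  have hδ0 : 0 < δ := by positivity
  obtain ⟨Cr, hCr, hr⟩ := norm_zeta_le_of_re hδ0
  set w : ℝ := 1 / 2 + δ with hw
  have hw0 : 0 < w := by positivity
  set κ : ℝ := B / w with hκ
  have hκ0 : 0 ≤ κ := by positivity
  have hκw : κ * w = B := by rw [hκ]; field_simp
  -- the exponential decay on the horizontal sides
  obtain ⟨T₂, hT₂⟩ : ∃ T₂ : ℝ, ∀ T : ℝ, T₂ ≤ T → 2 * T ^ (1 : ℝ) * Real.exp (-T) ≤ 1 := by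
    have h1 := Real.tendsto_pow_mul_exp_neg_atTop_nhds_zero 1
    have h2 : ∀ᶠ T : ℝ in atTop, T ^ 1 * Real.exp (-T) < 1 / 2 :=
      h1.eventually (gt_mem_nhds (by norm_num))
    obtain ⟨T₂, hT₂⟩ := eventually_atTop.mp h2
    refine ⟨T₂, fun T hT => ?_⟩
    have := hT₂ T hT
    rw [Real.rpow_one]
    rw [pow_one] at this
    linarith
  refine ⟨(2 ^ B * C₀ + Cr + Cc) * Real.exp (w ^ 2), 4 + 2 * T₀ + 2 * Tc + T₂ + |T₂|, ?_, ?_, ?_⟩
  · have e1 : 1 ≤ Real.exp (w ^ 2) := Real.one_le_exp (sq_nonneg _)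
    have e2 : (0 : ℝ) ≤ 2 ^ B * C₀ := by positivity
    nlinarith
  · have := neg_abs_le T₂
    linarith
  intro T hT x hx0 hx1
  have hTabs := neg_abs_le T₂
  have habs2 := abs_nonneg T₂
  have hT4 : 4 ≤ T := by linarith
  have hTT₀ : T₀ ≤ T / 2 := by linarith
  have hTTc : Tc ≤ T / 2 := by linarith
  have hTT₂ : T₂ ≤ T := by
    have : T₂ ≤ |T₂| := le_abs_self _
    linarith
  have hT0 : 0 < T := by linarith
  set L := Real.log T with hL
  have hL0 : 0 ≤ L := Real.log_nonneg (by linarith)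
  set Y := Real.sqrt T with hY
  have hY0 : 0 < Y := Real.sqrt_pos.mpr hT0
  have hYsq : Y ^ 2 = T := Real.sq_sqrt hT0.le
  have hYT : Y ≤ T / 2 := by nlinarith
  have hexpL : ∀ e : ℝ, Real.exp (L * e) = T ^ e := fun e => by
    rw [hL, Real.rpow_def_of_pos hT0]
  have hTB1 : 1 ≤ T ^ B := Real.one_le_rpow (by linarith) hB
  have hTB0 : 0 < T ^ B := by positivity
  have key := gauss_max (a := 1 / 2) (b := 1 + δ) (κ := κ) (T := T) (Y := Y) (L := L)
    (M := (2 ^ B * C₀ + Cr + Cc) * T ^ B) (by linarith) hY0 (by linarith) (by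
      intro s hs1 hs2 hs3 hside
      rw [abs_le] at hs3
      have him1 : T / 2 ≤ s.im := by linarith [hs3.1]
      have him2 : s.im ≤ 2 * T := by linarith [hs3.2]
      have hexp1 : Real.exp (κ * L * (s.re - 1 / 2)) ≤ T ^ B := by
        rw [← hexpL, Real.exp_le_exp]
        have : κ * (s.re - 1 / 2) ≤ κ * w := mul_le_mul_of_nonneg_left (by rw [hw]; linarith) hκ0
        calc κ * L * (s.re - 1 / 2) = L * (κ * (s.re - 1 / 2)) := by ring
          _ ≤ L * (κ * w) := mul_le_mul_of_nonneg_left this hL0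
          _ = L * B := by rw [hκw]
      have hexp2 : Real.exp (-(s.im - T) ^ 2) ≤ 1 := by
        rw [Real.exp_le_one_iff]; nlinarith [sq_nonneg (s.im - T)]
      have hz0 := norm_nonneg (riemannZeta s)
      have hC2 : (0 : ℝ) ≤ 2 ^ B * C₀ := by positivity
      rcases hside with hc1 | hc2 | hc3
      · -- left side
        have e1 : s = ((1 / 2 : ℝ) : ℂ) + s.im * I := by
          apply Complex.ext <;> simp [hc1]
        have e2 : ‖riemannZeta s‖ ≤ C₀ * s.im ^ B := by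
          rw [e1]
          have := h s.im (by linarith)
          simpa using this
        have e3 : s.im ^ B ≤ 2 ^ B * T ^ B := by
          rw [← Real.mul_rpow (by norm_num) hT0.le]
          exact Real.rpow_le_rpow (by linarith) him2 hB
        have e4 : Real.exp (κ * L * (s.re - 1 / 2)) = 1 := by rw [hc1]; simp
        rw [e4, mul_one]
        calc ‖riemannZeta s‖ * Real.exp (-(s.im - T) ^ 2) ≤ ‖riemannZeta s‖ * 1 := by gcongr
          _ = ‖riemannZeta s‖ := mul_one _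
          _ ≤ C₀ * s.im ^ B := e2
          _ ≤ C₀ * (2 ^ B * T ^ B) := by gcongr
          _ = (2 ^ B * C₀) * T ^ B := by ring
          _ ≤ (2 ^ B * C₀ + Cr + Cc) * T ^ B := by gcongr; linarith
      · have e2 : ‖riemannZeta s‖ ≤ Cr := hr s hc2.ge
        calc ‖riemannZeta s‖ * Real.exp (κ * L * (s.re - 1 / 2)) * Real.exp (-(s.im - T) ^ 2)
            ≤ Cr * T ^ B * 1 := by gcongr
          _ ≤ (2 ^ B * C₀ + Cr + Cc) * T ^ B := by rw [mul_one]; gcongr; linarith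
      · have e2 : ‖riemannZeta s‖ ≤ Cc * s.im ^ (1 : ℝ) := hc s (by linarith) (by linarith)
        have e3 : -(s.im - T) ^ 2 = -T := by
          rw [← sq_abs, hc3, hYsq]
        rw [e3]
        have e4 := hT₂ T hTT₂
        rw [Real.rpow_one] at e2 e4
        calc ‖riemannZeta s‖ * Real.exp (κ * L * (s.re - 1 / 2)) * Real.exp (-T)
            ≤ (Cc * (2 * T)) * T ^ B * Real.exp (-T) := by
              gcongr
              exact e2.trans (by gcongr)
          _ = Cc * T ^ B * (2 * T * Real.exp (-T)) := by ring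
          _ ≤ Cc * T ^ B * 1 := by gcongr
          _ ≤ (2 ^ B * C₀ + Cr + Cc) * T ^ B := by rw [mul_one]; gcongr; linarith)
    (σ := 1 / 2 + x) (by linarith) (by linarith)
  have e5 : κ * L * (1 / 2 + x - 1 / 2) = L * (κ * x) := by ring
  have e6 : (1 + δ - 1 / 2 : ℝ) = w := by rw [hw]; ring
  rw [e5, e6, hexpL] at key
  have hpow : T ^ B = T ^ (B - κ * x) * T ^ (κ * x) := by
    rw [← Real.rpow_add hT0]; congr 1; ring
  have hκx0 : 0 < T ^ (κ * x) := by positivity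
  have key2 : ‖riemannZeta ((1 / 2 + x : ℝ) + T * I)‖ ≤
      (2 ^ B * C₀ + Cr + Cc) * Real.exp (w ^ 2) * T ^ (B - κ * x) := by
    refine le_of_mul_le_mul_right ?_ hκx0
    refine key.trans (le_of_eq ?_)
    rw [hpow]; ring
  refine key2.trans ?_
  apply mul_le_mul_of_nonneg_left
  · apply Real.rpow_le_rpow_of_exponent_le (by linarith)
    -- B - κ x ≤ B (1 - 2x) + η
    have e7 : κ * (1 + 2 * δ) = 2 * B := by rw [← hκw, hw]; ring
    have e8 : 2 * B - κ = 2 * δ * κ := by linarith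
    have e9 : κ ≤ 2 * B := by
      have : 0 ≤ 2 * δ * κ := by positivity
      linarith
    have e10 : (2 * B - κ) * x ≤ η := by
      rw [e8]
      have : δ * (2 * B + 1) = η := by rw [hδ]; field_simp
      have h5 : 2 * δ * κ * x ≤ 2 * δ * (2 * B) * (1 / 2) := by gcongr
      nlinarith
    linarith
  · have : (0 : ℝ) ≤ 2 ^ B * C₀ := by positivity
    positivity

/-- `|χ(1/2 - x + it)| ≤ 3 t^x` -/
lemma chi_left {x t : ℝ} (hx0 : 0 ≤ x) (hx1 : x ≤ 1) (ht : 20 ≤ t) :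
    ‖chi ((1 / 2 - x : ℝ) + t * I)‖ ≤ 3 * t ^ x := by
  have ht0 : 0 < t := by linarith
  unfold chi
  have h1 : (1 - ((1 / 2 - x : ℝ) + t * I) : ℂ) =
      (starRingEnd ℂ) (((1 / 2 + x : ℝ) : ℂ) + t * I) := by
    apply Complex.ext <;> simp <;> ring
  rw [h1, norm_div, norm_Gammaℝ_conj, norm_Gammaℝ, norm_Gammaℝ]
  set y : ℝ := t / 2 with hy_def
  have hy : 10 ≤ y := by rw [hy_def]; linarith
  have hy0 : 0 < y := by linarith
  set a : ℝ := (1 / 2 - x) / 2 with ha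
  set Ga := ‖Gamma ((a : ℝ) + (y : ℝ) * I)‖ with hGa
  set Gb := ‖Gamma (((1 / 2 + x) / 2 : ℝ) + (y : ℝ) * I)‖ with hGb
  have e1 := gamma_ratio (a := (1 / 2 + x) / 2) (h := 1 - x) (y := y) (by linarith) (by linarith)
    (by linarith) (by linarith) hy
  have e3 : ((1 / 2 + x) / 2 + (1 - x) : ℝ) = a + 1 := by rw [ha]; ring
  rw [e3] at e1
  have hay : (a : ℂ) + y * I ≠ 0 := by
    intro h0
    have := congrArg Complex.im h0
    simp at this
    linarith
  have e4 : Gamma (((a + 1 : ℝ) : ℂ) + y * I) = (a + y * I) * Gamma (a + y * I) := by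
    rw [← Complex.Gamma_add_one _ hay]
    congr 1
    push_cast; ring
  rw [e4, norm_mul, ← hGa] at e1
  have hGa0 : 0 < Ga := by
    rw [hGa, norm_pos_iff]
    intro h0
    rw [Complex.Gamma_eq_zero_iff] at h0
    obtain ⟨m, hm⟩ := h0
    have := congrArg Complex.im hm
    simp at this
    linarith
  have hGb0 : 0 ≤ Gb := norm_nonneg _
  have e5 : ‖(a : ℂ) + y * I‖ ≤ 2 * y := by
    refine (norm_add_le _ _).trans ?_
    rw [norm_mul, Complex.norm_I, mul_one, Complex.norm_real, Complex.norm_real, Real.norm_eq_abs,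
      Real.norm_eq_abs, abs_of_pos hy0]
    have : |a| ≤ 1 := by rw [abs_le, ha]; constructor <;> linarith
    linarith
  -- Gb² (y²/2)^(1-x) ≤ (2 y Ga)²
  have e6 : Gb ^ 2 * (y ^ 2 / 2) ^ (1 - x) ≤ (2 * y * Ga) ^ 2 := by
    refine e1.trans ?_
    apply pow_le_pow_left₀ (by positivity)
    gcongr
  have e7 : (y ^ 2 / 2 : ℝ) ^ (1 - x) = ((y / Real.sqrt 2) ^ (1 - x)) ^ 2 := by
    rw [← Real.rpow_natCast ((y / Real.sqrt 2) ^ (1 - x)) 2, ← Real.rpow_mul (by positivity),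
      mul_comm (1 - x), Real.rpow_mul (by positivity)]
    congr 1
    rw [Real.rpow_natCast, div_pow y (Real.sqrt 2), Real.sq_sqrt (by norm_num : (0 : ℝ) ≤ 2)]
  rw [e7, ← mul_pow] at e6
  have e8 : Gb * (y / Real.sqrt 2) ^ (1 - x) ≤ 2 * y * Ga :=
    (pow_le_pow_iff_left₀ (by positivity) (by positivity) two_ne_zero).mp e6
  have hs2 : 0 < Real.sqrt 2 := Real.sqrt_pos.mpr (by norm_num)
  have hs2' : Real.sqrt 2 ≤ 3 / 2 := by
    rw [Real.sqrt_le_left (by norm_num)]; norm_num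
  have e9 : (y / Real.sqrt 2) ^ (1 - x) * (y ^ x * (3 / 2)) ≥ y := by
    rw [Real.div_rpow hy0.le hs2.le]
    have f1 : y ^ (1 - x) * y ^ x = y := by
      rw [← Real.rpow_add hy0]; simp
    have f2 : Real.sqrt 2 ^ (1 - x) ≤ 3 / 2 := by
      refine le_trans ?_ hs2'
      calc Real.sqrt 2 ^ (1 - x) ≤ Real.sqrt 2 ^ (1 : ℝ) := by
            apply Real.rpow_le_rpow_of_exponent_le _ (by linarith)
            rw [Real.one_le_sqrt]; norm_num
        _ = Real.sqrt 2 := Real.rpow_one _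
    have f3 : 0 < Real.sqrt 2 ^ (1 - x) := by positivity
    rw [ge_iff_le]
    calc y = (y ^ (1 - x) * y ^ x) := f1.symm
      _ = y ^ (1 - x) * y ^ x * 1 := (mul_one _).symm
      _ ≤ y ^ (1 - x) * y ^ x * ((3 / 2) / Real.sqrt 2 ^ (1 - x)) := by
          gcongr
          rw [le_div_iff₀ f3]; linarith
      _ = y ^ (1 - x) / Real.sqrt 2 ^ (1 - x) * (y ^ x * (3 / 2)) := by ring
  have e10 : Gb * y ≤ 3 * y ^ x * Ga * y := by
    calc Gb * y ≤ Gb * ((y / Real.sqrt 2) ^ (1 - x) * (y ^ x * (3 / 2))) := by gcongr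
      _ = (Gb * (y / Real.sqrt 2) ^ (1 - x)) * (y ^ x * (3 / 2)) := by ring
      _ ≤ (2 * y * Ga) * (y ^ x * (3 / 2)) := by gcongr
      _ = 3 * y ^ x * Ga * y := by ring
  have e11 : Gb ≤ 3 * y ^ x * Ga := le_of_mul_le_mul_right e10 hy0
  have hpi := Real.pi_pos
  have hpi1 : (1 : ℝ) ≤ Real.pi := by linarith [Real.pi_gt_three]
  have e12 : Real.pi ^ (-(1 / 2 + x) / 2) ≤ Real.pi ^ (-(1 / 2 - x) / 2) :=
    Real.rpow_le_rpow_of_exponent_le hpi1 (by linarith)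
  have e13 : 0 < Real.pi ^ (-(1 / 2 - x) / 2) := by positivity
  have e14 : y ^ x ≤ t ^ x := Real.rpow_le_rpow hy0.le (by rw [hy_def]; linarith) hx0
  rw [div_le_iff₀ (by positivity)]
  calc Real.pi ^ (-(1 / 2 + x) / 2) * Gb ≤ Real.pi ^ (-(1 / 2 - x) / 2) * (3 * y ^ x * Ga) := by
        gcongr
    _ ≤ Real.pi ^ (-(1 / 2 - x) / 2) * (3 * t ^ x * Ga) := by gcongr
    _ = 3 * t ^ x * (Real.pi ^ (-(1 / 2 - x) / 2) * Ga) := by ring

/-- to the left of the critical line -/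
lemma zeta_left {x t : ℝ} (hx0 : 0 ≤ x) (hx1 : x ≤ 1 / 4) (ht : 20 ≤ t) :
    ‖riemannZeta ((1 / 2 - x : ℝ) + t * I)‖ ≤ 3 * t ^ x * ‖riemannZeta ((1 / 2 + x : ℝ) + t * I)‖ := by
  have h1 := functional (s := (1 / 2 - x : ℝ) + t * I) (by simp; linarith) (by simp; linarith)
  have h2 : (1 - ((1 / 2 - x : ℝ) + t * I) : ℂ) =
      (starRingEnd ℂ) (((1 / 2 + x : ℝ) : ℂ) + t * I) := by
    apply Complex.ext <;> simp <;> ring
  rw [h1, norm_mul, h2, riemannZeta_conj, Complex.norm_conj]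
  exact mul_le_mul_of_nonneg_right (chi_left hx0 (by linarith) ht) (norm_nonneg _)

end Pool.Agent.Lib.ZetaConv
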