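import Mathlib

set_option autoImplicit false

/-!
Monomial valuations with weights `1` (on `x`) and `t` (on `Y`) on `ℂ⟦x⟧[Y]`.
-/

namespace Pool.Agent.QMVal

open Finset

/-- The coefficient of `x^i Y^j`. -/
noncomputable def cf (G : Polynomial (PowerSeries ℂ)) (i j : ℕ) : ℂ :=
  PowerSeries.coeff i (G.coeff j)

/-- The monomial valuation of `G` is at most `a`: some monomial of weight `≤ a` occurs. -/
def VLe (t : ℝ) (G : Polynomial (PowerSeries ℂ)) (a : ℝ) : Prop :=
  ∃ i j : ℕ, cf G i j ≠ 0 ∧ (i : ℝ) + t * (j : ℝ) ≤ a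

/-- The monomial valuation of `G` is at least `a`: all monomials occurring have weight `≥ a`. -/
def VGe (t : ℝ) (G : Polynomial (PowerSeries ℂ)) (a : ℝ) : Prop :=
  ∀ i j : ℕ, cf G i j ≠ 0 → a ≤ (i : ℝ) + t * (j : ℝ)

theorem cf_mul (F G : Polynomial (PowerSeries ℂ)) (n k : ℕ) :
    cf (F * G) n k = ∑ p ∈ antidiagonal k, ∑ q ∈ antidiagonal n, cf F q.1 p.1 * cf G q.2 p.2 := by
  unfold cf
  rw [Polynomial.coeff_mul, map_sum]
  refine Finset.sum_congr rfl fun p _ => ?_
  rw [PowerSeries.coeff_mul]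

theorem ne_zero_of_cf {G : Polynomial (PowerSeries ℂ)} {i j : ℕ} (h : cf G i j ≠ 0) : G ≠ 0 := by
  rintro rfl
  exact h (by simp [cf])

theorem exists_cf_ne {G : Polynomial (PowerSeries ℂ)} (h : G ≠ 0) : ∃ i j, cf G i j ≠ 0 := by
  by_contra hc
  push Not at hc
  apply h
  ext j i
  simpa [cf] using hc i j

/-- Existence of a lexicographically least monomial. -/
theorem exists_min {t : ℝ} (_ht : 0 < t) {G : Polynomial (PowerSeries ℂ)} (hG : G ≠ 0) :
    ∃ i j : ℕ, cf G i j ≠ 0 ∧ ∀ i' j' : ℕ, cf G i' j' ≠ 0 →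
      ((i : ℝ) + t * j < (i' : ℝ) + t * j' ∨ ((i : ℝ) + t * j = (i' : ℝ) + t * j' ∧ j ≤ j')) := by
  classical
  -- for each j, the least i
  have hj : ∀ j, (∃ i, cf G i j ≠ 0) → ∃ i, cf G i j ≠ 0 ∧ ∀ i', cf G i' j ≠ 0 → i ≤ i' := by
    intro j h
    exact ⟨Nat.find h, Nat.find_spec h, fun i' hi' => Nat.find_min' h hi'⟩
  choose! I hI hImin using hj
  set S := G.support.filter (fun j => ∃ i, cf G i j ≠ 0) with hS
  have hne : S.Nonempty := by
    obtain ⟨i, j, hij⟩ := exists_cf_ne hG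
    refine ⟨j, ?_⟩
    simp only [hS, mem_filter]
    refine ⟨?_, i, hij⟩
    rw [Polynomial.mem_support_iff]
    intro h0
    exact hij (by simp [cf, h0])
  obtain ⟨j, hjS, hjmin⟩ := S.exists_min_image
    (fun j => toLex (((I j : ℕ) : ℝ) + t * (j : ℝ), j)) hne
  have hjS' : ∃ i, cf G i j ≠ 0 := by
    simp only [hS, mem_filter] at hjS; exact hjS.2
  refine ⟨I j, j, hI j hjS', ?_⟩
  intro i' j' h'
  have hj'S : j' ∈ S := by
    simp only [hS, mem_filter]
    refine ⟨?_, i', h'⟩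
    rw [Polynomial.mem_support_iff]
    intro h0
    exact h' (by simp [cf, h0])
  have h1 := hjmin j' hj'S
  have h2 : I j' ≤ i' := hImin j' ⟨i', h'⟩ i' h'
  have h2' : ((I j' : ℕ) : ℝ) ≤ (i' : ℝ) := by exact_mod_cast h2
  rw [Prod.Lex.le_iff] at h1
  simp only [ofLex_toLex] at h1
  rcases h1 with h1 | ⟨h1, h3⟩
  · left; linarith
  · rcases h2.lt_or_eq with h4 | h4
    · left
      have : ((I j' : ℕ) : ℝ) < (i' : ℝ) := by exact_mod_cast h4
      linarith
    · right
      subst h4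
      exact ⟨h1, h3⟩

theorem VLe.mono {t : ℝ} {G : Polynomial (PowerSeries ℂ)} {a b : ℝ} (h : VLe t G a) (hab : a ≤ b) :
    VLe t G b := by
  obtain ⟨i, j, h1, h2⟩ := h
  exact ⟨i, j, h1, h2.trans hab⟩

theorem VGe.mono {t : ℝ} {G : Polynomial (PowerSeries ℂ)} {a b : ℝ} (h : VGe t G b) (hab : a ≤ b) :
    VGe t G a := fun i j hij => hab.trans (h i j hij)

/-- Upper bounds add under multiplication. -/
theorem VLe.mul {t : ℝ} (ht : 0 < t) {F G : Polynomial (PowerSeries ℂ)} {a b : ℝ}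
    (hF : VLe t F a) (hG : VLe t G b) : VLe t (F * G) (a + b) := by
  classical
  obtain ⟨i0, j0, hF0, hFa⟩ := hF
  obtain ⟨i1, j1, hG0, hGb⟩ := hG
  obtain ⟨i, j, hij, hmin⟩ := exists_min ht (ne_zero_of_cf hF0)
  obtain ⟨i', j', hij', hmin'⟩ := exists_min ht (ne_zero_of_cf hG0)
  refine ⟨i + i', j + j', ?_, ?_⟩
  · rw [cf_mul]
    rw [Finset.sum_eq_single (j, j')]
    · rw [Finset.sum_eq_single (i, i')]
      · exact mul_ne_zero hij hij'
      · rintro ⟨a1, a2⟩ ha hne
        rw [Finset.HasAntidiagonal.mem_antidiagonal] at ha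
        simp only at ha ⊢
        by_contra hc
        have hc1 : cf F a1 j ≠ 0 := left_ne_zero_of_mul hc
        have hc2 : cf G a2 j' ≠ 0 := right_ne_zero_of_mul hc
        have h1 : (i : ℝ) ≤ a1 := by
          rcases hmin a1 j hc1 with h | ⟨h, _⟩ <;> linarith
        have h2 : (i' : ℝ) ≤ a2 := by
          rcases hmin' a2 j' hc2 with h | ⟨h, _⟩ <;> linarith
        have h1' : i ≤ a1 := by exact_mod_cast h1
        have h2' : i' ≤ a2 := by exact_mod_cast h2
        apply hne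
        ext <;> simp <;> omega
      · intro h
        exact absurd (by simp) h
    · rintro ⟨b1, b2⟩ hb hne
      rw [Finset.HasAntidiagonal.mem_antidiagonal] at hb
      simp only at hb ⊢
      apply Finset.sum_eq_zero
      rintro ⟨a1, a2⟩ ha
      rw [Finset.HasAntidiagonal.mem_antidiagonal] at ha
      simp only at ha ⊢
      by_contra hc
      have hc1 : cf F a1 b1 ≠ 0 := left_ne_zero_of_mul hc
      have hc2 : cf G a2 b2 ≠ 0 := right_ne_zero_of_mul hc
      have e1 : (a1 : ℝ) + a2 = i + i' := by exact_mod_cast ha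
      have e2 : (b1 : ℝ) + b2 = j + j' := by exact_mod_cast hb
      have e3 : ((a1 : ℝ) + t * b1) + (a2 + t * b2) = (i + t * j) + (i' + t * j') := by
        have : ((a1 : ℝ) + t * b1) + (a2 + t * b2) = (a1 + a2) + t * (b1 + b2) := by ring
        rw [this, e1, e2]; ring
      rcases hmin a1 b1 hc1 with h | ⟨h, hj1⟩ <;> rcases hmin' a2 b2 hc2 with h' | ⟨h', hj2⟩
      · linarith
      · linarith
      · linarith
      · apply hne
        ext <;> simp <;> omega
    · intro h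
      exact absurd (by simp) h
  · have h1 : (i : ℝ) + t * j ≤ a := by
      rcases hmin i0 j0 hF0 with h | ⟨h, _⟩ <;> linarith
    have h2 : (i' : ℝ) + t * j' ≤ b := by
      rcases hmin' i1 j1 hG0 with h | ⟨h, _⟩ <;> linarith
    push_cast
    nlinarith

/-- Lower bounds add under multiplication. -/
theorem VGe.mul {t : ℝ} {F G : Polynomial (PowerSeries ℂ)} {a b : ℝ}
    (hF : VGe t F a) (hG : VGe t G b) : VGe t (F * G) (a + b) := by
  intro n k h
  rw [cf_mul] at h
  obtain ⟨p, hp, h⟩ := Finset.exists_ne_zero_of_sum_ne_zero h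
  obtain ⟨q, hq, h⟩ := Finset.exists_ne_zero_of_sum_ne_zero h
  rw [Finset.HasAntidiagonal.mem_antidiagonal] at hp hq
  have h1 := hF _ _ (left_ne_zero_of_mul h)
  have h2 := hG _ _ (right_ne_zero_of_mul h)
  have e1 : (n : ℝ) = q.1 + q.2 := by exact_mod_cast hq.symm
  have e2 : (k : ℝ) = p.1 + p.2 := by exact_mod_cast hp.symm
  rw [e1, e2]
  nlinarith

theorem VGe.add {t : ℝ} {F G : Polynomial (PowerSeries ℂ)} {a : ℝ}
    (hF : VGe t F a) (hG : VGe t G a) : VGe t (F + G) a := by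
  intro i j h
  by_cases h1 : cf F i j = 0
  · by_cases h2 : cf G i j = 0
    · exact absurd (by simp only [cf, Polynomial.coeff_add, map_add] at *; rw [h1, h2, add_zero]) h
    · exact hG i j h2
  · exact hF i j h1

theorem VGe.one {t : ℝ} (ht : 0 ≤ t) : VGe t 1 0 := by
  intro i j _
  positivity

theorem VGe.pow {t : ℝ} (ht : 0 ≤ t) {F : Polynomial (PowerSeries ℂ)} {a : ℝ}
    (hF : VGe t F a) (n : ℕ) : VGe t (F ^ n) (n * a) := by
  induction n with
  | zero => simpa using VGe.one ht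
  | succ n ih =>
    rw [pow_succ]
    have := ih.mul hF
    refine this.mono (le_of_eq ?_)
    push_cast; ring

theorem VGe.zero_left {t : ℝ} (ht : 0 ≤ t) (F : Polynomial (PowerSeries ℂ)) : VGe t F 0 := by
  intro i j _
  positivity

/-- `VLe` fails iff all monomials have weight `> a`; then some `b > a` is a lower bound. -/
theorem exists_gt_of_not_VLe {t : ℝ} (ht : 0 < t) {G : Polynomial (PowerSeries ℂ)} {a : ℝ}
    (hG : G ≠ 0) (h : ¬ VLe t G a) : ∃ b, a < b ∧ VGe t G b := by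
  obtain ⟨i, j, hij, hmin⟩ := exists_min ht hG
  refine ⟨(i : ℝ) + t * j, ?_, ?_⟩
  · by_contra hc
    exact h ⟨i, j, hij, not_lt.mp hc⟩
  · intro i' j' h'
    rcases hmin i' j' h' with h | ⟨h, _⟩ <;> linarith

end Pool.Agent.QMVal
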