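import Mathlib
import Pool.Agent.Lib.QMVal

set_option autoImplicit false

/-!
Bivariate polynomials `ℂ[x][y]`, total degree, expansion along a smooth germ `y = ξ(x)`, and the
Bezout inequality `v(f) v(g) ≤ t deg f deg g` for the monomial valuation in `(x, y - ξ(x))`
with weights `1, t`.
-/

namespace Pool.Agent.QMVal

open Finset

/-- coefficient of `x^i y^j` of a bivariate polynomial -/
noncomputable def pc (G : Polynomial (Polynomial ℂ)) (i j : ℕ) : ℂ := (G.coeff j).coeff i

/-- total degree at most `n` -/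
def TD (n : ℕ) (G : Polynomial (Polynomial ℂ)) : Prop := ∀ i j, pc G i j ≠ 0 → i + j ≤ n

/-- total degree exactly `n` (in particular `G ≠ 0`) -/
def HasTD (n : ℕ) (G : Polynomial (Polynomial ℂ)) : Prop :=
  TD n G ∧ ∃ i j, pc G i j ≠ 0 ∧ i + j = n

theorem pc_ext {F G : Polynomial (Polynomial ℂ)} (h : ∀ i j, pc F i j = pc G i j) : F = G := by
  ext j i
  exact h i j

theorem exists_pc_ne {G : Polynomial (Polynomial ℂ)} (h : G ≠ 0) : ∃ i j, pc G i j ≠ 0 := by
  by_contra hc
  push Not at hc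
  apply h
  apply pc_ext
  intro i j
  rw [hc i j]
  simp [pc]

theorem pc_mul (F G : Polynomial (Polynomial ℂ)) (n k : ℕ) :
    pc (F * G) n k = ∑ p ∈ antidiagonal k, ∑ q ∈ antidiagonal n, pc F q.1 p.1 * pc G q.2 p.2 := by
  unfold pc
  rw [Polynomial.coeff_mul, Polynomial.finsetSum_coeff]
  refine Finset.sum_congr rfl fun p _ => ?_
  rw [Polynomial.coeff_mul]

theorem pc_support_finite (G : Polynomial (Polynomial ℂ)) :
    {p : ℕ × ℕ | pc G p.1 p.2 ≠ 0}.Finite := by
  refine Set.Finite.subset (G.support.biUnion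
    (fun j => (G.coeff j).support.image (fun i => (i, j)))).finite_toSet ?_
  rintro ⟨i, j⟩ h
  simp only [Set.mem_ofPred_eq] at h
  simp only [coe_biUnion, Finset.mem_coe, Set.mem_iUnion, coe_image]
  refine ⟨j, ?_, ⟨i, ?_, rfl⟩⟩
  · rw [Polynomial.mem_support_iff]
    intro h0
    exact h (by simp [pc, h0])
  · rw [Finset.mem_coe, Polynomial.mem_support_iff]
    exact h

theorem exists_max {G : Polynomial (Polynomial ℂ)} (hG : G ≠ 0) :
    ∃ i j : ℕ, pc G i j ≠ 0 ∧ ∀ i' j' : ℕ, pc G i' j' ≠ 0 →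
      (i' + j' < i + j ∨ (i' + j' = i + j ∧ j' ≤ j)) := by
  classical
  have hfin := pc_support_finite G
  have hne : hfin.toFinset.Nonempty := by
    obtain ⟨i, j, h⟩ := exists_pc_ne hG
    exact ⟨(i, j), by simpa using h⟩
  obtain ⟨⟨i, j⟩, hmem, hmax⟩ := hfin.toFinset.exists_max_image
    (fun p => toLex (p.1 + p.2, p.2)) hne
  refine ⟨i, j, by simpa using hmem, ?_⟩
  intro i' j' h'
  have h1 := hmax (i', j') (by simpa using h')
  rw [Prod.Lex.le_iff] at h1
  simpa using h1

theorem exists_hasTD {G : Polynomial (Polynomial ℂ)} (hG : G ≠ 0) : ∃ n, HasTD n G := by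
  obtain ⟨i, j, hij, hmax⟩ := exists_max hG
  refine ⟨i + j, ?_, i, j, hij, rfl⟩
  intro i' j' h'
  rcases hmax i' j' h' with h | ⟨h, _⟩ <;> omega

theorem HasTD.ne_zero {n : ℕ} {G : Polynomial (Polynomial ℂ)} (h : HasTD n G) : G ≠ 0 := by
  rintro rfl
  obtain ⟨_, i, j, h, _⟩ := h
  exact h (by simp [pc])

theorem TD.mono {m n : ℕ} {G : Polynomial (Polynomial ℂ)} (h : TD m G) (hmn : m ≤ n) : TD n G :=
  fun i j hij => (h i j hij).trans hmn

theorem HasTD.le {m n : ℕ} {G : Polynomial (Polynomial ℂ)} (h : HasTD m G) (h' : TD n G) :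
    m ≤ n := by
  obtain ⟨_, i, j, hij, rfl⟩ := h
  exact h' i j hij

theorem HasTD.unique {m n : ℕ} {G : Polynomial (Polynomial ℂ)} (h : HasTD m G) (h' : HasTD n G) :
    m = n := le_antisymm (h.le h'.1) (h'.le h.1)

theorem TD.mul {m n : ℕ} {F G : Polynomial (Polynomial ℂ)} (hF : TD m F) (hG : TD n G) :
    TD (m + n) (F * G) := by
  intro n' k h
  rw [pc_mul] at h
  obtain ⟨p, hp, h⟩ := Finset.exists_ne_zero_of_sum_ne_zero h
  obtain ⟨q, hq, h⟩ := Finset.exists_ne_zero_of_sum_ne_zero h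
  rw [Finset.HasAntidiagonal.mem_antidiagonal] at hp hq
  have h1 := hF _ _ (left_ne_zero_of_mul h)
  have h2 := hG _ _ (right_ne_zero_of_mul h)
  omega

theorem HasTD.mul {m n : ℕ} {F G : Polynomial (Polynomial ℂ)} (hF : HasTD m F) (hG : HasTD n G) :
    HasTD (m + n) (F * G) := by
  classical
  refine ⟨hF.1.mul hG.1, ?_⟩
  obtain ⟨i, j, hij, hmax⟩ := exists_max hF.ne_zero
  obtain ⟨i', j', hij', hmax'⟩ := exists_max hG.ne_zero
  have e1 : i + j = m := by
    obtain ⟨_, a, b, hab, rfl⟩ := hF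
    rcases hmax a b hab with h | ⟨h, _⟩
    · have := (by assumption : TD (a + b) F) i j hij
      omega
    · omega
  have e2 : i' + j' = n := by
    obtain ⟨_, a, b, hab, rfl⟩ := hG
    rcases hmax' a b hab with h | ⟨h, _⟩
    · have := (by assumption : TD (a + b) G) i' j' hij'
      omega
    · omega
  refine ⟨i + i', j + j', ?_, by omega⟩
  rw [pc_mul]
  rw [Finset.sum_eq_single (j, j')]
  · rw [Finset.sum_eq_single (i, i')]
    · exact mul_ne_zero hij hij'
    · rintro ⟨a1, a2⟩ ha hne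
      rw [Finset.HasAntidiagonal.mem_antidiagonal] at ha
      simp only at ha ⊢
      by_contra hc
      have hc1 : pc F a1 j ≠ 0 := left_ne_zero_of_mul hc
      have hc2 : pc G a2 j' ≠ 0 := right_ne_zero_of_mul hc
      have h1 : a1 ≤ i := by
        rcases hmax a1 j hc1 with h | ⟨h, _⟩ <;> omega
      have h2 : a2 ≤ i' := by
        rcases hmax' a2 j' hc2 with h | ⟨h, _⟩ <;> omega
      apply hne
      ext <;> simp <;> omega
    · intro h
      exact absurd (by simp) h
  · rintro ⟨b1, b2⟩ hb hne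
    rw [Finset.HasAntidiagonal.mem_antidiagonal] at hb
    simp only at hb ⊢
    apply Finset.sum_eq_zero
    rintro ⟨a1, a2⟩ ha
    rw [Finset.HasAntidiagonal.mem_antidiagonal] at ha
    simp only at ha ⊢
    by_contra hc
    have hc1 : pc F a1 b1 ≠ 0 := left_ne_zero_of_mul hc
    have hc2 : pc G a2 b2 ≠ 0 := right_ne_zero_of_mul hc
    apply hne
    rcases hmax a1 b1 hc1 with h | ⟨h, hj1⟩ <;> rcases hmax' a2 b2 hc2 with h' | ⟨h', hj2⟩ <;>
      first
      | omega
      | (ext <;> simp <;> omega)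
  · intro h
    exact absurd (by simp) h

theorem TD.of_mul {m n : ℕ} {F G : Polynomial (Polynomial ℂ)} (hF : HasTD m F)
    (h : TD (m + n) (F * G)) : TD n G := by
  by_cases hG : G = 0
  · subst hG
    intro i j hij
    exact absurd (by simp [pc]) hij
  · obtain ⟨k, hk⟩ := exists_hasTD hG
    have := (hF.mul hk).le h
    exact hk.1.mono (by omega)

/-- The space of bivariate polynomials of total degree at most `n`. -/
noncomputable def P (n : ℕ) : Submodule ℂ (Polynomial (Polynomial ℂ)) where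
  carrier := {G | TD n G}
  zero_mem' := by
    intro i j h
    exact absurd (by simp [pc]) h
  add_mem' := by
    intro F G hF hG i j h
    by_cases h1 : pc F i j = 0
    · by_cases h2 : pc G i j = 0
      · exact absurd (by simp only [pc, Polynomial.coeff_add] at *; rw [h1, h2, add_zero]) h
      · exact hG i j h2
    · exact hF i j h1
  smul_mem' := by
    intro c G hG i j h
    apply hG i j
    intro h0
    apply h
    simp only [pc, Polynomial.coeff_smul, smul_eq_mul] at *
    rw [h0, mul_zero]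

theorem mem_P {n : ℕ} {G : Polynomial (Polynomial ℂ)} : G ∈ P n ↔ TD n G := Iff.rfl

/-- index set -/
def SS (n : ℕ) : Finset (ℕ × ℕ) := (range (n + 1)).biUnion antidiagonal

theorem mem_SS {n : ℕ} {p : ℕ × ℕ} : p ∈ SS n ↔ p.1 + p.2 ≤ n := by
  simp only [SS, mem_biUnion, mem_range, Finset.HasAntidiagonal.mem_antidiagonal]
  constructor
  · rintro ⟨k, hk, h⟩; omega
  · intro h; exact ⟨p.1 + p.2, by omega, rfl⟩

theorem card_SS (n : ℕ) : 2 * (SS n).card = (n + 1) * (n + 2) := by
  rw [SS, Finset.card_biUnion]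
  · simp only [Finset.Nat.card_antidiagonal]
    induction n with
    | zero => simp
    | succ n ih =>
      rw [Finset.sum_range_succ, mul_add, ih]
      ring
  · intro a _ b _ hab
    rw [Function.onFun, Finset.disjoint_left]
    intro p hp hp'
    rw [Finset.HasAntidiagonal.mem_antidiagonal] at hp hp'
    exact hab (hp.symm.trans hp')

/-- coefficients of a polynomial of total degree at most `n` -/
noncomputable def coeffMap (n : ℕ) : P n →ₗ[ℂ] (SS n → ℂ) where
  toFun G := fun p => pc G.1 p.1.1 p.1.2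
  map_add' F G := by
    funext p
    simp [pc]
  map_smul' c G := by
    funext p
    simp [pc]

theorem coeffMap_bijective (n : ℕ) : Function.Bijective (coeffMap n) := by
  classical
  constructor
  · rw [injective_iff_map_eq_zero]
    rintro ⟨G, hG⟩ h
    have : G = 0 := by
      by_contra hne
      obtain ⟨i, j, hij⟩ := exists_pc_ne hne
      have h1 := congrFun h ⟨(i, j), mem_SS.mpr (hG i j hij)⟩
      exact hij h1
    exact Subtype.ext this
  · intro f
    have key : ∀ i j, pc (∑ p : SS n, Polynomial.monomial p.1.2 (Polynomial.monomial p.1.1 (f p))) i j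
        = if h : (i, j) ∈ SS n then f ⟨(i, j), h⟩ else 0 := by
      intro i j
      simp only [pc, Polynomial.finsetSum_coeff, Polynomial.coeff_monomial]
      split_ifs with h
      · rw [Finset.sum_eq_single ⟨(i, j), h⟩]
        · simp
        · rintro ⟨⟨a, b⟩, hab⟩ _ hne
          by_cases hb : b = j
          · subst hb
            have : a ≠ i := by
              rintro rfl
              exact hne rfl
            simp [Polynomial.coeff_monomial, this]
          · simp [hb]
        · intro h'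
          exact absurd (mem_univ _) h'
      · apply Finset.sum_eq_zero
        rintro ⟨⟨a, b⟩, hab⟩ _
        by_cases hb : b = j
        · subst hb
          have : a ≠ i := by
            rintro rfl
            exact h hab
          simp [Polynomial.coeff_monomial, this]
        · simp [hb]
    refine ⟨⟨∑ p : SS n, Polynomial.monomial p.1.2 (Polynomial.monomial p.1.1 (f p)), ?_⟩, ?_⟩
    · intro i j hij
      rw [key] at hij
      split_ifs at hij with h
      · exact mem_SS.mp h
      · exact absurd rfl hij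
    · funext p
      show pc (∑ p : SS n, Polynomial.monomial p.1.2 (Polynomial.monomial p.1.1 (f p))) _ _ = _
      rw [key]
      simp

noncomputable def coeffEquiv (n : ℕ) : P n ≃ₗ[ℂ] (SS n → ℂ) :=
  LinearEquiv.ofBijective (coeffMap n) (coeffMap_bijective n)

instance (n : ℕ) : Module.Finite ℂ (P n) := Module.Finite.equiv (coeffEquiv n).symm

theorem finrank_P (n : ℕ) : 2 * Module.finrank ℂ (P n) = (n + 1) * (n + 2) := by
  rw [(coeffEquiv n).finrank_eq, Module.finrank_fintype_fun_eq_card, Fintype.card_coe, card_SS]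


/-- If `g₁ a = g₂ b` with `g₁, g₂` relatively prime then `g₁ a` is a multiple of `g₁ g₂`,
with degree control. -/
theorem exists_common {d2 n : ℕ} {g1 g2 a b : Polynomial (Polynomial ℂ)}
    (h2 : HasTD d2 g2) (hrel : IsRelPrime g1 g2)
    (ha : TD (n + d2) a) (hab : g1 * a = g2 * b) :
    ∃ c, TD n c ∧ g1 * a = g1 * g2 * c := by
  have hdvd : g2 ∣ a := by
    apply IsRelPrime.dvd_of_dvd_mul_left hrel.symm
    exact ⟨b, hab⟩
  obtain ⟨c, rfl⟩ := hdvd
  refine ⟨c, ?_, by ring⟩
  apply TD.of_mul h2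
  rwa [add_comm] at ha

/-- multiplication by `g` as a linear map -/
noncomputable def mulL (g : Polynomial (Polynomial ℂ)) :
    Polynomial (Polynomial ℂ) →ₗ[ℂ] Polynomial (Polynomial ℂ) := LinearMap.mulLeft ℂ g

theorem mulL_apply (g a : Polynomial (Polynomial ℂ)) : mulL g a = g * a := rfl

theorem finrank_map_mulL {g : Polynomial (Polynomial ℂ)} (hg : g ≠ 0)
    (W : Submodule ℂ (Polynomial (Polynomial ℂ))) :
    Module.finrank ℂ (W.map (mulL g)) = Module.finrank ℂ W := by
  apply LinearEquiv.finrank_eq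
  apply (Submodule.equivMapOfInjective (mulL g) _ W).symm
  intro a b hab
  exact mul_left_cancel₀ hg hab

/-- codimension bound for the degree `≤ n` part -/
theorem finrank_U_ge {d1 d2 k : ℕ} {g1 g2 : Polynomial (Polynomial ℂ)}
    (h1 : HasTD d1 g1) (h2 : HasTD d2 g2) (hrel : IsRelPrime g1 g2) :
    Module.finrank ℂ (P (k + d2)) + Module.finrank ℂ (P (k + d1)) ≤
      Module.finrank ℂ (((P (k + d2)).map (mulL g1) ⊔ (P (k + d1)).map (mulL g2) :
        Submodule ℂ (Polynomial (Polynomial ℂ)))) + Module.finrank ℂ (P k) := by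
  have hsum := Submodule.finrank_sup_add_finrank_inf_eq ((P (k + d2)).map (mulL g1))
    ((P (k + d1)).map (mulL g2))
  rw [finrank_map_mulL h1.ne_zero, finrank_map_mulL h2.ne_zero] at hsum
  have hinf : ((P (k + d2)).map (mulL g1) ⊓ (P (k + d1)).map (mulL g2) :
        Submodule ℂ (Polynomial (Polynomial ℂ))) ≤ (P k).map (mulL (g1 * g2)) := by
    rintro x ⟨⟨a, ha, rfl⟩, ⟨b, hb, hab⟩⟩
    obtain ⟨c, hc, hc'⟩ := exists_common (n := k) h2 hrel ha
      (by rw [← mulL_apply, ← mulL_apply]; exact hab.symm)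
    exact ⟨c, hc, by rw [mulL_apply, mulL_apply]; exact hc'.symm⟩
  have h3 := Submodule.finrank_mono hinf
  rw [finrank_map_mulL (mul_ne_zero h1.ne_zero h2.ne_zero)] at h3
  omega

/-- The ideal generated by two polynomials, as a `ℂ`-submodule. -/
noncomputable def II (g1 g2 : Polynomial (Polynomial ℂ)) :
    Submodule ℂ (Polynomial (Polynomial ℂ)) :=
  (Ideal.span {g1, g2}).restrictScalars ℂ

theorem finrank_map_mkQ_le {d1 d2 k : ℕ} {g1 g2 : Polynomial (Polynomial ℂ)}
    (h1 : HasTD d1 g1) (h2 : HasTD d2 g2) (hrel : IsRelPrime g1 g2) :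
    Module.finrank ℂ ((P (k + d1 + d2)).map (II g1 g2).mkQ) ≤ d1 * d2 := by
  set f : P (k + d1 + d2) →ₗ[ℂ] (Polynomial (Polynomial ℂ) ⧸ II g1 g2) :=
    (II g1 g2).mkQ.domRestrict (P (k + d1 + d2)) with hf
  have hrange : LinearMap.range f = (P (k + d1 + d2)).map (II g1 g2).mkQ := by
    rw [hf, LinearMap.range_domRestrict]
  have hrk := LinearMap.finrank_range_add_finrank_ker (K := ℂ) (V := P (k + d1 + d2)) f
  rw [hrange] at hrk
  -- the kernel contains U
  have hU : ((P (k + d2)).map (mulL g1) ⊔ (P (k + d1)).map (mulL g2) :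
        Submodule ℂ (Polynomial (Polynomial ℂ))) ≤ (LinearMap.ker f).map (P (k + d1 + d2)).subtype := by
    rw [sup_le_iff]
    constructor
    · rintro x ⟨a, ha, rfl⟩
      have hx : TD (k + d1 + d2) (mulL g1 a) := by
        rw [mulL_apply]
        have := h1.1.mul ha
        exact this.mono (by omega)
      refine ⟨⟨mulL g1 a, hx⟩, ?_, rfl⟩
      rw [SetLike.mem_coe, LinearMap.mem_ker, hf]
      show (II g1 g2).mkQ (mulL g1 a) = 0
      rw [Submodule.mkQ_apply, Submodule.Quotient.mk_eq_zero, mulL_apply, II,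
        Submodule.restrictScalars_mem]
      exact Ideal.mul_mem_right _ _ (Ideal.subset_span (by simp))
    · rintro x ⟨a, ha, rfl⟩
      have hx : TD (k + d1 + d2) (mulL g2 a) := by
        rw [mulL_apply]
        have := h2.1.mul ha
        exact this.mono (by omega)
      refine ⟨⟨mulL g2 a, hx⟩, ?_, rfl⟩
      rw [SetLike.mem_coe, LinearMap.mem_ker, hf]
      show (II g1 g2).mkQ (mulL g2 a) = 0
      rw [Submodule.mkQ_apply, Submodule.Quotient.mk_eq_zero, mulL_apply, II,
        Submodule.restrictScalars_mem]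
      exact Ideal.mul_mem_right _ _ (Ideal.subset_span (by simp))
  have i1 : Module.Finite ℂ (LinearMap.ker f) :=
    FiniteDimensional.finiteDimensional_submodule (K := ℂ) (V := P (k + d1 + d2)) (LinearMap.ker f)
  have i2 : Module.Finite ℂ ((LinearMap.ker f).map (P (k + d1 + d2)).subtype) :=
    Module.Finite.map _ _
  have h3 := Submodule.finrank_mono hU
  have h4 : Module.finrank ℂ ((LinearMap.ker f).map (P (k + d1 + d2)).subtype) =
      Module.finrank ℂ (LinearMap.ker f) :=
    LinearEquiv.finrank_eq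
      (Submodule.equivMapOfInjective _ (Submodule.injective_subtype _) _).symm
  rw [h4] at h3
  have h5 := finrank_U_ge (k := k) h1 h2 hrel
  have e0 := finrank_P (k + d1 + d2)
  have e1 := finrank_P (k + d1)
  have e2 := finrank_P (k + d2)
  have e3 := finrank_P k
  nlinarith


theorem exists_P (G : Polynomial (Polynomial ℂ)) : ∃ n, G ∈ P n := by
  by_cases h : G = 0
  · exact ⟨0, by rw [h]; exact Submodule.zero_mem _⟩
  · obtain ⟨n, hn⟩ := exists_hasTD h
    exact ⟨n, hn.1⟩

theorem P_mono {m n : ℕ} (h : m ≤ n) : P m ≤ P n := fun _ hG => TD.mono hG h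

/-- Affine Bezout bound: the quotient has dimension at most `d1 d2`. -/
theorem rank_quot_le {d1 d2 : ℕ} {g1 g2 : Polynomial (Polynomial ℂ)}
    (h1 : HasTD d1 g1) (h2 : HasTD d2 g2) (hrel : IsRelPrime g1 g2) :
    Module.rank ℂ (Polynomial (Polynomial ℂ) ⧸ II g1 g2) ≤ (d1 * d2 : ℕ) := by
  classical
  apply rank_le
  intro s hs
  -- choose lifts
  have hlift : ∀ x : Polynomial (Polynomial ℂ) ⧸ II g1 g2, ∃ n, x ∈ (P n).map (II g1 g2).mkQ := by
    intro x
    obtain ⟨G, rfl⟩ := Submodule.mkQ_surjective _ x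
    obtain ⟨n, hn⟩ := exists_P G
    exact ⟨n, G, hn, rfl⟩
  choose N hN using hlift
  set k := s.sup N with hk
  have hsub : (s : Set (Polynomial (Polynomial ℂ) ⧸ II g1 g2)) ⊆
      ((P (k + d1 + d2)).map (II g1 g2).mkQ : Submodule ℂ _) := by
    intro x hx
    have h3 : N x ≤ k := Finset.le_sup (f := N) hx
    exact Submodule.map_mono (P_mono (by omega)) (hN x)
  have hspan : Submodule.span ℂ (s : Set (Polynomial (Polynomial ℂ) ⧸ II g1 g2)) ≤
      (P (k + d1 + d2)).map (II g1 g2).mkQ := Submodule.span_le.mpr hsub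
  have i2 : Module.Finite ℂ ((P (k + d1 + d2)).map (II g1 g2).mkQ) := Module.Finite.map _ _
  have h4 := Submodule.finrank_mono hspan
  have h5 : Module.finrank ℂ (Submodule.span ℂ (s : Set (Polynomial (Polynomial ℂ) ⧸ II g1 g2)))
      = s.card := finrank_span_finset_eq_card hs
  rw [h5] at h4
  exact h4.trans (finrank_map_mkQ_le h1 h2 hrel)

/-- A complement of the ideal of dimension at most `d1 d2`. -/
theorem exists_compl {d1 d2 : ℕ} {g1 g2 : Polynomial (Polynomial ℂ)}
    (h1 : HasTD d1 g1) (h2 : HasTD d2 g2) (hrel : IsRelPrime g1 g2) :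
    ∃ S : Submodule ℂ (Polynomial (Polynomial ℂ)), Module.Finite ℂ S ∧
      Module.finrank ℂ S ≤ d1 * d2 ∧ S ⊔ II g1 g2 = ⊤ := by
  obtain ⟨S, hS⟩ := Submodule.exists_isCompl (II g1 g2)
  have e := Submodule.quotientEquivOfIsCompl (II g1 g2) S hS
  have hr := rank_quot_le h1 h2 hrel
  have hfin : Module.Finite ℂ (Polynomial (Polynomial ℂ) ⧸ II g1 g2) := by
    rw [← Module.rank_lt_aleph0_iff]
    exact lt_of_le_of_lt hr (Cardinal.natCast_lt_aleph0)
  have hfr : Module.finrank ℂ (Polynomial (Polynomial ℂ) ⧸ II g1 g2) ≤ d1 * d2 :=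
    Module.finrank_le_of_rank_le hr
  refine ⟨S, Module.Finite.equiv e, ?_, ?_⟩
  · rw [← e.finrank_eq]; exact hfr
  · rw [sup_comm]; exact hS.sup_eq_top

/-- the ideal generated by the products `g1^i g2^(m-i)` -/
noncomputable def JJ (g1 g2 : Polynomial (Polynomial ℂ)) (m : ℕ) :
    Ideal (Polynomial (Polynomial ℂ)) :=
  Ideal.span (Set.range (fun i : Fin (m + 1) => g1 ^ (i : ℕ) * g2 ^ (m - (i : ℕ))))

theorem JJ_mem (g1 g2 : Polynomial (Polynomial ℂ)) (m : ℕ) {i j : ℕ} (h : i + j = m) :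
    g1 ^ i * g2 ^ j ∈ JJ g1 g2 m := by
  apply Ideal.subset_span
  refine ⟨⟨i, by omega⟩, ?_⟩
  have : m - i = j := by omega
  simp [this]

/-- combination map -/
noncomputable def comb (g1 g2 : Polynomial (Polynomial ℂ)) (m : ℕ)
    (S : Submodule ℂ (Polynomial (Polynomial ℂ))) :
    (Fin (m + 1) → S) →ₗ[ℂ] Polynomial (Polynomial ℂ) where
  toFun s := ∑ i : Fin (m + 1), (s i : Polynomial (Polynomial ℂ)) * (g1 ^ (i : ℕ) * g2 ^ (m - (i : ℕ)))
  map_add' s s' := by
    simp only [Pi.add_apply, Submodule.coe_add, add_mul, Finset.sum_add_distrib]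
  map_smul' c s := by
    simp only [Pi.smul_apply, Submodule.coe_smul, smul_mul_assoc, Finset.smul_sum, RingHom.id_apply]

theorem JJ_le (g1 g2 : Polynomial (Polynomial ℂ)) (m : ℕ)
    (S : Submodule ℂ (Polynomial (Polynomial ℂ))) (hS : S ⊔ II g1 g2 = ⊤) :
    (JJ g1 g2 m).restrictScalars ℂ ≤
      LinearMap.range (comb g1 g2 m S) ⊔ (JJ g1 g2 (m + 1)).restrictScalars ℂ := by
  intro x hx
  rw [Submodule.restrictScalars_mem, JJ, Ideal.mem_span_range_iff_exists_fun] at hx
  obtain ⟨a, rfl⟩ := hx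
  have hdec : ∀ i, ∃ s ∈ S, ∃ b c, a i = s + (b * g1 + c * g2) := by
    intro i
    have : a i ∈ S ⊔ II g1 g2 := by rw [hS]; trivial
    rw [Submodule.mem_sup] at this
    obtain ⟨s, hs, y, hy, hsy⟩ := this
    rw [II, Submodule.restrictScalars_mem, Ideal.mem_span_pair] at hy
    obtain ⟨b, c, hbc⟩ := hy
    exact ⟨s, hs, b, c, by rw [← hsy, hbc]⟩
  choose s hs b c habc using hdec
  have : ∑ i : Fin (m + 1), a i * (g1 ^ (i : ℕ) * g2 ^ (m - (i : ℕ))) =
      comb g1 g2 m S (fun i => ⟨s i, hs i⟩) +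
      ∑ i : Fin (m + 1), (b i * (g1 ^ ((i : ℕ) + 1) * g2 ^ (m - (i : ℕ))) +
        c i * (g1 ^ (i : ℕ) * g2 ^ (m - (i : ℕ) + 1))) := by
    simp only [comb, LinearMap.coe_mk, AddHom.coe_mk]
    rw [← Finset.sum_add_distrib]
    refine Finset.sum_congr rfl fun i _ => ?_
    rw [habc i]
    ring
  rw [this]
  apply Submodule.add_mem_sup
  · exact ⟨_, rfl⟩
  · rw [Submodule.restrictScalars_mem]
    apply Ideal.sum_mem
    intro i _
    have hi := i.2
    apply Ideal.add_mem
    · exact Ideal.mul_mem_left _ _ (JJ_mem _ _ _ (by omega))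
    · exact Ideal.mul_mem_left _ _ (JJ_mem _ _ _ (by omega))

theorem exists_W {d1 d2 : ℕ} {g1 g2 : Polynomial (Polynomial ℂ)}
    (h1 : HasTD d1 g1) (h2 : HasTD d2 g2) (hrel : IsRelPrime g1 g2) (m : ℕ) :
    ∃ W : Submodule ℂ (Polynomial (Polynomial ℂ)), Module.Finite ℂ W ∧
      2 * Module.finrank ℂ W ≤ d1 * d2 * (m * (m + 1)) ∧
      W ⊔ (JJ g1 g2 m).restrictScalars ℂ = ⊤ := by
  obtain ⟨S, hSfin, hSr, hStop⟩ := exists_compl h1 h2 hrel
  induction m with
  | zero =>
    refine ⟨⊥, inferInstance, by simp, ?_⟩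
    have : JJ g1 g2 0 = ⊤ := by
      rw [Ideal.eq_top_iff_one]
      have := JJ_mem g1 g2 0 (i := 0) (j := 0) rfl
      simpa using this
    rw [this]
    simp
  | succ m ih =>
    obtain ⟨W, hWfin, hWr, hWtop⟩ := ih
    have i3 : Module.Finite ℂ (LinearMap.range (comb g1 g2 m S)) := inferInstance
    refine ⟨W ⊔ LinearMap.range (comb g1 g2 m S), inferInstance, ?_, ?_⟩
    · have e1 := Submodule.finrank_add_le_finrank_add_finrank W (LinearMap.range (comb g1 g2 m S))
      have e2 := LinearMap.finrank_range_le (comb g1 g2 m S)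
      have i4 : Module.Free ℂ S := Module.Free.of_divisionRing ℂ S
      have e3 : Module.finrank ℂ (Fin (m + 1) → S) = (m + 1) * Module.finrank ℂ S := by
        rw [Module.finrank_pi_fintype]
        simp
      have e4 : (m + 1) * Module.finrank ℂ S ≤ (m + 1) * (d1 * d2) :=
        Nat.mul_le_mul_left _ hSr
      nlinarith
    · rw [eq_top_iff, ← hWtop]
      rw [sup_assoc]
      exact sup_le_sup_left (JJ_le g1 g2 m S hStop) W

/-- Expansion along the germ `y = ξ(x)`: substitute `y = ξ(x) + Y`. -/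
noncomputable def ex (ξ : PowerSeries ℂ) :
    Polynomial (Polynomial ℂ) →+* Polynomial (PowerSeries ℂ) :=
  Polynomial.eval₂RingHom
    ((Polynomial.C : PowerSeries ℂ →+* _).comp (Polynomial.coeToPowerSeries.ringHom (R := ℂ)))
    (Polynomial.C ξ + Polynomial.X)

theorem ex_C (ξ : PowerSeries ℂ) (p : Polynomial ℂ) :
    ex ξ (Polynomial.C p) = Polynomial.C (p : PowerSeries ℂ) := by
  simp [ex]

theorem ex_X (ξ : PowerSeries ℂ) : ex ξ Polynomial.X = Polynomial.C ξ + Polynomial.X := by
  simp [ex]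

theorem ex_smul (ξ : PowerSeries ℂ) (c : ℂ) (G : Polynomial (Polynomial ℂ)) (i j : ℕ) :
    cf (ex ξ (c • G)) i j = c * cf (ex ξ G) i j := by
  have : c • G = Polynomial.C (Polynomial.C c) * G := by
    ext k l
    simp
  rw [this, map_mul, ex_C]
  simp [cf]

/-- truncated coefficients of the expansion -/
noncomputable def TT (ξ : PowerSeries ℂ) (L : Finset (ℕ × ℕ)) :
    Polynomial (Polynomial ℂ) →ₗ[ℂ] (L → ℂ) where
  toFun G := fun p => cf (ex ξ G) p.1.1 p.1.2
  map_add' F G := by
    funext p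
    simp [cf]
  map_smul' c G := by
    funext p
    simp only [RingHom.id_apply, Pi.smul_apply, smul_eq_mul]
    exact ex_smul ξ c G _ _

theorem cf_test (ξ : PowerSeries ℂ) (N i j i' j' : ℕ) (hi' : i' < N) :
    cf (ex ξ (Polynomial.C (Polynomial.X ^ i) *
      (Polynomial.X - Polynomial.C (PowerSeries.trunc N ξ)) ^ j)) i' j' =
      if i' = i ∧ j' = j then 1 else 0 := by
  rw [map_mul, map_pow (ex ξ) (Polynomial.X - _) j, map_sub, ex_X, ex_C, ex_C]
  set δ : PowerSeries ℂ := ξ - ((PowerSeries.trunc N ξ : Polynomial ℂ) : PowerSeries ℂ) with hδ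
  have e1 : Polynomial.C ξ + Polynomial.X -
      Polynomial.C ((PowerSeries.trunc N ξ : Polynomial ℂ) : PowerSeries ℂ) =
      Polynomial.X + Polynomial.C δ := by
    rw [hδ, map_sub]; ring
  rw [e1]
  have hdvd : (PowerSeries.X : PowerSeries ℂ) ^ N ∣ δ := by
    rw [PowerSeries.X_pow_dvd_iff]
    intro m hm
    rw [hδ, map_sub, Polynomial.coeff_coe, PowerSeries.coeff_trunc, if_pos hm, sub_self]
  unfold cf
  rw [Polynomial.coeff_C_mul, Polynomial.coeff_X_add_C_pow]
  have e2 : ((Polynomial.X ^ i : Polynomial ℂ) : PowerSeries ℂ) = PowerSeries.X ^ i := by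
    simp
  rw [e2]
  rcases lt_trichotomy j' j with h | h | h
  · -- j' < j
    rw [if_neg (by omega)]
    have hd : (PowerSeries.X : PowerSeries ℂ) ^ N ∣ PowerSeries.X ^ i * (δ ^ (j - j') * (j.choose j' : PowerSeries ℂ)) := by
      apply Dvd.dvd.mul_left
      apply Dvd.dvd.mul_right
      exact dvd_pow hdvd (by omega)
    exact (PowerSeries.X_pow_dvd_iff.mp hd) i' hi'
  · subst h
    simp only [Nat.sub_self, pow_zero, Nat.choose_self, Nat.cast_one, mul_one, and_true]
    rw [PowerSeries.coeff_X_pow]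
  · rw [if_neg (by omega), Nat.choose_eq_zero_of_lt h]
    simp

theorem TT_surjective (ξ : PowerSeries ℂ) (L : Finset (ℕ × ℕ)) :
    Function.Surjective (TT ξ L) := by
  classical
  rw [← LinearMap.range_eq_top, eq_top_iff]
  intro v _
  set N := L.sup (fun p => p.1) + 1 with hN
  have hv : v = ∑ p : L, v p • TT ξ L (Polynomial.C (Polynomial.X ^ p.1.1) *
      (Polynomial.X - Polynomial.C (PowerSeries.trunc N ξ)) ^ p.1.2) := by
    funext q
    rw [Finset.sum_apply]
    have hq : q.1.1 < N := by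
      have : q.1.1 ≤ L.sup (fun p => p.1) := Finset.le_sup (f := fun p : ℕ × ℕ => p.1) q.2
      omega
    have : ∀ p : L, (v p • TT ξ L (Polynomial.C (Polynomial.X ^ p.1.1) *
      (Polynomial.X - Polynomial.C (PowerSeries.trunc N ξ)) ^ p.1.2)) q =
      if q = p then v p else 0 := by
      intro p
      simp only [Pi.smul_apply, smul_eq_mul]
      show v p * cf (ex ξ (Polynomial.C (Polynomial.X ^ p.1.1) *
      (Polynomial.X - Polynomial.C (PowerSeries.trunc N ξ)) ^ p.1.2)) q.1.1 q.1.2 = _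
      rw [cf_test ξ N _ _ _ _ hq]
      by_cases h : q = p
      · subst h; simp
      · rw [if_neg h, if_neg, mul_zero]
        rintro ⟨e1, e2⟩
        exact h (Subtype.ext (Prod.ext e1 e2))
    simp only [this]
    simp
  rw [hv]
  apply Submodule.sum_mem
  intro p _
  apply Submodule.smul_mem
  exact ⟨_, rfl⟩

/-- Elements of `JJ m` have large value. -/
theorem VGe_JJ {t : ℝ} (ht : 0 ≤ t) (ξ : PowerSeries ℂ) {g1 g2 : Polynomial (Polynomial ℂ)} {V : ℝ}
    (h1 : VGe t (ex ξ g1) V) (h2 : VGe t (ex ξ g2) V) (m : ℕ) {x : Polynomial (Polynomial ℂ)}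
    (hx : x ∈ JJ g1 g2 m) : VGe t (ex ξ x) (m * V) := by
  rw [JJ, Ideal.mem_span_range_iff_exists_fun] at hx
  obtain ⟨a, rfl⟩ := hx
  rw [map_sum]
  have : ∀ s : Finset (Fin (m + 1)), VGe t (∑ i ∈ s,
      ex ξ (a i * (g1 ^ (i : ℕ) * g2 ^ (m - (i : ℕ))))) (m * V) := by
    classical
    intro s
    induction s using Finset.induction_on with
    | empty =>
      intro i j h
      exact absurd (by simp [cf]) h
    | insert i s hi ih =>
      rw [Finset.sum_insert hi]
      apply VGe.add _ ih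
      rw [map_mul, map_mul, map_pow, map_pow]
      have e1 := (VGe.zero_left ht (ex ξ (a i))).mul ((h1.pow ht (i : ℕ)).mul (h2.pow ht (m - (i : ℕ))))
      refine e1.mono (le_of_eq ?_)
      have hi' : (i : ℕ) ≤ m := by have := i.2; omega
      rw [Nat.cast_sub hi']
      ring
  exact this _

/-- index set of monomials of weight `< lam` -/
noncomputable def LL (t lam : ℝ) : Finset (ℕ × ℕ) := by
  classical
  exact ((range ⌈lam⌉₊) ×ˢ (range ⌈lam / t⌉₊)).filter (fun p => (p.1 : ℝ) + t * p.2 < lam)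

theorem lt_of_mem_LL {t lam : ℝ} {p : ℕ × ℕ} (h : p ∈ LL t lam) :
    (p.1 : ℝ) + t * p.2 < lam := by
  classical
  simp only [LL, mem_filter] at h
  exact h.2

theorem card_LL_ge {t lam : ℝ} (ht : 0 < t) (hl : 0 ≤ lam) :
    lam ^ 2 ≤ 2 * t * ((LL t lam).card : ℝ) := by
  classical
  set K := ⌈lam / t⌉₊ with hK
  have hK1 : lam ≤ t * K := by
    have := Nat.le_ceil (lam / t)
    rw [← hK] at this
    rwa [div_le_iff₀ ht, mul_comm] at this
  have hK2 : t * K < lam + t := by
    have := Nat.ceil_lt_add_one (a := lam / t) (by positivity)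
    rw [← hK] at this
    have h := mul_lt_mul_of_pos_left this ht
    have e : t * (lam / t + 1) = lam + t := by field_simp
    linarith
  -- the count
  have hcount : ∑ j ∈ range K, (lam - t * j) ≤ ((LL t lam).card : ℝ) := by
    have hsub : (range K).sigma (fun j => range ⌈lam - t * j⌉₊) ⊆ 
        (range K).sigma (fun j => range ⌈lam - t * j⌉₊) := Finset.Subset.refl _
    have hinj : ((range K).sigma (fun j => range ⌈lam - t * (j : ℝ)⌉₊)).card ≤ (LL t lam).card := by
      apply Finset.card_le_card_of_injOn (fun x => (x.2, x.1))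
      · rintro ⟨j, i⟩ h
        simp only [Finset.coe_sigma, Set.mem_sigma_iff, Finset.mem_coe, mem_range] at h
        obtain ⟨hj, hi⟩ := h
        have hi' : (i : ℝ) < lam - t * j := Nat.lt_ceil.mp hi
        rw [Finset.mem_coe, LL]
        simp only [mem_filter, mem_product, mem_range]
        refine ⟨⟨?_, hj⟩, by linarith⟩
        rw [Nat.lt_ceil]
        have : 0 ≤ t * (j : ℝ) := by positivity
        linarith
      · rintro ⟨j, i⟩ _ ⟨j', i'⟩ _ h
        simp only [Prod.mk.injEq] at h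
        obtain ⟨rfl, rfl⟩ := h
        rfl
    rw [Finset.card_sigma] at hinj
    have h2 : ∑ j ∈ range K, (lam - t * j) ≤ ∑ j ∈ range K, ((range ⌈lam - t * (j : ℝ)⌉₊).card : ℝ) := by
      apply Finset.sum_le_sum
      intro j _
      rw [Finset.card_range]
      exact Nat.le_ceil _
    refine h2.trans ?_
    exact_mod_cast hinj
  have hsum : ∀ k : ℕ, 2 * ∑ j ∈ range k, (lam - t * j) = 2 * k * lam - t * (k * (k - 1)) := by
    intro k
    induction k with
    | zero => simp
    | succ k ih =>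
      rw [Finset.sum_range_succ, mul_add, ih]
      push_cast
      ring
  have h3 := hsum K
  have h4 : 2 * (K : ℝ) * lam - t * (K * (K - 1)) ≤ 2 * ((LL t lam).card : ℝ) := by
    rw [← h3]; linarith
  have h5 : lam ^ 2 ≤ t * (2 * (K : ℝ) * lam - t * (K * (K - 1))) := by
    have e0 : 0 ≤ t * K - lam := by linarith
    have e1 : t * K - lam < t := by linarith
    have e2 : (t * K - lam) ^ 2 ≤ t * (t * K) := by nlinarith
    nlinarith
  calc lam ^ 2 ≤ t * (2 * (K : ℝ) * lam - t * (K * (K - 1))) := h5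
    _ ≤ t * (2 * ((LL t lam).card : ℝ)) := by
        exact mul_le_mul_of_nonneg_left h4 ht.le
    _ = 2 * t * ((LL t lam).card : ℝ) := by ring

/-- Bezout inequality, equal values. -/
theorem bezout_eq {t : ℝ} (ht : 0 < t) (ξ : PowerSeries ℂ) {d1 d2 : ℕ}
    {g1 g2 : Polynomial (Polynomial ℂ)} (h1 : HasTD d1 g1) (h2 : HasTD d2 g2)
    (hrel : IsRelPrime g1 g2) {V : ℝ} (hV : 0 ≤ V)
    (hv1 : VGe t (ex ξ g1) V) (hv2 : VGe t (ex ξ g2) V) : V ^ 2 ≤ t * (d1 * d2) := by
  -- for all m ≥ 1:  (m V)^2 ≤ t d1 d2 m (m+1)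
  have key : ∀ m : ℕ, ((m : ℝ) * V) ^ 2 ≤ t * (d1 * d2) * (m * (m + 1)) := by
    intro m
    obtain ⟨W, hWfin, hWr, hWtop⟩ := exists_W h1 h2 hrel m
    have hcard : (LL t (m * V)).card ≤ Module.finrank ℂ W := by
      have hsurj : (W.map (TT ξ (LL t (m * V)))) = ⊤ := by
        rw [eq_top_iff]
        intro v _
        obtain ⟨a, rfl⟩ := TT_surjective ξ (LL t (m * V)) v
        have ha : a ∈ W ⊔ (JJ g1 g2 m).restrictScalars ℂ := by rw [hWtop]; trivial
        rw [Submodule.mem_sup] at ha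
        obtain ⟨w, hw, y, hy, rfl⟩ := ha
        rw [map_add]
        have : TT ξ (LL t (m * V)) y = 0 := by
          funext p
          have hy' := VGe_JJ ht.le ξ hv1 hv2 m hy
          by_contra hc
          have h3 := hy' p.1.1 p.1.2 hc
          have hp := lt_of_mem_LL p.2
          linarith
        rw [this, add_zero]
        exact ⟨w, hw, rfl⟩
      have e1 : Module.finrank ℂ (W.map (TT ξ (LL t (m * V)))) ≤ Module.finrank ℂ W :=
        Submodule.finrank_map_le _ _
      rw [hsurj, finrank_top, Module.finrank_fintype_fun_eq_card, Fintype.card_coe] at e1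
      exact e1
    have e2 := card_LL_ge ht (lam := m * V) (by positivity)
    have e3 : ((LL t (m * V)).card : ℝ) ≤ (Module.finrank ℂ W : ℝ) := by exact_mod_cast hcard
    have e4 : (2 * Module.finrank ℂ W : ℝ) ≤ d1 * d2 * (m * (m + 1)) := by exact_mod_cast hWr
    calc ((m : ℝ) * V) ^ 2 ≤ 2 * t * ((LL t (m * V)).card : ℝ) := e2
      _ ≤ 2 * t * (Module.finrank ℂ W : ℝ) := by
          apply mul_le_mul_of_nonneg_left e3; positivity
      _ = t * (2 * Module.finrank ℂ W : ℝ) := by ring
      _ ≤ t * (d1 * d2 * (m * (m + 1))) := mul_le_mul_of_nonneg_left e4 ht.le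
      _ = _ := by ring
  -- let m → ∞
  by_contra hc
  push Not at hc
  set D := t * ((d1 : ℝ) * d2) with hD
  have hD0 : 0 ≤ D := by positivity
  obtain ⟨m, hm⟩ := exists_nat_gt (D / (V ^ 2 - D))
  have hpos : 0 < V ^ 2 - D := by linarith
  rw [div_lt_iff₀ hpos] at hm
  have hm0 : 0 < (m : ℝ) := by
    by_contra h0
    have : (m : ℝ) = 0 := le_antisymm (not_lt.mp h0) (Nat.cast_nonneg m)
    rw [this, zero_mul] at hm
    linarith
  have := key m
  have e5 : (m : ℝ) * (m * (V ^ 2 - D)) ≤ m * D := by nlinarith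
  have e6 : (m : ℝ) * (V ^ 2 - D) ≤ D := le_of_mul_le_mul_left e5 hm0
  linarith

end Pool.Agent.QMVal
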