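import Mathlib

set_option autoImplicit false

/-!
Interpolation lemmas: linear independence of binomial coefficients at distinct integers and the
column-counting lemma for weighted triangles.
-/

namespace Pool.Agent.QMVal

open Finset

/-- The value of the descending Pochhammer polynomial at an integer. -/
theorem eval_descPochhammer_int (x : ℤ) (n : ℕ) :
    (descPochhammer ℂ n).eval (x : ℂ) = (n.factorial : ℂ) * ((Ring.choose x n : ℤ) : ℂ) := by
  have h1 : (descPochhammer ℤ n).eval x = (n.factorial : ℤ) * Ring.choose x n := by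
    have := Ring.descPochhammer_eq_factorial_smul_choose x n
    rw [← Polynomial.eval_eq_smeval] at this
    rw [this, nsmul_eq_mul]
  have h2 : (descPochhammer ℂ n) = (descPochhammer ℤ n).map (Int.castRingHom ℂ) := by
    rw [descPochhammer_map]
  rw [h2, Polynomial.eval_intCast_map, Int.cast_id, h1]
  simp

/-- Binomial coefficients `choose (v i) a`, `a < n`, separate `n` distinct integers `v i`. -/
theorem choose_indep {ι : Type*} [DecidableEq ι] (s : Finset ι) (v : ι → ℤ)
    (hv : Set.InjOn v s) (M : ι → ℂ)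
    (h : ∀ a < s.card, ∑ i ∈ s, M i * ((Ring.choose (v i) a : ℤ) : ℂ) = 0) :
    ∀ i ∈ s, M i = 0 := by
  have key : ∀ n : ℕ, n < s.card → ∀ P : Polynomial ℂ, P.natDegree ≤ n →
      ∑ i ∈ s, M i * P.eval (v i : ℂ) = 0 := by
    intro n
    induction n with
    | zero =>
      intro hn P hP
      have hP' := Polynomial.eq_C_of_natDegree_le_zero hP
      rw [hP']
      have h0 := h 0 hn
      simp only [Polynomial.eval_C]
      rw [← Finset.sum_mul]
      have : ∑ i ∈ s, M i = 0 := by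
        rw [← h0]
        refine Finset.sum_congr rfl fun i _ => ?_
        rw [Ring.choose_zero_right]
        simp
      rw [this, zero_mul]
    | succ n ih =>
      intro hn P hP
      have hn' : n < s.card := by omega
      set a : ℂ := P.coeff (n + 1) with ha
      set D : Polynomial ℂ := descPochhammer ℂ (n + 1) with hD
      have hDm : D.Monic := monic_descPochhammer ℂ (n + 1)
      have hDd : D.natDegree = n + 1 := descPochhammer_natDegree ℂ (n + 1)
      have hQ : (P - Polynomial.C a * D).natDegree ≤ n := by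
        rw [Polynomial.natDegree_le_iff_coeff_eq_zero]
        intro N hN
        rw [Polynomial.coeff_sub, Polynomial.coeff_C_mul]
        rcases Nat.lt_or_ge (n + 1) N with h1 | h1
        · rw [Polynomial.coeff_eq_zero_of_natDegree_lt (lt_of_le_of_lt hP h1),
            Polynomial.coeff_eq_zero_of_natDegree_lt (by rw [hDd]; exact h1)]
          simp
        · have h2 : N = n + 1 := by omega
          subst h2
          have h3 : D.coeff (n + 1) = 1 := by
            have := hDm.coeff_natDegree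
            rwa [hDd] at this
          rw [h3, mul_one, ha, sub_self]
      have hsum := ih hn' _ hQ
      have hD0 : ∑ i ∈ s, M i * D.eval (v i : ℂ) = 0 := by
        have h1 := h (n + 1) hn
        have h2 : ∑ i ∈ s, M i * D.eval (v i : ℂ) =
            ((n + 1).factorial : ℂ) * ∑ i ∈ s, M i * ((Ring.choose (v i) (n + 1) : ℤ) : ℂ) := by
          rw [Finset.mul_sum]
          refine Finset.sum_congr rfl fun i _ => ?_
          rw [hD, eval_descPochhammer_int]
          ring
        rw [h2, h1, mul_zero]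
      have e : ∀ i, P.eval (v i : ℂ) = (P - Polynomial.C a * D).eval (v i : ℂ) +
          a * D.eval (v i : ℂ) := by
        intro i
        simp
      calc ∑ i ∈ s, M i * P.eval (v i : ℂ)
          = ∑ i ∈ s, M i * (P - Polynomial.C a * D).eval (v i : ℂ) +
            a * ∑ i ∈ s, M i * D.eval (v i : ℂ) := by
            rw [Finset.mul_sum, ← Finset.sum_add_distrib]
            refine Finset.sum_congr rfl fun i _ => ?_
            rw [e i]; ring
        _ = 0 := by rw [hsum, hD0, mul_zero, add_zero]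
  intro i0 hi0
  have hpos : 0 < s.card := Finset.card_pos.mpr ⟨i0, hi0⟩
  set P : Polynomial ℂ := ∏ i ∈ s.erase i0, (Polynomial.X - Polynomial.C (v i : ℂ)) with hP
  have hPd : P.natDegree ≤ s.card - 1 := by
    rw [hP]
    refine (Polynomial.natDegree_prod_le _ _).trans ?_
    rw [← Finset.card_erase_of_mem hi0]
    refine (Finset.sum_le_card_nsmul _ _ 1 ?_).trans (by simp)
    intro i _
    exact Polynomial.natDegree_X_sub_C_le _
  have hs := key (s.card - 1) (by omega) P hPd
  rw [Finset.sum_eq_single i0] at hs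
  · rcases mul_eq_zero.mp hs with h1 | h1
    · exact h1
    · exfalso
      rw [hP, Polynomial.eval_prod, Finset.prod_eq_zero_iff] at h1
      obtain ⟨i, hi, h2⟩ := h1
      simp only [Polynomial.eval_sub, Polynomial.eval_X, Polynomial.eval_C] at h2
      have h3 : (v i0 : ℂ) = v i := by linear_combination h2
      have h4 : v i0 = v i := by exact_mod_cast h3
      have h5 := hv hi0 (Finset.mem_of_mem_erase hi) h4
      exact (Finset.ne_of_mem_erase hi) h5.symm
  · intro i hi hne
    rw [hP, Polynomial.eval_prod, Finset.prod_eq_zero (Finset.mem_erase.mpr ⟨hne, hi⟩)]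
    · simp
    · simp
  · intro h'
    exact absurd hi0 h'

/-- A finite set of integers in a real interval. -/
theorem card_sub_one_le {s : Finset ℤ} (hs : s.Nonempty) {lo hi : ℝ}
    (h : ∀ x ∈ s, lo ≤ (x : ℝ) ∧ (x : ℝ) ≤ hi) : (s.card : ℝ) - 1 ≤ hi - lo := by
  have h1 : s ⊆ Finset.Icc (s.min' hs) (s.max' hs) := by
    intro x hx
    rw [Finset.mem_Icc]
    exact ⟨Finset.min'_le _ _ hx, Finset.le_max' _ _ hx⟩
  have h2 := Finset.card_le_card h1
  rw [Int.card_Icc] at h2
  have h3 := (h _ (Finset.min'_mem s hs)).1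
  have h4 := (h _ (Finset.max'_mem s hs)).2
  have h5 : s.min' hs ≤ s.max' hs := Finset.min'_le _ _ (Finset.max'_mem s hs)
  have h6 : (s.card : ℤ) ≤ s.max' hs + 1 - s.min' hs := by omega
  have h7 : (s.card : ℝ) ≤ (s.max' hs : ℝ) + 1 - (s.min' hs : ℝ) := by exact_mod_cast h6
  linarith

/-- **Column counting.**  `L` is a finite set of exponents `(i,k)` and `h` a nonzero coefficient
function on it. If two points in the same column `i + m k = x` with second coordinates differing by
at least `b` force `x` into a real interval of length `B - t b`, then some of the conditions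
`a + t b ≤ B` is violated. -/
theorem column_counting (L : Finset (ℕ × ℕ)) (m : ℤ) (t B : ℝ)
    (hcol : ∀ b : ℕ, ∃ lo hi : ℝ, hi - lo ≤ B - t * b ∧
      ∀ p ∈ L, ∀ q ∈ L, (p.1 : ℤ) + m * p.2 = q.1 + m * q.2 → p.2 + b ≤ q.2 →
        lo ≤ ((((p.1 : ℤ) + m * p.2 : ℤ)) : ℝ) ∧ ((((p.1 : ℤ) + m * p.2 : ℤ)) : ℝ) ≤ hi)
    (h : ℕ × ℕ → ℂ) (hne : ∃ p ∈ L, h p ≠ 0) :
    ∃ a b : ℕ, (a : ℝ) + t * b ≤ B ∧
      ∑ p ∈ L, h p * (p.2.choose b : ℂ) *
        ((Ring.choose ((p.1 : ℤ) + m * ((p.2 : ℤ) - b)) a : ℤ) : ℂ) ≠ 0 := by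
  classical
  set X : ℕ × ℕ → ℤ := fun p => (p.1 : ℤ) + m * p.2 with hX
  set M : ℕ → ℤ → ℂ := fun b x => ∑ p ∈ L.filter (fun p => X p = x), h p * (p.2.choose b : ℂ) with hM
  -- columns
  have hcolinj : ∀ x : ℤ, Set.InjOn (fun p : ℕ × ℕ => (p.2 : ℤ))
      (L.filter (fun p => X p = x) : Finset (ℕ × ℕ)) := by
    intro x p hp q hq hpq
    rw [Finset.mem_coe, Finset.mem_filter] at hp hq
    simp only at hpq
    have h1 := hp.2.trans hq.2.symm
    simp only [hX] at h1
    rw [hpq] at h1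
    have h2 : (p.1 : ℤ) = q.1 := by linarith
    ext
    · exact_mod_cast h2
    · exact_mod_cast hpq
  have hcolzero : ∀ x : ℤ, (∀ a < (L.filter (fun p => X p = x)).card, M a x = 0) →
      ∀ p ∈ L.filter (fun p => X p = x), h p = 0 := by
    intro x hx
    apply choose_indep _ (fun p : ℕ × ℕ => (p.2 : ℤ)) (hcolinj x) h
    intro a ha
    rw [← hx a ha]
    refine Finset.sum_congr rfl fun p _ => ?_
    rw [Ring.choose_natCast]
    simp
  have hex : ∃ b : ℕ, ∃ x : ℤ, M b x ≠ 0 := by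
    obtain ⟨p, hp, hpne⟩ := hne
    by_contra hc
    push Not at hc
    exact hpne (hcolzero (X p) (fun a _ => hc a _) p (Finset.mem_filter.mpr ⟨hp, rfl⟩))
  set b := Nat.find hex with hb
  have hbspec : ∃ x : ℤ, M b x ≠ 0 := Nat.find_spec hex
  have hbmin : ∀ b' < b, ∀ x, M b' x = 0 := by
    intro b' hb' x
    by_contra hc
    exact Nat.find_min hex hb' ⟨x, hc⟩
  set XX : Finset ℤ := (L.image X).filter (fun x => M b x ≠ 0) with hXX
  have hXXmem : ∀ x, M b x ≠ 0 → x ∈ XX := by
    intro x hx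
    rw [hXX, Finset.mem_filter]
    refine ⟨?_, hx⟩
    obtain ⟨p, hp, _⟩ := Finset.exists_ne_zero_of_sum_ne_zero hx
    rw [Finset.mem_filter] at hp
    exact Finset.mem_image.mpr ⟨p, hp.1, hp.2⟩
  have hXXne : XX.Nonempty := by
    obtain ⟨x, hx⟩ := hbspec
    exact ⟨x, hXXmem x hx⟩
  obtain ⟨lo, hi, hlen, hlohi⟩ := hcol b
  have hXXbd : ∀ x ∈ XX, lo ≤ (x : ℝ) ∧ (x : ℝ) ≤ hi := by
    intro x hx
    rw [hXX, Finset.mem_filter] at hx
    have hMx := hx.2
    set Cx := L.filter (fun p => X p = x) with hCx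
    have hcard : b + 1 ≤ Cx.card := by
      by_contra hc
      push Not at hc
      have hz := hcolzero x (fun a ha => hbmin a (by
        have ha' : a < Cx.card := ha
        omega) x)
      apply hMx
      rw [hM]
      apply Finset.sum_eq_zero
      intro p hp
      rw [hz p hp, zero_mul]
    have hCne : Cx.Nonempty := Finset.card_pos.mp (by omega)
    obtain ⟨p, hp, hpmin⟩ := Cx.exists_min_image (fun p => p.2) hCne
    obtain ⟨q, hq, hqmax⟩ := Cx.exists_max_image (fun p => p.2) hCne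
    have hsub : Cx.image (fun p => p.2) ⊆ Finset.Icc p.2 q.2 := by
      intro k hk
      obtain ⟨r, hr, rfl⟩ := Finset.mem_image.mp hk
      rw [Finset.mem_Icc]
      exact ⟨hpmin r hr, hqmax r hr⟩
    have hci : (Cx.image (fun p => p.2)).card = Cx.card := by
      apply Finset.card_image_of_injOn
      intro r hr r' hr' hrr
      exact hcolinj x hr hr' (by simp only at hrr ⊢; exact_mod_cast hrr)
    have h1 := Finset.card_le_card hsub
    rw [hci, Nat.card_Icc] at h1
    have h2 : p.2 + b ≤ q.2 := by omega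
    rw [hCx, Finset.mem_filter] at hp hq
    have h3 := hlohi p hp.1 q hq.1 (hp.2.trans hq.2.symm) h2
    have h4 : (p.1 : ℤ) + m * p.2 = x := hp.2
    rw [h4] at h3
    exact h3
  have hcardXX := card_sub_one_le hXXne hXXbd
  -- the vanishing order
  have hvan : ∃ a < XX.card, ∑ x ∈ XX, M b x * ((Ring.choose (x - m * b) a : ℤ) : ℂ) ≠ 0 := by
    by_contra hc
    push Not at hc
    have hz := choose_indep XX (fun x => x - m * b)
      (fun x _ y _ hxy => by simp only at hxy; linarith) (M b) hc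
    obtain ⟨x, hx⟩ := hbspec
    exact hx (hz x (hXXmem x hx))
  obtain ⟨a, ha, hsum⟩ := hvan
  refine ⟨a, b, ?_, ?_⟩
  · have h1 : (a : ℝ) + 1 ≤ XX.card := by exact_mod_cast ha
    linarith
  · intro h0
    apply hsum
    rw [← h0]
    have h1 : ∑ x ∈ XX, M b x * ((Ring.choose (x - m * b) a : ℤ) : ℂ) =
        ∑ x ∈ L.image X, M b x * ((Ring.choose (x - m * b) a : ℤ) : ℂ) := by
      rw [hXX, Finset.sum_filter]
      refine Finset.sum_congr rfl fun x _ => ?_
      by_cases hx : M b x = 0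
      · rw [if_neg (by simpa using hx), hx, zero_mul]
      · rw [if_pos hx]
    rw [h1]
    rw [← Finset.sum_fiberwise_of_maps_to (s := L) (t := L.image X) (g := X)
      (fun p hp => Finset.mem_image_of_mem X hp)]
    refine Finset.sum_congr rfl fun x _ => ?_
    rw [hM]
    simp only
    rw [Finset.sum_mul]
    refine Finset.sum_congr rfl fun p hp => ?_
    rw [Finset.mem_filter] at hp
    have h2 : x - m * b = (p.1 : ℤ) + m * ((p.2 : ℤ) - b) := by
      rw [← hp.2]
      simp only [hX]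
      ring
    rw [h2]

/-- Columns of the triangle `i + t k ≤ B`, direction `m ≥ t`. -/
theorem triangle_pos (t B : ℝ) (ht : 0 < t) (m : ℕ) (hm : t ≤ m) (L : Finset (ℕ × ℕ))
    (hL : ∀ p ∈ L, (p.1 : ℝ) + t * p.2 ≤ B) (b : ℕ) :
    ∃ lo hi : ℝ, hi - lo ≤ (m : ℝ) / t * B - (m : ℝ) ^ 2 / t * b ∧
      ∀ p ∈ L, ∀ q ∈ L, (p.1 : ℤ) + (m : ℤ) * p.2 = q.1 + (m : ℤ) * q.2 → p.2 + b ≤ q.2 →
        lo ≤ ((((p.1 : ℤ) + (m : ℤ) * p.2 : ℤ)) : ℝ) ∧
          ((((p.1 : ℤ) + (m : ℤ) * p.2 : ℤ)) : ℝ) ≤ hi := by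
  have hm0 : 0 < (m : ℝ) := lt_of_lt_of_le ht hm
  refine ⟨(m : ℝ) * b, (m : ℝ) * (B - b * (m - t)) / t, ?_, ?_⟩
  · apply le_of_eq
    field_simp
    ring
  · intro p hp q hq hpq hb
    have h1 := hL p hp
    have e : (p.1 : ℝ) + (m : ℝ) * p.2 = q.1 + (m : ℝ) * q.2 := by exact_mod_cast hpq
    have hb' : (p.2 : ℝ) + b ≤ q.2 := by exact_mod_cast hb
    have hp1 : (0 : ℝ) ≤ p.1 := by positivity
    have hp2 : (0 : ℝ) ≤ p.2 := by positivity
    have hq1 : (0 : ℝ) ≤ q.1 := by positivity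
    push_cast
    constructor
    · rw [e]
      nlinarith
    · rw [le_div_iff₀ ht]
      -- X ≥ m (p.2 + b)
      have h3 : (m : ℝ) * (p.2 + b) ≤ (p.1 : ℝ) + m * p.2 := by rw [e]; nlinarith
      nlinarith [mul_le_mul_of_nonneg_left h1 hm0.le,
        mul_le_mul_of_nonneg_left h3 (sub_nonneg.mpr hm)]

/-- Columns of the triangle `i + t k ≤ B`, direction `-m ≤ 0`. -/
theorem triangle_neg (t B : ℝ) (ht : 0 < t) (m : ℕ) (L : Finset (ℕ × ℕ))
    (hL : ∀ p ∈ L, (p.1 : ℝ) + t * p.2 ≤ B) (b : ℕ) :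
    ∃ lo hi : ℝ, hi - lo ≤ (t + m) / t * B - (t + m) ^ 2 / t * b ∧
      ∀ p ∈ L, ∀ q ∈ L, (p.1 : ℤ) + (-(m : ℤ)) * p.2 = q.1 + (-(m : ℤ)) * q.2 → p.2 + b ≤ q.2 →
        lo ≤ ((((p.1 : ℤ) + (-(m : ℤ)) * p.2 : ℤ)) : ℝ) ∧
          ((((p.1 : ℤ) + (-(m : ℤ)) * p.2 : ℤ)) : ℝ) ≤ hi := by
  refine ⟨(-(m : ℝ) * B + m * b * (t + m)) / t, B - (t + m) * b, ?_, ?_⟩
  · apply le_of_eq
    field_simp
    ring
  · intro p hp q hq hpq hb
    have h1 := hL q hq
    have e : (p.1 : ℝ) - (m : ℝ) * p.2 = q.1 - (m : ℝ) * q.2 := by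
      have : (p.1 : ℤ) - (m : ℤ) * p.2 = q.1 - (m : ℤ) * q.2 := by linarith
      exact_mod_cast this
    have hb' : (p.2 : ℝ) + b ≤ q.2 := by exact_mod_cast hb
    have hp1 : (0 : ℝ) ≤ p.1 := by positivity
    have hp2 : (0 : ℝ) ≤ p.2 := by positivity
    have hq1 : (0 : ℝ) ≤ q.1 := by positivity
    have hm0 : (0 : ℝ) ≤ m := by positivity
    push_cast
    constructor
    · rw [div_le_iff₀ ht]
      -- X ≥ -m p.2 ≥ -m (q.2 - b); q.1 + t q.2 ≤ B
      have h3 : -(m : ℝ) * (q.2 - b) ≤ (p.1 : ℝ) - m * p.2 := by nlinarith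
      have h4 : (q.1 : ℝ) = (p.1 : ℝ) - m * p.2 + m * q.2 := by linarith
      rw [h4] at h1
      nlinarith [mul_le_mul_of_nonneg_left h1 hm0,
        mul_le_mul_of_nonneg_left h3 (add_nonneg ht.le hm0)]
    · have h4 : (q.1 : ℝ) = (p.1 : ℝ) - m * p.2 + m * q.2 := by linarith
      rw [h4] at h1
      nlinarith

end Pool.Agent.QMVal
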