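import Mathlib

set_option autoImplicit false

/-!
A degeneration lemma in linear algebra: weights `exp (-r w)` with `r → ∞`.
-/

namespace Pool.Agent.QMVal

open Finset

theorem exists_norm_bound {E F : Type*} [NormedAddCommGroup E] [NormedSpace ℂ E]
    [FiniteDimensional ℂ E] [NormedAddCommGroup F] [NormedSpace ℂ F] (f : E →ₗ[ℂ] F) :
    ∃ K : ℝ, 0 < K ∧ ∀ x, ‖f x‖ ≤ K * ‖x‖ := by
  set g := LinearMap.toContinuousLinearMap f with hg
  refine ⟨‖g‖ + 1, by positivity, fun x => ?_⟩
  have h1 : ‖g x‖ ≤ ‖g‖ * ‖x‖ := g.le_opNorm x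
  have h2 : g x = f x := by simp [hg]
  rw [h2] at h1
  have := norm_nonneg x
  nlinarith

/-- **Degeneration lemma.** Suppose the coordinates of weight `≤ B` determine the vectors of `V`,
and the system `M` is injective on vectors supported in weight `≤ B`. Then, for large `r`, the
system obtained by scaling the coordinates by `exp (-r w)` is injective on `V`. -/
theorem degen_inj {V : Type*} [AddCommGroup V] [Module ℂ V] {T J : Type*} [Fintype T] [Fintype J]
    [DecidableEq T]
    (w : T → ℝ) (B : ℝ) (c : V →ₗ[ℂ] (T → ℂ))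
    (hc : ∀ v, (∀ τ, w τ ≤ B → c v τ = 0) → v = 0) (M : J → T → ℂ)
    (hM : ∀ x : T → ℂ, (∀ τ, ¬ (w τ ≤ B) → x τ = 0) → (∀ j, ∑ τ, M j τ * x τ = 0) → x = 0) :
    ∃ r : ℝ, ∀ v, (∀ j, ∑ τ, M j τ * ((Real.exp (-(r * w τ)) : ℂ) * c v τ) = 0) → v = 0 := by
  classical
  -- projection to low / high coordinates
  let PL : (T → ℂ) →ₗ[ℂ] (T → ℂ) :=
    { toFun := fun x τ => if w τ ≤ B then x τ else 0
      map_add' := by
        intro x y
        funext τ
        simp only [Pi.add_apply]
        split_ifs <;> simp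
      map_smul' := by
        intro a x
        funext τ
        simp only [Pi.smul_apply, smul_eq_mul, RingHom.id_apply]
        split_ifs <;> simp }
  let PH : (T → ℂ) →ₗ[ℂ] (T → ℂ) :=
    { toFun := fun x τ => if w τ ≤ B then 0 else x τ
      map_add' := by
        intro x y
        funext τ
        simp only [Pi.add_apply]
        split_ifs <;> simp
      map_smul' := by
        intro a x
        funext τ
        simp only [Pi.smul_apply, smul_eq_mul, RingHom.id_apply]
        split_ifs <;> simp }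
  let MM : (T → ℂ) →ₗ[ℂ] (J → ℂ) :=
    { toFun := fun x j => ∑ τ, M j τ * x τ
      map_add' := by
        intro x y
        funext j
        simp only [Pi.add_apply, mul_add, Finset.sum_add_distrib]
      map_smul' := by
        intro a x
        funext j
        simp only [Pi.smul_apply, smul_eq_mul, RingHom.id_apply, Finset.mul_sum]
        refine Finset.sum_congr rfl fun τ _ => ?_
        ring }
  have hker1 : LinearMap.ker (PL ∘ₗ c) = ⊥ := by
    rw [LinearMap.ker_eq_bot']
    intro v hv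
    apply hc
    intro τ hτ
    have := congrFun hv τ
    simpa [PL, hτ] using this
  obtain ⟨D, hD⟩ := LinearMap.exists_leftInverse_of_injective _ hker1
  have hker2 : LinearMap.ker (MM.prod PH) = ⊥ := by
    rw [LinearMap.ker_eq_bot']
    intro x hx
    have hx1 : MM x = 0 := congrArg Prod.fst hx
    have hx2 : PH x = 0 := congrArg Prod.snd hx
    apply hM x
    · intro τ hτ
      have := congrFun hx2 τ
      simpa [PH, hτ] using this
    · intro j
      exact congrFun hx1 j
  obtain ⟨N, hN⟩ := LinearMap.exists_leftInverse_of_injective _ hker2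
  obtain ⟨K1, hK1, hK1'⟩ := exists_norm_bound (c ∘ₗ D)
  obtain ⟨K2, hK2, hK2'⟩ := exists_norm_bound (N ∘ₗ LinearMap.inr ℂ (J → ℂ) (T → ℂ))
  -- gap
  obtain ⟨ε, hε, hgap⟩ : ∃ ε : ℝ, 0 < ε ∧ ∀ τ, ¬ (w τ ≤ B) → B + ε ≤ w τ := by
    by_cases hne : (Finset.univ.filter (fun τ => ¬ (w τ ≤ B))).Nonempty
    · obtain ⟨σ, hσ, hmin⟩ := Finset.exists_min_image _ w hne
      rw [Finset.mem_filter] at hσ
      refine ⟨w σ - B, by linarith [hσ.2], fun τ hτ => ?_⟩
      have := hmin τ (Finset.mem_filter.mpr ⟨Finset.mem_univ _, hτ⟩)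
      linarith
    · refine ⟨1, one_pos, fun τ hτ => ?_⟩
      exact absurd ⟨τ, Finset.mem_filter.mpr ⟨Finset.mem_univ _, hτ⟩⟩ hne
  obtain ⟨r, hr0, hr⟩ : ∃ r : ℝ, 0 ≤ r ∧ K2 * K1 * Real.exp (-(r * ε)) < 1 := by
    have hK : 0 < K2 * K1 := mul_pos hK2 hK1
    refine ⟨(K2 * K1) / ε, by positivity, ?_⟩
    have e1 : K2 * K1 / ε * ε = K2 * K1 := by field_simp
    rw [e1]
    have h1 : K2 * K1 < Real.exp (K2 * K1) := by
      have := Real.add_one_le_exp (K2 * K1)
      linarith
    rw [Real.exp_neg]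
    rw [← div_eq_mul_inv, div_lt_one (Real.exp_pos _)]
    exact h1
  refine ⟨r, fun v hv => ?_⟩
  set x : T → ℂ := fun τ => (Real.exp (-(r * w τ)) : ℂ) * c v τ with hx
  have hMx : MM x = 0 := by
    funext j
    exact hv j
  have hxN : x = N (0, PH x) := by
    have h1 := congrArg (fun g => g x) hN
    simp only [LinearMap.comp_apply, LinearMap.id_apply] at h1
    have h2 : (MM.prod PH) x = (0, PH x) := Prod.ext hMx rfl
    rw [h2] at h1
    exact h1.symm
  have hDv : D (PL (c v)) = v := by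
    have h1 := congrArg (fun g => g v) hD
    simpa using h1
  have hPLle : ‖PL (c v)‖ ≤ Real.exp (r * B) * ‖x‖ := by
    rw [pi_norm_le_iff_of_nonneg (by positivity)]
    intro τ
    by_cases hτ : w τ ≤ B
    · have e1 : PL (c v) τ = c v τ := by simp [PL, hτ]
      rw [e1]
      have e2 : c v τ = (Real.exp (r * w τ) : ℂ) * x τ := by
        simp only [hx]
        rw [← mul_assoc, ← Complex.ofReal_mul, ← Real.exp_add]
        simp
      rw [e2, norm_mul, Complex.norm_real, Real.norm_eq_abs, abs_of_pos (Real.exp_pos _)]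
      apply mul_le_mul _ (norm_le_pi_norm x τ) (norm_nonneg _) (Real.exp_pos _).le
      exact Real.exp_le_exp.mpr (mul_le_mul_of_nonneg_left hτ hr0)
    · have e1 : PL (c v) τ = 0 := by simp [PL, hτ]
      rw [e1, norm_zero]
      positivity
  have hPHle : ‖PH x‖ ≤ K1 * Real.exp (-(r * ε)) * ‖x‖ := by
    rw [pi_norm_le_iff_of_nonneg (by positivity)]
    intro τ
    by_cases hτ : w τ ≤ B
    · have e1 : PH x τ = 0 := by simp [PH, hτ]
      rw [e1, norm_zero]
      positivity
    · have e1 : PH x τ = (Real.exp (-(r * w τ)) : ℂ) * c v τ := by simp [PH, hτ, hx]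
      rw [e1, norm_mul, Complex.norm_real, Real.norm_eq_abs, abs_of_pos (Real.exp_pos _)]
      have h1 : ‖c v τ‖ ≤ K1 * (Real.exp (r * B) * ‖x‖) := by
        have h2 : c v = (c ∘ₗ D) (PL (c v)) := by
          rw [LinearMap.comp_apply, hDv]
        calc ‖c v τ‖ ≤ ‖c v‖ := norm_le_pi_norm _ _
          _ = ‖(c ∘ₗ D) (PL (c v))‖ := by rw [← h2]
          _ ≤ K1 * ‖PL (c v)‖ := hK1' _
          _ ≤ K1 * (Real.exp (r * B) * ‖x‖) := mul_le_mul_of_nonneg_left hPLle hK1.le
      have h3 : Real.exp (-(r * w τ)) ≤ Real.exp (-(r * (B + ε))) := by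
        apply Real.exp_le_exp.mpr
        have := mul_le_mul_of_nonneg_left (hgap τ hτ) hr0
        linarith
      calc Real.exp (-(r * w τ)) * ‖c v τ‖
          ≤ Real.exp (-(r * (B + ε))) * (K1 * (Real.exp (r * B) * ‖x‖)) :=
            mul_le_mul h3 h1 (norm_nonneg _) (Real.exp_pos _).le
        _ = K1 * (Real.exp (-(r * (B + ε))) * Real.exp (r * B)) * ‖x‖ := by ring
        _ = K1 * Real.exp (-(r * ε)) * ‖x‖ := by
            rw [← Real.exp_add]
            congr 3
            ring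
  have hxle : ‖x‖ ≤ (K2 * K1 * Real.exp (-(r * ε))) * ‖x‖ := by
    calc ‖x‖ = ‖N (0, PH x)‖ := by rw [← hxN]
      _ = ‖(N ∘ₗ LinearMap.inr ℂ (J → ℂ) (T → ℂ)) (PH x)‖ := rfl
      _ ≤ K2 * ‖PH x‖ := hK2' _
      _ ≤ K2 * (K1 * Real.exp (-(r * ε)) * ‖x‖) := mul_le_mul_of_nonneg_left hPHle hK2.le
      _ = _ := by ring
  have hx0 : ‖x‖ = 0 := by
    by_contra hne
    have hpos : 0 < ‖x‖ := lt_of_le_of_ne (norm_nonneg _) (Ne.symm hne)
    have : (K2 * K1 * Real.exp (-(r * ε))) * ‖x‖ < 1 * ‖x‖ := mul_lt_mul_of_pos_right hr hpos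
    linarith
  have hx0' : x = 0 := norm_eq_zero.mp hx0
  apply hc
  intro τ _
  have h1 := congrFun hx0' τ
  simp only [hx, Pi.zero_apply] at h1
  rcases mul_eq_zero.mp h1 with h2 | h2
  · exfalso
    have : Real.exp (-(r * w τ)) ≠ 0 := (Real.exp_pos _).ne'
    exact this (by exact_mod_cast h2)
  · exact h2

end Pool.Agent.QMVal
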