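import Mathlib
import Pool.Agent.Lib.QMBezout

set_option autoImplicit false

namespace Pool.Agent.QMVal

open Finset

theorem HasTD.one : HasTD 0 (1 : Polynomial (Polynomial ℂ)) := by
  constructor
  · intro i j h
    simp only [pc] at h
    by_cases hj : j = 0
    · subst hj
      by_cases hi : i = 0
      · omega
      · exfalso; apply h
        rw [Polynomial.coeff_one_zero, Polynomial.coeff_one, if_neg (by omega)]
    · exfalso; apply h
      rw [Polynomial.coeff_one, if_neg (by omega), Polynomial.coeff_zero]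
  · exact ⟨0, 0, by simp [pc], rfl⟩

theorem HasTD.pow {d : ℕ} {g : Polynomial (Polynomial ℂ)} (h : HasTD d g) (k : ℕ) :
    HasTD (k * d) (g ^ k) := by
  induction k with
  | zero => simpa using HasTD.one
  | succ k ih =>
    rw [pow_succ, Nat.succ_mul]
    exact ih.mul h

/-- Bezout inequality for the monomial valuation. -/
theorem bezout {t : ℝ} (ht : 0 < t) (ξ : PowerSeries ℂ) {d1 d2 : ℕ}
    {g1 g2 : Polynomial (Polynomial ℂ)} (h1 : HasTD d1 g1) (h2 : HasTD d2 g2)
    (hrel : IsRelPrime g1 g2) {a b : ℝ} (ha : 0 ≤ a) (hb : 0 ≤ b)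
    (hv1 : VGe t (ex ξ g1) a) (hv2 : VGe t (ex ξ g2) b) : a * b ≤ t * (d1 * d2) := by
  rcases hb.eq_or_lt with hb0 | hb
  · rw [← hb0, mul_zero]; positivity
  rcases ha.eq_or_lt with ha0 | ha
  · rw [← ha0, zero_mul]; positivity
  have key : ∀ k : ℕ, b / a < k → (k : ℝ) * (a * b) ≤ k * (t * (d1 * d2)) + b ^ 2 := by
    intro k hk
    set l := ⌊(k : ℝ) * a / b⌋₊ with hl
    have hk0 : 0 < (k : ℝ) := lt_trans (by positivity) hk
    have hl1 : (l : ℝ) ≤ k * a / b := Nat.floor_le (by positivity)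
    have hl2 : (k : ℝ) * a / b < l + 1 := Nat.lt_floor_add_one _
    have hl1' : (l : ℝ) * b ≤ k * a := by rwa [le_div_iff₀ hb] at hl1
    have hl2' : (k : ℝ) * a < (l + 1) * b := by rwa [div_lt_iff₀ hb] at hl2
    have hlpos : 0 < (l : ℝ) := by
      have : 1 < (k : ℝ) * a / b := by
        rw [lt_div_iff₀ hb, one_mul]
        rwa [div_lt_iff₀ ha] at hk
      have h3 : 1 ≤ l := by
        rw [hl]
        exact Nat.le_floor (by simpa using this.le)
      exact_mod_cast h3
    have e1 : VGe t (ex ξ (g1 ^ k)) (l * b) := by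
      rw [map_pow]
      exact (hv1.pow ht.le k).mono hl1'
    have e2 : VGe t (ex ξ (g2 ^ l)) (l * b) := by
      rw [map_pow]
      exact hv2.pow ht.le l
    have e3 := bezout_eq ht ξ (h1.pow k) (h2.pow l) (hrel.pow) (V := l * b) (by positivity) e1 e2
    push_cast at e3
    have e4 : (l : ℝ) * (l * b ^ 2) ≤ l * (t * (k * (d1 * d2))) := by nlinarith
    have e5 := le_of_mul_le_mul_left e4 hlpos
    nlinarith
  by_contra hc
  push Not at hc
  set δ := a * b - t * (d1 * d2) with hδ
  have hδ0 : 0 < δ := by linarith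
  obtain ⟨k, hk⟩ := exists_nat_gt (max (b / a) (b ^ 2 / δ))
  have hk1 : b / a < k := lt_of_le_of_lt (le_max_left _ _) hk
  have hk2 : b ^ 2 / δ < k := lt_of_le_of_lt (le_max_right _ _) hk
  rw [div_lt_iff₀ hδ0] at hk2
  have := key k hk1
  nlinarith

theorem ex_injective (ξ : PowerSeries ℂ) : Function.Injective (ex ξ) := by
  have h : ∀ G, ex ξ G = Polynomial.taylor ξ (G.map (Polynomial.coeToPowerSeries.ringHom (R := ℂ))) := by
    intro G
    rw [Polynomial.taylor_apply, Polynomial.comp, Polynomial.eval₂_map]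
    simp only [ex, Polynomial.coe_eval₂RingHom]
    rw [add_comm]
  intro F G hFG
  rw [h, h] at hFG
  have h1 := Polynomial.taylor_injective ξ hFG
  apply Polynomial.map_injective _ _ h1
  intro p q hpq
  exact Polynomial.coe_injective ℂ hpq

/-- A prime curve `C` of degree `e` and value exactly `e √t` forces minimality. -/
theorem minimal_of_curve {t : ℝ} (ht : 0 < t) (ξ : PowerSeries ℂ) {e : ℕ}
    {C : Polynomial (Polynomial ℂ)} (hC : Prime C) (he : 0 < e) (hCe : HasTD e C)
    (hle : VLe t (ex ξ C) (e * Real.sqrt t)) (hge : VGe t (ex ξ C) (e * Real.sqrt t)) :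
    ∀ (n : ℕ) (G : Polynomial (Polynomial ℂ)), G ≠ 0 → TD n G →
      VLe t (ex ξ G) (n * Real.sqrt t) := by
  intro n
  induction n using Nat.strong_induction_on with
  | _ n ih =>
    intro G hG hTD
    by_cases hdvd : C ∣ G
    · obtain ⟨H, rfl⟩ := hdvd
      have hH : H ≠ 0 := right_ne_zero_of_mul hG
      obtain ⟨k, hk⟩ := exists_hasTD hH
      have h1 := (hCe.mul hk).le hTD
      have h2 := ih (n - e) (by omega) H hH (hk.1.mono (by omega))
      rw [map_mul]
      refine (hle.mul ht h2).mono (le_of_eq ?_)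
      rw [Nat.cast_sub (by omega)]
      ring
    · by_contra hc
      have hex : ex ξ G ≠ 0 := by
        intro h0
        exact hG (ex_injective ξ (by rw [h0, map_zero]))
      obtain ⟨b, hb, hVb⟩ := exists_gt_of_not_VLe ht hex hc
      obtain ⟨k, hk⟩ := exists_hasTD hG
      have hkn := hk.le hTD
      have hrel : IsRelPrime C G := (hC.irreducible.isRelPrime_iff_not_dvd).mpr hdvd
      have hs : 0 < Real.sqrt t := Real.sqrt_pos.mpr ht
      have hs2 : Real.sqrt t * Real.sqrt t = t := Real.mul_self_sqrt ht.le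
      have hb0 : 0 ≤ b := le_trans (by positivity) hb.le
      have h3 := bezout ht ξ hCe hk hrel (a := e * Real.sqrt t) (b := b) (by positivity) hb0 hge hVb
      have he' : 0 < (e : ℝ) := by exact_mod_cast he
      have hkn' : (k : ℝ) ≤ n := by exact_mod_cast hkn
      have h4 : (e : ℝ) * Real.sqrt t * b ≤ (e * Real.sqrt t) * (Real.sqrt t * k) := by
        calc (e : ℝ) * Real.sqrt t * b ≤ t * (e * k) := h3
          _ = (Real.sqrt t * Real.sqrt t) * (e * k) := by rw [hs2]
          _ = (e * Real.sqrt t) * (Real.sqrt t * k) := by ring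
      have h5 : b ≤ Real.sqrt t * k := le_of_mul_le_mul_left h4 (by positivity)
      have h6 : Real.sqrt t * k ≤ Real.sqrt t * n := mul_le_mul_of_nonneg_left hkn' hs.le
      linarith


/-! ### Forms in three variables -/

/-- The frozen expansion of a form along `y = x * Σ c_k x^k`. -/
noncomputable def fex (c : ℕ → ℂ) : MvPolynomial (Fin 3) ℂ →ₐ[ℂ] Polynomial (PowerSeries ℂ) :=
  MvPolynomial.aeval
    (![Polynomial.C PowerSeries.X,
       Polynomial.C (PowerSeries.X * PowerSeries.mk c) + Polynomial.X,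
       1] : Fin 3 → Polynomial (PowerSeries ℂ))

/-- dehomogenisation -/
noncomputable def deh : MvPolynomial (Fin 3) ℂ →ₐ[ℂ] Polynomial (Polynomial ℂ) :=
  MvPolynomial.aeval
    (![Polynomial.C Polynomial.X, Polynomial.X, 1] : Fin 3 → Polynomial (Polynomial ℂ))

theorem fex_eq (c : ℕ → ℂ) (f : MvPolynomial (Fin 3) ℂ) :
    fex c f = ex (PowerSeries.X * PowerSeries.mk c) (deh f) := by
  have h : (fex c : MvPolynomial (Fin 3) ℂ →+* Polynomial (PowerSeries ℂ)) =
      (ex (PowerSeries.X * PowerSeries.mk c)).comp (deh : MvPolynomial (Fin 3) ℂ →+* _) := by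
    apply MvPolynomial.ringHom_ext
    · intro r
      simp only [RingHom.coe_coe, RingHom.comp_apply, fex, deh, MvPolynomial.algHom_C]
      rw [Polynomial.algebraMap_apply, Polynomial.algebraMap_apply, ex_C]
      rw [Polynomial.algebraMap_apply, Algebra.algebraMap_self, RingHom.id_apply, Polynomial.coe_C]
      rfl
    · intro i
      fin_cases i
      · simp [fex, deh, ex_C]
      · simp [fex, deh, ex_X]
      · simp [fex, deh]
  have := congrArg (fun g => g f) h
  simpa using this

theorem deh_monomial (m : Fin 3 →₀ ℕ) (r : ℂ) :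
    deh (MvPolynomial.monomial m r) =
      Polynomial.monomial (m 1) (Polynomial.monomial (m 0) r) := by
  unfold deh
  rw [MvPolynomial.aeval_monomial, Finsupp.prod_fintype _ _ (by intro i; simp), Fin.prod_univ_three]
  simp only [Matrix.cons_val_zero, Matrix.cons_val_one, Matrix.cons_val_two, Matrix.head_cons,
    Matrix.tail_cons, one_pow, mul_one]
  rw [Polynomial.algebraMap_apply, Polynomial.algebraMap_apply, Algebra.algebraMap_self,
    RingHom.id_apply, ← map_pow, ← mul_assoc, ← map_mul]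
  rw [← Polynomial.C_mul_X_pow_eq_monomial, ← Polynomial.C_mul_X_pow_eq_monomial]

theorem pc_deh_monomial (m : Fin 3 →₀ ℕ) (r : ℂ) (i j : ℕ) :
    pc (deh (MvPolynomial.monomial m r)) i j = if m 0 = i ∧ m 1 = j then r else 0 := by
  rw [deh_monomial, pc, Polynomial.coeff_monomial]
  by_cases h1 : m 1 = j
  · rw [if_pos h1, Polynomial.coeff_monomial]
    by_cases h0 : m 0 = i
    · rw [if_pos h0, if_pos ⟨h0, h1⟩]
    · rw [if_neg h0, if_neg (fun h => h0 h.1)]
  · rw [if_neg h1, if_neg (fun h => h1 h.2)]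
    simp

theorem pc_add (F G : Polynomial (Polynomial ℂ)) (i j : ℕ) : pc (F + G) i j = pc F i j + pc G i j := by
  simp [pc]

theorem pc_sum {ι : Type*} (s : Finset ι) (F : ι → Polynomial (Polynomial ℂ)) (i j : ℕ) :
    pc (∑ a ∈ s, F a) i j = ∑ a ∈ s, pc (F a) i j := by
  simp [pc, Polynomial.finsetSum_coeff]

theorem pc_deh (f : MvPolynomial (Fin 3) ℂ) (i j : ℕ) :
    pc (deh f) i j = ∑ m ∈ f.support, if m 0 = i ∧ m 1 = j then f.coeff m else 0 := by
  conv_lhs => rw [f.as_sum]
  rw [map_sum, pc_sum]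
  refine Finset.sum_congr rfl fun m _ => ?_
  rw [pc_deh_monomial]

theorem deg_of_mem {d : ℕ} {f : MvPolynomial (Fin 3) ℂ} (hf : f.IsHomogeneous d)
    {m : Fin 3 →₀ ℕ} (hm : m ∈ f.support) : m 0 + m 1 + m 2 = d := by
  have h := hf (MvPolynomial.mem_support_iff.mp hm)
  rw [Finsupp.weight_apply, Finsupp.sum_fintype _ _ (by intro i; simp), Fin.sum_univ_three] at h
  simpa using h

theorem deh_TD {d : ℕ} {f : MvPolynomial (Fin 3) ℂ} (hf : f.IsHomogeneous d) : TD d (deh f) := by
  intro i j h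
  rw [pc_deh] at h
  obtain ⟨m, hm, h⟩ := Finset.exists_ne_zero_of_sum_ne_zero h
  have h1 : m 0 = i ∧ m 1 = j := by
    by_contra hc
    rw [if_neg hc] at h
    exact h rfl
  have := deg_of_mem hf hm
  omega

theorem deh_ne_zero {d : ℕ} {f : MvPolynomial (Fin 3) ℂ} (hf : f.IsHomogeneous d) (h0 : f ≠ 0) :
    deh f ≠ 0 := by
  intro hd
  obtain ⟨m, hm⟩ := MvPolynomial.support_nonempty.mpr h0
  have h := pc_deh f (m 0) (m 1)
  rw [hd] at h
  rw [Finset.sum_eq_single m] at h
  · rw [if_pos ⟨rfl, rfl⟩] at h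
    exact (MvPolynomial.mem_support_iff.mp hm) (by rw [← h]; simp [pc])
  · intro m' hm' hne
    rw [if_neg]
    rintro ⟨e0, e1⟩
    apply hne
    have h2 := deg_of_mem hf hm
    have h3 := deg_of_mem hf hm'
    ext i
    fin_cases i
    · exact e0
    · exact e1
    · show m' 2 = m 2
      omega
  · intro h'
    exact absurd hm h'

end Pool.Agent.QMVal
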