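import Mathlib
import Pool.Agent.Lib.QMEngine

set_option autoImplicit false

/-!
Semicontinuity: a bound that holds for one germ holds for all germs outside countably many
hypersurfaces in the space of jets.
-/

namespace Pool.Agent.QMVal

open Finset

/-- generic expansion, with indeterminate jet coefficients -/
noncomputable def gex : MvPolynomial (Fin 3) ℂ →ₐ[ℂ] Polynomial (PowerSeries (MvPolynomial ℕ ℂ)) :=
  MvPolynomial.aeval
    (![Polynomial.C PowerSeries.X,
       Polynomial.C (PowerSeries.X * PowerSeries.mk (fun k => MvPolynomial.X k)) + Polynomial.X,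
       1] : Fin 3 → Polynomial (PowerSeries (MvPolynomial ℕ ℂ)))

theorem gex_map (c : ℕ → ℂ) (f : MvPolynomial (Fin 3) ℂ) :
    (gex f).map (PowerSeries.map (MvPolynomial.eval c)) = fex c f := by
  have h : (Polynomial.mapRingHom (PowerSeries.map (MvPolynomial.eval c))).comp
      (gex : MvPolynomial (Fin 3) ℂ →+* _) = (fex c : MvPolynomial (Fin 3) ℂ →+* _) := by
    apply MvPolynomial.ringHom_ext
    · intro r
      simp only [RingHom.coe_coe, RingHom.comp_apply, fex, gex, MvPolynomial.algHom_C]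
      rw [Polynomial.algebraMap_apply, Polynomial.algebraMap_apply]
      rw [Polynomial.coe_mapRingHom, Polynomial.map_C]
      congr 1
      ext n
      rw [PowerSeries.coeff_map]
      rw [PowerSeries.algebraMap_apply, PowerSeries.algebraMap_apply, PowerSeries.coeff_C,
        PowerSeries.coeff_C]
      split_ifs
      · simp
      · simp
    · intro i
      fin_cases i
      · simp [fex, gex]
      · have : PowerSeries.map (MvPolynomial.eval c)
            (PowerSeries.mk (fun k => (MvPolynomial.X k : MvPolynomial ℕ ℂ))) = PowerSeries.mk c := by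
          ext n
          simp
        simp [fex, gex, this]
      · simp [fex, gex]
  have := congrArg (fun g => g f) h
  simpa using this

theorem fex_coeff_sum (c : ℕ → ℂ) {ι : Type*} (s : Finset ι) (v : ι → ℂ) (m : ι → (Fin 3 →₀ ℕ))
    (i j : ℕ) :
    PowerSeries.coeff i ((fex c (∑ a ∈ s, MvPolynomial.monomial (m a) (v a))).coeff j) =
      ∑ a ∈ s, PowerSeries.coeff i ((fex c (MvPolynomial.monomial (m a) 1)).coeff j) * v a := by
  rw [map_sum, Polynomial.finsetSum_coeff, map_sum]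
  refine Finset.sum_congr rfl fun a _ => ?_
  have : MvPolynomial.monomial (m a) (v a) = v a • MvPolynomial.monomial (m a) (1 : ℂ) := by
    rw [MvPolynomial.smul_monomial, smul_eq_mul, mul_one]
  rw [this, map_smul, Polynomial.coeff_smul, PowerSeries.coeff_smul, smul_eq_mul, mul_comm]

/-- Semicontinuity in a fixed degree. -/
theorem semicont_fixed {t : ℝ} (ht : 0 < t) (d : ℕ) (B : ℝ) (c0 : ℕ → ℂ)
    (h : ∀ f : MvPolynomial (Fin 3) ℂ, f.IsHomogeneous d → f ≠ 0 →
      ∃ i j : ℕ, PowerSeries.coeff i ((fex c0 f).coeff j) ≠ 0 ∧ (i : ℝ) + t * (j : ℝ) ≤ B) :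
    ∃ S : MvPolynomial ℕ ℂ, S ≠ 0 ∧
      ∀ c : ℕ → ℂ, MvPolynomial.eval c S ≠ 0 →
        ∀ f : MvPolynomial (Fin 3) ℂ, f.IsHomogeneous d → f ≠ 0 →
          ∃ i j : ℕ, PowerSeries.coeff i ((fex c f).coeff j) ≠ 0 ∧
            (i : ℝ) + t * (j : ℝ) ≤ B := by
  classical
  set M : Finset (Fin 3 →₀ ℕ) := (Finset.univ : Finset (Fin 3)).finsuppAntidiag d with hM
  have hMmem : ∀ m : Fin 3 →₀ ℕ, m ∈ M ↔ m 0 + m 1 + m 2 = d := by
    intro m
    rw [hM, Finset.mem_finsuppAntidiag, Fin.sum_univ_three]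
    constructor
    · exact fun h => h.1
    · exact fun h => ⟨h, Finset.subset_univ _⟩
  set K : Finset (ℕ × ℕ) := ((range (⌊B⌋₊ + 1)) ×ˢ (range (⌊B / t⌋₊ + 1))).filter
    (fun p => (p.1 : ℝ) + t * p.2 ≤ B) with hK
  have hKmem : ∀ i j : ℕ, (i : ℝ) + t * j ≤ B → (i, j) ∈ K := by
    intro i j hij
    rw [hK]
    simp only [mem_filter, mem_product, mem_range]
    refine ⟨⟨?_, ?_⟩, hij⟩
    · have : i ≤ ⌊B⌋₊ := Nat.le_floor (by
        have : 0 ≤ t * (j : ℝ) := by positivity
        linarith)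
      omega
    · have : j ≤ ⌊B / t⌋₊ := Nat.le_floor (by
        rw [le_div_iff₀ ht]
        have : 0 ≤ (i : ℝ) := by positivity
        linarith)
      omega
  have hKmem' : ∀ p : K, ((p.1.1 : ℕ) : ℝ) + t * ((p.1.2 : ℕ) : ℝ) ≤ B := by
    have hsub : ∀ q ∈ K, ((q.1 : ℕ) : ℝ) + t * ((q.2 : ℕ) : ℝ) ≤ B := by
      intro q hq
      rw [hK, mem_filter] at hq
      exact hq.2
    intro p
    exact hsub p.1 p.2
  -- matrices
  let A : (ℕ → ℂ) → Matrix K M ℂ := fun c => Matrix.of fun p m =>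
    PowerSeries.coeff p.1.1 ((fex c (MvPolynomial.monomial m.1 1)).coeff p.1.2)
  let G : Matrix K M (MvPolynomial ℕ ℂ) := Matrix.of fun p m =>
    PowerSeries.coeff p.1.1 ((gex (MvPolynomial.monomial m.1 1)).coeff p.1.2)
  have hGA : ∀ c, G.map (MvPolynomial.eval c) = A c := by
    intro c
    ext p m
    simp only [G, A, Matrix.map_apply, Matrix.of_apply]
    rw [← gex_map, Polynomial.coeff_map, PowerSeries.coeff_map]
  let fv : (M → ℂ) → MvPolynomial (Fin 3) ℂ := fun v => ∑ m : M, MvPolynomial.monomial m.1 (v m)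
  have hfv_hom : ∀ v, (fv v).IsHomogeneous d := by
    intro v
    apply MvPolynomial.IsHomogeneous.sum
    intro m _
    apply MvPolynomial.isHomogeneous_monomial
    have := (hMmem m.1).mp m.2
    rw [Finsupp.degree_eq_sum, Fin.sum_univ_three]
    exact this
  have hfv_coeff : ∀ v (m : M), (fv v).coeff m.1 = v m := by
    intro v m
    simp only [fv, MvPolynomial.coeff_sum, MvPolynomial.coeff_monomial]
    rw [Finset.sum_eq_single m]
    · simp
    · intro m' _ hne
      rw [if_neg]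
      intro he
      exact hne (Subtype.ext he)
    · intro h'
      exact absurd (Finset.mem_univ m) h'
  have hmul : ∀ c v (p : K), (A c).mulVec v p =
      PowerSeries.coeff p.1.1 ((fex c (fv v)).coeff p.1.2) := by
    intro c v p
    rw [fex_coeff_sum]
    rfl
  have hinj : LinearMap.ker (Matrix.mulVecLin (A c0)) = ⊥ := by
    rw [LinearMap.ker_eq_bot']
    intro v hv
    by_contra hne
    have hf0 : fv v ≠ 0 := by
      intro h0
      apply hne
      funext m
      rw [← hfv_coeff v m, h0]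
      simp
    obtain ⟨i, j, hij, hle⟩ := h (fv v) (hfv_hom v) hf0
    have := congrFun hv ⟨(i, j), hKmem i j hle⟩
    rw [Matrix.mulVecLin_apply, hmul] at this
    exact hij this
  obtain ⟨g, hg⟩ := LinearMap.exists_leftInverse_of_injective _ hinj
  set L : Matrix M K ℂ := LinearMap.toMatrix' g with hL
  have hLA : L * A c0 = 1 := by
    have h1 : LinearMap.toMatrix' (g ∘ₗ Matrix.mulVecLin (A c0)) = 1 := by
      rw [hg, LinearMap.toMatrix'_id]
    rw [LinearMap.toMatrix'_comp, ← Matrix.toLin'_apply', LinearMap.toMatrix'_toLin'] at h1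
    exact h1
  have hev : ∀ c, MvPolynomial.eval c ((L.map (MvPolynomial.C : ℂ →+* MvPolynomial ℕ ℂ)) * G).det
      = (L * A c).det := by
    intro c
    rw [RingHom.map_det]
    congr 1
    rw [RingHom.mapMatrix_apply, Matrix.map_mul, hGA]
    congr 1
    ext a b
    simp
  refine ⟨((L.map (MvPolynomial.C : ℂ →+* MvPolynomial ℕ ℂ)) * G).det, ?_, ?_⟩
  · intro h0
    have := hev c0
    rw [h0, hLA, Matrix.det_one, map_zero] at this
    exact zero_ne_one this
  · intro c hc f hf hf0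
    rw [hev c] at hc
    -- coordinates of f
    let v : M → ℂ := fun m => f.coeff m.1
    have hfv : fv v = f := by
      ext m
      by_cases hm : m ∈ M
      · exact hfv_coeff v ⟨m, hm⟩
      · have h1 : f.coeff m = 0 := by
          by_contra hne
          exact hm ((hMmem m).mpr (deg_of_mem hf (MvPolynomial.mem_support_iff.mpr hne)))
        have h2 : (fv v).coeff m = 0 := by
          by_contra hne
          exact hm ((hMmem m).mpr (deg_of_mem (hfv_hom v) (MvPolynomial.mem_support_iff.mpr hne)))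
        rw [h1, h2]
    have hv : v ≠ 0 := by
      intro h0
      apply hf0
      rw [← hfv, h0]
      simp [fv]
    by_contra hcon
    push Not at hcon
    have hAv : (A c).mulVec v = 0 := by
      funext p
      rw [hmul, hfv]
      by_contra hne
      have := hcon p.1.1 p.1.2 hne
      exact absurd (hKmem' p) (not_le.mpr this)
    have hdet : (L * A c).det = 0 := by
      rw [← Matrix.exists_mulVec_eq_zero_iff]
      refine ⟨v, hv, ?_⟩
      rw [← Matrix.mulVec_mulVec, hAv, Matrix.mulVec_zero]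
    exact hc hdet

/-- Semicontinuity: in each degree a germ with the bound suffices. -/
theorem semicont' {t : ℝ} (ht : 0 < t) (B : ℕ → ℝ)
    (h : ∀ d : ℕ, ∃ c0 : ℕ → ℂ, ∀ f : MvPolynomial (Fin 3) ℂ, f.IsHomogeneous d → f ≠ 0 →
      ∃ i j : ℕ, PowerSeries.coeff i ((fex c0 f).coeff j) ≠ 0 ∧ (i : ℝ) + t * (j : ℝ) ≤ B d) :
    ∃ S : ℕ → MvPolynomial ℕ ℂ, (∀ k, S k ≠ 0) ∧
      ∀ c : ℕ → ℂ, (∀ k, MvPolynomial.eval c (S k) ≠ 0) →
        ∀ d : ℕ, ∀ f : MvPolynomial (Fin 3) ℂ, f.IsHomogeneous d → f ≠ 0 →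
          ∃ i j : ℕ, PowerSeries.coeff i ((fex c f).coeff j) ≠ 0 ∧
            (i : ℝ) + t * (j : ℝ) ≤ B d := by
  have main : ∀ d : ℕ, ∃ S : MvPolynomial ℕ ℂ, S ≠ 0 ∧
      ∀ c : ℕ → ℂ, MvPolynomial.eval c S ≠ 0 →
        ∀ f : MvPolynomial (Fin 3) ℂ, f.IsHomogeneous d → f ≠ 0 →
          ∃ i j : ℕ, PowerSeries.coeff i ((fex c f).coeff j) ≠ 0 ∧
            (i : ℝ) + t * (j : ℝ) ≤ B d := by
    intro d
    obtain ⟨c0, hc0⟩ := h d
    exact semicont_fixed ht d (B d) c0 hc0
  choose S hS0 hS using main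
  exact ⟨S, hS0, fun c hc d f hf hf0 => hS d c (hc d) f hf hf0⟩

theorem semicont {t : ℝ} (ht : 0 < t) (B : ℕ → ℝ) (c0 : ℕ → ℂ)
    (h : ∀ d : ℕ, ∀ f : MvPolynomial (Fin 3) ℂ, f.IsHomogeneous d → f ≠ 0 →
      ∃ i j : ℕ, PowerSeries.coeff i ((fex c0 f).coeff j) ≠ 0 ∧ (i : ℝ) + t * (j : ℝ) ≤ B d) :
    ∃ S : ℕ → MvPolynomial ℕ ℂ, (∀ k, S k ≠ 0) ∧
      ∀ c : ℕ → ℂ, (∀ k, MvPolynomial.eval c (S k) ≠ 0) →
        ∀ d : ℕ, ∀ f : MvPolynomial (Fin 3) ℂ, f.IsHomogeneous d → f ≠ 0 →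
          ∃ i j : ℕ, PowerSeries.coeff i ((fex c f).coeff j) ≠ 0 ∧
            (i : ℝ) + t * (j : ℝ) ≤ B d :=
  semicont' ht B (fun d => ⟨c0, h d⟩)

/-- Engine: a prime curve with exact value `e √t` on a germ gives very general minimality. -/
theorem very_general_of_curve {t : ℝ} (ht : 0 < t) (c0 : ℕ → ℂ) {e : ℕ}
    {C : Polynomial (Polynomial ℂ)} (hC : Prime C) (he : 0 < e) (hCe : HasTD e C)
    (hle : VLe t (ex (PowerSeries.X * PowerSeries.mk c0) C) (e * Real.sqrt t))
    (hge : VGe t (ex (PowerSeries.X * PowerSeries.mk c0) C) (e * Real.sqrt t)) :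
    ∃ S : ℕ → MvPolynomial ℕ ℂ, (∀ k, S k ≠ 0) ∧
      ∀ c : ℕ → ℂ, (∀ k, MvPolynomial.eval c (S k) ≠ 0) →
        ∀ d : ℕ, ∀ f : MvPolynomial (Fin 3) ℂ, f.IsHomogeneous d → f ≠ 0 →
          ∃ i j : ℕ, PowerSeries.coeff i ((fex c f).coeff j) ≠ 0 ∧
            (i : ℝ) + t * (j : ℝ) ≤ (d : ℝ) * Real.sqrt t := by
  apply semicont ht (fun d => (d : ℝ) * Real.sqrt t) c0
  intro d f hf hf0
  have h := minimal_of_curve ht (PowerSeries.X * PowerSeries.mk c0) hC he hCe hle hge d (deh f)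
    (deh_ne_zero hf hf0) (deh_TD hf)
  rw [← fex_eq] at h
  exact h

end Pool.Agent.QMVal
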