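import Mathlib
import Pool.Agent.Lib.QMInterp
import Pool.Agent.Lib.QMLin
import Pool.Agent.Lib.QMSemicont

set_option autoImplicit false

/-!
Degeneration of quasimonomial valuations: the centre runs into an older germ.
-/

namespace Pool.Agent.QMVal

open Finset

/-! ### Substitutions -/

/-- Substitution `x ↦ a`, `y ↦ b`. -/
noncomputable def sub2 {R : Type*} [CommRing R] [Algebra ℂ R] (a b : R) :
    Polynomial (Polynomial ℂ) →+* R :=
  Polynomial.eval₂RingHom ((Polynomial.aeval a : Polynomial ℂ →ₐ[ℂ] R) : Polynomial ℂ →+* R) b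

theorem sub2_C {R : Type*} [CommRing R] [Algebra ℂ R] (a b : R) (p : Polynomial ℂ) :
    sub2 a b (Polynomial.C p) = Polynomial.aeval a p := by
  simp [sub2]

theorem sub2_x {R : Type*} [CommRing R] [Algebra ℂ R] (a b : R) :
    sub2 a b (Polynomial.C Polynomial.X) = a := by
  simp [sub2]

theorem sub2_c {R : Type*} [CommRing R] [Algebra ℂ R] (a b : R) (z : ℂ) :
    sub2 a b (Polynomial.C (Polynomial.C z)) = algebraMap ℂ R z := by
  simp [sub2]

theorem sub2_X {R : Type*} [CommRing R] [Algebra ℂ R] (a b : R) :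
    sub2 a b Polynomial.X = b := by
  simp [sub2]

theorem hom_ext {R : Type*} [CommRing R] {f g : Polynomial (Polynomial ℂ) →+* R}
    (h1 : ∀ z : ℂ, f (Polynomial.C (Polynomial.C z)) = g (Polynomial.C (Polynomial.C z)))
    (h2 : f (Polynomial.C Polynomial.X) = g (Polynomial.C Polynomial.X))
    (h3 : f Polynomial.X = g Polynomial.X) : f = g := by
  apply Polynomial.ringHom_ext'
  · apply Polynomial.ringHom_ext'
    · ext z
      · exact h1 z
    · exact h2
  · exact h3

theorem ex_eq_sub2 (ξ : PowerSeries ℂ) :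
    ex ξ = sub2 (Polynomial.C PowerSeries.X) (Polynomial.C ξ + Polynomial.X) := by
  apply hom_ext
  · intro z
    rw [ex_C, sub2_c, Polynomial.algebraMap_apply, Polynomial.coe_C]
    rfl
  · rw [ex_C, sub2_x, Polynomial.coe_X]
  · rw [ex_X, sub2_X]

theorem pc_mon (z : ℂ) (i j i' j' : ℕ) :
    pc (Polynomial.C (Polynomial.C z) * (Polynomial.C Polynomial.X) ^ i * Polynomial.X ^ j) i' j' =
      if i' = i ∧ j' = j then z else 0 := by
  unfold pc
  rw [← map_pow, ← map_mul, Polynomial.coeff_C_mul_X_pow]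
  by_cases hj : j' = j
  · rw [if_pos hj, Polynomial.coeff_C_mul_X_pow]
    by_cases hi : i' = i
    · rw [if_pos hi, if_pos ⟨hi, hj⟩]
    · rw [if_neg hi, if_neg (fun h => hi h.1)]
  · rw [if_neg hj, if_neg (fun h => hj h.2)]
    simp

theorem sum_repr (G : Polynomial (Polynomial ℂ)) (S : Finset (ℕ × ℕ))
    (hS : ∀ i j, pc G i j ≠ 0 → (i, j) ∈ S) :
    G = ∑ p ∈ S, Polynomial.C (Polynomial.C (pc G p.1 p.2)) *
      (Polynomial.C Polynomial.X) ^ p.1 * Polynomial.X ^ p.2 := by
  apply pc_ext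
  intro i j
  rw [pc_sum]
  simp only [pc_mon]
  by_cases h : pc G i j = 0
  · rw [h]
    symm
    apply Finset.sum_eq_zero
    rintro ⟨a, b⟩ _
    simp only
    split_ifs with h1
    · rw [← h1.1, ← h1.2, h]
    · rfl
  · rw [Finset.sum_eq_single (i, j)]
    · simp
    · rintro ⟨a, b⟩ _ hne
      simp only
      rw [if_neg]
      rintro ⟨rfl, rfl⟩
      exact hne rfl
    · intro h'
      exact absurd (hS i j h) h'

theorem cf_sum {ι : Type*} (s : Finset ι) (F : ι → Polynomial (PowerSeries ℂ)) (i j : ℕ) :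
    cf (∑ a ∈ s, F a) i j = ∑ a ∈ s, cf (F a) i j := by
  simp [cf, Polynomial.finsetSum_coeff]

/-- Coefficient formula for `G(A, Bs + θ)`. -/
theorem cf_sub2 (A Bs : PowerSeries ℂ) (G : Polynomial (Polynomial ℂ)) (S : Finset (ℕ × ℕ))
    (hS : ∀ i j, pc G i j ≠ 0 → (i, j) ∈ S) (a b : ℕ) :
    cf (sub2 (Polynomial.C A) (Polynomial.C Bs + Polynomial.X) G) a b =
      ∑ p ∈ S, pc G p.1 p.2 * (p.2.choose b : ℂ) *
        PowerSeries.coeff a (A ^ p.1 * Bs ^ (p.2 - b)) := by
  conv_lhs => rw [sum_repr G S hS]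
  rw [map_sum, cf_sum]
  refine Finset.sum_congr rfl fun p _ => ?_
  rw [map_mul, map_mul, map_pow, map_pow, sub2_x, sub2_X, sub2_c]
  rw [Polynomial.algebraMap_apply, ← map_pow, ← map_mul, add_comm (Polynomial.C Bs)]
  unfold cf
  rw [Polynomial.coeff_C_mul, Polynomial.coeff_X_add_C_pow]
  have e1 : (algebraMap ℂ (PowerSeries ℂ)) (pc G p.1 p.2) * A ^ p.1 *
      (Bs ^ (p.2 - b) * ((p.2.choose b : ℕ) : PowerSeries ℂ)) =
      PowerSeries.C (pc G p.1 p.2 * (p.2.choose b : ℂ)) * (A ^ p.1 * Bs ^ (p.2 - b)) := by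
    rw [map_mul, map_natCast]
    have : (algebraMap ℂ (PowerSeries ℂ)) (pc G p.1 p.2) = PowerSeries.C (pc G p.1 p.2) := rfl
    rw [this]
    ring
  rw [e1, PowerSeries.coeff_C_mul]

/-! ### Total degrees -/

theorem TD.pow {n : ℕ} {F : Polynomial (Polynomial ℂ)} (h : TD n F) (k : ℕ) : TD (n * k) (F ^ k) := by
  induction k with
  | zero => simpa using HasTD.one.1
  | succ k ih =>
    rw [pow_succ, Nat.mul_succ]
    exact ih.mul h

theorem TD_cc (z : ℂ) : TD 0 (Polynomial.C (Polynomial.C z)) := by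
  intro i j h
  have := pc_mon z 0 0 i j
  simp only [pow_zero, mul_one] at this
  rw [this] at h
  by_cases h1 : i = 0 ∧ j = 0
  · omega
  · rw [if_neg h1] at h
    exact absurd rfl h

theorem TD_x : TD 1 (Polynomial.C (Polynomial.X : Polynomial ℂ)) := by
  intro i j h
  have := pc_mon 1 1 0 i j
  simp only [map_one, one_mul, pow_zero, mul_one, pow_one] at this
  rw [this] at h
  by_cases h1 : i = 1 ∧ j = 0
  · omega
  · rw [if_neg h1] at h
    exact absurd rfl h

theorem TD_y : TD 1 (Polynomial.X : Polynomial (Polynomial ℂ)) := by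
  intro i j h
  have := pc_mon 1 0 1 i j
  simp only [map_one, one_mul, pow_zero, pow_one] at this
  rw [this] at h
  by_cases h1 : i = 0 ∧ j = 1
  · omega
  · rw [if_neg h1] at h
    exact absurd rfl h

theorem TD_C (p : Polynomial ℂ) : TD p.natDegree (Polynomial.C p) := by
  intro i j h
  unfold pc at h
  rw [Polynomial.coeff_C] at h
  by_cases hj : j = 0
  · rw [if_pos hj] at h
    have := Polynomial.le_natDegree_of_ne_zero h
    omega
  · rw [if_neg hj] at h
    exact absurd (by simp) h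

theorem TD.add {n : ℕ} {F G : Polynomial (Polynomial ℂ)} (hF : TD n F) (hG : TD n G) :
    TD n (F + G) := (P n).add_mem hF hG

theorem TD.sub {n : ℕ} {F G : Polynomial (Polynomial ℂ)} (hF : TD n F) (hG : TD n G) :
    TD n (F - G) := (P n).sub_mem hF hG

theorem TD_sub2 {D d : ℕ} {a b : Polynomial (Polynomial ℂ)} (ha : TD D a) (hb : TD D b)
    {G : Polynomial (Polynomial ℂ)} (hG : TD d G) : TD (D * d) (sub2 a b G) := by
  rw [sum_repr G (SS d) (fun i j h => mem_SS.mpr (hG i j h)), map_sum]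
  apply (P (D * d)).sum_mem
  intro p hp
  rw [mem_SS] at hp
  rw [map_mul, map_mul, map_pow, map_pow, sub2_x, sub2_X, sub2_c, mem_P]
  have h1 : TD (0 + D * p.1 + D * p.2)
      ((algebraMap ℂ (Polynomial (Polynomial ℂ))) (pc G p.1 p.2) * a ^ p.1 * b ^ p.2) :=
    ((TD_cc _).mul (ha.pow _)).mul (hb.pow _)
  refine h1.mono ?_
  nlinarith [Nat.mul_le_mul_left D hp]

/-- Substitutions compose. -/
theorem sub2_sub2 {R : Type*} [CommRing R] [Algebra ℂ R] (a b : Polynomial (Polynomial ℂ))
    (a' b' : R) (G : Polynomial (Polynomial ℂ)) :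
    sub2 a' b' (sub2 a b G) = sub2 (sub2 a' b' a) (sub2 a' b' b) G := by
  have : (sub2 a' b').comp (sub2 a b) = sub2 (sub2 a' b' a) (sub2 a' b' b) := by
    apply hom_ext
    · intro z
      rw [RingHom.comp_apply, sub2_c, sub2_c]
      exact sub2_c a' b' z
    · rw [RingHom.comp_apply, sub2_x, sub2_x]
    · rw [RingHom.comp_apply, sub2_X, sub2_X]
  exact congrArg (fun f => f G) this

theorem sub2_id (G : Polynomial (Polynomial ℂ)) :
    sub2 (Polynomial.C Polynomial.X : Polynomial (Polynomial ℂ)) Polynomial.X G = G := by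
  have : sub2 (Polynomial.C Polynomial.X : Polynomial (Polynomial ℂ)) Polynomial.X =
      RingHom.id (Polynomial (Polynomial ℂ)) := by
    apply hom_ext
    · intro z
      rw [sub2_c]; rfl
    · rw [sub2_x]; rfl
    · rw [sub2_X]; rfl
  exact congrArg (fun f => f G) this

/-! ### Binomial series -/

theorem binomialSeries_pow (m : ℤ) (n : ℕ) :
    (PowerSeries.binomialSeries ℂ m) ^ n = PowerSeries.binomialSeries ℂ (m * n) := by
  induction n with
  | zero => simp
  | succ n ih =>
    rw [pow_succ, ih, ← PowerSeries.binomialSeries_add]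
    congr 1
    push_cast
    ring

theorem coeff_scaled (lam κ : ℂ) (m : ℤ) (i n a : ℕ) :
    PowerSeries.coeff a ((PowerSeries.C lam * (1 + PowerSeries.X)) ^ i *
      (PowerSeries.C κ * PowerSeries.binomialSeries ℂ m) ^ n) =
      lam ^ i * κ ^ n * ((Ring.choose ((i : ℤ) + m * n) a : ℤ) : ℂ) := by
  rw [mul_pow, mul_pow, binomialSeries_pow, ← PowerSeries.binomialSeries_nat (R := ℤ)]
  have e : PowerSeries.C lam ^ i * PowerSeries.binomialSeries ℂ ((i : ℕ) : ℤ) *
      (PowerSeries.C κ ^ n * PowerSeries.binomialSeries ℂ (m * n)) =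
      PowerSeries.C (lam ^ i * κ ^ n) *
        PowerSeries.binomialSeries ℂ (((i : ℕ) : ℤ) + m * n) := by
    rw [PowerSeries.binomialSeries_add, map_mul, map_pow, map_pow]
    ring
  rw [e, PowerSeries.coeff_C_mul, PowerSeries.binomialSeries_coeff]
  simp

/-! ### Truncation -/

theorem aeval_X_coe (p : Polynomial ℂ) :
    Polynomial.aeval (PowerSeries.X : PowerSeries ℂ) p = (p : PowerSeries ℂ) := by
  have h : ((Polynomial.aeval (PowerSeries.X : PowerSeries ℂ) : Polynomial ℂ →ₐ[ℂ] PowerSeries ℂ) :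
      Polynomial ℂ →+* PowerSeries ℂ) = Polynomial.coeToPowerSeries.ringHom (R := ℂ) := by
    apply Polynomial.ringHom_ext'
    · ext z
      simp
    · simp
  exact congrArg (fun f => f p) h

theorem aeval_CX_coe (p : Polynomial ℂ) :
    Polynomial.aeval (Polynomial.C (PowerSeries.X : PowerSeries ℂ)) p =
      Polynomial.C (p : PowerSeries ℂ) := by
  rw [← aeval_X_coe, Polynomial.aeval_def, Polynomial.aeval_def, Polynomial.hom_eval₂]
  rfl

theorem cf_ex_trunc (ξ : PowerSeries ℂ) (N : ℕ) (G : Polynomial (Polynomial ℂ)) (i k : ℕ)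
    (hi : i < N) :
    cf (ex ξ G) i k =
      pc (sub2 (Polynomial.C Polynomial.X)
        (Polynomial.X + Polynomial.C (PowerSeries.trunc N ξ)) G) i k := by
  set p := PowerSeries.trunc N ξ with hp
  -- polynomial germ
  have h1 : ex 0 (sub2 (Polynomial.C Polynomial.X) (Polynomial.X + Polynomial.C p) G) =
      ex (p : PowerSeries ℂ) G := by
    rw [ex_eq_sub2, sub2_sub2, sub2_x, map_add, sub2_X, sub2_C, ex_eq_sub2]
    congr 1
    rw [map_zero, zero_add, add_comm, aeval_CX_coe]
  have h2 : ∀ F : Polynomial (Polynomial ℂ), cf (ex 0 F) i k = pc F i k := by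
    intro F
    obtain ⟨n, hn⟩ := exists_P F
    rw [ex_eq_sub2, cf_sub2 _ _ F (SS n) (fun i j h => mem_SS.mpr (hn i j h))]
    by_cases hF : (i, k) ∈ SS n
    · rw [Finset.sum_eq_single (i, k)]
      · simp
      · rintro ⟨a, b⟩ _ hne
        simp only
        rcases lt_trichotomy b k with hb | hb | hb
        · rw [Nat.choose_eq_zero_of_lt hb]
          simp
        · subst hb
          have : a ≠ i := fun h => hne (by rw [h])
          rw [Nat.sub_self, pow_zero, mul_one, PowerSeries.coeff_X_pow, if_neg (Ne.symm this)]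
          simp
        · rw [zero_pow (by omega)]
          simp
      · intro h'
        exact absurd hF h'
    · have h0 : pc F i k = 0 := by
        by_contra hne
        exact hF (mem_SS.mpr (hn i k hne))
      rw [h0]
      apply Finset.sum_eq_zero
      rintro ⟨a, b⟩ hab
      simp only
      rcases lt_trichotomy b k with hb | hb | hb
      · rw [Nat.choose_eq_zero_of_lt hb]
        simp
      · subst hb
        have : a ≠ i := fun h => hF (h ▸ hab)
        rw [Nat.sub_self, pow_zero, mul_one, PowerSeries.coeff_X_pow, if_neg (Ne.symm this)]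
        simp
      · rw [zero_pow (by omega)]
        simp
  rw [← h2, h1]
  obtain ⟨n, hn⟩ := exists_P G
  have hS : ∀ i j, pc G i j ≠ 0 → (i, j) ∈ SS n := fun i j h => mem_SS.mpr (hn i j h)
  rw [ex_eq_sub2, ex_eq_sub2, cf_sub2 _ _ G _ hS, cf_sub2 _ _ G _ hS]
  refine Finset.sum_congr rfl fun q _ => ?_
  congr 1
  have hdvd : (PowerSeries.X : PowerSeries ℂ) ^ N ∣ ξ - (p : PowerSeries ℂ) := by
    rw [PowerSeries.X_pow_dvd_iff]
    intro m hm
    rw [map_sub, Polynomial.coeff_coe, hp, PowerSeries.coeff_trunc, if_pos hm, sub_self]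
  have hdvd2 : (PowerSeries.X : PowerSeries ℂ) ^ N ∣
      PowerSeries.X ^ q.1 * ξ ^ (q.2 - k) - PowerSeries.X ^ q.1 * (p : PowerSeries ℂ) ^ (q.2 - k) := by
    rw [← mul_sub]
    exact Dvd.dvd.mul_left (hdvd.trans (sub_dvd_pow_sub_pow _ _ _)) _
  have := (PowerSeries.X_pow_dvd_iff.mp hdvd2) i hi
  rw [map_sub] at this
  exact sub_eq_zero.mp this

end Pool.Agent.QMVal
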