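import Mathlib
import Pool.Agent.Lib.QMDegen

set_option autoImplicit false

/-!
The closure theorem for `μ̂`.
-/

namespace Pool.Agent.QMVal

open Finset

/-- Column condition for a pair `(t0, B0)` in direction `m`, new parameters `(t, B)`. -/
def ColCond (t0 B0 : ℝ) (m : ℤ) (t B : ℝ) : Prop :=
  ∀ L : Finset (ℕ × ℕ), (∀ p ∈ L, (p.1 : ℝ) + t0 * p.2 ≤ B0) → ∀ b : ℕ,
    ∃ lo hi : ℝ, hi - lo ≤ B - t * b ∧
      ∀ p ∈ L, ∀ q ∈ L, (p.1 : ℤ) + m * p.2 = q.1 + m * q.2 → p.2 + b ≤ q.2 →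
        lo ≤ ((((p.1 : ℤ) + m * p.2 : ℤ)) : ℝ) ∧ ((((p.1 : ℤ) + m * p.2 : ℤ)) : ℝ) ≤ hi

/-- the coordinates of the Taylor shift -/
noncomputable def coordMap (d n : ℕ) (p0 : Polynomial ℂ) : P d →ₗ[ℂ] (SS n → ℂ) where
  toFun F := fun q => pc (sub2 (Polynomial.C Polynomial.X)
    (Polynomial.X + Polynomial.C p0) F.1) q.1.1 q.1.2
  map_add' F G := by
    funext q
    simp only [Submodule.coe_add, map_add, Pi.add_apply]
    exact pc_add _ _ _ _
  map_smul' z F := by
    funext q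
    simp only [RingHom.id_apply, Pi.smul_apply, smul_eq_mul]
    have e : ((z • F : P d) : Polynomial (Polynomial ℂ)) =
        Polynomial.C (Polynomial.C z) * (F : Polynomial (Polynomial ℂ)) := by
      rw [Submodule.coe_smul]
      ext k l
      simp
    rw [e, map_mul, sub2_c]
    have e2 : (algebraMap ℂ (Polynomial (Polynomial ℂ))) z = Polynomial.C (Polynomial.C z) := rfl
    rw [e2]
    simp [pc]

theorem coordMap_apply (d n : ℕ) (p0 : Polynomial ℂ) (F : P d) (q : SS n) :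
    coordMap d n p0 F q = pc (sub2 (Polynomial.C Polynomial.X)
      (Polynomial.X + Polynomial.C p0) F.1) q.1.1 q.1.2 := rfl

/-- **One degeneration step** in fixed degree. -/
theorem degen_step {t0 B0 : ℝ} (ht0 : 0 < t0) (d : ℕ) (ξ0 : PowerSeries ℂ)
    (h0 : ∀ F, TD d F → F ≠ 0 → VLe t0 (ex ξ0 F) B0) (m : ℤ) {t B : ℝ} (ht : 0 < t)
    (hcol : ColCond t0 B0 m t B) :
    ∃ ξ : PowerSeries ℂ, PowerSeries.constantCoeff ξ = 0 ∧
      ∀ G, TD d G → G ≠ 0 → VLe t (ex ξ G) B := by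
  classical
  set N : ℕ := ⌊B0⌋₊ + 1 with hN
  set p0 : Polynomial ℂ := PowerSeries.trunc N ξ0 with hp0
  set D : ℕ := max 1 p0.natDegree with hD
  set n : ℕ := D * d with hn
  have hTDy : TD D (Polynomial.X + Polynomial.C p0 : Polynomial (Polynomial ℂ)) :=
    (TD_y.mono (le_max_left _ _)).add ((TD_C p0).mono (le_max_right _ _))
  have hTDx : TD D (Polynomial.C (Polynomial.X : Polynomial ℂ)) := TD_x.mono (le_max_left _ _)
  have hTDF : ∀ F, TD d F → TD n (sub2 (Polynomial.C Polynomial.X)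
      (Polynomial.X + Polynomial.C p0) F) := fun F hF => TD_sub2 hTDx hTDy hF
  -- conditions
  set K : Finset (ℕ × ℕ) := ((range (⌊B⌋₊ + 1)) ×ˢ (range (⌊B / t⌋₊ + 1))).filter
    (fun p => (p.1 : ℝ) + t * p.2 ≤ B) with hK
  have hKmem : ∀ i j : ℕ, (i : ℝ) + t * j ≤ B → (i, j) ∈ K := by
    intro i j hij
    rw [hK]
    simp only [mem_filter, mem_product, mem_range]
    refine ⟨⟨?_, ?_⟩, hij⟩
    · have : i ≤ ⌊B⌋₊ := Nat.le_floor (by
        have : 0 ≤ t * (j : ℝ) := by positivity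
        linarith)
      omega
    · have : j ≤ ⌊B / t⌋₊ := Nat.le_floor (by
        rw [le_div_iff₀ ht]
        have : 0 ≤ (i : ℝ) := by positivity
        linarith)
      omega
  have hKmem' : ∀ q ∈ K, ((q.1 : ℕ) : ℝ) + t * ((q.2 : ℕ) : ℝ) ≤ B := by
    intro q hq
    rw [hK, mem_filter] at hq
    exact hq.2
  let w : SS n → ℝ := fun τ => (τ.1.1 : ℝ) + t0 * (τ.1.2 : ℝ)
  let M : K → SS n → ℂ := fun j τ => (τ.1.2.choose j.1.2 : ℂ) *
    ((Ring.choose ((τ.1.1 : ℤ) + m * ((τ.1.2 : ℤ) - j.1.2)) j.1.1 : ℤ) : ℂ)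
  have hc : ∀ F : P d, (∀ τ, w τ ≤ B0 → coordMap d n p0 F τ = 0) → F = 0 := by
    intro F hF
    by_contra hne
    have hF0 : (F : Polynomial (Polynomial ℂ)) ≠ 0 := fun h => hne (Subtype.ext h)
    obtain ⟨i, k, hik, hle⟩ := h0 F.1 F.2 hF0
    have hi : i < N := by
      have h1 : 0 ≤ t0 * (k : ℝ) := by positivity
      have : i ≤ ⌊B0⌋₊ := Nat.le_floor (by linarith)
      omega
    rw [cf_ex_trunc ξ0 N F.1 i k hi] at hik
    have hmem : (i, k) ∈ SS n := mem_SS.mpr (hTDF F.1 F.2 i k hik)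
    exact hik (hF ⟨(i, k), hmem⟩ hle)
  have hM : ∀ x : SS n → ℂ, (∀ τ, ¬ (w τ ≤ B0) → x τ = 0) →
      (∀ j, ∑ τ, M j τ * x τ = 0) → x = 0 := by
    intro x hx hsum
    by_contra hne
    set L : Finset (ℕ × ℕ) := (SS n).filter (fun p => (p.1 : ℝ) + t0 * p.2 ≤ B0) with hL
    let h : ℕ × ℕ → ℂ := fun p => if hp : p ∈ SS n then x ⟨p, hp⟩ else 0
    have hLB : ∀ p ∈ L, (p.1 : ℝ) + t0 * p.2 ≤ B0 := by
      intro p hp
      rw [hL, mem_filter] at hp
      exact hp.2
    have hexx : ∃ p ∈ L, h p ≠ 0 := by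
      by_contra hcon
      push Not at hcon
      apply hne
      funext τ
      by_cases hτ : w τ ≤ B0
      · have h1 := hcon τ.1 (by rw [hL, mem_filter]; exact ⟨τ.2, hτ⟩)
        simp only [h] at h1
        rw [dif_pos τ.2] at h1
        exact h1
      · exact hx τ hτ
    obtain ⟨a, b, hab, hne2⟩ := column_counting L m t B (hcol L hLB) h hexx
    apply hne2
    have h1 := hsum ⟨(a, b), hKmem a b hab⟩
    rw [← h1]
    rw [hL, Finset.sum_filter]
    rw [← Finset.sum_coe_sort (SS n)]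
    refine Finset.sum_congr rfl fun τ _ => ?_
    have h2 : h τ.1 = x τ := by
      simp only [h]
      rw [dif_pos τ.2]
    split_ifs with hτ
    · rw [h2]
      simp only [M]
      ring
    · rw [hx τ hτ, mul_zero]
  obtain ⟨r, hr⟩ := degen_inj (V := P d) (T := SS n) (J := K) w B0 (coordMap d n p0) hc M hM
  set lam : ℂ := (Real.exp (-r) : ℂ) with hlam
  set κ : ℂ := (Real.exp (-(r * t0)) : ℂ) with hκ
  have hlam0 : lam ≠ 0 := by
    rw [hlam]
    exact_mod_cast (Real.exp_pos _).ne'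
  have hκ0 : κ ≠ 0 := by
    rw [hκ]
    exact_mod_cast (Real.exp_pos _).ne'
  set A : PowerSeries ℂ := PowerSeries.C lam * (1 + PowerSeries.X) with hA
  set Bm : PowerSeries ℂ := PowerSeries.C κ * PowerSeries.binomialSeries ℂ m with hBm
  set η : PowerSeries ℂ := Polynomial.aeval A p0 + Bm with hη
  set γ : ℂ := PowerSeries.constantCoeff η with hγ
  refine ⟨η - PowerSeries.C γ, by simp [hγ], ?_⟩
  intro G hG hG0
  -- the affine substitution
  set ax : Polynomial (Polynomial ℂ) :=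
    Polynomial.C (Polynomial.C lam⁻¹) * Polynomial.C Polynomial.X - 1 with hax
  set ay : Polynomial (Polynomial ℂ) :=
    Polynomial.X - Polynomial.C (Polynomial.C γ) with hay
  have hTDax : TD 1 ax := by
    rw [hax]
    have h1 : TD (0 + 1) (Polynomial.C (Polynomial.C lam⁻¹) * Polynomial.C Polynomial.X) :=
      (TD_cc _).mul TD_x
    rw [zero_add] at h1
    exact h1.sub (HasTD.one.1.mono (by omega))
  have hTDay : TD 1 ay := by
    rw [hay]
    exact TD_y.sub ((TD_cc _).mono (by omega))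
  set F : Polynomial (Polynomial ℂ) := sub2 ax ay G with hF
  have hTDF1 : TD d F := by
    have := TD_sub2 hTDax hTDay hG
    rwa [one_mul] at this
  have hF0 : F ≠ 0 := by
    intro h
    apply hG0
    have h1 : sub2 (Polynomial.C (Polynomial.C lam) * (Polynomial.C Polynomial.X + 1) :
        Polynomial (Polynomial ℂ)) (Polynomial.X + Polynomial.C (Polynomial.C γ)) F = G := by
      rw [hF, sub2_sub2, hax, hay]
      simp only [map_sub, map_mul, map_one, sub2_x, sub2_X, sub2_c]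
      have e1 : ∀ z : ℂ, (algebraMap ℂ (Polynomial (Polynomial ℂ))) z =
        Polynomial.C (Polynomial.C z) := fun _ => rfl
      rw [e1, e1]
      have e2 : Polynomial.C (Polynomial.C lam⁻¹) *
          (Polynomial.C (Polynomial.C lam) * (Polynomial.C Polynomial.X + 1)) - 1 =
          (Polynomial.C Polynomial.X : Polynomial (Polynomial ℂ)) := by
        rw [← mul_assoc, ← map_mul, ← map_mul, inv_mul_cancel₀ hlam0]
        simp
      rw [e2, add_sub_cancel_right]
      exact sub2_id G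
    rw [← h1, h, map_zero]
  have hnot : ¬ ∀ j : K, ∑ τ, M j τ * ((Real.exp (-(r * w τ)) : ℂ) *
      coordMap d n p0 ⟨F, hTDF1⟩ τ) = 0 := by
    intro hall
    have := hr ⟨F, hTDF1⟩ hall
    exact hF0 (congrArg Subtype.val this)
  push Not at hnot
  obtain ⟨⟨⟨a, b⟩, hab⟩, hne⟩ := hnot
  refine ⟨a, b, ?_, hKmem' _ hab⟩
  -- the expansion
  have hexp1 : ex (η - PowerSeries.C γ) G = sub2 (Polynomial.C A)
      (Polynomial.C Bm + Polynomial.X)
      (sub2 (Polynomial.C Polynomial.X) (Polynomial.X + Polynomial.C p0) F) := by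
    rw [sub2_sub2, hF, sub2_sub2, ex_eq_sub2]
    congr 1
    congr 1
    · -- x
      rw [hax]
      simp only [map_sub, map_mul, map_one, sub2_x, sub2_c]
      rw [hA, Polynomial.algebraMap_apply, ← map_mul]
      have e1 : (algebraMap ℂ (PowerSeries ℂ)) lam⁻¹ = PowerSeries.C lam⁻¹ := rfl
      rw [e1, ← mul_assoc, ← map_mul, inv_mul_cancel₀ hlam0, map_one, one_mul, map_add, map_one]
      ring
    · -- y
      rw [hay]
      simp only [map_sub, sub2_X, map_add, sub2_C, Polynomial.aeval_C]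
      have e1 : (algebraMap ℂ (Polynomial (PowerSeries ℂ))) γ =
        Polynomial.C (PowerSeries.C γ) := rfl
      rw [e1]
      have e2 : Polynomial.aeval (Polynomial.C A : Polynomial (PowerSeries ℂ)) p0 =
          Polynomial.C (Polynomial.aeval A p0) := by
        rw [Polynomial.aeval_def, Polynomial.aeval_def, Polynomial.hom_eval₂]
        rfl
      rw [e2, hη, map_add]
      ring
  have hS : ∀ i j, pc (sub2 (Polynomial.C Polynomial.X)
      (Polynomial.X + Polynomial.C p0) F) i j ≠ 0 → (i, j) ∈ SS n :=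
    fun i j h => mem_SS.mpr (hTDF F hTDF1 i j h)
  have hcf : cf (ex (η - PowerSeries.C γ) G) a b * κ ^ b =
      ∑ τ, M ⟨(a, b), hab⟩ τ * ((Real.exp (-(r * w τ)) : ℂ) *
        coordMap d n p0 ⟨F, hTDF1⟩ τ) := by
    rw [hexp1, cf_sub2 A Bm _ (SS n) hS, Finset.sum_mul]
    rw [← Finset.sum_coe_sort (SS n)]
    refine Finset.sum_congr rfl fun τ _ => ?_
    rw [coordMap_apply]
    simp only [M, w]
    rcases Nat.lt_or_ge τ.1.2 b with hlt | hge
    · rw [Nat.choose_eq_zero_of_lt hlt]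
      simp
    · rw [hA, hBm, coeff_scaled]
      have e1 : ((Real.exp (-(r * ((τ.1.1 : ℝ) + t0 * (τ.1.2 : ℝ)))) : ℝ) : ℂ) =
          lam ^ τ.1.1 * κ ^ τ.1.2 := by
        rw [hlam, hκ, ← Complex.ofReal_pow, ← Complex.ofReal_pow, ← Complex.ofReal_mul,
          ← Real.exp_nat_mul, ← Real.exp_nat_mul, ← Real.exp_add]
        congr 2
        ring
      have e2 : κ ^ τ.1.2 = κ ^ (τ.1.2 - b) * κ ^ b := by
        rw [← pow_add, Nat.sub_add_cancel hge]
      have e3 : (((τ.1.2 - b : ℕ)) : ℤ) = (τ.1.2 : ℤ) - b := by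
        rw [Nat.cast_sub hge]
      rw [e1, e2, e3]
      ring
  intro h
  apply hne
  rw [← hcf, h, zero_mul]

end Pool.Agent.QMVal
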