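import Mathlib
import Pool.Agent.Lib.QMClosure

set_option autoImplicit false

/-!
Very general germs and the closure theorem in the form of the frozen statement.
-/

namespace Pool.Agent.QMVal

open Finset

/-- Countably many nonzero polynomials in countably many variables over `ℂ` have a common
non-zero. -/
theorem exists_avoid (S : ℕ → MvPolynomial ℕ ℂ) (hS : ∀ k, S k ≠ 0) :
    ∃ c : ℕ → ℂ, ∀ k, MvPolynomial.eval c (S k) ≠ 0 := by
  have hopen : ∀ k, IsOpen {c : ℕ → ℂ | MvPolynomial.eval c (S k) ≠ 0} := by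
    intro k
    exact isOpen_ne.preimage (MvPolynomial.continuous_eval (S k))
  have hdense : ∀ k, Dense {c : ℕ → ℂ | MvPolynomial.eval c (S k) ≠ 0} := by
    intro k
    rw [dense_iff_inter_open]
    intro V hV hVne
    by_contra hcon
    apply hS k
    obtain ⟨c0, hc0⟩ := hVne
    obtain ⟨I, u, hu, huV⟩ := isOpen_pi_iff.mp hV c0 hc0
    classical
    let s : ℕ → Set ℂ := fun i => if i ∈ I then u i else Set.univ
    have hs : ∀ i, (s i).Infinite := by
      intro i
      simp only [s]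
      split_ifs with hi
      · exact infinite_of_mem_nhds (c0 i) ((hu i hi).1.mem_nhds (hu i hi).2)
      · exact Set.infinite_univ
    apply MvPolynomial.funext_set s hs
    intro x hx
    rw [map_zero]
    by_contra hne
    apply hcon
    refine ⟨x, huV ?_, hne⟩
    intro i hi
    have := hx i (Set.mem_univ i)
    simp only [s] at this
    rwa [if_pos (by exact_mod_cast hi)] at this
  have h := dense_iInter_of_isOpen hopen hdense
  obtain ⟨c, hc⟩ := h.nonempty
  refine ⟨c, fun k => ?_⟩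
  exact Set.mem_iInter.mp hc k

/-- homogenisation -/
theorem exists_hom {d : ℕ} {G : Polynomial (Polynomial ℂ)} (hG : TD d G) :
    ∃ f : MvPolynomial (Fin 3) ℂ, f.IsHomogeneous d ∧ deh f = G := by
  classical
  let mm : ℕ × ℕ → (Fin 3 →₀ ℕ) := fun p =>
    Finsupp.single 0 p.1 + Finsupp.single 1 p.2 + Finsupp.single 2 (d - p.1 - p.2)
  refine ⟨∑ p ∈ SS d, MvPolynomial.monomial (mm p) (pc G p.1 p.2), ?_, ?_⟩
  · apply MvPolynomial.IsHomogeneous.sum
    intro p hp
    rw [mem_SS] at hp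
    apply MvPolynomial.isHomogeneous_monomial
    rw [Finsupp.degree_eq_sum, Fin.sum_univ_three]
    simp [mm]
    omega
  · rw [map_sum]
    apply pc_ext
    intro i j
    rw [pc_sum]
    simp only [pc_deh_monomial]
    have e0 : ∀ p : ℕ × ℕ, mm p 0 = p.1 := by intro p; simp [mm]
    have e1 : ∀ p : ℕ × ℕ, mm p 1 = p.2 := by intro p; simp [mm]
    simp only [e0, e1]
    by_cases h : pc G i j = 0
    · rw [h]
      apply Finset.sum_eq_zero
      rintro ⟨a, b⟩ _
      simp only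
      split_ifs with h1
      · rw [h1.1, h1.2, h]
      · rfl
    · rw [Finset.sum_eq_single (i, j)]
      · simp
      · rintro ⟨a, b⟩ _ hne
        simp only
        rw [if_neg]
        rintro ⟨rfl, rfl⟩
        exact hne rfl
      · intro h'
        exact absurd (mem_SS.mpr (hG i j h)) h'

/-- `MuHatLe t μ`: for very general germs, every nonzero form of degree `d` has quasimonomial
valuation (parameter `t`) at most `d μ`. Equivalently `μ̂(t) ≤ μ`. -/
def MuHatLe (t μ : ℝ) : Prop :=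
  ∃ S : ℕ → MvPolynomial ℕ ℂ, (∀ k, S k ≠ 0) ∧
    ∀ c : ℕ → ℂ, (∀ k, MvPolynomial.eval c (S k) ≠ 0) →
      ∀ d : ℕ, ∀ f : MvPolynomial (Fin 3) ℂ, f.IsHomogeneous d → f ≠ 0 →
        ∃ i j : ℕ,
          PowerSeries.coeff i
              ((MvPolynomial.aeval
                  (![Polynomial.C PowerSeries.X,
                     Polynomial.C (PowerSeries.X * PowerSeries.mk c) + Polynomial.X,
                     1] : Fin 3 → Polynomial (PowerSeries ℂ)) f).coeff j) ≠ 0 ∧
          (i : ℝ) + t * (j : ℝ) ≤ (d : ℝ) * μ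

/-- The bound in each degree for some germ. -/
def Germ (t μ : ℝ) : Prop :=
  ∀ d : ℕ, ∃ ξ : PowerSeries ℂ, PowerSeries.constantCoeff ξ = 0 ∧
    ∀ G, TD d G → G ≠ 0 → VLe t (ex ξ G) (d * μ)

theorem X_mul_mk' (ξ : PowerSeries ℂ) (h : PowerSeries.constantCoeff ξ = 0) :
    PowerSeries.X * PowerSeries.mk (fun k => PowerSeries.coeff (k + 1) ξ) = ξ := by
  ext n
  cases n with
  | zero => simpa using h.symm
  | succ n => rw [PowerSeries.coeff_succ_X_mul, PowerSeries.coeff_mk]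

theorem muHatLe_iff_germ {t μ : ℝ} (ht : 0 < t) : MuHatLe t μ ↔ Germ t μ := by
  constructor
  · rintro ⟨S, hS, h⟩ d
    obtain ⟨c, hc⟩ := exists_avoid S hS
    refine ⟨PowerSeries.X * PowerSeries.mk c, by simp, ?_⟩
    intro G hG hG0
    obtain ⟨f, hf, rfl⟩ := exists_hom hG
    have hf0 : f ≠ 0 := by
      rintro rfl
      exact hG0 (map_zero _)
    rw [← fex_eq]
    exact h c hc d f hf hf0
  · intro h
    apply semicont' ht (fun d => (d : ℝ) * μ)
    intro d
    obtain ⟨ξ, hξ, hξ'⟩ := h d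
    refine ⟨fun k => PowerSeries.coeff (k + 1) ξ, fun f hf hf0 => ?_⟩
    rw [fex_eq, X_mul_mk' ξ hξ]
    exact hξ' (deh f) (deh_TD hf) (deh_ne_zero hf hf0)

/-- The move `t ↦ P²/t`, `P ≥ t`. -/
theorem MuHatLe.move_pos {t μ : ℝ} (ht : 0 < t) (h : MuHatLe t μ) (P : ℕ) (hP : t ≤ P) :
    MuHatLe ((P : ℝ) ^ 2 / t) ((P : ℝ) / t * μ) := by
  have hP0 : 0 < (P : ℝ) := lt_of_lt_of_le ht hP
  have ht' : 0 < (P : ℝ) ^ 2 / t := by positivity
  rw [muHatLe_iff_germ ht'] 
  rw [muHatLe_iff_germ ht] at h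
  intro d
  obtain ⟨ξ0, _, h0⟩ := h d
  have hcol : ColCond t (d * μ) (P : ℤ) ((P : ℝ) ^ 2 / t) (d * ((P : ℝ) / t * μ)) := by
    intro L hL b
    obtain ⟨lo, hi, h1, h2⟩ := triangle_pos t (d * μ) ht P hP L hL b
    refine ⟨lo, hi, ?_, h2⟩
    have : (P : ℝ) / t * (d * μ) = d * ((P : ℝ) / t * μ) := by ring
    linarith
  exact degen_step ht d ξ0 h0 (P : ℤ) ht' hcol

/-- The move `t ↦ (t+m)²/t`, `m ≥ 0`. -/
theorem MuHatLe.move_neg {t μ : ℝ} (ht : 0 < t) (h : MuHatLe t μ) (m : ℕ) :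
    MuHatLe ((t + m) ^ 2 / t) ((t + m) / t * μ) := by
  have hP0 : 0 < t + (m : ℝ) := by positivity
  have ht' : 0 < (t + m) ^ 2 / t := by positivity
  rw [muHatLe_iff_germ ht']
  rw [muHatLe_iff_germ ht] at h
  intro d
  obtain ⟨ξ0, _, h0⟩ := h d
  have hcol : ColCond t (d * μ) (-(m : ℤ)) ((t + m) ^ 2 / t) (d * ((t + m) / t * μ)) := by
    intro L hL b
    obtain ⟨lo, hi, h1, h2⟩ := triangle_neg t (d * μ) ht m L hL b
    refine ⟨lo, hi, ?_, h2⟩
    have : (t + m) / t * (d * μ) = d * ((t + m) / t * μ) := by ring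
    linarith
  exact degen_step ht d ξ0 h0 (-(m : ℤ)) ht' hcol

/-- Monotonicity in both parameters. -/
theorem MuHatLe.mono {t μ t' μ' : ℝ} (h : MuHatLe t μ) (ht : t' ≤ t) (hμ : μ ≤ μ') : MuHatLe t' μ' := by
  obtain ⟨S, hS, h⟩ := h
  refine ⟨S, hS, fun c hc d f hf hf0 => ?_⟩
  obtain ⟨i, j, h1, h2⟩ := h c hc d f hf hf0
  refine ⟨i, j, h1, ?_⟩
  have h3 : t' * (j : ℝ) ≤ t * j := mul_le_mul_of_nonneg_right ht (by positivity)
  have h4 : (d : ℝ) * μ ≤ d * μ' := mul_le_mul_of_nonneg_left hμ (by positivity)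
  linarith

/-- **Closure theorem.** For integers `a, b ≥ 0` with `w = a t + b ≥ t ≥ 1`:
`μ̂(w²/t) ≤ (w/t) μ̂(t)`. -/
theorem MuHatLe.closure {t μ : ℝ} (ht : 1 ≤ t) (h : MuHatLe t μ) (a b : ℕ) (hab : t ≤ a * t + b) :
    MuHatLe ((a * t + b) ^ 2 / t) ((a * t + b) / t * μ) := by
  have ht0 : 0 < t := by linarith
  rcases Nat.eq_zero_or_pos a with ha | ha
  · subst ha
    have := h.move_pos ht0 b (by simpa using hab)
    simpa using this
  · -- scaling
    have hscale : MuHatLe ((a : ℝ) ^ 2 * t) (a * μ) := by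
      rcases Nat.lt_or_ge a 2 with h1 | h2
      · have : a = 1 := by omega
        subst this
        simpa using h
      · set P := ⌈t⌉₊ with hP
        have hP1 : t ≤ P := Nat.le_ceil t
        have hP2 : (P : ℝ) < t + 1 := Nat.ceil_lt_add_one ht0.le
        have hP0 : 0 < (P : ℝ) := lt_of_lt_of_le ht0 hP1
        have h3 := h.move_pos ht0 P hP1
        have ha2 : (2 : ℝ) ≤ a := by exact_mod_cast h2
        have ht3 : 0 < (P : ℝ) ^ 2 / t := by positivity
        have h4 := h3.move_pos ht3 (a * P) (by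
          rw [div_le_iff₀ ht0]
          push_cast
          nlinarith [mul_le_mul_of_nonneg_left ha2 (mul_nonneg hP0.le ht0.le)])
        have e1 : ((a * P : ℕ) : ℝ) ^ 2 / ((P : ℝ) ^ 2 / t) = (a : ℝ) ^ 2 * t := by
          push_cast
          field_simp
        have e2 : ((a * P : ℕ) : ℝ) / ((P : ℝ) ^ 2 / t) * ((P : ℝ) / t * μ) = a * μ := by
          push_cast
          field_simp
        rwa [e1, e2] at h4
    have ha0 : 0 < (a : ℝ) := by exact_mod_cast ha
    have ht1 : 0 < (a : ℝ) ^ 2 * t := by positivity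
    have h5 := hscale.move_neg ht1 (a * b)
    have e1 : ((a : ℝ) ^ 2 * t + ((a * b : ℕ) : ℝ)) ^ 2 / ((a : ℝ) ^ 2 * t) =
        (a * t + b) ^ 2 / t := by
      push_cast
      field_simp
    have e2 : ((a : ℝ) ^ 2 * t + ((a * b : ℕ) : ℝ)) / ((a : ℝ) ^ 2 * t) * (a * μ) =
        (a * t + b) / t * μ := by
      push_cast
      field_simp
    rwa [e1, e2] at h5

end Pool.Agent.QMVal
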