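import Mathlib
import Pool.Agent.Lib.QMVery

set_option autoImplicit false

/-!
Consequences of the closure theorem: reduction to `[9,10]`, and the asymptotic bound.
-/

namespace Pool.Agent.QMVal

open Finset

/-- The case `t = 1`: multiplicity at a point. -/
theorem muHatLe_one : MuHatLe 1 1 := by
  rw [muHatLe_iff_germ one_pos]
  intro d
  refine ⟨0, by simp, fun G hG hG0 => ?_⟩
  obtain ⟨i, j, hij⟩ := exists_pc_ne hG0
  refine ⟨i, j, ?_, ?_⟩
  · rw [cf_ex_trunc 0 (i + 1) G i j (by omega)]
    have : PowerSeries.trunc (i + 1) (0 : PowerSeries ℂ) = 0 := by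
      ext n
      simp
    rw [this, map_zero, add_zero, sub2_id]
    exact hij
  · have := hG i j hij
    have h2 : (i : ℝ) + j ≤ d := by exact_mod_cast this
    linarith

/-- `s` is a minimal square root: `μ̂(s²) ≤ s`. -/
def SMin (s : ℝ) : Prop := 1 ≤ s ∧ MuHatLe (s ^ 2) s

theorem SMin.move {s : ℝ} (h : SMin s) (a b : ℕ) (hab : s ^ 2 ≤ a * s ^ 2 + b) :
    SMin (a * s + b / s) := by
  obtain ⟨h1, h2⟩ := h
  have hs : 0 < s := by linarith
  have h3 := h2.closure (by nlinarith) a b hab
  have e1 : ((a : ℝ) * s ^ 2 + b) ^ 2 / s ^ 2 = (a * s + b / s) ^ 2 := by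
    field_simp
  have e2 : ((a : ℝ) * s ^ 2 + b) / s ^ 2 * s = a * s + b / s := by
    field_simp
  rw [e1, e2] at h3
  refine ⟨?_, h3⟩
  have e3 : (a : ℝ) * s + b / s = (a * s ^ 2 + b) / s := by field_simp
  rw [e3, le_div_iff₀ hs]
  nlinarith

theorem SMin.one : SMin 1 := ⟨le_refl _, by simpa using muHatLe_one⟩

theorem SMin.nat {n : ℕ} (hn : 1 ≤ n) : SMin n := by
  have h1 : (1 : ℝ) ≤ n := by exact_mod_cast hn
  have := SMin.one.move n 0 (by simpa using h1)
  simpa using this

/-- The bound at `t` from a minimal `s ≥ √t`. -/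
theorem SMin.bound {s t : ℝ} (h : SMin s) (_ht : 0 ≤ t) (hts : Real.sqrt t ≤ s) : MuHatLe t s :=
  h.2.mono (by
    have h1 : 0 ≤ s := by linarith [h.1]
    exact (Real.sqrt_le_left h1).mp hts) le_rfl

/-- **Approximation.** Every `S ≥ 1` is approximated from above by minimal square roots, with
superpolynomially small error. -/
theorem approx (k : ℕ) : ∀ S : ℝ, 1 ≤ S → ∃ s : ℝ, SMin s ∧ S ≤ s ∧ s ≤ S + 1 ∧
    s ≤ S + ∏ j ∈ range k, (6 * 2 ^ j / S) := by
  induction k with
  | zero =>
    intro S hS
    refine ⟨(⌈S⌉₊ : ℕ), SMin.nat ?_, Nat.le_ceil S, ?_, ?_⟩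
    · exact Nat.one_le_ceil_iff.mpr (by linarith)
    · exact (Nat.ceil_lt_add_one (by linarith)).le
    · simpa using (Nat.ceil_lt_add_one (by linarith)).le
  | succ k ih =>
    intro S hS
    have hS0 : 0 < S := by linarith
    by_cases hbig : (1 : ℝ) ≤ ∏ j ∈ range (k + 1), (6 * 2 ^ j / S)
    · -- the bound is trivial
      obtain ⟨s, h1, h2, h3, _⟩ := ih S hS
      exact ⟨s, h1, h2, h3, by linarith⟩
    · have hS2 : 2 ≤ S := by
        by_contra hlt
        push Not at hlt
        apply hbig
        have h1 : ∏ j ∈ range (k + 1), (1 : ℝ) ≤ ∏ j ∈ range (k + 1), (6 * 2 ^ j / S) := by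
          apply Finset.prod_le_prod
          · intro j _
            norm_num
          · intro j _
            rw [le_div_iff₀ hS0]
            have : (1 : ℝ) ≤ 2 ^ j := one_le_pow₀ (by norm_num)
            linarith
        simpa using h1
      set β : ℕ := ⌊S ^ 2 / 4⌋₊ with hβ
      have hβ1 : (β : ℝ) ≤ S ^ 2 / 4 := Nat.floor_le (by positivity)
      have hβ2 : S ^ 2 / 4 < β + 1 := Nat.lt_floor_add_one _
      set δ : ℝ := Real.sqrt (S ^ 2 - 4 * β) with hδ
      have hδ0 : 0 ≤ δ := Real.sqrt_nonneg _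
      have hδsq : δ ^ 2 = S ^ 2 - 4 * β := Real.sq_sqrt (by linarith)
      have hδ2 : δ ≤ 2 := by nlinarith
      set x : ℝ := (S + δ) / 2 with hx
      have hxS : S / 2 ≤ x := by linarith
      have hx1 : 1 ≤ x := by linarith
      have hx0 : 0 < x := by linarith
      have hxβ : x ^ 2 - (β : ℝ) = x * δ := by
        rw [hx]
        nlinarith
      obtain ⟨s, hs, hxs, hs1, hsk⟩ := ih x hx1
      have hs0 : 0 < s := by linarith [hs.1]
      have hmove := hs.move 1 β (by
        have : (0 : ℝ) ≤ β := by positivity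
        push_cast
        linarith)
      have hval : (1 : ℕ) * s + (β : ℝ) / s - S = (s - x) * (s - x + δ) / s := by
        have hS' : S = x + (β : ℝ) / x := by
          have : (β : ℝ) = x ^ 2 - x * δ := by linarith
          rw [this]
          field_simp
          rw [hx]; ring
        have hβ' : (β : ℝ) = x * (x - δ) := by linarith
        rw [eq_div_iff hs0.ne', hS', hβ']
        push_cast
        field_simp
        ring
      have hnn : 0 ≤ (s - x) * (s - x + δ) / s := by
        apply div_nonneg _ hs0.le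
        exact mul_nonneg (by linarith) (by linarith)
      have hle : (s - x) * (s - x + δ) / s ≤ (s - x) * (6 / S) := by
        rw [div_le_iff₀ hs0]
        have h1 : s - x + δ ≤ 3 := by linarith
        have h2 : 3 ≤ 6 / S * s := by
          rw [div_mul_eq_mul_div, le_div_iff₀ hS0]
          linarith
        calc (s - x) * (s - x + δ) ≤ (s - x) * 3 := mul_le_mul_of_nonneg_left h1 (by linarith)
          _ ≤ (s - x) * (6 / S * s) := mul_le_mul_of_nonneg_left h2 (by linarith)
          _ = (s - x) * (6 / S) * s := by ring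
      have hprod : (∏ j ∈ range k, (6 * 2 ^ j / x)) * (6 / S) ≤
          ∏ j ∈ range (k + 1), (6 * 2 ^ j / S) := by
        rw [Finset.prod_range_succ']
        have h0 : (6 : ℝ) * 2 ^ 0 / S = 6 / S := by norm_num
        rw [h0]
        apply mul_le_mul_of_nonneg_right _ (by positivity)
        apply Finset.prod_le_prod
        · intro j _
          positivity
        · intro j _
          rw [div_le_div_iff₀ hx0 hS0, pow_succ]
          have h6 : (0 : ℝ) ≤ 6 * 2 ^ j := by positivity
          nlinarith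
      have hfin : (1 : ℕ) * s + (β : ℝ) / s ≤ S + ∏ j ∈ range (k + 1), (6 * 2 ^ j / S) := by
        have h1 : (s - x) * (6 / S) ≤ (∏ j ∈ range k, (6 * 2 ^ j / x)) * (6 / S) :=
          mul_le_mul_of_nonneg_right (by linarith) (by positivity)
        linarith
      refine ⟨(1 : ℕ) * s + (β : ℝ) / s, hmove, by linarith, ?_, hfin⟩
      push Not at hbig
      linarith

end Pool.Agent.QMVal
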