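import Mathlib
import Pool.Agent.Lib.QMOrbit

set_option autoImplicit false

/-!
Seeds: minimal values from curves with a smooth branch.
-/

namespace Pool.Agent.QMVal

open Finset

/-- A prime curve of degree `e` with a smooth branch `ξ` along which `∂C/∂y` has order `r` gives the
minimal value `s`, `s² + r = e s`. -/
theorem seed_irr {C : Polynomial (Polynomial ℂ)} (hC : Prime C) {e : ℕ} (he : 0 < e)
    (hCe : HasTD e C) (ξ : PowerSeries ℂ) (hξ : PowerSeries.constantCoeff ξ = 0)
    (h0 : ∀ i, cf (ex ξ C) i 0 = 0) (r : ℕ) (h1 : cf (ex ξ C) r 1 ≠ 0)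
    (h1' : ∀ i < r, cf (ex ξ C) i 1 = 0) {s : ℝ} (hs1 : 1 ≤ s) (hs : s ^ 2 + r = e * s)
    (hr : (r : ℝ) ≤ s ^ 2) : SMin s := by
  refine ⟨hs1, ?_⟩
  have ht : 0 < s ^ 2 := by positivity
  have hsq : Real.sqrt (s ^ 2) = s := Real.sqrt_sq (by linarith)
  have hX := X_mul_mk' ξ hξ
  have key := very_general_of_curve ht (fun k => PowerSeries.coeff (k + 1) ξ) hC he hCe
    (by
      rw [hX, hsq]
      refine ⟨r, 1, h1, ?_⟩
      push_cast
      linarith)
    (by
      rw [hX, hsq]
      intro i j hij
      rcases j with _ | _ | j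
      · exact absurd (h0 i) hij
      · have hir : r ≤ i := by
          by_contra hc
          exact hij (h1' i (by omega))
        have : (r : ℝ) ≤ i := by exact_mod_cast hir
        push_cast
        linarith
      · push_cast
        have hi : (0 : ℝ) ≤ i := by positivity
        have hj : (0 : ℝ) ≤ j := by positivity
        nlinarith [mul_nonneg ht.le hj])
  rw [hsq] at key
  exact key

theorem pc_quad (D : Polynomial ℂ) (i j : ℕ) :
    pc (Polynomial.X ^ 2 - Polynomial.C D) i j =
      (if j = 2 ∧ i = 0 then 1 else 0) - (if j = 0 then D.coeff i else 0) := by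
  unfold pc
  rw [Polynomial.coeff_sub, Polynomial.coeff_X_pow, Polynomial.coeff_C]
  rcases Nat.eq_zero_or_pos j with hj | hj
  · subst hj
    simp
  · rw [if_neg (by omega : ¬ j = 0), if_neg (by omega : ¬ j = 0)]
    by_cases h2 : j = 2
    · subst h2
      simp [Polynomial.coeff_one]
    · rw [if_neg h2, if_neg (fun h => h2 h.1)]
      simp

theorem hasTD_quad {D : Polynomial ℂ} (hD : 2 ≤ D.natDegree) :
    HasTD D.natDegree (Polynomial.X ^ 2 - Polynomial.C D) := by
  constructor
  · intro i j h
    rw [pc_quad] at h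
    by_cases h1 : j = 2 ∧ i = 0
    · omega
    · by_cases h2 : j = 0
      · rw [if_neg h1, if_pos h2] at h
        have h3 : D.coeff i ≠ 0 := by
          intro h4
          rw [h4] at h
          exact h (by simp)
        have := Polynomial.le_natDegree_of_ne_zero h3
        omega
      · rw [if_neg h1, if_neg h2] at h
        exact absurd (by simp) h
  · refine ⟨D.natDegree, 0, ?_, rfl⟩
    rw [pc_quad, if_neg (by omega), if_pos rfl]
    have : D ≠ 0 := by
      rintro rfl
      simp at hD
    simpa using this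

theorem prime_quad {D : Polynomial ℂ} (hD : ∀ a : Polynomial ℂ, a ^ 2 ≠ D) :
    Prime (Polynomial.X ^ 2 - Polynomial.C D : Polynomial (Polynomial ℂ)) := by
  have hm : (Polynomial.X ^ 2 - Polynomial.C D : Polynomial (Polynomial ℂ)).Monic :=
    Polynomial.monic_X_pow_sub_C D (by norm_num)
  have hd : (Polynomial.X ^ 2 - Polynomial.C D : Polynomial (Polynomial ℂ)).natDegree = 2 :=
    Polynomial.natDegree_X_pow_sub_C
  have hirr : Irreducible (Polynomial.X ^ 2 - Polynomial.C D : Polynomial (Polynomial ℂ)) := by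
    rw [hm.irreducible_iff_roots_eq_zero_of_degree_le_three (by omega) (by omega)]
    rw [Multiset.eq_zero_iff_forall_notMem]
    intro a ha
    have h1 := Polynomial.isRoot_of_mem_roots ha
    rw [Polynomial.IsRoot.def, Polynomial.eval_sub, Polynomial.eval_pow, Polynomial.eval_X,
      Polynomial.eval_C, sub_eq_zero] at h1
    exact hD a h1
  exact hirr.prime

/-- expansion of `y² - D` at a branch `ξ² = D` -/
theorem ex_quad (D : Polynomial ℂ) (ξ : PowerSeries ℂ) (h : ξ ^ 2 = (D : PowerSeries ℂ)) :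
    ex ξ (Polynomial.X ^ 2 - Polynomial.C D) =
      Polynomial.C (2 * ξ) * Polynomial.X + Polynomial.X ^ 2 := by
  rw [map_sub, map_pow, ex_X, ex_C, ← h, map_pow, map_mul]
  have : Polynomial.C (2 : PowerSeries ℂ) = 2 := map_ofNat Polynomial.C 2
  rw [this]
  ring

/-- The seeds from `y² = D`. -/
theorem seed_quad {D : Polynomial ℂ} (hD2 : 2 ≤ D.natDegree)
    (hD : ∀ a : Polynomial ℂ, a ^ 2 ≠ D) (ξ : PowerSeries ℂ) (h : ξ ^ 2 = (D : PowerSeries ℂ))
    (r : ℕ) (hr0 : 0 < r) (hξr : PowerSeries.coeff r ξ ≠ 0) (hξr' : ∀ i < r, PowerSeries.coeff i ξ = 0)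
    {s : ℝ} (hs1 : 1 ≤ s) (hs : s ^ 2 + r = D.natDegree * s) (hr : (r : ℝ) ≤ s ^ 2) : SMin s := by
  have hξ0 : PowerSeries.constantCoeff ξ = 0 := by
    have := hξr' 0 hr0
    simpa using this
  have hcf : ∀ i j, cf (ex ξ (Polynomial.X ^ 2 - Polynomial.C D)) i j =
      (if j = 1 then 2 * PowerSeries.coeff i ξ else 0) + (if j = 2 ∧ i = 0 then 1 else 0) := by
    intro i j
    rw [ex_quad D ξ h]
    unfold cf
    rw [Polynomial.coeff_add, Polynomial.coeff_C_mul, Polynomial.coeff_X, Polynomial.coeff_X_pow,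
      map_add]
    have h2 : PowerSeries.coeff i (2 * ξ) = 2 * PowerSeries.coeff i ξ := by
      rw [two_mul, map_add, two_mul]
    congr 1
    · by_cases hj : j = 1
      · subst hj
        rw [if_pos rfl, if_pos rfl, mul_one, h2]
      · rw [if_neg (Ne.symm hj), if_neg hj]
        simp
    · by_cases hj : j = 2
      · subst hj
        simp [PowerSeries.coeff_one]
      · rw [if_neg hj, if_neg (fun h => hj h.1)]
        simp
  apply seed_irr (prime_quad hD) (by omega) (hasTD_quad hD2) ξ hξ0 _ r _ _ hs1 hs hr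
  · intro i
    rw [hcf]
    simp
  · rw [hcf]
    simpa using hξr
  · intro i hi
    rw [hcf, hξr' i hi]
    simp

/-- The nodal cubic `y² = x²(1+x)`: the golden seed `(3+√5)/2`. -/
theorem SMin.golden : SMin ((3 + Real.sqrt 5) / 2) := by
  have h5 : Real.sqrt 5 ^ 2 = 5 := Real.sq_sqrt (by norm_num)
  have h5' : 2 ≤ Real.sqrt 5 := by
    rw [show (2 : ℝ) = Real.sqrt 4 by
      rw [show (4 : ℝ) = 2 ^ 2 by norm_num, Real.sqrt_sq (by norm_num)]]
    exact Real.sqrt_le_sqrt (by norm_num)
  set D : Polynomial ℂ := Polynomial.X ^ 2 * (1 + Polynomial.X) with hDdef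
  have hne : (1 + Polynomial.X : Polynomial ℂ) ≠ 0 := by
    intro h
    have := congrArg (fun p => Polynomial.coeff p 0) h
    simp at this
  have hdeg : D.natDegree = 3 := by
    rw [hDdef, Polynomial.natDegree_mul (pow_ne_zero _ Polynomial.X_ne_zero) hne,
      Polynomial.natDegree_X_pow, add_comm (1 : Polynomial ℂ), ← Polynomial.C_1,
      Polynomial.natDegree_X_add_C]
  set ρ : PowerSeries ℂ := PowerSeries.binomialSeries ℂ (1 / 2 : ℚ) with hρ
  have hρ2 : ρ ^ 2 = 1 + PowerSeries.X := by
    rw [sq, hρ, ← PowerSeries.binomialSeries_add]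
    have : (1 / 2 : ℚ) + 1 / 2 = ((1 : ℕ) : ℚ) := by norm_num
    rw [this, PowerSeries.binomialSeries_nat]
    simp
  have hρ0 : PowerSeries.coeff 0 ρ = 1 := by
    rw [PowerSeries.coeff_zero_eq_constantCoeff_apply, hρ]
    exact PowerSeries.binomialSeries_constantCoeff _
  have := seed_quad (D := D) (by omega) (by
      intro a ha
      have := congrArg Polynomial.natDegree ha
      rw [Polynomial.natDegree_pow, hdeg] at this
      omega) (PowerSeries.X * ρ) (by
      rw [mul_pow, hρ2, hDdef]
      simp) 1 one_pos (by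
      have : PowerSeries.coeff (0 + 1) (PowerSeries.X * ρ) = PowerSeries.coeff 0 ρ :=
        PowerSeries.coeff_succ_X_mul 0 ρ
      rw [zero_add] at this
      rw [this, hρ0]
      norm_num) (by
      intro i hi
      have : i = 0 := by omega
      subst this
      simp) (s := (3 + Real.sqrt 5) / 2) (by linarith) (by
      rw [hdeg]
      push_cast
      nlinarith) (by
      push_cast
      nlinarith)
  exact this

end Pool.Agent.QMVal
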