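import Mathlib
import Pool.Agent.Lib.QMSeeds

set_option autoImplicit false

/-!
Minimal values are dense up to a factor `65/64`, and superpolynomially dense at infinity.
-/

namespace Pool.Agent.QMVal

open Finset

theorem sqrt5_bounds : (2.236067 : ℝ) < Real.sqrt 5 ∧ Real.sqrt 5 < 2.236068 := by
  constructor
  · apply Real.lt_sqrt_of_sq_lt
    norm_num
  · rw [Real.sqrt_lt' (by norm_num)]
    norm_num

/-- the golden seed -/
noncomputable def gg : ℝ := (3 + Real.sqrt 5) / 2

theorem gg_bounds : (2.6180335 : ℝ) < gg ∧ gg < 2.618034 := by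
  obtain ⟨h1, h2⟩ := sqrt5_bounds
  unfold gg
  constructor <;> linarith

theorem SMin.div {s : ℝ} (h : SMin s) (P : ℕ) (hP : s ^ 2 ≤ P) : SMin (P / s) := by
  have := h.move 0 P (by simpa using hP)
  simpa using this

theorem SMin.add {s : ℝ} (h : SMin s) (b : ℕ) : SMin (s + b / s) := by
  have := h.move 1 b (by
    have : (0 : ℝ) ≤ b := by positivity
    push_cast
    linarith)
  simpa using this

theorem smin_m7 : SMin (7 / gg) := by
  obtain ⟨h1, h2⟩ := gg_bounds
  have := SMin.golden.div 7 (by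
    show gg ^ 2 ≤ _
    push_cast
    nlinarith)
  exact_mod_cast this

theorem smin_a2 : SMin (63 / (8 * gg)) := by
  obtain ⟨h1, h2⟩ := gg_bounds
  have hg : gg ≠ 0 := by
    intro h
    rw [h] at h1
    norm_num at h1
  have h8 := smin_m7.div 8 (by
    rw [div_pow, div_le_iff₀ (by positivity)]
    push_cast
    nlinarith)
  have e8 : ((8 : ℕ) : ℝ) / (7 / gg) = 8 * gg / 7 := by
    push_cast
    field_simp
  rw [e8] at h8
  have h9 := h8.div 9 (by
    push_cast
    nlinarith)
  have e9 : ((9 : ℕ) : ℝ) / (8 * gg / 7) = 63 / (8 * gg) := by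
    push_cast
    field_simp
    norm_num
  rwa [e9] at h9

theorem smin_a3 : SMin (7 / gg + gg / 7) := by
  obtain ⟨h1, h2⟩ := gg_bounds
  have := smin_m7.add 1
  have e : ((1 : ℕ) : ℝ) / (7 / gg) = gg / 7 := by
    push_cast
    field_simp
  rwa [e] at this

theorem smin_a4 : SMin (8 / gg) := by
  obtain ⟨h1, h2⟩ := gg_bounds
  have := SMin.golden.div 8 (by
    show gg ^ 2 ≤ _
    push_cast
    nlinarith)
  exact_mod_cast this

theorem smin_52 : SMin (5 / 2) := by
  have := (SMin.nat (n := 2) (by norm_num)).add 1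
  norm_num at this
  exact this

theorem smin_a5 : SMin (90 / 29) := by
  have h1 := smin_52.add 1
  norm_num at h1
  have h2 := h1.div 9 (by norm_num)
  norm_num at h2
  exact h2

theorem smin_a6 : SMin (63 / 20) := by
  have h1 := smin_52.div 7 (by norm_num)
  norm_num at h1
  have h2 := h1.div 8 (by norm_num)
  norm_num at h2
  have h3 := h2.div 9 (by norm_num)
  norm_num at h3
  exact h3

/-- The net on `[3, 63/20]`. -/
theorem cover1 (x : ℝ) (h3 : 3 ≤ x) (hx : x ≤ 63 / 20) :
    ∃ u v : ℝ, SMin u ∧ SMin v ∧ 3 ≤ u ∧ v ≤ 63 / 20 ∧ u ≤ x ∧ x ≤ v ∧ v ≤ 65 / 64 * u := by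
  obtain ⟨h1, h2⟩ := gg_bounds
  have hg0 : 0 < gg := by linarith
  have a1 : SMin 3 := by
    have := SMin.nat (n := 3) (by norm_num)
    exact_mod_cast this
  have b2 : (3.00798 : ℝ) < 63 / (8 * gg) ∧ 63 / (8 * gg) < 3.00799 := by
    rw [lt_div_iff₀ (by positivity), div_lt_iff₀ (by positivity)]
    constructor <;> linarith
  have c7 : (2.67376 : ℝ) < 7 / gg ∧ 7 / gg < 2.67377 := by
    rw [lt_div_iff₀ (by positivity), div_lt_iff₀ (by positivity)]
    constructor <;> linarith
  have b3 : (3.04776 : ℝ) < 7 / gg + gg / 7 ∧ 7 / gg + gg / 7 < 3.04778 := by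
    constructor <;> linarith [c7.1, c7.2]
  have b4 : (3.05572 : ℝ) < 8 / gg ∧ 8 / gg < 3.05573 := by
    rw [lt_div_iff₀ (by positivity), div_lt_iff₀ (by positivity)]
    constructor <;> linarith
  rcases le_total x (63 / (8 * gg)) with c2 | c2
  · exact ⟨3, _, a1, smin_a2, le_rfl, by linarith [b2.2], h3, c2, by linarith [b2.2]⟩
  rcases le_total x (7 / gg + gg / 7) with c3 | c3
  · exact ⟨_, _, smin_a2, smin_a3, by linarith [b2.1], by linarith [b3.2], c2, c3,
      by linarith [b2.1, b3.2]⟩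
  rcases le_total x (8 / gg) with c4 | c4
  · exact ⟨_, _, smin_a3, smin_a4, by linarith [b3.1], by linarith [b4.2], c3, c4,
      by linarith [b3.1, b4.2]⟩
  rcases le_total x (90 / 29) with c5 | c5
  · exact ⟨_, _, smin_a4, smin_a5, by linarith [b4.1], by norm_num, c4, c5,
      by linarith [b4.1]⟩
  · exact ⟨_, _, smin_a5, smin_a6, by norm_num, le_rfl, c5, hx, by norm_num⟩

/-- The net on `[3, 10/3]`. -/
theorem cover2 (x : ℝ) (h3 : 3 ≤ x) (hx : x ≤ 10 / 3) :
    ∃ u v : ℝ, SMin u ∧ SMin v ∧ 3 ≤ u ∧ u ≤ x ∧ x ≤ v ∧ v ≤ 65 / 64 * u := by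
  have a7 : SMin (200 / 63) := by
    have := smin_a6.div 10 (by norm_num)
    norm_num at this
    exact this
  rcases le_total x (63 / 20) with c1 | c1
  · obtain ⟨u, v, hu, hv, h1, _, h2, h4, h5⟩ := cover1 x h3 c1
    exact ⟨u, v, hu, hv, h1, h2, h4, h5⟩
  rcases le_total x (200 / 63) with c2 | c2
  · exact ⟨_, _, smin_a6, a7, by norm_num, c1, c2, by norm_num⟩
  · have hx0 : 0 < x := by linarith
    have hy1 : 3 ≤ 10 / x := by
      rw [le_div_iff₀ hx0]
      linarith
    have hy2 : 10 / x ≤ 63 / 20 := by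
      rw [div_le_iff₀ hx0]
      linarith
    obtain ⟨u, v, hu, hv, hu3, hv3, h2, h4, h5⟩ := cover1 (10 / x) hy1 hy2
    have hu0 : 0 < u := by linarith
    have hv0 : 0 < v := by linarith
    have m1 := hv.div 10 (by
      push_cast
      nlinarith)
    have m2 := hu.div 10 (by
      push_cast
      nlinarith)
    push_cast at m1 m2
    refine ⟨10 / v, 10 / u, m1, m2, ?_, ?_, ?_, ?_⟩
    · rw [le_div_iff₀ hv0]
      linarith
    · rw [div_le_iff₀ hv0]
      rw [div_le_iff₀ hx0] at h4
      linarith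
    · rw [le_div_iff₀ hu0]
      rw [le_div_iff₀ hx0] at h2
      linarith
    · rw [mul_div_assoc', div_le_div_iff₀ hu0 hv0]
      nlinarith

/-- Every `S ≥ 3` is followed by a minimal value within a factor `65/64`. -/
theorem base_net (S : ℝ) (hS : 3 ≤ S) : ∃ s, SMin s ∧ S ≤ s ∧ s ≤ 65 / 64 * S := by
  rcases le_total S (10 / 3) with h | h
  · obtain ⟨u, v, _, hv, _, h1, h2, h3⟩ := cover2 S hS h
    exact ⟨v, hv, h2, by linarith⟩
  · have hS0 : 0 < S := by linarith
    set P := ⌈3 * S⌉₊ with hP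
    have hP1 : 3 * S ≤ P := Nat.le_ceil _
    have hP2 : (P : ℝ) < 3 * S + 1 := Nat.ceil_lt_add_one (by positivity)
    have hP0 : (0 : ℝ) < P := by linarith
    have hx1 : 3 ≤ P / S := by
      rw [le_div_iff₀ hS0]
      exact hP1
    have hx2 : P / S ≤ 10 / 3 := by
      rw [div_le_iff₀ hS0]
      linarith
    obtain ⟨u, v, hu, _, hu3, h1, h2, h3⟩ := cover2 (P / S) hx1 hx2
    have hu0 : 0 < u := by linarith
    have huP : u * S ≤ P := by
      rwa [le_div_iff₀ hS0] at h1
    have m1 := hu.div P (by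
      have : u ≤ S := by linarith
      nlinarith)
    refine ⟨P / u, m1, ?_, ?_⟩
    · rw [le_div_iff₀ hu0]
      linarith
    · rw [div_le_iff₀ hu0]
      have h4 : P / S ≤ 65 / 64 * u := by linarith
      rw [div_le_iff₀ hS0] at h4
      linarith

/-- **Approximation**, with the constant `1/64`. -/
theorem approx2 (k : ℕ) : ∀ S : ℝ, 3 ≤ S → ∃ s : ℝ, SMin s ∧ S ≤ s ∧ s ≤ S + 1 ∧
    s ≤ S * (1 + 1 / 64 * ∏ j ∈ range k, (6 * 2 ^ j / S)) := by
  have base : ∀ S : ℝ, 3 ≤ S → ∃ s : ℝ, SMin s ∧ S ≤ s ∧ s ≤ S + 1 ∧ s ≤ 65 / 64 * S := by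
    intro S hS
    rcases le_total S 64 with h | h
    · obtain ⟨s, h1, h2, h3⟩ := base_net S hS
      exact ⟨s, h1, h2, by linarith, h3⟩
    · refine ⟨(⌈S⌉₊ : ℕ), SMin.nat ?_, Nat.le_ceil S, ?_, ?_⟩
      · exact Nat.one_le_ceil_iff.mpr (by linarith)
      · exact (Nat.ceil_lt_add_one (by linarith)).le
      · have := (Nat.ceil_lt_add_one (by linarith : (0 : ℝ) ≤ S)).le
        linarith
  induction k with
  | zero =>
    intro S hS
    obtain ⟨s, h1, h2, h3, h4⟩ := base S hS
    refine ⟨s, h1, h2, h3, ?_⟩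
    rw [Finset.prod_range_zero]
    linarith
  | succ k ih =>
    intro S hS
    have hS0 : 0 < S := by linarith
    rcases lt_or_ge S 6 with hlt | hge
    · obtain ⟨s, h1, h2, h3, h4⟩ := base S hS
      refine ⟨s, h1, h2, h3, ?_⟩
      have h5 : (1 : ℝ) ≤ ∏ j ∈ range (k + 1), (6 * 2 ^ j / S) := by
        have h1 : ∏ j ∈ range (k + 1), (1 : ℝ) ≤ ∏ j ∈ range (k + 1), (6 * 2 ^ j / S) := by
          apply Finset.prod_le_prod
          · intro j _
            norm_num
          · intro j _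
            rw [le_div_iff₀ hS0]
            have : (1 : ℝ) ≤ 2 ^ j := one_le_pow₀ (by norm_num)
            linarith
        simpa using h1
      nlinarith
    · set β : ℕ := ⌊S ^ 2 / 4⌋₊ with hβ
      have hβ1 : (β : ℝ) ≤ S ^ 2 / 4 := Nat.floor_le (by positivity)
      have hβ2 : S ^ 2 / 4 < β + 1 := Nat.lt_floor_add_one _
      set δ : ℝ := Real.sqrt (S ^ 2 - 4 * β) with hδ
      have hδ0 : 0 ≤ δ := Real.sqrt_nonneg _
      have hδsq : δ ^ 2 = S ^ 2 - 4 * β := Real.sq_sqrt (by linarith)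
      have hδ2 : δ ≤ 2 := by nlinarith
      set x : ℝ := (S + δ) / 2 with hx
      have hxS : S / 2 ≤ x := by linarith
      have hx3 : 3 ≤ x := by linarith
      have hx0 : 0 < x := by linarith
      have hxβ : x ^ 2 - (β : ℝ) = x * δ := by
        rw [hx]
        nlinarith
      obtain ⟨s, hs, hxs, hs1, hsk⟩ := ih x hx3
      have hs0 : 0 < s := by linarith [hs.1]
      have hmove := hs.add β
      have hval : s + (β : ℝ) / s - S = (s - x) * (s - x + δ) / s := by
        have hS' : S = x + (β : ℝ) / x := by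
          have : (β : ℝ) = x ^ 2 - x * δ := by linarith
          rw [this]
          field_simp
          rw [hx]; ring
        have hβ' : (β : ℝ) = x * (x - δ) := by linarith
        rw [eq_div_iff hs0.ne', hS', hβ']
        field_simp
        ring
      have hnn : 0 ≤ (s - x) * (s - x + δ) / s := by
        apply div_nonneg _ hs0.le
        exact mul_nonneg (by linarith) (by linarith)
      have hle1 : (s - x) * (s - x + δ) / s ≤ 1 := by
        rw [div_le_one hs0]
        nlinarith
      have hle : (s - x) * (s - x + δ) / s ≤ (s - x) / x * 3 := by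
        rw [div_le_iff₀ hs0, div_mul_eq_mul_div, div_mul_eq_mul_div, le_div_iff₀ hx0]
        have h1 : s - x + δ ≤ 3 := by linarith
        have h2 : 0 ≤ s - x := by linarith
        calc (s - x) * (s - x + δ) * x ≤ (s - x) * 3 * x := by
              apply mul_le_mul_of_nonneg_right _ hx0.le
              exact mul_le_mul_of_nonneg_left h1 h2
          _ ≤ (s - x) * 3 * s := mul_le_mul_of_nonneg_left hxs (by positivity)
      have hrel : (s - x) / x ≤ 1 / 64 * ∏ j ∈ range k, (6 * 2 ^ j / x) := by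
        rw [div_le_iff₀ hx0]
        linarith
      have hprod : (∏ j ∈ range k, (6 * 2 ^ j / x)) * (6 / S) ≤
          ∏ j ∈ range (k + 1), (6 * 2 ^ j / S) := by
        rw [Finset.prod_range_succ']
        have h0 : (6 : ℝ) * 2 ^ 0 / S = 6 / S := by norm_num
        rw [h0]
        apply mul_le_mul_of_nonneg_right _ (by positivity)
        apply Finset.prod_le_prod
        · intro j _
          positivity
        · intro j _
          rw [div_le_div_iff₀ hx0 hS0, pow_succ]
          have h6 : (0 : ℝ) ≤ 6 * 2 ^ j := by positivity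
          nlinarith
      have hfin : s + (β : ℝ) / s ≤ S * (1 + 1 / 64 * ∏ j ∈ range (k + 1), (6 * 2 ^ j / S)) := by
        have hp : 0 ≤ ∏ j ∈ range k, (6 * 2 ^ j / x) := Finset.prod_nonneg (fun j _ => by positivity)
        have h1 : (s - x) / x * 3 ≤ (1 / 64 * ∏ j ∈ range k, (6 * 2 ^ j / x)) * 6 := by
          have : 0 ≤ 1 / 64 * ∏ j ∈ range k, (6 * 2 ^ j / x) := by positivity
          linarith
        have h2 : (1 / 64 * ∏ j ∈ range k, (6 * 2 ^ j / x)) * 6 =
            S * (1 / 64 * ((∏ j ∈ range k, (6 * 2 ^ j / x)) * (6 / S))) := by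
          field_simp
        have h3 : S * (1 / 64 * ((∏ j ∈ range k, (6 * 2 ^ j / x)) * (6 / S))) ≤
            S * (1 / 64 * ∏ j ∈ range (k + 1), (6 * 2 ^ j / S)) := by
          apply mul_le_mul_of_nonneg_left _ hS0.le
          linarith
        linarith
      exact ⟨s + (β : ℝ) / s, hmove, by linarith, by linarith, hfin⟩

end Pool.Agent.QMVal
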