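import Mathlib

set_option autoImplicit false

open Set Topology

namespace Pool.Agent.ContinuumBasics

/-- `M` is the union of two proper subcontinua. -/
def Decomp {Z : Type*} [TopologicalSpace Z] (M : Set Z) : Prop :=
  ∃ A B : Set Z, A ⊆ M ∧ B ⊆ M ∧ A ≠ M ∧ B ≠ M ∧ IsCompact A ∧ IsConnected A ∧
            IsCompact B ∧ IsConnected B ∧ A ∪ B = M

/-- Helper: in a connected `N`, if `A` is a connected closed subset and `N \ A` is the union of two
relatively open disjoint pieces (cut out by `U`, `V`), then `A` together with the first piece is connected. -/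
lemma preconnected_union_piece {Z : Type*} [TopologicalSpace Z] {N A U V : Set Z}
    (hN : IsClosed N) (hNc : IsPreconnected N) (hA : IsClosed A) (hAc : IsPreconnected A)
    (hAne : A.Nonempty) (hAN : A ⊆ N) (hU : IsOpen U) (hV : IsOpen V)
    (hcov : N \ A ⊆ U ∪ V) (hdis : (N \ A) ∩ (U ∩ V) = ∅) :
    IsPreconnected (N \ (V \ A)) ∧ IsClosed (N \ (V \ A)) := by
  have hVA : IsOpen (V \ A) := hV.sdiff hA
  have hclosed : IsClosed (N \ (V \ A)) := hN.sdiff hVA
  refine ⟨?_, hclosed⟩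
  rw [isPreconnected_closed_iff]
  -- a symmetric statement
  have key : ∀ t t' : Set Z, IsClosed t → IsClosed t' → (N \ (V \ A)) ⊆ t ∪ t' →
      ((N \ (V \ A)) ∩ t').Nonempty → A ⊆ t →
      ((N \ (V \ A)) ∩ (t ∩ t')).Nonempty := by
    intro t t' ht ht' hsub hne' hAt
    by_contra hcon
    rw [Set.not_nonempty_iff_eq_empty] at hcon
    have hUA : IsOpen (U \ A) := hU.sdiff hA
    have h1 : IsClosed ((N \ (V \ A)) ∩ t') := hclosed.inter ht'
    have h2 : IsClosed ((N \ (U \ A)) ∪ ((N \ (V \ A)) ∩ t)) :=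
      (hN.sdiff hUA).union (hclosed.inter ht)
    have hc := (isPreconnected_closed_iff.1 hNc) _ _ h1 h2 (by
      intro z hz
      by_cases hzU : z ∈ N \ (U \ A)
      · exact Or.inr (Or.inl hzU)
      · have hzU' : z ∈ U \ A := by
          by_contra h
          exact hzU ⟨hz, h⟩
        have hzV : z ∉ V := by
          intro hzV
          have : z ∈ (N \ A) ∩ (U ∩ V) := ⟨⟨hz, hzU'.2⟩, hzU'.1, hzV⟩
          rw [hdis] at this
          exact this
        have hzB : z ∈ N \ (V \ A) := ⟨hz, fun h => hzV h.1⟩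
        rcases hsub hzB with h | h
        · exact Or.inr (Or.inr ⟨hzB, h⟩)
        · exact Or.inl ⟨hzB, h⟩) (by
      obtain ⟨z, hz, hz'⟩ := hne'
      exact ⟨z, hz.1, hz, hz'⟩) (by
      obtain ⟨z, hz⟩ := hAne
      exact ⟨z, hAN hz, Or.inl ⟨hAN hz, fun h => h.2 hz⟩⟩)
    obtain ⟨z, hzN, ⟨hzB, hzt'⟩, hz2⟩ := hc
    rcases hz2 with hz2 | hz2
    · -- z ∈ N \ (U \ A), z ∈ N \ (V \ A): so z ∈ A
      have hzA : z ∈ A := by
        by_contra hzA
        rcases hcov ⟨hzN, hzA⟩ with h | h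
        · exact hz2.2 ⟨h, hzA⟩
        · exact hzB.2 ⟨h, hzA⟩
      have : z ∈ (N \ (V \ A)) ∩ (t ∩ t') := ⟨hzB, hAt hzA, hzt'⟩
      rw [hcon] at this
      exact this
    · have : z ∈ (N \ (V \ A)) ∩ (t ∩ t') := ⟨hzB, hz2.2, hzt'⟩
      rw [hcon] at this
      exact this
  intro t t' ht ht' hsub hne hne'
  have hAB : A ⊆ N \ (V \ A) := fun z hz => ⟨hAN hz, fun h => h.2 hz⟩
  by_contra hcon
  have hAcl := isPreconnected_closed_iff.1 hAc t t' ht ht' (hAB.trans hsub)
  by_cases h1 : (A ∩ t).Nonempty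
  · by_cases h2 : (A ∩ t').Nonempty
    · obtain ⟨z, hz, hz'⟩ := hAcl h1 h2
      exact hcon ⟨z, hAB hz, hz'⟩
    · have hAt : A ⊆ t := by
        intro z hz
        rcases hsub (hAB hz) with h | h
        · exact h
        · exact absurd ⟨z, hz, h⟩ h2
      exact hcon (key t t' ht ht' hsub hne' hAt)
  · have hAt : A ⊆ t' := by
      intro z hz
      rcases hsub (hAB hz) with h | h
      · exact absurd ⟨z, hz, h⟩ h1
      · exact h
    have := key t' t ht' ht (by rw [Set.union_comm]; exact hsub) hne hAt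
    rw [Set.inter_comm t' t] at this
    exact hcon this

/-- A continuum having a proper subcontinuum with nonempty interior is decomposable. -/
theorem decomp_of_interior {Z : Type*} [TopologicalSpace Z] [T2Space Z] {N A : Set Z}
    (hN : IsCompact N) (hNc : IsConnected N) (hA : IsCompact A) (hAc : IsConnected A)
    (hAN : A ⊆ N) (hne : A ≠ N) {w : Z} (hw : w ∈ N) (hwA : w ∉ closure (N \ A)) :
    Decomp N := by
  have hNcl : IsClosed N := hN.isClosed
  have hAcl : IsClosed A := hA.isClosed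
  have hdiff : (N \ A).Nonempty := by
    rw [Set.sdiff_nonempty]
    intro h
    exact hne (Subset.antisymm hAN h)
  by_cases hcon : IsPreconnected (N \ A)
  · refine ⟨A, closure (N \ A), hAN, ?_, hne, ?_, hA, hAc, ?_, ?_, ?_⟩
    · exact hNcl.closure_subset_iff.2 sdiff_subset
    · intro h
      rw [h] at hwA
      exact hwA hw
    · exact hN.of_isClosed_subset isClosed_closure (hNcl.closure_subset_iff.2 sdiff_subset)
    · exact ⟨hdiff.mono subset_closure, hcon.closure⟩
    · apply Subset.antisymm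
      · exact union_subset hAN (hNcl.closure_subset_iff.2 sdiff_subset)
      · intro z hz
        by_cases hzA : z ∈ A
        · exact Or.inl hzA
        · exact Or.inr (subset_closure ⟨hz, hzA⟩)
  · unfold IsPreconnected at hcon
    push Not at hcon
    obtain ⟨U, V, hU, hV, hcov, hneU, hneV, hdis⟩ := hcon
    obtain ⟨hB, hBcl⟩ := preconnected_union_piece hNcl hNc.isPreconnected hAcl hAc.isPreconnected
      hAc.nonempty hAN hU hV hcov hdis
    obtain ⟨hC, hCcl⟩ := preconnected_union_piece (U := V) (V := U) hNcl hNc.isPreconnected hAcl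
      hAc.isPreconnected hAc.nonempty hAN hV hU (by rw [Set.union_comm]; exact hcov)
      (by rw [Set.inter_comm V U]; exact hdis)
    obtain ⟨a, ha⟩ := hAc.nonempty
    refine ⟨N \ (V \ A), N \ (U \ A), sdiff_subset, sdiff_subset, ?_, ?_,
      hN.of_isClosed_subset hBcl sdiff_subset, ⟨⟨a, hAN ha, fun h => h.2 ha⟩, hB⟩,
      hN.of_isClosed_subset hCcl sdiff_subset, ⟨⟨a, hAN ha, fun h => h.2 ha⟩, hC⟩, ?_⟩
    · intro h
      obtain ⟨z, hz, hzV⟩ := hneV
      have : z ∈ N \ (V \ A) := by rw [h]; exact hz.1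
      exact this.2 ⟨hzV, hz.2⟩
    · intro h
      obtain ⟨z, hz, hzU⟩ := hneU
      have : z ∈ N \ (U \ A) := by rw [h]; exact hz.1
      exact this.2 ⟨hzU, hz.2⟩
    · apply Subset.antisymm
      · exact union_subset sdiff_subset sdiff_subset
      · intro z hz
        by_cases h : z ∈ V \ A
        · refine Or.inr ⟨hz, ?_⟩
          intro h'
          have : z ∈ (N \ A) ∩ (U ∩ V) := ⟨⟨hz, h.2⟩, h'.1, h.1⟩
          rw [hdis] at this
          exact this
        · exact Or.inl ⟨hz, h⟩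

/-- Preimage of an interval under a continuous injection of a compact set is connected. -/
lemma preconnected_of_injOn {Z : Type*} [TopologicalSpace Z] {A : Set Z} (hA : IsCompact A)
    {τ : Z → ℝ} (hτ : ContinuousOn τ A) (hinj : InjOn τ A) (himg : IsPreconnected (τ '' A)) :
    IsPreconnected A := by
  rw [isPreconnected_closed_iff]
  intro t t' ht ht' hsub hne hne'
  have h1 : IsClosed (τ '' (A ∩ t)) :=
    ((hA.inter_right ht).image_of_continuousOn (hτ.mono inter_subset_left)).isClosed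
  have h2 : IsClosed (τ '' (A ∩ t')) :=
    ((hA.inter_right ht').image_of_continuousOn (hτ.mono inter_subset_left)).isClosed
  have := isPreconnected_closed_iff.1 himg _ _ h1 h2 (by
    rintro _ ⟨z, hz, rfl⟩
    rcases hsub hz with h | h
    · exact Or.inl ⟨z, ⟨hz, h⟩, rfl⟩
    · exact Or.inr ⟨z, ⟨hz, h⟩, rfl⟩) (by
    obtain ⟨z, hz⟩ := hne
    exact ⟨τ z, ⟨z, hz.1, rfl⟩, ⟨z, hz, rfl⟩⟩) (by
    obtain ⟨z, hz⟩ := hne'
    exact ⟨τ z, ⟨z, hz.1, rfl⟩, ⟨z, hz, rfl⟩⟩)
  obtain ⟨v, -, ⟨z, hz, hzv⟩, ⟨z', hz', hzv'⟩⟩ := this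
  have : z = z' := hinj hz.1 hz'.1 (hzv.trans hzv'.symm)
  subst this
  exact ⟨z, hz.1, hz.2, hz'.2⟩

/-- A nondegenerate continuum with a nonempty open subset that injects continuously into the line
is decomposable. -/
theorem decomp_of_injOn {Z : Type*} [TopologicalSpace Z] [TopologicalSpace.MetrizableSpace Z]
    {N G : Set Z} (hN : IsCompact N) (hNc : IsConnected N) (hnt : N.Nontrivial)
    (hG : IsOpen G) {x : Z} (hxN : x ∈ N) (hxG : x ∈ G) {τ : Z → ℝ}
    (hτ : ContinuousOn τ (N ∩ G)) (hinj : InjOn τ (N ∩ G)) :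
    Decomp N := by
  let _ : MetricSpace Z := TopologicalSpace.metrizableSpaceMetric Z
  obtain ⟨y, hyN, hyx⟩ := hnt.exists_ne x
  obtain ⟨ε₀, hε₀, hball⟩ := Metric.isOpen_iff.1 hG x hxG
  set ε := min (ε₀ / 2) (dist y x / 2) with hε
  have hdy : 0 < dist y x := dist_pos.2 hyx
  have hεpos : 0 < ε := lt_min (by linarith) (by linarith)
  have hcbG : Metric.closedBall x ε ⊆ G := by
    intro z hz
    apply hball
    rw [Metric.mem_ball]
    rw [Metric.mem_closedBall] at hz
    have := min_le_left (ε₀ / 2) (dist y x / 2)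
    linarith
  have hyB : y ∉ Metric.closedBall x ε := by
    rw [Metric.mem_closedBall]
    have := min_le_right (ε₀ / 2) (dist y x / 2)
    intro h
    linarith
  have hEcomp : IsCompact (N ∩ Metric.closedBall x ε) := hN.inter_right Metric.isClosed_closedBall
  have hsubE : N ∩ Metric.closedBall x ε ⊆ N ∩ G := fun z hz => ⟨hz.1, hcbG hz.2⟩
  have hτE : ContinuousOn τ (N ∩ Metric.closedBall x ε) := hτ.mono hsubE
  have hinjE : InjOn τ (N ∩ Metric.closedBall x ε) := hinj.mono hsubE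
  have hFcomp : IsCompact (N ∩ Metric.sphere x ε) := hN.inter_right Metric.isClosed_sphere
  have hsubF : N ∩ Metric.sphere x ε ⊆ N ∩ Metric.closedBall x ε :=
    fun z hz => ⟨hz.1, Metric.sphere_subset_closedBall hz.2⟩
  have hFcl : IsClosed (τ '' (N ∩ Metric.sphere x ε)) :=
    (hFcomp.image_of_continuousOn (hτE.mono hsubF)).isClosed
  have hxE : x ∈ N ∩ Metric.closedBall x ε := ⟨hxN, Metric.mem_closedBall_self hεpos.le⟩
  have heF : τ x ∉ τ '' (N ∩ Metric.sphere x ε) := by
    rintro ⟨z, hz, hzx⟩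
    have : z = x := hinjE (hsubF hz) hxE hzx
    subst this
    have := hz.2
    rw [Metric.mem_sphere, dist_self] at this
    linarith
  obtain ⟨δ, hδ, hδF⟩ := Metric.isOpen_iff.1 hFcl.isOpen_compl (τ x) heF
  -- main claim: a nondegenerate interval at `τ x` inside the image, avoiding the sphere image
  have claim : ∃ c d : ℝ, c < d ∧ Icc c d ⊆ τ '' (N ∩ Metric.closedBall x ε) ∧
      Icc c d ⊆ Metric.ball (τ x) δ := by
    by_contra hno
    push Not at hno
    have hr : ∃ z₂, τ x < z₂ ∧ z₂ < τ x + δ ∧ z₂ ∉ τ '' (N ∩ Metric.closedBall x ε) := by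
      by_contra h
      push Not at h
      refine hno (τ x) (τ x + δ / 2) (by linarith) ?_ ?_
      · intro v hv
        rcases eq_or_lt_of_le hv.1 with h' | h'
        · rw [← h']; exact ⟨x, hxE, rfl⟩
        · exact h v h' (by linarith [hv.2])
      · intro v hv
        rw [Metric.mem_ball, Real.dist_eq, abs_lt]
        constructor <;> linarith [hv.1, hv.2]
    have hl : ∃ z₁, z₁ < τ x ∧ τ x - δ < z₁ ∧ z₁ ∉ τ '' (N ∩ Metric.closedBall x ε) := by
      by_contra h
      push Not at h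
      refine hno (τ x - δ / 2) (τ x) (by linarith) ?_ ?_
      · intro v hv
        rcases eq_or_lt_of_le hv.2 with h' | h'
        · rw [h']; exact ⟨x, hxE, rfl⟩
        · exact h v h' (by linarith [hv.1])
      · intro v hv
        rw [Metric.mem_ball, Real.dist_eq, abs_lt]
        constructor <;> linarith [hv.1, hv.2]
    obtain ⟨z₂, hz₂, hz₂', hz₂E⟩ := hr
    obtain ⟨z₁, hz₁, hz₁', hz₁E⟩ := hl
    have hC1 : IsClosed ((N ∩ Metric.closedBall x ε) ∩ τ ⁻¹' (Icc z₁ z₂)) :=
      hτE.preimage_isClosed_of_isClosed hEcomp.isClosed isClosed_Icc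
    have hC2 : IsClosed ((N \ Metric.ball x ε) ∪
        ((N ∩ Metric.closedBall x ε) ∩ τ ⁻¹' (Iic z₁ ∪ Ici z₂))) :=
      (hN.isClosed.sdiff Metric.isOpen_ball).union
        (hτE.preimage_isClosed_of_isClosed hEcomp.isClosed (isClosed_Iic.union isClosed_Ici))
    have hc := isPreconnected_closed_iff.1 hNc.isPreconnected _ _ hC1 hC2 (by
      intro z hz
      by_cases hzb : z ∈ Metric.ball x ε
      · have hzE : z ∈ N ∩ Metric.closedBall x ε := ⟨hz, Metric.ball_subset_closedBall hzb⟩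
        rcases le_or_gt (τ z) z₁ with h | h
        · exact Or.inr (Or.inr ⟨hzE, Or.inl h⟩)
        · rcases le_or_gt z₂ (τ z) with h' | h'
          · exact Or.inr (Or.inr ⟨hzE, Or.inr h'⟩)
          · exact Or.inl ⟨hzE, h.le, h'.le⟩
      · exact Or.inr (Or.inl ⟨hz, hzb⟩)) (by
      exact ⟨x, hxN, hxE, hz₁.le, hz₂.le⟩) (by
      exact ⟨y, hyN, Or.inl ⟨hyN, fun h => hyB (Metric.ball_subset_closedBall h)⟩⟩)
    obtain ⟨z, hzN, ⟨hzE, hz1, hz2⟩, hz3⟩ := hc
    have hz1' : τ z ≠ z₁ := fun h => hz₁E ⟨z, hzE, h⟩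
    have hz2' : τ z ≠ z₂ := fun h => hz₂E ⟨z, hzE, h⟩
    rcases hz3 with hz3 | hz3
    · have hzs : z ∈ N ∩ Metric.sphere x ε := by
        refine ⟨hzN, ?_⟩
        rw [Metric.mem_sphere]
        have h1 := Metric.mem_closedBall.1 hzE.2
        have h2 : ¬ dist z x < ε := hz3.2
        linarith
      have : τ z ∈ (τ '' (N ∩ Metric.sphere x ε))ᶜ := by
        apply hδF
        rw [Metric.mem_ball, Real.dist_eq, abs_lt]
        constructor <;> linarith
      exact this ⟨z, hzs, rfl⟩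
    · rcases hz3.2 with h | h
      · exact hz1' (le_antisymm h hz1)
      · exact hz2' (le_antisymm hz2 h)
  obtain ⟨c, d, hcd, hIE, hIδ⟩ := claim
  set A : Set Z := (N ∩ Metric.closedBall x ε) ∩ τ ⁻¹' (Icc c d) with hAdef
  have hAcl : IsClosed A := hτE.preimage_isClosed_of_isClosed hEcomp.isClosed isClosed_Icc
  have hAN : A ⊆ N := fun z hz => hz.1.1
  have hAcomp : IsCompact A := hN.of_isClosed_subset hAcl hAN
  have hAE : A ⊆ N ∩ Metric.closedBall x ε := inter_subset_left
  have himg : τ '' A = Icc c d := by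
    apply Subset.antisymm
    · rintro _ ⟨z, hz, rfl⟩
      exact hz.2
    · intro v hv
      obtain ⟨z, hz, hzv⟩ := hIE hv
      exact ⟨z, ⟨hz, by rw [mem_preimage, hzv]; exact hv⟩, hzv⟩
  have hApre : IsPreconnected A := by
    apply preconnected_of_injOn hAcomp (hτE.mono hAE) (hinjE.mono hAE)
    rw [himg]
    exact isPreconnected_Icc
  have hm : (c + d) / 2 ∈ Icc c d := ⟨by linarith, by linarith⟩
  obtain ⟨w, hwE, hwm⟩ := hIE hm
  have hwA : w ∈ A := ⟨hwE, by rw [mem_preimage, hwm]; exact hm⟩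
  have hwball : w ∈ Metric.ball x ε := by
    rw [Metric.mem_ball]
    rcases lt_or_eq_of_le (Metric.mem_closedBall.1 hwE.2) with h | h
    · exact h
    · exfalso
      exact hδF (hIδ hm) ⟨w, ⟨hwE.1, h⟩, hwm⟩
  refine decomp_of_interior hN hNc hAcomp ⟨⟨w, hwA⟩, hApre⟩ hAN ?_ (w := w) hwE.1 ?_
  · intro h
    exact hyB (hAE (by rw [h]; exact hyN)).2
  · have hclosed : IsClosed ((N \ Metric.ball x ε) ∪
        ((N ∩ Metric.closedBall x ε) ∩ τ ⁻¹' (Iic c ∪ Ici d))) :=
      (hN.isClosed.sdiff Metric.isOpen_ball).union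
        (hτE.preimage_isClosed_of_isClosed hEcomp.isClosed (isClosed_Iic.union isClosed_Ici))
    intro hw
    have hsub : N \ A ⊆ (N \ Metric.ball x ε) ∪
        ((N ∩ Metric.closedBall x ε) ∩ τ ⁻¹' (Iic c ∪ Ici d)) := by
      rintro z ⟨hzN, hzA⟩
      by_cases hzb : z ∈ Metric.ball x ε
      · have hzE : z ∈ N ∩ Metric.closedBall x ε := ⟨hzN, Metric.ball_subset_closedBall hzb⟩
        refine Or.inr ⟨hzE, ?_⟩
        by_contra h
        simp only [mem_preimage, mem_union, mem_Iic, mem_Ici, not_or, not_le] at h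
        exact hzA ⟨hzE, h.1.le, h.2.le⟩
      · exact Or.inl ⟨hzN, hzb⟩
    rcases (closure_minimal hsub hclosed) hw with h | h
    · exact h.2 hwball
    · have := h.2
      rw [mem_preimage, hwm] at this
      rcases this with h | h
      · rw [mem_Iic] at h; linarith
      · rw [mem_Ici] at h; linarith

/-- Intersection of a nonempty chain of compact preconnected sets in a Hausdorff space is preconnected. -/
theorem isPreconnected_sInter_of_chain {Z : Type*} [TopologicalSpace Z] [T2Space Z] {c : Set (Set Z)}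
    (hne : c.Nonempty) (hchain : IsChain (· ⊆ ·) c) (hcomp : ∀ s ∈ c, IsCompact s)
    (hpre : ∀ s ∈ c, IsPreconnected s) : IsPreconnected (⋂₀ c) := by
  have hInt : IsCompact (⋂₀ c) := by
    obtain ⟨s, hs⟩ := hne
    exact (hcomp s hs).of_isClosed_subset (isClosed_sInter fun t ht => (hcomp t ht).isClosed)
      (sInter_subset_of_mem hs)
  rw [isPreconnected_closed_iff]
  intro t t' ht ht' hsub hne1 hne2
  by_contra hcon
  rw [Set.not_nonempty_iff_eq_empty] at hcon
  have hK : IsCompact (⋂₀ c ∩ t) := hInt.inter_right ht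
  have hK' : IsCompact (⋂₀ c ∩ t') := hInt.inter_right ht'
  have hdis : Disjoint (⋂₀ c ∩ t) (⋂₀ c ∩ t') := by
    rw [Set.disjoint_iff_inter_eq_empty, ← hcon]
    ext z
    simp only [mem_inter_iff]
    tauto
  obtain ⟨U, V, hU, hV, hKU, hK'V, hUV⟩ := SeparatedNhds.of_isCompact_isCompact hK hK' hdis
  have hcover : ⋂₀ c ⊆ U ∪ V := by
    intro z hz
    rcases hsub hz with h | h
    · exact Or.inl (hKU ⟨hz, h⟩)
    · exact Or.inr (hK'V ⟨hz, h⟩)
  -- some member of the chain is inside U ∪ V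
  have hex : ∃ s ∈ c, s ⊆ U ∪ V := by
    by_contra hno
    push Not at hno
    have : (⋂₀ ((fun s => s \ (U ∪ V)) '' c)).Nonempty := by
      have : Nonempty ((fun s => s \ (U ∪ V)) '' c) := by
        obtain ⟨s, hs⟩ := hne
        exact ⟨⟨_, ⟨s, hs, rfl⟩⟩⟩
      rw [sInter_eq_iInter]
      apply IsCompact.nonempty_iInter_of_directed_nonempty_isCompact_isClosed
      · rintro ⟨_, s, hs, rfl⟩ ⟨_, s', hs', rfl⟩
        rcases hchain.total hs hs' with h | h
        · exact ⟨⟨_, s, hs, rfl⟩, Subset.rfl, sdiff_subset_sdiff_left h⟩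
        · exact ⟨⟨_, s', hs', rfl⟩, sdiff_subset_sdiff_left h, Subset.rfl⟩
      · rintro ⟨_, s, hs, rfl⟩
        rw [Set.sdiff_nonempty]
        exact hno s hs
      · rintro ⟨_, s, hs, rfl⟩
        exact (hcomp s hs).diff (hU.union hV)
      · rintro ⟨_, s, hs, rfl⟩
        exact ((hcomp s hs).diff (hU.union hV)).isClosed
    obtain ⟨z, hz⟩ := this
    have hz1 : z ∈ ⋂₀ c := fun s hs => (hz (s \ (U ∪ V)) ⟨s, hs, rfl⟩).1
    obtain ⟨s, hs⟩ := hne
    exact (hz (s \ (U ∪ V)) ⟨s, hs, rfl⟩).2 (hcover hz1)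
  obtain ⟨s, hs, hsUV⟩ := hex
  obtain ⟨z1, hz1, hz1t⟩ := hne1
  obtain ⟨z2, hz2, hz2t⟩ := hne2
  obtain ⟨z, hz, hzU, hzV⟩ := hpre s hs U V hU hV hsUV ⟨z1, hz1 s hs, hKU ⟨hz1, hz1t⟩⟩
    ⟨z2, hz2 s hs, hK'V ⟨hz2, hz2t⟩⟩
  exact Set.disjoint_left.1 hUV hzU hzV

/-- Every continuum containing two points contains a subcontinuum irreducible between them. -/
theorem exists_irreducible {Z : Type*} [TopologicalSpace Z] [T2Space Z] {K : Set Z}
    (hK : IsCompact K) (hKc : IsConnected K) {x y : Z} (hx : x ∈ K) (hy : y ∈ K) :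
    ∃ L : Set Z, L ⊆ K ∧ IsCompact L ∧ IsConnected L ∧ x ∈ L ∧ y ∈ L ∧
      ∀ L' : Set Z, L' ⊆ L → IsCompact L' → IsConnected L' → x ∈ L' → y ∈ L' → L' = L := by
  obtain ⟨L, hLK, hL⟩ := zorn_superset_nonempty
    {L : Set Z | IsCompact L ∧ IsPreconnected L ∧ x ∈ L ∧ y ∈ L} (by
      intro c hc hchain hne
      refine ⟨⋂₀ c, ⟨?_, ?_, ?_, ?_⟩, fun s hs => sInter_subset_of_mem hs⟩
      · obtain ⟨s, hs⟩ := hne
        exact (hc hs).1.of_isClosed_subset (isClosed_sInter fun t ht => (hc ht).1.isClosed)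
          (sInter_subset_of_mem hs)
      · exact isPreconnected_sInter_of_chain hne hchain (fun s hs => (hc hs).1)
          (fun s hs => (hc hs).2.1)
      · exact fun s hs => (hc hs).2.2.1
      · exact fun s hs => (hc hs).2.2.2) K ⟨hK, hKc.isPreconnected, hx, hy⟩
  have hLm := hL.prop
  refine ⟨L, hLK, hLm.1, ⟨⟨x, hLm.2.2.1⟩, hLm.2.1⟩, hLm.2.2.1, hLm.2.2.2, ?_⟩
  intro L' hL' hc' hcon' hx' hy'
  exact hL.eq_of_subset ⟨hc', hcon'.isPreconnected, hx', hy'⟩ hL'

end Pool.Agent.ContinuumBasics
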