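import Pool.Agent.Lib.QuadFermatCore

set_option autoImplicit false

namespace Pool.Agent.Lib.QuadFermat

open NumberField

/-- Auxiliary: pass from ratios in `K` to integers of `K`, first chart. -/
lemma chartI (K : Type) [Field K] [NumberField K] (hK : Module.finrank ℚ K = 2) {n : ℕ}
    (hn : 5 ≤ n) {u v : K} (hu : u ≠ 0) (hv : v ≠ 0) (h : u ^ n + v ^ n = 1)
    (hi : IsIntegral ℤ u ∨ IsIntegral ℤ v) :
    ∃ m : ℕ, 0 < m ∧ u ^ m = 1 ∧ v ^ m = 1 := by
  have hiu : IsIntegral ℤ u := by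
    rcases hi with h1 | h1
    · exact h1
    · have : IsIntegral ℤ (u ^ n) := by
        have e : u ^ n = 1 - v ^ n := by rw [← h]; ring
        rw [e]; exact isIntegral_one.sub (h1.pow n)
      exact IsIntegral.of_pow (by omega) this
  have hiv : IsIntegral ℤ v := by
    have : IsIntegral ℤ (v ^ n) := by
      have e : v ^ n = 1 - u ^ n := by rw [← h]; ring
      rw [e]; exact isIntegral_one.sub (hiu.pow n)
    exact IsIntegral.of_pow (by omega) this
  let a : 𝓞 K := ⟨u, hiu⟩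
  let b : 𝓞 K := ⟨v, hiv⟩
  have hab : a ^ n + b ^ n = 1 := by
    apply RingOfIntegers.ext
    simpa [a, b] using h
  have ha : a ≠ 0 := fun h0 => hu (by simpa [a] using congrArg (fun x : 𝓞 K => (x : K)) h0)
  have hb : b ≠ 0 := fun h0 => hv (by simpa [b] using congrArg (fun x : 𝓞 K => (x : K)) h0)
  exact coreI K hK hn ha hb hab

/-- Auxiliary: pass from ratios in `K` to integers of `K`, second chart. -/
lemma chartII (K : Type) [Field K] [NumberField K] (hK : Module.finrank ℚ K = 2) {n : ℕ}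
    (hn : 5 ≤ n) {v w : K} (hv : v ≠ 0) (hw : w ≠ 0) (h : 1 + v ^ n = w ^ n)
    (hi : IsIntegral ℤ v ∨ IsIntegral ℤ w) :
    ∃ m : ℕ, 0 < m ∧ v ^ m = 1 ∧ w ^ m = 1 := by
  have hiv : IsIntegral ℤ v := by
    rcases hi with h1 | h1
    · exact h1
    · have : IsIntegral ℤ (v ^ n) := by
        have e : v ^ n = w ^ n - 1 := by rw [← h]; ring
        rw [e]; exact (h1.pow n).sub isIntegral_one
      exact IsIntegral.of_pow (by omega) this
  have hiw : IsIntegral ℤ w := by
    have : IsIntegral ℤ (w ^ n) := by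
      rw [← h]; exact isIntegral_one.add (hiv.pow n)
    exact IsIntegral.of_pow (by omega) this
  let b : 𝓞 K := ⟨v, hiv⟩
  let c : 𝓞 K := ⟨w, hiw⟩
  have hbc : 1 + b ^ n = c ^ n := by
    apply RingOfIntegers.ext
    simpa [b, c] using h
  have hb : b ≠ 0 := fun h0 => hv (by simpa [b] using congrArg (fun x : 𝓞 K => (x : K)) h0)
  have hc : c ≠ 0 := fun h0 => hw (by simpa [c] using congrArg (fun x : 𝓞 K => (x : K)) h0)
  exact coreII K hK hn hb hc hbc

/-- Let `K` be any quadratic number field and `n ≥ 5`. If `x ^ n + y ^ n = z ^ n` with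
`x, y, z` nonzero elements of `K`, and at least one of the six ratios of two of `x, y, z` is an
algebraic integer, then the solution is trivial: `x / z` and `y / z` are roots of unity.
Equivalently, in a nontrivial solution in integers of `K` none of `x, y, z` divides another. -/
theorem no_integral_ratio (K : Type) [Field K] [NumberField K] (hK : Module.finrank ℚ K = 2) (n : ℕ)
    (hn : 5 ≤ n) (x y z : K) (h : x ^ n + y ^ n = z ^ n) (hxyz : x * y * z ≠ 0)
    (hr : IsIntegral ℤ (x / y) ∨ IsIntegral ℤ (y / x) ∨ IsIntegral ℤ (x / z) ∨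
      IsIntegral ℤ (z / x) ∨ IsIntegral ℤ (y / z) ∨ IsIntegral ℤ (z / y)) :
    ∃ m : ℕ, 0 < m ∧ (x / z) ^ m = 1 ∧ (y / z) ^ m = 1 := by
  have hz : z ≠ 0 := right_ne_zero_of_mul hxyz
  have hxy : x * y ≠ 0 := left_ne_zero_of_mul hxyz
  have hx : x ≠ 0 := left_ne_zero_of_mul hxy
  have hy : y ≠ 0 := right_ne_zero_of_mul hxy
  have hI : (x / z) ^ n + (y / z) ^ n = 1 := by
    rw [div_pow, div_pow, ← add_div, h, div_self (pow_ne_zero n hz)]
  have hIIx : 1 + (y / x) ^ n = (z / x) ^ n := by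
    rw [div_pow, div_pow, ← h, add_div, div_self (pow_ne_zero n hx)]
  have hIIy : 1 + (x / y) ^ n = (z / y) ^ n := by
    rw [div_pow, div_pow, ← h, add_div, div_self (pow_ne_zero n hy)]; ring
  -- the three charts
  have c1 : IsIntegral ℤ (x / z) ∨ IsIntegral ℤ (y / z) →
      ∃ m : ℕ, 0 < m ∧ (x / z) ^ m = 1 ∧ (y / z) ^ m = 1 :=
    fun hi => chartI K hK hn (div_ne_zero hx hz) (div_ne_zero hy hz) hI hi
  have c2 : IsIntegral ℤ (y / x) ∨ IsIntegral ℤ (z / x) →
      ∃ m : ℕ, 0 < m ∧ (x / z) ^ m = 1 ∧ (y / z) ^ m = 1 := by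
    intro hi
    obtain ⟨m, hm, h1, h2⟩ := chartII K hK hn (div_ne_zero hy hx) (div_ne_zero hz hx) hIIx hi
    refine ⟨m, hm, ?_, ?_⟩
    · rw [← inv_div, inv_pow, h2, inv_one]
    · have : y / z = (y / x) * (z / x)⁻¹ := by field_simp
      rw [this, mul_pow, h1, inv_pow, h2]; simp
  have c3 : IsIntegral ℤ (x / y) ∨ IsIntegral ℤ (z / y) →
      ∃ m : ℕ, 0 < m ∧ (x / z) ^ m = 1 ∧ (y / z) ^ m = 1 := by
    intro hi
    obtain ⟨m, hm, h1, h2⟩ := chartII K hK hn (div_ne_zero hx hy) (div_ne_zero hz hy) hIIy hi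
    refine ⟨m, hm, ?_, ?_⟩
    · have : x / z = (x / y) * (z / y)⁻¹ := by field_simp
      rw [this, mul_pow, h1, inv_pow, h2]; simp
    · rw [← inv_div, inv_pow, h2, inv_one]
  rcases hr with hi | hi | hi | hi | hi | hi
  · exact c3 (Or.inl hi)
  · exact c2 (Or.inl hi)
  · exact c1 (Or.inl hi)
  · exact c2 (Or.inr hi)
  · exact c1 (Or.inr hi)
  · exact c3 (Or.inr hi)

end Pool.Agent.Lib.QuadFermat
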