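import Mathlib

/-!
# Products over a perturbed lattice

Estimates for `∏ (x² + (y - y_k)²)` and `∏ |y_n - y_k|` where the points `y_k` lie one in each
cell of length `g` (index `k < 2K`, centre of the picture at `0`).
-/

namespace Pool.Agent.Lib.SampleProd

open Finset Filter Topology

/-- Balanced products are smallest. -/
lemma prod_balanced {f : ℕ → ℝ} (hpos : ∀ j, 0 < f j) (hmono : Monotone f) {c d m : ℕ}
    (hcd : d ≤ c) (hm : m ≤ d) :
    (∏ j ∈ range c, f j) * (∏ j ∈ range d, f j) ≤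
      (∏ j ∈ range (c + m), f j) * ∏ j ∈ range (d - m), f j := by
  induction m with
  | zero => simp
  | succ m ih =>
    have ih' := ih (by omega)
    obtain ⟨e, he⟩ : ∃ e, d - m = e + 1 := ⟨d - m - 1, by omega⟩
    have he2 : d - (m + 1) = e := by omega
    rw [he, prod_range_succ] at ih'
    rw [he2, ← add_assoc, prod_range_succ]
    refine ih'.trans ?_
    have h1 : f e ≤ f (c + m) := hmono (by omega)
    have h2 : 0 ≤ (∏ j ∈ range (c + m), f j) * ∏ j ∈ range e, f j :=
      mul_nonneg (prod_nonneg fun j _ => (hpos j).le) (prod_nonneg fun j _ => (hpos j).le)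
    nlinarith

/-- Version with `a + b = 2K - 1`. -/
lemma prod_balanced' {f : ℕ → ℝ} (hpos : ∀ j, 0 < f j) (hmono : Monotone f) {a b K : ℕ}
    (hab : a + b + 1 = 2 * K) :
    (∏ j ∈ range K, f j) * (∏ j ∈ range (K - 1), f j) ≤
      (∏ j ∈ range a, f j) * ∏ j ∈ range b, f j := by
  rcases le_or_gt K a with h | h
  · have := prod_balanced hpos hmono (c := K) (d := K - 1) (m := a - K) (by omega) (by omega)
    rwa [show K + (a - K) = a by omega, show K - 1 - (a - K) = b by omega] at this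
  · have := prod_balanced hpos hmono (c := K) (d := K - 1) (m := b - K) (by omega) (by omega)
    rw [show K + (b - K) = b by omega, show K - 1 - (b - K) = a by omega] at this
    rwa [mul_comm (∏ j ∈ range a, f j)]

/-- The product over `range (2K)` split at `k₀`. -/
lemma prod_split (F : ℕ → ℝ) {K k₀ : ℕ} (hk : k₀ < 2 * K) :
    ∏ k ∈ range (2 * K), F k =
      (∏ j ∈ range k₀, F (k₀ - 1 - j)) * F k₀ * ∏ j ∈ range (2 * K - 1 - k₀), F (k₀ + 1 + j) := by
  have h1 : 2 * K = (k₀ + 1) + (2 * K - 1 - k₀) := by omega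
  conv_lhs => rw [h1, prod_range_add, prod_range_succ]
  rw [prod_range_reflect]

/-- The product over the indices different from `n`. -/
lemma prod_erase_split (F : ℕ → ℝ) {K n : ℕ} (hn : n < 2 * K) :
    ∏ k ∈ (range (2 * K)).erase n, F k =
      (∏ j ∈ range n, F (n - 1 - j)) * ∏ j ∈ range (2 * K - 1 - n), F (n + 1 + j) := by
  have h2 : ∏ k ∈ (range (2 * K)).erase n, F k = ∏ k ∈ (range (2 * K)).erase n,
      Function.update F n 1 k := by
    apply prod_congr rfl
    intro k hk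
    rw [Function.update_of_ne (ne_of_mem_erase hk)]
  have h3 : ∏ k ∈ range (2 * K), Function.update F n 1 k =
      ∏ k ∈ (range (2 * K)).erase n, Function.update F n 1 k := by
    rw [← mul_prod_erase _ _ (mem_range.mpr hn)]
    simp
  rw [h2, ← h3, prod_split _ hn]
  simp only [Function.update_self, mul_one]
  congr 1
  · apply prod_congr rfl
    intro j hj
    rw [mem_range] at hj
    rw [Function.update_of_ne (by omega)]
  · apply prod_congr rfl
    intro j _
    rw [Function.update_of_ne (by omega)]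

/-- sample points: `y k = (k - K + θ_k) g`, `θ_k ∈ [s, 1 - s]`, `k < 2K` -/
structure Samples (K : ℕ) (g s : ℝ) (y : ℕ → ℝ) : Prop where
  hK : 2 ≤ K
  hg : 0 < g
  hs : 0 < s
  hs2 : s ≤ 1 / 2
  lo : ∀ k, k < 2 * K → ((k : ℝ) - K + s) * g ≤ y k
  hi : ∀ k, k < 2 * K → y k ≤ ((k : ℝ) - K + 1 - s) * g

variable {K : ℕ} {g s : ℝ} {y : ℕ → ℝ}

lemma Samples.sep_right (h : Samples K g s y) {n j : ℕ} (hn : n < 2 * K)
    (hj : j < 2 * K - 1 - n) : (j + s) * g ≤ y (n + 1 + j) - y n := by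
  have h1 := h.lo (n + 1 + j) (by omega)
  have h2 := h.hi n hn
  have h3 := h.hg
  have h4 := h.hs
  push_cast at h1
  nlinarith

lemma Samples.sep_left (h : Samples K g s y) {n j : ℕ} (hn : n < 2 * K)
    (hj : j < n) : (j + s) * g ≤ y n - y (n - 1 - j) := by
  have h1 := h.lo n hn
  have h2 := h.hi (n - 1 - j) (by omega)
  have h3 := h.hg
  have h4 := h.hs
  have h5 : ((n - 1 - j : ℕ) : ℝ) = n - 1 - j := by
    rw [Nat.cast_sub (by omega), Nat.cast_sub (by omega)]; simp
  rw [h5] at h2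
  nlinarith

/-- the rising factorial `s (1+s) ⋯ (a-1+s)` -/
noncomputable def rise (s : ℝ) (a : ℕ) : ℝ := ∏ j ∈ range a, ((j : ℝ) + s)

lemma rise_ge {s : ℝ} (hs : 0 < s) (a : ℕ) : s * (a.factorial : ℝ) ≤ rise s (a + 1) := by
  induction a with
  | zero => simp [rise]
  | succ a ih =>
    unfold rise at ih ⊢
    rw [prod_range_succ, Nat.factorial_succ]
    push_cast
    have h1 : (0 : ℝ) ≤ a.factorial := by positivity
    have h2 : (0 : ℝ) ≤ s * a.factorial := by positivity
    have h3 : (0 : ℝ) ≤ (a : ℝ) + 1 := by positivity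
    calc s * (((a : ℝ) + 1) * a.factorial) = (s * a.factorial) * (a + 1) := by ring
      _ ≤ (∏ j ∈ range (a + 1), ((j : ℝ) + s)) * (a + 1 + s) := by
        apply mul_le_mul ih (by linarith) h3 (le_trans h2 ih)

/-- lower bound for the products of differences -/
lemma Samples.diff_prod (h : Samples K g s y) {n : ℕ} (hn : n < 2 * K) :
    g ^ (2 * K - 1) * (s * ((K - 1).factorial : ℝ)) * (s * ((K - 2).factorial : ℝ)) ≤
      ∏ k ∈ (range (2 * K)).erase n, |y n - y k| := by
  have hK := h.hK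
  have hg := h.hg
  have hs := h.hs
  rw [prod_erase_split _ hn]
  have h1 : ∏ j ∈ range n, (((j : ℝ) + s) * g) ≤ ∏ j ∈ range n, |y n - y (n - 1 - j)| := by
    apply Finset.prod_le_prod
    · intro j _; positivity
    · intro j hj
      exact (h.sep_left hn (mem_range.mp hj)).trans (le_abs_self _)
  have h2 : ∏ j ∈ range (2 * K - 1 - n), (((j : ℝ) + s) * g) ≤
      ∏ j ∈ range (2 * K - 1 - n), |y n - y (n + 1 + j)| := by
    apply Finset.prod_le_prod
    · intro j _; positivity
    · intro j hj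
      rw [abs_sub_comm]
      exact (h.sep_right hn (mem_range.mp hj)).trans (le_abs_self _)
  have h3 := mul_le_mul h1 h2 (prod_nonneg fun j _ => by positivity)
    (prod_nonneg fun j _ => abs_nonneg _)
  refine le_trans ?_ h3
  have hbal := prod_balanced' (f := fun j : ℕ => (j : ℝ) + s) (fun j => by positivity)
    (by intro a b hab; simp only; gcongr) (a := n) (b := 2 * K - 1 - n) (K := K) (by omega)
  rw [prod_mul_distrib, prod_mul_distrib, prod_const, prod_const, card_range, card_range]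
  have e1 : s * ((K - 1).factorial : ℝ) ≤ ∏ j ∈ range K, ((j : ℝ) + s) := by
    have := rise_ge hs (K - 1)
    unfold rise at this
    rwa [show K - 1 + 1 = K by omega] at this
  have e2 : s * ((K - 2).factorial : ℝ) ≤ ∏ j ∈ range (K - 1), ((j : ℝ) + s) := by
    have := rise_ge hs (K - 2)
    unfold rise at this
    rwa [show K - 2 + 1 = K - 1 by omega] at this
  have e3 : (s * ((K - 1).factorial : ℝ)) * (s * ((K - 2).factorial : ℝ)) ≤
      (∏ j ∈ range n, ((j : ℝ) + s)) * ∏ j ∈ range (2 * K - 1 - n), ((j : ℝ) + s) := by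
    refine le_trans ?_ hbal
    apply mul_le_mul e1 e2 (by positivity) (le_trans (by positivity) e1)
  have e4 : g ^ (2 * K - 1) = g ^ n * g ^ (2 * K - 1 - n) := by
    rw [← pow_add]; congr 1; omega
  rw [e4]
  have e5 : (0 : ℝ) ≤ g ^ n * g ^ (2 * K - 1 - n) := by positivity
  calc g ^ n * g ^ (2 * K - 1 - n) * (s * ((K - 1).factorial : ℝ)) * (s * ((K - 2).factorial : ℝ))
      = (g ^ n * g ^ (2 * K - 1 - n)) *
        ((s * ((K - 1).factorial : ℝ)) * (s * ((K - 2).factorial : ℝ))) := by ring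
    _ ≤ (g ^ n * g ^ (2 * K - 1 - n)) * ((∏ j ∈ range n, ((j : ℝ) + s)) *
        ∏ j ∈ range (2 * K - 1 - n), ((j : ℝ) + s)) := mul_le_mul_of_nonneg_left e3 e5
    _ = _ := by ring

/-- size of the cell -/
noncomputable def M (K k : ℕ) : ℝ := if k < K then (K : ℝ) - k else (k : ℝ) - K + 1

lemma M_ge_one (K k : ℕ) : 1 ≤ M K k := by
  unfold M
  split_ifs with h
  · have : ((k : ℝ) + 1) ≤ K := by exact_mod_cast h
    linarith
  · have : (K : ℝ) ≤ k := by exact_mod_cast (not_lt.mp h)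
    linarith

lemma Samples.abs_le (h : Samples K g s y) {k : ℕ} (hk : k < 2 * K) : |y k| ≤ M K k * g := by
  have h1 := h.lo k hk
  have h2 := h.hi k hk
  have hg := h.hg
  have hs := h.hs
  unfold M
  rw [_root_.abs_le]
  split_ifs with hkK
  · have : ((k : ℝ) + 1) ≤ K := by exact_mod_cast hkK
    constructor <;> nlinarith
  · have : (K : ℝ) ≤ k := by exact_mod_cast (not_lt.mp hkK)
    constructor <;> nlinarith

lemma Samples.abs_le' (h : Samples K g s y) {k : ℕ} (hk : k < 2 * K) : |y k| ≤ K * g := by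
  have h1 := h.lo k hk
  have h2 := h.hi k hk
  have hg := h.hg
  have hs := h.hs
  have h3 : ((k : ℝ) + 1) ≤ 2 * K := by exact_mod_cast hk
  have h4 : (0 : ℝ) ≤ k := Nat.cast_nonneg k
  rw [_root_.abs_le]
  constructor <;> nlinarith

lemma prod_M (K : ℕ) : ∏ k ∈ range (2 * K), M K k = (K.factorial : ℝ) ^ 2 := by
  have h1 : 2 * K = K + K := by ring
  rw [h1, prod_range_add]
  have h2 : ∏ k ∈ range K, M K k = K.factorial := by
    rw [← prod_range_reflect]
    have : ∀ j ∈ range K, M K (K - 1 - j) = (j : ℝ) + 1 := by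
      intro j hj
      rw [mem_range] at hj
      unfold M
      rw [if_pos (by omega), Nat.cast_sub (by omega), Nat.cast_sub (by omega)]
      push_cast
      ring
    rw [prod_congr rfl this, ← prod_range_add_one_eq_factorial]
    push_cast
    rfl
  have h3 : ∏ k ∈ range K, M K (K + k) = K.factorial := by
    have : ∀ j ∈ range K, M K (K + j) = (j : ℝ) + 1 := by
      intro j _
      unfold M
      rw [if_neg (by omega)]
      push_cast
      ring
    rw [prod_congr rfl this, ← prod_range_add_one_eq_factorial]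
    push_cast
    rfl
  rw [h2, h3]
  ring

lemma Samples.prod_abs_le (h : Samples K g s y) :
    ∏ k ∈ range (2 * K), |y k| ≤ g ^ (2 * K) * (K.factorial : ℝ) ^ 2 := by
  calc ∏ k ∈ range (2 * K), |y k| ≤ ∏ k ∈ range (2 * K), (M K k * g) := by
        apply Finset.prod_le_prod
        · intro j _; positivity
        · intro j hj
          exact h.abs_le (mem_range.mp hj)
    _ = _ := by
        rw [prod_mul_distrib, prod_M, prod_const, card_range]
        ring

lemma Samples.prod_erase_abs_le (h : Samples K g s y) {n : ℕ} (hn : n < 2 * K) :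
    ∏ k ∈ (range (2 * K)).erase n, |y k| ≤ g ^ (2 * K - 1) * (K.factorial : ℝ) ^ 2 := by
  have hg := h.hg
  calc ∏ k ∈ (range (2 * K)).erase n, |y k| ≤ ∏ k ∈ (range (2 * K)).erase n, (M K k * g) := by
        apply Finset.prod_le_prod
        · intro j _; positivity
        · intro j hj
          exact h.abs_le (mem_range.mp (mem_of_mem_erase hj))
    _ = (∏ k ∈ (range (2 * K)).erase n, M K k) * g ^ (2 * K - 1) := by
        rw [prod_mul_distrib, prod_const, card_erase_of_mem (mem_range.mpr hn), card_range]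
    _ ≤ (K.factorial : ℝ) ^ 2 * g ^ (2 * K - 1) := by
        apply mul_le_mul_of_nonneg_right _ (by positivity)
        rw [← prod_M, ← mul_prod_erase _ _ (mem_range.mpr hn)]
        have h1 := M_ge_one K n
        have h2 : 0 ≤ ∏ k ∈ (range (2 * K)).erase n, M K k :=
          prod_nonneg fun k _ => le_trans zero_le_one (M_ge_one K k)
        nlinarith
    _ = _ := by ring

/-- The Lagrange coefficients at `0` are polynomially bounded. -/
lemma Samples.coeff_le (h : Samples K g s y) {n : ℕ} (hn : n < 2 * K) :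
    (∏ k ∈ (range (2 * K)).erase n, |y k|) / ∏ k ∈ (range (2 * K)).erase n, |y n - y k| ≤
      (K : ℝ) ^ 3 / s ^ 2 := by
  have hK := h.hK
  have hg := h.hg
  have hs := h.hs
  have h1 := h.prod_erase_abs_le hn
  have h2 := h.diff_prod hn
  obtain ⟨L, hL⟩ : ∃ L, K = L + 2 := ⟨K - 2, by omega⟩
  have hf1 : ((K - 1).factorial : ℝ) = (L + 1) * (L.factorial : ℝ) := by
    rw [hL, show L + 2 - 1 = L + 1 by omega, Nat.factorial_succ]; push_cast; ring
  have hf2 : ((K - 2).factorial : ℝ) = (L.factorial : ℝ) := by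
    rw [hL, show L + 2 - 2 = L by omega]
  have hf0 : ((K).factorial : ℝ) = (L + 2) * ((L + 1) * (L.factorial : ℝ)) := by
    rw [hL, Nat.factorial_succ, Nat.factorial_succ]; push_cast; ring
  have hLf : (0 : ℝ) < L.factorial := by positivity
  have hpos : 0 < g ^ (2 * K - 1) * (s * ((K - 1).factorial : ℝ)) * (s * ((K - 2).factorial : ℝ)) := by
    rw [hf1, hf2]; positivity
  refine (div_le_div₀ (by positivity) h1 hpos h2).trans ?_
  rw [div_le_div_iff₀ hpos (by positivity), hf1, hf2, hf0]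
  have hKr : (K : ℝ) = L + 2 := by rw [hL]; push_cast; ring
  rw [hKr]
  have hL0 : (0 : ℝ) ≤ L := Nat.cast_nonneg L
  have e1 : g ^ (2 * K - 1) * ((L + 2) * ((L + 1) * (L.factorial : ℝ))) ^ 2 * s ^ 2 =
      (g ^ (2 * K - 1) * s ^ 2 * (L.factorial : ℝ) ^ 2 * (L + 1)) * ((L + 2) ^ 2 * (L + 1)) := by
    ring
  have e2 : (L + 2 : ℝ) ^ 3 * (g ^ (2 * K - 1) * (s * ((L + 1) * (L.factorial : ℝ))) *
      (s * (L.factorial : ℝ))) =
      (g ^ (2 * K - 1) * s ^ 2 * (L.factorial : ℝ) ^ 2 * (L + 1)) * (L + 2) ^ 3 := by ring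
  rw [e1, e2]
  apply mul_le_mul_of_nonneg_left _ (by positivity)
  nlinarith

/-- lower bound on vertical lines -/
lemma Samples.vert_prod (h : Samples K g s y) {x t : ℝ} (hx : x ≠ 0) (ht : |t| < K * g) :
    x ^ 2 * ((∏ j ∈ range K, (x ^ 2 + (j * g) ^ 2)) *
      ∏ j ∈ range (K - 1), (x ^ 2 + (j * g) ^ 2)) ≤
      ∏ k ∈ range (2 * K), (x ^ 2 + (t - y k) ^ 2) := by
  have hK := h.hK
  have hg := h.hg
  have hs := h.hs
  rw [abs_lt] at ht
  -- the cell of t
  set q : ℝ := t / g + K with hq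
  have hqt : t = (q - K) * g := by rw [hq]; field_simp; ring
  have hq0 : 0 < q := by
    have : -(K : ℝ) < t / g := by rw [lt_div_iff₀ hg]; linarith [ht.1]
    rw [hq]; linarith
  have hqK : q < 2 * K := by
    have : t / g < (K : ℝ) := by rw [div_lt_iff₀ hg]; linarith [ht.2]
    rw [hq]; linarith
  set k₀ : ℕ := ⌊q⌋₊ with hk₀
  have hk₀1 : (k₀ : ℝ) ≤ q := Nat.floor_le hq0.le
  have hk₀2 : q < k₀ + 1 := Nat.lt_floor_add_one q
  have hk₀K : k₀ < 2 * K := by
    have : (k₀ : ℝ) < (2 * K : ℕ) := by push_cast; linarith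
    exact_mod_cast this
  rw [prod_split _ hk₀K]
  have hf : ∀ j : ℕ, 0 < x ^ 2 + ((j : ℝ) * g) ^ 2 := fun j => by positivity
  have h1 : ∏ j ∈ range k₀, (x ^ 2 + ((j : ℝ) * g) ^ 2) ≤
      ∏ j ∈ range k₀, (x ^ 2 + (t - y (k₀ - 1 - j)) ^ 2) := by
    apply Finset.prod_le_prod
    · intro j _; exact (hf j).le
    · intro j hj
      rw [mem_range] at hj
      have e1 := h.hi (k₀ - 1 - j) (by omega)
      have e2 : ((k₀ - 1 - j : ℕ) : ℝ) = k₀ - 1 - j := by
        rw [Nat.cast_sub (by omega), Nat.cast_sub (by omega)]; simp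
      rw [e2] at e1
      have e3 : (j : ℝ) * g ≤ t - y (k₀ - 1 - j) := by rw [hqt]; nlinarith
      have e4 : 0 ≤ (j : ℝ) * g := by positivity
      have := pow_le_pow_left₀ e4 e3 2
      linarith
  have h2 : x ^ 2 ≤ x ^ 2 + (t - y k₀) ^ 2 := by nlinarith [sq_nonneg (t - y k₀)]
  have h3 : ∏ j ∈ range (2 * K - 1 - k₀), (x ^ 2 + ((j : ℝ) * g) ^ 2) ≤
      ∏ j ∈ range (2 * K - 1 - k₀), (x ^ 2 + (t - y (k₀ + 1 + j)) ^ 2) := by
    apply Finset.prod_le_prod
    · intro j _; exact (hf j).le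
    · intro j hj
      rw [mem_range] at hj
      have e1 := h.lo (k₀ + 1 + j) (by omega)
      push_cast at e1
      have e3 : (j : ℝ) * g ≤ y (k₀ + 1 + j) - t := by rw [hqt]; nlinarith
      have e4 : 0 ≤ (j : ℝ) * g := by positivity
      have := pow_le_pow_left₀ e4 e3 2
      have e5 : (t - y (k₀ + 1 + j)) ^ 2 = (y (k₀ + 1 + j) - t) ^ 2 := by ring
      rw [e5]
      linarith
  have hbal := prod_balanced' (f := fun j : ℕ => x ^ 2 + ((j : ℝ) * g) ^ 2) hf
    (by intro a b hab; simp only; gcongr) (a := k₀) (b := 2 * K - 1 - k₀) (K := K) (by omega)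
  have hx2 : 0 < x ^ 2 := by positivity
  have hA : 0 ≤ ∏ j ∈ range k₀, (x ^ 2 + ((j : ℝ) * g) ^ 2) := prod_nonneg fun j _ => (hf j).le
  have hB : 0 ≤ ∏ j ∈ range (2 * K - 1 - k₀), (x ^ 2 + ((j : ℝ) * g) ^ 2) :=
    prod_nonneg fun j _ => (hf j).le
  calc x ^ 2 * ((∏ j ∈ range K, (x ^ 2 + (j * g) ^ 2)) *
      ∏ j ∈ range (K - 1), (x ^ 2 + (j * g) ^ 2))
      ≤ x ^ 2 * ((∏ j ∈ range k₀, (x ^ 2 + ((j : ℝ) * g) ^ 2)) *
        ∏ j ∈ range (2 * K - 1 - k₀), (x ^ 2 + ((j : ℝ) * g) ^ 2)) :=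
        mul_le_mul_of_nonneg_left hbal hx2.le
    _ = ((∏ j ∈ range k₀, (x ^ 2 + ((j : ℝ) * g) ^ 2)) * x ^ 2) *
        ∏ j ∈ range (2 * K - 1 - k₀), (x ^ 2 + ((j : ℝ) * g) ^ 2) := by ring
    _ ≤ _ := by
        apply mul_le_mul _ h3 hB
        · apply mul_nonneg (hA.trans h1) (by positivity)
        · exact mul_le_mul h1 h2 hx2.le (hA.trans h1)

end Pool.Agent.Lib.SampleProd
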