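import Mathlib
import Pool.Agent.Lib.SampleProd

/-!
# Lower bounds for the sample polynomial on a rectangle
-/

namespace Pool.Agent.Lib.SampleProd

open Finset Filter Topology

/-- partial product of the sine product at an imaginary point -/
noncomputable def W (u : ℝ) (n : ℕ) : ℝ := ∏ j ∈ range n, (1 + u ^ 2 / ((j : ℝ) + 1) ^ 2)

lemma W_pos (u : ℝ) (n : ℕ) : 0 < W u n := prod_pos fun j _ => by positivity

lemma tendsto_W (u : ℝ) :
    Tendsto (fun n => Real.pi * u * W u n) atTop (𝓝 (Real.sinh (Real.pi * u))) := by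
  have h := Complex.tendsto_euler_sin_prod ((u : ℂ) * Complex.I)
  have h1 : Complex.sin (Real.pi * ((u : ℂ) * Complex.I)) =
      ((Real.sinh (Real.pi * u) : ℝ) : ℂ) * Complex.I := by
    rw [← mul_assoc, Complex.sin_mul_I]
    push_cast
    rfl
  rw [h1] at h
  have h2 : ∀ n : ℕ, (Real.pi : ℂ) * ((u : ℂ) * Complex.I) *
      ∏ j ∈ range n, ((1 : ℂ) - ((u : ℂ) * Complex.I) ^ 2 / ((j : ℂ) + 1) ^ 2) =
      ((Real.pi * u * W u n : ℝ) : ℂ) * Complex.I := by
    intro n
    unfold W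
    push_cast
    have : ∀ j ∈ range n, ((1 : ℂ) - ((u : ℂ) * Complex.I) ^ 2 / ((j : ℂ) + 1) ^ 2) =
        1 + (u : ℂ) ^ 2 / ((j : ℂ) + 1) ^ 2 := by
      intro j _
      rw [mul_pow, Complex.I_sq]
      ring
    rw [prod_congr rfl this]
    ring
  have h3 : Tendsto (fun n => ((Real.pi * u * W u n : ℝ) : ℂ) * Complex.I) atTop
      (𝓝 (((Real.sinh (Real.pi * u) : ℝ) : ℂ) * Complex.I)) := by
    refine h.congr ?_
    intro n
    exact h2 n
  have h4 : Tendsto (fun n => (((Real.pi * u * W u n : ℝ) : ℂ) * Complex.I).im) atTop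
      (𝓝 ((((Real.sinh (Real.pi * u) : ℝ) : ℂ) * Complex.I).im)) :=
    (Complex.continuous_im.tendsto _).comp h3
  simp only [Complex.im_ofReal_mul, Complex.I_im, mul_one] at h4
  exact h4

lemma sum_inv_sq_le (n m : ℕ) (hn : 1 ≤ n) :
    ∑ j ∈ range m, 1 / (((n + j : ℕ) : ℝ) + 1) ^ 2 ≤ 1 / (n : ℝ) - 1 / ((n : ℝ) + m) := by
  have hn' : (1 : ℝ) ≤ n := by exact_mod_cast hn
  induction m with
  | zero => simp
  | succ m ih =>
    rw [sum_range_succ]
    have hm : (0 : ℝ) ≤ m := Nat.cast_nonneg m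
    have h1 : 1 / (((n + m : ℕ) : ℝ) + 1) ^ 2 ≤
        1 / ((n : ℝ) + m) - 1 / ((n : ℝ) + (m + 1 : ℕ)) := by
      push_cast
      rw [div_sub_div _ _ (by positivity) (by positivity), div_le_div_iff₀ (by positivity)
        (by positivity)]
      nlinarith
    linarith

lemma W_lower {u : ℝ} (hu : 1 ≤ u) {n : ℕ} (hn : 1 ≤ n) :
    Real.exp (Real.pi * u - u ^ 2 / n) / (4 * Real.pi * u) ≤ W u n := by
  have hpi := Real.pi_pos
  have hu0 : 0 < u := by linarith
  have hn' : (1 : ℝ) ≤ n := by exact_mod_cast hn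
  -- the tail
  have htail : ∀ m : ℕ, W u (n + m) ≤ W u n * Real.exp (u ^ 2 / n) := by
    intro m
    unfold W
    rw [prod_range_add]
    apply mul_le_mul_of_nonneg_left _ (prod_nonneg fun j _ => by positivity)
    calc ∏ j ∈ range m, (1 + u ^ 2 / (((n + j : ℕ) : ℝ) + 1) ^ 2)
        ≤ ∏ j ∈ range m, Real.exp (u ^ 2 * (1 / (((n + j : ℕ) : ℝ) + 1) ^ 2)) := by
          apply Finset.prod_le_prod
          · intro j _; positivity
          · intro j _
            have := Real.add_one_le_exp (u ^ 2 * (1 / (((n + j : ℕ) : ℝ) + 1) ^ 2))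
            rw [mul_one_div] at this ⊢
            linarith
      _ = Real.exp (u ^ 2 * ∑ j ∈ range m, 1 / (((n + j : ℕ) : ℝ) + 1) ^ 2) := by
          rw [← Real.exp_sum, ← mul_sum]
      _ ≤ Real.exp (u ^ 2 / n) := by
          rw [Real.exp_le_exp]
          have h1 := sum_inv_sq_le n m hn
          have h2 : 0 ≤ 1 / ((n : ℝ) + m) := by positivity
          have h3 : ∑ j ∈ range m, 1 / (((n + j : ℕ) : ℝ) + 1) ^ 2 ≤ 1 / (n : ℝ) := by linarith
          calc u ^ 2 * ∑ j ∈ range m, 1 / (((n + j : ℕ) : ℝ) + 1) ^ 2 ≤ u ^ 2 * (1 / (n : ℝ)) := by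
                gcongr
            _ = u ^ 2 / n := by ring
  have hlim : Tendsto (fun m => Real.pi * u * W u (n + m)) atTop
      (𝓝 (Real.sinh (Real.pi * u))) := by
    have := (tendsto_W u).comp (tendsto_add_atTop_nat n)
    refine this.congr ?_
    intro m
    simp only [Function.comp]
    rw [add_comm m n]
  have hle : Real.sinh (Real.pi * u) ≤ Real.pi * u * (W u n * Real.exp (u ^ 2 / n)) := by
    apply le_of_tendsto hlim
    filter_upwards with m
    apply mul_le_mul_of_nonneg_left (htail m) (by positivity)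
  have hsinh : Real.exp (Real.pi * u) / 4 ≤ Real.sinh (Real.pi * u) := by
    rw [Real.sinh_eq]
    have h1 : Real.exp (-(Real.pi * u)) ≤ Real.exp (Real.pi * u) / 2 := by
      have h2 : Real.exp (-(Real.pi * u)) ≤ 1 := by
        rw [Real.exp_le_one_iff]
        have : 0 ≤ Real.pi * u := by positivity
        linarith
      have h3 : 2 ≤ Real.exp (Real.pi * u) := by
        have := Real.add_one_le_exp (Real.pi * u)
        have h4 := Real.pi_gt_three
        nlinarith
      linarith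
    linarith
  have h5 : Real.exp (Real.pi * u) / 4 ≤ Real.pi * u * (W u n * Real.exp (u ^ 2 / n)) :=
    hsinh.trans hle
  rw [Real.exp_sub, div_le_iff₀ (by positivity), div_le_iff₀ (Real.exp_pos _)]
  linarith

variable {K : ℕ} {g s : ℝ} {y : ℕ → ℝ}

lemma prod_sq_lattice {x g : ℝ} (hg : 0 < g) {K : ℕ} (hK : 1 ≤ K) :
    ∏ j ∈ range K, (x ^ 2 + ((j : ℝ) * g) ^ 2) =
      x ^ 2 * (g ^ (2 * (K - 1)) * ((K - 1).factorial : ℝ) ^ 2 * W (x / g) (K - 1)) := by
  obtain ⟨L, rfl⟩ : ∃ L, K = L + 1 := ⟨K - 1, by omega⟩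
  rw [prod_range_succ', Nat.add_sub_cancel]
  have h1 : ∀ j ∈ range L, (x ^ 2 + (((j + 1 : ℕ) : ℝ) * g) ^ 2) =
      (g ^ 2 * ((j : ℝ) + 1) ^ 2) * (1 + (x / g) ^ 2 / ((j : ℝ) + 1) ^ 2) := by
    intro j _
    push_cast
    field_simp
    ring
  rw [prod_congr rfl h1, prod_mul_distrib, prod_mul_distrib, prod_const, card_range, ← pow_mul]
  have h2 : ∏ j ∈ range L, ((j : ℝ) + 1) ^ 2 = (L.factorial : ℝ) ^ 2 := by
    rw [prod_pow, ← prod_range_add_one_eq_factorial]
    push_cast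
    rfl
  rw [h2]
  unfold W
  simp only [Nat.cast_zero, zero_mul]
  ring

/-- **vertical sides** -/
lemma Samples.vert_ratio (h : Samples K g s y) {x t : ℝ} (hx : x ≠ 0) (hxK : |x| ≤ K * g)
    (ht : |t| < K * g) :
    (∏ k ∈ range (2 * K), |y k|) ^ 2 * ((|x| / (K * g)) ^ 6 * W (x / g) (K - 1) ^ 2 / 2) ≤
      ∏ k ∈ range (2 * K), (x ^ 2 + (t - y k) ^ 2) := by
  have hK := h.hK
  have hg := h.hg
  have hKr : (0 : ℝ) < K := by
    have : (2 : ℝ) ≤ K := by exact_mod_cast hK
    linarith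
  refine le_trans ?_ (h.vert_prod hx ht)
  have hx2 : 0 < x ^ 2 := by positivity
  set P : ℝ := ∏ j ∈ range K, (x ^ 2 + ((j : ℝ) * g) ^ 2) with hP
  set P' : ℝ := ∏ j ∈ range (K - 1), (x ^ 2 + ((j : ℝ) * g) ^ 2) with hP'
  have hP0 : 0 < P := prod_pos fun j _ => by positivity
  have hP'0 : 0 < P' := prod_pos fun j _ => by positivity
  have hPP : P = P' * (x ^ 2 + (((K - 1 : ℕ) : ℝ) * g) ^ 2) := by
    rw [hP, hP', ← prod_range_succ]
    congr 2
    omega
  have hxx : x ^ 2 ≤ (K * g) ^ 2 := by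
    rw [← sq_abs]
    exact pow_le_pow_left₀ (abs_nonneg x) hxK 2
  have hlast : x ^ 2 + (((K - 1 : ℕ) : ℝ) * g) ^ 2 ≤ 2 * (K * g) ^ 2 := by
    have h1 : ((K - 1 : ℕ) : ℝ) ≤ K := by exact_mod_cast Nat.sub_le K 1
    have h2 : (((K - 1 : ℕ) : ℝ) * g) ^ 2 ≤ (K * g) ^ 2 := by gcongr
    linarith
  have hP'ge : P / (2 * (K * g) ^ 2) ≤ P' := by
    rw [div_le_iff₀ (by positivity), hPP]
    exact mul_le_mul_of_nonneg_left hlast hP'0.le
  have h1 : x ^ 2 * (P * (P / (2 * (K * g) ^ 2))) ≤ x ^ 2 * (P * P') := by gcongr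
  refine le_trans ?_ h1
  have hPv := prod_sq_lattice (x := x) hg (K := K) (by omega)
  rw [← hP] at hPv
  have hy2 : (∏ k ∈ range (2 * K), |y k|) ^ 2 ≤ (g ^ (2 * K) * (K.factorial : ℝ) ^ 2) ^ 2 :=
    pow_le_pow_left₀ (prod_nonneg fun k _ => abs_nonneg _) h.prod_abs_le 2
  have hW := W_pos (x / g) (K - 1)
  calc (∏ k ∈ range (2 * K), |y k|) ^ 2 * ((|x| / (K * g)) ^ 6 * W (x / g) (K - 1) ^ 2 / 2)
      ≤ (g ^ (2 * K) * (K.factorial : ℝ) ^ 2) ^ 2 *
        ((|x| / (K * g)) ^ 6 * W (x / g) (K - 1) ^ 2 / 2) := by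
        apply mul_le_mul_of_nonneg_right hy2
        positivity
    _ = x ^ 2 * (P * (P / (2 * (K * g) ^ 2))) := by
        rw [hPv]
        have hf : (K.factorial : ℝ) = K * ((K - 1).factorial : ℝ) := by
          have : K.factorial = K * (K - 1).factorial := (Nat.mul_factorial_pred (by omega)).symm
          exact_mod_cast this
        have hgK : g ^ (2 * K) = g ^ (2 * (K - 1)) * g ^ 2 := by
          rw [← pow_add]; congr 1; omega
        rw [hf, hgK, div_pow, show |x| ^ 6 = x ^ 6 by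
          rw [show (6 : ℕ) = 2 * 3 by norm_num, pow_mul, sq_abs, ← pow_mul]]
        field_simp
        try ring

/-- **horizontal sides** -/
lemma Samples.horiz_prod (h : Samples K g s y) {t : ℝ} (ht : |t| = K * g) :
    g ^ (2 * K) * (s * ((2 * K - 1).factorial : ℝ)) ≤ ∏ k ∈ range (2 * K), |t - y k| := by
  have hK := h.hK
  have hg := h.hg
  have hs := h.hs
  have h1 : s * ((2 * K - 1).factorial : ℝ) ≤ ∏ j ∈ range (2 * K), ((j : ℝ) + s) := by
    have := rise_ge hs (2 * K - 1)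
    unfold rise at this
    rwa [show 2 * K - 1 + 1 = 2 * K by omega] at this
  have h2 : g ^ (2 * K) * (s * ((2 * K - 1).factorial : ℝ)) ≤
      ∏ j ∈ range (2 * K), (((j : ℝ) + s) * g) := by
    rw [prod_mul_distrib, prod_const, card_range, mul_comm]
    exact mul_le_mul_of_nonneg_right h1 (by positivity)
  refine h2.trans ?_
  rcases (abs_eq (by positivity : (0 : ℝ) ≤ K * g)).mp ht with ht | ht
  · rw [← prod_range_reflect (fun k => |t - y k|)]
    apply Finset.prod_le_prod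
    · intro j _; positivity
    · intro j hj
      rw [mem_range] at hj
      have e1 := h.hi (2 * K - 1 - j) (by omega)
      have e2 : ((2 * K - 1 - j : ℕ) : ℝ) = 2 * K - 1 - j := by
        rw [Nat.cast_sub (by omega), Nat.cast_sub (by omega)]; push_cast; ring
      rw [e2] at e1
      refine le_trans ?_ (le_abs_self _)
      rw [ht]
      nlinarith
  · apply Finset.prod_le_prod
    · intro j _; positivity
    · intro j hj
      rw [mem_range] at hj
      have e1 := h.lo j hj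
      rw [abs_sub_comm]
      refine le_trans ?_ (le_abs_self _)
      rw [ht]
      nlinarith

lemma Samples.horiz_ratio (h : Samples K g s y) {t : ℝ} (ht : |t| = K * g) :
    (∏ k ∈ range (2 * K), |y k|) * (s * 4 ^ K / (4 * K ^ 2)) ≤
      ∏ k ∈ range (2 * K), |t - y k| := by
  have hK := h.hK
  have hg := h.hg
  have hs := h.hs
  have hKr : (0 : ℝ) < K := by
    have : (2 : ℝ) ≤ K := by exact_mod_cast hK
    linarith
  refine le_trans ?_ (h.horiz_prod ht)
  have hc : (4 : ℝ) ^ K ≤ 2 * K * (K.centralBinom : ℝ) := by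
    exact_mod_cast Nat.four_pow_le_two_mul_self_mul_centralBinom K (by omega)
  have hcb : (K.centralBinom : ℝ) * ((K.factorial : ℝ) ^ 2) = 2 * K * ((2 * K - 1).factorial : ℝ) := by
    have h1 : K.centralBinom * (K.factorial * K.factorial) = (2 * K).factorial := by
      rw [Nat.centralBinom_eq_two_mul_choose]
      have := Nat.choose_mul_factorial_mul_factorial (show K ≤ 2 * K by omega)
      rw [show 2 * K - K = K by omega] at this
      rw [← mul_assoc]
      exact this
    have h2 : (2 * K).factorial = (2 * K) * (2 * K - 1).factorial :=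
      (Nat.mul_factorial_pred (by omega)).symm
    have h3 : (K.centralBinom : ℝ) * ((K.factorial : ℝ) * K.factorial) = ((2 * K).factorial : ℝ) := by
      exact_mod_cast h1
    rw [sq, h3, h2]
    push_cast
    ring
  calc (∏ k ∈ range (2 * K), |y k|) * (s * 4 ^ K / (4 * K ^ 2))
      ≤ (g ^ (2 * K) * (K.factorial : ℝ) ^ 2) * (s * 4 ^ K / (4 * K ^ 2)) := by
        apply mul_le_mul_of_nonneg_right h.prod_abs_le (by positivity)
    _ ≤ (g ^ (2 * K) * (K.factorial : ℝ) ^ 2) *
        (s * (2 * K * (K.centralBinom : ℝ)) / (4 * K ^ 2)) := by gcongr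
    _ = g ^ (2 * K) * s * ((K.centralBinom : ℝ) * ((K.factorial : ℝ) ^ 2)) / (2 * K) := by
        field_simp; try ring
    _ = g ^ (2 * K) * (s * ((2 * K - 1).factorial : ℝ)) := by
        rw [hcb]; field_simp

end Pool.Agent.Lib.SampleProd
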