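import Mathlib
import Pool.Agent.Lib.SampleProd2

/-!
# Lagrange interpolation and the maximum principle in a rectangle
-/

namespace Pool.Agent.Lib.SampleProd

open Finset Filter Topology Complex

/-- Division by a polynomial with simple zeros. -/
lemma exists_div {U : Set ℂ} (hU : IsOpen U) (S : Finset ℂ) : ∀ {f : ℂ → ℂ},
    DifferentiableOn ℂ f U → (∀ w ∈ S, w ∈ U) → (∀ w ∈ S, f w = 0) →
    ∃ F : ℂ → ℂ, DifferentiableOn ℂ F U ∧ ∀ z ∈ U, f z = (∏ w ∈ S, (z - w)) * F z := by
  classical
  induction S using Finset.induction_on with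
  | empty =>
    intro f hf _ _
    exact ⟨f, hf, fun z _ => by simp⟩
  | insert w S hw ih =>
    intro f hf hSU hS
    have hwU : w ∈ U := hSU w (mem_insert_self _ _)
    have hd : DifferentiableOn ℂ (dslope f w) U :=
      (Complex.differentiableOn_dslope (hU.mem_nhds hwU)).mpr hf
    have hfw : f w = 0 := hS w (mem_insert_self _ _)
    have hmul : ∀ z, f z = (z - w) * dslope f w z := by
      intro z
      have := sub_smul_dslope f w z
      rw [smul_eq_mul, hfw, sub_zero] at this
      exact this.symm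
    obtain ⟨F, hF, hFz⟩ := ih hd (fun v hv => hSU v (mem_insert_of_mem hv)) (by
      intro v hv
      have h1 := hS v (mem_insert_of_mem hv)
      rw [hmul v] at h1
      rcases mul_eq_zero.mp h1 with h2 | h2
      · exfalso
        apply hw
        rw [← sub_eq_zero.mp h2]
        exact hv
      · exact h2)
    refine ⟨F, hF, fun z hz => ?_⟩
    rw [hmul z, hFz z hz, prod_insert hw, mul_assoc]

variable {K : ℕ} {g s : ℝ} {y : ℕ → ℝ}

lemma Samples.injOn (h : Samples K g s y) : Set.InjOn y (Set.Iio (2 * K)) := by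
  intro a ha b hb hab
  simp only [Set.mem_Iio] at ha hb
  by_contra hne
  have hs := h.hs
  have hg := h.hg
  have hsg : 0 < s * g := by positivity
  rcases lt_or_gt_of_ne hne with hlt | hlt
  · have h1 := h.hi a ha
    have h2 := h.lo b hb
    have h3 : (a : ℝ) + 1 ≤ b := by exact_mod_cast hlt
    nlinarith
  · have h1 := h.hi b hb
    have h2 := h.lo a ha
    have h3 : (b : ℝ) + 1 ≤ a := by exact_mod_cast hlt
    nlinarith

lemma Samples.sep (h : Samples K g s y) {t : ℝ} (ht : |t| = K * g) {k : ℕ} (hk : k < 2 * K) :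
    s * g ≤ |t - y k| := by
  have h1 := h.lo k hk
  have h2 := h.hi k hk
  have hs := h.hs
  have hg := h.hg
  have h3 : ((k : ℝ) + 1) ≤ 2 * K := by exact_mod_cast hk
  have h4 : (0 : ℝ) ≤ k := Nat.cast_nonneg k
  have hK : (0 : ℝ) ≤ K := Nat.cast_nonneg K
  rcases (abs_eq (by positivity : (0 : ℝ) ≤ K * g)).mp ht with ht | ht
  · refine le_trans ?_ (le_abs_self _)
    rw [ht]; nlinarith
  · rw [abs_sub_comm]
    refine le_trans ?_ (le_abs_self _)
    rw [ht]; nlinarith

set_option maxHeartbeats 1000000 in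
/-- **Interpolation estimate.** -/
lemma interp (h : Samples K g s y) {f : ℂ → ℂ} {U : Set ℂ} (hU : IsOpen U)
    (hf : DifferentiableOn ℂ f U) {X : ℝ} (hX : 0 < X)
    (hsub : ∀ z : ℂ, |z.re| ≤ X → |z.im| ≤ K * g → z ∈ U) {m lam B : ℝ} (hlam : 0 ≤ lam)
    (hm : ∀ k < 2 * K, ‖f (y k * I)‖ ≤ m)
    (hB : ∀ z : ℂ, (|z.re| = X ∧ |z.im| < K * g ∨ |z.re| ≤ X ∧ |z.im| = K * g) →
      ‖f z‖ * Real.exp (lam * z.re) * ∏ k ∈ range (2 * K), |y k| ≤
        B * ∏ k ∈ range (2 * K), ‖z - y k * I‖) :
    ‖f 0‖ ≤ m * (2 * K) * ((K : ℝ) ^ 3 / s ^ 2) * (1 + Real.exp (lam * X) * (K * g / X + K / s)) +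
      B := by
  classical
  have hK := h.hK
  have hg := h.hg
  have hs := h.hs
  have hKr : (0 : ℝ) < K := by
    have : (2 : ℝ) ≤ K := by exact_mod_cast hK
    linarith
  have hm0 : 0 ≤ m := (norm_nonneg _).trans (hm 0 (by omega))
  set N : ℕ := 2 * K with hN
  set zz : ℕ → ℂ := fun k => (y k : ℂ) * I with hzz
  have hinj : Set.InjOn zz (range N) := by
    intro a ha b hb hab
    apply h.injOn (by simpa using ha) (by simpa using hb)
    have : (y a : ℂ) = y b := mul_right_cancel₀ I_ne_zero hab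
    exact_mod_cast this
  have hzU : ∀ k < N, zz k ∈ U := by
    intro k hk
    apply hsub
    · simp [hzz, hX.le]
    · simpa [hzz] using h.abs_le' hk
  -- Lagrange polynomials
  set ell : ℕ → ℂ → ℂ := fun n z => ∏ k ∈ (range N).erase n, ((z - zz k) / (zz n - zz k)) with hell
  set Lg : ℂ → ℂ := fun z => ∑ n ∈ range N, f (zz n) * ell n z with hLg
  have hLgd : Differentiable ℂ Lg := by
    apply Differentiable.fun_sum
    intro n _
    apply Differentiable.const_mul
    apply Differentiable.fun_finsetProd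
    intro k _
    fun_prop
  have hval : ∀ n ∈ range N, Lg (zz n) = f (zz n) := by
    intro n hn
    simp only [hLg]
    rw [sum_eq_single n]
    · have : ell n (zz n) = 1 := by
        simp only [hell]
        apply prod_eq_one
        intro k hk
        apply div_self
        rw [sub_ne_zero]
        intro heq
        exact (ne_of_mem_erase hk) (hinj (mem_of_mem_erase hk) hn heq.symm)
      rw [this, mul_one]
    · intro j hj hjn
      have : ell j (zz n) = 0 := by
        simp only [hell]
        apply prod_eq_zero (mem_erase.mpr ⟨hjn.symm, hn⟩)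
        simp
      rw [this, mul_zero]
    · intro h1; exact absurd hn h1
  -- the quotient
  obtain ⟨F, hF, hFz⟩ := exists_div hU ((range N).image zz) (f := fun z => f z - Lg z)
    (hf.sub hLgd.differentiableOn) (by
      intro w hw
      obtain ⟨k, hk, rfl⟩ := mem_image.mp hw
      exact hzU k (mem_range.mp hk)) (by
      intro w hw
      obtain ⟨k, hk, rfl⟩ := mem_image.mp hw
      rw [hval k hk, sub_self])
  simp only [prod_image hinj] at hFz
  set Q : ℂ → ℂ := fun z => ∏ k ∈ range N, (z - zz k) with hQ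
  have hQn : ∀ z, ‖Q z‖ = ∏ k ∈ range N, ‖z - zz k‖ := by
    intro z
    simp only [hQ]
    exact norm_prod _ _
  have hnz : ∀ k, ‖zz k‖ = |y k| := by
    intro k
    simp [hzz]
  have hQ0 : ‖Q 0‖ = ∏ k ∈ range N, |y k| := by
    rw [hQn]
    apply prod_congr rfl
    intro k _
    rw [zero_sub, norm_neg, hnz]
  have hdiff : ∀ n k, ‖zz n - zz k‖ = |y n - y k| := by
    intro n k
    simp only [hzz]
    rw [← sub_mul, norm_mul, norm_I, mul_one, ← ofReal_sub, norm_real, Real.norm_eq_abs]
  set c : ℝ := (K : ℝ) ^ 3 / s ^ 2 with hc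
  have hc0 : 0 < c := by positivity
  have hprodpos : ∀ n ∈ range N, 0 < ∏ k ∈ (range N).erase n, |y n - y k| := by
    intro n hn
    apply prod_pos
    intro k hk
    rw [abs_pos, sub_ne_zero]
    intro heq
    exact (ne_of_mem_erase hk) (h.injOn (by simpa using mem_of_mem_erase hk) (by simpa using hn)
      heq.symm)
  have hell0 : ∀ n ∈ range N, ‖ell n 0‖ ≤ c := by
    intro n hn
    simp only [hell, norm_prod, norm_div, zero_sub, norm_neg, hdiff, hnz]
    rw [prod_div_distrib]
    exact h.coeff_le (mem_range.mp hn)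
  have hL0 : ‖Lg 0‖ ≤ m * N * c := by
    simp only [hLg]
    calc ‖∑ n ∈ range N, f (zz n) * ell n 0‖ ≤ ∑ n ∈ range N, ‖f (zz n) * ell n 0‖ :=
          norm_sum_le _ _
      _ ≤ ∑ n ∈ range N, m * c := by
          apply sum_le_sum
          intro n hn
          rw [norm_mul]
          exact mul_le_mul (hm n (mem_range.mp hn)) (hell0 n hn) (norm_nonneg _) hm0
      _ = m * N * c := by rw [sum_const, card_range, nsmul_eq_mul]; ring
  -- the boundary
  set D : ℝ := K * g / X + K / s with hD
  have hD0 : 0 < D := by positivity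
  have hbd : ∀ z : ℂ, (|z.re| = X ∧ |z.im| < K * g ∨ |z.re| ≤ X ∧ |z.im| = K * g) →
      ‖F z * Complex.exp (lam * z)‖ * ‖Q 0‖ ≤ B + m * N * c * (Real.exp (lam * X) * D) := by
    intro z hz
    have hzU' : z ∈ U := by
      rcases hz with ⟨h1, h2⟩ | ⟨h1, h2⟩
      · exact hsub z h1.le h2.le
      · exact hsub z h1 h2.le
    have hdist : ∀ n ∈ range N, |y n| ≤ D * ‖z - zz n‖ ∧ 0 < ‖z - zz n‖ := by
      intro n hn
      have hyn := h.abs_le' (mem_range.mp hn)
      rcases hz with ⟨h1, h2⟩ | ⟨h1, h2⟩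
      · have h3 : X ≤ ‖z - zz n‖ := by
          rw [← h1]
          have := abs_re_le_norm (z - zz n)
          simpa [hzz] using this
        refine ⟨?_, hX.trans_le h3⟩
        calc |y n| ≤ K * g := hyn
          _ = K * g / X * X := by field_simp
          _ ≤ D * ‖z - zz n‖ := by
              apply mul_le_mul _ h3 hX.le hD0.le
              rw [hD]
              have : 0 ≤ (K : ℝ) / s := by positivity
              linarith
      · have h3 : s * g ≤ ‖z - zz n‖ := by
          have h4 := h.sep h2 (mem_range.mp hn)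
          have := abs_im_le_norm (z - zz n)
          have h5 : (z - zz n).im = z.im - y n := by simp [hzz]
          rw [h5] at this
          linarith
        have hsg : 0 < s * g := by positivity
        refine ⟨?_, hsg.trans_le h3⟩
        calc |y n| ≤ K * g := hyn
          _ = K / s * (s * g) := by field_simp
          _ ≤ D * ‖z - zz n‖ := by
              apply mul_le_mul _ h3 hsg.le hD0.le
              rw [hD]
              have : 0 ≤ K * g / X := by positivity
              linarith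
    have hQpos : 0 < ‖Q z‖ := by
      rw [hQn]
      exact prod_pos fun k hk => (hdist k hk).2
    have hFz' : F z = (f z - Lg z) / Q z := by
      rw [eq_div_iff (norm_pos_iff.mp hQpos), mul_comm]
      exact (hFz z hzU').symm
    have hE : ‖Complex.exp (lam * z)‖ = Real.exp (lam * z.re) := by
      rw [Complex.norm_exp]; simp
    have hE2 : Real.exp (lam * z.re) ≤ Real.exp (lam * X) := by
      rw [Real.exp_le_exp]
      apply mul_le_mul_of_nonneg_left _ hlam
      rcases hz with ⟨h1, _⟩ | ⟨h1, _⟩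
      · exact (le_abs_self _).trans h1.le
      · exact (le_abs_self _).trans h1
    have hLz : ‖Lg z‖ * ‖Q 0‖ ≤ (m * N * c * D) * ‖Q z‖ := by
      have h1 : ‖Lg z‖ ≤ ∑ n ∈ range N, m * ‖ell n z‖ := by
        simp only [hLg]
        refine (norm_sum_le _ _).trans (sum_le_sum ?_)
        intro n hn
        rw [norm_mul]
        exact mul_le_mul_of_nonneg_right (hm n (mem_range.mp hn)) (norm_nonneg _)
      have h2 : ∀ n ∈ range N, ‖ell n z‖ * ‖Q 0‖ ≤ (c * D) * ‖Q z‖ := by
        intro n hn
        have e1 : ‖ell n z‖ = (∏ k ∈ (range N).erase n, ‖z - zz k‖) /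
            ∏ k ∈ (range N).erase n, |y n - y k| := by
          simp only [hell, norm_prod, norm_div, hdiff]
          rw [prod_div_distrib]
        have e2 : ‖Q 0‖ = |y n| * ∏ k ∈ (range N).erase n, |y k| := by
          rw [hQ0, mul_prod_erase _ (fun k => |y k|) hn]
        have e3 : ‖Q z‖ = ‖z - zz n‖ * ∏ k ∈ (range N).erase n, ‖z - zz k‖ := by
          rw [hQn, mul_prod_erase _ (fun k => ‖z - zz k‖) hn]
        have e4 := h.coeff_le (mem_range.mp hn)
        have e5 := (hdist n hn).1
        set R1 := ∏ k ∈ (range N).erase n, ‖z - zz k‖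
        set R2 := ∏ k ∈ (range N).erase n, |y n - y k|
        set R3 := ∏ k ∈ (range N).erase n, |y k|
        have hR1 : 0 ≤ R1 := prod_nonneg fun _ _ => norm_nonneg _
        have hR2 : 0 < R2 := hprodpos n hn
        rw [e1, e2, e3]
        calc R1 / R2 * (|y n| * R3) = (R3 / R2) * (|y n| * R1) := by ring
          _ ≤ c * ((D * ‖z - zz n‖) * R1) := by
              apply mul_le_mul e4 _ (by positivity) hc0.le
              exact mul_le_mul_of_nonneg_right e5 hR1
          _ = c * D * (‖z - zz n‖ * R1) := by ring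
      calc ‖Lg z‖ * ‖Q 0‖ ≤ (∑ n ∈ range N, m * ‖ell n z‖) * ‖Q 0‖ :=
            mul_le_mul_of_nonneg_right h1 (norm_nonneg _)
        _ = ∑ n ∈ range N, m * (‖ell n z‖ * ‖Q 0‖) := by
            rw [sum_mul]
            apply sum_congr rfl
            intro n _
            ring
        _ ≤ ∑ n ∈ range N, m * ((c * D) * ‖Q z‖) := by
            apply sum_le_sum
            intro n hn
            exact mul_le_mul_of_nonneg_left (h2 n hn) hm0
        _ = (m * N * c * D) * ‖Q z‖ := by
            rw [sum_const, card_range, nsmul_eq_mul]; ring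
    have hBz := hB z hz
    rw [← hQ0, ← hQn] at hBz
    rw [norm_mul, hE, hFz', norm_div]
    rw [div_mul_eq_mul_div, div_mul_eq_mul_div, div_le_iff₀ hQpos]
    have hfL : ‖f z - Lg z‖ ≤ ‖f z‖ + ‖Lg z‖ := norm_sub_le _ _
    have hexp0 := Real.exp_pos (lam * z.re)
    calc ‖f z - Lg z‖ * Real.exp (lam * z.re) * ‖Q 0‖
        ≤ (‖f z‖ + ‖Lg z‖) * Real.exp (lam * z.re) * ‖Q 0‖ := by gcongr
      _ = ‖f z‖ * Real.exp (lam * z.re) * ‖Q 0‖ +
          Real.exp (lam * z.re) * (‖Lg z‖ * ‖Q 0‖) := by ring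
      _ ≤ B * ‖Q z‖ + Real.exp (lam * X) * ((m * N * c * D) * ‖Q z‖) := by
          apply add_le_add hBz
          apply mul_le_mul hE2 hLz (by positivity) (Real.exp_pos _).le
      _ = _ := by ring
  -- maximum principle
  set Rr : Set ℂ := {z | z.re ∈ Set.Ioo (-X) X} ∩ {z | z.im ∈ Set.Ioo (-(K * g)) (K * g)} with hRr
  have hRsub : closure Rr ⊆ {z | z.re ∈ Set.Icc (-X) X} ∩ {z | z.im ∈ Set.Icc (-(K * g)) (K * g)} := by
    apply closure_minimal
    · rintro z ⟨⟨a1, a2⟩, ⟨a3, a4⟩⟩
      exact ⟨⟨a1.le, a2.le⟩, ⟨a3.le, a4.le⟩⟩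
    · exact (isClosed_Icc.preimage continuous_re).inter (isClosed_Icc.preimage continuous_im)
  have hRopen : IsOpen Rr :=
    (isOpen_Ioo.preimage continuous_re).inter (isOpen_Ioo.preimage continuous_im)
  have hRb : Bornology.IsBounded Rr := by
    have : Rr ⊆ (Set.Icc (-X) X) ×ℂ (Set.Icc (-(K * g)) (K * g)) := by
      rintro z ⟨⟨a1, a2⟩, ⟨a3, a4⟩⟩
      rw [Complex.mem_reProdIm]
      exact ⟨⟨a1.le, a2.le⟩, ⟨a3.le, a4.le⟩⟩
    exact ((isCompact_Icc.reProdIm isCompact_Icc).isBounded).subset this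
  have habs : ∀ z ∈ closure Rr, |z.re| ≤ X ∧ |z.im| ≤ K * g := by
    intro z hz
    obtain ⟨a1, a2⟩ := hRsub hz
    exact ⟨abs_le.mpr a1, abs_le.mpr a2⟩
  have hdiffc : DiffContOnCl ℂ (fun z => F z * Complex.exp (lam * z)) Rr := by
    apply DifferentiableOn.diffContOnCl
    intro z hz
    obtain ⟨a1, a2⟩ := habs z hz
    have h1 : DifferentiableAt ℂ F z :=
      (hF z (hsub z a1 a2)).differentiableAt (hU.mem_nhds (hsub z a1 a2))
    have h2 : DifferentiableAt ℂ (fun z : ℂ => Complex.exp (lam * z)) z := by fun_prop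
    exact (h1.mul h2).differentiableWithinAt
  have hKg : 0 < K * g := by positivity
  have h0R : (0 : ℂ) ∈ closure Rr := by
    apply subset_closure
    exact ⟨⟨by simp [hX], by simp [hX]⟩, ⟨by simpa using hKg, by simpa using hKg⟩⟩
  have hmain : ‖F 0 * Complex.exp (lam * 0)‖ * ‖Q 0‖ ≤
      B + m * N * c * (Real.exp (lam * X) * D) := by
    by_cases hQ00 : ‖Q 0‖ = 0
    · rw [hQ00, mul_zero]
      have := hbd (X : ℂ) (Or.inl ⟨by simp [abs_of_pos hX], by simpa using hKg⟩)
      rw [hQ00, mul_zero] at this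
      exact this
    · have hQ0pos : 0 < ‖Q 0‖ := lt_of_le_of_ne (norm_nonneg _) (Ne.symm hQ00)
      rw [← le_div_iff₀ hQ0pos]
      apply Complex.norm_le_of_forall_mem_frontier_norm_le hRb hdiffc _ h0R
      intro z hz
      rw [le_div_iff₀ hQ0pos]
      apply hbd
      have hzc := habs z (frontier_subset_closure hz)
      have hzn : z ∉ Rr := by
        rw [hRopen.frontier_eq] at hz
        exact hz.2
      by_cases c1 : |z.im| = K * g
      · right; exact ⟨hzc.1, c1⟩
      · left
        have c2 : |z.im| < K * g := lt_of_le_of_ne hzc.2 c1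
        refine ⟨?_, c2⟩
        by_contra c3
        have c4 : |z.re| < X := lt_of_le_of_ne hzc.1 c3
        apply hzn
        exact ⟨abs_lt.mp c4, abs_lt.mp c2⟩
  rw [mul_zero, Complex.exp_zero, mul_one] at hmain
  have h0U : (0 : ℂ) ∈ U := hsub 0 (by simp [hX.le]) (by simpa using hKg.le)
  have hf0 : f 0 = Lg 0 + Q 0 * F 0 := by
    have := hFz 0 h0U
    rw [← this]; ring
  rw [hf0]
  refine (norm_add_le _ _).trans ?_
  rw [norm_mul, mul_comm ‖Q 0‖]
  have hNr : (N : ℝ) = 2 * K := by rw [hN]; push_cast; ring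
  rw [hNr] at hL0 hmain
  calc ‖Lg 0‖ + ‖F 0‖ * ‖Q 0‖ ≤ m * (2 * K) * c +
        (B + m * (2 * K) * c * (Real.exp (lam * X) * D)) := add_le_add hL0 hmain
    _ = _ := by ring

end Pool.Agent.Lib.SampleProd
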