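import Mathlib
import Pool.Agent.Lib.ZetaConv
import Pool.Agent.Lib.SampleInterp

/-!
# Sampling zeta at the Nyquist rate
-/

namespace Pool.Agent.Lib.SampleZeta

open Complex Filter Topology Set
open Pool.Agent.Lib.ZetaConv Pool.Agent.Lib.SampleProd

lemma ev_log_pow (C : ℝ) {a : ℝ} (ha : 0 < a) (N : ℕ) :
    ∀ᶠ T : ℝ in atTop, C * (Real.log T) ^ N ≤ T ^ a := by
  have h1 := (isLittleO_pow_exp_pos_mul_atTop N ha)
  have h2 := h1.comp_tendsto Real.tendsto_log_atTop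
  have h3 := h2.bound (c := 1 / (|C| + 1)) (by positivity)
  filter_upwards [h3, eventually_gt_atTop 1] with T hT hT1
  have hT0 : 0 < T := by linarith
  have hL : 0 ≤ Real.log T := Real.log_nonneg hT1.le
  simp only [Function.comp_apply, Real.norm_eq_abs] at hT
  rw [abs_of_nonneg (pow_nonneg hL N), abs_of_pos (Real.exp_pos _), mul_comm a,
    ← Real.rpow_def_of_pos hT0] at hT
  have hp : 0 ≤ T ^ a := by positivity
  have hC : 0 < |C| + 1 := by positivity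
  have h4 : (|C| + 1) * Real.log T ^ N ≤ T ^ a := by
    calc (|C| + 1) * Real.log T ^ N ≤ (|C| + 1) * (1 / (|C| + 1) * T ^ a) := by gcongr
      _ = T ^ a := by field_simp
  have h5 : C ≤ |C| + 1 := by linarith [le_abs_self C]
  calc C * Real.log T ^ N ≤ (|C| + 1) * Real.log T ^ N :=
        mul_le_mul_of_nonneg_right h5 (pow_nonneg hL N)
    _ ≤ T ^ a := h4

/-- balanced local bound -/
lemma near {β η : ℝ} (hβ0 : 0 ≤ β) (hβ : β ≤ 1) (hη : 0 < η) (hη1 : η ≤ 1 / 4)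
    (h : LineB (β + η)) : ∃ C T₁ : ℝ, 1 ≤ C ∧ ∀ T : ℝ, T₁ ≤ T → ∀ z : ℂ, |z.re| ≤ 1 / 4 →
      |z.im| ≤ 1 → ‖riemannZeta ((1 / 2 : ℝ) + T * I + z)‖ * Real.exp (Real.log T / 2 * z.re) ≤
        C * T ^ (β + 2 * η + (1 / 2 - 2 * β) * |z.re|) := by
  obtain ⟨C₁, T₁, hC₁, hT₁, hc⟩ := h.conv (by linarith) hη
  refine ⟨24 * C₁, T₁ + 21, by linarith, ?_⟩
  intro T hT z hz1 hz2
  have hT0 : 0 < T := by linarith
  have hT1 : 1 ≤ T := by linarith
  rw [abs_le] at hz2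
  set x : ℝ := |z.re| with hx
  have hx0 : 0 ≤ x := abs_nonneg _
  set τ : ℝ := T + z.im with hτ
  have hτ1 : T₁ ≤ τ := by linarith [hz2.1]
  have hτ20 : 20 ≤ τ := by linarith [hz2.1]
  have hτ0 : 0 < τ := by linarith
  have hτ2 : τ ≤ 2 * T := by linarith [hz2.2]
  set e : ℝ := β * (1 - 2 * x) + 2 * η with he
  have he0 : 0 ≤ e := by
    have : 0 ≤ β * (1 - 2 * x) := mul_nonneg hβ0 (by linarith)
    linarith
  have he2 : e ≤ 2 := by nlinarith
  have h1 : ‖riemannZeta ((1 / 2 + x : ℝ) + τ * I)‖ ≤ 4 * C₁ * T ^ e := by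
    calc ‖riemannZeta ((1 / 2 + x : ℝ) + τ * I)‖ ≤ C₁ * τ ^ ((β + η) * (1 - 2 * x) + η) :=
          hc τ hτ1 x hx0 (by linarith)
      _ ≤ C₁ * τ ^ e := by
          apply mul_le_mul_of_nonneg_left _ (by linarith)
          apply Real.rpow_le_rpow_of_exponent_le (by linarith)
          rw [he]; nlinarith
      _ ≤ C₁ * (2 * T) ^ e := by
          apply mul_le_mul_of_nonneg_left _ (by linarith)
          exact Real.rpow_le_rpow hτ0.le hτ2 he0
      _ = C₁ * (2 ^ e * T ^ e) := by rw [Real.mul_rpow (by norm_num) hT0.le]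
      _ ≤ C₁ * (4 * T ^ e) := by
          have : (2 : ℝ) ^ e ≤ 4 := by
            calc (2 : ℝ) ^ e ≤ 2 ^ (2 : ℝ) := Real.rpow_le_rpow_of_exponent_le (by norm_num) he2
              _ = 4 := by norm_num
          gcongr
      _ = 4 * C₁ * T ^ e := by ring
  have hexp : Real.exp (Real.log T / 2 * z.re) = T ^ (z.re / 2) := by
    rw [Real.rpow_def_of_pos hT0]; congr 1; ring
  rw [hexp]
  have hTe0 : 0 < T ^ e := by positivity
  rcases le_or_gt 0 z.re with hre | hre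
  · have hxr : x = z.re := abs_of_nonneg hre
    have hs : ((1 / 2 : ℝ) + T * I + z : ℂ) = (1 / 2 + x : ℝ) + τ * I := by
      apply Complex.ext
      · simp [hxr]
      · simp [hτ]
    rw [hs]
    have hpow : T ^ (β + 2 * η + (1 / 2 - 2 * β) * x) = T ^ e * T ^ (z.re / 2) := by
      rw [← Real.rpow_add hT0]; congr 1; rw [he, ← hxr]; ring
    rw [hpow]
    calc ‖riemannZeta ((1 / 2 + x : ℝ) + τ * I)‖ * T ^ (z.re / 2)
        ≤ (4 * C₁ * T ^ e) * T ^ (z.re / 2) := by gcongr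
      _ ≤ (24 * C₁ * T ^ e) * T ^ (z.re / 2) := by gcongr; linarith
      _ = _ := by ring
  · have hxr : x = -z.re := abs_of_neg hre
    have hs : ((1 / 2 : ℝ) + T * I + z : ℂ) = (1 / 2 - x : ℝ) + τ * I := by
      apply Complex.ext
      · simp [hxr]
      · simp [hτ]
    rw [hs]
    have hpow : T ^ (β + 2 * η + (1 / 2 - 2 * β) * x) = T ^ e * (T ^ x * T ^ (z.re / 2)) := by
      rw [← Real.rpow_add hT0, ← Real.rpow_add hT0]; congr 1; rw [he, hxr]; ring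
    rw [hpow]
    have h2 := zeta_left (x := x) (t := τ) hx0 (by linarith) hτ20
    have h3 : τ ^ x ≤ 2 * T ^ x := by
      calc τ ^ x ≤ (2 * T) ^ x := Real.rpow_le_rpow hτ0.le hτ2 hx0
        _ = 2 ^ x * T ^ x := by rw [Real.mul_rpow (by norm_num) hT0.le]
        _ ≤ 2 * T ^ x := by
            have : (2 : ℝ) ^ x ≤ 2 := by
              calc (2 : ℝ) ^ x ≤ 2 ^ (1 : ℝ) :=
                    Real.rpow_le_rpow_of_exponent_le (by norm_num) (by linarith)
                _ = 2 := by norm_num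
            gcongr
    calc ‖riemannZeta ((1 / 2 - x : ℝ) + τ * I)‖ * T ^ (z.re / 2)
        ≤ (3 * τ ^ x * ‖riemannZeta ((1 / 2 + x : ℝ) + τ * I)‖) * T ^ (z.re / 2) := by gcongr
      _ ≤ (3 * (2 * T ^ x) * (4 * C₁ * T ^ e)) * T ^ (z.re / 2) := by gcongr
      _ = _ := by ring

/-- lower bound for `W` in terms of `T` -/
lemma W_big {L c₂ X q d : ℝ} {K : ℕ} (hc2 : 6 ≤ c₂) (hX : 0 < X) (hX2 : X ≤ d / 20)
    (hX3 : X ≤ 1 / 20) (hpi : q - d / 4 ≤ Real.pi / c₂) (hL : c₂ ≤ X * L)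
    (hK : L / (2 * c₂) ≤ ((K - 1 : ℕ) : ℝ)) (hK1 : 1 ≤ K - 1) :
    Real.exp (L * (X * (q - d / 2))) ≤ L * W (X / (c₂ / L)) (K - 1) := by
  have hc0 : 0 < c₂ := by linarith
  have hL0 : 0 < L := by
    by_contra hcon
    push Not at hcon
    nlinarith
  have hp := Real.pi_pos
  have hp4 : Real.pi < 4 := by linarith [Real.pi_lt_d2]
  set n : ℕ := K - 1 with hn
  have hn0 : (0 : ℝ) < n := by exact_mod_cast hK1
  set u : ℝ := X / (c₂ / L) with hu
  have hu' : u = X * L / c₂ := by rw [hu]; field_simp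
  have hu1 : 1 ≤ u := by rw [hu', le_div_iff₀ hc0]; linarith
  have hu0 : 0 < u := by linarith
  have h1 := W_lower hu1 hK1
  have h2 : 4 * Real.pi * u ≤ L := by
    rw [hu']
    have : 4 * Real.pi * (X * L / c₂) = (4 * Real.pi * X / c₂) * L := by ring
    rw [this]
    have h3 : 4 * Real.pi * X / c₂ ≤ 1 := by
      rw [div_le_one hc0]; nlinarith
    nlinarith
  have h3 : u ^ 2 / n ≤ L * (X * (d / 4)) := by
    calc u ^ 2 / n ≤ u ^ 2 / (L / (2 * c₂)) := by gcongr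
      _ = L * (X * (2 * X / c₂)) := by rw [hu']; field_simp
      _ ≤ L * (X * (d / 4)) := by
          have : 2 * X / c₂ ≤ d / 4 := by
            rw [div_le_iff₀ hc0]; nlinarith
          gcongr
  have h4 : L * (X * (q - d / 4)) ≤ Real.pi * u := by
    calc L * (X * (q - d / 4)) ≤ L * (X * (Real.pi / c₂)) := by gcongr
      _ = Real.pi * u := by rw [hu']; ring
  have h5 : L * (X * (q - d / 2)) ≤ Real.pi * u - u ^ 2 / n := by
    have : L * (X * (q - d / 2)) = L * (X * (q - d / 4)) - L * (X * (d / 4)) := by ring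
    linarith
  rw [div_le_iff₀ (by positivity)] at h1
  calc Real.exp (L * (X * (q - d / 2))) ≤ Real.exp (Real.pi * u - u ^ 2 / n) :=
        Real.exp_le_exp.mpr h5
    _ ≤ W u n * (4 * Real.pi * u) := h1
    _ ≤ W u n * L := mul_le_mul_of_nonneg_left h2 (W_pos u n).le
    _ = _ := mul_comm _ _

/-- The gap condition: with `a = 1 - 4A`, every interval `[x, x + c / log x]` with
`c > 2π/a` meets `Λ` for large `x`. -/
def Dense (Λ : Set ℝ) (a : ℝ) : Prop :=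
  ∀ c : ℝ, 2 * Real.pi / a < c → ∃ x₀ : ℝ, ∀ x : ℝ, x₀ ≤ x → ∃ l ∈ Λ, x ≤ l ∧ l ≤ x + c / Real.log x

lemma cells {L c₂ : ℝ} (hc : 6 ≤ c₂) (hL : 4 * c₂ ≤ L) :
    4 ≤ ⌊L / c₂⌋₊ ∧ (⌊L / c₂⌋₊ : ℝ) * (c₂ / L) ≤ 1 ∧ 1 / 2 ≤ (⌊L / c₂⌋₊ : ℝ) * (c₂ / L) ∧
      (⌊L / c₂⌋₊ : ℝ) ≤ L ∧ L / (2 * c₂) ≤ ((⌊L / c₂⌋₊ - 1 : ℕ) : ℝ) ∧
      L / c₂ ≤ (⌊L / c₂⌋₊ : ℝ) + 1 := by
  have hc0 : 0 < c₂ := by linarith
  have hL0 : 0 < L := by linarith
  set K : ℕ := ⌊L / c₂⌋₊ with hK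
  have hKle : (K : ℝ) ≤ L / c₂ := Nat.floor_le (by positivity)
  have hKgt : L / c₂ < K + 1 := Nat.lt_floor_add_one _
  have hLc4 : 4 ≤ L / c₂ := by rw [le_div_iff₀ hc0]; linarith
  have hK4 : 4 ≤ K := by
    rw [hK]; exact Nat.le_floor (by exact_mod_cast hLc4)
  have hK4r : (4 : ℝ) ≤ K := by exact_mod_cast hK4
  have hprod : L / c₂ * (c₂ / L) = 1 := by field_simp
  have hg0 : 0 < c₂ / L := by positivity
  refine ⟨hK4, ?_, ?_, ?_, ?_, hKgt.le⟩
  · calc (K : ℝ) * (c₂ / L) ≤ L / c₂ * (c₂ / L) := by gcongr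
      _ = 1 := hprod
  · have h1 : L / c₂ ≤ 2 * K := by linarith
    have h2 : L / c₂ * (c₂ / L) ≤ 2 * K * (c₂ / L) := by gcongr
    rw [hprod] at h2
    linarith
  · refine hKle.trans ?_
    rw [div_le_iff₀ hc0]
    nlinarith
  · have hKm1 : ((K - 1 : ℕ) : ℝ) = K - 1 := by
      rw [Nat.cast_sub (by omega)]; simp
    rw [hKm1]
    have : L / (2 * c₂) = (L / c₂) / 2 := by field_simp
    rw [this]; linarith

lemma vert_side {T L C' X q d β η P Pz Kg Wx D : ℝ} (hT0 : 0 < T) (hX0 : 0 < X) (hL0 : 0 < L)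
    (hη : η = X * d / 8) (hP0 : 0 ≤ P) (hPz : 0 ≤ Pz) (hKg0 : 0 < Kg) (hKg : Kg ≤ 1)
    (hW0 : 0 < Wx)
    (hv : P ^ 2 * ((X / Kg) ^ 6 * Wx ^ 2 / 2) ≤ Pz ^ 2)
    (hn : D ≤ C' * T ^ (β + 2 * η + (q - 2 * d) * X))
    (hWb : T ^ (X * (q - d / 2)) ≤ L * Wx) (g2 : C' * 2 / X ^ 3 * L ≤ T ^ (d * X)) :
    D * P ≤ T ^ (β - 2 * η) * Pz := by
  have hv2 : (P * (X ^ 3 * (Wx / 2))) ^ 2 ≤ Pz ^ 2 := by
    refine le_trans ?_ hv
    have f1 : X ^ 6 ≤ (X / Kg) ^ 6 := by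
      apply pow_le_pow_left₀ hX0.le
      rw [le_div_iff₀ hKg0]
      nlinarith
    calc (P * (X ^ 3 * (Wx / 2))) ^ 2 = P ^ 2 * (X ^ 6 * Wx ^ 2 / 4) := by ring
      _ ≤ P ^ 2 * ((X / Kg) ^ 6 * Wx ^ 2 / 2) := by
          have f2 : X ^ 6 * Wx ^ 2 / 4 ≤ (X / Kg) ^ 6 * Wx ^ 2 / 2 := by
            calc X ^ 6 * Wx ^ 2 / 4 ≤ X ^ 6 * Wx ^ 2 / 2 := by
                  have : 0 ≤ X ^ 6 * Wx ^ 2 := by positivity
                  linarith
              _ ≤ _ := by gcongr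
          gcongr
  have hv3 : P * (X ^ 3 * (Wx / 2)) ≤ Pz :=
    (pow_le_pow_iff_left₀ (by positivity) hPz two_ne_zero).mp hv2
  have hmain : D ≤ T ^ (β - 2 * η) * (X ^ 3 * (Wx / 2)) := by
    refine hn.trans ?_
    have e1 : T ^ (β + 2 * η + (q - 2 * d) * X) * T ^ (d * X) =
        T ^ (β - 2 * η) * T ^ (X * (q - d / 2)) := by
      rw [← Real.rpow_add hT0, ← Real.rpow_add hT0]
      congr 1
      rw [hη]
      ring
    have hTT : 0 < T ^ (β + 2 * η + (q - 2 * d) * X) := by positivity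
    have hTB : 0 < T ^ (β - 2 * η) := by positivity
    have e2 : C' * T ^ (β + 2 * η + (q - 2 * d) * X) * (2 / X ^ 3 * L) ≤
        T ^ (β - 2 * η) * (L * Wx) := by
      calc C' * T ^ (β + 2 * η + (q - 2 * d) * X) * (2 / X ^ 3 * L)
          = T ^ (β + 2 * η + (q - 2 * d) * X) * (C' * 2 / X ^ 3 * L) := by ring
        _ ≤ T ^ (β + 2 * η + (q - 2 * d) * X) * T ^ (d * X) := by gcongr
        _ = T ^ (β - 2 * η) * T ^ (X * (q - d / 2)) := e1
        _ ≤ T ^ (β - 2 * η) * (L * Wx) := by gcongr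
    have e3 : (0 : ℝ) < 2 / X ^ 3 * L := by positivity
    refine le_of_mul_le_mul_right (e2.trans (le_of_eq ?_)) e3
    field_simp
  calc D * P ≤ (T ^ (β - 2 * η) * (X ^ 3 * (Wx / 2))) * P := by gcongr
    _ = T ^ (β - 2 * η) * (P * (X ^ 3 * (Wx / 2))) := by ring
    _ ≤ _ := by gcongr

lemma horiz_side {T L C' X q β η P Pz s c₂ D κ : ℝ} {K : ℕ} (hT1 : 1 ≤ T) (hL : L = Real.log T)
    (hs0 : 0 < s) (hC' : 0 ≤ C')
    (hη : 4 * η ≤ X / 2) (hP0 : 0 ≤ P) (hK4 : 1 ≤ K) (hKL : (K : ℝ) ≤ L)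
    (hKgt : L / c₂ ≤ K + 1) (hc₂ : c₂ = Real.pi / (q - κ)) (hq0 : 0 < q) (hκ : κ ≤ q / 2)
    (hXq : X ≤ q / 10)
    (hv : P * (s * 4 ^ K / (4 * K ^ 2)) ≤ Pz)
    (hn : D ≤ C' * T ^ (β + 2 * η + X / 2))
    (g3 : 16 * C' / s * L ^ 2 ≤ T ^ (q / 10)) :
    D * P ≤ T ^ (β - 2 * η) * Pz := by
  have hT0 : 0 < T := by linarith
  have hp := Real.pi_pos
  have hp4 : Real.pi < 3.15 := Real.pi_lt_d2
  have hexpL : ∀ e : ℝ, Real.exp (L * e) = T ^ e := fun e => by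
    rw [hL, Real.rpow_def_of_pos hT0]
  have hqκ : 0 < q - κ := by linarith
  have hc₂0 : 0 < c₂ := by rw [hc₂]; positivity
  have hKpos : (0 : ℝ) < K := by exact_mod_cast hK4
  have hmain : D ≤ T ^ (β - 2 * η) * (s * 4 ^ K / (4 * K ^ 2)) := by
    refine hn.trans ?_
    have h4 : 1.38 ≤ Real.log 4 := by
      have : Real.log 4 = 2 * Real.log 2 := by
        rw [show (4 : ℝ) = 2 ^ 2 by norm_num, Real.log_pow]; norm_num
      rw [this]
      have := Real.log_two_gt_d9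
      linarith
    have e2 : T ^ (Real.log 4 / c₂) ≤ 4 * 4 ^ K := by
      have : (4 : ℝ) * 4 ^ K = 4 ^ ((K : ℝ) + 1) := by
        rw [Real.rpow_add (by norm_num), Real.rpow_natCast, Real.rpow_one]; ring
      rw [this, ← hexpL, Real.rpow_def_of_pos (by norm_num : (0 : ℝ) < 4), Real.exp_le_exp]
      calc L * (Real.log 4 / c₂) = Real.log 4 * (L / c₂) := by ring
        _ ≤ Real.log 4 * (K + 1) := by
            apply mul_le_mul_of_nonneg_left hKgt; linarith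
    have e3 : q / 5 ≤ Real.log 4 / c₂ := by
      rw [hc₂, div_div_eq_mul_div, le_div_iff₀ hp]
      have : 1.38 * (q / 2) ≤ Real.log 4 * (q - κ) := by
        apply mul_le_mul h4 (by linarith) (by positivity) (by linarith)
      nlinarith
    have e4 : T ^ (β + 2 * η + X / 2) * T ^ (q / 10) ≤
        T ^ (β - 2 * η) * T ^ (Real.log 4 / c₂) := by
      rw [← Real.rpow_add hT0, ← Real.rpow_add hT0]
      apply Real.rpow_le_rpow_of_exponent_le hT1
      linarith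
    have hTT : 0 < T ^ (β + 2 * η + X / 2) := by positivity
    have hTB : 0 < T ^ (β - 2 * η) := by positivity
    have e5 : C' * T ^ (β + 2 * η + X / 2) * (16 * L ^ 2 / s) ≤
        T ^ (β - 2 * η) * (4 * 4 ^ K) := by
      calc C' * T ^ (β + 2 * η + X / 2) * (16 * L ^ 2 / s)
          = T ^ (β + 2 * η + X / 2) * (16 * C' / s * L ^ 2) := by ring
        _ ≤ T ^ (β + 2 * η + X / 2) * T ^ (q / 10) := by gcongr
        _ ≤ T ^ (β - 2 * η) * T ^ (Real.log 4 / c₂) := e4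
        _ ≤ _ := by gcongr
    have e6 : C' * T ^ (β + 2 * η + X / 2) * (16 * K ^ 2 / s) ≤
        T ^ (β - 2 * η) * (4 * 4 ^ K) := by
      refine le_trans ?_ e5
      gcongr
    have e7 : (0 : ℝ) < 16 * K ^ 2 / s := by positivity
    refine le_of_mul_le_mul_right (e6.trans (le_of_eq ?_)) e7
    field_simp
    try ring
  calc D * P ≤ (T ^ (β - 2 * η) * (s * 4 ^ K / (4 * K ^ 2))) * P := by gcongr
    _ = T ^ (β - 2 * η) * (P * (s * 4 ^ K / (4 * K ^ 2))) := by ring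
    _ ≤ _ := by gcongr

lemma concl_side {T L X A d β η s C K Kg : ℝ} (hT1 : 1 ≤ T) (hL : L = Real.log T)
    (hL1 : 1 ≤ L) (hs0 : 0 < s) (hX0 : 0 < X) (hC : 0 ≤ C) (hβ : β = A + d)
    (hXd : X ≤ d / 20) (hη : η ≤ d / 160)
    (hK0 : 0 ≤ K) (hKL : K ≤ L) (hKg0 : 0 ≤ Kg) (hKg : Kg ≤ 1)
    (g1 : 4 * C * 2 / s ^ 2 * (1 + 1 / X + 1 / s) * L ^ 5 ≤ T ^ (d / 2)) :
    C * (2 * T ^ (A + d / 8)) * (2 * K) * (K ^ 3 / s ^ 2) *
        (1 + Real.exp (L / 2 * X) * (Kg / X + K / s)) ≤ T ^ (β - 2 * η) := by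
  have hT0 : 0 < T := by linarith
  have hexpL : ∀ e : ℝ, Real.exp (L * e) = T ^ e := fun e => by
    rw [hL, Real.rpow_def_of_pos hT0]
  have hTX : Real.exp (L / 2 * X) = T ^ (X / 2) := by
    rw [← hexpL]; congr 1; ring
  rw [hTX]
  have hTX1 : 1 ≤ T ^ (X / 2) := Real.one_le_rpow hT1 (by positivity)
  have hTA : 0 < T ^ (A + d / 8) := by positivity
  have e1 : 1 + T ^ (X / 2) * (Kg / X + K / s) ≤ T ^ (X / 2) * (L * (1 + 1 / X + 1 / s)) := by
    have f1 : Kg / X ≤ L * (1 / X) := by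
      rw [mul_one_div]
      gcongr
      linarith
    have f2 : K / s ≤ L * (1 / s) := by
      rw [mul_one_div]; gcongr
    have f3 : 1 ≤ T ^ (X / 2) * L := by nlinarith
    calc 1 + T ^ (X / 2) * (Kg / X + K / s)
        ≤ T ^ (X / 2) * L + T ^ (X / 2) * (L * (1 / X) + L * (1 / s)) := by
          gcongr
      _ = _ := by ring
  have e2 : C * (2 * T ^ (A + d / 8)) * (2 * K) * (K ^ 3 / s ^ 2) *
      (1 + T ^ (X / 2) * (Kg / X + K / s)) ≤
      C * (2 * T ^ (A + d / 8)) * (2 * L) * (L ^ 3 / s ^ 2) *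
      (T ^ (X / 2) * (L * (1 + 1 / X + 1 / s))) := by
    have hpos : 0 ≤ 1 + T ^ (X / 2) * (Kg / X + K / s) := by positivity
    gcongr
  have e3 : C * (2 * T ^ (A + d / 8)) * (2 * L) * (L ^ 3 / s ^ 2) *
      (T ^ (X / 2) * (L * (1 + 1 / X + 1 / s))) ≤
      (4 * C * 2 / s ^ 2 * (1 + 1 / X + 1 / s) * L ^ 5) *
        (T ^ (A + d / 8) * T ^ (X / 2)) := by
    have : (4 * C * 2 / s ^ 2 * (1 + 1 / X + 1 / s) * L ^ 5) *
        (T ^ (A + d / 8) * T ^ (X / 2)) = 2 * (C * (2 * T ^ (A + d / 8)) * (2 * L) *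
        (L ^ 3 / s ^ 2) * (T ^ (X / 2) * (L * (1 + 1 / X + 1 / s)))) := by ring
    rw [this]
    have h0 : 0 ≤ C * (2 * T ^ (A + d / 8)) * (2 * L) * (L ^ 3 / s ^ 2) *
      (T ^ (X / 2) * (L * (1 + 1 / X + 1 / s))) := by positivity
    linarith
  have e4 : (4 * C * 2 / s ^ 2 * (1 + 1 / X + 1 / s) * L ^ 5) *
        (T ^ (A + d / 8) * T ^ (X / 2)) ≤ T ^ (d / 2) * (T ^ (A + d / 8) * T ^ (X / 2)) := by
    gcongr
  have e5 : T ^ (d / 2) * (T ^ (A + d / 8) * T ^ (X / 2)) ≤ T ^ (β - 2 * η) := by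
    rw [← Real.rpow_add hT0, ← Real.rpow_add hT0]
    apply Real.rpow_le_rpow_of_exponent_le hT1
    linarith
  linarith

lemma sample_bound {T C₂ A d l : ℝ} (hT0 : 0 < T) (hl0 : 0 < l) (hl : l ≤ 2 * T) (hA0 : 0 ≤ A)
    (hd0 : 0 ≤ d) (hAd : A + d / 8 ≤ 1) {Z : ℝ} (h : Z ≤ C₂ * l ^ (A + d / 8)) :
    Z ≤ (|C₂| + 1) * (2 * T ^ (A + d / 8)) := by
  have hexp : 0 ≤ A + d / 8 := by positivity
  calc Z ≤ C₂ * l ^ (A + d / 8) := h
    _ ≤ (|C₂| + 1) * l ^ (A + d / 8) := by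
        gcongr
        linarith [le_abs_self C₂]
    _ ≤ (|C₂| + 1) * (2 * T) ^ (A + d / 8) := by gcongr
    _ = (|C₂| + 1) * (2 ^ (A + d / 8) * T ^ (A + d / 8)) := by
        rw [Real.mul_rpow (by norm_num) hT0.le]
    _ ≤ (|C₂| + 1) * (2 * T ^ (A + d / 8)) := by
        have : (2 : ℝ) ^ (A + d / 8) ≤ 2 := by
          calc (2 : ℝ) ^ (A + d / 8) ≤ 2 ^ (1 : ℝ) :=
                Real.rpow_le_rpow_of_exponent_le (by norm_num) hAd
            _ = 2 := by norm_num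
        gcongr

/-- choice of the sample points -/
lemma exists_samples {Λ : Set ℝ} {c₁ c₂ s T x₀ : ℝ} (hc₁ : 0 < c₁) (hc₂ : 6 ≤ c₂)
    (hs0 : 0 < s) (hs8 : s ≤ 1 / 8) (hc12 : c₁ < (1 - 2 * s) * c₂)
    (hx₀ : ∀ x : ℝ, x₀ ≤ x → ∃ l ∈ Λ, x ≤ l ∧ l ≤ x + c₁ / Real.log x)
    (hT2 : 2 ≤ T) (hTx : x₀ + 1 ≤ T) (hL4 : 4 * c₂ ≤ Real.log T)
    (hLρ : Real.log 2 / (1 - c₁ / ((1 - 2 * s) * c₂)) ≤ Real.log T) :
    ∃ l : ℕ → ℝ, (∀ k < 2 * ⌊Real.log T / c₂⌋₊, l k ∈ Λ ∧ T - 1 ≤ l k ∧ l k ≤ T + 1) ∧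
      Samples ⌊Real.log T / c₂⌋₊ (c₂ / Real.log T) s (fun k => l k - T) := by
  obtain ⟨hK4, hKg1, -, -, -, -⟩ := cells hc₂ hL4
  set L : ℝ := Real.log T with hL
  set K : ℕ := ⌊L / c₂⌋₊ with hK
  set g : ℝ := c₂ / L with hg
  have hL0 : 0 < L := by linarith
  have hT0 : 0 < T := by linarith
  have hc₂0 : 0 < c₂ := by linarith
  have hg0 : 0 < g := by positivity
  have hs2 : 0 < 1 - 2 * s := by linarith
  have hsc : 0 < (1 - 2 * s) * c₂ := by positivity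
  set ρ : ℝ := c₁ / ((1 - 2 * s) * c₂) with hρ
  have hρ0 : 0 < ρ := by positivity
  have hρ1 : ρ < 1 := by rw [hρ, div_lt_one hsc]; exact hc12
  have hlog : ∀ x : ℝ, T - 1 ≤ x → ρ * L ≤ Real.log x := by
    intro x hx
    have h1 : T / 2 ≤ x := by linarith
    have h2 : L - Real.log 2 ≤ Real.log x := by
      rw [hL, ← Real.log_div hT0.ne' two_ne_zero]
      exact Real.log_le_log (by positivity) h1
    have h3 : Real.log 2 ≤ (1 - ρ) * L := by
      rwa [div_le_iff₀ (by linarith), mul_comm] at hLρ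
    linarith
  have hex : ∀ k : ℕ, ∃ l : ℝ, k < 2 * K → l ∈ Λ ∧ T + ((k : ℝ) - K + s) * g ≤ l ∧
      l ≤ T + ((k : ℝ) - K + 1 - s) * g := by
    intro k
    by_cases hk : k < 2 * K
    · have hk0 : (0 : ℝ) ≤ k := Nat.cast_nonneg k
      have h1 : T - 1 ≤ T + ((k : ℝ) - K + s) * g := by
        have : 0 ≤ ((k : ℝ) + s) * g := by positivity
        have h2 : ((k : ℝ) - K + s) * g = (k + s) * g - K * g := by ring
        linarith
      obtain ⟨l, hl, hl1, hl2⟩ := hx₀ (T + ((k : ℝ) - K + s) * g) (by linarith)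
      refine ⟨l, fun _ => ⟨hl, hl1, hl2.trans ?_⟩⟩
      have h2 := hlog _ h1
      have h3 : c₁ / Real.log (T + ((k : ℝ) - K + s) * g) ≤ (1 - 2 * s) * g := by
        calc c₁ / Real.log (T + ((k : ℝ) - K + s) * g) ≤ c₁ / (ρ * L) := by
              apply div_le_div_of_nonneg_left hc₁.le (by positivity) h2
          _ = (1 - 2 * s) * g := by rw [hρ, hg]; field_simp
      have h4 : ((k : ℝ) - K + 1 - s) * g = ((k : ℝ) - K + s) * g + (1 - 2 * s) * g := by ring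
      linarith
    · exact ⟨0, fun h => absurd h hk⟩
  choose l hl using hex
  refine ⟨l, ?_, ?_⟩
  · intro k hk
    obtain ⟨h1, h2, h3⟩ := hl k hk
    have hk0 : (0 : ℝ) ≤ k := Nat.cast_nonneg k
    have hk1 : (k : ℝ) + 1 ≤ 2 * K := by exact_mod_cast hk
    refine ⟨h1, ?_, ?_⟩
    · have : 0 ≤ ((k : ℝ) + s) * g := by positivity
      have h4 : ((k : ℝ) - K + s) * g = (k + s) * g - K * g := by ring
      linarith
    · have h5 : ((k : ℝ) - K + 1 - s) * g ≤ K * g := by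
        apply mul_le_mul_of_nonneg_right _ hg0.le
        linarith
      linarith
  · exact
    { hK := by omega
      hg := hg0
      hs := hs0
      hs2 := by linarith
      lo := fun k hk => by have := (hl k hk).2.1; linarith
      hi := fun k hk => by have := (hl k hk).2.2; linarith }

/-- **The estimate at height `T`** -/
lemma at_height {A β X q d η s c₂ κ C' C₂ T : ℝ} {y l : ℕ → ℝ} {Λ : Set ℝ}
    (hA0 : 0 ≤ A) (hA : A < 1 / 4) (hβ : β = A + d) (hd0 : 0 < d) (hd1 : d ≤ 1)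
    (hq : q = 1 / 2 - 2 * A) (hq0 : 0 < q) (hX0 : 0 < X) (hXd : X ≤ d / 20)
    (hX20 : X ≤ 1 / 20) (hXq : X ≤ q / 10) (hη : η = X * d / 8)
    (hκd : κ ≤ d / 4) (hκq : κ ≤ q / 2) (hc₂ : c₂ = Real.pi / (q - κ))
    (hc₂6 : 6 ≤ c₂) (hs0 : 0 < s) (hC' : 1 ≤ C') (hT2 : 2 ≤ T)
    (hL4 : 4 * c₂ ≤ Real.log T) (hLX : c₂ ≤ X * Real.log T)
    (hnear : ∀ z : ℂ, |z.re| ≤ 1 / 4 → |z.im| ≤ 1 →
      ‖riemannZeta ((1 / 2 : ℝ) + T * I + z)‖ * Real.exp (Real.log T / 2 * z.re) ≤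
        C' * T ^ (β + 2 * η + (1 / 2 - 2 * β) * |z.re|))
    (hl : ∀ k < 2 * ⌊Real.log T / c₂⌋₊, l k ∈ Λ ∧ T - 1 ≤ l k ∧ l k ≤ T + 1)
    (hy : y = fun k => l k - T)
    (hsam : Samples ⌊Real.log T / c₂⌋₊ (c₂ / Real.log T) s y)
    (hC₂ : ∀ l ∈ Λ, T - 1 ≤ l → ‖riemannZeta ((1 / 2 : ℝ) + l * I)‖ ≤ C₂ * l ^ (A + d / 8))
    (g1 : 4 * (|C₂| + 1) * 2 / s ^ 2 * (1 + 1 / X + 1 / s) * Real.log T ^ 5 ≤ T ^ (d / 2))
    (g2 : C' * 2 / X ^ 3 * Real.log T ≤ T ^ (d * X))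
    (g3 : 16 * C' / s * Real.log T ^ 2 ≤ T ^ (q / 10)) :
    ‖riemannZeta ((1 / 2 : ℝ) + T * I)‖ ≤ 2 * T ^ (β - 2 * η) := by
  obtain ⟨hK4, hKg1, hKg2, hKL, hKm1, hKgt⟩ := cells hc₂6 hL4
  set L : ℝ := Real.log T with hL
  set K : ℕ := ⌊L / c₂⌋₊ with hK
  set g : ℝ := c₂ / L with hg
  have hc₂0 : 0 < c₂ := by linarith
  have hL0 : 0 < L := by linarith
  have hT0 : 0 < T := by linarith
  have hT1 : 1 ≤ T := by linarith
  have hg0 : 0 < g := by positivity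
  set P : ℝ := ∏ k ∈ Finset.range (2 * K), |y k| with hP
  have hP0 : 0 ≤ P := Finset.prod_nonneg fun _ _ => abs_nonneg _
  set f : ℂ → ℂ := fun z => riemannZeta ((1 / 2 : ℝ) + T * I + z) with hf
  have hint := interp hsam (f := f) (U := {z : ℂ | -T < z.im})
    (isOpen_lt continuous_const continuous_im) (by
      intro z hz
      have hne : ((1 / 2 : ℝ) + T * I + z : ℂ) ≠ 1 := by
        intro h0
        have := congrArg Complex.im h0
        simp at this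
        simp only [mem_ofPred_eq] at hz
        linarith
      have h1 := differentiableAt_riemannZeta hne
      have h2 : DifferentiableAt ℂ (fun z : ℂ => ((1 / 2 : ℝ) + T * I + z : ℂ)) z := by fun_prop
      exact (h1.comp z h2).differentiableWithinAt) (X := X) hX0 (by
      intro z _ hz
      simp only [mem_ofPred_eq]
      rw [abs_le] at hz
      linarith [hz.1]) (m := (|C₂| + 1) * (2 * T ^ (A + d / 8))) (lam := L / 2)
      (B := T ^ (β - 2 * η)) (by positivity) ?_ ?_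
  · -- conclusion
    have hf0 : f 0 = riemannZeta ((1 / 2 : ℝ) + T * I) := by simp [hf]
    rw [hf0] at hint
    refine hint.trans ?_
    have hηd : η ≤ d / 160 := by
      rw [hη]
      have : X * d ≤ 1 / 20 * d := by gcongr
      linarith
    have := concl_side (T := T) (L := L) (X := X) (A := A) (d := d) (β := β) (η := η) (s := s)
      (C := |C₂| + 1) (K := K) (Kg := K * g) hT1 hL (by linarith) hs0 hX0 (by positivity) hβ
      hXd hηd (Nat.cast_nonneg K) hKL (by positivity) hKg1 g1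
    linarith
  · -- the samples
    intro k hk
    obtain ⟨h1, h2, h3⟩ := hl k hk
    have e1 : f (y k * I) = riemannZeta ((1 / 2 : ℝ) + l k * I) := by
      simp only [hf, hy]
      congr 1
      push_cast
      ring
    rw [e1]
    exact sample_bound hT0 (by linarith) (by linarith) hA0 hd0.le (by linarith) (hC₂ (l k) h1 h2)
  · -- the sides
    intro z hz
    have hzX : |z.re| ≤ X := by
      rcases hz with ⟨h1, _⟩ | ⟨h1, _⟩
      · exact h1.le
      · exact h1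
    have hz1 : |z.im| ≤ 1 := by
      rcases hz with ⟨_, h1⟩ | ⟨_, h1⟩
      · linarith
      · linarith
    have hn := hnear z (by linarith) hz1
    have hqd : (1 / 2 - 2 * β) = q - 2 * d := by rw [hq, hβ]; ring
    rw [hqd] at hn
    have hPz : 0 ≤ ∏ k ∈ Finset.range (2 * K), ‖z - y k * I‖ :=
      Finset.prod_nonneg fun _ _ => norm_nonneg _
    have hnorm : ∀ k, ‖z - y k * I‖ ^ 2 = z.re ^ 2 + (z.im - y k) ^ 2 := by
      intro k
      rw [← Complex.normSq_eq_norm_sq, Complex.normSq_apply]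
      simp
      ring
    change ‖riemannZeta ((1 / 2 : ℝ) + T * I + z)‖ * Real.exp (L / 2 * z.re) * P ≤ _
    rcases hz with ⟨h1, h2⟩ | ⟨h1, h2⟩
    · -- vertical
      rw [h1] at hn
      have hx0 : z.re ≠ 0 := by
        intro h0
        rw [h0, abs_zero] at h1
        linarith
      have hv := hsam.vert_ratio (x := z.re) (t := z.im) hx0 (by rw [h1]; linarith) h2
      have hWeq : W (z.re / g) (K - 1) = W (X / g) (K - 1) := by
        unfold W
        apply Finset.prod_congr rfl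
        intro j _
        have e : (z.re / g) ^ 2 = (X / g) ^ 2 := by
          rw [div_pow z.re g, div_pow X g, ← sq_abs z.re, h1]
        rw [e]
      rw [hWeq, h1] at hv
      have hc₂q : Real.pi / c₂ = q - κ := by
        have : 0 < q - κ := by linarith
        have := Real.pi_pos
        rw [hc₂]; field_simp
      have hWb := W_big (L := L) (c₂ := c₂) (X := X) (q := q) (d := d) (K := K) hc₂6 hX0 hXd hX20
        (by rw [hc₂q]; linarith) hLX hKm1 (by omega)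
      have hexpL : Real.exp (L * (X * (q - d / 2))) = T ^ (X * (q - d / 2)) := by
        rw [hL, Real.rpow_def_of_pos hT0]
      rw [← hg, hexpL] at hWb
      apply vert_side (T := T) (L := L) (C' := C') (X := X) (q := q) (d := d) (β := β) (η := η)
        (P := P) (Kg := K * g) (Wx := W (X / g) (K - 1)) hT0 hX0 hL0 hη hP0 hPz (by linarith) hKg1
        (W_pos _ _) _ hn hWb g2
      have e2 : (∏ k ∈ Finset.range (2 * K), ‖z - y k * I‖) ^ 2 =
          ∏ k ∈ Finset.range (2 * K), (z.re ^ 2 + (z.im - y k) ^ 2) := by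
        rw [← Finset.prod_pow]
        exact Finset.prod_congr rfl fun k _ => hnorm k
      rw [e2]
      exact hv
    · -- horizontal
      have hh := hsam.horiz_ratio h2
      have hle : ∏ k ∈ Finset.range (2 * K), |z.im - y k| ≤
          ∏ k ∈ Finset.range (2 * K), ‖z - y k * I‖ := by
        apply Finset.prod_le_prod
        · intro k _; exact abs_nonneg _
        · intro k _
          have := Complex.abs_im_le_norm (z - y k * I)
          simpa using this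
      have hx0 := abs_nonneg z.re
      apply horiz_side (T := T) (L := L) (C' := C') (X := X) (q := q) (β := β) (η := η)
        (P := P) (s := s) (c₂ := c₂) (κ := κ) (K := K) hT1 hL hs0 (by linarith)
        _ hP0 (by omega) hKL hKgt hc₂ hq0 hκq hXq (hh.trans hle) _ g3
      · rw [hη]
        have : X * d ≤ X * 1 := by gcongr
        linarith
      · refine hn.trans ?_
        apply mul_le_mul_of_nonneg_left _ (by linarith)
        apply Real.rpow_le_rpow_of_exponent_le hT1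
        have e1 : (q - 2 * d) * |z.re| ≤ q * |z.re| := by
          apply mul_le_mul_of_nonneg_right _ hx0
          linarith
        have e2 : q * |z.re| ≤ 1 / 2 * X := by
          apply mul_le_mul _ hzX hx0 (by norm_num)
          linarith
        linarith

/-- **The improvement step.** -/
lemma improve {A β : ℝ} (hA0 : 0 ≤ A) (hA : A < 1 / 4) (hAβ : A < β) (hβ : β ≤ 1)
    {Λ : Set ℝ} (hΛ : Dense Λ (1 - 4 * A))
    (hS : ∀ ε > 0, ∃ C T₀ : ℝ, ∀ l ∈ Λ, T₀ ≤ l →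
      ‖riemannZeta ((1 / 2 : ℝ) + l * I)‖ ≤ C * l ^ (A + ε)) :
    ∃ η > 0, LineB (β + η) → LineB (β - η) := by
  obtain ⟨q, hq⟩ : ∃ q : ℝ, q = 1 / 2 - 2 * A := ⟨_, rfl⟩
  have hq0 : 0 < q := by linarith
  have hq1 : q ≤ 1 / 2 := by linarith
  obtain ⟨d, hd⟩ : ∃ d : ℝ, d = β - A := ⟨_, rfl⟩
  have hd0 : 0 < d := by linarith
  have hd1 : d ≤ 1 := by linarith
  obtain ⟨X, hX⟩ : ∃ X : ℝ, X = q * d / 10 := ⟨_, rfl⟩
  have hX0 : 0 < X := by rw [hX]; positivity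
  have hXd : X ≤ d / 20 := by rw [hX]; nlinarith
  have hX20 : X ≤ 1 / 20 := by linarith
  have hXq : X ≤ q / 10 := by rw [hX]; nlinarith
  obtain ⟨η, hη⟩ : ∃ η : ℝ, η = X * d / 8 := ⟨_, rfl⟩
  have hη0 : 0 < η := by rw [hη]; positivity
  have hη1 : η ≤ 1 / 4 := by rw [hη]; nlinarith
  refine ⟨η, hη0, fun hline => ?_⟩
  have hp := Real.pi_pos
  have hp3 := Real.pi_gt_three
  -- constants
  obtain ⟨κ, hκ⟩ : ∃ κ : ℝ, κ = min (d / 4) (q / 2) := ⟨_, rfl⟩
  have hκ0 : 0 < κ := by rw [hκ]; positivity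
  have hκd : κ ≤ d / 4 := by rw [hκ]; exact min_le_left _ _
  have hκq : κ ≤ q / 2 := by rw [hκ]; exact min_le_right _ _
  obtain ⟨c₁, hc₁⟩ : ∃ c₁ : ℝ, c₁ = Real.pi / (q - κ / 2) := ⟨_, rfl⟩
  obtain ⟨c₂, hc₂⟩ : ∃ c₂ : ℝ, c₂ = Real.pi / (q - κ) := ⟨_, rfl⟩
  have hqκ : 0 < q - κ := by linarith
  have hqκ2 : 0 < q - κ / 2 := by linarith
  have hc₁0 : 0 < c₁ := by rw [hc₁]; positivity
  have hc₂0 : 0 < c₂ := by rw [hc₂]; positivity
  have hc₂6 : 6 ≤ c₂ := by rw [hc₂, le_div_iff₀ hqκ]; linarith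
  obtain ⟨s, hs⟩ : ∃ s : ℝ, s = κ / (4 * q) := ⟨_, rfl⟩
  have hs0 : 0 < s := by rw [hs]; positivity
  have hs8 : s ≤ 1 / 8 := by rw [hs, div_le_iff₀ (by positivity)]; linarith
  have hsq : 4 * q * s = κ := by rw [hs]; field_simp
  have hc12 : c₁ < (1 - 2 * s) * c₂ := by
    rw [hc₁, hc₂, ← mul_div_assoc, div_lt_div_iff₀ hqκ2 hqκ]
    have hsκ : 0 < s * κ := by positivity
    have : q - κ < (1 - 2 * s) * (q - κ / 2) := by
      have e : (1 - 2 * s) * (q - κ / 2) = q - κ / 2 - (4 * q * s) / 2 + s * κ := by ring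
      rw [e, hsq]; linarith
    calc Real.pi * (q - κ) < Real.pi * ((1 - 2 * s) * (q - κ / 2)) := by gcongr
      _ = _ := by ring
  obtain ⟨x₀, hx₀⟩ := hΛ c₁ (by
    have : 2 * Real.pi / (1 - 4 * A) = Real.pi / q := by
      have : (1 - 4 * A) = 2 * q := by rw [hq]; ring
      rw [this]
      field_simp
    rw [this, hc₁]
    exact div_lt_div_of_pos_left hp hqκ2 (by linarith))
  obtain ⟨C₂, T₂, hC₂⟩ := hS (d / 8) (by positivity)
  obtain ⟨C', T', hC', hnear⟩ := near (by linarith : 0 ≤ β) hβ hη0 hη1 hline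
  -- the eventual inequalities
  have hd20 : 0 < d / 2 := by positivity
  have hXd0 : 0 < d * X := by positivity
  have hq10 : 0 < q / 10 := by positivity
  have hev : ∀ᶠ T : ℝ in atTop, ‖riemannZeta ((1 / 2 : ℝ) + T * I)‖ ≤ 2 * T ^ (β - 2 * η) := by
    filter_upwards [ev_log_pow (4 * (|C₂| + 1) * 2 / s ^ 2 * (1 + 1 / X + 1 / s)) hd20 5,
      ev_log_pow (C' * 2 / X ^ 3) hXd0 1, ev_log_pow (16 * C' / s) hq10 2,
      eventually_ge_atTop (x₀ + 1), eventually_ge_atTop (T₂ + 1), eventually_ge_atTop T',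
      eventually_ge_atTop (2 : ℝ),
      Real.tendsto_log_atTop.eventually_ge_atTop
        (Real.log 2 / (1 - c₁ / ((1 - 2 * s) * c₂))),
      Real.tendsto_log_atTop.eventually_ge_atTop (c₂ / X),
      Real.tendsto_log_atTop.eventually_ge_atTop (4 * c₂)] with
      T g1 g2 g3 g4 g5 g6 g7 g8 g9 g10
    have hLX : c₂ ≤ X * Real.log T := by
      rwa [div_le_iff₀ hX0, mul_comm] at g9
    obtain ⟨l, hl, hsam⟩ := exists_samples hc₁0 hc₂6 hs0 hs8 hc12 hx₀ g7 g4 g10 g8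
    rw [pow_one] at g2
    exact at_height hA0 hA (by linarith) hd0 hd1 hq hq0 hX0 hXd hX20 hXq hη hκd hκq hc₂ hc₂6
      hs0 hC' g7 g10 hLX (hnear T g6) hl rfl hsam (fun l hl1 hl2 => hC₂ l hl1 (by linarith))
      g1 g2 g3
  obtain ⟨T₀, hT₀⟩ := eventually_atTop.mp hev
  refine ⟨2, max T₀ 1, by norm_num, le_max_right _ _, fun t ht => ?_⟩
  have h1 : 1 ≤ t := (le_max_right _ _).trans ht
  refine (hT₀ t ((le_max_left _ _).trans ht)).trans ?_
  apply mul_le_mul_of_nonneg_left _ (by norm_num)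
  exact Real.rpow_le_rpow_of_exponent_le h1 (by linarith)

/-- **Sampling theorem.** -/
theorem sampling {A : ℝ} (hA0 : 0 ≤ A) (hA : A < 1 / 4) {Λ : Set ℝ} (hΛ : Dense Λ (1 - 4 * A))
    (hS : ∀ ε > 0, ∃ C T₀ : ℝ, ∀ l ∈ Λ, T₀ ≤ l →
      ‖riemannZeta ((1 / 2 : ℝ) + l * I)‖ ≤ C * l ^ (A + ε)) :
    ∀ ε > 0, LineB (A + ε) := by
  intro ε hε
  by_contra hcon
  set S : Set ℝ := {B | LineB B} with hSdef
  have hlow : ∀ B ∈ S, A + ε ≤ B := by
    intro B hB
    by_contra h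
    push Not at h
    exact hcon (LineB.mono hB h.le)
  have hne : S.Nonempty := ⟨1, lineB_one⟩
  have hbdd : BddBelow S := ⟨A + ε, hlow⟩
  set β := sInf S with hβ
  have hAβ : A < β := by
    have : A + ε ≤ β := le_csInf hne hlow
    linarith
  have hβ1 : β ≤ 1 := csInf_le hbdd lineB_one
  obtain ⟨η, hη, himp⟩ := improve hA0 hA hAβ hβ1 hΛ hS
  have h1 : LineB (β + η) := by
    obtain ⟨B, hB, hBlt⟩ := exists_lt_of_csInf_lt hne (show sInf S < β + η by linarith)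
    exact LineB.mono hB hBlt.le
  have h2 := csInf_le hbdd (himp h1)
  linarith

/-- From large positive heights to the whole critical line. -/
lemma LineB.line {B : ℝ} (hB : 0 ≤ B) (h : LineB B) :
    ∃ C : ℝ, ∀ t : ℝ, ‖riemannZeta (1 / 2 + t * I)‖ ≤ C * (1 + |t|) ^ B := by
  obtain ⟨C, T₁, hC, hT, h⟩ := h
  have hcont : Continuous fun t : ℝ => riemannZeta (1 / 2 + t * I) := by
    rw [continuous_iff_continuousAt]
    intro t
    have h1 : ContinuousAt riemannZeta (1 / 2 + t * I) := by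
      apply (differentiableAt_riemannZeta _).continuousAt
      intro h
      have := congrArg Complex.re h
      norm_num at this
    exact ContinuousAt.comp (f := fun t : ℝ => (1 / 2 + t * I : ℂ)) h1 (by fun_prop)
  obtain ⟨D, hD⟩ := (isCompact_Icc (a := -T₁) (b := T₁)).exists_bound_of_continuousOn
    hcont.continuousOn
  refine ⟨|D| + C, ?_⟩
  have hpos : ∀ t : ℝ, 0 ≤ t → ‖riemannZeta (1 / 2 + t * I)‖ ≤ (|D| + C) * (1 + |t|) ^ B := by
    intro t ht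
    have h1 : (1 : ℝ) ≤ (1 + |t|) ^ B := Real.one_le_rpow (by linarith [abs_nonneg t]) hB
    by_cases htT : t ≤ T₁
    · have := hD t ⟨by linarith, htT⟩
      have h2 := le_abs_self D
      have : ‖riemannZeta (1 / 2 + t * I)‖ ≤ |D| := by linarith
      have h3 := abs_nonneg D
      nlinarith
    · push Not at htT
      have h2 := h t htT.le
      have e : (((1 / 2 : ℝ) : ℂ) + t * I) = 1 / 2 + t * I := by push_cast; rfl
      rw [e] at h2
      have h4 : t ^ B ≤ (1 + |t|) ^ B :=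
        Real.rpow_le_rpow ht (by rw [abs_of_nonneg ht]; linarith) hB
      have h3 := abs_nonneg D
      have h5 : 0 ≤ t ^ B := by positivity
      calc ‖riemannZeta (1 / 2 + t * I)‖ ≤ C * t ^ B := h2
        _ ≤ (|D| + C) * (1 + |t|) ^ B := by
          apply mul_le_mul (by linarith) h4 h5 (by linarith)
  intro t
  rcases le_total 0 t with ht | ht
  · exact hpos t ht
  · have h1 := hpos (-t) (by linarith)
    have h2 : riemannZeta (1 / 2 + t * I) =
        (starRingEnd ℂ) (riemannZeta (1 / 2 + (-t : ℝ) * I)) := by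
      rw [← riemannZeta_conj]
      congr 1
      apply Complex.ext <;> simp
    rw [h2, Complex.norm_conj]
    simpa using h1

end Pool.Agent.Lib.SampleZeta
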