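import Mathlib

/-!
# Tsirelson space (Figiel–Johnson norm) and the factorization property: definitions

`c₀₀` is `ℕ+ →₀ ℝ`.  For a sequence `e : ℕ+ → X` in a normed space and `x ∈ c₀₀`,
`vec e x = ∑ x_k e_k`; `res E x` is the restriction of `x` to the finite set `E`.
-/

set_option autoImplicit false

namespace Pool.Agent.Lib.Tsirelson

/-- The restriction `E x` of `x ∈ c₀₀` to a finite set `E` of positive integers. -/
noncomputable def res (E : Finset ℕ+) (x : ℕ+ →₀ ℝ) : ℕ+ →₀ ℝ := x.filter (· ∈ E)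

/-- The list `E₁, …, E_n` of finite sets is admissible: the sets are nonempty, `E₁ < ⋯ < E_n`
and `n ≤ min E_i` for all `i`, where `n` is the length of the list. -/
def Admissible (L : List (Finset ℕ+)) : Prop :=
  (∀ E ∈ L, E.Nonempty) ∧ (∀ E ∈ L, ∀ k ∈ E, L.length ≤ (k : ℕ)) ∧
    L.Pairwise (fun E F => ∀ a ∈ E, ∀ b ∈ F, a < b)

/-- The set of all the numbers on the right hand side of Tsirelson's equation for the function
`ν` on `c₀₀`: the numbers `|x_k|` and the numbers `½ (ν(E₁x) + ⋯ + ν(E_n x))` with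
`n ≤ E₁ < ⋯ < E_n`. -/
def rhsSet (ν : (ℕ+ →₀ ℝ) → ℝ) (x : ℕ+ →₀ ℝ) : Set ℝ :=
  {s | ∃ k, s = |x k|} ∪
    {s | ∃ L : List (Finset ℕ+), Admissible L ∧ s = 1 / 2 * (L.map fun E => ν (res E x)).sum}

/-- The vector `∑ x_k e_k`. -/
noncomputable def vec {X : Type*} [NormedAddCommGroup X] [NormedSpace ℝ X] (e : ℕ+ → X)
    (x : ℕ+ →₀ ℝ) : X := Finsupp.linearCombination ℝ e x

/-- `e` is (isometrically) the unit vector basis of Tsirelson space `T` in the Banach space `X`:
the linear span of the `e_k` is dense in `X` and the norm of `∑ x_k e_k` satisfies the equation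
`‖x‖ = max (‖x‖_∞, ½ sup ∑ ‖E_i x‖)`, the supremum over all `n ≤ E₁ < ⋯ < E_n`. -/
def IsTsirelsonBasis {X : Type*} [NormedAddCommGroup X] [NormedSpace ℝ X] (e : ℕ+ → X) : Prop :=
  Dense (Submodule.span ℝ (Set.range e) : Set X) ∧
    ∀ x : ℕ+ →₀ ℝ, IsLUB (rhsSet (fun y => ‖vec e y‖) x) ‖vec e x‖

/-- The factorization property of `e`: there are biorthogonal functionals `φ_k = e_k^*`, and for
every bounded linear operator `A` on `X` with large diagonal, `inf_k |e_k^*(A e_k)| > 0`, there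
are bounded linear operators `R, S` on `X` with `S A R = I`. -/
def FactorizationProperty {X : Type*} [NormedAddCommGroup X] [NormedSpace ℝ X]
    (e : ℕ+ → X) : Prop :=
  ∃ φ : ℕ+ → StrongDual ℝ X, (∀ i j, φ i (e j) = if i = j then 1 else 0) ∧
    ∀ A : X →L[ℝ] X, (∃ δ : ℝ, 0 < δ ∧ ∀ k, δ ≤ |φ k (A (e k))|) →
      ∃ R S : X →L[ℝ] X, S ∘L A ∘L R = ContinuousLinearMap.id ℝ X

end Pool.Agent.Lib.Tsirelson
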