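import Mathlib

set_option autoImplicit false

/-!
Projection of Borel sets with sections of bounded finite size (a bounded version of the
Lusin-Novikov theorem), obtained from the Lusin-Souslin theorem.
-/

namespace Pool.Agent.Lib

open MeasureTheory Set

theorem measurableSet_exists_of_encard_le {P Y : Type*} [MeasurableSpace P]
    [StandardBorelSpace P] [MeasurableSpace Y] [StandardBorelSpace Y] (n : ℕ) :
    ∀ {B : Set (P × Y)}, MeasurableSet B → (∀ p, {y | (p, y) ∈ B}.encard ≤ n) →
      MeasurableSet {p | ∃ y, (p, y) ∈ B} := by
  classical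
  induction n with
  | zero =>
    intro B _ hn
    have : {p | ∃ y, (p, y) ∈ B} = ∅ := by
      ext p
      simp only [Set.mem_ofPred_eq, Set.mem_empty_iff_false, iff_false, not_exists]
      intro y hy
      have h1 := hn p
      simp only [Nat.cast_zero, nonpos_iff_eq_zero, Set.encard_eq_zero] at h1
      have : y ∈ {y | (p, y) ∈ B} := hy
      rw [h1] at this
      exact this
    rw [this]
    exact MeasurableSet.empty
  | succ n ih =>
    intro B hB hn
    obtain ⟨φ, hφ⟩ := exists_measurableEmbedding_real Y
    set C : Set (P × (Fin (n + 1) → Y)) :=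
      {q | (∀ i, (q.1, q.2 i) ∈ B) ∧ StrictMono (φ ∘ q.2)} with hC
    have hCm : MeasurableSet C := by
      have h1 : MeasurableSet {q : P × (Fin (n + 1) → Y) | ∀ i, (q.1, q.2 i) ∈ B} := by
        rw [Set.ofPred_forall]
        refine MeasurableSet.iInter fun i => ?_
        have hm : Measurable (fun q : P × (Fin (n + 1) → Y) => (q.1, q.2 i)) := by fun_prop
        exact hm hB
      have h2 : MeasurableSet {q : P × (Fin (n + 1) → Y) | StrictMono (φ ∘ q.2)} := by
        have : {q : P × (Fin (n + 1) → Y) | StrictMono (φ ∘ q.2)} =
            ⋂ i, ⋂ j, {q : P × (Fin (n + 1) → Y) | i < j → φ (q.2 i) < φ (q.2 j)} := by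
          ext q
          simp only [Set.mem_ofPred_eq, Set.mem_iInter]
          exact Iff.rfl
        rw [this]
        refine MeasurableSet.iInter fun i => MeasurableSet.iInter fun j => ?_
        by_cases hij : i < j
        · simp only [hij, forall_const]
          have hm := hφ.measurable
          exact measurableSet_lt (by fun_prop) (by fun_prop)
        · simp only [hij, false_imp_iff]
          exact MeasurableSet.univ
      exact h1.inter h2
    have hrange : ∀ q ∈ C, Set.range q.2 = {y | (q.1, y) ∈ B} := by
      intro q hq
      have hinj : Function.Injective q.2 := hq.2.injective.of_comp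
      have h1 : (Set.range q.2).encard = (n + 1 : ℕ) := by
        rw [← Set.image_univ, hinj.encard_image, Set.encard_univ]
        simp
      have h2 : Set.range q.2 ⊆ {y | (q.1, y) ∈ B} := by
        rintro _ ⟨i, rfl⟩
        exact hq.1 i
      exact (Set.finite_range _).eq_of_subset_of_encard_le h2 (by rw [h1]; exact hn _)
    have hinj : Set.InjOn Prod.fst C := by
      rintro ⟨p, s⟩ hs ⟨p', s'⟩ hs' hp
      change p = p' at hp
      subst hp
      have h1 : Set.range s = Set.range s' := (hrange _ hs).trans (hrange _ hs').symm
      have h2 : Set.range (φ ∘ s) = Set.range (φ ∘ s') := by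
        rw [Set.range_comp, Set.range_comp, h1]
      have h3 : φ ∘ s = φ ∘ s' := (StrictMono.range_inj hs.2 hs'.2).mp h2
      have h4 : s = s' := hφ.injective.comp_left h3
      rw [h4]
    set A : Set P := Prod.fst '' C with hA
    have hAm : MeasurableSet A := hCm.image_of_measurable_injOn measurable_fst hinj
    set B' : Set (P × Y) := {q | q ∈ B ∧ q.1 ∉ A} with hB'
    have hB'm : MeasurableSet B' := hB.inter (measurable_fst hAm.compl)
    have hB'n : ∀ p, {y | (p, y) ∈ B'}.encard ≤ n := by
      intro p
      by_cases hp : p ∈ A
      · have : {y | (p, y) ∈ B'} = ∅ := by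
          ext y
          simp only [Set.mem_ofPred_eq, Set.mem_empty_iff_false, iff_false]
          rintro ⟨_, h⟩
          exact h hp
        rw [this]
        simp
      · by_contra hcon
        apply hp
        have hsub : {y | (p, y) ∈ B'} ⊆ {y | (p, y) ∈ B} := fun y hy => hy.1
        have hle : ((n + 1 : ℕ) : ℕ∞) ≤ {y | (p, y) ∈ B}.encard := by
          have h1 := (not_le.mp hcon).trans_le (Set.encard_le_encard hsub)
          have h2 := Order.add_one_le_of_lt h1
          exact_mod_cast h2
        have heq : {y | (p, y) ∈ B}.encard = (n + 1 : ℕ) := le_antisymm (hn p) hle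
        have hfin : {y | (p, y) ∈ B}.Finite := Set.finite_of_encard_eq_coe heq
        set S : Finset ℝ := hfin.toFinset.image φ with hS
        have hcard : S.card = n + 1 := by
          rw [hS, Finset.card_image_of_injective _ hφ.injective]
          have := hfin.encard_eq_coe_toFinset_card
          rw [heq] at this
          exact_mod_cast this.symm
        have h3 : ∀ i : Fin (n + 1), ∃ y, (p, y) ∈ B ∧ φ y = S.orderEmbOfFin hcard i := by
          intro i
          obtain ⟨y, hy, hy'⟩ := Finset.mem_image.mp (S.orderEmbOfFin_mem hcard i)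
          exact ⟨y, hfin.mem_toFinset.mp hy, hy'⟩
        choose s hs hs' using h3
        refine ⟨(p, s), ⟨hs, ?_⟩, rfl⟩
        intro i j hij
        change φ (s i) < φ (s j)
        rw [hs', hs']
        exact (S.orderEmbOfFin hcard).strictMono hij
    have hfinal : {p | ∃ y, (p, y) ∈ B} = A ∪ {p | ∃ y, (p, y) ∈ B'} := by
      ext p
      constructor
      · rintro ⟨y, hy⟩
        by_cases hp : p ∈ A
        · exact Or.inl hp
        · exact Or.inr ⟨y, hy, hp⟩
      · rintro (⟨⟨p', s⟩, hs, rfl⟩ | ⟨y, hy⟩)
        · exact ⟨s 0, hs.1 0⟩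
        · exact ⟨y, hy.1⟩
    rw [hfinal]
    exact hAm.union (ih hB'm hB'n)

end Pool.Agent.Lib
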