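import Mathlib

/-!
Farkas' lemma for finitely many linear functionals over a linearly ordered field
(the short inductive proof of Bartl).
-/

set_option autoImplicit false

namespace Pool.Agent.Lib.FarkasLemma

/-- **Farkas' lemma**: if the linear functional `b` is nonnegative wherever all of the finitely many
functionals `a i`, `i ∈ s`, are nonnegative, then `b` is a nonnegative combination of them. -/
theorem farkas {K E ι : Type*} [Field K] [LinearOrder K] [IsStrictOrderedRing K]
    [AddCommGroup E] [Module K E] (s : Finset ι) :
    ∀ (a : ι → E →ₗ[K] K) (b : E →ₗ[K] K), (∀ x, (∀ i ∈ s, 0 ≤ a i x) → 0 ≤ b x) →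
      ∃ c : ι → K, (∀ i, 0 ≤ c i) ∧ b = ∑ i ∈ s, c i • a i := by
  classical
  induction s using Finset.induction_on with
  | empty =>
    intro a b h
    refine ⟨fun _ => 0, fun _ => le_rfl, ?_⟩
    ext x
    have h1 := h x (by simp)
    have h2 := h (-x) (by simp)
    rw [map_neg] at h2
    simp only [Finset.sum_empty, LinearMap.zero_apply]
    exact le_antisymm (by linarith) h1
  | insert j s hj ih =>
    intro a b h
    by_cases hcase : ∀ x, (∀ i ∈ s, 0 ≤ a i x) → 0 ≤ b x
    · obtain ⟨c, hc, hb⟩ := ih a b hcase
      refine ⟨fun i => if i = j then 0 else c i, ?_, ?_⟩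
      · intro i
        dsimp only
        split_ifs
        · exact le_rfl
        · exact hc i
      · rw [Finset.sum_insert hj, hb]
        simp only [if_true, zero_smul, zero_add]
        refine Finset.sum_congr rfl ?_
        intro i hi
        have : i ≠ j := fun h => hj (h ▸ hi)
        simp [this]
    · push Not at hcase
      obtain ⟨x₀, hx₀, hbx₀⟩ := hcase
      have hax₀ : a j x₀ < 0 := by
        by_contra hcon
        push Not at hcon
        have := h x₀ (by
          intro i hi
          rcases Finset.mem_insert.mp hi with rfl | hi
          · exact hcon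
          · exact hx₀ i hi)
        linarith
      -- normalise `a j x₀ = -1`
      set y₀ : E := (-(a j x₀))⁻¹ • x₀ with hy₀
      have hpos : 0 < (-(a j x₀))⁻¹ := inv_pos.mpr (by linarith)
      have hajy : a j y₀ = -1 := by
        rw [hy₀, map_smul, smul_eq_mul]
        have : a j x₀ ≠ 0 := hax₀.ne
        field_simp
      have hay : ∀ i ∈ s, 0 ≤ a i y₀ := by
        intro i hi
        rw [hy₀, map_smul, smul_eq_mul]
        exact mul_nonneg hpos.le (hx₀ i hi)
      have hby : b y₀ < 0 := by
        rw [hy₀, map_smul, smul_eq_mul]
        exact mul_neg_of_pos_of_neg hpos hbx₀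
      obtain ⟨c, hc, hb⟩ := ih (fun i => a i + (a i y₀) • a j) (b + (b y₀) • a j) (by
        intro x hx
        have h1 := h (x + (a j x) • y₀) (by
          intro i hi
          rcases Finset.mem_insert.mp hi with rfl | hi
          · rw [map_add, map_smul, hajy, smul_eq_mul]
            linarith
          · have := hx i hi
            rw [LinearMap.add_apply, LinearMap.smul_apply, smul_eq_mul] at this
            rw [map_add, map_smul, smul_eq_mul]
            linarith)
        rw [map_add, map_smul, smul_eq_mul] at h1
        rw [LinearMap.add_apply, LinearMap.smul_apply, smul_eq_mul]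
        linarith)
      refine ⟨fun i => if i = j then (∑ i ∈ s, c i * a i y₀) - b y₀ else c i, ?_, ?_⟩
      · intro i
        dsimp only
        split_ifs
        · have : 0 ≤ ∑ i ∈ s, c i * a i y₀ :=
            Finset.sum_nonneg (fun i hi => mul_nonneg (hc i) (hay i hi))
          linarith
        · exact hc i
      · rw [Finset.sum_insert hj]
        simp only [if_true]
        have h2 : ∑ i ∈ s, (if i = j then (∑ i ∈ s, c i * a i y₀) - b y₀ else c i) • a i =
            ∑ i ∈ s, c i • a i := by
          refine Finset.sum_congr rfl ?_
          intro i hi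
          have : i ≠ j := fun h => hj (h ▸ hi)
          simp [this]
        rw [h2]
        ext x
        have h3 := congrArg (fun f => f x) hb
        simp only [LinearMap.add_apply, LinearMap.smul_apply, smul_eq_mul, LinearMap.sum_apply,
          mul_add, Finset.sum_add_distrib] at h3 ⊢
        have h4 : ∑ i ∈ s, c i * (a i y₀ * a j x) = (∑ i ∈ s, c i * a i y₀) * a j x := by
          rw [Finset.sum_mul]
          exact Finset.sum_congr rfl (fun i _ => by ring)
        rw [h4] at h3
        linarith

end Pool.Agent.Lib.FarkasLemma
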