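import Mathlib

/-!
# No `C¹` retraction of the closed unit ball onto the sphere (Milnor–Rogers)
-/

open MeasureTheory Metric Set Topology Filter
open scoped ContDiff

namespace Pool.Agent.Brouwer

variable {E : Type*} [NormedAddCommGroup E] [InnerProductSpace ℝ E] [FiniteDimensional ℝ E]

/-- `t ↦ det (1 + t M)` is a polynomial of degree at most `dim E`. -/
lemma exists_poly (M : E →ₗ[ℝ] E) : ∃ p : Polynomial ℝ, p.natDegree ≤ Module.finrank ℝ E ∧
    ∀ t : ℝ, p.eval t = LinearMap.det (LinearMap.id + t • M) := by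
  let b := Module.finBasis ℝ E
  let A := LinearMap.toMatrix b b M
  refine ⟨Matrix.det ((Polynomial.X : Polynomial ℝ) • A.map Polynomial.C +
    (1 : Matrix _ _ ℝ).map Polynomial.C), ?_, fun t => ?_⟩
  · refine (Polynomial.natDegree_det_X_add_C_le _ _).trans ?_
    simp
  · rw [← LinearMap.det_toMatrix b, ← Polynomial.coe_evalRingHom, RingHom.map_det]
    congr 1
    ext i j
    simp only [RingHom.mapMatrix_apply, Matrix.map_apply, Matrix.add_apply, Matrix.smul_apply,
      map_add, smul_eq_mul, Polynomial.coe_evalRingHom, Polynomial.eval_X, Polynomial.eval_mul,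
      Polynomial.eval_C, map_smul, LinearMap.toMatrix_id, A]
    rw [add_comm]

/-- Universal interpolation coefficients. -/
lemma exists_coeff (E : Type*) [NormedAddCommGroup E] [InnerProductSpace ℝ E]
    [FiniteDimensional ℝ E] {c : ℝ} (hc : 0 < c) : ∃ (s : Finset ℕ) (v : ℕ → ℝ) (w : ℕ → ℝ),
    (∀ i ∈ s, 0 ≤ v i ∧ v i < c) ∧ ∑ i ∈ s, w i = 1 ∧
    ∀ M : E →ₗ[ℝ] E, LinearMap.det (LinearMap.id + M) =
      ∑ i ∈ s, w i * LinearMap.det (LinearMap.id + v i • M) := by
  set n := Module.finrank ℝ E with hn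
  set s := Finset.range (n + 1) with hs
  set v : ℕ → ℝ := fun i => c * i / (n + 1) with hv
  have hvs : Set.InjOn v s := by
    intro i _ j _ hij
    simp only [v] at hij
    have h1 : (0 : ℝ) < n + 1 := by positivity
    rw [div_left_inj' h1.ne'] at hij
    exact_mod_cast mul_left_cancel₀ hc.ne' hij
  have hsne : s.Nonempty := ⟨0, by simp [hs]⟩
  refine ⟨s, v, fun i => (Lagrange.basis s v i).eval 1, fun i hi => ⟨by positivity, ?_⟩, ?_, ?_⟩
  · simp only [v]
    rw [div_lt_iff₀ (by positivity)]
    have : (i : ℝ) < n + 1 := by exact_mod_cast Finset.mem_range.1 hi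
    nlinarith
  · rw [← Polynomial.eval_finsetSum, Lagrange.sum_basis hvs hsne, Polynomial.eval_one]
  · intro M
    obtain ⟨p, hp, hpe⟩ := exists_poly M
    have hdeg : p.degree < (s.card : WithBot ℕ) := by
      rw [hs, Finset.card_range]
      refine lt_of_le_of_lt Polynomial.degree_le_natDegree ?_
      exact_mod_cast Nat.lt_succ_of_le hp
    have h1 := Lagrange.eq_interpolate hvs hdeg
    have h2 : LinearMap.det (LinearMap.id + M) = p.eval 1 := by
      rw [hpe 1, one_smul]
    rw [h2, h1, Lagrange.interpolate_apply, Polynomial.eval_finsetSum]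
    refine Finset.sum_congr rfl fun i _ => ?_
    rw [Polynomial.eval_mul, Polynomial.eval_C, hpe, mul_comm]

/-- `det (1 + M) > 0` when `‖M‖ < 1`. -/
lemma det_pos {M : E →L[ℝ] E} (hM : ‖M‖ < 1) :
    0 < LinearMap.det (LinearMap.id + (M : E →ₗ[ℝ] E)) := by
  have hne : ∀ t ∈ Icc (0 : ℝ) 1, LinearMap.det (LinearMap.id + t • (M : E →ₗ[ℝ] E)) ≠ 0 := by
    intro t ht h0
    obtain ⟨x, hx, hx0⟩ := (Submodule.ne_bot_iff _).1
      (LinearMap.bot_lt_ker_of_det_eq_zero h0).ne'
    rw [LinearMap.mem_ker] at hx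
    have h2 : x = -(t • M x) := by
      have : x + t • M x = 0 := by simpa using hx
      exact eq_neg_of_add_eq_zero_left this
    have h3 : ‖x‖ ≤ ‖M‖ * ‖x‖ := by
      calc ‖x‖ = ‖t • M x‖ := by conv_lhs => rw [h2, norm_neg]
        _ = t * ‖M x‖ := by rw [norm_smul, Real.norm_of_nonneg ht.1]
        _ ≤ 1 * ‖M x‖ := by
            have := norm_nonneg (M x)
            gcongr
            exact ht.2
        _ ≤ ‖M‖ * ‖x‖ := by rw [one_mul]; exact M.le_opNorm x
    have h4 : 0 < ‖x‖ := norm_pos_iff.2 hx0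
    nlinarith
  have hcont : ContinuousOn (fun t : ℝ => LinearMap.det (LinearMap.id + t • (M : E →ₗ[ℝ] E)))
      (Icc 0 1) := by
    obtain ⟨p, -, hp⟩ := exists_poly (M : E →ₗ[ℝ] E)
    have : (fun t : ℝ => LinearMap.det (LinearMap.id + t • (M : E →ₗ[ℝ] E))) =
        fun t => p.eval t := by
      funext t; rw [hp]
    rw [this]
    exact p.continuous.continuousOn
  have h0 : LinearMap.det (LinearMap.id + (0 : ℝ) • (M : E →ₗ[ℝ] E)) = 1 := by
    rw [zero_smul, add_zero, LinearMap.det_id]
  by_contra hneg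
  rw [not_lt] at hneg
  have h1 : LinearMap.det (LinearMap.id + (1 : ℝ) • (M : E →ₗ[ℝ] E)) ≤ 0 := by
    rw [one_smul]; exact hneg
  have := intermediate_value_Icc' (zero_le_one' ℝ) hcont
  have hmem : (0 : ℝ) ∈ Icc (LinearMap.det (LinearMap.id + (1 : ℝ) • (M : E →ₗ[ℝ] E)))
      (LinearMap.det (LinearMap.id + (0 : ℝ) • (M : E →ₗ[ℝ] E))) := by
    rw [h0]
    exact ⟨h1, zero_le_one⟩
  obtain ⟨t, ht, ht0⟩ := this hmem
  exact hne t ht ht0

lemma surj_of_det_ne_zero {f : E →ₗ[ℝ] E} (h : LinearMap.det f ≠ 0) : Function.Surjective f := by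
  have hk : LinearMap.ker f = ⊥ := by
    by_contra hne
    exact h (LinearMap.det_eq_zero_iff_ker_ne_bot.2 hne)
  exact LinearMap.surjective_of_injective (LinearMap.ker_eq_bot.1 hk)

theorem no_C1_retraction {r : E → E} {V : Set E} (hV : IsOpen V) (hBV : closedBall 0 1 ⊆ V)
    (hr : ContDiffOn ℝ 1 r V) (h1 : ∀ x ∈ closedBall (0 : E) 1, ‖r x‖ = 1)
    (h2 : ∀ x, ‖x‖ = 1 → r x = x) : False := by
  letI : MeasurableSpace E := borel E
  haveI : BorelSpace E := ⟨rfl⟩
  set μ : Measure E := (volume : Measure E) with hμ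
  set g : E → E := fun x => r x - x with hg
  have hgC : ContDiffOn ℝ 1 g V := hr.sub contDiffOn_id
  have hgat : ∀ x ∈ V, ContDiffAt ℝ 1 g x := fun x hx => hgC.contDiffAt (hV.mem_nhds hx)
  have hgd : ∀ x ∈ V, HasFDerivAt g (fderiv ℝ g x) x := fun x hx =>
    ((hgat x hx).differentiableAt one_ne_zero).hasFDerivAt
  have hgcont : ContinuousOn (fderiv ℝ g) V := hgC.continuousOn_fderiv_of_isOpen hV le_rfl
  have hcpt : IsCompact (closedBall (0 : E) 1) := isCompact_closedBall 0 1
  obtain ⟨C₀, hC₀⟩ := hcpt.exists_bound_of_continuousOn (hgcont.mono hBV)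
  set C : ℝ := max C₀ 0 with hC
  have hC0 : 0 ≤ C := le_max_right _ _
  have hCb : ∀ x ∈ closedBall (0 : E) 1, ‖fderiv ℝ g x‖ ≤ C := fun x hx =>
    (hC₀ x hx).trans (le_max_left _ _)
  have hlip : ∀ x ∈ closedBall (0 : E) 1, ∀ y ∈ closedBall (0 : E) 1,
      ‖g y - g x‖ ≤ C * ‖y - x‖ := fun x hx y hy =>
    (convex_closedBall (0 : E) 1).norm_image_sub_le_of_norm_hasFDerivWithin_le
      (fun z hz => (hgd z (hBV hz)).hasFDerivWithinAt) hCb hx hy
  set c : ℝ := 1 / (C + 1) with hc
  have hc0 : 0 < c := by positivity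
  have hc1 : c ≤ 1 := by
    rw [hc, div_le_one (by positivity)]
    linarith
  have hcC : ∀ t, 0 ≤ t → t < c → t * C < 1 := by
    intro t ht0 ht
    rw [hc, lt_div_iff₀ (by positivity)] at ht
    nlinarith
  set U : Set E := ball 0 1 with hU
  have hUB : U ⊆ closedBall 0 1 := ball_subset_closedBall
  -- the key claim
  have key : ∀ t, 0 ≤ t → t < c →
      ∫ x in U, LinearMap.det (LinearMap.id + t • (fderiv ℝ g x : E →ₗ[ℝ] E)) ∂μ = μ.real U := by
    intro t ht0 ht
    have htC := hcC t ht0 ht
    have ht1 : t < 1 := lt_of_lt_of_le ht hc1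
    set φ : E → E := fun x => x + t • g x with hφ
    set φ' : E → E →L[ℝ] E := fun x => ContinuousLinearMap.id ℝ E + t • fderiv ℝ g x with hφ'
    have hstrict : ∀ x ∈ V, HasStrictFDerivAt φ (φ' x) x := by
      intro x hx
      have h3 := (hgat x hx).hasStrictFDerivAt one_ne_zero
      exact (hasStrictFDerivAt_id x).add (h3.const_smul t)
    have hdetpos : ∀ x ∈ closedBall (0 : E) 1,
        0 < LinearMap.det (LinearMap.id + t • (fderiv ℝ g x : E →ₗ[ℝ] E)) := by
      intro x hx
      have h3 : ‖t • fderiv ℝ g x‖ < 1 := by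
        rw [norm_smul, Real.norm_of_nonneg ht0]
        calc t * ‖fderiv ℝ g x‖ ≤ t * C := by
              have := hCb x hx
              gcongr
          _ < 1 := htC
      have := det_pos h3
      simpa using this
    have hinj : InjOn φ (closedBall 0 1) := by
      intro x hx y hy hxy
      by_contra hne
      have h3 : x - y = t • (g y - g x) := by
        simp only [hφ] at hxy
        rw [smul_sub]
        have : x - y = t • g y - t • g x := by
          rw [sub_eq_sub_iff_add_eq_add]
          rw [hxy]; abel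
        exact this
      have h4 : ‖x - y‖ ≤ t * C * ‖x - y‖ := by
        calc ‖x - y‖ = t * ‖g y - g x‖ := by
              conv_lhs => rw [h3, norm_smul, Real.norm_of_nonneg ht0]
          _ ≤ t * (C * ‖y - x‖) := by
              have := hlip x hx y hy
              gcongr
          _ = t * C * ‖x - y‖ := by rw [norm_sub_rev y x]; ring
      have h5 : 0 < ‖x - y‖ := norm_pos_iff.2 (sub_ne_zero.2 hne)
      nlinarith
    have hconv : ∀ x, φ x = (1 - t) • x + t • r x := by
      intro x
      simp only [hφ, hg, smul_sub, sub_smul, one_smul]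
      abel
    have hmaps : ∀ x ∈ U, φ x ∈ U := by
      intro x hx
      rw [hU, mem_ball_zero_iff] at hx ⊢
      rw [hconv]
      calc ‖(1 - t) • x + t • r x‖ ≤ ‖(1 - t) • x‖ + ‖t • r x‖ := norm_add_le _ _
        _ = (1 - t) * ‖x‖ + t * 1 := by
            rw [norm_smul, norm_smul, Real.norm_of_nonneg (by linarith),
              Real.norm_of_nonneg ht0, h1 x (hUB (by rwa [hU, mem_ball_zero_iff]))]
        _ < 1 := by nlinarith
    have hopen : IsOpen (φ '' U) := by
      rw [isOpen_iff_mem_nhds]
      rintro _ ⟨x, hx, rfl⟩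
      have hsurj : (φ' x).range = ⊤ := by
        rw [LinearMap.range_eq_top]
        have := surj_of_det_ne_zero (hdetpos x (hUB hx)).ne'
        intro y
        obtain ⟨z, hz⟩ := this y
        exact ⟨z, by simpa [hφ'] using hz⟩
      rw [← (hstrict x (hBV (hUB hx))).map_nhds_eq_of_surj hsurj]
      exact image_mem_map (isOpen_ball.mem_nhds hx)
    have hφc : ContinuousOn φ (closedBall 0 1) := fun x hx =>
      (hstrict x (hBV hx)).hasFDerivAt.continuousAt.continuousWithinAt
    have hclosed : IsClosed (φ '' closedBall 0 1) := (hcpt.image_of_continuousOn hφc).isClosed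
    have himg : φ '' U = U := by
      apply Subset.antisymm
      · rintro _ ⟨x, hx, rfl⟩
        exact hmaps x hx
      · have hpre : IsPreconnected U := (convex_ball (0 : E) 1).isPreconnected
        refine hpre.subset_left_of_subset_union hopen hclosed.isOpen_compl ?_ ?_ ?_
        · rw [Set.disjoint_compl_right_iff_subset]
          exact image_mono hUB
        · intro y hy
          by_cases hyB : y ∈ φ '' closedBall 0 1
          · left
            obtain ⟨x, hx, rfl⟩ := hyB
            rcases eq_or_lt_of_le (mem_closedBall_zero_iff.1 hx) with h | h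
            · exfalso
              have : φ x = x := by
                rw [hconv, h2 x h, ← add_smul]
                simp
              rw [this, hU, mem_ball_zero_iff] at hy
              linarith
            · exact ⟨x, by rwa [hU, mem_ball_zero_iff], rfl⟩
          · right; exact hyB
        · exact ⟨φ 0, hmaps 0 (by simp [hU]), 0, by simp [hU], rfl⟩
    have hint := integral_image_eq_integral_abs_det_fderiv_smul μ
      (measurableSet_ball : MeasurableSet U)
      (fun x hx => (hstrict x (hBV (hUB hx))).hasFDerivAt.hasFDerivWithinAt)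
      (hinj.mono hUB) (fun _ => (1 : ℝ))
    rw [himg] at hint
    rw [setIntegral_const, smul_eq_mul, mul_one] at hint
    rw [hint]
    refine setIntegral_congr_fun measurableSet_ball fun x hx => ?_
    have h3 := hdetpos x (hUB hx)
    have h4 : (φ' x).det = LinearMap.det (LinearMap.id + t • (fderiv ℝ g x : E →ₗ[ℝ] E)) := rfl
    change _ = |(φ' x).det| • (1 : ℝ)
    rw [h4, abs_of_pos h3, smul_eq_mul, mul_one]
  -- interpolation
  obtain ⟨s, v, w, hv, hw, hdet⟩ := exists_coeff E hc0
  have hintegrable : ∀ t : ℝ, IntegrableOn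
      (fun x => LinearMap.det (LinearMap.id + t • (fderiv ℝ g x : E →ₗ[ℝ] E))) U μ := by
    intro t
    have hcont : ContinuousOn
        (fun x => LinearMap.det (LinearMap.id + t • (fderiv ℝ g x : E →ₗ[ℝ] E)))
        (closedBall 0 1) := by
      have h3 : ContinuousOn (fun x => ContinuousLinearMap.id ℝ E + t • fderiv ℝ g x)
          (closedBall 0 1) := continuousOn_const.add ((hgcont.mono hBV).const_smul t)
      exact ContinuousLinearMap.continuous_det.comp_continuousOn h3
    exact (hcont.integrableOn_compact hcpt).mono_set hUB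
  have h3 : ∫ x in U, LinearMap.det (LinearMap.id + (fderiv ℝ g x : E →ₗ[ℝ] E)) ∂μ =
      μ.real U := by
    have h4 : ∀ x, LinearMap.det (LinearMap.id + (fderiv ℝ g x : E →ₗ[ℝ] E)) =
        ∑ i ∈ s, w i * LinearMap.det (LinearMap.id + v i • (fderiv ℝ g x : E →ₗ[ℝ] E)) :=
      fun x => hdet _
    simp only [h4]
    rw [integral_finset_sum _ fun i _ => (hintegrable (v i)).const_mul (w i)]
    have h5 : ∀ i ∈ s, ∫ x in U, w i *
        LinearMap.det (LinearMap.id + v i • (fderiv ℝ g x : E →ₗ[ℝ] E)) ∂μ =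
        w i * μ.real U := by
      intro i hi
      rw [integral_const_mul, key (v i) (hv i hi).1 (hv i hi).2]
    rw [Finset.sum_congr rfl h5, ← Finset.sum_mul, hw, one_mul]
  have h4 : ∫ x in U, LinearMap.det (LinearMap.id + (fderiv ℝ g x : E →ₗ[ℝ] E)) ∂μ = 0 := by
    have h5 : ∀ x ∈ U, LinearMap.det (LinearMap.id + (fderiv ℝ g x : E →ₗ[ℝ] E)) = 0 := by
      intro x hx
      by_contra hne
      have hxV := hBV (hUB hx)
      have hrd : HasFDerivAt r (ContinuousLinearMap.id ℝ E + fderiv ℝ g x) x := by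
        have h6 := (hasFDerivAt_id x).add (hgd x hxV)
        refine h6.congr_of_eventuallyEq (Filter.Eventually.of_forall fun y => ?_)
        simp [hg]
      have h7 : HasFDerivAt (fun y => ‖r y‖ ^ 2) (0 : E →L[ℝ] ℝ) x := by
        refine (hasFDerivAt_const (1 : ℝ) x).congr_of_eventuallyEq ?_
        filter_upwards [isOpen_ball.mem_nhds hx] with y hy
        rw [h1 y (hUB hy)]; norm_num
      have h8 := hrd.norm_sq.unique h7
      obtain ⟨z, hz⟩ := surj_of_det_ne_zero hne (r x)
      have h9 := congrArg (fun A : E →L[ℝ] ℝ => A z) h8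
      have hz' : (ContinuousLinearMap.id ℝ E + fderiv ℝ g x) z = r x := hz
      simp only [ContinuousLinearMap.smul_apply, ContinuousLinearMap.comp_apply, hz',
        innerSL_apply_apply, real_inner_self_eq_norm_sq, h1 x (hUB hx)] at h9
      norm_num at h9
    rw [setIntegral_congr_fun measurableSet_ball h5, integral_zero]
  have h5 : 0 < μ.real U := by
    rw [Measure.real, ENNReal.toReal_pos_iff]
    exact ⟨measure_ball_pos μ 0 one_pos, measure_ball_lt_top⟩
  rw [h3] at h4
  linarith

end Pool.Agent.Brouwer
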