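import Mathlib

/-!
Chordal graphs: Dirac's lemma (simplicial vertices) and elimination orders, for graphs without
induced cycles of length at least four (stated with `cycleGraph n ↪g G`).
-/

set_option autoImplicit false

namespace Pool.Agent.Lib.ChordalGraph

open SimpleGraph

variable {V : Type*}

/-- Adjacency in `cycleGraph n` in terms of values. -/
lemma cycleGraph_adj_val {n : ℕ} (hn : 3 ≤ n) (u v : Fin n) :
    (cycleGraph n).Adj u v ↔ (u.val + 1 = v.val ∨ v.val + 1 = u.val ∨
      (u.val = 0 ∧ v.val + 1 = n) ∨ (v.val = 0 ∧ u.val + 1 = n)) := by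
  rw [cycleGraph_adj']
  rcases lt_trichotomy u v with h | h | h
  · have h1 : ((u - v : Fin n) : ℕ) = n + u - v := Fin.coe_sub_iff_lt.mpr h
    have h2 : ((v - u : Fin n) : ℕ) = v - u := Fin.coe_sub_iff_le.mpr h.le
    have h3 : (u : ℕ) < v := h
    have h4 := v.isLt
    rw [h1, h2]
    omega
  · subst h
    have h2 : ((u - u : Fin n) : ℕ) = u - u := Fin.coe_sub_iff_le.mpr le_rfl
    have h4 := u.isLt
    rw [h2]
    omega
  · have h1 : ((v - u : Fin n) : ℕ) = n + v - u := Fin.coe_sub_iff_lt.mpr h
    have h2 : ((u - v : Fin n) : ℕ) = u - v := Fin.coe_sub_iff_le.mpr h.le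
    have h3 : (v : ℕ) < u := h
    have h4 := u.isLt
    rw [h1, h2]
    omega

/-- The restriction of `G` to a set `W` of vertices, on the same vertex type. -/
def restrictGraph (G : SimpleGraph V) (W : Set V) : SimpleGraph V where
  Adj x y := G.Adj x y ∧ x ∈ W ∧ y ∈ W
  symm := ⟨fun _ _ h => ⟨h.1.symm, h.2.2, h.2.1⟩⟩
  loopless := ⟨fun _ h => G.loopless.irrefl _ h.1⟩

lemma mem_of_walk (G : SimpleGraph V) (M : Set V) {x y : V} (w : (restrictGraph G M).Walk x y)
    (hx : x ∈ M) : y ∈ M := by
  induction w with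
  | nil => exact hx
  | cons h _ ih => exact ih h.2.2

/-- In a graph with no induced cycle of length at least four, two distinct neighbours `s, t` of `r`
that are joined by a path outside of the closed neighbourhood of `r` are adjacent. -/
lemma adj_of_reachable (G : SimpleGraph V) (hG : ∀ n, 4 ≤ n → IsEmpty (cycleGraph n ↪g G))
    (r s t : V) (M : Set V) (hM : ∀ x ∈ M, x ≠ r ∧ ¬ G.Adj r x) (hs : G.Adj r s) (ht : G.Adj r t)
    (hst : s ≠ t) (hreach : (restrictGraph G (M ∪ {s, t})).Reachable s t) : G.Adj s t := by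
  classical
  by_contra hnst
  set H := restrictGraph G (M ∪ {s, t}) with hH
  obtain ⟨p, hp⟩ := hreach.exists_walk_length_eq_dist
  have hnH : ¬ H.Adj s t := fun h => hnst h.1
  have hl : 2 ≤ H.dist s t := hreach.one_lt_dist_of_ne_of_not_adj hst hnH
  set l := H.dist s t with hldef
  have hHG : ∀ x y, H.Adj x y → G.Adj x y := fun x y h => h.1
  -- distances along `p`
  have hdist : ∀ i, i ≤ l → H.dist s (p.getVert i) = i := by
    intro i hi
    have h1 : H.dist s (p.getVert i) ≤ i := by
      have := H.dist_le (p.take i)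
      refine this.trans ?_
      rw [Walk.take_length]
      exact min_le_left _ _
    have h2 : H.dist (p.getVert i) t ≤ l - i := by
      have := H.dist_le (p.drop i)
      refine this.trans ?_
      rw [Walk.drop_length, hp]
    have hr1 : H.Reachable s (p.getVert i) := ⟨p.take i⟩
    have h3 := hr1.dist_triangle_left t
    omega
  have hreachi : ∀ i, H.Reachable s (p.getVert i) := fun i => ⟨p.take i⟩
  have hadj_succ : ∀ i, i < l → H.Adj (p.getVert i) (p.getVert (i+1)) := by
    intro i hi
    exact p.adj_getVert_succ (by omega)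
  have hmemW : ∀ i, i ≤ l → p.getVert i ∈ (M ∪ {s, t} : Set V) := by
    intro i hi
    rcases Nat.lt_or_ge i l with h | h
    · exact (hadj_succ i h).2.1
    · have hil : i = l := le_antisymm hi h
      have := hadj_succ (i-1) (by omega)
      have h' : i - 1 + 1 = i := by omega
      rw [h'] at this
      exact this.2.2
  have hmemM : ∀ i, 0 < i → i < l → p.getVert i ∈ M := by
    intro i h0 hi
    have h1 := hmemW i hi.le
    have h2 := hdist i hi.le
    rcases h1 with h1 | h1
    · exact h1
    · rcases h1 with h1 | h1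
      · rw [h1] at h2
        simp at h2
        omega
      · rw [Set.mem_singleton_iff] at h1
        rw [h1] at h2
        omega
  have hadj_iff : ∀ i j, i ≤ l → j ≤ l →
      (G.Adj (p.getVert i) (p.getVert j) ↔ (i + 1 = j ∨ j + 1 = i)) := by
    intro i j hi hj
    constructor
    · intro h
      have hHadj : H.Adj (p.getVert i) (p.getVert j) := ⟨h, hmemW i hi, hmemW j hj⟩
      have h1 := hdist i hi
      have h2 := hdist j hj
      have hne : i ≠ j := by
        rintro rfl
        exact G.loopless.irrefl _ h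
      have h3 := (hreachi i).dist_triangle_left (p.getVert j)
      have h4 := (hreachi j).dist_triangle_left (p.getVert i)
      have h5 : H.dist (p.getVert i) (p.getVert j) = 1 := dist_eq_one_iff_adj.mpr hHadj
      have h6 : H.dist (p.getVert j) (p.getVert i) = 1 := dist_eq_one_iff_adj.mpr hHadj.symm
      omega
    · rintro (h | h)
      · subst h
        exact hHG _ _ (hadj_succ i (by omega))
      · subst h
        exact (hHG _ _ (hadj_succ j (by omega))).symm
  have hinj : ∀ i j, i ≤ l → j ≤ l → p.getVert i = p.getVert j → i = j := by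
    intro i j hi hj h
    have h1 := hdist i hi
    have h2 := hdist j hj
    rw [h] at h1
    omega
  have hr_adj : ∀ i, i ≤ l → (G.Adj r (p.getVert i) ↔ (i = 0 ∨ i = l)) := by
    intro i hi
    constructor
    · intro h
      by_contra hcon
      push Not at hcon
      exact (hM _ (hmemM i (by omega) (by omega))).2 h
    · rintro (h | h)
      · subst h; simpa using hs
      · subst h
        have : p.getVert l = t := by rw [← hp]; exact p.getVert_length
        rw [this]; exact ht
  have hr_ne : ∀ i, i ≤ l → p.getVert i ≠ r := by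
    intro i hi h
    rcases Nat.eq_zero_or_pos i with h0 | h0
    · subst h0
      simp at h
      rw [h] at hs
      exact G.loopless.irrefl _ hs
    · rcases Nat.lt_or_ge i l with h1 | h1
      · exact (hM _ (hmemM i h0 h1)).1 h
      · have hil : i = l := le_antisymm hi h1
        have : p.getVert l = t := by rw [← hp]; exact p.getVert_length
        rw [hil, this] at h
        rw [h] at ht
        exact G.loopless.irrefl _ ht
  -- the induced cycle
  refine (hG (l + 2) (by omega)).false ?_
  let φ : Fin (l + 2) → V := fun i => if i.val ≤ l then p.getVert i.val else r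
  have hφinj : Function.Injective φ := by
    intro i j hij
    have hi := i.isLt
    have hj := j.isLt
    by_cases h1 : i.val ≤ l <;> by_cases h2 : j.val ≤ l
    · simp only [φ, h1, h2, if_true] at hij
      exact Fin.ext (hinj _ _ h1 h2 hij)
    · simp only [φ, h1, h2, if_true, if_false] at hij
      exact absurd hij (hr_ne _ h1)
    · simp only [φ, h1, h2, if_true, if_false] at hij
      exact absurd hij.symm (hr_ne _ h2)
    · apply Fin.ext
      omega
  refine ⟨⟨φ, hφinj⟩, ?_⟩
  intro i j
  simp only [Function.Embedding.coeFn_mk]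
  rw [cycleGraph_adj_val (by omega)]
  have hi := i.isLt
  have hj := j.isLt
  by_cases h1 : i.val ≤ l <;> by_cases h2 : j.val ≤ l
  · simp only [φ, h1, h2, if_true]
    rw [hadj_iff _ _ h1 h2]
    omega
  · simp only [φ, h1, h2, if_true, if_false]
    rw [G.adj_comm, hr_adj _ h1]
    omega
  · simp only [φ, h1, h2, if_true, if_false]
    rw [hr_adj _ h2]
    omega
  · simp only [φ, h1, h2, if_false]
    constructor
    · intro h; exact absurd h (G.loopless.irrefl _)
    · intro h; omega

/-- **Dirac's lemma**, strengthened: in a graph with no induced cycle of length at least four, in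
every finite set `U` of vertices and for every `r ∈ U` not adjacent to all of `U`, there is a
vertex of `U`, simplicial in `U`, that is different from and not adjacent to `r`. -/
theorem exists_simplicial_not_adj (G : SimpleGraph V)
    (hG : ∀ n, 4 ≤ n → IsEmpty (cycleGraph n ↪g G)) (U : Finset V) :
    ∀ r ∈ U, (∃ x ∈ U, x ≠ r ∧ ¬ G.Adj r x) →
      ∃ s ∈ U, s ≠ r ∧ ¬ G.Adj r s ∧
        ∀ x ∈ U, ∀ y ∈ U, G.Adj s x → G.Adj s y → x ≠ y → G.Adj x y := by
  classical
  induction U using Finset.strongInduction with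
  | H U ih =>
  intro r hrU ⟨x₀, hx₀U, hx₀r, hx₀adj⟩
  set M : Set V := {x | x ∈ U ∧ x ≠ r ∧ ¬ G.Adj r x} with hMdef
  have hx₀M : x₀ ∈ M := ⟨hx₀U, hx₀r, hx₀adj⟩
  set H₀ := restrictGraph G M with hH₀
  have hreachM : ∀ x, H₀.Reachable x₀ x → x ∈ M := by
    intro x hx
    obtain ⟨w⟩ := hx
    exact mem_of_walk G M w hx₀M
  set C : Finset V := U.filter (fun x => H₀.Reachable x₀ x) with hC
  have hCM : ∀ x ∈ C, x ∈ M := fun x hx => hreachM x (Finset.mem_filter.mp hx).2
  have hx₀C : x₀ ∈ C := Finset.mem_filter.mpr ⟨hx₀U, Reachable.refl _⟩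
  set S : Finset V := U.filter (fun s => s ∉ C ∧ ∃ c ∈ C, G.Adj c s) with hS
  have hSr : ∀ s ∈ S, G.Adj r s := by
    intro s hs
    obtain ⟨hsU, hsC, c, hcC, hcs⟩ := Finset.mem_filter.mp hs
    by_contra hcon
    by_cases hsr : s = r
    · subst hsr
      exact (hCM c hcC).2.2 hcs.symm
    · have hsM : s ∈ M := ⟨hsU, hsr, hcon⟩
      apply hsC
      refine Finset.mem_filter.mpr ⟨hsU, ?_⟩
      refine (Finset.mem_filter.mp hcC).2.trans ?_
      exact Adj.reachable (G := H₀) ⟨hcs, hCM c hcC, hsM⟩
  have hSclique : ∀ s ∈ S, ∀ t ∈ S, s ≠ t → G.Adj s t := by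
    intro s hs t ht hst
    obtain ⟨hsU, hsC, c, hcC, hcs⟩ := Finset.mem_filter.mp hs
    obtain ⟨htU, htC, d, hdC, hdt⟩ := Finset.mem_filter.mp ht
    refine adj_of_reachable G hG r s t M (fun x hx => hx.2) (hSr s hs) (hSr t ht) hst ?_
    have hle : H₀ ≤ restrictGraph G (M ∪ {s, t}) := by
      intro x y hxy
      exact ⟨hxy.1, Or.inl hxy.2.1, Or.inl hxy.2.2⟩
    have h1 : (restrictGraph G (M ∪ {s, t})).Reachable c d :=
      (((Finset.mem_filter.mp hcC).2.symm).trans (Finset.mem_filter.mp hdC).2).mono hle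
    have h2 : (restrictGraph G (M ∪ {s, t})).Reachable s c :=
      Adj.reachable ⟨hcs.symm, Or.inr (by simp), Or.inl (hCM c hcC)⟩
    have h3 : (restrictGraph G (M ∪ {s, t})).Reachable d t :=
      Adj.reachable ⟨hdt, Or.inl (hCM d hdC), Or.inr (by simp)⟩
    exact (h2.trans h1).trans h3
  have hrC : r ∉ C := fun h => (hCM r h).2.1 rfl
  have hrS : r ∉ S := fun h => G.loopless.irrefl _ (hSr r h)
  -- neighbours in `U` of an element of `C` lie in `C ∪ S`
  have hnb : ∀ c ∈ C, ∀ x ∈ U, G.Adj c x → x ∈ C ∨ x ∈ S := by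
    intro c hc x hx hcx
    by_cases hxC : x ∈ C
    · exact Or.inl hxC
    · exact Or.inr (Finset.mem_filter.mpr ⟨hx, hxC, c, hc, hcx⟩)
  have hCsub : C ⊂ U := by
    refine ⟨Finset.filter_subset _ _, fun h => hrC (h hrU)⟩
  have hU'sub : C ∪ S ⊂ U := by
    refine ⟨Finset.union_subset (Finset.filter_subset _ _) (Finset.filter_subset _ _), fun h => ?_⟩
    rcases Finset.mem_union.mp (h hrU) with h | h
    · exact hrC h
    · exact hrS h
  by_cases hcase : ∃ s ∈ S, ∃ x ∈ C ∪ S, x ≠ s ∧ ¬ G.Adj s x
  · obtain ⟨s, hsS, hx⟩ := hcase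
    obtain ⟨c, hcU', hcs, hcadj, hcsimp⟩ := ih (C ∪ S) hU'sub s (Finset.mem_union_right _ hsS) hx
    have hcC : c ∈ C := by
      rcases Finset.mem_union.mp hcU' with h | h
      · exact h
      · exact absurd (hSclique s hsS c h hcs.symm) hcadj
    refine ⟨c, hCsub.1 hcC, (hCM c hcC).2.1, (hCM c hcC).2.2, ?_⟩
    intro x hx y hy hcx hcy hxy
    exact hcsimp x (Finset.mem_union.mpr (hnb c hcC x hx hcx)) y
      (Finset.mem_union.mpr (hnb c hcC y hy hcy)) hcx hcy hxy
  · push Not at hcase
    -- a simplicial vertex of `C`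
    have hCsimp : ∃ c ∈ C, ∀ x ∈ C, ∀ y ∈ C, G.Adj c x → G.Adj c y → x ≠ y → G.Adj x y := by
      by_cases hall : ∃ r' ∈ C, ∃ x ∈ C, x ≠ r' ∧ ¬ G.Adj r' x
      · obtain ⟨r', hr', hx⟩ := hall
        obtain ⟨c, hcC, _, _, hc⟩ := ih C hCsub r' hr' hx
        exact ⟨c, hcC, hc⟩
      · push Not at hall
        refine ⟨x₀, hx₀C, ?_⟩
        intro x hx y hy _ _ hxy
        exact hall x hx y hy hxy.symm
    obtain ⟨c, hcC, hcsimp⟩ := hCsimp
    refine ⟨c, hCsub.1 hcC, (hCM c hcC).2.1, (hCM c hcC).2.2, ?_⟩
    intro x hx y hy hcx hcy hxy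
    rcases hnb c hcC x hx hcx with h1 | h1 <;> rcases hnb c hcC y hy hcy with h2 | h2
    · exact hcsimp x h1 y h2 hcx hcy hxy
    · exact (hcase y h2 x (Finset.mem_union_left _ h1) hxy).symm
    · exact hcase x h1 y (Finset.mem_union_left _ h2) hxy.symm
    · exact hSclique x h1 y h2 hxy

/-- Every nonempty finite set of vertices of a chordal graph has a simplicial vertex. -/
theorem exists_simplicial (G : SimpleGraph V)
    (hG : ∀ n, 4 ≤ n → IsEmpty (cycleGraph n ↪g G)) (U : Finset V) (hU : U.Nonempty) :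
    ∃ s ∈ U, ∀ x ∈ U, ∀ y ∈ U, G.Adj s x → G.Adj s y → x ≠ y → G.Adj x y := by
  classical
  by_cases hall : ∃ r' ∈ U, ∃ x ∈ U, x ≠ r' ∧ ¬ G.Adj r' x
  · obtain ⟨r', hr', hx⟩ := hall
    obtain ⟨c, hcC, _, _, hc⟩ := exists_simplicial_not_adj G hG U r' hr' hx
    exact ⟨c, hcC, hc⟩
  · push Not at hall
    obtain ⟨x₀, hx₀⟩ := hU
    refine ⟨x₀, hx₀, ?_⟩
    intro x hx y hy _ _ hxy
    exact hall x hx y hy hxy.symm

/-- Chordal graphs on a finite vertex type have an (inverse) perfect elimination order: an injective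
rank function such that the lower-ranked neighbours of each vertex form a clique. -/
theorem exists_elimination_order (G : SimpleGraph V)
    (hG : ∀ n, 4 ≤ n → IsEmpty (cycleGraph n ↪g G)) (U : Finset V) :
    ∃ σ : V → ℕ, Set.InjOn σ U ∧ ∀ v ∈ U, ∀ x ∈ U, ∀ y ∈ U, G.Adj v x → G.Adj v y →
      σ x < σ v → σ y < σ v → x ≠ y → G.Adj x y := by
  classical
  induction U using Finset.strongInduction with
  | H U ih =>
  rcases U.eq_empty_or_nonempty with rfl | hne
  · exact ⟨fun _ => 0, by simp, by simp⟩
  obtain ⟨s, hsU, hs⟩ := exists_simplicial G hG U hne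
  obtain ⟨σ, hσinj, hσ⟩ := ih (U.erase s) (Finset.erase_ssubset hsU)
  refine ⟨fun v => if v = s then (U.sup σ) + 1 else σ v, ?_, ?_⟩
  · intro x hx y hy hxy
    have hx' : x ∈ U := hx
    have hy' : y ∈ U := hy
    have hxs := Finset.le_sup (f := σ) hx'
    have hys := Finset.le_sup (f := σ) hy'
    by_cases h1 : x = s <;> by_cases h2 : y = s
    · rw [h1, h2]
    · simp only [h1, h2, if_true, if_false] at hxy
      omega
    · simp only [h1, h2, if_true, if_false] at hxy
      omega
    · simp only [h1, h2, if_false] at hxy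
      exact hσinj (by simp [h1, hx']) (by simp [h2, hy']) hxy
  · intro v hv x hx y hy hvx hvy hxv hyv hxy
    by_cases hvs : v = s
    · subst hvs
      exact hs x hx y hy hvx hvy hxy
    · have hvle := Finset.le_sup (f := σ) hv
      have hxs : x ≠ s := by
        rintro rfl
        simp only [hvs, if_true, if_false] at hxv
        omega
      have hys : y ≠ s := by
        rintro rfl
        simp only [hvs, if_true, if_false] at hyv
        omega
      simp only [hvs, hxs, hys, if_false] at hxv hyv
      exact hσ v (by simp [hvs, hv]) x (by simp [hxs, hx]) y (by simp [hys, hy]) hvx hvy hxv hyv hxy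

end Pool.Agent.Lib.ChordalGraph
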