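import Mathlib

set_option autoImplicit false

/-!
Minimum spanning subgraphs with all degrees odd (minimum `V`-joins): exchange argument and
consequences.
-/

namespace Pool.Agent.Lib.MinOddSub

open SimpleGraph Finset Classical

variable {V : Type*} [Fintype V]

/-- `F` is a spanning subgraph of `G` with all degrees odd, with the least number of edges. -/
structure IsMinOdd (G F : SimpleGraph V) : Prop where
  le : F ≤ G
  odd : ∀ v, Odd (F.degree v)
  min : ∀ F' : SimpleGraph V, F' ≤ G → (∀ v, Odd (F'.degree v)) →
    F.edgeFinset.card ≤ F'.edgeFinset.card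

theorem exists_isMinOdd (G : SimpleGraph V) (hG : ∀ v, Odd (G.degree v)) :
    ∃ F, IsMinOdd G F := by
  let S : Finset (SimpleGraph V) := Finset.univ.filter
    (fun F => F ≤ G ∧ ∀ v, Odd (F.degree v))
  have hS : S.Nonempty := ⟨G, by simp [S, hG]⟩
  obtain ⟨F, hF, hmin⟩ := S.exists_min_image (fun F => F.edgeFinset.card) hS
  have hF' := (Finset.mem_filter.1 hF).2
  exact ⟨F, hF'.1, hF'.2, fun F' h1 h2 => hmin F' (by simp [S, h1, h2])⟩

theorem degree_eq_card_filter (F : SimpleGraph V) (x : V) :
    F.degree x = (F.edgeFinset.filter (fun e => x ∈ e)).card := by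
  rw [← SimpleGraph.card_incidenceFinset_eq_degree]
  congr 1
  ext e
  rw [SimpleGraph.mem_incidenceFinset, Finset.mem_filter, SimpleGraph.mem_edgeFinset]
  rfl

theorem card_symmDiff_add {α : Type*} [DecidableEq α] (A B : Finset α) :
    (symmDiff A B).card + 2 * (A ∩ B).card = A.card + B.card := by
  have h1 : (symmDiff A B).card = (A \ B).card + (B \ A).card := by
    rw [symmDiff_def, Finset.sup_eq_union, Finset.card_union_of_disjoint]
    exact disjoint_sdiff_sdiff
  have h2 := Finset.card_sdiff_add_card_inter A B
  have h3 := Finset.card_sdiff_add_card_inter B A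
  rw [Finset.inter_comm B A] at h3
  omega

/-- Exchange along a closed trail. -/
theorem exchange {G F : SimpleGraph V} (h : IsMinOdd G F) {u : V} (p : G.Walk u u)
    (hp : p.IsTrail) : 2 * (F.edgeFinset ∩ p.edges.toFinset).card ≤ p.length := by
  set T : Finset (Sym2 V) := p.edges.toFinset with hT
  set D : Finset (Sym2 V) := symmDiff F.edgeFinset T with hD
  have hTG : ∀ e ∈ T, e ∈ G.edgeSet := by
    intro e he
    exact p.edges_subset_edgeSet (List.mem_toFinset.1 he)
  have hDG : ∀ e ∈ D, e ∈ G.edgeSet := by
    intro e he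
    rw [hD, Finset.mem_symmDiff] at he
    rcases he with ⟨h1, -⟩ | ⟨h1, -⟩
    · rw [SimpleGraph.mem_edgeFinset] at h1
      exact SimpleGraph.edgeSet_mono h.le h1
    · exact hTG e h1
  obtain ⟨F', hF'⟩ : ∃ F' : SimpleGraph V, F' = SimpleGraph.fromEdgeSet (D : Set (Sym2 V)) :=
    ⟨_, rfl⟩
  have hedge : F'.edgeSet = (D : Set (Sym2 V)) := by
    rw [hF', SimpleGraph.edgeSet_fromEdgeSet]
    ext e
    simp only [Set.mem_sdiff, Finset.mem_coe]
    constructor
    · exact fun h => h.1
    · intro he
      exact ⟨he, fun h2 => G.not_isDiag_of_mem_edgeSet (hDG e he) h2⟩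
  have hedgeF : F'.edgeFinset = D := by
    ext e
    rw [SimpleGraph.mem_edgeFinset, hedge, Finset.mem_coe]
  have hle : F' ≤ G := by
    rw [← SimpleGraph.edgeSet_subset_edgeSet, hedge]
    exact hDG
  have hodd : ∀ v, Odd (F'.degree v) := by
    intro x
    rw [degree_eq_card_filter, hedgeF, hD]
    have h1 : (symmDiff F.edgeFinset T).filter (fun e => x ∈ e) =
        symmDiff (F.edgeFinset.filter (fun e => x ∈ e)) (T.filter (fun e => x ∈ e)) := by
      ext e
      simp only [Finset.mem_filter, Finset.mem_symmDiff]
      tauto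
    rw [h1]
    have h2 := card_symmDiff_add (F.edgeFinset.filter (fun e => x ∈ e))
      (T.filter (fun e => x ∈ e))
    have h3 : Odd (F.edgeFinset.filter (fun e => x ∈ e)).card := by
      rw [← degree_eq_card_filter]; exact h.odd x
    have h4 : Even (T.filter (fun e => x ∈ e)).card := by
      have h5 := (hp.even_countP_edges_iff x).2 (fun h => absurd rfl h)
      rw [List.countP_eq_length_filter] at h5
      have h6 : (T.filter (fun e => x ∈ e)).card =
          (p.edges.filter (fun e => decide (x ∈ e))).length := by
        rw [← List.toFinset_card_of_nodup (hp.edges_nodup.filter _)]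
        congr 1
        ext e
        simp [hT]
      rw [h6]
      exact h5
    obtain ⟨a, ha⟩ := h3
    obtain ⟨b, hb⟩ := h4
    rw [Nat.odd_iff]
    omega
  have hmin := h.min F' hle hodd
  rw [hedgeF] at hmin
  have h7 := card_symmDiff_add F.edgeFinset T
  have h8 : T.card = p.length := by
    rw [hT, List.toFinset_card_of_nodup hp.edges_nodup, SimpleGraph.Walk.length_edges]
  rw [← hD] at h7
  omega

/-- A closed trail of `G` containing `m` distinct edges of `F` has at least `2m` edges. -/
theorem exchange' {G F : SimpleGraph V} (h : IsMinOdd G F) {u : V} (p : G.Walk u u)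
    (hp : p.IsTrail) (l : List (Sym2 V)) (hl : l.Nodup) (h1 : ∀ e ∈ l, e ∈ p.edges)
    (h2 : ∀ e ∈ l, e ∈ F.edgeSet) : 2 * l.length ≤ p.length := by
  refine le_trans ?_ (exchange h p hp)
  refine Nat.mul_le_mul_left _ ?_
  rw [← List.toFinset_card_of_nodup hl]
  refine Finset.card_le_card ?_
  intro e he
  rw [List.mem_toFinset] at he
  rw [Finset.mem_inter, SimpleGraph.mem_edgeFinset, List.mem_toFinset]
  exact ⟨h2 e he, h1 e he⟩

theorem isAcyclic {G F : SimpleGraph V} (h : IsMinOdd G F) : F.IsAcyclic := by
  intro u p hp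
  have h1 : (p.mapLe h.le).IsTrail := hp.isTrail.mapLe h.le
  have h2 := exchange' h (p.mapLe h.le) h1 p.edges hp.isTrail.edges_nodup
    (by intro e he; simpa using he) (fun e he => p.edges_subset_edgeSet he)
  have h3 := hp.three_le_length
  rw [SimpleGraph.Walk.length_edges, SimpleGraph.Walk.length_map] at h2
  omega

omit [Fintype V] in
theorem adj_of_length_le_one {F : SimpleGraph V} {u v : V} (q : F.Walk u v) (huv : u ≠ v)
    (h : q.length ≤ 1) : F.Adj u v := by
  cases q with
  | nil => exact absurd rfl huv
  | cons h1 q' =>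
    cases q' with
    | nil => exact h1
    | cons h2 q'' => simp at h

/-- The components of `F` are induced in `G`. -/
theorem adj_of_reachable {G F : SimpleGraph V} (h : IsMinOdd G F) {u v : V}
    (huv : F.Reachable u v) (hG : G.Adj u v) : F.Adj u v := by
  by_contra hF
  obtain ⟨q, hq⟩ := huv.exists_isPath
  have hqt : (q.mapLe h.le).IsTrail := hq.isTrail.mapLe h.le
  have he : s(v, u) ∉ (q.mapLe h.le).edges := by
    intro hmem
    rw [SimpleGraph.Walk.edges_mapLe_eq_edges] at hmem
    exact hF (q.adj_of_mem_edges hmem).symm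
  have ht : (SimpleGraph.Walk.cons hG.symm (q.mapLe h.le)).IsTrail := by
    rw [SimpleGraph.Walk.isTrail_cons]
    exact ⟨hqt, he⟩
  have h2 := exchange' h _ ht q.edges hq.isTrail.edges_nodup
    (by intro e he; simp [he]) (fun e he => q.edges_subset_edgeSet he)
  simp only [SimpleGraph.Walk.length_edges, SimpleGraph.Walk.length_cons,
    SimpleGraph.Walk.length_map] at h2
  exact hF (adj_of_length_le_one q hG.ne (by omega))

/-- Two disjoint edges of `G` between two components of `F` are joined by edges of `F`. -/
theorem adj_adj {G F : SimpleGraph V} (h : IsMinOdd G F) {u₁ u₂ v₁ v₂ : V}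
    (hu : F.Reachable u₁ u₂) (hv : F.Reachable v₁ v₂) (huv : ¬ F.Reachable u₁ v₁)
    (h1 : G.Adj u₁ v₁) (h2 : G.Adj u₂ v₂) (hu' : u₁ ≠ u₂) (hv' : v₁ ≠ v₂) :
    F.Adj u₁ u₂ ∧ F.Adj v₁ v₂ := by
  obtain ⟨q, hq⟩ := hu.exists_isPath
  obtain ⟨r, hr⟩ := hv.symm.exists_isPath
  have hnr : ¬ F.Reachable u₂ v₂ := fun hh => huv (hu.trans (hh.trans hv.symm))
  have hdisj : ∀ e ∈ q.edges, e ∉ r.edges := by
    intro e he he'
    induction e with
    | _ a b =>
      have ha := q.fst_mem_support_of_mem_edges he
      have hb := r.fst_mem_support_of_mem_edges he'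
      exact huv ((q.takeUntil a ha).reachable.trans
        (((r.takeUntil a hb).reachable.symm).trans hv.symm))
  have ht : (SimpleGraph.Walk.append (q.mapLe h.le) (SimpleGraph.Walk.cons h2
      (SimpleGraph.Walk.append (r.mapLe h.le) (SimpleGraph.Walk.cons h1.symm
        SimpleGraph.Walk.nil)))).IsTrail := by
    rw [SimpleGraph.Walk.isTrail_def]
    simp only [SimpleGraph.Walk.edges_append, SimpleGraph.Walk.edges_cons,
      SimpleGraph.Walk.edges_nil, SimpleGraph.Walk.edges_mapLe_eq_edges]
    have e2q : s(u₂, v₂) ∉ q.edges := fun hh => hnr (q.adj_of_mem_edges hh).reachable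
    have e2r : s(u₂, v₂) ∉ r.edges := fun hh => hnr (r.adj_of_mem_edges hh).reachable
    have e1q : s(v₁, u₁) ∉ q.edges := fun hh => huv (q.adj_of_mem_edges hh).reachable.symm
    have e1r : s(v₁, u₁) ∉ r.edges := fun hh => huv (r.adj_of_mem_edges hh).reachable.symm
    have e12 : s(u₂, v₂) ≠ s(v₁, u₁) := by
      intro hh
      rw [Sym2.eq_iff] at hh
      rcases hh with ⟨h3, h4⟩ | ⟨h3, h4⟩
      · rw [h3] at hu
        exact huv hu
      · exact hu' h3.symm
    rw [List.nodup_append, List.nodup_cons, List.nodup_append]
    refine ⟨hq.isTrail.edges_nodup, ⟨?_, hr.isTrail.edges_nodup, by simp, ?_⟩, ?_⟩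
    · simp only [List.mem_append, List.mem_singleton, not_or]
      exact ⟨e2r, e12⟩
    · intro a ha b hb hab
      simp only [List.mem_singleton] at hb
      subst hb; subst hab
      exact e1r ha
    · intro a ha b hb hab
      subst hab
      simp only [List.mem_cons, List.mem_append, List.not_mem_nil, or_false] at hb
      rcases hb with rfl | hb | rfl
      · exact e2q ha
      · exact hdisj _ ha hb
      · exact e1q ha
  have key := exchange' h _ ht (q.edges ++ r.edges) (by
      rw [List.nodup_append]
      refine ⟨hq.isTrail.edges_nodup, hr.isTrail.edges_nodup, ?_⟩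
      intro a ha b hb hab
      subst hab
      exact hdisj _ ha hb) (by
      intro e he
      simp only [SimpleGraph.Walk.edges_append, SimpleGraph.Walk.edges_cons,
        SimpleGraph.Walk.edges_nil, SimpleGraph.Walk.edges_mapLe_eq_edges]
      rw [List.mem_append] at he
      rcases he with he | he
      · simp [he]
      · simp [he]) (by
      intro e he
      rw [List.mem_append] at he
      rcases he with he | he
      · exact q.edges_subset_edgeSet he
      · exact r.edges_subset_edgeSet he)
  simp only [List.length_append, SimpleGraph.Walk.length_edges, SimpleGraph.Walk.length_append,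
    SimpleGraph.Walk.length_cons, SimpleGraph.Walk.length_map, SimpleGraph.Walk.length_nil] at key
  have hq1 : 1 ≤ q.length := by
    by_contra hh
    exact hu' (SimpleGraph.Walk.eq_of_length_eq_zero (p := q) (by omega))
  have hr1 : 1 ≤ r.length := by
    by_contra hh
    exact hv' (SimpleGraph.Walk.eq_of_length_eq_zero (p := r) (by omega)).symm
  exact ⟨adj_of_length_le_one q hu' (by omega),
    (adj_of_length_le_one r hv'.symm (by omega)).symm⟩

/-- The abstract bound on the number of edges between two components. -/
theorem card_le_of_cross {α β : Type*} (S : Finset (α × β)) (A : Finset α) (B : Finset β)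
    (RA : α → α → Prop) (RB : β → β → Prop)
    (hA : ∀ x y z, RA x y → RA y z → RA z x → False)
    (hB : ∀ x y z, RB x y → RB y z → RB z x → False)
    (hSA : ∀ p ∈ S, p.1 ∈ A) (hSB : ∀ p ∈ S, p.2 ∈ B)
    (hS : ∀ p ∈ S, ∀ q ∈ S, p.1 ≠ q.1 → p.2 ≠ q.2 → RA p.1 q.1 ∧ RB p.2 q.2) :
    S.card ≤ A.card + B.card := by
  by_cases hc : ∃ p ∈ S, (∃ q ∈ S, q.1 ≠ p.1 ∧ q.2 = p.2) ∧ (∃ q ∈ S, q.1 = p.1 ∧ q.2 ≠ p.2)
  · obtain ⟨⟨x0, y0⟩, hp, ⟨⟨x1, y1'⟩, hq, hq1, hq2⟩, ⟨⟨x1', y1⟩, hr, hr1, hr2⟩⟩ := hc
    simp only at hq1 hq2 hr1 hr2
    subst hq2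
    subst hr1
    have h01 := hS _ hq _ hr hq1 hr2.symm
    simp only at h01
    have hsub : S ⊆ (A ×ˢ {y1'}) ∪ (({x1'} ×ˢ (B.erase y1')) ∪ {(x1, y1)}) := by
      rintro ⟨x, y⟩ hxy
      by_cases hy : y = y1'
      · subst hy
        apply Finset.mem_union_left
        simpa using hSA _ hxy
      · apply Finset.mem_union_right
        by_cases hx : x = x1'
        · subst hx
          apply Finset.mem_union_left
          simp only [Finset.mem_product, Finset.mem_singleton, Finset.mem_erase, true_and]
          exact ⟨hy, hSB _ hxy⟩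
        · apply Finset.mem_union_right
          have h1 := hS _ hxy _ hp hx hy
          simp only at h1
          have hx1 : x = x1 := by
            by_contra hne
            have h2 := hS _ hxy _ hq hne hy
            have h3 := hS _ hq _ hr hq1 hr2.symm
            simp only at h2 h3
            have h4 := hS _ hp _ hxy (Ne.symm hx) (Ne.symm hy)
            exact hA _ _ _ h2.1 h3.1 h4.1
          have hy1 : y = y1 := by
            by_contra hne
            have h2 := hS _ hxy _ hr hx hne
            have h3 := hS _ hr _ hq hq1.symm hr2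
            simp only at h2 h3
            have h4 := hS _ hp _ hxy (Ne.symm hx) (Ne.symm hy)
            exact hB _ _ _ h2.2 h3.2 h4.2
          rw [hx1, hy1]
          exact Finset.mem_singleton_self _
    have hyB : y1' ∈ B := hSB _ hp
    have hcard := Finset.card_le_card hsub
    have h5 := Finset.card_union_le (A ×ˢ ({y1'} : Finset β))
      ((({x1'} : Finset α) ×ˢ (B.erase y1')) ∪ {(x1, y1)})
    have h6 := Finset.card_union_le (({x1'} : Finset α) ×ˢ (B.erase y1')) {(x1, y1)}
    rw [Finset.card_product, Finset.card_singleton, mul_one] at h5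
    rw [Finset.card_product, Finset.card_singleton, Finset.card_singleton, one_mul,
      Finset.card_erase_of_mem hyB] at h6
    have h7 : 0 < B.card := Finset.card_pos.2 ⟨_, hyB⟩
    omega
  · push Not at hc
    -- each element is alone in its column or alone in its row
    have hsub : S ⊆ (S.filter (fun p => ∀ q ∈ S, q.2 = p.2 → q.1 = p.1)) ∪
        (S.filter (fun p => ∀ q ∈ S, q.1 = p.1 → q.2 = p.2)) := by
      intro p hp
      by_cases h1 : ∃ q ∈ S, q.1 ≠ p.1 ∧ q.2 = p.2
      · apply Finset.mem_union_right
        exact Finset.mem_filter.2 ⟨hp, hc p hp h1⟩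
      · apply Finset.mem_union_left
        push Not at h1
        refine Finset.mem_filter.2 ⟨hp, fun q hq h2 => ?_⟩
        by_contra h3
        exact h1 q hq h3 h2
    refine (Finset.card_le_card hsub).trans ((Finset.card_union_le _ _).trans ?_)
    rw [add_comm]
    refine add_le_add ?_ ?_
    · refine Finset.card_le_card_of_injOn Prod.fst (fun p hp => ?_) ?_
      · exact hSA p (Finset.mem_filter.1 hp).1
      · intro p hp q hq hpq
        have hp' := Finset.mem_filter.1 (Finset.mem_coe.1 hp)
        have hq' := Finset.mem_filter.1 (Finset.mem_coe.1 hq)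
        exact Prod.ext hpq (hq'.2 p hp'.1 hpq)
    · refine Finset.card_le_card_of_injOn Prod.snd (fun p hp => ?_) ?_
      · exact hSB p (Finset.mem_filter.1 hp).1
      · intro p hp q hq hpq
        have hp' := Finset.mem_filter.1 (Finset.mem_coe.1 hp)
        have hq' := Finset.mem_filter.1 (Finset.mem_coe.1 hq)
        exact Prod.ext (hq'.2 p hp'.1 hpq) hpq

/-- The degree in a component equals the degree in the graph. -/
theorem degree_toSimpleGraph (F : SimpleGraph V) (C : F.ConnectedComponent) (v : C) :
    C.toSimpleGraph.degree v = F.degree v.1 := by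
  rw [← SimpleGraph.card_neighborFinset_eq_degree, ← SimpleGraph.card_neighborFinset_eq_degree,
    ← Finset.card_map ⟨Subtype.val, Subtype.val_injective⟩]
  congr 1
  ext w
  simp only [Finset.mem_map, SimpleGraph.mem_neighborFinset, Function.Embedding.coeFn_mk]
  constructor
  · rintro ⟨w', h, rfl⟩
    exact h
  · intro h
    have hw : w ∈ C := by
      have hv : F.connectedComponentMk v.1 = C := v.2
      change F.connectedComponentMk w = C
      rw [← hv]
      exact (SimpleGraph.ConnectedComponent.connectedComponentMk_eq_of_adj h).symm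
    exact ⟨⟨w, hw⟩, h, rfl⟩

/-- In a forest with `c` components, the sum of the degrees is `2 (n - c)`. -/
theorem sum_degree_add (F : SimpleGraph V) (hF : F.IsAcyclic) :
    ∑ v, F.degree v + 2 * Fintype.card F.ConnectedComponent = 2 * Fintype.card V := by
  have h1 : ∀ C : F.ConnectedComponent,
      (∑ v ∈ Finset.univ.filter (fun v => F.connectedComponentMk v = C), F.degree v) + 2 =
        2 * (Finset.univ.filter (fun v => F.connectedComponentMk v = C)).card := by
    intro C
    have hT := hF.isTree_connectedComponent C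
    have h2 := hT.card_edgeFinset
    have h3 := C.toSimpleGraph.sum_degrees_eq_twice_card_edges
    have h4 : ∑ v : C, C.toSimpleGraph.degree v =
        ∑ v ∈ Finset.univ.filter (fun v => F.connectedComponentMk v = C), F.degree v := by
      rw [Finset.sum_congr rfl (fun v _ => degree_toSimpleGraph F C v)]
      rw [Finset.sum_subtype (Finset.univ.filter (fun v => F.connectedComponentMk v = C))
        (p := fun v => v ∈ C)]
      intro x
      simp only [Finset.mem_filter, Finset.mem_univ, true_and]
      rfl
    have h5 : Fintype.card C =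
        (Finset.univ.filter (fun v => F.connectedComponentMk v = C)).card := by
      rw [Fintype.card_of_subtype]
      intro x
      simp only [Finset.mem_filter, Finset.mem_univ, true_and]
      rfl
    rw [← h4, ← h5, ← h2, h3]
    ring
  have h6 := Finset.sum_congr rfl (fun C (_ : C ∈ (Finset.univ : Finset F.ConnectedComponent)) =>
    h1 C)
  have h7 : ∑ C : F.ConnectedComponent, ∑ v ∈ Finset.univ.filter
      (fun v => F.connectedComponentMk v = C), F.degree v = ∑ v, F.degree v :=
    Finset.sum_fiberwise_of_maps_to (fun _ _ => Finset.mem_univ _) _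
  have h8 : ∑ C : F.ConnectedComponent, (Finset.univ.filter
      (fun v => F.connectedComponentMk v = C)).card = Fintype.card V := by
    rw [← Finset.card_univ (α := V)]
    exact (Finset.card_eq_sum_card_fiberwise
      (fun x _ => Finset.mem_coe.2 (Finset.mem_univ _))).symm
  rw [Finset.sum_add_distrib, h7, ← Finset.mul_sum, h8] at h6
  simp only [Finset.sum_const, Finset.card_univ, smul_eq_mul] at h6
  omega

/-- Counting the edges between the components. -/
theorem sum_degree_le {G F : SimpleGraph V} (h : IsMinOdd G F) :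
    ∑ v, G.degree v ≤ ∑ v, F.degree v +
      2 * ((Fintype.card F.ConnectedComponent - 1) * Fintype.card V) := by
  have hsum : ∀ H : SimpleGraph V, ∑ v, H.degree v =
      (Finset.univ.filter (fun p : V × V => H.Adj p.1 p.2)).card := by
    intro H
    rw [Finset.card_filter, Fintype.sum_prod_type]
    refine Finset.sum_congr rfl fun v _ => ?_
    rw [← SimpleGraph.card_neighborFinset_eq_degree, ← Finset.card_filter]
    congr 1
    ext w
    simp
  let cp : V → F.ConnectedComponent := F.connectedComponentMk
  let fib : F.ConnectedComponent → Finset V := fun C => Finset.univ.filter (fun v => cp v = C)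
  let X : Finset (V × V) := Finset.univ.filter (fun p => G.Adj p.1 p.2 ∧ cp p.1 ≠ cp p.2)
  let OD : Finset (F.ConnectedComponent × F.ConnectedComponent) :=
    Finset.univ.filter (fun q => q.1 ≠ q.2)
  have h1 : (Finset.univ.filter (fun p : V × V => G.Adj p.1 p.2)).card ≤
      (Finset.univ.filter (fun p : V × V => F.Adj p.1 p.2)).card + X.card := by
    refine le_trans (Finset.card_le_card ?_) (Finset.card_union_le _ _)
    intro p hp
    have hp' := (Finset.mem_filter.1 hp).2
    by_cases hc : cp p.1 = cp p.2
    · apply Finset.mem_union_left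
      refine Finset.mem_filter.2 ⟨Finset.mem_univ _, ?_⟩
      exact adj_of_reachable h (SimpleGraph.ConnectedComponent.exact hc) hp'
    · apply Finset.mem_union_right
      exact Finset.mem_filter.2 ⟨Finset.mem_univ _, hp', hc⟩
  have h2 : X.card ≤ ∑ q ∈ OD, ((fib q.1).card + (fib q.2).card) := by
    rw [Finset.card_eq_sum_card_fiberwise (f := fun p => (cp p.1, cp p.2)) (t := OD)]
    · refine Finset.sum_le_sum fun q hq => ?_
      have hq' := (Finset.mem_filter.1 hq).2
      refine card_le_of_cross _ (fib q.1) (fib q.2) F.Adj F.Adj ?_ ?_ ?_ ?_ ?_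
      · intro x y z hxy hyz hzx
        have := isAcyclic h
        have h3 := this.cliqueFree (le_refl 3)
        exact h3 {x, y, z} (SimpleGraph.is3Clique_triple_iff.2 ⟨hxy, hzx.symm, hyz⟩)
      · intro x y z hxy hyz hzx
        have := isAcyclic h
        have h3 := this.cliqueFree (le_refl 3)
        exact h3 {x, y, z} (SimpleGraph.is3Clique_triple_iff.2 ⟨hxy, hzx.symm, hyz⟩)
      · intro p hp
        have hp' := (Finset.mem_filter.1 hp).2
        exact Finset.mem_filter.2 ⟨Finset.mem_univ _, congrArg Prod.fst hp'⟩
      · intro p hp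
        have hp' := (Finset.mem_filter.1 hp).2
        exact Finset.mem_filter.2 ⟨Finset.mem_univ _, congrArg Prod.snd hp'⟩
      · intro p hp r hr h3 h4
        obtain ⟨hpX, hpq⟩ := Finset.mem_filter.1 hp
        obtain ⟨hrX, hrq⟩ := Finset.mem_filter.1 hr
        have hpX' := (Finset.mem_filter.1 hpX).2
        have hrX' := (Finset.mem_filter.1 hrX).2
        have e1 : cp p.1 = cp r.1 := (congrArg Prod.fst hpq).trans (congrArg Prod.fst hrq).symm
        have e2 : cp p.2 = cp r.2 := (congrArg Prod.snd hpq).trans (congrArg Prod.snd hrq).symm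
        exact adj_adj h (SimpleGraph.ConnectedComponent.exact e1)
          (SimpleGraph.ConnectedComponent.exact e2)
          (fun hh => hpX'.2 (SimpleGraph.ConnectedComponent.sound hh)) hpX'.1 hrX'.1 h3 h4
    · intro p hp
      have hp' := (Finset.mem_filter.1 (Finset.mem_coe.1 hp)).2
      exact Finset.mem_coe.2 (Finset.mem_filter.2 ⟨Finset.mem_univ _, hp'.2⟩)
  have hfib : ∑ C, (fib C).card = Fintype.card V := by
    rw [← Finset.card_univ (α := V)]
    exact (Finset.card_eq_sum_card_fiberwise
      (fun x _ => Finset.mem_coe.2 (Finset.mem_univ _))).symm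
  have h3 : ∑ q ∈ OD, ((fib q.1).card + (fib q.2).card) =
      2 * ((Fintype.card F.ConnectedComponent - 1) * Fintype.card V) := by
    have hA : ∑ q ∈ OD, (fib q.1).card =
        (Fintype.card F.ConnectedComponent - 1) * Fintype.card V := by
      simp only [OD]
      rw [Finset.sum_filter, Fintype.sum_prod_type]
      have : ∀ A : F.ConnectedComponent, (∑ B : F.ConnectedComponent,
          if (A, B).1 ≠ (A, B).2 then (fib (A, B).1).card else 0) =
          (Fintype.card F.ConnectedComponent - 1) * (fib A).card := by
        intro A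
        rw [← Finset.sum_filter]
        change ∑ a ∈ (Finset.univ.filter (fun B : F.ConnectedComponent => (A, B).1 ≠ (A, B).2)),
          (fib A).card = _
        rw [Finset.sum_const, smul_eq_mul]
        congr 1
        have : (Finset.univ.filter (fun B : F.ConnectedComponent => (A, B).1 ≠ (A, B).2)) =
            Finset.univ.erase A := by
          ext B
          simp [eq_comm]
        rw [this, Finset.card_erase_of_mem (Finset.mem_univ _), Finset.card_univ]
      rw [Finset.sum_congr rfl (fun A _ => this A), ← Finset.mul_sum, hfib]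
    have hB : ∑ q ∈ OD, (fib q.2).card =
        (Fintype.card F.ConnectedComponent - 1) * Fintype.card V := by
      rw [← hA]
      refine Finset.sum_bij' (fun q _ => q.swap) (fun q _ => q.swap) ?_ ?_ ?_ ?_ ?_
      · intro q hq
        have := (Finset.mem_filter.1 hq).2
        exact Finset.mem_filter.2 ⟨Finset.mem_univ _, this.symm⟩
      · intro q hq
        have := (Finset.mem_filter.1 hq).2
        exact Finset.mem_filter.2 ⟨Finset.mem_univ _, this.symm⟩
      · intro q _; exact Prod.swap_swap q
      · intro q _; exact Prod.swap_swap q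
      · intro q _; rfl
    rw [Finset.sum_add_distrib, hA, hB]
    ring
  rw [hsum G, hsum F]
  omega

/-- A graph all of whose degrees are odd and at least `2k + 1` on average has a spanning subgraph
with all degrees odd and at most `n - k - 1` edges. -/
theorem exists_odd_sub [Nonempty V] (G : SimpleGraph V) (k : ℕ) (hG : ∀ v, Odd (G.degree v))
    (hk : (2 * k + 1) * Fintype.card V ≤ ∑ v, G.degree v) :
    ∃ F : SimpleGraph V, F ≤ G ∧ (∀ v, Odd (F.degree v)) ∧
      F.edgeFinset.card + k + 1 ≤ Fintype.card V := by
  obtain ⟨F, hF⟩ := exists_isMinOdd G hG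
  refine ⟨F, hF.le, hF.odd, ?_⟩
  have h1 := sum_degree_le hF
  have h2 := sum_degree_add F (isAcyclic hF)
  have h3 := F.sum_degrees_eq_twice_card_edges
  set n := Fintype.card V with hn
  set c := Fintype.card F.ConnectedComponent with hc
  have hn0 : 0 < n := Fintype.card_pos
  have hc0 : 0 < c := by
    have : Nonempty F.ConnectedComponent := ⟨F.connectedComponentMk (Classical.arbitrary V)⟩
    exact Fintype.card_pos
  have h4 : k + 1 ≤ c := by
    by_contra hlt
    have h5 : c - 1 + 1 ≤ k := by omega
    obtain ⟨d, hd⟩ : ∃ d, c = d + 1 := ⟨c - 1, by omega⟩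
    have h6 : d + 1 ≤ k := by omega
    have e1 : c - 1 = d := by omega
    rw [e1] at h1
    have h7 : (2 * (d + 1) + 1) * n ≤ (2 * k + 1) * n := Nat.mul_le_mul_right _ (by omega)
    have h8 : (2 * (d + 1) + 1) * n = 2 * (d * n) + 3 * n := by ring
    omega
  omega

end Pool.Agent.Lib.MinOddSub
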