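import Mathlib
import Pool.Agent.Lib.MinOddSub

set_option autoImplicit false

/-!
Balanced orientations of even graphs and decomposition of an even graph of maximum degree at most
`2k` into `k` subgraphs in which all degrees are `0` or `2` (Petersen).
-/

namespace Pool.Agent.Lib.EvenDecomp

open SimpleGraph Finset Classical
open Pool.Agent.Lib.MinOddSub

variable {V : Type*} [Fintype V]

/-- A nonempty graph with all degrees even has a cycle. -/
theorem exists_cycle (H : SimpleGraph V) (hH : ∀ v, Even (H.degree v)) (hne : H ≠ ⊥) :
    ∃ (u : V) (p : H.Walk u u), p.IsCycle := by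
  by_contra hcon
  push Not at hcon
  have hac : H.IsAcyclic := fun u p hp => hcon u p hp
  obtain ⟨a, b, hab⟩ := SimpleGraph.ne_bot_iff_exists_adj.1 hne
  set C := H.connectedComponentMk a with hC
  have hT := hac.isTree_connectedComponent C
  have haC : a ∈ C := rfl
  have hbC : b ∈ C := (SimpleGraph.ConnectedComponent.connectedComponentMk_eq_of_adj hab).symm
  have : Nontrivial C := ⟨⟨a, haC⟩, ⟨b, hbC⟩, fun h => hab.ne (congrArg Subtype.val h)⟩
  obtain ⟨v, hv⟩ := hT.exists_vert_degree_one_of_nontrivial
  rw [degree_toSimpleGraph] at hv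
  have := hH v.1
  rw [hv] at this
  exact absurd this (by decide)

omit [Fintype V] in
theorem count_darts {H : SimpleGraph V} {u v : V} (p : H.Walk u v) (x : V) :
    (p.darts.map (fun d => d.fst)).count x + (if x = v then 1 else 0) =
      (p.darts.map (fun d => d.snd)).count x + (if x = u then 1 else 0) := by
  induction p with
  | nil => simp
  | @cons a b c h q ih =>
    simp only [SimpleGraph.Walk.darts_cons, List.map_cons, List.count_cons]
    have e1 : (if (a == x) = true then 1 else 0) = (if x = a then 1 else 0) := by
      by_cases hx : x = a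
      · subst hx; simp
      · simp [hx, Ne.symm hx]
    have e2 : (if (b == x) = true then 1 else 0) = (if x = b then 1 else 0) := by
      by_cases hx : x = b
      · subst hx; simp
      · simp [hx, Ne.symm hx]
    rw [e1, e2]
    omega

theorem card_out_darts {H : SimpleGraph V} {u v : V} (p : H.Walk u v) (hp : p.IsTrail) (x : V) :
    (Finset.univ.filter (fun y => ∃ d ∈ p.darts, d.fst = x ∧ d.snd = y)).card =
      (p.darts.map (fun d => d.fst)).count x := by
  have hnd : p.darts.Nodup := by
    have h1 : (p.darts.map SimpleGraph.Dart.edge).Nodup := hp.edges_nodup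
    exact List.Nodup.of_map _ h1
  rw [List.count_eq_countP, List.countP_map, List.countP_eq_length_filter]
  rw [← List.toFinset_card_of_nodup (hnd.filter _)]
  symm
  refine Finset.card_bij (fun d _ => d.snd) ?_ ?_ ?_
  · intro d hd
    simp only [List.mem_toFinset, List.mem_filter, Function.comp_apply, beq_iff_eq] at hd
    exact Finset.mem_filter.2 ⟨Finset.mem_univ _, d, hd.1, hd.2, rfl⟩
  · intro d hd d' hd' h
    simp only [List.mem_toFinset, List.mem_filter, Function.comp_apply, beq_iff_eq] at hd hd'
    exact SimpleGraph.Dart.ext _ _ (Prod.ext (hd.2.trans hd'.2.symm) h)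
  · intro y hy
    obtain ⟨d, hd, h1, h2⟩ := (Finset.mem_filter.1 hy).2
    refine ⟨d, ?_, h2⟩
    simp only [List.mem_toFinset, List.mem_filter, Function.comp_apply, beq_iff_eq]
    exact ⟨hd, h1⟩

theorem card_in_darts {H : SimpleGraph V} {u v : V} (p : H.Walk u v) (hp : p.IsTrail) (x : V) :
    (Finset.univ.filter (fun y => ∃ d ∈ p.darts, d.fst = y ∧ d.snd = x)).card =
      (p.darts.map (fun d => d.snd)).count x := by
  have hnd : p.darts.Nodup := by
    have h1 : (p.darts.map SimpleGraph.Dart.edge).Nodup := hp.edges_nodup
    exact List.Nodup.of_map _ h1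
  rw [List.count_eq_countP, List.countP_map, List.countP_eq_length_filter]
  rw [← List.toFinset_card_of_nodup (hnd.filter _)]
  symm
  refine Finset.card_bij (fun d _ => d.fst) ?_ ?_ ?_
  · intro d hd
    simp only [List.mem_toFinset, List.mem_filter, Function.comp_apply, beq_iff_eq] at hd
    exact Finset.mem_filter.2 ⟨Finset.mem_univ _, d, hd.1, rfl, hd.2⟩
  · intro d hd d' hd' h
    simp only [List.mem_toFinset, List.mem_filter, Function.comp_apply, beq_iff_eq] at hd hd'
    exact SimpleGraph.Dart.ext _ _ (Prod.ext h (hd.2.trans hd'.2.symm))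
  · intro y hy
    obtain ⟨d, hd, h1, h2⟩ := (Finset.mem_filter.1 hy).2
    refine ⟨d, ?_, h1⟩
    simp only [List.mem_toFinset, List.mem_filter, Function.comp_apply, beq_iff_eq]
    exact ⟨hd, h2⟩

/-- A balanced orientation of a graph. -/
structure Balanced (H : SimpleGraph V) (D : V → V → Prop) : Prop where
  adj : ∀ u v, D u v → H.Adj u v
  cover : ∀ u v, H.Adj u v → D u v ∨ D v u
  asymm : ∀ u v, D u v → ¬ D v u
  bal : ∀ v, (Finset.univ.filter (fun u => D v u)).card = (Finset.univ.filter (fun u => D u v)).card

/-- Every graph with all degrees even has a balanced orientation. -/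
theorem exists_balanced (H : SimpleGraph V) (hH : ∀ v, Even (H.degree v)) :
    ∃ D : V → V → Prop, Balanced H D := by
  induction hn : H.edgeFinset.card using Nat.strong_induction_on generalizing H with
  | _ n ih =>
  by_cases hbot : H = ⊥
  · subst hbot
    exact ⟨fun _ _ => False, ⟨fun _ _ h => h.elim, fun _ _ h => h.elim, fun _ _ h => h.elim,
      fun _ => rfl⟩⟩
  obtain ⟨u, p, hp⟩ := exists_cycle H hH hbot
  set T : Finset (Sym2 V) := p.edges.toFinset with hT
  obtain ⟨H', hH'⟩ : ∃ H' : SimpleGraph V, H' = H.deleteEdges {e | e ∈ p.edges} := ⟨_, rfl⟩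
  have hadj' : ∀ a b, H'.Adj a b ↔ H.Adj a b ∧ s(a, b) ∉ p.edges := by
    intro a b
    rw [hH', SimpleGraph.deleteEdges_adj]
    rfl
  have hedge : H'.edgeFinset = H.edgeFinset \ T := by
    ext e
    induction e with
    | _ a b =>
      rw [SimpleGraph.mem_edgeFinset, SimpleGraph.mem_edgeSet, hadj', Finset.mem_sdiff,
        SimpleGraph.mem_edgeFinset, SimpleGraph.mem_edgeSet, hT, List.mem_toFinset]
  have hTsub : T ⊆ H.edgeFinset := by
    intro e he
    rw [SimpleGraph.mem_edgeFinset]
    exact p.edges_subset_edgeSet (List.mem_toFinset.1 he)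
  have heven : ∀ v, Even (H'.degree v) := by
    intro x
    rw [degree_eq_card_filter, hedge]
    have h1 := hH x
    rw [degree_eq_card_filter] at h1
    have h2 : (H.edgeFinset \ T).filter (fun e => x ∈ e) =
        (H.edgeFinset.filter (fun e => x ∈ e)) \ (T.filter (fun e => x ∈ e)) := by
      ext e
      simp only [Finset.mem_filter, Finset.mem_sdiff]
      tauto
    have h3 : (T.filter (fun e => x ∈ e)) ⊆ (H.edgeFinset.filter (fun e => x ∈ e)) :=
      Finset.filter_subset_filter _ hTsub
    have h4 : Even (T.filter (fun e => x ∈ e)).card := by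
      have h5 := (hp.isTrail.even_countP_edges_iff x).2 (fun h => absurd rfl h)
      rw [List.countP_eq_length_filter] at h5
      have h6 : (T.filter (fun e => x ∈ e)).card =
          (p.edges.filter (fun e => decide (x ∈ e))).length := by
        rw [← List.toFinset_card_of_nodup (hp.isTrail.edges_nodup.filter _)]
        congr 1
        ext e
        simp [hT]
      rw [h6]
      exact h5
    rw [h2, Finset.card_sdiff_of_subset h3]
    exact (Nat.even_sub (Finset.card_le_card h3)).2 ⟨fun _ => h4, fun _ => h1⟩
  have hlt : H'.edgeFinset.card < n := by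
    rw [hedge, Finset.card_sdiff_of_subset hTsub, ← hn]
    have h1 : 0 < T.card := by
      rw [hT, List.toFinset_card_of_nodup hp.isTrail.edges_nodup,
        SimpleGraph.Walk.length_edges]
      have := hp.three_le_length
      omega
    have h2 := Finset.card_le_card hTsub
    omega
  obtain ⟨D', hD'⟩ := ih _ hlt H' heven rfl
  have hdart : ∀ d ∈ p.darts, s(d.fst, d.snd) ∈ p.edges := by
    intro d hd
    exact List.mem_map.2 ⟨d, hd, rfl⟩
  obtain ⟨D, hD⟩ : ∃ D : V → V → Prop, ∀ a b, D a b ↔
      (D' a b ∨ ∃ d ∈ p.darts, d.fst = a ∧ d.snd = b) := ⟨fun a b => D' a b ∨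
        ∃ d ∈ p.darts, d.fst = a ∧ d.snd = b, fun _ _ => Iff.rfl⟩
  refine ⟨D, ?_, ?_, ?_, ?_⟩
  · intro a b hab
    rcases (hD a b).1 hab with (h | ⟨d, -, rfl, rfl⟩)
    · exact ((hadj' a b).1 (hD'.adj a b h)).1
    · exact d.adj
  · intro a b hab
    rw [hD, hD]
    by_cases hmem : s(a, b) ∈ p.edges
    · obtain ⟨d, hd, hde⟩ := List.mem_map.1 hmem
      have hde' : s(d.fst, d.snd) = s(a, b) := hde
      rw [Sym2.eq_iff] at hde'
      rcases hde' with ⟨h1, h2⟩ | ⟨h1, h2⟩
      · exact Or.inl (Or.inr ⟨d, hd, h1, h2⟩)
      · exact Or.inr (Or.inr ⟨d, hd, h1, h2⟩)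
    · rcases hD'.cover a b ((hadj' a b).2 ⟨hab, hmem⟩) with h | h
      · exact Or.inl (Or.inl h)
      · exact Or.inr (Or.inl h)
  · intro a b hab hba
    rcases (hD a b).1 hab with (h | ⟨d, hd, rfl, rfl⟩) <;>
      rcases (hD _ _).1 hba with (h' | ⟨d', hd', h1, h2⟩)
    · exact hD'.asymm a b h h'
    · have h3 := ((hadj' a b).1 (hD'.adj a b h)).2
      apply h3
      have := hdart d' hd'
      rw [h1, h2] at this
      rwa [Sym2.eq_swap]
    · have h3 := ((hadj' _ _).1 (hD'.adj _ _ h')).2
      apply h3
      have := hdart d hd
      rwa [Sym2.eq_swap]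
    · have hinj := List.inj_on_of_nodup_map hp.isTrail.edges_nodup hd hd' (by
        change s(d.fst, d.snd) = s(d'.fst, d'.snd)
        rw [h1, h2, Sym2.eq_swap])
      subst hinj
      exact d.adj.ne h1
  · intro x
    have h1 : (Finset.univ.filter (fun y => D x y)) =
        (Finset.univ.filter (fun y => D' x y)) ∪
          (Finset.univ.filter (fun y => ∃ d ∈ p.darts, d.fst = x ∧ d.snd = y)) := by
      ext y
      simp only [Finset.mem_filter, Finset.mem_union, Finset.mem_univ, true_and, hD]
    have h2 : (Finset.univ.filter (fun y => D y x)) =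
        (Finset.univ.filter (fun y => D' y x)) ∪
          (Finset.univ.filter (fun y => ∃ d ∈ p.darts, d.fst = y ∧ d.snd = x)) := by
      ext y
      simp only [Finset.mem_filter, Finset.mem_union, Finset.mem_univ, true_and, hD]
    rw [h1, h2, Finset.card_union_of_disjoint, Finset.card_union_of_disjoint,
      card_out_darts p hp.isTrail, card_in_darts p hp.isTrail, hD'.bal]
    · have := count_darts p x
      omega
    · rw [Finset.disjoint_filter]
      rintro y - h ⟨d, hd, rfl, rfl⟩
      exact ((hadj' _ _).1 (hD'.adj _ _ h)).2 (hdart d hd)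
    · rw [Finset.disjoint_filter]
      rintro y - h ⟨d, hd, rfl, rfl⟩
      exact ((hadj' _ _).1 (hD'.adj _ _ h)).2 (hdart d hd)

/-- Hall's theorem applied to a balanced digraph with loops added. -/
theorem exists_perm (D : V → V → Prop)
    (bal : ∀ v, (Finset.univ.filter (fun u => D v u)).card =
      (Finset.univ.filter (fun u => D u v)).card) (k : ℕ)
    (hk : ∀ v, (Finset.univ.filter (fun u => D v u)).card ≤ k + 1) :
    ∃ σ : Equiv.Perm V, ∀ v, D v (σ v) ∨
      (σ v = v ∧ (Finset.univ.filter (fun u => D v u)).card ≤ k) := by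
  let out : V → ℕ := fun v => (Finset.univ.filter (fun u => D v u)).card
  let t : V → Finset V := fun v => Finset.univ.filter (fun u => D v u ∨ (u = v ∧ out v ≤ k))
  let w : V → V → ℕ := fun v u => (if D v u then 1 else 0) + (if u = v then (k + 1 - out v) else 0)
  have hrow : ∀ v, ∑ u, w v u = k + 1 := by
    intro v
    simp only [w]
    rw [Finset.sum_add_distrib, ← Finset.card_filter, Finset.sum_ite_eq' Finset.univ v,
      if_pos (Finset.mem_univ _)]
    have := hk v
    change out v + (k + 1 - out v) = k + 1
    have h2 : out v ≤ k + 1 := this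
    omega
  have hcol : ∀ u, ∑ v, w v u = k + 1 := by
    intro u
    simp only [w]
    rw [Finset.sum_add_distrib, ← Finset.card_filter, Finset.sum_ite_eq Finset.univ u,
      if_pos (Finset.mem_univ _), ← bal]
    have := hk u
    change out u + (k + 1 - out u) = k + 1
    have h2 : out u ≤ k + 1 := this
    omega
  have hw : ∀ v u, u ∉ t v → w v u = 0 := by
    intro v u hu
    simp only [t, Finset.mem_filter, Finset.mem_univ, true_and, not_or, not_and, not_le] at hu
    simp only [w]
    rw [if_neg hu.1]
    by_cases h : u = v
    · have := hu.2 h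
      rw [if_pos h]
      omega
    · rw [if_neg h]
  have hall : ∀ S : Finset V, S.card ≤ (S.biUnion t).card := by
    intro S
    have h1 : S.card * (k + 1) ≤ (S.biUnion t).card * (k + 1) := by
      calc S.card * (k + 1) = ∑ v ∈ S, ∑ u, w v u := by
            rw [Finset.sum_congr rfl (fun v _ => hrow v), Finset.sum_const, smul_eq_mul]
        _ = ∑ v ∈ S, ∑ u ∈ S.biUnion t, w v u := by
            refine Finset.sum_congr rfl fun v hv => ?_
            symm
            refine Finset.sum_subset (Finset.subset_univ _) ?_
            intro u _ hu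
            apply hw
            intro h
            exact hu (Finset.mem_biUnion.2 ⟨v, hv, h⟩)
        _ = ∑ u ∈ S.biUnion t, ∑ v ∈ S, w v u := Finset.sum_comm
        _ ≤ ∑ u ∈ S.biUnion t, ∑ v, w v u := by
            refine Finset.sum_le_sum fun u _ => ?_
            exact Finset.sum_le_sum_of_subset (Finset.subset_univ _)
        _ = (S.biUnion t).card * (k + 1) := by
            rw [Finset.sum_congr rfl (fun u _ => hcol u), Finset.sum_const, smul_eq_mul]
    exact Nat.le_of_mul_le_mul_right h1 (Nat.succ_pos k)
  obtain ⟨f, hf, hft⟩ := (Finset.all_card_le_biUnion_card_iff_exists_injective t).1 hall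
  refine ⟨Equiv.ofBijective f (Finite.injective_iff_bijective.1 hf), fun v => ?_⟩
  have := (Finset.mem_filter.1 (hft v)).2
  exact this

/-- A balanced digraph without opposite edges and with out-degrees at most `k` splits into `k`
subgraphs with all degrees `0` or `2`. -/
theorem decomp (k : ℕ) : ∀ D : V → V → Prop, (∀ u v, D u v → ¬ D v u) →
    (∀ v, (Finset.univ.filter (fun u => D v u)).card =
      (Finset.univ.filter (fun u => D u v)).card) →
    (∀ v, (Finset.univ.filter (fun u => D v u)).card ≤ k) →
    ∃ P : Fin k → SimpleGraph V, (∀ i v, (P i).degree v = 0 ∨ (P i).degree v = 2) ∧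
      (∀ i u v, (P i).Adj u v → D u v ∨ D v u) ∧ (∀ u v, D u v → ∃! i, (P i).Adj u v) := by
  induction k with
  | zero =>
    intro D _ _ hout
    refine ⟨fun i => i.elim0, fun i => i.elim0, fun i => i.elim0, fun u v huv => ?_⟩
    exfalso
    have := hout u
    rw [Nat.le_zero, Finset.card_eq_zero] at this
    have h2 : v ∈ Finset.univ.filter (fun w => D u w) :=
      Finset.mem_filter.2 ⟨Finset.mem_univ _, huv⟩
    rw [this] at h2
    exact absurd h2 (Finset.notMem_empty _)
  | succ k ih =>
    intro D hasymm bal hout
    obtain ⟨σ, hσ⟩ := exists_perm D bal k hout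
    have hσD : ∀ v, σ v ≠ v → D v (σ v) := by
      intro v hv
      rcases hσ v with h | h
      · exact h
      · exact absurd h.1 hv
    have hirr : ∀ v, ¬ D v v := fun v h => hasymm v v h h
    obtain ⟨D', hD'⟩ : ∃ D' : V → V → Prop, ∀ u v, D' u v ↔ (D u v ∧ σ u ≠ v) :=
      ⟨fun u v => D u v ∧ σ u ≠ v, fun _ _ => Iff.rfl⟩
    have hout' : ∀ v, (Finset.univ.filter (fun u => D' v u)).card + (if σ v = v then 0 else 1) =
        (Finset.univ.filter (fun u => D v u)).card := by
      intro v
      have h1 : (Finset.univ.filter (fun u => D' v u)) =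
          (Finset.univ.filter (fun u => D v u)).erase (σ v) := by
        ext u
        simp only [Finset.mem_filter, Finset.mem_univ, true_and, hD', Finset.mem_erase]
        constructor
        · rintro ⟨h1, h2⟩; exact ⟨h2.symm, h1⟩
        · rintro ⟨h1, h2⟩; exact ⟨h2, h1.symm⟩
      rw [h1]
      split_ifs with h
      · rw [h, Finset.erase_eq_of_notMem]
        · rfl
        · simp [hirr]
      · rw [Finset.card_erase_of_mem (by simp [hσD v h])]
        have : 0 < (Finset.univ.filter (fun u => D v u)).card :=
          Finset.card_pos.2 ⟨σ v, by simp [hσD v h]⟩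
        omega
    have hin' : ∀ v, (Finset.univ.filter (fun u => D' u v)).card + (if σ v = v then 0 else 1) =
        (Finset.univ.filter (fun u => D u v)).card := by
      intro v
      have h1 : (Finset.univ.filter (fun u => D' u v)) =
          (Finset.univ.filter (fun u => D u v)).erase (σ.symm v) := by
        ext u
        simp only [Finset.mem_filter, Finset.mem_univ, true_and, hD', Finset.mem_erase]
        constructor
        · rintro ⟨h1, h2⟩
          refine ⟨fun h3 => h2 ?_, h1⟩
          rw [h3]; simp
        · rintro ⟨h1, h2⟩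
          refine ⟨h2, fun h3 => h1 ?_⟩
          rw [← h3]; simp
      rw [h1]
      have hiff : σ v = v ↔ σ.symm v = v := by
        rw [Equiv.symm_apply_eq]
        exact eq_comm
      split_ifs with h
      · rw [hiff.1 h, Finset.erase_eq_of_notMem]
        · rfl
        · simp [hirr]
      · have h2 : D (σ.symm v) v := by
          have h3 : σ (σ.symm v) ≠ σ.symm v := by
            rw [Equiv.apply_symm_apply]
            exact fun h4 => h (hiff.2 h4.symm)
          have := hσD _ h3
          rwa [Equiv.apply_symm_apply] at this
        rw [Finset.card_erase_of_mem (by simp [h2])]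
        have : 0 < (Finset.univ.filter (fun u => D u v)).card :=
          Finset.card_pos.2 ⟨σ.symm v, by simp [h2]⟩
        omega
    have bal' : ∀ v, (Finset.univ.filter (fun u => D' v u)).card =
        (Finset.univ.filter (fun u => D' u v)).card := by
      intro v
      have h1 := hout' v
      have h2 := hin' v
      have h3 := bal v
      omega
    have hle' : ∀ v, (Finset.univ.filter (fun u => D' v u)).card ≤ k := by
      intro v
      have h1 := hout' v
      have h2 := hout v
      by_cases h : σ v = v
      · rcases hσ v with h3 | h3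
        · rw [h] at h3
          exact absurd h3 (hirr v)
        · have := h3.2
          omega
      · rw [if_neg h] at h1
        omega
    obtain ⟨P, hP1, hP2, hP3⟩ := ih D' (fun u v h h' => hasymm u v ((hD' u v).1 h).1
      ((hD' v u).1 h').1) bal' hle'
    obtain ⟨P0, hP0⟩ : ∃ P0 : SimpleGraph V, ∀ u v, P0.Adj u v ↔ (u ≠ v ∧ (σ u = v ∨ σ v = u)) :=
      ⟨{ Adj := fun u v => u ≠ v ∧ (σ u = v ∨ σ v = u)
         symm := ⟨fun u v h => ⟨h.1.symm, h.2.symm⟩⟩
         loopless := ⟨fun u h => h.1 rfl⟩ }, fun _ _ => Iff.rfl⟩
    refine ⟨Fin.cons P0 P, ?_, ?_, ?_⟩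
    · intro i v
      refine Fin.cases ?_ (fun j => ?_) i
      · rw [Fin.cons_zero, ← SimpleGraph.card_neighborFinset_eq_degree]
        by_cases h : σ v = v
        · left
          rw [Finset.card_eq_zero]
          ext w
          simp only [SimpleGraph.mem_neighborFinset, hP0, Finset.notMem_empty, iff_false, not_and,
            not_or]
          intro hvw
          refine ⟨fun h2 => hvw (h ▸ h2), fun h2 => hvw ?_⟩
          exact (σ.injective (h2.trans h.symm)).symm
        · right
          have h1 : P0.neighborFinset v = {σ v, σ.symm v} := by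
            ext w
            simp only [SimpleGraph.mem_neighborFinset, hP0, Finset.mem_insert,
              Finset.mem_singleton]
            constructor
            · rintro ⟨-, h2 | h2⟩
              · exact Or.inl h2.symm
              · right
                rw [← h2]; simp
            · rintro (rfl | rfl)
              · exact ⟨Ne.symm h, Or.inl rfl⟩
              · refine ⟨fun h2 => h ?_, Or.inr (by simp)⟩
                rw [Equiv.eq_symm_apply] at h2
                exact h2
          rw [h1, Finset.card_pair]
          intro h2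
          have h3 : σ (σ v) = v := by
            rw [h2]; simp
          have h4 : σ (σ v) ≠ σ v := fun h5 => h (σ.injective h5)
          have h5 := hσD v h
          have h6 := hσD (σ v) h4
          rw [h3] at h6
          exact hasymm _ _ h5 h6
      · rw [Fin.cons_succ]
        exact hP1 j v
    · intro i u v
      refine Fin.cases ?_ (fun j => ?_) i
      · rw [Fin.cons_zero, hP0]
        rintro ⟨h1, rfl | rfl⟩
        · exact Or.inl (hσD u h1.symm)
        · exact Or.inr (hσD v h1)
      · rw [Fin.cons_succ]
        intro h
        rcases hP2 j u v h with h1 | h1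
        · exact Or.inl ((hD' _ _).1 h1).1
        · exact Or.inr ((hD' _ _).1 h1).1
    · intro u v huv
      have huv' : u ≠ v := fun h => hirr u (h ▸ huv)
      by_cases h : σ u = v
      · refine ⟨0, ?_, ?_⟩
        · simp only [Fin.cons_zero, hP0]
          exact ⟨huv', Or.inl h⟩
        · intro i
          refine Fin.cases ?_ (fun j => ?_) i
          · intro _; rfl
          · simp only [Fin.cons_succ]
            intro h1
            exfalso
            rcases hP2 j u v h1 with h2 | h2
            · exact ((hD' _ _).1 h2).2 h
            · exact hasymm _ _ huv ((hD' _ _).1 h2).1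
      · obtain ⟨j, hj, hj'⟩ := hP3 u v ((hD' u v).2 ⟨huv, h⟩)
        refine ⟨j.succ, by simpa only [Fin.cons_succ] using hj, ?_⟩
        intro i
        refine Fin.cases ?_ (fun l => ?_) i
        · simp only [Fin.cons_zero, hP0]
          rintro ⟨h1, h2 | h2⟩
          · exact absurd h2 h
          · exfalso
            have := hσD v (by rw [h2]; exact h1)
            rw [h2] at this
            exact hasymm _ _ huv this
        · simp only [Fin.cons_succ]
          intro h1
          rw [hj' l h1]

/-- **Petersen**: an even graph of maximum degree at most `2k` splits into `k` subgraphs all of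
whose degrees are `0` or `2`. -/
theorem even_decomp (H : SimpleGraph V) (k : ℕ) (hH : ∀ v, Even (H.degree v))
    (hk : ∀ v, H.degree v ≤ 2 * k) :
    ∃ P : Fin k → SimpleGraph V, (∀ i v, (P i).degree v = 0 ∨ (P i).degree v = 2) ∧
      (∀ i, P i ≤ H) ∧ (∀ u v, H.Adj u v → ∃! i, (P i).Adj u v) := by
  obtain ⟨D, hD⟩ := exists_balanced H hH
  have hdeg : ∀ v, (Finset.univ.filter (fun u => D v u)).card ≤ k := by
    intro v
    have h1 : H.neighborFinset v = (Finset.univ.filter (fun u => D v u)) ∪
        (Finset.univ.filter (fun u => D u v)) := by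
      ext u
      simp only [SimpleGraph.mem_neighborFinset, Finset.mem_union, Finset.mem_filter,
        Finset.mem_univ, true_and]
      constructor
      · exact hD.cover v u
      · rintro (h | h)
        · exact hD.adj _ _ h
        · exact (hD.adj _ _ h).symm
    have h2 : H.degree v = (Finset.univ.filter (fun u => D v u)).card +
        (Finset.univ.filter (fun u => D u v)).card := by
      rw [← SimpleGraph.card_neighborFinset_eq_degree, h1, Finset.card_union_of_disjoint]
      rw [Finset.disjoint_filter]
      exact fun u _ h => hD.asymm _ _ h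
    have h3 := hk v
    have h4 := hD.bal v
    omega
  obtain ⟨P, h1, h2, h3⟩ := decomp k D hD.asymm hD.bal hdeg
  refine ⟨P, h1, ?_, ?_⟩
  · intro i u v huv
    rcases h2 i u v huv with h | h
    · exact hD.adj _ _ h
    · exact (hD.adj _ _ h).symm
  · intro u v huv
    rcases hD.cover u v huv with h | h
    · exact h3 u v h
    · obtain ⟨i, hi, hi'⟩ := h3 v u h
      exact ⟨i, hi.symm, fun j hj => hi' j hj.symm⟩

end Pool.Agent.Lib.EvenDecomp
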