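import Mathlib

set_option autoImplicit false


namespace Pool.Agent.Lib.FTDCubic

open Finset

/-- If every nonempty subfamily of the hyperedges `N f`, `f ∈ F`, covers strictly more vertices than
it has members, then the hypergraph has a proper two-colouring (Lovász, Seymour). -/
theorem two_colour {V : Type} [Fintype V] [DecidableEq V] (N : V → Finset V) :
    ∀ (n : ℕ) (F : Finset V), F.card = n →
      (∀ F' ⊆ F, F'.Nonempty → F'.card < (F'.biUnion N).card) →
      ∃ c : V → Bool, ∀ f ∈ F, (∃ u ∈ N f, c u = true) ∧ (∃ u ∈ N f, c u = false) := by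
  intro n
  induction n using Nat.strong_induction_on with
  | _ n ih =>
    intro F hF hHall
    rcases F.eq_empty_or_nonempty with hE | hne
    · subst hE
      exact ⟨fun _ => true, by simp⟩
    · have hlt := hHall F (Finset.Subset.refl _) hne
      let M : Matrix ↥F ↥(F.biUnion N) ℝ := fun f v => if v.1 ∈ N f.1 then 1 else 0
      have hker : LinearMap.ker M.mulVecLin ≠ ⊥ := by
        apply LinearMap.ker_ne_bot_of_finrank_lt
        rw [Module.finrank_fintype_fun_eq_card, Module.finrank_fintype_fun_eq_card,
          Fintype.card_coe, Fintype.card_coe]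
        exact hlt
      obtain ⟨x, hx, hx0⟩ := Submodule.exists_mem_ne_zero_of_ne_bot hker
      have hMx : ∀ f : ↥F, ∑ v : ↥(F.biUnion N), (if v.1 ∈ N f.1 then (1:ℝ) else 0) * x v = 0 := by
        intro f
        have h1 : M.mulVec x = 0 := by simpa using hx
        have h2 := congrFun h1 f
        simpa [Matrix.mulVec, dotProduct, M] using h2
      let y : V → ℝ := fun v => if h : v ∈ F.biUnion N then x ⟨v, h⟩ else 0
      have hyx : ∀ v : ↥(F.biUnion N), y v.1 = x v := by
        intro v
        simp only [y]
        rw [dif_pos v.2]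
      have hsum : ∀ f ∈ F, ∑ v ∈ N f, y v = 0 := by
        intro f hf
        have h1 := hMx ⟨f, hf⟩
        have h2 : ∑ v : ↥(F.biUnion N), (if v.1 ∈ N f then (1:ℝ) else 0) * y v.1 = 0 := by
          refine Eq.trans (Finset.sum_congr rfl fun v _ => ?_) h1
          rw [hyx v]
        rw [Finset.sum_coe_sort (F.biUnion N) (fun v => (if v ∈ N f then (1:ℝ) else 0) * y v)] at h2
        rw [← h2]
        have h3 : N f = (F.biUnion N).filter (fun v => v ∈ N f) := by
          ext v
          simp only [Finset.mem_filter, Finset.mem_biUnion]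
          exact ⟨fun h => ⟨⟨f, hf, h⟩, h⟩, fun h => h.2⟩
        conv_lhs => rw [h3]
        rw [Finset.sum_filter]
        refine Finset.sum_congr rfl fun v _ => ?_
        split_ifs <;> simp
      obtain ⟨v0, hv0⟩ : ∃ v : ↥(F.biUnion N), x v ≠ 0 := by
        by_contra hcon
        push Not at hcon
        exact hx0 (funext hcon)
      have hyv0 : y v0.1 ≠ 0 := by rw [hyx]; exact hv0
      -- the edges avoiding the support of `y`
      let Z : Finset V := F.filter (fun f => ∀ v ∈ N f, y v = 0)
      have hZF : Z ⊆ F := Finset.filter_subset _ _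
      have hZlt : Z.card < n := by
        rw [← hF]
        apply Finset.card_lt_card
        refine ⟨hZF, fun hcon => ?_⟩
        obtain ⟨f, hf, hvf⟩ := Finset.mem_biUnion.mp v0.2
        have := (Finset.mem_filter.mp (hcon hf)).2 v0.1 hvf
        exact hyv0 this
      obtain ⟨c, hc⟩ := ih Z.card hZlt Z rfl (fun F' hF' => hHall F' (hF'.trans hZF))
      refine ⟨fun v => if 0 < y v then true else if y v < 0 then false else c v, ?_⟩
      intro f hf
      by_cases hfZ : f ∈ Z
      · have h0 := (Finset.mem_filter.mp hfZ).2
        obtain ⟨⟨u, hu, hcu⟩, ⟨u', hu', hcu'⟩⟩ := hc f hfZ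
        refine ⟨⟨u, hu, ?_⟩, ⟨u', hu', ?_⟩⟩
        · simp [h0 u hu, hcu]
        · simp [h0 u' hu', hcu']
      · have hex : ∃ v ∈ N f, y v ≠ 0 := by
          by_contra hcon
          push Not at hcon
          exact hfZ (Finset.mem_filter.mpr ⟨hf, hcon⟩)
        have hs := hsum f hf
        obtain ⟨v, hv, hvne⟩ := hex
        constructor
        · obtain ⟨u, hu, hu2⟩ : ∃ u ∈ N f, 0 < y u :=
            Finset.exists_pos_of_sum_zero_of_exists_nonzero y hs ⟨v, hv, hvne⟩
          exact ⟨u, hu, by simp [hu2]⟩
        · obtain ⟨u, hu, hu2⟩ : ∃ u ∈ N f, 0 < - y u := by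
            apply Finset.exists_pos_of_sum_zero_of_exists_nonzero (fun u => - y u)
            · simp [hs]
            · exact ⟨v, hv, by simpa using hvne⟩
          have hneg : y u < 0 := by linarith
          refine ⟨u, hu, ?_⟩
          simp [hneg, not_lt.mpr hneg.le]

/-- In a three-element set coloured with two colours there is a point `m` such that every other point
has a partner of its own colour. -/
theorem exists_minority {V : Type} [DecidableEq V] (s : Finset V) (hs : s.card = 3) (c : V → Bool) :
    ∃ m : V, ∀ v ∈ s, v ≠ m → ∃ u ∈ s, u ≠ v ∧ c u = c v := by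
  obtain ⟨x, y, z, hxy, hxz, hyz, rfl⟩ := Finset.card_eq_three.mp hs
  by_cases h1 : c x = c y
  · refine ⟨z, ?_⟩
    intro v hv hvz
    simp only [Finset.mem_insert, Finset.mem_singleton] at hv
    rcases hv with rfl | rfl | rfl
    · exact ⟨y, by simp, hxy.symm, h1.symm⟩
    · exact ⟨x, by simp, hxy, h1⟩
    · exact absurd rfl hvz
  · by_cases h2 : c x = c z
    · refine ⟨y, ?_⟩
      intro v hv hvz
      simp only [Finset.mem_insert, Finset.mem_singleton] at hv
      rcases hv with rfl | rfl | rfl
      · exact ⟨z, by simp, hxz.symm, h2.symm⟩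
      · exact absurd rfl hvz
      · exact ⟨x, by simp, hxz, h2⟩
    · have h3 : c y = c z := by
        revert h1 h2
        cases c x <;> cases c y <;> cases c z <;> simp
      refine ⟨x, ?_⟩
      intro v hv hvz
      simp only [Finset.mem_insert, Finset.mem_singleton] at hv
      rcases hv with rfl | rfl | rfl
      · exact absurd rfl hvz
      · exact ⟨z, by simp, hyz.symm, h3.symm⟩
      · exact ⟨y, by simp, hyz, h3⟩

/-- Weighted bound: in a closed piece of a symmetric 3-uniform 3-regular hypergraph there is a
transversal of at most half the total weight. -/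
theorem exists_light {V : Type} [Fintype V] [DecidableEq V] (N : V → Finset V)
    (hsymm : ∀ a b, a ∈ N b → b ∈ N a) (hcard : ∀ v, (N v).card = 3)
    (w : V → ℝ) :
    ∀ (n : ℕ) (A F : Finset V), A.card = n →
      (∀ a ∈ A, N a ⊆ F) → (∀ f ∈ F, N f ⊆ A) →
      ∃ T ⊆ A, (∀ f ∈ F, ∃ u ∈ N f, u ∈ T) ∧ 2 * ∑ v ∈ T, w v ≤ ∑ v ∈ A, w v := by
  have hne3 : ∀ v, (N v).Nonempty := fun v => by
    rw [← Finset.card_pos, hcard v]; norm_num
  intro n
  induction n using Nat.strong_induction_on with
  | _ n ih =>
    intro A F hAn hAF hFA
    rcases A.eq_empty_or_nonempty with hE | hAne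
    · subst hE
      refine ⟨∅, Finset.Subset.refl _, ?_, by simp⟩
      intro f hf
      obtain ⟨a, ha⟩ := hne3 f
      exact absurd (hFA f hf ha) (by simp)
    · obtain ⟨u0, hu0A, hu0min⟩ := Finset.exists_min_image A w hAne
      obtain ⟨e, he⟩ := hne3 u0
      have heF : e ∈ F := hAF u0 hu0A he
      have hu0e : u0 ∈ N e := hsymm _ _ he
      by_cases hdec : ∃ A' F' : Finset V, A' ⊂ A ∧ A'.Nonempty ∧
          (∀ a ∈ A', N a ⊆ F') ∧ (∀ f ∈ F', N f ⊆ A')
      · obtain ⟨A', F', hA'A, hA'ne, hc1, hc2⟩ := hdec
        have hlt1 : A'.card < n := by rw [← hAn]; exact Finset.card_lt_card hA'A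
        have hlt2 : (A \ A').card < n := by
          rw [← hAn]
          apply Finset.card_lt_card
          refine ⟨Finset.sdiff_subset, fun hcon => ?_⟩
          obtain ⟨a, ha⟩ := hA'ne
          have := hcon (hA'A.1 ha)
          exact (Finset.mem_sdiff.mp this).2 ha
        obtain ⟨T1, hT1, hT1h, hT1w⟩ := ih _ hlt1 A' F' rfl hc1 hc2
        obtain ⟨T2, hT2, hT2h, hT2w⟩ := ih _ hlt2 (A \ A') (F \ F') rfl
          (by
            intro a ha f hf
            rw [Finset.mem_sdiff] at ha ⊢
            refine ⟨hAF a ha.1 hf, fun hfF' => ha.2 ?_⟩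
            exact hc2 f hfF' (hsymm _ _ hf))
          (by
            intro f hf a ha
            rw [Finset.mem_sdiff] at hf ⊢
            refine ⟨hFA f hf.1 ha, fun haA' => hf.2 ?_⟩
            exact hc1 a haA' (hsymm _ _ ha))
        have hdisj : Disjoint T1 T2 := by
          rw [Finset.disjoint_left]
          intro a h1 h2
          exact (Finset.mem_sdiff.mp (hT2 h2)).2 (hT1 h1)
        refine ⟨T1 ∪ T2, ?_, ?_, ?_⟩
        · apply Finset.union_subset (hT1.trans hA'A.1) (hT2.trans Finset.sdiff_subset)
        · intro f hf
          by_cases hfF' : f ∈ F'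
          · obtain ⟨u, hu, huT⟩ := hT1h f hfF'
            exact ⟨u, hu, Finset.mem_union_left _ huT⟩
          · obtain ⟨u, hu, huT⟩ := hT2h f (Finset.mem_sdiff.mpr ⟨hf, hfF'⟩)
            exact ⟨u, hu, Finset.mem_union_right _ huT⟩
        · rw [Finset.sum_union hdisj]
          have := Finset.sum_sdiff (f := w) hA'A.1
          linarith
      · -- indecomposable case
        have hHall : ∀ F1 ⊆ F.erase e, F1.Nonempty → F1.card < (F1.biUnion N).card := by
          intro F1 hF1 hF1ne
          by_contra hcon
          push Not at hcon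
          have hdc : ∑ f ∈ F1, (N f).card = ∑ a ∈ F1.biUnion N, (F1.filter (fun f => f ∈ N a)).card := by
            have h1 : ∀ f ∈ F1, (N f).card = ∑ a ∈ F1.biUnion N, (if a ∈ N f then 1 else 0) := by
              intro f hf
              rw [← Finset.sum_filter, Finset.sum_const, smul_eq_mul, mul_one]
              congr 1
              ext a
              simp only [Finset.mem_filter, Finset.mem_biUnion]
              exact ⟨fun h => ⟨⟨f, hf, h⟩, h⟩, fun h => h.2⟩
            rw [Finset.sum_congr rfl h1, Finset.sum_comm]
            refine Finset.sum_congr rfl fun a _ => ?_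
            rw [Finset.card_filter]
            refine Finset.sum_congr rfl fun f _ => ?_
            by_cases h : a ∈ N f
            · rw [if_pos h, if_pos (hsymm _ _ h)]
            · rw [if_neg h, if_neg (fun h' => h (hsymm _ _ h'))]
          have hL : ∑ f ∈ F1, (N f).card = 3 * F1.card := by
            rw [Finset.sum_congr rfl (fun f _ => hcard f), Finset.sum_const, smul_eq_mul, mul_comm]
          have hle : ∀ a ∈ F1.biUnion N, (F1.filter (fun f => f ∈ N a)).card ≤ 3 := by
            intro a _
            rw [← hcard a]
            apply Finset.card_le_card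
            intro f hf
            exact (Finset.mem_filter.mp hf).2
          have hR : ∑ a ∈ F1.biUnion N, (3 : ℕ) = 3 * (F1.biUnion N).card := by
            rw [Finset.sum_const, smul_eq_mul, mul_comm]
          have hle2 : ∑ a ∈ F1.biUnion N, (F1.filter (fun f => f ∈ N a)).card
              ≤ ∑ a ∈ F1.biUnion N, (3 : ℕ) := Finset.sum_le_sum hle
          have heq : ∑ a ∈ F1.biUnion N, (F1.filter (fun f => f ∈ N a)).card
              = ∑ a ∈ F1.biUnion N, (3 : ℕ) := by omega
          have heq' := (Finset.sum_eq_sum_iff_of_le hle).mp heq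
          have hclosed : ∀ a ∈ F1.biUnion N, N a ⊆ F1 := by
            intro a ha
            have h3 := heq' a ha
            have hsub : F1.filter (fun f => f ∈ N a) ⊆ N a := by
              intro f hf
              exact (Finset.mem_filter.mp hf).2
            have h4 : F1.filter (fun f => f ∈ N a) = N a :=
              Finset.eq_of_subset_of_card_le hsub (by rw [h3, hcard a])
            rw [← h4]
            exact Finset.filter_subset _ _
          apply hdec
          refine ⟨F1.biUnion N, F1, ⟨?_, ?_⟩, ?_, hclosed, ?_⟩
          · apply Finset.biUnion_subset.mpr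
            intro f hf
            exact hFA f (Finset.mem_of_mem_erase (hF1 hf))
          · intro hsub
            have : e ∈ F1 := hclosed u0 (hsub hu0A) he
            exact (Finset.notMem_erase e F) (hF1 this)
          · obtain ⟨f, hf⟩ := hF1ne
            obtain ⟨a, ha⟩ := hne3 f
            exact ⟨a, Finset.mem_biUnion.mpr ⟨f, hf, ha⟩⟩
          · intro f hf a ha
            exact Finset.mem_biUnion.mpr ⟨f, hf, ha⟩
        obtain ⟨c, hc⟩ := two_colour N _ (F.erase e) rfl hHall
        -- sets of one colour
        by_cases hbi : (∃ u ∈ N e, c u = true) ∧ (∃ u ∈ N e, c u = false)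
        · have hall : ∀ f ∈ F, (∃ u ∈ N f, c u = true) ∧ (∃ u ∈ N f, c u = false) := by
            intro f hf
            by_cases hfe : f = e
            · rw [hfe]; exact hbi
            · exact hc f (Finset.mem_erase.mpr ⟨hfe, hf⟩)
          have hsplit := Finset.sum_filter_add_sum_filter_not A (fun v => c v = true) w
          by_cases hw : 2 * ∑ v ∈ A.filter (fun v => c v = true), w v ≤ ∑ v ∈ A, w v
          · refine ⟨A.filter (fun v => c v = true), Finset.filter_subset _ _, ?_, hw⟩
            intro f hf
            obtain ⟨u, hu, hcu⟩ := (hall f hf).1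
            exact ⟨u, hu, Finset.mem_filter.mpr ⟨hFA f hf hu, hcu⟩⟩
          · refine ⟨A.filter (fun v => ¬ c v = true), Finset.filter_subset _ _, ?_, by linarith⟩
            intro f hf
            obtain ⟨u, hu, hcu⟩ := (hall f hf).2
            exact ⟨u, hu, Finset.mem_filter.mpr ⟨hFA f hf hu, by simp [hcu]⟩⟩
        · -- `e` is monochromatic of colour `b`
          obtain ⟨b, hb⟩ : ∃ b : Bool, ∀ u ∈ N e, c u = b := by
            by_cases h1 : ∃ u ∈ N e, c u = true
            · refine ⟨true, fun u hu => ?_⟩
              by_contra h2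
              exact hbi ⟨h1, u, hu, by simpa using h2⟩
            · refine ⟨false, fun u hu => ?_⟩
              by_contra h2
              exact h1 ⟨u, hu, by simpa using h2⟩
          have hcb : ∀ f ∈ F.erase e, (∃ u ∈ N f, c u = b) ∧ (∃ u ∈ N f, ¬ c u = b) := by
            intro f hf
            obtain ⟨⟨u, hu, hcu⟩, ⟨u', hu', hcu'⟩⟩ := hc f hf
            cases b
            · exact ⟨⟨u', hu', hcu'⟩, ⟨u, hu, by simp [hcu]⟩⟩
            · exact ⟨⟨u, hu, hcu⟩, ⟨u', hu', by simp [hcu']⟩⟩
          choose m hm using fun f => exists_minority (N f) (hcard f) c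
          obtain ⟨v, hvA, hvm⟩ : ∃ v ∈ A, v ∉ (F.erase e).image m := by
            apply Finset.exists_mem_notMem_of_card_lt_card
            refine lt_of_le_of_lt Finset.card_image_le ?_
            rcases (F.erase e).eq_empty_or_nonempty with h | h
            · rw [h, Finset.card_empty]; exact Finset.card_pos.mpr hAne
            · refine lt_of_lt_of_le (hHall _ (Finset.Subset.refl _) h) (Finset.card_le_card ?_)
              apply Finset.biUnion_subset.mpr
              intro f hf
              exact hFA f (Finset.mem_of_mem_erase hf)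
          have hpart : ∀ f ∈ F.erase e, v ∈ N f → ∃ u ∈ N f, u ≠ v ∧ c u = c v := by
            intro f hf hvf
            apply hm f v hvf
            intro h
            exact hvm (Finset.mem_image.mpr ⟨f, hf, h.symm⟩)
          have hsplit := Finset.sum_filter_add_sum_filter_not A (fun v => c v = b) w
          have hu0v := hu0min v hvA
          have hcu0 : c u0 = b := hb u0 hu0e
          by_cases hcv : c v = b
          · -- remove `v` from the colour class of `b`, or add `u0` to the other one
            have hvR : v ∈ A.filter (fun v => c v = b) := Finset.mem_filter.mpr ⟨hvA, hcv⟩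
            have hu0B : u0 ∉ A.filter (fun v => ¬ c v = b) := by
              intro h
              exact (Finset.mem_filter.mp h).2 hcu0
            have hs1 : ∑ x ∈ (A.filter (fun v => c v = b)).erase v, w x + w v
                = ∑ x ∈ A.filter (fun v => c v = b), w x := Finset.sum_erase_add _ _ hvR
            have hs2 : ∑ x ∈ insert u0 (A.filter (fun v => ¬ c v = b)), w x
                = w u0 + ∑ x ∈ A.filter (fun v => ¬ c v = b), w x := Finset.sum_insert hu0B
            by_cases hw : 2 * ∑ x ∈ (A.filter (fun v => c v = b)).erase v, w x ≤ ∑ v ∈ A, w v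
            · refine ⟨(A.filter (fun v => c v = b)).erase v,
                (Finset.erase_subset _ _).trans (Finset.filter_subset _ _), ?_, hw⟩
              intro f hf
              by_cases hfe : f = e
              · subst hfe
                obtain ⟨u, hu, huv⟩ : ∃ u ∈ N f, u ≠ v := by
                  apply Finset.exists_mem_ne
                  rw [hcard f]; norm_num
                exact ⟨u, hu, Finset.mem_erase.mpr
                  ⟨huv, Finset.mem_filter.mpr ⟨hFA f hf hu, hb u hu⟩⟩⟩
              · have hfe' : f ∈ F.erase e := Finset.mem_erase.mpr ⟨hfe, hf⟩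
                by_cases hvf : v ∈ N f
                · obtain ⟨u, hu, huv, hcu⟩ := hpart f hfe' hvf
                  exact ⟨u, hu, Finset.mem_erase.mpr
                    ⟨huv, Finset.mem_filter.mpr ⟨hFA f hf hu, hcu.trans hcv⟩⟩⟩
                · obtain ⟨u, hu, hcu⟩ := (hcb f hfe').1
                  refine ⟨u, hu, Finset.mem_erase.mpr
                    ⟨?_, Finset.mem_filter.mpr ⟨hFA f hf hu, hcu⟩⟩⟩
                  rintro rfl
                  exact hvf hu
            · refine ⟨insert u0 (A.filter (fun v => ¬ c v = b)), ?_, ?_, by linarith⟩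
              · apply Finset.insert_subset hu0A (Finset.filter_subset _ _)
              · intro f hf
                by_cases hfe : f = e
                · subst hfe
                  exact ⟨u0, hu0e, Finset.mem_insert_self _ _⟩
                · have hfe' : f ∈ F.erase e := Finset.mem_erase.mpr ⟨hfe, hf⟩
                  obtain ⟨u, hu, hcu⟩ := (hcb f hfe').2
                  exact ⟨u, hu, Finset.mem_insert_of_mem
                    (Finset.mem_filter.mpr ⟨hFA f hf hu, hcu⟩)⟩
          · -- the colour class of `b`, or the other class with `v` removed and `u0` added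
            have hvB : v ∈ A.filter (fun v => ¬ c v = b) := Finset.mem_filter.mpr ⟨hvA, hcv⟩
            have hu0B : u0 ∉ (A.filter (fun v => ¬ c v = b)).erase v := by
              intro h
              exact (Finset.mem_filter.mp (Finset.mem_of_mem_erase h)).2 hcu0
            have hs1 : ∑ x ∈ (A.filter (fun v => ¬ c v = b)).erase v, w x + w v
                = ∑ x ∈ A.filter (fun v => ¬ c v = b), w x := Finset.sum_erase_add _ _ hvB
            have hs2 : ∑ x ∈ insert u0 ((A.filter (fun v => ¬ c v = b)).erase v), w x
                = w u0 + ∑ x ∈ (A.filter (fun v => ¬ c v = b)).erase v, w x :=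
              Finset.sum_insert hu0B
            by_cases hw : 2 * ∑ x ∈ A.filter (fun v => c v = b), w x ≤ ∑ v ∈ A, w v
            · refine ⟨A.filter (fun v => c v = b), Finset.filter_subset _ _, ?_, hw⟩
              intro f hf
              by_cases hfe : f = e
              · subst hfe
                exact ⟨u0, hu0e, Finset.mem_filter.mpr ⟨hu0A, hcu0⟩⟩
              · have hfe' : f ∈ F.erase e := Finset.mem_erase.mpr ⟨hfe, hf⟩
                obtain ⟨u, hu, hcu⟩ := (hcb f hfe').1
                exact ⟨u, hu, Finset.mem_filter.mpr ⟨hFA f hf hu, hcu⟩⟩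
            · refine ⟨insert u0 ((A.filter (fun v => ¬ c v = b)).erase v), ?_, ?_, by linarith⟩
              · apply Finset.insert_subset hu0A
                exact (Finset.erase_subset _ _).trans (Finset.filter_subset _ _)
              · intro f hf
                by_cases hfe : f = e
                · subst hfe
                  exact ⟨u0, hu0e, Finset.mem_insert_self _ _⟩
                · have hfe' : f ∈ F.erase e := Finset.mem_erase.mpr ⟨hfe, hf⟩
                  by_cases hvf : v ∈ N f
                  · obtain ⟨u, hu, huv, hcu⟩ := hpart f hfe' hvf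
                    refine ⟨u, hu, Finset.mem_insert_of_mem (Finset.mem_erase.mpr
                      ⟨huv, Finset.mem_filter.mpr ⟨hFA f hf hu, ?_⟩⟩)⟩
                    rw [hcu]; exact hcv
                  · obtain ⟨u, hu, hcu⟩ := (hcb f hfe').2
                    refine ⟨u, hu, Finset.mem_insert_of_mem (Finset.mem_erase.mpr
                      ⟨?_, Finset.mem_filter.mpr ⟨hFA f hf hu, hcu⟩⟩)⟩
                    rintro rfl
                    exact hvf hu

/-- Linear programming duality step: if every weighting has a set of the family of at most half the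
total weight, then some probability distribution on the family covers every point with probability
at most one half. -/
theorem duality {V : Type} [Fintype V] [DecidableEq V] (P : Finset V → Prop)
    (h : ∀ w : V → ℝ, (∀ v, 0 ≤ w v) → ∃ T : Finset V, P T ∧ 2 * ∑ v ∈ T, w v ≤ ∑ v, w v) :
    ∃ p : Finset V → ℝ, (∀ S, 0 ≤ p S) ∧ (∀ S, p S ≠ 0 → P S) ∧
      (∀ v : V, ∑ S ∈ Finset.univ.filter (fun S : Finset V => v ∈ S), p S ≤ 1) ∧
      2 ≤ ∑ S, p S := by
  classical
  let M : (Finset V → ℝ) →ₗ[ℝ] (V → ℝ) :=
    { toFun := fun p v => ∑ S ∈ Finset.univ.filter (fun S : Finset V => v ∈ S), p S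
      map_add' := by
        intro p q
        funext v
        simp [Finset.sum_add_distrib]
      map_smul' := by
        intro r p
        funext v
        simp [Finset.mul_sum] }
  have hMcont : Continuous M := M.continuous_of_finiteDimensional
  let D : Set (Finset V → ℝ) := stdSimplex ℝ (Finset V) ∩ {p | ∀ S, ¬ P S → p S = 0}
  have hDconv : Convex ℝ D := by
    apply (convex_stdSimplex ℝ (Finset V)).inter
    intro p hp q hq a b _ _ _ S hS
    simp [hp S hS, hq S hS]
  have hDcomp : IsCompact D := by
    apply (isCompact_stdSimplex ℝ (Finset V)).inter_right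
    have : {p : Finset V → ℝ | ∀ S, ¬ P S → p S = 0} = ⋂ S, ⋂ (_ : ¬ P S), {p | p S = 0} := by
      ext p; simp
    rw [this]
    apply isClosed_iInter
    intro S
    apply isClosed_iInter
    intro _
    exact isClosed_eq (continuous_apply S) continuous_const
  have hKconv : Convex ℝ (M '' D) := hDconv.linear_image M
  have hKcomp : IsCompact (M '' D) := hDcomp.image hMcont
  let L : Set (V → ℝ) := Set.Iic (fun _ => (1/2 : ℝ))
  by_cases hdisj : Disjoint (M '' D) L
  · exfalso
    obtain ⟨f, u, v, hf1, huv, hf2⟩ :=
      geometric_hahn_banach_compact_closed hKconv hKcomp (convex_Iic _) isClosed_Iic hdisj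
    have hhalf : v < f (fun _ => (1/2 : ℝ)) := hf2 _ (by simp)
    have hw : ∀ i, 0 ≤ - f (Pi.single i (1:ℝ)) := by
      intro i
      by_contra hcon
      push Not at hcon
      have hpos : 0 < f (Pi.single i (1:ℝ)) := by linarith
      have hmem : (fun _ => (1/2 : ℝ)) -
          ((f (fun _ => (1/2 : ℝ)) - v) / f (Pi.single i (1:ℝ))) • (Pi.single i (1:ℝ) : V → ℝ) ∈ L := by
        simp only [L, Set.mem_Iic]
        intro j
        simp only [Pi.sub_apply, Pi.smul_apply, smul_eq_mul]
        have h1 : 0 ≤ (f (fun _ => (1/2 : ℝ)) - v) / f (Pi.single i (1:ℝ)) :=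
          div_nonneg (by linarith) hpos.le
        have h2 : 0 ≤ (Pi.single i (1:ℝ) : V → ℝ) j := by
          by_cases hij : j = i
          · subst hij; simp
          · simp [hij]
        have := mul_nonneg h1 h2
        linarith
      have h3 := hf2 _ hmem
      rw [map_sub, map_smul, smul_eq_mul, div_mul_cancel₀ _ hpos.ne'] at h3
      linarith
    obtain ⟨T, hPT, hT⟩ := h (fun i => - f (Pi.single i (1:ℝ))) hw
    have hfx : ∀ x : V → ℝ, f x = ∑ i, x i * f (Pi.single i (1:ℝ)) := by
      intro x
      conv_lhs => rw [pi_eq_sum_univ' x]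
      rw [map_sum]
      refine Finset.sum_congr rfl fun i _ => ?_
      rw [map_smul, smul_eq_mul]
    have hTmem : M (Pi.single T 1) ∈ M '' D := by
      refine ⟨Pi.single T 1, ⟨?_, ?_⟩, rfl⟩
      · exact single_mem_stdSimplex ℝ T
      · intro S hS
        have : S ≠ T := by rintro rfl; exact hS hPT
        simp [this]
    have h4 := hf1 _ hTmem
    have h5 : f (M (Pi.single T 1)) = ∑ i ∈ T, f (Pi.single i (1:ℝ)) := by
      rw [hfx]
      have h6 : ∀ i, (M (Pi.single T 1)) i = if i ∈ T then (1:ℝ) else 0 := by
        intro i
        show ∑ S ∈ Finset.univ.filter (fun S : Finset V => i ∈ S), (Pi.single T (1:ℝ) : Finset V → ℝ) S = _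
        rw [Finset.sum_filter]
        by_cases hi : i ∈ T
        · rw [if_pos hi, Finset.sum_eq_single T]
          · simp [hi]
          · intro S _ hS
            simp [hS]
          · intro hcon
            exact absurd (Finset.mem_univ T) hcon
        · rw [if_neg hi]
          apply Finset.sum_eq_zero
          intro S _
          by_cases hS : S = T
          · subst hS; simp [hi]
          · simp [hS]
      simp only [h6, ite_mul, one_mul, zero_mul]
      rw [← Finset.sum_filter]
      congr 1
      ext i; simp
    have h7 : f (fun _ => (1/2 : ℝ)) = (1/2) * ∑ i, f (Pi.single i (1:ℝ)) := by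
      rw [hfx, Finset.mul_sum]
    rw [Finset.sum_neg_distrib, Finset.sum_neg_distrib] at hT
    linarith
  · obtain ⟨x, ⟨p, hp, rfl⟩, hxL⟩ := Set.not_disjoint_iff.mp hdisj
    refine ⟨fun S => 2 * p S, ?_, ?_, ?_, ?_⟩
    · intro S
      have := hp.1.1 S
      linarith
    · intro S hS
      by_contra hPS
      exact hS (by simp only [hp.2 S hPS, mul_zero])
    · intro v
      have h1 : ∑ S ∈ Finset.univ.filter (fun S : Finset V => v ∈ S), p S ≤ 1/2 := hxL v
      rw [← Finset.mul_sum]
      linarith
    · rw [← Finset.mul_sum, hp.1.2]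
      norm_num

/-- Every finite cubic graph has a nonnegative weighting of its total dominating sets with each vertex in sets of total weight at most 1 and overall weight at least 2, i.e. fractional total domatic number at least 2. -/
theorem result :
    ∀ (V : Type) [Fintype V] [DecidableEq V] (G : SimpleGraph V) [DecidableRel G.Adj],
      G.IsRegularOfDegree 3 →
      ∃ w : Finset V → ℝ,
        (∀ S, 0 ≤ w S) ∧
        (∀ S, w S ≠ 0 → ∀ v : V, ∃ u ∈ S, G.Adj v u) ∧
        (∀ v : V, ∑ S ∈ Finset.univ.filter (fun S : Finset V => v ∈ S), w S ≤ 1) ∧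
        2 ≤ ∑ S, w S := by
  intro V _ _ G _ hG
  apply duality (fun S : Finset V => ∀ v : V, ∃ u ∈ S, G.Adj v u)
  intro w _
  obtain ⟨T, _, hT, hTw⟩ := exists_light (fun v => G.neighborFinset v)
    (by
      intro a b hab
      rw [SimpleGraph.mem_neighborFinset] at hab ⊢
      exact hab.symm)
    (by
      intro v
      exact hG v)
    w _ Finset.univ Finset.univ rfl (fun _ _ => Finset.subset_univ _)
      (fun _ _ => Finset.subset_univ _)
  refine ⟨T, ?_, hTw⟩
  intro v
  obtain ⟨u, hu, huT⟩ := hT v (Finset.mem_univ v)
  exact ⟨u, huT, by simpa using hu⟩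

end Pool.Agent.Lib.FTDCubic
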