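import Mathlib

set_option autoImplicit false

/-!
# Critical points at infinity and faces of the Newton polytope

Counterexample to the statement: if critical points `x^(j)` of `V_Q` in directions `r^(j)` converge,
in the projective toric variety `X` of the Newton polytope `N(Q)`, to a point of the torus orbit
`O_Γ`, then every limit `r` of the directions is parallel to the face `Γ`.

The Laurent polynomial is `Q = (z₁ - 1)^2 + z₂ - z₃`; the hypersurface `V_Q` is smooth, the limit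
point lies in the orbit of the edge `Γ = [0, 2 e₁]`, and the limit direction is `[1 : 1 : -1]`,
which is parallel to no proper face of `N(Q)`.
-/

namespace Pool.Agent.Lib.FaceCounterexample

open Filter Topology
open scoped LinearAlgebra.Projectivization

/-- Laurent polynomials in `d` variables over `ℂ`: finitely supported families of coefficients
`c_a`, indexed by the exponents `a ∈ ℤ^d`. -/
abbrev Laurent (d : ℕ) := (Fin d → ℤ) →₀ ℂ

/-- The torus `(ℂ^*)^d`. -/
abbrev Torus (d : ℕ) := Fin d → ℂˣ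

/-- The Laurent monomial `z^a = z_1^{a_1} ⋯ z_d^{a_d}` at a point `z` of the torus. -/
noncomputable def mono {d : ℕ} (z : Torus d) (a : Fin d → ℤ) : ℂ :=
  ((∏ i, z i ^ a i : ℂˣ) : ℂ)

/-- The value `Q(z) = ∑ c_a z^a`. -/
noncomputable def eval {d : ℕ} (Q : Laurent d) (z : Torus d) : ℂ :=
  Q.sum fun a c => c * mono z a

/-- The logarithmic gradient `(z_1 ∂Q/∂z_1, …, z_d ∂Q/∂z_d)` at `z`; the `j`-th entry is
`∑ c_a a_j z^a`. -/
noncomputable def logGrad {d : ℕ} (Q : Laurent d) (z : Torus d) : Fin d → ℂ :=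
  fun j => Q.sum fun a c => c * (a j : ℂ) * mono z a

/-- `z` is a point of `V_Q = {Q = 0}` at which the gradient of `Q` does not vanish (so `V_Q` is
smooth at `z`), and `z` is critical in direction `r`:
`[z_1 ∂Q/∂z_1 : ⋯ : z_d ∂Q/∂z_d] = r` in `ℂℙ^{d-1}`. -/
def IsSmoothCritical {d : ℕ} (Q : Laurent d) (z : Torus d) (r : ℙ ℂ (Fin d → ℂ)) : Prop :=
  eval Q z = 0 ∧ ∃ h : logGrad Q z ≠ 0, r = Projectivization.mk ℂ (logGrad Q z) h

/-- An integer vector regarded as a real vector. -/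
def toReal {d : ℕ} (a : Fin d → ℤ) : Fin d → ℝ := fun i => (a i : ℝ)

/-- The Newton polytope `N(Q)`: the convex hull in `ℝ^d` of the exponents carrying a nonzero
coefficient. -/
def newton {d : ℕ} (Q : Laurent d) : Set (Fin d → ℝ) :=
  convexHull ℝ (toReal '' (Q.support : Set (Fin d → ℤ)))

/-- `Γ` is a (nonempty) face of the polytope `P`: the set of points of `P` at which some linear
form `u` attains its minimum over `P`. (The choice `u = 0` gives the face `P` itself.) -/
def IsFace {d : ℕ} (Γ P : Set (Fin d → ℝ)) : Prop :=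
  Γ.Nonempty ∧ ∃ u : Fin d → ℝ, Γ = {p ∈ P | ∀ q ∈ P, ∑ i, u i * p i ≤ ∑ i, u i * q i}

/-- The direction `r` is parallel to `Γ`: it is represented by a vector in the complex linear
span of the differences `a - b` of points `a, b ∈ Γ`. -/
def Parallel {d : ℕ} (r : ℙ ℂ (Fin d → ℂ)) (Γ : Set (Fin d → ℝ)) : Prop :=
  ∃ (v : Fin d → ℂ) (h : v ≠ 0), r = Projectivization.mk ℂ v h ∧
    v ∈ Submodule.span ℂ {w : Fin d → ℂ | ∃ a ∈ Γ, ∃ b ∈ Γ, w = fun i => ((a i - b i : ℝ) : ℂ)}

/-- The dilate `k P` of a subset of `ℝ^d`. -/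
def dilate {d : ℕ} (k : ℕ) (P : Set (Fin d → ℝ)) : Set (Fin d → ℝ) :=
  (fun p => (k : ℝ) • p) '' P

/-- The lattice points of the dilated Newton polytope `k N(Q)`. -/
abbrev LatticePt {d : ℕ} (Q : Laurent d) (k : ℕ) : Type :=
  {a : Fin d → ℤ // toReal a ∈ dilate k (newton Q)}

/-- The affine representative `(z^a)_a`, `a ∈ k N(Q) ∩ ℤ^d`, of the image of the torus point `z`
under the monomial embedding. -/
noncomputable def toricVec {d : ℕ} (Q : Laurent d) (k : ℕ) (z : Torus d) : LatticePt Q k → ℂ :=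
  fun a => mono z a.1

/-- The affine representative of the point `t · e_Γ`, where `e_Γ` is the distinguished point of
the face `Γ` (the coordinate of `e_Γ` at `a` is `1` if `a ∈ kΓ` and `0` otherwise) and `t` is an
element of the torus. -/
noncomputable def orbitVec {d : ℕ} (Q : Laurent d) (k : ℕ) (Γ : Set (Fin d → ℝ)) (t : Torus d) :
    LatticePt Q k → ℂ :=
  open Classical in fun a => if toReal a.1 ∈ dilate k Γ then mono t a.1 else 0

/-- The torus orbit `O_Γ` in `ℙ(ℂ^A)`, `A = k N(Q) ∩ ℤ^d`: all points `t · e_Γ`.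
For `k ≥ max(1, d - 1)` the projective toric variety `X` of `N(Q)` is the closure in `ℙ(ℂ^A)` of
the image of the torus under `z ↦ [z^a]_{a ∈ A}`, and it is the disjoint union of the orbits
`O_Γ` over the faces `Γ` of `N(Q)`. -/
def orbit {d : ℕ} (Q : Laurent d) (k : ℕ) (Γ : Set (Fin d → ℝ)) : Set (ℙ ℂ (LatticePt Q k → ℂ)) :=
  {p | ∃ (t : Torus d) (h : orbitVec Q k Γ t ≠ 0), p = Projectivization.mk ℂ (orbitVec Q k Γ t) h}

/-- The usual topology of a projective space: the quotient topology from `V \ {0}`. -/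
@[reducible]
noncomputable def projTop (V : Type) [AddCommGroup V] [Module ℂ V] [TopologicalSpace V] :
    TopologicalSpace (ℙ ℂ V) :=
  TopologicalSpace.coinduced (Projectivization.mk' ℂ : {v : V // v ≠ 0} → ℙ ℂ V) inferInstance

/-- Convergence of a sequence in a projective space. -/
def ProjTendsto {V : Type} [AddCommGroup V] [Module ℂ V] [TopologicalSpace V]
    (p : ℕ → ℙ ℂ V) (q : ℙ ℂ V) : Prop :=
  Tendsto p atTop (@nhds _ (projTop V) q)

theorem orbitVec_pos {d : ℕ} {Q : Laurent d} {k : ℕ} {Γ : Set (Fin d → ℝ)} {t : Torus d}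
    {a : LatticePt Q k} (h : toReal a.1 ∈ dilate k Γ) : orbitVec Q k Γ t a = mono t a.1 := by
  unfold orbitVec
  exact if_pos h

theorem orbitVec_neg {d : ℕ} {Q : Laurent d} {k : ℕ} {Γ : Set (Fin d → ℝ)} {t : Torus d}
    {a : LatticePt Q k} (h : toReal a.1 ∉ dilate k Γ) : orbitVec Q k Γ t a = 0 := by
  unfold orbitVec
  exact if_neg h

theorem projTendsto_mk {V : Type} [AddCommGroup V] [Module ℂ V] [TopologicalSpace V]
    {v : ℕ → V} {w : V} (hv : ∀ j, v j ≠ 0) (hw : w ≠ 0) (h : Tendsto v atTop (𝓝 w)) :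
    ProjTendsto (fun j => Projectivization.mk ℂ (v j) (hv j)) (Projectivization.mk ℂ w hw) := by
  let _ := projTop V
  have hc : Continuous (Projectivization.mk' ℂ : {v : V // v ≠ 0} → ℙ ℂ V) :=
    continuous_coinduced_rng
  have h1 : Tendsto (fun j => (⟨v j, hv j⟩ : {v : V // v ≠ 0})) atTop (𝓝 ⟨w, hw⟩) :=
    tendsto_subtype_rng.2 h
  exact (hc.tendsto _).comp h1

/-! ### The example -/

/-- `Q = (z₁ - 1)^2 + z₂ - z₃ = 1 - 2 z₁ + z₁^2 + z₂ - z₃`. -/
noncomputable def QQ : Laurent 3 :=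
  Finsupp.single ![0, 0, 0] 1 + Finsupp.single ![1, 0, 0] (-2) + Finsupp.single ![2, 0, 0] 1 +
    Finsupp.single ![0, 1, 0] 1 + Finsupp.single ![0, 0, 1] (-1)

theorem QQ_sum (f : (Fin 3 → ℤ) → ℂ → ℂ) (h0 : ∀ a, f a 0 = 0)
    (hadd : ∀ a b c, f a (b + c) = f a b + f a c) :
    QQ.sum f = f ![0, 0, 0] 1 + f ![1, 0, 0] (-2) + f ![2, 0, 0] 1 + f ![0, 1, 0] 1 +
      f ![0, 0, 1] (-1) := by
  rw [QQ, Finsupp.sum_add_index' h0 hadd, Finsupp.sum_add_index' h0 hadd,
    Finsupp.sum_add_index' h0 hadd, Finsupp.sum_add_index' h0 hadd,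
    Finsupp.sum_single_index (h0 _), Finsupp.sum_single_index (h0 _),
    Finsupp.sum_single_index (h0 _), Finsupp.sum_single_index (h0 _),
    Finsupp.sum_single_index (h0 _)]

theorem mono_three (z : Torus 3) (a b c : ℤ) :
    mono z ![a, b, c] = (z 0 : ℂ) ^ a * (z 1 : ℂ) ^ b * (z 2 : ℂ) ^ c := by
  simp [mono, Fin.prod_univ_three]

theorem eval_QQ (z : Torus 3) : eval QQ z = ((z 0 : ℂ) - 1) ^ 2 + z 1 - z 2 := by
  rw [eval, QQ_sum _ (by simp) (by intros; ring)]
  simp only [mono_three]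
  simp
  ring

theorem logGrad_QQ (z : Torus 3) :
    logGrad QQ z = ![2 * (z 0 : ℂ) * ((z 0 : ℂ) - 1), z 1, -(z 2 : ℂ)] := by
  funext j
  rw [logGrad, QQ_sum _ (by simp) (by intros; ring)]
  simp only [mono_three]
  fin_cases j
  · simp; ring
  · simp
  · simp

theorem support_QQ {a : Fin 3 → ℤ} (ha : a ∈ QQ.support) :
    a = ![0, 0, 0] ∨ a = ![1, 0, 0] ∨ a = ![2, 0, 0] ∨ a = ![0, 1, 0] ∨ a = ![0, 0, 1] := by
  by_contra hcon
  push Not at hcon
  obtain ⟨h1, h2, h3, h4, h5⟩ := hcon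
  rw [Finsupp.mem_support_iff] at ha
  apply ha
  simp only [QQ, Finsupp.add_apply, Finsupp.single_apply]
  rw [if_neg h1.symm, if_neg h2.symm, if_neg h3.symm, if_neg h4.symm, if_neg h5.symm]
  simp

theorem v0_mem : (![0, 0, 0] : Fin 3 → ℤ) ∈ QQ.support := by
  rw [Finsupp.mem_support_iff]
  simp [QQ]

theorem v1_mem : (![2, 0, 0] : Fin 3 → ℤ) ∈ QQ.support := by
  rw [Finsupp.mem_support_iff]
  simp [QQ]

theorem v2_mem : (![0, 1, 0] : Fin 3 → ℤ) ∈ QQ.support := by
  rw [Finsupp.mem_support_iff]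
  simp [QQ]

theorem v3_mem : (![0, 0, 1] : Fin 3 → ℤ) ∈ QQ.support := by
  rw [Finsupp.mem_support_iff]
  simp [QQ]

/-- The simplex `p₀, p₁, p₂ ≥ 0`, `p₀/2 + p₁ + p₂ ≤ 1`. -/
def simplex : Set (Fin 3 → ℝ) := {p | 0 ≤ p 0 ∧ 0 ≤ p 1 ∧ 0 ≤ p 2 ∧ p 0 / 2 + p 1 + p 2 ≤ 1}

theorem simplex_convex : Convex ℝ simplex := by
  intro p hp q hq a b ha hb hab
  obtain ⟨p0, p1, p2, p3⟩ := hp
  obtain ⟨q0, q1, q2, q3⟩ := hq
  refine ⟨?_, ?_, ?_, ?_⟩
  · simp only [Pi.add_apply, Pi.smul_apply, smul_eq_mul]; positivity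
  · simp only [Pi.add_apply, Pi.smul_apply, smul_eq_mul]; positivity
  · simp only [Pi.add_apply, Pi.smul_apply, smul_eq_mul]; positivity
  · simp only [Pi.add_apply, Pi.smul_apply, smul_eq_mul]
    have h1 := mul_le_mul_of_nonneg_left p3 ha
    have h2 := mul_le_mul_of_nonneg_left q3 hb
    nlinarith

theorem newton_QQ : newton QQ = simplex := by
  apply Set.Subset.antisymm
  · apply convexHull_min _ simplex_convex
    rintro _ ⟨a, ha, rfl⟩
    rcases support_QQ ha with rfl | rfl | rfl | rfl | rfl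
    · simp [simplex, toReal]
    · simp [simplex, toReal]; norm_num
    · simp [simplex, toReal]
    · simp [simplex, toReal]
    · simp [simplex, toReal]
  · intro p hp
    obtain ⟨h0, h1, h2, h3⟩ := hp
    have hc : Convex ℝ (newton QQ) := convex_convexHull ℝ _
    have hv : ∀ a ∈ QQ.support, toReal a ∈ newton QQ := fun a ha =>
      subset_convexHull ℝ _ ⟨a, ha, rfl⟩
    have key := hc.sum_mem (t := Finset.univ) (w := ![1 - p 0 / 2 - p 1 - p 2, p 0 / 2, p 1, p 2])
      (z := ![toReal ![0, 0, 0], toReal ![2, 0, 0], toReal ![0, 1, 0], toReal ![0, 0, 1]])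
      (by
        intro i _
        fin_cases i
        · simp; linarith
        · simp; linarith
        · simpa using h1
        · simpa using h2)
      (by simp [Fin.sum_univ_four]; ring)
      (by
        intro i _
        fin_cases i
        · exact hv _ v0_mem
        · exact hv _ v1_mem
        · exact hv _ v2_mem
        · exact hv _ v3_mem)
    convert key using 1
    funext i
    fin_cases i <;> simp [Fin.sum_univ_four, toReal]

/-- The edge `[0, 2 e₁]`. -/
def edge : Set (Fin 3 → ℝ) := {p | p ∈ simplex ∧ p 1 = 0 ∧ p 2 = 0}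

theorem edge_isFace : IsFace edge (newton QQ) := by
  rw [newton_QQ]
  refine ⟨⟨0, ⟨by simp, by simp, by simp, by simp⟩, rfl, rfl⟩, ![0, 1, 1], ?_⟩
  ext p
  constructor
  · rintro ⟨hp, h1, h2⟩
    refine ⟨hp, fun q hq => ?_⟩
    simp only [Fin.sum_univ_three, Matrix.cons_val_zero, Matrix.cons_val_one, Matrix.cons_val,
      h1, h2]
    have := hq.2.1
    have := hq.2.2.1
    simp
    linarith
  · rintro ⟨hp, h⟩
    have h1 := h 0 ⟨by simp, by simp, by simp, by simp⟩
    simp [Fin.sum_univ_three] at h1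
    have h2 := hp.2.1
    have h3 := hp.2.2.1
    exact ⟨hp, by linarith, by linarith⟩

theorem latticePt_iff {k : ℕ} (hk : 1 ≤ k) (a : Fin 3 → ℤ) (ha : toReal a ∈ dilate k simplex) :
    0 ≤ a 0 ∧ 0 ≤ a 1 ∧ 0 ≤ a 2 ∧ (toReal a ∈ dilate k edge ↔ a 1 = 0 ∧ a 2 = 0) := by
  obtain ⟨p, hp, hpa⟩ := ha
  have hk' : (0 : ℝ) < k := by exact_mod_cast hk
  have e : ∀ i, (a i : ℝ) = k * p i := by
    intro i
    have := congrFun hpa i
    simp [toReal] at this
    exact this.symm
  obtain ⟨h0, h1, h2, h3⟩ := hp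
  refine ⟨?_, ?_, ?_, ?_, ?_⟩
  · have := e 0
    have h4 : (0 : ℝ) ≤ a 0 := by rw [this]; positivity
    exact_mod_cast h4
  · have := e 1
    have h4 : (0 : ℝ) ≤ a 1 := by rw [this]; positivity
    exact_mod_cast h4
  · have := e 2
    have h4 : (0 : ℝ) ≤ a 2 := by rw [this]; positivity
    exact_mod_cast h4
  · rintro ⟨q, ⟨_, hq1, hq2⟩, hqa⟩
    constructor
    · have := congrFun hqa 1
      simp [toReal, hq1] at this
      exact_mod_cast this.symm
    · have := congrFun hqa 2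
      simp [toReal, hq2] at this
      exact_mod_cast this.symm
  · rintro ⟨ha1, ha2⟩
    refine ⟨p, ⟨⟨h0, h1, h2, h3⟩, ?_, ?_⟩, hpa⟩
    · have := e 1
      rw [ha1] at this
      simp at this
      rcases this with h | h
      · exact absurd h (by exact_mod_cast hk'.ne')
      · exact h
    · have := e 2
      rw [ha2] at this
      simp at this
      rcases this with h | h
      · exact absurd h (by exact_mod_cast hk'.ne')
      · exact h

/-- The sequence of points: `(1 + s, 2 s, 2 s + s^2)` with `s = 1/(j+1)`. -/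
noncomputable def ss (j : ℕ) : ℝ := 1 / ((j : ℝ) + 1)

theorem ss_pos (j : ℕ) : 0 < ss j := by unfold ss; positivity

theorem ss_tendsto : Tendsto ss atTop (𝓝 0) := tendsto_one_div_add_atTop_nhds_zero_nat

theorem ne1 (j : ℕ) : ((1 + ss j : ℝ) : ℂ) ≠ 0 := by
  have := ss_pos j
  exact_mod_cast (by positivity : (1 + ss j : ℝ) ≠ 0)
theorem ne2 (j : ℕ) : ((2 * ss j : ℝ) : ℂ) ≠ 0 := by
  have := ss_pos j
  exact_mod_cast (by positivity : (2 * ss j : ℝ) ≠ 0)
theorem ne3 (j : ℕ) : ((2 * ss j + ss j ^ 2 : ℝ) : ℂ) ≠ 0 := by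
  have := ss_pos j
  exact_mod_cast (by positivity : (2 * ss j + ss j ^ 2 : ℝ) ≠ 0)

noncomputable def xx (j : ℕ) : Torus 3 :=
  ![Units.mk0 _ (ne1 j), Units.mk0 _ (ne2 j), Units.mk0 _ (ne3 j)]

theorem xx0 (j : ℕ) : ((xx j 0 : ℂˣ) : ℂ) = ((1 + ss j : ℝ) : ℂ) := rfl
theorem xx1 (j : ℕ) : ((xx j 1 : ℂˣ) : ℂ) = ((2 * ss j : ℝ) : ℂ) := rfl
theorem xx2 (j : ℕ) : ((xx j 2 : ℂˣ) : ℂ) = ((2 * ss j + ss j ^ 2 : ℝ) : ℂ) := rfl

theorem eval_xx (j : ℕ) : eval QQ (xx j) = 0 := by
  rw [eval_QQ, xx0, xx1, xx2]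
  push_cast
  ring

theorem smooth (z : Torus 3) : logGrad QQ z ≠ 0 := by
  rw [logGrad_QQ]
  intro h
  have := congrFun h 1
  simp at this

theorem logGrad_xx (j : ℕ) : logGrad QQ (xx j) =
    ((ss j : ℝ) : ℂ) • (![((2 + 2 * ss j : ℝ) : ℂ), 2, ((-(2 + ss j) : ℝ) : ℂ)] : Fin 3 → ℂ) := by
  rw [logGrad_QQ, xx0, xx1, xx2]
  funext i
  fin_cases i
  · simp; ring
  · simp; ring
  · simp; ring

theorem mono_tendsto {k : ℕ} (hk : 1 ≤ k) (a : Fin 3 → ℤ) (ha : toReal a ∈ dilate k simplex) :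
    Tendsto (fun j => mono (xx j) a) atTop (𝓝 (if a 1 = 0 ∧ a 2 = 0 then 1 else 0)) := by
  obtain ⟨h0, h1, h2, -⟩ := latticePt_iff hk a ha
  obtain ⟨n0, hn0⟩ := Int.eq_ofNat_of_zero_le h0
  obtain ⟨n1, hn1⟩ := Int.eq_ofNat_of_zero_le h1
  obtain ⟨n2, hn2⟩ := Int.eq_ofNat_of_zero_le h2
  have e : ∀ j, mono (xx j) a =
      (((1 + ss j) ^ n0 * (2 * ss j) ^ n1 * (2 * ss j + ss j ^ 2) ^ n2 : ℝ) : ℂ) := by
    intro j
    have : a = ![a 0, a 1, a 2] := by funext i; fin_cases i <;> rfl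
    rw [this, mono_three, xx0, xx1, xx2, hn0, hn1, hn2]
    push_cast
    simp
  simp_rw [e]
  have hlim : Tendsto (fun j => (1 + ss j) ^ n0 * (2 * ss j) ^ n1 * (2 * ss j + ss j ^ 2) ^ n2)
      atTop (𝓝 ((1 + 0) ^ n0 * (2 * 0) ^ n1 * (2 * 0 + 0 ^ 2) ^ n2)) := by
    have hs := ss_tendsto
    exact (((tendsto_const_nhds.add hs).pow n0).mul ((tendsto_const_nhds.mul hs).pow n1)).mul
      (((tendsto_const_nhds.mul hs).add (hs.pow 2)).pow n2)
  have hval : (((1 + 0) ^ n0 * (2 * 0) ^ n1 * (2 * 0 + 0 ^ 2) ^ n2 : ℝ) : ℂ) =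
      (if a 1 = 0 ∧ a 2 = 0 then 1 else 0) := by
    rw [hn1, hn2]
    by_cases c1 : n1 = 0
    · by_cases c2 : n2 = 0
      · subst c1; subst c2; simp
      · simp [c1, c2]
    · simp [c1]
  rw [← hval]
  exact (Complex.continuous_ofReal.tendsto _).comp hlim

/-- The limit direction `[1 : 1 : -1]`. -/
theorem dir_ne : (![1, 1, -1] : Fin 3 → ℂ) ≠ 0 := by
  intro h
  have := congrFun h 0
  simp at this

/-- A proper face of the simplex is contained in one of the four facets. -/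
theorem not_parallel {Γ : Set (Fin 3 → ℝ)} (hΓ : IsFace Γ (newton QQ)) (hne : Γ ≠ newton QQ) :
    ¬ Parallel (Projectivization.mk ℂ ![1, 1, -1] dir_ne) Γ := by
  rw [newton_QQ] at hΓ hne
  obtain ⟨hΓne, u, hu⟩ := hΓ
  rintro ⟨v, hv, hrv, hspan⟩
  rw [Projectivization.mk_eq_mk_iff'] at hrv
  obtain ⟨c, hc⟩ := hrv
  -- the value of `u` at the four vertices
  have hmem : ∀ p, p ∈ Γ ↔ p ∈ simplex ∧ ∀ q ∈ simplex, ∑ i, u i * p i ≤ ∑ i, u i * q i := by
    intro p; rw [hu]; rfl
  -- a linear form vanishing on all differences vanishes on `(1,1,-1)`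
  have hform : ∀ l : Fin 3 → ℝ, (∀ a ∈ Γ, ∀ b ∈ Γ, ∑ i, l i * a i = ∑ i, l i * b i) →
      l 0 + l 1 - l 2 = 0 := by
    intro l hl
    have h1 : ∀ w ∈ Submodule.span ℂ {w : Fin 3 → ℂ | ∃ a ∈ Γ, ∃ b ∈ Γ,
        w = fun i => ((a i - b i : ℝ) : ℂ)}, ∑ i, (l i : ℂ) * w i = 0 := by
      intro w hw
      induction hw using Submodule.span_induction with
      | mem w hw =>
        obtain ⟨a, ha, b, hb, rfl⟩ := hw
        have h2 := hl a ha b hb
        have h3 : ∑ i, l i * (a i - b i) = 0 := by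
          simp only [mul_sub, Finset.sum_sub_distrib]
          linarith
        change ∑ i, ((l i : ℝ) : ℂ) * ((a i - b i : ℝ) : ℂ) = 0
        exact_mod_cast h3
      | zero => simp
      | add x y _ _ hx hy =>
        simp only [Pi.add_apply, mul_add, Finset.sum_add_distrib, hx, hy, add_zero]
      | smul c x _ hx =>
        simp only [Pi.smul_apply, smul_eq_mul]
        have : ∑ i, (l i : ℂ) * (c * x i) = c * ∑ i, (l i : ℂ) * x i := by
          rw [Finset.mul_sum]
          exact Finset.sum_congr rfl (fun i _ => by ring)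
        rw [this, hx, mul_zero]
    have h2 := h1 v hspan
    have h3 : ∑ i, (l i : ℂ) * (![1, 1, -1] : Fin 3 → ℂ) i = 0 := by
      rw [← hc]
      have : ∑ i, (l i : ℂ) * (c • v) i = c * ∑ i, (l i : ℂ) * v i := by
        rw [Finset.mul_sum]
        exact Finset.sum_congr rfl (fun i _ => by simp; ring)
      rw [this, h2, mul_zero]
    simp [Fin.sum_univ_three] at h3
    have h4 : ((l 0 + l 1 - l 2 : ℝ) : ℂ) = 0 := by
      push_cast
      linear_combination h3
    exact_mod_cast h4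
  -- the vertices
  have s0 : (![0, 0, 0] : Fin 3 → ℝ) ∈ simplex := by simp [simplex]
  have s1 : (![2, 0, 0] : Fin 3 → ℝ) ∈ simplex := by simp [simplex]
  have s2 : (![0, 1, 0] : Fin 3 → ℝ) ∈ simplex := by simp [simplex]
  have s3 : (![0, 0, 1] : Fin 3 → ℝ) ∈ simplex := by simp [simplex]
  -- the minimum `m` of `u`
  have hval : ∀ p ∈ Γ, ∑ i, u i * p i ≤ 0 ∧ ∑ i, u i * p i ≤ 2 * u 0 ∧ ∑ i, u i * p i ≤ u 1 ∧
      ∑ i, u i * p i ≤ u 2 := by
    intro p hp
    have h := ((hmem p).1 hp).2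
    have e0 := h _ s0
    have e1 := h _ s1
    have e2 := h _ s2
    have e3 := h _ s3
    simp [Fin.sum_univ_three] at e0 e1 e2 e3 ⊢
    refine ⟨e0, by linarith, e2, e3⟩
  -- all summands of a convex combination of nonnegative numbers which is zero vanish
  have hz : ∀ p ∈ Γ, ∀ m, m = ∑ i, u i * p i →
      (1 - p 0 / 2 - p 1 - p 2) * (0 - m) = 0 ∧ (p 0 / 2) * (2 * u 0 - m) = 0 ∧
      p 1 * (u 1 - m) = 0 ∧ p 2 * (u 2 - m) = 0 := by
    intro p hp m hm
    obtain ⟨a0, a1, a2, a3⟩ := hval p hp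
    rw [← hm] at a0 a1 a2 a3
    obtain ⟨b0, b1, b2, b3⟩ := ((hmem p).1 hp).1
    have t0 : 0 ≤ (1 - p 0 / 2 - p 1 - p 2) * (0 - m) :=
      mul_nonneg (by linarith) (by linarith)
    have t1 : 0 ≤ (p 0 / 2) * (2 * u 0 - m) := mul_nonneg (by linarith) (by linarith)
    have t2 : 0 ≤ p 1 * (u 1 - m) := mul_nonneg b1 (by linarith)
    have t3 : 0 ≤ p 2 * (u 2 - m) := mul_nonneg b2 (by linarith)
    have hsum : (1 - p 0 / 2 - p 1 - p 2) * (0 - m) + (p 0 / 2) * (2 * u 0 - m) +
        p 1 * (u 1 - m) + p 2 * (u 2 - m) = 0 := by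
      rw [Fin.sum_univ_three] at hm
      linear_combination -hm
    refine ⟨by linarith, by linarith, by linarith, by linarith⟩
  have hconst : ∀ p ∈ Γ, ∀ q ∈ Γ, ∑ i, u i * p i = ∑ i, u i * q i := by
    intro p hp q hq
    exact le_antisymm (((hmem p).1 hp).2 q ((hmem q).1 hq).1)
      (((hmem q).1 hq).2 p ((hmem p).1 hp).1)
  obtain ⟨p₀, hp₀⟩ := hΓne
  set m := ∑ i, u i * p₀ i with hm
  have hz' : ∀ p ∈ Γ, (1 - p 0 / 2 - p 1 - p 2) * (0 - m) = 0 ∧ (p 0 / 2) * (2 * u 0 - m) = 0 ∧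
      p 1 * (u 1 - m) = 0 ∧ p 2 * (u 2 - m) = 0 :=
    fun p hp => hz p hp m (hconst _ hp₀ _ hp)
  by_cases c0 : (0 : ℝ) - m = 0
  · by_cases c1 : 2 * u 0 - m = 0
    · by_cases c2 : u 1 - m = 0
      · by_cases c3 : u 2 - m = 0
        · apply hne
          ext p
          rw [hmem]
          constructor
          · exact fun h => h.1
          · intro hp
            refine ⟨hp, fun q _ => ?_⟩
            have d0 : u 0 = 0 := by linarith
            have d1 : u 1 = 0 := by linarith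
            have d2 : u 2 = 0 := by linarith
            simp [Fin.sum_univ_three, d0, d1, d2]
        · have h := hform ![0, 0, 1] (by
            intro a ha b hb
            have h1 := (mul_eq_zero.1 (hz' a ha).2.2.2).resolve_right c3
            have h2 := (mul_eq_zero.1 (hz' b hb).2.2.2).resolve_right c3
            simp [Fin.sum_univ_three, h1, h2])
          simp at h
      · have h := hform ![0, 1, 0] (by
          intro a ha b hb
          have h1 := (mul_eq_zero.1 (hz' a ha).2.2.1).resolve_right c2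
          have h2 := (mul_eq_zero.1 (hz' b hb).2.2.1).resolve_right c2
          simp [Fin.sum_univ_three, h1, h2])
        simp at h
    · have h := hform ![1, 0, 0] (by
        intro a ha b hb
        have h1 := (mul_eq_zero.1 (hz' a ha).2.1).resolve_right c1
        have h2 := (mul_eq_zero.1 (hz' b hb).2.1).resolve_right c1
        have h3 : a 0 = 0 := by linarith
        have h4 : b 0 = 0 := by linarith
        simp [Fin.sum_univ_three, h3, h4])
      simp at h
  · have h := hform ![1 / 2, 1, 1] (by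
      intro a ha b hb
      have h1 := (mul_eq_zero.1 (hz' a ha).1).resolve_right c0
      have h2 := (mul_eq_zero.1 (hz' b hb).1).resolve_right c0
      simp [Fin.sum_univ_three]
      linarith)
    simp at h

theorem toricVec_ne {k : ℕ} (hk : 1 ≤ k) (z : Torus 3) : toricVec QQ k z ≠ 0 := by
  intro h
  have h0 : toReal (0 : Fin 3 → ℤ) ∈ dilate k (newton QQ) := by
    refine ⟨0, ?_, ?_⟩
    · rw [newton_QQ]
      exact ⟨by simp, by simp, by simp, by simp⟩
    · funext i
      simp [toReal]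
  have h1 := congrFun h ⟨0, h0⟩
  have h2 : toricVec QQ k z ⟨0, h0⟩ = 1 := by simp [toricVec, mono]
  rw [h2] at h1
  exact one_ne_zero h1

/-- **Counterexample.** For `Q = (z₁ - 1)^2 + z₂ - z₃`, whose Newton polytope is
three-dimensional and whose hypersurface `V_Q` is smooth, there are points `x^(j) ∈ V_Q` critical
in directions `r^(j)`, with `x^(j)` converging in the projective toric variety of `N(Q)` to a point
of the orbit `O_Γ` of a face `Γ` and `r^(j)` converging to a direction `r` which is not parallel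
to `Γ`, and not parallel to any proper face of `N(Q)`. -/
theorem result :
    ∃ Q : Laurent 3,
      (interior (newton Q)).Nonempty ∧
      (∀ z : Torus 3, eval Q z = 0 → logGrad Q z ≠ 0) ∧
      ∃ (x : ℕ → Torus 3) (r : ℕ → ℙ ℂ (Fin 3 → ℂ)) (r' : ℙ ℂ (Fin 3 → ℂ))
        (Γ : Set (Fin 3 → ℝ)),
        (∀ j, IsSmoothCritical Q (x j) (r j)) ∧
        IsFace Γ (newton Q) ∧
        ProjTendsto r r' ∧
        (∀ k : ℕ, 1 ≤ k → ∃ (h : ∀ z : Torus 3, toricVec Q k z ≠ 0), ∃ p ∈ orbit Q k Γ,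
          ProjTendsto (fun j => Projectivization.mk ℂ (toricVec Q k (x j)) (h (x j))) p) ∧
        ¬ Parallel r' Γ ∧
        ∀ Γ' : Set (Fin 3 → ℝ), IsFace Γ' (newton Q) → Γ' ≠ newton Q → ¬ Parallel r' Γ' := by
  have hedge : edge ≠ newton QQ := by
    rw [newton_QQ]
    intro h
    have h1 : (![0, 1, 0] : Fin 3 → ℝ) ∈ edge := by
      rw [h]; simp [simplex]
    have := h1.2.1
    simp at this
  refine ⟨QQ, ?_, fun z _ => smooth z, xx, fun j => Projectivization.mk ℂ (logGrad QQ (xx j))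
    (smooth _), Projectivization.mk ℂ ![1, 1, -1] dir_ne, edge,
    fun j => ⟨eval_xx j, smooth _, rfl⟩, edge_isFace, ?_, ?_, not_parallel edge_isFace hedge,
    fun Γ' h1 h2 => not_parallel h1 h2⟩
  · -- the polytope has nonempty interior
    rw [newton_QQ]
    refine ⟨![1 / 4, 1 / 4, 1 / 4], ?_⟩
    rw [mem_interior]
    refine ⟨{p | 0 < p 0} ∩ {p | 0 < p 1} ∩ {p | 0 < p 2} ∩ {p | p 0 / 2 + p 1 + p 2 < 1}, ?_, ?_, ?_⟩
    · rintro p ⟨⟨⟨h0, h1⟩, h2⟩, h3⟩
      exact ⟨le_of_lt h0, le_of_lt h1, le_of_lt h2, le_of_lt h3⟩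
    · refine IsOpen.inter (IsOpen.inter (IsOpen.inter ?_ ?_) ?_) ?_
      · exact isOpen_lt continuous_const (continuous_apply 0)
      · exact isOpen_lt continuous_const (continuous_apply 1)
      · exact isOpen_lt continuous_const (continuous_apply 2)
      · exact isOpen_lt (((continuous_apply 0).div_const 2).add (continuous_apply 1) |>.add
          (continuous_apply 2)) continuous_const
    · refine ⟨⟨⟨?_, ?_⟩, ?_⟩, ?_⟩ <;> simp <;> norm_num
  · -- the directions converge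
    have hne : ∀ j, (![((2 + 2 * ss j : ℝ) : ℂ), 2, ((-(2 + ss j) : ℝ) : ℂ)] : Fin 3 → ℂ) ≠ 0 := by
      intro j h
      have := congrFun h 1
      simp at this
    have hne2 : (![2, 2, -2] : Fin 3 → ℂ) ≠ 0 := by
      intro h
      have := congrFun h 1
      simp at this
    have e1 : (fun j => Projectivization.mk ℂ (logGrad QQ (xx j)) (smooth _)) =
        fun j => Projectivization.mk ℂ _ (hne j) := by
      funext j
      rw [Projectivization.mk_eq_mk_iff']
      exact ⟨((ss j : ℝ) : ℂ), (logGrad_xx j).symm⟩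
    have e2 : Projectivization.mk ℂ (![1, 1, -1] : Fin 3 → ℂ) dir_ne =
        Projectivization.mk ℂ (![2, 2, -2] : Fin 3 → ℂ) hne2 := by
      rw [Projectivization.mk_eq_mk_iff']
      refine ⟨1 / 2, ?_⟩
      funext i
      fin_cases i <;> simp
    rw [e1, e2]
    apply projTendsto_mk
    rw [tendsto_pi_nhds]
    have hs := ss_tendsto
    intro i
    fin_cases i
    · have h1 : Tendsto (fun j => 2 + 2 * ss j) atTop (𝓝 (2 + 2 * 0)) :=
        tendsto_const_nhds.add (tendsto_const_nhds.mul hs)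
      have h2 := (Complex.continuous_ofReal.tendsto _).comp h1
      simpa [Function.comp_def] using h2
    · simp
    · have h1 : Tendsto (fun j => -(2 + ss j)) atTop (𝓝 (-(2 + 0))) :=
        (tendsto_const_nhds.add hs).neg
      have h2 := (Complex.continuous_ofReal.tendsto _).comp h1
      simpa [Function.comp_def] using h2
  · intro k hk
    have hO : orbitVec QQ k edge 1 ≠ 0 := by
      intro h
      have h0 : toReal (0 : Fin 3 → ℤ) ∈ dilate k (newton QQ) := by
        refine ⟨0, ?_, ?_⟩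
        · rw [newton_QQ]
          exact ⟨by simp, by simp, by simp, by simp⟩
        · funext i
          simp [toReal]
      have h1 := congrFun h ⟨0, h0⟩
      have h0' := h0
      rw [newton_QQ] at h0'
      have h2 : orbitVec QQ k edge 1 ⟨0, h0⟩ = 1 := by
        rw [orbitVec_pos (a := ⟨0, h0⟩) ((latticePt_iff hk 0 h0').2.2.2.2 ⟨rfl, rfl⟩)]
        simp [mono]
      rw [h2] at h1
      exact one_ne_zero h1
    refine ⟨toricVec_ne hk, Projectivization.mk ℂ (orbitVec QQ k edge 1) hO, ⟨1, hO, rfl⟩, ?_⟩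
    apply projTendsto_mk
    rw [tendsto_pi_nhds]
    rintro ⟨a, ha⟩
    have ha' := ha
    rw [newton_QQ] at ha'
    have h1 := mono_tendsto hk a ha'
    have h2 : orbitVec QQ k edge 1 ⟨a, ha⟩ = if a 1 = 0 ∧ a 2 = 0 then 1 else 0 := by
      split_ifs with h
      · rw [orbitVec_pos (a := ⟨a, ha⟩) ((latticePt_iff hk a ha').2.2.2.2 h)]
        simp [mono]
      · rw [orbitVec_neg (a := ⟨a, ha⟩) (fun h' => h ((latticePt_iff hk a ha').2.2.2.1 h'))]
    rw [h2]
    exact h1

end Pool.Agent.Lib.FaceCounterexample
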