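import Mathlib

/-!
# Illumination and coverings by translates of the interior

Basic tools for the Hadwiger covering problem.
-/

set_option autoImplicit false

open Set

namespace Pool.Agent.Lib.HadwigerIllum

/-- `K` is covered by at most `N` translates of its interior. -/
def CoverBy {E : Type*} [AddCommGroup E] [TopologicalSpace E] (K : Set E) (N : ℕ) : Prop :=
  ∃ T : Finset E, T.card ≤ N ∧ K ⊆ ⋃ t ∈ T, (fun x => t + x) '' interior K

lemma CoverBy.mono {E : Type*} [AddCommGroup E] [TopologicalSpace E] {K : Set E} {M N : ℕ}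
    (h : CoverBy K M) (hMN : M ≤ N) : CoverBy K N := by
  obtain ⟨T, hT, hK⟩ := h
  exact ⟨T, hT.trans hMN, hK⟩

lemma coverBy_iff {E : Type*} [AddCommGroup E] [TopologicalSpace E] {K : Set E} {N : ℕ} :
    CoverBy K N ↔ ∃ T : Finset E, T.card ≤ N ∧ ∀ x ∈ K, ∃ t ∈ T, x - t ∈ interior K := by
  unfold CoverBy
  constructor
  · rintro ⟨T, hT, hK⟩
    refine ⟨T, hT, fun x hx => ?_⟩
    have := hK hx
    simp only [mem_iUnion, mem_image] at this
    obtain ⟨t, ht, y, hy, rfl⟩ := this
    exact ⟨t, ht, by simpa using hy⟩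
  · rintro ⟨T, hT, hK⟩
    refine ⟨T, hT, fun x hx => ?_⟩
    obtain ⟨t, ht, hy⟩ := hK x hx
    simp only [mem_iUnion, mem_image]
    exact ⟨t, ht, x - t, hy, by abel⟩

section illum

variable {E : Type*} [NormedAddCommGroup E] [NormedSpace ℝ E]

/-- A monotone open cover of a compact set has a member containing it. -/
lemma exists_of_monotone_cover {X : Type*} [TopologicalSpace X] {K : Set X} (hc : IsCompact K)
    (O : ℕ → Set X) (hO : ∀ n, IsOpen (O n)) (hmono : Monotone O) (hK : K ⊆ ⋃ n, O n) :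
    ∃ n, K ⊆ O n :=
  hc.elim_directed_cover O hO hK hmono.directed_le

/-- If finitely many directions illuminate every point of a compact convex set, then that many
translates of the interior cover it. -/
theorem coverBy_of_illum {K : Set E} (hK : Convex ℝ K) (hc : IsCompact K) {N : ℕ} (U : Finset E)
    (hN : U.card ≤ N)
    (hU : ∀ x ∈ K, ∃ u ∈ U, ∃ ε : ℝ, 0 < ε ∧ x + ε • u ∈ interior K) : CoverBy K N := by
  classical
  -- uniform step
  let O : ℕ → Set E := fun n => {x | ∃ u ∈ U, ∃ m : ℕ, m ≤ n ∧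
    x + (1 / ((m : ℝ) + 1)) • u ∈ interior K}
  have hOopen : ∀ n, IsOpen (O n) := by
    intro n
    have : O n = ⋃ u ∈ U, ⋃ m ∈ Finset.range (n + 1),
        (fun x : E => x + (1 / ((m : ℝ) + 1)) • u) ⁻¹' interior K := by
      ext x
      simp only [O, mem_ofPred_eq, mem_iUnion, Finset.mem_range, mem_preimage, exists_prop,
        Nat.lt_succ_iff]
    rw [this]
    refine isOpen_biUnion fun u _ => isOpen_biUnion fun m _ => ?_
    exact isOpen_interior.preimage (by fun_prop)
  have hmono : Monotone O := by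
    intro n n' hnn x hx
    obtain ⟨u, hu, m, hm, h⟩ := hx
    exact ⟨u, hu, m, hm.trans hnn, h⟩
  have hshrink : ∀ x ∈ K, ∀ u : E, ∀ ε : ℝ, 0 < ε → x + ε • u ∈ interior K →
      ∀ δ : ℝ, 0 < δ → δ ≤ ε → x + δ • u ∈ interior K := by
    intro x hx u ε hε h δ hδ hδε
    have h2 := hK.add_smul_mem_interior hx h (t := δ / ε)
      ⟨div_pos hδ hε, (div_le_one hε).2 hδε⟩
    rwa [smul_smul, div_mul_cancel₀ _ hε.ne'] at h2
  have hcov : K ⊆ ⋃ n, O n := by
    intro x hx
    obtain ⟨u, hu, ε, hε, h⟩ := hU x hx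
    obtain ⟨m, hm⟩ := exists_nat_one_div_lt hε
    refine mem_iUnion.2 ⟨m, u, hu, m, le_rfl, ?_⟩
    exact hshrink x hx u ε hε h _ (by positivity) hm.le
  obtain ⟨n, hn⟩ := exists_of_monotone_cover hc O hOopen hmono hcov
  rw [coverBy_iff]
  refine ⟨U.image (fun u => -((1 / ((n : ℝ) + 1)) • u)), (Finset.card_image_le).trans hN, ?_⟩
  intro x hx
  obtain ⟨u, hu, m, hm, h⟩ := hn hx
  refine ⟨_, Finset.mem_image_of_mem _ hu, ?_⟩
  rw [sub_neg_eq_add]
  refine hshrink x hx u _ (by positivity) h _ (by positivity) ?_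
  apply one_div_le_one_div_of_le (by positivity)
  have : (m : ℝ) ≤ n := by exact_mod_cast hm
  linarith

/-- Coverings by translates of the interior are preserved by linear homeomorphisms. -/
lemma CoverBy.image {F : Type*} [NormedAddCommGroup F] [NormedSpace ℝ F] (e : E ≃L[ℝ] F)
    {K : Set E} {N : ℕ} (h : CoverBy K N) : CoverBy (e '' K) N := by
  classical
  rw [coverBy_iff] at h ⊢
  obtain ⟨T, hT, hK⟩ := h
  refine ⟨T.image e, Finset.card_image_le.trans hT, ?_⟩
  rintro _ ⟨x, hx, rfl⟩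
  obtain ⟨t, ht, hy⟩ := hK x hx
  refine ⟨e t, Finset.mem_image_of_mem _ ht, ?_⟩
  rw [← map_sub]
  have h1 : e '' interior K = interior (e '' K) := e.toHomeomorph.image_interior K
  rw [← h1]
  exact mem_image_of_mem _ hy

end illum

end Pool.Agent.Lib.HadwigerIllum
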