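import Mathlib
import Pool.Agent.Lib.HadwigerIllum

/-!
# The core covering theorem for bodies with solid and anti-blocking directions
-/

set_option autoImplicit false
set_option linter.unusedSectionVars false

open Set Filter Topology

namespace Pool.Agent.Lib.HadwigerFibre

open Pool.Agent.Lib.HadwigerIllum

variable {ι κ : Type*} [Fintype ι] [DecidableEq ι] [Fintype κ] [DecidableEq κ]
  {F : ι → Type*} [∀ i, NormedAddCommGroup (F i)] [∀ i, NormedSpace ℝ (F i)]
  {G : Type*} [NormedAddCommGroup G] [NormedSpace ℝ G]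

lemma interior_zero_block {K : Set ((∀ i, F i) × (κ → ℝ) × G)} (hK : Convex ℝ K)
    {B : ∀ i, Set (F i)} (hB0 : ∀ i, B i ∈ 𝓝 (0 : F i))
    (hBb : ∀ i, Bornology.IsBounded (B i))
    (hsolid : ∀ x ∈ K, ∀ i, ∀ w : F i, gauge (B i) w ≤ gauge (B i) (x.1 i) →
      (Function.update x.1 i w, x.2) ∈ K)
    {y : (∀ i, F i) × (κ → ℝ) × G} (hy : y ∈ interior K) (i : ι) :
    (Function.update y.1 i 0, y.2) ∈ interior K := by
  have habs : Absorbent ℝ (B i) := absorbent_nhds_zero (hB0 i)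
  rcases eq_or_ne (y.1 i) 0 with h0 | h0
  · have : (Function.update y.1 i 0, y.2) = y := by
      rw [← h0, Function.update_eq_self]
    rwa [this]
  · have hg : 0 < gauge (B i) (y.1 i) :=
      (gauge_pos habs (NormedSpace.isVonNBounded_of_isBounded ℝ (hBb i))).2 h0
    -- choose a small negative multiple
    obtain ⟨σ, hσ, hσ2⟩ : ∃ σ : ℝ, 0 < σ ∧ σ * gauge (B i) (-(y.1 i)) ≤ gauge (B i) (y.1 i) := by
      refine ⟨gauge (B i) (y.1 i) / (gauge (B i) (-(y.1 i)) + 1), ?_, ?_⟩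
      · have := gauge_nonneg (s := B i) (-(y.1 i))
        positivity
      · have := gauge_nonneg (s := B i) (-(y.1 i))
        rw [div_mul_eq_mul_div, div_le_iff₀ (by positivity)]
        nlinarith
    have hy' : (Function.update y.1 i (σ • (-(y.1 i))), y.2) ∈ K := by
      apply hsolid y (interior_subset hy) i
      rw [gauge_smul_of_nonneg hσ.le, smul_eq_mul]
      exact hσ2
    have h1 := hK.combo_interior_self_mem_interior hy hy' (a := σ / (1 + σ)) (b := 1 / (1 + σ))
      (by positivity) (by positivity) (by field_simp; ring)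
    convert h1 using 1
    refine Prod.ext ?_ ?_
    · funext k
      rcases eq_or_ne k i with rfl | hk
      · simp only [Function.update_self, Prod.fst_add, Prod.smul_fst, Pi.add_apply, Pi.smul_apply]
        rw [smul_neg, smul_neg, smul_smul, ← sub_eq_add_neg, ← sub_smul]
        have : σ / (1 + σ) - 1 / (1 + σ) * σ = 0 := by ring
        rw [this, zero_smul]
      · simp only [Function.update_of_ne hk, Prod.fst_add, Prod.smul_fst, Pi.add_apply,
          Pi.smul_apply]
        rw [← add_smul]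
        have : σ / (1 + σ) + 1 / (1 + σ) = 1 := by field_simp; ring
        rw [this, one_smul]
    · simp only [Prod.snd_add, Prod.smul_snd]
      rw [← add_smul]
      have : σ / (1 + σ) + 1 / (1 + σ) = 1 := by field_simp; ring
      rw [this, one_smul]

lemma interior_block {K : Set ((∀ i, F i) × (κ → ℝ) × G)} (hK : Convex ℝ K)
    {B : ∀ i, Set (F i)} (hB0 : ∀ i, B i ∈ 𝓝 (0 : F i))
    (hBb : ∀ i, Bornology.IsBounded (B i))
    (hsolid : ∀ x ∈ K, ∀ i, ∀ w : F i, gauge (B i) w ≤ gauge (B i) (x.1 i) →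
      (Function.update x.1 i w, x.2) ∈ K)
    {y : (∀ i, F i) × (κ → ℝ) × G} (hy : y ∈ interior K) (i : ι) (w : F i)
    (hw : gauge (B i) w < gauge (B i) (y.1 i) ∨ w = 0) :
    (Function.update y.1 i w, y.2) ∈ interior K := by
  have h0 := interior_zero_block hK hB0 hBb hsolid hy i
  rcases eq_or_ne w 0 with rfl | hw0
  · exact h0
  have hlt : gauge (B i) w < gauge (B i) (y.1 i) := by
    rcases hw with h | h
    · exact h
    · exact absurd h hw0
  have habs : Absorbent ℝ (B i) := absorbent_nhds_zero (hB0 i)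
  have hwpos : 0 < gauge (B i) w :=
    (gauge_pos habs (NormedSpace.isVonNBounded_of_isBounded ℝ (hBb i))).2 hw0
  set μ : ℝ := gauge (B i) w / gauge (B i) (y.1 i) with hμ
  have hypos : 0 < gauge (B i) (y.1 i) := hwpos.trans hlt
  have hμ0 : 0 < μ := div_pos hwpos hypos
  have hμ1 : μ < 1 := (div_lt_one hypos).2 hlt
  have hy1 : (Function.update y.1 i (μ⁻¹ • w), y.2) ∈ K := by
    apply hsolid y (interior_subset hy) i
    rw [gauge_smul_of_nonneg (inv_nonneg.2 hμ0.le), smul_eq_mul, hμ, inv_div,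
      div_mul_cancel₀ _ hwpos.ne']
  have h1 := hK.combo_interior_self_mem_interior h0 hy1 (a := 1 - μ) (b := μ)
    (by linarith) hμ0.le (by ring)
  convert h1 using 1
  refine Prod.ext ?_ ?_
  · funext k
    rcases eq_or_ne k i with rfl | hk
    · simp only [Function.update_self, Prod.fst_add, Prod.smul_fst, Pi.add_apply, Pi.smul_apply]
      rw [smul_zero, zero_add, smul_smul, mul_inv_cancel₀ hμ0.ne', one_smul]
    · simp only [Function.update_of_ne hk, Prod.fst_add, Prod.smul_fst, Pi.add_apply,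
        Pi.smul_apply]
      rw [← add_smul]
      simp
  · simp only [Prod.snd_add, Prod.smul_snd]
    rw [← add_smul]
    simp

lemma interior_coord {K : Set ((∀ i, F i) × (κ → ℝ) × G)} (hK : Convex ℝ K)
    (hanti : ∀ x ∈ K, ∀ j, 0 ≤ x.2.1 j ∧ (x.1, Function.update x.2.1 j 0, x.2.2) ∈ K)
    {y : (∀ i, F i) × (κ → ℝ) × G} (hy : y ∈ interior K) (j : κ) (τ : ℝ)
    (hτ : 0 < τ) (hτ2 : τ ≤ y.2.1 j) :
    (y.1, Function.update y.2.1 j τ, y.2.2) ∈ interior K := by
  have h0 := (hanti y (interior_subset hy) j).2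
  have hpos : 0 < y.2.1 j := hτ.trans_le hτ2
  have h1 := hK.combo_interior_self_mem_interior hy h0 (a := τ / y.2.1 j)
    (b := 1 - τ / y.2.1 j) (div_pos hτ hpos)
    (sub_nonneg.2 ((div_le_one hpos).2 hτ2)) (by ring)
  convert h1 using 1
  refine Prod.ext ?_ (Prod.ext ?_ ?_)
  · simp only [Prod.fst_add, Prod.smul_fst]
    rw [← add_smul]
    simp
  · funext k
    rcases eq_or_ne k j with rfl | hk
    · simp only [Function.update_self, Prod.snd_add, Prod.smul_snd, Prod.fst_add, Prod.smul_fst,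
        Pi.add_apply, Pi.smul_apply, smul_eq_mul, mul_zero, add_zero]
      rw [div_mul_cancel₀ _ hpos.ne']
    · simp only [Function.update_of_ne hk, Prod.snd_add, Prod.smul_snd, Prod.fst_add,
        Prod.smul_fst, Pi.add_apply, Pi.smul_apply, smul_eq_mul]
      ring
  · simp only [Prod.snd_add, Prod.smul_snd]
    rw [← add_smul]
    simp

/-- Replace all blocks and coordinates of an interior point by smaller ones. -/
lemma interior_dominated {K : Set ((∀ i, F i) × (κ → ℝ) × G)} (hK : Convex ℝ K)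
    {B : ∀ i, Set (F i)} (hB0 : ∀ i, B i ∈ 𝓝 (0 : F i))
    (hBb : ∀ i, Bornology.IsBounded (B i))
    (hsolid : ∀ x ∈ K, ∀ i, ∀ w : F i, gauge (B i) w ≤ gauge (B i) (x.1 i) →
      (Function.update x.1 i w, x.2) ∈ K)
    (hanti : ∀ x ∈ K, ∀ j, 0 ≤ x.2.1 j ∧ (x.1, Function.update x.2.1 j 0, x.2.2) ∈ K)
    {y : (∀ i, F i) × (κ → ℝ) × G} (hy : y ∈ interior K)
    (x : (∀ i, F i) × (κ → ℝ) × G)
    (h1 : ∀ i, gauge (B i) (x.1 i) < gauge (B i) (y.1 i) ∨ x.1 i = 0)
    (h2 : ∀ j, 0 < x.2.1 j ∧ x.2.1 j ≤ y.2.1 j)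
    (h3 : x.2.2 = y.2.2) : x ∈ interior K := by
  have hA : ∀ s : Finset ι, (s.piecewise x.1 y.1, y.2) ∈ interior K := by
    intro s
    induction s using Finset.induction_on with
    | empty => simpa using hy
    | insert i s his ih =>
      rw [Finset.piecewise_insert]
      have := interior_block hK hB0 hBb hsolid ih i (x.1 i) (by
        simpa [Finset.piecewise_eq_of_notMem _ _ _ his] using h1 i)
      exact this
  have hB : ∀ s : Finset κ, (x.1, s.piecewise x.2.1 y.2.1, y.2.2) ∈ interior K := by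
    intro s
    induction s using Finset.induction_on with
    | empty =>
      have := hA Finset.univ
      simpa using this
    | insert j s hjs ih =>
      rw [Finset.piecewise_insert]
      have := interior_coord hK hanti ih j (x.2.1 j) (h2 j).1 (by
        simpa [Finset.piecewise_eq_of_notMem _ _ _ hjs] using (h2 j).2)
      exact this
  have := hB Finset.univ
  simp only [Finset.piecewise_univ] at this
  rw [← h3] at this
  exact this


/-- Uniform margin in a covering of a compact convex set by translates of its interior. -/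
lemma exists_margin {H : Type*} [NormedAddCommGroup H] [NormedSpace ℝ H] {B : Set H}
    (hBc : IsCompact B) (hBconv : Convex ℝ B) (hB0 : B ∈ 𝓝 (0 : H))
    {T : Finset H} (hT : ∀ b ∈ B, ∃ t ∈ T, b - t ∈ interior B) :
    ∃ θ : ℝ, 0 < θ ∧ ∀ b ∈ B, ∃ t ∈ T, gauge B (b - t) ≤ 1 - θ := by
  have hcont := continuous_gauge hBconv hB0
  let O : ℕ → Set H := fun n => {b | ∃ t ∈ T, gauge B (b - t) < 1 - 1 / ((n : ℝ) + 1)}
  have hO : ∀ n, IsOpen (O n) := by
    intro n
    have : O n = ⋃ t ∈ T, (fun b : H => gauge B (b - t)) ⁻¹' Iio (1 - 1 / ((n : ℝ) + 1)) := by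
      ext b
      simp [O]
    rw [this]
    exact isOpen_biUnion fun t _ => isOpen_Iio.preimage (by fun_prop)
  have hmono : Monotone O := by
    intro n m hnm b hb
    obtain ⟨t, ht, h⟩ := hb
    refine ⟨t, ht, h.trans_le ?_⟩
    have h1 : (n : ℝ) + 1 ≤ m + 1 := by
      have : (n : ℝ) ≤ m := by exact_mod_cast hnm
      linarith
    have := one_div_le_one_div_of_le (by positivity) h1
    linarith
  have hcov : B ⊆ ⋃ n, O n := by
    intro b hb
    obtain ⟨t, ht, h⟩ := hT b hb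
    have h1 : gauge B (b - t) < 1 := interior_subset_gauge_lt_one B h
    obtain ⟨n, hn⟩ := exists_nat_one_div_lt (sub_pos.2 h1)
    exact mem_iUnion.2 ⟨n, t, ht, by linarith⟩
  obtain ⟨n, hn⟩ := exists_of_monotone_cover hBc O hO hmono hcov
  refine ⟨1 / ((n : ℝ) + 1), by positivity, fun b hb => ?_⟩
  obtain ⟨t, ht, h⟩ := hn hb
  exact ⟨t, ht, h.le⟩

/-- Moving from a point along minus a covering vector decreases the gauge linearly. -/
lemma exists_gauge_step {H : Type*} [NormedAddCommGroup H] [NormedSpace ℝ H] {B : Set H}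
    (hBc : IsCompact B) (hBconv : Convex ℝ B) (hB0 : B ∈ 𝓝 (0 : H))
    {T : Finset H} {θ : ℝ} (hT : ∀ b ∈ B, ∃ t ∈ T, gauge B (b - t) ≤ 1 - θ)
    (x : H) (hx : x ≠ 0) :
    ∃ t ∈ T, ∀ ε : ℝ, 0 < ε → ε ≤ gauge B x → gauge B (x - ε • t) ≤ gauge B x - ε * θ := by
  have habs : Absorbent ℝ B := absorbent_nhds_zero hB0
  have hpos : 0 < gauge B x :=
    (gauge_pos habs (NormedSpace.isVonNBounded_of_isBounded ℝ hBc.isBounded)).2 hx
  set ρ := gauge B x with hρ
  have hb : ρ⁻¹ • x ∈ B := by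
    have h1 : gauge B (ρ⁻¹ • x) ≤ 1 := by
      rw [gauge_smul_of_nonneg (inv_nonneg.2 hpos.le), smul_eq_mul, ← hρ,
        inv_mul_cancel₀ hpos.ne']
    have := (gauge_le_one_iff_mem_closure hBconv hB0).1 h1
    rwa [hBc.isClosed.closure_eq] at this
  obtain ⟨t, ht, h⟩ := hT _ hb
  refine ⟨t, ht, fun ε hε hερ => ?_⟩
  have e1 : x - ε • t = (1 - ε / ρ) • x + (ε / ρ) • (ρ • (ρ⁻¹ • x - t)) := by
    rw [smul_sub, smul_smul ρ, mul_inv_cancel₀ hpos.ne', one_smul, smul_sub, smul_smul,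
      div_mul_cancel₀ _ hpos.ne', sub_smul, one_smul]
    abel
  have h01 : 0 ≤ 1 - ε / ρ := sub_nonneg.2 ((div_le_one hpos).2 hερ)
  calc gauge B (x - ε • t) ≤ gauge B ((1 - ε / ρ) • x)
        + gauge B ((ε / ρ) • (ρ • (ρ⁻¹ • x - t))) := by
        rw [e1]; exact gauge_add_le hBconv habs _ _
    _ = (1 - ε / ρ) * ρ + (ε / ρ) * (ρ * gauge B (ρ⁻¹ • x - t)) := by
        rw [gauge_smul_of_nonneg h01, gauge_smul_of_nonneg (div_nonneg hε.le hpos.le),
          gauge_smul_of_nonneg hpos.le, smul_eq_mul, smul_eq_mul, smul_eq_mul]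
    _ ≤ (1 - ε / ρ) * ρ + (ε / ρ) * (ρ * (1 - θ)) := by
        gcongr
    _ = ρ - ε * θ := by
        field_simp
        ring


/-- The last coordinate of the product. -/
abbrev prG (x : (∀ i, F i) × (κ → ℝ) × G) : G := x.2.2

/-- Interior points have positive anti-blocking coordinates. -/
lemma coord_pos_of_interior {K : Set ((∀ i, F i) × (κ → ℝ) × G)}
    (hanti : ∀ x ∈ K, ∀ j, 0 ≤ x.2.1 j)
    {y : (∀ i, F i) × (κ → ℝ) × G} (hy : y ∈ interior K) (j : κ) : 0 < y.2.1 j := by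
  -- move a little in the negative direction
  let v : (∀ i, F i) × (κ → ℝ) × G := (0, Pi.single j 1, 0)
  have hcont : Continuous fun s : ℝ => y - s • v := by fun_prop
  have hmem : ∀ᶠ s : ℝ in 𝓝 0, y - s • v ∈ interior K := by
    apply hcont.continuousAt.eventually_mem
    simpa using isOpen_interior.mem_nhds hy
  obtain ⟨δ, hδ, h⟩ := Metric.eventually_nhds_iff.1 hmem
  have h2 := h (y := δ / 2) (by
    rw [Real.dist_eq, sub_zero, abs_of_pos (by positivity)]
    linarith)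
  have h3 := hanti _ (interior_subset h2) j
  have h4 : (y - (δ / 2) • v).2.1 j = y.2.1 j - δ / 2 := by
    simp [v]
  rw [h4] at h3
  linarith

/-- Interior points of the shadow lift to interior points with small anti-blocking coordinates. -/
lemma exists_lift {K : Set ((∀ i, F i) × (κ → ℝ) × G)} (hK : Convex ℝ K)
    (hne : (interior K).Nonempty)
    {B : ∀ i, Set (F i)} (hB0 : ∀ i, B i ∈ 𝓝 (0 : F i))
    (hBb : ∀ i, Bornology.IsBounded (B i))
    (hsolid : ∀ x ∈ K, ∀ i, ∀ w : F i, gauge (B i) w ≤ gauge (B i) (x.1 i) →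
      (Function.update x.1 i w, x.2) ∈ K)
    (hanti : ∀ x ∈ K, ∀ j, 0 ≤ x.2.1 j ∧ (x.1, Function.update x.2.1 j 0, x.2.2) ∈ K)
    {y : G} (hy : y ∈ interior (prG '' K)) :
    ∃ n : ℕ, ((0 : ∀ i, F i), (fun _ : κ => 1 / ((n : ℝ) + 1)), y) ∈ interior K := by
  obtain ⟨q, hq⟩ := hne
  have hcont : Continuous fun s : ℝ => y + s • (y - q.2.2) := by fun_prop
  have hmem : ∀ᶠ s : ℝ in 𝓝 0, y + s • (y - q.2.2) ∈ interior (prG '' K) := by
    apply hcont.continuousAt.eventually_mem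
    simpa using isOpen_interior.mem_nhds hy
  obtain ⟨δ, hδ, h⟩ := Metric.eventually_nhds_iff.1 hmem
  have h2 := interior_subset (h (y := δ / 2) (by
    rw [Real.dist_eq, sub_zero, abs_of_pos (by positivity)]
    linarith))
  obtain ⟨k, hk, hk2⟩ := h2
  set s : ℝ := δ / 2 with hs
  have hs0 : 0 < s := by positivity
  set p : (∀ i, F i) × (κ → ℝ) × G := (s / (1 + s)) • q + (1 / (1 + s)) • k with hp
  have hpint : p ∈ interior K :=
    hK.combo_interior_self_mem_interior hq hk (by positivity) (by positivity)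
      (by field_simp; ring)
  have hpG : p.2.2 = y := by
    have hk3 : k.2.2 = y + s • (y - q.2.2) := hk2
    simp only [hp, Prod.snd_add, Prod.smul_snd, hk3]
    rw [smul_add, smul_smul, smul_sub]
    have e1 : 1 / (1 + s) * s = s / (1 + s) := by ring
    rw [e1]
    have e2 : (1 / (1 + s)) • y + (s / (1 + s)) • y = y := by
      rw [← add_smul]
      have : 1 / (1 + s) + s / (1 + s) = 1 := by field_simp
      rw [this, one_smul]
    calc (s / (1 + s)) • q.2.2 + ((1 / (1 + s)) • y + ((s / (1 + s)) • y - (s / (1 + s)) • q.2.2))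
        = (1 / (1 + s)) • y + (s / (1 + s)) • y := by abel
      _ = y := e2
  have hppos : ∀ j, 0 < p.2.1 j := fun j =>
    coord_pos_of_interior (fun x hx j => (hanti x hx j).1) hpint j
  -- a uniform lower bound
  obtain ⟨n, hn⟩ : ∃ n : ℕ, ∀ j, 1 / ((n : ℝ) + 1) ≤ p.2.1 j := by
    have : ∀ j, ∀ᶠ n : ℕ in atTop, 1 / ((n : ℝ) + 1) ≤ p.2.1 j := by
      intro j
      have ht := tendsto_one_div_add_atTop_nhds_zero_nat (𝕜 := ℝ)
      exact (ht.eventually_lt_const (hppos j)).mono fun n hn => hn.le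
    exact (eventually_all.2 this).exists
  refine ⟨n, ?_⟩
  apply interior_dominated hK hB0 hBb hsolid hanti hpint
  · intro i
    right
    rfl
  · intro j
    exact ⟨by positivity, hn j⟩
  · exact hpG.symm

/-- The uniform lift. -/
lemma exists_uniform_lift {K : Set ((∀ i, F i) × (κ → ℝ) × G)} (hK : Convex ℝ K)
    (hc : IsCompact K)
    (hne : (interior K).Nonempty)
    {B : ∀ i, Set (F i)} (hB0 : ∀ i, B i ∈ 𝓝 (0 : F i))
    (hBb : ∀ i, Bornology.IsBounded (B i))
    (hsolid : ∀ x ∈ K, ∀ i, ∀ w : F i, gauge (B i) w ≤ gauge (B i) (x.1 i) →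
      (Function.update x.1 i w, x.2) ∈ K)
    (hanti : ∀ x ∈ K, ∀ j, 0 ≤ x.2.1 j ∧ (x.1, Function.update x.2.1 j 0, x.2.2) ∈ K)
    {S : Finset G} (hS : ∀ y ∈ prG '' K, ∃ t ∈ S, y - t ∈ interior (prG '' K)) :
    ∃ r : ℝ, 0 < r ∧ ∀ x ∈ K, ∃ t ∈ S,
      ((0 : ∀ i, F i), (fun _ : κ => r), x.2.2 - t) ∈ interior K := by
  let O : ℕ → Set ((∀ i, F i) × (κ → ℝ) × G) := fun n =>
    {x | ∃ t ∈ S, ((0 : ∀ i, F i), (fun _ : κ => 1 / ((n : ℝ) + 1)), x.2.2 - t) ∈ interior K}
  have hO : ∀ n, IsOpen (O n) := by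
    intro n
    have : O n = ⋃ t ∈ S, (fun x : (∀ i, F i) × (κ → ℝ) × G =>
        ((0 : ∀ i, F i), (fun _ : κ => 1 / ((n : ℝ) + 1)), x.2.2 - t)) ⁻¹' interior K := by
      ext b
      simp [O]
    rw [this]
    exact isOpen_biUnion fun t _ => isOpen_interior.preimage (by fun_prop)
  have hmono : Monotone O := by
    intro n m hnm x hx
    obtain ⟨t, ht, h⟩ := hx
    refine ⟨t, ht, ?_⟩
    have h1 : (n : ℝ) + 1 ≤ m + 1 := by
      have : (n : ℝ) ≤ m := by exact_mod_cast hnm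
      linarith
    have := one_div_le_one_div_of_le (by positivity) h1
    apply interior_dominated hK hB0 hBb hsolid hanti h
    · intro i
      right
      rfl
    · intro j
      exact ⟨by positivity, this⟩
    · rfl
  have hcov : K ⊆ ⋃ n, O n := by
    intro x hx
    obtain ⟨t, ht, h⟩ := hS _ (mem_image_of_mem prG hx)
    obtain ⟨n, hn⟩ := exists_lift hK hne hB0 hBb hsolid hanti h
    exact mem_iUnion.2 ⟨n, t, ht, hn⟩
  obtain ⟨n, hn⟩ := exists_of_monotone_cover hc O hO hmono hcov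
  exact ⟨1 / ((n : ℝ) + 1), by positivity, fun x hx => hn hx⟩


/-- **Core theorem.**  `K` is a convex body in `(Π i, F i) × ℝ^κ × G`, solid in every block `F i`
with respect to the gauge of a convex body `B i` containing the origin in its interior, and
anti-blocking in every coordinate `j : κ`.  Then
`c(K) ≤ (∏ i, (c(B i) + 1)) * 2 ^ |κ| * c(pr_G K)`. -/
theorem coverBy_core {K : Set ((∀ i, F i) × (κ → ℝ) × G)} (hK : Convex ℝ K)
    (hc : IsCompact K) (hne : (interior K).Nonempty)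
    {B : ∀ i, Set (F i)} (hBconv : ∀ i, Convex ℝ (B i)) (hBc : ∀ i, IsCompact (B i))
    (hB0 : ∀ i, B i ∈ 𝓝 (0 : F i))
    (hsolid : ∀ x ∈ K, ∀ i, ∀ w : F i, gauge (B i) w ≤ gauge (B i) (x.1 i) →
      (Function.update x.1 i w, x.2) ∈ K)
    (hanti : ∀ x ∈ K, ∀ j, 0 ≤ x.2.1 j ∧ (x.1, Function.update x.2.1 j 0, x.2.2) ∈ K)
    {q : ι → ℕ} (hq : ∀ i, CoverBy (B i) (q i)) {n : ℕ} (hn : CoverBy (prG '' K) n) :
    CoverBy K ((∏ i, (q i + 1)) * 2 ^ Fintype.card κ * n) := by
  classical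
  have hBb : ∀ i, Bornology.IsBounded (B i) := fun i => (hBc i).isBounded
  have habs : ∀ i, Absorbent ℝ (B i) := fun i => absorbent_nhds_zero (hB0 i)
  -- the coverings
  have hq' : ∀ i, ∃ T : Finset (F i), T.card ≤ q i ∧ ∀ x ∈ B i, ∃ t ∈ T, x - t ∈ interior (B i) :=
    fun i => coverBy_iff.1 (hq i)
  choose T hTcard hTcov using hq'
  obtain ⟨S, hScard, hScov⟩ := coverBy_iff.1 hn
  -- uniform margin
  have hθ : ∀ i, ∀ᶠ θ : ℝ in 𝓝[>] 0, ∀ b ∈ B i, ∃ t ∈ T i, gauge (B i) (b - t) ≤ 1 - θ := by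
    intro i
    obtain ⟨θ, hθ, h⟩ := exists_margin (hBc i) (hBconv i) (hB0 i) (hTcov i)
    filter_upwards [Ioc_mem_nhdsGT hθ] with θ' hθ' b hb
    obtain ⟨t, ht, h'⟩ := h b hb
    exact ⟨t, ht, h'.trans (by linarith [hθ'.2])⟩
  obtain ⟨θ, hθT, hθ0, hθ1⟩ : ∃ θ : ℝ, (∀ i, ∀ b ∈ B i, ∃ t ∈ T i, gauge (B i) (b - t) ≤ 1 - θ) ∧
      0 < θ ∧ θ ≤ 1 := by
    have h1 := eventually_all.2 hθ
    have h2 : ∀ᶠ θ : ℝ in 𝓝[>] 0, θ ∈ Ioc (0 : ℝ) 1 := Ioc_mem_nhdsGT one_pos
    obtain ⟨θ, ha, hb⟩ := (h1.and h2).exists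
    exact ⟨θ, ha, hb.1, hb.2⟩
  -- uniform bound
  obtain ⟨R, hR1, hRg, hRc⟩ : ∃ R : ℝ, 1 ≤ R ∧ (∀ i, ∀ x ∈ K, gauge (B i) (x.1 i) < R) ∧
      (∀ j, ∀ x ∈ K, x.2.1 j < R) := by
    have h1 : ∀ i, ∀ᶠ R : ℝ in atTop, ∀ x ∈ K, gauge (B i) (x.1 i) < R := by
      intro i
      have hcont : Continuous fun x : (∀ i, F i) × (κ → ℝ) × G => gauge (B i) (x.1 i) :=
        (continuous_gauge (hBconv i) (hB0 i)).comp (by fun_prop)
      obtain ⟨M, hM⟩ := (hc.image hcont).bddAbove
      filter_upwards [eventually_gt_atTop M] with R hR x hx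
      exact (hM (mem_image_of_mem _ hx)).trans_lt hR
    have h2 : ∀ j, ∀ᶠ R : ℝ in atTop, ∀ x ∈ K, x.2.1 j < R := by
      intro j
      have hcont : Continuous fun x : (∀ i, F i) × (κ → ℝ) × G => x.2.1 j := by fun_prop
      obtain ⟨M, hM⟩ := (hc.image hcont).bddAbove
      filter_upwards [eventually_gt_atTop M] with R hR x hx
      exact (hM (mem_image_of_mem _ hx)).trans_lt hR
    obtain ⟨R, ha, hb, hc⟩ := ((eventually_all.2 h1).and ((eventually_all.2 h2).and
      (eventually_ge_atTop (1 : ℝ)))).exists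
    exact ⟨R, hc, ha, hb⟩
  have hR0 : 0 < R := one_pos.trans_le hR1
  obtain ⟨r, hr0, hr⟩ := exists_uniform_lift hK hc hne hB0 hBb hsolid hanti hScov
  -- the directions
  let dir : (∀ i, Option (T i)) × (κ → Bool) × S → (∀ i, F i) × (κ → ℝ) × G := fun p =>
    (fun i => match p.1 i with
      | none => 0
      | some t => -(t : F i),
     fun j => if p.2.1 j then -1 else θ * r / R,
     -((θ / R) • (p.2.2 : G)))
  let U : Finset ((∀ i, F i) × (κ → ℝ) × G) := Finset.univ.image dir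
  have hUcard : U.card ≤ (∏ i, (q i + 1)) * 2 ^ Fintype.card κ * n := by
    calc U.card ≤ (Finset.univ : Finset ((∀ i, Option (T i)) × (κ → Bool) × S)).card :=
          Finset.card_image_le
      _ = (∏ i, ((T i).card + 1)) * (2 ^ Fintype.card κ * S.card) := by
          rw [Finset.card_univ, Fintype.card_prod, Fintype.card_prod, Fintype.card_pi]
          simp
      _ ≤ (∏ i, (q i + 1)) * (2 ^ Fintype.card κ * n) := by
          gcongr with i _
          exact hTcard i
      _ = (∏ i, (q i + 1)) * 2 ^ Fintype.card κ * n := by ring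
  refine coverBy_of_illum hK hc U hUcard ?_
  intro x hx
  -- choose the block directions
  have hs : ∀ i, ∃ s : Option (T i), (x.1 i = 0 ∧ s = none) ∨ (x.1 i ≠ 0 ∧ ∃ t : T i, s = some t ∧
      ∀ ε : ℝ, 0 < ε → ε ≤ gauge (B i) (x.1 i) →
        gauge (B i) (x.1 i - ε • (t : F i)) ≤ gauge (B i) (x.1 i) - ε * θ) := by
    intro i
    rcases eq_or_ne (x.1 i) 0 with h0 | h0
    · exact ⟨none, Or.inl ⟨h0, rfl⟩⟩
    · obtain ⟨t, ht, h⟩ := exists_gauge_step (hBc i) (hBconv i) (hB0 i) (hθT i) (x.1 i) h0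
      exact ⟨some ⟨t, ht⟩, Or.inr ⟨h0, ⟨t, ht⟩, rfl, h⟩⟩
  choose s hs using hs
  obtain ⟨t, htS, hz⟩ := hr x hx
  let σ : κ → Bool := fun j => decide (0 < x.2.1 j)
  refine ⟨dir (s, σ, ⟨t, htS⟩), Finset.mem_image_of_mem _ (Finset.mem_univ _), ?_⟩
  -- choose the step
  obtain ⟨ε, hε0, hε1, hεg, hεc⟩ : ∃ ε : ℝ, 0 < ε ∧ ε < 1 ∧
      (∀ i, x.1 i ≠ 0 → ε ≤ gauge (B i) (x.1 i)) ∧ (∀ j, 0 < x.2.1 j → ε < x.2.1 j) := by
    have h1 : ∀ i, ∀ᶠ ε : ℝ in 𝓝[>] 0, x.1 i ≠ 0 → ε ≤ gauge (B i) (x.1 i) := by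
      intro i
      rcases eq_or_ne (x.1 i) 0 with h0 | h0
      · exact Eventually.of_forall fun ε h => absurd h0 h
      · have hpos : 0 < gauge (B i) (x.1 i) :=
          (gauge_pos (habs i) (NormedSpace.isVonNBounded_of_isBounded ℝ (hBb i))).2 h0
        filter_upwards [Ioc_mem_nhdsGT hpos] with ε hε _
        exact hε.2
    have h2 : ∀ j, ∀ᶠ ε : ℝ in 𝓝[>] 0, 0 < x.2.1 j → ε < x.2.1 j := by
      intro j
      by_cases h : 0 < x.2.1 j
      · filter_upwards [Ioo_mem_nhdsGT h] with ε hε _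
        exact hε.2
      · exact Eventually.of_forall fun ε h' => absurd h' h
    obtain ⟨ε, ha, hb, hc⟩ := ((eventually_all.2 h1).and ((eventually_all.2 h2).and
      (Ioo_mem_nhdsGT (one_pos (α := ℝ))))).exists
    exact ⟨ε, hc.1, hc.2, ha, hb⟩
  refine ⟨ε, hε0, ?_⟩
  set l : ℝ := θ * ε / R with hl
  have hl0 : 0 < l := by positivity
  have hl1 : l ≤ 1 := by
    rw [hl, div_le_one hR0]
    calc θ * ε ≤ 1 * 1 := by gcongr
      _ ≤ R := by linarith
  have hyint : (1 - l) • x + l • ((0 : ∀ i, F i), (fun _ : κ => r), x.2.2 - t) ∈ interior K :=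
    hK.combo_self_interior_mem_interior hx hz (by linarith) hl0 (by ring)
  apply interior_dominated hK hB0 hBb hsolid hanti hyint
  · intro i
    rcases hs i with ⟨h0, h1⟩ | ⟨h0, t', h1, h2⟩
    · right
      simp [dir, h0, h1]
    · left
      have hpos : 0 < gauge (B i) (x.1 i) :=
        (gauge_pos (habs i) (NormedSpace.isVonNBounded_of_isBounded ℝ (hBb i))).2 h0
      have e1 : (x + ε • dir (s, σ, ⟨t, htS⟩)).1 i = x.1 i - ε • (t' : F i) := by
        simp [dir, h1, sub_eq_add_neg]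
      have e2 : ((1 - l) • x + l • ((0 : ∀ i, F i), (fun _ : κ => r), x.2.2 - t)).1 i
          = (1 - l) • x.1 i := by
        simp
      rw [e1, e2, gauge_smul_of_nonneg (by linarith), smul_eq_mul]
      refine (h2 ε hε0 (hεg i h0)).trans_lt ?_
      have h3 : l * gauge (B i) (x.1 i) < ε * θ := by
        have h4 := hRg i x hx
        rw [hl, div_mul_eq_mul_div, div_lt_iff₀ hR0, mul_comm θ ε]
        exact mul_lt_mul_of_pos_left h4 (by positivity)
      linarith
  · intro j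
    have e2 : ((1 - l) • x + l • ((0 : ∀ i, F i), (fun _ : κ => r), x.2.2 - t)).2.1 j
        = (1 - l) * x.2.1 j + l * r := by
      simp
    rw [e2]
    by_cases h : 0 < x.2.1 j
    · have e1 : (x + ε • dir (s, σ, ⟨t, htS⟩)).2.1 j = x.2.1 j - ε := by
        simp [dir, σ, h, sub_eq_add_neg]
      rw [e1]
      refine ⟨by linarith [hεc j h], ?_⟩
      have h3 : l * x.2.1 j ≤ ε := by
        have h4 := hRc j x hx
        rw [hl, div_mul_eq_mul_div, div_le_iff₀ hR0]
        calc θ * ε * x.2.1 j ≤ 1 * ε * R := by gcongr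
          _ = ε * R := by ring
      have h5 : 0 ≤ l * r := by positivity
      linarith
    · have h0 : x.2.1 j = 0 := le_antisymm (not_lt.1 h) (hanti x hx j).1
      have e1 : (x + ε • dir (s, σ, ⟨t, htS⟩)).2.1 j = ε * (θ * r / R) := by
        simp [dir, σ, h0]
      rw [e1, h0]
      have e3 : ε * (θ * r / R) = l * r := by
        rw [hl]; ring
      rw [e3]
      refine ⟨by positivity, by linarith⟩
  · simp only [dir, Prod.snd_add, Prod.smul_snd]
    rw [smul_neg, smul_smul, ← sub_eq_add_neg, smul_sub, sub_smul, one_smul]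
    have : ε * (θ / R) = l := by rw [hl]; ring
    rw [this]
    abel

end Pool.Agent.Lib.HadwigerFibre
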