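import Mathlib
import Pool.Agent.Lib.HadwigerIllum

/-!
# The covering bound `2 ^ dim` in dimensions at most two (Levi)
-/

set_option autoImplicit false
set_option linter.unusedSectionVars false

open Set Filter Topology

namespace Pool.Agent.Lib.HadwigerPlane

open Pool.Agent.Lib.HadwigerIllum

/-- If the direction `u` does not illuminate `x`, some normal functional at `x` is nonnegative
on `u`. -/
lemma exists_normal {E : Type*} [NormedAddCommGroup E] [NormedSpace ℝ E] {K : Set E}
    (hK : Convex ℝ K) (hne : (interior K).Nonempty) {x : E} (hx : x ∈ K) (u : E)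
    (h : ∀ ε : ℝ, 0 < ε → x + ε • u ∉ interior K) :
    ∃ f : E →L[ℝ] ℝ, f ≠ 0 ∧ (∀ k ∈ K, f k ≤ f x) ∧ 0 ≤ f u := by
  have hconvt : Convex ℝ ((fun ε : ℝ => x + ε • u) '' Ioi 0) := by
    rintro _ ⟨a, ha, rfl⟩ _ ⟨b, hb, rfl⟩ s t hs ht hst
    refine ⟨s * a + t * b, ?_, ?_⟩
    · rcases hs.eq_or_lt with rfl | hs'
      · have : t = 1 := by linarith
        simpa [this] using hb
      · have h1 : 0 < s * a := mul_pos hs' ha
        have h2 : 0 ≤ t * b := mul_nonneg ht (le_of_lt hb)
        exact add_pos_of_pos_of_nonneg h1 h2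
    · have : x = (s + t) • x := by rw [hst, one_smul]
      calc x + (s * a + t * b) • u = (s + t) • x + (s * a + t * b) • u := by rw [← this]
        _ = s • (x + a • u) + t • (x + b • u) := by module
  have hdisj : Disjoint (interior K) ((fun ε : ℝ => x + ε • u) '' Ioi 0) := by
    rw [Set.disjoint_right]
    rintro _ ⟨a, ha, rfl⟩
    exact h a ha
  obtain ⟨f, c, hf1, hf2⟩ := geometric_hahn_banach_open hK.interior isOpen_interior hconvt hdisj
  have hcx : ∀ ε : ℝ, 0 < ε → c ≤ f x + ε * f u := by
    intro ε hε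
    have := hf2 _ (mem_image_of_mem _ hε)
    simpa using this
  have hcx0 : c ≤ f x := by
    have ht : Tendsto (fun ε : ℝ => f x + ε * f u) (𝓝[>] 0) (𝓝 (f x + 0 * f u)) := by
      apply Tendsto.mono_left _ nhdsWithin_le_nhds
      exact (Continuous.tendsto (by fun_prop) 0)
    rw [zero_mul, add_zero] at ht
    refine ge_of_tendsto ht ?_
    filter_upwards [self_mem_nhdsWithin] with ε hε
    exact hcx ε hε
  have hfk : ∀ k ∈ K, f k ≤ c := by
    intro k hk
    have hkc : k ∈ closure (interior K) := by
      rw [hK.closure_interior_eq_closure_of_nonempty_interior hne]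
      exact subset_closure hk
    have hcl : IsClosed {y : E | f y ≤ c} := isClosed_le f.continuous continuous_const
    exact closure_minimal (fun y hy => (hf1 y hy).le) hcl hkc
  refine ⟨f, ?_, fun k hk => (hfk k hk).trans hcx0, ?_⟩
  · rintro rfl
    obtain ⟨a, ha⟩ := hne
    have h1 := hf1 a ha
    have h2 := hcx 1 one_pos
    simp at h1 h2
    linarith
  · have h1 := hcx 1 one_pos
    have h2 := hfk x hx
    linarith

/-- The functional values through real and imaginary parts. -/
lemma clm_apply (f : ℂ →L[ℝ] ℝ) (z : ℂ) : f z = z.re * f 1 + z.im * f Complex.I := by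
  conv_lhs => rw [← Complex.re_add_im z]
  rw [map_add]
  have h1 : ((z.re : ℝ) : ℂ) = z.re • (1 : ℂ) := by simp
  have h2 : (z.im : ℂ) * Complex.I = z.im • Complex.I := by simp
  rw [h1, h2, map_smul, map_smul, smul_eq_mul, smul_eq_mul]

lemma clm_eq_zero (f : ℂ →L[ℝ] ℝ) (h1 : f 1 = 0) (h2 : f Complex.I = 0) : f = 0 := by
  ext z
  rw [clm_apply, h1, h2]
  simp


/-- Normalised planar case: `±1 ∈ K` are the only points of `K` on the lines `re = ±1`, and `K`
goes strictly below the real axis. -/
lemma cover_normalised {K : Set ℂ} (hK : Convex ℝ K) (hc : IsCompact K)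
    (hne : (interior K).Nonempty) (hp : (1 : ℂ) ∈ K) (hq : (-1 : ℂ) ∈ K)
    (hre : ∀ z ∈ K, -1 ≤ z.re ∧ z.re ≤ 1) (hre1 : ∀ z ∈ K, z.re = 1 → z.im = 0)
    (hre2 : ∀ z ∈ K, z.re = -1 → z.im = 0)
    {A A' : ℂ} (hA : A ∈ K) (hA2 : ∀ z ∈ K, z.im ≤ A.im) (hA' : A' ∈ K)
    (hA'2 : ∀ z ∈ K, A'.im ≤ z.im) (hGneg : A'.im < 0) : CoverBy K 4 := by
  have hHnn : 0 ≤ A.im := by simpa using hA2 1 hp
  have hb' : -1 < A'.re ∧ A'.re < 1 := by
    refine ⟨lt_of_le_of_ne (hre A' hA').1 fun h => ?_, lt_of_le_of_ne (hre A' hA').2 fun h => ?_⟩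
    · have := hre2 A' hA' h.symm; linarith
    · have := hre1 A' hA' h; linarith
  obtain ⟨G, hG⟩ : ∃ G : ℝ, A'.im = -G := ⟨-A'.im, by ring⟩
  have hGpos : 0 < G := by linarith
  obtain ⟨b, hb⟩ : ∃ b : ℝ, A.re = b := ⟨_, rfl⟩
  obtain ⟨b', hb'def⟩ : ∃ b' : ℝ, A'.re = b' := ⟨_, rfl⟩
  obtain ⟨H, hH⟩ : ∃ H : ℝ, A.im = H := ⟨_, rfl⟩
  rw [hb'def] at hb'
  rw [hH] at hHnn
  have hxG : ∀ x ∈ K, -G ≤ x.im := fun x hx => by rw [← hG]; exact hA'2 x hx
  have hxH : ∀ x ∈ K, x.im ≤ H := fun x hx => by rw [← hH]; exact hA2 x hx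
  -- the functional inequalities at a point
  have key : ∀ x ∈ K, ∀ u : ℂ, (∀ ε : ℝ, 0 < ε → x + ε • u ∉ interior K) →
      ∃ g h : ℝ, ¬ (g = 0 ∧ h = 0) ∧ (1 - x.re) * g - x.im * h ≤ 0 ∧
        (-1 - x.re) * g - x.im * h ≤ 0 ∧ (b - x.re) * g + (H - x.im) * h ≤ 0 ∧
        (b' - x.re) * g + (-G - x.im) * h ≤ 0 ∧ 0 ≤ u.re * g + u.im * h := by
    intro x hx u hu
    obtain ⟨f, hf0, hf1, hf2⟩ := exists_normal hK hne hx u hu
    refine ⟨f 1, f Complex.I, fun h => hf0 (clm_eq_zero f h.1 h.2), ?_, ?_, ?_, ?_, ?_⟩
    · have := hf1 1 hp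
      rw [clm_apply f x] at this
      linarith
    · have := hf1 (-1) hq
      rw [clm_apply f x, clm_apply f (-1)] at this
      simp at this
      linarith
    · have := hf1 A hA
      rw [clm_apply f x, clm_apply f A, hb, hH] at this
      linarith
    · have := hf1 A' hA'
      rw [clm_apply f x, clm_apply f A', hb'def, hG] at this
      linarith
    · rw [clm_apply f u] at hf2
      exact hf2
  -- common facts
  have sgn : ∀ x ∈ K, ∀ g h : ℝ, (1 - x.re) * g - x.im * h ≤ 0 →
      (-1 - x.re) * g - x.im * h ≤ 0 → (0 < x.im → 0 ≤ h) ∧ (x.im < 0 → h ≤ 0) := by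
    intro x hx g h h1 h2
    have hr := hre x hx
    have e1 := mul_nonpos_of_nonneg_of_nonpos (by linarith [hr.1] : 0 ≤ 1 + x.re) h1
    have e2 := mul_nonpos_of_nonneg_of_nonpos (by linarith [hr.2] : 0 ≤ 1 - x.re) h2
    have e : 0 ≤ x.im * h := by
      have : (1 + x.re) * ((1 - x.re) * g - x.im * h) + (1 - x.re) * ((-1 - x.re) * g - x.im * h)
        = -2 * (x.im * h) := by ring
      linarith
    constructor
    · intro hx0
      exact nonneg_of_mul_nonneg_right e hx0
    · intro hx0
      by_contra hh
      push Not at hh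
      have := mul_neg_of_neg_of_pos hx0 hh
      linarith
  -- lower part, common to both cases
  have hβ4 : 0 < (1 + b') / (2 * G) := div_pos (by linarith [hb'.1]) (by linarith)
  have hlow4 : ∀ x ∈ K, x.im < 0 → b' ≤ x.re → ∃ ε : ℝ, 0 < ε ∧
      x + ε • (⟨-((1 + b') / (2 * G)), 1⟩ : ℂ) ∈ interior K := by
    intro x hx hx0 hxb
    by_contra hcon
    push Not at hcon
    obtain ⟨g, h, hgh, h1, h2, h3, h4, h5⟩ := key x hx _ hcon
    simp only at h5
    have hh := (sgn x hx g h h1 h2).2 hx0
    obtain ⟨β, hβ⟩ : ∃ β : ℝ, β = (1 + b') / (2 * G) := ⟨_, rfl⟩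
    rw [← hβ] at h5 hβ4
    have hβG : β * G = (1 + b') / 2 := by rw [hβ]; field_simp
    rcases hxb.lt_or_eq with hlt | heq
    · -- g ≥ 0
      have hg : 0 ≤ g := by
        by_contra hg
        push Not at hg
        have : 0 < (b' - x.re) * g := mul_pos_of_neg_of_neg (by linarith) hg
        have : 0 ≤ (-G - x.im) * h := mul_nonneg_of_nonpos_of_nonpos (by linarith [hxG x hx]) hh
        linarith
      have h6 : β * g ≤ 0 := by linarith
      have h6' : g = 0 := le_antisymm (nonpos_of_mul_nonpos_right h6 hβ4) hg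
      rw [h6'] at h5
      exact hgh ⟨h6', le_antisymm hh (by linarith)⟩
    · rw [← heq] at h1 h2 h4
      rcases (hxG x hx).lt_or_eq with hlt | heq2
      · have h8 : 0 ≤ h := by
          by_contra hneg
          push Not at hneg
          have : 0 < (-G - x.im) * h := mul_pos_of_neg_of_neg (by linarith) hneg
          linarith
        have h9 : h = 0 := le_antisymm hh h8
        rw [h9] at h1 h2
        have h10 : g ≤ 0 := nonpos_of_mul_nonpos_right (by linarith : (1 - b') * g ≤ 0)
          (by linarith [hb'.2])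
        have h11 : 0 ≤ g := by
          by_contra hg
          push Not at hg
          have := mul_pos_of_neg_of_neg (by linarith [hb'.1] : -1 - b' < 0) hg
          linarith
        exact hgh ⟨le_antisymm h10 h11, h9⟩
      · rw [← heq2] at h1 h2
        have h12 : g ≤ 0 := by
          by_contra hg
          push Not at hg
          have : 0 < β * g := mul_pos hβ4 hg
          linarith
        have h13 : G * (β * g) ≤ G * h := mul_le_mul_of_nonneg_left (by linarith) hGpos.le
        have h14 : G * (β * g) = (1 + b') / 2 * g := by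
          calc G * (β * g) = β * G * g := by ring
            _ = _ := by rw [hβG]
        have h15 : 0 ≤ g := by
          by_contra hg
          push Not at hg
          have : 0 < (-(1 + b') / 2) * g :=
            mul_pos_of_neg_of_neg (by linarith [hb'.1]) hg
          linarith
        have h16 : g = 0 := le_antisymm h12 h15
        rw [h16] at h5
        exact hgh ⟨h16, le_antisymm hh (by linarith)⟩
  -- the real axis without `-1`
  have hβ1 : 0 < G / 4 := by linarith
  have hright : ∀ x ∈ K, x.im = 0 → -1 < x.re → ∃ ε : ℝ, 0 < ε ∧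
      x + ε • (⟨-1, -(G / 4)⟩ : ℂ) ∈ interior K := by
    intro x hx hx0 hxr
    by_contra hcon
    push Not at hcon
    obtain ⟨g, h, hgh, h1, h2, h3, h4, h5⟩ := key x hx _ hcon
    simp only at h5
    rw [hx0] at h1 h2 h3 h4
    have hr := hre x hx
    have hg : 0 ≤ g := by
      by_contra hg
      push Not at hg
      have := mul_pos_of_neg_of_neg (by linarith : -1 - x.re < 0) hg
      linarith
    have h7 : (b' - x.re + 4) * g ≤ 0 := by linarith
    have h11 : g = 0 :=
      le_antisymm (nonpos_of_mul_nonpos_right h7 (by linarith [hb'.1, hr.2])) hg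
    rw [h11] at h4 h5
    have h12 : 0 ≤ h := nonneg_of_mul_nonneg_right (by linarith : 0 ≤ G * h) hGpos
    have h13 : h ≤ 0 := nonpos_of_mul_nonpos_right (by linarith : G * h ≤ 0) hGpos
    exact hgh ⟨h11, le_antisymm h13 h12⟩
  -- lower left part
  have hlow3 : ∀ c : ℝ, 0 < c → ∀ x ∈ K, x.im < 0 → x.re < b' → ∃ ε : ℝ, 0 < ε ∧
      x + ε • (⟨1, c⟩ : ℂ) ∈ interior K := by
    intro c hc0 x hx hneg hxb
    by_contra hcon
    push Not at hcon
    obtain ⟨g, h, hgh, h1, h2, h3, h4, h5⟩ := key x hx _ hcon
    simp only at h5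
    have hh := (sgn x hx g h h1 h2).2 hneg
    have hg : g ≤ 0 := by
      by_contra hg
      push Not at hg
      have : 0 < (b' - x.re) * g := mul_pos (by linarith) hg
      have : 0 ≤ (-G - x.im) * h := mul_nonneg_of_nonpos_of_nonpos (by linarith [hxG x hx]) hh
      linarith
    have h6 : 0 ≤ c * h := by linarith
    have h6' : h = 0 := le_antisymm hh (nonneg_of_mul_nonneg_right h6 hc0)
    rw [h6'] at h5
    exact hgh ⟨le_antisymm hg (by linarith), h6'⟩
  rcases hHnn.lt_or_eq with hHpos | hH0
  · -- the body also goes above the axis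
    have hbb : -1 < b ∧ b < 1 := by
      rw [← hb]
      refine ⟨lt_of_le_of_ne (hre A hA).1 fun h => ?_, lt_of_le_of_ne (hre A hA).2 fun h => ?_⟩
      · have := hre2 A hA h.symm; linarith
      · have := hre1 A hA h; linarith
    have hβ2 : 0 < (1 - b) / (2 * H) := div_pos (by linarith [hbb.2]) (by linarith)
    let U : Finset ℂ := {⟨-1, -(G / 4)⟩, ⟨(1 - b) / (2 * H), -1⟩, ⟨1, H / 4⟩,
      ⟨-((1 + b') / (2 * G)), 1⟩}
    refine coverBy_of_illum hK hc U ?_ ?_
    · exact (Finset.card_le_four)
    · intro x hx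
      have hr := hre x hx
      rcases lt_trichotomy x.im 0 with hneg | hzero | hpos
      · -- lower part
        rcases le_or_gt b' x.re with hxb | hxb
        · obtain ⟨ε, hε, h⟩ := hlow4 x hx hneg hxb
          exact ⟨_, by simp [U], ε, hε, h⟩
        · obtain ⟨ε, hε, h⟩ := hlow3 (H / 4) (by linarith) x hx hneg hxb
          exact ⟨_, by simp [U], ε, hε, h⟩
      · rcases hr.1.lt_or_eq with hlt | heq
        · obtain ⟨ε, hε, h⟩ := hright x hx hzero hlt
          exact ⟨_, by simp [U], ε, hε, h⟩
        · -- the point -1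
          refine ⟨⟨1, H / 4⟩, by simp [U], ?_⟩
          by_contra hcon
          push Not at hcon
          obtain ⟨g, h, hgh, h1, h2, h3, h4, h5⟩ := key x hx _ hcon
          simp only at h5
          rw [hzero, ← heq] at h1 h2 h3 h4
          have hg : g ≤ 0 := by linarith
          have h7 : 0 ≤ (3 - b) * g := by linarith
          have h10 : g = 0 :=
            le_antisymm hg (nonneg_of_mul_nonneg_right h7 (by linarith [hbb.2]))
          rw [h10] at h3 h4 h5
          have h12 : h ≤ 0 := nonpos_of_mul_nonpos_right (by linarith : H * h ≤ 0) hHpos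
          have h13 : 0 ≤ h := nonneg_of_mul_nonneg_right (by linarith : 0 ≤ H * h) hHpos
          exact hgh ⟨h10, le_antisymm h12 h13⟩
      · -- upper part
        rcases lt_or_ge b x.re with hxb | hxb
        · refine ⟨⟨-1, -(G / 4)⟩, by simp [U], ?_⟩
          by_contra hcon
          push Not at hcon
          obtain ⟨g, h, hgh, h1, h2, h3, h4, h5⟩ := key x hx _ hcon
          simp only at h5
          have hh := (sgn x hx g h h1 h2).1 hpos
          have hg : 0 ≤ g := by
            by_contra hg
            push Not at hg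
            have : 0 < (b - x.re) * g := mul_pos_of_neg_of_neg (by linarith) hg
            have : 0 ≤ (H - x.im) * h := mul_nonneg (by linarith [hxH x hx]) hh
            linarith
          have h6' : G * h ≤ 0 := by linarith
          have h6 : h = 0 := le_antisymm (nonpos_of_mul_nonpos_right h6' hGpos) hh
          rw [h6] at h5
          exact hgh ⟨le_antisymm (by linarith) hg, h6⟩
        · refine ⟨⟨(1 - b) / (2 * H), -1⟩, by simp [U], ?_⟩
          by_contra hcon
          push Not at hcon
          obtain ⟨g, h, hgh, h1, h2, h3, h4, h5⟩ := key x hx _ hcon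
          simp only at h5
          have hh := (sgn x hx g h h1 h2).1 hpos
          obtain ⟨β, hβ⟩ : ∃ β : ℝ, β = (1 - b) / (2 * H) := ⟨_, rfl⟩
          rw [← hβ] at h5 hβ2
          have hβH : β * H = (1 - b) / 2 := by rw [hβ]; field_simp
          rcases hxb.lt_or_eq with hlt | heq
          · have hg : g ≤ 0 := by
              by_contra hg
              push Not at hg
              have : 0 < (b - x.re) * g := mul_pos (by linarith) hg
              have : 0 ≤ (H - x.im) * h := mul_nonneg (by linarith [hxH x hx]) hh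
              linarith
            have h6' : 0 ≤ β * g := by linarith
            have h6 : g = 0 := le_antisymm hg (nonneg_of_mul_nonneg_right h6' hβ2)
            rw [h6] at h5
            exact hgh ⟨h6, le_antisymm (by linarith) hh⟩
          · rw [heq] at h1 h2 h3
            rcases (hxH x hx).lt_or_eq with hlt | heq2
            · have h8 : h ≤ 0 := by
                by_contra hneg
                push Not at hneg
                have : 0 < (H - x.im) * h := mul_pos (by linarith) hneg
                linarith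
              have h9 : h = 0 := le_antisymm h8 hh
              rw [h9] at h1 h2
              have h10 : g ≤ 0 := nonpos_of_mul_nonpos_right (by linarith : (1 - b) * g ≤ 0)
                (by linarith [hbb.2])
              have h11 : 0 ≤ g := by
                by_contra hg
                push Not at hg
                have := mul_pos_of_neg_of_neg (by linarith [hbb.1] : -1 - b < 0) hg
                linarith
              exact hgh ⟨le_antisymm h10 h11, h9⟩
            · rw [heq2] at h1 h2
              have h12 : 0 ≤ g := by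
                by_contra hg
                push Not at hg
                have : β * g < 0 := mul_neg_of_pos_of_neg hβ2 hg
                linarith
              have h13 : H * h ≤ H * (β * g) := mul_le_mul_of_nonneg_left (by linarith) hHpos.le
              have h14 : H * (β * g) = (1 - b) / 2 * g := by
                calc H * (β * g) = β * H * g := by ring
                  _ = _ := by rw [hβH]
              have h15 : g ≤ 0 :=
                nonpos_of_mul_nonpos_right (by linarith : (1 - b) * g ≤ 0) (by linarith [hbb.2])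
              have h16 : g = 0 := le_antisymm h15 h12
              rw [h16] at h5
              exact hgh ⟨h16, le_antisymm (by linarith) hh⟩
  · -- the real segment is in the boundary
    let U : Finset ℂ := {⟨-1, -(G / 4)⟩, ⟨1, -(G / 4)⟩, ⟨1, 1⟩, ⟨-((1 + b') / (2 * G)), 1⟩}
    refine coverBy_of_illum hK hc U ?_ ?_
    · exact (Finset.card_le_four)
    · intro x hx
      have hr := hre x hx
      have hxH' : x.im ≤ 0 := by
        have := hxH x hx
        linarith
      rcases hxH'.lt_or_eq with hneg | hzero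
      · rcases le_or_gt b' x.re with hxb | hxb
        · obtain ⟨ε, hε, h⟩ := hlow4 x hx hneg hxb
          exact ⟨_, by simp [U], ε, hε, h⟩
        · obtain ⟨ε, hε, h⟩ := hlow3 1 one_pos x hx hneg hxb
          exact ⟨_, by simp [U], ε, hε, h⟩
      · rcases hr.1.lt_or_eq with hlt | heq
        · obtain ⟨ε, hε, h⟩ := hright x hx hzero hlt
          exact ⟨_, by simp [U], ε, hε, h⟩
        · refine ⟨⟨1, -(G / 4)⟩, by simp [U], ?_⟩
          by_contra hcon
          push Not at hcon
          obtain ⟨g, h, hgh, h1, h2, h3, h4, h5⟩ := key x hx _ hcon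
          simp only at h5
          rw [hzero, ← heq] at h1 h2 h3 h4
          have hg : g ≤ 0 := by linarith
          have h7 : 0 ≤ (3 - b') * g := by linarith
          have h10 : g = 0 :=
            le_antisymm hg (nonneg_of_mul_nonneg_right h7 (by linarith [hb'.2]))
          rw [h10] at h4 h5
          have h12 : 0 ≤ h := nonneg_of_mul_nonneg_right (by linarith : 0 ≤ G * h) hGpos
          have h13 : h ≤ 0 := nonpos_of_mul_nonpos_right (by linarith : G * h ≤ 0) hGpos
          exact hgh ⟨h10, le_antisymm h13 h12⟩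


lemma CoverBy.translate {E : Type*} [NormedAddCommGroup E] [NormedSpace ℝ E] {K : Set E} {N : ℕ}
    (h : CoverBy K N) (a : E) : CoverBy ((fun x => a + x) '' K) N := by
  rw [coverBy_iff] at h ⊢
  obtain ⟨T, hT, hK⟩ := h
  refine ⟨T, hT, ?_⟩
  rintro _ ⟨x, hx, rfl⟩
  obtain ⟨t, ht, hy⟩ := hK x hx
  refine ⟨t, ht, ?_⟩
  have h1 : (fun x => a + x) '' interior K = interior ((fun x => a + x) '' K) :=
    (Homeomorph.addLeft a).image_interior K
  rw [← h1]
  exact ⟨x - t, hy, by simp only; abel⟩

/-- The case of the plane, after normalisation of a diameter. -/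
lemma cover_diam {K : Set ℂ} (hK : Convex ℝ K) (hc : IsCompact K)
    (hne : (interior K).Nonempty) (hp : (1 : ℂ) ∈ K) (hq : (-1 : ℂ) ∈ K)
    (h1 : ∀ z ∈ K, ‖z - 1‖ ≤ 2) (h2 : ∀ z ∈ K, ‖z - (-1)‖ ≤ 2) : CoverBy K 4 := by
  have e1 : ∀ z ∈ K, (z.re - 1) ^ 2 + z.im ^ 2 ≤ 4 := by
    intro z hz
    have h3 : ‖z - 1‖ ^ 2 ≤ 2 ^ 2 := by
      have := h1 z hz
      gcongr
    rw [Complex.sq_norm, Complex.normSq_apply] at h3
    simp at h3
    nlinarith
  have e2 : ∀ z ∈ K, (z.re + 1) ^ 2 + z.im ^ 2 ≤ 4 := by
    intro z hz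
    have h3 : ‖z - (-1)‖ ^ 2 ≤ 2 ^ 2 := by
      have := h2 z hz
      gcongr
    rw [Complex.sq_norm, Complex.normSq_apply] at h3
    simp at h3
    nlinarith
  have hre : ∀ z ∈ K, -1 ≤ z.re ∧ z.re ≤ 1 := by
    intro z hz
    constructor
    · nlinarith [e1 z hz, sq_nonneg z.im]
    · nlinarith [e2 z hz, sq_nonneg z.im]
  have hre1 : ∀ z ∈ K, z.re = 1 → z.im = 0 := by
    intro z hz h
    have := e2 z hz
    rw [h] at this
    have : z.im ^ 2 ≤ 0 := by linarith
    exact pow_eq_zero_iff (two_ne_zero) |>.1 (le_antisymm this (sq_nonneg _))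
  have hre2 : ∀ z ∈ K, z.re = -1 → z.im = 0 := by
    intro z hz h
    have := e1 z hz
    rw [h] at this
    have : z.im ^ 2 ≤ 0 := by linarith
    exact pow_eq_zero_iff (two_ne_zero) |>.1 (le_antisymm this (sq_nonneg _))
  obtain ⟨A, hA, hAmax⟩ := hc.exists_isMaxOn ⟨_, hp⟩ Complex.continuous_im.continuousOn
  obtain ⟨A', hA', hA'min⟩ := hc.exists_isMinOn ⟨_, hp⟩ Complex.continuous_im.continuousOn
  have hA2 : ∀ z ∈ K, z.im ≤ A.im := fun z hz => hAmax hz
  have hA'2 : ∀ z ∈ K, A'.im ≤ z.im := fun z hz => hA'min hz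
  by_cases hneg : A'.im < 0
  · exact cover_normalised hK hc hne hp hq hre hre1 hre2 hA hA2 hA' hA'2 hneg
  · push Not at hneg
    -- reflect
    have hApos : 0 < A.im := by
      by_contra hcon
      push Not at hcon
      obtain ⟨z, hz⟩ := hne
      have hcont : Continuous fun s : ℝ => z + s • Complex.I := by fun_prop
      have hmem : ∀ᶠ s : ℝ in 𝓝 0, z + s • Complex.I ∈ interior K := by
        apply hcont.continuousAt.eventually_mem
        simpa using isOpen_interior.mem_nhds hz
      obtain ⟨δ, hδ, h⟩ := Metric.eventually_nhds_iff.1 hmem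
      have h4 := interior_subset (h (y := δ / 2) (by
        rw [Real.dist_eq, sub_zero, abs_of_pos (by positivity)]
        linarith))
      have h5 := hA2 _ h4
      have h6 := hA'2 _ (interior_subset hz)
      simp at h5
      linarith
    let e : ℂ ≃L[ℝ] ℂ := Complex.conjCLE
    have hKe : Convex ℝ (e '' K) := hK.linear_image e.toLinearMap
    have hce : IsCompact (e '' K) := hc.image e.continuous
    have hnee : (interior (e '' K)).Nonempty := by
      have : e '' interior K = interior (e '' K) := e.toHomeomorph.image_interior K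
      rw [← this]
      exact hne.image _
    have hcov : CoverBy (e '' K) 4 := by
      have hAe : e A' ∈ e '' K := mem_image_of_mem _ hA'
      have hA'e : e A ∈ e '' K := mem_image_of_mem _ hA
      refine cover_normalised hKe hce hnee ⟨1, hp, by simp [e]⟩ ⟨-1, hq, by simp [e]⟩ ?_ ?_ ?_
        hAe ?_ hA'e ?_ ?_
      · rintro _ ⟨z, hz, rfl⟩
        simpa [e] using hre z hz
      · rintro _ ⟨z, hz, rfl⟩ h
        simpa [e] using hre1 z hz (by simpa [e] using h)
      · rintro _ ⟨z, hz, rfl⟩ h
        simpa [e] using hre2 z hz (by simpa [e] using h)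
      · rintro _ ⟨z, hz, rfl⟩
        simpa [e] using hA'2 z hz
      · rintro _ ⟨z, hz, rfl⟩
        simpa [e] using hA2 z hz
      · simpa [e] using hApos
    have h7 := hcov.image e.symm
    have h8 : e.symm '' (e '' K) = K := by
      rw [image_image]
      simp
    rwa [h8] at h7

/-- Levi's bound for plane convex bodies. -/
theorem cover_complex {K : Set ℂ} (hK : Convex ℝ K) (hc : IsCompact K)
    (hne : (interior K).Nonempty) : CoverBy K 4 := by
  -- a pair of points at maximal distance
  have hKne : K.Nonempty := hne.mono interior_subset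
  obtain ⟨⟨p, q⟩, ⟨hp, hq⟩, hmax⟩ := (hc.prod hc).exists_isMaxOn (hKne.prod hKne)
    (f := fun x : ℂ × ℂ => dist x.1 x.2) (by fun_prop)
  have hdist : ∀ x ∈ K, ∀ y ∈ K, ‖x - y‖ ≤ ‖p - q‖ := by
    intro x hx y hy
    have := hmax (mk_mem_prod hx hy)
    simpa [dist_eq_norm] using this
  simp only at hp hq
  have hpq : p ≠ q := by
    rintro rfl
    obtain ⟨z, hz⟩ := hne
    have hcont : Continuous fun s : ℝ => z + s • (1 : ℂ) := by fun_prop
    have hmem : ∀ᶠ s : ℝ in 𝓝 0, z + s • (1 : ℂ) ∈ interior K := by
      apply hcont.continuousAt.eventually_mem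
      simpa using isOpen_interior.mem_nhds hz
    obtain ⟨δ, hδ, h⟩ := Metric.eventually_nhds_iff.1 hmem
    have h4 := interior_subset (h (y := δ / 2) (by
      rw [Real.dist_eq, sub_zero, abs_of_pos (by positivity)]
      linarith))
    have h5 := hdist _ h4 _ (interior_subset hz)
    simp at h5
    rw [abs_of_pos hδ] at h5
    linarith
  set w : ℂ := (p - q) / 2 with hw
  have hw0 : w ≠ 0 := by
    rw [hw]
    exact div_ne_zero (sub_ne_zero.2 hpq) two_ne_zero
  set c : ℂ := (p + q) / 2 with hcdef
  let u : ℂˣ := (Units.mk0 w hw0)⁻¹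
  let e : ℂ ≃L[ℝ] ℂ := ContinuousLinearEquiv.smulLeft u
  have he : ∀ z : ℂ, e z = w⁻¹ * z := fun z => rfl
  set K1 : Set ℂ := (fun z => -c + z) '' K with hK1
  set K2 : Set ℂ := e '' K1 with hK2
  have hK2mem : ∀ y : ℂ, y ∈ K2 ↔ ∃ z ∈ K, y = w⁻¹ * (-c + z) := by
    intro y
    constructor
    · rintro ⟨_, ⟨z, hz, rfl⟩, rfl⟩
      exact ⟨z, hz, rfl⟩
    · rintro ⟨z, hz, rfl⟩
      exact ⟨_, ⟨z, hz, rfl⟩, rfl⟩
  have hconv1 : Convex ℝ K1 := hK.translate (-c)
  have hconv2 : Convex ℝ K2 := hconv1.linear_image e.toLinearMap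
  have hc1 : IsCompact K1 := hc.image (by fun_prop)
  have hc2 : IsCompact K2 := hc1.image e.continuous
  have hne1 : (interior K1).Nonempty := by
    have : (fun z => -c + z) '' interior K = interior K1 :=
      (Homeomorph.addLeft (-c)).image_interior K
    rw [← this]
    exact hne.image _
  have hne2 : (interior K2).Nonempty := by
    have : e '' interior K1 = interior K2 := e.toHomeomorph.image_interior K1
    rw [← this]
    exact hne1.image _
  have hwnorm : ‖p - q‖ = 2 * ‖w‖ := by
    rw [hw, norm_div]
    simp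
    ring
  have hwpos : 0 < ‖w‖ := norm_pos_iff.2 hw0
  have hcov2 : CoverBy K2 4 := by
    refine cover_diam hconv2 hc2 hne2 ?_ ?_ ?_ ?_
    · rw [hK2mem]
      refine ⟨p, hp, ?_⟩
      have : -c + p = w := by rw [hcdef, hw]; ring
      rw [this, inv_mul_cancel₀ hw0]
    · rw [hK2mem]
      refine ⟨q, hq, ?_⟩
      have : -c + q = -w := by rw [hcdef, hw]; ring
      rw [this, mul_neg, inv_mul_cancel₀ hw0]
    · intro y hy
      obtain ⟨z, hz, rfl⟩ := (hK2mem y).1 hy
      have : w⁻¹ * (-c + z) - 1 = w⁻¹ * (z - p) := by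
        have h1 : (1 : ℂ) = w⁻¹ * w := (inv_mul_cancel₀ hw0).symm
        rw [h1, ← mul_sub]
        congr 1
        rw [hcdef, hw]; ring
      rw [this, norm_mul, norm_inv, inv_mul_le_iff₀ hwpos]
      have := hdist z hz p hp
      linarith
    · intro y hy
      obtain ⟨z, hz, rfl⟩ := (hK2mem y).1 hy
      have : w⁻¹ * (-c + z) - (-1) = w⁻¹ * (z - q) := by
        have h1 : (1 : ℂ) = w⁻¹ * w := (inv_mul_cancel₀ hw0).symm
        rw [h1, ← mul_neg, ← mul_sub]
        congr 1
        rw [hcdef, hw]; ring
      rw [this, norm_mul, norm_inv, inv_mul_le_iff₀ hwpos]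
      have := hdist z hz q hq
      linarith
  have hcov1 : CoverBy K1 4 := by
    have h7 := hcov2.image e.symm
    have h8 : e.symm '' K2 = K1 := by
      rw [hK2, image_image]
      simp
    rwa [h8] at h7
  have h9 := CoverBy.translate hcov1 c
  have h10 : (fun x => c + x) '' K1 = K := by
    rw [hK1, image_image]
    simp
  rwa [h10] at h9

/-- The bound `2 ^ dim` holds in every real normed space of dimension at most two. -/
theorem cover_le_two {E : Type*} [NormedAddCommGroup E] [NormedSpace ℝ E] [FiniteDimensional ℝ E]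
    (hdim : Module.finrank ℝ E ≤ 2) {K : Set E} (hK : Convex ℝ K) (hc : IsCompact K)
    (hne : (interior K).Nonempty) : CoverBy K (2 ^ Module.finrank ℝ E) := by
  have h012 : Module.finrank ℝ E = 0 ∨ Module.finrank ℝ E = 1 ∨ Module.finrank ℝ E = 2 := by
    omega
  rcases h012 with h | h | h
  · rw [h]
    have hsub : Subsingleton E := Module.finrank_zero_iff.1 h
    obtain ⟨c, hcint⟩ := hne
    refine coverBy_of_illum hK hc {0} (by simp) fun x _ => ⟨0, by simp, 1, one_pos, ?_⟩
    rwa [Subsingleton.elim (x + (1 : ℝ) • (0 : E)) c]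
  · rw [h, pow_one]
    let e : E ≃L[ℝ] ℝ := ContinuousLinearEquiv.ofFinrankEq (by rw [h, Module.finrank_self])
    have hconv : Convex ℝ (e '' K) := hK.linear_image e.toLinearMap
    have hce : IsCompact (e '' K) := hc.image e.continuous
    have hcov : CoverBy (e '' K) 2 := by
      have hnee : (interior (e '' K)).Nonempty := by
        have : e '' interior K = interior (e '' K) := e.toHomeomorph.image_interior K
        rw [← this]
        exact hne.image _
      obtain ⟨c, hcint⟩ := hnee
      refine coverBy_of_illum hconv hce {1, -1} Finset.card_le_two fun x hx => ?_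
      rcases lt_trichotomy x c with hlt | heq | hgt
      · refine ⟨1, by simp, c - x, by linarith, ?_⟩
        simpa using hcint
      · have hcont : Continuous fun s : ℝ => x + s • (1 : ℝ) := by fun_prop
        have hmem : ∀ᶠ s : ℝ in 𝓝 0, x + s • (1 : ℝ) ∈ interior (e '' K) := by
          apply hcont.continuousAt.eventually_mem
          rw [heq]
          simpa using isOpen_interior.mem_nhds hcint
        obtain ⟨δ, hδ, h⟩ := Metric.eventually_nhds_iff.1 hmem
        exact ⟨1, by simp, δ / 2, by positivity, h (by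
          rw [Real.dist_eq, sub_zero, abs_of_pos (by positivity)]
          linarith)⟩
      · refine ⟨-1, by simp, x - c, by linarith, ?_⟩
        simpa using hcint
    have h7 := hcov.image e.symm
    have h8 : e.symm '' (e '' K) = K := by
      rw [image_image]
      simp
    rwa [h8] at h7
  · rw [h]
    let e : E ≃L[ℝ] ℂ := ContinuousLinearEquiv.ofFinrankEq (by rw [h, Complex.finrank_real_complex])
    have hconv : Convex ℝ (e '' K) := hK.linear_image e.toLinearMap
    have hce : IsCompact (e '' K) := hc.image e.continuous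
    have hnee : (interior (e '' K)).Nonempty := by
      have : e '' interior K = interior (e '' K) := e.toHomeomorph.image_interior K
      rw [← this]
      exact hne.image _
    have h7 := (cover_complex hconv hce hnee).image e.symm
    have h8 : e.symm '' (e '' K) = K := by
      rw [image_image]
      simp
    rw [h8] at h7
    exact h7.mono (by norm_num)

end Pool.Agent.Lib.HadwigerPlane
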