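import Mathlib
import Pool.Agent.Lib.HadwigerIllum
import Pool.Agent.Lib.HadwigerFibre
import Pool.Agent.Lib.HadwigerPlane

/-!
# Orthogonal block decompositions and rotational symmetry
-/

set_option autoImplicit false
set_option linter.unusedSectionVars false

open Set Filter Topology Module

namespace Pool.Agent.Lib.HadwigerBlocks

open Pool.Agent.Lib.HadwigerIllum Pool.Agent.Lib.HadwigerFibre Pool.Agent.Lib.HadwigerPlane

/-- The closed unit ball of an `m`-dimensional inner product space is covered by `m + 1`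
translates of its interior. -/
theorem cover_ball {V : Type*} [NormedAddCommGroup V] [InnerProductSpace ℝ V]
    [FiniteDimensional ℝ V] : CoverBy (Metric.closedBall (0 : V) 1) (finrank ℝ V + 1) := by
  classical
  let b := stdOrthonormalBasis ℝ V
  let U : Finset V := insert (∑ i, b i) (Finset.univ.image fun i => -(b i))
  have hU : U.card ≤ finrank ℝ V + 1 := by
    refine (Finset.card_insert_le _ _).trans ?_
    gcongr
    refine Finset.card_image_le.trans ?_
    simp
  have hint : Metric.ball (0 : V) 1 ⊆ interior (Metric.closedBall (0 : V) 1) :=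
    Metric.isOpen_ball.subset_interior_iff.2 Metric.ball_subset_closedBall
  refine coverBy_of_illum (convex_closedBall _ _) (isCompact_closedBall _ _) U hU ?_
  intro x hx
  rcases eq_or_ne x 0 with rfl | hx0
  · refine ⟨∑ i, b i, by simp [U], ?_⟩
    have hcont : Continuous fun s : ℝ => (0 : V) + s • (∑ i, b i) := by fun_prop
    have hmem : ∀ᶠ s : ℝ in 𝓝[>] 0, (0 : V) + s • (∑ i, b i) ∈
        interior (Metric.closedBall (0 : V) 1) := by
      apply Filter.Eventually.filter_mono nhdsWithin_le_nhds
      apply hcont.continuousAt.eventually_mem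
      apply isOpen_interior.mem_nhds
      apply hint
      simp
    obtain ⟨s, hs, hs2⟩ := (hmem.and self_mem_nhdsWithin).exists
    exact ⟨s, hs2, hs⟩
  · -- an acute direction
    have hdir : ∃ u ∈ U, inner ℝ x u < 0 := by
      by_cases h : ∃ i, 0 < inner ℝ x (b i)
      · obtain ⟨i, hi⟩ := h
        refine ⟨-(b i), by simp [U], ?_⟩
        rw [inner_neg_right]
        linarith
      · push Not at h
        refine ⟨∑ i, b i, by simp [U], ?_⟩
        rw [inner_sum]
        have hex : ∃ i, inner ℝ x (b i) ≠ 0 := by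
          by_contra hall
          push Not at hall
          apply hx0
          have := b.sum_repr' x
          rw [← this]
          apply Finset.sum_eq_zero
          intro i _
          rw [real_inner_comm, hall i, zero_smul]
        obtain ⟨i, hi⟩ := hex
        exact Finset.sum_neg' (fun j _ => h j) ⟨i, Finset.mem_univ _, lt_of_le_of_ne (h i) hi⟩
    obtain ⟨u, hu, hneg⟩ := hdir
    refine ⟨u, hu, ?_⟩
    have hx1 : ‖x‖ ≤ 1 := by simpa using hx
    -- choose the step
    refine ⟨-(inner ℝ x u) / (‖u‖ ^ 2 + 1), by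
      apply div_pos (by linarith) (by positivity), ?_⟩
    apply hint
    rw [mem_ball_zero_iff, ← abs_norm, ← sq_lt_one_iff_abs_lt_one, norm_add_sq_real, norm_smul,
      inner_smul_right, mul_pow]
    set a : ℝ := -(inner ℝ x u) with ha
    have hapos : 0 < a := by rw [ha]; linarith
    have e1 : inner ℝ x u = -a := by rw [ha]; ring
    rw [e1, Real.norm_eq_abs, sq_abs]
    have hpos : 0 < ‖u‖ ^ 2 + 1 := by positivity
    have hx2 : ‖x‖ ^ 2 ≤ 1 := by
      have := norm_nonneg x
      nlinarith
    have e2 : (a / (‖u‖ ^ 2 + 1)) ^ 2 * ‖u‖ ^ 2 ≤ a * (a / (‖u‖ ^ 2 + 1)) := by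
      rw [div_pow, div_mul_eq_mul_div, mul_div_assoc', div_le_div_iff₀ (by positivity) hpos]
      have h1 : 0 ≤ a ^ 2 * (‖u‖ ^ 2 + 1) := by positivity
      nlinarith [sq_nonneg a, sq_nonneg ‖u‖]
    have e3 : 0 < a * (a / (‖u‖ ^ 2 + 1)) := by positivity
    nlinarith

/-- Rotational symmetry along `V` implies solidity along `V`. -/
theorem solid_of_reflection {E : Type*} [NormedAddCommGroup E] [InnerProductSpace ℝ E]
    {K : Set E} (hK : Convex ℝ K) (V : Submodule ℝ E) [V.HasOrthogonalProjection]
    (hrot : ∀ v ∈ V, ∀ x ∈ K, (ℝ ∙ v)ᗮ.reflection x ∈ K)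
    {x : E} (hx : x ∈ K) {w : E} (hw : w ∈ V) (hle : ‖w‖ ≤ ‖V.starProjection x‖) :
    x - V.starProjection x + w ∈ K := by
  -- the sphere case
  have hsphere : ∀ w' ∈ V, ‖w'‖ = ‖V.starProjection x‖ → x - V.starProjection x + w' ∈ K := by
    intro w' hw' heq
    have hPx : V.starProjection x ∈ V := V.starProjection_apply_mem x
    have hv : V.starProjection x - w' ∈ V := V.sub_mem hPx hw'
    have h1 := hrot _ hv x hx
    have h2 : (ℝ ∙ (V.starProjection x - w'))ᗮ.reflection (V.starProjection x) = w' :=
      Submodule.reflection_sub heq.symm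
    have h3 : (ℝ ∙ (V.starProjection x - w'))ᗮ.reflection (x - V.starProjection x) =
        x - V.starProjection x := by
      apply Submodule.reflection_mem_subspace_eq_self
      have h4 : x - V.starProjection x ∈ Vᗮ := V.sub_starProjection_mem_orthogonal x
      refine Submodule.orthogonal_le ?_ h4
      rw [Submodule.span_singleton_le_iff_mem]
      exact hv
    have h5 : (ℝ ∙ (V.starProjection x - w'))ᗮ.reflection x = x - V.starProjection x + w' := by
      have h6 := map_add (ℝ ∙ (V.starProjection x - w'))ᗮ.reflection (x - V.starProjection x)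
        (V.starProjection x)
      rw [h3, h2, sub_add_cancel] at h6
      exact h6
    rwa [h5] at h1
  set ρ := ‖V.starProjection x‖ with hρ
  rcases eq_or_ne w 0 with rfl | hw0
  · -- midpoint of `P x` and `- P x`
    have h1 := hsphere _ (V.starProjection_apply_mem x) rfl
    have h2 := hsphere _ (V.neg_mem (V.starProjection_apply_mem x)) (by rw [norm_neg])
    have h3 := hK h1 h2 (a := 1 / 2) (b := 1 / 2) (by norm_num) (by norm_num) (by norm_num)
    convert h3 using 1
    module
  · have hwpos : 0 < ‖w‖ := norm_pos_iff.2 hw0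
    have hρpos : 0 < ρ := hwpos.trans_le hle
    have h1 := hsphere ((ρ / ‖w‖) • w) (V.smul_mem _ hw) (by
      rw [norm_smul, Real.norm_of_nonneg (by positivity), div_mul_cancel₀ _ hwpos.ne'])
    have h2 := hsphere (-((ρ / ‖w‖) • w)) (V.neg_mem (V.smul_mem _ hw)) (by
      rw [norm_neg, norm_smul, Real.norm_of_nonneg (by positivity), div_mul_cancel₀ _ hwpos.ne'])
    have h3 := hK h1 h2 (a := (1 + ‖w‖ / ρ) / 2) (b := (1 - ‖w‖ / ρ) / 2) (by positivity)
      (by
        have : ‖w‖ / ρ ≤ 1 := (div_le_one hρpos).2 hle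
        linarith) (by ring)
    convert h3 using 1
    have e1 : (1 + ‖w‖ / ρ) / 2 - (1 - ‖w‖ / ρ) / 2 = ‖w‖ / ρ := by ring
    have e2 : ((1 + ‖w‖ / ρ) / 2) • (ρ / ‖w‖) • w + ((1 - ‖w‖ / ρ) / 2) • (-((ρ / ‖w‖) • w)) = w := by
      rw [smul_neg, ← sub_eq_add_neg, ← sub_smul, e1, smul_smul]
      have : ‖w‖ / ρ * (ρ / ‖w‖) = 1 := by field_simp
      rw [this, one_smul]
    calc x - V.starProjection x + w
        = ((1 + ‖w‖ / ρ) / 2 + (1 - ‖w‖ / ρ) / 2) • (x - V.starProjection x) + w := by
          have : (1 + ‖w‖ / ρ) / 2 + (1 - ‖w‖ / ρ) / 2 = 1 := by ring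
          rw [this, one_smul]
      _ = ((1 + ‖w‖ / ρ) / 2 + (1 - ‖w‖ / ρ) / 2) • (x - V.starProjection x) +
          (((1 + ‖w‖ / ρ) / 2) • (ρ / ‖w‖) • w + ((1 - ‖w‖ / ρ) / 2) • (-((ρ / ‖w‖) • w))) := by
          rw [e2]
      _ = _ := by module


section blocks

variable {E : Type*} [NormedAddCommGroup E] [InnerProductSpace ℝ E] [FiniteDimensional ℝ E]
variable {k p : ℕ}

/-- The orthogonal complement of all blocks. -/
noncomputable abbrev restSpace (V : Fin k → Submodule ℝ E) (a : Fin p → E) : Submodule ℝ E :=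
  ((⨆ i, V i) ⊔ Submodule.span ℝ (range a))ᗮ

lemma mem_rest_iff {V : Fin k → Submodule ℝ E} {a : Fin p → E} {x : E} :
    x ∈ restSpace V a ↔ (∀ i, ∀ v ∈ V i, inner ℝ v x = 0) ∧ ∀ j, inner ℝ (a j) x = 0 := by
  constructor
  · intro h
    rw [Submodule.mem_orthogonal] at h
    constructor
    · intro i v hv
      exact h v (Submodule.mem_sup_left (Submodule.mem_iSup_of_mem i hv))
    · intro j
      exact h _ (Submodule.mem_sup_right (Submodule.subset_span ⟨j, rfl⟩))
  · rintro ⟨h1, h2⟩
    have h3 : (⨆ i, V i) ⊔ Submodule.span ℝ (range a) ≤ (ℝ ∙ x)ᗮ := by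
      apply sup_le
      · apply iSup_le
        intro i v hv
        rw [Submodule.mem_orthogonal_singleton_iff_inner_left]
        exact h1 i v hv
      · rw [Submodule.span_le]
        rintro _ ⟨j, rfl⟩
        rw [SetLike.mem_coe, Submodule.mem_orthogonal_singleton_iff_inner_left]
        exact h2 j
    rw [Submodule.mem_orthogonal]
    intro u hu
    have := h3 hu
    rwa [Submodule.mem_orthogonal_singleton_iff_inner_left] at this

/-- Assemble a vector from its blocks. -/
noncomputable def asm (V : Fin k → Submodule ℝ E) (a : Fin p → E) :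
    ((∀ i, V i) × (Fin p → ℝ) × restSpace V a) →ₗ[ℝ] E where
  toFun x := (∑ i, (x.1 i : E)) + ((∑ j, x.2.1 j • a j) + (x.2.2 : E))
  map_add' x y := by
    simp only [Prod.fst_add, Prod.snd_add, Pi.add_apply, Submodule.coe_add, Finset.sum_add_distrib,
      add_smul]
    abel
  map_smul' c x := by
    simp only [Prod.smul_fst, Prod.smul_snd, Pi.smul_apply, Submodule.coe_smul, RingHom.id_apply,
      smul_add, Finset.smul_sum, smul_eq_mul, mul_smul]

/-- Split a vector into its blocks. -/
noncomputable def spl (V : Fin k → Submodule ℝ E) (a : Fin p → E) :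
    E →ₗ[ℝ] ((∀ i, V i) × (Fin p → ℝ) × restSpace V a) where
  toFun x := (fun i => (V i).orthogonalProjectionOnto x, fun j => inner ℝ (a j) x,
    (restSpace V a).orthogonalProjectionOnto x)
  map_add' x y := by
    refine Prod.ext ?_ (Prod.ext ?_ ?_)
    · funext i
      simp
    · funext j
      simp [inner_add_right]
    · simp
  map_smul' c x := by
    refine Prod.ext ?_ (Prod.ext ?_ ?_)
    · funext i
      simp
    · funext j
      simp [inner_smul_right]
    · simp

variable {V : Fin k → Submodule ℝ E} {a : Fin p → E}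

lemma block_le_rest_orthogonal (V : Fin k → Submodule ℝ E) (a : Fin p → E) (i : Fin k) {v : E}
    (hv : v ∈ V i) : v ∈ (restSpace V a)ᗮ :=
  Submodule.le_orthogonal_orthogonal _
    (Submodule.mem_sup_left (Submodule.mem_iSup_of_mem i hv))

lemma coord_le_rest_orthogonal (V : Fin k → Submodule ℝ E) (a : Fin p → E) (j : Fin p) :
    a j ∈ (restSpace V a)ᗮ :=
  Submodule.le_orthogonal_orthogonal _
    (Submodule.mem_sup_right (Submodule.subset_span ⟨j, rfl⟩))

lemma spl_asm (hV : ∀ i j, i ≠ j → V i ⟂ V j) (ha : Orthonormal ℝ a)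
    (haV : ∀ i j, a j ∈ (V i)ᗮ) (x : (∀ i, V i) × (Fin p → ℝ) × restSpace V a) :
    spl V a (asm V a x) = x := by
  classical
  obtain ⟨x1, x2, x3⟩ := x
  have hx3' := mem_rest_iff.1 x3.2
  have hVorth : ∀ i l, i ≠ l → ∀ v ∈ V i, v ∈ (V l)ᗮ := by
    intro i l hil v hv
    exact (hV i l hil) hv
  refine Prod.ext ?_ (Prod.ext ?_ ?_)
  · funext i
    apply Subtype.ext
    change (V i).starProjection (asm V a (x1, x2, x3)) = x1 i
    apply Submodule.eq_starProjection_of_mem_orthogonal (x1 i).2
    have e1 : asm V a (x1, x2, x3) - (x1 i : E) =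
        (∑ l ∈ Finset.univ.erase i, (x1 l : E)) + ((∑ j, x2 j • a j) + (x3 : E)) := by
      simp only [asm, LinearMap.coe_mk, AddHom.coe_mk]
      rw [← Finset.add_sum_erase Finset.univ (fun l => (x1 l : E)) (Finset.mem_univ i)]
      abel
    rw [e1]
    apply Submodule.add_mem
    · apply Submodule.sum_mem
      intro l hl
      exact hVorth l i (Finset.ne_of_mem_erase hl) _ (x1 l).2
    · apply Submodule.add_mem
      · apply Submodule.sum_mem
        intro j _
        exact Submodule.smul_mem _ _ (haV i j)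
      · rw [Submodule.mem_orthogonal]
        exact hx3'.1 i
  · funext j
    change inner ℝ (a j) (asm V a (x1, x2, x3)) = x2 j
    simp only [asm, LinearMap.coe_mk, AddHom.coe_mk]
    rw [inner_add_right, inner_add_right, inner_sum, inner_sum, hx3'.2 j, add_zero]
    have e1 : ∑ i, inner ℝ (a j) (x1 i : E) = 0 := by
      apply Finset.sum_eq_zero
      intro i _
      have := haV i j
      rw [Submodule.mem_orthogonal'] at this
      exact this _ (x1 i).2
    rw [e1, zero_add]
    have e2 : ∀ l, inner ℝ (a j) (x2 l • a l) = if j = l then x2 l else 0 := by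
      intro l
      rw [inner_smul_right, orthonormal_iff_ite.1 ha j l]
      split_ifs <;> simp
    simp_rw [e2]
    simp
  · apply Subtype.ext
    change (restSpace V a).starProjection (asm V a (x1, x2, x3)) = x3
    apply Submodule.eq_starProjection_of_mem_orthogonal x3.2
    have e1 : asm V a (x1, x2, x3) - (x3 : E) = (∑ l, (x1 l : E)) + (∑ j, x2 j • a j) := by
      simp only [asm, LinearMap.coe_mk, AddHom.coe_mk]
      abel
    rw [e1]
    apply Submodule.add_mem
    · exact Submodule.sum_mem _ fun l _ => block_le_rest_orthogonal V a l (x1 l).2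
    · exact Submodule.sum_mem _ fun j _ => Submodule.smul_mem _ _ (coord_le_rest_orthogonal V a j)

lemma asm_spl (hV : ∀ i j, i ≠ j → V i ⟂ V j) (ha : Orthonormal ℝ a)
    (haV : ∀ i j, a j ∈ (V i)ᗮ) (x : E) : asm V a (spl V a x) = x := by
  set y := asm V a (spl V a x) with hy
  have h1 : spl V a (y - x) = 0 := by
    rw [map_sub, hy, spl_asm hV ha haV, sub_self]
  have h2 : y - x ∈ restSpace V a := by
    rw [mem_rest_iff]
    constructor
    · intro i v hv
      have h3 : (V i).starProjection (y - x) = 0 := by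
        have := congrArg (fun z => ((z.1 i : V i) : E)) h1
        exact this
      rw [Submodule.starProjection_apply_eq_zero_iff] at h3
      rw [Submodule.mem_orthogonal] at h3
      exact h3 v hv
    · intro j
      exact congrFun (congrArg (fun z => z.2.1) h1) j
  have h4 : (restSpace V a).starProjection (y - x) = 0 := by
    have := congrArg (fun z => ((z.2.2 : restSpace V a) : E)) h1
    exact this
  rw [Submodule.starProjection_eq_self_iff.2 h2] at h4
  exact sub_eq_zero.1 h4

/-- The block decomposition as a continuous linear equivalence. -/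
noncomputable def blockEquiv (hV : ∀ i j, i ≠ j → V i ⟂ V j) (ha : Orthonormal ℝ a)
    (haV : ∀ i j, a j ∈ (V i)ᗮ) :
    ((∀ i, V i) × (Fin p → ℝ) × restSpace V a) ≃L[ℝ] E :=
  (LinearEquiv.ofLinearMap (asm V a) (spl V a)
    (LinearMap.ext fun x => asm_spl hV ha haV x)
    (LinearMap.ext fun x => spl_asm hV ha haV x)).toContinuousLinearEquiv

lemma blockEquiv_apply (hV : ∀ i j, i ≠ j → V i ⟂ V j) (ha : Orthonormal ℝ a)
    (haV : ∀ i j, a j ∈ (V i)ᗮ) (x : (∀ i, V i) × (Fin p → ℝ) × restSpace V a) :
    blockEquiv hV ha haV x = (∑ i, (x.1 i : E)) + ((∑ j, x.2.1 j • a j) + (x.2.2 : E)) := rfl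

lemma blockEquiv_proj (hV : ∀ i j, i ≠ j → V i ⟂ V j) (ha : Orthonormal ℝ a)
    (haV : ∀ i j, a j ∈ (V i)ᗮ) (x : (∀ i, V i) × (Fin p → ℝ) × restSpace V a) (i : Fin k) :
    (V i).orthogonalProjectionOnto (blockEquiv hV ha haV x) = x.1 i := by
  have h := spl_asm hV ha haV x
  exact congrFun (congrArg Prod.fst h) i

lemma blockEquiv_inner (hV : ∀ i j, i ≠ j → V i ⟂ V j) (ha : Orthonormal ℝ a)
    (haV : ∀ i j, a j ∈ (V i)ᗮ) (x : (∀ i, V i) × (Fin p → ℝ) × restSpace V a) (j : Fin p) :
    inner ℝ (a j) (blockEquiv hV ha haV x) = x.2.1 j := by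
  have h := spl_asm hV ha haV x
  exact congrFun (congrArg (fun z => z.2.1) h) j

lemma blockEquiv_rest (hV : ∀ i j, i ≠ j → V i ⟂ V j) (ha : Orthonormal ℝ a)
    (haV : ∀ i j, a j ∈ (V i)ᗮ) (x : (∀ i, V i) × (Fin p → ℝ) × restSpace V a) :
    (restSpace V a).orthogonalProjectionOnto (blockEquiv hV ha haV x) = x.2.2 := by
  have h := spl_asm hV ha haV x
  exact congrArg (fun z => z.2.2) h

lemma two_pow_aux (m : ℕ) (hm : 2 ≤ m) : m + 1 ≤ 2 ^ m - 1 := by
  have : m + 2 ≤ 2 ^ m := by
    induction m, hm using Nat.le_induction with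
    | base => norm_num
    | succ n hn ih => rw [pow_succ]; omega
  omega

/-- **Main theorem** in an abstract Euclidean space. -/
theorem coverBy_blocks (hV : ∀ i j, i ≠ j → V i ⟂ V j) (ha : Orthonormal ℝ a)
    (haV : ∀ i j, a j ∈ (V i)ᗮ) {K : Set E} (hK : Convex ℝ K) (hc : IsCompact K)
    (hne : (interior K).Nonempty)
    (hblock : ∀ i, ∃ B : Set (V i), Convex ℝ B ∧ IsCompact B ∧ (0 : V i) ∈ interior B ∧
      CoverBy B (2 ^ finrank ℝ (V i) - 1) ∧
      ∀ x ∈ K, ∀ w : V i, gauge B w ≤ gauge B ((V i).orthogonalProjectionOnto x) →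
        x - (V i).orthogonalProjectionOnto x + w ∈ K)
    (hanti : ∀ j, ∀ x ∈ K, 0 ≤ inner ℝ (a j) x ∧ x - (inner ℝ (a j) x : ℝ) • a j ∈ K)
    {n : ℕ} (hn : CoverBy ((restSpace V a).orthogonalProjectionOnto '' K) n) :
    CoverBy K (2 ^ (∑ i, finrank ℝ (V i)) * 2 ^ p * n) := by
  classical
  choose B hBconv hBc hB0 hBcov hBsolid using hblock
  let e := blockEquiv hV ha haV
  set K' : Set ((∀ i, V i) × (Fin p → ℝ) × restSpace V a) := e.symm '' K with hK'
  have hmem : ∀ x, x ∈ K' ↔ e x ∈ K := by
    intro x
    rw [hK']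
    constructor
    · rintro ⟨y, hy, rfl⟩
      simpa using hy
    · intro h
      exact ⟨e x, h, by simp⟩
  have hconv' : Convex ℝ K' := hK.linear_image e.symm.toLinearMap
  have hc' : IsCompact K' := hc.image e.symm.continuous
  have hne' : (interior K').Nonempty := by
    have : e.symm '' interior K = interior K' := e.symm.toHomeomorph.image_interior K
    rw [← this]
    exact hne.image _
  have hcore : CoverBy K' ((∏ i, ((2 ^ finrank ℝ (V i) - 1) + 1)) * 2 ^ Fintype.card (Fin p) * n) := by
    refine coverBy_core hconv' hc' hne' hBconv hBc (fun i => mem_interior_iff_mem_nhds.1 (hB0 i))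
      ?_ ?_ hBcov ?_
    · intro x hx i w hw
      rw [hmem] at hx ⊢
      have h1 := hBsolid i (e x) hx w (by
        rw [blockEquiv_proj hV ha haV x i]
        exact hw)
      rw [blockEquiv_proj hV ha haV x i] at h1
      convert h1 using 1
      rw [blockEquiv_apply, blockEquiv_apply]
      simp only
      rw [← Finset.add_sum_erase Finset.univ _ (Finset.mem_univ i),
        ← Finset.add_sum_erase Finset.univ (fun l => (x.1 l : E)) (Finset.mem_univ i),
        Function.update_self]
      have e2 : ∑ l ∈ Finset.univ.erase i, ((Function.update x.1 i w l : V l) : E) =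
          ∑ l ∈ Finset.univ.erase i, (x.1 l : E) := by
        apply Finset.sum_congr rfl
        intro l hl
        rw [Function.update_of_ne (Finset.ne_of_mem_erase hl)]
      rw [e2]
      abel
    · intro x hx j
      rw [hmem] at hx
      have h1 := hanti j (e x) hx
      rw [blockEquiv_inner hV ha haV x j] at h1
      refine ⟨h1.1, ?_⟩
      rw [hmem]
      convert h1.2 using 1
      rw [blockEquiv_apply, blockEquiv_apply]
      simp only
      rw [← Finset.add_sum_erase Finset.univ _ (Finset.mem_univ j),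
        ← Finset.add_sum_erase Finset.univ (fun l => x.2.1 l • a l) (Finset.mem_univ j),
        Function.update_self]
      have e2 : ∑ l ∈ Finset.univ.erase j, (Function.update x.2.1 j 0 l) • a l =
          ∑ l ∈ Finset.univ.erase j, x.2.1 l • a l := by
        apply Finset.sum_congr rfl
        intro l hl
        rw [Function.update_of_ne (Finset.ne_of_mem_erase hl)]
      rw [e2, zero_smul]
      abel
    · have : prG '' K' = (restSpace V a).orthogonalProjectionOnto '' K := by
        ext y
        constructor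
        · rintro ⟨x, hx, rfl⟩
          exact ⟨e x, (hmem x).1 hx, blockEquiv_rest hV ha haV x⟩
        · rintro ⟨x, hx, rfl⟩
          refine ⟨e.symm x, mem_image_of_mem _ hx, ?_⟩
          have := blockEquiv_rest hV ha haV (e.symm x)
          change (restSpace V a).orthogonalProjectionOnto (e (e.symm x)) = _ at this
          rw [e.apply_symm_apply] at this
          exact this.symm
      rw [this]
      exact hn
  have h7 := hcore.image e
  have h8 : e '' K' = K := by
    rw [hK', image_image]
    simp
  rw [h8] at h7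
  refine h7.mono (le_of_eq ?_)
  rw [Fintype.card_fin]
  congr 2
  rw [← Finset.prod_pow_eq_pow_sum]
  apply Finset.prod_congr rfl
  intro i _
  have : 1 ≤ 2 ^ finrank ℝ (V i) := Nat.one_le_two_pow
  omega

/-- A rotational block is a solid block for the unit ball. -/
theorem rot_solid {K : Set E} (hK : Convex ℝ K) (V : Submodule ℝ E) (hdim : 2 ≤ finrank ℝ V)
    (hrot : ∀ v ∈ V, ∀ x ∈ K, (ℝ ∙ v)ᗮ.reflection x ∈ K) :
    ∃ B : Set V, Convex ℝ B ∧ IsCompact B ∧ (0 : V) ∈ interior B ∧
      CoverBy B (2 ^ finrank ℝ V - 1) ∧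
      ∀ x ∈ K, ∀ w : V, gauge B w ≤ gauge B (V.orthogonalProjectionOnto x) →
        x - V.orthogonalProjectionOnto x + w ∈ K := by
  refine ⟨Metric.closedBall 0 1, convex_closedBall _ _, isCompact_closedBall _ _, ?_,
    cover_ball.mono (two_pow_aux _ hdim), ?_⟩
  · exact mem_interior_iff_mem_nhds.2 (Metric.closedBall_mem_nhds _ one_pos)
  · intro x hx w hw
    rw [gauge_closedBall zero_le_one, gauge_closedBall zero_le_one, div_one, div_one] at hw
    exact solid_of_reflection hK V hrot hx w.2 hw

/-- The interior of the image of a convex body under an orthogonal projection is nonempty. -/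
lemma interior_proj_nonempty {K : Set E} (hne : (interior K).Nonempty) (W : Submodule ℝ E) :
    (interior (W.orthogonalProjectionOnto '' K)).Nonempty := by
  have hopen : IsOpenMap W.orthogonalProjectionOnto := by
    apply ContinuousLinearMap.isOpenMap
    intro w
    exact ⟨w, W.orthogonalProjectionOnto_mem_subspace_eq_self w⟩
  have h1 : IsOpen (W.orthogonalProjectionOnto '' interior K) := hopen _ isOpen_interior
  refine (hne.image W.orthogonalProjectionOnto).mono ?_
  exact interior_maximal (image_mono interior_subset) h1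

lemma finrank_blocks (hV : ∀ i j, i ≠ j → V i ⟂ V j) (ha : Orthonormal ℝ a)
    (haV : ∀ i j, a j ∈ (V i)ᗮ) :
    (∑ i, finrank ℝ (V i)) + p + finrank ℝ (restSpace V a) = finrank ℝ E := by
  rw [← (blockEquiv hV ha haV).toLinearEquiv.finrank_eq, finrank_prod, finrank_prod,
    finrank_pi_fintype]
  simp
  ring

end blocks

end Pool.Agent.Lib.HadwigerBlocks
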