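import Mathlib
import Pool.Agent.Lib.HadwigerBlocks

/-!
# Hadwiger's covering bound for fibred, rotational and anti-blocking convex bodies
-/

set_option autoImplicit false

open Module Set

namespace Pool.Agent.Lib.HadwigerFibredResult

/-- `c(K) ≤ N`: the set `K` is covered by at most `N` translates of its interior. -/
def CoveredBy {E : Type*} [NormedAddCommGroup E] (K : Set E) (N : ℕ) : Prop :=
  ∃ T : Finset E, T.card ≤ N ∧ K ⊆ ⋃ t ∈ T, (fun x => t + x) '' interior K

/- `E` is a Euclidean space: a real inner product space of finite dimension. -/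
variable {E : Type*} [NormedAddCommGroup E] [InnerProductSpace ℝ E] [FiniteDimensional ℝ E]

/-- The orthogonal projection to a subspace of `E`, as a map to the subspace. -/
noncomputable def proj (V : Submodule ℝ E) (x : E) : V := V.orthogonalProjectionOnto x

/-- `V` is a rotational block of `K`: `dim V ≥ 2` and `K` is symmetric in the hyperplane
orthogonal to `v`, for every `v ∈ V`.  (Equivalently, `K` is invariant under the orthogonal group
of `V`, extended by the identity on the orthogonal complement of `V`.) -/
def IsRotational (K : Set E) (V : Submodule ℝ E) : Prop :=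
  2 ≤ finrank ℝ V ∧ ∀ v ∈ V, ∀ x ∈ K, (ℝ ∙ v)ᗮ.reflection x ∈ K

/-- `V` is a fibred block of `K`: there is a convex body `B` in `V` with the origin in its
interior and `c(B) < 2 ^ dim V`, such that the fibres of `K` parallel to `V` are homothets
`f • B`, `f ≥ 0`, centred on the orthogonal complement of `V`; that is, the `V`-component of a
point of `K` may be replaced by any vector of `V` whose gauge with respect to `B` is not
larger. -/
def IsFibred (K : Set E) (V : Submodule ℝ E) : Prop :=
  ∃ B : Set V, Convex ℝ B ∧ IsCompact B ∧ (0 : V) ∈ interior B ∧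
    CoveredBy B (2 ^ finrank ℝ V - 1) ∧
    ∀ x ∈ K, ∀ w : V, gauge B w ≤ gauge B (proj V x) → x - proj V x + w ∈ K

/-- `K` is anti-blocking in the direction of the unit vector `a`: `⟨a, x⟩ ≥ 0` on `K`, and the
orthogonal projection of a point of `K` to the hyperplane `⟨a, x⟩ = 0` lies in `K`. -/
def IsAntiBlocking (K : Set E) (a : E) : Prop :=
  ∀ x ∈ K, 0 ≤ inner ℝ a x ∧ x - (inner ℝ a x : ℝ) • a ∈ K

/-- The remaining directions: the orthogonal complement of all blocks `V i` and all `a j`. -/
noncomputable def rest {k p : ℕ} (V : Fin k → Submodule ℝ E) (a : Fin p → E) : Submodule ℝ E :=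
  ((⨆ i, V i) ⊔ Submodule.span ℝ (range a))ᗮ

/-- Let `K` be a convex body in the Euclidean space `E` of dimension `d`, let `V 1, …, V k` be
pairwise orthogonal rotational or fibred blocks of `K`, and let `a 1, …, a p` be orthonormal
vectors, orthogonal to the blocks, in whose directions `K` is anti-blocking.  Let `W` be the
orthogonal complement of all of them.  Then `c(K) ≤ 2 ^ (d - dim W) * c(P_W K)`; in particular
`c(K) ≤ 2 ^ d` if `dim W ≤ 2`. -/
theorem result {d : ℕ} (hd : finrank ℝ E = d) {k p : ℕ} (K : Set E)
    (hK : Convex ℝ K) (hc : IsCompact K) (hne : (interior K).Nonempty)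
    (V : Fin k → Submodule ℝ E) (a : Fin p → E)
    (hV : ∀ i j, i ≠ j → V i ⟂ V j) (ha : Orthonormal ℝ a) (haV : ∀ i j, a j ∈ (V i)ᗮ)
    (hblock : ∀ i, IsRotational K (V i) ∨ IsFibred K (V i))
    (hanti : ∀ j, IsAntiBlocking K (a j)) :
    (∀ N : ℕ, CoveredBy (proj (rest V a) '' K) N →
      CoveredBy K (2 ^ (d - finrank ℝ (rest V a)) * N)) ∧
    (finrank ℝ (rest V a) ≤ 2 → CoveredBy K (2 ^ d)) := by
  have hdim := Pool.Agent.Lib.HadwigerBlocks.finrank_blocks hV ha haV
  rw [hd] at hdim
  have hdim' : (∑ i, finrank ℝ (V i)) + p = d - finrank ℝ (rest V a) := by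
    have : finrank ℝ (rest V a) =
      finrank ℝ (Pool.Agent.Lib.HadwigerBlocks.restSpace V a) := rfl
    omega
  have hmain : ∀ N : ℕ, CoveredBy (proj (rest V a) '' K) N →
      CoveredBy K (2 ^ (d - finrank ℝ (rest V a)) * N) := by
    intro N hN
    rw [← hdim', pow_add]
    refine Pool.Agent.Lib.HadwigerBlocks.coverBy_blocks hV ha haV hK hc hne ?_ hanti hN
    intro i
    rcases hblock i with h | h
    · exact Pool.Agent.Lib.HadwigerBlocks.rot_solid hK (V i) h.1 h.2
    · exact h
  refine ⟨hmain, fun h2 => ?_⟩
  have h3 : CoveredBy (proj (rest V a) '' K) (2 ^ finrank ℝ (rest V a)) := by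
    apply Pool.Agent.Lib.HadwigerPlane.cover_le_two h2
    · exact hK.linear_image (rest V a).orthogonalProjectionOnto.toLinearMap
    · exact hc.image (rest V a).orthogonalProjectionOnto.continuous
    · exact Pool.Agent.Lib.HadwigerBlocks.interior_proj_nonempty hne _
  have h4 := hmain _ h3
  have h5 : 2 ^ (d - finrank ℝ (rest V a)) * 2 ^ finrank ℝ (rest V a) = 2 ^ d := by
    rw [← pow_add]
    congr 1
    have : finrank ℝ (rest V a) =
      finrank ℝ (Pool.Agent.Lib.HadwigerBlocks.restSpace V a) := rfl
    omega
  rwa [h5] at h4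

end Pool.Agent.Lib.HadwigerFibredResult
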