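import Mathlib
import Pool.Agent.Lib.HadwigerPlane

/-!
# Illumination of planar convex sets with rotational symmetry
-/

set_option autoImplicit false
set_option linter.unusedSectionVars false

open Set Filter Topology

namespace Pool.Agent.Lib.HadwigerRot

open Pool.Agent.Lib.HadwigerPlane

/-- The direction `-w` lights the point `y` of `C`. -/
def Lit (C : Set ℂ) (y w : ℂ) : Prop := ∃ ε : ℝ, 0 < ε ∧ y - ε • w ∈ interior C

lemma exists_normal' {C : Set ℂ} (hC : Convex ℝ C) (h0 : (0 : ℂ) ∈ interior C) {y w : ℂ}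
    (hy : y ∈ C) (h : ¬ Lit C y w) :
    ∃ g : ℂ →L[ℝ] ℝ, (∀ q ∈ C, g q ≤ g y) ∧ g w ≤ 0 ∧ 0 < g y := by
  obtain ⟨f, hf0, hf1, hf2⟩ := exists_normal hC ⟨0, h0⟩ hy (-w) (by
    intro ε hε hcon
    apply h
    refine ⟨ε, hε, ?_⟩
    rw [smul_neg, ← sub_eq_add_neg] at hcon
    exact hcon)
  refine ⟨f, hf1, by simpa using hf2, ?_⟩
  obtain ⟨v, hv⟩ : ∃ v, 0 < f v := by
    by_contra hcon
    push Not at hcon
    apply hf0
    ext v
    have h1 := hcon v
    have h2 := hcon (-v)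
    rw [map_neg] at h2
    simpa using le_antisymm h1 (by linarith)
  have hcont : Tendsto (fun ε : ℝ => ε • v) (𝓝[>] 0) (𝓝 ((0 : ℝ) • v)) :=
    (Continuous.tendsto (by fun_prop) 0).mono_left nhdsWithin_le_nhds
  rw [zero_smul] at hcont
  have hev := (hcont.eventually (mem_interior_iff_mem_nhds.1 h0)).and self_mem_nhdsWithin
  obtain ⟨ε, h1, h2⟩ := hev.exists
  have h2' : (0 : ℝ) < ε := h2
  have := hf1 _ h1
  rw [map_smul, smul_eq_mul] at this
  have h3 := mul_pos h2' hv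
  linarith

/-- **Cone lemma.** If `y = α w₁ + β w₂` with `α, β ≥ 0` is lit neither by `-w₁` nor by `-w₂`, then
`y` dominates the convex set coordinatewise. -/
lemma cone_le {C : Set ℂ} (hC : Convex ℝ C) (h0 : (0 : ℂ) ∈ interior C) {w₁ w₂ y : ℂ} {α β : ℝ}
    (hα : 0 ≤ α) (hβ : 0 ≤ β) (hyd : y = α • w₁ + β • w₂) (hy : y ∈ C)
    (h1 : ¬ Lit C y w₁) (h2 : ¬ Lit C y w₂)
    {a b : ℝ} (hq : a • w₁ + b • w₂ ∈ C) : a ≤ α ∧ b ≤ β := by
  obtain ⟨g, hg1, hg2, hg3⟩ := exists_normal' hC h0 hy h1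
  obtain ⟨k, hk1, hk2, hk3⟩ := exists_normal' hC h0 hy h2
  have e1 := hg1 _ hq
  have e2 := hk1 _ hq
  rw [hyd] at e1 e2 hg3 hk3
  simp only [map_add, map_smul, smul_eq_mul] at e1 e2 hg3 hk3
  set G1 := g w₁
  set G2 := g w₂
  set K1 := k w₁
  set K2 := k w₂
  have hβG2 : 0 < β * G2 := by nlinarith
  have hαK1 : 0 < α * K1 := by nlinarith
  have hβ' : 0 < β := by
    rcases hβ.eq_or_lt with h | h
    · rw [← h] at hβG2; simp at hβG2
    · exact h
  have hα' : 0 < α := by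
    rcases hα.eq_or_lt with h | h
    · rw [← h] at hαK1; simp at hαK1
    · exact h
  have hG2 : 0 < G2 := (mul_pos_iff_of_pos_left hβ').1 hβG2
  have hK1 : 0 < K1 := (mul_pos_iff_of_pos_left hα').1 hαK1
  -- the determinant inequality
  have hdet : G1 * K2 < G2 * K1 := by
    have h3 : (-G1) * α < G2 * β := by linarith
    have h4 : (-K2) * β < K1 * α := by linarith
    have h5 : ((-G1) * α) * ((-K2) * β) < (G2 * β) * (K1 * α) :=
      mul_lt_mul'' h3 h4 (by nlinarith) (by nlinarith)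
    have h6 : 0 < α * β := mul_pos hα' hβ'
    have h7 : (G1 * K2) * (α * β) < (G2 * K1) * (α * β) := by nlinarith
    exact lt_of_mul_lt_mul_right h7 h6.le
  constructor
  · by_contra hcon
    push Not at hcon
    -- `A = α - a < 0`
    have e1' : 0 ≤ (α - a) * G1 + (β - b) * G2 := by linarith
    have e2' : 0 ≤ (α - a) * K1 + (β - b) * K2 := by linarith
    -- multiply the first by `-K2 ≥ 0` and the second by `G2 > 0`
    have h8 := mul_nonneg (neg_nonneg.2 hk2) e1'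
    have h9 := mul_nonneg hG2.le e2'
    have h10 : 0 ≤ (α - a) * (G2 * K1 - G1 * K2) := by nlinarith
    have h11 : (α - a) * (G2 * K1 - G1 * K2) < 0 :=
      mul_neg_of_neg_of_pos (by linarith) (by linarith)
    linarith
  · by_contra hcon
    push Not at hcon
    have e1' : 0 ≤ (α - a) * G1 + (β - b) * G2 := by linarith
    have e2' : 0 ≤ (α - a) * K1 + (β - b) * K2 := by linarith
    have h8 := mul_nonneg hK1.le e1'
    have h9 := mul_nonneg (neg_nonneg.2 hg2) e2'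
    have h10 : 0 ≤ (β - b) * (G2 * K1 - G1 * K2) := by nlinarith
    have h11 : (β - b) * (G2 * K1 - G1 * K2) < 0 :=
      mul_neg_of_neg_of_pos (by linarith) (by linarith)
    linarith

lemma zero_mem_interior {C : Set ℂ} (hC : Convex ℝ C) (hne : (interior C).Nonempty) {u : ℂ}
    (hu : u.re < 0) (h1 : ∀ q ∈ C, u * q ∈ C) (h2 : ∀ q ∈ C, (starRingEnd ℂ) u * q ∈ C) :
    (0 : ℂ) ∈ interior C := by
  obtain ⟨p, hp⟩ := hne
  have hpC := interior_subset hp
  have hmid : (u.re : ℝ) • p ∈ C := by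
    have := hC (h1 p hpC) (h2 p hpC) (a := 1 / 2) (b := 1 / 2) (by norm_num) (by norm_num)
      (by norm_num)
    convert this using 1
    apply Complex.ext <;> simp <;> ring
  have ht : 0 < -u.re / (1 - u.re) := div_pos (by linarith) (by linarith)
  have ht' : 0 ≤ 1 / (1 - u.re) := by
    apply div_nonneg zero_le_one; linarith
  have hsum : -u.re / (1 - u.re) + 1 / (1 - u.re) = 1 := by
    have : (1 - u.re) ≠ 0 := by linarith
    field_simp
    ring
  have := hC.combo_interior_self_mem_interior hp hmid ht ht' hsum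
  convert this using 1
  have h3 : (1 - u.re) ≠ 0 := by linarith
  rw [smul_smul, ← add_smul]
  have : -u.re / (1 - u.re) + 1 / (1 - u.re) * u.re = 0 := by
    field_simp; ring
  rw [this, zero_smul]

/-- The primitive sixth root of unity. -/
noncomputable def e6 : ℂ := ⟨1 / 2, Real.sqrt 3 / 2⟩

lemma e6_sq : e6 ^ 2 = e6 - 1 := by
  have h : Real.sqrt 3 * Real.sqrt 3 = 3 := Real.mul_self_sqrt (by norm_num)
  apply Complex.ext
  · simp [e6, pow_two]
    nlinarith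
  · simp [e6, pow_two]
    ring

lemma e6_cube : e6 ^ 3 = -1 := by
  have : e6 ^ 3 = e6 ^ 2 * e6 := by ring
  rw [this, e6_sq]
  have : (e6 - 1) * e6 = e6 ^ 2 - e6 := by ring
  rw [this, e6_sq]
  ring

lemma e6_four : e6 ^ 4 = -e6 := by
  have : e6 ^ 4 = e6 ^ 3 * e6 := by ring
  rw [this, e6_cube]; ring

lemma e6_five : e6 ^ 5 = 1 - e6 := by
  have : e6 ^ 5 = e6 ^ 3 * e6 ^ 2 := by ring
  rw [this, e6_cube, e6_sq]; ring

lemma e6_six : e6 ^ 6 = 1 := by
  have : e6 ^ 6 = (e6 ^ 3) ^ 2 := by ring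
  rw [this, e6_cube]; ring

/-- Coordinates in the basis `1, e6`. -/
lemma coord_e6 (z : ℂ) : ∃ a b : ℝ, z = (a : ℂ) + b * e6 := by
  have hpos : 0 < Real.sqrt 3 := Real.sqrt_pos.2 (by norm_num)
  refine ⟨z.re - z.im / Real.sqrt 3, 2 * z.im / Real.sqrt 3, ?_⟩
  apply Complex.ext
  · simp [e6]; field_simp; ring
  · simp [e6]; field_simp

lemma coord_e6_unique {a b a' b' : ℝ} (h : (a : ℂ) + b * e6 = (a' : ℂ) + b' * e6) :
    a = a' ∧ b = b' := by
  have hpos : 0 < Real.sqrt 3 := Real.sqrt_pos.2 (by norm_num)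
  have h1 := congrArg Complex.re h
  have h2 := congrArg Complex.im h
  simp [e6] at h1 h2
  subst h2
  exact ⟨by linarith, rfl⟩

/-- Every complex number lies in one of six sectors. -/
lemma exists_sector6 (z : ℂ) : ∃ k : ℕ, k < 6 ∧ ∃ α β : ℝ, 0 ≤ α ∧ 0 ≤ β ∧
    z = e6 ^ k * ((α : ℂ) + β * e6) := by
  obtain ⟨a, b, rfl⟩ := coord_e6 z
  have h2 := e6_sq
  have h3 := e6_cube
  have h4 := e6_four
  have h5 := e6_five
  rcases le_total 0 a with ha | ha <;> rcases le_total 0 b with hb | hb <;>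
    rcases le_total 0 (a + b) with hab | hab
  · exact ⟨0, by norm_num, a, b, ha, hb, by simp⟩
  · exact ⟨0, by norm_num, a, b, ha, hb, by simp⟩
  · -- a ≥ 0, b ≤ 0, a + b ≥ 0 : k = 5
    refine ⟨5, by norm_num, -b, a + b, by linarith, hab, ?_⟩
    rw [h5]
    push_cast
    have : (1 - e6) * (-(b : ℂ) + (a + b) * e6) =
      -b + (a + b) * e6 + b * e6 - (a + b) * e6 ^ 2 := by ring
    rw [this, h2]; ring
  · -- a ≥ 0, b ≤ 0, a + b ≤ 0 : k = 4
    refine ⟨4, by norm_num, -(a + b), a, by linarith, ha, ?_⟩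
    rw [h4]
    push_cast
    have : (-e6) * (-((a : ℂ) + b) + a * e6) = (a + b) * e6 - a * e6 ^ 2 := by ring
    rw [this, h2]; ring
  · -- a ≤ 0, b ≥ 0, a + b ≥ 0 : k = 1
    refine ⟨1, by norm_num, a + b, -a, hab, by linarith, ?_⟩
    push_cast
    have : e6 ^ 1 * (((a : ℂ) + b) + -a * e6) = (a + b) * e6 - a * e6 ^ 2 := by ring
    rw [this, h2]; ring
  · -- a ≤ 0, b ≥ 0, a + b ≤ 0 : k = 2
    refine ⟨2, by norm_num, b, -(a + b), hb, by linarith, ?_⟩
    rw [h2]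
    push_cast
    have : (e6 - 1) * ((b : ℂ) + -(a + b) * e6) =
      b * e6 - b - (a + b) * e6 ^ 2 + (a + b) * e6 := by ring
    rw [this, h2]; ring
  · refine ⟨3, by norm_num, -a, -b, by linarith, by linarith, ?_⟩
    rw [h3]; push_cast; ring
  · refine ⟨3, by norm_num, -a, -b, by linarith, by linarith, ?_⟩
    rw [h3]; push_cast; ring

/-- Rotation by a third. -/
lemma e6_rot (a b : ℝ) (w : ℂ) : e6 ^ 2 * (a • w + b • (e6 * w)) =
    (-(a + b)) • w + a • (e6 * w) := by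
  simp only [Complex.real_smul]
  push_cast
  have : e6 ^ 2 * ((a : ℂ) * w + b * (e6 * w)) = (a * e6 ^ 2 + b * e6 ^ 3) * w := by ring
  rw [this, e6_cube, e6_sq]; ring

/-- **Six equally spaced directions**, one sector. -/
lemma six_unlit {C : Set ℂ} (hC : Convex ℝ C) (h0 : (0 : ℂ) ∈ interior C)
    (hinv : ∀ q ∈ C, e6 ^ 2 * q ∈ C) {w y : ℂ} {α β : ℝ} (hα : 0 ≤ α) (hβ : 0 ≤ β)
    (hyd : y = α • w + β • (e6 * w)) (hy : y ∈ C) (h1 : ¬ Lit C y w) (h2 : ¬ Lit C y (e6 * w)) :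
    α = β ∧ ∀ a b : ℝ, a • w + b • (e6 * w) ∈ C → a ≤ α ∧ b ≤ α ∧ -α ≤ a + b := by
  have hcone : ∀ a b : ℝ, a • w + b • (e6 * w) ∈ C → a ≤ α ∧ b ≤ β := fun a b hq =>
    cone_le hC h0 hα hβ hyd hy h1 h2 hq
  have hy1 := hinv y hy
  have hy2 := hinv _ hy1
  rw [hyd, e6_rot] at hy1 hy2
  rw [e6_rot] at hy2
  have c1 := hcone _ _ hy1
  have c2 := hcone _ _ hy2
  have hab : α = β := by linarith [c1.2, c2.1]
  refine ⟨hab, fun a b hq => ?_⟩
  have d1 := hcone _ _ hq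
  have hq' := hinv _ hq
  rw [e6_rot] at hq'
  have d2 := hcone _ _ hq'
  refine ⟨d1.1, by linarith [d1.2], by linarith [d2.1]⟩

end Pool.Agent.Lib.HadwigerRot
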