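import Mathlib
import Pool.Agent.Lib.HadwigerIllum
import Pool.Agent.Lib.HadwigerRotPlane

/-!
# Lighting a three-dimensional body through its horizontal sections
-/

set_option autoImplicit false
set_option linter.unusedSectionVars false

open Set Filter Topology

namespace Pool.Agent.Lib.HadwigerRot

open Pool.Agent.Lib.HadwigerIllum

/-- The horizontal section at height `z`. -/
def sec (K : Set (ℂ × ℝ)) (z : ℝ) : Set ℂ := {y | (y, z) ∈ K}

lemma mem_sec {K : Set (ℂ × ℝ)} {y : ℂ} {z : ℝ} : y ∈ sec K z ↔ (y, z) ∈ K := Iff.rfl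

lemma sec_convex {K : Set (ℂ × ℝ)} (hK : Convex ℝ K) (z : ℝ) : Convex ℝ (sec K z) := by
  intro x hx y hy a b ha hb hab
  have := hK hx hy ha hb hab
  rw [mem_sec]
  convert this using 1
  ext1
  · simp
  · simp [← add_mul, hab]

/-- Slightly inside a section and slightly below it we are in the interior. -/
lemma eventually_interior {K : Set (ℂ × ℝ)} (hK : Convex ℝ K) {σ : ℝ} (hσ : σ * σ = 1) {q : ℂ}
    {z : ℝ} (hq : q ∈ interior (sec K z)) {p : ℂ × ℝ} (hp : p ∈ interior K)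
    (hpz : σ * p.2 < σ * z) :
    ∀ᶠ x : ℂ × ℝ in 𝓝 (q, z), 0 < σ * (z - x.2) → x ∈ interior K := by
  set h : ℝ := σ * (z - p.2) with hh
  have hpos : 0 < h := by rw [hh]; linarith
  let lam : ℂ × ℝ → ℝ := fun x => σ * (z - x.2) / h
  have hlam : Continuous lam := by fun_prop
  have hlam0 : lam (q, z) = 0 := by simp [lam]
  have hPhi : ContinuousAt (fun x : ℂ × ℝ => (1 - lam x)⁻¹ • (x.1 - lam x • p.1)) (q, z) := by
    have h1 : ContinuousAt (fun x : ℂ × ℝ => (1 - lam x)⁻¹) (q, z) := by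
      refine ContinuousAt.inv₀ (by fun_prop) ?_
      rw [hlam0]; norm_num
    have h2 : ContinuousAt (fun x : ℂ × ℝ => x.1 - lam x • p.1) (q, z) := by fun_prop
    exact h1.smul h2
  have hval : (1 - lam (q, z))⁻¹ • ((q, z).1 - lam (q, z) • p.1) = q := by
    rw [hlam0]; simp
  have hev1 : ∀ᶠ x in 𝓝 (q, z), (1 - lam x)⁻¹ • (x.1 - lam x • p.1) ∈ interior (sec K z) := by
    apply hPhi.eventually_mem
    show interior (sec K z) ∈ 𝓝 ((1 - lam (q, z))⁻¹ • ((q, z).1 - lam (q, z) • p.1))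
    rw [hval]
    exact isOpen_interior.mem_nhds hq
  have hev2 : ∀ᶠ x in 𝓝 (q, z), lam x < 1 := by
    have h1 : Iio (1 : ℝ) ∈ 𝓝 (lam (q, z)) := by
      apply isOpen_Iio.mem_nhds
      rw [hlam0]; exact (one_pos : (0 : ℝ) < 1)
    exact hlam.continuousAt.eventually_mem h1
  filter_upwards [hev1, hev2] with x hx1 hx2 hx3
  have hl0 : 0 < lam x := div_pos hx3 hpos
  have hl1 : 0 < 1 - lam x := by linarith
  have hmem : ((1 - lam x)⁻¹ • (x.1 - lam x • p.1), z) ∈ K :=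
    mem_sec.1 (interior_subset hx1)
  have := hK.combo_interior_self_mem_interior hp hmem hl0 hl1.le (by ring)
  convert this using 1
  ext1
  · simp only [Prod.fst_add, Prod.smul_fst]
    rw [smul_inv_smul₀ hl1.ne']
    module
  · simp only [Prod.snd_add, Prod.smul_snd, smul_eq_mul]
    have h1 : lam x * h = σ * (z - x.2) := div_mul_cancel₀ _ hpos.ne'
    have h2 : σ * (lam x * h) = z - x.2 := by
      rw [h1, ← mul_assoc, hσ, one_mul]
    have h3 : σ * (lam x * h) = lam x * (z - p.2) := by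
      rw [hh]
      calc σ * (lam x * (σ * (z - p.2))) = (σ * σ) * (lam x * (z - p.2)) := by ring
        _ = _ := by rw [hσ, one_mul]
    linarith

/-- **Local lighting** by a slightly tilted horizontal direction. -/
lemma lit_tilt {K : Set (ℂ × ℝ)} (hK : Convex ℝ K) {σ : ℝ} (hσ : σ * σ = 1) {y w : ℂ} {z : ℝ}
    (hlow : ∃ p ∈ interior K, σ * p.2 < σ * z) (hL : Lit (sec K z) y w) :
    ∃ U ∈ 𝓝 (y, z), ∃ τ₀ : ℝ, 0 < τ₀ ∧ ∀ τ : ℝ, 0 < τ → τ < τ₀ → ∀ x ∈ U, x ∈ K →
      ∃ ε : ℝ, 0 < ε ∧ x + ε • ((-w, -(σ * τ)) : ℂ × ℝ) ∈ interior K := by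
  obtain ⟨p, hp, hpz⟩ := hlow
  obtain ⟨ε, hε, hq⟩ := hL
  have hR := eventually_interior hK hσ hq hp hpz
  -- the moved point
  have hmap : ContinuousAt (fun r : (ℂ × ℝ) × ℝ => r.1 + ε • ((-w, -(σ * r.2)) : ℂ × ℝ))
      ((y, z), 0) := by
    apply Continuous.continuousAt
    fun_prop
  have hval : ((y, z) : ℂ × ℝ) + ε • ((-w, -(σ * 0)) : ℂ × ℝ) = (y - ε • w, z) := by
    ext1
    · simp [sub_eq_add_neg]
    · simp
  have key : ∀ᶠ r : (ℂ × ℝ) × ℝ in 𝓝 ((y, z), 0), 0 < r.2 → r.1 ∈ K →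
      r.1 + ε • ((-w, -(σ * r.2)) : ℂ × ℝ) ∈ interior K := by
    by_cases hext : ∃ p₂ ∈ K, σ * z < σ * p₂.2
    · -- the moved point itself is interior
      obtain ⟨p₂, hp₂, hz₂⟩ := hext
      have hint : (y - ε • w, z) ∈ interior K := by
        have hc : Tendsto (fun κ : ℝ => ((y - ε • w, z) : ℂ × ℝ) +
            κ • ((y - ε • w, z) - p₂)) (𝓝[>] 0)
            (𝓝 (((y - ε • w, z) : ℂ × ℝ) + (0 : ℝ) • ((y - ε • w, z) - p₂))) :=
          (Continuous.tendsto (by fun_prop) 0).mono_left nhdsWithin_le_nhds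
        rw [zero_smul, add_zero] at hc
        obtain ⟨κ, h1, h2⟩ := ((hc.eventually hR).and self_mem_nhdsWithin).exists
        have h2' : (0 : ℝ) < κ := h2
        have h3 := h1 (by
          simp only [Prod.snd_add, Prod.smul_snd, Prod.snd_sub, smul_eq_mul]
          have : 0 < κ * (σ * p₂.2 - σ * z) := mul_pos h2' (by linarith)
          linarith)
        have h4 : (0 : ℝ) < 1 / (1 + κ) := by positivity
        have h5 : (0 : ℝ) ≤ κ / (1 + κ) := by positivity
        have h6 : 1 / (1 + κ) + κ / (1 + κ) = 1 := by field_simp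
        have := hK.combo_interior_self_mem_interior h3 hp₂ h4 h5 h6
        convert this using 1
        have h7 : (1 + κ) ≠ 0 := by positivity
        have h8 : ((y - ε • w, z) : ℂ × ℝ) = ((1 / (1 + κ)) * (1 + κ)) • (y - ε • w, z) := by
          rw [one_div, inv_mul_cancel₀ h7, one_smul]
        have h9 : κ / (1 + κ) = (1 / (1 + κ)) * κ := by ring
        rw [h9]
        conv_lhs => rw [h8]
        module
      have := hmap.eventually_mem (s := interior K) (by
        show interior K ∈ 𝓝 (((y, z) : ℂ × ℝ) + ε • ((-w, -(σ * 0)) : ℂ × ℝ))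
        rw [hval]
        exact isOpen_interior.mem_nhds hint)
      filter_upwards [this] with r hr _ _ using hr
    · push Not at hext
      have h1 : ∀ᶠ r : (ℂ × ℝ) × ℝ in 𝓝 ((y, z), 0),
          0 < σ * (z - (r.1 + ε • ((-w, -(σ * r.2)) : ℂ × ℝ)).2) →
          r.1 + ε • ((-w, -(σ * r.2)) : ℂ × ℝ) ∈ interior K := by
        have hmap' : Tendsto (fun r : (ℂ × ℝ) × ℝ => r.1 + ε • ((-w, -(σ * r.2)) : ℂ × ℝ))
            (𝓝 ((y, z), 0)) (𝓝 (y - ε • w, z)) := by
          rw [← hval]; exact hmap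
        exact hmap'.eventually hR
      filter_upwards [h1] with r hr hr1 hr2
      apply hr
      simp only [Prod.snd_add, Prod.smul_snd, smul_eq_mul]
      have h2 := hext r.1 hr2
      have h3 : σ * (z - (r.1.2 + ε * -(σ * r.2))) = (σ * z - σ * r.1.2) +
          (σ * σ) * (ε * r.2) := by ring
      rw [h3, hσ]
      have := mul_pos hε hr1
      linarith
  rw [nhds_prod_eq, Filter.eventually_prod_iff] at key
  obtain ⟨pa, hpa, pb, hpb, hprod⟩ := key
  obtain ⟨τ₀, hτ₀, hball⟩ := Metric.eventually_nhds_iff.1 hpb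
  refine ⟨{x | pa x}, hpa, τ₀, hτ₀, fun τ hτ hττ x hx hxK => ⟨ε, hε, ?_⟩⟩
  refine hprod hx (hball ?_) hτ hxK
  rw [Real.dist_eq, sub_zero, abs_of_pos hτ]
  exact hττ

/-- **Assembling** the lighting of a three-dimensional body from the lighting of its horizontal
sections: `I` lights from above, `J` from below, `X` are extra directions. -/
theorem assemble {K : Set (ℂ × ℝ)} (hK : Convex ℝ K) (hc : IsCompact K)
    (hne : (interior K).Nonempty) {a b : ℝ} (ha : ∃ p ∈ K, p.2 = a) (hb : ∃ p ∈ K, p.2 = b)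
    (I J : Finset ℂ) (X : Finset (ℂ × ℝ))
    (h : ∀ x ∈ K, (∃ v ∈ X, ∃ ε : ℝ, 0 < ε ∧ x + ε • v ∈ interior K) ∨
      (∃ w ∈ I, a < x.2 ∧ Lit (sec K x.2) x.1 w) ∨
      (∃ w ∈ J, x.2 < b ∧ Lit (sec K x.2) x.1 w)) :
    CoverBy K (I.card + J.card + X.card) := by
  classical
  have hcl : K ⊆ closure (interior K) := by
    rw [hK.closure_interior_eq_closure_of_nonempty_interior hne]
    exact subset_closure
  let D : ℝ → Finset (ℂ × ℝ) := fun τ =>
    (I.image fun w => (-w, -((1 : ℝ) * τ))) ∪ (J.image fun w => (-w, -((-1 : ℝ) * τ))) ∪ X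
  have main : ∃ τ₀ : ℝ, 0 < τ₀ ∧ ∀ τ : ℝ, 0 < τ → τ < τ₀ → ∀ x ∈ K, x ∈ K →
      ∃ v ∈ D τ, ∃ ε : ℝ, 0 < ε ∧ x + ε • v ∈ interior K := by
    refine hc.induction_on (p := fun S => ∃ τ₀ : ℝ, 0 < τ₀ ∧ ∀ τ : ℝ, 0 < τ → τ < τ₀ →
      ∀ x ∈ S, x ∈ K → ∃ v ∈ D τ, ∃ ε : ℝ, 0 < ε ∧ x + ε • v ∈ interior K) ?_ ?_ ?_ ?_
    · exact ⟨1, one_pos, fun τ _ _ x hx => absurd hx (notMem_empty x)⟩
    · rintro S T hST ⟨τ₀, h0, hτ⟩
      exact ⟨τ₀, h0, fun τ h1 h2 x hx => hτ τ h1 h2 x (hST hx)⟩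
    · rintro S T ⟨τ₀, h0, hτ⟩ ⟨τ₁, h1, hτ'⟩
      refine ⟨min τ₀ τ₁, lt_min h0 h1, fun τ h2 h3 x hx => ?_⟩
      rcases hx with hx | hx
      · exact hτ τ h2 (h3.trans_le (min_le_left _ _)) x hx
      · exact hτ' τ h2 (h3.trans_le (min_le_right _ _)) x hx
    · intro x hx
      rcases h x hx with ⟨v, hv, ε, hε, hin⟩ | ⟨w, hw, haz, hL⟩ | ⟨w, hw, hzb, hL⟩
      · -- extra direction
        have hcont : ContinuousAt (fun x' : ℂ × ℝ => x' + ε • v) x := by fun_prop
        have hU := hcont.eventually_mem (isOpen_interior.mem_nhds hin)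
        refine ⟨{x' | x' + ε • v ∈ interior K}, mem_nhdsWithin_of_mem_nhds hU, 1, one_pos,
          fun τ _ _ x' hx' _ => ⟨v, ?_, ε, hε, hx'⟩⟩
        simp [D, hv]
      · -- from above
        have hlow : ∃ p ∈ interior K, (1 : ℝ) * p.2 < 1 * x.2 := by
          obtain ⟨p, hp, hpa⟩ := ha
          have hop : IsOpen {r : ℂ × ℝ | r.2 < x.2} := isOpen_lt continuous_snd continuous_const
          obtain ⟨r, hr1, hr2⟩ := mem_closure_iff.1 (hcl hp) _ hop (by
            show p.2 < x.2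
            rw [hpa]; exact haz)
          exact ⟨r, hr2, by simpa using hr1⟩
        obtain ⟨U, hU, τ₀, hτ₀, hτ⟩ := lit_tilt hK (σ := 1) (by norm_num) hlow hL
        refine ⟨U, mem_nhdsWithin_of_mem_nhds hU, τ₀, hτ₀, fun τ h1 h2 x' hx' hxK => ?_⟩
        obtain ⟨ε, hε, hin⟩ := hτ τ h1 h2 x' hx' hxK
        refine ⟨_, ?_, ε, hε, hin⟩
        simp only [D, Finset.mem_union, Finset.mem_image]
        exact Or.inl (Or.inl ⟨w, hw, rfl⟩)
      · -- from below
        have hlow : ∃ p ∈ interior K, (-1 : ℝ) * p.2 < -1 * x.2 := by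
          obtain ⟨p, hp, hpb⟩ := hb
          have hop : IsOpen {r : ℂ × ℝ | x.2 < r.2} := isOpen_lt continuous_const continuous_snd
          obtain ⟨r, hr1, hr2⟩ := mem_closure_iff.1 (hcl hp) _ hop (by
            show x.2 < p.2
            rw [hpb]; exact hzb)
          have hr1' : x.2 < r.2 := hr1
          exact ⟨r, hr2, by linarith⟩
        obtain ⟨U, hU, τ₀, hτ₀, hτ⟩ := lit_tilt hK (σ := -1) (by norm_num) hlow hL
        refine ⟨U, mem_nhdsWithin_of_mem_nhds hU, τ₀, hτ₀, fun τ h1 h2 x' hx' hxK => ?_⟩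
        obtain ⟨ε, hε, hin⟩ := hτ τ h1 h2 x' hx' hxK
        refine ⟨_, ?_, ε, hε, hin⟩
        simp only [D, Finset.mem_union, Finset.mem_image]
        exact Or.inl (Or.inr ⟨w, hw, rfl⟩)
  obtain ⟨τ₀, h0, hτ⟩ := main
  refine coverBy_of_illum hK hc (D (τ₀ / 2)) ?_ fun x hx =>
    hτ (τ₀ / 2) (by linarith) (by linarith) x hx hx
  refine (Finset.card_union_le _ _).trans ?_
  gcongr
  refine (Finset.card_union_le _ _).trans ?_
  gcongr
  · exact Finset.card_image_le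
  · exact Finset.card_image_le

/-- Over the interior of the shadow the two vertical directions light everything. -/
lemma lit_vertical {K : Set (ℂ × ℝ)} (hK : Convex ℝ K) (hne : (interior K).Nonempty)
    {x : ℂ × ℝ} (hx : x ∈ K) (hy : x.1 ∈ interior (Prod.fst '' K)) :
    ∃ v ∈ ({((0 : ℂ), (1 : ℝ)), ((0 : ℂ), (-1 : ℝ))} : Finset (ℂ × ℝ)),
      ∃ ε : ℝ, 0 < ε ∧ x + ε • v ∈ interior K := by
  obtain ⟨p, hp⟩ := hne
  -- an interior point over `x.1`
  have hc : Tendsto (fun κ : ℝ => x.1 + κ • (x.1 - p.1)) (𝓝[>] 0)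
      (𝓝 (x.1 + (0 : ℝ) • (x.1 - p.1))) :=
    (Continuous.tendsto (by fun_prop) 0).mono_left nhdsWithin_le_nhds
  rw [zero_smul, add_zero] at hc
  obtain ⟨κ, h1, h2⟩ := ((hc.eventually (mem_interior_iff_mem_nhds.1 hy)).and
    self_mem_nhdsWithin).exists
  have h2' : (0 : ℝ) < κ := h2
  obtain ⟨r, hr, hr1⟩ := h1
  have h4 : (0 : ℝ) < κ / (1 + κ) := by positivity
  have h5 : (0 : ℝ) ≤ 1 / (1 + κ) := by positivity
  have h6 : κ / (1 + κ) + 1 / (1 + κ) = 1 := by field_simp; ring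
  have hs := hK.combo_interior_self_mem_interior hp hr h4 h5 h6
  set s := (κ / (1 + κ)) • p + (1 / (1 + κ)) • r with hsdef
  have hs1 : s.1 = x.1 := by
    simp only [hsdef, Prod.fst_add, Prod.smul_fst]
    have hr1' : r.1 = x.1 + κ • (x.1 - p.1) := hr1
    rw [hr1']
    have h7 : (1 + κ) ≠ 0 := by positivity
    have h8 : x.1 = ((1 / (1 + κ)) * (1 + κ)) • x.1 := by
      rw [one_div, inv_mul_cancel₀ h7, one_smul]
    have h9 : κ / (1 + κ) = (1 / (1 + κ)) * κ := by ring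
    rw [h9]
    conv_rhs => rw [h8]
    module
  rcases lt_trichotomy s.2 x.2 with hlt | heq | hgt
  · refine ⟨(0, -1), by simp, x.2 - s.2, by linarith, ?_⟩
    convert hs using 1
    ext1
    · simp [hs1]
    · simp
  · -- `x` is interior
    have hxs : x = s := Prod.ext hs1.symm heq.symm
    have hcont : Tendsto (fun ε : ℝ => x + ε • ((0, 1) : ℂ × ℝ)) (𝓝[>] 0)
        (𝓝 (x + (0 : ℝ) • ((0, 1) : ℂ × ℝ))) :=
      (Continuous.tendsto (by fun_prop) 0).mono_left nhdsWithin_le_nhds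
    rw [zero_smul, add_zero] at hcont
    have hxi : x ∈ interior K := by rw [hxs]; exact hs
    obtain ⟨ε, h1, h2⟩ := ((hcont.eventually (isOpen_interior.mem_nhds hxi)).and
      self_mem_nhdsWithin).exists
    exact ⟨(0, 1), by simp, ε, h2, h1⟩
  · refine ⟨(0, 1), by simp, s.2 - x.2, by linarith, ?_⟩
    convert hs using 1
    ext1
    · simp [hs1]
    · simp

end Pool.Agent.Lib.HadwigerRot
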