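import Mathlib
import Pool.Agent.Lib.HadwigerRotPlane
import Pool.Agent.Lib.HadwigerRotSpace

/-!
# Three-dimensional bodies with a rotational symmetry by a nonobtuse angle
-/

set_option autoImplicit false
set_option linter.unusedSectionVars false

open Set Filter Topology

namespace Pool.Agent.Lib.HadwigerRot

open Pool.Agent.Lib.HadwigerIllum

/-- A convex set containing `0` and two independent vectors has nonempty interior. -/
lemma interior_of_two {C : Set ℂ} (hC : Convex ℝ C) (h0 : (0 : ℂ) ∈ C) {p q : ℂ} (hp : p ∈ C)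
    (hq : q ∈ C) (hpq : p.re * q.im - p.im * q.re ≠ 0) : (interior C).Nonempty := by
  set d := p.re * q.im - p.im * q.re with hd
  -- coordinates
  let A : ℂ → ℝ := fun z => (z.re * q.im - z.im * q.re) / d
  let B : ℂ → ℝ := fun z => (p.re * z.im - p.im * z.re) / d
  have hA : Continuous A := by fun_prop
  have hB : Continuous B := by fun_prop
  let O : Set ℂ := {z | 0 < A z} ∩ {z | 0 < B z} ∩ {z | A z + B z < 1}
  have hO : IsOpen O := ((isOpen_lt continuous_const hA).inter
    (isOpen_lt continuous_const hB)).inter (isOpen_lt (hA.add hB) continuous_const)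
  have hOC : O ⊆ C := by
    rintro z ⟨⟨h1, h2⟩, h3⟩
    have h1' : 0 < A z := h1
    have h2' : 0 < B z := h2
    have h3' : A z + B z < 1 := h3
    have hz : z = (A z + B z) • ((A z / (A z + B z)) • p + (B z / (A z + B z)) • q) +
        (1 - (A z + B z)) • (0 : ℂ) := by
      rw [smul_zero, add_zero, smul_add, smul_smul, smul_smul]
      have h4 : A z + B z ≠ 0 := by positivity
      rw [mul_div_cancel₀ _ h4, mul_div_cancel₀ _ h4]
      apply Complex.ext
      · simp only [Complex.add_re, Complex.real_smul, Complex.mul_re, Complex.ofReal_re,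
          Complex.ofReal_im, zero_mul, sub_zero, A, B]
        rw [div_mul_eq_mul_div, div_mul_eq_mul_div, ← add_div, eq_div_iff hpq]
        rw [hd]; ring
      · simp only [Complex.add_im, Complex.real_smul, Complex.mul_im, Complex.ofReal_re,
          Complex.ofReal_im, zero_mul, add_zero, A, B]
        rw [div_mul_eq_mul_div, div_mul_eq_mul_div, ← add_div, eq_div_iff hpq]
        rw [hd]; ring
    rw [hz]
    refine hC (hC hp hq ?_ ?_ ?_) h0 ?_ ?_ ?_
    · positivity
    · positivity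
    · field_simp
    · positivity
    · linarith
    · ring
  refine ⟨(1 / 3 : ℝ) • p + (1 / 3 : ℝ) • q, mem_interior.2 ⟨O, hOC, hO, ?_⟩⟩
  have hA1 : A ((1 / 3 : ℝ) • p + (1 / 3 : ℝ) • q) = 1 / 3 := by
    simp only [A, Complex.add_re, Complex.real_smul, Complex.mul_re, Complex.ofReal_re,
      Complex.ofReal_im, zero_mul, sub_zero, Complex.add_im, Complex.mul_im, add_zero]
    rw [div_eq_iff hpq, hd]; ring
  have hB1 : B ((1 / 3 : ℝ) • p + (1 / 3 : ℝ) • q) = 1 / 3 := by
    simp only [B, Complex.add_re, Complex.real_smul, Complex.mul_re, Complex.ofReal_re,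
      Complex.ofReal_im, zero_mul, sub_zero, Complex.add_im, Complex.mul_im, add_zero]
    rw [div_eq_iff hpq, hd]; ring
  refine ⟨⟨?_, ?_⟩, ?_⟩
  · show 0 < A _; rw [hA1]; norm_num
  · show 0 < B _; rw [hB1]; norm_num
  · show A _ + B _ < 1; rw [hA1, hB1]; norm_num

/-- The point `0` is interior to an invariant convex set containing a nonzero point. -/
lemma zero_mem_interior' {C : Set ℂ} (hC : Convex ℝ C) {v : ℂ}
    (hv : v.re < 0) (h1 : ∀ q ∈ C, v * q ∈ C) (h2 : ∀ q ∈ C, (starRingEnd ℂ) v * q ∈ C)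
    {u : ℂ} (hu : u.im ≠ 0) (h3 : ∀ q ∈ C, u * q ∈ C) {y : ℂ} (hy : y ∈ C) (hy0 : y ≠ 0) :
    (0 : ℂ) ∈ interior C := by
  have hmid : (v.re : ℝ) • y ∈ C := by
    have := hC (h1 y hy) (h2 y hy) (a := 1 / 2) (b := 1 / 2) (by norm_num) (by norm_num)
      (by norm_num)
    convert this using 1
    apply Complex.ext <;> simp <;> ring
  have h0 : (0 : ℂ) ∈ C := by
    have ht : 0 ≤ -v.re / (1 - v.re) := div_nonneg (by linarith) (by linarith)
    have ht' : 0 ≤ 1 / (1 - v.re) := by
      apply div_nonneg zero_le_one; linarith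
    have hne : (1 - v.re) ≠ 0 := by linarith
    have hsum : -v.re / (1 - v.re) + 1 / (1 - v.re) = 1 := by
      field_simp
      ring
    have := hC hy hmid ht ht' hsum
    convert this using 1
    rw [smul_smul, ← add_smul]
    have : -v.re / (1 - v.re) + 1 / (1 - v.re) * v.re = 0 := by
      field_simp; ring
    rw [this, zero_smul]
  refine zero_mem_interior hC (interior_of_two hC h0 hy (h3 y hy) ?_) hv h1 h2
  have h4 : y.re * (u * y).im - y.im * (u * y).re = u.im * (y.re ^ 2 + y.im ^ 2) := by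
    simp only [Complex.mul_re, Complex.mul_im]; ring
  rw [h4]
  apply mul_ne_zero hu
  intro h5
  apply hy0
  have h6 : y.re = 0 := by nlinarith [sq_nonneg y.re, sq_nonneg y.im]
  have h7 : y.im = 0 := by nlinarith [sq_nonneg y.re, sq_nonneg y.im]
  exact Complex.ext h6 h7

lemma lit_of_interior {C : Set ℂ} {y : ℂ} (hy : y ∈ interior C) (w : ℂ) : Lit C y w := by
  have hc : Tendsto (fun ε : ℝ => y - ε • w) (𝓝[>] 0) (𝓝 (y - (0 : ℝ) • w)) :=
    (Continuous.tendsto (by fun_prop) 0).mono_left nhdsWithin_le_nhds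
  rw [zero_smul, sub_zero] at hc
  obtain ⟨ε, h1, h2⟩ := ((hc.eventually (isOpen_interior.mem_nhds hy)).and
    self_mem_nhdsWithin).exists
  exact ⟨ε, h2, h1⟩

/-- Every complex number lies in one of four sectors. -/
lemma exists_sector4 (z : ℂ) : ∃ k : ℕ, k < 4 ∧ ∃ α β : ℝ, 0 ≤ α ∧ 0 ≤ β ∧
    z = Complex.I ^ k * ((α : ℂ) + β * Complex.I) := by
  have hz := Complex.re_add_im z
  have hI : Complex.I ^ 2 = -1 := Complex.I_sq
  have hI3 : Complex.I ^ 3 = -Complex.I := by
    rw [pow_succ, hI]; ring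
  rcases le_total 0 z.re with ha | ha <;> rcases le_total 0 z.im with hb | hb
  · exact ⟨0, by norm_num, z.re, z.im, ha, hb, by simp⟩
  · refine ⟨3, by norm_num, -z.im, z.re, by linarith, ha, ?_⟩
    rw [hI3]
    conv_lhs => rw [← hz]
    push_cast
    have : -Complex.I * (-(z.im : ℂ) + z.re * Complex.I) =
      z.im * Complex.I - z.re * Complex.I ^ 2 := by ring
    rw [this, hI]; ring
  · refine ⟨1, by norm_num, z.im, -z.re, hb, by linarith, ?_⟩
    conv_lhs => rw [← hz]
    push_cast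
    have : Complex.I ^ 1 * ((z.im : ℂ) + -z.re * Complex.I) =
      z.im * Complex.I - z.re * Complex.I ^ 2 := by ring
    rw [this, hI]; ring
  · refine ⟨2, by norm_num, -z.re, -z.im, by linarith, by linarith, ?_⟩
    rw [hI]
    conv_lhs => rw [← hz]
    push_cast
    ring

/-- Four orthogonal directions, one sector. -/
lemma four_unlit {C : Set ℂ} (hC : Convex ℝ C) (h0 : (0 : ℂ) ∈ interior C) {u : ℂ}
    (hu1 : u.re ^ 2 + u.im ^ 2 = 1) (hu2 : 0 ≤ u.re) (hu3 : u.re < 1)
    (hinv : ∀ q ∈ C, u * q ∈ C) (hinv' : ∀ q ∈ C, (starRingEnd ℂ) u * q ∈ C)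
    {w y : ℂ} {α β : ℝ} (hα : 0 ≤ α) (hβ : 0 ≤ β)
    (hyd : y = α • w + β • (Complex.I * w)) (hy : y ∈ C) (hy0 : y ≠ 0)
    (h1 : ¬ Lit C y w) (h2 : ¬ Lit C y (Complex.I * w)) :
    u.re = 0 ∧ α = β ∧ 0 < α ∧ ∀ a b : ℝ, a • w + b • (Complex.I * w) ∈ C → a ≤ α ∧ b ≤ α := by
  have hcone : ∀ a b : ℝ, a • w + b • (Complex.I * w) ∈ C → a ≤ α ∧ b ≤ β := fun a b hq =>
    cone_le hC h0 hα hβ hyd hy h1 h2 hq
  have hI : Complex.I ^ 2 = -1 := Complex.I_sq
  have hu : u = (u.re : ℂ) + u.im * Complex.I := (Complex.re_add_im u).symm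
  have hubar : (starRingEnd ℂ) u = (u.re : ℂ) - u.im * Complex.I := by
    apply Complex.ext <;> simp
  have r1 : u * y = (α * u.re - β * u.im) • w + (α * u.im + β * u.re) • (Complex.I * w) := by
    conv_lhs => rw [hyd, hu]
    simp only [Complex.real_smul]
    push_cast
    linear_combination (u.im * β * w : ℂ) * hI
  have r2 : (starRingEnd ℂ) u * y =
      (α * u.re + β * u.im) • w + (-α * u.im + β * u.re) • (Complex.I * w) := by
    conv_lhs => rw [hyd, hubar]
    simp only [Complex.real_smul]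
    push_cast
    linear_combination (-u.im * β * w : ℂ) * hI
  have c1 := hcone _ _ (r1 ▸ hinv y hy)
  have c2 := hcone _ _ (r2 ▸ hinv' y hy)
  have hs : u.im ≠ 0 := by
    intro h
    rw [h] at hu1
    nlinarith
  -- `|s| β ≤ (1 - c) α`, `|s| α ≤ (1 - c) β`
  have d1 : |u.im| * β ≤ (1 - u.re) * α := by
    rcases abs_cases u.im with h | h <;> rw [h.1] <;> nlinarith [c1.1, c2.1]
  have d2 : |u.im| * α ≤ (1 - u.re) * β := by
    rcases abs_cases u.im with h | h <;> rw [h.1] <;> nlinarith [c1.2, c2.2]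
  have hspos : 0 < |u.im| := abs_pos.2 hs
  have hs2 : |u.im| * |u.im| = 1 - u.re ^ 2 := by
    rw [abs_mul_abs_self]; nlinarith
  have hαpos : 0 < α := by
    rcases hα.eq_or_lt with h | h
    · exfalso
      rw [← h] at d1
      have : β = 0 := by nlinarith
      apply hy0
      rw [hyd, ← h, this]; simp
    · exact h
  have hβpos : 0 < β := by
    rcases hβ.eq_or_lt with h | h
    · exfalso
      rw [← h] at d2
      nlinarith
    · exact h
  have hprod : (|u.im| * β) * (|u.im| * α) ≤ ((1 - u.re) * α) * ((1 - u.re) * β) :=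
    mul_le_mul d1 d2 (by positivity) (mul_nonneg (by linarith) hα)
  have hαβ : 0 < α * β := mul_pos hαpos hβpos
  have hc : u.re = 0 := by
    have e1 : (1 - u.re ^ 2) * (α * β) ≤ (1 - u.re) ^ 2 * (α * β) := by
      rw [← hs2]; nlinarith
    have e2 := le_of_mul_le_mul_right e1 hαβ
    have e3 : (1 - u.re) * (2 * u.re) ≤ 0 := by nlinarith
    have e4 : 2 * u.re ≤ 0 := by
      by_contra hcon
      have := mul_pos (show 0 < 1 - u.re by linarith) (not_le.1 hcon)
      linarith
    linarith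
  have hs1 : |u.im| = 1 := by
    rw [hc] at hs2
    nlinarith [abs_nonneg u.im]
  rw [hs1, hc] at d1 d2
  have hab : α = β := by linarith
  refine ⟨hc, hab, hαpos, fun a b hq => ?_⟩
  have := hcone a b hq
  exact ⟨this.1, by rw [hab]; exact this.2⟩

/-- Four orthogonal directions. -/
lemma four_family {C : Set ℂ} (hC : Convex ℝ C) (h0 : (0 : ℂ) ∈ interior C) {u : ℂ}
    (hu1 : u.re ^ 2 + u.im ^ 2 = 1) (hu2 : 0 ≤ u.re) (hu3 : u.re < 1)
    (hinv : ∀ q ∈ C, u * q ∈ C) (hinv' : ∀ q ∈ C, (starRingEnd ℂ) u * q ∈ C)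
    {w y : ℂ} (hw : w ≠ 0) (hy : y ∈ C)
    (h : ∀ k < 4, ¬ Lit C y (Complex.I ^ k * w)) :
    u.re = 0 ∧ ∃ k < 4, ∃ α : ℝ, 0 < α ∧ y = α • ((1 + Complex.I) * (Complex.I ^ k * w)) ∧
      ∀ a b : ℝ, a • (Complex.I ^ k * w) + b • (Complex.I * (Complex.I ^ k * w)) ∈ C →
        a ≤ α ∧ b ≤ α := by
  obtain ⟨k, hk, α, β, hα, hβ, hz⟩ := exists_sector4 (y / w)
  have hyd : y = α • (Complex.I ^ k * w) + β • (Complex.I * (Complex.I ^ k * w)) := by
    have : y = (y / w) * w := by field_simp
    rw [this, hz]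
    simp only [Complex.real_smul]
    ring
  have hy0 : y ≠ 0 := by
    rintro rfl
    exact h 0 (by norm_num) (lit_of_interior h0 _)
  have h1 := h k hk
  have h2 : ¬ Lit C y (Complex.I * (Complex.I ^ k * w)) := by
    have h3 : Complex.I * (Complex.I ^ k * w) = Complex.I ^ ((k + 1) % 4) * w := by
      rw [← mul_assoc, ← pow_succ']
      congr 1
      conv_lhs => rw [← Nat.div_add_mod (k + 1) 4, pow_add, pow_mul, Complex.I_pow_four, one_pow,
        one_mul]
    rw [h3]
    exact h _ (Nat.mod_lt _ (by norm_num))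
  obtain ⟨e1, e2, e3, e4⟩ := four_unlit hC h0 hu1 hu2 hu3 hinv hinv' hα hβ hyd hy hy0 h1 h2
  refine ⟨e1, k, hk, α, e3, ?_, e4⟩
  rw [hyd, ← e2]
  simp only [Complex.real_smul]
  ring

/-- Six directions light everything if the symmetry is by a nonobtuse angle. -/
lemma six_family4 {C : Set ℂ} (hC : Convex ℝ C) (h0 : (0 : ℂ) ∈ interior C) {u : ℂ}
    (hu1 : u.re ^ 2 + u.im ^ 2 = 1) (hu2 : 0 ≤ u.re) (hu3 : u.re < 1)
    (hinv : ∀ q ∈ C, u * q ∈ C) (hinv' : ∀ q ∈ C, (starRingEnd ℂ) u * q ∈ C)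
    {y : ℂ} (hy : y ∈ C) : ∃ k < 6, Lit C y (e6 ^ k) := by
  by_contra hcon
  push Not at hcon
  obtain ⟨k, hk, α, β, hα, hβ, hz⟩ := exists_sector6 y
  have hyd : y = α • (e6 ^ k) + β • (e6 * e6 ^ k) := by
    rw [hz]
    simp only [Complex.real_smul]
    ring
  have hy0 : y ≠ 0 := by
    rintro rfl
    exact hcon 0 (by norm_num) (lit_of_interior h0 _)
  have h1 := hcon k hk
  have h2 : ¬ Lit C y (e6 * e6 ^ k) := by
    have h3 : e6 * e6 ^ k = e6 ^ ((k + 1) % 6) := by
      rw [← pow_succ']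
      conv_lhs => rw [← Nat.div_add_mod (k + 1) 6, pow_add, pow_mul, e6_six, one_pow, one_mul]
    rw [h3]
    exact hcon _ (Nat.mod_lt _ (by norm_num))
  have hcone : ∀ a b : ℝ, a • (e6 ^ k) + b • (e6 * e6 ^ k) ∈ C → a ≤ α ∧ b ≤ β := fun a b hq =>
    cone_le hC h0 hα hβ hyd hy h1 h2 hq
  set r := Real.sqrt 3 with hr
  have hrpos : 0 < r := Real.sqrt_pos.2 (by norm_num)
  have hr2 : r * r = 3 := Real.mul_self_sqrt (by norm_num)
  set t := u.im / r with ht
  have htim : u.im = t * r := by rw [ht]; field_simp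
  have hu : u = ((u.re - t : ℝ) : ℂ) + ((2 * t : ℝ) : ℂ) * e6 := by
    apply Complex.ext
    · simp [e6]; ring
    · simp [e6]
      rw [htim]; ring
  have hubar : (starRingEnd ℂ) u = ((u.re + t : ℝ) : ℂ) - ((2 * t : ℝ) : ℂ) * e6 := by
    apply Complex.ext
    · simp [e6]; ring
    · simp [e6]
      rw [htim]; ring
  have hsq := e6_sq
  have r1 : u * y = ((u.re - t) * α - 2 * t * β) • (e6 ^ k) +
      ((u.re - t) * β + 2 * t * (α + β)) • (e6 * e6 ^ k) := by
    conv_lhs => rw [hyd, hu]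
    simp only [Complex.real_smul]
    push_cast
    linear_combination (2 * t * β * e6 ^ k : ℂ) * hsq
  have r2 : (starRingEnd ℂ) u * y = ((u.re + t) * α + 2 * t * β) • (e6 ^ k) +
      ((u.re + t) * β - 2 * t * (α + β)) • (e6 * e6 ^ k) := by
    conv_lhs => rw [hyd, hubar]
    simp only [Complex.real_smul]
    push_cast
    linear_combination (-2 * t * β * e6 ^ k : ℂ) * hsq
  have c1 := hcone _ _ (r1 ▸ hinv y hy)
  have c2 := hcone _ _ (r2 ▸ hinv' y hy)
  have hab : 0 < α + β := by
    rcases (add_nonneg hα hβ).eq_or_lt with h | h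
    · exfalso
      have ha : α = 0 := by linarith
      have hb : β = 0 := by linarith
      apply hy0
      rw [hyd, ha, hb]; simp
    · exact h
  have d1 : |t| * (α + 2 * β) ≤ (1 - u.re) * α := by
    rcases abs_cases t with h | h <;> rw [h.1] <;> nlinarith [c1.1, c2.1]
  have d2 : |t| * (2 * α + β) ≤ (1 - u.re) * β := by
    rcases abs_cases t with h | h <;> rw [h.1] <;> nlinarith [c1.2, c2.2]
  have d3 : (3 * |t|) * (α + β) ≤ (1 - u.re) * (α + β) := by nlinarith
  have d4 := le_of_mul_le_mul_right d3 hab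
  have d5 : (3 * |t|) * (3 * |t|) ≤ (1 - u.re) * (1 - u.re) :=
    mul_le_mul d4 d4 (by positivity) (by linarith)
  have d6 : (3 * |t|) * (3 * |t|) = 3 * (1 - u.re ^ 2) := by
    have : |t| * |t| = t * t := abs_mul_abs_self t
    have e : u.im ^ 2 = t * t * 3 := by rw [htim, ← hr2]; ring
    nlinarith
  nlinarith

lemma sq_eq_one_iff_of_side {x : ℝ} (h : x ^ 2 = 1) : x = 1 ∨ x = -1 :=
  by
  have h1 : (x - 1) * (x + 1) = 0 := by linarith [show (x - 1) * (x + 1) = x ^ 2 - 1 by ring]
  rcases mul_eq_zero.1 h1 with h2 | h2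
  · left; linarith
  · right; linarith

lemma eq_of_normSq_eq {p : ℂ} (h : p.re ^ 2 + p.im ^ 2 = 0) : p = 0 := by
  have h6 : p.re = 0 := by nlinarith [sq_nonneg p.re, sq_nonneg p.im]
  have h7 : p.im = 0 := by nlinarith [sq_nonneg p.re, sq_nonneg p.im]
  exact Complex.ext h6 h7

/-- In a fourfold symmetric set, four orthogonal directions close to a farthest point light
everything. -/
lemma four_far {C : Set ℂ} (hC : Convex ℝ C) (h0 : (0 : ℂ) ∈ interior C)
    (hinv : ∀ q ∈ C, Complex.I * q ∈ C) (hinv' : ∀ q ∈ C, (starRingEnd ℂ) Complex.I * q ∈ C)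
    {w t : ℂ} (ht : t ∈ C) (hfar : ∀ q ∈ C, Complex.normSq q ≤ Complex.normSq t)
    {a b : ℝ} (hab : |b| < a) (htw : t = a • w + b • (Complex.I * w)) (hw : w ≠ 0)
    {y : ℂ} (hy : y ∈ C) : ∃ k < 4, Lit C y (Complex.I ^ k * w) := by
  by_contra hcon
  push Not at hcon
  obtain ⟨_, k, hk, α, hα, hyα, hbd⟩ := four_family hC h0 (u := Complex.I) (by simp) (by simp)
    (by simp) hinv hinv' hw hy hcon
  have htk : ∀ k : ℕ, Complex.I ^ k * t ∈ C := by
    intro k
    induction k with
    | zero => simpa using ht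
    | succ n ih =>
      have := hinv _ ih
      rw [← mul_assoc, ← pow_succ'] at this
      exact this
  have h1 := hbd a b (by
    have h2 := htk k
    rw [htw] at h2
    convert h2 using 1
    simp only [Complex.real_smul]
    ring)
  have hwpos : 0 < Complex.normSq w := Complex.normSq_pos.2 hw
  have e1 : Complex.normSq y = 2 * α ^ 2 * Complex.normSq w := by
    rw [hyα, Complex.real_smul, Complex.normSq_mul, Complex.normSq_mul, Complex.normSq_mul,
      map_pow, Complex.normSq_I, one_pow, one_mul]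
    have : Complex.normSq (1 + Complex.I) = 2 := by
      simp [Complex.normSq_apply]; norm_num
    rw [this, Complex.normSq_ofReal]
    ring
  have e2 : Complex.normSq t = (a ^ 2 + b ^ 2) * Complex.normSq w := by
    have : t = ((a : ℂ) + b * Complex.I) * w := by
      rw [htw]; simp only [Complex.real_smul]; ring
    rw [this, Complex.normSq_mul]
    congr 1
    simp [Complex.normSq_apply]; ring
  have h3 := hfar y hy
  rw [e1, e2] at h3
  have h4 := le_of_mul_le_mul_right h3 hwpos
  have h5 : b ^ 2 < a ^ 2 := sq_lt_sq' (by linarith [neg_abs_le b]) (lt_of_le_of_lt (le_abs_self b) hab)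
  have h6 : 0 < a := lt_of_le_of_lt (abs_nonneg b) hab
  nlinarith [h1.1]

section body

variable {K : Set (ℂ × ℝ)}

lemma exists_heights (hc : IsCompact K) (hne : K.Nonempty) : ∃ a b : ℝ,
    (∃ p ∈ K, p.2 = a) ∧ (∃ p ∈ K, p.2 = b) ∧ ∀ x ∈ K, a ≤ x.2 ∧ x.2 ≤ b := by
  obtain ⟨p, hp, hpm⟩ := hc.exists_isMinOn hne continuous_snd.continuousOn
  obtain ⟨q, hq, hqm⟩ := hc.exists_isMaxOn hne continuous_snd.continuousOn
  exact ⟨p.2, q.2, ⟨p, hp, rfl⟩, ⟨q, hq, rfl⟩, fun x hx => ⟨hpm hx, hqm hx⟩⟩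

lemma heights_lt (hne : (interior K).Nonempty) {a b : ℝ} (hab : ∀ x ∈ K, a ≤ x.2 ∧ x.2 ≤ b) :
    a < b := by
  obtain ⟨p, hp⟩ := hne
  have hc : Tendsto (fun κ : ℝ => p + κ • ((0, 1) : ℂ × ℝ)) (𝓝[>] 0)
      (𝓝 (p + (0 : ℝ) • ((0, 1) : ℂ × ℝ))) :=
    (Continuous.tendsto (by fun_prop) 0).mono_left nhdsWithin_le_nhds
  rw [zero_smul, add_zero] at hc
  obtain ⟨κ, h1, h2⟩ := ((hc.eventually (mem_interior_iff_mem_nhds.1 hp)).and
    self_mem_nhdsWithin).exists
  have h2' : (0 : ℝ) < κ := h2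
  have h3 := (hab _ h1).2
  have h4 := (hab _ (interior_subset hp)).1
  simp at h3
  linarith

lemma sec_compact (hc : IsCompact K) (z : ℝ) : IsCompact (sec K z) := by
  have h1 : IsCompact (K ∩ {x | x.2 = z}) := hc.inter_right (isClosed_eq continuous_snd
    continuous_const)
  have h2 : sec K z = Prod.fst '' (K ∩ {x | x.2 = z}) := by
    ext y
    simp only [mem_sec, mem_image, mem_inter_iff, mem_ofPred_eq, Prod.exists]
    constructor
    · intro h; exact ⟨y, z, ⟨h, rfl⟩, rfl⟩
    · rintro ⟨x, z', ⟨h, rfl⟩, rfl⟩; exact h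
  rw [h2]
  exact h1.image continuous_fst

/-- The section at a height between a point over a nonzero vector and some other height contains
nonzero vectors. -/
lemma exists_ne_zero (hK : Convex ℝ K) {y : ℂ} {b a z : ℝ} (hy : (y, b) ∈ K) (hy0 : y ≠ 0)
    (h0 : ((0 : ℂ), a) ∈ K) (haz : a < z) (hzb : z ≤ b) : ∃ q ∈ sec K z, q ≠ 0 := by
  have hab : 0 < b - a := by linarith
  refine ⟨((z - a) / (b - a)) • y, ?_, ?_⟩
  · rw [mem_sec]
    have := hK hy h0 (a := (z - a) / (b - a)) (b := (b - z) / (b - a))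
      (div_nonneg (by linarith) hab.le) (div_nonneg (by linarith) hab.le) (by
        rw [← add_div, div_eq_one_iff_eq hab.ne']; ring)
    convert this using 1
    ext1
    · simp
    · simp only [Prod.smul_mk, Prod.mk_add_mk, smul_eq_mul]
      field_simp
      ring
  · apply smul_ne_zero _ hy0
    apply div_ne_zero <;> linarith

lemma zero_mem_of_rot {C : Set ℂ} (hC : Convex ℝ C) {v q : ℂ} (hv : v.re < 0) (hq : q ∈ C)
    (h1 : v * q ∈ C) (h2 : (starRingEnd ℂ) v * q ∈ C) : (0 : ℂ) ∈ C := by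
  have hmid : (v.re : ℝ) • q ∈ C := by
    have := hC h1 h2 (a := 1 / 2) (b := 1 / 2) (by norm_num) (by norm_num) (by norm_num)
    convert this using 1
    apply Complex.ext <;> simp <;> ring
  have ht : 0 ≤ -v.re / (1 - v.re) := div_nonneg (by linarith) (by linarith)
  have ht' : 0 ≤ 1 / (1 - v.re) := by
    apply div_nonneg zero_le_one; linarith
  have hne : (1 - v.re) ≠ 0 := by linarith
  have hsum : -v.re / (1 - v.re) + 1 / (1 - v.re) = 1 := by
    field_simp
    ring
  have := hC hq hmid ht ht' hsum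
  convert this using 1
  rw [smul_smul, ← add_smul]
  have : -v.re / (1 - v.re) + 1 / (1 - v.re) * v.re = 0 := by
    field_simp; ring
  rw [this, zero_smul]

/-- Common data of a body in `ℂ × ℝ` with a rotation `v` of the first factor by an obtuse angle and
a nonreal rotation `u`. -/
structure RotBody (K : Set (ℂ × ℝ)) (u v : ℂ) (a b : ℝ) : Prop where
  convex : Convex ℝ K
  compact : IsCompact K
  ne : (interior K).Nonempty
  uim : u.im ≠ 0
  vre : v.re < 0
  u1 : ∀ x ∈ K, (u * x.1, x.2) ∈ K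
  u2 : ∀ x ∈ K, ((starRingEnd ℂ) u * x.1, x.2) ∈ K
  v1 : ∀ x ∈ K, (v * x.1, x.2) ∈ K
  v2 : ∀ x ∈ K, ((starRingEnd ℂ) v * x.1, x.2) ∈ K
  ha : ∃ p ∈ K, p.2 = a
  hb : ∃ p ∈ K, p.2 = b
  hab : ∀ x ∈ K, a ≤ x.2 ∧ x.2 ≤ b

namespace RotBody

variable {u v : ℂ} {a b : ℝ}

lemma lt (h : RotBody K u v a b) : a < b := heights_lt h.ne h.hab

lemma shadow_int (h : RotBody K u v a b) : (0 : ℂ) ∈ interior (Prod.fst '' K) := by
  have hconv : Convex ℝ (Prod.fst '' K) := h.convex.linear_image (LinearMap.fst ℝ ℂ ℝ)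
  refine zero_mem_interior hconv ?_ h.vre ?_ ?_
  · obtain ⟨p, hp⟩ := h.ne
    refine ⟨p.1, ?_⟩
    have : Prod.fst '' interior K ⊆ interior (Prod.fst '' K) := by
      apply interior_maximal (image_mono interior_subset)
      exact isOpenMap_fst _ isOpen_interior
    exact this (mem_image_of_mem _ hp)
  · rintro _ ⟨x, hx, rfl⟩
    exact ⟨_, h.v1 x hx, rfl⟩
  · rintro _ ⟨x, hx, rfl⟩
    exact ⟨_, h.v2 x hx, rfl⟩

lemma sec_int (h : RotBody K u v a b) {z : ℝ} {y : ℂ} (hy : y ∈ sec K z) (hy0 : y ≠ 0) :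
    (0 : ℂ) ∈ interior (sec K z) :=
  zero_mem_interior' (sec_convex h.convex z) h.vre (fun q hq => h.v1 (q, z) hq)
    (fun q hq => h.v2 (q, z) hq) h.uim (fun q hq => h.u1 (q, z) hq) hy hy0

lemma zero_mem_bot (h : RotBody K u v a b) : ((0 : ℂ), a) ∈ K := by
  obtain ⟨p, hp, hpa⟩ := h.ha
  have hp' : p.1 ∈ sec K a := by rw [mem_sec, ← hpa]; exact hp
  exact zero_mem_of_rot (sec_convex h.convex a) h.vre hp' (h.v1 (p.1, a) hp')
    (h.v2 (p.1, a) hp')

lemma ne_zero_of_not_mem (h : RotBody K u v a b) {y : ℂ} (hy : y ∉ interior (Prod.fst '' K)) :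
    y ≠ 0 := by
  rintro rfl
  exact hy h.shadow_int

end RotBody

/-- **Nonobtuse rotations.** -/
theorem cover_four {u v : ℂ} {a b : ℝ} (h : RotBody K u v a b)
    (hu1 : u.re ^ 2 + u.im ^ 2 = 1) (hu2 : 0 ≤ u.re) : CoverBy K 8 := by
  classical
  have hu3 : u.re < 1 := by
    have := h.uim
    have h2 : 0 < u.im ^ 2 := by positivity
    nlinarith
  have hlt := h.lt
  let six : Finset ℂ := (Finset.range 6).image fun k => e6 ^ k
  have hsix : six.card ≤ 6 := Finset.card_image_le.trans (by simp)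
  let X : Finset (ℂ × ℝ) := {((0 : ℂ), (1 : ℝ)), ((0 : ℂ), (-1 : ℝ))}
  have hX : X.card ≤ 2 := Finset.card_le_two
  have hsixlit : ∀ x ∈ K, x.1 ∉ interior (Prod.fst '' K) →
      ∃ w ∈ six, Lit (sec K x.2) x.1 w := by
    intro x hx hx1
    have h0 := h.sec_int (z := x.2) (y := x.1) hx (h.ne_zero_of_not_mem hx1)
    obtain ⟨k, hk, hL⟩ := six_family4 (sec_convex h.convex x.2) h0 hu1 hu2 hu3
      (fun q hq => h.u1 (q, x.2) hq) (fun q hq => h.u2 (q, x.2) hq) (y := x.1) hx
    exact ⟨_, Finset.mem_image_of_mem _ (Finset.mem_range.2 hk), hL⟩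
  by_cases hA : ∃ x ∈ K, x.2 = a ∧ x.1 ∉ interior (Prod.fst '' K)
  swap
  · push Not at hA
    refine CoverBy.mono (assemble h.convex h.compact h.ne h.ha h.hb six ∅ X ?_) (by simp; omega)
    intro x hx
    by_cases hx1 : x.1 ∈ interior (Prod.fst '' K)
    · exact Or.inl (lit_vertical h.convex h.ne hx hx1)
    · obtain ⟨w, hw, hL⟩ := hsixlit x hx hx1
      refine Or.inr (Or.inl ⟨w, hw, ?_, hL⟩)
      exact lt_of_le_of_ne (h.hab x hx).1 fun he => hx1 (hA x hx he.symm)
  by_cases hB : ∃ x ∈ K, x.2 = b ∧ x.1 ∉ interior (Prod.fst '' K)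
  swap
  · push Not at hB
    refine CoverBy.mono (assemble h.convex h.compact h.ne h.ha h.hb ∅ six X ?_) (by simp; omega)
    intro x hx
    by_cases hx1 : x.1 ∈ interior (Prod.fst '' K)
    · exact Or.inl (lit_vertical h.convex h.ne hx hx1)
    · obtain ⟨w, hw, hL⟩ := hsixlit x hx hx1
      refine Or.inr (Or.inr ⟨w, hw, ?_, hL⟩)
      exact lt_of_le_of_ne (h.hab x hx).2 fun he => hx1 (hB x hx he)
  -- both extreme sections reach the boundary of the shadow
  obtain ⟨xa, hxa, hxa2, hxa1⟩ := hA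
  obtain ⟨xb, hxb, hxb2, hxb1⟩ := hB
  have hya : xa.1 ∈ sec K a := by rw [mem_sec, ← hxa2]; exact hxa
  have hyb : xb.1 ∈ sec K b := by rw [mem_sec, ← hxb2]; exact hxb
  have hya0 := h.ne_zero_of_not_mem hxa1
  have hyb0 := h.ne_zero_of_not_mem hxb1
  have hint : ∀ z, a ≤ z → z ≤ b → (0 : ℂ) ∈ interior (sec K z) := by
    intro z h1 h2
    rcases h1.eq_or_lt with h3 | h3
    · rw [← h3]; exact h.sec_int hya hya0
    · obtain ⟨q, hq, hq0⟩ := exists_ne_zero h.convex hyb hyb0 h.zero_mem_bot h3 h2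
      exact h.sec_int hq hq0
  have hunit : ∀ w : ℂ, ∀ I J : Finset ℂ, I = (Finset.range 4).image (fun k => Complex.I ^ k * w) →
      I.card ≤ 4 := by
    rintro w I J rfl
    exact Finset.card_image_le.trans (by simp)
  rcases hu2.eq_or_lt with hre | hre
  · -- a fourfold symmetry
    have huI : u = Complex.I ∨ u = -Complex.I := by
      have h1 : u.im ^ 2 = 1 := by rw [← hre] at hu1; linarith
      rcases sq_eq_one_iff_of_side h1 with h2 | h2
      · left; apply Complex.ext <;> simp [← hre, h2]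
      · right; apply Complex.ext <;> simp [← hre, h2]
    have hI : ∀ x ∈ K, (Complex.I * x.1, x.2) ∈ K ∧ ((starRingEnd ℂ) Complex.I * x.1, x.2) ∈ K := by
      intro x hx
      rcases huI with h1 | h1
      · have h2 := h.u1 x hx
        have h3 := h.u2 x hx
        rw [h1] at h2 h3
        exact ⟨h2, h3⟩
      · have h2 := h.u1 x hx
        have h3 := h.u2 x hx
        rw [h1] at h2 h3
        refine ⟨?_, ?_⟩
        · simpa using h3
        · simpa using h2
    have hfam : ∀ {z : ℝ} {w y : ℂ}, a ≤ z → z ≤ b → w ≠ 0 → y ∈ sec K z →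
        (∀ k < 4, ¬ Lit (sec K z) y (Complex.I ^ k * w)) →
        ∃ k < 4, ∃ α : ℝ, 0 < α ∧ y = α • ((1 + Complex.I) * (Complex.I ^ k * w)) := by
      intro z w y h1 h2 hw hy hun
      obtain ⟨_, k, hk, α, hα, hyα, _⟩ := four_family (sec_convex h.convex z) (hint z h1 h2)
        (u := Complex.I) (by simp) (by simp) (by simp) (fun q hq => (hI (q, z) hq).1)
        (fun q hq => (hI (q, z) hq).2) hw hy hun
      exact ⟨k, hk, α, hα, hyα⟩
    obtain ⟨ta, hta, htam⟩ := (sec_compact h.compact a).exists_isMaxOn ⟨_, hya⟩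
      Complex.continuous_normSq.continuousOn
    obtain ⟨tb, htb, htbm⟩ := (sec_compact h.compact b).exists_isMaxOn ⟨_, hyb⟩
      Complex.continuous_normSq.continuousOn
    have hta0 : ta ≠ 0 := by
      rintro rfl
      have h1 := htam hya
      simp only [map_zero, mem_ofPred_eq] at h1
      have h2 := Complex.normSq_pos.2 hya0
      linarith
    have htb0 : tb ≠ 0 := by
      rintro rfl
      have h1 := htbm hyb
      simp only [map_zero, mem_ofPred_eq] at h1
      have h2 := Complex.normSq_pos.2 hyb0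
      linarith
    -- the choice of the upper directions
    obtain ⟨wb, hwb0, hwbcoord, hwbpar⟩ : ∃ wb : ℂ, wb ≠ 0 ∧
        (∃ c d : ℝ, |d| < c ∧ tb = c • wb + d • (Complex.I * wb)) ∧
        ¬ ∃ j : ℕ, ∃ ρ : ℝ, 0 < ρ ∧ wb = ρ • (Complex.I ^ j * ta) := by
      by_cases hpar : ∃ j : ℕ, ∃ ρ : ℝ, 0 < ρ ∧ tb = ρ • (Complex.I ^ j * ta)
      · obtain ⟨j, ρ, hρ, hj⟩ := hpar
        refine ⟨(1 + (1 / 2 : ℝ) * Complex.I) * tb, ?_, ⟨4 / 5, -(2 / 5), ?_, ?_⟩, ?_⟩
        · apply mul_ne_zero _ htb0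
          intro h1
          have := congrArg Complex.re h1
          simp at this
        · rw [abs_lt]; constructor <;> norm_num
        · simp only [Complex.real_smul]
          push_cast
          linear_combination (1 / 5 * tb : ℂ) * Complex.I_sq
        · rintro ⟨j', ρ', hρ', hj'⟩
          rw [hj] at hj'
          -- compare
          have h1 : (1 + (1 / 2 : ℝ) * Complex.I) * (ρ * Complex.I ^ j) =
              ρ' * Complex.I ^ j' := by
            apply mul_right_cancel₀ hta0
            simp only [Complex.real_smul] at hj'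
            linear_combination hj'
          have hpow : ∀ j : ℕ, Complex.I ^ j = 1 ∨ Complex.I ^ j = Complex.I ∨
              Complex.I ^ j = -1 ∨ Complex.I ^ j = -Complex.I := by
            intro j
            induction j with
            | zero => simp
            | succ n ih =>
              rw [pow_succ]
              rcases ih with ih | ih | ih | ih <;> rw [ih] <;> simp
          have h2 := congrArg Complex.re h1
          have h3 := congrArg Complex.im h1
          rcases hpow j with e | e | e | e <;> rcases hpow j' with e' | e' | e' | e' <;>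
            rw [e, e'] at h2 h3 <;> simp at h2 h3 <;> nlinarith
      · exact ⟨tb, htb0, ⟨1, 0, by simp, by simp⟩, hpar⟩
    obtain ⟨c, d, hcd, htbw⟩ := hwbcoord
    let I : Finset ℂ := (Finset.range 4).image fun k => Complex.I ^ k * wb
    let J : Finset ℂ := (Finset.range 4).image fun k => Complex.I ^ k * ta
    have hI4 : I.card ≤ 4 := Finset.card_image_le.trans (by simp)
    have hJ4 : J.card ≤ 4 := Finset.card_image_le.trans (by simp)
    refine CoverBy.mono (assemble h.convex h.compact h.ne h.ha h.hb I J ∅ ?_) (by simp; omega)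
    intro x hx
    right
    rcases (h.hab x hx).1.eq_or_lt with h1 | h1
    · -- bottom
      right
      have hx' : x.1 ∈ sec K x.2 := hx
      rw [← h1] at hx' ⊢
      obtain ⟨k, hk, hL⟩ := four_far (sec_convex h.convex a) (hint a le_rfl hlt.le)
        (fun q hq => (hI (q, a) hq).1) (fun q hq => (hI (q, a) hq).2) hta
        (fun q hq => htam hq) (a := 1) (b := 0) (by simp) (w := ta) (by simp) hta0 hx'
      exact ⟨_, Finset.mem_image_of_mem _ (Finset.mem_range.2 hk), hlt, hL⟩
    rcases (h.hab x hx).2.eq_or_lt with h2 | h2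
    · -- top
      left
      have hx' : x.1 ∈ sec K x.2 := hx
      rw [h2] at hx' ⊢
      obtain ⟨k, hk, hL⟩ := four_far (sec_convex h.convex b) (hint b hlt.le le_rfl)
        (fun q hq => (hI (q, b) hq).1) (fun q hq => (hI (q, b) hq).2) htb
        (fun q hq => htbm hq) hcd htbw hwb0 hx'
      exact ⟨_, Finset.mem_image_of_mem _ (Finset.mem_range.2 hk), hlt, hL⟩
    · -- in between
      by_contra hcon
      push Not at hcon
      obtain ⟨k, hk, α, hα, hyα⟩ := hfam (w := wb) h1.le h2.le hwb0 (y := x.1) hx (fun k hk =>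
        hcon.1 _ (Finset.mem_image_of_mem _ (Finset.mem_range.2 hk)) h1)
      obtain ⟨l, hl, β, hβ, hyβ⟩ := hfam (w := ta) h1.le h2.le hta0 (y := x.1) hx (fun k hk =>
        hcon.2 _ (Finset.mem_image_of_mem _ (Finset.mem_range.2 hk)) h2)
      apply hwbpar
      refine ⟨4 - k + l, β / α, by positivity, ?_⟩
      have h3 : α • ((1 + Complex.I) * (Complex.I ^ k * wb)) =
          β • ((1 + Complex.I) * (Complex.I ^ l * ta)) := by rw [← hyα, ← hyβ]
      have h1I : (1 + Complex.I) ≠ 0 := by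
        intro h1
        have := congrArg Complex.re h1
        simp at this
      have hα' : (α : ℂ) ≠ 0 := by exact_mod_cast hα.ne'
      have hIk : Complex.I ^ (4 - k) * Complex.I ^ k = 1 := by
        rw [← pow_add, Nat.sub_add_cancel hk.le, Complex.I_pow_four]
      simp only [Complex.real_smul] at h3 ⊢
      rw [pow_add]
      push_cast
      have h4 : (α : ℂ) * (Complex.I ^ k * wb) = β * (Complex.I ^ l * ta) := by
        apply mul_left_cancel₀ h1I
        linear_combination h3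
      field_simp
      linear_combination (Complex.I ^ (4 - k)) * h4 - (α * wb : ℂ) * hIk
  · -- strictly acute
    let four : Finset ℂ := (Finset.range 4).image fun k => Complex.I ^ k * 1
    have hfour : four.card ≤ 4 := Finset.card_image_le.trans (by simp)
    refine CoverBy.mono (assemble h.convex h.compact h.ne h.ha h.hb four four ∅ ?_)
      (by simp; omega)
    intro x hx
    right
    have hL : ∃ w ∈ four, Lit (sec K x.2) x.1 w := by
      by_contra hcon
      push Not at hcon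
      have h0 := hint x.2 (h.hab x hx).1 (h.hab x hx).2
      have := four_family (sec_convex h.convex x.2) h0 hu1 hu2 hu3
        (fun q hq => h.u1 (q, x.2) hq) (fun q hq => h.u2 (q, x.2) hq) one_ne_zero (y := x.1) hx
        (fun k hk => hcon _ (Finset.mem_image_of_mem _ (Finset.mem_range.2 hk)))
      linarith [this.1]
    obtain ⟨w, hw, hL⟩ := hL
    rcases (h.hab x hx).1.eq_or_lt with h1 | h1
    · exact Or.inr ⟨w, hw, by rw [← h1]; exact hlt, hL⟩
    · exact Or.inl ⟨w, hw, h1, hL⟩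

end body

end Pool.Agent.Lib.HadwigerRot
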