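import Mathlib
import Pool.Agent.Lib.HadwigerRotFour

/-!
# Three-dimensional bodies with a rotational symmetry of order three: planar lemmas
-/

set_option autoImplicit false
set_option linter.unusedSectionVars false

open Set Filter Topology

namespace Pool.Agent.Lib.HadwigerRot

open Pool.Agent.Lib.HadwigerIllum

/-- Coordinates in the basis `y, e6 y`. -/
lemma coord_y {y : ℂ} (hy : y ≠ 0) (q : ℂ) : ∃ a b : ℝ, q = a • y + b • (e6 * y) := by
  obtain ⟨a, b, h⟩ := coord_e6 (q / y)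
  refine ⟨a, b, ?_⟩
  have : q = (q / y) * y := by field_simp
  rw [this, h]
  simp only [Complex.real_smul]
  ring

lemma coord_y_unique {y : ℂ} (hy : y ≠ 0) {a b a' b' : ℝ}
    (h : a • y + b • (e6 * y) = a' • y + b' • (e6 * y)) : a = a' ∧ b = b' := by
  apply coord_e6_unique
  apply mul_right_cancel₀ hy
  simp only [Complex.real_smul] at h
  linear_combination h

/-- The threefold symmetric set `C` is the equilateral triangle with vertex `y` (and centre `0`):
this is what it says for an invariant set containing `y`. -/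
def TriAt (C : Set ℂ) (y : ℂ) : Prop := ∀ a b : ℝ, a • y + b • (e6 * y) ∈ C → -1 ≤ 2 * a + b

/-- Six equally spaced directions fail only at the vertices of a triangle of a certain
orientation. -/
lemma six_family3 {C : Set ℂ} (hC : Convex ℝ C) (h0 : (0 : ℂ) ∈ interior C)
    (hinv : ∀ q ∈ C, e6 ^ 2 * q ∈ C) {w y : ℂ} (hw : w ≠ 0) (hy : y ∈ C)
    (h : ∀ k < 6, ¬ Lit C y (e6 ^ k * w)) :
    ∃ k < 6, ∃ α : ℝ, 0 < α ∧ y = α • ((1 + e6) * (e6 ^ k * w)) ∧ TriAt C y := by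
  obtain ⟨k, hk, α, β, hα, hβ, hz⟩ := exists_sector6 (y / w)
  have hyd : y = α • (e6 ^ k * w) + β • (e6 * (e6 ^ k * w)) := by
    have : y = (y / w) * w := by field_simp
    rw [this, hz]
    simp only [Complex.real_smul]
    ring
  have hy0 : y ≠ 0 := by
    rintro rfl
    exact h 0 (by norm_num) (lit_of_interior h0 _)
  have h1 := h k hk
  have h2 : ¬ Lit C y (e6 * (e6 ^ k * w)) := by
    have h3 : e6 * (e6 ^ k * w) = e6 ^ ((k + 1) % 6) * w := by
      rw [← mul_assoc, ← pow_succ']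
      congr 1
      conv_lhs => rw [← Nat.div_add_mod (k + 1) 6, pow_add, pow_mul, e6_six, one_pow, one_mul]
    rw [h3]
    exact h _ (Nat.mod_lt _ (by norm_num))
  obtain ⟨hab, hbd⟩ := six_unlit hC h0 hinv hα hβ hyd hy h1 h2
  have hαpos : 0 < α := by
    rcases hα.eq_or_lt with h | h
    · exfalso
      apply hy0
      rw [hyd, ← hab, ← h]; simp
    · exact h
  have hy' : y = α • ((1 + e6) * (e6 ^ k * w)) := by
    rw [hyd, ← hab]
    simp only [Complex.real_smul]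
    ring
  refine ⟨k, hk, α, hαpos, hy', fun a b hq => ?_⟩
  have h3 : a • y + b • (e6 * y) = (α * (a - b)) • (e6 ^ k * w) +
      (α * (a + 2 * b)) • (e6 * (e6 ^ k * w)) := by
    conv_lhs => rw [hy']
    simp only [Complex.real_smul]
    push_cast
    linear_combination (α * b * (e6 ^ k * w) : ℂ) * e6_sq
  rw [h3] at hq
  have h4 := (hbd _ _ hq).2.2
  have h5 : 0 ≤ α * (2 * a + b + 1) := by linarith
  have h6 := (mul_nonneg_iff_of_pos_left hαpos).1 h5
  linarith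

/-- The orientation of a triangle is unique. -/
lemma tri_unique {C : Set ℂ} (hinv : ∀ q ∈ C, e6 ^ 2 * q ∈ C) {y y' : ℂ} (hy0 : y ≠ 0)
    (hy0' : y' ≠ 0) (hy : y ∈ C) (hy' : y' ∈ C) (h : TriAt C y) (h' : TriAt C y') :
    ∃ j : ℕ, y' = e6 ^ j * y := by
  obtain ⟨a, b, hab⟩ := coord_y hy0 y'
  have hyy : y = ((a + b) / (a ^ 2 + a * b + b ^ 2)) • y' +
      (-b / (a ^ 2 + a * b + b ^ 2)) • (e6 * y') := by
    have hN : a ^ 2 + a * b + b ^ 2 ≠ 0 := by
      intro hN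
      have ha : a = 0 := by nlinarith [sq_nonneg (a + 2 * b), sq_nonneg a]
      have hb : b = 0 := by nlinarith [sq_nonneg (2 * a + b), sq_nonneg b]
      apply hy0'
      rw [hab, ha, hb]; simp
    have hN' : ((a : ℂ) ^ 2 + a * b + b ^ 2) ≠ 0 := by exact_mod_cast hN
    have h1 : ((a : ℂ) ^ 2 + a * b + b ^ 2) * y = (a + b) * y' - b * (e6 * y') := by
      rw [hab]
      simp only [Complex.real_smul]
      linear_combination (b ^ 2 * y : ℂ) * e6_sq
    apply mul_left_cancel₀ hN'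
    rw [h1]
    simp only [Complex.real_smul]
    push_cast
    have h2 : ((a : ℂ) ^ 2 + a * b + b ^ 2) * ((a + b) / (a ^ 2 + a * b + b ^ 2)) = a + b :=
      mul_div_cancel₀ _ hN'
    have h3 : ((a : ℂ) ^ 2 + a * b + b ^ 2) * (-b / (a ^ 2 + a * b + b ^ 2)) = -b :=
      mul_div_cancel₀ _ hN'
    linear_combination (-y') * h2 - (e6 * y') * h3
  have hNpos : 0 < a ^ 2 + a * b + b ^ 2 := by
    have : a ^ 2 + a * b + b ^ 2 ≠ 0 := by
      intro hN
      have ha : a = 0 := by nlinarith [sq_nonneg (a + 2 * b), sq_nonneg a]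
      have hb : b = 0 := by nlinarith [sq_nonneg (2 * a + b), sq_nonneg b]
      apply hy0'
      rw [hab, ha, hb]; simp
    have h2 : 0 ≤ a ^ 2 + a * b + b ^ 2 := by nlinarith [sq_nonneg (a + b), sq_nonneg a, sq_nonneg b]
    exact lt_of_le_of_ne h2 (Ne.symm this)
  set N := a ^ 2 + a * b + b ^ 2 with hN
  -- the six inequalities
  have hC1 : a • y + b • (e6 * y) ∈ C := hab ▸ hy'
  have e1 := h _ _ hC1
  have hC2 := hinv _ hC1
  rw [e6_rot] at hC2
  have e2 := h _ _ hC2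
  have hC3 := hinv _ hC2
  rw [e6_rot] at hC3
  have e3 := h _ _ hC3
  have hD1 : ((a + b) / N) • y' + (-b / N) • (e6 * y') ∈ C := hyy ▸ hy
  have f1 := h' _ _ hD1
  have hD2 := hinv _ hD1
  rw [e6_rot] at hD2
  have f2 := h' _ _ hD2
  have hD3 := hinv _ hD2
  rw [e6_rot] at hD3
  have f3 := h' _ _ hD3
  have g1 : -N ≤ 2 * a + b := by
    have : 2 * ((a + b) / N) + -b / N = (2 * a + b) / N := by ring
    rw [this, le_div_iff₀ hNpos] at f1
    linarith
  have g3 : a - b ≤ N := by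
    have : 2 * -((a + b) / N + -b / N) + (a + b) / N = -((a - b) / N) := by ring
    rw [this] at f2
    have f2' : (a - b) / N ≤ 1 := by linarith
    rwa [div_le_one hNpos] at f2'
  have g4 : a + 2 * b ≤ N := by
    have : 2 * -(-((a + b) / N + -b / N) + (a + b) / N) + -((a + b) / N + -b / N) =
      -((a + 2 * b) / N) := by ring
    rw [this] at f3
    have f3' : (a + 2 * b) / N ≤ 1 := by linarith
    rwa [div_le_one hNpos] at f3'
  have e2' : a + 2 * b ≤ 1 := by linarith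
  have e3' : a - b ≤ 1 := by linarith
  -- `N = 1`
  have key1 : N ≤ 1 := by
    nlinarith [mul_nonneg (show 0 ≤ 1 - (a + 2 * b) by linarith) (show 0 ≤ 1 - (a - b) by linarith),
      mul_nonneg (show 0 ≤ 1 - (a + 2 * b) by linarith) (show 0 ≤ 1 + (2 * a + b) by linarith),
      mul_nonneg (show 0 ≤ 1 - (a - b) by linarith) (show 0 ≤ 1 + (2 * a + b) by linarith)]
  have key2 : N ≤ N * N := by
    nlinarith [mul_nonneg (show 0 ≤ N - (a + 2 * b) by linarith) (show 0 ≤ N - (a - b) by linarith),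
      mul_nonneg (show 0 ≤ N - (a + 2 * b) by linarith) (show 0 ≤ N + (2 * a + b) by linarith),
      mul_nonneg (show 0 ≤ N - (a - b) by linarith) (show 0 ≤ N + (2 * a + b) by linarith)]
  have key3 : N = 1 := by
    have : 1 ≤ N := by
      by_contra hcon
      push Not at hcon
      nlinarith
    linarith
  -- pairwise products of the slacks vanish
  have s1 : 0 ≤ 1 - (a + 2 * b) := by linarith
  have s2 : 0 ≤ 1 - (a - b) := by linarith
  have s3 : 0 ≤ 1 + (2 * a + b) := by linarith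
  have hsum : (1 - (a + 2 * b)) * (1 - (a - b)) + (1 - (a + 2 * b)) * (1 + (2 * a + b)) +
      (1 - (a - b)) * (1 + (2 * a + b)) = 0 := by
    have : (1 - (a + 2 * b)) * (1 - (a - b)) + (1 - (a + 2 * b)) * (1 + (2 * a + b)) +
      (1 - (a - b)) * (1 + (2 * a + b)) = 3 - 3 * (a ^ 2 + a * b + b ^ 2) := by ring
    rw [this, ← hN, key3]; ring
  have p1 : (1 - (a + 2 * b)) * (1 - (a - b)) = 0 := by
    nlinarith [mul_nonneg s1 s2, mul_nonneg s1 s3, mul_nonneg s2 s3]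
  have p2 : (1 - (a + 2 * b)) * (1 + (2 * a + b)) = 0 := by
    nlinarith [mul_nonneg s1 s2, mul_nonneg s1 s3, mul_nonneg s2 s3]
  have p3 : (1 - (a - b)) * (1 + (2 * a + b)) = 0 := by
    nlinarith [mul_nonneg s1 s2, mul_nonneg s1 s3, mul_nonneg s2 s3]
  have hsq := e6_sq
  rcases mul_eq_zero.1 p1 with q1 | q1
  · rcases mul_eq_zero.1 p3 with q2 | q2
    · -- `a + 2b = 1`, `a - b = 1`
      have hb : b = 0 := by linarith
      have ha : a = 1 := by linarith
      exact ⟨0, by rw [hab, ha, hb]; simp⟩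
    · -- `a + 2b = 1`, `2a + b = -1`
      have hb : b = 1 := by linarith
      have ha : a = -1 := by linarith
      refine ⟨2, ?_⟩
      rw [hab, ha, hb, hsq]
      simp only [Complex.real_smul]
      push_cast
      ring
  · rcases mul_eq_zero.1 p2 with q2 | q2
    · have hb : b = 0 := by linarith
      have ha : a = 1 := by linarith
      exact ⟨0, by rw [hab, ha, hb]; simp⟩
    · -- `a - b = 1`, `2a + b = -1`
      have hb : b = -1 := by linarith
      have ha : a = 0 := by linarith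
      refine ⟨4, ?_⟩
      rw [hab, ha, hb, e6_four]
      simp only [Complex.real_smul]
      push_cast
      ring

/-- A point outside the interior of the shadow lies beyond some side of an inscribed triangle. -/
lemma exists_rot_beyond {C : Set ℂ} (hC : Convex ℝ C) (hinv : ∀ q ∈ C, e6 ^ 2 * q ∈ C) {y p : ℂ}
    (hy0 : y ≠ 0) (hy : y ∈ C) (hp : p ∉ interior C) :
    ∃ k < 3, ∀ a b : ℝ, (e6 ^ 2) ^ k * p = a • y + b • (e6 * y) → 2 * a + b ≤ -1 := by
  by_contra hcon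
  push Not at hcon
  apply hp
  -- barycentric coordinates
  obtain ⟨a, b, hab⟩ := coord_y hy0 p
  have hy1 := hinv y hy
  have hy2 := hinv _ hy1
  have r0 : y = (1 : ℝ) • y + (0 : ℝ) • (e6 * y) := by simp
  have r1 : e6 ^ 2 * y = (-1 : ℝ) • y + (1 : ℝ) • (e6 * y) := by
    rw [e6_sq]; simp only [Complex.real_smul]; push_cast; ring
  have r2 : e6 ^ 2 * (e6 ^ 2 * y) = (0 : ℝ) • y + (-1 : ℝ) • (e6 * y) := by
    have : e6 ^ 2 * (e6 ^ 2 * y) = e6 ^ 4 * y := by ring
    rw [this, e6_four]; simp only [Complex.real_smul]; push_cast; ring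
  have c0 : -1 < 2 * a + b := by
    obtain ⟨a', b', h1, h2⟩ := hcon 0 (by norm_num)
    rw [pow_zero, one_mul, hab] at h1
    obtain ⟨rfl, rfl⟩ := coord_y_unique hy0 h1
    exact h2
  have c1 : -1 < 2 * (-(a + b)) + a := by
    obtain ⟨a', b', h1, h2⟩ := hcon 1 (by norm_num)
    rw [pow_one, hab, e6_rot] at h1
    obtain ⟨rfl, rfl⟩ := coord_y_unique hy0 h1
    exact h2
  have c2 : -1 < 2 * b - (a + b) := by
    obtain ⟨a', b', h1, h2⟩ := hcon 2 (by norm_num)
    rw [pow_two, mul_assoc, hab, e6_rot, e6_rot] at h1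
    obtain ⟨h3, h4⟩ := coord_y_unique hy0 h1
    rw [← h3, ← h4] at h2
    linarith
  -- the coordinates as continuous functions
  have hpos : 0 < Real.sqrt 3 := Real.sqrt_pos.2 (by norm_num)
  let A : ℂ → ℝ := fun q => (q / y).re - (q / y).im / Real.sqrt 3
  let B : ℂ → ℝ := fun q => 2 * (q / y).im / Real.sqrt 3
  have hA : Continuous A := by fun_prop
  have hB : Continuous B := by fun_prop
  have hAB : ∀ q, q = A q • y + B q • (e6 * y) := by
    intro q
    have h1 : q = (q / y) * y := by field_simp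
    have h2 : q / y = (A q : ℂ) + B q * e6 := by
      apply Complex.ext
      · simp [e6, A, B]; field_simp; ring
      · simp [e6, B]; field_simp
    conv_lhs => rw [h1, h2]
    simp only [Complex.real_smul]
    ring
  obtain ⟨hAp, hBp⟩ := coord_y_unique hy0 ((hAB p).symm.trans hab)
  let O : Set ℂ := {q | -1 < 2 * A q + B q} ∩ {q | -1 < 2 * (-(A q + B q)) + A q} ∩
    {q | -1 < 2 * B q - (A q + B q)}
  have hO : IsOpen O := by
    refine ((isOpen_lt continuous_const (by fun_prop)).inter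
      (isOpen_lt continuous_const (by fun_prop))).inter (isOpen_lt continuous_const (by fun_prop))
  refine mem_interior.2 ⟨O, ?_, hO, ⟨⟨?_, ?_⟩, ?_⟩⟩
  · rintro q ⟨⟨h1, h2⟩, h3⟩
    have h1' : -1 < 2 * A q + B q := h1
    have h2' : -1 < 2 * (-(A q + B q)) + A q := h2
    have h3' : -1 < 2 * B q - (A q + B q) := h3
    -- weights
    have m0 : 0 ≤ (1 + (2 * A q + B q)) / 3 := by linarith
    have m1 : 0 ≤ (1 + (2 * B q - (A q + B q))) / 3 := by linarith
    have m2 : 0 ≤ (1 + (2 * (-(A q + B q)) + A q)) / 3 := by linarith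
    have hconv := hC.sum_mem (t := Finset.univ) (w := ![(1 + (2 * A q + B q)) / 3,
      (1 + (2 * B q - (A q + B q))) / 3, (1 + (2 * (-(A q + B q)) + A q)) / 3])
      (z := ![y, e6 ^ 2 * y, e6 ^ 2 * (e6 ^ 2 * y)])
      (by
        intro i _
        fin_cases i
        · exact m0
        · exact m1
        · exact m2)
      (by simp [Fin.sum_univ_three]; ring)
      (by
        intro i _
        fin_cases i
        · exact hy
        · exact hy1
        · exact hy2)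
    convert hconv using 1
    simp only [Fin.sum_univ_three, Matrix.cons_val_zero, Matrix.cons_val_one, Matrix.cons_val]
    conv_lhs => rw [hAB q]
    rw [r2, r1]
    simp only [Complex.real_smul]
    push_cast
    ring
  · show -1 < 2 * A p + B p; rw [hAp, hBp]; exact c0
  · show -1 < 2 * (-(A p + B p)) + A p; rw [hAp, hBp]; exact c1
  · show -1 < 2 * B p - (A p + B p); rw [hAp, hBp]; exact c2

/-- Rotation by a third in the basis `w, e6 ^ 2 w`. -/
lemma rot3 (a b : ℝ) (w : ℂ) : e6 ^ 2 * (a • w + b • (e6 ^ 2 * w)) =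
    (-b) • w + (a - b) • (e6 ^ 2 * w) := by
  simp only [Complex.real_smul]
  push_cast
  have h1 : e6 ^ 2 * ((a : ℂ) * w + b * (e6 ^ 2 * w)) = (a * e6 ^ 2 + b * e6 ^ 4) * w := by ring
  rw [h1, e6_four, e6_sq]
  ring

lemma coord3_unique {w : ℂ} (hw : w ≠ 0) {a b a' b' : ℝ}
    (h : a • w + b • (e6 ^ 2 * w) = a' • w + b' • (e6 ^ 2 * w)) : a = a' ∧ b = b' := by
  have h2 : (a - b) • w + b • (e6 * w) = (a' - b') • w + b' • (e6 * w) := by
    have e1 := e6_sq
    simp only [Complex.real_smul] at h ⊢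
    push_cast
    linear_combination h - (b * w - b' * w : ℂ) * e1
  obtain ⟨h3, h4⟩ := coord_y_unique hw h2
  exact ⟨by linarith, h4⟩

/-- Every complex number lies in one of three sectors. -/
lemma exists_sector3 (z : ℂ) : ∃ k : ℕ, k < 3 ∧ ∃ α β : ℝ, 0 ≤ α ∧ 0 ≤ β ∧
    z = (e6 ^ 2) ^ k * ((α : ℂ) + β * e6 ^ 2) := by
  obtain ⟨k, hk, α, β, hα, hβ, hz⟩ := exists_sector6 z
  have h2 := e6_sq
  rcases Nat.even_or_odd' k with ⟨j, rfl | rfl⟩
  · refine ⟨j, by omega, α + β, β, by linarith, hβ, ?_⟩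
    rw [hz, pow_mul]
    push_cast
    rw [h2]; ring
  · refine ⟨j, by omega, α, α + β, hα, by linarith, ?_⟩
    rw [hz, pow_succ, pow_mul]
    push_cast
    have h3 : (e6 ^ 2) ^ j * e6 * (α + β * e6) = (e6 ^ 2) ^ j * (α * e6 + β * e6 ^ 2) := by ring
    rw [h3, h2]; ring

/-- Three equally spaced directions. -/
lemma three_family {C : Set ℂ} (hC : Convex ℝ C) (h0 : (0 : ℂ) ∈ interior C) {w y : ℂ}
    (hw : w ≠ 0) (hy : y ∈ C) (h : ∀ k < 3, ¬ Lit C y ((e6 ^ 2) ^ k * w)) :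
    ∃ k < 3, ∃ α β : ℝ, 0 ≤ α ∧ 0 ≤ β ∧
      y = α • ((e6 ^ 2) ^ k * w) + β • (e6 ^ 2 * ((e6 ^ 2) ^ k * w)) ∧
      ∀ a b : ℝ, a • ((e6 ^ 2) ^ k * w) + b • (e6 ^ 2 * ((e6 ^ 2) ^ k * w)) ∈ C →
        a ≤ α ∧ b ≤ β := by
  obtain ⟨k, hk, α, β, hα, hβ, hz⟩ := exists_sector3 (y / w)
  have hyd : y = α • ((e6 ^ 2) ^ k * w) + β • (e6 ^ 2 * ((e6 ^ 2) ^ k * w)) := by
    have : y = (y / w) * w := by field_simp
    rw [this, hz]
    simp only [Complex.real_smul]
    ring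
  have h1 := h k hk
  have h2 : ¬ Lit C y (e6 ^ 2 * ((e6 ^ 2) ^ k * w)) := by
    have h3 : e6 ^ 2 * ((e6 ^ 2) ^ k * w) = (e6 ^ 2) ^ ((k + 1) % 3) * w := by
      rw [← mul_assoc, ← pow_succ']
      congr 1
      have h4 : (e6 ^ 2) ^ 3 = 1 := by rw [← pow_mul]; exact e6_six
      conv_lhs => rw [← Nat.div_add_mod (k + 1) 3, pow_add, pow_mul, h4, one_pow, one_mul]
    rw [h3]
    exact h _ (Nat.mod_lt _ (by norm_num))
  exact ⟨k, hk, α, β, hα, hβ, hyd, fun a b hq => cone_le hC h0 hα hβ hyd hy h1 h2 hq⟩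

lemma normSq_coord3 (a b : ℝ) (w : ℂ) : Complex.normSq (a • w + b • (e6 ^ 2 * w)) =
    (a ^ 2 - a * b + b ^ 2) * Complex.normSq w := by
  have h1 : a • w + b • (e6 ^ 2 * w) = ((a : ℂ) + b * e6 ^ 2) * w := by
    simp only [Complex.real_smul]; ring
  have hs : Real.sqrt 3 ^ 2 = 3 := Real.sq_sqrt (by norm_num)
  rw [h1, Complex.normSq_mul, e6_sq]
  congr 1
  simp [e6, Complex.normSq_apply]
  ring_nf
  rw [hs]
  ring

lemma pow_mem_rot {C : Set ℂ} {v : ℂ} (hinv : ∀ q ∈ C, v * q ∈ C) {q : ℂ} (hq : q ∈ C) (k : ℕ) :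
    v ^ k * q ∈ C := by
  induction k with
  | zero => simpa using hq
  | succ n ih =>
    have := hinv _ ih
    rw [← mul_assoc, ← pow_succ'] at this
    exact this

/-- Three directions within `30°` of a farthest point `t` can only fail at one orbit. -/
lemma far3 {C : Set ℂ} (hC : Convex ℝ C) (h0 : (0 : ℂ) ∈ interior C)
    (hinv : ∀ q ∈ C, e6 ^ 2 * q ∈ C) {w y t : ℂ} (hw : w ≠ 0) (hy : y ∈ C) (ht : t ∈ C)
    (hyt : Complex.normSq y ≤ Complex.normSq t) {a₁ b₁ : ℝ}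
    (htw : t = a₁ • w + b₁ • (e6 ^ 2 * w)) (h1 : 0 < a₁ + b₁) (h2 : 0 < a₁ - 2 * b₁)
    (h : ∀ k < 3, ¬ Lit C y ((e6 ^ 2) ^ k * w)) :
    a₁ • w + (a₁ - b₁) • (e6 ^ 2 * w) ∈ C ∧
      ∀ a b : ℝ, a • w + b • (e6 ^ 2 * w) ∈ C → a ≤ a₁ ∧ b ≤ a₁ - b₁ := by
  obtain ⟨k, hk, α, β, hα, hβ, hyd, hbd⟩ := three_family hC h0 hw hy h
  have hrotk : ∀ a b : ℝ, (e6 ^ 2) ^ k * (a • w + b • (e6 ^ 2 * w)) =
      a • ((e6 ^ 2) ^ k * w) + b • (e6 ^ 2 * ((e6 ^ 2) ^ k * w)) := by
    intro a b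
    simp only [Complex.real_smul]; ring
  -- bounds for the rotated copies of `t`
  have c1 := hbd a₁ b₁ (by rw [← hrotk, ← htw]; exact pow_mem_rot hinv ht k)
  have c2 := hbd (-b₁) (a₁ - b₁) (by
    rw [← hrotk, ← rot3, ← htw]
    exact pow_mem_rot hinv (hinv t ht) k)
  have hwpos : 0 < Complex.normSq w := Complex.normSq_pos.2 hw
  have e1 : Complex.normSq y = (α ^ 2 - α * β + β ^ 2) * Complex.normSq w := by
    rw [hyd, normSq_coord3, Complex.normSq_mul, map_pow, map_pow]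
    have : Complex.normSq e6 = 1 := by
      have hs : Real.sqrt 3 ^ 2 = 3 := Real.sq_sqrt (by norm_num)
      simp [e6, Complex.normSq_apply]
      ring_nf
      rw [hs]; norm_num
    rw [this]; simp
  have e2 : Complex.normSq t = (a₁ ^ 2 - a₁ * b₁ + b₁ ^ 2) * Complex.normSq w := by
    rw [htw, normSq_coord3]
  rw [e1, e2] at hyt
  have e3 := le_of_mul_le_mul_right hyt hwpos
  have hs : 0 ≤ α - a₁ := by linarith [c1.1]
  have ht' : 0 ≤ β - (a₁ - b₁) := by linarith [c2.2]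
  -- `s (a₁ + b₁) + t (a₁ - 2 b₁) + s² - s t + t² ≤ 0`
  have e4 : (α - a₁) * (a₁ + b₁) + (β - (a₁ - b₁)) * (a₁ - 2 * b₁) + ((α - a₁) ^ 2 -
      (α - a₁) * (β - (a₁ - b₁)) + (β - (a₁ - b₁)) ^ 2) ≤ 0 := by nlinarith
  have e5 : 0 ≤ (α - a₁) ^ 2 - (α - a₁) * (β - (a₁ - b₁)) + (β - (a₁ - b₁)) ^ 2 := by
    nlinarith [sq_nonneg ((α - a₁) - (β - (a₁ - b₁))), sq_nonneg (α - a₁),
      sq_nonneg (β - (a₁ - b₁))]
  have e6' : (α - a₁) * (a₁ + b₁) = 0 := by
    have := mul_nonneg hs h1.le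
    have := mul_nonneg ht' h2.le
    linarith
  have e7 : (β - (a₁ - b₁)) * (a₁ - 2 * b₁) = 0 := by
    have := mul_nonneg hs h1.le
    have := mul_nonneg ht' h2.le
    linarith
  have hαe : α = a₁ := by
    rcases mul_eq_zero.1 e6' with h | h <;> linarith
  have hβe : β = a₁ - b₁ := by
    rcases mul_eq_zero.1 e7 with h | h <;> linarith
  have hcancel : (e6 ^ 2) ^ (3 - k) * (e6 ^ 2) ^ k = 1 := by
    rw [← pow_add, Nat.sub_add_cancel hk.le, ← pow_mul]
    exact e6_six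
  constructor
  · have h3 : (e6 ^ 2) ^ (3 - k) * y = a₁ • w + (a₁ - b₁) • (e6 ^ 2 * w) := by
      rw [hyd, ← hrotk, ← mul_assoc, hcancel, one_mul, hαe, hβe]
    rw [← h3]
    exact pow_mem_rot hinv hy _
  · intro a b hq
    have := hbd a b (by rw [← hrotk]; exact pow_mem_rot hinv hq k)
    rw [hαe, hβe] at this
    exact this

/-- Two different directions close to a farthest point cannot both fail. -/
lemma exc_unique {C : Set ℂ} (hC : Convex ℝ C) (h0 : (0 : ℂ) ∈ interior C)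
    (hinv : ∀ q ∈ C, e6 ^ 2 * q ∈ C) {w w' y y' t : ℂ} (hw : w ≠ 0) (hw0' : w' ≠ 0)
    (hy : y ∈ C) (hy' : y' ∈ C) (ht : t ∈ C)
    (hyt : Complex.normSq y ≤ Complex.normSq t) (hyt' : Complex.normSq y' ≤ Complex.normSq t)
    {a₁ b₁ a₂ b₂ : ℝ}
    (htw : t = a₁ • w + b₁ • (e6 ^ 2 * w)) (h1 : 0 < a₁ + b₁) (h2 : 0 < a₁ - 2 * b₁)
    (htw' : t = a₂ • w' + b₂ • (e6 ^ 2 * w')) (h1' : 0 < a₂ + b₂) (h2' : 0 < a₂ - 2 * b₂)
    {c d : ℝ} (hww : w' = c • w + d • (e6 ^ 2 * w)) (hd : 0 < d) (hcd : d < c)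
    (h : ∀ k < 3, ¬ Lit C y ((e6 ^ 2) ^ k * w))
    (h' : ∀ k < 3, ¬ Lit C y' ((e6 ^ 2) ^ k * w')) : False := by
  obtain ⟨hY, hbd⟩ := far3 hC h0 hinv hw hy ht hyt htw h1 h2 h
  obtain ⟨hY', hbd'⟩ := far3 hC h0 hinv hw0' hy' ht hyt' htw' h1' h2' h'
  have hww2 : e6 ^ 2 * w' = (-d) • w + (c - d) • (e6 ^ 2 * w) := by rw [hww, rot3]
  -- coordinates of points given in the frame `w'`
  have hframe : ∀ a b : ℝ, a • w' + b • (e6 ^ 2 * w') =
      (a * c - b * d) • w + (a * d + b * (c - d)) • (e6 ^ 2 * w) := by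
    intro a b
    rw [hww2]
    conv_lhs => rw [hww]
    simp only [Complex.real_smul]
    push_cast
    ring
  have ht2 := htw.symm.trans (htw'.trans (hframe a₂ b₂))
  obtain ⟨e1, e2⟩ := coord3_unique hw ht2
  have f1 := hbd _ _ (by rw [← hframe]; exact hY')
  -- coordinates of `Y` in the frame `w'`
  have hΔ : 0 < c * (c - d) + d ^ 2 := by
    have : 0 < c * (c - d) := mul_pos (by linarith) (by linarith)
    positivity
  set Δ := c * (c - d) + d ^ 2 with hΔdef
  have hYf : a₁ • w + (a₁ - b₁) • (e6 ^ 2 * w) =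
      (((c - d) * a₁ + d * (a₁ - b₁)) / Δ) • w' +
        ((-d * a₁ + c * (a₁ - b₁)) / Δ) • (e6 ^ 2 * w') := by
    rw [hframe]
    congr 1
    · congr 1
      field_simp
      rw [hΔdef]; ring
    · congr 1
      field_simp
      rw [hΔdef]; ring
  have f2 := (hbd' _ _ (by rw [← hYf]; exact hY)).1
  rw [div_le_iff₀ hΔ] at f2
  -- combine
  have g1 : 0 ≤ (c - d) * (a₁ - (a₂ * c - (a₂ - b₂) * d)) :=
    mul_nonneg (by linarith) (by linarith [f1.1])
  have g2 : 0 ≤ d * (a₁ - b₁ - (a₂ * d + (a₂ - b₂) * (c - d))) :=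
    mul_nonneg hd.le (by linarith [f1.2])
  have g3 : (c - d) * (a₁ - (a₂ * c - (a₂ - b₂) * d)) +
      d * (a₁ - b₁ - (a₂ * d + (a₂ - b₂) * (c - d))) =
      (c - d) * a₁ + d * (a₁ - b₁) - a₂ * Δ := by rw [hΔdef]; ring
  have g4 : (c - d) * (a₁ - (a₂ * c - (a₂ - b₂) * d)) = 0 := by linarith
  rcases mul_eq_zero.1 g4 with g5 | g5
  · linarith
  · -- `a₂ = 2 b₂`
    have g6 : d * (a₂ - 2 * b₂) = 0 := by linarith
    rcases mul_eq_zero.1 g6 with g7 | g7 <;> linarith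

end Pool.Agent.Lib.HadwigerRot
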