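import Mathlib
import Pool.Agent.Lib.HadwigerRotTri

/-!
# Three-dimensional bodies with a rotational symmetry of order three
-/

set_option autoImplicit false
set_option linter.unusedSectionVars false

open Set Filter Topology

namespace Pool.Agent.Lib.HadwigerRot

open Pool.Agent.Lib.HadwigerIllum

variable {K : Set (ℂ × ℝ)} {a b : ℝ}

lemma exists_avoid {s₁ s₂ : ℝ} (hs : s₁ < s₂) (P1 P2 P3 : ℝ → Prop)
    (h1 : ∀ s ∈ Ioo s₁ s₂, ∀ s' ∈ Ioo s₁ s₂, P1 s → P1 s' → s = s')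
    (h2 : ∀ s ∈ Ioo s₁ s₂, ∀ s' ∈ Ioo s₁ s₂, P2 s → P2 s' → s = s')
    (h3 : ∀ s ∈ Ioo s₁ s₂, ∀ s' ∈ Ioo s₁ s₂, P3 s → P3 s' → s = s') :
    ∃ s ∈ Ioo s₁ s₂, ¬ P1 s ∧ ¬ P2 s ∧ ¬ P3 s := by
  have hfin : ∀ P : ℝ → Prop, (∀ s ∈ Ioo s₁ s₂, ∀ s' ∈ Ioo s₁ s₂, P s → P s' → s = s') →
      {s | s ∈ Ioo s₁ s₂ ∧ P s}.Finite := by
    intro P hP
    apply Set.Subsingleton.finite
    rintro s ⟨hs1, hs2⟩ s' ⟨hs1', hs2'⟩
    exact hP s hs1 s' hs1' hs2 hs2'
  have hF := ((hfin P1 h1).union (hfin P2 h2)).union (hfin P3 h3)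
  obtain ⟨s, hs1, hs2⟩ := ((Ioo_infinite hs).sdiff hF).nonempty
  refine ⟨s, hs1, fun h => hs2 ?_, fun h => hs2 ?_, fun h => hs2 ?_⟩
  · exact Or.inl (Or.inl ⟨hs1, h⟩)
  · exact Or.inl (Or.inr ⟨hs1, h⟩)
  · exact Or.inr ⟨hs1, h⟩

/-- The rotated direction: a rotation of `p` by a small angle growing with `r`. -/
noncomputable def wr (r : ℝ) (p : ℂ) : ℂ := (1 + r) • p + (2 * r) • (e6 ^ 2 * p)

lemma wr_eq (r : ℝ) (p : ℂ) : wr r p = (1 - r) • p + (2 * r) • (e6 * p) := by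
  unfold wr
  rw [e6_sq]
  simp only [Complex.real_smul]
  push_cast
  ring

lemma wr_mul (r : ℝ) (p q : ℂ) : q * wr r p = wr r (q * p) := by
  unfold wr
  simp only [Complex.real_smul]
  ring

lemma wr_ne_zero {r : ℝ} {p : ℂ} (hp : p ≠ 0) : wr r p ≠ 0 := by
  intro h
  unfold wr at h
  have h2 : (1 + r) • p + (2 * r) • (e6 ^ 2 * p) = (0 : ℝ) • p + (0 : ℝ) • (e6 ^ 2 * p) := by
    rw [h]; simp
  obtain ⟨h3, h4⟩ := coord3_unique hp h2
  linarith

lemma wr_coord (r : ℝ) (p : ℂ) (c d : ℝ) : c • p + d • (e6 ^ 2 * p) =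
    ((c * (1 - r) + 2 * r * d) / (1 + 3 * r ^ 2)) • wr r p +
      ((d * (1 + r) - 2 * r * c) / (1 + 3 * r ^ 2)) • (e6 ^ 2 * wr r p) := by
  have hN : (1 + 3 * r ^ 2 : ℝ) ≠ 0 := by positivity
  have h1 : e6 ^ 2 * wr r p = (-(2 * r)) • p + ((1 + r) - 2 * r) • (e6 ^ 2 * p) := by
    unfold wr; rw [rot3]
  rw [h1]
  unfold wr
  rw [smul_add, smul_add, smul_smul, smul_smul, smul_smul, smul_smul]
  rw [add_add_add_comm, ← add_smul, ← add_smul]
  congr 1
  · congr 1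
    field_simp
    ring
  · congr 1
    field_simp
    ring

lemma wr_frame {r r' : ℝ} (h : r < r') (h2 : r' - r < 1 + 3 * r * r') (p : ℂ) :
    ∃ c d : ℝ, 0 < d ∧ d < c ∧ wr r' p = c • wr r p + d • (e6 ^ 2 * wr r p) := by
  refine ⟨((1 + r') * (1 - r) + 2 * r * (2 * r')) / (1 + 3 * r ^ 2),
    ((2 * r') * (1 + r) - 2 * r * (1 + r')) / (1 + 3 * r ^ 2), ?_, ?_,
    wr_coord r p (1 + r') (2 * r')⟩
  · apply div_pos _ (by positivity)
    nlinarith
  · rw [div_lt_div_iff_of_pos_right (by positivity)]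
    nlinarith

lemma wr_ratio {p : ℂ} (hp : p ≠ 0) {r r' : ℝ} (h0 : 0 < r) (h1 : r < 1) (h0' : 0 < r')
    (h1' : r' < 1) {ρ : ℝ} (hρ : 0 < ρ) {m : ℕ} (h : wr r' p = ρ • (e6 ^ m * wr r p)) :
    r = r' := by
  have hm : e6 ^ m = e6 ^ (m % 6) := by
    conv_lhs => rw [← Nat.div_add_mod m 6, pow_add, pow_mul, e6_six, one_pow, one_mul]
  have hlt : m % 6 < 6 := Nat.mod_lt _ (by norm_num)
  rw [hm, wr_eq, wr_eq] at h
  have hsq := e6_sq
  have hcu := e6_cube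
  have h4 := e6_four
  have h5 := e6_five
  have hmul : ∀ A B : ℝ, e6 * (A • p + B • (e6 * p)) = (-B) • p + (A + B) • (e6 * p) := by
    intro A B
    simp only [Complex.real_smul]
    push_cast
    linear_combination (B * p : ℂ) * hsq
  have hρs : ∀ A B : ℝ, ρ • (A • p + B • (e6 * p)) = (ρ * A) • p + (ρ * B) • (e6 * p) := by
    intro A B
    rw [smul_add, smul_smul, smul_smul]
  generalize hk : m % 6 = k at h hlt
  interval_cases k
  · rw [pow_zero, one_mul, hρs] at h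
    obtain ⟨e1, e2⟩ := coord_y_unique hp h
    have e3 : (2 * r') * (1 - r) = (2 * r) * (1 - r') := by
      have : (2 * r') * (ρ * (1 - r)) = (ρ * (2 * r)) * (1 - r') := by rw [e2, e1]
      have h6 : ρ * ((2 * r') * (1 - r) - (2 * r) * (1 - r')) = 0 := by linarith
      rcases mul_eq_zero.1 h6 with h7 | h7 <;> linarith
    linarith
  · rw [pow_one, hmul, hρs] at h
    obtain ⟨e1, e2⟩ := coord_y_unique hp h
    nlinarith
  · rw [pow_two, mul_assoc, hmul, hmul, hρs] at h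
    obtain ⟨e1, e2⟩ := coord_y_unique hp h
    nlinarith
  · rw [show (3 : ℕ) = 2 + 1 from rfl, pow_succ, pow_two, mul_assoc, mul_assoc, hmul, hmul, hmul,
      hρs] at h
    obtain ⟨e1, e2⟩ := coord_y_unique hp h
    nlinarith
  · rw [show e6 ^ 4 = e6 * (e6 * (e6 * e6)) by ring, mul_assoc, mul_assoc, mul_assoc, hmul, hmul,
      hmul, hmul, hρs] at h
    obtain ⟨e1, e2⟩ := coord_y_unique hp h
    nlinarith
  · rw [show e6 ^ 5 = e6 * (e6 * (e6 * (e6 * e6))) by ring, mul_assoc, mul_assoc, mul_assoc,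
      mul_assoc, hmul, hmul, hmul, hmul, hmul, hρs] at h
    obtain ⟨e1, e2⟩ := coord_y_unique hp h
    nlinarith

/-- Failing directions of the six-family for a fixed triangle are unique. -/
lemma class_unique {C : Set ℂ} (hinv : ∀ q ∈ C, e6 ^ 2 * q ∈ C) {p : ℂ} (hp : p ≠ 0) {r r' : ℝ}
    (h0 : 0 < r) (h1 : r < 1) (h0' : 0 < r') (h1' : r' < 1)
    (h : ∃ y ∈ C, TriAt C y ∧ ∃ k : ℕ, ∃ α : ℝ, 0 < α ∧
      y = α • ((1 + e6) * (e6 ^ k * wr r p)))
    (h' : ∃ y ∈ C, TriAt C y ∧ ∃ k : ℕ, ∃ α : ℝ, 0 < α ∧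
      y = α • ((1 + e6) * (e6 ^ k * wr r' p))) : r = r' := by
  obtain ⟨y, hy, ht, k, α, hα, hyd⟩ := h
  obtain ⟨y', hy', ht', k', α', hα', hyd'⟩ := h'
  have h1e : (1 + e6) ≠ 0 := by
    intro h
    have := congrArg Complex.re h
    simp [e6] at this
    norm_num at this
  have h6 : e6 ≠ 0 := by
    intro h
    have := e6_cube
    rw [h] at this
    norm_num at this
  have hy0 : y ≠ 0 := by
    rw [hyd]
    exact smul_ne_zero hα.ne' (mul_ne_zero h1e (mul_ne_zero (pow_ne_zero _ h6) (wr_ne_zero hp)))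
  have hy0' : y' ≠ 0 := by
    rw [hyd']
    exact smul_ne_zero hα'.ne' (mul_ne_zero h1e (mul_ne_zero (pow_ne_zero _ h6) (wr_ne_zero hp)))
  obtain ⟨j, hj⟩ := tri_unique hinv hy0 hy0' hy hy' ht ht'
  rw [hyd, hyd'] at hj
  refine wr_ratio hp h0 h1 h0' h1' (ρ := α / α') (m := j + k + 5 * k') (by positivity) ?_
  have hc : e6 ^ (5 * k') * e6 ^ k' = 1 := by
    rw [← pow_add, show 5 * k' + k' = 6 * k' by ring, pow_mul, e6_six, one_pow]
  have hα'c : (α' : ℂ) ≠ 0 := by exact_mod_cast hα'.ne'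
  simp only [Complex.real_smul] at hj ⊢
  have h7 : (α' : ℂ) * (e6 ^ k' * wr r' p) = e6 ^ j * (α * (e6 ^ k * wr r p)) := by
    apply mul_left_cancel₀ h1e
    linear_combination hj
  push_cast
  rw [pow_add, pow_add]
  have h8 : (α' : ℂ) * wr r' p = (α : ℂ) * (e6 ^ j * e6 ^ k * e6 ^ (5 * k') * wr r p) := by
    linear_combination (e6 ^ (5 * k')) * h7 - (α' * wr r' p : ℂ) * hc
  rw [div_mul_eq_mul_div, eq_div_iff hα'c, mul_comm (wr r' p)]
  exact h8

lemma mix (hK : Convex ℝ K) {r q : ℂ × ℝ} (hr : r ∈ K) (hq : q ∈ K) {z : ℝ} (h1 : r.2 < z)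
    (h2 : z < q.2) : ∃ l m : ℝ, 0 < l ∧ 0 < m ∧ l + m = 1 ∧ (l • r.1 + m • q.1, z) ∈ K := by
  have hd : 0 < q.2 - r.2 := by linarith
  refine ⟨(q.2 - z) / (q.2 - r.2), (z - r.2) / (q.2 - r.2), div_pos (by linarith) hd,
    div_pos (by linarith) hd, ?_, ?_⟩
  · rw [← add_div, div_eq_one_iff_eq hd.ne']; ring
  · have := hK hr hq (a := (q.2 - z) / (q.2 - r.2)) (b := (z - r.2) / (q.2 - r.2))
      (div_nonneg (by linarith) hd.le) (div_nonneg (by linarith) hd.le) (by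
        rw [← add_div, div_eq_one_iff_eq hd.ne']; ring)
    convert this using 1
    ext1
    · simp
    · simp only [Prod.snd_add, Prod.smul_snd, smul_eq_mul]
      field_simp
      ring

lemma sec_inv (h : RotBody K (e6 ^ 2) (e6 ^ 2) a b) (z : ℝ) : ∀ q ∈ sec K z,
    e6 ^ 2 * q ∈ sec K z := fun q hq => h.v1 (q, z) hq

lemma shadow_inv (h : RotBody K (e6 ^ 2) (e6 ^ 2) a b) : ∀ q ∈ Prod.fst '' K,
    e6 ^ 2 * q ∈ Prod.fst '' K := by
  rintro _ ⟨x, hx, rfl⟩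
  exact ⟨_, h.v1 x hx, rfl⟩

lemma shadow_convex (h : RotBody K (e6 ^ 2) (e6 ^ 2) a b) : Convex ℝ (Prod.fst '' K) :=
  h.convex.linear_image (LinearMap.fst ℝ ℂ ℝ)

lemma rot_mem (h : RotBody K (e6 ^ 2) (e6 ^ 2) a b) {q : ℂ} {z : ℝ} (hq : (q, z) ∈ K) (k : ℕ) :
    ((e6 ^ 2) ^ k * q, z) ∈ K := pow_mem_rot (sec_inv h z) (q := q) hq k

/-- A triangular section strictly between two points over the boundary of the shadow is the whole
shadow. -/
lemma tri_shadow (h : RotBody K (e6 ^ 2) (e6 ^ 2) a b) {y : ℂ} {z : ℝ} (hy : (y, z) ∈ K)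
    (hy0 : y ≠ 0) (htri : TriAt (sec K z) y) {p q : ℂ × ℝ} (hp : p ∈ K)
    (hp1 : p.1 ∉ interior (Prod.fst '' K)) (hpz : p.2 < z) (hq : q ∈ K)
    (hq1 : q.1 ∉ interior (Prod.fst '' K)) (hqz : z < q.2) : TriAt (Prod.fst '' K) y := by
  intro c d hmem
  obtain ⟨r, hr, hr1⟩ := hmem
  by_contra hcon
  push Not at hcon
  have hysh : y ∈ Prod.fst '' K := ⟨_, hy, rfl⟩
  rcases lt_trichotomy r.2 z with hlt | heq | hgt
  · obtain ⟨k, hk, hbey⟩ := exists_rot_beyond (shadow_convex h) (shadow_inv h) hy0 hysh hq1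
    obtain ⟨c₂, d₂, h2⟩ := coord_y hy0 ((e6 ^ 2) ^ k * q.1)
    have h3 := hbey c₂ d₂ h2
    have hqk : ((e6 ^ 2) ^ k * q.1, q.2) ∈ K := rot_mem h (q := q.1) (z := q.2) hq k
    obtain ⟨l, m, hl, hm, hlm, hmix⟩ := mix h.convex hr hqk hlt hqz
    have h4 : l • r.1 + m • ((e6 ^ 2) ^ k * q.1) = (l * c + m * c₂) • y +
        (l * d + m * d₂) • (e6 * y) := by
      rw [hr1, h2]; module
    have h5 := htri (l * c + m * c₂) (l * d + m * d₂) (by rw [← h4]; exact hmix)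
    nlinarith
  · have h5 := htri c d (by
      rw [mem_sec, ← hr1, ← heq]; exact hr)
    linarith
  · obtain ⟨k, hk, hbey⟩ := exists_rot_beyond (shadow_convex h) (shadow_inv h) hy0 hysh hp1
    obtain ⟨c₂, d₂, h2⟩ := coord_y hy0 ((e6 ^ 2) ^ k * p.1)
    have h3 := hbey c₂ d₂ h2
    have hpk : ((e6 ^ 2) ^ k * p.1, p.2) ∈ K := rot_mem h (q := p.1) (z := p.2) hp k
    obtain ⟨l, m, hl, hm, hlm, hmix⟩ := mix h.convex hpk hr hpz hgt
    have h4 : l • ((e6 ^ 2) ^ k * p.1) + m • r.1 = (l * c₂ + m * c) • y +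
        (l * d₂ + m * d) • (e6 * y) := by
      rw [hr1, h2]; module
    have h5 := htri (l * c₂ + m * c) (l * d₂ + m * d) (by rw [← h4]; exact hmix)
    nlinarith

/-- Failing of six directions at a point over the boundary of the shadow. -/
lemma six_fail (h : RotBody K (e6 ^ 2) (e6 ^ 2) a b) {w : ℂ} (hw : w ≠ 0) {x : ℂ × ℝ} (hx : x ∈ K)
    (hx1 : x.1 ∉ interior (Prod.fst '' K)) (hun : ∀ k < 6, ¬ Lit (sec K x.2) x.1 (e6 ^ k * w)) :
    TriAt (sec K x.2) x.1 ∧ ∃ k : ℕ, ∃ α : ℝ, 0 < α ∧ x.1 = α • ((1 + e6) * (e6 ^ k * w)) := by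
  have h0 := h.sec_int (z := x.2) (y := x.1) hx (h.ne_zero_of_not_mem hx1)
  obtain ⟨k, _, α, hα, hyd, ht⟩ := six_family3 (sec_convex h.convex x.2) h0 (sec_inv h x.2) hw
    (y := x.1) hx hun
  exact ⟨ht, k, α, hα, hyd⟩

/-- **Order three, case I**: one of the extreme sections stays over the interior of the shadow. -/
theorem cover3_I (h : RotBody K (e6 ^ 2) (e6 ^ 2) a b)
    (hone : (∀ x ∈ K, x.2 = a → x.1 ∈ interior (Prod.fst '' K)) ∨
      (∀ x ∈ K, x.2 = b → x.1 ∈ interior (Prod.fst '' K))) : CoverBy K 8 := by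
  classical
  have hScomp : IsCompact (K ∩ {x | x.1 ∉ interior (Prod.fst '' K)}) := by
    apply h.compact.inter_right
    exact (isOpen_interior.preimage continuous_fst).isClosed_compl
  -- a good direction
  obtain ⟨w, hw, hgood⟩ : ∃ w : ℂ, w ≠ 0 ∧ ∀ x ∈ K, x.1 ∉ interior (Prod.fst '' K) →
      ∃ k < 6, Lit (sec K x.2) x.1 (e6 ^ k * w) := by
    by_cases hS : (K ∩ {x | x.1 ∉ interior (Prod.fst '' K)}).Nonempty
    swap
    · refine ⟨1, one_ne_zero, fun x hx hx1 => ?_⟩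
      exact absurd ⟨x, hx, hx1⟩ hS
    obtain ⟨p, ⟨hp, hp1⟩, hpm⟩ := hScomp.exists_isMinOn hS continuous_snd.continuousOn
    obtain ⟨q, ⟨hq, hq1⟩, hqm⟩ := hScomp.exists_isMaxOn hS continuous_snd.continuousOn
    let P : Set ℂ → ℝ → Prop := fun C r => ∃ y ∈ C, TriAt C y ∧ ∃ k : ℕ, ∃ α : ℝ, 0 < α ∧
      y = α • ((1 + e6) * (e6 ^ k * wr r 1))
    have hP : ∀ C : Set ℂ, (∀ q ∈ C, e6 ^ 2 * q ∈ C) → ∀ s ∈ Ioo (0 : ℝ) 1,
        ∀ s' ∈ Ioo (0 : ℝ) 1, P C s → P C s' → s = s' := fun C hC s hs s' hs' h1 h2 =>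
      class_unique hC one_ne_zero hs.1 hs.2 hs'.1 hs'.2 h1 h2
    obtain ⟨r, hr, h1, h2, h3⟩ := exists_avoid one_pos (P (sec K p.2)) (P (sec K q.2))
      (P (Prod.fst '' K)) (hP _ (sec_inv h _)) (hP _ (sec_inv h _)) (hP _ (shadow_inv h))
    refine ⟨wr r 1, wr_ne_zero one_ne_zero, fun x hx hx1 => ?_⟩
    by_contra hcon
    push Not at hcon
    obtain ⟨ht, k, α, hα, hyd⟩ := six_fail h (wr_ne_zero one_ne_zero) hx hx1 hcon
    have hpx : p.2 ≤ x.2 := hpm ⟨hx, hx1⟩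
    have hqx : x.2 ≤ q.2 := hqm ⟨hx, hx1⟩
    rcases hpx.eq_or_lt with e1 | e1
    · apply h1
      refine ⟨x.1, ?_, ?_, k, α, hα, hyd⟩
      · rw [e1]; exact hx
      · rw [e1]; exact ht
    rcases hqx.eq_or_lt with e2 | e2
    · apply h2
      refine ⟨x.1, ?_, ?_, k, α, hα, hyd⟩
      · rw [← e2]; exact hx
      · rw [← e2]; exact ht
    · apply h3
      exact ⟨x.1, ⟨x, hx, rfl⟩, tri_shadow h (y := x.1) (z := x.2) hx (h.ne_zero_of_not_mem hx1)
        ht hp hp1 e1 hq hq1 e2, k, α, hα, hyd⟩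
  let six : Finset ℂ := (Finset.range 6).image fun k => e6 ^ k * w
  have hsix : six.card ≤ 6 := Finset.card_image_le.trans (by simp)
  let X : Finset (ℂ × ℝ) := {((0 : ℂ), (1 : ℝ)), ((0 : ℂ), (-1 : ℝ))}
  have hX : X.card ≤ 2 := Finset.card_le_two
  rcases hone with hA | hB
  · refine CoverBy.mono (assemble h.convex h.compact h.ne h.ha h.hb six ∅ X ?_) (by simp; omega)
    intro x hx
    by_cases hx1 : x.1 ∈ interior (Prod.fst '' K)
    · exact Or.inl (lit_vertical h.convex h.ne hx hx1)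
    · obtain ⟨k, hk, hL⟩ := hgood x hx hx1
      refine Or.inr (Or.inl ⟨_, Finset.mem_image_of_mem _ (Finset.mem_range.2 hk), ?_, hL⟩)
      exact lt_of_le_of_ne (h.hab x hx).1 fun he => hx1 (hA x hx he.symm)
  · refine CoverBy.mono (assemble h.convex h.compact h.ne h.ha h.hb ∅ six X ?_) (by simp; omega)
    intro x hx
    by_cases hx1 : x.1 ∈ interior (Prod.fst '' K)
    · exact Or.inl (lit_vertical h.convex h.ne hx hx1)
    · obtain ⟨k, hk, hL⟩ := hgood x hx hx1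
      refine Or.inr (Or.inr ⟨_, Finset.mem_image_of_mem _ (Finset.mem_range.2 hk), ?_, hL⟩)
      exact lt_of_le_of_ne (h.hab x hx).2 fun he => hx1 (hB x hx he)

/-- Assembling two families of three directions. -/
theorem assemble_three (h : RotBody K (e6 ^ 2) (e6 ^ 2) a b) (wt wb : ℂ)
    (hT : ∀ y ∈ sec K b, y ∉ interior (Prod.fst '' K) →
      ∃ k < 3, Lit (sec K b) y ((e6 ^ 2) ^ k * wt))
    (hB : ∀ y ∈ sec K a, y ∉ interior (Prod.fst '' K) →
      ∃ k < 3, Lit (sec K a) y ((e6 ^ 2) ^ k * wb))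
    (hM : ∀ x ∈ K, a < x.2 → x.2 < b → x.1 ∉ interior (Prod.fst '' K) →
      (∃ k < 3, Lit (sec K x.2) x.1 ((e6 ^ 2) ^ k * wt)) ∨
      (∃ k < 3, Lit (sec K x.2) x.1 ((e6 ^ 2) ^ k * wb))) : CoverBy K 8 := by
  classical
  let I : Finset ℂ := (Finset.range 3).image fun k => (e6 ^ 2) ^ k * wt
  let J : Finset ℂ := (Finset.range 3).image fun k => (e6 ^ 2) ^ k * wb
  have hI : I.card ≤ 3 := Finset.card_image_le.trans (by simp)
  have hJ : J.card ≤ 3 := Finset.card_image_le.trans (by simp)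
  let X : Finset (ℂ × ℝ) := {((0 : ℂ), (1 : ℝ)), ((0 : ℂ), (-1 : ℝ))}
  have hX : X.card ≤ 2 := Finset.card_le_two
  refine CoverBy.mono (assemble h.convex h.compact h.ne h.ha h.hb I J X ?_) (by omega)
  intro x hx
  by_cases hx1 : x.1 ∈ interior (Prod.fst '' K)
  · exact Or.inl (lit_vertical h.convex h.ne hx hx1)
  right
  rcases (h.hab x hx).1.eq_or_lt with e1 | e1
  · right
    have hx' : x.1 ∈ sec K x.2 := hx
    rw [← e1] at hx' ⊢
    obtain ⟨k, hk, hL⟩ := hB x.1 hx' hx1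
    exact ⟨_, Finset.mem_image_of_mem _ (Finset.mem_range.2 hk), h.lt, hL⟩
  rcases (h.hab x hx).2.eq_or_lt with e2 | e2
  · left
    have hx' : x.1 ∈ sec K x.2 := hx
    rw [e2] at hx' ⊢
    obtain ⟨k, hk, hL⟩ := hT x.1 hx' hx1
    exact ⟨_, Finset.mem_image_of_mem _ (Finset.mem_range.2 hk), h.lt, hL⟩
  · rcases hM x hx e1 e2 hx1 with ⟨k, hk, hL⟩ | ⟨k, hk, hL⟩
    · exact Or.inl ⟨_, Finset.mem_image_of_mem _ (Finset.mem_range.2 hk), e1, hL⟩
    · exact Or.inr ⟨_, Finset.mem_image_of_mem _ (Finset.mem_range.2 hk), e2, hL⟩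

/-- `t` makes an angle smaller than `30°` with `w`. -/
def Near (w t : ℂ) : Prop := ∃ c d : ℝ, t = c • w + d • (e6 ^ 2 * w) ∧ 0 < c + d ∧ 0 < c - 2 * d

lemma near_wr {w t : ℂ} {c d : ℝ} (ht : t = c • w + d • (e6 ^ 2 * w)) {r : ℝ}
    (h1 : 0 < c + d - 3 * r * (c - d)) (h2 : 0 < c - 2 * d + 3 * r * c) : Near (wr r w) t := by
  have hN : (0 : ℝ) < 1 + 3 * r ^ 2 := by positivity
  refine ⟨_, _, ht.trans (wr_coord r w c d), ?_, ?_⟩
  · rw [← add_div]
    apply div_pos _ hN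
    nlinarith
  · rw [mul_div_assoc', ← sub_div]
    apply div_pos _ hN
    nlinarith

/-- Two different rotated directions near a farthest point cannot both fail. -/
lemma exc_wr {C : Set ℂ} (hC : Convex ℝ C) (h0 : (0 : ℂ) ∈ interior C)
    (hinv : ∀ q ∈ C, e6 ^ 2 * q ∈ C) {p t : ℂ} (hp : p ≠ 0) {r r' : ℝ} (hrr : r < r')
    (hlt : r' - r < 1 + 3 * r * r') (hn : Near (wr r p) t) (hn' : Near (wr r' p) t) (ht : t ∈ C)
    {y y' : ℂ} (hy : y ∈ C) (hy' : y' ∈ C) (hyt : Complex.normSq y ≤ Complex.normSq t)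
    (hyt' : Complex.normSq y' ≤ Complex.normSq t)
    (h : ∀ k < 3, ¬ Lit C y ((e6 ^ 2) ^ k * wr r p))
    (h' : ∀ k < 3, ¬ Lit C y' ((e6 ^ 2) ^ k * wr r' p)) : False := by
  obtain ⟨c, d, hd, hcd, hf⟩ := wr_frame hrr hlt p
  obtain ⟨a₁, b₁, e1, e2, e3⟩ := hn
  obtain ⟨a₂, b₂, f1, f2, f3⟩ := hn'
  exact exc_unique hC h0 hinv (wr_ne_zero hp) (wr_ne_zero hp) hy hy' ht hyt hyt' e1 e2 e3 f1 f2 f3
    hf hd hcd h h'

lemma inv_coord {t w : ℂ} {x x' : ℝ} (hw : w = x • t + x' • (e6 ^ 2 * t))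
    (hN : x ^ 2 - x * x' + x' ^ 2 ≠ 0) (p q : ℝ) : p • t + q • (e6 ^ 2 * t) =
      ((p * (x - x') + q * x') / (x ^ 2 - x * x' + x' ^ 2)) • w +
      ((q * x - p * x') / (x ^ 2 - x * x' + x' ^ 2)) • (e6 ^ 2 * w) := by
  have h1 : e6 ^ 2 * w = (-x') • t + (x - x') • (e6 ^ 2 * t) := by
    rw [hw, rot3]
  rw [h1, hw]
  rw [smul_add, smul_add, smul_smul, smul_smul, smul_smul, smul_smul]
  rw [add_add_add_comm, ← add_smul, ← add_smul]
  congr 1
  · congr 1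
    rw [div_mul_eq_mul_div, div_mul_eq_mul_div, ← add_div, eq_div_iff hN]
    ring
  · congr 1
    rw [div_mul_eq_mul_div, div_mul_eq_mul_div, ← add_div, eq_div_iff hN]
    ring

lemma eventually_near {w t : ℂ} (h : Near w t) : ∀ᶠ r : ℝ in 𝓝 0, Near (wr r w) t := by
  obtain ⟨c, d, ht, h1, h2⟩ := h
  have e1 : ∀ᶠ r : ℝ in 𝓝 0, 0 < c + d - 3 * r * (c - d) := by
    have : ContinuousAt (fun r : ℝ => c + d - 3 * r * (c - d)) 0 := by fun_prop
    exact this.eventually (lt_mem_nhds (by simpa using h1))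
  have e2 : ∀ᶠ r : ℝ in 𝓝 0, 0 < c - 2 * d + 3 * r * c := by
    have : ContinuousAt (fun r : ℝ => c - 2 * d + 3 * r * c) 0 := by fun_prop
    exact this.eventually (lt_mem_nhds (by simpa using h2))
  filter_upwards [e1, e2] with r h3 h4
  exact near_wr ht h3 h4

/-- A direction near two given ones. -/
lemma exists_near {t t' : ℂ} (ht : t ≠ 0) {c₀ d₀ : ℝ} (hc : 0 < c₀) (hd : 0 < d₀)
    (hrel : t' = c₀ • t + d₀ • (e6 ^ 2 * t)) :
    ∃ w : ℂ, w ≠ 0 ∧ Near w t ∧ Near (e6 * w) t' := by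
  -- `t' = e6 * (d₀ t + (d₀ - c₀) ω t)`
  have ht' : t' = e6 * (d₀ • t + (d₀ - c₀) • (e6 ^ 2 * t)) := by
    rw [hrel]
    simp only [Complex.real_smul]
    push_cast
    linear_combination (-(d₀ - c₀) * t : ℂ) * e6_cube + (d₀ * t : ℂ) * e6_sq
  have hgen : ∀ x x' : ℝ, 0 < x ^ 2 - x * x' + x' ^ 2 → 0 < x - 2 * x' → 0 < x + x' →
      0 < d₀ * (x - 2 * x') + (d₀ - c₀) * (x + x') →
      0 < d₀ * (x + x') - (d₀ - c₀) * (2 * x - x') →
      ∃ w : ℂ, w ≠ 0 ∧ Near w t ∧ Near (e6 * w) t' := by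
    intro x x' hN h1 h2 h3 h4
    refine ⟨x • t + x' • (e6 ^ 2 * t), ?_, ?_, ?_⟩
    · intro hw
      have hw2 : x • t + x' • (e6 ^ 2 * t) = (0 : ℝ) • t + (0 : ℝ) • (e6 ^ 2 * t) := by
        rw [hw]; simp
      obtain ⟨e1, e2⟩ := coord3_unique ht hw2
      rw [e1, e2] at hN
      simp at hN
    · have := inv_coord (t := t) (w := x • t + x' • (e6 ^ 2 * t)) rfl hN.ne' 1 0
      rw [one_smul, zero_smul, add_zero] at this
      refine ⟨_, _, this, ?_, ?_⟩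
      · rw [← add_div]
        apply div_pos _ hN
        linarith
      · rw [mul_div_assoc', ← sub_div]
        apply div_pos _ hN
        linarith
    · have := inv_coord (t := t) (w := x • t + x' • (e6 ^ 2 * t)) rfl hN.ne' d₀ (d₀ - c₀)
      rw [ht', this]
      refine ⟨((d₀ * (x - x') + (d₀ - c₀) * x') / (x ^ 2 - x * x' + x' ^ 2)),
        (((d₀ - c₀) * x - d₀ * x') / (x ^ 2 - x * x' + x' ^ 2)), ?_, ?_, ?_⟩
      · simp only [Complex.real_smul]
        ring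
      · rw [← add_div]
        apply div_pos _ hN
        linarith
      · rw [mul_div_assoc', ← sub_div]
        apply div_pos _ hN
        linarith
  rcases le_total c₀ d₀ with hcd | hcd
  · have hx : 0 < (2 + 2 * d₀ - c₀) - 2 * (1 + d₀ - 2 * c₀) := by linarith
    have hy : 0 < (2 + 2 * d₀ - c₀) + (1 + d₀ - 2 * c₀) := by linarith
    refine hgen (2 + 2 * d₀ - c₀) (1 + d₀ - 2 * c₀) ?_ hx hy ?_ ?_
    · nlinarith [sq_nonneg ((2 + 2 * d₀ - c₀) - 2 * (1 + d₀ - 2 * c₀)),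
        sq_nonneg ((2 + 2 * d₀ - c₀) + (1 + d₀ - 2 * c₀))]
    · nlinarith [mul_nonneg (sub_nonneg.2 hcd) (sub_nonneg.2 hcd), mul_pos hc hd]
    · nlinarith
  · have hx : 0 < (1 + d₀ + c₀) - 2 * (-1 + 2 * d₀ - c₀) := by linarith
    have hy : 0 < (1 + d₀ + c₀) + (-1 + 2 * d₀ - c₀) := by linarith
    refine hgen (1 + d₀ + c₀) (-1 + 2 * d₀ - c₀) ?_ hx hy ?_ ?_
    · nlinarith [sq_nonneg ((1 + d₀ + c₀) - 2 * (-1 + 2 * d₀ - c₀)),
        sq_nonneg ((1 + d₀ + c₀) + (-1 + 2 * d₀ - c₀))]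
    · nlinarith
    · nlinarith [mul_nonneg (sub_nonneg.2 hcd) (sub_nonneg.2 hcd), mul_pos hc hd]

/-- **Order three, case IIa**: both extreme sections reach the boundary of the shadow, and their
farthest points there have different directions. -/
theorem cover3_IIa (h : RotBody K (e6 ^ 2) (e6 ^ 2) a b) {tb ta : ℂ} (htb : tb ∈ sec K b)
    (htb1 : tb ∉ interior (Prod.fst '' K))
    (hfarb : ∀ y ∈ sec K b, y ∉ interior (Prod.fst '' K) → Complex.normSq y ≤ Complex.normSq tb)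
    (hta : ta ∈ sec K a) (hta1 : ta ∉ interior (Prod.fst '' K))
    (hfara : ∀ y ∈ sec K a, y ∉ interior (Prod.fst '' K) → Complex.normSq y ≤ Complex.normSq ta)
    {c₀ d₀ : ℝ} (hc : 0 < c₀) (hd : 0 < d₀) (hrel : ta = c₀ • tb + d₀ • (e6 ^ 2 * tb)) :
    CoverBy K 8 := by
  have htb0 := h.ne_zero_of_not_mem htb1
  have hta0 := h.ne_zero_of_not_mem hta1
  have hintb := h.sec_int htb htb0
  have hinta := h.sec_int hta hta0
  obtain ⟨w₀, hw₀, hn1, hn2⟩ := exists_near htb0 hc hd hrel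
  have hev := (eventually_near hn1).and (eventually_near hn2)
  obtain ⟨r₀, hr₀, hball⟩ := Metric.eventually_nhds_iff.1 hev
  have hr₁ : (0 : ℝ) < min r₀ 1 := lt_min hr₀ one_pos
  have hnear : ∀ r ∈ Ioo (0 : ℝ) (min r₀ 1), Near (wr r w₀) tb ∧ Near (wr r (e6 * w₀)) ta := by
    intro r hr
    apply hball
    rw [Real.dist_eq, sub_zero, abs_of_pos hr.1]
    exact hr.2.trans_le (min_le_left _ _)
  have h6 : e6 ≠ 0 := by
    intro h
    have := e6_cube
    rw [h] at this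
    norm_num at this
  let P1 : ℝ → Prop := fun r => ∃ y ∈ sec K b, y ∉ interior (Prod.fst '' K) ∧
    ∀ k < 3, ¬ Lit (sec K b) y ((e6 ^ 2) ^ k * wr r w₀)
  let P2 : ℝ → Prop := fun r => ∃ y ∈ sec K a, y ∉ interior (Prod.fst '' K) ∧
    ∀ k < 3, ¬ Lit (sec K a) y ((e6 ^ 2) ^ k * wr r (e6 * w₀))
  let P3 : ℝ → Prop := fun r => ∃ y ∈ Prod.fst '' K, TriAt (Prod.fst '' K) y ∧ ∃ k : ℕ, ∃ α : ℝ,
    0 < α ∧ y = α • ((1 + e6) * (e6 ^ k * wr r w₀))
  have hone : ∀ s ∈ Ioo (0 : ℝ) (min r₀ 1), s < 1 := fun s hs => hs.2.trans_le (min_le_right _ _)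
  have hU1 : ∀ s ∈ Ioo (0 : ℝ) (min r₀ 1), ∀ s' ∈ Ioo (0 : ℝ) (min r₀ 1), s < s' → P1 s → P1 s' →
      False := by
    rintro s hs s' hs' hlt ⟨y, hy, hy1, hyL⟩ ⟨y', hy', hy1', hyL'⟩
    refine exc_wr (sec_convex h.convex b) hintb (sec_inv h b) hw₀ hlt ?_ (hnear s hs).1
      (hnear s' hs').1 htb hy hy' (hfarb y hy hy1) (hfarb y' hy' hy1') hyL hyL'
    have := hone s' hs'
    have := hs.1
    have := mul_pos hs.1 hs'.1
    nlinarith
  have hU2 : ∀ s ∈ Ioo (0 : ℝ) (min r₀ 1), ∀ s' ∈ Ioo (0 : ℝ) (min r₀ 1), s < s' → P2 s → P2 s' →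
      False := by
    rintro s hs s' hs' hlt ⟨y, hy, hy1, hyL⟩ ⟨y', hy', hy1', hyL'⟩
    refine exc_wr (sec_convex h.convex a) hinta (sec_inv h a) (mul_ne_zero h6 hw₀) hlt ?_
      (hnear s hs).2 (hnear s' hs').2 hta hy hy' (hfara y hy hy1) (hfara y' hy' hy1') hyL hyL'
    have := hone s' hs'
    have := hs.1
    have := mul_pos hs.1 hs'.1
    nlinarith
  obtain ⟨r, hr, h1, h2, h3⟩ := exists_avoid hr₁ P1 P2 P3
    (fun s hs s' hs' e1 e2 => by
      rcases lt_trichotomy s s' with hlt | heq | hgt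
      · exact (hU1 s hs s' hs' hlt e1 e2).elim
      · exact heq
      · exact (hU1 s' hs' s hs hgt e2 e1).elim)
    (fun s hs s' hs' e1 e2 => by
      rcases lt_trichotomy s s' with hlt | heq | hgt
      · exact (hU2 s hs s' hs' hlt e1 e2).elim
      · exact heq
      · exact (hU2 s' hs' s hs hgt e2 e1).elim)
    (fun s hs s' hs' e1 e2 => class_unique (shadow_inv h) hw₀ hs.1 (hone s hs) hs'.1 (hone s' hs')
      e1 e2)
  refine assemble_three h (wr r w₀) (wr r (e6 * w₀)) ?_ ?_ ?_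
  · intro y hy hy1
    by_contra hcon
    push Not at hcon
    exact h1 ⟨y, hy, hy1, hcon⟩
  · intro y hy hy1
    by_contra hcon
    push Not at hcon
    exact h2 ⟨y, hy, hy1, hcon⟩
  · intro x hx hxa hxb hx1
    by_contra hcon
    push Not at hcon
    obtain ⟨hcon1, hcon2⟩ := hcon
    have hun : ∀ k < 6, ¬ Lit (sec K x.2) x.1 (e6 ^ k * wr r w₀) := by
      intro k hk
      rcases Nat.even_or_odd' k with ⟨j, rfl | rfl⟩
      · rw [pow_mul]
        exact hcon1 j (by omega)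
      · have : e6 ^ (2 * j + 1) * wr r w₀ = (e6 ^ 2) ^ j * wr r (e6 * w₀) := by
          rw [← wr_mul, pow_succ, pow_mul]; ring
        rw [this]
        exact hcon2 j (by omega)
    obtain ⟨ht, k, α, hα, hyd⟩ := six_fail h (wr_ne_zero hw₀) hx hx1 hun
    apply h3
    exact ⟨x.1, ⟨x, hx, rfl⟩, tri_shadow h (y := x.1) (z := x.2) hx (h.ne_zero_of_not_mem hx1)
      ht (p := (ta, a)) (q := (tb, b)) hta hta1 hxa htb htb1 hxb, k, α, hα, hyd⟩

/-- Mid-level lighting in case IIb: a point of a threefold symmetric convex set containing `μ`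
which is unlit by both three-families lies far out. -/
lemma mid_far {C : Set ℂ} (hC : Convex ℝ C) (h0 : (0 : ℂ) ∈ interior C)
    (hinv : ∀ q ∈ C, e6 ^ 2 * q ∈ C) {μ y : ℂ} (hμ0 : μ ≠ 0) (hμ : μ ∈ C) (hy : y ∈ C)
    {r : ℝ} (hr0 : 0 < r) (hr1 : 3 * r < 1)
    (h1 : ∀ k < 3, ¬ Lit C y ((e6 ^ 2) ^ k * wr r μ))
    (h2 : ∀ k < 3, ¬ Lit C y ((e6 ^ 2) ^ k * wr (-r) μ)) :
    ∃ k < 3, ∃ A B : ℝ, (e6 ^ 2) ^ k * y = A • μ + B • (e6 ^ 2 * μ) ∧
      2 * (1 + r) ≤ (1 - r) * (A + B) := by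
  obtain ⟨k, hk, A, B, hA, hB, hz⟩ := exists_sector3 (y / μ)
  have hyne : y ≠ 0 := by
    rintro rfl
    exact h1 0 (by norm_num) (lit_of_interior h0 _)
  set ν : ℂ := (e6 ^ 2) ^ k * μ with hν
  have hω3 : (e6 ^ 2) ^ 3 = 1 := by rw [← pow_mul]; exact e6_six
  have hyd : y = A • ν + B • (e6 ^ 2 * ν) := by
    have : y = (y / μ) * μ := by field_simp
    rw [this, hz, hν]
    simp only [Complex.real_smul]
    ring
  have hνC : ν ∈ C := pow_mem_rot hinv hμ k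
  have hνC2 : e6 ^ 2 * ν ∈ C := hinv _ hνC
  have hν0 : ν ≠ 0 := by
    apply mul_ne_zero (pow_ne_zero _ _) hμ0
    intro h
    rw [h] at hω3
    norm_num at hω3
  -- the four directions around
  have u1 : ¬ Lit C y (wr r ν) := by rw [hν, ← wr_mul]; exact h1 k hk
  have u2 : ¬ Lit C y (wr (-r) ν) := by rw [hν, ← wr_mul]; exact h2 k hk
  have hnext : ∀ p : ℂ, e6 ^ 2 * ((e6 ^ 2) ^ k * p) = (e6 ^ 2) ^ ((k + 1) % 3) * p := by
    intro p
    rw [← mul_assoc, ← pow_succ']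
    congr 1
    conv_lhs => rw [← Nat.div_add_mod (k + 1) 3, pow_add, pow_mul, hω3, one_pow, one_mul]
  have u3 : ¬ Lit C y (e6 ^ 2 * wr r ν) := by
    rw [hν, ← wr_mul, hnext]; exact h1 _ (Nat.mod_lt _ (by norm_num))
  have u4 : ¬ Lit C y (e6 ^ 2 * wr (-r) ν) := by
    rw [hν, ← wr_mul, hnext]; exact h2 _ (Nat.mod_lt _ (by norm_num))
  have hy1 := hinv y hy
  have hy2 := hinv _ hy1
  rw [hyd, rot3] at hy1 hy2
  rw [rot3] at hy2
  have w1 : wr r ν = (1 + r) • ν + (2 * r) • (e6 ^ 2 * ν) := rfl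
  have w2 : wr (-r) ν = (1 - r) • ν + (-(2 * r)) • (e6 ^ 2 * ν) := by
    unfold wr
    congr 2
    ring
  have w3 : e6 ^ 2 * wr r ν = (-(2 * r)) • ν + (1 - r) • (e6 ^ 2 * ν) := by
    rw [w1, rot3]
    congr 2
    ring
  have w4 : e6 ^ 2 * wr (-r) ν = (2 * r) • ν + (1 + r) • (e6 ^ 2 * ν) := by
    rw [w2, rot3]
    congr 2 <;> ring
  -- combinations in two frames
  have hframe : ∀ (p q p' q' α β : ℝ), α • (p • ν + q • (e6 ^ 2 * ν)) +
      β • (p' • ν + q' • (e6 ^ 2 * ν)) = (α * p + β * p') • ν +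
        (α * q + β * q') • (e6 ^ 2 * ν) := by
    intro p q p' q' α β
    module
  have h4r : (0 : ℝ) < 4 * r := by linarith
  by_cases hcase1 : (1 + r) * B ≤ 2 * r * A
  · exfalso
    -- `y` between `wr (-r)` and `wr r`
    have e1 : y = ((2 * r * A - (1 + r) * B) / (4 * r)) • wr (-r) ν +
        (((1 - r) * B + 2 * r * A) / (4 * r)) • wr r ν := by
      rw [w1, w2, hframe, hyd]
      congr 1
      · congr 1; field_simp; ring
      · congr 1; field_simp; ring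
    have e2 : (B - A) • ν + (-A) • (e6 ^ 2 * ν) =
        ((2 * r * (B - A) - (1 + r) * (-A)) / (4 * r)) • wr (-r) ν +
        (((1 - r) * (-A) + 2 * r * (B - A)) / (4 * r)) • wr r ν := by
      rw [w1, w2, hframe]
      congr 1
      · congr 1; field_simp; ring
      · congr 1; field_simp; ring
    have hq : (B - A) • ν + (-A) • (e6 ^ 2 * ν) ∈ C := by
      have : -(A - B) = B - A := by ring
      rw [← this]
      convert hy2 using 3
      ring
    rw [e2] at hq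
    have := (cone_le hC h0 (div_nonneg (by linarith) h4r.le)
      (div_nonneg (by nlinarith) h4r.le) e1 hy u2 u1 hq).1
    rw [div_le_div_iff_of_pos_right h4r] at this
    have hA0 : A = 0 := by nlinarith
    have hB0 : B = 0 := by nlinarith
    apply hyne
    rw [hyd, hA0, hB0]; simp
  by_cases hcase3 : (1 + r) * A ≤ 2 * r * B
  · exfalso
    have e1 : y = ((A * (1 - r) + 2 * r * B) / (4 * r)) • (e6 ^ 2 * wr (-r) ν) +
        ((2 * r * B - (1 + r) * A) / (4 * r)) • (e6 ^ 2 * wr r ν) := by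
      rw [w3, w4, hframe, hyd]
      congr 1
      · congr 1; field_simp; ring
      · congr 1; field_simp; ring
    have e2 : (-B) • ν + (A - B) • (e6 ^ 2 * ν) =
        (((-B) * (1 - r) + 2 * r * (A - B)) / (4 * r)) • (e6 ^ 2 * wr (-r) ν) +
        ((2 * r * (A - B) - (1 + r) * (-B)) / (4 * r)) • (e6 ^ 2 * wr r ν) := by
      rw [w3, w4, hframe]
      congr 1
      · congr 1; field_simp; ring
      · congr 1; field_simp; ring
    have hq : (-B) • ν + (A - B) • (e6 ^ 2 * ν) ∈ C := hy1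
    rw [e2] at hq
    have := (cone_le hC h0 (div_nonneg (by nlinarith) h4r.le)
      (div_nonneg (by linarith) h4r.le) e1 hy u4 u3 hq).2
    rw [div_le_div_iff_of_pos_right h4r] at this
    have hA0 : A = 0 := by nlinarith
    have hB0 : B = 0 := by nlinarith
    apply hyne
    rw [hyd, hA0, hB0]; simp
  -- the main case
  push Not at hcase1 hcase3
  have hΔ : 0 < (1 - r) * (1 + 3 * r) := mul_pos (by linarith) (by linarith)
  have e1 : y = (((1 + r) * A - 2 * r * B) / ((1 - r) * (1 + 3 * r))) • wr r ν +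
      (((1 + r) * B - 2 * r * A) / ((1 - r) * (1 + 3 * r))) • (e6 ^ 2 * wr (-r) ν) := by
    rw [w1, w4, hframe, hyd]
    congr 1
    · congr 1
      rw [div_mul_eq_mul_div, div_mul_eq_mul_div, ← add_div, eq_div_iff hΔ.ne']
      ring
    · congr 1
      rw [div_mul_eq_mul_div, div_mul_eq_mul_div, ← add_div, eq_div_iff hΔ.ne']
      ring
  have hq1 : ((1 + r) / ((1 - r) * (1 + 3 * r))) • wr r ν +
      ((-2 * r) / ((1 - r) * (1 + 3 * r))) • (e6 ^ 2 * wr (-r) ν) ∈ C := by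
    convert hνC using 1
    rw [w1, w4, hframe]
    have f1 : (1 + r) / ((1 - r) * (1 + 3 * r)) * (1 + r) +
        (-2 * r) / ((1 - r) * (1 + 3 * r)) * (2 * r) = 1 := by
      rw [div_mul_eq_mul_div, div_mul_eq_mul_div, ← add_div, div_eq_one_iff_eq hΔ.ne']
      ring
    have f2 : (1 + r) / ((1 - r) * (1 + 3 * r)) * (2 * r) +
        (-2 * r) / ((1 - r) * (1 + 3 * r)) * (1 + r) = 0 := by ring
    rw [f1, f2]; simp
  have hq2 : ((-2 * r) / ((1 - r) * (1 + 3 * r))) • wr r ν +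
      ((1 + r) / ((1 - r) * (1 + 3 * r))) • (e6 ^ 2 * wr (-r) ν) ∈ C := by
    convert hνC2 using 1
    rw [w1, w4, hframe]
    have f1 : (-2 * r) / ((1 - r) * (1 + 3 * r)) * (1 + r) +
        (1 + r) / ((1 - r) * (1 + 3 * r)) * (2 * r) = 0 := by ring
    have f2 : (-2 * r) / ((1 - r) * (1 + 3 * r)) * (2 * r) +
        (1 + r) / ((1 - r) * (1 + 3 * r)) * (1 + r) = 1 := by
      rw [div_mul_eq_mul_div, div_mul_eq_mul_div, ← add_div, div_eq_one_iff_eq hΔ.ne']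
      ring
    rw [f1, f2]; simp
  have g1 := (cone_le hC h0 (div_nonneg (by linarith) hΔ.le)
    (div_nonneg (by linarith) hΔ.le) e1 hy u1 u4 hq1).1
  have g2 := (cone_le hC h0 (div_nonneg (by linarith) hΔ.le)
    (div_nonneg (by linarith) hΔ.le) e1 hy u1 u4 hq2).2
  rw [div_le_div_iff_of_pos_right hΔ] at g1 g2
  -- rotate back
  refine ⟨(3 - k) % 3, Nat.mod_lt _ (by norm_num), A, B, ?_, by linarith⟩
  have hback : (e6 ^ 2) ^ ((3 - k) % 3) * (e6 ^ 2) ^ k = 1 := by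
    rw [← pow_add]
    have : ((3 - k) % 3 + k) % 3 = 0 := by omega
    obtain ⟨n, hn⟩ := Nat.dvd_of_mod_eq_zero this
    rw [hn, pow_mul, hω3, one_pow]
  have : (e6 ^ 2) ^ ((3 - k) % 3) * y = A • (((e6 ^ 2) ^ ((3 - k) % 3) * (e6 ^ 2) ^ k) * μ) +
      B • (e6 ^ 2 * (((e6 ^ 2) ^ ((3 - k) % 3) * (e6 ^ 2) ^ k) * μ)) := by
    rw [hyd, hν]
    simp only [Complex.real_smul]
    ring
  rw [this, hback, one_mul]

/-- **Order three, case IIb**: both extreme sections reach the boundary of the shadow at the same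
farthest point `μ`, and the shadow does not reach too far beyond. -/
theorem cover3_IIb (h : RotBody K (e6 ^ 2) (e6 ^ 2) a b) {μ : ℂ} (hμb : μ ∈ sec K b)
    (hμa : μ ∈ sec K a) (hμ1 : μ ∉ interior (Prod.fst '' K))
    (hfarb : ∀ y ∈ sec K b, y ∉ interior (Prod.fst '' K) → Complex.normSq y ≤ Complex.normSq μ)
    (hfara : ∀ y ∈ sec K a, y ∉ interior (Prod.fst '' K) → Complex.normSq y ≤ Complex.normSq μ)
    {M : ℝ} (hM4 : M < 4)
    (hM : ∀ A B : ℝ, A • μ + B • (e6 ^ 2 * μ) ∈ Prod.fst '' K → A + B ≤ M) : CoverBy K 8 := by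
  have hμ0 := h.ne_zero_of_not_mem hμ1
  have hintb := h.sec_int hμb hμ0
  have hinta := h.sec_int hμa hμ0
  have hM1 : 1 ≤ M := by
    have := hM 1 0 (by simpa using ⟨_, hμb⟩)
    linarith
  have hr₁ : max 0 ((M - 2) / (M + 2)) < 1 / 3 := by
    apply max_lt (by norm_num)
    rw [div_lt_iff₀ (by linarith)]
    linarith
  have hnear : ∀ r : ℝ, -(1 / 3) < r → r < 1 / 3 → Near (wr r μ) μ := by
    intro r h1 h2
    refine near_wr (c := 1) (d := 0) (by simp) ?_ ?_ <;> linarith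
  let P1 : ℝ → Prop := fun r => ∃ y ∈ sec K b, y ∉ interior (Prod.fst '' K) ∧
    ∀ k < 3, ¬ Lit (sec K b) y ((e6 ^ 2) ^ k * wr r μ)
  let P2 : ℝ → Prop := fun r => ∃ y ∈ sec K a, y ∉ interior (Prod.fst '' K) ∧
    ∀ k < 3, ¬ Lit (sec K a) y ((e6 ^ 2) ^ k * wr (-r) μ)
  have hpos : ∀ s ∈ Ioo (max 0 ((M - 2) / (M + 2))) (1 / 3 : ℝ), 0 < s := fun s hs =>
    (le_max_left _ _).trans_lt hs.1
  have hU1 : ∀ s ∈ Ioo (max 0 ((M - 2) / (M + 2))) (1 / 3 : ℝ),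
      ∀ s' ∈ Ioo (max 0 ((M - 2) / (M + 2))) (1 / 3 : ℝ), s < s' → P1 s → P1 s' → False := by
    rintro s hs s' hs' hlt ⟨y, hy, hy1, hyL⟩ ⟨y', hy', hy1', hyL'⟩
    have p1 := hpos s hs
    have p2 := hpos s' hs'
    have p3 := hs.2
    have p4 := hs'.2
    refine exc_wr (sec_convex h.convex b) hintb (sec_inv h b) hμ0 hlt ?_
      (hnear s (by linarith) p3) (hnear s' (by linarith) p4) hμb hy hy' (hfarb y hy hy1)
      (hfarb y' hy' hy1') hyL hyL'
    nlinarith [mul_pos p1 p2]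
  have hU2 : ∀ s ∈ Ioo (max 0 ((M - 2) / (M + 2))) (1 / 3 : ℝ),
      ∀ s' ∈ Ioo (max 0 ((M - 2) / (M + 2))) (1 / 3 : ℝ), s < s' → P2 s → P2 s' → False := by
    rintro s hs s' hs' hlt ⟨y, hy, hy1, hyL⟩ ⟨y', hy', hy1', hyL'⟩
    have p1 := hpos s hs
    have p2 := hpos s' hs'
    have p3 := hs.2
    have p4 := hs'.2
    refine exc_wr (sec_convex h.convex a) hinta (sec_inv h a) hμ0 (r := -s') (r' := -s)
      (by linarith) ?_ (hnear (-s') (by linarith) (by linarith))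
      (hnear (-s) (by linarith) (by linarith)) hμa hy' hy (hfara y' hy' hy1')
      (hfara y hy hy1) hyL' hyL
    nlinarith [mul_pos p1 p2]
  obtain ⟨r, hr, h1, h2, -⟩ := exists_avoid hr₁ P1 P2 (fun _ => False)
    (fun s hs s' hs' e1 e2 => by
      rcases lt_trichotomy s s' with hlt | heq | hgt
      · exact (hU1 s hs s' hs' hlt e1 e2).elim
      · exact heq
      · exact (hU1 s' hs' s hs hgt e2 e1).elim)
    (fun s hs s' hs' e1 e2 => by
      rcases lt_trichotomy s s' with hlt | heq | hgt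
      · exact (hU2 s hs s' hs' hlt e1 e2).elim
      · exact heq
      · exact (hU2 s' hs' s hs hgt e2 e1).elim)
    (fun s hs s' hs' e1 e2 => e1.elim)
  have hr0 := hpos r hr
  refine assemble_three h (wr r μ) (wr (-r) μ) ?_ ?_ ?_
  · intro y hy hy1
    by_contra hcon
    push Not at hcon
    exact h1 ⟨y, hy, hy1, hcon⟩
  · intro y hy hy1
    by_contra hcon
    push Not at hcon
    exact h2 ⟨y, hy, hy1, hcon⟩
  · intro x hx hxa hxb hx1
    by_contra hcon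
    push Not at hcon
    have hμz : μ ∈ sec K x.2 := by
      obtain ⟨l, m, _, _, hlm, hmix⟩ := mix h.convex (r := (μ, a)) (q := (μ, b)) hμa hμb hxa hxb
      rw [mem_sec]
      convert hmix using 2
      simp only
      rw [← add_smul, hlm, one_smul]
    obtain ⟨k, hk, A, B, hAB, hfar⟩ := mid_far (sec_convex h.convex x.2)
      (h.sec_int (z := x.2) (y := x.1) hx (h.ne_zero_of_not_mem hx1)) (sec_inv h x.2) hμ0 hμz
      (y := x.1) hx hr0 (by linarith [hr.2]) hcon.1 hcon.2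
    have h3 := hM A B (by
      rw [← hAB]
      exact ⟨_, rot_mem h (q := x.1) (z := x.2) hx k, rfl⟩)
    have h4 : (M - 2) / (M + 2) < r := (le_max_right _ _).trans_lt hr.1
    rw [div_lt_iff₀ (by linarith)] at h4
    have h5 : (1 - r) * (A + B) ≤ (1 - r) * M :=
      mul_le_mul_of_nonneg_left h3 (by linarith [hr.2])
    nlinarith

end Pool.Agent.Lib.HadwigerRot
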