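import Mathlib
import Pool.Agent.Lib.HadwigerRotThree

/-!
# Three-dimensional bodies with a rotational symmetry of order three: the triangular shadow
-/

set_option autoImplicit false
set_option linter.unusedSectionVars false

open Set Filter Topology

namespace Pool.Agent.Lib.HadwigerRot

open Pool.Agent.Lib.HadwigerIllum Pool.Agent.Lib.HadwigerPlane

variable {K : Set (ℂ × ℝ)} {a b : ℝ}

/-- Assembling with nearly vertical directions. -/
theorem assembleV (hK : Convex ℝ K) (hc : IsCompact K) (I J : Finset ℂ) (X : Finset (ℂ × ℝ))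
    (h : ∀ x ∈ K, (∃ v ∈ X, ∃ ε : ℝ, 0 < ε ∧ x + ε • v ∈ interior K) ∨
      (∃ w ∈ I, ∃ U ∈ 𝓝[K] x, ∃ τ₀ : ℝ, 0 < τ₀ ∧ ∀ τ : ℝ, 0 < τ → τ < τ₀ → ∀ x' ∈ U,
        ∃ ε : ℝ, 0 < ε ∧ x' + ε • ((-(τ • w), -1) : ℂ × ℝ) ∈ interior K) ∨
      (∃ w ∈ J, ∃ U ∈ 𝓝[K] x, ∃ τ₀ : ℝ, 0 < τ₀ ∧ ∀ τ : ℝ, 0 < τ → τ < τ₀ → ∀ x' ∈ U,
        ∃ ε : ℝ, 0 < ε ∧ x' + ε • ((-(τ • w), 1) : ℂ × ℝ) ∈ interior K)) :
    CoverBy K (I.card + J.card + X.card) := by
  classical
  let D : ℝ → Finset (ℂ × ℝ) := fun τ =>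
    (I.image fun w => (-(τ • w), (-1 : ℝ))) ∪ (J.image fun w => (-(τ • w), (1 : ℝ))) ∪ X
  have main : ∃ τ₀ : ℝ, 0 < τ₀ ∧ ∀ τ : ℝ, 0 < τ → τ < τ₀ → ∀ x ∈ K,
      ∃ v ∈ D τ, ∃ ε : ℝ, 0 < ε ∧ x + ε • v ∈ interior K := by
    refine hc.induction_on (p := fun S => ∃ τ₀ : ℝ, 0 < τ₀ ∧ ∀ τ : ℝ, 0 < τ → τ < τ₀ →
      ∀ x ∈ S, ∃ v ∈ D τ, ∃ ε : ℝ, 0 < ε ∧ x + ε • v ∈ interior K) ?_ ?_ ?_ ?_
    · exact ⟨1, one_pos, fun τ _ _ x hx => absurd hx (notMem_empty x)⟩
    · rintro S T hST ⟨τ₀, h0, hτ⟩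
      exact ⟨τ₀, h0, fun τ h1 h2 x hx => hτ τ h1 h2 x (hST hx)⟩
    · rintro S T ⟨τ₀, h0, hτ⟩ ⟨τ₁, h1, hτ'⟩
      refine ⟨min τ₀ τ₁, lt_min h0 h1, fun τ h2 h3 x hx => ?_⟩
      rcases hx with hx | hx
      · exact hτ τ h2 (h3.trans_le (min_le_left _ _)) x hx
      · exact hτ' τ h2 (h3.trans_le (min_le_right _ _)) x hx
    · intro x hx
      rcases h x hx with ⟨v, hv, ε, hε, hin⟩ | ⟨w, hw, U, hU, τ₀, h0, hτ⟩ |
        ⟨w, hw, U, hU, τ₀, h0, hτ⟩
      · have hcont : ContinuousAt (fun x' : ℂ × ℝ => x' + ε • v) x := by fun_prop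
        have hU := hcont.eventually_mem (isOpen_interior.mem_nhds hin)
        refine ⟨{x' | x' + ε • v ∈ interior K}, mem_nhdsWithin_of_mem_nhds hU, 1, one_pos,
          fun τ _ _ x' hx' => ⟨v, ?_, ε, hε, hx'⟩⟩
        simp [D, hv]
      · refine ⟨U, hU, τ₀, h0, fun τ h1 h2 x' hx' => ?_⟩
        obtain ⟨ε, hε, hin⟩ := hτ τ h1 h2 x' hx'
        refine ⟨_, ?_, ε, hε, hin⟩
        simp only [D, Finset.mem_union, Finset.mem_image]
        exact Or.inl (Or.inl ⟨w, hw, rfl⟩)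
      · refine ⟨U, hU, τ₀, h0, fun τ h1 h2 x' hx' => ?_⟩
        obtain ⟨ε, hε, hin⟩ := hτ τ h1 h2 x' hx'
        refine ⟨_, ?_, ε, hε, hin⟩
        simp only [D, Finset.mem_union, Finset.mem_image]
        exact Or.inl (Or.inr ⟨w, hw, rfl⟩)
  obtain ⟨τ₀, h0, hτ⟩ := main
  refine coverBy_of_illum hK hc (D (τ₀ / 2)) ?_ fun x hx =>
    hτ (τ₀ / 2) (by linarith) (by linarith) x hx
  refine (Finset.card_union_le _ _).trans ?_
  gcongr
  refine (Finset.card_union_le _ _).trans ?_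
  gcongr
  · exact Finset.card_image_le
  · exact Finset.card_image_le

/-- A point lit by a vertical direction is lit, with its neighbours, by nearly vertical ones. -/
lemma local_vertical {x : ℂ × ℝ} {σ ε : ℝ} (hε : 0 < ε)
    (hin : x + ε • ((0, σ) : ℂ × ℝ) ∈ interior K) (w : ℂ) :
    ∃ U ∈ 𝓝[K] x, ∃ τ₀ : ℝ, 0 < τ₀ ∧ ∀ τ : ℝ, 0 < τ → τ < τ₀ → ∀ x' ∈ U,
        ∃ ε : ℝ, 0 < ε ∧ x' + ε • ((-(τ • w), σ) : ℂ × ℝ) ∈ interior K := by
  have hmap : ContinuousAt (fun r : (ℂ × ℝ) × ℝ => r.1 + ε • ((-(r.2 • w), σ) : ℂ × ℝ))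
      (x, 0) := by
    apply Continuous.continuousAt
    fun_prop
  have key : ∀ᶠ r : (ℂ × ℝ) × ℝ in 𝓝 (x, 0), r.1 + ε • ((-(r.2 • w), σ) : ℂ × ℝ) ∈ interior K := by
    apply hmap.eventually_mem
    apply isOpen_interior.mem_nhds
    simpa using hin
  rw [nhds_prod_eq, Filter.eventually_prod_iff] at key
  obtain ⟨pa, hpa, pb, hpb, hprod⟩ := key
  obtain ⟨τ₀, hτ₀, hball⟩ := Metric.eventually_nhds_iff.1 hpb
  refine ⟨{x | pa x}, mem_nhdsWithin_of_mem_nhds hpa, τ₀, hτ₀, fun τ hτ hττ x hx => ⟨ε, hε, ?_⟩⟩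
  refine hprod hx (hball ?_)
  rw [Real.dist_eq, sub_zero, abs_of_pos hτ]
  exact hττ

/-- The end of a nondegenerate vertical fibre. -/
lemma local_special (hK : Convex ℝ K) {σ : ℝ} (hσ : σ * σ = 1) {y₀ w : ℂ} {e m m' ε₀ : ℝ}
    (hem : 0 < σ * (e - m')) (hε₀ : 0 < ε₀) (hp : (y₀ - ε₀ • w, m) ∈ interior K)
    (hev : ∀ᶠ x in 𝓝[K] (y₀, e), (x.1, m') ∈ K) :
    ∃ U ∈ 𝓝[K] (y₀, e), ∃ τ₀ : ℝ, 0 < τ₀ ∧ ∀ τ : ℝ, 0 < τ → τ < τ₀ → ∀ x' ∈ U,
        ∃ ε : ℝ, 0 < ε ∧ x' + ε • ((-(τ • w), -σ) : ℂ × ℝ) ∈ interior K := by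
  set ε : ℝ := σ * (e - m') / 2 with hεdef
  have hε : 0 < ε := by rw [hεdef]; linarith
  have hσε : σ * ε = (e - m') / 2 := by
    rw [hεdef]
    calc σ * (σ * (e - m') / 2) = (σ * σ) * (e - m') / 2 := by ring
      _ = _ := by rw [hσ, one_mul]
  have hem' : e - m' ≠ 0 := by
    rintro h
    rw [h] at hem
    simp at hem
  -- the weight and the heights
  let lam : (ℂ × ℝ) × ℝ → ℝ := fun r => ε * r.2 / ε₀
  let s : (ℂ × ℝ) × ℝ → ℝ := fun r => (r.1.2 - σ * ε - lam r * m) / (1 - lam r)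
  let θ : (ℂ × ℝ) × ℝ → ℝ := fun r => (s r - m') / (r.1.2 - m')
  have hlam : ContinuousAt lam ((y₀, e), 0) := by
    apply Continuous.continuousAt
    fun_prop
  have hlam0 : lam ((y₀, e), 0) = 0 := by simp [lam]
  have hs : ContinuousAt s ((y₀, e), 0) := by
    have h1 : ContinuousAt (fun r : (ℂ × ℝ) × ℝ => r.1.2 - σ * ε - lam r * m) ((y₀, e), 0) := by
      fun_prop
    have h2 : ContinuousAt (fun r : (ℂ × ℝ) × ℝ => 1 - lam r) ((y₀, e), 0) := by fun_prop
    exact h1.div h2 (by rw [hlam0]; norm_num)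
  have hs0 : s ((y₀, e), 0) = e - (e - m') / 2 := by
    simp only [s, hlam0, hσε]
    ring
  have hθ : ContinuousAt θ ((y₀, e), 0) := by
    have h1 : ContinuousAt (fun r : (ℂ × ℝ) × ℝ => s r - m') ((y₀, e), 0) := by fun_prop
    have h2 : ContinuousAt (fun r : (ℂ × ℝ) × ℝ => r.1.2 - m') ((y₀, e), 0) := by
      apply Continuous.continuousAt
      fun_prop
    exact h1.div h2 hem'
  have hθ0 : θ ((y₀, e), 0) = 1 / 2 := by
    simp only [θ, hs0]
    field_simp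
    ring
  have k1 : ∀ᶠ r in 𝓝 (((y₀, e), 0) : (ℂ × ℝ) × ℝ), 0 < θ r :=
    hθ.eventually (lt_mem_nhds (by rw [hθ0]; norm_num))
  have k2 : ∀ᶠ r in 𝓝 (((y₀, e), 0) : (ℂ × ℝ) × ℝ), θ r < 1 :=
    hθ.eventually (gt_mem_nhds (by rw [hθ0]; norm_num))
  have k3 : ∀ᶠ r in 𝓝 (((y₀, e), 0) : (ℂ × ℝ) × ℝ), lam r < 1 :=
    hlam.eventually (gt_mem_nhds (by rw [hlam0]; norm_num))
  have k4 : ∀ᶠ r in 𝓝 (((y₀, e), 0) : (ℂ × ℝ) × ℝ), (r.1.1 - ε₀ • w, m) ∈ interior K := by
    have hcont : ContinuousAt (fun r : (ℂ × ℝ) × ℝ => (r.1.1 - ε₀ • w, m)) ((y₀, e), 0) := by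
      apply Continuous.continuousAt
      fun_prop
    exact hcont.eventually_mem (isOpen_interior.mem_nhds hp)
  have k5 : ∀ᶠ r in 𝓝 (((y₀, e), 0) : (ℂ × ℝ) × ℝ), r.1.2 - m' ≠ 0 := by
    have hcont : ContinuousAt (fun r : (ℂ × ℝ) × ℝ => r.1.2 - m') ((y₀, e), 0) := by
      apply Continuous.continuousAt
      fun_prop
    exact hcont.eventually_ne hem'
  have key := k1.and (k2.and (k3.and (k4.and k5)))
  rw [nhds_prod_eq, Filter.eventually_prod_iff] at key
  obtain ⟨pa, hpa, pb, hpb, hprod⟩ := key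
  obtain ⟨τ₀, hτ₀, hball⟩ := Metric.eventually_nhds_iff.1 hpb
  refine ⟨{x | pa x} ∩ {x | x ∈ K ∧ (x.1, m') ∈ K}, ?_, τ₀, hτ₀, ?_⟩
  · refine Filter.inter_mem (mem_nhdsWithin_of_mem_nhds hpa) ?_
    filter_upwards [hev, self_mem_nhdsWithin] with x h1 h2 using ⟨h2, h1⟩
  · rintro τ hτ hττ x ⟨hx, hxK, hxm⟩
    obtain ⟨g1, g2, g3, g4, g5⟩ := hprod hx (hball (y := τ) (by
      rw [Real.dist_eq, sub_zero, abs_of_pos hτ]; exact hττ))
    refine ⟨ε, hε, ?_⟩
    have hxs : (x.1, s (x, τ)) ∈ K := by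
      have := hK hxK hxm (a := θ (x, τ)) (b := 1 - θ (x, τ)) g1.le (by linarith) (by ring)
      convert this using 1
      ext1
      · simp only [Prod.fst_add, Prod.smul_fst]
        rw [← add_smul]; simp
      · simp only [Prod.snd_add, Prod.smul_snd, smul_eq_mul]
        have : θ (x, τ) * (x.2 - m') = s (x, τ) - m' := div_mul_cancel₀ _ g5
        linarith
    have hl0 : 0 < lam (x, τ) := by
      simp only [lam]
      positivity
    have hl1 : 0 < 1 - lam (x, τ) := by linarith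
    have := hK.combo_interior_self_mem_interior g4 hxs hl0 hl1.le (by ring)
    convert this using 1
    ext1
    · simp only [Prod.fst_add, Prod.smul_fst]
      have h1 : lam (x, τ) • (ε₀ • w) = ε • (τ • w) := by
        rw [smul_smul, smul_smul]
        congr 1
        simp only [lam]
        field_simp
      rw [smul_sub, h1, smul_neg]
      module
    · simp only [Prod.snd_add, Prod.smul_snd, smul_eq_mul]
      have h1 : (1 - lam (x, τ)) * s (x, τ) = x.2 - σ * ε - lam (x, τ) * m :=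
        mul_div_cancel₀ _ hl1.ne'
      rw [h1]
      ring

/-- Interior points of a section strictly between the extreme heights are interior. -/
lemma interior_of_sec (hK : Convex ℝ K) (hne : (interior K).Nonempty) {a b : ℝ}
    (ha : ∃ p ∈ K, p.2 = a) (hb : ∃ p ∈ K, p.2 = b) {q : ℂ} {z : ℝ} (haz : a < z) (hzb : z < b)
    (hq : q ∈ interior (sec K z)) : (q, z) ∈ interior K := by
  have hcl : K ⊆ closure (interior K) := by
    rw [hK.closure_interior_eq_closure_of_nonempty_interior hne]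
    exact subset_closure
  obtain ⟨p, hp, hpa⟩ := ha
  have hop : IsOpen {r : ℂ × ℝ | r.2 < z} := isOpen_lt continuous_snd continuous_const
  obtain ⟨r, hr1, hr2⟩ := mem_closure_iff.1 (hcl hp) _ hop (by
    show p.2 < z
    rw [hpa]; exact haz)
  have hr1' : r.2 < z := hr1
  have hR := eventually_interior hK (σ := 1) (by norm_num) hq hr2 (by linarith)
  obtain ⟨p₂, hp₂, hz₂⟩ := hb
  have hc : Tendsto (fun κ : ℝ => ((q, z) : ℂ × ℝ) + κ • ((q, z) - p₂)) (𝓝[>] 0)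
      (𝓝 (((q, z) : ℂ × ℝ) + (0 : ℝ) • ((q, z) - p₂))) :=
    (Continuous.tendsto (by fun_prop) 0).mono_left nhdsWithin_le_nhds
  rw [zero_smul, add_zero] at hc
  obtain ⟨κ, h1, h2⟩ := ((hc.eventually hR).and self_mem_nhdsWithin).exists
  have h2' : (0 : ℝ) < κ := h2
  have h3 := h1 (by
    simp only [Prod.snd_add, Prod.smul_snd, Prod.snd_sub, smul_eq_mul]
    have : 0 < κ * (p₂.2 - z) := mul_pos h2' (by linarith)
    linarith)
  have h4 : (0 : ℝ) < 1 / (1 + κ) := by positivity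
  have h5 : (0 : ℝ) ≤ κ / (1 + κ) := by positivity
  have h6 : 1 / (1 + κ) + κ / (1 + κ) = 1 := by field_simp
  have := hK.combo_interior_self_mem_interior h3 hp₂ h4 h5 h6
  convert this using 1
  have h7 : (1 + κ) ≠ 0 := by positivity
  have h8 : ((q, z) : ℂ × ℝ) = ((1 / (1 + κ)) * (1 + κ)) • (q, z) := by
    rw [one_div, inv_mul_cancel₀ h7, one_smul]
  have h9 : κ / (1 + κ) = (1 / (1 + κ)) * κ := by ring
  rw [h9]
  conv_lhs => rw [h8]
  module

/-- The remaining case: the shadow is a triangle and the midpoints of its sides carry vertical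
segments of full height. -/
structure Spec (K : Set (ℂ × ℝ)) (a b : ℝ) (μ : ℂ) : Prop where
  body : RotBody K (e6 ^ 2) (e6 ^ 2) a b
  top : (μ, b) ∈ K
  bot : (μ, a) ∈ K
  bd : μ ∉ interior (Prod.fst '' K)
  tip : (2 : ℝ) • μ + (2 : ℝ) • (e6 ^ 2 * μ) ∈ Prod.fst '' K
  farb : ∀ y ∈ sec K b, y ∉ interior (Prod.fst '' K) → Complex.normSq y ≤ Complex.normSq μ
  fara : ∀ y ∈ sec K a, y ∉ interior (Prod.fst '' K) → Complex.normSq y ≤ Complex.normSq μ

lemma interior_rot {C : Set ℂ} (hinv : ∀ q ∈ C, e6 ^ 2 * q ∈ C) {q : ℂ}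
    (hq : e6 ^ 2 * q ∈ interior C) : q ∈ interior C := by
  rw [mem_interior_iff_mem_nhds] at hq ⊢
  have hcont : ContinuousAt (fun q : ℂ => e6 ^ 2 * q) q := by fun_prop
  have h1 := hcont.preimage_mem_nhds hq
  filter_upwards [h1] with p hp
  have h2 := hinv _ (hinv _ hp)
  have h3 : e6 ^ 2 * (e6 ^ 2 * (e6 ^ 2 * p)) = p := by
    have : e6 ^ 2 * (e6 ^ 2 * (e6 ^ 2 * p)) = e6 ^ 6 * p := by ring
    rw [this, e6_six, one_mul]
  have h2' : e6 ^ 2 * (e6 ^ 2 * (e6 ^ 2 * p)) ∈ C := h2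
  rwa [h3] at h2'

lemma normSq_e6 : Complex.normSq e6 = 1 := by
  have hs : Real.sqrt 3 ^ 2 = 3 := Real.sq_sqrt (by norm_num)
  simp [e6, Complex.normSq_apply]
  ring_nf
  rw [hs]; norm_num

namespace Spec

variable {μ : ℂ}

lemma ne_zero (h : Spec K a b μ) : μ ≠ 0 := h.body.ne_zero_of_not_mem h.bd

lemma rot (h : Spec K a b μ) : Spec K a b (e6 ^ 2 * μ) where
  body := h.body
  top := h.body.v1 (μ, b) h.top
  bot := h.body.v1 (μ, a) h.bot
  bd := fun hc => h.bd (interior_rot (shadow_inv h.body) hc)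
  tip := by
    have := shadow_inv h.body _ h.tip
    convert this using 1
    simp only [Complex.real_smul]
    ring
  farb := by
    intro y hy hy1
    rw [Complex.normSq_mul, map_pow, normSq_e6, one_pow, one_mul]
    exact h.farb y hy hy1
  fara := by
    intro y hy hy1
    rw [Complex.normSq_mul, map_pow, normSq_e6, one_pow, one_mul]
    exact h.fara y hy hy1

lemma rotk (h : Spec K a b μ) (k : ℕ) : Spec K a b ((e6 ^ 2) ^ k * μ) := by
  induction k with
  | zero => simpa using h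
  | succ n ih =>
    have := ih.rot
    rwa [← mul_assoc, ← pow_succ'] at this

lemma le1 (h : Spec K a b μ) {A B : ℝ} (hq : A • μ + B • (e6 ^ 2 * μ) ∈ Prod.fst '' K) :
    -2 ≤ A + B := by
  by_contra hcon
  push Not at hcon
  have hconv := shadow_convex h.body
  have hinv := shadow_inv h.body
  -- the vertices `(-2, 0)` and `(0, -2)`
  have t1 := hinv _ h.tip
  rw [rot3] at t1
  have t2 := hinv _ t1
  rw [rot3] at t2
  -- weights
  set t : ℝ := 1 / (1 + |A| + |B|) with ht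
  have hden : 0 < 1 + |A| + |B| := by positivity
  have ht0 : 0 < t := by rw [ht]; positivity
  have htA : -1 ≤ t * A := by
    have h1 : t * (1 + |A| + |B|) = 1 := by rw [ht]; field_simp
    have h2 : -|A| ≤ A := neg_abs_le A
    have h3 : 0 ≤ |B| := abs_nonneg B
    nlinarith
  have htB : -1 ≤ t * B := by
    have h1 : t * (1 + |A| + |B|) = 1 := by rw [ht]; field_simp
    have h2 : -|B| ≤ B := neg_abs_le B
    have h3 : 0 ≤ |A| := abs_nonneg A
    nlinarith
  set l : ℝ := 1 + t * (-(A + B) - 2) / 2 with hl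
  have hl1 : 1 < l := by
    rw [hl]
    have : 0 < t * (-(A + B) - 2) := mul_pos ht0 (by linarith)
    linarith
  have hu : 0 ≤ (l + t * A) / 2 := by linarith
  have hv : 0 ≤ (l + t * B) / 2 := by linarith
  have hsum := hconv.sum_mem (t := Finset.univ) (w := ![t, (l + t * A) / 2, (l + t * B) / 2])
      (z := ![A • μ + B • (e6 ^ 2 * μ), (-2 : ℝ) • μ + ((2 : ℝ) - 2) • (e6 ^ 2 * μ),
        (-((2 : ℝ) - 2)) • μ + ((-2 : ℝ) - (2 - 2)) • (e6 ^ 2 * μ)])
      (by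
        intro i _
        fin_cases i
        · exact ht0.le
        · exact hu
        · exact hv)
      (by
        simp only [Fin.sum_univ_three, Matrix.cons_val_zero, Matrix.cons_val_one, Matrix.cons_val]
        rw [hl]; ring)
      (by
        intro i _
        fin_cases i
        · exact hq
        · exact t1
        · exact t2)
  simp only [Fin.sum_univ_three, Matrix.cons_val_zero, Matrix.cons_val_one,
    Matrix.cons_val] at hsum
  have hp : t • (A • μ + B • (e6 ^ 2 * μ)) + ((l + t * A) / 2) • ((-2 : ℝ) • μ +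
      ((2 : ℝ) - 2) • (e6 ^ 2 * μ)) + ((l + t * B) / 2) • ((-((2 : ℝ) - 2)) • μ +
      ((-2 : ℝ) - (2 - 2)) • (e6 ^ 2 * μ)) = l • (e6 ^ 2 * (e6 ^ 2 * μ)) := by
    have : e6 ^ 2 * (e6 ^ 2 * μ) = (-1 : ℝ) • μ + (-1 : ℝ) • (e6 ^ 2 * μ) := by
      have h1 : e6 ^ 2 * (e6 ^ 2 * μ) = e6 ^ 4 * μ := by ring
      rw [h1, e6_four, e6_sq]
      simp only [Complex.real_smul]
      push_cast
      ring
    rw [this]
    module
  rw [hp] at hsum
  have hint := h.body.shadow_int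
  have := hconv.combo_interior_self_mem_interior hint hsum (a := 1 - 1 / l) (b := 1 / l)
    (by
      have : 1 / l < 1 := by rw [div_lt_one (by linarith)]; exact hl1
      linarith) (by positivity) (by ring)
  rw [smul_zero, zero_add, smul_smul, one_div, inv_mul_cancel₀ (by linarith), one_smul] at this
  exact h.rot.rot.bd this

lemma le2 (h : Spec K a b μ) {A B : ℝ} (hq : A • μ + B • (e6 ^ 2 * μ) ∈ Prod.fst '' K) :
    2 * B - A ≤ 2 := by
  have := shadow_inv h.body _ hq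
  rw [rot3] at this
  have := h.le1 this
  linarith

lemma le3 (h : Spec K a b μ) {A B : ℝ} (hq : A • μ + B • (e6 ^ 2 * μ) ∈ Prod.fst '' K) :
    2 * A - B ≤ 2 := by
  have := shadow_inv h.body _ (shadow_inv h.body _ hq)
  rw [rot3, rot3] at this
  have := h.le1 this
  linarith

lemma mem_of_le (h : Spec K a b μ) {A B : ℝ} (h1 : -2 ≤ A + B) (h2 : 2 * B - A ≤ 2)
    (h3 : 2 * A - B ≤ 2) : A • μ + B • (e6 ^ 2 * μ) ∈ Prod.fst '' K := by
  have hconv := shadow_convex h.body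
  have hinv := shadow_inv h.body
  have t1 := hinv _ h.tip
  rw [rot3] at t1
  have t2 := hinv _ t1
  rw [rot3] at t2
  have hsum := hconv.sum_mem (t := Finset.univ)
      (w := ![(2 + A + B) / 6, (2 - 2 * A + B) / 6, (2 + A - 2 * B) / 6])
      (z := ![(2 : ℝ) • μ + (2 : ℝ) • (e6 ^ 2 * μ), (-2 : ℝ) • μ + ((2 : ℝ) - 2) • (e6 ^ 2 * μ),
        (-((2 : ℝ) - 2)) • μ + ((-2 : ℝ) - (2 - 2)) • (e6 ^ 2 * μ)])
      (by
        intro i _
        fin_cases i
        · show 0 ≤ (2 + A + B) / 6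
          linarith
        · show 0 ≤ (2 - 2 * A + B) / 6
          linarith
        · show 0 ≤ (2 + A - 2 * B) / 6
          linarith)
      (by
        simp only [Fin.sum_univ_three, Matrix.cons_val_zero, Matrix.cons_val_one, Matrix.cons_val]
        ring)
      (by
        intro i _
        fin_cases i
        · exact h.tip
        · exact t1
        · exact t2)
  convert hsum using 1
  simp only [Fin.sum_univ_three, Matrix.cons_val_zero, Matrix.cons_val_one, Matrix.cons_val]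
  module

/-- Continuous coordinates. -/
lemma exists_coords {μ : ℂ} (hμ : μ ≠ 0) : ∃ A B : ℂ → ℝ, Continuous A ∧ Continuous B ∧
    ∀ q, q = A q • μ + B q • (e6 ^ 2 * μ) := by
  have hpos : 0 < Real.sqrt 3 := Real.sqrt_pos.2 (by norm_num)
  refine ⟨fun q => (q / μ).re + (q / μ).im / Real.sqrt 3, fun q => 2 * (q / μ).im / Real.sqrt 3,
    by fun_prop, by fun_prop, fun q => ?_⟩
  have h1 : q = (q / μ) * μ := by field_simp
  have h2 : q / μ = (((q / μ).re + (q / μ).im / Real.sqrt 3 : ℝ) : ℂ) +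
      ((2 * (q / μ).im / Real.sqrt 3 : ℝ) : ℂ) * e6 ^ 2 := by
    rw [e6_sq]
    apply Complex.ext
    · simp [e6]; field_simp; ring
    · simp [e6]; field_simp
  conv_lhs => rw [h1, h2]
  simp only [Complex.real_smul]
  ring

/-- Points of the shadow outside its interior lie on the three sides. -/
lemma side (h : Spec K a b μ) {y : ℂ} (hy : y ∈ Prod.fst '' K)
    (hy1 : y ∉ interior (Prod.fst '' K)) : ∃ k < 3, ∃ t : ℝ, -1 ≤ t ∧ t ≤ 1 ∧
    y = (1 + t) • ((e6 ^ 2) ^ k * μ) + (2 * t) • (e6 ^ 2 * ((e6 ^ 2) ^ k * μ)) := by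
  obtain ⟨A, B, hA, hB, hAB⟩ := exists_coords h.ne_zero
  have hy' : A y • μ + B y • (e6 ^ 2 * μ) ∈ Prod.fst '' K := by rw [← hAB]; exact hy
  have l1 := h.le1 hy'
  have l2 := h.le2 hy'
  have l3 := h.le3 hy'
  have e4 : e6 ^ 2 * (e6 ^ 2 * μ) = (-1 : ℝ) • μ + (-1 : ℝ) • (e6 ^ 2 * μ) := by
    have h1 : e6 ^ 2 * (e6 ^ 2 * μ) = e6 ^ 4 * μ := by ring
    rw [h1, e6_four, e6_sq]
    simp only [Complex.real_smul]
    push_cast
    ring
  have e6' : e6 ^ 2 * (e6 ^ 2 * (e6 ^ 2 * μ)) = μ := by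
    have h1 : e6 ^ 2 * (e6 ^ 2 * (e6 ^ 2 * μ)) = e6 ^ 6 * μ := by ring
    rw [h1, e6_six, one_mul]
  have hnot : 2 * A y - B y = 2 ∨ 2 * B y - A y = 2 ∨ A y + B y = -2 := by
    by_contra hcon
    push Not at hcon
    obtain ⟨c1, c2, c3⟩ := hcon
    apply hy1
    let O : Set ℂ := {q | 2 * A q - B q < 2} ∩ {q | 2 * B q - A q < 2} ∩ {q | -2 < A q + B q}
    have hO : IsOpen O := ((isOpen_lt (by fun_prop) continuous_const).inter
      (isOpen_lt (by fun_prop) continuous_const)).inter (isOpen_lt continuous_const (by fun_prop))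
    refine mem_interior.2 ⟨O, ?_, hO, ⟨⟨?_, ?_⟩, ?_⟩⟩
    · rintro q ⟨⟨g1, g2⟩, g3⟩
      have g1' : 2 * A q - B q < 2 := g1
      have g2' : 2 * B q - A q < 2 := g2
      have g3' : -2 < A q + B q := g3
      rw [hAB q]
      exact h.mem_of_le g3'.le g2'.le g1'.le
    · exact lt_of_le_of_ne l3 c1
    · exact lt_of_le_of_ne l2 c2
    · exact lt_of_le_of_ne l1 (Ne.symm c3)
  rcases hnot with g | g | g
  · refine ⟨0, by norm_num, A y - 1, by linarith, by linarith, ?_⟩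
    rw [pow_zero, one_mul]
    conv_lhs => rw [hAB y]
    congr 2 <;> linarith
  · refine ⟨1, by norm_num, -A y / 2, by linarith, by linarith, ?_⟩
    rw [pow_one, e4]
    conv_lhs => rw [hAB y]
    have hBy : B y = 1 + A y / 2 := by linarith
    rw [hBy]
    module
  · refine ⟨2, by norm_num, (A y - B y) / 2, by linarith, by linarith, ?_⟩
    rw [pow_two, mul_assoc, e6', e4]
    conv_lhs => rw [hAB y]
    have hBy : B y = -2 - A y := by linarith
    rw [hBy]
    module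

/-- Horizontal directions pointing strictly inside the side through `μ` light the open vertical
segment over `μ`. -/
lemma lit_mid (h : Spec K a b μ) {z : ℝ} (haz : a < z) (hzb : z < b) {c d : ℝ} (hcd : 0 < 2 * c - d) :
    ∃ ε : ℝ, 0 < ε ∧ (μ - ε • (c • μ + d • (e6 ^ 2 * μ)), z) ∈ interior K := by
  by_contra hcon
  push Not at hcon
  have hinv := shadow_inv h.body
  have hμz : (μ, z) ∈ K := by
    obtain ⟨l, m, _, _, hlm, hmix⟩ := mix h.body.convex (r := (μ, a)) (q := (μ, b)) h.bot h.top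
      haz hzb
    convert hmix using 2
    simp only
    rw [← add_smul, hlm, one_smul]
  obtain ⟨f, hf0, hf1, hf2⟩ := exists_normal h.body.convex h.body.ne hμz
    ((-(c • μ + d • (e6 ^ 2 * μ)), 0) : ℂ × ℝ) (by
      intro ε hε hin
      apply hcon ε hε
      convert hin using 1
      ext1
      · simp [sub_eq_add_neg]
      · simp)
  have hsplit : ∀ (v : ℂ) (s : ℝ), f (v, s) = f (v, 0) + s * f (0, 1) := by
    intro v s
    have : ((v, s) : ℂ × ℝ) = (v, 0) + s • (0, 1) := by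
      ext1 <;> simp
    rw [this, map_add, map_smul, smul_eq_mul]
  have ht : f (0, 1) = 0 := by
    have h1 := hf1 _ h.top
    have h2 := hf1 _ h.bot
    rw [hsplit μ b, hsplit μ z] at h1
    rw [hsplit μ a, hsplit μ z] at h2
    apply le_antisymm
    · by_contra hc
      have := mul_pos (show 0 < b - z by linarith) (not_le.1 hc)
      linarith
    · by_contra hc
      have := mul_pos_of_neg_of_neg (show a - z < 0 by linarith) (not_le.1 hc)
      linarith
  have hlin : ∀ p q : ℝ, f (p • μ + q • (e6 ^ 2 * μ), 0) = p * f (μ, 0) +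
      q * f (e6 ^ 2 * μ, 0) := by
    intro p q
    have : ((p • μ + q • (e6 ^ 2 * μ), 0) : ℂ × ℝ) = p • (μ, 0) + q • (e6 ^ 2 * μ, 0) := by
      ext1 <;> simp
    rw [this, map_add, map_smul, map_smul, smul_eq_mul, smul_eq_mul]
  have hsh : ∀ q ∈ Prod.fst '' K, f (q, 0) ≤ f (μ, 0) := by
    rintro _ ⟨x, hx, rfl⟩
    have h1 := hf1 x hx
    have h2 : f x = f (x.1, 0) + x.2 * f (0, 1) := hsplit x.1 x.2
    rw [h2, hsplit μ z, ht] at h1
    linarith
  have t1 := hinv _ h.tip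
  rw [rot3] at t1
  have t2 := hinv _ t1
  rw [rot3] at t2
  have g0 := hsh _ h.tip
  have g2 := hsh _ t2
  have g3 := hsh _ (interior_subset h.body.shadow_int)
  rw [hlin] at g0 g2
  have hz0 : f ((0 : ℂ), (0 : ℝ)) = 0 := map_zero f
  rw [hz0] at g3
  have hf2' : f (-(c • μ + d • (e6 ^ 2 * μ)), 0) =
      -(c * f (μ, 0) + d * f (e6 ^ 2 * μ, 0)) := by
    rw [← hlin]
    have : ((-(c • μ + d • (e6 ^ 2 * μ)), 0) : ℂ × ℝ) = -(c • μ + d • (e6 ^ 2 * μ), 0) := by
      ext1 <;> simp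
    rw [this, map_neg]
  rw [hf2'] at hf2
  set G1 := f (μ, 0)
  set G2 := f (e6 ^ 2 * μ, 0)
  have k1 : G1 + 2 * G2 = 0 := by linarith
  have k2 : G1 = 0 := by
    have hG2 : G2 = -G1 / 2 := by linarith
    rw [hG2] at hf2
    have h4 : (2 * c - d) * G1 ≤ 0 := by linarith
    have h5 : G1 ≤ 0 := by
      by_contra hc
      have := mul_pos hcd (not_le.1 hc)
      linarith
    linarith
  have k3 : G2 = 0 := by linarith
  apply hf0
  obtain ⟨A, B, -, -, hAB⟩ := exists_coords h.ne_zero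
  apply ContinuousLinearMap.ext
  rintro ⟨v, s⟩
  rw [hsplit v s, ht, hAB v, hlin]
  show A v * G1 + B v * G2 + s * 0 = 0
  rw [k2, k3]; ring

/-- Above points of the shadow near `μ` the body contains points at middle height. -/
lemma eventually_mid (h : Spec K a b μ) {e : ℝ} (he : e = a ∨ e = b) :
    ∀ᶠ x in 𝓝[K] (μ, e), (x.1, (a + b) / 2) ∈ K := by
  obtain ⟨A, B, hA, hB, hAB⟩ := exists_coords h.ne_zero
  have hlt := h.body.lt
  have hAμ : A μ = 1 ∧ B μ = 0 := by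
    have : A μ • μ + B μ • (e6 ^ 2 * μ) = (1 : ℝ) • μ + (0 : ℝ) • (e6 ^ 2 * μ) := by
      rw [← hAB μ]; simp
    exact coord3_unique h.ne_zero this
  have hcA : ContinuousAt (fun x : ℂ × ℝ => A x.1) (μ, e) := (hA.comp continuous_fst).continuousAt
  have hcB : ContinuousAt (fun x : ℂ × ℝ => B x.1) (μ, e) := (hB.comp continuous_fst).continuousAt
  have k1 : ∀ᶠ x in 𝓝 ((μ, e) : ℂ × ℝ), -2 < (2 * A x.1 - 1) + 2 * B x.1 := by
    have hc : ContinuousAt (fun x : ℂ × ℝ => (2 * A x.1 - 1) + 2 * B x.1) (μ, e) := by fun_prop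
    exact hc.eventually (lt_mem_nhds (by simp [hAμ]; norm_num))
  have k2 : ∀ᶠ x in 𝓝 ((μ, e) : ℂ × ℝ), 2 * (2 * B x.1) - (2 * A x.1 - 1) < 2 := by
    have hc : ContinuousAt (fun x : ℂ × ℝ => 2 * (2 * B x.1) - (2 * A x.1 - 1)) (μ, e) := by
      fun_prop
    exact hc.eventually (gt_mem_nhds (by simp [hAμ]; norm_num))
  -- the auxiliary point
  have hq : ∀ᶠ x in 𝓝[K] ((μ, e) : ℂ × ℝ), (2 * A x.1 - 1) • μ + (2 * B x.1) • (e6 ^ 2 * μ) ∈
      Prod.fst '' K := by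
    filter_upwards [nhdsWithin_le_nhds k1, nhdsWithin_le_nhds k2, self_mem_nhdsWithin] with
      x h1 h2 hx
    refine h.mem_of_le h1.le h2.le ?_
    have := h.le3 (A := A x.1) (B := B x.1) (by rw [← hAB]; exact ⟨x, hx, rfl⟩)
    linarith
  have hfst : ∀ x : ℂ × ℝ, x.1 = (1 / 2 : ℝ) • ((2 * A x.1 - 1) • μ +
      (2 * B x.1) • (e6 ^ 2 * μ)) + (1 / 2 : ℝ) • μ := by
    intro x
    conv_lhs => rw [hAB x.1]
    module
  rcases he with rfl | rfl
  · -- near the bottom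
    have k3 : ∀ᶠ x in 𝓝 ((μ, e) : ℂ × ℝ), x.2 < (e + b) / 2 := by
      have hc : ContinuousAt (fun x : ℂ × ℝ => x.2) (μ, e) := continuous_snd.continuousAt
      exact hc.eventually (gt_mem_nhds (by simp; linarith))
    filter_upwards [hq, nhdsWithin_le_nhds k3, self_mem_nhdsWithin] with x h1 h3 hx
    obtain ⟨r, hr, hr1⟩ := h1
    have h4 : (x.1, (1 / 2 : ℝ) * r.2 + (1 / 2 : ℝ) * b) ∈ K := by
      have hcv : Convex ℝ K := h.body.convex
      have := hcv hr h.top (show (0 : ℝ) ≤ 1 / 2 by norm_num) (show (0 : ℝ) ≤ 1 / 2 by norm_num)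
        (by norm_num)
      convert this using 1
      ext1
      · simp only [Prod.fst_add, Prod.smul_fst]
        rw [hr1]
        exact hfst x
      · simp
    have h5 := (h.body.hab r hr).1
    rcases (show (e + b) / 2 ≤ (1 / 2 : ℝ) * r.2 + (1 / 2 : ℝ) * b by linarith).eq_or_lt with
      h6 | h6
    · rw [h6]; exact h4
    · obtain ⟨l, m, _, _, hlm, hmix⟩ := mix h.body.convex (r := x)
        (q := (x.1, (1 / 2 : ℝ) * r.2 + (1 / 2 : ℝ) * b)) hx h4 h3 h6
      convert hmix using 2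
      simp only
      rw [← add_smul, hlm, one_smul]
  · -- near the top
    have k3 : ∀ᶠ x in 𝓝 ((μ, e) : ℂ × ℝ), (a + e) / 2 < x.2 := by
      have hc : ContinuousAt (fun x : ℂ × ℝ => x.2) (μ, e) := continuous_snd.continuousAt
      exact hc.eventually (lt_mem_nhds (by simp; linarith))
    filter_upwards [hq, nhdsWithin_le_nhds k3, self_mem_nhdsWithin] with x h1 h3 hx
    obtain ⟨r, hr, hr1⟩ := h1
    have h4 : (x.1, (1 / 2 : ℝ) * r.2 + (1 / 2 : ℝ) * a) ∈ K := by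
      have hcv : Convex ℝ K := h.body.convex
      have := hcv hr h.bot (show (0 : ℝ) ≤ 1 / 2 by norm_num) (show (0 : ℝ) ≤ 1 / 2 by norm_num)
        (by norm_num)
      convert this using 1
      ext1
      · simp only [Prod.fst_add, Prod.smul_fst]
        rw [hr1]
        exact hfst x
      · simp
    have h5 := (h.body.hab r hr).2
    rcases (show (1 / 2 : ℝ) * r.2 + (1 / 2 : ℝ) * a ≤ (a + e) / 2 by linarith).eq_or_lt with
      h6 | h6
    · rw [← h6]; exact h4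
    · obtain ⟨l, m, _, _, hlm, hmix⟩ := mix h.body.convex
        (r := (x.1, (1 / 2 : ℝ) * r.2 + (1 / 2 : ℝ) * a)) (q := x) h4 hx h6 h3
      convert hmix using 2
      simp only
      rw [← add_smul, hlm, one_smul]

/-- Lighting of the remaining points of a side within their section. -/
lemma side_lit {C : Set ℂ} (hC : Convex ℝ C) (h0 : (0 : ℂ) ∈ interior C)
    (hinv : ∀ q ∈ C, e6 ^ 2 * q ∈ C) {ν y : ℂ} (hν : ν ∈ C) (hy : y ∈ C) {t : ℝ}
    (hyd : y = (1 + t) • ν + (2 * t) • (e6 ^ 2 * ν)) :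
    (0 < t → t ≤ 1 → Lit C y (ν + e6 ^ 2 * ν)) ∧
    (t < 0 → -1 ≤ t → Lit C y (-(e6 ^ 2 * ν))) := by
  have hν2 := hinv ν hν
  have hν3 := hinv _ hν2
  have e4 : e6 ^ 2 * (e6 ^ 2 * ν) = -ν - e6 ^ 2 * ν := by
    have h1 : e6 ^ 2 * (e6 ^ 2 * ν) = e6 ^ 4 * ν := by ring
    rw [h1, e6_four, e6_sq]
    ring
  rw [e4] at hν3
  constructor
  · intro ht0 ht1
    by_contra hcon
    obtain ⟨g, hg1, hg2, hg3⟩ := exists_normal' hC h0 hy hcon
    have k1 := hg1 _ hν
    have k2 := hg1 _ hν2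
    rw [hyd] at k1 k2 hg3
    simp only [map_add, map_smul, smul_eq_mul] at k1 k2 hg2 hg3
    set G1 := g ν
    set G2 := g (e6 ^ 2 * ν)
    have k3 : 0 ≤ t * (G1 + 2 * G2) := by linarith
    have k4 : 0 ≤ G1 + 2 * G2 := by
      by_contra hc
      have := mul_neg_of_pos_of_neg ht0 (not_le.1 hc)
      linarith
    have k5 : 0 ≤ G2 := by linarith
    have k6 : G1 ≤ -G2 := by linarith
    have k7 : (1 + t) * G1 ≤ (1 + t) * (-G2) := mul_le_mul_of_nonneg_left k6 (by linarith)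
    have k8 : (2 - t) * G2 ≤ 0 := by nlinarith
    have k9 : G2 = 0 := by
      have : G2 ≤ 0 := by
        by_contra hc
        have := mul_pos (show 0 < 2 - t by linarith) (not_le.1 hc)
        linarith
      linarith
    rw [k9] at k7 hg3
    linarith
  · intro ht0 ht1
    by_contra hcon
    obtain ⟨g, hg1, hg2, hg3⟩ := exists_normal' hC h0 hy hcon
    have k1 := hg1 _ hν
    have k2 := hg1 _ hν3
    rw [hyd] at k1 k2 hg3
    simp only [map_add, map_sub, map_neg, map_smul, smul_eq_mul] at k1 k2 hg2 hg3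
    set G1 := g ν
    set G2 := g (e6 ^ 2 * ν)
    have k3 : 0 ≤ t * (G1 + 2 * G2) := by linarith
    have k4 : G1 + 2 * G2 ≤ 0 := by
      by_contra hc
      have := mul_neg_of_neg_of_pos ht0 (not_le.1 hc)
      linarith
    have k5 : 0 ≤ G2 := by linarith
    have k7 : (2 + t) * G1 ≤ (2 + t) * (-2 * G2) :=
      mul_le_mul_of_nonneg_left (by linarith) (by linarith)
    have k8 : 3 * G2 ≤ 0 := by nlinarith
    have k9 : G2 = 0 := by linarith
    rw [k9] at k7 hg3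
    have k10 : 0 < (1 + t) * G1 := by linarith
    nlinarith

end Spec

end Pool.Agent.Lib.HadwigerRot
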