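import Mathlib
import Pool.Agent.Lib.HadwigerRotSpecial

/-!
# Three-dimensional bodies with a rotational symmetry of order three: the covering bound
-/

set_option autoImplicit false
set_option linter.unusedSectionVars false

open Set Filter Topology

namespace Pool.Agent.Lib.HadwigerRot

open Pool.Agent.Lib.HadwigerIllum Pool.Agent.Lib.HadwigerPlane

variable {K : Set (ℂ × ℝ)} {a b : ℝ}

lemma one_add_e6_sq : (1 : ℂ) + e6 ^ 2 = e6 := by rw [e6_sq]; ring

lemma e6_sq_pow_mod (k : ℕ) : (e6 ^ 2) ^ (k % 3) = (e6 ^ 2) ^ k := by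
  have h4 : (e6 ^ 2) ^ 3 = 1 := by rw [← pow_mul]; exact e6_six
  conv_rhs => rw [← Nat.div_add_mod k 3, pow_add, pow_mul, h4, one_pow, one_mul]

/-- The triangular shadow with full vertical segments over the midpoints of its sides. -/
theorem cover3_special {μ : ℂ} (h : Spec K a b μ) : CoverBy K 8 := by
  classical
  let w1 : ℂ := μ + e6 ^ 2 * μ
  let w2 : ℂ := (e6 ^ 2) ^ 2 * μ
  let I : Finset ℂ := {w1, w2}
  let X : Finset (ℂ × ℝ) := (Finset.range 3).image fun k => (-(e6 * ((e6 ^ 2) ^ k * μ)), (0 : ℝ))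
  have hI : I.card ≤ 2 := Finset.card_le_two
  have hX : X.card ≤ 3 := Finset.card_image_le.trans (by simp)
  have hlt := h.body.lt
  have hXmem : ∀ k : ℕ, (-(e6 * ((e6 ^ 2) ^ k * μ)), (0 : ℝ)) ∈ X := by
    intro k
    simp only [X, Finset.mem_image, Finset.mem_range]
    exact ⟨k % 3, Nat.mod_lt _ (by norm_num), by rw [e6_sq_pow_mod]⟩
  refine CoverBy.mono (assembleV h.body.convex h.body.compact I I X ?_) (by omega)
  intro x hx
  by_cases hx1 : x.1 ∈ interior (Prod.fst '' K)
  · obtain ⟨v, hv, ε, hε, hin⟩ := lit_vertical h.body.convex h.body.ne hx hx1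
    simp only [Finset.mem_insert, Finset.mem_singleton] at hv
    rcases hv with rfl | rfl
    · exact Or.inr (Or.inr ⟨w1, by simp [I], local_vertical hε hin w1⟩)
    · exact Or.inr (Or.inl ⟨w1, by simp [I], local_vertical hε hin w1⟩)
  obtain ⟨k, hk, t, ht1, ht2, hy⟩ := h.side ⟨x, hx, rfl⟩ hx1
  have hν := h.rotk k
  have hsec : a < x.2 → x.2 < b → (e6 ^ 2) ^ k * μ ∈ sec K x.2 := by
    intro haz hzb
    obtain ⟨l, m, _, _, hlm, hmix⟩ := mix h.body.convex (r := ((e6 ^ 2) ^ k * μ, a))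
      (q := ((e6 ^ 2) ^ k * μ, b)) hν.bot hν.top haz hzb
    rw [mem_sec]
    convert hmix using 2
    simp only
    rw [← add_smul, hlm, one_smul]
  rcases eq_or_ne t 0 with rfl | ht0
  · have hyν : x.1 = (e6 ^ 2) ^ k * μ := by rw [hy]; simp
    have hw : ∃ w ∈ I, ∃ c d : ℝ, w = c • ((e6 ^ 2) ^ k * μ) +
        d • (e6 ^ 2 * ((e6 ^ 2) ^ k * μ)) ∧ 0 < 2 * c - d := by
      interval_cases k
      · exact ⟨w1, by simp [I], 1, 1, by simp [w1], by norm_num⟩
      · refine ⟨w1, by simp [I], 0, -1, ?_, by norm_num⟩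
        simp only [w1, zero_smul, zero_add, neg_smul, one_smul, pow_one]
        have h1 : e6 ^ 2 * (e6 ^ 2 * μ) = e6 ^ 4 * μ := by ring
        rw [h1, e6_four, e6_sq]
        ring
      · exact ⟨w2, by simp [I], 1, 0, by simp [w2], by norm_num⟩
    obtain ⟨w, hwI, c, d, hwcd, hcd⟩ := hw
    obtain ⟨ε₀, hε₀, hp⟩ := hν.lit_mid (z := (a + b) / 2) (by linarith) (by linarith) hcd
    rw [← hwcd] at hp
    rcases (h.body.hab x hx).1.eq_or_lt with e1 | e1
    · have hxe : x = ((e6 ^ 2) ^ k * μ, a) := Prod.ext hyν e1.symm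
      right; right
      refine ⟨w, hwI, ?_⟩
      rw [hxe]
      have := local_special h.body.convex (σ := -1) (by norm_num) (y₀ := (e6 ^ 2) ^ k * μ) (w := w)
        (e := a) (m := (a + b) / 2) (m' := (a + b) / 2) (by linarith) hε₀ hp
        (hν.eventually_mid (Or.inl rfl))
      simpa only [neg_neg] using this
    rcases (h.body.hab x hx).2.eq_or_lt with e2 | e2
    · have hxe : x = ((e6 ^ 2) ^ k * μ, b) := Prod.ext hyν e2
      right; left
      refine ⟨w, hwI, ?_⟩
      rw [hxe]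
      exact local_special h.body.convex (σ := 1) (by norm_num) (y₀ := (e6 ^ 2) ^ k * μ) (w := w)
        (e := b) (m := (a + b) / 2) (m' := (a + b) / 2) (by linarith) hε₀ hp
        (hν.eventually_mid (Or.inr rfl))
    · obtain ⟨ε, hε, hin⟩ := hν.lit_mid e1 e2 (c := 1) (d := 1) (by norm_num)
      left
      refine ⟨_, hXmem k, ε, hε, ?_⟩
      convert hin using 1
      ext1
      · simp only [Prod.fst_add, Prod.smul_fst]
        rw [hyν]
        simp only [Complex.real_smul]
        have := one_add_e6_sq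
        push_cast
        linear_combination ((ε : ℂ) * ((e6 ^ 2) ^ k * μ)) * this
      · simp
  · have hNν : 0 < Complex.normSq ((e6 ^ 2) ^ k * μ) := Complex.normSq_pos.2 hν.ne_zero
    have hns : Complex.normSq ((e6 ^ 2) ^ k * μ) < Complex.normSq x.1 := by
      rw [hy, normSq_coord3]
      have h1 : 0 < t ^ 2 := by positivity
      have h2 : 0 < t ^ 2 * Complex.normSq ((e6 ^ 2) ^ k * μ) := mul_pos h1 hNν
      nlinarith
    have hxa : a ≠ x.2 := by
      intro he
      have := hν.fara x.1 (by rw [mem_sec, he]; exact hx) hx1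
      linarith
    have hxb : x.2 ≠ b := by
      intro he
      have := hν.farb x.1 (by rw [mem_sec, ← he]; exact hx) hx1
      linarith
    have e1 : a < x.2 := lt_of_le_of_ne (h.body.hab x hx).1 hxa
    have e2 : x.2 < b := lt_of_le_of_ne (h.body.hab x hx).2 hxb
    have hνz := hsec e1 e2
    have h0 := h.body.sec_int hνz hν.ne_zero
    obtain ⟨hs1, hs2⟩ := Spec.side_lit (sec_convex h.body.convex x.2) h0 (sec_inv h.body x.2) hνz
      (y := x.1) hx hy
    left
    rcases lt_or_gt_of_ne ht0 with ht | ht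
    · obtain ⟨ε, hε, hin⟩ := hs2 ht ht1
      refine ⟨_, hXmem (k + 2), ε, hε, ?_⟩
      have := interior_of_sec h.body.convex h.body.ne h.body.ha h.body.hb e1 e2 hin
      convert this using 1
      ext1
      · simp only [Prod.fst_add, Prod.smul_fst]
        simp only [Complex.real_smul]
        have h3 : e6 * ((e6 ^ 2) ^ (k + 2) * μ) = - (e6 ^ 2 * ((e6 ^ 2) ^ k * μ)) := by
          have : e6 * ((e6 ^ 2) ^ (k + 2) * μ) = e6 ^ 3 * (e6 ^ 2 * ((e6 ^ 2) ^ k * μ)) := by ring
          rw [this, e6_cube]; ring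
        rw [h3]; ring
      · simp
    · obtain ⟨ε, hε, hin⟩ := hs1 ht ht2
      refine ⟨_, hXmem k, ε, hε, ?_⟩
      have := interior_of_sec h.body.convex h.body.ne h.body.ha h.body.hb e1 e2 hin
      convert this using 1
      ext1
      · simp only [Prod.fst_add, Prod.smul_fst]
        simp only [Complex.real_smul]
        have h3 := one_add_e6_sq
        linear_combination ((ε : ℂ) * ((e6 ^ 2) ^ k * μ)) * h3
      · simp

lemma not_int_rotk {C : Set ℂ} (hinv : ∀ q ∈ C, e6 ^ 2 * q ∈ C) {q : ℂ} (hq : q ∉ interior C)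
    (k : ℕ) : (e6 ^ 2) ^ k * q ∉ interior C := by
  induction k with
  | zero => simpa using hq
  | succ n ih =>
    intro h
    rw [pow_succ', mul_assoc] at h
    exact ih (interior_rot hinv h)

lemma exists_farthest (hc : IsCompact K) {z : ℝ}
    (h : ∃ y ∈ sec K z, y ∉ interior (Prod.fst '' K)) :
    ∃ t ∈ sec K z, t ∉ interior (Prod.fst '' K) ∧
      ∀ y ∈ sec K z, y ∉ interior (Prod.fst '' K) → Complex.normSq y ≤ Complex.normSq t := by
  have hcomp : IsCompact (sec K z ∩ (interior (Prod.fst '' K))ᶜ) :=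
    (sec_compact hc z).inter_right isOpen_interior.isClosed_compl
  obtain ⟨y, hy, hy1⟩ := h
  obtain ⟨t, ⟨ht, ht1⟩, hmax⟩ := hcomp.exists_isMaxOn ⟨y, hy, hy1⟩
    Complex.continuous_normSq.continuousOn
  exact ⟨t, ht, ht1, fun y hy hy1 => hmax ⟨hy, hy1⟩⟩

lemma beyond_coord {μ : ℂ} (hμ : μ ≠ 0) {A B : ℝ} (hS : 4 ≤ A + B)
    (h : ∃ k < 3, ∀ a b : ℝ, (e6 ^ 2) ^ k * μ = a • (A • μ + B • (e6 ^ 2 * μ)) +
      b • (e6 * (A • μ + B • (e6 ^ 2 * μ))) → 2 * a + b ≤ -1) : A = 2 ∧ B = 2 := by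
  obtain ⟨k, hk, hab⟩ := h
  have hN : 0 < A ^ 2 - A * B + B ^ 2 := by nlinarith [sq_nonneg (A - B), sq_nonneg (A + B)]
  set N := A ^ 2 - A * B + B ^ 2 with hNdef
  have hNc : (N : ℂ) ≠ 0 := by exact_mod_cast hN.ne'
  have hNc' : (N : ℂ) = A ^ 2 - A * B + B ^ 2 := by rw [hNdef]; push_cast; ring
  have h2 := e6_sq
  have h3 := e6_cube
  interval_cases k
  · have := hab (A / N) (-B / N) (by
      simp only [Complex.real_smul]
      push_cast
      field_simp
      rw [hNc']
      have e1 : e6 ^ 3 = -1 := e6_cube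
      ring_nf
      simp only [e6_cube, e6_sq]
      ring)
    exfalso
    have h4 : (2 * A - B) / N ≤ -1 := by
      calc (2 * A - B) / N = 2 * (A / N) + -B / N := by ring
        _ ≤ -1 := this
    rw [div_le_iff₀ hN] at h4
    nlinarith [sq_nonneg (A - B + 1), sq_nonneg (A - B)]
  · have := hab ((B - A) / N) (A / N) (by
      simp only [Complex.real_smul]
      push_cast
      field_simp
      rw [hNc']
      ring_nf
      simp only [e6_cube, e6_sq]
      ring)
    exfalso
    have h4 : (2 * B - A) / N ≤ -1 := by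
      calc (2 * B - A) / N = 2 * ((B - A) / N) + A / N := by ring
        _ ≤ -1 := this
    rw [div_le_iff₀ hN] at h4
    nlinarith [sq_nonneg (A - B - 1), sq_nonneg (A - B)]
  · have := hab (-B / N) ((B - A) / N) (by
      simp only [Complex.real_smul]
      push_cast
      field_simp
      rw [hNc']
      ring_nf
      simp only [e6_cube, e6_sq, e6_four]
      ring)
    have h4 : -(A + B) / N ≤ -1 := by
      calc -(A + B) / N = 2 * (-B / N) + (B - A) / N := by ring
        _ ≤ -1 := this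
    rw [div_le_iff₀ hN] at h4
    have h5 : 3 * (A - B) ^ 2 + (A + B) * (A + B - 4) ≤ 0 := by nlinarith
    have h6 : 0 ≤ (A + B) * (A + B - 4) := mul_nonneg (by linarith) (by linarith)
    have h7 : (A - B) ^ 2 = 0 := by
      apply le_antisymm _ (sq_nonneg _)
      nlinarith
    have h8 : A - B = 0 := by simpa using h7
    have h9 : A + B = 4 := by
      apply le_antisymm _ hS
      by_contra hc
      have := mul_pos (show 0 < A + B by linarith) (show 0 < A + B - 4 by linarith [not_le.1 hc])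
      nlinarith
    constructor <;> linarith

/-- **Order three.** -/
theorem cover3 (h : RotBody K (e6 ^ 2) (e6 ^ 2) a b) : CoverBy K 8 := by
  by_cases hA : ∀ x ∈ K, x.2 = a → x.1 ∈ interior (Prod.fst '' K)
  · exact cover3_I h (Or.inl hA)
  by_cases hB : ∀ x ∈ K, x.2 = b → x.1 ∈ interior (Prod.fst '' K)
  · exact cover3_I h (Or.inr hB)
  push Not at hA hB
  obtain ⟨xa, hxa, hxa2, hxa1⟩ := hA
  obtain ⟨xb, hxb, hxb2, hxb1⟩ := hB
  obtain ⟨ta, hta, hta1, hfara⟩ := exists_farthest h.compact (z := a)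
    ⟨xa.1, by rw [mem_sec, ← hxa2]; exact hxa, hxa1⟩
  obtain ⟨tb, htb, htb1, hfarb⟩ := exists_farthest h.compact (z := b)
    ⟨xb.1, by rw [mem_sec, ← hxb2]; exact hxb, hxb1⟩
  have htb0 := h.ne_zero_of_not_mem htb1
  have hconv := shadow_convex h
  have hinv := shadow_inv h
  have hint := h.shadow_int
  -- the same direction
  have key : ∀ t ∈ sec K a, t ∉ interior (Prod.fst '' K) →
      (∀ y ∈ sec K a, y ∉ interior (Prod.fst '' K) → Complex.normSq y ≤ Complex.normSq t) →
      ∀ ρ : ℝ, 0 ≤ ρ → t = ρ • tb → CoverBy K 8 := by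
    intro t ht ht1 hfar ρ hρ htρ
    have hρ0 : ρ ≠ 0 := by
      rintro rfl
      rw [zero_smul] at htρ
      exact h.ne_zero_of_not_mem ht1 htρ
    have hρpos : 0 < ρ := lt_of_le_of_ne hρ hρ0.symm
    have hρ1 : ρ = 1 := by
      apply le_antisymm
      · by_contra hc
        push Not at hc
        apply htb1
        have h1 : 1 / ρ < 1 := by rw [div_lt_one hρpos]; exact hc
        have := hconv.combo_interior_self_mem_interior hint (y := t) ⟨_, ht, rfl⟩
          (a := 1 - 1 / ρ) (b := 1 / ρ) (by linarith) (by positivity) (by ring)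
        rwa [htρ, smul_zero, zero_add, smul_smul, one_div, inv_mul_cancel₀ hρ0, one_smul] at this
      · by_contra hc
        push Not at hc
        apply ht1
        have := hconv.combo_interior_self_mem_interior hint (y := tb) ⟨_, htb, rfl⟩
          (a := 1 - ρ) (b := ρ) (by linarith) hρ (by ring)
        rwa [smul_zero, zero_add, ← htρ] at this
    rw [hρ1, one_smul] at htρ
    subst htρ
    -- the extent of the shadow
    obtain ⟨A, B, hA, hB, hAB⟩ := Spec.exists_coords htb0
    have hcomp : IsCompact (Prod.fst '' K) := h.compact.image continuous_fst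
    obtain ⟨q, hq, hmax⟩ := hcomp.exists_isMaxOn ⟨t, ⟨_, htb, rfl⟩⟩
      (hA.add hB).continuousOn
    rcases lt_or_ge (A q + B q) 4 with hM4 | hM4
    · refine cover3_IIb h htb ht ht1 hfarb hfar hM4 fun A' B' hq' => ?_
      have h1 := hmax hq'
      have h2 : A (A' • t + B' • (e6 ^ 2 * t)) + B (A' • t + B' • (e6 ^ 2 * t)) ≤ A q + B q := h1
      obtain ⟨h3, h4⟩ := coord3_unique htb0 (hAB (A' • t + B' • (e6 ^ 2 * t)))
      rw [← h3, ← h4] at h2
      exact h2
    · have hq0 : q ≠ 0 := by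
        rintro rfl
        have := hAB 0
        have h5 : (0 : ℂ) = (0 : ℝ) • t + (0 : ℝ) • (e6 ^ 2 * t) := by simp
        rw [h5] at this
        obtain ⟨h3, h4⟩ := coord3_unique htb0 this
        have h6 : (0 : ℝ) • t + (0 : ℝ) • (e6 ^ 2 * t) = 0 := by simp
        rw [h6] at h3 h4
        rw [← h3, ← h4] at hM4
        norm_num at hM4
      have hbey := exists_rot_beyond hconv hinv hq0 hq htb1
      have hqAB := hAB q
      rw [hqAB] at hbey
      obtain ⟨hA2, hB2⟩ := beyond_coord htb0 hM4 (by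
        obtain ⟨k, hk, hk2⟩ := hbey
        exact ⟨k, hk, hk2⟩)
      apply cover3_special (a := a) (b := b) (μ := t)
      refine ⟨h, htb, ht, ht1, ?_, hfarb, hfar⟩
      rw [hA2, hB2] at hqAB
      rw [← hqAB]
      exact hq
  -- the sector of `ta`
  obtain ⟨k, hk, α, β, hα, hβ, hz⟩ := exists_sector3 (ta / tb)
  have hrot : (e6 ^ 2) ^ (2 * k) * ta = α • tb + β • (e6 ^ 2 * tb) := by
    have h1 : ta = (ta / tb) * tb := by field_simp
    have h2 : (e6 ^ 2) ^ (2 * k) * (e6 ^ 2) ^ k = 1 := by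
      rw [← pow_add]
      have : 2 * k + k = 3 * k := by ring
      rw [this, pow_mul]
      have h4 : (e6 ^ 2) ^ 3 = 1 := by rw [← pow_mul]; exact e6_six
      rw [h4, one_pow]
    rw [h1, hz]
    simp only [Complex.real_smul]
    linear_combination ((α : ℂ) + β * e6 ^ 2) * tb * h2
  have hns : ∀ k : ℕ, Complex.normSq ((e6 ^ 2) ^ k * ta) = Complex.normSq ta := by
    intro k
    rw [Complex.normSq_mul, map_pow, map_pow, normSq_e6]
    simp
  have hsa : ∀ k : ℕ, (e6 ^ 2) ^ k * ta ∈ sec K a := fun k => rot_mem h hta k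
  have hni : ∀ k : ℕ, (e6 ^ 2) ^ k * ta ∉ interior (Prod.fst '' K) := fun k =>
    not_int_rotk hinv hta1 k
  have hfk : ∀ k : ℕ, ∀ y ∈ sec K a, y ∉ interior (Prod.fst '' K) →
      Complex.normSq y ≤ Complex.normSq ((e6 ^ 2) ^ k * ta) := by
    intro k y hy hy1
    rw [hns]
    exact hfara y hy hy1
  rcases hα.eq_or_lt with hα0 | hα0
  · -- `ta` rotated is `β ω tb`
    refine key _ (hsa (2 * k + 2)) (hni _) (hfk _) β hβ ?_
    have h4 : (e6 ^ 2) ^ 3 = 1 := by rw [← pow_mul]; exact e6_six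
    have h5 : (e6 ^ 2) ^ (2 * k + 2) * ta = (e6 ^ 2) ^ 2 * ((e6 ^ 2) ^ (2 * k) * ta) := by ring
    rw [h5, hrot, ← hα0]
    simp only [Complex.real_smul]
    push_cast
    linear_combination (β : ℂ) * tb * h4
  rcases hβ.eq_or_lt with hβ0 | hβ0
  · refine key _ (hsa (2 * k)) (hni _) (hfk _) α hα ?_
    rw [hrot, ← hβ0, zero_smul, add_zero]
  · exact cover3_IIa h htb htb1 hfarb (hsa (2 * k)) (hni _) (hfk _) hα0 hβ0 hrot

end Pool.Agent.Lib.HadwigerRot
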