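import Mathlib
import Pool.Agent.Lib.HadwigerRotCover
import Pool.Agent.Lib.HadwigerRotFour

/-!
# Three-dimensional bodies with a symmetry which is not an involution: reduction to a rotation
-/

set_option autoImplicit false
set_option linter.unusedSectionVars false

open Set Filter Topology Module

namespace Pool.Agent.Lib.HadwigerRot

open Pool.Agent.Lib.HadwigerIllum Pool.Agent.Lib.HadwigerPlane

section rot

variable {K : Set (ℂ × ℝ)}

lemma re_im_of_unit {ζ : ℂ} (h1 : Complex.normSq ζ = 1) : ζ.re ^ 2 + ζ.im ^ 2 = 1 := by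
  rw [Complex.normSq_apply] at h1
  nlinarith

/-- Some iterated square of a nonreal unit complex number has negative real part. -/
lemma exists_obtuse {ζ : ℂ} (h1 : Complex.normSq ζ = 1) (him : ζ.im ≠ 0) :
    ∃ j : ℕ, (ζ ^ j).re < 0 := by
  by_contra hcon
  push Not at hcon
  have hre : ζ.re < 1 := by
    have h2 := re_im_of_unit h1
    have h3 : 0 < ζ.im ^ 2 := by positivity
    nlinarith
  have hstep : ∀ m : ℕ, 2 ^ m * (1 - ζ.re) ≤ 1 - (ζ ^ (2 ^ m)).re := by
    intro m
    induction m with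
    | zero => simp
    | succ n ih =>
      have h2 : Complex.normSq (ζ ^ (2 ^ n)) = 1 := by rw [map_pow, h1, one_pow]
      have h3 := re_im_of_unit h2
      have h4 : ζ ^ (2 ^ (n + 1)) = ζ ^ (2 ^ n) * ζ ^ (2 ^ n) := by
        rw [← pow_add]; congr 1; ring
      have h5 : (ζ ^ (2 ^ (n + 1))).re = 2 * (ζ ^ (2 ^ n)).re ^ 2 - 1 := by
        rw [h4, Complex.mul_re]; nlinarith
      have h6 := hcon (2 ^ n)
      have h7 : (ζ ^ (2 ^ n)).re ≤ 1 := by nlinarith [sq_nonneg (ζ ^ (2 ^ n)).im]
      rw [h5, pow_succ]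
      nlinarith [mul_nonneg h6 (sub_nonneg.2 h7)]
  obtain ⟨m, hm⟩ := pow_unbounded_of_one_lt (1 / (1 - ζ.re)) (one_lt_two : (1 : ℝ) < 2)
  have h2 := hstep m
  have h3 := hcon (2 ^ m)
  rw [div_lt_iff₀ (by linarith)] at hm
  linarith

/-- Some small power of a nonreal unit complex number which is not a cube root of unity is nonreal
with nonnegative real part. -/
lemma exists_nonobtuse {ζ : ℂ} (h1 : Complex.normSq ζ = 1) (him : ζ.im ≠ 0) (h3 : ζ ^ 3 ≠ 1) :
    ∃ j : ℕ, 0 ≤ (ζ ^ j).re ∧ (ζ ^ j).im ≠ 0 := by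
  have h2 := re_im_of_unit h1
  by_cases c1 : 0 ≤ ζ.re
  · exact ⟨1, by simpa using c1, by simpa using him⟩
  push Not at c1
  have hz2re : (ζ ^ 2).re = ζ.re ^ 2 - ζ.im ^ 2 := by
    rw [pow_two, Complex.mul_re]; ring
  have hz2im : (ζ ^ 2).im = 2 * ζ.re * ζ.im := by
    rw [pow_two, Complex.mul_im]; ring
  by_cases c2 : 0 ≤ (ζ ^ 2).re
  · refine ⟨2, c2, ?_⟩
    rw [hz2im]
    exact mul_ne_zero (mul_ne_zero two_ne_zero c1.ne) him
  push Not at c2
  have hz3re : (ζ ^ 3).re = ζ.re * (ζ.re ^ 2 - 3 * ζ.im ^ 2) := by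
    rw [pow_succ, Complex.mul_re, hz2re, hz2im]; ring
  have hz3im : (ζ ^ 3).im = ζ.im * (3 * ζ.re ^ 2 - ζ.im ^ 2) := by
    rw [pow_succ, Complex.mul_im, hz2re, hz2im]; ring
  rw [hz2re] at c2
  have hre : 0 < (ζ ^ 3).re := by
    rw [hz3re]
    apply mul_pos_of_neg_of_neg c1
    nlinarith [sq_nonneg ζ.im]
  refine ⟨3, hre.le, fun h0 => h3 ?_⟩
  have h4 : Complex.normSq (ζ ^ 3) = 1 := by rw [map_pow, h1, one_pow]
  have h5 := re_im_of_unit h4
  rw [h0] at h5
  have h6 : (ζ ^ 3).re = 1 := by nlinarith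
  apply Complex.ext
  · rw [h6]; simp
  · rw [h0]; simp

/-- **Rotations.**  A convex body in `ℂ × ℝ` invariant under a rotation of the first factor which
is not an involution. -/
theorem cover_rot (hK : Convex ℝ K) (hc : IsCompact K) (hne : (interior K).Nonempty) {ζ : ℂ}
    (h1 : Complex.normSq ζ = 1) (him : ζ.im ≠ 0) (hinv : ∀ x ∈ K, (ζ * x.1, x.2) ∈ K)
    (hinv' : ∀ x ∈ K, ((starRingEnd ℂ) ζ * x.1, x.2) ∈ K) : CoverBy K 8 := by
  obtain ⟨a, b, ha, hb, hab⟩ := exists_heights hc (hne.mono interior_subset)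
  have hpow : ∀ j : ℕ, ∀ x ∈ K, (ζ ^ j * x.1, x.2) ∈ K := by
    intro j
    induction j with
    | zero => intro x hx; simpa using hx
    | succ n ih =>
      intro x hx
      have := hinv _ (ih x hx)
      convert this using 2
      ring
  have hpow' : ∀ j : ℕ, ∀ x ∈ K, ((starRingEnd ℂ) (ζ ^ j) * x.1, x.2) ∈ K := by
    intro j
    induction j with
    | zero => intro x hx; simpa using hx
    | succ n ih =>
      intro x hx
      have := hinv' _ (ih x hx)
      convert this using 2
      simp only [map_pow]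
      ring
  by_cases h3 : ζ ^ 3 = 1
  · have hs : Real.sqrt 3 ^ 2 = 3 := Real.sq_sqrt (by norm_num)
    have hre2 : (e6 ^ 2).re = -1 / 2 := by rw [e6_sq]; simp [e6]; norm_num
    have him2 : (e6 ^ 2).im = Real.sqrt 3 / 2 := by rw [e6_sq]; simp [e6]
    have hpos : 0 < Real.sqrt 3 := Real.sqrt_pos.2 (by norm_num)
    -- `ζ` is one of the two primitive cube roots of unity
    have hne1 : ζ ≠ 1 := by
      rintro rfl
      simp at him
    have hq : ζ ^ 2 + ζ + 1 = 0 := by
      have : (ζ - 1) * (ζ ^ 2 + ζ + 1) = 0 := by ring_nf; rw [h3]; ring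
      exact (mul_eq_zero.1 this).resolve_left (sub_ne_zero.2 hne1)
    have hq1 := congrArg Complex.re hq
    have hq2 := congrArg Complex.im hq
    simp only [pow_two, Complex.add_re, Complex.add_im, Complex.mul_re, Complex.mul_im,
      Complex.one_re, Complex.one_im, Complex.zero_re, Complex.zero_im] at hq1 hq2
    have hre : ζ.re = -1 / 2 := by
      have : ζ.im * (2 * ζ.re + 1) = 0 := by linarith
      rcases mul_eq_zero.1 this with h | h
      · exact absurd h him
      · linarith
    have himsq : (ζ.im - Real.sqrt 3 / 2) * (ζ.im + Real.sqrt 3 / 2) = 0 := by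
      rw [hre] at hq1
      nlinarith
    have hcases : ζ = e6 ^ 2 ∨ (starRingEnd ℂ) ζ = e6 ^ 2 := by
      rcases mul_eq_zero.1 himsq with h | h
      · left
        apply Complex.ext
        · rw [hre, hre2]
        · rw [him2]; linarith
      · right
        apply Complex.ext
        · rw [Complex.conj_re, hre, hre2]
        · rw [Complex.conj_im, him2]; linarith
    apply cover3 (a := a) (b := b)
    rcases hcases with h | h
    · exact ⟨hK, hc, hne, by rw [him2]; positivity, by rw [hre2]; norm_num,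
        by rw [← h]; exact hinv, by rw [← h]; exact hinv', by rw [← h]; exact hinv,
        by rw [← h]; exact hinv', ha, hb, hab⟩
    · have h' : (starRingEnd ℂ) (e6 ^ 2) = ζ := by rw [← h, Complex.conj_conj]
      exact ⟨hK, hc, hne, by rw [him2]; positivity, by rw [hre2]; norm_num,
        by rw [← h]; exact hinv', by rw [h']; exact hinv, by rw [← h]; exact hinv',
        by rw [h']; exact hinv, ha, hb, hab⟩
  · obtain ⟨j, hj1, hj2⟩ := exists_nonobtuse h1 him h3
    obtain ⟨i, hi⟩ := exists_obtuse h1 him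
    have hRB : RotBody K (ζ ^ j) (ζ ^ i) a b :=
      ⟨hK, hc, hne, hj2, hi, hpow j, hpow' j, hpow i, hpow' i, ha, hb, hab⟩
    refine cover_four hRB ?_ hj1
    have : Complex.normSq (ζ ^ j) = 1 := by rw [map_pow, h1, one_pow]
    exact re_im_of_unit this

end rot

end Pool.Agent.Lib.HadwigerRot
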