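import Mathlib
import Pool.Agent.Lib.HadwigerRotReduce

/-!
# Three-dimensional bodies with a symmetry which is not an involution: linear algebra
-/

set_option autoImplicit false
set_option linter.unusedSectionVars false

open Set Filter Topology Module

namespace Pool.Agent.Lib.HadwigerRot

open Pool.Agent.Lib.HadwigerIllum Pool.Agent.Lib.HadwigerPlane

lemma eq_zero_of_bounded {F : Type*} [NormedAddCommGroup F] [NormedSpace ℝ F] {u v : F} {C : ℝ}
    (h : ∀ n : ℕ, ‖u + (n : ℝ) • v‖ ≤ C) : v = 0 := by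
  by_contra hv
  have hv' : 0 < ‖v‖ := norm_pos_iff.2 hv
  obtain ⟨n, hn⟩ := exists_nat_gt ((C + ‖u‖) / ‖v‖)
  have h1 := h n
  have h2 : (n : ℝ) * ‖v‖ ≤ C + ‖u‖ := by
    calc (n : ℝ) * ‖v‖ = ‖(n : ℝ) • v‖ := by rw [norm_smul]; simp
      _ = ‖(u + (n : ℝ) • v) - u‖ := by congr 1; abel
      _ ≤ ‖u + (n : ℝ) • v‖ + ‖u‖ := norm_sub_le _ _
      _ ≤ C + ‖u‖ := by linarith
  rw [div_lt_iff₀ hv'] at hn
  linarith

lemma le_one_of_bounded {r m C : ℝ} (hm : 0 < m) (h : ∀ n : ℕ, r ^ n * m ≤ C) : r ≤ 1 := by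
  by_contra hc
  push Not at hc
  obtain ⟨n, hn⟩ := pow_unbounded_of_one_lt (C / m) hc
  have := h n
  rw [div_lt_iff₀ hm] at hn
  linarith

variable {E : Type*} [NormedAddCommGroup E] [NormedSpace ℝ E] [FiniteDimensional ℝ E]

/-- Normal form of a linear automorphism of a 3-dimensional space with bounded powers, positive
determinant and nontrivial square. -/
theorem exists_normal_form (hd : finrank ℝ E = 3) (L : E ≃ₗ[ℝ] E) {C : ℝ}
    (hC : ∀ (n : ℕ) (x : E), ‖(L : E → E)^[n] x‖ ≤ C * ‖x‖)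
    (hC' : ∀ (n : ℕ) (x : E), ‖(L.symm : E → E)^[n] x‖ ≤ C * ‖x‖)
    (h2 : ∃ x, L (L x) ≠ x) (hdet : 0 < LinearMap.det (L : E →ₗ[ℝ] E)) :
    ∃ ζ : ℂ, ζ.im ≠ 0 ∧ Complex.normSq ζ = 1 ∧ ∃ Ψ : E ≃ₗ[ℝ] ℂ × ℝ,
      ∀ x, Ψ (L x) = (ζ * (Ψ x).1, (Ψ x).2) := by
  classical
  -- the pullback on complex functionals
  let T : (E →ₗ[ℝ] ℂ) →ₗ[ℂ] (E →ₗ[ℝ] ℂ) :=
    { toFun := fun Φ => Φ.comp (L : E →ₗ[ℝ] E)
      map_add' := fun Φ Ψ => by ext x; simp
      map_smul' := fun c Φ => by ext x; simp }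
  have hT : ∀ Φ x, T Φ x = Φ (L x) := fun Φ x => rfl
  let N : (E →ₗ[ℝ] ℂ) →ₗ[ℂ] (E →ₗ[ℝ] ℂ) := T.comp T - LinearMap.id
  have hN : ∀ Φ x, N Φ x = Φ (L (L x)) - Φ x := fun Φ x => rfl
  have hW : Nontrivial (LinearMap.range N) := by
    obtain ⟨x, hx⟩ := h2
    have hx' : L (L x) - x ∉ (⊥ : Submodule ℝ E) := by
      rw [Submodule.mem_bot]; exact sub_ne_zero.2 hx
    obtain ⟨f, hf, -⟩ := Submodule.exists_le_ker_of_notMem hx'
    rw [Submodule.nontrivial_iff_ne_bot]
    intro hbot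
    have h3 : N ((Complex.ofRealCLM : ℝ →ₗ[ℝ] ℂ).comp f) ∈ LinearMap.range N := ⟨_, rfl⟩
    rw [hbot, Submodule.mem_bot] at h3
    have h4 := congrArg (fun Φ : E →ₗ[ℝ] ℂ => Φ x) h3
    simp only [hN, LinearMap.comp_apply, LinearMap.zero_apply] at h4
    apply hf
    rw [map_sub]
    have h5 : ((f (L (L x)) : ℝ) : ℂ) - ((f x : ℝ) : ℂ) = 0 := h4
    exact_mod_cast h5
  have hTW : ∀ w ∈ LinearMap.range N, T w ∈ LinearMap.range N := by
    rintro _ ⟨Φ, rfl⟩
    exact ⟨T Φ, by ext x; simp [hN, hT]⟩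
  obtain ⟨ζ, hζ⟩ := Module.End.exists_eigenvalue (T.restrict hTW)
  obtain ⟨⟨Φ, hΦW⟩, hΦ⟩ := hζ.exists_hasEigenvector
  have hΦ1 := hΦ.apply_eq_smul
  have hΦ0 : Φ ≠ 0 := fun h => hΦ.2 (Subtype.ext h)
  have hΦL : ∀ x, Φ (L x) = ζ * Φ x := by
    intro x
    have h3 : T Φ = ζ • Φ := congrArg Subtype.val hΦ1
    have h4 := congrArg (fun Ψ : E →ₗ[ℝ] ℂ => Ψ x) h3
    simpa [hT] using h4
  obtain ⟨Φ', hΦ'⟩ := hΦW
  have hΦΦ' : ∀ x, Φ' (L (L x)) = Φ' x + Φ x := by
    intro x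
    rw [← hΦ', hN]; ring
  obtain ⟨x₀, hx₀⟩ : ∃ x, Φ x ≠ 0 := by
    by_contra hcon
    push Not at hcon
    exact hΦ0 (LinearMap.ext hcon)
  have hΦiter : ∀ (n : ℕ) x, Φ ((L : E → E)^[n] x) = ζ ^ n * Φ x := by
    intro n
    induction n with
    | zero => intro x; simp
    | succ n ih =>
      intro x
      rw [Function.iterate_succ_apply', hΦL, ih, pow_succ]
      ring
  -- norm bound of functionals
  have hbdd : ∀ Φ : E →ₗ[ℝ] ℂ, ∃ M : ℝ, 0 ≤ M ∧ ∀ x, ‖Φ x‖ ≤ M * ‖x‖ := fun Φ =>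
    ⟨‖Φ.toContinuousLinearMap‖, norm_nonneg _, fun x => Φ.toContinuousLinearMap.le_opNorm x⟩
  have hCnn : 0 ≤ C := by
    by_contra hcon
    push Not at hcon
    have h3 := hC 0 x₀
    simp only [Function.iterate_zero, id_eq] at h3
    have h4 : 0 < ‖x₀‖ := norm_pos_iff.2 (by rintro rfl; simp at hx₀)
    nlinarith
  -- `ζ` is a unit complex number
  have hζ0 : ζ ≠ 0 := by
    rintro rfl
    apply hx₀
    have := hΦL (L.symm x₀)
    simpa using this
  have hζle : ‖ζ‖ ≤ 1 := by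
    obtain ⟨M, hM0, hM⟩ := hbdd Φ
    refine le_one_of_bounded (m := ‖Φ x₀‖) (C := M * (C * ‖x₀‖)) (norm_pos_iff.2 hx₀) fun n => ?_
    rw [← norm_pow, ← norm_mul, ← hΦiter]
    exact (hM _).trans (mul_le_mul_of_nonneg_left (hC n x₀) hM0)
  have hΦiter' : ∀ (n : ℕ) x, Φ ((L.symm : E → E)^[n] x) = (ζ⁻¹) ^ n * Φ x := by
    intro n
    induction n with
    | zero => intro x; simp
    | succ n ih =>
      intro x
      have h3 : ∀ y, Φ (L.symm y) = ζ⁻¹ * Φ y := by
        intro y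
        have := hΦL (L.symm y)
        rw [L.apply_symm_apply] at this
        rw [this, inv_mul_cancel_left₀ hζ0]
      rw [Function.iterate_succ_apply', h3, ih, pow_succ]
      ring
  have hζge : ‖ζ⁻¹‖ ≤ 1 := by
    obtain ⟨M, hM0, hM⟩ := hbdd Φ
    refine le_one_of_bounded (m := ‖Φ x₀‖) (C := M * (C * ‖x₀‖)) (norm_pos_iff.2 hx₀) fun n => ?_
    rw [← norm_pow, ← norm_mul, ← hΦiter']
    exact (hM _).trans (mul_le_mul_of_nonneg_left (hC' n x₀) hM0)
  have hζ1 : ‖ζ‖ = 1 := by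
    apply le_antisymm hζle
    rw [norm_inv] at hζge
    have hpos : 0 < ‖ζ‖ := norm_pos_iff.2 hζ0
    rwa [inv_le_one₀ hpos] at hζge
  have hζsq : ζ ^ 2 ≠ 1 := by
    intro hsq
    apply hx₀
    have hit : ∀ n : ℕ, Φ' ((L : E → E)^[2 * n] x₀) = Φ' x₀ + (n : ℝ) • Φ x₀ := by
      intro n
      induction n with
      | zero => simp
      | succ n ih =>
        have h3 : 2 * (n + 1) = (2 * n + 1) + 1 := by ring
        rw [h3, Function.iterate_succ_apply', Function.iterate_succ_apply', hΦΦ', ih, hΦiter,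
          pow_mul, hsq, one_pow, one_mul]
        push_cast
        module
    obtain ⟨M, hM0, hM⟩ := hbdd Φ'
    refine eq_zero_of_bounded (u := Φ' x₀) (C := M * (C * ‖x₀‖)) fun n => ?_
    rw [← hit]
    exact (hM _).trans (mul_le_mul_of_nonneg_left (hC _ x₀) hM0)
  have hζn : Complex.normSq ζ = 1 := by
    rw [Complex.normSq_eq_norm_sq, hζ1, one_pow]
  have hζim : ζ.im ≠ 0 := by
    intro him
    apply hζsq
    have h3 := re_im_of_unit hζn
    rw [him] at h3
    apply Complex.ext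
    · rw [pow_two, Complex.mul_re, him, Complex.one_re]; nlinarith
    · rw [pow_two, Complex.mul_im, him, Complex.one_im]; ring
  -- the kernel of `Φ` is a line
  have hsurj : LinearMap.range Φ = ⊤ := by
    rw [eq_top_iff]
    rintro z -
    -- coordinates in the basis `Φ x₀, ζ Φ x₀`
    set q := z / Φ x₀ with hq
    have hz : z = q * Φ x₀ := by rw [hq]; field_simp
    refine ⟨(q.re - q.im * ζ.re / ζ.im) • x₀ + (q.im / ζ.im) • L x₀, ?_⟩
    rw [map_add, map_smul, map_smul, hΦL, hz]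
    simp only [Complex.real_smul]
    have h3 : (((q.re - q.im * ζ.re / ζ.im : ℝ) : ℂ) + ((q.im / ζ.im : ℝ) : ℂ) * ζ) = q := by
      apply Complex.ext
      · simp; field_simp; ring
      · simp; field_simp
    linear_combination (Φ x₀) * h3
  have hker : finrank ℝ (LinearMap.ker Φ) = 1 := by
    have h3 := LinearMap.finrank_range_add_finrank_ker Φ
    rw [hsurj, finrank_top, hd, Complex.finrank_real_complex] at h3
    omega
  obtain ⟨⟨e, heK⟩, he0, hespan⟩ := finrank_eq_one_iff'.1 hker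
  have he0' : e ≠ 0 := fun h => he0 (Subtype.ext h)
  have heΦ : Φ e = 0 := heK
  have hspan : ∀ x, Φ x = 0 → ∃ c : ℝ, c • e = x := by
    intro x hx
    obtain ⟨c, hc⟩ := hespan ⟨x, hx⟩
    exact ⟨c, congrArg Subtype.val hc⟩
  obtain ⟨l, hl⟩ := hspan (L e) (by rw [hΦL, heΦ, mul_zero])
  have heit : ∀ n : ℕ, (L : E → E)^[n] e = l ^ n • e := by
    intro n
    induction n with
    | zero => simp
    | succ n ih =>
      rw [Function.iterate_succ_apply', ih, map_smul, ← hl, smul_smul, pow_succ]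
  have hl0 : l ≠ 0 := by
    rintro rfl
    rw [zero_smul] at hl
    exact he0' (L.map_eq_zero_iff.1 hl.symm)
  have heit' : ∀ n : ℕ, (L.symm : E → E)^[n] e = l⁻¹ ^ n • e := by
    have h3 : L.symm e = l⁻¹ • e := by
      rw [L.symm_apply_eq, map_smul, ← hl, smul_smul, inv_mul_cancel₀ hl0, one_smul]
    intro n
    induction n with
    | zero => simp
    | succ n ih =>
      rw [Function.iterate_succ_apply', ih, map_smul, h3, smul_smul, pow_succ]
  have hene : 0 < ‖e‖ := norm_pos_iff.2 he0'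
  have hlle : |l| ≤ 1 := by
    refine le_one_of_bounded (m := ‖e‖) (C := C * ‖e‖) hene fun n => ?_
    rw [← abs_pow, ← Real.norm_eq_abs, ← norm_smul, ← heit]
    exact hC n e
  have hlge : |l⁻¹| ≤ 1 := by
    refine le_one_of_bounded (m := ‖e‖) (C := C * ‖e‖) hene fun n => ?_
    rw [← abs_pow, ← Real.norm_eq_abs, ← norm_smul, ← heit']
    exact hC' n e
  have hlabs : |l| = 1 := by
    apply le_antisymm hlle
    rw [abs_inv] at hlge
    rwa [inv_le_one₀ (abs_pos.2 hl0)] at hlge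
  -- a functional with eigenvalue `l`
  have hnot : e ∉ LinearMap.range ((L : E →ₗ[ℝ] E) - l • LinearMap.id) := by
    rintro ⟨x, hx⟩
    have hx' : L x = l • x + e := by
      have : L x - l • x = e := hx
      rw [← this]; abel
    apply he0'
    have hit : ∀ n : ℕ, (L : E → E)^[n] x = l ^ n • (x + (n : ℝ) • (l⁻¹ • e)) := by
      intro n
      induction n with
      | zero => simp
      | succ n ih =>
        rw [Function.iterate_succ_apply', ih, map_smul, map_add, map_smul, map_smul, hx', ← hl,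
          smul_smul l⁻¹ l, inv_mul_cancel₀ hl0, one_smul, pow_succ, mul_smul]
        congr 1
        simp only [smul_add, smul_smul]
        push_cast
        rw [show l * (((n : ℝ) + 1) * l⁻¹) = (n : ℝ) + 1 by field_simp]
        module
    have h3 : l⁻¹ • e = 0 := by
      refine eq_zero_of_bounded (u := x) (C := C * ‖x‖) fun n => ?_
      have h4 := hC n x
      rw [hit, norm_smul, norm_pow, Real.norm_eq_abs, hlabs, one_pow, one_mul] at h4
      exact h4
    exact (smul_eq_zero.1 h3).resolve_left (inv_ne_zero hl0)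
  obtain ⟨f, hf, hfr⟩ := Submodule.exists_le_ker_of_notMem hnot
  have hfL : ∀ x, f (L x) = l * f x := by
    intro x
    have h3 : ((L : E →ₗ[ℝ] E) - l • LinearMap.id : E →ₗ[ℝ] E) x ∈ LinearMap.ker f :=
      hfr ⟨x, rfl⟩
    have h4 : f (L x - l • x) = 0 := h3
    rw [map_sub, map_smul, smul_eq_mul] at h4
    linarith
  -- the isomorphism
  let Ψ₀ : E →ₗ[ℝ] ℂ × ℝ := Φ.prod f
  have hinj : Function.Injective Ψ₀ := by
    rw [← LinearMap.ker_eq_bot, LinearMap.ker_eq_bot']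
    intro x hx
    have h3 : Φ x = 0 := congrArg Prod.fst hx
    have h4 : f x = 0 := congrArg Prod.snd hx
    obtain ⟨c, rfl⟩ := hspan x h3
    rw [map_smul, smul_eq_mul] at h4
    rcases mul_eq_zero.1 h4 with h5 | h5
    · rw [h5, zero_smul]
    · exact absurd h5 hf
  have hfin : finrank ℝ E = finrank ℝ (ℂ × ℝ) := by
    rw [hd, finrank_prod, Complex.finrank_real_complex, finrank_self]
  let Ψ : E ≃ₗ[ℝ] ℂ × ℝ := LinearMap.linearEquivOfInjective Ψ₀ hinj hfin
  have hΨ : ∀ x, Ψ x = (Φ x, f x) := fun x => rfl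
  have hΨL : ∀ x, Ψ (L x) = (ζ * (Ψ x).1, l * (Ψ x).2) := by
    intro x
    rw [hΨ, hΨ, hΦL, hfL]
  -- the sign of `l`
  have hl1 : l = 1 := by
    have h3 : LinearMap.det (Ψ.toLinearMap ∘ₗ (L : E →ₗ[ℝ] E) ∘ₗ Ψ.symm.toLinearMap) =
        LinearMap.det (L : E →ₗ[ℝ] E) := LinearMap.det_conj _ Ψ
    have h4 : Ψ.toLinearMap ∘ₗ (L : E →ₗ[ℝ] E) ∘ₗ Ψ.symm.toLinearMap =
        LinearMap.prodMap (LinearMap.mulLeft ℝ ζ) (l • LinearMap.id) := by
      apply LinearMap.ext
      intro p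
      simp only [LinearMap.comp_apply, LinearEquiv.coe_coe]
      rw [hΨL, Ψ.apply_symm_apply]
      simp
    rw [h4, LinearMap.det_prodMap] at h3
    have h5 : LinearMap.det (LinearMap.mulLeft ℝ ζ) = 1 := by
      have := Algebra.norm_complex_apply ζ
      rw [Algebra.norm_apply, hζn] at this
      exact this
    have h6 : LinearMap.det (l • (LinearMap.id : ℝ →ₗ[ℝ] ℝ)) = l := by
      rw [LinearMap.det_smul]; simp
    rw [h5, h6, one_mul] at h3
    rw [← h3] at hdet
    rwa [abs_of_pos hdet] at hlabs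
  refine ⟨ζ, hζim, hζn, Ψ, fun x => ?_⟩
  rw [hΨL, hl1, one_mul]

lemma iterate_affine (g : E ≃ᵃ[ℝ] E) (n : ℕ) (p v : E) :
    (g : E → E)^[n] (v + p) = (g.linear : E → E)^[n] v + (g : E → E)^[n] p := by
  induction n with
  | zero => simp
  | succ n ih =>
    rw [Function.iterate_succ_apply', ih, Function.iterate_succ_apply',
      Function.iterate_succ_apply']
    have := g.map_vadd ((g : E → E)^[n] p) ((g.linear : E → E)^[n] v)
    simpa using this

lemma iterate_linear (L : E ≃ₗ[ℝ] E) (n : ℕ) (c : ℝ) (v : E) :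
    (L : E → E)^[n] (c • v) = c • (L : E → E)^[n] v := by
  induction n with
  | zero => simp
  | succ n ih => rw [Function.iterate_succ_apply', ih, map_smul, Function.iterate_succ_apply']

lemma iterate_mem {K : Set E} {g : E → E} (hg : ∀ x ∈ K, g x ∈ K) (n : ℕ) {x : E} (hx : x ∈ K) :
    g^[n] x ∈ K := by
  induction n with
  | zero => simpa using hx
  | succ n ih => rw [Function.iterate_succ_apply']; exact hg _ ih

/-- The linear part of an affine symmetry of a body has bounded powers. -/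
lemma bounded_powers {K : Set E} (hc : IsCompact K) (hne : (interior K).Nonempty) :
    ∃ C : ℝ, ∀ g : E ≃ᵃ[ℝ] E, (∀ x ∈ K, g x ∈ K) → ∀ (n : ℕ) (x : E),
      ‖(g.linear : E → E)^[n] x‖ ≤ C * ‖x‖ := by
  obtain ⟨p, hp⟩ := hne
  obtain ⟨r, hr, hball⟩ := Metric.isOpen_iff.1 isOpen_interior p hp
  obtain ⟨R, hR⟩ := hc.isBounded.exists_norm_le
  refine ⟨4 * R / r, fun g hg n x => ?_⟩
  rcases eq_or_ne x 0 with rfl | hx
  · have : (g.linear : E → E)^[n] 0 = 0 := by
      have := iterate_linear g.linear n 0 0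
      simpa using this
    rw [this]; simp
  have hx' : 0 < ‖x‖ := norm_pos_iff.2 hx
  set v := (r / 2 / ‖x‖) • x with hv
  have hvn : ‖v‖ = r / 2 := by
    rw [hv, norm_smul, Real.norm_eq_abs, abs_of_pos (by positivity)]
    field_simp
  have hmem : v + p ∈ K := by
    apply interior_subset
    apply hball
    rw [Metric.mem_ball, dist_eq_norm, add_sub_cancel_right, hvn]
    linarith
  have h1 := hR _ (iterate_mem hg n hmem)
  have h2 := hR _ (iterate_mem hg n (interior_subset hp))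
  rw [iterate_affine] at h1
  have h3 : ‖(g.linear : E → E)^[n] v‖ ≤ 2 * R := by
    calc ‖(g.linear : E → E)^[n] v‖ = ‖((g.linear : E → E)^[n] v + (g : E → E)^[n] p) -
          (g : E → E)^[n] p‖ := by congr 1; abel
      _ ≤ _ := norm_sub_le _ _
      _ ≤ 2 * R := by linarith
  have h4 : x = (2 * ‖x‖ / r) • v := by
    rw [hv, smul_smul]
    have : 2 * ‖x‖ / r * (r / 2 / ‖x‖) = 1 := by field_simp
    rw [this, one_smul]
  conv_lhs => rw [h4, iterate_linear, norm_smul, Real.norm_eq_abs,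
    abs_of_pos (show 0 < 2 * ‖x‖ / r by positivity)]
  calc 2 * ‖x‖ / r * ‖(g.linear : E → E)^[n] v‖ ≤ 2 * ‖x‖ / r * (2 * R) := by gcongr
    _ = 4 * R / r * ‖x‖ := by ring

/-- **Orientation preserving symmetries.** -/
theorem cover_of_symmetry (hd : finrank ℝ E = 3) {K : Set E} (hK : Convex ℝ K) (hc : IsCompact K)
    (hne : (interior K).Nonempty) (g : E ≃ᵃ[ℝ] E) (hg : g '' K = K)
    (hdet : 0 < LinearMap.det (g.linear : E →ₗ[ℝ] E)) (h2 : ∃ x, g (g x) ≠ x) : CoverBy K 8 := by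
  have hgK : ∀ x ∈ K, g x ∈ K := fun x hx => by rw [← hg]; exact ⟨x, hx, rfl⟩
  have hgK' : ∀ x ∈ K, g.symm x ∈ K := by
    intro x hx
    rw [← hg] at hx
    obtain ⟨y, hy, rfl⟩ := hx
    rwa [g.symm_apply_apply]
  obtain ⟨C, hC⟩ := bounded_powers hc hne
  obtain ⟨R, hR⟩ := hc.isBounded.exists_norm_le
  obtain ⟨p, hp⟩ := hne
  have hpK := interior_subset hp
  have hadd : ∀ v x : E, g (v + x) = g.linear v + g x := fun v x => g.map_vadd x v
  have h2' : ∃ x, g.linear (g.linear x) ≠ x := by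
    by_contra hcon
    push Not at hcon
    obtain ⟨x, hx⟩ := h2
    apply hx
    have h3 : ∀ y, g (g y) = y + (g (g 0)) := by
      intro y
      have := hadd y 0
      rw [add_zero] at this
      rw [this, hadd, hcon]
    have hit : ∀ n : ℕ, (g : E → E)^[2 * n] p = p + (n : ℝ) • (g (g 0)) := by
      intro n
      induction n with
      | zero => simp
      | succ n ih =>
        have h4 : 2 * (n + 1) = (2 * n + 1) + 1 := by ring
        rw [h4, Function.iterate_succ_apply', Function.iterate_succ_apply', h3, ih]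
        push_cast
        module
    have h5 : g (g 0) = 0 := by
      refine eq_zero_of_bounded (u := p) (C := R) fun n => ?_
      rw [← hit]
      exact hR _ (iterate_mem hgK _ hpK)
    rw [h3, h5, add_zero]
  have hsymm : g.symm.linear = g.linear.symm := rfl
  obtain ⟨ζ, hζim, hζn, Ψ, hΨ⟩ := exists_normal_form hd g.linear (hC g hgK) (by
    have := hC g.symm hgK'
    rwa [hsymm] at this) h2' hdet
  -- the translation part
  set w := (Ψ (g 0)).1 with hw
  have hgx : ∀ x, Ψ (g x) = (ζ * (Ψ x).1 + w, (Ψ x).2 + (Ψ (g 0)).2) := by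
    intro x
    have := hadd x 0
    rw [add_zero] at this
    rw [this, map_add, hΨ]
    rfl
  have hs : (Ψ (g 0)).2 = 0 := by
    have hit : ∀ n : ℕ, (Ψ ((g : E → E)^[n] p)).2 = (Ψ p).2 + (n : ℝ) • (Ψ (g 0)).2 := by
      intro n
      induction n with
      | zero => simp
      | succ n ih =>
        rw [Function.iterate_succ_apply', hgx]
        show (Ψ ((g : E → E)^[n] p)).2 + (Ψ (g 0)).2 = _
        rw [ih]
        push_cast
        module
    have hcomp : IsCompact ((fun x => (Ψ x).2) '' K) :=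
      hc.image (continuous_snd.comp Ψ.toContinuousLinearEquiv.continuous)
    obtain ⟨R', hR'⟩ := hcomp.isBounded.exists_norm_le
    refine eq_zero_of_bounded (u := (Ψ p).2) (C := R') fun n => ?_
    rw [← hit]
    exact hR' _ ⟨_, iterate_mem hgK n hpK, rfl⟩
  have h1ζ : 1 - ζ ≠ 0 := by
    intro h
    apply hζim
    have : ζ = 1 := by linear_combination -h
    rw [this]; simp
  set c := w / (1 - ζ) with hcdef
  have hcw : w = (1 - ζ) * c := by rw [hcdef]; field_simp
  let Ψc := Ψ.toContinuousLinearEquiv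
  have hΨc : ∀ x, Ψc x = Ψ x := fun x => rfl
  let K' : Set (ℂ × ℝ) := (fun y => ((-c, 0) : ℂ × ℝ) + y) '' (Ψc '' K)
  have hstep : ∀ x, ((-c, 0) : ℂ × ℝ) + Ψc (g x) =
      (ζ * (((-c, 0) : ℂ × ℝ) + Ψc x).1, (((-c, 0) : ℂ × ℝ) + Ψc x).2) := by
    intro x
    rw [hΨc, hΨc, hgx, hs]
    ext1
    · simp only [Prod.fst_add]
      rw [hcw]; ring
    · simp
  have hK' : CoverBy K' 8 := by
    refine cover_rot ?_ ?_ ?_ hζn hζim ?_ ?_
    · exact (hK.linear_image (Ψc : E →ₗ[ℝ] ℂ × ℝ)).translate _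
    · exact (hc.image Ψc.continuous).image (by fun_prop)
    · have h3 : (interior (Ψc '' K)).Nonempty := by
        have h4 : Ψc '' interior K = interior (Ψc '' K) := Ψc.toHomeomorph.image_interior K
        rw [← h4]
        exact ⟨_, mem_image_of_mem _ hp⟩
      have h5 : (fun y => ((-c, 0) : ℂ × ℝ) + y) '' interior (Ψc '' K) =
          interior ((fun y => ((-c, 0) : ℂ × ℝ) + y) '' (Ψc '' K)) :=
        (Homeomorph.addLeft ((-c, 0) : ℂ × ℝ)).image_interior (Ψc '' K)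
      show (interior ((fun y => ((-c, 0) : ℂ × ℝ) + y) '' (Ψc '' K))).Nonempty
      rw [← h5]
      exact h3.image _
    · rintro _ ⟨_, ⟨x, hx, rfl⟩, rfl⟩
      exact ⟨_, ⟨g x, hgK x hx, rfl⟩, hstep x⟩
    · rintro _ ⟨_, ⟨x, hx, rfl⟩, rfl⟩
      refine ⟨_, ⟨g.symm x, hgK' x hx, rfl⟩, ?_⟩
      have h3 := hstep (g.symm x)
      rw [g.apply_symm_apply] at h3
      show ((-c, 0) : ℂ × ℝ) + Ψc (g.symm x) =
        ((starRingEnd ℂ) ζ * (((-c, 0) : ℂ × ℝ) + Ψc x).1, (((-c, 0) : ℂ × ℝ) + Ψc x).2)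
      rw [h3]
      have h4 : (starRingEnd ℂ) ζ * ζ = 1 := by
        rw [mul_comm, Complex.mul_conj, hζn]; simp
      ext1
      · show _ = (starRingEnd ℂ) ζ * (ζ * (((-c, 0) : ℂ × ℝ) + Ψc (g.symm x)).1)
        rw [← mul_assoc, h4, one_mul]
      · rfl
  have h6 := (Pool.Agent.Lib.HadwigerPlane.CoverBy.translate hK' ((c, 0) : ℂ × ℝ)).image Ψc.symm
  have h7 : Ψc.symm '' ((fun y => ((c, 0) : ℂ × ℝ) + y) '' K') = K := by
    simp only [K', image_image]
    convert image_id K with x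
    have : ((c, 0) : ℂ × ℝ) + (((-c, 0) : ℂ × ℝ) + Ψc x) = Ψc x := by
      ext1
      · simp
      · simp
    rw [this, Ψc.symm_apply_apply]; rfl
  rwa [h7] at h6

/-- **Symmetries whose fourth power is not the identity.** -/
theorem cover_of_fourth (hd : finrank ℝ E = 3) {K : Set E} (hK : Convex ℝ K) (hc : IsCompact K)
    (hne : (interior K).Nonempty) (g : E ≃ᵃ[ℝ] E) (hg : g '' K = K)
    (h4 : ∃ x, g (g (g (g x))) ≠ x) : CoverBy K 8 := by
  refine cover_of_symmetry hd hK hc hne (g.trans g) ?_ ?_ ?_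
  · have : ⇑(g.trans g) = g ∘ g := rfl
    rw [this, image_comp, hg, hg]
  · have h1 : ((g.trans g).linear : E →ₗ[ℝ] E) =
        (g.linear : E →ₗ[ℝ] E) ∘ₗ (g.linear : E →ₗ[ℝ] E) := rfl
    rw [h1, LinearMap.det_comp]
    have h2 : LinearMap.det (g.linear : E →ₗ[ℝ] E) ≠ 0 := (LinearEquiv.isUnit_det' g.linear).ne_zero
    exact mul_self_pos.2 h2
  · obtain ⟨x, hx⟩ := h4
    exact ⟨x, hx⟩

end Pool.Agent.Lib.HadwigerRot
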