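import Mathlib
import Pool.Agent.Lib.HadwigerIllum
import Pool.Agent.Lib.HadwigerPlane
import Pool.Agent.Lib.HadwigerBlocks

/-!
# Convex bodies every point of which lies in a homothet of a fixed lower-dimensional body
-/

set_option autoImplicit false
set_option linter.unusedSectionVars false

open Set Filter Topology Module

namespace Pool.Agent.Lib.HadwigerSummand

open Pool.Agent.Lib.HadwigerIllum Pool.Agent.Lib.HadwigerPlane

variable {E : Type*} [NormedAddCommGroup E] [InnerProductSpace ℝ E] [FiniteDimensional ℝ E]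

/-- The directions. -/
noncomputable def dirs (F : Submodule ℝ E) (T : Finset F) (S : Finset Fᗮ) (n : ℕ) : Finset E :=
  open Classical in
  (T ×ˢ S).image fun q => -((q.1 : E) + (1 / ((n : ℝ) + 1)) • (q.2 : E))

/-- A linear functional on a normed space which attains its maximum over a set at an interior
point vanishes. -/
lemma vanish_of_max {V : Type*} [NormedAddCommGroup V] [NormedSpace ℝ V] (g : V →L[ℝ] ℝ)
    {M : Set V} {m : V} (hm : m ∈ interior M) (hmax : ∀ y ∈ M, g y ≤ g m) : g = 0 := by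
  ext v
  have hcont : Tendsto (fun ε : ℝ => m + ε • v) (𝓝[>] 0) (𝓝 (m + (0 : ℝ) • v)) :=
    (Continuous.tendsto (by fun_prop) 0).mono_left nhdsWithin_le_nhds
  rw [zero_smul, add_zero] at hcont
  have hcont' : Tendsto (fun ε : ℝ => m + ε • (-v)) (𝓝[>] 0) (𝓝 (m + (0 : ℝ) • (-v))) :=
    (Continuous.tendsto (by fun_prop) 0).mono_left nhdsWithin_le_nhds
  rw [zero_smul, add_zero] at hcont'
  have hn : M ∈ 𝓝 m := mem_interior_iff_mem_nhds.1 hm
  have hev := (hcont.eventually hn).and ((hcont'.eventually hn).and self_mem_nhdsWithin)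
  obtain ⟨ε, h1, h2, h3⟩ := hev.exists
  have h3' : 0 < ε := h3
  have a1 := hmax _ h1
  have a2 := hmax _ h2
  simp only [map_add, map_smul, map_neg, smul_eq_mul] at a1 a2
  have b1 : g v ≤ 0 := by
    by_contra hcon
    have := mul_pos h3' (not_le.1 hcon)
    linarith
  have b2 : 0 ≤ g v := by
    by_contra hcon
    have := mul_neg_of_pos_of_neg h3' (not_le.1 hcon)
    linarith
  simpa using le_antisymm b1 b2

theorem coverBy_summand {K : Set E} (hK : Convex ℝ K) (hc : IsCompact K)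
    (hne : (interior K).Nonempty) (F : Submodule ℝ E) {M : Set F} (hMc : IsCompact M)
    (hfib : ∀ x ∈ K, ∃ l : E, ∃ r : ℝ, 0 < r ∧ (∃ m ∈ M, x = l + r • (m : E)) ∧
      ∀ m ∈ M, l + r • (m : E) ∈ K)
    {N₁ N₂ : ℕ} (h₁ : CoverBy M N₁)
    (h₂ : CoverBy ((Fᗮ).orthogonalProjectionOnto '' K) N₂) : CoverBy K (N₁ * N₂) := by
  classical
  rw [coverBy_iff] at h₁ h₂
  obtain ⟨T, hT, hTM⟩ := h₁
  obtain ⟨S, hS, hSP⟩ := h₂
  -- some `n` works
  suffices h : ∃ n : ℕ, ∀ x ∈ K, ∃ u ∈ dirs F T S n, ∃ ε : ℝ, 0 < ε ∧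
      x + ε • u ∈ interior K by
    obtain ⟨n, hn⟩ := h
    refine coverBy_of_illum hK hc (dirs F T S n) ?_ hn
    refine Finset.card_image_le.trans ?_
    rw [Finset.card_product]
    exact Nat.mul_le_mul hT hS
  by_contra hcon
  push Not at hcon
  -- sequences
  choose x hxK hx using hcon
  choose l hl using hfib
  choose r hr using hl
  choose hr0 hm hmem using hr
  choose m hmM hxm using hm
  obtain ⟨⟨a, μ⟩, ha, φ, hφ, hlim⟩ := (hc.prod hMc).tendsto_subseq
    (x := fun n => (x n, m (x n) (hxK n))) (fun n => ⟨hxK n, hmM _ _⟩)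
  have haK : a ∈ K := ha.1
  have hμM : μ ∈ M := ha.2
  obtain ⟨t, ht, htM⟩ := hTM μ hμM
  obtain ⟨s, hs, hsP⟩ := hSP ((Fᗮ).orthogonalProjectionOnto a) (mem_image_of_mem _ haK)
  -- the normals
  have hnorm : ∀ n, ∃ f : E →L[ℝ] ℝ, ‖f‖ = 1 ∧ (∀ k ∈ K, f k ≤ f (x n)) ∧
      f (t : E) + (1 / ((n : ℝ) + 1)) * f (s : E) ≤ 0 := by
    intro n
    have hmem' : -((t : E) + (1 / ((n : ℝ) + 1)) • (s : E)) ∈ dirs F T S n := by
      unfold dirs
      exact Finset.mem_image.2 ⟨(t, s), Finset.mem_product.2 ⟨ht, hs⟩, rfl⟩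
    obtain ⟨f, hf0, hf1, hf2⟩ := exists_normal hK hne (hxK n) _
      (fun ε hε => hx n _ hmem' ε hε)
    have hpos : 0 < ‖f‖ := norm_pos_iff.2 hf0
    refine ⟨‖f‖⁻¹ • f, ?_, ?_, ?_⟩
    · rw [norm_smul, norm_inv, norm_norm, inv_mul_cancel₀ hpos.ne']
    · intro k hk
      simp only [smul_apply, smul_eq_mul]
      exact mul_le_mul_of_nonneg_left (hf1 k hk) (inv_nonneg.2 hpos.le)
    · simp only [smul_apply, smul_eq_mul]
      have h1 : f (t : E) + (1 / ((n : ℝ) + 1)) * f (s : E) ≤ 0 := by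
        simp only [map_neg, map_add, map_smul, smul_eq_mul] at hf2
        linarith
      have := mul_nonpos_of_nonneg_of_nonpos (inv_nonneg.2 hpos.le) h1
      linarith [this]
  choose f hf1 hfK hfts using hnorm
  obtain ⟨g, hg, ψ, hψ, hglim⟩ := (isCompact_sphere (0 : E →L[ℝ] ℝ) 1).tendsto_subseq
    (x := fun n => f (φ n)) (fun n => by simp [hf1])
  have hg1 : ‖g‖ = 1 := by simpa using hg
  -- limits along the final subsequence
  let θ : ℕ → ℕ := fun n => φ (ψ n)
  have hθ : Tendsto θ atTop atTop := hφ.tendsto_atTop.comp hψ.tendsto_atTop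
  have hxlim : Tendsto (fun n => x (θ n)) atTop (𝓝 a) :=
    ((continuous_fst.tendsto _).comp hlim).comp hψ.tendsto_atTop
  have hmlim : Tendsto (fun n => m (x (θ n)) (hxK (θ n))) atTop (𝓝 μ) :=
    ((continuous_snd.tendsto _).comp hlim).comp hψ.tendsto_atTop
  have hflim : Tendsto (fun n => f (θ n)) atTop (𝓝 g) := hglim
  have hflim' : ∀ v : E, Tendsto (fun n => f (θ n) v) atTop (𝓝 (g v)) := fun v =>
    ((ContinuousLinearMap.apply ℝ ℝ v).continuous.tendsto g).comp hflim
  have happ : Continuous fun q : (E →L[ℝ] ℝ) × E => q.1 q.2 := isBoundedBilinearMap_apply.continuous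
  have hfx : Tendsto (fun n => f (θ n) (x (θ n))) atTop (𝓝 (g a)) :=
    (happ.tendsto (g, a)).comp (hflim.prodMk_nhds hxlim)
  have hfm : Tendsto (fun n => f (θ n) (m (x (θ n)) (hxK (θ n)) : E)) atTop (𝓝 (g μ)) :=
    (happ.tendsto (g, (μ : E))).comp
      (hflim.prodMk_nhds ((continuous_subtype_val.tendsto _).comp hmlim))
  -- `f (θ n)` is normal to `M` at `m`
  have hfMn : ∀ n, ∀ y ∈ M, f (θ n) (y : E) ≤ f (θ n) (m (x (θ n)) (hxK (θ n)) : E) := by
    intro n y hy
    have h1 := hfK (θ n) _ (hmem (x (θ n)) (hxK _) y hy)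
    have h2 := hxm (x (θ n)) (hxK _)
    have h3 : f (θ n) (x (θ n)) = f (θ n) (l (x (θ n)) (hxK (θ n))) +
        r (x (θ n)) (hxK (θ n)) * f (θ n) (m (x (θ n)) (hxK (θ n)) : E) := by
      conv_lhs => rw [h2]
      simp only [map_add, map_smul, smul_eq_mul]
    rw [h3] at h1
    simp only [map_add, map_smul, smul_eq_mul] at h1
    have h4 := hr0 (x (θ n)) (hxK (θ n))
    exact le_of_mul_le_mul_left (by linarith) h4
  -- eventually `m - t ∈ M`
  have hev : ∀ᶠ n in atTop, m (x (θ n)) (hxK (θ n)) - t ∈ M := by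
    have h1 : Tendsto (fun n => m (x (θ n)) (hxK (θ n)) - t) atTop (𝓝 (μ - t)) :=
      hmlim.sub_const t
    exact h1.eventually (mem_interior_iff_mem_nhds.1 htM)
  have hft : ∀ᶠ n in atTop, 0 ≤ f (θ n) (t : E) := by
    filter_upwards [hev] with n hn
    have := hfMn n _ hn
    simp only [Submodule.coe_sub, map_sub] at this
    linarith
  have hfs : ∀ᶠ n in atTop, f (θ n) (s : E) ≤ 0 := by
    filter_upwards [hft] with n hn
    have h1 := hfts (θ n)
    have h2 : (0 : ℝ) < 1 / ((θ n : ℝ) + 1) := by positivity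
    by_contra h3
    have := mul_pos h2 (not_le.1 h3)
    linarith
  have hgs : g (s : E) ≤ 0 := le_of_tendsto (hflim' s) hfs
  have hgt0 : 0 ≤ g (t : E) := ge_of_tendsto (hflim' t) hft
  have hgt : g (t : E) ≤ 0 := by
    have h1 : Tendsto (fun n => f (θ n) (t : E) + (1 / ((θ n : ℝ) + 1)) * f (θ n) (s : E)) atTop
        (𝓝 (g t + 0 * g s)) := by
      refine (hflim' t).add (Tendsto.mul ?_ (hflim' s))
      exact (tendsto_one_div_add_atTop_nhds_zero_nat (𝕜 := ℝ)).comp hθ
    have h2 := le_of_tendsto h1 (Eventually.of_forall fun n => hfts (θ n))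
    simpa using h2
  -- `g` vanishes on `F`
  have hgM : ∀ y ∈ M, g (y : E) ≤ g (μ : E) := fun y hy =>
    le_of_tendsto_of_tendsto (hflim' y) hfm (Eventually.of_forall fun n => hfMn n y hy)
  have hgF : g.comp F.subtypeL = 0 := by
    refine vanish_of_max _ htM fun y hy => ?_
    have := hgM y hy
    simp only [ContinuousLinearMap.comp_apply, Submodule.subtypeL_apply, map_sub]
    linarith
  have hgF' : ∀ v ∈ F, g v = 0 := fun v hv => by
    have := DFunLike.congr_fun hgF ⟨v, hv⟩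
    simpa using this
  -- `g` is normal to `K` at `a`
  have hgK : ∀ k ∈ K, g k ≤ g a := fun k hk =>
    le_of_tendsto_of_tendsto (hflim' k) hfx (Eventually.of_forall fun n => hfK (θ n) k hk)
  have hgproj : ∀ v : E, g v = g (((Fᗮ).orthogonalProjectionOnto v : Fᗮ) : E) := by
    intro v
    have h1 : v - (((Fᗮ).orthogonalProjectionOnto v : Fᗮ) : E) ∈ (Fᗮ)ᗮ :=
      Submodule.sub_starProjection_mem_orthogonal v
    rw [Submodule.orthogonal_orthogonal] at h1
    have := hgF' _ h1
    rw [map_sub] at this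
    linarith
  have hgP : g.comp (Fᗮ).subtypeL = 0 := by
    refine vanish_of_max _ hsP fun y hy => ?_
    obtain ⟨k, hk, rfl⟩ := hy
    simp only [ContinuousLinearMap.comp_apply, Submodule.subtypeL_apply, map_sub]
    rw [← hgproj, ← hgproj]
    have := hgK k hk
    linarith
  have hg0 : g = 0 := by
    ext v
    rw [hgproj v]
    have := DFunLike.congr_fun hgP ((Fᗮ).orthogonalProjectionOnto v)
    simpa using this
  rw [hg0] at hg1
  simp at hg1

end Pool.Agent.Lib.HadwigerSummand
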