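import Mathlib
import Pool.Agent.Lib.HadwigerSummand

/-!
# Hadwiger's covering bound for convex bodies that are unions of homothets of a convex body of
lower dimension
-/

set_option autoImplicit false

open Module Set

namespace Pool.Agent.Lib.HadwigerSummandResult

/-- `c(K) ≤ N`: the set `K` is covered by at most `N` translates of its interior. -/
def CoveredBy {E : Type*} [NormedAddCommGroup E] (K : Set E) (N : ℕ) : Prop :=
  ∃ T : Finset E, T.card ≤ N ∧ K ⊆ ⋃ t ∈ T, (fun x => t + x) '' interior K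

/- `E` is a Euclidean space: a real inner product space of finite dimension. -/
variable {E : Type*} [NormedAddCommGroup E] [InnerProductSpace ℝ E] [FiniteDimensional ℝ E]

/-- The orthogonal projection to a subspace of `E`, as a map to the subspace. -/
noncomputable def proj (V : Submodule ℝ E) (x : E) : V := V.orthogonalProjectionOnto x

/-- Every point `x` of `K` lies in a homothet `l + r • M` of `M`, with `r > 0`, contained in
`K`. -/
def UnionOfHomothets (K : Set E) {F : Submodule ℝ E} (M : Set F) : Prop :=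
  ∀ x ∈ K, ∃ l : E, ∃ r : ℝ, 0 < r ∧ (∃ m ∈ M, x = l + r • (m : E)) ∧
    ∀ m ∈ M, l + r • (m : E) ∈ K

/-- Let `K` be a convex body in the Euclidean space `E` of dimension `d`, let `F` be a subspace of
`E` and `M` a convex body in `F`, such that `K` is a union of sets `l + r • M`, `r > 0` (for
example `K = L + M`, a Minkowski sum with any set `L`).  Then `c(K) ≤ c(M) * c(P K)`, where `P`
is the orthogonal projection along `F`.  In particular, if the orthogonal complement of `F` has
dimension at most two, then `c(K) ≤ 2 ^ d` as soon as `c(M) ≤ 2 ^ dim F`, which is automatic if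
`dim F ≤ 2`. -/
theorem result {d : ℕ} (hd : finrank ℝ E = d) (K : Set E)
    (hK : Convex ℝ K) (hc : IsCompact K) (hne : (interior K).Nonempty)
    (F : Submodule ℝ E) (M : Set F) (hM : Convex ℝ M) (hMc : IsCompact M)
    (hMne : (interior M).Nonempty) (hfib : UnionOfHomothets K M) :
    (∀ N₁ N₂ : ℕ, CoveredBy M N₁ → CoveredBy (proj Fᗮ '' K) N₂ → CoveredBy K (N₁ * N₂)) ∧
    (finrank ℝ Fᗮ ≤ 2 → (finrank ℝ F ≤ 2 ∨ CoveredBy M (2 ^ finrank ℝ F)) →
      CoveredBy K (2 ^ d)) := by
  have hmain : ∀ N₁ N₂ : ℕ, CoveredBy M N₁ → CoveredBy (proj Fᗮ '' K) N₂ →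
      CoveredBy K (N₁ * N₂) := fun N₁ N₂ h₁ h₂ =>
    Pool.Agent.Lib.HadwigerSummand.coverBy_summand hK hc hne F hMc hfib h₁ h₂
  refine ⟨hmain, fun h2 h1 => ?_⟩
  have h3 : CoveredBy (proj Fᗮ '' K) (2 ^ finrank ℝ Fᗮ) := by
    apply Pool.Agent.Lib.HadwigerPlane.cover_le_two h2
    · exact hK.linear_image (Fᗮ).orthogonalProjectionOnto.toLinearMap
    · exact hc.image (Fᗮ).orthogonalProjectionOnto.continuous
    · exact Pool.Agent.Lib.HadwigerBlocks.interior_proj_nonempty hne _
  have h4 : CoveredBy M (2 ^ finrank ℝ F) := h1.elim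
    (fun h1 => Pool.Agent.Lib.HadwigerPlane.cover_le_two h1 hM hMc hMne) id
  have h5 := hmain _ _ h4 h3
  have h6 : 2 ^ finrank ℝ F * 2 ^ finrank ℝ Fᗮ = 2 ^ d := by
    rw [← pow_add, Submodule.finrank_add_finrank_orthogonal, hd]
  rwa [h6] at h5

end Pool.Agent.Lib.HadwigerSummandResult
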