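import Mathlib

set_option autoImplicit false

/-!
The affine part of the Hermitian unital in the projective plane over a field `F`
with an involution, and the fact (O'Nan 1972) that it contains no four lines in
general position whose six intersection points all lie on it.
-/

namespace Pool.Agent.Lib.HermUnital

theorem iso_aux {F : Type} [Field F] (σ : F →+* F) (c : F)
    (x1 y1 x2 y2 a b : F)
    (h1 : y1 + σ y1 = x1 * σ x1 + c) (h2 : y2 + σ y2 = x2 * σ x2 + c)
    (hab : a + b = 1)
    (h12 : (a * y1 + b * y2) + σ (a * y1 + b * y2) =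
      (a * x1 + b * x2) * σ (a * x1 + b * x2) + c) :
    a * σ b * (σ y2 + y1 - x1 * σ x2 - c) + b * σ a * (y2 + σ y1 - σ x1 * x2 - c) = 0 := by
  obtain rfl : b = 1 - a := by linear_combination hab
  simp only [map_add, map_mul, map_sub, map_one] at h12 ⊢
  linear_combination h12 - a * σ a * h1 - (1 - a) * (1 - σ a) * h2

/-- The algebraic core: no O'Nan configuration on the curve `y + σ y = x * σ x + c`. -/
theorem onan_core {F : Type} [Field F] (σ : F →+* F) (c : F)
    (x1 y1 x2 y2 x3 y3 a b d e f g : F)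
    (h1 : y1 + σ y1 = x1 * σ x1 + c) (h2 : y2 + σ y2 = x2 * σ x2 + c)
    (h3 : y3 + σ y3 = x3 * σ x3 + c)
    (hab : a + b = 1) (hde : d + e = 1) (hfg : f + g = 1)
    (hb : b ≠ 0) (hd : d ≠ 0) (hg : g ≠ 0)
    (hD : (x2 - x1) * (y3 - y1) - (x3 - x1) * (y2 - y1) ≠ 0)
    (h12 : (a * y1 + b * y2) + σ (a * y1 + b * y2) =
      (a * x1 + b * x2) * σ (a * x1 + b * x2) + c)
    (h13 : (d * y1 + e * y3) + σ (d * y1 + e * y3) =
      (d * x1 + e * x3) * σ (d * x1 + e * x3) + c)
    (h23 : (f * y2 + g * y3) + σ (f * y2 + g * y3) =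
      (f * x2 + g * x3) * σ (f * x2 + g * x3) + c)
    (hcol : ((d * x1 + e * x3) - (a * x1 + b * x2)) * ((f * y2 + g * y3) - (a * y1 + b * y2)) -
      ((f * x2 + g * x3) - (a * x1 + b * x2)) * ((d * y1 + e * y3) - (a * y1 + b * y2)) = 0) :
    False := by
  have e12 := iso_aux σ c x1 y1 x2 y2 a b h1 h2 hab h12
  have e13 := iso_aux σ c x1 y1 x3 y3 d e h1 h3 hde h13
  have e23 := iso_aux σ c x2 y2 x3 y3 f g h2 h3 hfg h23
  -- the Gram determinant is the norm of the determinant of the three points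
  have gram : ((x2 - x1) * (y3 - y1) - (x3 - x1) * (y2 - y1)) *
      ((σ x2 - σ x1) * (σ y3 - σ y1) - (σ x3 - σ x1) * (σ y2 - σ y1)) =
      (σ y2 + y1 - x1 * σ x2 - c) * (σ y3 + y2 - x2 * σ x3 - c) *
        (y3 + σ y1 - σ x1 * x3 - c) +
      (y2 + σ y1 - σ x1 * x2 - c) * (y3 + σ y2 - σ x2 * x3 - c) *
        (σ y3 + y1 - x1 * σ x3 - c) := by
    have g1 : σ y1 + y1 - x1 * σ x1 - c = 0 := by linear_combination h1
    have g2 : σ y2 + y2 - x2 * σ x2 - c = 0 := by linear_combination h2
    have g3 : σ y3 + y3 - x3 * σ x3 - c = 0 := by linear_combination h3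
    linear_combination ((σ y2 + y2 - x2 * σ x2 - c) * (σ y3 + y3 - x3 * σ x3 - c) -
      (σ y3 + y2 - x2 * σ x3 - c) * (y3 + σ y2 - σ x2 * x3 - c)) * g1 -
      (σ y2 + y1 - x1 * σ x2 - c) * (y2 + σ y1 - σ x1 * x2 - c) * g3 -
      (σ y3 + y1 - x1 * σ x3 - c) * (y3 + σ y1 - σ x1 * x3 - c) * g2
  -- collinearity of the three points on the sides
  have hcol' : a * e * f + b * d * g = 0 := by
    have : ((x2 - x1) * (y3 - y1) - (x3 - x1) * (y2 - y1)) * (a * e * f + b * d * g) = 0 := by
      obtain rfl : b = 1 - a := by linear_combination hab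
      obtain rfl : e = 1 - d := by linear_combination hde
      obtain rfl : g = 1 - f := by linear_combination hfg
      linear_combination (-1 : F) * hcol
    rcases mul_eq_zero.mp this with h | h
    · exact absurd h hD
    · exact h
  have hm : b * d * g ≠ 0 := mul_ne_zero (mul_ne_zero hb hd) hg
  have hsm : σ (b * d * g) ≠ 0 := (map_ne_zero σ).mpr hm
  have haef : a * e * f = -(b * d * g) := by linear_combination hcol'
  have hsaef : σ a * σ e * σ f = -σ (b * d * g) := by
    rw [← map_mul, ← map_mul, haef, map_neg]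
  have hsb : σ b * σ d * σ g = σ (b * d * g) := by rw [map_mul, map_mul]
  generalize (σ y2 + y1 - x1 * σ x2 - c) = k12 at *
  generalize (y2 + σ y1 - σ x1 * x2 - c) = k21 at *
  generalize (σ y3 + y1 - x1 * σ x3 - c) = k13 at *
  generalize (y3 + σ y1 - σ x1 * x3 - c) = k31 at *
  generalize (σ y3 + y2 - x2 * σ x3 - c) = k23 at *
  generalize (y3 + σ y2 - σ x2 * x3 - c) = k32 at *
  have hX : (b * d * g) * σ (b * d * g) * (k12 * k23 * k31 + k21 * k32 * k13) = 0 := by
    have t1 : (a * σ b * k12) * (f * σ g * k23) * (e * σ d * k31) =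
        -((b * σ a * k21) * (g * σ f * k32) * (d * σ e * k13)) := by
      have r1 : a * σ b * k12 = -(b * σ a * k21) := by linear_combination e12
      have r2 : f * σ g * k23 = -(g * σ f * k32) := by linear_combination e23
      have r3 : e * σ d * k31 = -(d * σ e * k13) := by linear_combination e13
      rw [r1, r2, r3]; ring
    have t2 : (a * e * f) * (σ b * σ d * σ g) * (k12 * k23 * k31) =
        -((b * d * g) * (σ a * σ e * σ f) * (k21 * k32 * k13)) := by
      linear_combination t1
    rw [haef, hsaef, hsb] at t2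
    linear_combination (-1 : F) * t2
  have hG : k12 * k23 * k31 + k21 * k32 * k13 = 0 := by
    rcases mul_eq_zero.mp hX with h | h
    · exact absurd h (mul_ne_zero hm hsm)
    · exact h
  rw [hG] at gram
  have hD' : (σ x2 - σ x1) * (σ y3 - σ y1) - (σ x3 - σ x1) * (σ y2 - σ y1) ≠ 0 := by
    have := (map_ne_zero σ).mpr hD
    simpa only [map_sub, map_mul] using this
  exact mul_ne_zero hD hD' gram

/-- Affine coordinates on a line. -/
theorem exists_coeff {F : Type} [Field F] (x1 y1 x2 y2 x y : F)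
    (hne : ¬ (x1 = x2 ∧ y1 = y2))
    (hdet : (x2 - x1) * (y - y1) - (x - x1) * (y2 - y1) = 0) :
    ∃ a b : F, a + b = 1 ∧ x = a * x1 + b * x2 ∧ y = a * y1 + b * y2 := by
  by_cases hx : x1 = x2
  · subst hx
    have hy : y2 - y1 ≠ 0 := fun h => hne ⟨rfl, by linear_combination (-1 : F) * h⟩
    have hxx : x = x1 := by
      have : (x - x1) * (y2 - y1) = 0 := by linear_combination (-1 : F) * hdet
      rcases mul_eq_zero.mp this with h | h
      · linear_combination h
      · exact absurd h hy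
    refine ⟨1 - (y - y1) / (y2 - y1), (y - y1) / (y2 - y1), by ring, ?_, ?_⟩
    · rw [hxx]; ring
    · field_simp
      ring
  · have hx' : x2 - x1 ≠ 0 := fun h => hx (by linear_combination (-1 : F) * h)
    refine ⟨1 - (x - x1) / (x2 - x1), (x - x1) / (x2 - x1), by ring, ?_, ?_⟩
    · field_simp
      ring
    · field_simp
      linear_combination hdet

/-- No O'Nan configuration, stated with determinants of points `(1, x, y)`. -/
theorem onan_det {F : Type} [Field F] (σ : F →+* F) (c : F)
    (x1 y1 x2 y2 x3 y3 x4 y4 x5 y5 x6 y6 : F)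
    (h1 : y1 + σ y1 = x1 * σ x1 + c) (h2 : y2 + σ y2 = x2 * σ x2 + c)
    (h3 : y3 + σ y3 = x3 * σ x3 + c) (h4 : y4 + σ y4 = x4 * σ x4 + c)
    (h5 : y5 + σ y5 = x5 * σ x5 + c) (h6 : y6 + σ y6 = x6 * σ x6 + c)
    (hD : (x2 - x1) * (y3 - y1) - (x3 - x1) * (y2 - y1) ≠ 0)
    (n4 : ¬ (x4 = x1 ∧ y4 = y1))
    (n5 : ¬ (x5 = x3 ∧ y5 = y3))
    (n6 : ¬ (x6 = x2 ∧ y6 = y2))
    (d4 : (x2 - x1) * (y4 - y1) - (x4 - x1) * (y2 - y1) = 0)
    (d5 : (x3 - x1) * (y5 - y1) - (x5 - x1) * (y3 - y1) = 0)
    (d6 : (x3 - x2) * (y6 - y2) - (x6 - x2) * (y3 - y2) = 0)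
    (d456 : (x5 - x4) * (y6 - y4) - (x6 - x4) * (y5 - y4) = 0) : False := by
  have m12 : ¬ (x1 = x2 ∧ y1 = y2) := by
    rintro ⟨rfl, rfl⟩; apply hD; ring
  have m13 : ¬ (x1 = x3 ∧ y1 = y3) := by
    rintro ⟨rfl, rfl⟩; apply hD; ring
  have m23 : ¬ (x2 = x3 ∧ y2 = y3) := by
    rintro ⟨rfl, rfl⟩; apply hD; ring
  obtain ⟨a, b, hab, rfl, rfl⟩ := exists_coeff x1 y1 x2 y2 x4 y4 m12 d4
  obtain ⟨d, e, hde, rfl, rfl⟩ := exists_coeff x1 y1 x3 y3 x5 y5 m13 d5
  obtain ⟨f, g, hfg, rfl, rfl⟩ := exists_coeff x2 y2 x3 y3 x6 y6 m23 d6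
  refine onan_core σ c x1 y1 x2 y2 x3 y3 a b d e f g h1 h2 h3 hab hde hfg ?_ ?_ ?_ hD
    h4 h5 h6 d456
  · rintro rfl
    obtain rfl : a = 1 := by linear_combination hab
    exact n4 ⟨by ring, by ring⟩
  · rintro rfl
    obtain rfl : e = 1 := by linear_combination hde
    exact n5 ⟨by ring, by ring⟩
  · rintro rfl
    obtain rfl : f = 1 := by linear_combination hfg
    exact n6 ⟨by ring, by ring⟩

/-- The vector matroid of a finite family of vectors (ground set: all of `α`). -/
noncomputable def vecMatroid {F α : Type} [Field F] [Finite α] {n : ℕ}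
    (v : α → (Fin n → F)) : Matroid α :=
  (IndepMatroid.ofFinite (E := (Set.univ : Set α)) Set.finite_univ
    (fun I => LinearIndepOn F v I)
    (linearIndepOn_empty F v)
    (fun _ _ hJ hIJ => hJ.mono hIJ)
    (by
      intro I J hI hJ hlt
      by_contra hcon
      push Not at hcon
      have hsub : v '' J ⊆ Submodule.span F (v '' I) := by
        rintro _ ⟨e, heJ, rfl⟩
        by_cases heI : e ∈ I
        · exact Submodule.subset_span ⟨e, heI, rfl⟩
        · by_contra hns
          exact hcon e heJ heI ((linearIndepOn_insert heI).mpr ⟨hI, hns⟩)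
      have hle : Submodule.span F (v '' J) ≤ Submodule.span F (v '' I) :=
        Submodule.span_le.mpr hsub
      have h1 : Module.finrank F (Submodule.span F (v '' J)) = J.ncard := by
        have : Fintype J := Fintype.ofFinite J
        have := finrank_span_eq_card (R := F) hJ
        rw [← Set.image_eq_range] at this
        rw [this, Set.ncard_eq_toFinset_card', Set.toFinset_card]
      have h2 : Module.finrank F (Submodule.span F (v '' I)) = I.ncard := by
        have : Fintype I := Fintype.ofFinite I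
        have := finrank_span_eq_card (R := F) hI
        rw [← Set.image_eq_range] at this
        rw [this, Set.ncard_eq_toFinset_card', Set.toFinset_card]
      have h3 := Submodule.finrank_mono hle
      omega)
    (fun _ _ => Set.subset_univ _)).matroid

theorem vecMatroid_indep {F α : Type} [Field F] [Finite α] {n : ℕ}
    (v : α → (Fin n → F)) (I : Set α) : (vecMatroid v).Indep I ↔ LinearIndepOn F v I :=
  Iff.rfl

theorem vecMatroid_E {F α : Type} [Field F] [Finite α] {n : ℕ}
    (v : α → (Fin n → F)) : (vecMatroid v).E = Set.univ := rfl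

end Pool.Agent.Lib.HermUnital
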