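import Mathlib
import Pool.Agent.Lib.HermUnital

set_option autoImplicit false

namespace Pool.Agent.Lib.HermUnital

open SimpleGraph

theorem star_acyclic :
    (SimpleGraph.fromEdgeSet ({s(0,1), s(0,2), s(0,3)} : Set (Sym2 (Fin 4)))).IsAcyclic := by
  apply SimpleGraph.IsTree.isAcyclic
  rw [isTree_iff_connected_and_card]
  constructor
  · rw [connected_iff_exists_forall_reachable]
    refine ⟨0, ?_⟩
    have h : ∀ w : Fin 4, w ≠ 0 →
        (SimpleGraph.fromEdgeSet ({s(0,1), s(0,2), s(0,3)} : Set (Sym2 (Fin 4)))).Adj 0 w := by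
      intro w hw
      rw [fromEdgeSet_adj]
      refine ⟨?_, hw.symm⟩
      fin_cases w <;> simp_all
    intro w
    by_cases hw : w = 0
    · subst hw; exact Reachable.refl _
    · exact (h w hw).reachable
  · rw [edgeSet_fromEdgeSet]
    have : ({s(0,1), s(0,2), s(0,3)} : Set (Sym2 (Fin 4))) \ Sym2.diagSet =
        (({s(0,1), s(0,2), s(0,3)} : Finset (Sym2 (Fin 4))) : Set (Sym2 (Fin 4))) := by
      ext x
      simp only [Set.mem_sdiff, Set.mem_insert_iff, Set.mem_singleton_iff, Sym2.mem_diagSet,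
        Finset.coe_insert, Finset.coe_singleton, and_iff_left_iff_imp]
      rintro (rfl | rfl | rfl) <;> simp
    rw [this]
    simp [Nat.card_eq_fintype_card]

theorem triangle_not_acyclic (i j k : Fin 4) (hij : i ≠ j) (hjk : j ≠ k) (hik : i ≠ k) :
    ¬ (SimpleGraph.fromEdgeSet ({s(i,j), s(i,k), s(j,k)} : Set (Sym2 (Fin 4)))).IsAcyclic := by
  intro h
  have h1 : (SimpleGraph.fromEdgeSet
      ({s(i,j), s(i,k), s(j,k)} : Set (Sym2 (Fin 4)))).Adj i j := by
    rw [fromEdgeSet_adj]; exact ⟨by simp, hij⟩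
  have h2 : (SimpleGraph.fromEdgeSet
      ({s(i,j), s(i,k), s(j,k)} : Set (Sym2 (Fin 4)))).Adj j k := by
    rw [fromEdgeSet_adj]; exact ⟨by simp, hjk⟩
  have h3 : (SimpleGraph.fromEdgeSet
      ({s(i,j), s(i,k), s(j,k)} : Set (Sym2 (Fin 4)))).Adj k i := by
    rw [fromEdgeSet_adj]; exact ⟨by simp [Sym2.eq_swap], hik.symm⟩
  refine h (Walk.cons h1 (Walk.cons h2 (Walk.cons h3 Walk.nil))) ?_
  rw [Walk.isCycle_def]
  refine ⟨?_, by simp, ?_⟩
  · rw [Walk.isTrail_def]
    simp [Sym2.eq_iff, hij, hjk, hik, hij.symm, hjk.symm, hik.symm]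
  · simp [hij, hjk, hik, hij.symm, hjk.symm, hik.symm]

/-- A simple matroid whose independent sets have at most three elements, and which contains no
six elements forming four collinear triples, has no minor isomorphic to `M(K_4)`. -/
theorem no_K4_minor {α : Type} (M : Matroid α)
    (hM3 : ∀ I, M.Indep I → I.Finite ∧ I.ncard ≤ 3)
    (hon : ∀ e01 e02 e03 e12 e13 e23 : α,
      e01 ∈ M.E → e02 ∈ M.E → e03 ∈ M.E → e12 ∈ M.E → e13 ∈ M.E → e23 ∈ M.E →
      [e01, e02, e03, e12, e13, e23].Nodup →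
      M.Indep {e01, e02, e03} →
      ¬ M.Indep {e01, e02, e12} → ¬ M.Indep {e01, e03, e13} → ¬ M.Indep {e02, e03, e23} →
      ¬ M.Indep {e12, e13, e23} → False) :
    ¬ ∃ N : Matroid α, Matroid.IsMinor N M ∧
            ∃ φ : α → Sym2 (Fin 4), Set.BijOn φ N.E {s | ¬ s.IsDiag} ∧
              ∀ I ⊆ N.E, N.Indep I ↔ (SimpleGraph.fromEdgeSet (φ '' I)).IsAcyclic := by
  rintro ⟨N, hNM, φ, hφ, hI⟩
  have hsurj : ∀ i j : Fin 4, i ≠ j → ∃ e ∈ N.E, φ e = s(i, j) := by
    intro i j hij
    have : s(i, j) ∈ {s : Sym2 (Fin 4) | ¬ s.IsDiag} := by simpa using hij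
    exact hφ.surjOn this
  obtain ⟨e01, m01, f01⟩ := hsurj 0 1 (by decide)
  obtain ⟨e02, m02, f02⟩ := hsurj 0 2 (by decide)
  obtain ⟨e03, m03, f03⟩ := hsurj 0 3 (by decide)
  obtain ⟨e12, m12, f12⟩ := hsurj 1 2 (by decide)
  obtain ⟨e13, m13, f13⟩ := hsurj 1 3 (by decide)
  obtain ⟨e23, m23, f23⟩ := hsurj 2 3 (by decide)
  have hsub3 : ∀ {a b c : α}, a ∈ N.E → b ∈ N.E → c ∈ N.E → ({a, b, c} : Set α) ⊆ N.E := by
    intro a b c ha hb hc x hx
    rcases hx with rfl | rfl | rfl <;> assumption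
  have himg : ∀ a b c : α, φ '' ({a, b, c} : Set α) = {φ a, φ b, φ c} := by
    intro a b c
    simp [Set.image_insert_eq]
  -- the star is independent in N
  have hstar : N.Indep {e01, e02, e03} := by
    rw [hI _ (hsub3 m01 m02 m03), himg, f01, f02, f03]
    exact star_acyclic
  have ht1 : ¬ N.Indep {e01, e02, e12} := by
    rw [hI _ (hsub3 m01 m02 m12), himg, f01, f02, f12]
    exact triangle_not_acyclic 0 1 2 (by decide) (by decide) (by decide)
  have ht2 : ¬ N.Indep {e01, e03, e13} := by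
    rw [hI _ (hsub3 m01 m03 m13), himg, f01, f03, f13]
    exact triangle_not_acyclic 0 1 3 (by decide) (by decide) (by decide)
  have ht3 : ¬ N.Indep {e02, e03, e23} := by
    rw [hI _ (hsub3 m02 m03 m23), himg, f02, f03, f23]
    exact triangle_not_acyclic 0 2 3 (by decide) (by decide) (by decide)
  have ht4 : ¬ N.Indep {e12, e13, e23} := by
    rw [hI _ (hsub3 m12 m13 m23), himg, f12, f13, f23]
    exact triangle_not_acyclic 1 2 3 (by decide) (by decide) (by decide)
  -- distinctness
  have hnodup : [e01, e02, e03, e12, e13, e23].Nodup := by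
    have : (List.map φ [e01, e02, e03, e12, e13, e23]).Nodup := by
      simp only [List.map_cons, List.map_nil, f01, f02, f03, f12, f13, f23]
      decide
    exact List.Nodup.of_map _ this
  have hne1 : e01 ≠ e02 := by rintro rfl; simp at hnodup
  have hne2 : e01 ≠ e03 := by rintro rfl; simp at hnodup
  have hne3 : e02 ≠ e03 := by rintro rfl; simp at hnodup
  -- N is a restriction of M
  obtain ⟨C, D, hC, hD, hCD, hN⟩ := hNM.exists_eq_contract_delete_disjoint
  obtain ⟨K, hK⟩ := M.exists_isBasis C hC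
  have hkey : K = ∅ := by
    have h1 : (M.contract C).Indep {e01, e02, e03} := by
      rw [hN] at hstar
      exact (Matroid.delete_indep_iff.mp hstar).1
    rw [hK.contract_indep_iff] at h1
    obtain ⟨h2, h3⟩ := h1
    obtain ⟨hfin, hcard⟩ := hM3 _ h2
    by_contra hKne
    obtain ⟨k, hk⟩ := Set.nonempty_iff_ne_empty.mpr hKne
    have hkn : k ∉ ({e01, e02, e03} : Set α) := by
      intro hmem
      exact (Set.disjoint_left.mp h3) (hK.subset hk) hmem
    have hsub : insert k ({e01, e02, e03} : Set α) ⊆ {e01, e02, e03} ∪ K := by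
      rintro x (rfl | hx)
      · exact Or.inr hk
      · exact Or.inl hx
    have h4 : (insert k ({e01, e02, e03} : Set α)).ncard = 4 := by
      rw [Set.ncard_insert_of_notMem hkn, Set.ncard_eq_three.mpr ⟨e01, e02, e03, hne1, hne2,
        hne3, rfl⟩]
    have h5 := Set.ncard_le_ncard hsub hfin
    omega
  have hNind : ∀ I ⊆ N.E, (N.Indep I ↔ M.Indep I) := by
    intro I hIN
    rw [hN] at hIN ⊢
    have hdC : Disjoint C I := by
      rw [Set.disjoint_left]
      intro x hxC hxI
      have := hIN hxI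
      simp only [Matroid.delete_ground, Matroid.contract_ground, Set.mem_sdiff] at this
      exact this.1.2 hxC
    have hdD : Disjoint I D := by
      rw [Set.disjoint_left]
      intro x hxI hxD
      have := hIN hxI
      simp only [Matroid.delete_ground, Matroid.contract_ground, Set.mem_sdiff] at this
      exact this.2 hxD
    rw [Matroid.delete_indep_iff, hK.contract_indep_iff, hkey]
    simp [hdC, hdD]
  have hEsub := hNM.subset
  exact hon e01 e02 e03 e12 e13 e23 (hEsub m01) (hEsub m02) (hEsub m03) (hEsub m12)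
    (hEsub m13) (hEsub m23) hnodup
    ((hNind _ (hsub3 m01 m02 m03)).mp hstar)
    (fun h => ht1 ((hNind _ (hsub3 m01 m02 m12)).mpr h))
    (fun h => ht2 ((hNind _ (hsub3 m01 m03 m13)).mpr h))
    (fun h => ht3 ((hNind _ (hsub3 m02 m03 m23)).mpr h))
    (fun h => ht4 ((hNind _ (hsub3 m12 m13 m23)).mpr h))

/-- Three distinct points `(1, x, y)` are independent iff the determinant is nonzero. -/
theorem indep_three_iff {F α : Type} [Field F] [Finite α] (X Y : α → F)
    (p q r : α) (hpq : p ≠ q) (hpr : p ≠ r) (hqr : q ≠ r) :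
    (vecMatroid (fun z => ![1, X z, Y z])).Indep {p, q, r} ↔
      (X q - X p) * (Y r - Y p) - (X r - X p) * (Y q - Y p) ≠ 0 := by
  rw [vecMatroid_indep]
  have hinj : Function.Injective ![p, q, r] := by
    intro i j
    fin_cases i <;> fin_cases j <;> simp [hpq, hpr, hqr, hpq.symm, hpr.symm, hqr.symm]
  have hrange : ({p, q, r} : Set α) = Set.range ![p, q, r] := by
    ext x
    simp only [Set.mem_insert_iff, Set.mem_singleton_iff, Set.mem_range, Fin.exists_fin_succ,
      Matrix.cons_val_zero, Matrix.cons_val_succ]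
    simp [eq_comm]
  rw [hrange, linearIndepOn_range_iff hinj]
  have : ((fun z => ![1, X z, Y z]) ∘ ![p, q, r] : Fin 3 → Fin 3 → F) =
      (Matrix.of ![![1, X p, Y p], ![1, X q, Y q], ![1, X r, Y r]]).row := by
    ext i j
    fin_cases i <;> rfl
  rw [this, Matrix.linearIndependent_rows_iff_isUnit, Matrix.isUnit_iff_isUnit_det,
    isUnit_iff_ne_zero, Matrix.det_fin_three]
  simp only [Matrix.of_apply, Matrix.cons_val', Matrix.cons_val_zero, Matrix.cons_val_one,
    Matrix.cons_val]
  constructor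
  · intro h h'
    apply h
    linear_combination h'
  · intro h h'
    apply h
    linear_combination h'

end Pool.Agent.Lib.HermUnital
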