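import Mathlib

/-!
# Diophantine functions: binomial coefficients, factorials and products

On top of `Dioph.pow_dioph` we show that binomial coefficients, factorials and the products
`∏ k < y, (1 + (k + 1) * t)` are Diophantine functions.
-/

set_option autoImplicit false

open Finset

namespace Pool.Agent.Lib.MRDPFact

/-- Base `B = 2 ^ n + 1` digit extraction formula for binomial coefficients. -/
theorem choose_eq (n k : ℕ) :
    n.choose k = ((2 ^ n + 1 + 1) ^ n / (2 ^ n + 1) ^ k) % (2 ^ n + 1) := by
  set B := 2 ^ n + 1 with hB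
  have hBpos : 0 < B := by positivity
  have hc : ∀ i, n.choose i ≤ B - 1 := by
    intro i
    have := Nat.choose_le_two_pow n i
    omega
  have hS : (B + 1) ^ n = ∑ i ∈ range (k + (1 + n)), n.choose i * B ^ i := by
    rw [add_pow]
    have : ∑ m ∈ range (n + 1), B ^ m * 1 ^ (n - m) * ((n.choose m : ℕ) : ℕ)
        = ∑ m ∈ range (n + 1), n.choose m * B ^ m := by
      apply sum_congr rfl
      intro i _
      ring
    refine Eq.trans this ?_
    apply sum_subset
    · intro i hi
      simp only [mem_range] at hi ⊢
      omega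
    · intro i _ hi
      simp only [mem_range, not_lt] at hi
      rw [Nat.choose_eq_zero_of_lt (by omega), zero_mul]
  have hlow : ∀ m, ∑ i ∈ range m, n.choose i * B ^ i < B ^ m := by
    intro m
    induction m with
    | zero => simp
    | succ m ih =>
      rw [sum_range_succ, pow_succ]
      have h1 : n.choose m * B ^ m ≤ (B - 1) * B ^ m := Nat.mul_le_mul_right _ (hc m)
      have h2 : (B - 1) * B ^ m + B ^ m = B ^ m * B := by
        rw [mul_comm (B ^ m) B, ← Nat.succ_mul]
        congr 1
      omega
  have hT : ∑ i ∈ range (1 + n), n.choose (k + i) * B ^ (k + i)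
      = B ^ k * (n.choose k + B * ∑ i ∈ range n, n.choose (k + (1 + i)) * B ^ i) := by
    rw [sum_range_add, sum_range_one, mul_add, mul_sum, mul_sum]
    congr 1
    · simp [mul_comm]
    · apply sum_congr rfl
      intro i _
      rw [pow_add, pow_add]
      ring
  rw [hS, sum_range_add, hT, Nat.add_mul_div_left _ _ (by positivity),
    Nat.div_eq_of_lt (hlow k), zero_add, Nat.add_mul_mod_self_left]
  exact (Nat.mod_eq_of_lt (by have := hc k; omega)).symm

theorem pow_le_sub_pow (r a : ℕ) (ha : a ≤ r) (m : ℕ) :
    r ^ m ≤ (r - a) ^ m + m * a * r ^ (m - 1) := by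
  induction m with
  | zero => simp
  | succ m ih =>
    obtain ⟨s, rfl⟩ := Nat.exists_eq_add_of_le ha
    have h0 : a + s - a = s := by omega
    rw [h0] at ih ⊢
    have h1 : (a + s) ^ (m + 1) ≤ (a + s) * (s ^ m + m * a * (a + s) ^ (m - 1)) := by
      rw [pow_succ, mul_comm]
      exact Nat.mul_le_mul_left _ ih
    have h2 : a * s ^ m ≤ a * (a + s) ^ m :=
      Nat.mul_le_mul_left _ (Nat.pow_le_pow_left (by omega) m)
    have h3 : (a + s) * (m * a * (a + s) ^ (m - 1)) = m * a * (a + s) ^ m := by
      rcases m with _ | m
      · simp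
      · simp only [Nat.add_sub_cancel]
        ring
    calc (a + s) ^ (m + 1) ≤ (a + s) * (s ^ m + m * a * (a + s) ^ (m - 1)) := h1
      _ = s ^ (m + 1) + a * s ^ m + m * a * (a + s) ^ m := by
          rw [mul_add, h3]; ring
      _ ≤ s ^ (m + 1) + a * (a + s) ^ m + m * a * (a + s) ^ m := by omega
      _ = s ^ (m + 1) + (m + 1) * a * (a + s) ^ (m + 1 - 1) := by
          simp only [Nat.add_sub_cancel]; ring

/-- `n ! = ⌊r ^ n / C(r, n)⌋` for large `r`. -/
theorem factorial_eq (n r : ℕ) (hr : n * n * (n.factorial + 1) < r) :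
    n.factorial = r ^ n / r.choose n := by
  have hnr : n ≤ r := by
    have : n ≤ n * n * (n.factorial + 1) := by
      rcases n with _ | n
      · simp
      · nlinarith [Nat.factorial_pos (n + 1)]
    omega
  have hC : 0 < r.choose n := Nat.choose_pos hnr
  have hdf : r.descFactorial n = n.factorial * r.choose n :=
    Nat.descFactorial_eq_factorial_mul_choose r n
  symm
  rw [Nat.div_eq_iff hC]
  constructor
  · have := Nat.descFactorial_le_pow r n
    rw [← hdf]
    exact this
  · -- r ^ n ≤ n! * C + C - 1
    have hkey : r ^ n < (n.factorial + 1) * r.choose n := by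
      have hfpos := Nat.factorial_pos n
      have h1 : (r - n) ^ n ≤ r.descFactorial n := by
        refine le_trans (Nat.pow_le_pow_left ?_ n) (Nat.pow_sub_le_descFactorial r n)
        omega
      have h2 := pow_le_sub_pow r n hnr n
      rcases Nat.eq_zero_or_pos n with rfl | hn
      · simp
      have h3 : r ^ n = r * r ^ (n - 1) := by
        obtain ⟨m, rfl⟩ : ∃ m, n = m + 1 := ⟨n - 1, by omega⟩
        simp only [Nat.add_sub_cancel]
        ring
      have hrpos : 0 < r := by omega
      have h4 : 0 < r ^ (n - 1) := by positivity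
      -- n! * r^n < (n!+1) * descFactorial
      have h5 : n.factorial * r ^ n < (n.factorial + 1) * r.descFactorial n := by
        have h6 : (n.factorial + 1) * r ^ n
            ≤ (n.factorial + 1) * r.descFactorial n + (n.factorial + 1) * (n * n) * r ^ (n - 1) := by
          calc (n.factorial + 1) * r ^ n
              ≤ (n.factorial + 1) * (r.descFactorial n + n * n * r ^ (n - 1)) :=
                Nat.mul_le_mul_left _ (le_trans h2 (by omega))
            _ = _ := by ring
        have h7 : (n.factorial + 1) * (n * n) * r ^ (n - 1) < r * r ^ (n - 1) := by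
          apply Nat.mul_lt_mul_of_pos_right _ h4
          rw [mul_comm (n.factorial + 1)]
          exact hr
        have h8 : (n.factorial + 1) * r ^ n = n.factorial * r ^ n + r ^ n := by ring
        omega
      rw [hdf] at h5
      have h9 : n.factorial * r ^ n < n.factorial * ((n.factorial + 1) * r.choose n) := by
        calc n.factorial * r ^ n < (n.factorial + 1) * (n.factorial * r.choose n) := h5
          _ = _ := by ring
      exact Nat.lt_of_mul_lt_mul_left h9
    have : (n.factorial + 1) * r.choose n = n.factorial * r.choose n + r.choose n := by ring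
    omega

theorem factorial_eq' (n : ℕ) :
    n.factorial =
      (2 * (n + 1) ^ (n + 2) + 1) ^ n / (2 * (n + 1) ^ (n + 2) + 1).choose n := by
  apply factorial_eq
  have h1 : n.factorial ≤ n ^ n := Nat.factorial_le_pow n
  have h2 : n ^ n ≤ (n + 1) ^ n := Nat.pow_le_pow_left (by omega) n
  have h3 : 1 ≤ (n + 1) ^ n := Nat.one_le_pow _ _ (by omega)
  calc n * n * (n.factorial + 1) ≤ (n + 1) * (n + 1) * (2 * (n + 1) ^ n) := by
        apply Nat.mul_le_mul
        · apply Nat.mul_le_mul <;> omega
        · omega
    _ = 2 * (n + 1) ^ (n + 2) := by ring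
    _ < 2 * (n + 1) ^ (n + 2) + 1 := by omega

/-- Closed Diophantine formula for `∏ k < y, (1 + (k + 1) * t)`. -/
theorem prod_eq (t y : ℕ) :
    ∏ k ∈ range y, (1 + (k + 1) * t) =
      (t ^ y * (y.factorial *
        ((t * (1 + y * t) ^ y + 1 - (1 + y * t) ^ y) + y).choose y))
        % (t * (1 + y * t) ^ y + 1) + (1 - t) := by
  rcases Nat.eq_zero_or_pos t with rfl | ht
  · simp [Nat.mod_one]
  set w := (1 + y * t) ^ y with hw
  have hwpos : 0 < w := by positivity
  set M := t * w + 1 with hM
  set q := M - w with hq
  have h1t : 1 - t = 0 := by omega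
  rw [h1t, add_zero]
  have hle : ∏ k ∈ range y, (1 + (k + 1) * t) ≤ w := by
    calc ∏ k ∈ range y, (1 + (k + 1) * t) ≤ ∏ _k ∈ range y, (1 + y * t) := by
          apply prod_le_prod'
          intro k hk
          have : k + 1 ≤ y := by simpa using hk
          have := Nat.mul_le_mul_right t this
          omega
      _ = w := by simp [hw]
  have hlt : ∏ k ∈ range y, (1 + (k + 1) * t) < M := by
    have : w ≤ t * w := Nat.le_mul_of_pos_left w ht
    omega
  have hwM : w ≤ M := by
    have : w ≤ t * w := Nat.le_mul_of_pos_left w ht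
    omega
  have htq : t * q = (t - 1) * M + 1 := by
    have h1 : t * q + t * w = t * M := by
      rw [← mul_add]
      congr 1
      omega
    have h2 : (t - 1) * M + M = t * M := by
      rw [← Nat.succ_mul]
      congr 1
      omega
    omega
  have hmod : ∀ m, ∏ k ∈ range m, (1 + (k + 1) * t) ≡ ∏ k ∈ range m, (t * (q + 1 + k)) [MOD M] := by
    intro m
    induction m with
    | zero => simp [Nat.ModEq]
    | succ m ih =>
      rw [prod_range_succ, prod_range_succ]
      refine ih.mul ?_
      have : t * (q + 1 + m) = (1 + (m + 1) * t) + M * (t - 1) := by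
        have : t * (q + 1 + m) = t * q + (m + 1) * t := by ring
        rw [this, htq]
        ring
      rw [this]
      simp [Nat.ModEq]
  have hprod : ∏ k ∈ range y, (t * (q + 1 + k)) = t ^ y * (y.factorial * (q + y).choose y) := by
    rw [prod_mul_distrib, prod_const, card_range, ← Nat.ascFactorial_eq_prod_range,
      Nat.ascFactorial_eq_factorial_mul_choose]
  have := hmod y
  rw [hprod] at this
  have h3 := this
  unfold Nat.ModEq at h3
  rw [Nat.mod_eq_of_lt hlt] at h3
  exact h3

open Dioph

variable {α : Type}

/-- Binomial coefficients of Diophantine functions are Diophantine. -/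
theorem choose_dioph {f g : (α → ℕ) → ℕ} (df : DiophFn f) (dg : DiophFn g) :
    DiophFn fun v => (f v).choose (g v) := by
  have h1 : DiophFn fun v : α → ℕ => (1 : ℕ) := const_dioph 1
  have h2 : DiophFn fun v : α → ℕ => (2 : ℕ) := const_dioph 2
  have hB : DiophFn fun v => 2 ^ (f v) + 1 := add_dioph (pow_dioph h2 df) h1
  have := mod_dioph (div_dioph (pow_dioph (add_dioph hB h1) df) (pow_dioph hB dg)) hB
  simpa only [← choose_eq] using this

/-- Factorials of Diophantine functions are Diophantine. -/
theorem factorial_dioph {f : (α → ℕ) → ℕ} (df : DiophFn f) :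
    DiophFn fun v => (f v).factorial := by
  have h1 : DiophFn fun v : α → ℕ => (1 : ℕ) := const_dioph 1
  have h2 : DiophFn fun v : α → ℕ => (2 : ℕ) := const_dioph 2
  have hr : DiophFn fun v => 2 * (f v + 1) ^ (f v + 2) + 1 :=
    add_dioph (mul_dioph h2 (pow_dioph (add_dioph df h1) (add_dioph df h2))) h1
  have := div_dioph (pow_dioph hr df) (choose_dioph hr df)
  simpa only [← factorial_eq'] using this

/-- The products `∏ k < y, (1 + (k + 1) * t)` are Diophantine in `t` and `y`. -/
theorem prod_dioph {f g : (α → ℕ) → ℕ} (df : DiophFn f) (dg : DiophFn g) :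
    DiophFn fun v => ∏ k ∈ range (g v), (1 + (k + 1) * f v) := by
  have h1 : DiophFn fun v : α → ℕ => (1 : ℕ) := const_dioph 1
  have hw : DiophFn fun v => (1 + g v * f v) ^ (g v) :=
    pow_dioph (add_dioph h1 (mul_dioph dg df)) dg
  have hM : DiophFn fun v => f v * (1 + g v * f v) ^ (g v) + 1 :=
    add_dioph (mul_dioph df hw) h1
  have hq := sub_dioph hM hw
  have := add_dioph (mod_dioph (mul_dioph (pow_dioph df dg)
    (mul_dioph (factorial_dioph dg) (choose_dioph (add_dioph hq dg) dg))) hM)
    (sub_dioph h1 df)
  simpa only [← prod_eq] using this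

end Pool.Agent.Lib.MRDPFact
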