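import Mathlib

/-!
# MacLane style planarity certificates exclude `K₅` and `K₃,₃` minors

A graph with an explicit list of edges `e` (end vertices `s e`, `t e`) and faces
(`l e`, `r e` are the two faces of the edge `e`) such that the face boundaries are cycles and
generate the cycle space over `ZMod 2` has no minor `K` whose girth `g` and cycle rank `c` satisfy
`2 |E(K)| < g (c + 1)`; in particular no `K₅` and no `K₃,₃` minor.
-/

set_option autoImplicit false

namespace Pool.Agent.MacLane

open Finset

/-- boundary of an edge chain -/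
def bd {V E : Type*} [Fintype E] [DecidableEq V] (s t : E → V) (x : E → ZMod 2) (w : V) : ZMod 2 :=
  ∑ e, x e * ((if s e = w then 1 else 0) + (if t e = w then 1 else 0))

theorem bd_add {V E : Type*} [Fintype E] [DecidableEq V] (s t : E → V) (x y : E → ZMod 2) (w : V) :
    bd s t (fun e => x e + y e) w = bd s t x w + bd s t y w := by
  simp only [bd, add_mul, Finset.sum_add_distrib]

theorem bd_sum {V E ι : Type*} [Fintype E] [DecidableEq V] (s t : E → V) (S : Finset ι)
    (c : ι → ZMod 2) (x : ι → E → ZMod 2) (w : V) :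
    bd s t (fun e => ∑ i ∈ S, c i * x i e) w = ∑ i ∈ S, c i * bd s t (x i) w := by
  simp only [bd, Finset.sum_mul, Finset.mul_sum]
  rw [Finset.sum_comm]
  apply Finset.sum_congr rfl
  intro i _
  apply Finset.sum_congr rfl
  intro e _
  ring

theorem bd_single {V E : Type*} [Fintype E] [DecidableEq V] [DecidableEq E] (s t : E → V) (e : E)
    (w : V) : bd s t (fun e' => if e' = e then 1 else 0) w =
      (if s e = w then 1 else 0) + (if t e = w then 1 else 0) := by
  simp [bd]

theorem z2_double (a : ZMod 2) : a + a = 0 := CharTwo.add_self_eq_zero a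

/-- A planarity certificate. -/
structure Cert {V E F : Type*} [Fintype E] [DecidableEq V] (G : SimpleGraph V) (s t : E → V)
    (l r : E → F) : Prop where
  adj : ∀ u v, G.Adj u v → ∃ e, (s e = u ∧ t e = v) ∨ (s e = v ∧ t e = u)
  face : ∀ (φ : F → ZMod 2) (w : V), bd s t (fun e => φ (l e) + φ (r e)) w = 0
  gen : ∀ z : E → ZMod 2, (∀ w, bd s t z w = 0) →
    ∃ φ : F → ZMod 2, ∀ e, z e = φ (l e) + φ (r e)

/-- chains joining two vertices of a connected set -/
theorem exists_chain {V E F : Type*} [Fintype E] [DecidableEq V] [DecidableEq E]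
    {G : SimpleGraph V} {s t : E → V} {l r : E → F} (hc : Cert G s t l r) (A : Set V)
    (u v : A) (hr : (G.induce A).Reachable u v) :
    ∃ x : E → ZMod 2, (∀ e, x e ≠ 0 → s e ∈ A ∧ t e ∈ A) ∧
      ∀ w, bd s t x w = (if (u : V) = w then 1 else 0) + (if (v : V) = w then 1 else 0) := by
  obtain ⟨p⟩ := hr
  induction p with
  | nil =>
    refine ⟨fun _ => 0, fun e h => absurd rfl h, ?_⟩
    intro w
    rw [z2_double]
    simp [bd]
  | @cons a b c hab p ih =>
    obtain ⟨x, hx1, hx2⟩ := ih
    have hab' : G.Adj (a : V) (b : V) := by simpa using hab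
    obtain ⟨e, he⟩ := hc.adj _ _ hab'
    refine ⟨fun e' => (if e' = e then 1 else 0) + x e', ?_, ?_⟩
    · intro e' he'
      by_cases h : e' = e
      · subst h
        rcases he with ⟨h1, h2⟩ | ⟨h1, h2⟩
        · rw [h1, h2]
          exact ⟨a.2, b.2⟩
        · rw [h1, h2]
          exact ⟨b.2, a.2⟩
      · apply hx1
        simpa [h] using he'
    · intro w
      rw [bd_add, hx2, bd_single]
      have key : ((if s e = w then (1 : ZMod 2) else 0) + (if t e = w then 1 else 0)) =
          (if (a : V) = w then 1 else 0) + (if (b : V) = w then 1 else 0) := by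
        rcases he with ⟨h1, h2⟩ | ⟨h1, h2⟩
        · rw [h1, h2]
        · rw [h1, h2, add_comm]
      rw [key]
      have h2 := z2_double (if (b : V) = w then (1 : ZMod 2) else 0)
      linear_combination h2

/-- the counting argument for a graph on `ι` with edge set `κ` and faces `Q` -/
theorem counting {Q ι κ : Type*} [Fintype Q] [DecidableEq Q]
    [Fintype ι] [DecidableEq ι] [Fintype κ] [DecidableEq κ]
    (a b : κ → ι) (p p' : κ → Q) (T : (Q → ZMod 2) → κ → ZMod 2)
    (hT : ∀ ψ k, T ψ k = ψ (p k) + ψ (p' k))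
    (hcyc : ∀ ψ i, bd a b (T ψ) i = 0)
    (hsurj : ∀ y : κ → ZMod 2, (∀ i, bd a b y i = 0) → ∃ ψ, T ψ = y)
    (g c : ℕ)
    (hgirth : ∀ y : κ → ZMod 2, (∀ i, bd a b y i = 0) → y ≠ 0 →
      g ≤ (univ.filter (fun k => y k ≠ 0)).card)
    (Y : Finset (κ → ZMod 2)) (hY : ∀ y ∈ Y, ∀ i, bd a b y i = 0) (hcount : 2 ^ c ≤ Y.card)
    (hc0 : 0 < c)
    (hbad : 2 * Fintype.card κ < g * (c + 1)) : False := by
  classical
  obtain ⟨β, hβ⟩ : ∃ β : Q → κ → ZMod 2, ∀ j, β j = T (fun j' => if j' = j then 1 else 0) :=
    ⟨_, fun _ => rfl⟩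
  have hTβ : ∀ ψ k, T ψ k = ∑ j, ψ j * β j k := by
    intro ψ k
    simp only [hβ, hT, mul_add, Finset.sum_add_distrib, mul_ite, mul_one, mul_zero]
    rw [Finset.sum_ite_eq, Finset.sum_ite_eq]
    simp
  have hβcyc : ∀ j i, bd a b (β j) i = 0 := by
    intro j i
    rw [hβ]
    exact hcyc _ i
  have hβsupp : ∀ j k, β j k ≠ 0 → j = p k ∨ j = p' k := by
    intro j k hjk
    by_contra hne
    push Not at hne
    apply hjk
    rw [hβ, hT]
    rw [if_neg (Ne.symm hne.1), if_neg (Ne.symm hne.2), add_zero]
  have hT' : ∀ (ψ : Q → ZMod 2) (c : ZMod 2), T (fun j => ψ j + c) = T ψ := by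
    intro ψ c
    funext k
    rw [hT, hT]
    have h2 := z2_double c
    linear_combination h2
  obtain ⟨J, hJmem⟩ : ∃ J : Finset Q, ∀ j, j ∈ J ↔ β j ≠ 0 :=
    ⟨univ.filter (fun j => β j ≠ 0), fun j => by simp⟩
  -- J is nonempty
  have hJne : J.Nonempty := by
    by_contra hJ
    rw [Finset.not_nonempty_iff_eq_empty] at hJ
    have hβ0 : ∀ j, β j = 0 := by
      intro j
      by_contra hne
      have : j ∈ J := (hJmem j).mpr hne
      rw [hJ] at this
      simp at this
    have h1 : Y ⊆ {0} := by
      intro y hy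
      obtain ⟨ψ, hψ⟩ := hsurj y (hY y hy)
      rw [Finset.mem_singleton, ← hψ]
      funext k
      rw [hTβ]
      simp [hβ0]
    have h2 := hcount.trans (Finset.card_le_card h1)
    rw [Finset.card_singleton] at h2
    have h3 : 2 ^ 1 ≤ 2 ^ c := Nat.pow_le_pow_right (by omega) hc0
    omega
  obtain ⟨j0, hj0⟩ := hJne
  have hcardJ : 2 ^ c ≤ 2 ^ (J.erase j0).card := by
    refine hcount.trans ?_
    have hsub : Y ⊆ (J.erase j0).powerset.image (fun S k => ∑ j ∈ S, β j k) := by
      intro y hy
      obtain ⟨ψ, hψ⟩ := hsurj y (hY y hy)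
      rw [Finset.mem_image]
      let ψ' : Q → ZMod 2 := fun j => ψ j + ψ j0
      refine ⟨(J.erase j0).filter (fun j => ψ' j = 1), ?_, ?_⟩
      · rw [Finset.mem_powerset]
        exact Finset.filter_subset _ _
      · rw [← hψ, ← hT' ψ (ψ j0)]
        change _ = T ψ'
        funext k
        rw [hTβ]
        have h01 : ∀ a : ZMod 2, a = 0 ∨ a = 1 := by decide
        rw [← Finset.sum_subset (Finset.subset_univ
          ((J.erase j0).filter (fun j => ψ' j = 1)))]
        · apply Finset.sum_congr rfl
          intro j hj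
          rw [Finset.mem_filter] at hj
          rw [hj.2, one_mul]
        · intro j _ hj
          rcases h01 (ψ' j) with h | h
          · rw [h, zero_mul]
          · by_cases hjJ : j ∈ J
            · have hjj0 : j = j0 := by
                by_contra hne
                apply hj
                rw [Finset.mem_filter, Finset.mem_erase]
                exact ⟨⟨hne, hjJ⟩, h⟩
              subst hjj0
              simp only [ψ'] at h
              rw [z2_double] at h
              exact absurd h (by decide)
            · have : β j = 0 := by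
                by_contra hne
                exact hjJ ((hJmem j).mpr hne)
              rw [this]
              simp
    refine (Finset.card_le_card hsub).trans (Finset.card_image_le.trans ?_)
    rw [Finset.card_powerset]
  have hJc : c + 1 ≤ J.card := by
    have h1 := (Nat.pow_le_pow_iff_right (by omega : 1 < 2)).mp hcardJ
    rw [Finset.card_erase_of_mem hj0] at h1
    have := Finset.card_pos.mpr ⟨j0, hj0⟩
    omega
  -- double counting
  have hlow : g * J.card ≤ ∑ j ∈ J, (univ.filter (fun k => β j k ≠ 0)).card := by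
    rw [mul_comm, ← smul_eq_mul, ← Finset.sum_const]
    apply Finset.sum_le_sum
    intro j hj
    exact hgirth (β j) (hβcyc j) ((hJmem j).mp hj)
  have hup : ∑ j ∈ J, (univ.filter (fun k => β j k ≠ 0)).card ≤ 2 * Fintype.card κ := by
    have h1 : ∑ j ∈ J, (univ.filter (fun k => β j k ≠ 0)).card ≤
        ∑ j : Q, (univ.filter (fun k => β j k ≠ 0)).card :=
      Finset.sum_le_sum_of_subset (Finset.subset_univ _)
    refine h1.trans ?_
    have h2 : ∑ j : Q, (univ.filter (fun k => β j k ≠ 0)).card =
        ∑ k : κ, (univ.filter (fun j : Q => β j k ≠ 0)).card := by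
      simp only [Finset.card_filter]
      rw [Finset.sum_comm]
    rw [h2]
    calc ∑ k : κ, (univ.filter (fun j : Q => β j k ≠ 0)).card ≤ ∑ _k : κ, 2 := by
          apply Finset.sum_le_sum
          intro k _
          have hsub : (univ.filter (fun j : Q => β j k ≠ 0)) ⊆
              {p k, p' k} := by
            intro j hj
            rw [Finset.mem_filter] at hj
            rw [Finset.mem_insert, Finset.mem_singleton]
            exact hβsupp j k hj.2
          exact (Finset.card_le_card hsub).trans Finset.card_le_two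
      _ = 2 * Fintype.card κ := by
          rw [Finset.sum_const, Finset.card_univ, smul_eq_mul, mul_comm]
  have h3 : g * (c + 1) ≤ g * J.card := Nat.mul_le_mul_left _ hJc
  omega

/-- **Minor exclusion.** -/
theorem no_minor {V E F ι κ : Type*} [Fintype E] [DecidableEq V] [DecidableEq E] [Finite F]
    [Fintype ι] [DecidableEq ι] [Fintype κ] [DecidableEq κ]
    {G : SimpleGraph V} {s t : E → V} {l r : E → F} (hc : Cert G s t l r)
    (a b : κ → ι) (hab : ∀ k, a k ≠ b k)
    (hinj : ∀ k k', (a k = a k' ∧ b k = b k') ∨ (a k = b k' ∧ b k = a k') → k = k')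
    (f : ι → Set V) (hconn : ∀ i, (G.induce (f i)).Connected)
    (hdisj : ∀ i j, i ≠ j → Disjoint (f i) (f j))
    (hedge : ∀ k, ∃ u ∈ f (a k), ∃ v ∈ f (b k), G.Adj u v) (g c : ℕ)
    (hgirth : ∀ y : κ → ZMod 2, (∀ i, bd a b y i = 0) → y ≠ 0 →
      g ≤ (univ.filter (fun k => y k ≠ 0)).card)
    (Y : Finset (κ → ZMod 2)) (hY : ∀ y ∈ Y, ∀ i, bd a b y i = 0) (hcount : 2 ^ c ≤ Y.card)
    (hc0 : 0 < c)
    (hbad : 2 * Fintype.card κ < g * (c + 1)) : False := by
  classical
  -- uniqueness of the branch set of a vertex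
  have huniq : ∀ i j (v : V), v ∈ f i → v ∈ f j → i = j := by
    intro i j v hi hj
    by_contra hne
    exact Set.disjoint_left.mp (hdisj i j hne) hi hj
  -- representative edges
  have hrep : ∀ k, ∃ e : E, (s e ∈ f (a k) ∧ t e ∈ f (b k)) ∨ (s e ∈ f (b k) ∧ t e ∈ f (a k)) := by
    intro k
    obtain ⟨u, hu, v, hv, huv⟩ := hedge k
    obtain ⟨e, he⟩ := hc.adj u v huv
    refine ⟨e, ?_⟩
    rcases he with ⟨h1, h2⟩ | ⟨h1, h2⟩
    · left; rw [h1, h2]; exact ⟨hu, hv⟩
    · right; rw [h1, h2]; exact ⟨hv, hu⟩
  choose ε hε using hrep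
  have hεinj : ∀ k k', ε k = ε k' → k = k' := by
    intro k k' h
    apply hinj
    have h1 := hε k
    have h2 := hε k'
    rw [h] at h1
    rcases h1 with ⟨x1, x2⟩ | ⟨x1, x2⟩ <;> rcases h2 with ⟨y1, y2⟩ | ⟨y1, y2⟩
    · exact Or.inl ⟨huniq _ _ _ x1 y1, huniq _ _ _ x2 y2⟩
    · exact Or.inr ⟨huniq _ _ _ x1 y1, huniq _ _ _ x2 y2⟩
    · exact Or.inr ⟨huniq _ _ _ x2 y2, huniq _ _ _ x1 y1⟩
    · exact Or.inl ⟨huniq _ _ _ x2 y2, huniq _ _ _ x1 y1⟩
  -- edges inside branch sets
  let C : E → Prop := fun e => ∃ i, s e ∈ f i ∧ t e ∈ f i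
  have hεC : ∀ k, ¬ C (ε k) := by
    rintro k ⟨i, h1, h2⟩
    rcases hε k with ⟨y1, y2⟩ | ⟨y1, y2⟩
    · exact hab k ((huniq _ _ _ y1 h1).trans (huniq _ _ _ y2 h2).symm)
    · exact hab k ((huniq _ _ _ y2 h2).trans (huniq _ _ _ y1 h1).symm)
  let N : E → Prop := fun e => ¬ C e ∧ ∀ k, ε k ≠ e
  -- the faces of the minor
  let R : F → F → Prop := fun p q => ∃ e, N e ∧ l e = p ∧ r e = q
  let st : Setoid F := Relation.EqvGen.setoid R
  let Q := Quotient st
  have : Finite Q := Quotient.finite _
  let _ : Fintype Q := Fintype.ofFinite _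
  let q : F → Q := Quotient.mk st
  have hqN : ∀ e, N e → q (l e) = q (r e) := by
    intro e he
    apply Quotient.sound
    exact Relation.EqvGen.rel _ _ ⟨e, he, rfl, rfl⟩
  let T : (Q → ZMod 2) → κ → ZMod 2 := fun ψ k => ψ (q (l (ε k))) + ψ (q (r (ε k)))
  -- images are cycles
  have hTcyc : ∀ ψ i, bd a b (T ψ) i = 0 := by
    intro ψ i
    let z : E → ZMod 2 := fun e => ψ (q (l e)) + ψ (q (r e))
    have hzb : ∀ w, bd s t z w = 0 := fun w => hc.face (fun p => ψ (q p)) w
    have hzN : ∀ e, N e → z e = 0 := by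
      intro e he
      simp only [z]
      rw [hqN e he, z2_double]
    -- indicator of the branch set
    have hsum : ∑ e, z e * ((if s e ∈ f i then 1 else 0) + (if t e ∈ f i then 1 else 0)) = 0 := by
      -- the set of endpoints
      let W : Finset V := (univ.image s ∪ univ.image t).filter (fun w => w ∈ f i)
      have h1 : ∑ w ∈ W, bd s t z w = 0 := Finset.sum_eq_zero (fun w _ => hzb w)
      refine Eq.trans ?_ h1
      simp only [bd]
      rw [Finset.sum_comm]
      apply Finset.sum_congr rfl
      intro e _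
      rw [← Finset.mul_sum, Finset.sum_add_distrib]
      congr 2
      · rw [Finset.sum_ite_eq]
        congr 1
        simp [W]
      · rw [Finset.sum_ite_eq]
        congr 1
        simp [W]
    have hval : ∀ k, z (ε k) * ((if s (ε k) ∈ f i then 1 else 0) +
        (if t (ε k) ∈ f i then 1 else 0)) =
        T ψ k * ((if a k = i then 1 else 0) + (if b k = i then 1 else 0)) := by
      intro k
      have hmem : ∀ (v : V) (j : ι), v ∈ f j → ((if v ∈ f i then (1 : ZMod 2) else 0) =
          (if j = i then 1 else 0)) := by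
        intro v j hv
        by_cases hji : j = i
        · subst hji
          simp [hv]
        · have : v ∉ f i := fun h => hji (huniq _ _ _ hv h)
          simp [this, hji]
      rcases hε k with ⟨y1, y2⟩ | ⟨y1, y2⟩
      · rw [hmem _ _ y1, hmem _ _ y2]
      · rw [hmem _ _ y1, hmem _ _ y2, add_comm (if b k = i then (1 : ZMod 2) else 0)]
    calc bd a b (T ψ) i = ∑ k, z (ε k) * ((if s (ε k) ∈ f i then 1 else 0) +
        (if t (ε k) ∈ f i then 1 else 0)) := by
          simp only [bd]
          exact Finset.sum_congr rfl (fun k _ => (hval k).symm)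
      _ = ∑ e ∈ univ.image ε, z e * ((if s e ∈ f i then 1 else 0) +
            (if t e ∈ f i then 1 else 0)) := by
          rw [Finset.sum_image]
          intro k _ k' _ h
          exact hεinj k k' h
      _ = ∑ e, z e * ((if s e ∈ f i then 1 else 0) + (if t e ∈ f i then 1 else 0)) := by
          apply Finset.sum_subset (Finset.subset_univ _)
          intro e _ he
          have he' : ∀ k, ε k ≠ e := by
            intro k hk
            exact he (Finset.mem_image.mpr ⟨k, Finset.mem_univ _, hk⟩)
          by_cases hCe : C e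
          · obtain ⟨j, hj1, hj2⟩ := hCe
            by_cases hji : j = i
            · subst hji
              simp only [hj1, hj2, if_true]
              rw [z2_double, mul_zero]
            · have h1 : s e ∉ f i := fun h => hji (huniq _ _ _ hj1 h)
              have h2 : t e ∉ f i := fun h => hji (huniq _ _ _ hj2 h)
              simp [h1, h2]
          · rw [hzN e ⟨hCe, he'⟩, zero_mul]
      _ = 0 := hsum
  -- surjectivity
  have hTsurj : ∀ y : κ → ZMod 2, (∀ i, bd a b y i = 0) → ∃ ψ, T ψ = y := by
    intro y hy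
    have hroot : ∀ i, ∃ ρ : V, ρ ∈ f i := by
      intro i
      obtain ⟨v⟩ := (hconn i).nonempty
      exact ⟨v.1, v.2⟩
    choose ρ hρ using hroot
    have hch : ∀ i (v : V), v ∈ f i → ∃ x : E → ZMod 2,
        (∀ e, x e ≠ 0 → s e ∈ f i ∧ t e ∈ f i) ∧
        ∀ w, bd s t x w = (if v = w then 1 else 0) + (if ρ i = w then 1 else 0) := by
      intro i v hv
      exact exists_chain hc (f i) ⟨v, hv⟩ ⟨ρ i, hρ i⟩ ((hconn i).preconnected _ _)
    -- endpoints
    have hend : ∀ k, ∃ u v : V, u ∈ f (a k) ∧ v ∈ f (b k) ∧ ∀ w,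
        ((if s (ε k) = w then (1 : ZMod 2) else 0) + (if t (ε k) = w then 1 else 0)) =
        (if u = w then 1 else 0) + (if v = w then 1 else 0) := by
      intro k
      rcases hε k with ⟨y1, y2⟩ | ⟨y1, y2⟩
      · exact ⟨_, _, y1, y2, fun w => rfl⟩
      · exact ⟨_, _, y2, y1, fun w => add_comm _ _⟩
    choose u v hu hv huv using hend
    choose x hx1 hx2 using (fun k => hch (a k) (u k) (hu k))
    choose x' hx1' hx2' using (fun k => hch (b k) (v k) (hv k))
    let z : E → ZMod 2 := fun e => ∑ k, y k * ((if e = ε k then 1 else 0) + (x k e + x' k e))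
    have hz : ∀ w, bd s t z w = 0 := by
      intro w
      simp only [z]
      rw [bd_sum s t univ y (fun k e => (if e = ε k then 1 else 0) + (x k e + x' k e)) w]
      have h1 : ∀ k, bd s t (fun e => (if e = ε k then 1 else 0) + (x k e + x' k e)) w =
          (if ρ (a k) = w then 1 else 0) + (if ρ (b k) = w then 1 else 0) := by
        intro k
        rw [bd_add, bd_add, bd_single, hx2, hx2', huv]
        have e1 := z2_double (if u k = w then (1 : ZMod 2) else 0)
        have e2 := z2_double (if v k = w then (1 : ZMod 2) else 0)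
        linear_combination e1 + e2
      simp_rw [h1]
      by_cases hw : ∃ i, ρ i = w
      · obtain ⟨i, rfl⟩ := hw
        refine Eq.trans ?_ (hy i)
        simp only [bd]
        apply Finset.sum_congr rfl
        intro k _
        have hρinj : ∀ j, (ρ j = ρ i) ↔ j = i := by
          intro j
          constructor
          · intro h
            exact huniq _ _ _ (hρ j) (h ▸ hρ i)
          · rintro rfl
            rfl
        simp only [hρinj]
      · have h2 : ∀ i, ρ i ≠ w := fun i h => hw ⟨i, h⟩
        simp [h2]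
    obtain ⟨φ, hφ⟩ := hc.gen z hz
    have hxC : ∀ k e, ¬ C e → x k e = 0 := by
      intro k e he
      by_contra hne
      exact he ⟨_, hx1 k e hne⟩
    have hxC' : ∀ k e, ¬ C e → x' k e = 0 := by
      intro k e he
      by_contra hne
      exact he ⟨_, hx1' k e hne⟩
    have hzN : ∀ e, N e → z e = 0 := by
      intro e he
      simp only [z]
      apply Finset.sum_eq_zero
      intro k _
      rw [hxC k e he.1, hxC' k e he.1, if_neg (fun h => he.2 k h.symm)]
      simp
    have hzε : ∀ k, z (ε k) = y k := by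
      intro k
      simp only [z]
      rw [Finset.sum_eq_single k]
      · rw [hxC k _ (hεC k), hxC' k _ (hεC k)]
        simp
      · intro k' _ hk'
        rw [hxC k' _ (hεC k), hxC' k' _ (hεC k), if_neg (fun h => hk' (hεinj k k' h).symm)]
        simp
      · intro h
        exact absurd (Finset.mem_univ _) h
    have hφR : ∀ p p', R p p' → φ p = φ p' := by
      rintro p p' ⟨e, he, rfl, rfl⟩
      have h1 := hφ e
      rw [hzN e he] at h1
      have h2 := z2_double (φ (r e))
      linear_combination -h1 - h2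
    let ψ : Q → ZMod 2 := Quotient.lift φ (by
      intro p p' hpp'
      have hg : Relation.EqvGen R p p' := hpp'
      induction hg with
      | rel _ _ h => exact hφR _ _ h
      | refl _ => rfl
      | symm _ _ _ ih => exact (ih ‹_›).symm
      | trans _ _ _ _ _ ih1 ih2 => exact (ih1 ‹_›).trans (ih2 ‹_›))
    refine ⟨ψ, ?_⟩
    funext k
    have : T ψ k = φ (l (ε k)) + φ (r (ε k)) := rfl
    rw [this, ← hφ, hzε]
  exact counting a b (fun k => q (l (ε k))) (fun k => q (r (ε k))) T (fun _ _ => rfl) hTcyc
    hTsurj g c hgirth Y hY hcount hc0 hbad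

end Pool.Agent.MacLane
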