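import Pool.Agent.Lib.MacLane

set_option autoImplicit false

namespace Pool.Agent.MacLane

open Finset

def a5 : Fin 10 → Fin 5 := ![0, 0, 0, 0, 1, 1, 1, 2, 2, 3]
def b5 : Fin 10 → Fin 5 := ![1, 2, 3, 4, 2, 3, 4, 3, 4, 4]

theorem girth5 : ∀ y : Fin 10 → ZMod 2, (∀ i, bd a5 b5 y i = 0) → y ≠ 0 →
    3 ≤ (univ.filter (fun k => y k ≠ 0)).card := by
  decide +kernel

theorem count5 : 2 ^ 6 ≤ (univ.filter (fun y : Fin 10 → ZMod 2 => ∀ i, bd a5 b5 y i = 0)).card := by
  decide +kernel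

def a33 : Fin 9 → Fin 3 ⊕ Fin 3 := ![.inl 0, .inl 0, .inl 0, .inl 1, .inl 1, .inl 1, .inl 2,
  .inl 2, .inl 2]
def b33 : Fin 9 → Fin 3 ⊕ Fin 3 := ![.inr 0, .inr 1, .inr 2, .inr 0, .inr 1, .inr 2, .inr 0,
  .inr 1, .inr 2]

theorem girth33 : ∀ y : Fin 9 → ZMod 2, (∀ i, bd a33 b33 y i = 0) → y ≠ 0 →
    4 ≤ (univ.filter (fun k => y k ≠ 0)).card := by
  decide +kernel

theorem count33 :
    2 ^ 4 ≤ (univ.filter (fun y : Fin 9 → ZMod 2 => ∀ i, bd a33 b33 y i = 0)).card := by
  decide +kernel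

/-- a planarity certificate excludes `K₅` minors -/
theorem no_K5 {V E F : Type*} [Fintype E] [DecidableEq V] [DecidableEq E] [Finite F]
    {G : SimpleGraph V} {s t : E → V} {l r : E → F} (hc : Cert G s t l r) :
    ¬ ∃ f : Fin 5 → Set V, (∀ i, (G.induce (f i)).Connected) ∧
      (∀ i j, i ≠ j → Disjoint (f i) (f j)) ∧
      (∀ i j, i ≠ j → ∃ u ∈ f i, ∃ v ∈ f j, G.Adj u v) := by
  rintro ⟨f, h1, h2, h3⟩
  exact no_minor hc a5 b5 (by decide) (by decide) f h1 h2 (fun k => h3 _ _ (by revert k; decide))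
    3 6 girth5 _ (fun y hy => (Finset.mem_filter.mp hy).2) count5 (by decide) (by simp)

/-- a planarity certificate excludes `K₃,₃` minors -/
theorem no_K33 {V E F : Type*} [Fintype E] [DecidableEq V] [DecidableEq E] [Finite F]
    {G : SimpleGraph V} {s t : E → V} {l r : E → F} (hc : Cert G s t l r) :
    ¬ ∃ f : Fin 3 ⊕ Fin 3 → Set V, (∀ i, (G.induce (f i)).Connected) ∧
      (∀ i j, i ≠ j → Disjoint (f i) (f j)) ∧
      (∀ i j, (completeBipartiteGraph (Fin 3) (Fin 3)).Adj i j →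
        ∃ u ∈ f i, ∃ v ∈ f j, G.Adj u v) := by
  rintro ⟨f, h1, h2, h3⟩
  have hadj : ∀ k, (completeBipartiteGraph (Fin 3) (Fin 3)).Adj (a33 k) (b33 k) := by
    intro k
    fin_cases k <;> simp [a33, b33, completeBipartiteGraph]
  exact no_minor hc a33 b33 (by decide) (by decide) f h1 h2 (fun k => h3 _ _ (hadj k))
    4 4 girth33 _ (fun y hy => (Finset.mem_filter.mp hy).2) count33 (by decide) (by simp)

/-- the generation condition from an explicit chain homotopy -/
theorem gen_of_homotopy {V E F : Type*} [Fintype V] [Fintype E] [DecidableEq V] [DecidableEq E]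
    (s t : E → V) (l r : E → F) (h1 : V → E → ZMod 2) (h2 : E → F → ZMod 2)
    (h : ∀ e e', (if e = e' then (1 : ZMod 2) else 0) =
      h1 (s e) e' + h1 (t e) e' + (h2 e (l e') + h2 e (r e')))
    (z : E → ZMod 2) (hz : ∀ w, bd s t z w = 0) :
    ∃ φ : F → ZMod 2, ∀ e, z e = φ (l e) + φ (r e) := by
  refine ⟨fun p => ∑ e, z e * h2 e p, ?_⟩
  intro e'
  have e1 : z e' = ∑ e, z e * (if e = e' then 1 else 0) := by simp
  rw [e1]
  simp_rw [h _ e', mul_add]
  rw [Finset.sum_add_distrib, Finset.sum_add_distrib, Finset.sum_add_distrib]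
  have e2 : ∑ w, bd s t z w * h1 w e' = 0 := Finset.sum_eq_zero (fun w _ => by rw [hz, zero_mul])
  have e3 : ∑ w, bd s t z w * h1 w e' =
      ∑ e, z e * h1 (s e) e' + ∑ e, z e * h1 (t e) e' := by
    simp only [bd, Finset.sum_mul]
    rw [Finset.sum_comm, ← Finset.sum_add_distrib]
    apply Finset.sum_congr rfl
    intro e _
    have : ∀ w, z e * ((if s e = w then 1 else 0) + (if t e = w then 1 else 0)) * h1 w e' =
        (if s e = w then z e * h1 w e' else 0) + (if t e = w then z e * h1 w e' else 0) := by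
      intro w
      split_ifs <;> ring
    simp_rw [this]
    rw [Finset.sum_add_distrib, Finset.sum_ite_eq, Finset.sum_ite_eq]
    simp
  rw [← e3, e2, zero_add]

/-- the face condition from a check on basis vectors -/
theorem face_of_check {V E F : Type*} [Fintype E] [Fintype F] [DecidableEq V] [DecidableEq F]
    (s t : E → V) (l r : E → F)
    (h : ∀ p w, bd s t (fun e => (if l e = p then 1 else 0) + (if r e = p then 1 else 0)) w = 0)
    (φ : F → ZMod 2) (w : V) : bd s t (fun e => φ (l e) + φ (r e)) w = 0 := by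
  have e1 : (fun e => φ (l e) + φ (r e)) = (fun e => ∑ p ∈ (univ : Finset F), φ p *
      ((if l e = p then 1 else 0) + (if r e = p then 1 else 0))) := by
    funext e
    simp_rw [mul_add]
    rw [Finset.sum_add_distrib]
    simp
  rw [e1, bd_sum s t univ φ
    (fun p e => (if l e = p then 1 else 0) + (if r e = p then 1 else 0)) w]
  exact Finset.sum_eq_zero (fun p _ => by rw [h, mul_zero])

end Pool.Agent.MacLane
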