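import Mathlib

/-!
# Sign alternations of finite real sequences

`Alt x n k` says that among `x 0, …, x (n-1)` one can find `k+1` entries (in increasing order of
index) that are nonzero and alternate in sign, i.e. the sequence has at least `k` sign changes.
-/

set_option autoImplicit false

namespace Pool.Agent.SignAlternation

/-- `Alt x n k`: the sequence `x 0, …, x (n-1)` has at least `k` sign changes. -/
def Alt (x : ℕ → ℝ) (n k : ℕ) : Prop :=
  ∃ (i : ℕ → ℕ) (s : ℝ), (∀ j < k, i j < i (j + 1)) ∧ i k < n ∧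
    ∀ j ≤ k, 0 < s * (-1) ^ j * x (i j)

/-- Entering the positive region. -/
lemma exists_enter (f : ℕ → ℝ) {a b : ℕ} (hab : a < b) (ha : f a ≤ 0) (hb : 0 < f b) :
    ∃ p, a < p ∧ p ≤ b ∧ f (p - 1) ≤ 0 ∧ 0 < f p := by
  classical
  have hex : ∃ p, a < p ∧ 0 < f p := ⟨b, hab, hb⟩
  refine ⟨Nat.find hex, (Nat.find_spec hex).1, Nat.find_min' hex ⟨hab, hb⟩, ?_,
    (Nat.find_spec hex).2⟩
  have h1 := (Nat.find_spec hex).1
  by_cases h : Nat.find hex - 1 = a
  · rw [h]; exact ha
  · have hlt : Nat.find hex - 1 < Nat.find hex := by omega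
    have := Nat.find_min hex hlt
    have h2 : a < Nat.find hex - 1 := by omega
    by_contra hcon
    exact this ⟨h2, not_le.mp hcon⟩

/-- Leaving the positive region. -/
lemma exists_leave (f : ℕ → ℝ) {a b : ℕ} (hab : a < b) (ha : 0 < f a) (hb : f b ≤ 0) :
    ∃ p, a < p ∧ p ≤ b ∧ 0 < f (p - 1) ∧ f p ≤ 0 := by
  classical
  have hex : ∃ p, a < p ∧ f p ≤ 0 := ⟨b, hab, hb⟩
  refine ⟨Nat.find hex, (Nat.find_spec hex).1, Nat.find_min' hex ⟨hab, hb⟩, ?_,
    (Nat.find_spec hex).2⟩
  have h1 := (Nat.find_spec hex).1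
  by_cases h : Nat.find hex - 1 = a
  · rw [h]; exact ha
  · have hlt : Nat.find hex - 1 < Nat.find hex := by omega
    have := Nat.find_min hex hlt
    have h2 : a < Nat.find hex - 1 := by omega
    by_contra hcon
    exact this ⟨h2, not_lt.mp hcon⟩

lemma strict_of_step {i : ℕ → ℕ} {k : ℕ} (h : ∀ j < k, i j < i (j + 1)) :
    ∀ a b, a < b → b ≤ k → i a < i b := by
  intro a b hab hbk
  induction b with
  | zero => omega
  | succ b ih =>
    rcases Nat.lt_or_ge a b with h1 | h1
    · exact lt_trans (ih h1 (by omega)) (h b (by omega))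
    · have : a = b := by omega
      subst this
      exact h a (by omega)

lemma Alt.mono {x : ℕ → ℝ} {n k l : ℕ} (h : Alt x n k) (hl : l ≤ k) : Alt x n l := by
  obtain ⟨i, s, h1, h2, h3⟩ := h
  refine ⟨i, s, fun j hj => h1 j (by omega), ?_, fun j hj => h3 j (by omega)⟩
  rcases Nat.lt_or_ge l k with h | h
  · exact lt_trans (strict_of_step h1 l k h le_rfl) h2
  · have : l = k := by omega
    subst this; exact h2

lemma Alt.lt {x : ℕ → ℝ} {n k : ℕ} (h : Alt x n k) : k < n := by
  obtain ⟨i, s, h1, h2, h3⟩ := h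
  have : ∀ j ≤ k, j ≤ i j := by
    intro j hj
    induction j with
    | zero => omega
    | succ j ih => have := ih (by omega); have := h1 j (by omega); omega
  exact lt_of_le_of_lt (this k le_rfl) h2

lemma alt_zero_of_ne {x : ℕ → ℝ} {n i : ℕ} (hi : i < n) (hx : x i ≠ 0) : Alt x n 0 := by
  refine ⟨fun _ => i, x i, by intro j hj; omega, hi, ?_⟩
  intro j hj
  have : j = 0 := by omega
  subst this
  have := mul_self_pos.mpr hx
  simpa using this

lemma Alt.smul {x : ℕ → ℝ} {n k : ℕ} (h : Alt x n k) {c : ℝ} (hc : c ≠ 0) :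
    Alt (fun i => c * x i) n k := by
  obtain ⟨i, s, h1, h2, h3⟩ := h
  refine ⟨i, s * c, h1, h2, ?_⟩
  intro j hj
  have h4 := h3 j hj
  have hc2 : 0 < c * c := mul_self_pos.mpr hc
  have : s * c * (-1) ^ j * (c * x (i j)) = (c * c) * (s * (-1) ^ j * x (i j)) := by ring
  rw [this]; positivity

lemma Alt.congr {x y : ℕ → ℝ} {n k : ℕ} (h : Alt x n k) (hxy : ∀ i < n, x i = y i) :
    Alt y n k := by
  obtain ⟨i, s, h1, h2, h3⟩ := h
  refine ⟨i, s, h1, h2, ?_⟩
  intro j hj
  have hlt : i j < n := by
    rcases Nat.lt_or_ge j k with h | h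
    · exact lt_trans (strict_of_step h1 j k h le_rfl) h2
    · have : j = k := by omega
      subst this; exact h2
  rw [← hxy _ hlt]; exact h3 j hj

/-- Multiplication by a linear factor creates a sign change:
if `c₀ = -β₀ d₀`, `c_{i+1} = α_i d_i - β_{i+1} d_{i+1}` with positive `α, β`,
then `c` has at least one more sign change than `d`. -/
lemma alt_succ {d c α β : ℕ → ℝ} {n k : ℕ}
    (hα : ∀ i < n, 0 < α i) (hβ : ∀ i < n, 0 < β i)
    (h0 : c 0 = -(β 0 * d 0))
    (hs : ∀ i < n, c (i + 1) = α i * d i - β (i + 1) * d (i + 1))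
    (hz : d n = 0) (h : Alt d n k) : Alt c (n + 1) (k + 1) := by
  classical
  obtain ⟨i, s, h1, h2, h3⟩ := h
  have hmono := strict_of_step h1
  have hin : ∀ j ≤ k, i j < n := by
    intro j hj
    rcases Nat.lt_or_ge j k with h | h
    · exact lt_trans (hmono j k h le_rfl) h2
    · have : j = k := by omega
      subst this; exact h2
  -- sign statement for an interior index
  have key : ∀ j ≤ k + 1, ∃ p, (∀ j', j = j' + 1 → i j' < p) ∧ (j ≤ k → p ≤ i j) ∧ p ≤ n ∧
      0 < (-s) * (-1) ^ j * c p := by
    intro j hj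
    rcases Nat.eq_zero_or_pos j with rfl | hjpos
    · -- first index
      have hpos : 0 < s * d (i 0) := by simpa using h3 0 (by omega)
      have hex : ∃ p, 0 < s * d p := ⟨i 0, hpos⟩
      refine ⟨Nat.find hex, by intro j' hj'; omega, fun _ => Nat.find_min' hex hpos, ?_, ?_⟩
      · exact le_trans (Nat.find_min' hex hpos) (le_of_lt (hin 0 (by omega)))
      · have hp := Nat.find_spec hex
        have hple : Nat.find hex ≤ i 0 := Nat.find_min' hex hpos
        have hpn : Nat.find hex < n := lt_of_le_of_lt hple (hin 0 (by omega))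
        rcases Nat.eq_zero_or_pos (Nat.find hex) with hp0 | hp0
        · rw [hp0] at hp ⊢
          rw [h0]
          have hn : 0 < n := by omega
          have : -s * (-1) ^ 0 * -(β 0 * d 0) = β 0 * (s * d 0) := by ring
          rw [this]; exact mul_pos (hβ 0 hn) hp
        · obtain ⟨q, hq⟩ : ∃ q, Nat.find hex = q + 1 := ⟨Nat.find hex - 1, by omega⟩
          have hq' : ¬ 0 < s * d q := Nat.find_min hex (by omega)
          rw [hq] at hp hpn ⊢
          rw [hs q (by omega)]
          have e : -s * (-1) ^ 0 * (α q * d q - β (q + 1) * d (q + 1)) =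
            β (q + 1) * (s * d (q + 1)) - α q * (s * d q) := by ring
          rw [e]
          have := mul_pos (hβ (q + 1) hpn) hp
          have := mul_nonpos_of_nonneg_of_nonpos (le_of_lt (hα q (by omega))) (not_lt.mp hq')
          linarith
    · obtain ⟨j', rfl⟩ : ∃ j', j = j' + 1 := ⟨j - 1, by omega⟩
      rcases Nat.lt_or_ge j' k with hjk | hjk
      · -- interior crossing between i j' and i (j'+1)
        set σ : ℝ := s * (-1) ^ (j' + 1) with hσ
        have ha : σ * d (i j') ≤ 0 := by
          have := h3 j' (by omega)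
          have e : σ * d (i j') = -(s * (-1) ^ j' * d (i j')) := by rw [hσ]; ring
          rw [e]; linarith
        have hb : 0 < σ * d (i (j' + 1)) := h3 (j' + 1) (by omega)
        obtain ⟨p, hp1, hp2, hp3, hp4⟩ :=
          exists_enter (fun q => σ * d q) (h1 j' hjk) ha hb
        have hpn : p < n := lt_of_le_of_lt hp2 (hin (j' + 1) (by omega))
        obtain ⟨q, rfl⟩ : ∃ q, p = q + 1 := ⟨p - 1, by omega⟩
        refine ⟨q + 1, ?_, fun _ => hp2, le_of_lt hpn, ?_⟩
        · intro j'' hj''
          have : j'' = j' := by omega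
          subst this; exact hp1
        · rw [hs q (by omega)]
          simp only [Nat.add_sub_cancel] at hp3
          have e : -s * (-1) ^ (j' + 1) * (α q * d q - β (q + 1) * d (q + 1)) =
            β (q + 1) * (σ * d (q + 1)) - α q * (σ * d q) := by rw [hσ]; ring
          rw [e]
          have := mul_pos (hβ (q + 1) hpn) hp4
          have := mul_nonpos_of_nonneg_of_nonpos (le_of_lt (hα q (by omega))) hp3
          linarith
      · -- last crossing
        have hjk' : j' = k := by omega
        subst hjk'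
        set σ : ℝ := s * (-1) ^ j' with hσ
        have ha : 0 < σ * d (i j') := h3 j' le_rfl
        have hb : σ * d n ≤ 0 := by rw [hz]; simp
        obtain ⟨p, hp1, hp2, hp3, hp4⟩ :=
          exists_leave (fun q => σ * d q) h2 ha hb
        obtain ⟨q, rfl⟩ : ∃ q, p = q + 1 := ⟨p - 1, by omega⟩
        refine ⟨q + 1, ?_, fun h => by omega, hp2, ?_⟩
        · intro j'' hj''
          have : j'' = j' := by omega
          subst this; exact hp1
        · rw [hs q (by omega)]
          simp only [Nat.add_sub_cancel] at hp3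
          have e : -s * (-1) ^ (j' + 1) * (α q * d q - β (q + 1) * d (q + 1)) =
            α q * (σ * d q) - β (q + 1) * (σ * d (q + 1)) := by rw [hσ]; ring
          rw [e]
          have h5 := mul_pos (hα q (by omega)) hp3
          have h6 : β (q + 1) * (σ * d (q + 1)) ≤ 0 := by
            rcases Nat.lt_or_ge (q + 1) n with hqn | hqn
            · exact mul_nonpos_of_nonneg_of_nonpos (le_of_lt (hβ (q + 1) hqn)) hp4
            · have : q + 1 = n := by omega
              rw [this, hz]; simp
          linarith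
  choose! p hp1 hp2 hp3 hp4 using key
  refine ⟨p, -s, ?_, ?_, hp4⟩
  · intro j hj
    exact lt_of_le_of_lt (hp2 j (by omega) (by omega)) (hp1 (j + 1) (by omega) j rfl)
  · exact Nat.lt_succ_of_le (hp3 (k + 1) le_rfl)

/-- The alternating signature. -/
def J (x : ℕ → ℝ) : ℕ → ℝ := fun i => (-1) ^ i * x i

lemma enter_points {x : ℕ → ℝ} {k : ℕ} {i : ℕ → ℕ} {s : ℝ}
    (h1 : ∀ j < k, i j < i (j + 1)) (h3 : ∀ j ≤ k, 0 < s * (-1) ^ j * x (i j)) :
    ∃ p : ℕ → ℕ, ∀ j < k, i j < p j ∧ p j ≤ i (j + 1) ∧ x (p j) ≠ 0 ∧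
      x (p j - 1) * x (p j) ≤ 0 := by
  have key : ∀ j < k, ∃ p, i j < p ∧ p ≤ i (j + 1) ∧ x p ≠ 0 ∧ x (p - 1) * x p ≤ 0 := by
    intro j hj
    have ha : (s * (-1) ^ (j + 1)) * x (i j) ≤ 0 := by
      have := h3 j (by omega)
      have e : (s * (-1) ^ (j + 1)) * x (i j) = -(s * (-1) ^ j * x (i j)) := by ring
      rw [e]; linarith
    have hb : 0 < (s * (-1) ^ (j + 1)) * x (i (j + 1)) := h3 (j + 1) (by omega)
    obtain ⟨p, hp1, hp2, hp3, hp4⟩ :=
      exists_enter (fun q => (s * (-1) ^ (j + 1)) * x q) (h1 j hj) ha hb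
    refine ⟨p, hp1, hp2, ?_, ?_⟩
    · intro h0; simp [h0] at hp4
    · have h5 : ((s * (-1) ^ (j + 1)) * x (p - 1)) * ((s * (-1) ^ (j + 1)) * x p) ≤ 0 :=
        mul_nonpos_of_nonpos_of_nonneg hp3 (le_of_lt hp4)
      have e : ((s * (-1) ^ (j + 1)) * x (p - 1)) * ((s * (-1) ^ (j + 1)) * x p) =
        (s * (-1) ^ (j + 1)) ^ 2 * (x (p - 1) * x p) := by ring
      rw [e] at h5
      have h6 : 0 < (s * (-1) ^ (j + 1)) ^ 2 := by
        have : s * (-1) ^ (j + 1) ≠ 0 := by
          intro h0; rw [h0] at hp4; simp at hp4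
        positivity
      by_contra hcon
      have := mul_pos h6 (not_le.mp hcon)
      linarith
  choose! p hp using key
  exact ⟨p, hp⟩

lemma leave_points {x : ℕ → ℝ} {k : ℕ} {i : ℕ → ℕ} {s : ℝ}
    (h1 : ∀ j < k, i j < i (j + 1)) (h3 : ∀ j ≤ k, 0 < s * (-1) ^ j * x (i j)) :
    ∃ p : ℕ → ℕ, ∀ j < k, i j < p j ∧ p j ≤ i (j + 1) ∧ x (p j - 1) ≠ 0 ∧
      x (p j - 1) * x (p j) ≤ 0 := by
  have key : ∀ j < k, ∃ p, i j < p ∧ p ≤ i (j + 1) ∧ x (p - 1) ≠ 0 ∧ x (p - 1) * x p ≤ 0 := by
    intro j hj
    have ha : 0 < (s * (-1) ^ j) * x (i j) := h3 j (by omega)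
    have hb : (s * (-1) ^ j) * x (i (j + 1)) ≤ 0 := by
      have := h3 (j + 1) (by omega)
      have e : (s * (-1) ^ j) * x (i (j + 1)) = -(s * (-1) ^ (j + 1) * x (i (j + 1))) := by ring
      rw [e]; linarith
    obtain ⟨p, hp1, hp2, hp3, hp4⟩ :=
      exists_leave (fun q => (s * (-1) ^ j) * x q) (h1 j hj) ha hb
    refine ⟨p, hp1, hp2, ?_, ?_⟩
    · intro h0; simp [h0] at hp3
    · have h5 : ((s * (-1) ^ j) * x (p - 1)) * ((s * (-1) ^ j) * x p) ≤ 0 :=
        mul_nonpos_of_nonneg_of_nonpos (le_of_lt hp3) hp4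
      have e : ((s * (-1) ^ j) * x (p - 1)) * ((s * (-1) ^ j) * x p) =
        (s * (-1) ^ j) ^ 2 * (x (p - 1) * x p) := by ring
      rw [e] at h5
      have h6 : 0 < (s * (-1) ^ j) ^ 2 := by
        have : s * (-1) ^ j ≠ 0 := by
          intro h0; rw [h0] at hp3; simp at hp3
        positivity
      by_contra hcon
      have := mul_pos h6 (not_le.mp hcon)
      linarith
  choose! p hp using key
  exact ⟨p, hp⟩

/-- The basic bound `S⁻(x) + S⁻(Jx) ≤ n - 1`, with a gain when `x₀ = 0`;
`e = 1` if `x 0 = 0` is assumed, `e = 0` otherwise. -/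
lemma alt_add_alt_J_aux {x : ℕ → ℝ} {n k l e : ℕ} (he : e ≤ 1) (hx0 : e = 1 → x 0 = 0)
    (hk : Alt x n k) (hl : Alt (J x) n l) : k + l + 1 + e ≤ n := by
  classical
  obtain ⟨i, s, h1, h2, h3⟩ := hk
  obtain ⟨i', s', h1', h2', h3'⟩ := hl
  obtain ⟨p, hp⟩ := enter_points h1 h3
  obtain ⟨q, hq⟩ := leave_points h1' h3'
  have hm := strict_of_step h1
  have hm' := strict_of_step h1'
  have hi0 : e ≤ i 0 := by
    rcases Nat.eq_zero_or_pos (i 0) with h | h
    · have := h3 0 (by omega)
      rw [h] at this
      interval_cases e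
      · omega
      · rw [hx0 rfl] at this; simp at this
    · omega
  have hi0' : e ≤ i' 0 := by
    rcases Nat.eq_zero_or_pos (i' 0) with h | h
    · have := h3' 0 (by omega)
      rw [h] at this
      interval_cases e
      · omega
      · simp [J, hx0 rfl] at this
    · omega
  have hle : ∀ j ≤ k, i 0 ≤ i j := fun j hj => by
    rcases Nat.eq_zero_or_pos j with rfl | h
    · exact le_rfl
    · exact le_of_lt (hm 0 j h hj)
  have hle' : ∀ j ≤ l, i' 0 ≤ i' j := fun j hj => by
    rcases Nat.eq_zero_or_pos j with rfl | h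
    · exact le_rfl
    · exact le_of_lt (hm' 0 j h hj)
  have hle2 : ∀ j ≤ k, i j ≤ i k := fun j hj => by
    rcases Nat.lt_or_ge j k with h | h
    · exact le_of_lt (hm j k h le_rfl)
    · have : j = k := by omega
      subst this; exact le_rfl
  have hle2' : ∀ j ≤ l, i' j ≤ i' l := fun j hj => by
    rcases Nat.lt_or_ge j l with h | h
    · exact le_of_lt (hm' j l h le_rfl)
    · have : j = l := by omega
      subst this; exact le_rfl
  -- injectivity
  have pinj : ∀ a < k, ∀ b < k, a < b → p a < p b := by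
    intro a ha b hb hab
    have := (hp a ha).2.1
    have h4 := (hp b hb).1
    have h5 : i (a + 1) ≤ i b := by
      rcases Nat.lt_or_ge (a + 1) b with h | h
      · exact le_of_lt (hm (a + 1) b h (by omega))
      · have : b = a + 1 := by omega
        rw [this]
    omega
  have qinj : ∀ a < l, ∀ b < l, a < b → q a < q b := by
    intro a ha b hb hab
    have := (hq a ha).2.1
    have h4 := (hq b hb).1
    have h5 : i' (a + 1) ≤ i' b := by
      rcases Nat.lt_or_ge (a + 1) b with h | h
      · exact le_of_lt (hm' (a + 1) b h (by omega))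
      · have : b = a + 1 := by omega
        rw [this]
    omega
  set P : Finset ℕ := (Finset.range k).image p with hP
  set Q : Finset ℕ := (Finset.range l).image q with hQ
  have hPcard : P.card = k := by
    rw [hP, Finset.card_image_of_injOn, Finset.card_range]
    intro a ha b hb hab
    simp only [Finset.coe_range, Set.mem_Iio] at ha hb
    rcases lt_trichotomy a b with h | h | h
    · have := pinj a ha b hb h; omega
    · exact h
    · have := pinj b hb a ha h; omega
  have hQcard : Q.card = l := by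
    rw [hQ, Finset.card_image_of_injOn, Finset.card_range]
    intro a ha b hb hab
    simp only [Finset.coe_range, Set.mem_Iio] at ha hb
    rcases lt_trichotomy a b with h | h | h
    · have := qinj a ha b hb h; omega
    · exact h
    · have := qinj b hb a ha h; omega
  have hdisj : Disjoint P Q := by
    rw [Finset.disjoint_left]
    intro a haP haQ
    rw [hP, Finset.mem_image] at haP
    rw [hQ, Finset.mem_image] at haQ
    obtain ⟨b, hb, rfl⟩ := haP
    obtain ⟨b', hb', hbb⟩ := haQ
    have hp' := hp b (Finset.mem_range.mp hb)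
    have hq' := hq b' (Finset.mem_range.mp hb')
    rw [hbb] at hq'
    obtain ⟨w, hw⟩ : ∃ w, p b = w + 1 := ⟨p b - 1, by omega⟩
    rw [hw] at hp' hq'
    simp only [Nat.add_sub_cancel, J] at hp' hq'
    have hx1 : x w ≠ 0 := by
      intro h0; apply hq'.2.2.1; rw [h0]; ring
    have hx2 := hp'.2.2.1
    have hx3 := hp'.2.2.2
    have hx4 := hq'.2.2.2
    have e4 : (-1 : ℝ) ^ w * x w * ((-1) ^ (w + 1) * x (w + 1)) = -(x w * x (w + 1)) := by
      have : ((-1 : ℝ) ^ w) * ((-1) ^ w) = 1 := by
        rw [← pow_add, ← two_mul, pow_mul]; simp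
      calc (-1 : ℝ) ^ w * x w * ((-1) ^ (w + 1) * x (w + 1))
          = -(((-1 : ℝ) ^ w) * ((-1) ^ w)) * (x w * x (w + 1)) := by ring
        _ = _ := by rw [this]; ring
    rw [e4] at hx4
    have : x w * x (w + 1) = 0 := by linarith
    rcases mul_eq_zero.mp this with h | h
    · exact hx1 h
    · exact hx2 h
  have hsub : P ∪ Q ⊆ Finset.Ico (1 + e) n := by
    intro a ha
    rw [Finset.mem_union] at ha
    rw [Finset.mem_Ico]
    rcases ha with ha | ha
    · rw [hP, Finset.mem_image] at ha
      obtain ⟨b, hb, rfl⟩ := ha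
      have hb := Finset.mem_range.mp hb
      have := hp b hb
      have := hle b (by omega)
      have := hle2 (b + 1) (by omega)
      omega
    · rw [hQ, Finset.mem_image] at ha
      obtain ⟨b, hb, rfl⟩ := ha
      have hb := Finset.mem_range.mp hb
      have := hq b hb
      have := hle' b (by omega)
      have := hle2' (b + 1) (by omega)
      omega
  have hcard := Finset.card_le_card hsub
  rw [Finset.card_union_of_disjoint hdisj, hPcard, hQcard, Nat.card_Ico] at hcard
  have : i 0 ≤ i k := hle k le_rfl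
  omega

lemma alt_add_alt_J {x : ℕ → ℝ} {n k l : ℕ} (hk : Alt x n k) (hl : Alt (J x) n l) :
    k + l + 1 ≤ n := by
  have := alt_add_alt_J_aux (e := 0) (by omega) (by omega) hk hl
  omega

lemma alt_add_alt_J_zero {x : ℕ → ℝ} {n k l : ℕ} (h0 : x 0 = 0) (hk : Alt x n k)
    (hl : Alt (J x) n l) : k + l + 2 ≤ n := by
  have := alt_add_alt_J_aux (e := 1) (by omega) (fun _ => h0) hk hl
  omega

/-- Splitting a sequence of length `m + m'` with at least `k` sign changes, `k ≥ m, m'`. -/
lemma alt_split {x y c : ℕ → ℝ} {m m' k : ℕ} (hx : ∀ i < m, c i = x i)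
    (hy : ∀ i < m', c (m + i) = y i) (hk : m ≤ k) (hk' : m' ≤ k)
    (h : Alt c (m + m') k) : ∃ a b, Alt x m a ∧ Alt y m' b ∧ a + b + 1 = k := by
  classical
  obtain ⟨i, s, h1, h2, h3⟩ := h
  have hm := strict_of_step h1
  have hge : ∀ j ≤ k, j ≤ i j := by
    intro j hj
    induction j with
    | zero => omega
    | succ j ih => have := ih (by omega); have := h1 j (by omega); omega
  have hle : ∀ j ≤ k, i j + (k - j) < m + m' := by
    intro j hj
    obtain ⟨d, rfl⟩ : ∃ d, k = j + d := ⟨k - j, by omega⟩
    have : ∀ e ≤ d, i j + e ≤ i (j + e) := by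
      intro e he
      induction e with
      | zero => simp
      | succ e ih =>
        have := ih (by omega)
        have := h1 (j + e) (by omega)
        have e1 : j + (e + 1) = j + e + 1 := by ring
        rw [e1]; omega
    have := this d le_rfl
    omega
  -- first index at which we are in the second block
  have hex : ∃ j, m ≤ i j ∨ k < j := ⟨k + 1, Or.inr (by omega)⟩
  set a := Nat.find hex with ha
  have ha_spec := Nat.find_spec hex
  have hak : a ≤ k := by
    have hmk : m ≤ i k := by have := hge k le_rfl; omega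
    exact Nat.find_min' hex (Or.inl hmk)
  have ha1 : m ≤ i a := by
    rcases ha_spec with h | h
    · exact h
    · exfalso; omega
  have hapos : 0 < a := by
    rcases Nat.eq_zero_or_pos a with h | h
    · exfalso
      rw [h] at ha1
      have := hle 0 (by omega)
      omega
    · exact h
  have hlt : ∀ j < a, i j < m := by
    intro j hj
    have := Nat.find_min hex hj
    push Not at this
    exact this.1
  refine ⟨a - 1, k - a, ?_, ?_, by omega⟩
  · refine ⟨i, s, fun j hj => h1 j (by omega), hlt (a - 1) (by omega), ?_⟩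
    intro j hj
    rw [← hx _ (hlt j (by omega))]
    exact h3 j (by omega)
  · refine ⟨fun j => i (a + j) - m, s * (-1) ^ a, ?_, ?_, ?_⟩
    · intro j hj
      have h4 := h1 (a + j) (by omega)
      have h5 : m ≤ i (a + j) := by
        rcases Nat.eq_zero_or_pos j with rfl | h
        · simpa using ha1
        · have := hm a (a + j) (by omega) (by omega); omega
      have e1 : a + (j + 1) = a + j + 1 := by ring
      simp only [e1]
      omega
    · have e1 : a + (k - a) = k := by omega
      simp only [e1]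
      have := hge k le_rfl
      omega
    · intro j hj
      have h5 : m ≤ i (a + j) := by
        rcases Nat.eq_zero_or_pos j with rfl | h
        · simpa using ha1
        · have := hm a (a + j) (by omega) (by omega); omega
      have h6 : i (a + j) < m + m' := by
        have := hle (a + j) (by omega); omega
      have h7 := h3 (a + j) (by omega)
      have h8 := hy (i (a + j) - m) (by omega)
      have e2 : m + (i (a + j) - m) = i (a + j) := by omega
      rw [e2] at h8
      rw [h8, pow_add] at h7
      calc 0 < s * ((-1) ^ a * (-1) ^ j) * y (i (a + j) - m) := h7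
        _ = _ := by ring

/-- Variation diminishing for a nonnegative upper bidiagonal matrix. -/
lemma alt_bidiag {c c' p q : ℕ → ℝ} {n k : ℕ} (hp : ∀ i < n, 0 ≤ p i) (hq : ∀ i < n, 0 ≤ q i)
    (hc : ∀ i < n, c' i = p i * c i + q i * c (i + 1)) (hz : c n = 0) (h : Alt c' n k) :
    Alt c n k := by
  classical
  obtain ⟨i, s, h1, h2, h3⟩ := h
  have hm := strict_of_step h1
  have hin : ∀ j ≤ k, i j < n := by
    intro j hj
    rcases Nat.lt_or_ge j k with h | h
    · exact lt_trans (hm j k h le_rfl) h2
    · have : j = k := by omega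
      subst this; exact h2
  have key : ∀ j ≤ k, ∃ e, i j ≤ e ∧ e ≤ i j + 1 ∧ 0 < s * (-1) ^ j * c e := by
    intro j hj
    have h4 := h3 j hj
    rw [hc _ (hin j hj)] at h4
    by_contra hcon
    push Not at hcon
    have h5 := hcon (i j) le_rfl (by omega)
    have h6 := hcon (i j + 1) (by omega) le_rfl
    have h7 := mul_nonpos_of_nonneg_of_nonpos (hp _ (hin j hj)) h5
    have h8 := mul_nonpos_of_nonneg_of_nonpos (hq _ (hin j hj)) h6
    have e : s * (-1) ^ j * (p (i j) * c (i j) + q (i j) * c (i j + 1)) =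
      p (i j) * (s * (-1) ^ j * c (i j)) + q (i j) * (s * (-1) ^ j * c (i j + 1)) := by ring
    rw [e] at h4
    linarith
  choose! e he1 he2 he3 using key
  refine ⟨e, s, ?_, ?_, he3⟩
  · intro j hj
    have h4 := he2 j (by omega)
    have h5 := he1 (j + 1) (by omega)
    have h6 := h1 j hj
    rcases Nat.lt_or_ge (e j) (e (j + 1)) with h | h
    · exact h
    · exfalso
      have : e j = e (j + 1) := by omega
      have h7 := he3 j (by omega)
      have h8 := he3 (j + 1) (by omega)
      rw [this] at h7
      have : s * (-1) ^ (j + 1) * c (e (j + 1)) = -(s * (-1) ^ j * c (e (j + 1))) := by ring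
      rw [this] at h8
      linarith
  · have h4 := he2 k le_rfl
    rcases Nat.lt_or_ge (e k) n with h | h
    · exact h
    · exfalso
      have : e k = n := by omega
      have h7 := he3 k le_rfl
      rw [this, hz] at h7
      simp at h7

/-- Changing the last `a` entries of a sequence creates at most `a` new sign changes. -/
lemma alt_change_top {c c' : ℕ → ℝ} {n k a : ℕ} (hcc : ∀ i < n, c' i = c i)
    (h : Alt c' (n + a) (k + a)) : Alt c n k := by
  obtain ⟨i, s, h1, h2, h3⟩ := h
  have hm := strict_of_step h1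
  have hle : ∀ j ≤ k + a, i j + (k + a - j) < n + a := by
    intro j hj
    obtain ⟨d, hd⟩ : ∃ d, k + a = j + d := ⟨k + a - j, by omega⟩
    have : ∀ e ≤ d, i j + e ≤ i (j + e) := by
      intro e he
      induction e with
      | zero => simp
      | succ e ih =>
        have := ih (by omega)
        have := h1 (j + e) (by omega)
        have e1 : j + (e + 1) = j + e + 1 := by ring
        rw [e1]; omega
    have := this d le_rfl
    rw [← hd] at this
    omega
  have hk : i k < n := by have := hle k (by omega); omega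
  have hj : ∀ j ≤ k, i j < n := by
    intro j hj
    rcases Nat.lt_or_ge j k with h | h
    · exact lt_trans (hm j k h (by omega)) hk
    · have : j = k := by omega
      subst this; exact hk
  refine ⟨i, s, fun j hj => h1 j (by omega), hk, ?_⟩
  intro j hjk
  rw [← hcc _ (hj j hjk)]
  exact h3 j (by omega)

/-- Having at least `k` sign changes is an open condition. -/
lemma alt_eventually {ι : Type*} {l : Filter ι} {y : ι → ℕ → ℝ} {x : ℕ → ℝ} {n k : ℕ}
    (hy : ∀ i < n, Filter.Tendsto (fun a => y a i) l (nhds (x i))) (h : Alt x n k) :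
    ∀ᶠ a in l, Alt (y a) n k := by
  obtain ⟨i, s, h1, h2, h3⟩ := h
  have hm := strict_of_step h1
  have hin : ∀ j ≤ k, i j < n := by
    intro j hj
    rcases Nat.lt_or_ge j k with h | h
    · exact lt_trans (hm j k h le_rfl) h2
    · have : j = k := by omega
      subst this; exact h2
  have h4 : ∀ j ∈ Finset.range (k + 1), ∀ᶠ a in l, 0 < s * (-1) ^ j * y a (i j) := by
    intro j hj
    have hj' : j ≤ k := by simpa [Nat.lt_succ_iff] using Finset.mem_range.mp hj
    have h5 : Filter.Tendsto (fun a => s * (-1) ^ j * y a (i j)) l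
        (nhds (s * (-1) ^ j * x (i j))) := (hy _ (hin j hj')).const_mul _
    exact h5.eventually (lt_mem_nhds (h3 j hj'))
  have h5 := (Filter.eventually_all_finset (Finset.range (k + 1))).mpr h4
  filter_upwards [h5] with a ha
  exact ⟨i, s, h1, h2, fun j hj => ha j (Finset.mem_range.mpr (by omega))⟩

end Pool.Agent.SignAlternation
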