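import Mathlib
import Pool.Agent.Lib.SignAlternation

/-!
# Sign changes of Newton coordinates

Polynomials of degree `< n` are expanded in the Newton basis
`newt y i = (X - y 0) ⋯ (X - y (i-1))`.  Moving the nodes to the right does not increase the
number of sign changes of the coordinates; a factor with roots to the right of the nodes creates
sign changes.  As a consequence, multiples `g j * h j` (`deg (h j) < a j`, `∑ a j ≤ n`,
`deg (g j) = n - a j`) of polynomials `g j` with roots in ordered disjoint intervals are linearly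
independent.
-/

set_option autoImplicit false

namespace Pool.Agent.NewtonNodes

open Polynomial Pool.Agent.SignAlternation

/-- Newton basis polynomials. -/
noncomputable def newt (y : ℕ → ℝ) (i : ℕ) : ℝ[X] := ∏ l ∈ Finset.range i, (X - C (y l))

/-- `c` is the vector of Newton coordinates of `f`. -/
def Rep (y : ℕ → ℝ) (n : ℕ) (f : ℝ[X]) (c : ℕ → ℝ) : Prop :=
  f = ∑ i ∈ Finset.range n, C (c i) * newt y i

lemma newt_zero (y : ℕ → ℝ) : newt y 0 = 1 := by simp [newt]

lemma newt_succ (y : ℕ → ℝ) (i : ℕ) : newt y (i + 1) = newt y i * (X - C (y i)) := by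
  simp [newt, Finset.prod_range_succ]

lemma newt_monic (y : ℕ → ℝ) (i : ℕ) : (newt y i).Monic :=
  monic_prod_of_monic _ _ fun _ _ => monic_X_sub_C _

lemma newt_natDegree (y : ℕ → ℝ) (i : ℕ) : (newt y i).natDegree = i := by
  rw [newt, natDegree_prod_of_monic _ _ fun _ _ => monic_X_sub_C _]
  simp

lemma newt_degree (y : ℕ → ℝ) (i : ℕ) : (newt y i).degree = i := by
  rw [degree_eq_natDegree (newt_monic y i).ne_zero, newt_natDegree]

lemma newt_congr {y y' : ℕ → ℝ} {i : ℕ} (h : ∀ l < i, y l = y' l) : newt y i = newt y' i := by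
  rw [newt, newt]
  refine Finset.prod_congr rfl fun l hl => ?_
  rw [h l (Finset.mem_range.mp hl)]

lemma newt_add (y : ℕ → ℝ) (d i : ℕ) :
    newt y (d + i) = newt y d * newt (fun l => y (d + l)) i := by
  induction i with
  | zero => simp [newt_zero]
  | succ i ih => rw [← add_assoc, newt_succ, ih, newt_succ, mul_assoc]

lemma rep_exists (y : ℕ → ℝ) : ∀ (a : ℕ) (h : ℝ[X]), h.degree < a → ∃ c, Rep y a h c := by
  intro a
  induction a with
  | zero =>
    intro h hh
    refine ⟨0, ?_⟩
    have : h = 0 := by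
      rw [← degree_eq_bot]
      simpa using hh
    rw [Rep, this]; simp
  | succ a ih =>
    intro h hh
    have hd : (h - C (h.coeff a) * newt y a).degree < a := by
      rw [degree_lt_iff_coeff_zero]
      intro m hm
      rw [coeff_sub, coeff_C_mul]
      rcases Nat.eq_or_lt_of_le hm with rfl | hlt
      · have : (newt y a).coeff a = 1 := by
          have := newt_monic y a
          rw [Monic, leadingCoeff, newt_natDegree] at this
          exact this
        rw [this]; ring
      · have h1 : h.coeff m = 0 := by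
          have := degree_lt_iff_coeff_zero h (a + 1) |>.mp (by exact_mod_cast hh)
          exact this m (by omega)
        have h2 : (newt y a).coeff m = 0 := by
          apply coeff_eq_zero_of_natDegree_lt
          rw [newt_natDegree]; exact hlt
        rw [h1, h2]; ring
    obtain ⟨c, hc⟩ := ih _ hd
    refine ⟨fun i => if i < a then c i else h.coeff a, ?_⟩
    rw [Rep, Finset.sum_range_succ]
    have e1 : ∑ i ∈ Finset.range a, C (if i < a then c i else h.coeff a) * newt y i =
        ∑ i ∈ Finset.range a, C (c i) * newt y i := by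
      refine Finset.sum_congr rfl fun i hi => ?_
      rw [if_pos (Finset.mem_range.mp hi)]
    rw [e1, ← hc, if_neg (lt_irrefl a)]
    ring

lemma rep_unique {y : ℕ → ℝ} : ∀ {n : ℕ} {f : ℝ[X]} {c c' : ℕ → ℝ},
    Rep y n f c → Rep y n f c' → ∀ i < n, c i = c' i := by
  intro n
  induction n with
  | zero => intro f c c' _ _ i hi; omega
  | succ n ih =>
    intro f c c' hc hc'
    have hlow : ∀ e : ℕ → ℝ, (∑ i ∈ Finset.range n, C (e i) * newt y i).degree < n := by
      intro e
      refine (degree_sum_le _ _).trans_lt ?_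
      rw [Finset.sup_lt_iff (by exact_mod_cast WithBot.bot_lt_coe n)]
      intro i hi
      refine (degree_mul_le _ _).trans_lt ?_
      have h1 : (C (e i)).degree ≤ (0 : WithBot ℕ) := degree_C_le
      have h2 : (C (e i)).degree + (newt y i).degree ≤ 0 + (newt y i).degree := by
        gcongr
      refine h2.trans_lt ?_
      rw [zero_add, newt_degree]
      exact_mod_cast Finset.mem_range.mp hi
    have hcoef : ∀ e : ℕ → ℝ, Rep y (n + 1) f e → f.coeff n = e n := by
      intro e he
      rw [he, Finset.sum_range_succ, coeff_add, coeff_C_mul]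
      have h1 : (newt y n).coeff n = 1 := by
        have := newt_monic y n
        rw [Monic, leadingCoeff, newt_natDegree] at this
        exact this
      have h2 : (∑ i ∈ Finset.range n, C (e i) * newt y i).coeff n = 0 :=
        coeff_eq_zero_of_degree_lt (hlow e)
      rw [h1, h2]; ring
    have hn : c n = c' n := by rw [← hcoef c hc, ← hcoef c' hc']
    have hlow' : Rep y n (f - C (c n) * newt y n) c := by
      rw [Rep]
      nth_rewrite 1 [hc]
      rw [Finset.sum_range_succ]; ring
    have hlow'' : Rep y n (f - C (c n) * newt y n) c' := by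
      rw [Rep]
      nth_rewrite 1 [hc']
      rw [Finset.sum_range_succ, hn]; ring
    intro i hi
    rcases Nat.lt_or_ge i n with h | h
    · exact ih hlow' hlow'' i h
    · have : i = n := by omega
      rw [this, hn]

lemma Alt.mono_left {x : ℕ → ℝ} {n m k : ℕ} (h : Alt x n k) (hnm : n ≤ m) : Alt x m k := by
  obtain ⟨i, s, h1, h2, h3⟩ := h
  exact ⟨i, s, h1, lt_of_lt_of_le h2 hnm, h3⟩

lemma not_alt_zero (n k : ℕ) : ¬ Alt (fun _ => (0 : ℝ)) n k := by
  rintro ⟨i, s, h1, h2, h3⟩
  have := h3 0 (Nat.zero_le _)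
  simp at this

/-- Multiplication by a linear factor whose root is to the right of the nodes. -/
lemma rep_mul_root {y : ℕ → ℝ} {u : ℝ} (hu : ∀ l, y l < u) {n k : ℕ} {f : ℝ[X]} {d : ℕ → ℝ}
    (hd : Rep y n f d) (hk : Alt d n k) :
    ∃ c, Rep y (n + 1) ((X - C u) * f) c ∧ Alt c (n + 1) (k + 1) := by
  set d' : ℕ → ℝ := fun i => if i < n then d i else 0 with hd'
  have hd'n : d' n = 0 := by simp [hd']
  have hrep : Rep y n f d' := by
    rw [Rep, hd]
    refine Finset.sum_congr rfl fun i hi => ?_
    simp only [hd']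
    rw [if_pos (Finset.mem_range.mp hi)]
  have hk' : Alt d' n k := hk.congr fun i hi => by simp [hd', hi]
  refine ⟨fun i => Nat.casesOn i (-((u - y 0) * d' 0))
    (fun j => 1 * d' j - (u - y (j + 1)) * d' (j + 1)), ?_, ?_⟩
  · rw [Rep, Finset.sum_range_succ']
    have e1 : ∑ i ∈ Finset.range (n + 1), C ((u - y i) * d' i) * newt y i =
        ∑ i ∈ Finset.range n, C ((u - y i) * d' i) * newt y i := by
      rw [Finset.sum_range_succ, hd'n]; simp
    rw [Finset.sum_range_succ'] at e1
    have e2 : (X - C u) * f = ∑ i ∈ Finset.range n, C (d' i) * newt y (i + 1) -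
        ∑ i ∈ Finset.range n, C ((u - y i) * d' i) * newt y i := by
      rw [← Finset.sum_sub_distrib]
      nth_rewrite 1 [hrep]
      rw [Finset.mul_sum]
      refine Finset.sum_congr rfl fun i _ => ?_
      rw [newt_succ, C_mul, C_sub]
      ring
    rw [e2, ← e1]
    have e3 : ∀ i, C (1 * d' i - (u - y (i + 1)) * d' (i + 1)) * newt y (i + 1) =
        C (d' i) * newt y (i + 1) - C ((u - y (i + 1)) * d' (i + 1)) * newt y (i + 1) := by
      intro i
      rw [one_mul, C_sub]; ring
    simp only [e3]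
    rw [Finset.sum_sub_distrib]
    change _ = _ + C (-((u - y 0) * d' 0)) * newt y 0
    rw [C_neg]
    ring
  · exact alt_succ (α := fun _ => 1) (β := fun i => u - y i) (d := d') (fun i _ => one_pos)
      (fun i _ => sub_pos.mpr (hu i)) rfl (fun i _ => rfl) hd'n hk'

/-- Roots to the right of the nodes create sign changes. -/
lemma rep_mul_newt {y z : ℕ → ℝ} (hyz : ∀ l l', y l < z l') {a : ℕ} {h : ℝ[X]}
    (hh : h.degree < a) (h0 : h ≠ 0) (d : ℕ) :
    ∃ c, Rep y (d + a) (newt z d * h) c ∧ Alt c (d + a) d := by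
  induction d with
  | zero =>
    obtain ⟨c, hc⟩ := rep_exists y a h hh
    refine ⟨c, ?_, ?_⟩
    · rw [newt_zero, one_mul, zero_add]; exact hc
    · rw [zero_add]
      by_contra hcon
      apply h0
      rw [hc]
      refine Finset.sum_eq_zero fun i hi => ?_
      have : c i = 0 := by
        by_contra hci
        exact hcon (alt_zero_of_ne (Finset.mem_range.mp hi) hci)
      rw [this]; simp
  | succ d ih =>
    obtain ⟨c, hc, hk⟩ := ih
    obtain ⟨c', hc', hk'⟩ := rep_mul_root (u := z d) (fun l => hyz l d) hc hk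
    refine ⟨c', ?_, ?_⟩
    · have e : d + 1 + a = d + a + 1 := by omega
      rw [e, newt_succ]
      have e2 : newt z d * (X - C (z d)) * h = (X - C (z d)) * (newt z d * h) := by ring
      rw [e2]; exact hc'
    · have e : d + 1 + a = d + a + 1 := by omega
      rw [e]; exact hk'

lemma sum_shift {N N' : ℕ → ℝ[X]} {q : ℕ → ℝ} (h0 : N 0 = N' 0)
    (hs : ∀ i, N (i + 1) = N' (i + 1) + C (q i) * N' i) (c : ℕ → ℝ) (n : ℕ) :
    ∑ i ∈ Finset.range (n + 1), C (c i + q i * c (i + 1)) * N' i =
      (∑ i ∈ Finset.range (n + 1), C (c i) * N i) + C (q n * c (n + 1)) * N' n := by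
  induction n with
  | zero => simp [h0]; ring
  | succ n ih =>
    rw [Finset.sum_range_succ, ih, Finset.sum_range_succ (n := n + 1), hs n]
    simp only [C_add, C_mul]
    ring

/-- the mixed node sequence: the first `s` nodes of `y`, then the nodes of `y'` -/
def mixSeq (y y' : ℕ → ℝ) (s l : ℕ) : ℝ := if l < s then y l else y' (l - s)

/-- the transition coefficients from `mixSeq (s+1)` to `mixSeq s` -/
def mixQ (y y' : ℕ → ℝ) (s i : ℕ) : ℝ := if i < s then 0 else y' (i - s) - y s

lemma mixSeq_lt (y y' : ℕ → ℝ) {s l : ℕ} (h : l < s) : mixSeq y y' s l = y l := if_pos h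

lemma mixSeq_ge (y y' : ℕ → ℝ) {s l : ℕ} (h : ¬ l < s) : mixSeq y y' s l = y' (l - s) := if_neg h

lemma mixQ_lt (y y' : ℕ → ℝ) {s l : ℕ} (h : l < s) : mixQ y y' s l = 0 := if_pos h

lemma mixQ_ge (y y' : ℕ → ℝ) {s l : ℕ} (h : ¬ l < s) : mixQ y y' s l = y' (l - s) - y s :=
  if_neg h

lemma mix_step (y y' : ℕ → ℝ) (s i : ℕ) : newt (mixSeq y y' (s + 1)) (i + 1) =
    newt (mixSeq y y' s) (i + 1) + C (mixQ y y' s i) * newt (mixSeq y y' s) i := by
  induction i with
  | zero =>
    rw [newt_succ, newt_succ, newt_zero, newt_zero]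
    rcases Nat.eq_zero_or_pos s with rfl | hs0
    · rw [mixSeq_lt y y' (by omega), mixSeq_ge y y' (by omega), mixQ_ge y y' (by omega), C_sub]
      ring
    · rw [mixSeq_lt y y' (by omega), mixSeq_lt y y' hs0, mixQ_lt y y' hs0, C_0]
      ring
  | succ i ihi =>
    rw [newt_succ (mixSeq y y' (s + 1)), ihi, newt_succ (mixSeq y y' s) (i + 1),
      newt_succ (mixSeq y y' s) i]
    rcases Nat.lt_or_ge (i + 1) s with h1 | h1
    · rw [mixSeq_lt y y' (show i + 1 < s + 1 by omega), mixSeq_lt y y' h1,
        mixQ_lt y y' (show i < s by omega), mixQ_lt y y' h1, C_0]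
      ring
    · rcases Nat.eq_or_lt_of_le h1 with h2 | h2
      · rw [mixSeq_lt y y' (show i + 1 < s + 1 by omega),
          mixSeq_ge y y' (show ¬ i + 1 < s by omega),
          mixQ_lt y y' (show i < s by omega), mixQ_ge y y' (show ¬ i + 1 < s by omega), C_0,
          C_sub, ← h2]
        ring
      · have e1 : i + 1 - (s + 1) = i - s := by omega
        rw [mixSeq_ge y y' (show ¬ i + 1 < s + 1 by omega), e1,
          mixSeq_ge y y' (show ¬ i + 1 < s by omega),
          mixSeq_ge y y' (show ¬ i < s by omega),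
          mixQ_ge y y' (show ¬ i < s by omega), mixQ_ge y y' (show ¬ i + 1 < s by omega),
          C_sub, C_sub]
        ring

lemma mix_down {y y' : ℕ → ℝ} (hyy : ∀ l l', y l ≤ y' l') {m s : ℕ} {f : ℝ[X]} {c : ℕ → ℝ}
    (hc : Rep (mixSeq y y' (s + 1)) (m + 1) f c) :
    ∃ c', Rep (mixSeq y y' s) (m + 1) f c' ∧ ∀ k, Alt c' (m + 1) k → Alt c (m + 1) k := by
  set c₂ : ℕ → ℝ := fun i => if i < m + 1 then c i else 0 with hc₂
  have hc₂z : c₂ (m + 1) = 0 := by simp only [hc₂]; rw [if_neg (lt_irrefl _)]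
  have hc₂e : ∀ i, i < m + 1 → c₂ i = c i := fun i hi => by simp only [hc₂]; rw [if_pos hi]
  refine ⟨fun i => c₂ i + mixQ y y' s i * c₂ (i + 1), ?_, ?_⟩
  · rw [Rep, sum_shift (N := newt (mixSeq y y' (s + 1))) (by rw [newt_zero, newt_zero])
      (mix_step y y' s), hc₂z]
    rw [mul_zero, C_0, zero_mul, add_zero]
    rw [hc]
    refine Finset.sum_congr rfl fun i hi => ?_
    rw [hc₂e i (Finset.mem_range.mp hi)]
  · intro k hk
    have h1 : Alt c₂ (m + 1) k := by
      refine alt_bidiag (p := fun _ => 1) (q := mixQ y y' s) (fun i _ => zero_le_one) ?_ ?_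
        hc₂z hk
      · intro i _
        rw [mixQ]
        split_ifs
        · exact le_rfl
        · exact sub_nonneg.mpr (hyy _ _)
      · intro i _; rw [one_mul]
    exact h1.congr fun i hi => hc₂e i hi

lemma rep_mix_top {y : ℕ → ℝ} (y' : ℕ → ℝ) {n : ℕ} {f : ℝ[X]} {c : ℕ → ℝ}
    (hc : Rep y n f c) : Rep (mixSeq y y' n) n f c := by
  unfold Rep at hc ⊢
  refine hc.trans (Finset.sum_congr rfl fun i hi => ?_)
  have hi' := Finset.mem_range.mp hi
  have : newt y i = newt (mixSeq y y' n) i := newt_congr fun l hl => by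
    rw [mixSeq_lt y y' (by omega)]
  rw [this]

lemma mixSeq_zero (y y' : ℕ → ℝ) : mixSeq y y' 0 = y' := by
  funext l
  rw [mixSeq_ge y y' (Nat.not_lt_zero l), Nat.sub_zero]

lemma mix_chain {y y' : ℕ → ℝ} (hyy : ∀ l l', y l ≤ y' l') {m : ℕ} {f : ℝ[X]} {c : ℕ → ℝ}
    (hc : Rep y (m + 1) f c) (e : ℕ) : ∀ s, s + e = m + 1 →
      ∃ c', Rep (mixSeq y y' s) (m + 1) f c' ∧ ∀ k, Alt c' (m + 1) k → Alt c (m + 1) k := by
  induction e with
  | zero =>
    intro s hs
    have hs' : s = m + 1 := hs
    subst hs'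
    exact ⟨c, rep_mix_top y' hc, fun k h => h⟩
  | succ e ih =>
    intro s hs
    obtain ⟨c₁, hc₁, hk₁⟩ := ih (s + 1) (by omega)
    obtain ⟨c₂, hc₂, hk₂⟩ := mix_down hyy hc₁
    exact ⟨c₂, hc₂, fun k hk => hk₁ k (hk₂ k hk)⟩

lemma rep_zero_any {y y' : ℕ → ℝ} {f : ℝ[X]} {c : ℕ → ℝ} (hc : Rep y 0 f c) :
    Rep y' 0 f c := by
  unfold Rep at hc ⊢
  rw [Finset.sum_range_zero] at hc ⊢
  exact hc

/-- Moving the nodes to the right. -/
lemma rep_move {y y' : ℕ → ℝ} (hyy : ∀ l l', y l ≤ y' l') {n : ℕ} {f : ℝ[X]} {c : ℕ → ℝ}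
    (hc : Rep y n f c) : ∃ c', Rep y' n f c' ∧ ∀ k, Alt c' n k → Alt c n k := by
  cases n with
  | zero => exact ⟨c, rep_zero_any hc, fun k h => h⟩
  | succ m =>
    obtain ⟨c', hc', hk'⟩ := mix_chain hyy hc (m + 1) 0 (by omega)
    rw [mixSeq_zero] at hc'
    exact ⟨c', hc', hk'⟩

/-- Adding a multiple of the product over the first `d` nodes. -/
lemma rep_add_top {y : ℕ → ℝ} {n d a A : ℕ} (hda : d + a = n) {P h : ℝ[X]} {c : ℕ → ℝ}
    (hc : Rep y n P c) (hA : ¬ Alt c n A) (hh : h.degree < a) :
    ∃ c', Rep y n (P + newt y d * h) c' ∧ ¬ Alt c' n (A + a) := by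
  subst hda
  obtain ⟨e, he⟩ := rep_exists (fun l => y (d + l)) a h hh
  refine ⟨fun i => if i < d then c i else c i + e (i - d), ?_, ?_⟩
  · rw [Rep] at hc he ⊢
    rw [Finset.sum_range_add] at hc ⊢
    have e1 : ∑ x ∈ Finset.range d, C (if x < d then c x else c x + e (x - d)) * newt y x =
        ∑ x ∈ Finset.range d, C (c x) * newt y x := by
      refine Finset.sum_congr rfl fun i hi => ?_
      rw [if_pos (Finset.mem_range.mp hi)]
    have e2 : ∑ x ∈ Finset.range a, C (if d + x < d then c (d + x) else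
        c (d + x) + e (d + x - d)) * newt y (d + x) =
        ∑ x ∈ Finset.range a, C (c (d + x)) * newt y (d + x) + newt y d * h := by
      have e3 : newt y d * h = ∑ x ∈ Finset.range a,
          newt y d * (C (e x) * newt (fun l => y (d + l)) x) := by
        rw [← Finset.mul_sum, ← he]
      rw [e3, ← Finset.sum_add_distrib]
      refine Finset.sum_congr rfl fun i hi => ?_
      rw [if_neg (by omega), newt_add, Nat.add_sub_cancel_left, C_add]
      ring
    rw [e1, e2]
    nth_rewrite 1 [hc]
    ring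
  · intro hcon
    apply hA
    have h1 := alt_change_top (c := c) (n := d) (k := A) (a := a) (fun i hi => by rw [if_pos hi])
      hcon
    exact Alt.mono_left h1 (by omega)

lemma sums_aux {n R : ℕ} {y : ℕ → ℕ → ℝ} {d a : ℕ → ℕ} {h : ℕ → ℝ[X]}
    (hord : ∀ j j', j < j' → j' < R → ∀ l l', y j l < y j' l')
    (hda : ∀ j < R, d j + a j = n) (hdeg : ∀ j < R, (h j).degree < a j) :
    ∀ r, r + 1 ≤ R → ∃ c, Rep (y r) n (∑ j ∈ Finset.range (r + 1), newt (y j) (d j) * h j) c ∧
      ¬ Alt c n (∑ j ∈ Finset.range (r + 1), a j) := by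
  intro r
  induction r with
  | zero =>
    intro hR
    have h1 : Rep (y 0) n 0 (fun _ => 0) := by rw [Rep]; simp
    obtain ⟨c, hc, hk⟩ := rep_add_top (hda 0 (by omega)) h1 (not_alt_zero n 0)
      (hdeg 0 (by omega))
    refine ⟨c, ?_, ?_⟩
    · simpa using hc
    · simpa using hk
  | succ r ih =>
    intro hR
    obtain ⟨c, hc, hk⟩ := ih (by omega)
    obtain ⟨c₁, hc₁, hk₁⟩ := rep_move (y' := y (r + 1))
      (fun l l' => (hord r (r + 1) (by omega) (by omega) l l').le) hc
    obtain ⟨c₂, hc₂, hk₂⟩ := rep_add_top (hda (r + 1) (by omega)) hc₁ (fun h' => hk (hk₁ _ h'))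
      (hdeg (r + 1) (by omega))
    refine ⟨c₂, ?_, ?_⟩
    · rw [Finset.sum_range_succ]; exact hc₂
    · rw [Finset.sum_range_succ]; exact hk₂

/-- Multiples of polynomials with roots in ordered disjoint intervals are independent. -/
theorem eq_zero_of_sum_eq_zero {n : ℕ} {y : ℕ → ℕ → ℝ} {d a : ℕ → ℕ} {h : ℕ → ℝ[X]} :
    ∀ R, (∀ j j', j < j' → j' < R → ∀ l l', y j l < y j' l') →
    (∀ j < R, d j + a j = n) → (∀ j < R, (h j).degree < a j) →
    (∑ j ∈ Finset.range R, a j) ≤ n →
    (∑ j ∈ Finset.range R, newt (y j) (d j) * h j = 0) → ∀ j < R, h j = 0 := by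
  intro R
  induction R with
  | zero => intro _ _ _ _ _ j hj; omega
  | succ R ih =>
    intro hord hda hdeg hsum h0
    have hlast : h R = 0 := by
      by_contra hne
      rcases Nat.eq_zero_or_pos R with rfl | hR
      · simp only [zero_add, Finset.sum_range_one] at h0
        exact (mul_ne_zero (newt_monic _ _).ne_zero hne) h0
      · obtain ⟨r, rfl⟩ : ∃ r, R = r + 1 := ⟨R - 1, by omega⟩
        obtain ⟨c, hc, hk⟩ := sums_aux hord hda hdeg r (by omega)
        have hdeg' : (-h (r + 1)).degree < a (r + 1) := by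
          rw [degree_neg]; exact hdeg _ (by omega)
        obtain ⟨c', hc', hk'⟩ := rep_mul_newt (y := y r) (z := y (r + 1))
          (fun l l' => hord r (r + 1) (by omega) (by omega) l l') hdeg' (neg_ne_zero.mpr hne)
          (d (r + 1))
        rw [hda (r + 1) (by omega)] at hc' hk'
        have hP : ∑ j ∈ Finset.range (r + 1), newt (y j) (d j) * h j =
            newt (y (r + 1)) (d (r + 1)) * -h (r + 1) := by
          rw [Finset.sum_range_succ] at h0
          linear_combination h0
        rw [hP] at hc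
        have h1 := rep_unique hc' hc
        have h2 : Alt c n (d (r + 1)) := hk'.congr h1
        rw [Finset.sum_range_succ] at hsum
        have h3 := hda (r + 1) (by omega)
        exact hk (h2.mono (by omega))
    intro j hj
    rcases Nat.lt_or_ge j R with h1 | h1
    · refine ih (fun a b hab hb => hord a b hab (by omega)) (fun i hi => hda i (by omega))
        (fun i hi => hdeg i (by omega)) ?_ ?_ j h1
      · rw [Finset.sum_range_succ] at hsum; omega
      · rw [Finset.sum_range_succ, hlast, mul_zero, add_zero] at h0; exact h0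
    · have : j = R := by omega
      rw [this, hlast]

end Pool.Agent.NewtonNodes
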