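import Mathlib
import Pool.Agent.Lib.SignAlternation

/-!
# A basis of polynomials attached to two node sequences and Descartes' rule of signs

`bern s t N i = ∏_{l < N-1-i} (s_l - X) * ∏_{l < i} (X - t_l)`, `i < N`.
-/

set_option autoImplicit false

namespace Pool.Agent.SignAlternation

open Polynomial Finset

/-- The polynomial `∏_{l < N-1-i} (s_l - X) * ∏_{l < i} (X - t_l)`. -/
noncomputable def bern (s t : ℕ → ℝ) (N i : ℕ) : ℝ[X] :=
  (∏ l ∈ range (N - 1 - i), (C (s l) - X)) * ∏ l ∈ range i, (X - C (t l))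

lemma bern_succ_succ (s t : ℕ → ℝ) {N i : ℕ} :
    bern s t (N + 1) (i + 1) = bern s t N i * (X - C (t i)) := by
  unfold bern
  have h1 : N + 1 - 1 - (i + 1) = N - 1 - i := by omega
  rw [h1, prod_range_succ]
  ring

lemma bern_succ_left (s t : ℕ → ℝ) {N i : ℕ} (hi : i < N) :
    bern s t (N + 1) i = bern s t N i * (C (s (N - 1 - i)) - X) := by
  unfold bern
  have h1 : N + 1 - 1 - i = N - 1 - i + 1 := by omega
  rw [h1, prod_range_succ]
  ring

lemma bern_succ_succ' (s t : ℕ → ℝ) (N i : ℕ) :
    bern s t (N + 1) (i + 1) = (X - C (t 0)) * bern s (fun l => t (l + 1)) N i := by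
  unfold bern
  have h1 : N + 1 - 1 - (i + 1) = N - 1 - i := by omega
  rw [h1, prod_range_succ']
  ring

lemma bern_mul (s t : ℕ → ℝ) {N i : ℕ} (hi : i < N) (u : ℝ) (hst : s (N - 1 - i) ≠ t i) :
    (X - C u) * bern s t N i =
      C ((s (N - 1 - i) - u) / (s (N - 1 - i) - t i)) * bern s t (N + 1) (i + 1) -
      C ((u - t i) / (s (N - 1 - i) - t i)) * bern s t (N + 1) i := by
  rw [bern_succ_succ s t, bern_succ_left s t hi]
  have h0 : s (N - 1 - i) - t i ≠ 0 := sub_ne_zero.mpr hst
  have key : (X - C u : ℝ[X]) =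
      C ((s (N - 1 - i) - u) / (s (N - 1 - i) - t i)) * (X - C (t i)) -
      C ((u - t i) / (s (N - 1 - i) - t i)) * (C (s (N - 1 - i)) - X) := by
    have e1 : (s (N - 1 - i) - u) / (s (N - 1 - i) - t i) + (u - t i) / (s (N - 1 - i) - t i) = 1 := by
      field_simp; ring
    have e2 : (s (N - 1 - i) - u) / (s (N - 1 - i) - t i) * t i +
        (u - t i) / (s (N - 1 - i) - t i) * s (N - 1 - i) = u := by
      field_simp; ring
    calc (X - C u : ℝ[X])
        = C ((s (N - 1 - i) - u) / (s (N - 1 - i) - t i) +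
            (u - t i) / (s (N - 1 - i) - t i)) * X -
          C ((s (N - 1 - i) - u) / (s (N - 1 - i) - t i) * t i +
            (u - t i) / (s (N - 1 - i) - t i) * s (N - 1 - i)) := by rw [e1, e2]; simp
      _ = _ := by simp only [C_add, C_mul]; ring
  calc (X - C u) * bern s t N i
      = (C ((s (N - 1 - i) - u) / (s (N - 1 - i) - t i)) * (X - C (t i)) -
      C ((u - t i) / (s (N - 1 - i) - t i)) * (C (s (N - 1 - i)) - X)) * bern s t N i := by
        rw [← key]
    _ = _ := by ring

lemma bern_indep (s : ℕ → ℝ) : ∀ (N : ℕ) (t : ℕ → ℝ) (_ : ∀ k l, s k ≠ t l) (c : ℕ → ℝ),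
    (∑ i ∈ range N, C (c i) * bern s t N i) = 0 → ∀ i < N, c i = 0 := by
  intro N
  induction N with
  | zero => intro t _ c _ i hi; omega
  | succ N ih =>
    intro t hst c hc
    have hsplit := hc
    rw [sum_range_succ'] at hsplit
    have hrest : (∑ i ∈ range N, C (c (i + 1)) * bern s t (N + 1) (i + 1)) =
        (X - C (t 0)) * ∑ i ∈ range N, C (c (i + 1)) * bern s (fun l => t (l + 1)) N i := by
      rw [mul_sum]
      refine sum_congr rfl fun i _ => ?_
      rw [bern_succ_succ']; ring
    rw [hrest] at hsplit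
    have h0 : c 0 = 0 := by
      have h1 := congrArg (Polynomial.eval (t 0)) hsplit
      simp only [eval_add, eval_mul, eval_sub, eval_X, eval_C, sub_self, zero_mul, zero_add,
        eval_zero, bern, range_zero, prod_empty, mul_one, eval_prod] at h1
      rcases mul_eq_zero.mp h1 with h | h
      · exact h
      · exfalso
        obtain ⟨l, _, hl⟩ := Finset.prod_eq_zero_iff.mp h
        exact hst l 0 (sub_eq_zero.mp hl)
    rw [h0, C_0, zero_mul, add_zero] at hsplit
    have hX : (X - C (t 0) : ℝ[X]) ≠ 0 := X_sub_C_ne_zero _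
    have h2 := (mul_eq_zero.mp hsplit).resolve_left hX
    have h3 := ih (fun l => t (l + 1)) (fun k l => hst k (l + 1)) (fun i => c (i + 1)) h2
    intro i hi
    rcases Nat.eq_zero_or_pos i with rfl | hpos
    · exact h0
    · obtain ⟨j, rfl⟩ : ∃ j, i = j + 1 := ⟨i - 1, by omega⟩
      exact h3 j (by omega)

lemma bern_unique {s t : ℕ → ℝ} {N : ℕ} (hst : ∀ k l, s k ≠ t l) {c d : ℕ → ℝ}
    (h : (∑ i ∈ range N, C (c i) * bern s t N i) = ∑ i ∈ range N, C (d i) * bern s t N i) :
    ∀ i < N, c i = d i := by
  have h1 : (∑ i ∈ range N, C (c i - d i) * bern s t N i) = 0 := by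
    have : (∑ i ∈ range N, C (c i - d i) * bern s t N i) =
        (∑ i ∈ range N, C (c i) * bern s t N i) - ∑ i ∈ range N, C (d i) * bern s t N i := by
      rw [← sum_sub_distrib]
      refine sum_congr rfl fun i _ => ?_
      rw [C_sub]; ring
    rw [this, h, sub_self]
  intro i hi
  have := bern_indep s N t hst _ h1 i hi
  linarith

lemma bern_span (s : ℕ → ℝ) : ∀ (N : ℕ) (t : ℕ → ℝ) (_ : ∀ k l, s k ≠ t l) (f : ℝ[X]),
    f.degree < N → ∃ c : ℕ → ℝ, f = ∑ i ∈ range N, C (c i) * bern s t N i := by
  intro N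
  induction N with
  | zero =>
    intro t _ f hf
    refine ⟨fun _ => 0, ?_⟩
    have : f = 0 := by
      rw [← Polynomial.degree_eq_bot]
      by_contra hne
      have h1 : (0 : WithBot ℕ) ≤ f.degree := by
        rw [Polynomial.zero_le_degree_iff]
        intro h0; apply hne; rw [h0]; simp
      exact absurd hf (not_lt.mpr (by simpa using h1))
    simp [this]
  | succ N ih =>
    intro t hst f hf
    set P : ℝ := ∏ l ∈ range N, (s l - t 0) with hP
    have hP0 : P ≠ 0 := by
      rw [hP, Finset.prod_ne_zero_iff]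
      intro l _
      exact sub_ne_zero.mpr (hst l 0)
    set c0 : ℝ := f.eval (t 0) / P with hc0
    have hb0 : bern s t (N + 1) 0 = ∏ l ∈ range N, (C (s l) - X) := by
      simp [bern]
    have hb0deg : (bern s t (N + 1) 0).degree ≤ N := by
      rw [hb0]
      refine le_trans (Polynomial.degree_prod_le _ _) ?_
      refine le_trans (Finset.sum_le_sum (g := fun _ => (1 : WithBot ℕ)) ?_) ?_
      · intro l _
        refine le_trans (Polynomial.degree_sub_le _ _) ?_
        rw [max_le_iff]
        exact ⟨le_trans Polynomial.degree_C_le (by norm_num), by rw [Polynomial.degree_X]⟩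
      · simp
    have hroot : (f - C c0 * bern s t (N + 1) 0).IsRoot (t 0) := by
      rw [Polynomial.IsRoot, eval_sub, eval_mul, eval_C, hb0, eval_prod]
      simp only [eval_sub, eval_C, eval_X]
      rw [← hP, hc0, div_mul_cancel₀ _ hP0, sub_self]
    obtain ⟨q, hq⟩ := Polynomial.dvd_iff_isRoot.mpr hroot
    have hdeg : (f - C c0 * bern s t (N + 1) 0).degree < (N + 1 : ℕ) := by
      refine lt_of_le_of_lt (Polynomial.degree_sub_le _ _) ?_
      rw [max_lt_iff]
      refine ⟨hf, ?_⟩
      refine lt_of_le_of_lt (Polynomial.degree_mul_le _ _) ?_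
      calc (C c0).degree + (bern s t (N + 1) 0).degree ≤ 0 + (N : WithBot ℕ) :=
            add_le_add Polynomial.degree_C_le hb0deg
        _ = (N : WithBot ℕ) := by simp
        _ < ((N + 1 : ℕ) : WithBot ℕ) := by exact_mod_cast Nat.lt_succ_self N
    have hqdeg : q.degree < N := by
      rw [hq, Polynomial.degree_mul, Polynomial.degree_X_sub_C] at hdeg
      by_contra hcon
      rw [not_lt] at hcon
      have : ((N + 1 : ℕ) : WithBot ℕ) ≤ 1 + q.degree := by
        calc ((N + 1 : ℕ) : WithBot ℕ) = 1 + (N : WithBot ℕ) := by push_cast; ring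
          _ ≤ 1 + q.degree := by gcongr
      exact absurd hdeg (not_lt.mpr this)
    obtain ⟨d, hd⟩ := ih (fun l => t (l + 1)) (fun k l => hst k (l + 1)) q hqdeg
    refine ⟨fun i => if i = 0 then c0 else d (i - 1), ?_⟩
    rw [sum_range_succ']
    simp only [Nat.add_sub_cancel, if_true, if_neg (Nat.succ_ne_zero _)]
    have h1 : f = (X - C (t 0)) * q + C c0 * bern s t (N + 1) 0 := by
      rw [← hq]; ring
    rw [h1]
    congr 1
    rw [hd, mul_sum]
    refine sum_congr rfl fun i _ => ?_
    rw [bern_succ_succ']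
    ring

/-- Descartes' rule of signs for the node basis.  `σ = 1`: zeros between the `t`'s and the `s`'s;
`σ = -1`: zeros beyond. -/
theorem alt_of_roots {s t : ℕ → ℝ} {σ : ℝ} (hσ : σ * σ = 1) (hst : ∀ k l, s k ≠ t l)
    (u : ℕ → ℝ) (N : ℕ) (h : ℝ[X]) (hh0 : h ≠ 0) (hdeg : h.degree < N) :
    ∀ (m : ℕ) (_ : ∀ j < m, ∀ k l, 0 < σ * ((s k - u j) / (s k - t l)))
      (_ : ∀ j < m, ∀ k l, 0 < (u j - t l) / (s k - t l)) (c : ℕ → ℝ),
      (∏ j ∈ range m, (X - C (u j))) * h = ∑ i ∈ range (N + m), C (c i) * bern s t (N + m) i →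
      Alt (fun i => σ ^ i * c i) (N + m) m := by
  intro m
  induction m with
  | zero =>
    intro _ _ c hc
    simp only [range_zero, prod_empty, one_mul, add_zero] at hc ⊢
    have hex : ∃ i < N, c i ≠ 0 := by
      by_contra hcon
      push Not at hcon
      apply hh0
      rw [hc]
      refine sum_eq_zero fun i hi => ?_
      rw [hcon i (mem_range.mp hi)]; simp
    obtain ⟨i, hi, hci⟩ := hex
    refine alt_zero_of_ne hi ?_
    have : σ ≠ 0 := by rintro rfl; simp at hσ
    exact mul_ne_zero (pow_ne_zero _ this) hci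
  | succ m ih =>
    intro hα hβ c hc
    -- expansion of the product with one factor less
    have hdeg' : ((∏ j ∈ range m, (X - C (u j))) * h).degree < (N + m : ℕ) := by
      rw [Polynomial.degree_mul]
      have h1 : (∏ j ∈ range m, (X - C (u j))).degree = (m : WithBot ℕ) := by
        rw [Polynomial.degree_prod]
        simp
      rw [h1]
      have hhdeg : h.degree = (h.natDegree : WithBot ℕ) := Polynomial.degree_eq_natDegree hh0
      rw [hhdeg] at hdeg ⊢
      have : h.natDegree < N := by exact_mod_cast hdeg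
      have h2 : m + h.natDegree < N + m := by omega
      exact_mod_cast h2
    obtain ⟨d, hd⟩ := bern_span s (N + m) t hst _ hdeg'
    set d' : ℕ → ℝ := fun i => if i < N + m then d i else 0 with hd'
    have hdd : (∏ j ∈ range m, (X - C (u j))) * h =
        ∑ i ∈ range (N + m), C (d' i) * bern s t (N + m) i := by
      rw [hd]
      refine sum_congr rfl fun i hi => ?_
      simp [hd', mem_range.mp hi]
    have hIH := ih (fun j hj => hα j (by omega)) (fun j hj => hβ j (by omega)) d' hdd
    -- multiply by X - u m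
    set A : ℕ → ℝ := fun i => (s (N + m - 1 - i) - u m) / (s (N + m - 1 - i) - t i) with hA
    set B : ℕ → ℝ := fun i => (u m - t i) / (s (N + m - 1 - i) - t i) with hB
    set e : ℕ → ℝ := fun i => (if i = 0 then 0 else A (i - 1) * d' (i - 1)) - B i * d' i with he
    have hexp : (∏ j ∈ range (m + 1), (X - C (u j))) * h =
        ∑ i ∈ range (N + (m + 1)), C (e i) * bern s t (N + (m + 1)) i := by
      have h1 : (∏ j ∈ range (m + 1), (X - C (u j))) * h =
          (X - C (u m)) * ((∏ j ∈ range m, (X - C (u j))) * h) := by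
        rw [prod_range_succ]; ring
      rw [h1, hdd, mul_sum]
      have h2 : ∀ i ∈ range (N + m), (X - C (u m)) * (C (d' i) * bern s t (N + m) i) =
          C (A i * d' i) * bern s t (N + m + 1) (i + 1) - C (B i * d' i) * bern s t (N + m + 1) i := by
        intro i hi
        have h3 := bern_mul s t (mem_range.mp hi) (u m) (hst _ _)
        calc (X - C (u m)) * (C (d' i) * bern s t (N + m) i)
            = C (d' i) * ((X - C (u m)) * bern s t (N + m) i) := by ring
          _ = _ := by rw [h3, hA, hB, C_mul, C_mul]; ring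
      rw [sum_congr rfl h2, sum_sub_distrib]
      have h4 : (∑ i ∈ range (N + m), C (B i * d' i) * bern s t (N + m + 1) i) =
          ∑ i ∈ range (N + m + 1), C (B i * d' i) * bern s t (N + m + 1) i := by
        rw [sum_range_succ]
        have : d' (N + m) = 0 := by simp [hd']
        rw [this]; simp
      have h5 : (∑ i ∈ range (N + m), C (A i * d' i) * bern s t (N + m + 1) (i + 1)) =
          ∑ i ∈ range (N + m + 1), C (if i = 0 then 0 else A (i - 1) * d' (i - 1)) *
            bern s t (N + m + 1) i := by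
        rw [sum_range_succ' _ (N + m)]
        simp
      rw [h4, h5, ← sum_sub_distrib]
      refine sum_congr rfl fun i _ => ?_
      have e1 : N + (m + 1) = N + m + 1 := by ring
      rw [he, e1, C_sub]
      ring
    rw [hc] at hexp
    have huniq := bern_unique hst hexp
    have e1 : N + (m + 1) = N + m + 1 := by ring
    rw [e1]
    rw [e1] at huniq
    refine alt_succ (d := fun i => σ ^ i * d' i) (α := fun i => σ * A i) (β := B) ?_ ?_ ?_ ?_ ?_ hIH
    · intro i _
      exact hα m (by omega) _ _
    · intro i _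
      exact hβ m (by omega) _ _
    · rw [huniq 0 (by omega), he]; simp
    · intro i hi
      show σ ^ (i + 1) * c (i + 1) = _
      rw [huniq (i + 1) (by omega), he]
      simp only [Nat.succ_ne_zero, if_false, Nat.add_sub_cancel]
      have e2 : σ * A i * (σ ^ i * d' i) = σ ^ (i + 1) * (A i * d' i) := by ring
      rw [e2]; ring
    · simp [hd']

end Pool.Agent.SignAlternation
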