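import Mathlib
import Pool.Agent.Lib.QMSeeds

set_option autoImplicit false

/-!
Minimal values from the curves `y^(2m+l) + (1+x) (y^(2m) - (y - x^c)^2) = 0`.
-/

namespace Pool.Agent.QMVal

open Finset

/-! ### Hensel's lemma for power series -/

theorem constantCoeff_eval (F : Polynomial (PowerSeries ℂ)) (a : PowerSeries ℂ) :
    PowerSeries.constantCoeff (F.eval a) =
      (F.map PowerSeries.constantCoeff).eval (PowerSeries.constantCoeff a) := by
  rw [Polynomial.eval_map, Polynomial.eval₂_hom]

theorem hensel_step (F : Polynomial (PowerSeries ℂ)) (w0 : ℂ)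
    (h1 : PowerSeries.constantCoeff (F.derivative.eval (PowerSeries.C w0)) ≠ 0) (n : ℕ)
    (a : PowerSeries ℂ) (ha : PowerSeries.constantCoeff a = w0)
    (hF : PowerSeries.X ^ (n + 1) ∣ F.eval a) :
    ∃ a' : PowerSeries ℂ, PowerSeries.constantCoeff a' = w0 ∧
      PowerSeries.X ^ (n + 1 + 1) ∣ F.eval a' ∧ PowerSeries.X ^ (n + 1) ∣ a' - a := by
  set D : ℂ := PowerSeries.constantCoeff (F.derivative.eval a) with hD
  have hD0 : D ≠ 0 := by
    rw [hD, constantCoeff_eval, ha]
    rw [constantCoeff_eval] at h1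
    simpa using h1
  set q : ℂ := PowerSeries.coeff (n + 1) (F.eval a) with hq
  set y : PowerSeries ℂ := PowerSeries.X ^ (n + 1) * PowerSeries.C (-(q / D)) with hy
  refine ⟨a + y, ?_, ?_, ?_⟩
  · rw [map_add, ha, hy]
    simp
  · obtain ⟨k, hk⟩ := Polynomial.binomExpansion F a y
    rw [hk, PowerSeries.X_pow_dvd_iff]
    intro i hi
    have hy2 : PowerSeries.coeff i (k * y ^ 2) = 0 := by
      have : PowerSeries.X ^ (n + 1 + 1) ∣ k * y ^ 2 := by
        apply Dvd.dvd.mul_left
        rw [hy, mul_pow, ← pow_mul]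
        apply Dvd.dvd.mul_right
        exact pow_dvd_pow _ (by omega)
      exact (PowerSeries.X_pow_dvd_iff.mp this) i hi
    rw [map_add, map_add, hy2, add_zero]
    rcases Nat.lt_or_ge i (n + 1) with h | h
    · have e1 := (PowerSeries.X_pow_dvd_iff.mp hF) i h
      have e2 : PowerSeries.coeff i (F.derivative.eval a * y) = 0 := by
        have : PowerSeries.X ^ (n + 1) ∣ F.derivative.eval a * y := by
          apply Dvd.dvd.mul_left
          rw [hy]
          exact Dvd.intro _ rfl
        exact (PowerSeries.X_pow_dvd_iff.mp this) i h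
      rw [e1, e2, add_zero]
    · have hi' : i = n + 1 := by omega
      subst hi'
      have e2 : PowerSeries.coeff (n + 1) (F.derivative.eval a * y) = -q := by
        have : F.derivative.eval a * y =
            PowerSeries.X ^ (n + 1) * (F.derivative.eval a * PowerSeries.C (-(q / D))) := by
          rw [hy]; ring
        rw [this]
        have h2 := PowerSeries.coeff_X_pow_mul (F.derivative.eval a * PowerSeries.C (-(q / D))) (n + 1) 0
        rw [zero_add] at h2
        rw [h2, PowerSeries.coeff_zero_eq_constantCoeff_apply, map_mul]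
        rw [← hD]
        simp
        field_simp
      rw [e2, ← hq, add_neg_cancel]
  · rw [add_sub_cancel_left, hy]
    exact Dvd.intro _ rfl

/-- Hensel's lemma (simple root, polynomial not necessarily monic). -/
theorem hensel_ps (F : Polynomial (PowerSeries ℂ)) (w0 : ℂ)
    (h0 : PowerSeries.constantCoeff (F.eval (PowerSeries.C w0)) = 0)
    (h1 : PowerSeries.constantCoeff (F.derivative.eval (PowerSeries.C w0)) ≠ 0) :
    ∃ w : PowerSeries ℂ, PowerSeries.constantCoeff w = w0 ∧ F.eval w = 0 := by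
  classical
  let T : ℕ → Type := fun n => {a : PowerSeries ℂ // PowerSeries.constantCoeff a = w0 ∧
    PowerSeries.X ^ (n + 1) ∣ F.eval a}
  have hstep : ∀ n (a : T n), ∃ a' : T (n + 1), PowerSeries.X ^ (n + 1) ∣ a'.1 - a.1 := by
    intro n a
    obtain ⟨a', e1, e2, e3⟩ := hensel_step F w0 h1 n a.1 a.2.1 a.2.2
    exact ⟨⟨a', e1, e2⟩, e3⟩
  choose f hf using hstep
  let t0 : T 0 := ⟨PowerSeries.C w0, by simp, by
    rw [zero_add, pow_one, PowerSeries.X_dvd_iff]
    exact h0⟩
  let A : ∀ n, T n := fun n => Nat.rec t0 (fun n a => f n a) n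
  have hA : ∀ n, PowerSeries.X ^ (n + 1) ∣ (A (n + 1)).1 - (A n).1 := fun n => hf n (A n)
  have hA2 : ∀ n k, PowerSeries.X ^ (n + 1) ∣ (A (n + k)).1 - (A n).1 := by
    intro n k
    induction k with
    | zero => simp
    | succ k ih =>
      have e : (A (n + (k + 1))).1 - (A n).1 =
          ((A (n + k + 1)).1 - (A (n + k)).1) + ((A (n + k)).1 - (A n).1) := by
        rw [sub_add_sub_cancel]
        rfl
      rw [e]
      apply dvd_add _ ih
      exact (pow_dvd_pow _ (by omega)).trans (hA (n + k))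
  set w : PowerSeries ℂ := PowerSeries.mk (fun n => PowerSeries.coeff n (A n).1) with hw
  have hwA : ∀ n, PowerSeries.X ^ (n + 1) ∣ w - (A n).1 := by
    intro n
    rw [PowerSeries.X_pow_dvd_iff]
    intro i hi
    rw [map_sub, hw, PowerSeries.coeff_mk]
    obtain ⟨k, rfl⟩ : ∃ k, n = i + k := ⟨n - i, by omega⟩
    have := (PowerSeries.X_pow_dvd_iff.mp (hA2 i k)) i (by omega)
    rw [map_sub] at this
    rw [← neg_sub, this, neg_zero]
  refine ⟨w, ?_, ?_⟩
  · rw [← PowerSeries.coeff_zero_eq_constantCoeff_apply, hw, PowerSeries.coeff_mk,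
      PowerSeries.coeff_zero_eq_constantCoeff_apply]
    exact (A 0).2.1
  · ext n
    have h2 : PowerSeries.X ^ (n + 1) ∣ F.eval w := by
      have h3 := Polynomial.sub_dvd_eval_sub w (A n).1 F
      have h4 := (hwA n).trans h3
      have h5 := dvd_add h4 (A n).2.2
      rwa [sub_add_cancel] at h5
    rw [(PowerSeries.X_pow_dvd_iff.mp h2) n (by omega)]
    simp

/-! ### Expansion as a Taylor shift -/

theorem ex_taylor (ξ : PowerSeries ℂ) (G : Polynomial (Polynomial ℂ)) :
    ex ξ G = Polynomial.taylor ξ (G.map (Polynomial.coeToPowerSeries.ringHom (R := ℂ))) := by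
  rw [Polynomial.taylor_apply]
  have : ex ξ = (Polynomial.compRingHom (Polynomial.X + Polynomial.C ξ)).comp
      (Polynomial.mapRingHom (Polynomial.coeToPowerSeries.ringHom (R := ℂ))) := by
    apply hom_ext
    · intro z
      rw [ex_C]
      simp
    · rw [ex_C]
      simp
    · rw [ex_X]
      simp [add_comm]
  exact congrArg (fun f => f G) this

theorem cf_ex_zero (ξ : PowerSeries ℂ) (G : Polynomial (Polynomial ℂ)) (i : ℕ) :
    cf (ex ξ G) i 0 = PowerSeries.coeff i
      ((G.map (Polynomial.coeToPowerSeries.ringHom (R := ℂ))).eval ξ) := by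
  rw [ex_taylor, cf, Polynomial.taylor_coeff_zero]

theorem cf_ex_one (ξ : PowerSeries ℂ) (G : Polynomial (Polynomial ℂ)) (i : ℕ) :
    cf (ex ξ G) i 1 = PowerSeries.coeff i
      ((G.map (Polynomial.coeToPowerSeries.ringHom (R := ℂ))).derivative.eval ξ) := by
  rw [ex_taylor, cf, Polynomial.taylor_coeff_one]

/-! ### Rational seeds -/

/-- A prime curve of degree `e` with a smooth branch `ξ` along which `∂C/∂y` has order `r` gives the
minimal value `s = (a + r)/e` for every `a > r` with `a ≤ s²` (contact `a` with the branch). -/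
theorem seed_rat {C : Polynomial (Polynomial ℂ)} (hC : Prime C) {e : ℕ} (he : 0 < e)
    (hCe : HasTD e C) (ξ : PowerSeries ℂ) (hξ : PowerSeries.constantCoeff ξ = 0)
    (h0 : ∀ i, cf (ex ξ C) i 0 = 0) (r : ℕ) (h1 : cf (ex ξ C) r 1 ≠ 0)
    (h1' : ∀ i < r, cf (ex ξ C) i 1 = 0) (a : ℕ) (har : r < a) {s : ℝ} (hs1 : 1 ≤ s)
    (hs : (a : ℝ) + r = e * s) (ha : (a : ℝ) ≤ s ^ 2) : SMin s := by
  refine ⟨hs1, ?_⟩
  have ht : 0 < s ^ 2 := by positivity
  have hsq : Real.sqrt (s ^ 2) = s := Real.sqrt_sq (by linarith)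
  set ξ' : PowerSeries ℂ := ξ + PowerSeries.X ^ a with hξ'
  have hξ'0 : PowerSeries.constantCoeff ξ' = 0 := by
    rw [hξ', map_add, hξ]
    simp [show a ≠ 0 by omega]
  have hX := X_mul_mk' ξ' hξ'0
  set p : Polynomial (PowerSeries ℂ) := ex ξ C with hp
  -- the shifted expansion
  have hshift : ex ξ' C = Polynomial.taylor (PowerSeries.X ^ a) p := by
    rw [hp, ex_taylor, ex_taylor, Polynomial.taylor_taylor, hξ', add_comm]
  obtain ⟨g, hg⟩ : ∃ g : Polynomial (PowerSeries ℂ),
      p = Polynomial.C (p.coeff 1) * Polynomial.X + Polynomial.X ^ 2 * g := by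
    refine ⟨p.divX.divX, ?_⟩
    have e1 := Polynomial.divX_mul_X_add p
    have e2 := Polynomial.divX_mul_X_add p.divX
    have e3 : p.coeff 0 = 0 := by
      ext i
      simpa [cf] using h0 i
    rw [e3, map_zero, add_zero] at e1
    rw [Polynomial.coeff_divX, zero_add] at e2
    calc p = p.divX * Polynomial.X := e1.symm
      _ = (p.divX.divX * Polynomial.X + Polynomial.C (p.coeff 1)) * Polynomial.X := by rw [e2]
      _ = _ := by ring
  have hc0 : (ex ξ' C).coeff 0 = p.coeff 1 * PowerSeries.X ^ a +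
      PowerSeries.X ^ (a + a) * g.eval (PowerSeries.X ^ a) := by
    rw [hshift, Polynomial.taylor_coeff_zero]
    conv_lhs => rw [hg]
    simp only [Polynomial.eval_add, Polynomial.eval_mul, Polynomial.eval_C, Polynomial.eval_X,
      Polynomial.eval_pow]
    ring
  have hc1 : ∃ g' : PowerSeries ℂ, (ex ξ' C).coeff 1 = p.coeff 1 + PowerSeries.X ^ a * g' := by
    refine ⟨2 * g.eval (PowerSeries.X ^ a) + PowerSeries.X ^ a *
      g.derivative.eval (PowerSeries.X ^ a), ?_⟩
    rw [hshift, Polynomial.taylor_coeff_one]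
    conv_lhs => rw [hg]
    simp only [Polynomial.derivative_add, Polynomial.derivative_mul, Polynomial.derivative_C,
      Polynomial.derivative_X, Polynomial.derivative_X_pow, Polynomial.eval_add,
      Polynomial.eval_mul, Polynomial.eval_C, Polynomial.eval_X, Polynomial.eval_pow,
      Polynomial.eval_zero, Polynomial.eval_one]
    push_cast
    ring
  have key := very_general_of_curve ht (fun k => PowerSeries.coeff (k + 1) ξ') hC he hCe
    (by
      rw [hX, hsq]
      refine ⟨a + r, 0, ?_, ?_⟩
      · unfold cf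
        rw [hc0, map_add, mul_comm (p.coeff 1), add_comm a r,
          PowerSeries.coeff_X_pow_mul (p.coeff 1) a r]
        have : PowerSeries.coeff (r + a) (PowerSeries.X ^ (a + a) *
            g.eval (PowerSeries.X ^ a)) = 0 := by
          have hd : PowerSeries.X ^ (a + a) ∣ PowerSeries.X ^ (a + a) *
            g.eval (PowerSeries.X ^ a) := Dvd.intro _ rfl
          exact (PowerSeries.X_pow_dvd_iff.mp hd) (r + a) (by omega)
        rw [this, add_zero]
        exact h1
      · push_cast
        linarith)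
    (by
      rw [hX, hsq]
      intro i j hij
      rcases j with _ | _ | j
      · have hi : a + r ≤ i := by
          by_contra hc
          push Not at hc
          apply hij
          unfold cf
          rw [hc0, map_add]
          have e1 : PowerSeries.coeff i (PowerSeries.X ^ (a + a) *
              g.eval (PowerSeries.X ^ a)) = 0 := by
            have hd : PowerSeries.X ^ (a + a) ∣ PowerSeries.X ^ (a + a) *
              g.eval (PowerSeries.X ^ a) := Dvd.intro _ rfl
            exact (PowerSeries.X_pow_dvd_iff.mp hd) i (by omega)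
          have e2 : PowerSeries.coeff i (p.coeff 1 * PowerSeries.X ^ a) = 0 := by
            rw [PowerSeries.coeff_mul_X_pow']
            split_ifs with h
            · exact h1' (i - a) (by omega)
            · rfl
          rw [e1, e2, add_zero]
        have : ((a + r : ℕ) : ℝ) ≤ i := by exact_mod_cast hi
        push_cast at this ⊢
        linarith
      · have hi : r ≤ i := by
          by_contra hc
          push Not at hc
          apply hij
          obtain ⟨g', hg'⟩ := hc1
          unfold cf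
          rw [hg', map_add]
          have e1 : PowerSeries.coeff i (PowerSeries.X ^ a * g') = 0 := by
            have hd : PowerSeries.X ^ a ∣ PowerSeries.X ^ a * g' := Dvd.intro _ rfl
            exact (PowerSeries.X_pow_dvd_iff.mp hd) i (by omega)
          rw [e1, add_zero]
          exact h1' i hc
        have : (r : ℝ) ≤ i := by exact_mod_cast hi
        push_cast
        linarith
      · push_cast
        have hi : (0 : ℝ) ≤ i := by positivity
        have hj : (0 : ℝ) ≤ j := by positivity
        have hra : (r : ℝ) ≤ a := by exact_mod_cast har.le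
        nlinarith [mul_nonneg ht.le hj])
  rw [hsq] at key
  exact key

/-! ### The curves -/

/-- The curve `y^(2m+l) + (1+x) (y^(2m) - (y - x^c)^2)`. -/
noncomputable def crv (c m l : ℕ) : Polynomial (Polynomial ℂ) :=
  Polynomial.X ^ (2 * m + l) + Polynomial.C (1 + Polynomial.X) *
    (Polynomial.X ^ (2 * m) - (Polynomial.X - Polynomial.C (Polynomial.X ^ c)) ^ 2)

theorem crv_low_natDegree (c m l : ℕ) (hm : 1 ≤ m) (hl : 1 ≤ l) :
    (Polynomial.C (1 + Polynomial.X) * (Polynomial.X ^ (2 * m) -
      (Polynomial.X - Polynomial.C (Polynomial.X ^ c)) ^ 2) :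
        Polynomial (Polynomial ℂ)).natDegree < 2 * m + l := by
  refine lt_of_le_of_lt (Polynomial.natDegree_C_mul_le _ _) ?_
  refine lt_of_le_of_lt (Polynomial.natDegree_sub_le _ _) ?_
  rw [Polynomial.natDegree_X_pow, Polynomial.natDegree_pow, Polynomial.natDegree_X_sub_C]
  omega

theorem crv_monic (c m l : ℕ) (hm : 1 ≤ m) (hl : 1 ≤ l) : (crv c m l).Monic := by
  unfold crv
  apply Polynomial.monic_X_pow_add
  rw [Polynomial.degree_lt_iff_coeff_zero]
  intro n hn
  exact Polynomial.coeff_eq_zero_of_natDegree_lt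
    (lt_of_lt_of_le (crv_low_natDegree c m l hm hl) hn)

theorem crv_natDegree (c m l : ℕ) (hm : 1 ≤ m) (hl : 1 ≤ l) :
    (crv c m l).natDegree = 2 * m + l := by
  unfold crv
  rw [Polynomial.natDegree_add_eq_left_of_natDegree_lt, Polynomial.natDegree_X_pow]
  rw [Polynomial.natDegree_X_pow]
  exact crv_low_natDegree c m l hm hl

theorem crv_hasTD (c m l : ℕ) (hm : 1 ≤ m) (hl : 1 ≤ l) (hc : 1 ≤ c)
    (hcl : 2 * c + 1 ≤ 2 * m + l) : HasTD (2 * m + l) (crv c m l) := by
  constructor
  · unfold crv
    apply TD.add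
    · have := TD_y.pow (2 * m + l)
      rwa [one_mul] at this
    · have h1 : TD 1 (Polynomial.C (1 + Polynomial.X) : Polynomial (Polynomial ℂ)) := by
        rw [map_add]
        apply TD.add _ TD_x
        rw [map_one]
        exact HasTD.one.1.mono (by omega)
      rw [mul_sub]
      apply TD.sub
      · refine (h1.mul (TD_y.pow (2 * m))).mono ?_
        omega
      · have h2 : TD c (Polynomial.X - Polynomial.C (Polynomial.X ^ c) :
            Polynomial (Polynomial ℂ)) := by
          apply TD.sub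
          · exact TD_y.mono hc
          · rw [map_pow]
            have := TD_x.pow c
            rwa [one_mul] at this
        refine (h1.mul (h2.pow 2)).mono ?_
        omega
  · refine ⟨0, 2 * m + l, ?_, by omega⟩
    unfold pc
    have h1 := (crv_monic c m l hm hl).coeff_natDegree
    rw [crv_natDegree c m l hm hl] at h1
    rw [h1]
    simp

theorem crv_prime (c m l : ℕ) (hm : 1 ≤ m) (hl : 1 ≤ l) (_hc : 1 ≤ c) : Prime (crv c m l) := by
  have hpr : Prime (1 + Polynomial.X : Polynomial ℂ) := by
    have h := Polynomial.prime_X_sub_C (-1 : ℂ)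
    have e : (Polynomial.X - Polynomial.C (-1 : ℂ)) = 1 + Polynomial.X := by
      rw [map_neg, map_one]; ring
    rwa [e] at h
  have hPI : (Ideal.span {(1 + Polynomial.X : Polynomial ℂ)}).IsPrime :=
    (Ideal.span_singleton_prime hpr.ne_zero).mpr hpr
  have hmon := crv_monic c m l hm hl
  have hirr : Irreducible (crv c m l) := by
    apply Polynomial.irreducible_of_eisenstein_criterion hPI
    · rw [hmon.leadingCoeff]
      intro h
      exact hPI.ne_top ((Ideal.eq_top_iff_one _).mpr h)
    · intro n hn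
      rw [Polynomial.degree_eq_natDegree hmon.ne_zero, crv_natDegree c m l hm hl] at hn
      have hn' : n < 2 * m + l := by exact_mod_cast hn
      rw [Ideal.mem_span_singleton]
      unfold crv
      rw [Polynomial.coeff_add, Polynomial.coeff_X_pow, if_neg (by omega), zero_add,
        Polynomial.coeff_C_mul]
      exact Dvd.intro _ rfl
    · rw [Polynomial.degree_eq_natDegree hmon.ne_zero, crv_natDegree c m l hm hl]
      have : 0 < 2 * m + l := by omega
      exact_mod_cast this
    · rw [Ideal.span_singleton_pow, Ideal.mem_span_singleton]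
      have e : (crv c m l).coeff 0 =
          -((1 + Polynomial.X) * Polynomial.X ^ (c * 2)) := by
        unfold crv
        rw [Polynomial.coeff_zero_eq_eval_zero]
        simp only [Polynomial.eval_add, Polynomial.eval_mul, Polynomial.eval_sub,
          Polynomial.eval_pow, Polynomial.eval_C, Polynomial.eval_X]
        rw [zero_pow (by omega), zero_pow (by omega)]
        ring
      rw [e]
      intro h
      rw [dvd_neg, sq] at h
      have h2 := (mul_dvd_mul_iff_left hpr.ne_zero).mp h
      have h3 := hpr.dvd_of_dvd_pow h2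
      obtain ⟨q, hq⟩ := h3
      have h4 := congrArg (fun p => Polynomial.eval (-1 : ℂ) p) hq
      simp at h4
    · exact hmon.isPrimitive
  exact hirr.prime

/-! ### The branch -/

/-- The polynomial of the curve over `ℂ⟦x⟧`. -/
theorem crv_map (c m l : ℕ) :
    (crv c m l).map (Polynomial.coeToPowerSeries.ringHom (R := ℂ)) =
      Polynomial.X ^ (2 * m + l) + Polynomial.C (1 + PowerSeries.X) *
        (Polynomial.X ^ (2 * m) - (Polynomial.X - Polynomial.C (PowerSeries.X ^ c)) ^ 2) := by
  unfold crv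
  simp

theorem crv_eval (c m l : ℕ) (ξ : PowerSeries ℂ) :
    ((crv c m l).map (Polynomial.coeToPowerSeries.ringHom (R := ℂ))).eval ξ =
      ξ ^ (2 * m + l) + (1 + PowerSeries.X) * (ξ ^ (2 * m) - (ξ - PowerSeries.X ^ c) ^ 2) := by
  rw [crv_map]
  simp

theorem crv_deriv (c m l : ℕ) (ξ : PowerSeries ℂ) :
    ((crv c m l).map (Polynomial.coeToPowerSeries.ringHom (R := ℂ))).derivative.eval ξ =
      ((2 * m + l : ℕ) : PowerSeries ℂ) * ξ ^ (2 * m + l - 1) +
        (1 + PowerSeries.X) * (((2 * m : ℕ) : PowerSeries ℂ) * ξ ^ (2 * m - 1) -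
          2 * (ξ - PowerSeries.X ^ c)) := by
  rw [crv_map]
  rw [Polynomial.derivative_add, Polynomial.derivative_mul, Polynomial.derivative_C, zero_mul,
    zero_add, Polynomial.derivative_sub, Polynomial.derivative_X_pow, Polynomial.derivative_X_pow,
    Polynomial.derivative_pow, Polynomial.derivative_sub, Polynomial.derivative_X,
    Polynomial.derivative_C, sub_zero]
  simp only [Polynomial.eval_add, Polynomial.eval_mul, Polynomial.eval_sub, Polynomial.eval_pow,
    Polynomial.eval_C, Polynomial.eval_X, Polynomial.eval_one]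
  push_cast
  ring

/-- The smooth branch: `∂C/∂y = x^(cm) U` with `U(0) ≠ 0` along it. -/
theorem crv_branch (c m l : ℕ) (hm : 1 ≤ m) (hl : 1 ≤ l) (hc : 1 ≤ c) :
    ∃ ξ U : PowerSeries ℂ, PowerSeries.constantCoeff ξ = 0 ∧
      ((crv c m l).map (Polynomial.coeToPowerSeries.ringHom (R := ℂ))).eval ξ = 0 ∧
      ((crv c m l).map (Polynomial.coeToPowerSeries.ringHom (R := ℂ))).derivative.eval ξ =
        PowerSeries.X ^ (c * m) * U ∧ PowerSeries.constantCoeff U ≠ 0 := by
  have hX0 : ∀ n : ℕ, 1 ≤ n → PowerSeries.constantCoeff (PowerSeries.X ^ n : PowerSeries ℂ) = 0 := by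
    intro n hn
    rw [map_pow, PowerSeries.constantCoeff_X, zero_pow (by omega)]
  have hc2 : PowerSeries.constantCoeff (2 : PowerSeries ℂ) = 2 :=
    map_ofNat PowerSeries.constantCoeff 2
  rcases Nat.lt_or_ge m 2 with h | h
  · -- m = 1
    have hm1 : m = 1 := by omega
    subst hm1
    set F : Polynomial (PowerSeries ℂ) := Polynomial.C (PowerSeries.X ^ (c * l)) *
      Polynomial.X ^ (l + 2) + Polynomial.C (1 + PowerSeries.X) * (2 * Polynomial.X - 1) with hF
    have hFe : ∀ w : PowerSeries ℂ, F.eval w = PowerSeries.X ^ (c * l) * w ^ (l + 2) +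
        (1 + PowerSeries.X) * (2 * w - 1) := by
      intro w
      rw [hF]
      simp
    have hFd : ∀ w : PowerSeries ℂ, F.derivative.eval w = PowerSeries.X ^ (c * l) *
        (((l + 2 : ℕ) : PowerSeries ℂ) * w ^ (l + 1)) + (1 + PowerSeries.X) * 2 := by
      intro w
      rw [hF]
      rw [Polynomial.derivative_add, Polynomial.derivative_mul, Polynomial.derivative_C, zero_mul,
        zero_add, Polynomial.derivative_X_pow, Polynomial.derivative_mul, Polynomial.derivative_C,
        zero_mul, zero_add, Polynomial.derivative_sub, Polynomial.derivative_mul,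
        Polynomial.derivative_X, Polynomial.derivative_one]
      have h2 : Polynomial.derivative (2 : Polynomial (PowerSeries ℂ)) = 0 := by
        rw [← map_ofNat Polynomial.C 2, Polynomial.derivative_C]
      rw [h2]
      simp
    obtain ⟨z, hz0, hz⟩ := hensel_ps F (1 / 2) (by
      rw [hFe, map_add, map_mul, hX0 _ (Nat.mul_pos hc hl)]
      simp [hc2]) (by
      rw [hFd, map_add, map_mul, hX0 _ (Nat.mul_pos hc hl)]
      simp [hc2])
    rw [hFe] at hz
    have hcl : c * l = c * (l - 1) + c := by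
      rw [← Nat.mul_succ]
      congr 1
      omega
    refine ⟨PowerSeries.X ^ c * z, ((2 * 1 + l : ℕ) : PowerSeries ℂ) *
      PowerSeries.X ^ (c * l) * z ^ (l + 1) + (1 + PowerSeries.X) * 2, ?_, ?_, ?_, ?_⟩
    · rw [map_mul, hX0 c hc, zero_mul]
    · rw [crv_eval]
      have e : (PowerSeries.X ^ c * z) ^ (2 * 1 + l) + (1 + PowerSeries.X) *
          ((PowerSeries.X ^ c * z) ^ (2 * 1) - (PowerSeries.X ^ c * z - PowerSeries.X ^ c) ^ 2) =
          PowerSeries.X ^ (2 * c) * (PowerSeries.X ^ (c * l) * z ^ (l + 2) +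
            (1 + PowerSeries.X) * (2 * z - 1)) := by
        ring
      rw [e, hz, mul_zero]
    · rw [crv_deriv]
      have e1 : 2 * 1 + l - 1 = l + 1 := by omega
      rw [e1]
      push_cast
      ring
    · rw [map_add, map_mul, map_mul, hX0 _ (Nat.mul_pos hc hl)]
      simp [hc2]
  · -- m ≥ 2
    obtain ⟨n, rfl⟩ : ∃ n, m = n + 2 := ⟨m - 2, by omega⟩
    set Z : Polynomial (PowerSeries ℂ) := 1 + Polynomial.C (PowerSeries.X ^ (c * (n + 1))) *
      Polynomial.X with hZ
    set F : Polynomial (PowerSeries ℂ) := Polynomial.C (PowerSeries.X ^ (c * l)) *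
      Z ^ (2 * (n + 2) + l) + Polynomial.C (1 + PowerSeries.X) *
        (Z ^ (2 * (n + 2)) - Polynomial.X ^ 2) with hF
    have hZe : ∀ w : PowerSeries ℂ, Z.eval w = 1 + PowerSeries.X ^ (c * (n + 1)) * w := by
      intro w
      rw [hZ]
      simp
    have hZd : Z.derivative = Polynomial.C (PowerSeries.X ^ (c * (n + 1))) := by
      rw [hZ, Polynomial.derivative_add, Polynomial.derivative_one, zero_add,
        Polynomial.derivative_C_mul, Polynomial.derivative_X, mul_one]
    have hFe : ∀ w : PowerSeries ℂ, F.eval w = PowerSeries.X ^ (c * l) *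
        (1 + PowerSeries.X ^ (c * (n + 1)) * w) ^ (2 * (n + 2) + l) +
        (1 + PowerSeries.X) * ((1 + PowerSeries.X ^ (c * (n + 1)) * w) ^ (2 * (n + 2)) - w ^ 2) := by
      intro w
      rw [hF]
      simp only [Polynomial.eval_add, Polynomial.eval_mul, Polynomial.eval_sub, Polynomial.eval_pow,
        Polynomial.eval_C, Polynomial.eval_X, hZe]
    have hcn : 1 ≤ c * (n + 1) := Nat.mul_pos hc (by omega)
    have hFd0 : ∀ w : PowerSeries ℂ, PowerSeries.constantCoeff (F.derivative.eval w) =
        -(2 * PowerSeries.constantCoeff w) := by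
      intro w
      rw [hF]
      rw [Polynomial.derivative_add, Polynomial.derivative_mul, Polynomial.derivative_C, zero_mul,
        zero_add, Polynomial.derivative_mul, Polynomial.derivative_C, zero_mul, zero_add,
        Polynomial.derivative_sub, Polynomial.derivative_pow, Polynomial.derivative_pow,
        Polynomial.derivative_X_pow, hZd]
      simp only [Polynomial.eval_add, Polynomial.eval_mul, Polynomial.eval_sub, Polynomial.eval_pow,
        Polynomial.eval_C, Polynomial.eval_X, hZe, map_add, map_mul, map_sub, hX0 _ hcn,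
        hX0 _ (Nat.mul_pos hc hl)]
      simp [hc2]
    obtain ⟨w, hw0, hw⟩ := hensel_ps F 1 (by
      have z1 : (0 : ℂ) ^ (c * l) = 0 := zero_pow (Nat.mul_pos hc hl).ne'
      have z2 : (0 : ℂ) ^ (c * (n + 1)) = 0 := zero_pow (by omega)
      rw [hFe]
      simp [z1, z2]) (by
      rw [hFd0]
      simp)
    rw [hFe] at hw
    set z : PowerSeries ℂ := 1 + PowerSeries.X ^ (c * (n + 1)) * w with hz
    refine ⟨PowerSeries.X ^ c * z, ((2 * (n + 2) + l : ℕ) : PowerSeries ℂ) *
      PowerSeries.X ^ (c * (n + 1 + l)) * z ^ (2 * (n + 2) + l - 1) + (1 + PowerSeries.X) *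
        (((2 * (n + 2) : ℕ) : PowerSeries ℂ) * PowerSeries.X ^ (c * (n + 1)) *
          z ^ (2 * (n + 2) - 1) - 2 * w), ?_, ?_, ?_, ?_⟩
    · rw [map_mul, hX0 c hc, zero_mul]
    · rw [crv_eval]
      have e0 : PowerSeries.X ^ c * z - PowerSeries.X ^ c =
          PowerSeries.X ^ (c * (n + 2)) * w := by
        rw [hz]
        ring
      rw [e0]
      have e : (PowerSeries.X ^ c * z) ^ (2 * (n + 2) + l) + (1 + PowerSeries.X) *
          ((PowerSeries.X ^ c * z) ^ (2 * (n + 2)) - (PowerSeries.X ^ (c * (n + 2)) * w) ^ 2) =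
          PowerSeries.X ^ (c * (2 * (n + 2))) * (PowerSeries.X ^ (c * l) * z ^ (2 * (n + 2) + l) +
            (1 + PowerSeries.X) * (z ^ (2 * (n + 2)) - w ^ 2)) := by
        ring_nf
      rw [e, hw, mul_zero]
    · rw [crv_deriv]
      have e0 : PowerSeries.X ^ c * z - PowerSeries.X ^ c =
          PowerSeries.X ^ (c * (n + 2)) * w := by
        rw [hz]
        ring
      rw [e0]
      have e1 : 2 * (n + 2) + l - 1 = 2 * n + l + 3 := by omega
      have e2 : 2 * (n + 2) - 1 = 2 * n + 3 := by omega
      rw [e1, e2]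
      ring_nf
    · have h3 : 1 ≤ c * (n + 1 + l) := Nat.mul_pos hc (by omega)
      simp only [map_add, map_mul, map_sub, hX0 _ hcn, hX0 _ h3]
      simp [hw0, hc2]

/-- **Seeds** `s² + cm = e s`, `2c+1 ≤ e`, `2m+1 ≤ e`. -/
theorem SMin.curve (e c m : ℕ) (hc : 1 ≤ c) (hm : 1 ≤ m) (hce : 2 * c + 1 ≤ e)
    (hme : 2 * m + 1 ≤ e) {s : ℝ} (hs1 : 1 ≤ s) (hs : s ^ 2 + (c * m : ℕ) = e * s)
    (hr : ((c * m : ℕ) : ℝ) ≤ s ^ 2) : SMin s := by
  obtain ⟨l, rfl⟩ : ∃ l, e = 2 * m + l := ⟨e - 2 * m, by omega⟩
  have hl : 1 ≤ l := by omega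
  obtain ⟨ξ, U, h1, h2, h3, h4⟩ := crv_branch c m l hm hl hc
  refine seed_irr (crv_prime c m l hm hl hc) (by omega) (crv_hasTD c m l hm hl hc hce) ξ h1 ?_
    (c * m) ?_ ?_ hs1 hs hr
  · intro i
    rw [cf_ex_zero, h2, map_zero]
  · rw [cf_ex_one, h3]
    have := PowerSeries.coeff_X_pow_mul U (c * m) 0
    rw [zero_add] at this
    rw [this]
    simpa using h4
  · intro i hi
    rw [cf_ex_one, h3]
    exact (PowerSeries.X_pow_dvd_iff.mp (Dvd.intro _ rfl)) i hi

/-- **Rational seeds** `s = p/e` with `s² ≥ p - cm`. -/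
theorem SMin.point (e c m p : ℕ) (hc : 1 ≤ c) (hm : 1 ≤ m) (hce : 2 * c + 1 ≤ e)
    (hme : 2 * m + 1 ≤ e) (hp : 2 * (c * m) < p)
    (hs : (p : ℝ) - (c * m : ℕ) ≤ ((p : ℝ) / e) ^ 2) : SMin ((p : ℝ) / e) := by
  obtain ⟨l, rfl⟩ : ∃ l, e = 2 * m + l := ⟨e - 2 * m, by omega⟩
  have hl : 1 ≤ l := by omega
  obtain ⟨ξ, U, h1, h2, h3, h4⟩ := crv_branch c m l hm hl hc
  have he0 : (0 : ℝ) < ((2 * m + l : ℕ) : ℝ) := by
    have : 0 < 2 * m + l := by omega
    exact_mod_cast this
  have hcast : ((p - c * m : ℕ) : ℝ) = (p : ℝ) - (c * m : ℕ) := by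
    rw [Nat.cast_sub (by omega)]
  have hp1 : (1 : ℝ) ≤ (p : ℝ) - (c * m : ℕ) := by
    rw [← hcast]
    have : 1 ≤ p - c * m := by omega
    exact_mod_cast this
  have hs0 : 0 ≤ (p : ℝ) / ((2 * m + l : ℕ) : ℝ) := by positivity
  refine seed_rat (crv_prime c m l hm hl hc) (by omega) (crv_hasTD c m l hm hl hc hce) ξ h1 ?_
    (c * m) ?_ ?_ (p - c * m) (by omega) ?_ ?_ ?_
  · intro i
    rw [cf_ex_zero, h2, map_zero]
  · rw [cf_ex_one, h3]
    have := PowerSeries.coeff_X_pow_mul U (c * m) 0
    rw [zero_add] at this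
    rw [this]
    simpa using h4
  · intro i hi
    rw [cf_ex_one, h3]
    exact (PowerSeries.X_pow_dvd_iff.mp (Dvd.intro _ rfl)) i hi
  · nlinarith
  · rw [hcast]
    field_simp
    ring
  · rw [hcast]
    exact hs

end Pool.Agent.QMVal
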