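import Mathlib
import Pool.Agent.Lib.QMVery

set_option autoImplicit false

/-!
The Nagata-type conjecture for `9 ≤ t ≤ 10` implies it for all `t ≥ 9`.
-/

namespace Pool.Agent.Lib.QMReduction

open Pool.Agent.QMVal

theorem move_c {c t0 t : ℝ} (ht0 : 0 < t0) (ht : 0 < t) (h : MuHatLe t0 (c * Real.sqrt t0)) (P : ℕ)
    (hP : t0 ≤ P) (hPt : t0 * t = (P : ℝ) ^ 2) : MuHatLe t (c * Real.sqrt t) := by
  have h1 := h.move_pos ht0 P hP
  have e1 : (P : ℝ) ^ 2 / t0 = t := by
    rw [← hPt]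
    field_simp
  have hP0 : (0 : ℝ) ≤ P := by positivity
  have e3 : Real.sqrt t0 * Real.sqrt t = P := by
    rw [← Real.sqrt_mul ht0.le, hPt, Real.sqrt_sq hP0]
  have e2 : (P : ℝ) / t0 * (c * Real.sqrt t0) = c * Real.sqrt t := by
    rw [← e3]
    have h2 : Real.sqrt t0 * Real.sqrt t0 = t0 := Real.mul_self_sqrt ht0.le
    rw [div_mul_eq_mul_div, div_eq_iff ht0.ne']
    calc Real.sqrt t0 * Real.sqrt t * (c * Real.sqrt t0)
        = c * Real.sqrt t * (Real.sqrt t0 * Real.sqrt t0) := by ring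
      _ = c * Real.sqrt t * t0 := by rw [h2]
  rwa [e1, e2] at h1

/-- For every constant `c`: if `μ̂(t) ≤ c √t` for all `t` in `[9,10]`, then for all `t ≥ 9`. -/
theorem result :
    ∀ c : ℝ, (∀ t : ℝ, 9 ≤ t → t ≤ 10 → MuHatLe t (c * Real.sqrt t)) →
      ∀ t : ℝ, 9 ≤ t → MuHatLe t (c * Real.sqrt t) := by
  intro c H
  have H1 : ∀ t : ℝ, 9 ≤ t → t ≤ 100 / 9 → MuHatLe t (c * Real.sqrt t) := by
    intro t ht ht2
    rcases le_or_gt t 10 with h | h
    · exact H t ht h
    · have ht0 : 0 < t := by linarith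
      have h1 : 9 ≤ 100 / t := by rw [le_div_iff₀ ht0]; linarith
      have h2 : 100 / t ≤ 10 := by rw [div_le_iff₀ ht0]; linarith
      refine move_c (by positivity) ht0 (H (100 / t) h1 h2) 10 (by push_cast; exact h2) ?_
      push_cast
      field_simp
      norm_num
  intro t ht
  rcases le_or_gt t (100 / 9) with h | h
  · exact H1 t ht h
  · have ht0 : 0 < t := by linarith
    set s := Real.sqrt t with hs
    have hs2 : s ^ 2 = t := Real.sq_sqrt ht0.le
    have hs103 : 10 / 3 ≤ s := by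
      rw [hs]
      apply Real.le_sqrt_of_sq_le
      norm_num
      linarith
    have hs0 : 0 < s := by linarith
    set P := ⌈3 * s⌉₊ with hP
    have hP1 : 3 * s ≤ P := Nat.le_ceil _
    have hP2 : (P : ℝ) < 3 * s + 1 := Nat.ceil_lt_add_one (by positivity)
    have hP0 : (0 : ℝ) < P := by linarith
    have h1 : 9 ≤ (P : ℝ) ^ 2 / t := by
      rw [le_div_iff₀ ht0, ← hs2]
      nlinarith
    have h3 : 3 * (P : ℝ) ≤ 10 * s := by linarith
    have h2 : (P : ℝ) ^ 2 / t ≤ 100 / 9 := by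
      rw [div_le_iff₀ ht0, ← hs2]
      nlinarith
    refine move_c (by positivity) ht0 (H1 _ h1 h2) P ?_ ?_
    · rw [div_le_iff₀ ht0, ← hs2]
      nlinarith
    · field_simp

end Pool.Agent.Lib.QMReduction
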