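import Mathlib

set_option autoImplicit false

namespace Pool.Agent.Lib.QuadFermat

open NumberField

/-! ### Ring lemma for an odd prime exponent -/

/-- `(1 - X)^ℓ + X^ℓ = 1 - ℓ X (1 - X S)` for some `S`, evaluated at an element of a ring. -/
lemma binom_aux {R : Type*} [CommRing R] {l : ℕ} (hl : l.Prime) (hodd : Odd l) (v : R) :
    ∃ s : R, (1 - v) ^ l + v ^ l = 1 - l * v * (1 - v * s) := by
  -- work in ℤ[X]
  obtain ⟨r, hr⟩ := exists_add_pow_prime_eq (R := Polynomial ℤ) hl 1 (-Polynomial.X)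
  have h0 : r.eval 0 = 1 := by
    have hd := congrArg (fun q : Polynomial ℤ => (Polynomial.derivative q).eval 0) hr
    simp only [Polynomial.derivative_pow, Polynomial.derivative_add, Polynomial.derivative_one,
      Polynomial.derivative_neg, Polynomial.derivative_X, Polynomial.derivative_mul,
      Polynomial.derivative_natCast] at hd
    have hl1 : l - 1 ≠ 0 := by have := hl.two_le; have := hl.ne_one; intro h; rcases hodd with ⟨k, hk⟩; omega
    simp [Polynomial.eval_pow, Polynomial.eval_mul, Polynomial.eval_add, hl1] at hd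
    have hl0 : (l : ℤ) ≠ 0 := by exact_mod_cast hl.ne_zero
    have : (l : ℤ) * (r.eval 0 - 1) = 0 := by linarith
    rcases mul_eq_zero.mp this with h | h
    · exact absurd h hl0
    · linarith
  obtain ⟨q, hq⟩ : ∃ q : Polynomial ℤ, r = 1 - Polynomial.X * q := by
    have : Polynomial.X ∣ (1 - r) := by
      rw [Polynomial.X_dvd_iff, Polynomial.coeff_zero_eq_eval_zero]
      simp [h0]
    obtain ⟨q, hq⟩ := this
    exact ⟨q, by rw [← hq]; ring⟩
  refine ⟨Polynomial.aeval v q, ?_⟩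
  have hv := congrArg (fun p : Polynomial ℤ => Polynomial.aeval v p) hr
  simp only [map_pow, map_add, map_one, map_neg, Polynomial.aeval_X, map_mul, map_natCast, hq,
    map_sub, hodd.neg_pow] at hv
  have hv' : (1 - v) ^ l = (1 + -v) ^ l := by ring
  rw [hv', hv]; ring

/-- If `u + v` is a rational integer and `u^ℓ + v^ℓ = ±1` with `ℓ` an odd prime, then
`u v` is a unit (or zero). -/
lemma prime_case {R : Type*} [CommRing R] [IsDomain R] [CharZero R]
    (hR : ∀ m : ℤ, IsUnit (m : R) → m = 1 ∨ m = -1) {l : ℕ} (hl : l.Prime) (hodd : Odd l)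
    (u v : R) (P : ℤ) (hP : u + v = P) (huv : u * v ≠ 0)
    (h : u ^ l + v ^ l = 1 ∨ u ^ l + v ^ l = -1) : IsUnit (u * v) := by
  have hdvd : (u + v) ∣ u ^ l + v ^ l := hodd.add_dvd_pow_add_pow u v
  have hPu : IsUnit ((P : ℤ) : R) := by
    rw [← hP]
    rcases h with h | h
    · exact isUnit_of_dvd_one (h ▸ hdvd)
    · rw [h] at hdvd
      exact isUnit_of_dvd_one ((dvd_neg).mp hdvd)
  -- reduce to `u + v = 1`
  have key : ∀ u v : R, u + v = 1 → u * v ≠ 0 →
      (u ^ l + v ^ l = 1 ∨ u ^ l + v ^ l = -1) → IsUnit (u * v) := by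
    intro u v h1 hne h
    have step : ∀ u v : R, u + v = 1 → u * v ≠ 0 →
      (u ^ l + v ^ l = 1 ∨ u ^ l + v ^ l = -1) → IsUnit v := by
      intro u v h1 hne h
      have hu : u = 1 - v := by rw [← h1]; ring
      obtain ⟨s, hs⟩ := binom_aux hl hodd v
      have hl0 : ((l : ℕ) : R) ≠ 0 := by exact_mod_cast hl.ne_zero
      have hv0 : v ≠ 0 := right_ne_zero_of_mul hne
      rw [hu, hs] at h
      rcases h with h | h
      · have h2 : (l : R) * v * (1 - v * s) = 0 := by linear_combination -h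
        rcases mul_eq_zero.mp h2 with h3 | h3
        · exact absurd h3 (mul_ne_zero hl0 hv0)
        · exact IsUnit.of_mul_eq_one s (by linear_combination -h3)
      · exfalso
        have h2 : (l : R) * (v * (1 - v * s)) = 2 := by linear_combination -h
        -- `l` odd, `l ∣ 2`, so `l` is a unit
        obtain ⟨k, hk⟩ := hodd
        have h3 : (l : R) * (1 - k * (v * (1 - v * s))) = 1 := by
          have : (l : R) = 2 * k + 1 := by rw [hk]; push_cast; ring
          have e : (l : R) * (1 - k * (v * (1 - v * s)))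
              = (l : R) - k * ((l : R) * (v * (1 - v * s))) := by ring
          rw [e, h2, this]; ring
        have h4 : IsUnit (((l : ℤ)) : R) := by
          have : (((l : ℤ)) : R) = (l : R) := by push_cast; rfl
          rw [this]
          exact IsUnit.of_mul_eq_one _ h3
        rcases hR _ h4 with h5 | h5
        · have := hl.one_lt; omega
        · omega
    refine IsUnit.mul ?_ (step u v h1 hne h)
    refine step v u (by rw [add_comm]; exact h1) (by rwa [mul_comm]) ?_
    rcases h with h | h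
    · left; rw [add_comm]; exact h
    · right; rw [add_comm]; exact h
  rcases hR P hPu with h1 | h1
  · exact key u v (by rw [hP, h1]; simp) huv h
  · have := key (-u) (-v) (by rw [h1] at hP; push_cast at hP; linear_combination -hP)
      (by simpa using huv) (by
        rw [hodd.neg_pow, hodd.neg_pow]
        rcases h with h | h
        · right; rw [← h]; ring
        · left; linear_combination -h)
    simpa using this

/-! ### Powers of two -/


lemma pell_quartic_nat {x y : ℕ} (h : x ^ 2 = 2 * y ^ 4 + 1) : y = 0 := by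
  by_contra hy
  have hy1 : 1 ≤ y := Nat.one_le_iff_ne_zero.mpr hy
  have hxodd : x % 2 = 1 := by
    rcases Nat.mod_two_eq_zero_or_one x with h0 | h0
    · exfalso
      obtain ⟨k, hk⟩ := Nat.dvd_of_mod_eq_zero h0
      rw [hk] at h
      have : 2 * (2 * k ^ 2) = 2 * y ^ 4 + 1 := by rw [← h]; ring
      omega
    · exact h0
  obtain ⟨m, rfl⟩ : ∃ m, x = 2 * m + 1 := ⟨x / 2, by omega⟩
  have h1 : 2 * (m * (m + 1)) = y ^ 4 := by nlinarith
  have hy4 : 1 ≤ y ^ 4 := Nat.one_le_pow _ _ hy1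
  have hm1 : 1 ≤ m := by
    rcases Nat.eq_zero_or_pos m with h0 | h0
    · subst h0; simp at h1; omega
    · exact h0
  have hye : 2 ∣ y := by
    have : 2 ∣ y ^ 4 := ⟨_, h1.symm⟩
    exact Nat.prime_two.dvd_of_dvd_pow this
  obtain ⟨w, rfl⟩ := hye
  have h2 : m * (m + 1) = 8 * w ^ 4 := by
    have : 2 * (m * (m + 1)) = 2 * (8 * w ^ 4) := by rw [h1]; ring
    omega
  have hw1 : 1 ≤ w := by omega
  rcases Nat.even_or_odd m with hme | hmo
  · -- m even
    have hc : Nat.Coprime 8 (m + 1) := by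
      have : Nat.Coprime 2 (m + 1) := by
        rw [Nat.coprime_two_left]; exact hme.add_one
      exact Nat.Coprime.pow_left 3 this
    have h8 : 8 ∣ m := hc.dvd_of_dvd_mul_right ⟨_, h2⟩
    obtain ⟨k, rfl⟩ := h8
    have h3 : k * (8 * k + 1) = w ^ 4 := by nlinarith
    have hcop : Nat.Coprime k (8 * k + 1) := by
      simp
    obtain ⟨b, hb⟩ : ∃ d, k = d ^ 4 :=
      exists_eq_pow_of_mul_eq_pow (by rw [Nat.isUnit_iff]; exact hcop) h3
    obtain ⟨a, ha⟩ : ∃ d, 8 * k + 1 = d ^ 4 :=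
      exists_eq_pow_of_mul_eq_pow (by rw [Nat.isUnit_iff]; exact hcop.symm) (by rw [mul_comm]; exact h3)
    have hb1 : 1 ≤ b := by
      rcases Nat.eq_zero_or_pos b with h0 | h0
      · subst h0; simp at hb; omega
      · exact h0
    have hab : a ^ 4 = 8 * b ^ 4 + 1 := by rw [← ha, hb]
    have haodd : a % 2 = 1 := by
      rcases Nat.mod_two_eq_zero_or_one a with h0 | h0
      · exfalso
        obtain ⟨j, hj⟩ := Nat.dvd_of_mod_eq_zero h0
        rw [hj] at hab
        have : 2 * (8 * j ^ 4) = 8 * b ^ 4 + 1 := by rw [← hab]; ring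
        omega
      · exact h0
    obtain ⟨e, rfl⟩ : ∃ e, a = 2 * e + 1 := ⟨a / 2, by omega⟩
    -- a^2 + 1 = 2 c, a^2 - 1 = 4 d
    set d := e * (e + 1) with hd
    have hA : (2 * e + 1) ^ 2 = 4 * d + 1 := by rw [hd]; ring
    have h5 : (2 * d + 1) * d = b ^ 4 := by
      have : (2 * e + 1) ^ 4 = (4 * d + 1) ^ 2 := by rw [← hA]; ring
      rw [this] at hab
      nlinarith
    have hcop2 : Nat.Coprime d (2 * d + 1) := by
      simp
    obtain ⟨f, hf⟩ : ∃ g, d = g ^ 4 :=
      exists_eq_pow_of_mul_eq_pow (by rw [Nat.isUnit_iff]; exact hcop2) (by rw [mul_comm]; exact h5)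
    have hf1 : 1 ≤ f := by
      rcases Nat.eq_zero_or_pos f with h0 | h0
      · subst h0; simp at hf; rw [hf] at h5; simp at h5; omega
      · exact h0
    -- (2e+1)^2 = (2 f^2)^2 + 1 is impossible
    have hfin : (2 * e + 1) ^ 2 = (2 * f ^ 2) ^ 2 + 1 := by rw [hA, hf]; ring
    have hlt : 2 * f ^ 2 < 2 * e + 1 := by
      by_contra hcon
      push Not at hcon
      have := Nat.pow_le_pow_left hcon 2
      omega
    have : (2 * f ^ 2 + 1) ^ 2 ≤ (2 * e + 1) ^ 2 := Nat.pow_le_pow_left hlt 2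
    nlinarith [Nat.one_le_pow 2 f hf1]
  · have hc : Nat.Coprime 8 m := by
      have : Nat.Coprime 2 m := by
        rw [Nat.coprime_two_left]; exact hmo
      exact Nat.Coprime.pow_left 3 this
    have h8 : 8 ∣ m + 1 := hc.dvd_of_dvd_mul_left ⟨_, h2⟩
    obtain ⟨k, hk⟩ := h8
    have h3 : m * k = w ^ 4 := by
      rw [hk] at h2
      have : 8 * (m * k) = 8 * w ^ 4 := by rw [← h2]; ring
      omega
    have hcop : Nat.Coprime m k := by
      have : Nat.Coprime m (8 * k) := by rw [← hk]; simp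
      exact Nat.Coprime.coprime_mul_left_right this
    obtain ⟨a, ha⟩ : ∃ d, m = d ^ 4 :=
      exists_eq_pow_of_mul_eq_pow (by rw [Nat.isUnit_iff]; exact hcop) h3
    have haodd : a % 2 = 1 := by
      rcases Nat.mod_two_eq_zero_or_one a with h0 | h0
      · exfalso
        obtain ⟨j, hj⟩ := Nat.dvd_of_mod_eq_zero h0
        rw [ha, hj] at hmo
        rcases hmo with ⟨r, hr⟩
        have : 2 * (8 * j ^ 4) = 2 * r + 1 := by rw [← hr]; ring
        omega
      · exact h0
    obtain ⟨e, rfl⟩ : ∃ e, a = 2 * e + 1 := ⟨a / 2, by omega⟩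
    have : m = 4 * (4 * e ^ 4 + 8 * e ^ 3 + 6 * e ^ 2 + 2 * e) + 1 := by rw [ha]; ring
    omega

/-- `x^2 - 2 y^4 = 1` forces `y = 0`. -/
lemma pell_quartic {x y : ℤ} (h : x ^ 2 - 2 * y ^ 4 = 1) : y = 0 := by
  have : x.natAbs ^ 2 = 2 * y.natAbs ^ 4 + 1 := by
    zify
    rw [sq_abs, Even.pow_abs (by decide : Even 4)]
    linarith
  exact Int.natAbs_eq_zero.mp (pell_quartic_nat this)

/-- The equation `u^8 + v^8 = ±1` for a conjugate pair of quadratic integers. -/
lemma eight_case {t q : ℤ} (hq : q ≠ 0)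
    (h : (t ^ 2 - 2 * q ^ 2) ^ 2 - 2 * q ^ 4 = 1 ∨ (t ^ 2 - 2 * q ^ 2) ^ 2 - 2 * q ^ 4 = -1) :
    q = 1 ∨ q = -1 := by
  rcases h with h | h
  · exact absurd (pell_quartic h) hq
  · -- `t^4 = 1 + 2 w^2` with `w = t^2 - q^2`
    have h1 : t ^ 4 - 2 * (t ^ 2 - q ^ 2) ^ 2 = 1 := by linear_combination -h
    have ht : t ≠ 0 := by
      rintro rfl
      have : (0:ℤ) ≤ (0 ^ 2 - q ^ 2) ^ 2 := sq_nonneg _
      nlinarith
    have hw : t ^ 2 - q ^ 2 = 0 := by
      by_contra hne
      exact not_fermat_42 ht hne (c := (t ^ 2 - q ^ 2) ^ 2 + 1) (by linear_combination h1)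
    have ht4 : t ^ 4 = 1 := by rw [hw] at h1; linarith
    have hq4 : q ^ 4 = 1 := by
      have : q ^ 2 = t ^ 2 := by linarith
      calc q ^ 4 = (q ^ 2) ^ 2 := by ring
        _ = t ^ 4 := by rw [this]; ring
        _ = 1 := ht4
    have hq2 : q ^ 2 = 1 := by nlinarith [sq_nonneg q, sq_nonneg (q ^ 2)]
    exact sq_eq_one_iff.mp hq2


/-! ### Quadratic fields -/


/-- The two embeddings of a quadratic field. -/
lemma two_embeddings (K : Type) [Field K] [NumberField K] (hK : Module.finrank ℚ K = 2) :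
    ∃ φ ψ : K →ₐ[ℚ] ℂ, (∀ x : K, ((Algebra.norm ℚ x : ℚ) : ℂ) = φ x * ψ x) ∧
      (∀ x : K, ((Algebra.trace ℚ K x : ℚ) : ℂ) = φ x + ψ x) ∧
      (∀ χ : K →ₐ[ℚ] ℂ, χ = φ ∨ χ = ψ) ∧
      ((∀ x, ψ x = (starRingEnd ℂ) (φ x)) ∨
        ((∀ x, (starRingEnd ℂ) (φ x) = φ x) ∧ (∀ x, (starRingEnd ℂ) (ψ x) = ψ x))) := by
  classical
  have hcard : Fintype.card (K →ₐ[ℚ] ℂ) = 2 := by rw [AlgHom.card, hK]
  rw [← Finset.card_univ, Finset.card_eq_two] at hcard
  obtain ⟨φ, ψ, hne, hu⟩ := hcard
  have hmem : ∀ χ : K →ₐ[ℚ] ℂ, χ = φ ∨ χ = ψ := by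
    intro χ
    have : χ ∈ (Finset.univ : Finset (K →ₐ[ℚ] ℂ)) := Finset.mem_univ _
    rw [hu] at this
    simpa using this
  refine ⟨φ, ψ, ?_, ?_, hmem, ?_⟩
  · intro x
    have := Algebra.norm_eq_prod_embeddings ℚ ℂ x
    rw [hu, Finset.prod_pair hne] at this
    simpa using this
  · intro x
    have := trace_eq_sum_embeddings (K := ℚ) (E := ℂ) (x := x)
    rw [hu, Finset.sum_pair hne] at this
    simpa using this
  · let cj : ℂ →ₐ[ℚ] ℂ := (Complex.conjAe.toAlgHom.restrictScalars ℚ)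
    have hcj : ∀ z, cj z = (starRingEnd ℂ) z := fun z => rfl
    rcases hmem (cj.comp φ) with h1 | h1
    · right
      have e1 : ∀ x, (starRingEnd ℂ) (φ x) = φ x := fun x => by
        have := DFunLike.congr_fun h1 x
        simpa [hcj] using this
      refine ⟨e1, ?_⟩
      rcases hmem (cj.comp ψ) with h2 | h2
      · exfalso
        apply hne
        ext x
        have := DFunLike.congr_fun h2 x
        have h3 : (starRingEnd ℂ) (ψ x) = φ x := by simpa [hcj] using this
        rw [← e1 x, ← h3]; simp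
      · intro x
        have := DFunLike.congr_fun h2 x
        simpa [hcj] using this
    · left
      intro x
      have := DFunLike.congr_fun h1 x
      rw [← this]; rfl

lemma int_unit {K : Type} [Field K] [NumberField K] (m : ℤ) (h : IsUnit ((m : ℤ) : 𝓞 K)) :
    m = 1 ∨ m = -1 := by
  have h1 := h.map (Algebra.norm ℤ)
  have h2 : Algebra.norm ℤ ((m : ℤ) : 𝓞 K) = m ^ (Module.finrank ℤ (𝓞 K)) := by
    have := Algebra.norm_algebraMap (R := ℤ) (S := 𝓞 K) m
    simpa using this
  rw [h2] at h1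
  have h3 : Module.finrank ℤ (𝓞 K) ≠ 0 := by
    rw [RingOfIntegers.rank]; exact (Module.finrank_pos).ne'
  have := (isUnit_pow_iff h3).mp h1
  exact Int.isUnit_iff.mp this

end Pool.Agent.Lib.QuadFermat
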