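import Pool.Agent.Lib.QuadFermatBasic

set_option autoImplicit false

namespace Pool.Agent.Lib.QuadFermat

open NumberField

/-- `q^2 ≥ p^2 + 1`, `p ≥ 1` implies `q^n > p^n + 1` for `n ≥ 3`. -/
lemma pow_gap {p q : ℝ} (hp : 1 ≤ p) (hq : 0 ≤ q) (h : p ^ 2 + 1 ≤ q ^ 2) {n : ℕ} (hn : 3 ≤ n) :
    p ^ n + 1 < q ^ n := by
  have hpq : p < q := by
    by_contra hcon
    push Not at hcon
    nlinarith
  obtain ⟨m, rfl⟩ : ∃ m, n = m + 2 := ⟨n - 2, by omega⟩
  have hm : m ≠ 0 := by omega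
  have h1 : p ^ m < q ^ m := pow_lt_pow_left₀ hpq (by linarith) hm
  have h2 : (1:ℝ) ≤ p ^ m := one_le_pow₀ hp
  calc p ^ (m + 2) + 1 = p ^ m * p ^ 2 + 1 := by ring
    _ ≤ p ^ m * p ^ 2 + p ^ m := by linarith
    _ = p ^ m * (p ^ 2 + 1) := by ring
    _ < q ^ m * (p ^ 2 + 1) := by
        apply mul_lt_mul_of_pos_right h1; positivity
    _ ≤ q ^ m * q ^ 2 := by
        apply mul_le_mul_of_nonneg_left h; positivity
    _ = q ^ (m + 2) := by ring

section
variable {K : Type} [Field K] [NumberField K]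

/-- Data of the two embeddings. -/
structure Emb (φ ψ : K →ₐ[ℚ] ℂ) : Prop where
  norm' : ∀ x : K, ((Algebra.norm ℚ x : ℚ) : ℂ) = φ x * ψ x
  trace' : ∀ x : K, ((Algebra.trace ℚ K x : ℚ) : ℂ) = φ x + ψ x
  all' : ∀ χ : K →ₐ[ℚ] ℂ, χ = φ ∨ χ = ψ

lemma Emb.normZ {φ ψ : K →ₐ[ℚ] ℂ} (e : Emb φ ψ) (a : 𝓞 K) :
    ((Algebra.norm ℤ a : ℤ) : ℂ) = φ (a : K) * ψ (a : K) := by
  rw [← e.norm', ← Algebra.coe_norm_int]; push_cast; rfl

lemma Emb.traceZ {φ ψ : K →ₐ[ℚ] ℂ} (e : Emb φ ψ) (a : 𝓞 K) :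
    ((Algebra.trace ℤ (𝓞 K) a : ℤ) : ℂ) = φ (a : K) + ψ (a : K) := by
  rw [← e.trace', ← Algebra.coe_trace_int]; push_cast; rfl

lemma norm_ne_zero' {a : 𝓞 K} (ha : a ≠ 0) : Algebra.norm ℤ a ≠ 0 :=
  Algebra.norm_ne_zero_iff.mpr ha

/-- If the trace of `a^n` is `±1` with `n ≥ 5` then `a` has norm `±1`. -/
lemma norm_of_trace {φ ψ : K →ₐ[ℚ] ℂ} (e : Emb φ ψ) {a : 𝓞 K} (ha : a ≠ 0) {n : ℕ} (hn : 5 ≤ n)
    (h : Algebra.trace ℤ (𝓞 K) (a ^ n) = 1 ∨ Algebra.trace ℤ (𝓞 K) (a ^ n) = -1) :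
    Algebra.norm ℤ a = 1 ∨ Algebra.norm ℤ a = -1 := by
  have hpow : ∀ k : ℕ, k ≠ 0 → ((Algebra.norm ℤ a) ^ k = 1 ∨ (Algebra.norm ℤ a) ^ k = -1) →
      Algebra.norm ℤ a = 1 ∨ Algebra.norm ℤ a = -1 := by
    intro k hk h
    have : IsUnit ((Algebra.norm ℤ a) ^ k) := Int.isUnit_iff.mpr h
    exact Int.isUnit_iff.mp ((isUnit_pow_iff hk).mp this)
  rcases Nat.eq_two_pow_or_exists_odd_prime_and_dvd n with ⟨s, hs⟩ | ⟨l, hl, ⟨k, hk⟩, hodd⟩
  · -- n = 2 ^ s with s ≥ 3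
    have hs3 : 3 ≤ s := by
      by_contra hcon
      have : s ≤ 2 := by omega
      have : 2 ^ s ≤ 2 ^ 2 := Nat.pow_le_pow_right (by norm_num) this
      omega
    obtain ⟨r, rfl⟩ : ∃ r, s = r + 3 := ⟨s - 3, by omega⟩
    set k := 2 ^ r with hk
    have hn8 : n = k * 8 := by rw [hs, pow_add, hk]; norm_num
    set t := Algebra.trace ℤ (𝓞 K) (a ^ (k * 2)) with ht
    set q := Algebra.norm ℤ (a ^ k) with hq
    have htr : ((Algebra.trace ℤ (𝓞 K) (a ^ n) : ℤ) : ℂ) = ((t ^ 2 - 2 * q ^ 2) ^ 2 - 2 * q ^ 4 : ℤ) := by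
      push_cast
      rw [ht, hq, e.traceZ, e.traceZ, e.normZ, hn8]
      push_cast
      simp only [map_pow]
      ring
    have htr' : Algebra.trace ℤ (𝓞 K) (a ^ n) = (t ^ 2 - 2 * q ^ 2) ^ 2 - 2 * q ^ 4 := by
      exact_mod_cast htr
    rw [htr'] at h
    have hq0 : q ≠ 0 := norm_ne_zero' (pow_ne_zero _ ha)
    have := eight_case hq0 h
    rw [hq, map_pow] at this
    exact hpow k (by positivity) this
  · -- an odd prime divides n
    have hk0 : k ≠ 0 := by rintro rfl; simp at hk; omega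
    set u : 𝓞 K := a ^ k with hu
    set P := Algebra.trace ℤ (𝓞 K) u with hP
    set v : 𝓞 K := (P : 𝓞 K) - u with hv
    have hφv : φ (v : K) = ψ (u : K) := by
      have : φ (v : K) = (P : ℂ) - φ (u : K) := by
        rw [hv]; push_cast; simp
      rw [this, hP, e.traceZ]; ring
    have hinj : ∀ x y : 𝓞 K, φ (x : K) = φ (y : K) → x = y := fun x y hxy =>
      RingOfIntegers.ext (φ.toRingHom.injective hxy)
    have huv : u * v = ((Algebra.norm ℤ u : ℤ) : 𝓞 K) := by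
      apply hinj
      push_cast
      rw [map_mul, hφv]
      have := e.normZ u
      rw [← this]; simp
    have hsum : u ^ l + v ^ l = ((Algebra.trace ℤ (𝓞 K) (a ^ n) : ℤ) : 𝓞 K) := by
      apply hinj
      have h1 := e.traceZ (a ^ n)
      have h2 : φ (((Algebra.trace ℤ (𝓞 K) (a ^ n) : ℤ) : 𝓞 K) : K) = ((Algebra.trace ℤ (𝓞 K) (a ^ n) : ℤ) : ℂ) := by
        push_cast; simp
      rw [h2, h1]
      push_cast
      rw [map_add, map_pow, map_pow, hφv, hu, hk]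
      push_cast
      simp only [map_pow]
      ring
    have hne : u * v ≠ 0 := by
      rw [huv]
      have : Algebra.norm ℤ u ≠ 0 := norm_ne_zero' (pow_ne_zero _ ha)
      exact_mod_cast this
    have hunit : IsUnit (u * v) := by
      refine prime_case (fun m hm => int_unit m hm) hl hodd u v P (by rw [hv]; ring) hne ?_
      rw [hsum]
      rcases h with h | h
      · left; rw [h]; simp
      · right; rw [h]; simp
    rw [huv] at hunit
    have := int_unit _ hunit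
    rw [hu, map_pow] at this
    exact hpow k hk0 this

/-- Roots of unity from absolute values. -/
lemma root_of_unity {φ ψ : K →ₐ[ℚ] ℂ} (e : Emb φ ψ) (a : 𝓞 K) (h1 : ‖φ (a : K)‖ = 1)
    (h2 : ‖ψ (a : K)‖ = 1) : ∃ m : ℕ, 0 < m ∧ (a : K) ^ m = 1 := by
  obtain ⟨m, hm, h⟩ := NumberField.Embeddings.pow_eq_one_of_norm_eq_one K ℂ (x := (a : K))
    a.isIntegral_coe (by
      intro χ
      rcases e.all' χ.toRatAlgHom with h | h
      · have : χ (a : K) = φ (a : K) := by rw [← h]; rfl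
        rw [this]; exact h1
      · have : χ (a : K) = ψ (a : K) := by rw [← h]; rfl
        rw [this]; exact h2)
  exact ⟨m, hm, h⟩

/-- Imaginary case, norm is the square of the absolute value. -/
lemma imag_norm {φ ψ : K →ₐ[ℚ] ℂ} (e : Emb φ ψ) (hc : ∀ x, ψ x = (starRingEnd ℂ) (φ x))
    (a : 𝓞 K) : ((Algebra.norm ℤ a : ℤ) : ℝ) = ‖φ (a : K)‖ ^ 2 := by
  have h := e.normZ a
  rw [hc, Complex.mul_conj, Complex.normSq_eq_norm_sq] at h
  exact_mod_cast h

lemma imag_norm_pos {φ ψ : K →ₐ[ℚ] ℂ} (e : Emb φ ψ) (hc : ∀ x, ψ x = (starRingEnd ℂ) (φ x))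
    {a : 𝓞 K} (ha : a ≠ 0) : 1 ≤ Algebra.norm ℤ a := by
  have h := imag_norm e hc a
  have h0 := norm_ne_zero' ha
  have h1 : (0 : ℝ) ≤ ((Algebra.norm ℤ a : ℤ) : ℝ) := by rw [h]; positivity
  have h2 : 0 ≤ Algebra.norm ℤ a := by exact_mod_cast h1
  omega

/-- In the imaginary case `‖b‖^n ≤ 1 + ‖a‖^n` forces `N b ≤ N a`. -/
lemma imag_le {φ ψ : K →ₐ[ℚ] ℂ} (e : Emb φ ψ) (hc : ∀ x, ψ x = (starRingEnd ℂ) (φ x))
    {a b : 𝓞 K} (ha : a ≠ 0) {n : ℕ} (hn : 3 ≤ n)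
    (h : ‖φ (b : K)‖ ^ n ≤ ‖φ (a : K)‖ ^ n + 1) : Algebra.norm ℤ b ≤ Algebra.norm ℤ a := by
  by_contra hcon
  push Not at hcon
  have h1 : Algebra.norm ℤ a + 1 ≤ Algebra.norm ℤ b := hcon
  have h2 : ((Algebra.norm ℤ a : ℤ) : ℝ) + 1 ≤ ((Algebra.norm ℤ b : ℤ) : ℝ) := by exact_mod_cast h1
  rw [imag_norm e hc, imag_norm e hc] at h2
  have h3 : (1 : ℝ) ≤ ‖φ (a : K)‖ ^ 2 := by
    rw [← imag_norm e hc]; exact_mod_cast imag_norm_pos e hc ha
  have h4 : (1 : ℝ) ≤ ‖φ (a : K)‖ := by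
    by_contra hcon
    push Not at hcon
    nlinarith [norm_nonneg (φ (a : K))]
  have := pow_gap h4 (norm_nonneg _) h2 hn
  linarith

/-- A complex number `t` with `|t + ε| = |t|`, `ε = ±1`, has real part `-ε/2`. -/
lemma re_of_norm_eq {t : ℂ} (h : ‖1 - t‖ = ‖t‖) : t + (starRingEnd ℂ) t = 1 := by
  have h1 : Complex.normSq (1 - t) = Complex.normSq t := by
    rw [Complex.normSq_eq_norm_sq, Complex.normSq_eq_norm_sq, h]
  rw [Complex.normSq_apply, Complex.normSq_apply] at h1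
  simp at h1
  have h2 : t.re = 1 / 2 := by nlinarith
  apply Complex.ext
  · simp [h2]; norm_num
  · simp

/-- Imaginary case of the theorem, equation `a ^ n + b ^ n = 1`. -/
lemma imagI {φ ψ : K →ₐ[ℚ] ℂ} (e : Emb φ ψ) (hc : ∀ x, ψ x = (starRingEnd ℂ) (φ x))
    {a b : 𝓞 K} (ha : a ≠ 0) (hb : b ≠ 0) {n : ℕ} (hn : 5 ≤ n) (h : a ^ n + b ^ n = 1) :
    ∃ m : ℕ, 0 < m ∧ (a : K) ^ m = 1 ∧ (b : K) ^ m = 1 := by
  have hφ : φ (a : K) ^ n + φ (b : K) ^ n = 1 := by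
    have := congrArg (fun x : 𝓞 K => φ (x : K)) h
    simpa using this
  have hA : ‖φ (a : K)‖ ^ n ≤ ‖φ (b : K)‖ ^ n + 1 := by
    have : φ (a : K) ^ n = 1 - φ (b : K) ^ n := by rw [← hφ]; ring
    rw [← norm_pow, this, ← norm_pow]
    calc ‖1 - φ (b : K) ^ n‖ ≤ ‖(1 : ℂ)‖ + ‖φ (b : K) ^ n‖ := norm_sub_le _ _
      _ = _ := by simp [add_comm]
  have hB : ‖φ (b : K)‖ ^ n ≤ ‖φ (a : K)‖ ^ n + 1 := by
    have : φ (b : K) ^ n = 1 - φ (a : K) ^ n := by rw [← hφ]; ring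
    rw [← norm_pow, this, ← norm_pow]
    calc ‖1 - φ (a : K) ^ n‖ ≤ ‖(1 : ℂ)‖ + ‖φ (a : K) ^ n‖ := norm_sub_le _ _
      _ = _ := by simp [add_comm]
  have hAB : Algebra.norm ℤ a = Algebra.norm ℤ b :=
    le_antisymm (imag_le e hc hb (by omega) hA) (imag_le e hc ha (by omega) hB)
  have hnab : ‖φ (a : K)‖ = ‖φ (b : K)‖ := by
    have h1 : ‖φ (a : K)‖ ^ 2 = ‖φ (b : K)‖ ^ 2 := by
      rw [← imag_norm e hc, ← imag_norm e hc, hAB]
    exact (pow_left_inj₀ (norm_nonneg _) (norm_nonneg _) two_ne_zero).mp h1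
  have htr : Algebra.trace ℤ (𝓞 K) (a ^ n) = 1 := by
    have h1 := e.traceZ (a ^ n)
    have h2 : φ (a : K) ^ n + (starRingEnd ℂ) (φ (a : K) ^ n) = 1 := by
      apply re_of_norm_eq
      have : 1 - φ (a : K) ^ n = φ (b : K) ^ n := by rw [← hφ]; ring
      rw [this, norm_pow, norm_pow, hnab]
    rw [hc] at h1
    push_cast at h1
    rw [map_pow φ, h2] at h1
    exact_mod_cast h1
  have hN := norm_of_trace e ha hn (Or.inl htr)
  have hN1 : Algebra.norm ℤ a = 1 := by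
    rcases hN with h | h
    · exact h
    · have := imag_norm_pos e hc ha; omega
  have fin : ∀ c : 𝓞 K, Algebra.norm ℤ c = 1 → ∃ m : ℕ, 0 < m ∧ (c : K) ^ m = 1 := by
    intro c hcN
    have h1 : ‖φ (c : K)‖ = 1 := by
      have h2 := imag_norm e hc c
      rw [hcN] at h2
      have h3 : ‖φ (c : K)‖ ^ 2 = 1 := by rw [← h2]; simp
      exact (pow_eq_one_iff_of_nonneg (norm_nonneg _) two_ne_zero).mp h3
    refine root_of_unity e c h1 ?_
    rw [hc, RCLike.norm_conj, h1]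
  obtain ⟨m1, hm1, h1⟩ := fin a hN1
  obtain ⟨m2, hm2, h2⟩ := fin b (by rw [← hAB]; exact hN1)
  exact ⟨m1 * m2, Nat.mul_pos hm1 hm2, by rw [pow_mul, h1, one_pow],
    by rw [mul_comm, pow_mul, h2, one_pow]⟩

/-- Imaginary case of the theorem, equation `1 + b ^ n = c ^ n`. -/
lemma imagII {φ ψ : K →ₐ[ℚ] ℂ} (e : Emb φ ψ) (hc : ∀ x, ψ x = (starRingEnd ℂ) (φ x))
    {b c : 𝓞 K} (hb : b ≠ 0) (hc0 : c ≠ 0) {n : ℕ} (hn : 5 ≤ n) (h : 1 + b ^ n = c ^ n) :
    ∃ m : ℕ, 0 < m ∧ (b : K) ^ m = 1 ∧ (c : K) ^ m = 1 := by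
  have hφ : 1 + φ (b : K) ^ n = φ (c : K) ^ n := by
    have := congrArg (fun x : 𝓞 K => φ (x : K)) h
    simpa using this
  have hA : ‖φ (c : K)‖ ^ n ≤ ‖φ (b : K)‖ ^ n + 1 := by
    rw [← norm_pow, ← hφ, ← norm_pow]
    calc ‖1 + φ (b : K) ^ n‖ ≤ ‖(1 : ℂ)‖ + ‖φ (b : K) ^ n‖ := norm_add_le _ _
      _ = _ := by simp [add_comm]
  have hB : ‖φ (b : K)‖ ^ n ≤ ‖φ (c : K)‖ ^ n + 1 := by
    have : φ (b : K) ^ n = φ (c : K) ^ n - 1 := by rw [← hφ]; ring
    rw [← norm_pow, this, ← norm_pow]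
    calc ‖φ (c : K) ^ n - 1‖ ≤ ‖φ (c : K) ^ n‖ + ‖(1 : ℂ)‖ := norm_sub_le _ _
      _ = _ := by simp
  have hAB : Algebra.norm ℤ b = Algebra.norm ℤ c :=
    le_antisymm (imag_le e hc hc0 (by omega) hB) (imag_le e hc hb (by omega) hA)
  have hnab : ‖φ (b : K)‖ = ‖φ (c : K)‖ := by
    have h1 : ‖φ (b : K)‖ ^ 2 = ‖φ (c : K)‖ ^ 2 := by
      rw [← imag_norm e hc, ← imag_norm e hc, hAB]
    exact (pow_left_inj₀ (norm_nonneg _) (norm_nonneg _) two_ne_zero).mp h1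
  have htr : Algebra.trace ℤ (𝓞 K) (b ^ n) = -1 := by
    have h1 := e.traceZ (b ^ n)
    have h2 : (-(φ (b : K) ^ n)) + (starRingEnd ℂ) (-(φ (b : K) ^ n)) = 1 := by
      apply re_of_norm_eq
      have : 1 - -(φ (b : K) ^ n) = φ (c : K) ^ n := by rw [← hφ]; ring
      rw [this, norm_neg, norm_pow, norm_pow, hnab]
    rw [hc] at h1
    push_cast at h1
    have h3 : φ (b : K) ^ n + (starRingEnd ℂ) (φ (b : K) ^ n) = -1 := by
      rw [map_neg] at h2
      linear_combination -h2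
    rw [map_pow φ, h3] at h1
    exact_mod_cast h1
  have hN := norm_of_trace e hb hn (Or.inr htr)
  have hN1 : Algebra.norm ℤ b = 1 := by
    rcases hN with h | h
    · exact h
    · have := imag_norm_pos e hc hb; omega
  have fin : ∀ c : 𝓞 K, Algebra.norm ℤ c = 1 → ∃ m : ℕ, 0 < m ∧ (c : K) ^ m = 1 := by
    intro c hcN
    have h1 : ‖φ (c : K)‖ = 1 := by
      have h2 := imag_norm e hc c
      rw [hcN] at h2
      have h3 : ‖φ (c : K)‖ ^ 2 = 1 := by rw [← h2]; simp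
      exact (pow_eq_one_iff_of_nonneg (norm_nonneg _) two_ne_zero).mp h3
    refine root_of_unity e c h1 ?_
    rw [hc, RCLike.norm_conj, h1]
  obtain ⟨m1, hm1, h1⟩ := fin b hN1
  obtain ⟨m2, hm2, h2⟩ := fin c (by rw [← hAB]; exact hN1)
  exact ⟨m1 * m2, Nat.mul_pos hm1 hm2, by rw [pow_mul, h1, one_pow],
    by rw [mul_comm, pow_mul, h2, one_pow]⟩

/-! ### Real case -/

/-- For `n` odd and real `u, v` with `u^n + v^n = 1` we have `0 < u + v < 2`. -/
lemma odd_sum_bounds {u v : ℝ} {n : ℕ} (hn : Odd n) (h : u ^ n + v ^ n = 1) :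
    0 < u + v ∧ u + v < 2 := by
  have hn0 : n ≠ 0 := by rintro rfl; simp at hn
  constructor
  · by_contra hcon
    push Not at hcon
    have h1 : u ≤ -v := by linarith
    have h2 : u ^ n ≤ (-v) ^ n := hn.strictMono_pow.monotone h1
    rw [hn.neg_pow] at h2
    linarith
  · -- symmetric auxiliary statement
    have key : ∀ u v : ℝ, 1 ≤ u → 2 ≤ u + v → u ^ n + v ^ n = 1 → False := by
      intro u v hu huv h
      have hu1 : 1 ≤ u ^ n := one_le_pow₀ hu
      rcases le_or_gt 0 v with hv | hv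
      · have h1 : 0 ≤ v ^ n := pow_nonneg hv n
        have h2 : u ^ n = 1 := by linarith
        have h3 : v ^ n = 0 := by linarith
        have h4 : v = 0 := by
          exact pow_eq_zero_iff hn0 |>.mp h3
        have h5 : 2 ≤ u := by linarith
        have h6 : (2:ℝ) ^ n ≤ u ^ n := pow_le_pow_left₀ (by norm_num) h5 n
        have h7 : (2:ℝ) ^ 1 ≤ 2 ^ n := pow_le_pow_right₀ (by norm_num) (by omega)
        linarith
      · have h1 : 0 ≤ -v := by linarith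
        have h2 : (2:ℝ) ^ n + (-v) ^ n ≤ (2 + -v) ^ n := pow_add_pow_le (by norm_num) h1 hn0
        have h3 : (2 + -v) ^ n ≤ u ^ n := pow_le_pow_left₀ (by linarith) (by linarith) n
        rw [hn.neg_pow] at h2
        have h7 : (2:ℝ) ^ 1 ≤ 2 ^ n := pow_le_pow_right₀ (by norm_num) (by omega)
        linarith
    by_contra hcon
    push Not at hcon
    rcases le_or_gt 1 u with hu | hu
    · exact key u v hu hcon h
    · exact key v u (by linarith) (by linarith) (by linarith)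

/-- `u + v = 1` and `u^n + v^n = 1`, `n ≥ 2` odd, forces `u v = 0`. -/
lemma odd_sum_one {u v : ℝ} {n : ℕ} (hn : Odd n) (hn2 : 2 ≤ n) (h1 : u + v = 1)
    (h : u ^ n + v ^ n = 1) : u = 0 ∨ v = 0 := by
  have key : ∀ u v : ℝ, v < 0 → u + v = 1 → u ^ n + v ^ n = 1 → False := by
    intro u v hv h1 h
    have h2 : 1 + -v = u := by linarith
    obtain ⟨m, rfl⟩ : ∃ m, n = m + 1 := ⟨n - 1, by omega⟩
    have hm : m ≠ 0 := by omega
    have hw : 0 < -v := by linarith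
    have h3 : (1:ℝ) ^ m + (-v) ^ m ≤ (1 + -v) ^ m := pow_add_pow_le (by norm_num) hw.le hm
    rw [h2, one_pow] at h3
    have h5 : 0 < (-v) ^ m := pow_pos hw m
    have h4 : (1 + (-v) ^ m) * u ≤ u ^ m * u := by
      apply mul_le_mul_of_nonneg_right h3; linarith
    have h6 : (1 + (-v) ^ m) * u = 1 + (-v) + (-v) ^ m + (-v) ^ (m + 1) := by
      rw [← h2]; ring
    have h7 : (-v) ^ (m + 1) = - v ^ (m + 1) := hn.neg_pow v
    have h8 : u ^ m * u = u ^ (m + 1) := by ring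
    rw [h6, h7, h8] at h4
    linarith
  rcases lt_trichotomy v 0 with hv | hv | hv
  · exact (key u v hv h1 h).elim
  · right; exact hv
  · rcases lt_trichotomy u 0 with hu | hu | hu
    · exact (key v u hu (by linarith) (by linarith)).elim
    · left; exact hu
    · exfalso
      have hu1 : u < 1 := by linarith
      have hv1 : v < 1 := by linarith
      have a1 : u ^ n < u := by
        calc u ^ n < u ^ 1 := pow_lt_pow_right_of_lt_one₀ hu hu1 (by omega)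
          _ = u := pow_one u
      have a2 : v ^ n < v := by
        calc v ^ n < v ^ 1 := pow_lt_pow_right_of_lt_one₀ hv hv1 (by omega)
          _ = v := pow_one v
      linarith

/-- Real-valued form of an embedding all of whose values are real. -/
lemma exists_real {φ : K →ₐ[ℚ] ℂ} (hc : ∀ x, (starRingEnd ℂ) (φ x) = φ x) :
    ∃ f : K →+* ℝ, ∀ x, (f x : ℂ) = φ x := by
  have hφ : ComplexEmbedding.IsReal (φ : K →+* ℂ) := by
    rw [ComplexEmbedding.isReal_iff]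
    ext x
    exact hc x
  exact ⟨hφ.embedding, fun x => hφ.coe_embedding_apply x⟩

/-- Real case: a nonzero integer cannot have both real conjugates in `(-1,1)`. -/
lemma real_small {φ ψ : K →ₐ[ℚ] ℂ} (e : Emb φ ψ) {f g : K →+* ℝ} (hf : ∀ x, (f x : ℂ) = φ x)
    (hg : ∀ x, (g x : ℂ) = ψ x) {a : 𝓞 K} (ha : a ≠ 0) (h1 : |f (a : K)| < 1)
    (h2 : |g (a : K)| < 1) : False := by
  have h := e.normZ a
  rw [← hf, ← hg] at h
  have h3 : ((Algebra.norm ℤ a : ℤ) : ℝ) = f (a : K) * g (a : K) := by exact_mod_cast h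
  have h4 : |((Algebra.norm ℤ a : ℤ) : ℝ)| < 1 := by
    rw [h3, abs_mul]
    calc |f (a : K)| * |g (a : K)| ≤ |f (a : K)| * 1 := by
          apply mul_le_mul_of_nonneg_left h2.le (abs_nonneg _)
      _ < 1 := by linarith
  have h5 : |Algebra.norm ℤ a| < 1 := by exact_mod_cast h4
  have := norm_ne_zero' ha
  exact this (Int.abs_lt_one_iff.mp h5)

lemma real_even_I {u v : ℝ} {n : ℕ} (hn : Even n) (hv : v ≠ 0)
    (h : u ^ n + v ^ n = 1) : |u| < 1 := by
  have h1 : 0 < v ^ n := hn.pow_pos hv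
  have h2 : |u| ^ n < 1 := by
    rw [hn.pow_abs]; linarith
  by_contra hcon
  push Not at hcon
  have := one_le_pow₀ (n := n) hcon
  linarith

lemma real_even_II {b c : ℝ} {n : ℕ} (hn : Even n) (hn4 : 4 ≤ n) (hb : b ≠ 0)
    (h : 1 + b ^ n = c ^ n) : |c ^ 2 - b ^ 2| < 1 := by
  obtain ⟨m, hm⟩ := hn
  have hm2 : 2 ≤ m := by omega
  have hnm : n = 2 * m := by omega
  rw [hnm, pow_mul, pow_mul] at h
  have hB : 0 < b ^ 2 := by positivity
  have hC : 0 ≤ c ^ 2 := by positivity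
  set B := b ^ 2
  set C := c ^ 2
  have h1 : B < C := by
    by_contra hcon
    push Not at hcon
    have := pow_le_pow_left₀ hC hcon m
    linarith
  have h2 : C < 1 + B := by
    by_contra hcon
    push Not at hcon
    have h3 := pow_le_pow_left₀ (by linarith) hcon m
    -- (1 + B)^m > 1 + B^m
    obtain ⟨k, rfl⟩ : ∃ k, m = k + 1 := ⟨m - 1, by omega⟩
    have hk : k ≠ 0 := by omega
    have h4 : (1:ℝ) ^ k + B ^ k ≤ (1 + B) ^ k := pow_add_pow_le (by norm_num) hB.le hk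
    rw [one_pow] at h4
    have h5 : 0 < B ^ k := pow_pos hB k
    have h6 : (1 + B ^ k) * (1 + B) ≤ (1 + B) ^ k * (1 + B) := by
      apply mul_le_mul_of_nonneg_right h4; linarith
    have h7 : (1 + B ^ k) * (1 + B) = 1 + B + B ^ k + B ^ (k + 1) := by ring
    have h8 : (1 + B) ^ k * (1 + B) = (1 + B) ^ (k + 1) := by ring
    rw [h7, h8] at h6
    linarith
  rw [abs_lt]
  constructor <;> linarith

/-- Real case, `n` even, first equation. -/
lemma realI_even {φ ψ : K →ₐ[ℚ] ℂ} (e : Emb φ ψ) {f g : K →+* ℝ} (hf : ∀ x, (f x : ℂ) = φ x)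
    (hg : ∀ x, (g x : ℂ) = ψ x) {a b : 𝓞 K} (ha : a ≠ 0) (hb : b ≠ 0) {n : ℕ} (hn : 5 ≤ n)
    (he : Even n) (h : a ^ n + b ^ n = 1) : False := by
  have hb' : (b : K) ≠ 0 := by
    intro hb'; exact hb (RingOfIntegers.ext hb')
  have hF : f (a : K) ^ n + f (b : K) ^ n = 1 := by
    have := congrArg (fun x : 𝓞 K => f (x : K)) h
    simpa using this
  have hG : g (a : K) ^ n + g (b : K) ^ n = 1 := by
    have := congrArg (fun x : 𝓞 K => g (x : K)) h
    simpa using this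
  have hfb : f (b : K) ≠ 0 := (map_ne_zero f).mpr hb'
  have hgb : g (b : K) ≠ 0 := (map_ne_zero g).mpr hb'
  exact real_small e hf hg ha (real_even_I he hfb hF) (real_even_I he hgb hG)

/-- Real case, `n` even, second equation. -/
lemma realII_even {φ ψ : K →ₐ[ℚ] ℂ} (e : Emb φ ψ) {f g : K →+* ℝ} (hf : ∀ x, (f x : ℂ) = φ x)
    (hg : ∀ x, (g x : ℂ) = ψ x) {b c : 𝓞 K} (hb : b ≠ 0) {n : ℕ} (hn : 5 ≤ n)
    (he : Even n) (h : 1 + b ^ n = c ^ n) : False := by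
  have hb' : (b : K) ≠ 0 := by
    intro hb'; exact hb (RingOfIntegers.ext hb')
  have hF : 1 + f (b : K) ^ n = f (c : K) ^ n := by
    have := congrArg (fun x : 𝓞 K => f (x : K)) h
    simpa using this
  have hG : 1 + g (b : K) ^ n = g (c : K) ^ n := by
    have := congrArg (fun x : 𝓞 K => g (x : K)) h
    simpa using this
  have hfb : f (b : K) ≠ 0 := (map_ne_zero f).mpr hb'
  have hgb : g (b : K) ≠ 0 := (map_ne_zero g).mpr hb'
  have hw : c ^ 2 - b ^ 2 ≠ 0 := by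
    intro h0
    have h1 : c ^ 2 = b ^ 2 := sub_eq_zero.mp h0
    obtain ⟨m, hm⟩ := he
    have hnm : n = 2 * m := by omega
    rw [hnm, pow_mul, pow_mul, h1] at h
    have : (1 : 𝓞 K) = 0 := by linear_combination h
    exact one_ne_zero this
  refine real_small e hf hg hw ?_ ?_
  · have := real_even_II he (by omega) hfb hF
    simpa using this
  · have := real_even_II he (by omega) hgb hG
    simpa using this

/-- Real case, `n` odd. -/
lemma realI_odd {φ ψ : K →ₐ[ℚ] ℂ} (e : Emb φ ψ) {f g : K →+* ℝ} (hf : ∀ x, (f x : ℂ) = φ x)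
    (hg : ∀ x, (g x : ℂ) = ψ x) {a b : 𝓞 K} (ha : a ≠ 0) (hb : b ≠ 0) {n : ℕ} (hn : 5 ≤ n)
    (ho : Odd n) (h : a ^ n + b ^ n = 1) : False := by
  have hF : f (a : K) ^ n + f (b : K) ^ n = 1 := by
    have := congrArg (fun x : 𝓞 K => f (x : K)) h
    simpa using this
  have hG : g (a : K) ^ n + g (b : K) ^ n = 1 := by
    have := congrArg (fun x : 𝓞 K => g (x : K)) h
    simpa using this
  obtain ⟨hF1, hF2⟩ := odd_sum_bounds ho hF
  obtain ⟨hG1, hG2⟩ := odd_sum_bounds ho hG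
  set s : 𝓞 K := a + b with hs
  have hunit : IsUnit s := by
    have := ho.add_dvd_pow_add_pow a b
    rw [h] at this
    exact isUnit_of_dvd_one this
  have hfs : f (s : K) = f (a : K) + f (b : K) := by rw [hs]; simp
  have hgs : g (s : K) = g (a : K) + g (b : K) := by rw [hs]; simp
  rw [← hfs] at hF1 hF2
  rw [← hgs] at hG1 hG2
  have hN := e.normZ s
  rw [← hf, ← hg] at hN
  have hN' : ((Algebra.norm ℤ s : ℤ) : ℝ) = f (s : K) * g (s : K) := by exact_mod_cast hN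
  have hNu := Int.isUnit_iff.mp (hunit.map (Algebra.norm ℤ))
  have hN1 : Algebra.norm ℤ s = 1 := by
    rcases hNu with h1 | h1
    · exact h1
    · exfalso
      rw [h1] at hN'
      have : 0 < f (s : K) * g (s : K) := mul_pos hF1 hG1
      rw [← hN'] at this
      norm_num at this
  rw [hN1] at hN'
  have hT := e.traceZ s
  rw [← hf, ← hg] at hT
  have hT' : ((Algebra.trace ℤ (𝓞 K) s : ℤ) : ℝ) = f (s : K) + g (s : K) := by exact_mod_cast hT
  set T := Algebra.trace ℤ (𝓞 K) s with hTdef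
  set p := f (s : K) with hp
  set q := g (s : K) with hq
  push_cast at hN'
  have hT3 : (T : ℝ) < 3 := by nlinarith
  have hT2 : 2 ≤ (T : ℝ) := by
    rw [hT']
    nlinarith [sq_nonneg (p - q)]
  have hT4 : T = 2 := by
    have a1 : T < 3 := by exact_mod_cast hT3
    have a2 : 2 ≤ T := by exact_mod_cast hT2
    omega
  rw [hT4] at hT'
  push_cast at hT'
  have hpq : (p - q) ^ 2 = 0 := by
    have : (p - q) ^ 2 = (p + q) ^ 2 - 4 * (p * q) := by ring
    rw [this, ← hT', ← hN']; norm_num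
  have hpq' : p = q := by
    have := pow_eq_zero_iff (two_ne_zero) |>.mp hpq
    linarith
  have hp1 : p = 1 := by linarith
  have hsum : f (a : K) + f (b : K) = 1 := by rw [← hfs]; exact hp1
  have ha' : f (a : K) ≠ 0 := (map_ne_zero f).mpr (fun h0 => ha (RingOfIntegers.ext h0))
  have hb' : f (b : K) ≠ 0 := (map_ne_zero f).mpr (fun h0 => hb (RingOfIntegers.ext h0))
  rcases odd_sum_one ho (by omega) hsum hF with h0 | h0
  · exact ha' h0
  · exact hb' h0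

end

/-- Integral solutions of `a ^ n + b ^ n = 1` over quadratic fields. -/
theorem coreI (K : Type) [Field K] [NumberField K] (hK : Module.finrank ℚ K = 2) {n : ℕ}
    (hn : 5 ≤ n) {a b : 𝓞 K} (ha : a ≠ 0) (hb : b ≠ 0) (h : a ^ n + b ^ n = 1) :
    ∃ m : ℕ, 0 < m ∧ (a : K) ^ m = 1 ∧ (b : K) ^ m = 1 := by
  obtain ⟨φ, ψ, h1, h2, h3, h4⟩ := two_embeddings K hK
  have e : Emb φ ψ := ⟨h1, h2, h3⟩
  rcases h4 with hc | ⟨hc1, hc2⟩
  · exact imagI e hc ha hb hn h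
  · exfalso
    obtain ⟨f, hf⟩ := exists_real hc1
    obtain ⟨g, hg⟩ := exists_real hc2
    rcases Nat.even_or_odd n with he | ho
    · exact realI_even e hf hg ha hb hn he h
    · exact realI_odd e hf hg ha hb hn ho h

/-- Integral solutions of `1 + b ^ n = c ^ n` over quadratic fields. -/
theorem coreII (K : Type) [Field K] [NumberField K] (hK : Module.finrank ℚ K = 2) {n : ℕ}
    (hn : 5 ≤ n) {b c : 𝓞 K} (hb : b ≠ 0) (hc0 : c ≠ 0) (h : 1 + b ^ n = c ^ n) :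
    ∃ m : ℕ, 0 < m ∧ (b : K) ^ m = 1 ∧ (c : K) ^ m = 1 := by
  obtain ⟨φ, ψ, h1, h2, h3, h4⟩ := two_embeddings K hK
  have e : Emb φ ψ := ⟨h1, h2, h3⟩
  rcases h4 with hc | ⟨hc1, hc2⟩
  · exact imagII e hc hb hc0 hn h
  · exfalso
    obtain ⟨f, hf⟩ := exists_real hc1
    obtain ⟨g, hg⟩ := exists_real hc2
    rcases Nat.even_or_odd n with he | ho
    · exact realII_even e hf hg hb hn he h
    · refine realI_odd e hf hg hc0 (neg_ne_zero.mpr hb) hn ho ?_
      rw [ho.neg_pow, ← h]; ring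

end Pool.Agent.Lib.QuadFermat
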