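import Mathlib

set_option autoImplicit false

namespace Pool.Agent.Lib.QuadFermat

open NumberField

lemma zval_add {L : Type*} [Monoid L] {ζ : L} {p : ℕ} [NeZero p] (h : ζ ^ p = 1) (a b : ZMod p) :
    ζ ^ (a + b).val = ζ ^ a.val * ζ ^ b.val := by
  rw [ZMod.val_add, ← pow_add]
  conv_rhs => rw [← Nat.div_add_mod (a.val + b.val) p, pow_add, pow_mul, h, one_pow, one_mul]

/-- An integral linear relation between the `p`-th roots of unity has constant coefficients. -/
lemma const_of_sum_eq_zero {L : Type*} [Field L] [CharZero L] {p : ℕ} [Fact p.Prime] {ζ : L}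
    (hζ : IsPrimitiveRoot ζ p) (c : ZMod p → ℤ) (h : ∑ a, (c a : L) * ζ ^ a.val = 0) :
    ∀ a b, c a = c b := by
  classical
  have hp : p.Prime := Fact.out
  set P : Polynomial ℤ := ∑ a : ZMod p, Polynomial.monomial a.val (c a) with hP
  have hcoef : ∀ b : ZMod p, P.coeff b.val = c b := by
    intro b
    rw [hP, Polynomial.finsetSum_coeff]
    simp only [Polynomial.coeff_monomial]
    rw [Finset.sum_eq_single b]
    · simp
    · intro a _ hab
      rw [if_neg]
      intro h0; exact hab (ZMod.val_injective p h0)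
    · intro h0; exact absurd (Finset.mem_univ b) h0
  have hae : Polynomial.aeval ζ P = 0 := by
    rw [hP, map_sum, ← h]
    apply Finset.sum_congr rfl
    intro a _
    rw [Polynomial.aeval_monomial]; simp
  have hdvd : Polynomial.cyclotomic p ℤ ∣ P := by
    rw [Polynomial.cyclotomic_eq_minpoly hζ hp.pos]
    exact minpoly.isIntegrallyClosed_dvd (hζ.isIntegral hp.pos) hae
  obtain ⟨Q, hQ⟩ := hdvd
  have hdeg : P.natDegree ≤ p - 1 := by
    rw [hP]
    apply Polynomial.natDegree_sum_le_of_forall_le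
    intro a _
    refine (Polynomial.natDegree_monomial_le _).trans ?_
    have := ZMod.val_lt a
    omega
  have hmon := Polynomial.cyclotomic.monic p ℤ
  have hcd : (Polynomial.cyclotomic p ℤ).natDegree = p - 1 := by
    rw [Polynomial.natDegree_cyclotomic, Nat.totient_prime hp]
  have hQ0 : Q.natDegree = 0 := by
    by_cases h0 : Q = 0
    · rw [h0]; simp
    · have h1 : P.natDegree = (Polynomial.cyclotomic p ℤ).natDegree + Q.natDegree := by
        rw [hQ, hmon.natDegree_mul' h0]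
      omega
  obtain ⟨q, hq⟩ : ∃ q : ℤ, Q = Polynomial.C q := ⟨_, Polynomial.eq_C_of_natDegree_eq_zero hQ0⟩
  have hval : ∀ b : ZMod p, c b = q := by
    intro b
    rw [← hcoef b, hQ, hq, Polynomial.coeff_mul_C, Polynomial.cyclotomic_prime,
      Polynomial.finsetSum_coeff]
    simp only [Polynomial.coeff_X_pow]
    rw [Finset.sum_ite_eq]
    rw [if_pos (Finset.mem_range.mpr (ZMod.val_lt b))]
    ring
  intro a b
  rw [hval a, hval b]

/-- Comparing `A + T ζ + B ζ ^ 2` with a twist of its conjugate. -/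
lemma abs_eq_of_relation {L : Type*} [Field L] [CharZero L] {p : ℕ} [Fact p.Prime] (hp7 : 7 ≤ p)
    {ζ : L} (hζ : IsPrimitiveRoot ζ p) {A T B ε : ℤ} (hA : A ≠ 0) (hB : B ≠ 0)
    (hε : ε = 1 ∨ ε = -1) (r : ZMod p)
    (h : (A : L) + T * ζ ^ (1 : ZMod p).val + B * ζ ^ (2 : ZMod p).val =
      ε * ζ ^ r.val * (A + T * ζ ^ (-1 : ZMod p).val + B * ζ ^ (-2 : ZMod p).val)) :
    A = B ∨ A = -B := by
  classical
  have hp : p.Prime := Fact.out
  have hne : ∀ n : ℕ, 0 < n → n < p → ((n : ℕ) : ZMod p) ≠ 0 := by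
    intro n h1 h2 h3
    rw [ZMod.natCast_eq_zero_iff] at h3
    have := Nat.le_of_dvd h1 h3
    omega
  have n1 := hne 1 (by norm_num) (by omega)
  have n2 := hne 2 (by norm_num) (by omega)
  have n3 := hne 3 (by norm_num) (by omega)
  have n4 := hne 4 (by norm_num) (by omega)
  push_cast at n1 n2 n3 n4
  set c : ZMod p → ℤ := fun a => (if a = 0 then A else 0) + (if a = 1 then T else 0) +
    (if a = 2 then B else 0) - ε * ((if a = r then A else 0) + (if a = r - 1 then T else 0) +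
    (if a = r - 2 then B else 0)) with hc
  have hsum : ∑ a, (c a : L) * ζ ^ a.val = 0 := by
    have e1 : ∀ a : ZMod p, (c a : L) * ζ ^ a.val =
        (if a = 0 then (A : L) * ζ ^ a.val else 0) + (if a = 1 then (T : L) * ζ ^ a.val else 0) +
        (if a = 2 then (B : L) * ζ ^ a.val else 0) - ε * ((if a = r then (A : L) * ζ ^ a.val else 0)
        + (if a = r - 1 then (T : L) * ζ ^ a.val else 0) +
        (if a = r - 2 then (B : L) * ζ ^ a.val else 0)) := by
      intro a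
      simp only [hc]
      push_cast
      split_ifs <;> ring
    rw [Finset.sum_congr rfl (fun a _ => e1 a)]
    rw [Finset.sum_sub_distrib, Finset.sum_add_distrib, Finset.sum_add_distrib, ← Finset.mul_sum,
      Finset.sum_add_distrib, Finset.sum_add_distrib]
    simp only [Finset.sum_ite_eq', Finset.mem_univ, if_true]
    have e2 : ζ ^ (r - 1).val = ζ ^ r.val * ζ ^ (-1 : ZMod p).val := by
      rw [sub_eq_add_neg, zval_add hζ.pow_eq_one]
    have e3 : ζ ^ (r - 2).val = ζ ^ r.val * ζ ^ (-2 : ZMod p).val := by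
      rw [sub_eq_add_neg, zval_add hζ.pow_eq_one]
    rw [e2, e3, ZMod.val_zero, pow_zero]
    linear_combination h
  have hconst := const_of_sum_eq_zero hζ c hsum
  obtain ⟨a, ha⟩ : ∃ a : ZMod p, a ∉ ({0, 1, 2, r, r - 1, r - 2} : Finset (ZMod p)) := by
    by_contra hcon
    push Not at hcon
    have h1 : (Finset.univ : Finset (ZMod p)) ⊆ {0, 1, 2, r, r - 1, r - 2} := fun a _ => hcon a
    have h2 := Finset.card_le_card h1
    rw [Finset.card_univ, ZMod.card] at h2
    have h3 : ({0, 1, 2, r, r - 1, r - 2} : Finset (ZMod p)).card ≤ 6 := Finset.card_le_six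
    omega
  have hca : c a = 0 := by
    simp only [Finset.mem_insert, Finset.mem_singleton, not_or] at ha
    obtain ⟨h0, h1, h2, h3, h4, h5⟩ := ha
    simp only [hc, if_neg h0, if_neg h1, if_neg h2, if_neg h3, if_neg h4, if_neg h5]
    ring
  have hc0 : c 0 = 0 := (hconst 0 a).trans hca
  have hc2 : c 2 = 0 := (hconst 2 a).trans hca
  have d01 : ¬ (0 : ZMod p) = 1 := fun h0 => n1 h0.symm
  have d02 : ¬ (0 : ZMod p) = 2 := fun h0 => n2 h0.symm
  have d20 : ¬ (2 : ZMod p) = 0 := n2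
  have d21 : ¬ (2 : ZMod p) = 1 := fun h0 => n1 (by linear_combination h0)
  simp only [hc, if_true, if_neg d01, if_neg d02] at hc0
  simp only [hc, if_true, if_neg d20, if_neg d21] at hc2
  by_cases hr2 : r = 2
  · subst hr2
    have f1 : ¬ (0 : ZMod p) = 2 - 1 := fun h0 => n1 (by linear_combination -h0)
    have f2 : (0 : ZMod p) = 2 - 2 := by ring
    rw [if_neg d02, if_neg f1, if_pos f2] at hc0
    rcases hε with h1 | h1
    · left; rw [h1] at hc0; linarith
    · right; rw [h1] at hc0; linarith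
  · exfalso
    have g1 : ¬ (2 : ZMod p) = r := fun h0 => hr2 h0.symm
    rw [if_neg g1] at hc2
    have g2 : ¬ (0 : ZMod p) = r - 2 := fun h0 => hr2 (by linear_combination -h0)
    rw [if_neg g2] at hc0
    -- from hc0: r = 0 or r = 1
    have k0 : r = 0 ∨ r = 1 := by
      by_contra hcon
      push Not at hcon
      have g3 : ¬ (0 : ZMod p) = r := fun h0 => hcon.1 h0.symm
      have g4 : ¬ (0 : ZMod p) = r - 1 := fun h0 => hcon.2 (by linear_combination -h0)
      rw [if_neg g3, if_neg g4] at hc0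
      apply hA; linarith
    have k2 : r = 3 ∨ r = 4 := by
      by_contra hcon
      push Not at hcon
      have g3 : ¬ (2 : ZMod p) = r - 1 := fun h0 => hcon.1 (by linear_combination -h0)
      have g4 : ¬ (2 : ZMod p) = r - 2 := fun h0 => hcon.2 (by linear_combination -h0)
      rw [if_neg g3, if_neg g4] at hc2
      apply hB; linarith
    rcases k0 with k0 | k0 <;> rcases k2 with k2 | k2 <;> rw [k0] at k2
    · exact n3 k2.symm
    · exact n4 k2.symm
    · exact n2 (by linear_combination -k2)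
    · exact n3 (by linear_combination -k2)

/-- Kronecker argument in a cyclotomic field. -/
theorem cyc_aux {p : ℕ} [Fact p.Prime] (hp7 : 7 ≤ p) (L : Type) [Field L] [NumberField L]
    [IsCyclotomicExtension {p} ℚ L] {A T B N : ℤ} {e : ℕ} (hA : A ≠ 0)
    (hB : B ≠ 0) (hN : N ∣ (p : ℤ) ^ e)
    (h : ∀ ζ : ℂ, IsPrimitiveRoot ζ p →
      ∏ j ∈ Finset.range (p - 1), ((A : ℂ) + T * ζ ^ (j + 1) + B * (ζ ^ (j + 1)) ^ 2) = N) :
    A = B ∨ A = -B := by
  have hp : p.Prime := Fact.out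
  have hodd : Odd p := hp.odd_of_ne_two (by omega)
  have hζ : IsPrimitiveRoot (IsCyclotomicExtension.zeta p ℚ L) p :=
    IsCyclotomicExtension.zeta_spec p ℚ L
  set ζ := IsCyclotomicExtension.zeta p ℚ L with hζdef
  set z : 𝓞 L := hζ.toInteger with hzdef
  have hzζ : algebraMap (𝓞 L) L z = ζ := rfl
  set f : ℕ → 𝓞 L := fun j => (A : 𝓞 L) + T * z ^ (j + 1) + B * (z ^ (j + 1)) ^ 2 with hf
  have hfL : ∀ j, algebraMap (𝓞 L) L (f j) = (A : L) + T * ζ ^ (j + 1) + B * (ζ ^ (j + 1)) ^ 2 := by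
    intro j
    simp only [hf, map_add, map_mul, map_pow, map_intCast, hzζ]
  obtain ⟨ι⟩ : Nonempty (L →+* ℂ) := inferInstance
  have hprod : ∏ j ∈ Finset.range (p - 1), f j = (N : 𝓞 L) := by
    apply FaithfulSMul.algebraMap_injective (𝓞 L) L
    apply ι.injective
    have h1 := h (ι ζ) (hζ.map_of_injective ι.injective)
    rw [map_prod, map_prod, map_intCast, map_intCast, ← h1]
    apply Finset.prod_congr rfl
    intro j _
    rw [hfL]
    simp
  have hN0 : (N : 𝓞 L) ≠ 0 := by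
    have : N ≠ 0 := by
      rintro rfl
      rw [zero_dvd_iff] at hN
      exact absurd hN (pow_ne_zero _ (by exact_mod_cast hp.ne_zero))
    exact_mod_cast this
  have hdv : ∀ j < p - 1, f j ∣ (N : 𝓞 L) := by
    intro j hj
    rw [← hprod]
    exact Finset.dvd_prod_of_mem f (Finset.mem_range.mpr hj)
  have hNp : (N : 𝓞 L) ∣ ((p : ℕ) : 𝓞 L) ^ e := by
    obtain ⟨k, hk⟩ := hN
    exact ⟨(k : 𝓞 L), by exact_mod_cast hk⟩
  have hπ : Prime (z - 1) := hζ.zeta_sub_one_prime'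
  have hass : Associated ((z - 1) ^ (p - 1)) ((p : ℕ) : 𝓞 L) :=
    IsCyclotomicExtension.Rat.associated_zeta_sub_one_pow_prime p hζ
  have hpow : ∀ j < p - 1, ∃ k, Associated (f j) ((z - 1) ^ k) := by
    intro j hj
    have h1 : f j ∣ (z - 1) ^ ((p - 1) * e) := by
      rw [pow_mul]
      exact ((hdv j hj).trans hNp).trans (hass.symm.pow_pow).dvd
    obtain ⟨k, _, hk⟩ := (dvd_prime_pow hπ _).mp h1
    exact ⟨k, hk⟩
  obtain ⟨k, hk⟩ := hpow 0 (by omega)
  obtain ⟨k', hk'⟩ := hpow (p - 2) (by omega)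
  have hζp : ζ ^ p = 1 := hζ.pow_eq_one
  have hnorm : ∀ φ : L →+* ℂ, ‖φ (algebraMap (𝓞 L) L (f 0))‖ = ‖φ (algebraMap (𝓞 L) L (f (p - 2)))‖ := by
    intro φ
    rw [hfL, hfL]
    have hω : IsPrimitiveRoot (φ ζ) p := hζ.map_of_injective φ.injective
    have hn : ‖φ ζ‖ = 1 := hω.norm'_eq_one hp.ne_zero
    have hconj : (φ ζ) ^ (p - 2 + 1) = (starRingEnd ℂ) (φ ζ) := by
      rw [← Complex.inv_eq_conj hn]
      have h0 : φ ζ ≠ 0 := hω.ne_zero hp.ne_zero
      have h2 : (φ ζ) ^ (p - 2 + 1) * φ ζ = 1 := by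
        rw [← pow_succ]
        have : p - 2 + 1 + 1 = p := by omega
        rw [this, hω.pow_eq_one]
      exact eq_inv_of_mul_eq_one_left h2
    simp only [map_add, map_mul, map_pow, map_intCast, zero_add, pow_one]
    rw [hconj, ← Complex.norm_conj]
    simp
  have hf0 : ∀ j < p - 1, f j ≠ 0 := by
    intro j hj h0
    have := hdv j hj
    rw [h0, zero_dvd_iff] at this
    exact hN0 this
  have hφ0 : ∀ (φ : L →+* ℂ) (j : ℕ), j < p - 1 → φ (algebraMap (𝓞 L) L (f j)) ≠ 0 := by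
    intro φ j hj
    rw [Ne, map_eq_zero, map_eq_zero_iff _ (FaithfulSMul.algebraMap_injective (𝓞 L) L)]
    exact hf0 j hj
  have hroot : ∀ u : 𝓞 L, (∀ φ : L →+* ℂ, ‖φ (algebraMap (𝓞 L) L u)‖ = 1) →
      ∃ (r : ZMod p) (ε : ℤ), (ε = 1 ∨ ε = -1) ∧ (algebraMap (𝓞 L) L u) = ε * ζ ^ r.val := by
    intro u hu
    obtain ⟨n, hn, hun⟩ := Embeddings.pow_eq_one_of_norm_eq_one L ℂ u.isIntegral_coe hu
    obtain ⟨r, hr, hur⟩ := hζ.exists_pow_or_neg_mul_pow_of_isOfFinOrder hodd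
      (isOfFinOrder_iff_pow_eq_one.mpr ⟨n, hn, hun⟩)
    have hrv : ((r : ℕ) : ZMod p).val = r := ZMod.val_natCast_of_lt hr
    rcases hur with h1 | h1
    · exact ⟨(r : ZMod p), 1, Or.inl rfl, by rw [hrv, h1]; simp⟩
    · exact ⟨(r : ZMod p), -1, Or.inr rfl, by rw [hrv, h1]; simp⟩
  have v1 : ζ ^ (1 : ZMod p).val = ζ := by
    rw [ZMod.val_one, pow_one]
  have v2 : ζ ^ (2 : ZMod p).val = ζ ^ 2 := by
    have : (2 : ZMod p) = 1 + 1 := by norm_num
    rw [this, zval_add hζp, v1, sq]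
  have vneg : ∀ a : ZMod p, ζ ^ (-a).val * ζ ^ a.val = 1 := by
    intro a
    rw [← zval_add hζp, neg_add_cancel, ZMod.val_zero, pow_zero]
  have hζ0 : ζ ≠ 0 := hζ.ne_zero hp.ne_zero
  have vm1 : ζ ^ (-1 : ZMod p).val = ζ ^ (p - 2 + 1) := by
    have h1 := vneg 1
    rw [v1] at h1
    have h2 : ζ ^ (p - 2 + 1) * ζ = 1 := by
      rw [← pow_succ]
      have : p - 2 + 1 + 1 = p := by omega
      rw [this, hζp]
    exact mul_right_cancel₀ hζ0 (h1.trans h2.symm)
  have vm2 : ζ ^ (-2 : ZMod p).val = (ζ ^ (p - 2 + 1)) ^ 2 := by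
    have : (-2 : ZMod p) = -1 + -1 := by ring
    rw [this, zval_add hζp, vm1, sq]
  have hα : (algebraMap (𝓞 L) L (f 0)) = (A : L) + T * ζ ^ (1 : ZMod p).val + B * ζ ^ (2 : ZMod p).val := by
    rw [hfL, v1, v2]; simp
  have hα' : (algebraMap (𝓞 L) L (f (p - 2))) =
      (A : L) + T * ζ ^ (-1 : ZMod p).val + B * ζ ^ (-2 : ZMod p).val := by
    rw [hfL, vm1, vm2]
  rcases le_total k' k with hle | hle
  · -- f (p-2) divides f 0
    have hd : f (p - 2) ∣ f 0 := (hk'.dvd.trans (pow_dvd_pow _ hle)).trans hk.symm.dvd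
    obtain ⟨u, hu⟩ := hd
    have hu1 : ∀ φ : L →+* ℂ, ‖φ (algebraMap (𝓞 L) L u)‖ = 1 := by
      intro φ
      have h1 := hnorm φ
      rw [hu, map_mul, map_mul, norm_mul] at h1
      have h2 : ‖φ (algebraMap (𝓞 L) L (f (p - 2)))‖ ≠ 0 := norm_ne_zero_iff.mpr (hφ0 φ (p - 2) (by omega))
      exact mul_left_cancel₀ h2 (by rw [h1, mul_one])
    obtain ⟨r, ε, hε, hr⟩ := hroot u hu1
    refine abs_eq_of_relation (T := T) hp7 hζ hA hB hε r ?_
    rw [← hα, ← hα', ← hr, hu, map_mul]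
    ring
  · have hd : f 0 ∣ f (p - 2) := (hk.dvd.trans (pow_dvd_pow _ hle)).trans hk'.symm.dvd
    obtain ⟨u, hu⟩ := hd
    have hu1 : ∀ φ : L →+* ℂ, ‖φ (algebraMap (𝓞 L) L u)‖ = 1 := by
      intro φ
      have h1 := hnorm φ
      rw [hu, map_mul, map_mul, norm_mul] at h1
      have h2 : ‖φ (algebraMap (𝓞 L) L (f 0))‖ ≠ 0 := norm_ne_zero_iff.mpr (hφ0 φ 0 (by omega))
      exact mul_left_cancel₀ h2 (by rw [← h1, mul_one])
    obtain ⟨r, ε, hε, hr⟩ := hroot u hu1
    refine abs_eq_of_relation (T := T) hp7 hζ hA hB hε (-r) ?_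
    rw [← hα, ← hα', hu, map_mul, hr]
    have hε2 : (ε : L) * ε = 1 := by
      rcases hε with h1 | h1 <;> rw [h1] <;> simp
    have h3 := vneg r
    calc (algebraMap (𝓞 L) L (f 0)) = ((ε : L) * ε) * (ζ ^ (-r).val * ζ ^ r.val) * (algebraMap (𝓞 L) L (f 0)) := by
          rw [hε2, h3]; ring
      _ = _ := by ring

/-- Kronecker argument: if the norm of `A + T ζ + B ζ ^ 2` divides a power of `p`, then
`|A| = |B|`. -/
theorem cyc_main {p : ℕ} (hp : p.Prime) (hp7 : 7 ≤ p) {A T B N : ℤ} {e : ℕ} (hA : A ≠ 0)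
    (hB : B ≠ 0) (hN : N ∣ (p : ℤ) ^ e)
    (h : ∀ ζ : ℂ, IsPrimitiveRoot ζ p →
      ∏ j ∈ Finset.range (p - 1), ((A : ℂ) + T * ζ ^ (j + 1) + B * (ζ ^ (j + 1)) ^ 2) = N) :
    A = B ∨ A = -B := by
  have : Fact p.Prime := ⟨hp⟩
  have : NeZero ((p : ℕ) : ℚ) := ⟨by exact_mod_cast hp.ne_zero⟩
  have h0 : @IsCyclotomicExtension {p} ℚ (CyclotomicField p ℚ) _ _
      (CyclotomicField.algebra p ℚ) := CyclotomicField.isCyclotomicExtension p ℚ
  have : IsCyclotomicExtension {p} ℚ (CyclotomicField p ℚ) := h0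
  exact cyc_aux hp7 (CyclotomicField p ℚ) hA hB hN h

end Pool.Agent.Lib.QuadFermat
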