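import Pool.Agent.Lib.QuadFermatUnit

set_option autoImplicit false

namespace Pool.Agent.Lib.QuadFermat

open NumberField

/-! ### Real triples -/

lemma dom_pos {u v w : ℝ} {p : ℕ} (hodd : Odd p) (h : u ^ p + v ^ p + w ^ p = 0)
    (hu : 0 < u) (hv : 0 < v) :
    |u| ≤ |w| ∧ |v| ≤ |w| ∧ |w| ≤ |u + v| ∧ |v + w| ≤ |u| ∧ |u + w| ≤ |v| := by
  have hp0 : p ≠ 0 := by rintro rfl; simp at hodd
  have mono := hodd.strictMono_pow (R := ℝ)
  have hup : 0 < u ^ p := pow_pos hu p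
  have hvp : 0 < v ^ p := pow_pos hv p
  have hc : (-w) ^ p = u ^ p + v ^ p := by rw [hodd.neg_pow]; linarith
  have h1 : u < -w := by
    apply mono.lt_iff_lt.mp; show u ^ p < (-w) ^ p; linarith
  have h2 : v < -w := by
    apply mono.lt_iff_lt.mp; show v ^ p < (-w) ^ p; linarith
  have h3 : -w ≤ u + v := by
    apply mono.le_iff_le.mp; show (-w) ^ p ≤ (u + v) ^ p
    rw [hc]; exact pow_add_pow_le hu.le hv.le hp0
  have hw : w < 0 := by linarith
  rw [abs_of_pos hu, abs_of_pos hv, abs_of_neg hw, abs_of_pos (by linarith : 0 < u + v),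
    abs_of_neg (by linarith : v + w < 0), abs_of_neg (by linarith : u + w < 0)]
  refine ⟨h1.le, h2.le, h3, by linarith, by linarith⟩

lemma dom {u v w : ℝ} {p : ℕ} (hodd : Odd p) (h : u ^ p + v ^ p + w ^ p = 0)
    (huv : 0 < u * v) :
    |u| ≤ |w| ∧ |v| ≤ |w| ∧ |w| ≤ |u + v| ∧ |v + w| ≤ |u| ∧ |u + w| ≤ |v| := by
  rcases mul_pos_iff.mp huv with ⟨hu, hv⟩ | ⟨hu, hv⟩
  · exact dom_pos hodd h hu hv
  · have h' : (-u) ^ p + (-v) ^ p + (-w) ^ p = 0 := by
      rw [hodd.neg_pow, hodd.neg_pow, hodd.neg_pow]; linarith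
    have := dom_pos hodd h' (by linarith) (by linarith)
    simpa [abs_neg, ← neg_add, -neg_add_rev] using this

lemma sign_cases {u v w : ℝ} (hu : u ≠ 0) (hv : v ≠ 0) (hw : w ≠ 0) :
    0 < u * v ∨ 0 < v * w ∨ 0 < w * u := by
  rcases lt_or_gt_of_ne hu with a | a <;> rcases lt_or_gt_of_ne hv with b | b <;>
    rcases lt_or_gt_of_ne hw with c | c
  · left; exact mul_pos_of_neg_of_neg a b
  · left; exact mul_pos_of_neg_of_neg a b
  · right; right; exact mul_pos_of_neg_of_neg c a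
  · right; left; exact mul_pos b c
  · right; left; exact mul_pos_of_neg_of_neg b c
  · right; right; exact mul_pos c a
  · left; exact mul_pos a b
  · left; exact mul_pos a b

lemma sum_le_two {u v w : ℝ} {p : ℕ} (hodd : Odd p) (h : u ^ p + v ^ p + w ^ p = 0)
    (hu : u ≠ 0) (hv : v ≠ 0) (hw : w ≠ 0) : |u + v| ≤ 2 * |w| := by
  rcases sign_cases hu hv hw with h1 | h1 | h1
  · have := dom hodd h h1
    have h2 := abs_add_le u v
    linarith [this.1, this.2.1]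
  · have := dom hodd (u := v) (v := w) (w := u) (by linarith) h1
    have h2 := this.2.2.2.2
    rw [add_comm] at h2
    linarith [abs_nonneg w]
  · have := dom hodd (u := w) (v := u) (w := v) (by linarith) h1
    linarith [this.2.2.2.1, abs_nonneg w]

section
variable {K : Type} [Field K] [NumberField K]

/-- A quotient of two integers of `K` which is a root of unity (up to powers) is integral. -/
lemma dvd_of_pow_eq {a b : 𝓞 K} (hb : b ≠ 0) {n : ℕ} (hn : n ≠ 0) (h : a ^ n = b ^ n) : b ∣ a := by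
  have hb' : (b : K) ≠ 0 := fun h0 => hb (RingOfIntegers.ext h0)
  have hi : IsIntegral ℤ ((a : K) / (b : K)) := by
    apply IsIntegral.of_pow (Nat.pos_of_ne_zero hn)
    have : ((a : K) / (b : K)) ^ n = 1 := by
      rw [div_pow, div_eq_one_iff_eq (pow_ne_zero n hb')]
      exact_mod_cast congrArg (fun x : 𝓞 K => (x : K)) h
    rw [this]; exact isIntegral_one
  refine ⟨⟨(a : K) / (b : K), hi⟩, ?_⟩
  apply RingOfIntegers.ext
  have : (b : K) * ((a : K) / (b : K)) = (a : K) := by field_simp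
  exact this.symm

/-- If `e₃` does not divide `e₁`, its norm is at least twice the norm of `(e₁, e₂, e₃)`. -/
lemma rel_norm_ge_two {e1 e2 e3 : 𝓞 K} (h3 : e3 ≠ 0) (hd : ¬ e3 ∣ e1) {I : Ideal (𝓞 K)}
    (hI : I = Ideal.span {e1, e2, e3}) :
    2 * Ideal.absNorm I ≤ Ideal.absNorm (Ideal.span {e3}) := by
  have he3 : e3 ∈ I := by rw [hI]; exact Ideal.subset_span (by simp)
  have he1 : e1 ∈ I := by rw [hI]; exact Ideal.subset_span (by simp)
  have hdvd : I ∣ Ideal.span {e3} := by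
    rw [Ideal.dvd_iff_le, Ideal.span_le]; simpa using he3
  obtain ⟨E, hE⟩ := hdvd
  have hs0 : Ideal.span {e3} ≠ (0 : Ideal (𝓞 K)) := by simpa using h3
  have hE0 : E ≠ 0 := by rintro rfl; rw [mul_zero] at hE; exact hs0 hE
  have hE1 : E ≠ 1 := by
    rintro rfl
    rw [mul_one] at hE
    rw [← hE, Ideal.mem_span_singleton] at he1
    exact hd he1
  have hN0 : Ideal.absNorm E ≠ 0 := by rw [Ne, Ideal.absNorm_eq_zero_iff]; exact hE0
  have hN1 : Ideal.absNorm E ≠ 1 := by rw [Ne, Ideal.absNorm_eq_one_iff, ← Ideal.one_eq_top]; exact hE1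
  rw [hE, map_mul, mul_comm 2]
  exact Nat.mul_le_mul_left _ (by omega)

/-- The absolute norm of a principal ideal in the real case. -/
lemma absNorm_real {φ ψ : K →ₐ[ℚ] ℂ} (e : Emb φ ψ) {f g : K →+* ℝ}
    (hf : ∀ x, (f x : ℂ) = φ x) (hg : ∀ x, (g x : ℂ) = ψ x) (a : 𝓞 K) :
    ((Ideal.absNorm (Ideal.span {a}) : ℕ) : ℝ) = |f (a : K)| * |g (a : K)| := by
  have hN := e.normZ a
  rw [← hf, ← hg] at hN
  have hN' : ((Algebra.norm ℤ a : ℤ) : ℝ) = f (a : K) * g (a : K) := by exact_mod_cast hN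
  rw [Ideal.absNorm_span_singleton, ← abs_mul, ← hN']
  rw [Nat.cast_natAbs, Int.cast_abs]

/-- The absolute norm of a principal ideal in the imaginary case. -/
lemma absNorm_imag {φ ψ : K →ₐ[ℚ] ℂ} (e : Emb φ ψ) (hc : ∀ x, ψ x = (starRingEnd ℂ) (φ x))
    (a : 𝓞 K) : ((Ideal.absNorm (Ideal.span {a}) : ℕ) : ℝ) = ‖φ (a : K)‖ ^ 2 := by
  rw [Ideal.absNorm_span_singleton, ← imag_norm e hc a, Nat.cast_natAbs, Int.cast_abs, abs_of_nonneg]
  rw [imag_norm e hc a]; positivity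

lemma span_perm (a b c : 𝓞 K) : Ideal.span {a, b, c} = Ideal.span {b, c, a} := by
  congr 1; ext x; simp; tauto

lemma exists_cofactor {a : 𝓞 K} {I : Ideal (𝓞 K)} (h : a ∈ I) :
    ∃ J : Ideal (𝓞 K), Ideal.span {a} = I * J := by
  have : I ∣ Ideal.span {a} := by
    rw [Ideal.dvd_iff_le, Ideal.span_le]; simpa using h
  exact this

/-- From the dichotomy: either `(e₁ + e₂) = I`, or the norm of `e₁ + e₂` is `≥ 2 ^ p N(I)`. -/
lemma dichotomy' (hK : Module.finrank ℚ K = 2) {p : ℕ} (hp : p.Prime) (hp5 : 5 ≤ p)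
    {e1 e2 e3 : 𝓞 K} (h : e1 ^ p + e2 ^ p + e3 ^ p = 0) (h3 : e3 ≠ 0) :
    Ideal.span {e1 + e2} = Ideal.span {e1, e2, e3} ∨
      2 ^ p * Ideal.absNorm (Ideal.span {e1, e2, e3}) ≤ Ideal.absNorm (Ideal.span {e1 + e2}) := by
  have hmem : e1 + e2 ∈ Ideal.span {e1, e2, e3} :=
    Ideal.add_mem _ (Ideal.subset_span (by simp)) (Ideal.subset_span (by simp))
  obtain ⟨J, hJ⟩ := exists_cofactor hmem
  rcases norm_dichotomy hK hp hp5 h h3 rfl hJ with h1 | h1
  · left; rw [hJ, h1, mul_one]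
  · right
    rw [hJ, map_mul, mul_comm]
    exact Nat.mul_le_mul_left _ h1

/-- Real case: `|N(e₁ + e₂)| ≤ 4 |N(e₃)|`. -/
lemma real_norm_le {φ ψ : K →ₐ[ℚ] ℂ} (e : Emb φ ψ) {f g : K →+* ℝ}
    (hf : ∀ x, (f x : ℂ) = φ x) (hg : ∀ x, (g x : ℂ) = ψ x) {p : ℕ} (hodd : Odd p)
    {e1 e2 e3 : 𝓞 K} (h : e1 ^ p + e2 ^ p + e3 ^ p = 0) (h1 : e1 ≠ 0) (h2 : e2 ≠ 0)
    (h3 : e3 ≠ 0) :
    Ideal.absNorm (Ideal.span {e1 + e2}) ≤ 4 * Ideal.absNorm (Ideal.span {e3}) := by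
  have ne : ∀ {a : 𝓞 K}, a ≠ 0 → (a : K) ≠ 0 := fun ha h0 => ha (RingOfIntegers.ext h0)
  have hF : f (e1 : K) ^ p + f (e2 : K) ^ p + f (e3 : K) ^ p = 0 := by
    have := congrArg (fun x : 𝓞 K => f (x : K)) h; simpa using this
  have hG : g (e1 : K) ^ p + g (e2 : K) ^ p + g (e3 : K) ^ p = 0 := by
    have := congrArg (fun x : 𝓞 K => g (x : K)) h; simpa using this
  have a1 := sum_le_two hodd hF ((map_ne_zero f).mpr (ne h1)) ((map_ne_zero f).mpr (ne h2))
    ((map_ne_zero f).mpr (ne h3))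
  have a2 := sum_le_two hodd hG ((map_ne_zero g).mpr (ne h1)) ((map_ne_zero g).mpr (ne h2))
    ((map_ne_zero g).mpr (ne h3))
  have h4 : ((Ideal.absNorm (Ideal.span {e1 + e2}) : ℕ) : ℝ) ≤
      ((4 * Ideal.absNorm (Ideal.span {e3}) : ℕ) : ℝ) := by
    push_cast
    rw [absNorm_real e hf hg, absNorm_real e hf hg]
    have b1 : f ((e1 + e2 : 𝓞 K) : K) = f (e1 : K) + f (e2 : K) := by simp
    have b2 : g ((e1 + e2 : 𝓞 K) : K) = g (e1 : K) + g (e2 : K) := by simp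
    rw [b1, b2]
    calc |f (e1 : K) + f (e2 : K)| * |g (e1 : K) + g (e2 : K)|
        ≤ (2 * |f (e3 : K)|) * (2 * |g (e3 : K)|) := mul_le_mul a1 a2 (abs_nonneg _) (by positivity)
      _ = 4 * (|f (e3 : K)| * |g (e3 : K)|) := by ring
  exact_mod_cast h4

/-- Real case: the same element cannot be dominant in both embeddings when `(e₁ + e₂) = I`. -/
lemma real_same_dom {φ ψ : K →ₐ[ℚ] ℂ} (e : Emb φ ψ) {f g : K →+* ℝ}
    (hf : ∀ x, (f x : ℂ) = φ x) (hg : ∀ x, (g x : ℂ) = ψ x) {p : ℕ} (hodd : Odd p)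
    {e1 e2 e3 : 𝓞 K} (h : e1 ^ p + e2 ^ p + e3 ^ p = 0) (h3 : e3 ≠ 0) (hd : ¬ e3 ∣ e1)
    (hfd : 0 < f (e1 : K) * f (e2 : K)) (hgd : 0 < g (e1 : K) * g (e2 : K))
    (hJ : Ideal.span {e1 + e2} = Ideal.span {e1, e2, e3}) : False := by
  have hF : f (e1 : K) ^ p + f (e2 : K) ^ p + f (e3 : K) ^ p = 0 := by
    have := congrArg (fun x : 𝓞 K => f (x : K)) h; simpa using this
  have hG : g (e1 : K) ^ p + g (e2 : K) ^ p + g (e3 : K) ^ p = 0 := by
    have := congrArg (fun x : 𝓞 K => g (x : K)) h; simpa using this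
  have a1 := (dom hodd hF hfd).2.2.1
  have a2 := (dom hodd hG hgd).2.2.1
  have h4 : ((Ideal.absNorm (Ideal.span {e3}) : ℕ) : ℝ) ≤
      ((Ideal.absNorm (Ideal.span {e1 + e2}) : ℕ) : ℝ) := by
    rw [absNorm_real e hf hg, absNorm_real e hf hg]
    have b1 : f ((e1 + e2 : 𝓞 K) : K) = f (e1 : K) + f (e2 : K) := by simp
    have b2 : g ((e1 + e2 : 𝓞 K) : K) = g (e1 : K) + g (e2 : K) := by simp
    rw [b1, b2]
    exact mul_le_mul a1 a2 (abs_nonneg _) (abs_nonneg _)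
  have h5 : Ideal.absNorm (Ideal.span {e3}) ≤ Ideal.absNorm (Ideal.span {e1 + e2}) := by
    exact_mod_cast h4
  have h6 := rel_norm_ge_two (e2 := e2) h3 hd (I := Ideal.span {e1, e2, e3}) rfl
  rw [hJ] at h5
  have h7 : Ideal.absNorm (Ideal.span {e1, e2, e3}) ≠ 0 := by
    rw [Ne, Ideal.absNorm_eq_zero_iff]
    intro h0
    have : e3 ∈ Ideal.span {e1, e2, e3} := Ideal.subset_span (by simp)
    rw [h0] at this
    exact h3 (by simpa using this)
  omega

/-- Real case: distinct dominant elements, all three sums generate `I`. -/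
lemma real_diff_dom (hK : Module.finrank ℚ K = 2) {φ ψ : K →ₐ[ℚ] ℂ} (e : Emb φ ψ)
    {f g : K →+* ℝ} (hf : ∀ x, (f x : ℂ) = φ x) (hg : ∀ x, (g x : ℂ) = ψ x) {p : ℕ}
    (hp : p.Prime) (hp5 : 5 ≤ p) {e1 e2 e3 : 𝓞 K} (h : e1 ^ p + e2 ^ p + e3 ^ p = 0)
    (hfd : 0 < f (e1 : K) * f (e2 : K)) (hgd : 0 < g (e2 : K) * g (e3 : K))
    (hJ3 : Ideal.span {e1 + e2} = Ideal.span {e1, e2, e3})
    (hJ1 : Ideal.span {e2 + e3} = Ideal.span {e1, e2, e3})
    (hJ2 : Ideal.span {e3 + e1} = Ideal.span {e1, e2, e3}) : False := by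
  have hodd : Odd p := hp.odd_of_ne_two (by omega)
  set t := e1 + e2 with ht
  have m1 : e1 ∈ Ideal.span {t} := by rw [hJ3]; exact Ideal.subset_span (by simp)
  have m2 : e2 ∈ Ideal.span {t} := by rw [hJ3]; exact Ideal.subset_span (by simp)
  have m3 : e3 ∈ Ideal.span {t} := by rw [hJ3]; exact Ideal.subset_span (by simp)
  rw [Ideal.mem_span_singleton] at m1 m2 m3
  obtain ⟨X, hX⟩ := m1
  obtain ⟨Y, hY⟩ := m2
  obtain ⟨Z', hZ'⟩ := m3
  have hfe1 : f (e1 : K) ≠ 0 := left_ne_zero_of_mul hfd.ne'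
  have he1 : e1 ≠ 0 := by rintro rfl; simp at hfe1
  have ht0 : t ≠ 0 := by rintro h0; rw [h0, zero_mul] at hX; exact he1 hX
  have hsum : X + Y = 1 := by
    have : t * (X + Y) = t * 1 := by rw [mul_add, ← hX, ← hY, mul_one]
    exact mul_left_cancel₀ ht0 this
  -- associates
  have hA2 : Associated t (e3 + e1) := by
    rw [← Ideal.span_singleton_eq_span_singleton, hJ3, hJ2]
  have hA1 : Associated t (e2 + e3) := by
    rw [← Ideal.span_singleton_eq_span_singleton, hJ3, hJ1]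
  obtain ⟨u2, hu2⟩ := hA2
  obtain ⟨u1, hu1⟩ := hA1
  have hXZ : X + Z' = u2 := by
    have : t * (X + Z') = t * u2 := by rw [mul_add, ← hX, ← hZ', hu2]; ring
    exact mul_left_cancel₀ ht0 this
  have hYZ : Y + Z' = u1 := by
    have : t * (Y + Z') = t * u1 := by rw [mul_add, ← hY, ← hZ', hu1]
    exact mul_left_cancel₀ ht0 this
  have hE : X ^ p + Y ^ p = (-Z') ^ p := by
    have h1 : t ^ p * (X ^ p + Y ^ p + Z' ^ p) = 0 := by
      have h0 : t ^ p * (X ^ p + Y ^ p + Z' ^ p) = (t * X) ^ p + (t * Y) ^ p + (t * Z') ^ p := by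
        ring
      rw [h0, ← hX, ← hY, ← hZ', h]
    have h2 : X ^ p + Y ^ p + Z' ^ p = 0 := by
      rcases mul_eq_zero.mp h1 with h3 | h3
      · exact absurd h3 (pow_ne_zero p ht0)
      · exact h3
    rw [hodd.neg_pow]; linear_combination h2
  have ft : f (t : K) ≠ 0 := (map_ne_zero f).mpr (fun h0 => ht0 (RingOfIntegers.ext h0))
  have gt : g (t : K) ≠ 0 := (map_ne_zero g).mpr (fun h0 => ht0 (RingOfIntegers.ext h0))
  have hfd' : 0 < f (X : K) * f (Y : K) := by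
    have h1 : f (e1 : K) = f (t : K) * f (X : K) := by
      have := congrArg (fun x : 𝓞 K => f (x : K)) hX; simpa using this
    have h2 : f (e2 : K) = f (t : K) * f (Y : K) := by
      have := congrArg (fun x : 𝓞 K => f (x : K)) hY; simpa using this
    rw [h1, h2] at hfd
    have h3 : f (t : K) * f (X : K) * (f (t : K) * f (Y : K)) =
      f (t : K) ^ 2 * (f (X : K) * f (Y : K)) := by ring
    rw [h3] at hfd
    exact (pos_iff_pos_of_mul_pos hfd).mp (by positivity)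
  have hgd' : g (Y : K) * g ((-Z' : 𝓞 K) : K) < 0 := by
    have h1 : g (e2 : K) = g (t : K) * g (Y : K) := by
      have := congrArg (fun x : 𝓞 K => g (x : K)) hY; simpa using this
    have h2 : g (e3 : K) = g (t : K) * g (Z' : K) := by
      have := congrArg (fun x : 𝓞 K => g (x : K)) hZ'; simpa using this
    rw [h1, h2] at hgd
    have h3 : g (t : K) * g (Y : K) * (g (t : K) * g (Z' : K)) =
      g (t : K) ^ 2 * (g (Y : K) * g (Z' : K)) := by ring
    rw [h3] at hgd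
    have h4 : 0 < g (Y : K) * g (Z' : K) := (pos_iff_pos_of_mul_pos hgd).mp (by positivity)
    have h5 : g ((-Z' : 𝓞 K) : K) = - g (Z' : K) := by simp
    rw [h5]; linarith
  refine unit_case hK e hf hg hp hp5 (X := X) (Y := Y) (Z := -Z') (w := -(u2 : 𝓞 K))
    (v := -(u1 : 𝓞 K)) hsum ?_ ?_ u2.isUnit.neg u1.isUnit.neg hE hfd' hgd'
  · rw [← hXZ]; ring
  · rw [← hYZ]; ring

/-- Real case of the exponential lower bound. -/
lemma real_exp (hK : Module.finrank ℚ K = 2) {φ ψ : K →ₐ[ℚ] ℂ} (e : Emb φ ψ)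
    {f g : K →+* ℝ} (hf : ∀ x, (f x : ℂ) = φ x) (hg : ∀ x, (g x : ℂ) = ψ x) {p : ℕ}
    (hp : p.Prime) (hp5 : 5 ≤ p) {e1 e2 e3 : 𝓞 K} (h : e1 ^ p + e2 ^ p + e3 ^ p = 0)
    (h1 : e1 ≠ 0) (h2 : e2 ≠ 0) (h3 : e3 ≠ 0) (d12 : ¬ e1 ∣ e2) (d23 : ¬ e2 ∣ e3)
    (d31 : ¬ e3 ∣ e1) :
    ∃ a ∈ ({e1, e2, e3} : Set (𝓞 K)), 2 ^ p * Ideal.absNorm (Ideal.span {e1, e2, e3}) ≤
      4 * Ideal.absNorm (Ideal.span {a}) := by
  have hodd : Odd p := hp.odd_of_ne_two (by omega)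
  have hr1 : e2 ^ p + e3 ^ p + e1 ^ p = 0 := by linear_combination h
  have hr2 : e3 ^ p + e1 ^ p + e2 ^ p = 0 := by linear_combination h
  have s1 : Ideal.span {e1, e2, e3} = Ideal.span {e2, e3, e1} := span_perm _ _ _
  have s2 : Ideal.span {e1, e2, e3} = Ideal.span {e3, e1, e2} := by rw [s1, span_perm]
  rcases dichotomy' hK hp hp5 h h3 with J3 | J3
  swap
  · exact ⟨e3, by simp, J3.trans (real_norm_le e hf hg hodd h h1 h2 h3)⟩
  rcases dichotomy' hK hp hp5 hr1 h1 with J1 | J1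
  swap
  · refine ⟨e1, by simp, ?_⟩
    rw [s1]
    exact J1.trans (real_norm_le e hf hg hodd hr1 h2 h3 h1)
  rcases dichotomy' hK hp hp5 hr2 h2 with J2 | J2
  swap
  · refine ⟨e2, by simp, ?_⟩
    rw [s2]
    exact J2.trans (real_norm_le e hf hg hodd hr2 h3 h1 h2)
  exfalso
  have ne : ∀ {a : 𝓞 K}, a ≠ 0 → (a : K) ≠ 0 := fun ha h0 => ha (RingOfIntegers.ext h0)
  have F := sign_cases ((map_ne_zero f).mpr (ne h1)) ((map_ne_zero f).mpr (ne h2))
    ((map_ne_zero f).mpr (ne h3))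
  have G := sign_cases ((map_ne_zero g).mpr (ne h1)) ((map_ne_zero g).mpr (ne h2))
    ((map_ne_zero g).mpr (ne h3))
  have e' : Emb ψ φ := ⟨fun x => by rw [e.norm', mul_comm], fun x => by rw [e.trace', add_comm],
    fun χ => (e.all' χ).symm⟩
  rcases F with F | F | F <;> rcases G with G | G | G
  · exact real_same_dom e hf hg hodd h h3 d31 F G J3
  · exact real_diff_dom hK e hf hg hp hp5 h F G J3 (J1.trans s1.symm) (J2.trans s2.symm)
  · -- f : e3 dominant, g : e2 dominant; swap the two embeddings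
    exact real_diff_dom hK e' hg hf hp hp5 hr2 G F J2
      (J3.trans s2) ((J1.trans s1.symm).trans s2)
  · exact real_diff_dom hK e' hg hf hp hp5 h G F J3 (J1.trans s1.symm) (J2.trans s2.symm)
  · exact real_same_dom e hf hg hodd hr1 h1 d12 F G J1
  · exact real_diff_dom hK e hf hg hp hp5 hr1 F G J1 ((J2.trans s2.symm).trans s1)
      (J3.trans s1)
  · exact real_diff_dom hK e hf hg hp hp5 hr2 F G J2
      (J3.trans s2) ((J1.trans s1.symm).trans s2)
  · exact real_diff_dom hK e' hg hf hp hp5 hr1 G F J1 ((J2.trans s2.symm).trans s1)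
      (J3.trans s1)
  · exact real_same_dom e hf hg hodd hr2 h2 d23 F G J2

/-- Imaginary case of the exponential lower bound. -/
lemma imag_exp (hK : Module.finrank ℚ K = 2) {φ ψ : K →ₐ[ℚ] ℂ} (e : Emb φ ψ)
    (hc : ∀ x, ψ x = (starRingEnd ℂ) (φ x)) {p : ℕ}
    (hp : p.Prime) (hp5 : 5 ≤ p) {e1 e2 e3 : 𝓞 K} (h : e1 ^ p + e2 ^ p + e3 ^ p = 0)
    (h1 : e1 ≠ 0) (h2 : e2 ≠ 0) (h3 : e3 ≠ 0) (d12 : ¬ e1 ∣ e2) (d23 : ¬ e2 ∣ e3)
    (d31 : ¬ e3 ∣ e1) :
    ∃ a ∈ ({e1, e2, e3} : Set (𝓞 K)), 2 ^ p * Ideal.absNorm (Ideal.span {e1, e2, e3}) ≤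
      4 * Ideal.absNorm (Ideal.span {a}) := by
  have hodd : Odd p := hp.odd_of_ne_two (by omega)
  have hr1 : e2 ^ p + e3 ^ p + e1 ^ p = 0 := by linear_combination h
  have hr2 : e3 ^ p + e1 ^ p + e2 ^ p = 0 := by linear_combination h
  have s1 : Ideal.span {e1, e2, e3} = Ideal.span {e2, e3, e1} := span_perm _ _ _
  have s2 : Ideal.span {e1, e2, e3} = Ideal.span {e3, e1, e2} := by rw [s1, span_perm]
  -- if `2 ^ p N(I) ≤ N(a + b)` then one of the two summands works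
  have step : ∀ a b : 𝓞 K, a ∈ ({e1, e2, e3} : Set (𝓞 K)) → b ∈ ({e1, e2, e3} : Set (𝓞 K)) →
      2 ^ p * Ideal.absNorm (Ideal.span {e1, e2, e3}) ≤ Ideal.absNorm (Ideal.span {a + b}) →
      ∃ a ∈ ({e1, e2, e3} : Set (𝓞 K)), 2 ^ p * Ideal.absNorm (Ideal.span {e1, e2, e3}) ≤
      4 * Ideal.absNorm (Ideal.span {a}) := by
    intro a b ha hb hab
    have hadd : φ ((a + b : 𝓞 K) : K) = φ (a : K) + φ (b : K) := by simp
    have hN : ((Ideal.absNorm (Ideal.span {a + b}) : ℕ) : ℝ) ≤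
        (‖φ (a : K)‖ + ‖φ (b : K)‖) ^ 2 := by
      rw [absNorm_imag e hc, hadd]
      exact pow_le_pow_left₀ (norm_nonneg _) (norm_add_le _ _) 2
    rcases le_total ‖φ (a : K)‖ ‖φ (b : K)‖ with hle | hle
    · refine ⟨b, hb, hab.trans ?_⟩
      have : ((Ideal.absNorm (Ideal.span {a + b}) : ℕ) : ℝ) ≤
          ((4 * Ideal.absNorm (Ideal.span {b}) : ℕ) : ℝ) := by
        push_cast
        rw [absNorm_imag e hc b]
        nlinarith [norm_nonneg (φ (a : K)), norm_nonneg (φ (b : K))]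
      exact_mod_cast this
    · refine ⟨a, ha, hab.trans ?_⟩
      have : ((Ideal.absNorm (Ideal.span {a + b}) : ℕ) : ℝ) ≤
          ((4 * Ideal.absNorm (Ideal.span {a}) : ℕ) : ℝ) := by
        push_cast
        rw [absNorm_imag e hc a]
        nlinarith [norm_nonneg (φ (a : K)), norm_nonneg (φ (b : K))]
      exact_mod_cast this
  rcases dichotomy' hK hp hp5 h h3 with J3 | J3
  swap
  · exact step e1 e2 (by simp) (by simp) J3
  rcases dichotomy' hK hp hp5 hr1 h1 with J1 | J1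
  swap
  · rw [← s1] at J1; exact step e2 e3 (by simp) (by simp) J1
  rcases dichotomy' hK hp hp5 hr2 h2 with J2 | J2
  swap
  · rw [← s2] at J2; exact step e3 e1 (by simp) (by simp) J2
  exfalso
  rw [← s1] at J1
  rw [← s2] at J2
  set M := Ideal.absNorm (Ideal.span {e1, e2, e3}) with hM
  have hM0 : (0 : ℝ) ≤ (M : ℝ) := Nat.cast_nonneg _
  have n3 : ‖φ (e1 : K) + φ (e2 : K)‖ ^ 2 = M := by
    rw [hM, ← J3, absNorm_imag e hc]; simp
  have n1 : ‖φ (e2 : K) + φ (e3 : K)‖ ^ 2 = M := by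
    rw [hM, ← J1, absNorm_imag e hc]; simp
  have n2 : ‖φ (e3 : K) + φ (e1 : K)‖ ^ 2 = M := by
    rw [hM, ← J2, absNorm_imag e hc]; simp
  have sq : ∀ {x : ℝ}, 0 ≤ x → x ^ 2 = M → x = Real.sqrt M := by
    intro x hx hxM; rw [← hxM, Real.sqrt_sq hx]
  have r3 := sq (norm_nonneg _) n3
  have r1 := sq (norm_nonneg _) n1
  have r2 := sq (norm_nonneg _) n2
  -- each element has norm at most (9/4) M
  have bound : ∀ a b c : ℂ, ‖a + b‖ = Real.sqrt M → ‖b + c‖ = Real.sqrt M →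
      ‖c + a‖ = Real.sqrt M → 4 * ‖a‖ ^ 2 ≤ 9 * M := by
    intro a b c hab hbc hca
    have e0 : 2 * a = (a + b) + (c + a) - (b + c) := by ring
    have h4 : 2 * ‖a‖ ≤ 3 * Real.sqrt M := by
      calc 2 * ‖a‖ = ‖2 * a‖ := by rw [norm_mul]; simp
        _ = ‖(a + b) + (c + a) - (b + c)‖ := by rw [e0]
        _ ≤ ‖(a + b) + (c + a)‖ + ‖b + c‖ := norm_sub_le _ _
        _ ≤ ‖a + b‖ + ‖c + a‖ + ‖b + c‖ := by gcongr; exact norm_add_le _ _
        _ = 3 * Real.sqrt M := by rw [hab, hbc, hca]; ring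
    have h5 : (2 * ‖a‖) ^ 2 ≤ (3 * Real.sqrt M) ^ 2 := pow_le_pow_left₀ (by positivity) h4 2
    have h6 : Real.sqrt M ^ 2 = M := Real.sq_sqrt hM0
    nlinarith
  have b1 := bound _ _ _ r3 r1 r2
  have b2 := bound _ _ _ r1 r2 r3
  have b3 := bound _ _ _ r2 r3 r1
  rw [← absNorm_imag e hc] at b1 b2 b3
  have b1' : 4 * Ideal.absNorm (Ideal.span {e1}) ≤ 9 * M := by exact_mod_cast b1
  have b2' : 4 * Ideal.absNorm (Ideal.span {e2}) ≤ 9 * M := by exact_mod_cast b2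
  have b3' : 4 * Ideal.absNorm (Ideal.span {e3}) ≤ 9 * M := by exact_mod_cast b3
  -- each relative norm equals 2
  have two : ∀ a : 𝓞 K, a ∈ Ideal.span {e1, e2, e3} → 2 * M ≤ Ideal.absNorm (Ideal.span {a}) →
      4 * Ideal.absNorm (Ideal.span {a}) ≤ 9 * M → Ideal.absNorm (Ideal.span {a}) = 2 * M := by
    intro a ha hge hle
    obtain ⟨E, hE⟩ := exists_cofactor ha
    have hNE : Ideal.absNorm (Ideal.span {a}) = M * Ideal.absNorm E := by rw [hE, map_mul]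
    have hM1 : 0 < M := by
      rcases Nat.eq_zero_or_pos M with h0 | h0
      · exfalso
        rw [hM, Ideal.absNorm_eq_zero_iff] at h0
        have : e3 ∈ Ideal.span {e1, e2, e3} := Ideal.subset_span (by simp)
        rw [h0] at this
        exact h3 (by simpa using this)
      · exact h0
    rw [hNE] at hge hle ⊢
    have g1 : 2 ≤ Ideal.absNorm E := by
      by_contra hcon
      push Not at hcon
      have : M * Ideal.absNorm E ≤ M * 1 := Nat.mul_le_mul_left _ (by omega)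
      omega
    have g2 : Ideal.absNorm E ≤ 2 := by
      by_contra hcon
      push Not at hcon
      have : M * 3 ≤ M * Ideal.absNorm E := Nat.mul_le_mul_left _ (by omega)
      omega
    have g3 : Ideal.absNorm E = 2 := le_antisymm g2 g1
    rw [g3, mul_comm]
  have q3 := two e3 (Ideal.subset_span (by simp)) (rel_norm_ge_two (e2 := e2) h3 d31 rfl) b3'
  have q1 := two e1 (Ideal.subset_span (by simp))
    (rel_norm_ge_two (e2 := e3) h1 d12 (by rw [← s1])) b1'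
  have q2 := two e2 (Ideal.subset_span (by simp))
    (rel_norm_ge_two (e2 := e1) h2 d23 (by rw [← s2])) b2'
  have w1 := absNorm_imag e hc e1
  have w2 := absNorm_imag e hc e2
  have w3 := absNorm_imag e hc e3
  rw [q1] at w1
  rw [q2] at w2
  rw [q3] at w3
  have l13 : ‖φ (e1 : K)‖ = ‖φ (e3 : K)‖ :=
    (pow_left_inj₀ (norm_nonneg _) (norm_nonneg _) two_ne_zero).mp (by rw [← w1, ← w3])
  have l23 : ‖φ (e2 : K)‖ = ‖φ (e3 : K)‖ :=
    (pow_left_inj₀ (norm_nonneg _) (norm_nonneg _) two_ne_zero).mp (by rw [← w2, ← w3])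
  -- equilateral
  have hφ3 : φ (e3 : K) ≠ 0 := (map_ne_zero φ).mpr (fun h0 => h3 (RingOfIntegers.ext h0))
  have hφ : φ (e1 : K) ^ p + φ (e2 : K) ^ p + φ (e3 : K) ^ p = 0 := by
    have := congrArg (fun x : 𝓞 K => φ (x : K)) h
    simpa using this
  set α := φ (e1 : K) ^ p / φ (e3 : K) ^ p with hα
  set β := φ (e2 : K) ^ p / φ (e3 : K) ^ p with hβ
  have hp3 : φ (e3 : K) ^ p ≠ 0 := pow_ne_zero p hφ3
  have hsum : α + β = -1 := by
    rw [hα, hβ, ← add_div, div_eq_iff hp3]; linear_combination hφ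
  have nα : ‖α‖ = 1 := by
    rw [hα, norm_div, norm_pow, norm_pow, l13, div_self]
    exact pow_ne_zero p (norm_ne_zero_iff.mpr hφ3)
  have nβ : ‖β‖ = 1 := by
    rw [hβ, norm_div, norm_pow, norm_pow, l23, div_self]
    exact pow_ne_zero p (norm_ne_zero_iff.mpr hφ3)
  have hre := re_of_norm_eq (t := -α) (by
    have : 1 - -α = -β := by linear_combination hsum
    rw [this, norm_neg, norm_neg, nα, nβ])
  have hαc : α * (starRingEnd ℂ) α = 1 := by
    rw [Complex.mul_conj, Complex.normSq_eq_norm_sq, nα]; simp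
  have hquad : α ^ 2 + α + 1 = 0 := by
    have h5 : (starRingEnd ℂ) α = -1 - α := by
      have : -α + (starRingEnd ℂ) (-α) = 1 := hre
      rw [map_neg] at this
      linear_combination -this
    rw [h5] at hαc
    linear_combination -hαc
  have hcube : α ^ 3 = 1 := by linear_combination (α - 1) * hquad
  have hpow : φ (e1 : K) ^ (p * 3) = φ (e3 : K) ^ (p * 3) := by
    rw [hα, div_pow, ← pow_mul, ← pow_mul, div_eq_iff (pow_ne_zero _ hφ3), one_mul] at hcube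
    exact hcube
  have hpow' : e1 ^ (p * 3) = e3 ^ (p * 3) := by
    apply RingOfIntegers.ext
    apply φ.toRingHom.injective
    simpa using hpow
  exact d31 (dvd_of_pow_eq h3 (by omega) hpow')

end

/-- Exponential lower bound in symmetric form. -/
theorem exp_bound (K : Type) [Field K] [NumberField K] (hK : Module.finrank ℚ K = 2) {p : ℕ}
    (hp : p.Prime) (hp5 : 5 ≤ p) {e1 e2 e3 : 𝓞 K} (h : e1 ^ p + e2 ^ p + e3 ^ p = 0)
    (h1 : e1 ≠ 0) (h2 : e2 ≠ 0) (h3 : e3 ≠ 0) (d12 : ¬ e1 ∣ e2) (d23 : ¬ e2 ∣ e3)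
    (d31 : ¬ e3 ∣ e1) :
    ∃ a ∈ ({e1, e2, e3} : Set (𝓞 K)), 2 ^ p * Ideal.absNorm (Ideal.span {e1, e2, e3}) ≤
      4 * Ideal.absNorm (Ideal.span {a}) := by
  obtain ⟨φ, ψ, a1, a2, a3, a4⟩ := two_embeddings K hK
  have e : Emb φ ψ := ⟨a1, a2, a3⟩
  rcases a4 with hc | ⟨hc1, hc2⟩
  · exact imag_exp hK e hc hp hp5 h h1 h2 h3 d12 d23 d31
  · obtain ⟨f, hf⟩ := exists_real hc1
    obtain ⟨g, hg⟩ := exists_real hc2
    exact real_exp hK e hf hg hp hp5 h h1 h2 h3 d12 d23 d31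

end Pool.Agent.Lib.QuadFermat
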