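import Mathlib

set_option autoImplicit false

namespace Pool.Agent.Lib.QuadFermat

open NumberField

/-- Cancel powers of a prime: if `q^n ∣ a * b` and `q^(e+1) ∤ b` then `q^(n-e) ∣ a`. -/
lemma prime_pow_dvd_left {M : Type*} [CommMonoidWithZero M] [IsCancelMulZero M] {q a b : M}
    (hq : Prime q) {n e : ℕ} (h : q ^ n ∣ a * b) (hb : ¬ q ^ (e + 1) ∣ b) : q ^ (n - e) ∣ a := by
  have hfb : FiniteMultiplicity q b := ⟨e, hb⟩
  have hb' : emultiplicity q b ≤ e := by
    have := emultiplicity_lt_iff_not_dvd.mpr hb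
    have h2 : emultiplicity q b < ((e : ℕ) : ℕ∞) + 1 := by exact_mod_cast this
    exact Order.le_of_lt_add_one h2
  have h1 : (n : ℕ∞) ≤ emultiplicity q a + emultiplicity q b := by
    rw [← emultiplicity_mul hq]
    exact le_emultiplicity_of_pow_dvd h
  apply pow_dvd_of_le_emultiplicity
  by_cases ha : emultiplicity q a = ⊤
  · rw [ha]; exact le_top
  · obtain ⟨k, hk⟩ := ENat.ne_top_iff_exists.mp ha
    have hb'' : emultiplicity q b ≠ ⊤ := by
      intro hh; rw [hh] at hb'; exact absurd hb' (by simp)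
    obtain ⟨j, hj⟩ := ENat.ne_top_iff_exists.mp hb''
    rw [← hk, ← hj] at h1
    rw [← hj] at hb'
    rw [← hk]
    have h3 : n ≤ k + j := by exact_mod_cast h1
    have h4 : j ≤ e := by exact_mod_cast hb'
    have : n - e ≤ k := by omega
    exact_mod_cast this

section
variable {R : Type*} [CommRing R]

/-- The cofactor of `e₁ + e₂` in `e₁ ^ p + e₂ ^ p`, written through `t = e₁ + e₂`. -/
def cof (p : ℕ) (t e : R) : R := ∑ m ∈ Finset.range p, (p.choose (m + 1) : R) * t ^ m * (-e) ^ (p - 1 - m)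

lemma cof_mul {p : ℕ} (hp : Odd p) (e1 e2 : R) :
    (e1 + e2) * cof p (e1 + e2) e2 = e1 ^ p + e2 ^ p := by
  have h1 : e1 ^ p = ((e1 + e2) + -e2) ^ p := by ring
  have hp1 : 1 ≤ p := hp.pos
  rw [h1, add_pow, Finset.sum_range_succ', cof, Finset.mul_sum]
  have : (e1 + e2) ^ 0 * (-e2) ^ (p - 0) * (p.choose 0 : R) = - e2 ^ p := by
    simp [hp.neg_pow]
  rw [this, neg_add_cancel_right]
  apply Finset.sum_congr rfl
  intro m hm
  have hm' : m < p := Finset.mem_range.mp hm
  have : p - (m + 1) = p - 1 - m := by omega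
  rw [this]; ring

end

section
variable {R : Type*} [CommRing R] [IsDedekindDomain R]

/-- Main local statement: for a prime ideal `q` dividing `J`, where `(e₁ + e₂) = I J`, a high power
of `q` divides `J`. -/
lemma local_pow_dvd {p : ℕ} (hp : p.Prime) (hp5 : 5 ≤ p) {e1 e2 e3 : R}
    (h : e1 ^ p + e2 ^ p + e3 ^ p = 0) {I J : Ideal R} (hI : I = Ideal.span {e1, e2, e3})
    (hI0 : I ≠ 0)
    (hJ : Ideal.span {e1 + e2} = I * J) {q : Ideal R} (hq : Prime q) (hqJ : q ∣ J)
    {e : ℕ} (he2 : e ≤ 2) (hpe : q ^ e ∣ Ideal.span {(p : R)})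
    (hpe' : ¬ q ^ (e + 1) ∣ Ideal.span {(p : R)}) : q ^ (p - e) ∣ J := by
  have hodd : Odd p := hp.odd_of_ne_two (by omega)
  set t := e1 + e2 with ht
  have he1I : e1 ∈ I := by rw [hI]; exact Ideal.subset_span (by simp)
  have he2I : e2 ∈ I := by rw [hI]; exact Ideal.subset_span (by simp)
  have he3I : e3 ∈ I := by rw [hI]; exact Ideal.subset_span (by simp)
  have htqI : t ∈ q * I := by
    have : Ideal.span {t} ≤ q * I := by
      rw [hJ, mul_comm]
      exact Ideal.mul_mono_left (Ideal.le_of_dvd hqJ)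
    exact this (Ideal.mem_span_singleton_self t)
  -- quotient ideals
  have div : ∀ x ∈ I, ∃ E : Ideal R, Ideal.span {x} = I * E := by
    intro x hx
    have : I ∣ Ideal.span {x} := by
      rw [Ideal.dvd_iff_le, Ideal.span_le]; simpa using hx
    obtain ⟨E, hE⟩ := this
    exact ⟨E, hE⟩
  obtain ⟨E3, hE3⟩ := div e3 he3I
  obtain ⟨E2, hE2⟩ := div e2 he2I
  -- the cofactor
  set Φ := cof p t e2 with hΦ
  have hmul : t * Φ = e1 ^ p + e2 ^ p := cof_mul hodd e1 e2
  have htpow : ∀ m, t ^ m ∈ (q * I) ^ m := fun m => Ideal.pow_mem_pow htqI m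
  have hepow : ∀ m, (-e2) ^ m ∈ I ^ m := fun m => Ideal.pow_mem_pow (I.neg_mem he2I) m
  have hΦI : Φ ∈ I ^ (p - 1) := by
    rw [hΦ, cof]
    apply Ideal.sum_mem
    intro m hm
    have hm' : m < p := Finset.mem_range.mp hm
    rw [mul_assoc]
    apply Ideal.mul_mem_left
    have : I ^ (p - 1) = I ^ m * I ^ (p - 1 - m) := by rw [← pow_add]; congr 1; omega
    rw [this]
    refine Ideal.mul_mem_mul ?_ (hepow _)
    have hqI : q * I ≤ I := Ideal.mul_le_right
    have hle : (q * I) ^ m ≤ I ^ m := pow_le_pow_left' hqI m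
    exact hle (htpow m)
  obtain ⟨F, hF⟩ : ∃ F : Ideal R, Ideal.span {Φ} = I ^ (p - 1) * F := by
    have : I ^ (p - 1) ∣ Ideal.span {Φ} := by
      rw [Ideal.dvd_iff_le, Ideal.span_le]; simpa using hΦI
    exact this
  -- E3 ^ p = J * F
  have hEF : E3 ^ p = J * F := by
    have h1 : Ideal.span {e3 ^ p} = Ideal.span {t} * Ideal.span {Φ} := by
      rw [Ideal.span_singleton_mul_span_singleton, hmul]
      have : e3 ^ p = -(e1 ^ p + e2 ^ p) := by linear_combination h
      rw [this, Ideal.span_singleton_neg]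
    rw [← Ideal.span_singleton_pow, hE3, hJ, hF, mul_pow] at h1
    have h2 : I ^ p * E3 ^ p = I ^ p * (J * F) := by
      rw [h1]
      have : I ^ p = I * I ^ (p - 1) := by rw [← pow_succ']; congr 1; omega
      rw [this]; ring
    have hIp : I ^ p ≠ 0 := pow_ne_zero p hI0
    exact mul_left_cancel₀ hIp h2
  have hqE3 : q ∣ E3 := by
    have : q ∣ E3 ^ p := by rw [hEF]; exact hqJ.mul_right F
    exact hq.dvd_of_dvd_pow this
  have hq_not_unit : q ≠ ⊤ := by
    intro hh; exact hq.not_isUnit (by rw [hh, ← Ideal.one_eq_top]; exact isUnit_one)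
  have he3qI : e3 ∈ q * I := by
    have : Ideal.span {e3} ≤ q * I := by
      rw [hE3, mul_comm]; exact Ideal.mul_mono_left (Ideal.le_of_dvd hqE3)
    exact this (Ideal.mem_span_singleton_self e3)
  have hqE2 : ¬ q ∣ E2 := by
    intro hh
    have he2qI : e2 ∈ q * I := by
      have : Ideal.span {e2} ≤ q * I := by
        rw [hE2, mul_comm]; exact Ideal.mul_mono_left (Ideal.le_of_dvd hh)
      exact this (Ideal.mem_span_singleton_self e2)
    have he1qI : e1 ∈ q * I := by
      have : e1 = t - e2 := by rw [ht]; ring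
      rw [this]; exact (q * I).sub_mem htqI he2qI
    have hle : I ≤ q * I := by
      conv_lhs => rw [hI]
      rw [Ideal.span_le]
      intro x hx
      simp only [Set.mem_insert_iff, Set.mem_singleton_iff] at hx
      rcases hx with rfl | rfl | rfl
      · exact he1qI
      · exact he2qI
      · exact he3qI
    have hdvd : q * I ∣ 1 * I := by rw [one_mul, Ideal.dvd_iff_le]; exact hle
    exact hq.not_isUnit (isUnit_of_dvd_one ((mul_dvd_mul_iff_right hI0).mp hdvd))
  -- key: Φ is not too divisible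
  have key : ¬ q ^ (e + 1) ∣ F := by
    intro hh
    have hΦmem : Φ ∈ q ^ (e + 1) * I ^ (p - 1) := by
      have : Ideal.span {Φ} ≤ q ^ (e + 1) * I ^ (p - 1) := by
        rw [hF, mul_comm]; exact Ideal.mul_mono_left (Ideal.le_of_dvd hh)
      exact this (Ideal.mem_span_singleton_self Φ)
    -- split off the m = 0 term
    have hsplit : Φ = (∑ m ∈ Finset.range (p - 1), (p.choose (m + 1 + 1) : R) * t ^ (m + 1) *
        (-e2) ^ (p - 1 - (m + 1))) + (p : R) * e2 ^ (p - 1) := by
      rw [hΦ, cof]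
      have hpp : p = (p - 1) + 1 := by omega
      conv_lhs => rw [hpp]
      rw [Finset.sum_range_succ']
      have hev : Even (p - 1) := by
        obtain ⟨k, hk⟩ := hodd; exact ⟨k, by omega⟩
      have e1' : p - 1 + 1 = p := by omega
      simp only [e1', zero_add, Nat.choose_one_right, pow_zero, mul_one, Nat.sub_zero, hev.neg_pow]
    have hterm : ∀ m ∈ Finset.range (p - 1), (p.choose (m + 1 + 1) : R) * t ^ (m + 1) *
        (-e2) ^ (p - 1 - (m + 1)) ∈ q ^ (e + 1) * I ^ (p - 1) := by
      intro m hm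
      have hm' : m < p - 1 := Finset.mem_range.mp hm
      rcases Nat.lt_or_ge (m + 2) p with hlt | hge
      · -- binomial coefficient divisible by p
        have hdvd : p ∣ p.choose (m + 1 + 1) := hp.dvd_choose_self (by omega) (by omega)
        obtain ⟨c, hc⟩ := hdvd
        have hx : t ^ (m + 1) * (-e2) ^ (p - 1 - (m + 1)) ∈ q * I ^ (p - 1) := by
          have e2' : q * I ^ (p - 1) = (q * I ^ (m + 1)) * I ^ (p - 1 - (m + 1)) := by
            rw [mul_assoc, ← pow_add]; congr 2; omega
          rw [e2']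
          refine Ideal.mul_mem_mul ?_ (hepow _)
          have := htpow (m + 1)
          rw [mul_pow] at this
          have hle : q ^ (m + 1) * I ^ (m + 1) ≤ q * I ^ (m + 1) := by
            apply Ideal.mul_mono_left
            exact Ideal.pow_le_self (by omega)
          exact hle this
        have hp' : (p : R) ∈ q ^ e := by
          have := Ideal.le_of_dvd hpe
          exact this (Ideal.mem_span_singleton_self _)
        have h5 : (p : R) * (t ^ (m + 1) * (-e2) ^ (p - 1 - (m + 1))) ∈ q ^ e * (q * I ^ (p - 1)) :=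
          Ideal.mul_mem_mul hp' hx
        have h6 : q ^ e * (q * I ^ (p - 1)) = q ^ (e + 1) * I ^ (p - 1) := by ring
        rw [h6] at h5
        have h7 : (p.choose (m + 1 + 1) : R) * t ^ (m + 1) * (-e2) ^ (p - 1 - (m + 1)) =
            c * ((p : R) * (t ^ (m + 1) * (-e2) ^ (p - 1 - (m + 1)))) := by
          rw [hc]; push_cast; ring
        rw [h7]
        exact Ideal.mul_mem_left _ _ h5
      · have hmp : m + 1 = p - 1 := by omega
        rw [hmp]
        have h8 := htpow (p - 1)
        rw [mul_pow] at h8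
        have hle : q ^ (p - 1) * I ^ (p - 1) ≤ q ^ (e + 1) * I ^ (p - 1) := by
          apply Ideal.mul_mono_left
          exact Ideal.pow_le_pow_right (by omega)
        have h9 := hle h8
        simp only [Nat.sub_self, pow_zero, mul_one]
        exact Ideal.mul_mem_left _ _ h9
    have hsum := Ideal.sum_mem _ hterm
    have hpe2 : (p : R) * e2 ^ (p - 1) ∈ q ^ (e + 1) * I ^ (p - 1) := by
      have : (p : R) * e2 ^ (p - 1) = Φ - ∑ m ∈ Finset.range (p - 1), (p.choose (m + 1 + 1) : R) *
        t ^ (m + 1) * (-e2) ^ (p - 1 - (m + 1)) := by rw [hsplit]; ring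
      rw [this]
      exact Ideal.sub_mem _ hΦmem hsum
    have h10 : q ^ (e + 1) * I ^ (p - 1) ∣ Ideal.span {(p : R) * e2 ^ (p - 1)} := by
      rw [Ideal.dvd_iff_le, Ideal.span_le]; simpa using hpe2
    rw [← Ideal.span_singleton_mul_span_singleton, ← Ideal.span_singleton_pow, hE2, mul_pow] at h10
    have h11 : q ^ (e + 1) * I ^ (p - 1) ∣ (Ideal.span {(p : R)} * E2 ^ (p - 1)) * I ^ (p - 1) := by
      have : Ideal.span {(p : R)} * (I ^ (p - 1) * E2 ^ (p - 1)) =
        (Ideal.span {(p : R)} * E2 ^ (p - 1)) * I ^ (p - 1) := by ring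
      rwa [this] at h10
    have h12 := (mul_dvd_mul_iff_right (pow_ne_zero _ hI0)).mp h11
    have h13 : ¬ q ^ (0 + 1) ∣ E2 ^ (p - 1) := by
      rw [zero_add, pow_one]
      intro hh2
      exact hqE2 (hq.dvd_of_dvd_pow hh2)
    have := prime_pow_dvd_left hq h12 h13
    exact hpe' (by simpa using this)
  have h14 : q ^ p ∣ J * F := by
    rw [← hEF]; exact pow_dvd_pow_of_dvd hqE3 p
  exact prime_pow_dvd_left hq h14 key

end

end Pool.Agent.Lib.QuadFermat
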