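import Pool.Agent.Lib.QuadFermatIdeal
import Pool.Agent.Lib.QuadFermatCore

set_option autoImplicit false

namespace Pool.Agent.Lib.QuadFermat

open NumberField

section
variable {K : Type} [Field K] [NumberField K]

lemma absNorm_span_nat (hK : Module.finrank ℚ K = 2) (p : ℕ) :
    Ideal.absNorm (Ideal.span {((p : ℕ) : 𝓞 K)}) = p ^ 2 := by
  rw [Ideal.absNorm_span_singleton]
  have := Algebra.norm_algebraMap (R := ℤ) (S := 𝓞 K) (p : ℤ)
  rw [RingOfIntegers.rank, hK] at this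
  have h2 : (algebraMap ℤ (𝓞 K)) (p : ℤ) = ((p : ℕ) : 𝓞 K) := by simp
  rw [h2] at this
  rw [this, Int.natAbs_pow]; simp

/-- The norm dichotomy: the relative ideal of `e₁ + e₂` is trivial or has norm at least `2 ^ p`. -/
lemma norm_dichotomy (hK : Module.finrank ℚ K = 2) {p : ℕ} (hp : p.Prime) (hp5 : 5 ≤ p)
    {e1 e2 e3 : 𝓞 K} (h : e1 ^ p + e2 ^ p + e3 ^ p = 0) (h3 : e3 ≠ 0)
    {I J : Ideal (𝓞 K)} (hI : I = Ideal.span {e1, e2, e3})
    (hJ : Ideal.span {e1 + e2} = I * J) : J = 1 ∨ 2 ^ p ≤ Ideal.absNorm J := by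
  classical
  have hodd : Odd p := hp.odd_of_ne_two (by omega)
  have ht0 : e1 + e2 ≠ 0 := by
    intro h0
    have h1 := hodd.add_dvd_pow_add_pow e1 e2
    rw [h0, zero_dvd_iff] at h1
    rw [h1, zero_add] at h
    exact h3 (pow_eq_zero_iff hp.ne_zero |>.mp h)
  have hI0 : I ≠ 0 := by
    intro h0
    have : e3 ∈ I := by rw [hI]; exact Ideal.subset_span (by simp)
    rw [h0] at this
    exact h3 (by simpa using this)
  have hIJ : I * J ≠ 0 := by
    rw [← hJ]; simpa using ht0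
  have hJ0 : J ≠ 0 := right_ne_zero_of_mul hIJ
  by_cases hJ1 : J = 1
  · left; exact hJ1
  right
  have hJu : ¬ IsUnit J := by rwa [Ideal.isUnit_iff, ← Ideal.one_eq_top]
  obtain ⟨q, hqi, hqJ⟩ := WfDvdMonoid.exists_irreducible_factor hJu hJ0
  have hq : Prime q := hqi.prime
  have hq0 : Ideal.absNorm q ≠ 0 := by
    rw [Ne, Ideal.absNorm_eq_zero_iff]; exact hq.ne_zero
  have hq1 : Ideal.absNorm q ≠ 1 := by
    rw [Ne, Ideal.absNorm_eq_one_iff, ← Ideal.one_eq_top]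
    intro hh; exact hq.not_isUnit (by rw [hh]; exact isUnit_one)
  have hq2 : 2 ≤ Ideal.absNorm q := by omega
  have hp0 : Ideal.span {((p : ℕ) : 𝓞 K)} ≠ 0 := by
    have : ((p : ℕ) : 𝓞 K) ≠ 0 := by exact_mod_cast hp.ne_zero
    simpa using this
  have hfin : FiniteMultiplicity q (Ideal.span {((p : ℕ) : 𝓞 K)}) :=
    FiniteMultiplicity.of_prime_left hq hp0
  obtain ⟨e, he1, he2⟩ : ∃ e, q ^ e ∣ Ideal.span {((p : ℕ) : 𝓞 K)} ∧
      ¬ q ^ (e + 1) ∣ Ideal.span {((p : ℕ) : 𝓞 K)} :=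
    ⟨multiplicity q _, pow_multiplicity_dvd _ _, hfin.not_pow_dvd_of_multiplicity_lt (Nat.lt_succ_self _)⟩
  have hNdvd : Ideal.absNorm q ^ e ∣ p ^ 2 := by
    rw [← absNorm_span_nat hK p, ← map_pow]
    exact Ideal.absNorm_dvd_absNorm_of_le (Ideal.le_of_dvd he1)
  have hqp : 1 ≤ e → p ≤ Ideal.absNorm q := by
    intro h1
    have hd : Ideal.absNorm q ∣ p ^ 2 := dvd_trans (dvd_pow_self _ (by omega)) hNdvd
    obtain ⟨k, hk, hk2⟩ := (Nat.dvd_prime_pow hp).mp hd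
    have hk0 : k ≠ 0 := by rintro rfl; rw [pow_zero] at hk2; exact hq1 hk2
    rw [hk2]
    calc p = p ^ 1 := (pow_one p).symm
      _ ≤ p ^ k := Nat.pow_le_pow_right hp.pos (by omega)
  have he : e ≤ 2 := by
    by_contra hcon
    have h1 : p ≤ Ideal.absNorm q := hqp (by omega)
    have h2 : p ^ e ≤ Ideal.absNorm q ^ e := Nat.pow_le_pow_left h1 e
    have h3 : Ideal.absNorm q ^ e ≤ p ^ 2 := Nat.le_of_dvd (pow_pos hp.pos 2) hNdvd
    have h4 : p ^ 2 < p ^ e := Nat.pow_lt_pow_right hp.one_lt (by omega)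
    omega
  have hmain := local_pow_dvd hp hp5 h hI hI0 hJ hq hqJ he he1 he2
  have hNJ : Ideal.absNorm q ^ (p - e) ∣ Ideal.absNorm J := by
    rw [← map_pow]
    exact Ideal.absNorm_dvd_absNorm_of_le (Ideal.le_of_dvd hmain)
  have hNJ0 : Ideal.absNorm J ≠ 0 := by rw [Ne, Ideal.absNorm_eq_zero_iff]; exact hJ0
  have hle : Ideal.absNorm q ^ (p - e) ≤ Ideal.absNorm J := Nat.le_of_dvd (Nat.pos_of_ne_zero hNJ0) hNJ
  refine le_trans ?_ hle
  rcases Nat.eq_zero_or_pos e with h0 | h0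
  · subst h0
    exact Nat.pow_le_pow_left hq2 _
  · have h1 := hqp h0
    calc 2 ^ p ≤ 5 ^ (p - 2) := by
          obtain ⟨k, rfl⟩ : ∃ k, p = k + 5 := ⟨p - 5, by omega⟩
          have : k + 5 - 2 = k + 3 := by omega
          rw [this, pow_add, pow_add]
          have : 2 ^ k ≤ 5 ^ k := Nat.pow_le_pow_left (by norm_num) k
          omega
      _ ≤ p ^ (p - 2) := Nat.pow_le_pow_left hp5 _
      _ ≤ p ^ (p - e) := Nat.pow_le_pow_right hp.pos (by omega)
      _ ≤ _ := Nat.pow_le_pow_left h1 _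

end

end Pool.Agent.Lib.QuadFermat
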