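import Pool.Agent.Lib.QuadFermatNorm

set_option autoImplicit false

namespace Pool.Agent.Lib.QuadFermat

open NumberField

section
variable {R : Type*} [CommRing R] [IsDedekindDomain R]

/-- The ideal data attached to `e₁ ^ p + e₂ ^ p = (e₁ + e₂) Φ`, `Φ = cof p (e₁ + e₂) e₂`. -/
lemma prim_setup {p : ℕ} (hp : p.Prime) (hp5 : 5 ≤ p) {e1 e2 e3 : R}
    (h : e1 ^ p + e2 ^ p + e3 ^ p = 0) {I : Ideal R} (hI : I = Ideal.span {e1, e2, e3})
    (hI0 : I ≠ 0) :
    ∃ J F E : Ideal R, Ideal.span {e1 + e2} = I * J ∧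
      Ideal.span {cof p (e1 + e2) e2} = I ^ (p - 1) * F ∧ Ideal.span {e3} = I * E ∧
      E ^ p = J * F ∧
      (∀ q : Ideal R, Prime q → q ∣ J → ∀ e ≤ 2, q ^ e ∣ Ideal.span {(p : R)} →
        ¬ q ^ (e + 1) ∣ Ideal.span {(p : R)} → ¬ q ^ (e + 1) ∣ F) ∧
      (∀ q : Ideal R, Prime q → q ∣ F → q ∣ Ideal.span {(p : R)} → q ∣ J) := by
  have hodd : Odd p := hp.odd_of_ne_two (by omega)
  set t := e1 + e2 with ht
  have he1I : e1 ∈ I := by rw [hI]; exact Ideal.subset_span (by simp)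
  have he2I : e2 ∈ I := by rw [hI]; exact Ideal.subset_span (by simp)
  have he3I : e3 ∈ I := by rw [hI]; exact Ideal.subset_span (by simp)
  have htI : t ∈ I := I.add_mem he1I he2I
  have div : ∀ x ∈ I, ∃ E : Ideal R, Ideal.span {x} = I * E := by
    intro x hx
    have : I ∣ Ideal.span {x} := by
      rw [Ideal.dvd_iff_le, Ideal.span_le]; simpa using hx
    obtain ⟨E, hE⟩ := this
    exact ⟨E, hE⟩
  obtain ⟨E3, hE3⟩ := div e3 he3I
  obtain ⟨E2, hE2⟩ := div e2 he2I
  obtain ⟨J, hJ⟩ := div t htI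
  set Φ := cof p t e2 with hΦ
  have hmul : t * Φ = e1 ^ p + e2 ^ p := cof_mul hodd e1 e2
  have htpow : ∀ m, t ^ m ∈ I ^ m := fun m => Ideal.pow_mem_pow htI m
  have hepow : ∀ m, (-e2) ^ m ∈ I ^ m := fun m => Ideal.pow_mem_pow (I.neg_mem he2I) m
  have hΦI : Φ ∈ I ^ (p - 1) := by
    rw [hΦ, cof]
    apply Ideal.sum_mem
    intro m hm
    have hm' : m < p := Finset.mem_range.mp hm
    rw [mul_assoc]
    apply Ideal.mul_mem_left
    have : I ^ (p - 1) = I ^ m * I ^ (p - 1 - m) := by rw [← pow_add]; congr 1; omega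
    rw [this]
    exact Ideal.mul_mem_mul (htpow _) (hepow _)
  obtain ⟨F, hF⟩ : ∃ F : Ideal R, Ideal.span {Φ} = I ^ (p - 1) * F := by
    have : I ^ (p - 1) ∣ Ideal.span {Φ} := by
      rw [Ideal.dvd_iff_le, Ideal.span_le]; simpa using hΦI
    exact this
  have hEF : E3 ^ p = J * F := by
    have h1 : Ideal.span {e3 ^ p} = Ideal.span {t} * Ideal.span {Φ} := by
      rw [Ideal.span_singleton_mul_span_singleton, hmul]
      have : e3 ^ p = -(e1 ^ p + e2 ^ p) := by linear_combination h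
      rw [this, Ideal.span_singleton_neg]
    rw [← Ideal.span_singleton_pow, hE3, hJ, hF, mul_pow] at h1
    have h2 : I ^ p * E3 ^ p = I ^ p * (J * F) := by
      rw [h1]
      have : I ^ p = I * I ^ (p - 1) := by rw [← pow_succ']; congr 1; omega
      rw [this]; ring
    have hIp : I ^ p ≠ 0 := pow_ne_zero p hI0
    exact mul_left_cancel₀ hIp h2
  refine ⟨J, F, E3, hJ, hF, hE3, hEF, ?_, ?_⟩
  · -- first property
    intro q hq hqJ e he2 hpe hpe'
    have htqI : t ∈ q * I := by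
      have : Ideal.span {t} ≤ q * I := by
        rw [hJ, mul_comm]
        exact Ideal.mul_mono_left (Ideal.le_of_dvd hqJ)
      exact this (Ideal.mem_span_singleton_self t)
    have htpow' : ∀ m, t ^ m ∈ (q * I) ^ m := fun m => Ideal.pow_mem_pow htqI m
    have hqE3 : q ∣ E3 := by
      have : q ∣ E3 ^ p := by rw [hEF]; exact hqJ.mul_right F
      exact hq.dvd_of_dvd_pow this
    have he3qI : e3 ∈ q * I := by
      have : Ideal.span {e3} ≤ q * I := by
        rw [hE3, mul_comm]; exact Ideal.mul_mono_left (Ideal.le_of_dvd hqE3)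
      exact this (Ideal.mem_span_singleton_self e3)
    have hqE2 : ¬ q ∣ E2 := by
      intro hh
      have he2qI : e2 ∈ q * I := by
        have : Ideal.span {e2} ≤ q * I := by
          rw [hE2, mul_comm]; exact Ideal.mul_mono_left (Ideal.le_of_dvd hh)
        exact this (Ideal.mem_span_singleton_self e2)
      have he1qI : e1 ∈ q * I := by
        have : e1 = t - e2 := by rw [ht]; ring
        rw [this]; exact (q * I).sub_mem htqI he2qI
      have hle : I ≤ q * I := by
        conv_lhs => rw [hI]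
        rw [Ideal.span_le]
        intro x hx
        simp only [Set.mem_insert_iff, Set.mem_singleton_iff] at hx
        rcases hx with rfl | rfl | rfl
        · exact he1qI
        · exact he2qI
        · exact he3qI
      have hdvd : q * I ∣ 1 * I := by rw [one_mul, Ideal.dvd_iff_le]; exact hle
      exact hq.not_isUnit (isUnit_of_dvd_one ((mul_dvd_mul_iff_right hI0).mp hdvd))
    intro hh
    have hΦmem : Φ ∈ q ^ (e + 1) * I ^ (p - 1) := by
      have : Ideal.span {Φ} ≤ q ^ (e + 1) * I ^ (p - 1) := by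
        rw [hF, mul_comm]; exact Ideal.mul_mono_left (Ideal.le_of_dvd hh)
      exact this (Ideal.mem_span_singleton_self Φ)
    have hsplit : Φ = (∑ m ∈ Finset.range (p - 1), (p.choose (m + 1 + 1) : R) * t ^ (m + 1) *
        (-e2) ^ (p - 1 - (m + 1))) + (p : R) * e2 ^ (p - 1) := by
      rw [hΦ, cof]
      have hpp : p = (p - 1) + 1 := by omega
      conv_lhs => rw [hpp]
      rw [Finset.sum_range_succ']
      have hev : Even (p - 1) := by
        obtain ⟨k, hk⟩ := hodd; exact ⟨k, by omega⟩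
      have e1' : p - 1 + 1 = p := by omega
      simp only [e1', zero_add, Nat.choose_one_right, pow_zero, mul_one, Nat.sub_zero, hev.neg_pow]
    have hterm : ∀ m ∈ Finset.range (p - 1), (p.choose (m + 1 + 1) : R) * t ^ (m + 1) *
        (-e2) ^ (p - 1 - (m + 1)) ∈ q ^ (e + 1) * I ^ (p - 1) := by
      intro m hm
      have hm' : m < p - 1 := Finset.mem_range.mp hm
      rcases Nat.lt_or_ge (m + 2) p with hlt | hge
      · have hdvd : p ∣ p.choose (m + 1 + 1) := hp.dvd_choose_self (by omega) (by omega)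
        obtain ⟨c, hc⟩ := hdvd
        have hx : t ^ (m + 1) * (-e2) ^ (p - 1 - (m + 1)) ∈ q * I ^ (p - 1) := by
          have e2' : q * I ^ (p - 1) = (q * I ^ (m + 1)) * I ^ (p - 1 - (m + 1)) := by
            rw [mul_assoc, ← pow_add]; congr 2; omega
          rw [e2']
          refine Ideal.mul_mem_mul ?_ (hepow _)
          have := htpow' (m + 1)
          rw [mul_pow] at this
          have hle : q ^ (m + 1) * I ^ (m + 1) ≤ q * I ^ (m + 1) := by
            apply Ideal.mul_mono_left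
            exact Ideal.pow_le_self (by omega)
          exact hle this
        have hp' : (p : R) ∈ q ^ e := by
          have := Ideal.le_of_dvd hpe
          exact this (Ideal.mem_span_singleton_self _)
        have h5 : (p : R) * (t ^ (m + 1) * (-e2) ^ (p - 1 - (m + 1))) ∈ q ^ e * (q * I ^ (p - 1)) :=
          Ideal.mul_mem_mul hp' hx
        have h6 : q ^ e * (q * I ^ (p - 1)) = q ^ (e + 1) * I ^ (p - 1) := by ring
        rw [h6] at h5
        have h7 : (p.choose (m + 1 + 1) : R) * t ^ (m + 1) * (-e2) ^ (p - 1 - (m + 1)) =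
            c * ((p : R) * (t ^ (m + 1) * (-e2) ^ (p - 1 - (m + 1)))) := by
          rw [hc]; push_cast; ring
        rw [h7]
        exact Ideal.mul_mem_left _ _ h5
      · have hmp : m + 1 = p - 1 := by omega
        rw [hmp]
        have h8 := htpow' (p - 1)
        rw [mul_pow] at h8
        have hle : q ^ (p - 1) * I ^ (p - 1) ≤ q ^ (e + 1) * I ^ (p - 1) := by
          apply Ideal.mul_mono_left
          exact Ideal.pow_le_pow_right (by omega)
        have h9 := hle h8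
        simp only [Nat.sub_self, pow_zero, mul_one]
        exact Ideal.mul_mem_left _ _ h9
    have hsum := Ideal.sum_mem _ hterm
    have hpe2 : (p : R) * e2 ^ (p - 1) ∈ q ^ (e + 1) * I ^ (p - 1) := by
      have : (p : R) * e2 ^ (p - 1) = Φ - ∑ m ∈ Finset.range (p - 1), (p.choose (m + 1 + 1) : R) *
        t ^ (m + 1) * (-e2) ^ (p - 1 - (m + 1)) := by rw [hsplit]; ring
      rw [this]
      exact Ideal.sub_mem _ hΦmem hsum
    have h10 : q ^ (e + 1) * I ^ (p - 1) ∣ Ideal.span {(p : R) * e2 ^ (p - 1)} := by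
      rw [Ideal.dvd_iff_le, Ideal.span_le]; simpa using hpe2
    rw [← Ideal.span_singleton_mul_span_singleton, ← Ideal.span_singleton_pow, hE2, mul_pow] at h10
    have h11 : q ^ (e + 1) * I ^ (p - 1) ∣ (Ideal.span {(p : R)} * E2 ^ (p - 1)) * I ^ (p - 1) := by
      have : Ideal.span {(p : R)} * (I ^ (p - 1) * E2 ^ (p - 1)) =
        (Ideal.span {(p : R)} * E2 ^ (p - 1)) * I ^ (p - 1) := by ring
      rwa [this] at h10
    have h12 := (mul_dvd_mul_iff_right (pow_ne_zero _ hI0)).mp h11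
    have h13 : ¬ q ^ (0 + 1) ∣ E2 ^ (p - 1) := by
      rw [zero_add, pow_one]
      intro hh2
      exact hqE2 (hq.dvd_of_dvd_pow hh2)
    have := prime_pow_dvd_left hq h12 h13
    exact hpe' (by simpa using this)
  · -- second property: `Φ ≡ t ^ (p - 1)` modulo `p`
    intro q hq hqF hqp
    have hΦmem : Φ ∈ q * I ^ (p - 1) := by
      have : Ideal.span {Φ} ≤ q * I ^ (p - 1) := by
        rw [hF, mul_comm]; exact Ideal.mul_mono_left (Ideal.le_of_dvd hqF)
      exact this (Ideal.mem_span_singleton_self Φ)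
    have hpq : (p : R) ∈ q := (Ideal.le_of_dvd hqp) (Ideal.mem_span_singleton_self _)
    have hsplit : Φ = (∑ m ∈ Finset.range (p - 1), (p.choose (m + 1) : R) * t ^ m *
        (-e2) ^ (p - 1 - m)) + t ^ (p - 1) := by
      rw [hΦ, cof]
      have hpp : p = (p - 1) + 1 := by omega
      conv_lhs => rw [hpp]
      rw [Finset.sum_range_succ]
      have e1' : p - 1 + 1 = p := by omega
      simp only [e1', Nat.choose_self, Nat.cast_one, one_mul, Nat.sub_self, pow_zero, mul_one]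
    have hterm : ∀ m ∈ Finset.range (p - 1), (p.choose (m + 1) : R) * t ^ m *
        (-e2) ^ (p - 1 - m) ∈ q * I ^ (p - 1) := by
      intro m hm
      have hm' : m < p - 1 := Finset.mem_range.mp hm
      have hdvd : p ∣ p.choose (m + 1) := hp.dvd_choose_self (by omega) (by omega)
      obtain ⟨c, hc⟩ := hdvd
      have hx : t ^ m * (-e2) ^ (p - 1 - m) ∈ I ^ (p - 1) := by
        have e2' : I ^ (p - 1) = I ^ m * I ^ (p - 1 - m) := by
          rw [← pow_add]; congr 1; omega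
        rw [e2']
        exact Ideal.mul_mem_mul (htpow _) (hepow _)
      have h7 : (p.choose (m + 1) : R) * t ^ m * (-e2) ^ (p - 1 - m) =
          c * ((p : R) * (t ^ m * (-e2) ^ (p - 1 - m))) := by
        rw [hc]; push_cast; ring
      rw [h7]
      exact Ideal.mul_mem_left _ _ (Ideal.mul_mem_mul hpq hx)
    have hsum := Ideal.sum_mem _ hterm
    have htp : t ^ (p - 1) ∈ q * I ^ (p - 1) := by
      have : t ^ (p - 1) = Φ - ∑ m ∈ Finset.range (p - 1), (p.choose (m + 1) : R) *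
        t ^ m * (-e2) ^ (p - 1 - m) := by rw [hsplit]; ring
      rw [this]
      exact Ideal.sub_mem _ hΦmem hsum
    have h10 : q * I ^ (p - 1) ∣ Ideal.span {t ^ (p - 1)} := by
      rw [Ideal.dvd_iff_le, Ideal.span_le]; simpa using htp
    rw [← Ideal.span_singleton_pow, hJ, mul_pow, mul_comm (I ^ (p - 1))] at h10
    have h12 := (mul_dvd_mul_iff_right (pow_ne_zero _ hI0)).mp h10
    exact hq.dvd_of_dvd_pow h12

/-- A prime ideal dividing the relative ideal of `e₃` but not that of `e₁ + e₂` gives an element of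
order `p` in the residue field. -/
lemma exists_unit_order {p : ℕ} (hp : p.Prime) (hodd : Odd p) {e1 e2 e3 : R}
    (h : e1 ^ p + e2 ^ p + e3 ^ p = 0) {I J E : Ideal R} (hI0 : I ≠ 0)
    (he1 : e1 ∈ I) (he2 : e2 ∈ I) (he3 : e3 ∈ I)
    (hJ : Ideal.span {e1 + e2} = I * J) (hE : Ideal.span {e3} = I * E)
    {q : Ideal R} (hq : Prime q) (hqE : q ∣ E) (hqJ : ¬ q ∣ J) :
    ∃ u : (R ⧸ q), u ^ p = 1 ∧ u ≠ 1 := by
  have hqp : q.IsPrime := Ideal.isPrime_of_prime hq
  have hqm : q.IsMaximal := hqp.isMaximal hq.ne_zero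
  letI := Ideal.Quotient.field q
  obtain ⟨g, hgI, hgq⟩ : ∃ g ∈ I, g ∉ q * I := by
    by_contra hcon
    push Not at hcon
    have hle : I ≤ q * I := hcon
    have hdvd : q * I ∣ 1 * I := by rw [one_mul, Ideal.dvd_iff_le]; exact hle
    exact hq.not_isUnit (isUnit_of_dvd_one ((mul_dvd_mul_iff_right hI0).mp hdvd))
  obtain ⟨G, hG⟩ : ∃ G, Ideal.span {g} = I * G := by
    have : I ∣ Ideal.span {g} := by
      rw [Ideal.dvd_iff_le, Ideal.span_le]; simpa using hgI
    exact this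
  have hqG : ¬ q ∣ G := by
    intro hh
    apply hgq
    have : Ideal.span {g} ≤ q * I := by
      rw [hG, mul_comm]; exact Ideal.mul_mono_left (Ideal.le_of_dvd hh)
    exact this (Ideal.mem_span_singleton_self g)
  obtain ⟨s, hsG, hsq⟩ : ∃ s ∈ G, s ∉ q := by
    by_contra hcon
    push Not at hcon
    exact hqG (Ideal.dvd_iff_le.mpr hcon)
  have hg0 : g ≠ 0 := by
    rintro rfl; exact hgq (Ideal.zero_mem _)
  have lift : ∀ e ∈ I, ∃ α, s * e = g * α := by
    intro e he
    have h1 : s * e ∈ G * I := Ideal.mul_mem_mul hsG he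
    rw [mul_comm G I, ← hG, Ideal.mem_span_singleton] at h1
    exact h1
  obtain ⟨α1, h1⟩ := lift e1 he1
  obtain ⟨α2, h2⟩ := lift e2 he2
  obtain ⟨α3, h3⟩ := lift e3 he3
  have hsum : α1 ^ p + α2 ^ p + α3 ^ p = 0 := by
    have h4 : g ^ p * (α1 ^ p + α2 ^ p + α3 ^ p) = 0 := by
      have h5 : g ^ p * (α1 ^ p + α2 ^ p + α3 ^ p) = (g * α1) ^ p + (g * α2) ^ p + (g * α3) ^ p := by
        ring
      have h6 : (s * e1) ^ p + (s * e2) ^ p + (s * e3) ^ p = s ^ p * (e1 ^ p + e2 ^ p + e3 ^ p) := by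
        ring
      rw [h5, ← h1, ← h2, ← h3, h6, h, mul_zero]
    exact (mul_eq_zero.mp h4).resolve_left (pow_ne_zero _ hg0)
  have ha3 : α3 ∈ q := by
    have he3q : e3 ∈ q * I := by
      have : Ideal.span {e3} ≤ q * I := by
        rw [hE, mul_comm]; exact Ideal.mul_mono_left (Ideal.le_of_dvd hqE)
      exact this (Ideal.mem_span_singleton_self e3)
    have h7 : s * e3 ∈ G * (q * I) := Ideal.mul_mem_mul hsG he3q
    have e' : G * (q * I) = Ideal.span {g} * q := by rw [hG]; ring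
    rw [e', h3, Ideal.mem_span_singleton_mul] at h7
    obtain ⟨c, hc, hgc⟩ := h7
    have : c = α3 := mul_left_cancel₀ hg0 hgc
    rwa [← this]
  have ha12 : α1 + α2 ∉ q := by
    intro hmem
    have hst : s * (e1 + e2) ∈ q * I := by
      have : s * (e1 + e2) = (α1 + α2) * g := by rw [mul_add, h1, h2]; ring
      rw [this]; exact Ideal.mul_mem_mul hmem hgI
    have h4 : q * I ∣ (Ideal.span {s} * J) * I := by
      have h5 : q * I ∣ Ideal.span {s * (e1 + e2)} := by
        rw [Ideal.dvd_iff_le, Ideal.span_le]; simpa using hst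
      rw [← Ideal.span_singleton_mul_span_singleton, hJ] at h5
      have : Ideal.span {s} * (I * J) = Ideal.span {s} * J * I := by ring
      rwa [this] at h5
    have h6 := (mul_dvd_mul_iff_right hI0).mp h4
    rcases hq.dvd_or_dvd h6 with h7 | h7
    · exact hsq (Ideal.le_of_dvd h7 (Ideal.mem_span_singleton_self s))
    · exact hqJ h7
  set π := Ideal.Quotient.mk q with hπ
  have hs1 : π α1 ^ p + π α2 ^ p = 0 := by
    have := congrArg π hsum
    rw [map_add, map_add, map_pow, map_pow, map_pow, map_zero,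
      Ideal.Quotient.eq_zero_iff_mem.mpr ha3, zero_pow hp.ne_zero, add_zero] at this
    exact this
  have hs2 : π α1 + π α2 ≠ 0 := by
    intro h0
    rw [← map_add] at h0
    exact ha12 (Ideal.Quotient.eq_zero_iff_mem.mp h0)
  have hb : π α2 ≠ 0 := by
    intro h0
    rw [h0, zero_pow hp.ne_zero, add_zero] at hs1
    have h8 : π α1 = 0 := pow_eq_zero_iff hp.ne_zero |>.mp hs1
    apply hs2; rw [h8, h0, add_zero]
  refine ⟨-(π α1) / (π α2), ?_, ?_⟩
  · rw [div_pow, hodd.neg_pow, div_eq_one_iff_eq (pow_ne_zero _ hb)]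
    linear_combination -hs1
  · rw [Ne, div_eq_one_iff_eq hb]
    intro h0
    apply hs2
    rw [← h0]; ring

end

section
variable {K : Type} [Field K] [NumberField K]

lemma absNorm_modEq_one {p : ℕ} (hp : p.Prime) {q : Ideal (𝓞 K)} (hq : Prime q)
    (hu : ∃ u : (𝓞 K ⧸ q), u ^ p = 1 ∧ u ≠ 1) : Ideal.absNorm q ≡ 1 [MOD p] := by
  have hqp : q.IsPrime := Ideal.isPrime_of_prime hq
  have hqm : q.IsMaximal := hqp.isMaximal hq.ne_zero
  letI := Ideal.Quotient.field q
  have hfin : Finite (𝓞 K ⧸ q) := Ideal.finiteQuotientOfFreeOfNeBot q hq.ne_zero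
  letI : Fintype (𝓞 K ⧸ q) := Fintype.ofFinite _
  obtain ⟨u, hu1, hu2⟩ := hu
  have hu0 : u ≠ 0 := by
    rintro rfl; rw [zero_pow hp.ne_zero] at hu1; exact zero_ne_one hu1
  have hord : orderOf (Units.mk0 u hu0) = p := by
    haveI := Fact.mk hp
    apply orderOf_eq_prime
    · ext; simpa using hu1
    · intro h0
      apply hu2
      have := congrArg Units.val h0
      simpa using this
  have hdvd : p ∣ Nat.card (𝓞 K ⧸ q)ˣ := by
    rw [← hord]; exact orderOf_dvd_natCard _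
  rw [Nat.card_units] at hdvd
  have hcard : Ideal.absNorm q = Nat.card (𝓞 K ⧸ q) := by
    rw [Ideal.absNorm_apply, Submodule.cardQuot_apply]
  have hpos : 1 ≤ Nat.card (𝓞 K ⧸ q) := Nat.card_pos
  rw [hcard]
  exact ((Nat.modEq_iff_dvd' hpos).mpr hdvd).symm

/-- The exponent of a prime ideal in `(p)` is at most `2` over a quadratic field. -/
lemma exists_exponent (hK : Module.finrank ℚ K = 2) {p : ℕ} (hp : p.Prime)
    {q : Ideal (𝓞 K)} (hq : Prime q) : ∃ e ≤ 2, q ^ e ∣ Ideal.span {((p : ℕ) : 𝓞 K)} ∧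
      ¬ q ^ (e + 1) ∣ Ideal.span {((p : ℕ) : 𝓞 K)} := by
  have hq0 : Ideal.absNorm q ≠ 0 := by
    rw [Ne, Ideal.absNorm_eq_zero_iff]; exact hq.ne_zero
  have hq1 : Ideal.absNorm q ≠ 1 := by
    rw [Ne, Ideal.absNorm_eq_one_iff, ← Ideal.one_eq_top]
    intro hh; exact hq.not_isUnit (by rw [hh]; exact isUnit_one)
  have hp0 : Ideal.span {((p : ℕ) : 𝓞 K)} ≠ 0 := by
    have : ((p : ℕ) : 𝓞 K) ≠ 0 := by exact_mod_cast hp.ne_zero
    simpa using this
  have hfin : FiniteMultiplicity q (Ideal.span {((p : ℕ) : 𝓞 K)}) :=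
    FiniteMultiplicity.of_prime_left hq hp0
  obtain ⟨e, he1, he2⟩ : ∃ e, q ^ e ∣ Ideal.span {((p : ℕ) : 𝓞 K)} ∧
      ¬ q ^ (e + 1) ∣ Ideal.span {((p : ℕ) : 𝓞 K)} :=
    ⟨multiplicity q _, pow_multiplicity_dvd _ _, hfin.not_pow_dvd_of_multiplicity_lt (Nat.lt_succ_self _)⟩
  refine ⟨e, ?_, he1, he2⟩
  have hNdvd : Ideal.absNorm q ^ e ∣ p ^ 2 := by
    rw [← absNorm_span_nat hK p, ← map_pow]
    exact Ideal.absNorm_dvd_absNorm_of_le (Ideal.le_of_dvd he1)
  have hqp : 1 ≤ e → p ≤ Ideal.absNorm q := by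
    intro h1
    have hd : Ideal.absNorm q ∣ p ^ 2 := dvd_trans (dvd_pow_self _ (by omega)) hNdvd
    obtain ⟨k, hk, hk2⟩ := (Nat.dvd_prime_pow hp).mp hd
    have hk0 : k ≠ 0 := by rintro rfl; rw [pow_zero] at hk2; exact hq1 hk2
    rw [hk2]
    calc p = p ^ 1 := (pow_one p).symm
      _ ≤ p ^ k := Nat.pow_le_pow_right hp.pos (by omega)
  by_contra hcon
  have h1 : p ≤ Ideal.absNorm q := hqp (by omega)
  have h2 : p ^ e ≤ Ideal.absNorm q ^ e := Nat.pow_le_pow_left h1 e
  have h3 : Ideal.absNorm q ^ e ≤ p ^ 2 := Nat.le_of_dvd (pow_pos hp.pos 2) hNdvd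
  have h4 : p ^ 2 < p ^ e := Nat.pow_lt_pow_right hp.one_lt (by omega)
  omega

/-- Factorisation of the cofactor `Φ` of `e₁ + e₂`: `(Φ) = I ^ (p - 1) P b ^ p` with `P ∣ (p)`,
`b I ∣ (e₃)` and all prime ideal factors of `b` of norm `≡ 1 (mod p)`. -/
theorem prim_factor (hK : Module.finrank ℚ K = 2) {p : ℕ} (hp : p.Prime) (hp5 : 5 ≤ p)
    {e1 e2 e3 : 𝓞 K} (h : e1 ^ p + e2 ^ p + e3 ^ p = 0) (h3 : e3 ≠ 0)
    {I : Ideal (𝓞 K)} (hI : I = Ideal.span {e1, e2, e3}) :
    ∃ P b : Ideal (𝓞 K), Ideal.span {cof p (e1 + e2) e2} = I ^ (p - 1) * (P * b ^ p) ∧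
      P ∣ Ideal.span {((p : ℕ) : 𝓞 K)} ∧ b * I ∣ Ideal.span {e3} ∧
      ∀ q : Ideal (𝓞 K), Prime q → q ∣ b → Ideal.absNorm q ≡ 1 [MOD p] := by
  classical
  have hodd : Odd p := hp.odd_of_ne_two (by omega)
  have hI0 : I ≠ 0 := by
    intro h0
    have : e3 ∈ I := by rw [hI]; exact Ideal.subset_span (by simp)
    rw [h0] at this
    exact h3 (by simpa using this)
  have he1I : e1 ∈ I := by rw [hI]; exact Ideal.subset_span (by simp)
  have he2I : e2 ∈ I := by rw [hI]; exact Ideal.subset_span (by simp)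
  have he3I : e3 ∈ I := by rw [hI]; exact Ideal.subset_span (by simp)
  obtain ⟨J, F, E, hJ, hF, hE, hEF, k1, k2⟩ := prim_setup hp hp5 h hI hI0
  have hE0 : E ≠ 0 := by
    rintro rfl
    rw [mul_zero] at hE
    exact h3 (by simpa using hE)
  have hJF0 : J * F ≠ 0 := by rw [← hEF]; exact pow_ne_zero _ hE0
  have hF0 : F ≠ 0 := right_ne_zero_of_mul hJF0
  set P := F ⊔ Ideal.span {((p : ℕ) : 𝓞 K)} with hP
  have hPF : P ∣ F := Ideal.dvd_iff_le.mpr le_sup_left
  have hPp : P ∣ Ideal.span {((p : ℕ) : 𝓞 K)} := Ideal.dvd_iff_le.mpr le_sup_right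
  have hgcd : ∀ D : Ideal (𝓞 K), D ∣ F → D ∣ Ideal.span {((p : ℕ) : 𝓞 K)} → D ∣ P := by
    intro D h1 h2
    exact Ideal.dvd_iff_le.mpr (sup_le (Ideal.le_of_dvd h1) (Ideal.le_of_dvd h2))
  obtain ⟨F', hF'⟩ := hPF
  have hF'0 : F' ≠ 0 := by rintro rfl; rw [mul_zero] at hF'; exact hF0 hF'
  have hP0 : P ≠ 0 := by intro h0; rw [h0, zero_mul] at hF'; exact hF0 hF'
  -- primes dividing `F'` do not divide `p`
  have m1 : ∀ q : Ideal (𝓞 K), Prime q → q ∣ F' → ¬ q ∣ Ideal.span {((p : ℕ) : 𝓞 K)} := by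
    intro q hq hqF' hqp
    have hqF : q ∣ F := by rw [hF']; exact hqF'.mul_left P
    have hqJ := k2 q hq hqF hqp
    obtain ⟨e, he, hp1, hp2⟩ := exists_exponent hK hp hq
    have hne := k1 q hq hqJ e he hp1 hp2
    have hfin : FiniteMultiplicity q F := FiniteMultiplicity.of_prime_left hq hF0
    obtain ⟨f, hf1, hf2⟩ : ∃ f, q ^ f ∣ F ∧ ¬ q ^ (f + 1) ∣ F :=
      ⟨multiplicity q _, pow_multiplicity_dvd _ _,
        hfin.not_pow_dvd_of_multiplicity_lt (Nat.lt_succ_self _)⟩
    have hfe : f ≤ e := by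
      by_contra hcon
      exact hne ((pow_dvd_pow q (by omega : e + 1 ≤ f)).trans hf1)
    have h5 : q ^ f ∣ P := hgcd _ hf1 ((pow_dvd_pow q hfe).trans hp1)
    apply hf2
    rw [hF', pow_succ]
    exact mul_dvd_mul h5 hqF'
  -- primes dividing `F'` do not divide `J`
  have m2 : ∀ q : Ideal (𝓞 K), Prime q → q ∣ F' → ¬ q ∣ J := by
    intro q hq hqF' hqJ
    have hqF : q ∣ F := by rw [hF']; exact hqF'.mul_left P
    have h5 := k1 q hq hqJ 0 (by norm_num) (by simp) (by simpa using m1 q hq hqF')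
    exact h5 (by simpa using hqF)
  have hcop : IsCoprime F' (J * P) := by
    rw [Ideal.isCoprime_iff_sup_eq]
    by_contra hcon
    obtain ⟨M, hM, hle⟩ := Ideal.exists_le_maximal _ hcon
    have hMF : M ∣ F' := Ideal.dvd_iff_le.mpr (le_sup_left.trans hle)
    have hMJ : M ∣ J * P := Ideal.dvd_iff_le.mpr (le_sup_right.trans hle)
    have hM0 : M ≠ 0 := by
      intro h0
      rw [h0] at hMF
      exact hF'0 (zero_dvd_iff.mp hMF)
    have hMp : Prime M := Ideal.prime_of_isPrime hM0 hM.isPrime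
    rcases hMp.dvd_or_dvd hMJ with h5 | h5
    · exact m2 M hMp hMF h5
    · exact m1 M hMp hMF (h5.trans hPp)
  have hprod : F' * (J * P) = E ^ p := by rw [hEF, hF']; ring
  obtain ⟨b, hb⟩ := exists_eq_pow_of_mul_eq_pow_of_coprime hcop hprod
  refine ⟨P, b, ?_, hPp, ?_, ?_⟩
  · rw [hF, hF', hb]
  · have h5 : b ^ p ∣ E ^ p := by
      rw [← hprod, ← hb]; exact dvd_mul_right _ _
    have h6 : b ∣ E := (UniqueFactorizationMonoid.pow_dvd_pow_iff_dvd hp.ne_zero).mp h5
    rw [hE, mul_comm]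
    exact mul_dvd_mul_left I h6
  · intro q hq hqb
    have hqF' : q ∣ F' := by rw [hb]; exact dvd_pow hqb hp.ne_zero
    have hqE : q ∣ E := by
      have : q ∣ E ^ p := by rw [← hprod]; exact hqF'.mul_right _
      exact hq.dvd_of_dvd_pow this
    exact absNorm_modEq_one hp hq
      (exists_unit_order hp hodd h hI0 he1I he2I he3I hJ hE hq hqE (m2 q hq hqF'))

end

end Pool.Agent.Lib.QuadFermat
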