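import Pool.Agent.Lib.QuadFermatPrimSize

set_option autoImplicit false

namespace Pool.Agent.Lib.QuadFermat

open NumberField

lemma sq_le_two_pow {p : ℕ} (h : 11 ≤ p) : p ^ 2 ≤ 2 ^ (p - 2) := by
  obtain ⟨k, rfl⟩ : ∃ k, p = k + 11 := ⟨p - 11, by omega⟩
  have : k + 11 - 2 = k + 9 := by omega
  rw [this]
  induction k with
  | zero => norm_num
  | succ k ih =>
    have h2 := ih (by omega) (by omega)
    have h3 : (k + 1 + 11) ^ 2 ≤ 2 * (k + 11) ^ 2 := by nlinarith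
    calc (k + 1 + 11) ^ 2 ≤ 2 * (k + 11) ^ 2 := h3
      _ ≤ 2 * 2 ^ (k + 9) := by omega
      _ = 2 ^ (k + 1 + 9) := by ring

lemma two_pow_le_of_bounds {p b n M : ℕ} (h11 : 11 ≤ p) (hn : 0 < n)
    (hM : 2 ^ p * n ≤ 4 * M) (h : M ^ (p - 1) ≤ 16 * p ^ 2 * b ^ p * n ^ (p - 1)) :
    2 ^ (p - 4) ≤ b := by
  have h1 : 2 ^ (p - 2) * n ≤ M := by
    have e1 : 2 ^ p = 4 * 2 ^ (p - 2) := by
      obtain ⟨k, rfl⟩ : ∃ k, p = k + 2 := ⟨p - 2, by omega⟩
      simp [pow_add]; ring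
    rw [e1, mul_assoc] at hM
    exact Nat.le_of_mul_le_mul_left hM (by norm_num)
  have h2 : (2 ^ (p - 2)) ^ (p - 1) * n ^ (p - 1) ≤ 16 * p ^ 2 * b ^ p * n ^ (p - 1) := by
    rw [← mul_pow]
    exact (Nat.pow_le_pow_left h1 _).trans h
  have h3 : (2 ^ (p - 2)) ^ (p - 1) ≤ 16 * p ^ 2 * b ^ p :=
    Nat.le_of_mul_le_mul_right h2 (pow_pos hn _)
  have h4 : 16 * p ^ 2 * b ^ p ≤ 2 ^ (p + 2) * b ^ p := by
    apply Nat.mul_le_mul_right
    have h5 := sq_le_two_pow h11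
    calc 16 * p ^ 2 ≤ 16 * 2 ^ (p - 2) := Nat.mul_le_mul_left _ h5
      _ = 2 ^ (p + 2) := by
        obtain ⟨k, rfl⟩ : ∃ k, p = k + 2 := ⟨p - 2, by omega⟩
        simp [pow_add]; ring
  have h6 : (2 ^ (p - 2)) ^ (p - 1) = 2 ^ (p + 2) * (2 ^ (p - 4)) ^ p := by
    rw [← pow_mul, ← pow_mul, ← pow_add]
    congr 1
    obtain ⟨k, rfl⟩ : ∃ k, p = k + 4 := ⟨p - 4, by omega⟩
    have a1 : k + 4 - 2 = k + 2 := by omega
    have a2 : k + 4 - 1 = k + 3 := by omega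
    have a3 : k + 4 - 4 = k := by omega
    rw [a1, a2, a3]; ring
  rw [h6] at h3
  have h7 : (2 ^ (p - 4)) ^ p ≤ b ^ p :=
    Nat.le_of_mul_le_mul_left (h3.trans h4) (by positivity)
  exact (Nat.pow_le_pow_iff_left (by omega)).mp h7

section
variable {K : Type} [Field K] [NumberField K]

/-- Main statement for one member `e₃` of a solution. -/
theorem prim_core (hK : Module.finrank ℚ K = 2) {p : ℕ} (hp : p.Prime) (h11 : 11 ≤ p)
    {e1 e2 e3 : 𝓞 K} (h : e1 ^ p + e2 ^ p + e3 ^ p = 0) (h1 : e1 ≠ 0) (h2 : e2 ≠ 0) (h3 : e3 ≠ 0)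
    (d12 : ¬ e1 ∣ e2) (d23 : ¬ e2 ∣ e3) (d31 : ¬ e3 ∣ e1)
    {I : Ideal (𝓞 K)} (hI : I = Ideal.span {e1, e2, e3}) :
    ∃ b : Ideal (𝓞 K), b * I ∣ Ideal.span {e3} ∧
      (∀ q : Ideal (𝓞 K), Prime q → q ∣ b → Ideal.absNorm q ≡ 1 [MOD p]) ∧
      ((Nonempty (K →+* ℝ) ∨
        Ideal.absNorm (Ideal.span {e1}) ≤ Ideal.absNorm (Ideal.span {e3}) ∨
        Ideal.absNorm (Ideal.span {e2}) ≤ Ideal.absNorm (Ideal.span {e3})) →
        2 ^ (p - 4) ≤ Ideal.absNorm b ∧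
        ∀ a ∈ ({e1, e2, e3} : Set (𝓞 K)), Ideal.absNorm (Ideal.span {a}) ^ (p - 1) ≤
          16 * p ^ 2 * Ideal.absNorm b ^ p * Ideal.absNorm I ^ (p - 1)) ∧
      (b = 1 → Algebra.norm ℤ e1 = Algebra.norm ℤ e2 ∨
        Algebra.norm ℤ e1 = - Algebra.norm ℤ e2) := by
  have hodd : Odd p := hp.odd_of_ne_two (by omega)
  have he1I : e1 ∈ I := by rw [hI]; exact Ideal.subset_span (by simp)
  have he2I : e2 ∈ I := by rw [hI]; exact Ideal.subset_span (by simp)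
  have he3I : e3 ∈ I := by rw [hI]; exact Ideal.subset_span (by simp)
  have hI0 : I ≠ 0 := by
    intro h0
    rw [h0] at he3I
    exact h3 (by simpa using he3I)
  have hn0 : Ideal.absNorm I ≠ 0 := by rw [Ne, Ideal.absNorm_eq_zero_iff]; exact hI0
  obtain ⟨P, b, hΦI, hPp, hbI, hbq⟩ := prim_factor hK hp (by omega) h h3 hI
  have hmul : (e1 + e2) * cof p (e1 + e2) e2 = e1 ^ p + e2 ^ p := cof_mul hodd e1 e2
  set Φ := cof p (e1 + e2) e2 with hΦ
  have hPN : Ideal.absNorm P ∣ p ^ 2 := by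
    rw [← absNorm_span_nat hK p]
    exact Ideal.absNorm_dvd_absNorm_of_le (Ideal.le_of_dvd hPp)
  have hNΦ : Ideal.absNorm (Ideal.span {Φ}) =
      Ideal.absNorm I ^ (p - 1) * (Ideal.absNorm P * Ideal.absNorm b ^ p) := by
    rw [hΦI, map_mul, map_mul, map_pow, map_pow]
  refine ⟨b, hbI, hbq, ?_, ?_⟩
  · intro hcase
    have hs := size_bound hK hp (by omega) h h1 h2 h3 hcase
    rw [← hΦ] at hs
    have hs' : ∀ a ∈ ({e1, e2, e3} : Set (𝓞 K)), Ideal.absNorm (Ideal.span {a}) ^ (p - 1) ≤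
          16 * p ^ 2 * Ideal.absNorm b ^ p * Ideal.absNorm I ^ (p - 1) := by
      intro a ha
      refine (hs a ha).trans ?_
      rw [hNΦ]
      have hP2 : Ideal.absNorm P ≤ p ^ 2 := Nat.le_of_dvd (pow_pos hp.pos 2) hPN
      calc 16 * (Ideal.absNorm I ^ (p - 1) * (Ideal.absNorm P * Ideal.absNorm b ^ p))
          ≤ 16 * (Ideal.absNorm I ^ (p - 1) * (p ^ 2 * Ideal.absNorm b ^ p)) := by gcongr
        _ = 16 * p ^ 2 * Ideal.absNorm b ^ p * Ideal.absNorm I ^ (p - 1) := by ring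
    refine ⟨?_, hs'⟩
    obtain ⟨a, ha, hle⟩ := exp_bound K hK hp (by omega) h h1 h2 h3 d12 d23 d31
    rw [← hI] at hle
    exact two_pow_le_of_bounds h11 (Nat.pos_of_ne_zero hn0) hle (hs' a ha)
  · intro hb
    have hsum0 : e1 + e2 ≠ 0 := by
      intro h0
      rw [h0, zero_mul] at hmul
      have : e3 ^ p = 0 := by linear_combination h + hmul
      exact h3 (pow_eq_zero_iff hp.ne_zero |>.mp this)
    set n : ℤ := (Ideal.absNorm I : ℤ) with hn
    have hn0' : n ≠ 0 := by rw [hn]; exact_mod_cast hn0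
    obtain ⟨A, hA⟩ : n ∣ Algebra.norm ℤ e1 := Ideal.absNorm_dvd_norm_of_mem he1I
    obtain ⟨B, hB⟩ : n ∣ Algebra.norm ℤ e2 := Ideal.absNorm_dvd_norm_of_mem he2I
    obtain ⟨C, hC⟩ : n ∣ Algebra.norm ℤ (e1 + e2) :=
      Ideal.absNorm_dvd_norm_of_mem (I.add_mem he1I he2I)
    have hA0 : A ≠ 0 := by
      rintro rfl; rw [mul_zero] at hA; exact norm_ne_zero' h1 hA
    have hB0 : B ≠ 0 := by
      rintro rfl; rw [mul_zero] at hB; exact norm_ne_zero' h2 hB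
    -- the norm of `Φ`
    have hNabs : (Algebra.norm ℤ Φ).natAbs = Ideal.absNorm I ^ (p - 1) * Ideal.absNorm P := by
      rw [← Ideal.absNorm_span_singleton, hNΦ, hb]
      simp
    obtain ⟨N, hN⟩ : n ^ (p - 1) ∣ Algebra.norm ℤ Φ := by
      rw [← Int.natAbs_dvd_natAbs, Int.natAbs_pow, hNabs, hn, Int.natAbs_natCast]
      exact dvd_mul_right _ _
    have hNP : N.natAbs = Ideal.absNorm P := by
      rw [hN, Int.natAbs_mul, Int.natAbs_pow, hn, Int.natAbs_natCast] at hNabs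
      exact Nat.eq_of_mul_eq_mul_left (pow_pos (Nat.pos_of_ne_zero hn0) _) hNabs
    have hNdvd : N ∣ (p : ℤ) ^ 2 := by
      rw [← Int.natAbs_dvd_natAbs, hNP, Int.natAbs_pow, Int.natAbs_natCast]
      exact hPN
    obtain ⟨φ, ψ, a1, a2, a3, _⟩ := two_embeddings K hK
    have e : Emb φ ψ := ⟨a1, a2, a3⟩
    have hAB := cyc_main (T := C - A - B) hp (by omega) hA0 hB0 hNdvd (by
      intro ζ hζ
      have hcof : ∀ χ : K →ₐ[ℚ] ℂ, ∏ j ∈ Finset.range (p - 1),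
          (χ (e1 : K) + ζ ^ (j + 1) * χ (e2 : K)) = χ (Φ : K) := by
        intro χ
        have b1 := prod_range_eq hp hodd hζ (χ (e1 : K)) (χ (e2 : K))
        have b2 : (χ (e1 : K) + χ (e2 : K)) * χ (Φ : K) = χ (e1 : K) ^ p + χ (e2 : K) ^ p := by
          have := congrArg (fun x : 𝓞 K => χ (x : K)) hmul; simpa using this
        have b3 : χ (e1 : K) + χ (e2 : K) ≠ 0 := by
          have : χ (((e1 + e2 : 𝓞 K)) : K) ≠ 0 :=
            (map_ne_zero χ).mpr (fun h0 => hsum0 (RingOfIntegers.ext h0))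
          simpa using this
        exact mul_left_cancel₀ b3 (b1.trans b2.symm)
      have c1 : (n : ℂ) * A = φ (e1 : K) * ψ (e1 : K) := by
        rw [← e.normZ, hA]; push_cast; ring
      have c2 : (n : ℂ) * B = φ (e2 : K) * ψ (e2 : K) := by
        rw [← e.normZ, hB]; push_cast; ring
      have c3 : (n : ℂ) * C = (φ (e1 : K) + φ (e2 : K)) * (ψ (e1 : K) + ψ (e2 : K)) := by
        have := e.normZ (e1 + e2)
        rw [hC] at this
        push_cast at this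
        rw [this]; simp
      have c4 : (n : ℂ) ^ (p - 1) * N = φ (Φ : K) * ψ (Φ : K) := by
        rw [← e.normZ, hN]; push_cast; ring
      have hnC : (n : ℂ) ≠ 0 := by exact_mod_cast hn0'
      apply mul_left_cancel₀ (pow_ne_zero (p - 1) hnC)
      rw [c4, ← hcof φ, ← hcof ψ, ← Finset.prod_mul_distrib]
      have c5 : (n : ℂ) ^ (p - 1) = ∏ _j ∈ Finset.range (p - 1), (n : ℂ) := by simp
      rw [c5, ← Finset.prod_mul_distrib]
      apply Finset.prod_congr rfl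
      intro j _
      push_cast
      linear_combination (1 - ζ ^ (j + 1)) * c1 + ((ζ ^ (j + 1)) ^ 2 - ζ ^ (j + 1)) * c2 +
        ζ ^ (j + 1) * c3)
    rw [hA, hB]
    rcases hAB with h4 | h4
    · left; rw [h4]
    · right; rw [h4]; ring

/-- A quadratic field contains no nontrivial `p`-th root of unity, `p ≥ 5` prime. -/
lemma eq_one_of_pow_prime (hK : Module.finrank ℚ K = 2) {p : ℕ} (hp : p.Prime) (hp5 : 5 ≤ p)
    {x : K} (hx : x ^ p = 1) : x = 1 := by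
  by_contra hne
  have : Fact p.Prime := ⟨hp⟩
  have hord : orderOf x = p := orderOf_eq_prime hx hne
  have hprim : IsPrimitiveRoot x p := by rw [← hord]; exact IsPrimitiveRoot.orderOf x
  have h1 := Polynomial.cyclotomic_eq_minpoly_rat hprim hp.pos
  have h2 := minpoly.natDegree_le (A := ℚ) x
  rw [← h1, Polynomial.natDegree_cyclotomic, Nat.totient_prime hp, hK] at h2
  omega

/-- The nontrivial automorphism of a quadratic field. -/
lemma exists_conj {φ ψ : K →ₐ[ℚ] ℂ} (e : Emb φ ψ) :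
    ∃ σ : K ≃ₐ[ℚ] K, ∀ x, φ (σ x) = ψ x := by
  have hinj : Function.Injective φ := φ.toRingHom.injective
  have hσ : ∀ x : K, φ (algebraMap ℚ K (Algebra.trace ℚ K x) - x) = ψ x := by
    intro x
    have h1 := e.trace' x
    rw [map_sub, AlgHom.commutes]
    have h2 : (algebraMap ℚ ℂ) (Algebra.trace ℚ K x) = ((Algebra.trace ℚ K x : ℚ) : ℂ) := rfl
    rw [h2, h1]; ring
  let s : K →+* K :=
    { toFun := fun x => algebraMap ℚ K (Algebra.trace ℚ K x) - x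
      map_one' := hinj (by rw [hσ, map_one, map_one])
      map_mul' := fun x y => hinj (by rw [hσ, map_mul, map_mul, hσ, hσ])
      map_zero' := hinj (by rw [hσ, map_zero, map_zero])
      map_add' := fun x y => hinj (by rw [hσ, map_add, map_add, hσ, hσ]) }
  let s' : K →ₐ[ℚ] K := s.toRatAlgHom
  have hs : ∀ x, φ (s' x) = ψ x := hσ
  exact ⟨AlgEquiv.ofBijective s' (s'.bijective), fun x => hs x⟩

/-- Over an imaginary quadratic field, equality of the norms of `e₁` and `e₂` means that `e₁ / e₃`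
and `e₂ / e₃` are conjugate. -/
theorem conj_of_norm_eq (hK : Module.finrank ℚ K = 2) {p : ℕ} (hp : p.Prime) (hp5 : 5 ≤ p)
    (hr : ¬ Nonempty (K →+* ℝ)) {e1 e2 e3 : 𝓞 K} (h : e1 ^ p + e2 ^ p + e3 ^ p = 0)
    (h2 : e2 ≠ 0) (h3 : e3 ≠ 0)
    (hN : Algebra.norm ℤ e1 = Algebra.norm ℤ e2 ∨ Algebra.norm ℤ e1 = - Algebra.norm ℤ e2) :
    ∃ σ : K ≃ₐ[ℚ] K, σ ((e1 : K) / (e3 : K)) = (e2 : K) / (e3 : K) := by
  obtain ⟨φ, ψ, a1, a2, a3, a4⟩ := two_embeddings K hK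
  have e : Emb φ ψ := ⟨a1, a2, a3⟩
  have hc : ∀ x, ψ x = (starRingEnd ℂ) (φ x) := by
    rcases a4 with hc | ⟨hc1, _⟩
    · exact hc
    · obtain ⟨f, _⟩ := exists_real hc1
      exact absurd ⟨f⟩ hr
  obtain ⟨σ, hσ⟩ := exists_conj e
  have ne : ∀ {a : 𝓞 K}, a ≠ 0 → (a : K) ≠ 0 := fun ha h0 => ha (RingOfIntegers.ext h0)
  have hn12 : ‖φ (e1 : K)‖ = ‖φ (e2 : K)‖ := by
    have b1 := imag_norm e hc e1
    have b2 := imag_norm e hc e2
    have hsq : ‖φ (e1 : K)‖ ^ 2 = ‖φ (e2 : K)‖ ^ 2 := by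
      rcases hN with h4 | h4
      · rw [← b1, ← b2, h4]
      · have h5 : ((Algebra.norm ℤ e1 : ℤ) : ℝ) = -((Algebra.norm ℤ e2 : ℤ) : ℝ) := by
          rw [h4]; push_cast; ring
        rw [b1, b2] at h5
        nlinarith [sq_nonneg ‖φ (e1 : K)‖, sq_nonneg ‖φ (e2 : K)‖]
    exact (pow_left_inj₀ (norm_nonneg _) (norm_nonneg _) two_ne_zero).mp hsq
  have hφ3 : φ (e3 : K) ≠ 0 := (map_ne_zero φ).mpr (ne h3)
  have hφ : φ (e1 : K) ^ p + φ (e2 : K) ^ p + φ (e3 : K) ^ p = 0 := by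
    have := congrArg (fun x : 𝓞 K => φ (x : K)) h
    simpa using this
  set α := φ (e1 : K) ^ p / φ (e3 : K) ^ p with hα
  set β := φ (e2 : K) ^ p / φ (e3 : K) ^ p with hβ
  have hp3 : φ (e3 : K) ^ p ≠ 0 := pow_ne_zero p hφ3
  have hsum : α + β = -1 := by
    rw [hα, hβ, ← add_div, div_eq_iff hp3]; linear_combination hφ
  have nαβ : ‖α‖ = ‖β‖ := by
    rw [hα, hβ, norm_div, norm_div, norm_pow, norm_pow, hn12, norm_pow]
  have hre := re_of_norm_eq (t := -α) (by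
    have : 1 - -α = -β := by linear_combination hsum
    rw [this, norm_neg, norm_neg, nαβ])
  have hconj : (starRingEnd ℂ) α = β := by
    have h5 : (starRingEnd ℂ) α = -1 - α := by
      have : -α + (starRingEnd ℂ) (-α) = 1 := hre
      rw [map_neg] at this
      linear_combination -this
    rw [h5]; linear_combination -hsum
  set r := (e1 : K) / (e3 : K) with hr'
  set s := (e2 : K) / (e3 : K) with hs'
  have hs0 : s ≠ 0 := div_ne_zero (ne h2) (ne h3)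
  have hrs : (σ r) ^ p = s ^ p := by
    apply φ.toRingHom.injective
    show φ ((σ r) ^ p) = φ (s ^ p)
    have c1 : φ r ^ p = α := by rw [hr', map_div₀, div_pow, hα]
    have c2 : φ s ^ p = β := by rw [hs', map_div₀, div_pow, hβ]
    rw [map_pow, hσ, hc, ← map_pow (starRingEnd ℂ), c1, map_pow, c2, hconj]
  have h6 : (σ r / s) ^ p = 1 := by
    rw [div_pow, hrs, div_self (pow_ne_zero _ hs0)]
  have h7 := eq_one_of_pow_prime hK hp hp5 h6
  exact ⟨σ, (div_eq_one_iff_eq hs0).mp h7⟩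

end

end Pool.Agent.Lib.QuadFermat
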