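import Pool.Agent.Lib.QuadFermatPrim
import Pool.Agent.Lib.QuadFermatCyc
import Pool.Agent.Lib.QuadFermatExp

set_option autoImplicit false

namespace Pool.Agent.Lib.QuadFermat

open NumberField

/-! ### Product formula -/

lemma prod_range_eq {ζ : ℂ} {p : ℕ} (hp : p.Prime) (hodd : Odd p) (hζ : IsPrimitiveRoot ζ p)
    (x y : ℂ) :
    (x + y) * ∏ j ∈ Finset.range (p - 1), (x + ζ ^ (j + 1) * y) = x ^ p + y ^ p := by
  have : NeZero p := ⟨hp.ne_zero⟩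
  rw [hζ.pow_add_pow_eq_prod_add_mul x y hodd]
  have h1 : ∏ η ∈ Polynomial.nthRootsFinset p (1:ℂ), (x + η * y) =
      ∏ j ∈ Finset.range p, (x + ζ ^ j * y) := by
    symm
    refine Finset.prod_nbij (fun j => ζ ^ j) ?_ ?_ ?_ ?_
    · intro j _
      rw [Polynomial.mem_nthRootsFinset hp.pos, ← pow_mul, mul_comm, pow_mul, hζ.pow_eq_one, one_pow]
    · intro i hi j hj hij
      exact hζ.pow_inj (by simpa using hi) (by simpa using hj) hij
    · intro η hη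
      obtain ⟨i, hi, h⟩ := hζ.eq_pow_of_pow_eq_one ((Polynomial.mem_nthRootsFinset hp.pos _).mp hη)
      exact ⟨i, by simpa using hi, h⟩
    · intro j _; rfl
  rw [h1]
  have hp1 : p = (p - 1) + 1 := by have := hp.pos; omega
  conv_rhs => rw [hp1]
  rw [Finset.prod_range_succ', pow_zero, one_mul, mul_comm]

/-! ### Size estimates -/

lemma real_cof_pos {u v w Φ : ℝ} {p : ℕ} (hodd : Odd p) (h : u ^ p + v ^ p + w ^ p = 0)
    (hΦ : (u + v) * Φ = u ^ p + v ^ p) (hv : 0 < v) (hw : 0 < w) :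
    |u| ^ (p - 1) ≤ |Φ| := by
  have hp0 : p ≠ 0 := by rintro rfl; simp at hodd
  have hp1 : p = (p - 1) + 1 := by omega
  have hd := (dom_pos hodd (u := v) (v := w) (w := u) (by linarith) hv hw).1
  rw [abs_of_pos hv] at hd
  have hwp : 0 < w ^ p := pow_pos hw p
  have hvp : 0 < v ^ p := pow_pos hv p
  have hu : u < 0 := by
    by_contra hcon
    push Not at hcon
    have : 0 ≤ u ^ p := pow_nonneg hcon p
    linarith
  have hau : |u| = -u := abs_of_neg hu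
  have hap : |u| ^ p = v ^ p + w ^ p := by
    rw [hau, hodd.neg_pow]; linarith
  have hpos : 0 < |u| - v := by
    rcases hd.lt_or_eq with h1 | h1
    · linarith
    · rw [← h1] at hap; linarith
  have hΦ' : (|u| - v) * Φ = w ^ p := by
    rw [hau]; linear_combination -hΦ - h
  have hΦpos : 0 < Φ := by
    by_contra hcon
    push Not at hcon
    have : (|u| - v) * Φ ≤ 0 := mul_nonpos_of_nonneg_of_nonpos hpos.le hcon
    linarith
  rw [abs_of_pos hΦpos]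
  have h5 : v ^ p ≤ v * |u| ^ (p - 1) := by
    have e1 : v ^ p = v * v ^ (p - 1) := by rw [← pow_succ']; congr 1
    rw [e1]
    exact mul_le_mul_of_nonneg_left (pow_le_pow_left₀ hv.le hd _) hv.le
  have h6 : (|u| - v) * |u| ^ (p - 1) ≤ (|u| - v) * Φ := by
    rw [hΦ']
    have e1 : |u| ^ p = |u| * |u| ^ (p - 1) := by rw [← pow_succ']; congr 1
    nlinarith
  exact le_of_mul_le_mul_left h6 hpos

lemma real_cof_side {u v w Φ : ℝ} {p : ℕ} (hodd : Odd p) (h : u ^ p + v ^ p + w ^ p = 0)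
    (hΦ : (u + v) * Φ = u ^ p + v ^ p) (hvw : 0 < v * w) :
    |u| ^ (p - 1) ≤ |Φ| := by
  rcases mul_pos_iff.mp hvw with ⟨hv, hw⟩ | ⟨hv, hw⟩
  · exact real_cof_pos hodd h hΦ hv hw
  · have := real_cof_pos (u := -u) (v := -v) (w := -w) (Φ := Φ) hodd
      (by rw [hodd.neg_pow, hodd.neg_pow, hodd.neg_pow]; linarith)
      (by rw [hodd.neg_pow, hodd.neg_pow]; linear_combination -hΦ) (by linarith) (by linarith)
    rwa [abs_neg] at this

lemma real_cof {u v w Φ : ℝ} {p : ℕ} (hodd : Odd p) (h : u ^ p + v ^ p + w ^ p = 0)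
    (hΦ : (u + v) * Φ = u ^ p + v ^ p) (hu : u ≠ 0) (hv : v ≠ 0) (hw : w ≠ 0) :
    |u| ^ (p - 1) ≤ 2 * |Φ| ∧ |v| ^ (p - 1) ≤ 2 * |Φ| ∧ |w| ^ (p - 1) ≤ 2 * |Φ| := by
  have hp0 : p ≠ 0 := by rintro rfl; simp at hodd
  have mono : ∀ {a b : ℝ}, |a| ≤ |b| → |b| ^ (p - 1) ≤ 2 * |Φ| → |a| ^ (p - 1) ≤ 2 * |Φ| :=
    fun hab hb => (pow_le_pow_left₀ (abs_nonneg _) hab _).trans hb
  have hΦ0 := abs_nonneg Φ
  rcases sign_cases hu hv hw with h1 | h1 | h1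
  · have hd := dom hodd h h1
    have hE : |w| * |w| ^ (p - 1) = |u + v| * |Φ| := by
      rw [← pow_succ', ← abs_mul, hΦ]
      have e1 : p - 1 + 1 = p := by omega
      rw [e1, ← abs_pow]
      have : u ^ p + v ^ p = -(w ^ p) := by linarith
      rw [this, abs_neg]
    have h2 : |u + v| ≤ 2 * |w| := by
      have := abs_add_le u v
      linarith [hd.1, hd.2.1]
    have hwpos : 0 < |w| := abs_pos.mpr hw
    have h3 : |w| ^ (p - 1) ≤ 2 * |Φ| := by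
      have h4 : |w| * |w| ^ (p - 1) ≤ |w| * (2 * |Φ|) := by
        rw [hE]; nlinarith
      exact le_of_mul_le_mul_left h4 hwpos
    exact ⟨mono hd.1 h3, mono hd.2.1 h3, h3⟩
  · have hd := dom hodd (u := v) (v := w) (w := u) (by linarith) h1
    have h3 : |u| ^ (p - 1) ≤ 2 * |Φ| := by
      have := real_cof_side hodd h hΦ h1
      linarith
    exact ⟨h3, mono hd.1 h3, mono hd.2.1 h3⟩
  · have hd := dom hodd (u := w) (v := u) (w := v) (by linarith) h1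
    have h3 : |v| ^ (p - 1) ≤ 2 * |Φ| := by
      have := real_cof_side (u := v) (v := u) (w := w) (Φ := Φ) hodd (by linarith)
        (by linear_combination hΦ) (by linarith [mul_comm w u])
      linarith
    exact ⟨mono hd.2.1 h3, h3, mono hd.1 h3⟩

lemma imag_cof_aux {u v w Φ : ℂ} {p : ℕ} (hp : p ≠ 0) (h : u ^ p + v ^ p + w ^ p = 0)
    (hΦ : (u + v) * Φ = u ^ p + v ^ p) (hw : w ≠ 0) (hle : ‖u‖ ≤ ‖w‖) :
    ‖u‖ ^ (p - 1) ≤ 4 * ‖Φ‖ ∧ ‖v‖ ^ (p - 1) ≤ 4 * ‖Φ‖ ∧ ‖w‖ ^ (p - 1) ≤ 4 * ‖Φ‖ := by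
  have mono : ∀ {a b : ℂ}, ‖a‖ ≤ ‖b‖ → ‖b‖ ^ (p - 1) ≤ 4 * ‖Φ‖ → ‖a‖ ^ (p - 1) ≤ 4 * ‖Φ‖ :=
    fun hab hb => (pow_le_pow_left₀ (norm_nonneg _) hab _).trans hb
  have hΦ0 := norm_nonneg Φ
  have e1 : p - 1 + 1 = p := by omega
  have hE : ‖w‖ ^ p = ‖u + v‖ * ‖Φ‖ := by
    rw [← norm_mul, hΦ, ← norm_pow]
    have : u ^ p + v ^ p = -(w ^ p) := by linear_combination h
    rw [this, norm_neg]
  rcases le_or_gt ‖v‖ ‖w‖ with hvw | hvw
  · have hwpos : 0 < ‖w‖ := norm_pos_iff.mpr hw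
    have h2 : ‖u + v‖ ≤ 2 * ‖w‖ := by
      have := norm_add_le u v
      linarith
    have h3 : ‖w‖ ^ (p - 1) ≤ 4 * ‖Φ‖ := by
      have h4 : ‖w‖ * ‖w‖ ^ (p - 1) ≤ ‖w‖ * (4 * ‖Φ‖) := by
        rw [← pow_succ', e1, hE]; nlinarith
      exact le_of_mul_le_mul_left h4 hwpos
    exact ⟨mono hle h3, mono hvw h3, h3⟩
  · have hvpos : 0 < ‖v‖ := (norm_nonneg w).trans_lt hvw
    have h2 : ‖u + v‖ ≤ 2 * ‖v‖ := by
      have := norm_add_le u v
      linarith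
    have h5 : ‖v‖ ^ p ≤ 2 * ‖w‖ ^ p := by
      have e2 : v ^ p = -(u ^ p + w ^ p) := by linear_combination h
      calc ‖v‖ ^ p = ‖v ^ p‖ := (norm_pow _ _).symm
        _ = ‖u ^ p + w ^ p‖ := by rw [e2, norm_neg]
        _ ≤ ‖u ^ p‖ + ‖w ^ p‖ := norm_add_le _ _
        _ = ‖u‖ ^ p + ‖w‖ ^ p := by rw [norm_pow, norm_pow]
        _ ≤ ‖w‖ ^ p + ‖w‖ ^ p := by
            gcongr
        _ = 2 * ‖w‖ ^ p := by ring
    have h3 : ‖v‖ ^ (p - 1) ≤ 4 * ‖Φ‖ := by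
      have h4 : ‖v‖ * ‖v‖ ^ (p - 1) ≤ ‖v‖ * (4 * ‖Φ‖) := by
        rw [← pow_succ', e1]
        refine h5.trans ?_
        rw [hE]; nlinarith
      exact le_of_mul_le_mul_left h4 hvpos
    exact ⟨mono (hle.trans hvw.le) h3, h3, mono hvw.le h3⟩

lemma imag_cof {u v w Φ : ℂ} {p : ℕ} (hp : p ≠ 0) (h : u ^ p + v ^ p + w ^ p = 0)
    (hΦ : (u + v) * Φ = u ^ p + v ^ p) (hw : w ≠ 0) (hle : ‖u‖ ≤ ‖w‖ ∨ ‖v‖ ≤ ‖w‖) :
    ‖u‖ ^ (p - 1) ≤ 4 * ‖Φ‖ ∧ ‖v‖ ^ (p - 1) ≤ 4 * ‖Φ‖ ∧ ‖w‖ ^ (p - 1) ≤ 4 * ‖Φ‖ := by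
  rcases hle with hle | hle
  · exact imag_cof_aux hp h hΦ hw hle
  · have := imag_cof_aux (u := v) (v := u) (w := w) (Φ := Φ) hp (by linear_combination h)
      (by linear_combination hΦ) hw hle
    exact ⟨this.2.1, this.1, this.2.2⟩

section
variable {K : Type} [Field K] [NumberField K]

lemma real_of_nonempty {φ ψ : K →ₐ[ℚ] ℂ} (e : Emb φ ψ)
    (hc : ∀ x, ψ x = (starRingEnd ℂ) (φ x)) (hn : Nonempty (K →+* ℝ)) :
    (∀ x, (starRingEnd ℂ) (φ x) = φ x) ∧ (∀ x, (starRingEnd ℂ) (ψ x) = ψ x) := by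
  obtain ⟨χ⟩ := hn
  let χ' : K →ₐ[ℚ] ℂ := (Complex.ofRealHom.comp χ).toRatAlgHom
  have hχ : ∀ x, χ' x = ((χ x : ℝ) : ℂ) := fun x => rfl
  have hr : ∀ x, (starRingEnd ℂ) (χ' x) = χ' x := fun x => by rw [hχ]; exact Complex.conj_ofReal _
  rcases e.all' χ' with h1 | h1
  · rw [h1] at hr
    refine ⟨hr, fun x => ?_⟩
    rw [hc, hr, hr]
  · rw [h1] at hr
    have h2 : ∀ x, φ x = ψ x := fun x => by
      have := hr x
      rw [hc, Complex.conj_conj] at this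
      rw [hc]; exact this
    exact ⟨fun x => by rw [h2]; exact hr x, hr⟩

/-- The norm of the cofactor bounds the `(p-1)`-st powers of the norms of all three members. -/
theorem size_bound (hK : Module.finrank ℚ K = 2) {p : ℕ} (hp : p.Prime) (hp5 : 5 ≤ p)
    {e1 e2 e3 : 𝓞 K} (h : e1 ^ p + e2 ^ p + e3 ^ p = 0) (h1 : e1 ≠ 0) (h2 : e2 ≠ 0) (h3 : e3 ≠ 0)
    (hcase : Nonempty (K →+* ℝ) ∨
      Ideal.absNorm (Ideal.span {e1}) ≤ Ideal.absNorm (Ideal.span {e3}) ∨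
      Ideal.absNorm (Ideal.span {e2}) ≤ Ideal.absNorm (Ideal.span {e3})) :
    ∀ a ∈ ({e1, e2, e3} : Set (𝓞 K)), Ideal.absNorm (Ideal.span {a}) ^ (p - 1) ≤
      16 * Ideal.absNorm (Ideal.span {cof p (e1 + e2) e2}) := by
  have hodd : Odd p := hp.odd_of_ne_two (by omega)
  have hmul : (e1 + e2) * cof p (e1 + e2) e2 = e1 ^ p + e2 ^ p := cof_mul hodd e1 e2
  set Φ := cof p (e1 + e2) e2 with hΦ
  have ne : ∀ {a : 𝓞 K}, a ≠ 0 → (a : K) ≠ 0 := fun ha h0 => ha (RingOfIntegers.ext h0)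
  obtain ⟨φ, ψ, a1, a2, a3, a4⟩ := two_embeddings K hK
  have e : Emb φ ψ := ⟨a1, a2, a3⟩
  have real : (∀ x, (starRingEnd ℂ) (φ x) = φ x) → (∀ x, (starRingEnd ℂ) (ψ x) = ψ x) →
      ∀ a ∈ ({e1, e2, e3} : Set (𝓞 K)), Ideal.absNorm (Ideal.span {a}) ^ (p - 1) ≤
      16 * Ideal.absNorm (Ideal.span {Φ}) := by
    intro hc1 hc2
    obtain ⟨f, hf⟩ := exists_real hc1
    obtain ⟨g, hg⟩ := exists_real hc2
    have main : ∀ f : K →+* ℝ, |f (e1 : K)| ^ (p - 1) ≤ 2 * |f (Φ : K)| ∧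
        |f (e2 : K)| ^ (p - 1) ≤ 2 * |f (Φ : K)| ∧ |f (e3 : K)| ^ (p - 1) ≤ 2 * |f (Φ : K)| := by
      intro f
      refine real_cof hodd ?_ ?_ ((map_ne_zero f).mpr (ne h1)) ((map_ne_zero f).mpr (ne h2))
        ((map_ne_zero f).mpr (ne h3))
      · have := congrArg (fun x : 𝓞 K => f (x : K)) h; simpa using this
      · have := congrArg (fun x : 𝓞 K => f (x : K)) hmul; simpa using this
    have mf := main f
    have mg := main g
    have fin : ∀ a : 𝓞 K, |f (a : K)| ^ (p - 1) ≤ 2 * |f (Φ : K)| →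
        |g (a : K)| ^ (p - 1) ≤ 2 * |g (Φ : K)| →
        Ideal.absNorm (Ideal.span {a}) ^ (p - 1) ≤ 16 * Ideal.absNorm (Ideal.span {Φ}) := by
      intro a b1 b2
      have : ((Ideal.absNorm (Ideal.span {a}) ^ (p - 1) : ℕ) : ℝ) ≤
          ((16 * Ideal.absNorm (Ideal.span {Φ}) : ℕ) : ℝ) := by
        push_cast
        rw [absNorm_real e hf hg, absNorm_real e hf hg, mul_pow]
        calc |f (a : K)| ^ (p - 1) * |g (a : K)| ^ (p - 1)
            ≤ (2 * |f (Φ : K)|) * (2 * |g (Φ : K)|) :=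
              mul_le_mul b1 b2 (by positivity) (by positivity)
          _ = 4 * (|f (Φ : K)| * |g (Φ : K)|) := by ring
          _ ≤ 16 * (|f (Φ : K)| * |g (Φ : K)|) := by
              have : 0 ≤ |f (Φ : K)| * |g (Φ : K)| := by positivity
              linarith
      exact_mod_cast this
    intro a ha
    simp only [Set.mem_insert_iff, Set.mem_singleton_iff] at ha
    rcases ha with rfl | rfl | rfl
    · exact fin _ mf.1 mg.1
    · exact fin _ mf.2.1 mg.2.1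
    · exact fin _ mf.2.2 mg.2.2
  rcases a4 with hc | ⟨hc1, hc2⟩
  · by_cases hn : Nonempty (K →+* ℝ)
    · obtain ⟨b1, b2⟩ := real_of_nonempty e hc hn
      exact real b1 b2
    · have hcase' := hcase.resolve_left hn
      have conv : ∀ a b : 𝓞 K, Ideal.absNorm (Ideal.span {a}) ≤ Ideal.absNorm (Ideal.span {b}) →
          ‖φ (a : K)‖ ≤ ‖φ (b : K)‖ := by
        intro a b hab
        have h4 : ((Ideal.absNorm (Ideal.span {a}) : ℕ) : ℝ) ≤
            ((Ideal.absNorm (Ideal.span {b}) : ℕ) : ℝ) := by exact_mod_cast hab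
        rw [absNorm_imag e hc, absNorm_imag e hc] at h4
        exact (pow_le_pow_iff_left₀ (norm_nonneg _) (norm_nonneg _) two_ne_zero).mp h4
      have m := imag_cof (u := φ (e1 : K)) (v := φ (e2 : K)) (w := φ (e3 : K)) (Φ := φ (Φ : K))
        hp.ne_zero (by have := congrArg (fun x : 𝓞 K => φ (x : K)) h; simpa using this)
        (by have := congrArg (fun x : 𝓞 K => φ (x : K)) hmul; simpa using this)
        ((map_ne_zero φ).mpr (ne h3)) (hcase'.imp (conv _ _) (conv _ _))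
      have fin : ∀ a : 𝓞 K, ‖φ (a : K)‖ ^ (p - 1) ≤ 4 * ‖φ (Φ : K)‖ →
          Ideal.absNorm (Ideal.span {a}) ^ (p - 1) ≤ 16 * Ideal.absNorm (Ideal.span {Φ}) := by
        intro a b1
        have : ((Ideal.absNorm (Ideal.span {a}) ^ (p - 1) : ℕ) : ℝ) ≤
            ((16 * Ideal.absNorm (Ideal.span {Φ}) : ℕ) : ℝ) := by
          push_cast
          rw [absNorm_imag e hc, absNorm_imag e hc]
          calc (‖φ (a : K)‖ ^ 2) ^ (p - 1) = (‖φ (a : K)‖ ^ (p - 1)) ^ 2 := by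
                rw [← pow_mul, ← pow_mul, mul_comm]
            _ ≤ (4 * ‖φ (Φ : K)‖) ^ 2 := pow_le_pow_left₀ (by positivity) b1 2
            _ = 16 * ‖φ (Φ : K)‖ ^ 2 := by ring
        exact_mod_cast this
      intro a ha
      simp only [Set.mem_insert_iff, Set.mem_singleton_iff] at ha
      rcases ha with rfl | rfl | rfl
      · exact fin _ m.1
      · exact fin _ m.2.1
      · exact fin _ m.2.2
  · exact real hc1 hc2

end

end Pool.Agent.Lib.QuadFermat
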