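import Mathlib

set_option autoImplicit false

namespace Pool.Agent.Lib.QuadFermat

/-- The auxiliary function is strictly increasing on the positive reals. -/
lemma aux_strictMono {p : ℕ} (hodd : Odd p) (hp3 : 3 ≤ p) {ν : ℝ} (hν : 0 < ν) :
    StrictMonoOn (fun s : ℝ => (1 + ν + s) ^ p - (1 + ν - s) ^ p - (1 - ν + s) ^ p) (Set.Ioi 0) := by
  apply strictMonoOn_of_deriv_pos (convex_Ioi 0)
  · apply Continuous.continuousOn; fun_prop
  · intro s hs
    rw [interior_Ioi, Set.mem_Ioi] at hs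
    have hd : HasDerivAt (fun s : ℝ => (1 + ν + s) ^ p - (1 + ν - s) ^ p - (1 - ν + s) ^ p)
        ((p : ℝ) * (1 + ν + s) ^ (p - 1) * 1 - (p : ℝ) * (1 + ν - s) ^ (p - 1) * (-1) -
          (p : ℝ) * (1 - ν + s) ^ (p - 1) * 1) s := by
      have h1 : HasDerivAt (fun s : ℝ => 1 + ν + s) 1 s := by
        simpa using (hasDerivAt_id s).const_add (1 + ν)
      have h2 : HasDerivAt (fun s : ℝ => 1 + ν - s) (-1) s := by
        simpa using (hasDerivAt_id s).const_sub (1 + ν)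
      have h3 : HasDerivAt (fun s : ℝ => 1 - ν + s) 1 s := by
        simpa using (hasDerivAt_id s).const_add (1 - ν)
      exact ((h1.pow p).sub (h2.pow p)).sub (h3.pow p)
    rw [hd.deriv]
    have hev : Even (p - 1) := by
      obtain ⟨k, hk⟩ := hodd; exact ⟨k, by omega⟩
    have hp0 : (0 : ℝ) < p := by exact_mod_cast (by omega : 0 < p)
    have e1 : 0 ≤ (1 + ν - s) ^ (p - 1) := hev.pow_nonneg _
    have e2 : (1 - ν + s) ^ (p - 1) < (1 + ν + s) ^ (p - 1) := by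
      rw [← hev.pow_abs (1 - ν + s)]
      apply pow_lt_pow_left₀ _ (abs_nonneg _) (by omega)
      rw [abs_lt]
      constructor <;> linarith
    nlinarith

/-- The unit relation forced by the two embeddings. -/
lemma unit_relation {p : ℕ} (hodd : Odd p) (hp3 : 3 ≤ p) {ω ν : ℝ} (hω : 0 < ω) (hν : 0 < ν)
    (h1 : (1 - ω + ν) ^ p + (1 + ω - ν) ^ p = (1 + ω + ν) ^ p)
    (h2 : (1 + 1 / ω + 1 / ν) ^ p + (1 - 1 / ω - 1 / ν) ^ p = (1 - 1 / ω + 1 / ν) ^ p) :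
    ν = ω ^ 2 := by
  have hr : 0 < ν / ω := div_pos hν hω
  have hinj := (aux_strictMono hodd hp3 hν).injOn
  have e1 : (1 + ν + ω) ^ p - (1 + ν - ω) ^ p - (1 - ν + ω) ^ p = 0 := by
    have a1 : 1 + ν + ω = 1 + ω + ν := by ring
    have a2 : 1 + ν - ω = 1 - ω + ν := by ring
    have a3 : 1 - ν + ω = 1 + ω - ν := by ring
    rw [a1, a2, a3, ← h1]; ring
  have e2 : (1 + ν + ν / ω) ^ p - (1 + ν - ν / ω) ^ p - (1 - ν + ν / ω) ^ p = 0 := by
    have b1 : 1 + ν + ν / ω = ν * (1 + 1 / ω + 1 / ν) := by field_simp; ring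
    have b2 : 1 + ν - ν / ω = ν * (1 - 1 / ω + 1 / ν) := by field_simp; ring
    have b3 : 1 - ν + ν / ω = -(ν * (1 - 1 / ω - 1 / ν)) := by field_simp; ring
    rw [b1, b2, b3, hodd.neg_pow, mul_pow, mul_pow, mul_pow, ← h2]; ring
  have := hinj (Set.mem_Ioi.mpr hω) (Set.mem_Ioi.mpr hr) (by simp only; rw [e1, e2])
  field_simp at this
  linarith

/-- Final size contradiction, `m = 1`. -/
lemma no_m_one {p : ℕ} (hp3 : 3 ≤ p) {δ : ℝ} (hδ : 1 < δ)
    (h : (δ - 1) ^ p + (1 + 1) ^ p = (δ + 1) ^ p) : False := by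
  obtain ⟨k, rfl⟩ : ∃ k, p = k + 1 := ⟨p - 1, by omega⟩
  have hk : k ≠ 0 := by omega
  have ha : 0 < δ - 1 := by linarith
  have h1 : (δ - 1) ^ k + (2 : ℝ) ^ k ≤ ((δ - 1) + 2) ^ k := pow_add_pow_le ha.le (by norm_num) hk
  have h2 : ((δ - 1) ^ k + (2 : ℝ) ^ k) * (δ + 1) ≤ ((δ - 1) + 2) ^ k * (δ + 1) :=
    mul_le_mul_of_nonneg_right h1 (by linarith)
  have h3 : ((δ - 1) + 2) ^ k * (δ + 1) = (δ + 1) ^ (k + 1) := by
    rw [show (δ - 1) + 2 = δ + 1 by ring]; ring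
  have h4 : 0 < (δ - 1) ^ k := pow_pos ha k
  have h5 : (0 : ℝ) < 2 ^ k := by positivity
  rw [h3, ← h] at h2
  have h6 : ((δ - 1) ^ k + (2 : ℝ) ^ k) * (δ + 1) =
      (δ - 1) ^ (k + 1) + 2 ^ (k + 1) + 2 * (δ - 1) ^ k + 2 ^ k * (δ - 1) := by ring
  rw [h6] at h2
  have h7 : (1 + 1 : ℝ) = 2 := by norm_num
  rw [h7] at h2
  have h8 : 0 < (2:ℝ) ^ k * (δ - 1) := mul_pos h5 ha
  linarith

/-- Final size contradiction, `m ≥ 2 p + 1`. -/
lemma no_m_large {p : ℕ} (hp3 : 3 ≤ p) {δ m : ℝ} (hm : 2 * (p : ℝ) + 1 ≤ m) (hδ : 0 < δ)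
    (hδm : δ ^ 2 = m ^ 2 + 4)
    (h : (δ - 1) ^ p + (m + 1) ^ p = (δ + 1) ^ p) : False := by
  have hp3' : (3 : ℝ) ≤ p := by exact_mod_cast hp3
  have hm0 : 0 < m := by linarith
  have hmδ : m < δ := by nlinarith
  have hdiff : (δ - m) * m < 2 := by nlinarith
  set a := δ + 1 with ha
  set c := δ - 1 with hc
  have ha0 : 0 < a := by linarith
  have hc0 : 2 * (p : ℝ) ≤ c := by linarith
  have hcpos : 0 < c := by linarith
  -- Bernoulli
  have hB : a ^ p - p * (δ - m) * a ^ (p - 1) ≤ (m + 1) ^ p := by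
    have h1 : 1 + (p : ℝ) * (-((δ - m) / a)) ≤ (1 + -((δ - m) / a)) ^ p := by
      apply one_add_mul_le_pow
      have : (δ - m) / a ≤ 1 := by rw [div_le_one ha0]; linarith
      linarith
    have h2 : a ^ p * (1 + (p : ℝ) * (-((δ - m) / a))) ≤ a ^ p * (1 + -((δ - m) / a)) ^ p :=
      mul_le_mul_of_nonneg_left h1 (pow_pos ha0 p).le
    have h3 : a ^ p * (1 + -((δ - m) / a)) ^ p = (m + 1) ^ p := by
      rw [← mul_pow]; congr 1; field_simp; rw [ha]; ring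
    have h4 : a ^ p = a ^ (p - 1) * a := by rw [← pow_succ]; congr 1; omega
    have h5 : a ^ p * (1 + (p : ℝ) * (-((δ - m) / a))) = a ^ p - p * (δ - m) * a ^ (p - 1) := by
      rw [h4]; field_simp; ring
    rw [h3, h5] at h2
    exact h2
  have hsmall : (p : ℝ) * (δ - m) < 1 := by
    have : (p : ℝ) * (δ - m) * m < 2 * p := by nlinarith
    nlinarith
  have hap : 0 < a ^ (p - 1) := pow_pos ha0 _
  have h6 : a ^ p - (m + 1) ^ p < a ^ (p - 1) := by nlinarith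
  -- a^(p-1) ≤ c^p
  have h7 : a ^ (p - 1) ≤ c ^ p := by
    have hac : a = c * (1 + 2 / c) := by field_simp; rw [ha, hc]; ring
    have h8 : (1 + 2 / c) ^ (p - 1) ≤ c := by
      have h9 : 1 + 2 / c ≤ Real.exp (2 / c) := by
        have := Real.add_one_le_exp (2 / c); linarith
      have h10 : (1 + 2 / c) ^ (p - 1) ≤ Real.exp (2 / c) ^ (p - 1) :=
        pow_le_pow_left₀ (by positivity) h9 _
      have h11 : Real.exp (2 / c) ^ (p - 1) = Real.exp ((p - 1 : ℕ) * (2 / c)) := by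
        rw [Real.exp_nat_mul]
      have h12 : ((p - 1 : ℕ) : ℝ) * (2 / c) ≤ 1 := by
        rw [mul_div_assoc', div_le_one hcpos]
        have : ((p - 1 : ℕ) : ℝ) ≤ p := by exact_mod_cast Nat.sub_le p 1
        linarith
      have h13 : Real.exp (((p - 1 : ℕ) : ℝ) * (2 / c)) ≤ Real.exp 1 := Real.exp_le_exp.mpr h12
      have h14 : Real.exp 1 < 3 := by
        have := Real.exp_one_lt_d9; linarith
      rw [h11] at h10
      linarith
    calc a ^ (p - 1) = c ^ (p - 1) * (1 + 2 / c) ^ (p - 1) := by rw [← mul_pow, ← hac]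
      _ ≤ c ^ (p - 1) * c := mul_le_mul_of_nonneg_left h8 (pow_pos hcpos _).le
      _ = c ^ p := by rw [← pow_succ]; congr 1; omega
  linarith

end Pool.Agent.Lib.QuadFermat
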