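import Pool.Agent.Lib.QuadFermatNorm
import Pool.Agent.Lib.QuadFermatUnitReal

set_option autoImplicit false

namespace Pool.Agent.Lib.QuadFermat

open NumberField

section
variable {K : Type} [Field K] [NumberField K]

lemma int_dvd_of_dvd (hK : Module.finrank ℚ K = 2) {q : ℕ} (hq : q.Prime) {m : ℤ}
    (h : ((q : ℕ) : 𝓞 K) ∣ ((m : ℤ) : 𝓞 K)) : (q : ℤ) ∣ m := by
  have h1 : Algebra.norm ℤ ((q : ℕ) : 𝓞 K) ∣ Algebra.norm ℤ ((m : ℤ) : 𝓞 K) := by
    obtain ⟨c, hc⟩ := h
    rw [hc, map_mul]; exact dvd_mul_right _ _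
  have e1 : Algebra.norm ℤ ((m : ℤ) : 𝓞 K) = m ^ 2 := by
    have := Algebra.norm_algebraMap (R := ℤ) (S := 𝓞 K) m
    rw [RingOfIntegers.rank, hK] at this
    simpa using this
  have e2 : Algebra.norm ℤ ((q : ℕ) : 𝓞 K) = (q : ℤ) ^ 2 := by
    have := Algebra.norm_algebraMap (R := ℤ) (S := 𝓞 K) (q : ℤ)
    rw [RingOfIntegers.rank, hK] at this
    simpa using this
  rw [e1, e2] at h1
  have hqp : Prime (q : ℤ) := Nat.prime_iff_prime_int.mp hq
  exact hqp.dvd_of_dvd_pow (dvd_trans (dvd_pow_self _ two_ne_zero) h1)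

/-- `p ∣ (X + Y - Z) ^ p` when `X ^ p + Y ^ p = Z ^ p`, `p` an odd prime. -/
lemma dvd_sum_pow {R : Type*} [CommRing R] {p : ℕ} (hp : p.Prime) (hodd : Odd p) {X Y Z : R}
    (h : X ^ p + Y ^ p = Z ^ p) : (p : R) ∣ (X + Y - Z) ^ p := by
  obtain ⟨r1, h1⟩ := exists_add_pow_prime_eq hp X Y
  obtain ⟨r2, h2⟩ := exists_add_pow_prime_eq hp (X + Y) (-Z)
  refine ⟨X * Y * r1 + (X + Y) * (-Z) * r2, ?_⟩
  have h3 : (X + Y - Z) ^ p = (X + Y + -Z) ^ p := by ring
  rw [h3, h2, h1, hodd.neg_pow, ← h]; ring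

/-- The all-units configuration is impossible in a real quadratic field. -/
lemma unit_case (hK : Module.finrank ℚ K = 2) {φ ψ : K →ₐ[ℚ] ℂ} (e : Emb φ ψ) {f g : K →+* ℝ}
    (hf : ∀ x, (f x : ℂ) = φ x) (hg : ∀ x, (g x : ℂ) = ψ x) {p : ℕ} (hp : p.Prime) (hp5 : 5 ≤ p)
    {X Y Z w v : 𝓞 K} (hsum : X + Y = 1) (hw : Z - X = w) (hv : Z - Y = v)
    (hwu : IsUnit w) (hvu : IsUnit v) (h : X ^ p + Y ^ p = Z ^ p)
    (hfd : 0 < f (X : K) * f (Y : K)) (hgd : g (Y : K) * g (Z : K) < 0) : False := by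
  have hodd : Odd p := hp.odd_of_ne_two (by omega)
  have hp0 : p ≠ 0 := hp.ne_zero
  -- images under f and g
  have fs : f (X : K) + f (Y : K) = 1 := by
    have := congrArg (fun x : 𝓞 K => f (x : K)) hsum; simpa using this
  have gs : g (X : K) + g (Y : K) = 1 := by
    have := congrArg (fun x : 𝓞 K => g (x : K)) hsum; simpa using this
  have fw : f (Z : K) - f (X : K) = f (w : K) := by
    have := congrArg (fun x : 𝓞 K => f (x : K)) hw; simpa using this
  have gw : g (Z : K) - g (X : K) = g (w : K) := by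
    have := congrArg (fun x : 𝓞 K => g (x : K)) hw; simpa using this
  have fv : f (Z : K) - f (Y : K) = f (v : K) := by
    have := congrArg (fun x : 𝓞 K => f (x : K)) hv; simpa using this
  have gv : g (Z : K) - g (Y : K) = g (v : K) := by
    have := congrArg (fun x : 𝓞 K => g (x : K)) hv; simpa using this
  have fE : f (X : K) ^ p + f (Y : K) ^ p = f (Z : K) ^ p := by
    have := congrArg (fun x : 𝓞 K => f (x : K)) h; simpa using this
  have gE : g (X : K) ^ p + g (Y : K) ^ p = g (Z : K) ^ p := by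
    have := congrArg (fun x : 𝓞 K => g (x : K)) h; simpa using this
  have mono := hodd.strictMono_pow (R := ℝ)
  -- signs at f
  have fXY : 0 < f (X : K) ∧ 0 < f (Y : K) := by
    rcases mul_pos_iff.mp hfd with h1 | h1
    · exact h1
    · exfalso; linarith [h1.1, h1.2]
  obtain ⟨fX, fY⟩ := fXY
  have fZX : f (X : K) < f (Z : K) := by
    apply mono.lt_iff_lt.mp
    show f (X : K) ^ p < f (Z : K) ^ p
    have : 0 < f (Y : K) ^ p := pow_pos fY p
    linarith
  have fZY : f (Y : K) < f (Z : K) := by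
    apply mono.lt_iff_lt.mp
    show f (Y : K) ^ p < f (Z : K) ^ p
    have : 0 < f (X : K) ^ p := pow_pos fX p
    linarith
  have fZ1 : f (Z : K) < 1 := by
    apply mono.lt_iff_lt.mp
    show f (Z : K) ^ p < 1 ^ p
    have hX1 : f (X : K) < 1 := by linarith
    have hY1 : f (Y : K) < 1 := by linarith
    have a1 : f (X : K) ^ p < f (X : K) := by
      calc f (X : K) ^ p < f (X : K) ^ 1 := pow_lt_pow_right_of_lt_one₀ fX hX1 (by omega)
        _ = _ := pow_one _
    have a2 : f (Y : K) ^ p < f (Y : K) := by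
      calc f (Y : K) ^ p < f (Y : K) ^ 1 := pow_lt_pow_right_of_lt_one₀ fY hY1 (by omega)
        _ = _ := pow_one _
    rw [one_pow]; linarith
  -- signs at g
  have gYneg : g (Y : K) < 0 := by
    by_contra hcon
    push Not at hcon
    have gY : 0 < g (Y : K) := by
      rcases hcon.lt_or_eq with h1 | h1
      · exact h1
      · rw [← h1] at hgd; simp at hgd
    have gZ : g (Z : K) < 0 := by
      by_contra h2; push Not at h2
      have := mul_nonneg gY.le h2; linarith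
    -- g X < 0 and |g X| > g Y
    have h3 : g (X : K) < -g (Y : K) := by
      apply mono.lt_iff_lt.mp
      show g (X : K) ^ p < (-g (Y : K)) ^ p
      rw [hodd.neg_pow]
      have : g (Z : K) ^ p < 0 := hodd.pow_neg gZ
      linarith
    linarith
  have gZpos : 0 < g (Z : K) := by
    by_contra h2; push Not at h2
    have := mul_nonneg_of_nonpos_of_nonpos gYneg.le h2; linarith
  have gZX : g (Z : K) < g (X : K) := by
    apply mono.lt_iff_lt.mp
    show g (Z : K) ^ p < g (X : K) ^ p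
    have : g (Y : K) ^ p < 0 := hodd.pow_neg gYneg
    linarith
  set ω := f (w : K) with hωd
  set ν := f (v : K) with hνd
  have hω : 0 < ω := by rw [← fw]; linarith
  have hν : 0 < ν := by rw [← fv]; linarith
  have hgw : g (w : K) < 0 := by rw [← gw]; linarith
  have hgv : 0 < g (v : K) := by rw [← gv]; linarith
  -- norms of the units
  have nw : ω * g (w : K) = -1 := by
    have hN := e.normZ w
    rw [← hf, ← hg] at hN
    have hN' : ((Algebra.norm ℤ w : ℤ) : ℝ) = f (w : K) * g (w : K) := by exact_mod_cast hN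
    rcases Int.isUnit_iff.mp (hwu.map (Algebra.norm ℤ)) with h1 | h1
    · rw [h1] at hN'
      have : ω * g (w : K) < 0 := mul_neg_of_pos_of_neg hω hgw
      rw [← hN'] at this; norm_num at this
    · rw [h1] at hN'; push_cast at hN'; exact hN'.symm
  have nv : ν * g (v : K) = 1 := by
    have hN := e.normZ v
    rw [← hf, ← hg] at hN
    have hN' : ((Algebra.norm ℤ v : ℤ) : ℝ) = f (v : K) * g (v : K) := by exact_mod_cast hN
    rcases Int.isUnit_iff.mp (hvu.map (Algebra.norm ℤ)) with h1 | h1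
    · rw [h1] at hN'; push_cast at hN'; exact hN'.symm
    · rw [h1] at hN'
      have : 0 < ν * g (v : K) := mul_pos hν hgv
      rw [← hN'] at this; norm_num at this
  have gw' : g (w : K) = -(1 / ω) := by field_simp; linarith
  have gv' : g (v : K) = 1 / ν := by field_simp; linarith
  -- the two equations
  have twoX : 2 * f (X : K) = 1 - ω + ν := by linarith
  have twoY : 2 * f (Y : K) = 1 + ω - ν := by linarith
  have twoZ : 2 * f (Z : K) = 1 + ω + ν := by linarith
  have eq1 : (1 - ω + ν) ^ p + (1 + ω - ν) ^ p = (1 + ω + ν) ^ p := by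
    rw [← twoX, ← twoY, ← twoZ, mul_pow, mul_pow, mul_pow, ← fE]; ring
  have gtwoX : 2 * g (X : K) = 1 + 1 / ω + 1 / ν := by
    rw [← gv']
    have : 1 / ω = - g (w : K) := by rw [gw']; ring
    rw [this]; linarith
  have gtwoY : 2 * g (Y : K) = 1 - 1 / ω - 1 / ν := by
    rw [← gv']
    have : 1 / ω = - g (w : K) := by rw [gw']; ring
    rw [this]; linarith
  have gtwoZ : 2 * g (Z : K) = 1 - 1 / ω + 1 / ν := by
    rw [← gv']
    have : 1 / ω = - g (w : K) := by rw [gw']; ring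
    rw [this]; linarith
  have eq2 : (1 + 1 / ω + 1 / ν) ^ p + (1 - 1 / ω - 1 / ν) ^ p = (1 - 1 / ω + 1 / ν) ^ p := by
    rw [← gtwoX, ← gtwoY, ← gtwoZ, mul_pow, mul_pow, mul_pow, ← gE]; ring
  have hνω : ν = ω ^ 2 := unit_relation hodd (by omega) hω hν eq1 eq2
  -- the integer m
  have hT := e.traceZ w
  rw [← hf, ← hg] at hT
  have hT' : ((Algebra.trace ℤ (𝓞 K) w : ℤ) : ℝ) = ω + g (w : K) := by exact_mod_cast hT
  set m : ℤ := -(Algebra.trace ℤ (𝓞 K) w) with hm
  have hmω : (m : ℝ) = 1 / ω - ω := by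
    rw [hm]; push_cast; rw [hT', gw']; ring
  have hω1 : ω < 1 := by linarith
  have hmpos : (0 : ℝ) < m := by
    rw [hmω, sub_pos, lt_div_iff₀ hω]; nlinarith
  have hmpos' : 0 < m := by exact_mod_cast hmpos
  -- 2 S = w (m - 1)
  set S : 𝓞 K := X + Y - Z with hS
  have hfinj : ∀ a b : 𝓞 K, f (a : K) = f (b : K) → a = b := fun a b hab =>
    RingOfIntegers.ext (f.injective hab)
  have h2S : 2 * S = w * (((m - 1 : ℤ)) : 𝓞 K) := by
    apply hfinj
    have l1 : f ((2 * S : 𝓞 K) : K) = 2 * (f (X : K) + f (Y : K) - f (Z : K)) := by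
      rw [hS, two_mul, two_mul]; simp
    have l2 : f ((w * (((m - 1 : ℤ)) : 𝓞 K) : 𝓞 K) : K) = ω * ((m : ℝ) - 1) := by
      rw [hωd]; simp
    rw [l1, l2, hmω, fs]
    have : 2 * (1 - f (Z : K)) = 2 - (1 + ω + ν) := by rw [← twoZ]; ring
    rw [this, hνω]
    field_simp; ring
  have hp_dvd : (p : ℤ) ∣ m - 1 := by
    have h1 : ((p : ℕ) : 𝓞 K) ∣ S ^ p := dvd_sum_pow hp hodd h
    have h2 : ((p : ℕ) : 𝓞 K) ∣ (2 * S) ^ p := by
      rw [mul_pow]; exact h1.mul_left _
    rw [h2S, mul_pow] at h2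
    have h3 : ((p : ℕ) : 𝓞 K) ∣ (((m - 1 : ℤ)) : 𝓞 K) ^ p := by
      have hu : IsUnit (w ^ p) := hwu.pow p
      exact (hu.dvd_mul_left).mp h2
    have h4 : ((p : ℕ) : 𝓞 K) ∣ ((((m - 1) ^ p : ℤ)) : 𝓞 K) := by push_cast at h3 ⊢; exact h3
    have h5 := int_dvd_of_dvd hK hp h4
    exact (Nat.prime_iff_prime_int.mp hp).dvd_of_dvd_pow h5
  have h2_dvd : (2 : ℤ) ∣ m - 1 := by
    have h1 : ((2 : ℕ) : 𝓞 K) ∣ w * (((m - 1 : ℤ)) : 𝓞 K) := by
      rw [← h2S]; push_cast; exact dvd_mul_right _ _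
    have h3 := (hwu.dvd_mul_left).mp h1
    have := int_dvd_of_dvd hK Nat.prime_two h3
    simpa using this
  have h2p : (2 * (p : ℤ)) ∣ m - 1 := by
    apply IsCoprime.mul_dvd _ h2_dvd hp_dvd
    have : Nat.Coprime 2 p := by
      rw [Nat.coprime_two_left]; exact hodd
    exact_mod_cast Nat.isCoprime_iff_coprime.mpr this
  -- δ
  set δ := ω + 1 / ω with hδ
  have hδm : δ ^ 2 = (m : ℝ) ^ 2 + 4 := by
    rw [hδ, hmω]; field_simp; ring
  have hδ0 : 0 < δ := by rw [hδ]; positivity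
  have hfin : (δ - 1) ^ p + ((m : ℝ) + 1) ^ p = (δ + 1) ^ p := by
    have b1 : 1 - ω + ω ^ 2 = ω * (δ - 1) := by rw [hδ]; field_simp; ring
    have b2 : 1 + ω - ω ^ 2 = ω * ((m : ℝ) + 1) := by rw [hmω]; field_simp; ring
    have b3 : 1 + ω + ω ^ 2 = ω * (δ + 1) := by rw [hδ]; field_simp; ring
    rw [hνω, b1, b2, b3, mul_pow, mul_pow, mul_pow, ← mul_add] at eq1
    exact mul_left_cancel₀ (pow_ne_zero p hω.ne') eq1
  obtain ⟨k, hk⟩ := h2p
  rcases lt_trichotomy k 0 with hk0 | hk0 | hk0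
  · have : m - 1 < 0 := by
      rw [hk]; apply mul_neg_of_pos_of_neg _ hk0
      have := hp.pos; positivity
    omega
  · have hm1 : m = 1 := by rw [hk0] at hk; omega
    rw [hm1] at hfin hδm
    push_cast at hfin hδm
    exact no_m_one (p := p) (by omega) (δ := δ) (by nlinarith) hfin
  · have hm1 : 2 * (p : ℤ) + 1 ≤ m := by
      have : 2 * (p : ℤ) * 1 ≤ 2 * (p : ℤ) * k := by
        apply mul_le_mul_of_nonneg_left _ (by positivity); omega
      omega
    have hm2 : 2 * (p : ℝ) + 1 ≤ (m : ℝ) := by exact_mod_cast hm1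
    exact no_m_large (p := p) (by omega) hm2 hδ0 hδm hfin

end

end Pool.Agent.Lib.QuadFermat
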