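import Mathlib

/-!
# Quadruples of subspaces in diagonal normal form

`W ≃ K^m × K^m`, `F 0 = {(a,0)}`, `F 1 = {(a,a)}`, `F 2 = {(0,b)}`, `F 3 = {(a, μ a)}` with
distinct `μ i`.  We describe all subspaces `H` of dimension `2p` with `dim (H ∩ F j) ≥ p`.
-/

set_option autoImplicit false

namespace Pool.Agent.Quadruple

open Module

variable {K W : Type*} [Field K] [AddCommGroup W] [Module K W] {m : ℕ}

/-- The coordinate subspace of `K^m` with support in `S`. -/
def coordSub (K : Type*) [Field K] {m : ℕ} (S : Finset (Fin m)) : Submodule K (Fin m → K) where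
  carrier := {a | ∀ i, i ∉ S → a i = 0}
  add_mem' := by
    intro a b ha hb i hi
    simp [ha i hi, hb i hi]
  zero_mem' := by intro i _; rfl
  smul_mem' := by
    intro c a ha i hi
    simp [ha i hi]

lemma mem_coordSub {S : Finset (Fin m)} {a : Fin m → K} :
    a ∈ coordSub K S ↔ ∀ i, i ∉ S → a i = 0 := Iff.rfl

lemma single_mem_coordSub {S : Finset (Fin m)} {i : Fin m} {c : K} (hc : c ≠ 0) :
    (Pi.single i c : Fin m → K) ∈ coordSub K S ↔ i ∈ S := by
  rw [mem_coordSub]
  constructor
  · intro h
    by_contra hi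
    have := h i hi
    simp [hc] at this
  · intro h j hj
    have : j ≠ i := by rintro rfl; exact hj h
    simp [this]

lemma finrank_coordSub (S : Finset (Fin m)) : finrank K (coordSub K S) = S.card := by
  classical
  let j : (S → K) →ₗ[K] (Fin m → K) :=
    { toFun := fun f i => if h : i ∈ S then f ⟨i, h⟩ else 0
      map_add' := by
        intro f g; funext i
        by_cases h : i ∈ S <;> simp [h]
      map_smul' := by
        intro c f; funext i
        by_cases h : i ∈ S <;> simp [h] }
  have hinj : Function.Injective j := by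
    intro f g hfg
    funext i
    have := congrFun hfg i
    simpa [j] using this
  have hrange : LinearMap.range j = coordSub K S := by
    ext a
    constructor
    · rintro ⟨f, rfl⟩ i hi
      simp [j, hi]
    · intro ha
      refine ⟨fun i => a i, ?_⟩
      funext i
      by_cases h : i ∈ S
      · simp [j, h]
      · simp [j, h, ha i h]
  rw [← hrange, LinearMap.finrank_range_of_inj hinj]
  simp

/-- An invariant subspace of a diagonal matrix with distinct entries is a coordinate subspace. -/
lemma eq_coordSub_of_invariant [DecidableEq K] {μ : Fin m → K} (hμ : Function.Injective μ)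
    (A : Submodule K (Fin m → K)) (hA : ∀ a ∈ A, (fun i => μ i * a i) ∈ A) :
    ∃ S : Finset (Fin m), A = coordSub K S := by
  classical
  have hpoly : ∀ (p : Polynomial K) (a : Fin m → K), a ∈ A → (fun i => p.eval (μ i) * a i) ∈ A := by
    intro p
    induction p using Polynomial.induction_on' with
    | add p q hp hq =>
      intro a ha
      have := A.add_mem (hp a ha) (hq a ha)
      convert this using 1
      funext i
      simp [add_mul]
    | monomial n c =>
      intro a ha
      have h1 : ∀ n : ℕ, (fun i => μ i ^ n * a i) ∈ A := by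
        intro n
        induction n with
        | zero => simpa using ha
        | succ n ih =>
          have := hA _ ih
          convert this using 1
          funext i
          simp only [pow_succ]; ring
      have := A.smul_mem c (h1 n)
      convert this using 1
      funext i
      simp only [Polynomial.eval_monomial, Pi.smul_apply, smul_eq_mul]; ring
  have hsingle : ∀ (a : Fin m → K), a ∈ A → ∀ i, (Pi.single i (a i) : Fin m → K) ∈ A := by
    intro a ha i
    have h := hpoly (Lagrange.basis Finset.univ μ i) a ha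
    convert h using 1
    funext k
    by_cases hk : k = i
    · subst hk
      rw [Lagrange.eval_basis_self (Set.injOn_of_injective hμ) (Finset.mem_univ k)]
      simp
    · rw [Lagrange.eval_basis_of_ne (Ne.symm hk) (Finset.mem_univ k)]
      simp [hk]
  refine ⟨Finset.univ.filter (fun i => (Pi.single i 1 : Fin m → K) ∈ A), ?_⟩
  ext a
  rw [mem_coordSub]
  constructor
  · intro ha i hi
    by_contra hne
    apply hi
    rw [Finset.mem_filter]
    refine ⟨Finset.mem_univ i, ?_⟩
    have h := A.smul_mem (a i)⁻¹ (hsingle a ha i)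
    have e : (a i)⁻¹ • (Pi.single i (a i) : Fin m → K) = Pi.single i 1 := by
      rw [← Pi.single_smul]
      simp [hne]
    rwa [e] at h
  · intro h
    have e : a = ∑ i, a i • (Pi.single i 1 : Fin m → K) := by
      funext k
      simp [Finset.sum_apply, Pi.single_apply]
    rw [e]
    refine Submodule.sum_mem _ fun i _ => ?_
    by_cases hi : (Pi.single i 1 : Fin m → K) ∈ A
    · exact A.smul_mem _ hi
    · have : a i = 0 := h i (by simp [hi])
      rw [this, zero_smul]; exact A.zero_mem

lemma finrank_prod_sub {V V' : Type*} [AddCommGroup V] [Module K V] [AddCommGroup V']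
    [Module K V'] [FiniteDimensional K V] [FiniteDimensional K V'] (A : Submodule K V)
    (B : Submodule K V') :
    finrank K ↥(A.prod B) = finrank K A + finrank K B := by
  let e : ↥(A.prod B) ≃ₗ[K] (A × B) :=
    { toFun := fun v => (⟨v.1.1, v.2.1⟩, ⟨v.1.2, v.2.2⟩)
      map_add' := fun _ _ => rfl
      map_smul' := fun _ _ => rfl
      invFun := fun v => ⟨(v.1.1, v.2.1), ⟨v.1.2, v.2.2⟩⟩
      left_inv := fun _ => rfl
      right_inv := fun _ => rfl }
  rw [e.finrank_eq, finrank_prod]

lemma finrank_inf_of_range {V : Type*} [AddCommGroup V] [Module K V] (ι : V →ₗ[K] W)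
    (hι : Function.Injective ι) (H F : Submodule K W) (hF : LinearMap.range ι = F) :
    finrank K ↥(H ⊓ F) = finrank K ↥(H.comap ι) := by
  rw [← hF, inf_comm, ← Submodule.map_comap_eq]
  exact (Submodule.equivMapOfInjective ι hι _).finrank_eq.symm

/-- A quadruple in diagonal normal form. -/
structure NormalForm (K W : Type*) [Field K] [AddCommGroup W] [Module K W] (m : ℕ)
    (F : Fin 4 → Submodule K W) where
  Φ : W ≃ₗ[K] (Fin m → K) × (Fin m → K)
  μ : Fin m → K
  μ_inj : Function.Injective μ
  μ_ne : ∀ i, μ i ≠ 0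
  mem0 : ∀ w, w ∈ F 0 ↔ (Φ w).2 = 0
  mem1 : ∀ w, w ∈ F 1 ↔ (Φ w).1 = (Φ w).2
  mem2 : ∀ w, w ∈ F 2 ↔ (Φ w).1 = 0
  mem3 : ∀ w, w ∈ F 3 ↔ (Φ w).2 = fun i => μ i * (Φ w).1 i

namespace NormalForm

variable {F : Fin 4 → Submodule K W} (N : NormalForm K W m F)

/-- The subspace attached to a set of indices. -/
def sub (S : Finset (Fin m)) : Submodule K W :=
  ((coordSub K S).prod (coordSub K S)).comap N.Φ.toLinearMap

lemma mem_sub {S : Finset (Fin m)} {w : W} :
    w ∈ N.sub S ↔ (N.Φ w).1 ∈ coordSub K S ∧ (N.Φ w).2 ∈ coordSub K S := by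
  simp [sub, Submodule.mem_prod]

/-- the four parametrisations -/
def iota (j : Fin 4) : (Fin m → K) →ₗ[K] W :=
  match j with
  | 0 => N.Φ.symm.toLinearMap ∘ₗ LinearMap.inl K _ _
  | 1 => N.Φ.symm.toLinearMap ∘ₗ (LinearMap.prod LinearMap.id LinearMap.id)
  | 2 => N.Φ.symm.toLinearMap ∘ₗ LinearMap.inr K _ _
  | 3 => N.Φ.symm.toLinearMap ∘ₗ
      (LinearMap.prod LinearMap.id (LinearMap.pi fun i => N.μ i • LinearMap.proj i))

lemma iota0 (a : Fin m → K) : N.Φ (N.iota 0 a) = (a, 0) := by simp [iota]
lemma iota1 (a : Fin m → K) : N.Φ (N.iota 1 a) = (a, a) := by simp [iota]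
lemma iota2 (a : Fin m → K) : N.Φ (N.iota 2 a) = (0, a) := by simp [iota]
lemma iota3 (a : Fin m → K) : N.Φ (N.iota 3 a) = (a, fun i => N.μ i * a i) := by
  simp only [iota, LinearMap.comp_apply, LinearEquiv.coe_coe, LinearEquiv.apply_symm_apply]
  rfl

lemma iota_injective (j : Fin 4) : Function.Injective (N.iota j) := by
  intro a b hab
  have h := congrArg N.Φ hab
  fin_cases j
  · simpa [iota0] using h
  · simpa [iota1] using h
  · simpa [iota2] using h
  · change N.Φ (N.iota 3 a) = N.Φ (N.iota 3 b) at h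
    rw [iota3, iota3] at h
    exact (Prod.ext_iff.mp h).1

lemma range_iota (j : Fin 4) : LinearMap.range (N.iota j) = F j := by
  ext w
  fin_cases j
  · change w ∈ LinearMap.range (N.iota 0) ↔ w ∈ F 0
    rw [N.mem0]
    constructor
    · rintro ⟨a, rfl⟩; rw [iota0]
    · intro h
      refine ⟨(N.Φ w).1, N.Φ.injective ?_⟩
      rw [iota0, ← h]
  · change w ∈ LinearMap.range (N.iota 1) ↔ w ∈ F 1
    rw [N.mem1]
    constructor
    · rintro ⟨a, rfl⟩; rw [iota1]
    · intro h
      refine ⟨(N.Φ w).1, N.Φ.injective ?_⟩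
      rw [iota1]
      exact Prod.ext rfl h
  · change w ∈ LinearMap.range (N.iota 2) ↔ w ∈ F 2
    rw [N.mem2]
    constructor
    · rintro ⟨a, rfl⟩; rw [iota2]
    · intro h
      refine ⟨(N.Φ w).2, N.Φ.injective ?_⟩
      rw [iota2, ← h]
  · change w ∈ LinearMap.range (N.iota 3) ↔ w ∈ F 3
    rw [N.mem3]
    constructor
    · rintro ⟨a, rfl⟩; rw [iota3]
    · intro h
      refine ⟨(N.Φ w).1, N.Φ.injective ?_⟩
      rw [iota3]
      exact Prod.ext rfl h.symm

lemma finrank_inf (H : Submodule K W) (j : Fin 4) :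
    finrank K ↥(H ⊓ F j) = finrank K ↥(H.comap (N.iota j)) :=
  finrank_inf_of_range _ (N.iota_injective j) H _ (N.range_iota j)

lemma comap_sub (S : Finset (Fin m)) (j : Fin 4) :
    (N.sub S).comap (N.iota j) = coordSub K S := by
  ext a
  rw [Submodule.mem_comap, mem_sub]
  fin_cases j
  · change (N.Φ (N.iota 0 a)).1 ∈ _ ∧ (N.Φ (N.iota 0 a)).2 ∈ _ ↔ _
    rw [iota0]
    exact ⟨fun h => h.1, fun h => ⟨h, Submodule.zero_mem _⟩⟩
  · change (N.Φ (N.iota 1 a)).1 ∈ _ ∧ (N.Φ (N.iota 1 a)).2 ∈ _ ↔ _
    rw [iota1]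
    exact ⟨fun h => h.1, fun h => ⟨h, h⟩⟩
  · change (N.Φ (N.iota 2 a)).1 ∈ _ ∧ (N.Φ (N.iota 2 a)).2 ∈ _ ↔ _
    rw [iota2]
    exact ⟨fun h => h.2, fun h => ⟨Submodule.zero_mem _, h⟩⟩
  · change (N.Φ (N.iota 3 a)).1 ∈ _ ∧ (N.Φ (N.iota 3 a)).2 ∈ _ ↔ _
    rw [iota3]
    refine ⟨fun h => h.1, fun h => ⟨h, ?_⟩⟩
    intro i hi
    simp [h i hi]

lemma finrank_sub_inf (S : Finset (Fin m)) (j : Fin 4) :
    finrank K ↥(N.sub S ⊓ F j) = S.card := by
  rw [N.finrank_inf, N.comap_sub, finrank_coordSub]

lemma finrank_sub (S : Finset (Fin m)) : finrank K (N.sub S) = 2 * S.card := by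
  have h1 : N.sub S = ((coordSub K S).prod (coordSub K S)).map N.Φ.symm.toLinearMap := by
    rw [sub]
    ext w
    simp only [Submodule.mem_comap, Submodule.mem_map, LinearEquiv.coe_coe]
    constructor
    · intro h; exact ⟨N.Φ w, h, by simp⟩
    · rintro ⟨y, hy, rfl⟩; simpa using hy
  rw [h1, LinearEquiv.finrank_map_eq, finrank_prod_sub, finrank_coordSub]
  ring

lemma sub_injective : Function.Injective N.sub := by
  classical
  intro S T h
  have : ∀ i, i ∈ S ↔ i ∈ T := by
    intro i
    have e : ∀ U : Finset (Fin m), N.iota 0 (Pi.single i 1) ∈ N.sub U ↔ i ∈ U := by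
      intro U
      rw [← Submodule.mem_comap, comap_sub, single_mem_coordSub one_ne_zero]
    rw [← e S, ← e T, h]
  exact Finset.ext this

/-- Classification of the subspaces `H` with `dim H = 2p` and `dim (H ∩ F j) ≥ p`. -/
theorem mem_iff [FiniteDimensional K W] [DecidableEq K] (p : ℕ) (H : Submodule K W) :
    (finrank K H = 2 * p ∧ ∀ j, p ≤ finrank K ↥(H ⊓ F j)) ↔
      ∃ S : Finset (Fin m), S.card = p ∧ H = N.sub S := by
  constructor
  · rintro ⟨hH, hj⟩
    set A := H.comap (N.iota 0) with hA
    set B := H.comap (N.iota 2) with hB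
    have hAp : p ≤ finrank K A := by rw [hA, ← N.finrank_inf]; exact hj 0
    have hBp : p ≤ finrank K B := by rw [hB, ← N.finrank_inf]; exact hj 2
    -- the product of A and B sits inside H
    set P := (A.prod B).map N.Φ.symm.toLinearMap with hP
    have hPH : P ≤ H := by
      rintro w ⟨⟨a, b⟩, ⟨ha, hb⟩, rfl⟩
      have ha' : N.iota 0 a ∈ H := ha
      have hb' : N.iota 2 b ∈ H := hb
      have e : N.Φ.symm.toLinearMap (a, b) = N.iota 0 a + N.iota 2 b := by
        apply N.Φ.injective
        rw [map_add, iota0, iota2]; simp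
      rw [e]; exact H.add_mem ha' hb'
    have hPfin : finrank K P = finrank K A + finrank K B := by
      rw [hP, LinearEquiv.finrank_map_eq, finrank_prod_sub]
    have hle := Submodule.finrank_mono hPH
    rw [hPfin, hH] at hle
    have hAe : finrank K A = p := by omega
    have hBe : finrank K B = p := by omega
    have hPeq : P = H := Submodule.eq_of_le_of_finrank_eq hPH (by rw [hPfin, hH]; omega)
    have hmem : ∀ w, w ∈ H ↔ (N.Φ w).1 ∈ A ∧ (N.Φ w).2 ∈ B := by
      intro w
      rw [← hPeq, hP]
      simp only [Submodule.mem_map, LinearEquiv.coe_coe]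
      constructor
      · rintro ⟨y, hy, rfl⟩
        simpa using hy
      · intro h; exact ⟨N.Φ w, h, by simp⟩
    -- the diagonal condition
    set C := H.comap (N.iota 1) with hC
    have hCp : p ≤ finrank K C := by rw [hC, ← N.finrank_inf]; exact hj 1
    have hCA : C ≤ A := by
      intro a ha
      have : N.iota 1 a ∈ H := ha
      rw [hmem, iota1] at this
      exact this.1
    have hCB : C ≤ B := by
      intro a ha
      have : N.iota 1 a ∈ H := ha
      rw [hmem, iota1] at this
      exact this.2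
    have hCA' : C = A := Submodule.eq_of_le_of_finrank_le hCA (by omega)
    have hCB' : C = B := Submodule.eq_of_le_of_finrank_le hCB (by omega)
    have hAB : A = B := hCA'.symm.trans hCB'
    set D := H.comap (N.iota 3) with hD
    have hDp : p ≤ finrank K D := by rw [hD, ← N.finrank_inf]; exact hj 3
    have hDA : D ≤ A := by
      intro a ha
      have : N.iota 3 a ∈ H := ha
      rw [hmem, iota3] at this
      exact this.1
    have hDA' : D = A := Submodule.eq_of_le_of_finrank_le hDA (by omega)
    have hinv : ∀ a ∈ A, (fun i => N.μ i * a i) ∈ A := by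
      intro a ha
      rw [← hDA'] at ha
      have : N.iota 3 a ∈ H := ha
      rw [hmem, iota3] at this
      rw [hAB]; exact this.2
    obtain ⟨S, hS⟩ := eq_coordSub_of_invariant N.μ_inj A hinv
    refine ⟨S, ?_, ?_⟩
    · rw [← finrank_coordSub (K := K), ← hS, hAe]
    · ext w
      rw [hmem, mem_sub, ← hAB, hS]
  · rintro ⟨S, hS, rfl⟩
    exact ⟨by rw [N.finrank_sub, hS], fun j => by rw [N.finrank_sub_inf, hS]⟩

/-- The tangent spaces to the four conditions meet trivially. -/
theorem tangent_trivial (S : Finset (Fin m))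
    (φ : ↥(N.sub S) →ₗ[K] (W ⧸ N.sub S))
    (hφ : ∀ j, ∀ v : ↥(N.sub S), (v : W) ∈ F j → ∃ f ∈ F j, φ v = (N.sub S).mkQ f) :
    φ = 0 := by
  classical
  have hx : ∀ i ∈ S, N.iota 0 (Pi.single i 1) ∈ N.sub S := by
    intro i hi
    rw [← Submodule.mem_comap, comap_sub, single_mem_coordSub one_ne_zero]; exact hi
  have hy : ∀ i ∈ S, N.iota 2 (Pi.single i 1) ∈ N.sub S := by
    intro i hi
    rw [← Submodule.mem_comap, comap_sub, single_mem_coordSub one_ne_zero]; exact hi
  have key : ∀ (i : Fin m) (hi : i ∈ S), φ ⟨N.iota 0 (Pi.single i 1), hx i hi⟩ = 0 ∧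
      φ ⟨N.iota 2 (Pi.single i 1), hy i hi⟩ = 0 := by
    intro i hi
    set x : ↥(N.sub S) := ⟨N.iota 0 (Pi.single i 1), hx i hi⟩ with hxdef
    set y : ↥(N.sub S) := ⟨N.iota 2 (Pi.single i 1), hy i hi⟩ with hydef
    have hx0 : (x : W) ∈ F 0 := by rw [← N.range_iota 0]; exact ⟨_, rfl⟩
    have hy2 : (y : W) ∈ F 2 := by rw [← N.range_iota 2]; exact ⟨_, rfl⟩
    have hΦx : N.Φ (x : W) = (Pi.single i 1, 0) := N.iota0 _
    have hΦy : N.Φ (y : W) = (0, Pi.single i 1) := N.iota2 _
    have hxy1 : ((x + y : ↥(N.sub S)) : W) ∈ F 1 := by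
      rw [N.mem1, Submodule.coe_add, map_add, hΦx, hΦy]; simp
    have hxy3 : ((x + N.μ i • y : ↥(N.sub S)) : W) ∈ F 3 := by
      rw [N.mem3, Submodule.coe_add, Submodule.coe_smul, map_add, map_smul, hΦx, hΦy]
      funext k
      by_cases hk : k = i
      · subst hk; simp
      · simp [hk]
    obtain ⟨f, hf, hφx⟩ := hφ 0 x hx0
    obtain ⟨g, hg, hφy⟩ := hφ 2 y hy2
    obtain ⟨h, hh, hφxy⟩ := hφ 1 _ hxy1
    obtain ⟨h', hh', hφxy'⟩ := hφ 3 _ hxy3
    rw [N.mem0] at hf
    rw [N.mem2] at hg
    rw [N.mem1] at hh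
    rw [N.mem3] at hh'
    rw [map_add, hφx, hφy, ← map_add, ← sub_eq_zero, ← map_sub, Submodule.mkQ_apply,
      Submodule.Quotient.mk_eq_zero, mem_sub] at hφxy
    rw [map_add, map_smul, hφx, hφy, ← map_smul, ← map_add, ← sub_eq_zero, ← map_sub,
      Submodule.mkQ_apply, Submodule.Quotient.mk_eq_zero, mem_sub] at hφxy'
    simp only [map_add, map_sub, map_smul, Prod.fst_add, Prod.fst_sub, Prod.snd_add,
      Prod.snd_sub, Prod.smul_fst, Prod.smul_snd, hf, hg] at hφxy hφxy'
    have hcoord : ∀ k, k ∉ S → (N.Φ f).1 k = 0 ∧ (N.Φ g).2 k = 0 := by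
      intro k hk
      have e1 := hφxy.1 k hk
      have e2 := hφxy.2 k hk
      have e3 := hφxy'.1 k hk
      have e4 := hφxy'.2 k hk
      rw [hh] at e1
      simp only [hh', Pi.sub_apply, Pi.smul_apply, smul_eq_mul,
        smul_zero, add_zero, zero_add] at e1 e2 e3 e4
      have hki : N.μ i - N.μ k ≠ 0 := by
        rw [sub_ne_zero]
        intro h
        have := N.μ_inj h
        subst this
        exact hk hi
      have e5 : (N.μ i - N.μ k) * (N.Φ f).1 k = 0 := by
        linear_combination (N.μ i) * e1 - (N.μ i) * e2 - (N.μ k) * e3 + e4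
      have e6 := (mul_eq_zero.mp e5).resolve_left hki
      refine ⟨e6, ?_⟩
      linear_combination e2 - e1 + e6
    constructor
    · rw [hφx, Submodule.mkQ_apply, Submodule.Quotient.mk_eq_zero, mem_sub]
      refine ⟨fun k hk => (hcoord k hk).1, ?_⟩
      rw [hf]; exact Submodule.zero_mem _
    · rw [hφy, Submodule.mkQ_apply, Submodule.Quotient.mk_eq_zero, mem_sub]
      refine ⟨?_, fun k hk => (hcoord k hk).2⟩
      rw [hg]; exact Submodule.zero_mem _
  -- the x_i, y_i span
  ext v
  rw [LinearMap.zero_apply]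
  have hv := N.mem_sub.mp v.2
  have e : v = ∑ i : S, ((N.Φ (v : W)).1 i • (⟨N.iota 0 (Pi.single (i : Fin m) 1), hx i i.2⟩ :
      ↥(N.sub S)) + (N.Φ (v : W)).2 i • (⟨N.iota 2 (Pi.single (i : Fin m) 1), hy i i.2⟩ :
      ↥(N.sub S))) := by
    apply Subtype.ext
    apply N.Φ.injective
    rw [Submodule.coe_sum, map_sum]
    simp only [Submodule.coe_add, Submodule.coe_smul, map_add, map_smul, iota0, iota2]
    refine Prod.ext ?_ ?_
    · rw [Prod.fst_sum]
      funext k
      simp only [Finset.sum_apply, Prod.fst_add, Prod.smul_fst, Pi.add_apply, Pi.smul_apply,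
        smul_eq_mul, Pi.zero_apply, mul_zero, add_zero]
      by_cases hk : k ∈ S
      · rw [Finset.sum_eq_single (⟨k, hk⟩ : S)]
        · simp
        · intro b _ hb
          have : k ≠ b := fun h => hb (Subtype.ext h.symm)
          simp [this]
        · intro h; exact absurd (Finset.mem_univ _) h
      · rw [hv.1 k hk]
        refine (Finset.sum_eq_zero fun b _ => ?_).symm
        have : k ≠ b := by rintro rfl; exact hk b.2
        simp [this]
    · rw [Prod.snd_sum]
      funext k
      simp only [Finset.sum_apply, Prod.snd_add, Prod.smul_snd, Pi.add_apply, Pi.smul_apply,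
        smul_eq_mul, Pi.zero_apply, mul_zero, zero_add]
      by_cases hk : k ∈ S
      · rw [Finset.sum_eq_single (⟨k, hk⟩ : S)]
        · simp
        · intro b _ hb
          have : k ≠ b := fun h => hb (Subtype.ext h.symm)
          simp [this]
        · intro h; exact absurd (Finset.mem_univ _) h
      · rw [hv.2 k hk]
        refine (Finset.sum_eq_zero fun b _ => ?_).symm
        have : k ≠ b := by rintro rfl; exact hk b.2
        simp [this]
  rw [e, map_sum]
  refine Finset.sum_eq_zero fun i _ => ?_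
  rw [map_add, map_smul, map_smul, (key i i.2).1, (key i i.2).2, smul_zero, smul_zero, add_zero]

end NormalForm

end Pool.Agent.Quadruple
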