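import Mathlib
import Pool.Agent.Lib.NewtonNodes

/-!
# General position of secant flags

For secant flags with points in pairwise separated sets, the members of dimensions `d j` meet in
the expected dimension: `dim ⋂ j, F^j_{d j} = n - ∑ j, (n - d j)`.
-/

set_option autoImplicit false

namespace Pool.Agent.SecantPosition

open Module Polynomial Pool.Agent.NewtonNodes

/-- The point `(1, s, …, s^(n-1))` of `ℂⁿ`. -/
noncomputable def gpt (n : ℕ) (s : ℝ) : Fin n → ℂ := fun b => (s : ℂ) ^ (b : ℕ)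

/-- member of dimension `d` of the secant flag -/
noncomputable def sflag {n : ℕ} (t : Fin n → ℝ) (d : ℕ) : Submodule ℂ (Fin n → ℂ) :=
  Submodule.span ℂ ((fun a : Fin n => gpt n (t a)) '' {a | (a : ℕ) < d})

/-- nodes indexed by `ℕ` -/
noncomputable def nodes {n : ℕ} (hn : 0 < n) (t : Fin n → ℝ) : ℕ → ℝ :=
  fun l => t ⟨min l (n - 1), by omega⟩

lemma nodes_lt {n : ℕ} (hn : 0 < n) (t : Fin n → ℝ) {l : ℕ} (hl : l < n) :
    nodes hn t l = t ⟨l, hl⟩ := by
  unfold nodes
  congr 1
  apply Fin.ext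
  simp only
  omega

/-- the pairing of a vector with a real polynomial -/
noncomputable def pair {n : ℕ} (p : ℝ[X]) (v : Fin n → ℂ) : ℂ :=
  ∑ b : Fin n, ((p.coeff b : ℝ) : ℂ) * v b

lemma pair_gpt {n : ℕ} (p : ℝ[X]) (hp : p.natDegree < n) (s : ℝ) :
    pair p (gpt n s) = ((p.eval s : ℝ) : ℂ) := by
  rw [pair, Polynomial.eval_eq_sum_range' hp, Finset.sum_range]
  push_cast
  rfl

lemma pair_sflag {n : ℕ} (p : ℝ[X]) (hp : p.natDegree < n) (t : Fin n → ℝ) (d : ℕ)
    (h0 : ∀ a : Fin n, (a : ℕ) < d → p.eval (t a) = 0) {v : Fin n → ℂ} (hv : v ∈ sflag t d) :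
    pair p v = 0 := by
  unfold sflag at hv
  induction hv using Submodule.span_induction with
  | mem x hx =>
    obtain ⟨a, ha, rfl⟩ := hx
    simp only
    rw [pair_gpt p hp, h0 a ha, Complex.ofReal_zero]
  | zero => simp [pair]
  | add x y _ _ hx hy =>
    have : pair p (x + y) = pair p x + pair p y := by
      simp only [pair, Pi.add_apply, mul_add, Finset.sum_add_distrib]
    rw [this, hx, hy, add_zero]
  | smul c x _ hx =>
    have : pair p (c • x) = c * pair p x := by
      simp only [pair, Pi.smul_apply, smul_eq_mul, Finset.mul_sum]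
      exact Finset.sum_congr rfl fun b _ => by ring
    rw [this, hx, mul_zero]

/-- index set of the functionals -/
abbrev Idx {R : ℕ} (a : Fin R → ℕ) := Σ j : Fin R, Fin (a j)

/-- the polynomials `g_j X^i` -/
noncomputable def fpoly {R : ℕ} (y : Fin R → ℕ → ℝ) (d : Fin R → ℕ) {a : Fin R → ℕ}
    (x : Idx a) : ℝ[X] := newt (y x.1) (d x.1) * X ^ (x.2 : ℕ)

lemma fpoly_natDegree {R : ℕ} (y : Fin R → ℕ → ℝ) (d : Fin R → ℕ) {a : Fin R → ℕ}
    (x : Idx a) : (fpoly y d x).natDegree = d x.1 + x.2 := by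
  rw [fpoly, Monic.natDegree_mul (newt_monic _ _) (monic_X_pow _), newt_natDegree,
    natDegree_X_pow]

/-- real combinations of the functionals vanish only trivially -/
lemma real_indep {n R : ℕ} (y : Fin R → ℕ → ℝ)
    (hord : ∀ j j' : Fin R, j < j' → ∀ l l', y j l < y j' l') (d a : Fin R → ℕ)
    (hda : ∀ j, d j + a j = n) (hsum : ∑ j, a j ≤ n) (c : Idx a → ℝ)
    (h : ∑ x, C (c x) * fpoly y d x = 0) : ∀ x, c x = 0 := by
  classical
  -- extend by zero to ℕ-indexed data
  set y' : ℕ → ℕ → ℝ := fun j => if hj : j < R then y ⟨j, hj⟩ else fun _ => 0 with hy'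
  set d' : ℕ → ℕ := fun j => if hj : j < R then d ⟨j, hj⟩ else 0 with hd'
  set a' : ℕ → ℕ := fun j => if hj : j < R then a ⟨j, hj⟩ else 0 with ha'
  set h' : ℕ → ℝ[X] := fun j => if hj : j < R then
    ∑ i : Fin (a ⟨j, hj⟩), C (c ⟨⟨j, hj⟩, i⟩) * X ^ (i : ℕ) else 0 with hh'
  have ey : ∀ j : Fin R, y' j = y j := fun j => by simp only [hy']; rw [dif_pos j.2]
  have ed : ∀ j : Fin R, d' j = d j := fun j => by simp only [hd']; rw [dif_pos j.2]
  have ea : ∀ j : Fin R, a' j = a j := fun j => by simp only [ha']; rw [dif_pos j.2]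
  have eh : ∀ j : Fin R, h' j = ∑ i : Fin (a j), C (c ⟨j, i⟩) * X ^ (i : ℕ) := fun j => by
    simp only [hh']; rw [dif_pos j.2]
  have hdeg : ∀ j : Fin R, (h' j).degree < a j := by
    intro j
    rw [eh]
    refine (degree_sum_le _ _).trans_lt ?_
    rw [Finset.sup_lt_iff (by exact_mod_cast WithBot.bot_lt_coe (a j))]
    intro i _
    refine (degree_C_mul_X_pow_le _ _).trans_lt ?_
    exact_mod_cast i.2
  have key := eq_zero_of_sum_eq_zero (n := n) (y := y') (d := d') (a := a') (h := h') R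
    (fun j j' hjj' hj' l l' => by
      have hj : j < R := lt_trans hjj' hj'
      have h1 := hord ⟨j, hj⟩ ⟨j', hj'⟩ hjj' l l'
      rw [← ey ⟨j, hj⟩, ← ey ⟨j', hj'⟩] at h1
      exact h1)
    (fun j hj => by
      have h1 := hda ⟨j, hj⟩
      rw [← ed ⟨j, hj⟩, ← ea ⟨j, hj⟩] at h1
      exact h1)
    (fun j hj => by
      have h1 := hdeg ⟨j, hj⟩
      rw [← ea ⟨j, hj⟩] at h1
      exact h1)
    (by
      rw [Finset.sum_range]
      calc ∑ j : Fin R, a' j = ∑ j, a j := Finset.sum_congr rfl fun j _ => ea j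
        _ ≤ n := hsum)
    (by
      rw [Finset.sum_range]
      rw [← h, Fintype.sum_sigma]
      refine Finset.sum_congr rfl fun j _ => ?_
      rw [ey, ed, eh, Finset.mul_sum]
      refine Finset.sum_congr rfl fun i _ => ?_
      rw [fpoly]; ring)
  rintro ⟨j, i⟩
  have h1 := key j j.2
  rw [eh] at h1
  have h2 := congrArg (fun p : ℝ[X] => p.coeff (i : ℕ)) h1
  simp only [finsetSum_coeff, coeff_C_mul, coeff_X_pow, coeff_zero] at h2
  rw [Finset.sum_eq_single i] at h2
  · simpa using h2
  · intro i' _ hne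
    rw [if_neg (fun hh => hne (Fin.ext hh.symm)), mul_zero]
  · intro hh; exact absurd (Finset.mem_univ i) hh

/-- the matrix of the functionals -/
noncomputable def fmat (n : ℕ) {R : ℕ} (y : Fin R → ℕ → ℝ) (d : Fin R → ℕ) (a : Fin R → ℕ) :
    Matrix (Idx a) (Fin n) ℂ := Matrix.of fun x b => (((fpoly y d x).coeff b : ℝ) : ℂ)

lemma fmat_indep {n R : ℕ} (y : Fin R → ℕ → ℝ)
    (hord : ∀ j j' : Fin R, j < j' → ∀ l l', y j l < y j' l') (d a : Fin R → ℕ)
    (hda : ∀ j, d j + a j = n) (hsum : ∑ j, a j ≤ n) :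
    LinearIndependent ℂ (fmat n y d a).row := by
  rw [Fintype.linearIndependent_iff]
  intro c hc
  have hco : ∀ b : Fin n, ∑ x, c x * (((fpoly y d x).coeff b : ℝ) : ℂ) = 0 := by
    intro b
    have h1 := congrFun hc b
    simp only [Finset.sum_apply, Pi.smul_apply, smul_eq_mul, Pi.zero_apply] at h1
    exact h1
  have hreal : ∀ c' : Idx a → ℝ, (∀ b : Fin n, ∑ x, c' x * (fpoly y d x).coeff b = 0) →
      ∀ x, c' x = 0 := by
    intro c' hc'
    refine real_indep y hord d a hda hsum c' ?_
    ext m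
    rw [finsetSum_coeff, coeff_zero]
    simp only [coeff_C_mul]
    by_cases hm : m < n
    · exact hc' ⟨m, hm⟩
    · refine Finset.sum_eq_zero fun x _ => ?_
      rw [coeff_eq_zero_of_natDegree_lt, mul_zero]
      rw [fpoly_natDegree]
      have := hda x.1
      have := x.2.2
      omega
  intro x
  apply Complex.ext
  · refine hreal (fun x => (c x).re) (fun b => ?_) x
    have h1 := congrArg Complex.re (hco b)
    simpa [Complex.re_sum] using h1
  · refine hreal (fun x => (c x).im) (fun b => ?_) x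
    have h1 := congrArg Complex.im (hco b)
    simpa [Complex.im_sum] using h1

lemma codim_inf {V : Type*} [AddCommGroup V] [Module ℂ V] [FiniteDimensional ℂ V] {R : ℕ}
    (W : Fin R → Submodule ℂ V) :
    finrank ℂ V ≤ finrank ℂ ↥(⨅ j, W j) + ∑ j, (finrank ℂ V - finrank ℂ (W j)) := by
  have key : ∀ s : Finset (Fin R),
      finrank ℂ V ≤ finrank ℂ ↥(s.inf W) + ∑ j ∈ s, (finrank ℂ V - finrank ℂ (W j)) := by
    classical
    intro s
    induction s using Finset.induction_on with
    | empty =>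
      rw [Finset.inf_empty, finrank_top, Finset.sum_empty, add_zero]
    | insert j s hj ih =>
      rw [Finset.inf_insert, Finset.sum_insert hj]
      have h1 := Submodule.finrank_sup_add_finrank_inf_eq (W j) (s.inf W)
      have h2 : finrank ℂ ↥(W j ⊔ s.inf W) ≤ finrank ℂ V := Submodule.finrank_le _
      have h3 : finrank ℂ (W j) ≤ finrank ℂ V := Submodule.finrank_le _
      omega
  have h1 := key Finset.univ
  rwa [Finset.inf_univ_eq_iInf] at h1

/-! ### The flags -/

lemma gpt_indep {n : ℕ} {ι : Type*} [Fintype ι] (u : ι → ℝ)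
    (hu : Function.Injective u) (hcard : Fintype.card ι ≤ n) :
    LinearIndependent ℂ (fun a => gpt n (u a)) := by
  classical
  rw [Fintype.linearIndependent_iff]
  intro c hc i
  set P : ℝ[X] := ∏ a ∈ Finset.univ.erase i, (X - C (u a)) with hP
  have hPdeg : P.natDegree < n := by
    rw [hP, natDegree_prod_of_monic _ _ (fun a _ => monic_X_sub_C _)]
    simp only [natDegree_X_sub_C, Finset.sum_const, smul_eq_mul, mul_one]
    rw [Finset.card_erase_of_mem (Finset.mem_univ i), Finset.card_univ]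
    have : 0 < Fintype.card ι := Fintype.card_pos_iff.mpr ⟨i⟩
    omega
  have h1 : ∑ a, c a * ((P.eval (u a) : ℝ) : ℂ) = 0 := by
    have h2 : pair P (∑ a, c a • gpt n (u a)) = ∑ a, c a * ((P.eval (u a) : ℝ) : ℂ) := by
      simp only [← pair_gpt P hPdeg]
      simp only [pair, Finset.sum_apply, Pi.smul_apply, smul_eq_mul, Finset.mul_sum]
      rw [Finset.sum_comm]
      exact Finset.sum_congr rfl fun a _ => Finset.sum_congr rfl fun b _ => by ring
    rw [← h2, hc]
    simp [pair]
  rw [Finset.sum_eq_single i] at h1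
  · have hne : P.eval (u i) ≠ 0 := by
      rw [hP, eval_prod, Finset.prod_ne_zero_iff]
      intro a ha
      simp only [eval_sub, eval_X, eval_C]
      rw [sub_ne_zero]
      intro h
      exact (Finset.ne_of_mem_erase ha) (hu h).symm
    exact (mul_eq_zero.mp h1).resolve_right (by exact_mod_cast hne)
  · intro a _ ha
    have : P.eval (u a) = 0 := by
      rw [hP, eval_prod]
      refine Finset.prod_eq_zero (Finset.mem_erase.mpr ⟨ha, Finset.mem_univ a⟩) ?_
      simp
    rw [this, Complex.ofReal_zero, mul_zero]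
  · intro h; exact absurd (Finset.mem_univ i) h

lemma sflag_eq {n d : ℕ} (hd : d ≤ n) (t : Fin n → ℝ) :
    sflag t d = Submodule.span ℂ (Set.range fun a : Fin d => gpt n (t (Fin.castLE hd a))) := by
  unfold sflag
  congr 1
  ext v
  constructor
  · rintro ⟨a, ha, rfl⟩
    exact ⟨⟨a, ha⟩, rfl⟩
  · rintro ⟨a, rfl⟩
    exact ⟨Fin.castLE hd a, a.2, rfl⟩

lemma finrank_sflag {n d : ℕ} (hd : d ≤ n) {t : Fin n → ℝ} (ht : Function.Injective t) :
    finrank ℂ (sflag t d) = d := by
  rw [sflag_eq hd]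
  have h := gpt_indep (n := n) (fun a : Fin d => t (Fin.castLE hd a))
    (fun a b hab => Fin.castLE_injective hd (ht hab)) (by simpa using hd)
  rw [finrank_span_eq_card h, Fintype.card_fin]

lemma sflag_mono {n d d' : ℕ} (h : d ≤ d') (t : Fin n → ℝ) : sflag t d ≤ sflag t d' := by
  unfold sflag
  refine Submodule.span_mono (Set.image_mono ?_)
  intro a ha
  exact lt_of_lt_of_le ha h

lemma sflag_top {n : ℕ} {t : Fin n → ℝ} (ht : Function.Injective t) : sflag t n = ⊤ := by
  apply Submodule.eq_top_of_finrank_eq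
  rw [finrank_sflag le_rfl ht]
  simp

lemma sflag_star {n : ℕ} (t : Fin n → ℝ) (d : ℕ) {v : Fin n → ℂ} (hv : v ∈ sflag t d) :
    star v ∈ sflag t d := by
  unfold sflag at hv ⊢
  induction hv using Submodule.span_induction with
  | mem x hx =>
    obtain ⟨a, ha, rfl⟩ := hx
    have : star (gpt n (t a)) = gpt n (t a) := by
      funext b
      simp [gpt]
    simp only
    rw [this]
    exact Submodule.subset_span ⟨a, ha, rfl⟩
  | zero => rw [star_zero]; exact zero_mem _
  | add x y _ _ hx hy => rw [star_add]; exact add_mem hx hy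
  | smul c x _ hx => rw [star_smul]; exact Submodule.smul_mem _ _ hx

lemma exists_le_sum {R : ℕ} (N : ℕ) : ∀ (m : ℕ) (a : Fin R → ℕ), ∑ j, a j = N + m →
    ∃ a' : Fin R → ℕ, (∀ j, a' j ≤ a j) ∧ ∑ j, a' j = N := by
  classical
  intro m
  induction m with
  | zero => intro a ha; exact ⟨a, fun j => le_rfl, ha⟩
  | succ m ih =>
    intro a ha
    obtain ⟨j, hj⟩ : ∃ j, a j ≠ 0 := by
      by_contra hcon
      push Not at hcon
      rw [Finset.sum_eq_zero (fun j _ => hcon j)] at ha
      omega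
    have h1 : ∑ i, Function.update a j (a j - 1) i = N + m := by
      rw [Finset.sum_update_of_mem (Finset.mem_univ j)]
      rw [← Finset.add_sum_erase _ _ (Finset.mem_univ j)] at ha
      rw [Finset.sdiff_singleton_eq_erase]
      omega
    obtain ⟨a', h2, h3⟩ := ih _ h1
    refine ⟨a', fun i => (h2 i).trans ?_, h3⟩
    by_cases hi : i = j
    · subst hi; simp
    · simp [Function.update_of_ne hi]

/-- upper bound for sorted flags with total codimension at most `n` -/
lemma upper_sorted {n R : ℕ} (hn : 0 < n) (t : Fin R → Fin n → ℝ)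
    (hord : ∀ j j', j < j' → ∀ a b, t j a < t j' b) (d : Fin R → ℕ) (hd : ∀ j, d j ≤ n)
    (hsum : ∑ j, (n - d j) ≤ n) :
    finrank ℂ ↥(⨅ j, sflag (t j) (d j)) + ∑ j, (n - d j) ≤ n := by
  classical
  obtain ⟨a, ha⟩ : ∃ a : Fin R → ℕ, a = fun j => n - d j := ⟨_, rfl⟩
  have haj : ∀ j, a j = n - d j := fun j => by rw [ha]
  have hsa : ∑ j, (n - d j) = ∑ j, a j := by rw [ha]
  rw [hsa] at hsum ⊢
  obtain ⟨y, hy⟩ : ∃ y : Fin R → ℕ → ℝ, y = fun j => nodes hn (t j) := ⟨_, rfl⟩
  have hrow := fmat_indep (n := n) y (fun j j' h l l' => by rw [hy]; exact hord j j' h _ _) d a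
    (fun j => by rw [haj]; have := hd j; omega) hsum
  have hrank : (fmat n y d a).rank = Fintype.card (Idx a) := hrow.rank_matrix
  have hcard : Fintype.card (Idx a) = ∑ j, a j := by simp [Idx]
  have hle : (⨅ j, sflag (t j) (d j)) ≤ LinearMap.ker (fmat n y d a).mulVecLin := by
    intro v hv
    rw [LinearMap.mem_ker]
    funext x
    have hvx : v ∈ sflag (t x.1) (d x.1) := (Submodule.mem_iInf _).mp hv x.1
    have hx2 : (x.2 : ℕ) < n - d x.1 := by rw [← haj]; exact x.2.2
    have h1 : pair (fpoly y d x) v = 0 := by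
      refine pair_sflag _ ?_ (t x.1) (d x.1) (fun b hb => ?_) hvx
      · rw [fpoly_natDegree]; omega
      · rw [fpoly, eval_mul, newt, eval_prod]
        have : ∏ l ∈ Finset.range (d x.1), (X - C (y x.1 l)).eval (t x.1 b) = 0 := by
          refine Finset.prod_eq_zero (Finset.mem_range.mpr hb) ?_
          rw [hy]
          simp only [eval_sub, eval_X, eval_C]
          rw [nodes_lt hn _ b.2]
          simp
        rw [this, zero_mul]
    exact h1
  have h1 := LinearMap.finrank_range_add_finrank_ker (fmat n y d a).mulVecLin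
  have h2 : finrank ℂ (LinearMap.range (fmat n y d a).mulVecLin) = Fintype.card (Idx a) := hrank
  have h3 := Submodule.finrank_mono hle
  rw [h2, hcard] at h1
  simp only [finrank_fintype_fun_eq_card, Fintype.card_fin] at h1
  omega

/-- General position for sorted flags. -/
lemma finrank_sorted {n R : ℕ} (hn : 0 < n) (t : Fin R → Fin n → ℝ)
    (hinj : ∀ j, Function.Injective (t j))
    (hord : ∀ j j', j < j' → ∀ a b, t j a < t j' b) (d : Fin R → ℕ) (hd : ∀ j, d j ≤ n) :
    finrank ℂ ↥(⨅ j, sflag (t j) (d j)) = n - ∑ j, (n - d j) := by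
  have hlow := codim_inf (fun j => sflag (t j) (d j))
  simp only [finrank_fintype_fun_eq_card, Fintype.card_fin] at hlow
  have e1 : ∑ j, (n - finrank ℂ ↥(sflag (t j) (d j))) = ∑ j, (n - d j) :=
    Finset.sum_congr rfl fun j _ => by rw [finrank_sflag (hd j) (hinj j)]
  rw [e1] at hlow
  rcases Nat.le_total (∑ j, (n - d j)) n with hs | hs
  · have := upper_sorted hn t hord d hd hs
    omega
  · obtain ⟨a', h1, h2⟩ := exists_le_sum n (∑ j, (n - d j) - n) (fun j => n - d j) (by omega)
    have h3 : ∀ j, n - (n - a' j) = a' j := fun j => by have := h1 j; omega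
    have h4 : ∑ j, (n - (n - a' j)) = n := (Finset.sum_congr rfl fun j _ => h3 j).trans h2
    have h5 : finrank ℂ ↥(⨅ j, sflag (t j) (n - a' j)) + ∑ j, (n - (n - a' j)) ≤ n :=
      upper_sorted hn t hord (fun j => n - a' j) (fun j => Nat.sub_le _ _) h4.le
    have h6 : (⨅ j, sflag (t j) (d j)) ≤ ⨅ j, sflag (t j) (n - a' j) :=
      iInf_mono fun j => sflag_mono (by have := h1 j; have := hd j; omega) _
    have h7 := Submodule.finrank_mono h6
    rw [h4] at h5
    omega

/-- General position of disjoint secant flags. -/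
theorem finrank_iInf_sflag {n R : ℕ} (hn : 0 < n) (t : Fin R → Fin n → ℝ)
    (hinj : ∀ j, Function.Injective (t j))
    (hdis : ∀ j j', j ≠ j' → (∀ a b, t j a < t j' b) ∨ (∀ a b, t j' a < t j b))
    (d : Fin R → ℕ) (hd : ∀ j, d j ≤ n) :
    finrank ℂ ↥(⨅ j, sflag (t j) (d j)) = n - ∑ j, (n - d j) := by
  set f : Fin R → ℝ := fun j => t j ⟨0, hn⟩ with hf
  set σ := Tuple.sort f with hσ
  have hmono := Tuple.monotone_sort f
  have hord : ∀ j j', j < j' → ∀ a b, t (σ j) a < t (σ j') b := by
    intro j j' hjj'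
    have hne : σ j ≠ σ j' := fun h => hjj'.ne (σ.injective h)
    rcases hdis _ _ hne with h | h
    · exact h
    · exfalso
      have h1 : f (σ j) ≤ f (σ j') := hmono hjj'.le
      exact absurd h1 (not_le.mpr (h _ _))
  have h1 := finrank_sorted hn (fun j => t (σ j)) (fun j => hinj _) hord (fun j => d (σ j))
    (fun j => hd _)
  rw [Equiv.iInf_comp (g := fun j => sflag (t j) (d j)) σ,
    Equiv.sum_comp σ (fun j => n - d j)] at h1
  exact h1

end Pool.Agent.SecantPosition
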