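import Mathlib
import Pool.Agent.Lib.SignAlternation

/-!
# Strictly variation diminishing matrices have simple real spectrum

Let `M` be a real `m × m` matrix such that for every nonzero vector `v` one has
`S⁻(v) + S⁻(J M v) ≥ m - 1` (equivalently `S⁺(M v) ≤ S⁻(v)`), where `S⁻` counts sign changes and
`J` is the alternating signature.  Then `M` has `m` distinct real eigenvalues.
-/

set_option autoImplicit false

namespace Pool.Agent.SignAlternation

open Matrix Filter

/-- Extension of a finite vector by zero. -/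
def ext {m : ℕ} (v : Fin m → ℝ) : ℕ → ℝ := fun i => if h : i < m then v ⟨i, h⟩ else 0

lemma ext_lt {m : ℕ} (v : Fin m → ℝ) {i : ℕ} (h : i < m) : ext v i = v ⟨i, h⟩ := by
  simp [ext, h]

lemma ext_ge {m : ℕ} (v : Fin m → ℝ) {i : ℕ} (h : m ≤ i) : ext v i = 0 := by
  simp [ext, not_lt.mpr h]

lemma ext_smul {m : ℕ} (v : Fin m → ℝ) (c : ℝ) : ext (c • v) = fun i => c * ext v i := by
  funext i
  by_cases h : i < m
  · simp [ext, h]
  · simp [ext, h]

lemma J_ext_smul {m : ℕ} (v : Fin m → ℝ) (c : ℝ) : J (ext (c • v)) = fun i => c * J (ext v) i := by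
  funext i
  simp only [J, ext_smul]
  ring

lemma alt_ext_zero {m : ℕ} {v : Fin m → ℝ} (hv : v ≠ 0) : Alt (ext v) m 0 := by
  obtain ⟨i, hi⟩ := Function.ne_iff.mp hv
  refine alt_zero_of_ne i.2 ?_
  rw [ext_lt v i.2]
  exact hi

lemma alt_ext_smul {m k : ℕ} {v : Fin m → ℝ} {c : ℝ} (hc : c ≠ 0) (h : Alt (ext v) m k) :
    Alt (ext (c • v)) m k := by
  rw [ext_smul]; exact h.smul hc

lemma alt_J_ext_smul {m k : ℕ} {v : Fin m → ℝ} {c : ℝ} (hc : c ≠ 0) (h : Alt (J (ext v)) m k) :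
    Alt (J (ext (c • v))) m k := by
  rw [J_ext_smul]; exact h.smul hc

/-- The strict variation diminishing property. -/
def StrictVD {m : ℕ} (M : Matrix (Fin m) (Fin m) ℝ) : Prop :=
  ∀ v : Fin m → ℝ, v ≠ 0 → ∃ k l, Alt (ext v) m k ∧ Alt (J (ext (M *ᵥ v))) m l ∧ m ≤ k + l + 1

variable {m : ℕ} {M : Matrix (Fin m) (Fin m) ℝ}

lemma StrictVD.mono (hM : StrictVD M) {v : Fin m → ℝ} (hv : v ≠ 0) {k : ℕ}
    (h : Alt (ext (M *ᵥ v)) m k) : Alt (ext v) m k := by
  obtain ⟨k', l, h1, h2, h3⟩ := hM v hv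
  have := alt_add_alt_J h h2
  exact h1.mono (by omega)

lemma StrictVD.strict (hM : StrictVD M) {v : Fin m → ℝ} (hv : v ≠ 0) {k : ℕ}
    (h0 : ext (M *ᵥ v) 0 = 0) (h : Alt (ext (M *ᵥ v)) m k) : Alt (ext v) m (k + 1) := by
  obtain ⟨k', l, h1, h2, h3⟩ := hM v hv
  have := alt_add_alt_J_zero h0 h h2
  exact h1.mono (by omega)

lemma alt_J_ne_zero {v : Fin m → ℝ} {k : ℕ} (h : Alt (J (ext v)) m k) : v ≠ 0 := by
  rintro rfl
  obtain ⟨i, s, h1, h2, h3⟩ := h
  have := h3 0 (by omega)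
  have h4 : J (ext (0 : Fin m → ℝ)) (i 0) = 0 := by
    by_cases h : i 0 < m
    · simp [J, ext, h]
    · simp [J, ext, h]
  rw [h4] at this
  simp at this

lemma StrictVD.mulVec_ne_zero (hM : StrictVD M) {v : Fin m → ℝ} (hv : v ≠ 0) : M *ᵥ v ≠ 0 := by
  obtain ⟨k', l, h1, h2, h3⟩ := hM v hv
  exact alt_J_ne_zero h2

/-- An eigenvector has nonzero first coordinate. -/
lemma StrictVD.eigen_first_ne_zero (hM : StrictVD M) {x : Fin m → ℝ} {μ : ℝ} (hx : x ≠ 0)
    (hμ : M *ᵥ x = μ • x) : ext x 0 ≠ 0 := by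
  intro h0
  have hμ0 : μ ≠ 0 := by
    rintro rfl
    apply hM.mulVec_ne_zero hx
    rw [hμ]; simp
  obtain ⟨k, l, h1, h2, h3⟩ := hM x hx
  rw [hμ] at h2
  have h4 := alt_J_ext_smul (inv_ne_zero hμ0) h2
  rw [smul_smul, inv_mul_cancel₀ hμ0, one_smul] at h4
  have := alt_add_alt_J_zero h0 h1 h4
  omega

/-- maximal number of sign changes -/
lemma exists_max_alt {x : ℕ → ℝ} {n : ℕ} (h : Alt x n 0) : ∃ K, Alt x n K ∧ ¬ Alt x n (K + 1) := by
  classical
  have hex : ∃ k, ¬ Alt x n k := ⟨n, fun h => by have := h.lt; omega⟩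
  have h1 := Nat.find_spec hex
  rcases Nat.eq_zero_or_pos (Nat.find hex) with h0 | h0
  · rw [h0] at h1; exact absurd h h1
  · obtain ⟨K, hK⟩ : ∃ K, Nat.find hex = K + 1 := ⟨Nat.find hex - 1, by omega⟩
    refine ⟨K, ?_, by rw [← hK]; exact h1⟩
    by_contra hcon
    have := Nat.find_min' hex hcon
    omega

/-- Recurrence of rotations. -/
lemma exists_pow_near_one (u : ℂ) (hu : ‖u‖ = 1) {ε : ℝ} (hε : 0 < ε) :
    ∃ n : ℕ, 1 ≤ n ∧ ‖u ^ n - 1‖ < ε := by
  have hcomp : IsCompact (Metric.closedBall (0 : ℂ) 1) := isCompact_closedBall 0 1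
  obtain ⟨a, -, φ, hφ, hlim⟩ := hcomp.tendsto_subseq (x := fun n : ℕ => u ^ n)
    (fun n => by simp [hu])
  have hc := hlim.cauchySeq
  rw [Metric.cauchySeq_iff] at hc
  obtain ⟨N, hN⟩ := hc ε hε
  have h1 := hN (N + 1) (by omega) N le_rfl
  have hlt : φ N < φ (N + 1) := hφ (by omega)
  refine ⟨φ (N + 1) - φ N, by omega, ?_⟩
  have h2 : u ^ φ (N + 1) = u ^ (φ (N + 1) - φ N) * u ^ φ N := by
    rw [← pow_add]; congr 1; omega
  simp only [Function.comp, dist_eq_norm] at h1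
  rw [h2] at h1
  have h3 : u ^ (φ (N + 1) - φ N) * u ^ φ N - u ^ φ N =
    (u ^ (φ (N + 1) - φ N) - 1) * u ^ φ N := by ring
  rw [h3, norm_mul, norm_pow, hu, one_pow, mul_one] at h1
  exact h1

/-- real part of `α z` -/
def reVec (z : Fin m → ℂ) (α : ℂ) : Fin m → ℝ := fun i => (α * z i).re

lemma mulVec_reVec {z : Fin m → ℂ} {μ : ℂ}
    (hz : (M.map (algebraMap ℝ ℂ)) *ᵥ z = μ • z) (α : ℂ) :
    M *ᵥ reVec z α = reVec z (α * μ) := by
  funext i
  have h1 := congrFun hz i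
  simp only [mulVec, dotProduct, Matrix.map_apply, Pi.smul_apply, smul_eq_mul,
    Complex.coe_algebraMap] at h1
  simp only [reVec, mulVec, dotProduct]
  rw [mul_assoc, ← h1, Finset.mul_sum, Complex.re_sum]
  refine Finset.sum_congr rfl fun j _ => ?_
  simp [Complex.mul_re, Complex.mul_im]
  ring

lemma reVec_ne_zero {z : Fin m → ℂ} {μ : ℂ} (hz0 : z ≠ 0)
    (hz : (M.map (algebraMap ℝ ℂ)) *ᵥ z = μ • z) (hμ : μ.im ≠ 0) {α : ℂ} (hα : α ≠ 0) :
    reVec z α ≠ 0 := by
  intro h0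
  have h1 : reVec z (α * μ) = 0 := by rw [← mulVec_reVec hz, h0, mulVec_zero]
  apply hz0
  funext i
  have h2 : (α * z i).re = 0 := congrFun h0 i
  have h3 : (α * μ * z i).re = 0 := congrFun h1 i
  have h4 : (α * z i).im = 0 := by
    have e : α * μ * z i = μ * (α * z i) := by ring
    rw [e, Complex.mul_re, h2] at h3
    have : μ.im * (α * z i).im = 0 := by linarith
    rcases mul_eq_zero.mp this with h | h
    · exact absurd h hμ
    · exact h
  have h5 : α * z i = 0 := Complex.ext h2 h4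
  rcases mul_eq_zero.mp h5 with h | h
  · exact absurd h hα
  · exact h

/-- A strictly variation diminishing matrix has no non-real eigenvalue. -/
lemma StrictVD.im_eq_zero (hM : StrictVD M) {z : Fin m → ℂ} {μ : ℂ} (hz0 : z ≠ 0)
    (hz : (M.map (algebraMap ℝ ℂ)) *ᵥ z = μ • z) : μ.im = 0 := by
  by_contra hμ
  have hm : 0 < m := by
    rcases Nat.eq_zero_or_pos m with h | h
    · subst h; exact absurd (Subsingleton.elim z 0) hz0
    · exact h
  have hμ0 : μ ≠ 0 := by rintro rfl; simp at hμ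
  have hnorm : (0 : ℝ) < ‖μ‖ := norm_pos_iff.mpr hμ0
  -- choose α with vanishing first coordinate
  obtain ⟨α, hα, hα0⟩ : ∃ α : ℂ, α ≠ 0 ∧ (α * z ⟨0, hm⟩).re = 0 := by
    by_cases h : z ⟨0, hm⟩ = 0
    · exact ⟨1, one_ne_zero, by simp [h]⟩
    · refine ⟨Complex.I * (starRingEnd ℂ) (z ⟨0, hm⟩), ?_, ?_⟩
      · exact mul_ne_zero Complex.I_ne_zero ((map_ne_zero _).mpr h)
      · have : Complex.I * (starRingEnd ℂ) (z ⟨0, hm⟩) * z ⟨0, hm⟩ =
          Complex.I * ((Complex.normSq (z ⟨0, hm⟩) : ℝ) : ℂ) := by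
          rw [mul_assoc, mul_comm ((starRingEnd ℂ) (z ⟨0, hm⟩)), Complex.mul_conj]
        rw [this]; simp
  have hx0 : reVec z α ≠ 0 := reVec_ne_zero hz0 hz hμ hα
  obtain ⟨K, hK, hK'⟩ := exists_max_alt (alt_ext_zero hx0)
  -- backward step
  have hback_ne : reVec z (α * μ⁻¹) ≠ 0 :=
    reVec_ne_zero hz0 hz hμ (mul_ne_zero hα (inv_ne_zero hμ0))
  have hback : M *ᵥ reVec z (α * μ⁻¹) = reVec z α := by
    rw [mulVec_reVec hz, mul_assoc, inv_mul_cancel₀ hμ0, mul_one]
  have hA : Alt (ext (reVec z (α * μ⁻¹))) m (K + 1) := by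
    refine hM.strict hback_ne ?_ ?_
    · rw [hback, ext_lt _ hm]; exact hα0
    · rw [hback]; exact hK
  -- forward steps
  have hfwd : ∀ j : ℕ, ¬ Alt (ext (reVec z (α * μ ^ j))) m (K + 1) := by
    intro j
    induction j with
    | zero => simpa using hK'
    | succ j ih =>
      intro hcon
      apply ih
      refine hM.mono (reVec_ne_zero hz0 hz hμ (mul_ne_zero hα (pow_ne_zero j hμ0))) ?_
      rw [mulVec_reVec hz, mul_assoc, ← pow_succ]
      exact hcon
  -- recurrence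
  set u : ℂ := μ / (‖μ‖ : ℂ) with hu
  have hun : ‖u‖ = 1 := by
    rw [hu, norm_div]
    simp [hnorm.ne']
  have hex : ∀ N : ℕ, ∃ n : ℕ, 1 ≤ n ∧ ‖u ^ n - 1‖ < 1 / ((N : ℝ) + 1) :=
    fun N => exists_pow_near_one u hun (by positivity)
  choose n hn1 hn2 using hex
  have hlimu : Tendsto (fun N => u ^ n N) atTop (nhds 1) := by
    rw [tendsto_iff_norm_sub_tendsto_zero]
    exact squeeze_zero (fun _ => norm_nonneg _) (fun N => (hn2 N).le)
      tendsto_one_div_add_atTop_nhds_zero_nat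
  have hlim : ∀ i < m, Tendsto (fun N => ext (reVec z (α * μ⁻¹ * u ^ n N)) i) atTop
      (nhds (ext (reVec z (α * μ⁻¹)) i)) := by
    intro i hi
    simp only [ext_lt _ hi, reVec]
    have h1 : Tendsto (fun N => (α * μ⁻¹ * u ^ n N * z ⟨i, hi⟩)) atTop
        (nhds (α * μ⁻¹ * 1 * z ⟨i, hi⟩)) := (hlimu.const_mul _).mul_const _
    rw [mul_one] at h1
    exact (Complex.continuous_re.tendsto _).comp h1
  obtain ⟨N, hN⟩ := (alt_eventually hlim hA).exists
  -- rewrite as a scalar multiple of a forward iterate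
  have hnN := hn1 N
  have e1 : α * μ⁻¹ * u ^ n N = (((‖μ‖ ^ n N)⁻¹ : ℝ) : ℂ) * (α * μ ^ (n N - 1)) := by
    rw [hu, div_pow]
    obtain ⟨j, hj⟩ : ∃ j, n N = j + 1 := ⟨n N - 1, by omega⟩
    rw [hj]
    simp only [Nat.add_sub_cancel]
    have : ((‖μ‖ : ℝ) : ℂ) ≠ 0 := by exact_mod_cast hnorm.ne'
    push_cast
    field_simp
    ring
  have e2 : reVec z (α * μ⁻¹ * u ^ n N) = ((‖μ‖ ^ n N)⁻¹ : ℝ) • reVec z (α * μ ^ (n N - 1)) := by
    funext i
    simp only [reVec, Pi.smul_apply, smul_eq_mul]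
    rw [e1, mul_assoc, Complex.re_ofReal_mul]
  rw [e2] at hN
  have hc : (‖μ‖ ^ n N : ℝ) ≠ 0 := pow_ne_zero _ hnorm.ne'
  have h3 := alt_ext_smul hc hN
  rw [smul_smul, mul_inv_cancel₀ hc, one_smul] at h3
  exact hfwd _ h3

/-- No Jordan chains. -/
lemma StrictVD.no_jordan (hM : StrictVD M) {x y : Fin m → ℝ} {μ : ℝ} (hx : x ≠ 0)
    (hMx : M *ᵥ x = μ • x) (hMy : M *ᵥ y = μ • y + x) : False := by
  have hm : 0 < m := by
    rcases Nat.eq_zero_or_pos m with h | h
    · subst h; exact absurd (Subsingleton.elim x 0) hx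
    · exact h
  have hμ : μ ≠ 0 := by
    rintro rfl
    apply hM.mulVec_ne_zero hx
    rw [hMx]; simp
  have hx0 : x ⟨0, hm⟩ ≠ 0 := by
    have := hM.eigen_first_ne_zero hx hMx
    rwa [ext_lt _ hm] at this
  set Z : ℝ → (Fin m → ℝ) := fun a => y + a • x with hZ
  have hMZ : ∀ a, M *ᵥ Z a = μ • Z (a + μ⁻¹) := by
    intro a
    simp only [hZ, mulVec_add, mulVec_smul, hMx, hMy]
    rw [smul_add, smul_smul, smul_smul, mul_add, mul_inv_cancel₀ hμ, add_smul, one_smul,
      mul_comm a μ]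
    abel
  have hZne : ∀ a, Z a ≠ 0 := by
    intro a ha
    have h1 : y = -(a • x) := by
      have : y + a • x = 0 := ha
      exact eq_neg_of_add_eq_zero_left this
    have h2 : M *ᵥ y = μ • y := by
      rw [h1, mulVec_neg, mulVec_smul, hMx, smul_neg, smul_smul, smul_smul, mul_comm]
    rw [h2] at hMy
    exact hx (left_eq_add.mp hMy)
  set a0 : ℝ := -(y ⟨0, hm⟩) / x ⟨0, hm⟩ with ha0
  have hZ0 : ext (Z a0) 0 = 0 := by
    rw [ext_lt _ hm]
    simp only [hZ, ha0, Pi.add_apply, Pi.smul_apply, smul_eq_mul]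
    field_simp
    ring
  obtain ⟨K, hK, hK'⟩ := exists_max_alt (alt_ext_zero (hZne a0))
  have hfwd : ∀ j : ℕ, ¬ Alt (ext (Z (a0 + j * μ⁻¹))) m (K + 1) := by
    intro j
    induction j with
    | zero => simpa using hK'
    | succ j ih =>
      intro hcon
      apply ih
      refine hM.mono (hZne _) ?_
      rw [hMZ]
      refine alt_ext_smul hμ ?_
      have e : a0 + (j : ℝ) * μ⁻¹ + μ⁻¹ = a0 + ((j + 1 : ℕ) : ℝ) * μ⁻¹ := by push_cast; ring
      rw [e]; exact hcon
  have hbwd : ∀ j : ℕ, Alt (ext (Z (a0 - (j + 1) * μ⁻¹))) m (K + 1) := by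
    intro j
    induction j with
    | zero =>
      have e : M *ᵥ Z (a0 - ((0 : ℕ) + 1) * μ⁻¹) = μ • Z a0 := by
        rw [hMZ]; congr 2; push_cast; ring
      refine hM.strict (hZne _) ?_ ?_
      · rw [e, ext_smul]
        show μ * ext (Z a0) 0 = 0
        rw [hZ0, mul_zero]
      · rw [e]; exact alt_ext_smul hμ hK
    | succ j ih =>
      have e : M *ᵥ Z (a0 - ((j + 1 : ℕ) + 1) * μ⁻¹) = μ • Z (a0 - (j + 1) * μ⁻¹) := by
        rw [hMZ]; congr 2; push_cast; ring
      refine hM.mono (hZne _) ?_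
      rw [e]
      exact alt_ext_smul hμ ih
  obtain ⟨k0, l0, h1, h2, h3⟩ := hM x hx
  rw [hMx] at h2
  have h2' := alt_J_ext_smul (inv_ne_zero hμ) h2
  rw [smul_smul, inv_mul_cancel₀ hμ, one_smul] at h2'
  -- limits
  have hlimF : Tendsto (fun j : ℕ => (1 / ((j : ℝ) + 1))) atTop (nhds 0) :=
    tendsto_one_div_add_atTop_nhds_zero_nat
  have hLF : ∀ i < m, Tendsto (fun j : ℕ => ext ((μ * (1 / ((j : ℝ) + 1))) •
      Z (a0 + (j + 1 : ℕ) * μ⁻¹)) i) atTop (nhds (ext x i)) := by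
    intro i hi
    simp only [ext_lt _ hi, Pi.smul_apply, smul_eq_mul, hZ, Pi.add_apply]
    have e : ∀ j : ℕ, (μ * (1 / ((j : ℝ) + 1))) *
        (y ⟨i, hi⟩ + (a0 + ((j + 1 : ℕ) : ℝ) * μ⁻¹) * x ⟨i, hi⟩) =
        (1 / ((j : ℝ) + 1)) * (μ * (y ⟨i, hi⟩ + a0 * x ⟨i, hi⟩)) + x ⟨i, hi⟩ := by
      intro j
      have : ((j : ℝ) + 1) ≠ 0 := by positivity
      push_cast
      field_simp
      ring
    simp only [e]
    have := (hlimF.mul_const (μ * (y ⟨i, hi⟩ + a0 * x ⟨i, hi⟩))).add_const (x ⟨i, hi⟩)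
    simpa using this
  have hLB : ∀ i < m, Tendsto (fun j : ℕ => J (ext ((-(μ * (1 / ((j : ℝ) + 1)))) •
      Z (a0 - (j + 1) * μ⁻¹))) i) atTop (nhds (J (ext x) i)) := by
    intro i hi
    simp only [J, ext_lt _ hi, Pi.smul_apply, smul_eq_mul, hZ, Pi.add_apply]
    have e : ∀ j : ℕ, (-(μ * (1 / ((j : ℝ) + 1)))) *
        (y ⟨i, hi⟩ + (a0 - ((j : ℝ) + 1) * μ⁻¹) * x ⟨i, hi⟩) =
        (1 / ((j : ℝ) + 1)) * (-(μ * (y ⟨i, hi⟩ + a0 * x ⟨i, hi⟩))) + x ⟨i, hi⟩ := by
      intro j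
      have : ((j : ℝ) + 1) ≠ 0 := by positivity
      field_simp
      ring
    simp only [e]
    have := (hlimF.mul_const (-(μ * (y ⟨i, hi⟩ + a0 * x ⟨i, hi⟩)))).add_const (x ⟨i, hi⟩)
    have h4 := this.const_mul ((-1 : ℝ) ^ i)
    simpa using h4
  obtain ⟨jF, hjF⟩ := (alt_eventually hLF h1).exists
  obtain ⟨jB, hjB⟩ := (alt_eventually hLB h2').exists
  have hjpos : ∀ j : ℕ, μ * (1 / ((j : ℝ) + 1)) ≠ 0 := fun j => by
    have : ((j : ℝ) + 1) ≠ 0 := by positivity
    exact mul_ne_zero hμ (one_div_ne_zero this)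
  have hF : Alt (ext (Z (a0 + (jF + 1 : ℕ) * μ⁻¹))) m k0 := by
    have := alt_ext_smul (inv_ne_zero (hjpos jF)) hjF
    rwa [smul_smul, inv_mul_cancel₀ (hjpos jF), one_smul] at this
  have hB : Alt (J (ext (Z (a0 - (jB + 1) * μ⁻¹)))) m l0 := by
    have := alt_J_ext_smul (inv_ne_zero (neg_ne_zero.mpr (hjpos jB))) hjB
    rwa [smul_smul, inv_mul_cancel₀ (neg_ne_zero.mpr (hjpos jB)), one_smul] at this
  have h5 := alt_add_alt_J (hbwd jB) hB
  have h6 : k0 ≤ K := by
    by_contra hcon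
    exact hfwd (jF + 1) (hF.mono (by omega))
  omega

/-- A strictly variation diminishing matrix has `m` distinct real eigenvalues. -/
theorem StrictVD.exists_eigenvalues (hM : StrictVD M) :
    ∃ μ : Fin m → ℝ, StrictMono μ ∧ ∀ i, M.charpoly.IsRoot (μ i) := by
  classical
  -- all complex roots are real
  have hsplit : M.charpoly.Splits := by
    refine Polynomial.Splits.of_splits_map (algebraMap ℝ ℂ) (IsAlgClosed.splits _) ?_
    intro a ha
    rw [← Matrix.charpoly_map] at ha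
    have hroot : ((M.map (algebraMap ℝ ℂ)).charpoly).IsRoot a :=
      (Polynomial.mem_roots'.mp ha).2
    have hdet : (Matrix.scalar (Fin m) a - M.map (algebraMap ℝ ℂ)).det = 0 := by
      have := Matrix.eval_charpoly (M.map (algebraMap ℝ ℂ)) a
      rw [← this]; exact hroot
    obtain ⟨z, hz0, hz⟩ := Matrix.exists_mulVec_eq_zero_iff.mpr hdet
    rw [Matrix.sub_mulVec, sub_eq_zero] at hz
    have hz' : (M.map (algebraMap ℝ ℂ)) *ᵥ z = a • z := by
      rw [← hz]
      simp [Matrix.scalar_apply, ← Matrix.smul_one_eq_diagonal, Matrix.smul_mulVec]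
    have him := hM.im_eq_zero hz0 hz'
    exact ⟨a.re, by apply Complex.ext <;> simp [him]⟩
  -- all roots are simple
  have hsimple : ∀ r, M.charpoly.rootMultiplicity r ≤ 1 := by
    intro r
    have h1 := LinearMap.finrank_maxGenEigenspace_eq (Matrix.toLin' M) r
    rw [Matrix.charpoly_toLin'] at h1
    rw [← h1]
    -- generalized eigenspace = eigenspace
    have hker : ∀ v, ((Matrix.toLin' M - algebraMap ℝ (Module.End ℝ (Fin m → ℝ)) r) ^ 2) v = 0 →
        (Matrix.toLin' M - algebraMap ℝ (Module.End ℝ (Fin m → ℝ)) r) v = 0 := by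
      intro v hv
      by_contra hne
      set T := Matrix.toLin' M - algebraMap ℝ (Module.End ℝ (Fin m → ℝ)) r with hT
      have hTv : ∀ w, T w = M *ᵥ w - r • w := by
        intro w
        simp [hT, Module.algebraMap_end_apply]
      have h2 : T (T v) = 0 := by rw [pow_two] at hv; exact hv
      refine hM.no_jordan (x := T v) (y := v) (μ := r) hne ?_ ?_
      · rw [hTv (T v), sub_eq_zero] at h2; exact h2
      · rw [hTv v]; abel
    have hgen : ∀ v ∈ Module.End.maxGenEigenspace (Matrix.toLin' M) r,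
        (Matrix.toLin' M - algebraMap ℝ (Module.End ℝ (Fin m → ℝ)) r) v = 0 := by
      intro v hv
      rw [Module.End.mem_maxGenEigenspace] at hv
      obtain ⟨k, hk⟩ := hv
      rw [show (Matrix.toLin' M - r • (1 : Module.End ℝ (Fin m → ℝ))) =
        Matrix.toLin' M - algebraMap ℝ (Module.End ℝ (Fin m → ℝ)) r by
          rw [Algebra.algebraMap_eq_smul_one]] at hk
      induction k with
      | zero => simp at hk; rw [hk]; simp
      | succ k ih =>
        rcases Nat.eq_zero_or_pos k with rfl | hkpos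
        · simpa using hk
        · apply ih
          obtain ⟨j, rfl⟩ : ∃ j, k = j + 1 := ⟨k - 1, by omega⟩
          have e1 : j + 1 + 1 = 2 + j := by omega
          rw [e1, pow_add, Module.End.mul_apply] at hk
          have := hker _ hk
          rw [pow_succ', Module.End.mul_apply]
          exact this
    -- evaluate first coordinate
    rcases Nat.eq_zero_or_pos m with hm | hm
    · subst hm
      have : Module.finrank ℝ (Fin 0 → ℝ) = 0 := by simp
      have h2 := Submodule.finrank_le (Module.End.maxGenEigenspace (Matrix.toLin' M) r)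
      omega
    · let φ : Module.End.maxGenEigenspace (Matrix.toLin' M) r →ₗ[ℝ] ℝ :=
        (LinearMap.proj (R := ℝ) (φ := fun _ : Fin m => ℝ) ⟨0, hm⟩).comp
          (Module.End.maxGenEigenspace (Matrix.toLin' M) r).subtype
      have hinj : Function.Injective φ := by
        rw [← LinearMap.ker_eq_bot, LinearMap.ker_eq_bot']
        intro v hv
        by_contra hne
        have hv0 : (v : Fin m → ℝ) ≠ 0 := fun h => hne (Subtype.ext h)
        have h3 := hgen v v.2
        have h4 : M *ᵥ (v : Fin m → ℝ) = r • (v : Fin m → ℝ) := by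
          simp only [LinearMap.sub_apply, Matrix.toLin'_apply, Module.algebraMap_end_apply] at h3
          exact sub_eq_zero.mp h3
        have h5 := hM.eigen_first_ne_zero hv0 h4
        rw [ext_lt _ hm] at h5
        exact h5 hv
      have := LinearMap.finrank_le_finrank_of_injective hinj
      simpa using this
  have hcard : M.charpoly.roots.toFinset.card = m := by
    have hnodup : M.charpoly.roots.Nodup := by
      rw [Multiset.nodup_iff_count_le_one]
      intro a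
      rw [Polynomial.count_roots]
      exact hsimple a
    rw [Multiset.toFinset_card_of_nodup hnodup, ← hsplit.natDegree_eq_card_roots,
      Matrix.charpoly_natDegree_eq_dim, Fintype.card_fin]
  refine ⟨M.charpoly.roots.toFinset.orderEmbOfFin hcard,
    (M.charpoly.roots.toFinset.orderEmbOfFin hcard).strictMono, ?_⟩
  intro i
  have := Finset.orderEmbOfFin_mem M.charpoly.roots.toFinset hcard i
  rw [Multiset.mem_toFinset] at this
  exact (Polynomial.mem_roots'.mp this).2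

end Pool.Agent.SignAlternation
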