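import Mathlib
import Pool.Agent.Lib.SimpleSpectrum
import Pool.Agent.Lib.NodeBasis

/-!
# Four secant subspaces of a rational normal curve: the real normal form
-/

set_option autoImplicit false

namespace Pool.Agent.SignAlternation

open Polynomial Finset Matrix

lemma degree_bern_lt (s t : ℕ → ℝ) {N i : ℕ} (hi : i < N) : (bern s t N i).degree < N := by
  unfold bern
  refine lt_of_le_of_lt (Polynomial.degree_mul_le _ _) ?_
  have h1 : (∏ l ∈ range (N - 1 - i), (C (s l) - X)).degree ≤ ((N - 1 - i : ℕ) : WithBot ℕ) := by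
    refine le_trans (Polynomial.degree_prod_le _ _) ?_
    refine le_trans (Finset.sum_le_sum (g := fun _ => (1 : WithBot ℕ)) ?_) ?_
    · intro l _
      refine le_trans (Polynomial.degree_sub_le _ _) ?_
      rw [max_le_iff]
      exact ⟨le_trans Polynomial.degree_C_le (by norm_num), by rw [Polynomial.degree_X]⟩
    · simp
  have h2 : (∏ l ∈ range i, (X - C (t l))).degree = (i : WithBot ℕ) := by
    rw [Polynomial.degree_prod]; simp
  rw [h2]
  calc (∏ l ∈ range (N - 1 - i), (C (s l) - X)).degree + (i : WithBot ℕ)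
      ≤ ((N - 1 - i : ℕ) : WithBot ℕ) + (i : WithBot ℕ) := by gcongr
    _ = ((N - 1 - i + i : ℕ) : WithBot ℕ) := by push_cast; rfl
    _ < (N : WithBot ℕ) := by
        have : N - 1 - i + i < N := by omega
        exact_mod_cast this

lemma degree_sum_bern_lt (s t : ℕ → ℝ) {N : ℕ} (c : ℕ → ℝ) :
    (∑ i ∈ range N, C (c i) * bern s t N i).degree < N := by
  refine lt_of_le_of_lt (Polynomial.degree_sum_le _ _) ?_
  rw [Finset.sup_lt_iff (by exact WithBot.bot_lt_coe N)]
  intro i hi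
  refine lt_of_le_of_lt (Polynomial.degree_mul_le _ _) ?_
  refine lt_of_le_of_lt (add_le_add_left Polynomial.degree_C_le _) ?_
  rw [zero_add]
  exact degree_bern_lt s t (mem_range.mp hi)

lemma bern_low {s t : ℕ → ℝ} {m i : ℕ} (hs : ∀ l, s (m + l) = s l) (hi : i < m) :
    bern s t (m + m) i = (∏ l ∈ range m, (C (s l) - X)) * bern s t m i := by
  unfold bern
  have h1 : m + m - 1 - i = m + (m - 1 - i) := by omega
  rw [h1, Finset.prod_range_add]
  simp only [hs]
  ring

lemma bern_high {s t : ℕ → ℝ} {m i : ℕ} (ht : ∀ l, t (m + l) = t l) (hi : i < m) :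
    bern s t (m + m) (m + i) = (∏ l ∈ range m, (X - C (t l))) * bern s t m i := by
  unfold bern
  have h1 : m + m - 1 - (m + i) = m - 1 - i := by omega
  rw [h1, Finset.prod_range_add]
  simp only [ht]
  ring

/-- Evaluation matrix of the first half of the node basis. -/
noncomputable def evLow (s t : ℕ → ℝ) (m : ℕ) (u : Fin m → ℝ) : Matrix (Fin m) (Fin m) ℝ :=
  Matrix.of fun j i => (bern s t (m + m) i).eval (u j)

/-- Evaluation matrix of the second half of the node basis. -/
noncomputable def evHigh (s t : ℕ → ℝ) (m : ℕ) (u : Fin m → ℝ) : Matrix (Fin m) (Fin m) ℝ :=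
  Matrix.of fun j i => (bern s t (m + m) (m + i)).eval (u j)

lemma sum_fin_eq_range {m : ℕ} (x : Fin m → ℝ) (g : ℕ → ℝ[X]) :
    (∑ i : Fin m, C (x i) * g i) = ∑ i ∈ range m, C (ext x i) * g i := by
  rw [Finset.sum_range]
  refine Finset.sum_congr rfl fun i _ => ?_
  rw [ext_lt x i.2]

lemma det_eval_ne_zero {s t : ℕ → ℝ} (hst : ∀ k l, s k ≠ t l) {m : ℕ} {u : Fin m → ℝ}
    (hu : Function.Injective u) (G : ℝ[X]) (hG : ∀ j, G.eval (u j) ≠ 0) :
    (Matrix.of fun j i : Fin m => (G * bern s t m i).eval (u j)).det ≠ 0 := by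
  intro h
  rcases Nat.eq_zero_or_pos m with hm | hm
  · subst hm; simp at h
  obtain ⟨x, hx0, hx⟩ := Matrix.exists_mulVec_eq_zero_iff.mpr h
  apply hx0
  set p : ℝ[X] := ∑ i ∈ range m, C (ext x i) * bern s t m i with hp
  have hroot : ∀ j, p.eval (u j) = 0 := by
    intro j
    have h1 := congrFun hx j
    simp only [mulVec, dotProduct, Matrix.of_apply, Pi.zero_apply, eval_mul] at h1
    have h2 : G.eval (u j) * p.eval (u j) = 0 := by
      rw [hp, ← sum_fin_eq_range, eval_finsetSum, mul_sum, ← h1]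
      refine Finset.sum_congr rfl fun i _ => ?_
      rw [eval_mul, eval_C]; ring
    exact (mul_eq_zero.mp h2).resolve_left (hG j)
  have hdeg : p.degree < m := degree_sum_bern_lt s t _
  have hp0 : p = 0 := by
    refine Polynomial.eq_zero_of_degree_lt_of_eval_finset_eq_zero (Finset.univ.image u) ?_ ?_
    · rw [Finset.card_image_of_injective _ hu, Finset.card_univ, Fintype.card_fin]
      exact hdeg
    · intro x hx
      obtain ⟨j, _, rfl⟩ := Finset.mem_image.mp hx
      exact hroot j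
  have h3 := bern_indep s m t hst _ hp0
  funext i
  have := h3 i i.2
  rw [ext_lt x i.2] at this
  exact this

section quad

variable {m : ℕ} {s t : ℕ → ℝ}

lemma det_evLow_ne_zero (hs : ∀ l, s (m + l) = s l) (hst : ∀ k l, s k ≠ t l)
    {u : Fin m → ℝ} (hu : Function.Injective u) (hus : ∀ j l, s l ≠ u j) :
    (evLow s t m u).det ≠ 0 := by
  have h1 : evLow s t m u = Matrix.of fun j i : Fin m =>
      ((∏ l ∈ range m, (C (s l) - X)) * bern s t m i).eval (u j) := by
    ext j i
    simp only [evLow, Matrix.of_apply]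
    rw [bern_low hs i.2]
  rw [h1]
  refine det_eval_ne_zero hst hu _ fun j => ?_
  rw [eval_prod, Finset.prod_ne_zero_iff]
  intro l _
  simp only [eval_sub, eval_C, eval_X]
  exact sub_ne_zero.mpr (hus j l)

lemma det_evHigh_ne_zero (ht : ∀ l, t (m + l) = t l) (hst : ∀ k l, s k ≠ t l)
    {u : Fin m → ℝ} (hu : Function.Injective u) (hut : ∀ j l, t l ≠ u j) :
    (evHigh s t m u).det ≠ 0 := by
  have h1 : evHigh s t m u = Matrix.of fun j i : Fin m =>
      ((∏ l ∈ range m, (X - C (t l))) * bern s t m i).eval (u j) := by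
    ext j i
    simp only [evHigh, Matrix.of_apply]
    rw [bern_high ht i.2]
  rw [h1]
  refine det_eval_ne_zero hst hu _ fun j => ?_
  rw [eval_prod, Finset.prod_ne_zero_iff]
  intro l _
  simp only [eval_sub, eval_C, eval_X]
  exact sub_ne_zero.mpr (hut j l).symm

/-- concatenation of two coefficient vectors -/
def cat {m : ℕ} (x y : Fin m → ℝ) : ℕ → ℝ := fun i => if i < m then ext x i else ext y (i - m)

lemma cat_low {x y : Fin m → ℝ} {i : ℕ} (hi : i < m) : cat x y i = ext x i := by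
  simp [cat, hi]

lemma cat_high {x y : Fin m → ℝ} (i : ℕ) : cat x y (m + i) = ext y i := by
  simp [cat]

/-- The polynomial with coefficient vector `(x | y)`. -/
noncomputable def polyOf (s t : ℕ → ℝ) {m : ℕ} (x y : Fin m → ℝ) : ℝ[X] :=
  ∑ i ∈ range (m + m), C (cat x y i) * bern s t (m + m) i

lemma eval_polyOf {x y : Fin m → ℝ} {u : Fin m → ℝ} (j : Fin m) :
    (polyOf s t x y).eval (u j) = (evLow s t m u *ᵥ x + evHigh s t m u *ᵥ y) j := by
  unfold polyOf
  rw [Finset.sum_range_add, eval_add, eval_finsetSum, eval_finsetSum]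
  simp only [Pi.add_apply, mulVec, dotProduct, evLow, evHigh, Matrix.of_apply]
  rw [Finset.sum_range, Finset.sum_range]
  congr 1
  · refine Finset.sum_congr rfl fun i _ => ?_
    rw [eval_mul, eval_C, cat_low i.2, ext_lt x i.2]; ring
  · refine Finset.sum_congr rfl fun i _ => ?_
    rw [eval_mul, eval_C, cat_high, ext_lt y i.2]; ring

lemma exists_factor {f : ℝ[X]} (hf : f ≠ 0) (u : Fin m → ℝ) (hu : Function.Injective u)
    (hroot : ∀ j, f.eval (u j) = 0) (hdeg : f.degree < (m + m : ℕ)) :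
    ∃ h : ℝ[X], h ≠ 0 ∧ h.degree < m ∧ (∏ j ∈ range m, (X - C (ext u j))) * h = f := by
  have hdvd : (∏ j : Fin m, (X - C (u j))) ∣ f := by
    refine Finset.prod_dvd_of_coprime ?_ ?_
    · intro i _ j _ hij
      exact Polynomial.pairwise_coprime_X_sub_C hu hij
    · intro i _
      exact Polynomial.dvd_iff_isRoot.mpr (hroot i)
  obtain ⟨h, hh⟩ := hdvd
  have hprod : (∏ j ∈ range m, (X - C (ext u j))) = ∏ j : Fin m, (X - C (u j)) := by
    rw [Finset.prod_range]
    refine Finset.prod_congr rfl fun i _ => ?_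
    rw [ext_lt u i.2]
  have hh0 : h ≠ 0 := by rintro rfl; rw [mul_zero] at hh; exact hf hh
  refine ⟨h, hh0, ?_, by rw [hprod]; exact hh.symm⟩
  rw [hh, Polynomial.degree_mul] at hdeg
  have h1 : (∏ j : Fin m, (X - C (u j))).degree = (m : WithBot ℕ) := by
    rw [Polynomial.degree_prod]; simp
  rw [h1, Polynomial.degree_eq_natDegree hh0] at hdeg
  rw [Polynomial.degree_eq_natDegree hh0]
  have h2 : m + h.natDegree < m + m := by exact_mod_cast hdeg
  have h3 : h.natDegree < m := by omega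
  exact_mod_cast h3

lemma polyOf_ne_zero (hst : ∀ k l, s k ≠ t l) {x y : Fin m → ℝ} (h : x ≠ 0 ∨ y ≠ 0) :
    polyOf s t x y ≠ 0 := by
  intro h0
  have h1 := bern_indep s (m + m) t hst _ h0
  rcases h with h | h
  · apply h
    funext i
    have := h1 i (by omega)
    rw [cat_low i.2, ext_lt x i.2] at this
    exact this
  · apply h
    funext i
    have := h1 (m + i) (by omega)
    rw [cat_high, ext_lt y i.2] at this
    exact this

/-- Sign changes forced by the vanishing at the nodes `u`. -/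
lemma alt_of_vanish {σ : ℝ} (hσ : σ * σ = 1) (hst : ∀ k l, s k ≠ t l)
    {u : Fin m → ℝ} (hu : Function.Injective u)
    (hα : ∀ j k l, 0 < σ * ((s k - u j) / (s k - t l)))
    (hβ : ∀ j k l, 0 < (u j - t l) / (s k - t l)) {x y : Fin m → ℝ} (hxy : x ≠ 0 ∨ y ≠ 0)
    (hv : evLow s t m u *ᵥ x + evHigh s t m u *ᵥ y = 0) :
    Alt (fun i => σ ^ i * cat x y i) (m + m) m := by
  have hf := polyOf_ne_zero hst hxy
  obtain ⟨h, hh0, hhdeg, hh⟩ := exists_factor hf u hu
    (fun j => by rw [eval_polyOf, hv]; rfl)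
    (degree_sum_bern_lt s t _)
  refine alt_of_roots hσ hst (ext u) m h hh0 hhdeg m ?_ ?_ (cat x y) hh
  · intro j hj k l
    rw [ext_lt u hj]; exact hα _ _ _
  · intro j hj k l
    rw [ext_lt u hj]; exact hβ _ _ _

/-- The monodromy matrix. -/
noncomputable def monodromy (s t : ℕ → ℝ) (m : ℕ) (u w : Fin m → ℝ) : Matrix (Fin m) (Fin m) ℝ :=
  (evLow s t m w)⁻¹ * evHigh s t m w * (evHigh s t m u)⁻¹ * evLow s t m u

theorem monodromy_strictVD (hs : ∀ l, s (m + l) = s l) (ht : ∀ l, t (m + l) = t l)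
    (hts : ∀ k l, t l < s k) {u w : Fin m → ℝ} (hu : Function.Injective u)
    (hw : Function.Injective w) (htu : ∀ l j, t l < u j) (hus : ∀ l j, u j < s l)
    (hsw : ∀ l j, s l < w j) : StrictVD (monodromy s t m u w) := by
  have hst : ∀ k l, s k ≠ t l := fun k l => (hts k l).ne'
  have hstpos : ∀ k l, 0 < s k - t l := fun k l => sub_pos.mpr (hts k l)
  have hLu := det_evLow_ne_zero hs hst hu (fun j l => (hus l j).ne')
  have hHu := det_evHigh_ne_zero ht hst hu (fun j l => (htu l j).ne)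
  have hLw := det_evLow_ne_zero hs hst hw (fun j l => (hsw l j).ne)
  have hHw := det_evHigh_ne_zero ht hst hw (fun j l => ((hts l l).trans (hsw l j)).ne)
  intro x hx
  set y : Fin m → ℝ := -((evHigh s t m u)⁻¹ *ᵥ (evLow s t m u *ᵥ x)) with hy
  have hu1 : evLow s t m u *ᵥ x + evHigh s t m u *ᵥ y = 0 := by
    rw [hy, mulVec_neg, mulVec_mulVec, Matrix.mul_nonsing_inv _ (isUnit_iff_ne_zero.mpr hHu),
      one_mulVec, add_neg_cancel]
  set x' : Fin m → ℝ := monodromy s t m u w *ᵥ x with hx'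
  have hx'y : x' = -((evLow s t m w)⁻¹ *ᵥ (evHigh s t m w *ᵥ y)) := by
    rw [hx', hy, monodromy]
    simp only [mulVec_neg, neg_neg, ← mulVec_mulVec]
  have hw1 : evLow s t m w *ᵥ x' + evHigh s t m w *ᵥ y = 0 := by
    rw [hx'y, mulVec_neg, mulVec_mulVec, Matrix.mul_nonsing_inv _ (isUnit_iff_ne_zero.mpr hLw),
      one_mulVec, neg_add_cancel]
  have hyne : y ≠ 0 := by
    intro h0
    rw [h0, mulVec_zero, add_zero] at hu1
    exact hx (Matrix.eq_zero_of_mulVec_eq_zero hLu hu1)
  have hA := alt_of_vanish (σ := 1) (by norm_num) hst hu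
    (fun j k l => by
      rw [one_mul]; exact div_pos (sub_pos.mpr (hus k j)) (hstpos k l))
    (fun j k l => div_pos (sub_pos.mpr (htu l j)) (hstpos k l)) (Or.inl hx) hu1
  have hB := alt_of_vanish (σ := -1) (by norm_num) hst hw
    (fun j k l => by
      have h1 : s k - w j < 0 := sub_neg.mpr (hsw k j)
      have := div_neg_of_neg_of_pos h1 (hstpos k l)
      linarith)
    (fun j k l => div_pos (sub_pos.mpr ((hts k l).trans (hsw k j))) (hstpos k l))
    (Or.inr hyne) hw1
  obtain ⟨a, b, ha, hb, hab⟩ := alt_split (x := ext x) (y := ext y) (m := m) (m' := m) (k := m)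
    (fun i hi => by simp [cat_low hi]) (fun i hi => by simp [cat_high]) le_rfl le_rfl hA
  obtain ⟨a', b', ha', hb', hab'⟩ := alt_split (x := J (ext x'))
    (y := fun i => (-1) ^ m * J (ext y) i) (m := m) (m' := m) (k := m)
    (fun i hi => by simp [cat_low hi, J])
    (fun i hi => by
      simp only [cat_high, J]
      rw [pow_add]; ring) le_rfl le_rfl hB
  have hb'' : Alt (J (ext y)) m b' := by
    have h1 := hb'.smul (c := (-1) ^ m) (pow_ne_zero _ (by norm_num))
    refine h1.congr fun i _ => ?_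
    have : ((-1 : ℝ) ^ m) * ((-1) ^ m) = 1 := by
      rw [← pow_add, ← two_mul, pow_mul]; simp
    rw [← mul_assoc, this, one_mul]
  have h2 := alt_add_alt_J hb hb''
  exact ⟨a, a', ha, ha', by omega⟩

end quad

section pairing

variable {n : ℕ}

/-- The real point `(1, x, …, x^(n-1))`. -/
def rpt (n : ℕ) (x : ℝ) : Fin n → ℝ := fun b => x ^ (b : ℕ)

/-- Pairing of a vector with a polynomial. -/
noncomputable def pair (z : Fin n → ℝ) (f : ℝ[X]) : ℝ := ∑ b : Fin n, z b * f.coeff b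

lemma pair_rpt {f : ℝ[X]} (hf : f.degree < n) (x : ℝ) : pair (rpt n x) f = f.eval x := by
  rcases eq_or_ne f 0 with rfl | hf0
  · simp [pair]
  have h1 : f.natDegree < n := by
    rw [Polynomial.degree_eq_natDegree hf0] at hf
    exact_mod_cast hf
  rw [Polynomial.eval_eq_sum_range' h1, Finset.sum_range]
  refine Finset.sum_congr rfl fun b _ => ?_
  simp only [rpt]; ring

lemma pair_add (z z' : Fin n → ℝ) (f : ℝ[X]) : pair (z + z') f = pair z f + pair z' f := by
  simp [pair, add_mul, Finset.sum_add_distrib]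

lemma pair_smul (c : ℝ) (z : Fin n → ℝ) (f : ℝ[X]) : pair (c • z) f = c * pair z f := by
  simp [pair, Finset.mul_sum, mul_assoc]

lemma pair_sum {ι : Type*} (S : Finset ι) (z : ι → Fin n → ℝ) (f : ℝ[X]) :
    pair (∑ a ∈ S, z a) f = ∑ a ∈ S, pair (z a) f := by
  simp only [pair, Finset.sum_apply, Finset.sum_mul]
  rw [Finset.sum_comm]

lemma pair_f_add (z : Fin n → ℝ) (f g : ℝ[X]) : pair z (f + g) = pair z f + pair z g := by
  simp [pair, mul_add, Finset.sum_add_distrib]

lemma pair_C_mul (z : Fin n → ℝ) (c : ℝ) (f : ℝ[X]) : pair z (C c * f) = c * pair z f := by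
  simp only [pair, coeff_C_mul, Finset.mul_sum]
  refine Finset.sum_congr rfl fun b _ => ?_
  ring

lemma pair_f_sum {ι : Type*} (z : Fin n → ℝ) (S : Finset ι) (f : ι → ℝ[X]) :
    pair z (∑ a ∈ S, f a) = ∑ a ∈ S, pair z (f a) := by
  simp only [pair, finsetSum_coeff, Finset.mul_sum]
  rw [Finset.sum_comm]

lemma eq_zero_of_pair {s t : ℕ → ℝ} (hst : ∀ k l, s k ≠ t l) {z : Fin n → ℝ}
    (h : ∀ k < n, pair z (bern s t n k) = 0) : z = 0 := by
  funext b
  have hdeg : ((X : ℝ[X]) ^ (b : ℕ)).degree < n := by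
    rw [Polynomial.degree_X_pow]; exact_mod_cast b.2
  obtain ⟨c, hc⟩ := bern_span s n t hst _ hdeg
  have h1 : pair z ((X : ℝ[X]) ^ (b : ℕ)) = 0 := by
    rw [hc, pair_f_sum]
    refine Finset.sum_eq_zero fun k hk => ?_
    rw [pair_C_mul, h k (mem_range.mp hk), mul_zero]
  have h2 : pair z ((X : ℝ[X]) ^ (b : ℕ)) = z b := by
    simp only [pair, coeff_X_pow]
    rw [Finset.sum_eq_single b]
    · simp
    · intro b' _ hb'
      have : (b' : ℕ) ≠ b := fun h => hb' (Fin.ext h)
      simp [this]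
    · intro h; exact absurd (Finset.mem_univ b) h
  rw [← h2, h1]; rfl

end pairing

/-- periodic extension of a finite node sequence -/
def cyc {m : ℕ} (hm : 0 < m) (τ : Fin m → ℝ) : ℕ → ℝ := fun l => τ ⟨l % m, Nat.mod_lt _ hm⟩

lemma cyc_add {m : ℕ} (hm : 0 < m) (τ : Fin m → ℝ) (l : ℕ) : cyc hm τ (m + l) = cyc hm τ l := by
  simp [cyc]

lemma cyc_fin {m : ℕ} (hm : 0 < m) (τ : Fin m → ℝ) (a : Fin m) : cyc hm τ a = τ a := by
  simp only [cyc]
  congr 1
  exact Fin.ext (Nat.mod_eq_of_lt a.2)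

/-- The point `Σ_a ξ_a γ(τ_a)`. -/
def comb {m : ℕ} (n : ℕ) (ξ τ : Fin m → ℝ) : Fin n → ℝ := ∑ a, ξ a • rpt n (τ a)

lemma pair_comb {m n : ℕ} (ξ τ : Fin m → ℝ) {f : ℝ[X]} (hf : f.degree < n) :
    pair (comb n ξ τ) f = ∑ a, ξ a * f.eval (τ a) := by
  rw [comb, pair_sum]
  refine Finset.sum_congr rfl fun a _ => ?_
  rw [pair_smul, pair_rpt hf]

/-- Left eigenvectors of a matrix with simple real spectrum. -/
lemma exists_left_eigenmatrix {m : ℕ} (M : Matrix (Fin m) (Fin m) ℝ) {μ : Fin m → ℝ}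
    (hμ : Function.Injective μ) (hroot : ∀ i, M.charpoly.IsRoot (μ i)) :
    ∃ V : Matrix (Fin m) (Fin m) ℝ, V.det ≠ 0 ∧ V * M = Matrix.diagonal μ * V := by
  have hex : ∀ i, ∃ v : Fin m → ℝ, v ≠ 0 ∧ Mᵀ *ᵥ v = μ i • v := by
    intro i
    have hdet : (Matrix.scalar (Fin m) (μ i) - Mᵀ).det = 0 := by
      rw [← Matrix.eval_charpoly, Matrix.charpoly_transpose]; exact hroot i
    obtain ⟨z, hz0, hz⟩ := Matrix.exists_mulVec_eq_zero_iff.mpr hdet
    rw [Matrix.sub_mulVec, sub_eq_zero] at hz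
    refine ⟨z, hz0, ?_⟩
    rw [← hz]
    simp [Matrix.scalar_apply, ← Matrix.smul_one_eq_diagonal, Matrix.smul_mulVec]
  choose v hv0 hv using hex
  refine ⟨Matrix.of v, ?_, ?_⟩
  · have hli : LinearIndependent ℝ v := by
      refine Module.End.eigenvectors_linearIndependent' (Matrix.toLin' Mᵀ) μ hμ v ?_
      intro i
      refine ⟨?_, hv0 i⟩
      rw [Module.End.mem_eigenspace_iff, Matrix.toLin'_apply]
      exact hv i
    have h1 : IsUnit (Matrix.of v) := by
      rw [← Matrix.linearIndependent_rows_iff_isUnit]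
      exact hli
    exact (Matrix.isUnit_iff_isUnit_det _).mp h1 |>.ne_zero
  · ext i j
    have h1 := congrFun (hv i) j
    simp only [mulVec, dotProduct, Matrix.transpose_apply, Pi.smul_apply, smul_eq_mul] at h1
    rw [Matrix.mul_apply, Matrix.diagonal_mul]
    simp only [Matrix.of_apply]
    rw [← h1]
    exact Finset.sum_congr rfl fun k _ => mul_comm _ _

/-- Real normal form of a quadruple of secant subspaces spanned by `m` points each in
`ℝ^(2m)`. -/
theorem exists_normal_form {m : ℕ} (hm : 0 < m) (τ : Fin 4 → Fin m → ℝ)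
    (hinj : ∀ j, Function.Injective (τ j)) (hord : ∀ j j', j < j' → ∀ a b, τ j a < τ j' b) :
    ∃ (μ : Fin m → ℝ) (ξ η α β : Fin m → Fin m → ℝ), Function.Injective μ ∧ (∀ i, μ i ≠ 0) ∧
      (Matrix.of ξ).det ≠ 0 ∧ (Matrix.of η).det ≠ 0 ∧
      (∀ i, comb (m + m) (ξ i) (τ 0) + comb (m + m) (η i) (τ 2) = comb (m + m) (α i) (τ 1)) ∧
      (∀ i, comb (m + m) (ξ i) (τ 0) + μ i • comb (m + m) (η i) (τ 2) =
        comb (m + m) (β i) (τ 3)) := by
  set s := cyc hm (τ 2) with hs
  set t := cyc hm (τ 0) with ht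
  have hsp : ∀ l, s (m + l) = s l := fun l => cyc_add hm _ l
  have htp : ∀ l, t (m + l) = t l := fun l => cyc_add hm _ l
  have hts : ∀ k l, t l < s k := fun k l => hord 0 2 (by decide) _ _
  have hst : ∀ k l, s k ≠ t l := fun k l => (hts k l).ne'
  have h01 : ∀ l j, t l < τ 1 j := fun l j => hord 0 1 (by decide) _ _
  have h12 : ∀ l j, τ 1 j < s l := fun l j => hord 1 2 (by decide) _ _
  have h23 : ∀ l j, s l < τ 3 j := fun l j => hord 2 3 (by decide) _ _
  have hVD := monodromy_strictVD (m := m) hsp htp hts (hinj 1) (hinj 3) h01 h12 h23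
  obtain ⟨μ, hμmono, hμroot⟩ := hVD.exists_eigenvalues
  obtain ⟨V, hVdet, hV⟩ := exists_left_eigenmatrix _ hμmono.injective hμroot
  -- invertibility of all the evaluation matrices
  have hL0 : (evLow s t m (τ 0)).det ≠ 0 := det_evLow_ne_zero hsp hst (hinj 0)
    (fun j l => (hord 0 2 (by decide) _ _).ne')
  have hL1 : (evLow s t m (τ 1)).det ≠ 0 := det_evLow_ne_zero hsp hst (hinj 1)
    (fun j l => (h12 l j).ne')
  have hL3 : (evLow s t m (τ 3)).det ≠ 0 := det_evLow_ne_zero hsp hst (hinj 3)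
    (fun j l => (h23 l j).ne)
  have hH1 : (evHigh s t m (τ 1)).det ≠ 0 := det_evHigh_ne_zero htp hst (hinj 1)
    (fun j l => (h01 l j).ne)
  have hH2 : (evHigh s t m (τ 2)).det ≠ 0 := det_evHigh_ne_zero htp hst (hinj 2)
    (fun j l => (hord 0 2 (by decide) _ _).ne)
  have hH3 : (evHigh s t m (τ 3)).det ≠ 0 := det_evHigh_ne_zero htp hst (hinj 3)
    (fun j l => (hord 0 3 (by decide) _ _).ne)
  have uL0 := isUnit_iff_ne_zero.mpr hL0
  have uL1 := isUnit_iff_ne_zero.mpr hL1
  have uL3 := isUnit_iff_ne_zero.mpr hL3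
  have uH1 := isUnit_iff_ne_zero.mpr hH1
  have uH2 := isUnit_iff_ne_zero.mpr hH2
  have uH3 := isUnit_iff_ne_zero.mpr hH3
  -- the coefficient matrices
  set Ξ := V * (evLow s t m (τ 0))⁻¹ with hΞ
  set A := V * (evLow s t m (τ 1))⁻¹ with hA
  set H := V * (evLow s t m (τ 1))⁻¹ * evHigh s t m (τ 1) * (evHigh s t m (τ 2))⁻¹ with hH
  set B := V * (evLow s t m (τ 3))⁻¹ with hB
  have hdegb : ∀ k < m + m, (bern s t (m + m) k).degree < ((m + m : ℕ) : WithBot ℕ) :=
    fun k hk => degree_bern_lt s t hk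
  -- vanishing of the node polynomials
  have hzero0 : ∀ (a : Fin m) (k : ℕ), k < m → (bern s t (m + m) (m + k)).eval (τ 0 a) = 0 := by
    intro a k hk
    rw [bern_high htp hk, eval_mul, eval_prod]
    have : ∏ l ∈ range m, (X - C (t l)).eval (τ 0 a) = 0 := by
      refine Finset.prod_eq_zero (mem_range.mpr a.2) ?_
      rw [ht, cyc_fin]; simp
    rw [this, zero_mul]
  have hzero2 : ∀ (a : Fin m) (k : ℕ), k < m → (bern s t (m + m) k).eval (τ 2 a) = 0 := by
    intro a k hk
    rw [bern_low hsp hk, eval_mul, eval_prod]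
    have : ∏ l ∈ range m, (C (s l) - X).eval (τ 2 a) = 0 := by
      refine Finset.prod_eq_zero (mem_range.mpr a.2) ?_
      rw [hs, cyc_fin]; simp
    rw [this, zero_mul]
  -- row computations
  have hmul : ∀ (P Q : Matrix (Fin m) (Fin m) ℝ) (i k : Fin m),
      (P * Q) i k = ∑ a, P i a * Q a k := fun P Q i k => Matrix.mul_apply
  have rX : ∀ (i k : Fin m), ∑ a, Ξ i a * (bern s t (m + m) k).eval (τ 0 a) = V i k := by
    intro i k
    have h1 : Ξ * evLow s t m (τ 0) = V := by
      rw [hΞ, Matrix.mul_assoc, Matrix.nonsing_inv_mul _ uL0, Matrix.mul_one]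
    rw [← congrFun (congrFun h1 i) k, hmul]; rfl
  have rA : ∀ (i k : Fin m), ∑ a, A i a * (bern s t (m + m) k).eval (τ 1 a) = V i k := by
    intro i k
    have h1 : A * evLow s t m (τ 1) = V := by
      rw [hA, Matrix.mul_assoc, Matrix.nonsing_inv_mul _ uL1, Matrix.mul_one]
    rw [← congrFun (congrFun h1 i) k, hmul]; rfl
  have rA' : ∀ (i k : Fin m), ∑ a, A i a * (bern s t (m + m) (m + k)).eval (τ 1 a) =
      (A * evHigh s t m (τ 1)) i k := by
    intro i k; rw [hmul]; rfl
  have rH : ∀ (i k : Fin m), ∑ a, H i a * (bern s t (m + m) (m + k)).eval (τ 2 a) =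
      (A * evHigh s t m (τ 1)) i k := by
    intro i k
    have h1 : H * evHigh s t m (τ 2) = A * evHigh s t m (τ 1) := by
      rw [hH, Matrix.mul_assoc, Matrix.nonsing_inv_mul _ uH2, Matrix.mul_one]
    rw [← congrFun (congrFun h1 i) k, hmul]; rfl
  have rB : ∀ (i k : Fin m), ∑ a, B i a * (bern s t (m + m) k).eval (τ 3 a) = V i k := by
    intro i k
    have h1 : B * evLow s t m (τ 3) = V := by
      rw [hB, Matrix.mul_assoc, Matrix.nonsing_inv_mul _ uL3, Matrix.mul_one]
    rw [← congrFun (congrFun h1 i) k, hmul]; rfl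
  have rB' : ∀ (i k : Fin m), ∑ a, B i a * (bern s t (m + m) (m + k)).eval (τ 3 a) =
      μ i * (A * evHigh s t m (τ 1)) i k := by
    intro i k
    have h1 : B * evHigh s t m (τ 3) = Matrix.diagonal μ * (A * evHigh s t m (τ 1)) := by
      have h2 : V * monodromy s t m (τ 1) (τ 3) =
          B * evHigh s t m (τ 3) * ((evHigh s t m (τ 1))⁻¹ * evLow s t m (τ 1)) := by
        rw [monodromy, hB]; simp only [Matrix.mul_assoc]
      rw [hV] at h2
      have h3 : Matrix.diagonal μ * V * ((evLow s t m (τ 1))⁻¹ * evHigh s t m (τ 1)) =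
          B * evHigh s t m (τ 3) * ((evHigh s t m (τ 1))⁻¹ * evLow s t m (τ 1)) *
            ((evLow s t m (τ 1))⁻¹ * evHigh s t m (τ 1)) := by rw [← h2]
      have h4 : ((evHigh s t m (τ 1))⁻¹ * evLow s t m (τ 1)) *
            ((evLow s t m (τ 1))⁻¹ * evHigh s t m (τ 1)) = 1 := by
        rw [Matrix.mul_assoc, ← Matrix.mul_assoc (evLow s t m (τ 1)),
          Matrix.mul_nonsing_inv _ uL1, Matrix.one_mul, Matrix.nonsing_inv_mul _ uH1]
      rw [Matrix.mul_assoc (B * evHigh s t m (τ 3)), h4, Matrix.mul_one] at h3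
      rw [← h3, hA]; simp only [Matrix.mul_assoc]
    have h5 : (B * evHigh s t m (τ 3)) i k = μ i * (A * evHigh s t m (τ 1)) i k := by
      rw [h1, Matrix.diagonal_mul]
    rw [← h5, hmul]; rfl
  refine ⟨μ, fun i => Ξ i, fun i => H i, fun i => A i, fun i => B i, hμmono.injective, ?_, ?_, ?_,
    ?_, ?_⟩
  · intro i h0
    have hMdet : (monodromy s t m (τ 1) (τ 3)).det ≠ 0 := by
      rw [monodromy, Matrix.det_mul, Matrix.det_mul, Matrix.det_mul, Matrix.det_nonsing_inv,
        Matrix.det_nonsing_inv]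
      refine mul_ne_zero (mul_ne_zero (mul_ne_zero ?_ hH3) ?_) hL1
      · rw [Ring.inverse_eq_inv']; exact inv_ne_zero hL3
      · rw [Ring.inverse_eq_inv']; exact inv_ne_zero hH1
    have h1 := congrArg Matrix.det hV
    rw [Matrix.det_mul, Matrix.det_mul, Matrix.det_diagonal,
      Finset.prod_eq_zero (Finset.mem_univ i) h0, zero_mul] at h1
    exact mul_ne_zero hVdet hMdet h1
  · change Ξ.det ≠ 0
    rw [hΞ, Matrix.det_mul, Matrix.det_nonsing_inv, Ring.inverse_eq_inv']
    exact mul_ne_zero hVdet (inv_ne_zero hL0)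
  · change H.det ≠ 0
    rw [hH, Matrix.det_mul, Matrix.det_mul, Matrix.det_mul, Matrix.det_nonsing_inv,
      Matrix.det_nonsing_inv, Ring.inverse_eq_inv']
    exact mul_ne_zero (mul_ne_zero (mul_ne_zero hVdet (inv_ne_zero hL1)) hH1) (inv_ne_zero hH2)
  · intro i
    rw [← sub_eq_zero]
    refine eq_zero_of_pair hst fun k hk => ?_
    have hd := hdegb k hk
    have e : comb (m + m) (Ξ i) (τ 0) + comb (m + m) (H i) (τ 2) - comb (m + m) (A i) (τ 1) =
        comb (m + m) (Ξ i) (τ 0) + comb (m + m) (H i) (τ 2) +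
          (-1 : ℝ) • comb (m + m) (A i) (τ 1) := by
      rw [neg_one_smul, sub_eq_add_neg]
    rw [e, pair_add, pair_add, pair_smul, pair_comb _ _ hd, pair_comb _ _ hd, pair_comb _ _ hd]
    rcases Nat.lt_or_ge k m with h | h
    · have e1 : ∑ a, H i a * (bern s t (m + m) k).eval (τ 2 a) = 0 :=
        Finset.sum_eq_zero fun a _ => by rw [hzero2 a k h, mul_zero]
      rw [e1, rX i ⟨k, h⟩, rA i ⟨k, h⟩]; ring
    · obtain ⟨k', rfl⟩ : ∃ k', k = m + k' := ⟨k - m, by omega⟩
      have hk' : k' < m := by omega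
      have e1 : ∑ a, Ξ i a * (bern s t (m + m) (m + k')).eval (τ 0 a) = 0 :=
        Finset.sum_eq_zero fun a _ => by rw [hzero0 a k' hk', mul_zero]
      rw [e1, rH i ⟨k', hk'⟩, rA' i ⟨k', hk'⟩]; ring
  · intro i
    rw [← sub_eq_zero]
    refine eq_zero_of_pair hst fun k hk => ?_
    have hd := hdegb k hk
    have e : comb (m + m) (Ξ i) (τ 0) + μ i • comb (m + m) (H i) (τ 2) -
        comb (m + m) (B i) (τ 3) =
        comb (m + m) (Ξ i) (τ 0) + μ i • comb (m + m) (H i) (τ 2) +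
          (-1 : ℝ) • comb (m + m) (B i) (τ 3) := by
      rw [neg_one_smul, sub_eq_add_neg]
    rw [e, pair_add, pair_add, pair_smul, pair_smul, pair_comb _ _ hd, pair_comb _ _ hd,
      pair_comb _ _ hd]
    rcases Nat.lt_or_ge k m with h | h
    · have e1 : ∑ a, H i a * (bern s t (m + m) k).eval (τ 2 a) = 0 :=
        Finset.sum_eq_zero fun a _ => by rw [hzero2 a k h, mul_zero]
      rw [e1, rX i ⟨k, h⟩, rB i ⟨k, h⟩]; ring
    · obtain ⟨k', rfl⟩ : ∃ k', k = m + k' := ⟨k - m, by omega⟩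
      have hk' : k' < m := by omega
      have e1 : ∑ a, Ξ i a * (bern s t (m + m) (m + k')).eval (τ 0 a) = 0 :=
        Finset.sum_eq_zero fun a _ => by rw [hzero0 a k' hk', mul_zero]
      rw [e1, rH i ⟨k', hk'⟩, rB' i ⟨k', hk'⟩]; ring

end Pool.Agent.SignAlternation
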