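import Mathlib

/-!
# A maximum principle for omitted sectors

If an analytic function of at most linear growth in a half strip takes no large values in a
sector on the boundary, then it takes no large values on the axis of the sector inside.
-/

namespace Pool.Agent.Lib.SectorOmit

open Complex Filter Topology Set

/-- the auxiliary harmonic function -/
noncomputable def aux (s : ℂ) : ℂ := Complex.cos ((s - 9 / 4) / 2)

lemma aux_re (s : ℂ) : (aux s).re = Real.cos ((s.re - 9 / 4) / 2) * Real.cosh (s.im / 2) := by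
  have h : (s - 9 / 4) / 2 = (((s.re - 9 / 4) / 2 : ℝ) : ℂ) + ((s.im / 2 : ℝ) : ℂ) * I := by
    apply Complex.ext <;> simp
  unfold aux
  rw [h, Complex.cos_add_mul_I, ← Complex.ofReal_cos, ← Complex.ofReal_cosh, ← Complex.ofReal_sin,
    ← Complex.ofReal_sinh]
  rw [Complex.sub_re, ← Complex.ofReal_mul, Complex.ofReal_re, ← Complex.ofReal_mul,
    Complex.mul_re, Complex.I_re, Complex.I_im, Complex.ofReal_im]
  simp

lemma half_le_cos {x : ℝ} (h1 : 1 / 2 ≤ x) (h4 : x ≤ 4) : 1 / 2 ≤ Real.cos ((x - 9 / 4) / 2) := by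
  have h : |(x - 9 / 4) / 2| ≤ 1 := by rw [abs_le]; constructor <;> linarith
  have h2 := Real.one_sub_sq_div_two_le_cos (x := (x - 9 / 4) / 2)
  have h3 : ((x - 9 / 4) / 2) ^ 2 ≤ 1 := by
    rw [abs_le] at h
    nlinarith
  linarith

lemma aux_re_ge {s : ℂ} (h1 : 1 / 2 ≤ s.re) (h4 : s.re ≤ 4) :
    Real.cosh (s.im / 2) / 2 ≤ (aux s).re := by
  rw [aux_re]
  have := half_le_cos h1 h4
  have h2 := Real.cosh_pos (s.im / 2)
  nlinarith

/-- exponential beats powers -/
lemma exists_large {K β ε T : ℝ} (hK : 0 ≤ K) (hε : 0 < ε) :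
    ∃ Y : ℝ, T < Y ∧ 1 ≤ Y ∧ (K * Y) ^ β - ε * (Real.cosh (Y / 2) / 2) ≤ 0 := by
  have h1 := (isLittleO_rpow_exp_pos_mul_atTop β (b := 1 / 2) (by norm_num)).bound
    (c := ε / (4 * (K ^ β + 1))) (by positivity)
  obtain ⟨Y, hY1, hYT, hY⟩ := (h1.and ((eventually_gt_atTop T).and (eventually_ge_atTop 1))).exists
  refine ⟨Y, hYT, hY, ?_⟩
  have hY0 : 0 < Y := by linarith
  rw [Real.norm_of_nonneg (by positivity), Real.norm_of_nonneg (Real.exp_pos _).le] at hY1
  have h2 : Real.exp (1 / 2 * Y) / 2 ≤ Real.cosh (Y / 2) := by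
    rw [Real.cosh_eq, show 1 / 2 * Y = Y / 2 by ring]
    have := Real.exp_pos (-(Y / 2))
    linarith
  rw [Real.mul_rpow hK hY0.le]
  have hKβ : 0 ≤ K ^ β := by positivity
  have h3 : K ^ β * Y ^ β ≤ K ^ β * (ε / (4 * (K ^ β + 1)) * Real.exp (1 / 2 * Y)) := by
    gcongr
  have h4 : K ^ β * (ε / (4 * (K ^ β + 1)) * Real.exp (1 / 2 * Y)) ≤ ε * (Real.exp (1 / 2 * Y) / 2 / 2) := by
    have e1 : K ^ β * (ε / (4 * (K ^ β + 1)) * Real.exp (1 / 2 * Y)) =
        (K ^ β / (K ^ β + 1)) * (ε * Real.exp (1 / 2 * Y) / 4) := by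
      field_simp
    rw [e1]
    have e2 : K ^ β / (K ^ β + 1) ≤ 1 := by
      rw [div_le_one (by positivity)]; linarith
    have e3 : 0 ≤ ε * Real.exp (1 / 2 * Y) / 4 := by positivity
    nlinarith
  have h5 : ε * (Real.exp (1 / 2 * Y) / 2 / 2) ≤ ε * (Real.cosh (Y / 2) / 2) := by
    gcongr
  linarith

/-- the closed half strip, truncated at height `Y` -/
def R (T Y : ℝ) : Set ℂ := {s | 1 / 2 ≤ s.re ∧ s.re ≤ 4 ∧ T ≤ s.im ∧ s.im ≤ Y}

lemma isClosed_R (T Y : ℝ) : IsClosed (R T Y) := by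
  apply IsClosed.inter (isClosed_le continuous_const continuous_re)
  apply IsClosed.inter (isClosed_le continuous_re continuous_const)
  exact IsClosed.inter (isClosed_le continuous_const continuous_im)
    (isClosed_le continuous_im continuous_const)

lemma isBounded_R (T Y : ℝ) : Bornology.IsBounded (R T Y) := by
  rw [isBounded_iff_forall_norm_le]
  refine ⟨4 + max |T| |Y|, ?_⟩
  rintro s ⟨h1, h2, h3, h4⟩
  refine (norm_le_abs_re_add_abs_im s).trans ?_
  have h5 : |s.re| ≤ 4 := by rw [abs_le]; constructor <;> linarith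
  have h6 : |s.im| ≤ max |T| |Y| := abs_le_max_abs_abs h3 h4
  linarith

theorem sector_omit {g : ℂ → ℂ} {T K ρ η : ℝ} (hη : 0 < η) (hη2 : η < Real.pi / 2) (hρ : 0 < ρ)
    (hK : 0 ≤ K)
    (hg : ∀ s : ℂ, 1 / 2 ≤ s.re → s.re ≤ 4 → T ≤ s.im → DifferentiableAt ℂ g s)
    (hgrow : ∀ s : ℂ, 1 / 2 ≤ s.re → s.re ≤ 4 → T ≤ s.im → ‖g s‖ ≤ K * s.im)
    (hbdry : ∀ s : ℂ, 1 / 2 ≤ s.re → s.re ≤ 4 → T ≤ s.im →
      (s.re = 1 / 2 ∨ s.re = 4 ∨ s.im = T) → ¬ (ρ < ‖g s‖ ∧ |(g s).arg| < η))
    {s₀ : ℂ} (h1 : 1 / 2 ≤ s₀.re) (h4 : s₀.re ≤ 4) (hT : T ≤ s₀.im) :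
    ¬ (ρ ^ (Real.pi / (2 * η)) < ((g s₀) ^ ((Real.pi / (2 * η) : ℝ) : ℂ)).re ∧
      |(g s₀).arg| < η) := by
  set β : ℝ := Real.pi / (2 * η) with hβ
  have hβ0 : 0 < β := by positivity
  have hβη : η * β = Real.pi / 2 := by rw [hβ]; field_simp
  -- basic facts on the power function
  have hpow_re : ∀ z : ℂ, (z ^ (β : ℂ)).re ≤ ‖z‖ ^ β := by
    intro z
    rw [← norm_cpow_real]
    exact re_le_norm _
  have hlarge : ∀ z : ℂ, ρ ^ β < (z ^ (β : ℂ)).re → ρ < ‖z‖ := by
    intro z hz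
    have := hz.trans_le (hpow_re z)
    exact (Real.rpow_lt_rpow_iff hρ.le (norm_nonneg _) hβ0).mp this
  have hedge : ∀ z : ℂ, |z.arg| = η → (z ^ (β : ℂ)).re = 0 := by
    intro z hz
    rw [cpow_ofReal_re]
    have : Real.cos (z.arg * β) = 0 := by
      rcases abs_eq hη.le |>.mp hz with h | h
      · rw [h, hβη, Real.cos_pi_div_two]
      · rw [h, neg_mul, Real.cos_neg, hβη, Real.cos_pi_div_two]
    rw [this, mul_zero]
  rintro ⟨hu0, harg0⟩
  have hρβ : 0 < ρ ^ β := by positivity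
  -- main estimate for each ε
  have main : ∀ ε > 0, ((g s₀) ^ (β : ℂ)).re ≤ ρ ^ β + ε * (aux s₀).re := by
    intro ε hε
    obtain ⟨Y, hYT, hY1, hY⟩ := exists_large (K := K) (β := β) (T := s₀.im) hK hε
    let U : Set ℂ := {s | (1 / 2 < s.re ∧ s.re < 4 ∧ T < s.im ∧ s.im < Y) ∧ g s ∈ slitPlane ∧
      |(g s).arg| < η ∧ ρ ^ β < ((g s) ^ (β : ℂ)).re}
    have hUR : U ⊆ R T Y := by
      rintro s ⟨⟨a, b, c, d⟩, -⟩
      exact ⟨a.le, b.le, c.le, d.le⟩
    have hgR : ContinuousOn g (R T Y) := fun s hs =>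
      (hg s hs.1 hs.2.1 hs.2.2.1).continuousAt.continuousWithinAt
    -- U is open
    have hUopen : IsOpen U := by
      rw [isOpen_iff_mem_nhds]
      rintro s ⟨⟨a, b, c, d⟩, e1, e2, e3⟩
      have hgs := (hg s a.le b.le c.le).continuousAt
      have n1 : {s : ℂ | 1 / 2 < s.re ∧ s.re < 4 ∧ T < s.im ∧ s.im < Y} ∈ 𝓝 s := by
        refine IsOpen.mem_nhds ?_ (show s ∈ {s : ℂ | 1 / 2 < s.re ∧ s.re < 4 ∧ T < s.im ∧ s.im < Y}
          from ⟨a, b, c, d⟩)
        apply IsOpen.inter (isOpen_lt continuous_const continuous_re)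
        apply IsOpen.inter (isOpen_lt continuous_re continuous_const)
        exact IsOpen.inter (isOpen_lt continuous_const continuous_im)
          (isOpen_lt continuous_im continuous_const)
      have n2 : ∀ᶠ s' in 𝓝 s, g s' ∈ slitPlane := hgs (isOpen_slitPlane.mem_nhds e1)
      have n3 : ∀ᶠ s' in 𝓝 s, |(g s').arg| < η := by
        have hc : ContinuousAt (fun s' => |(g s').arg|) s :=
          (ContinuousAt.comp (f := g) (continuousAt_arg e1) hgs).abs
        exact hc.eventually_lt continuousAt_const e2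
      have n4 : ∀ᶠ s' in 𝓝 s, ρ ^ β < ((g s') ^ (β : ℂ)).re := by
        have hc : ContinuousAt (fun s' => ((g s') ^ (β : ℂ)).re) s :=
          continuous_re.continuousAt.comp (hgs.cpow continuousAt_const e1)
        exact continuousAt_const.eventually_lt hc e3
      filter_upwards [n1, n2, n3, n4] with s' m1 m2 m3 m4
      exact ⟨m1, m2, m3, m4⟩
    -- the closure of U
    have hcl : closure U ⊆ {s | s ∈ R T Y ∧ g s ∈ slitPlane ∧ |(g s).arg| ≤ η ∧
        ρ ^ β ≤ ((g s) ^ (β : ℂ)).re} := by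
      set V : Set ℂ := R T Y ∩ g ⁻¹' {z | 0 ≤ z.re ∧ ρ ≤ ‖z‖} with hV
      have hVcl : IsClosed V := by
        apply hgR.preimage_isClosed_of_isClosed (isClosed_R T Y)
        exact (isClosed_le continuous_const continuous_re).inter
          (isClosed_le continuous_const continuous_norm)
      have hVslit : ∀ s ∈ V, g s ∈ slitPlane := by
        rintro s ⟨-, h0, hn⟩
        rw [mem_slitPlane_iff]
        by_cases him : (g s).im = 0
        · left
          rcases h0.lt_or_eq with h | h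
          · exact h
          · exfalso
            have : g s = 0 := Complex.ext h.symm him
            rw [this, norm_zero] at hn
            linarith
        · right; exact him
      have hUV : U ⊆ V := by
        rintro s hs
        refine ⟨hUR hs, ?_, (hlarge _ hs.2.2.2).le⟩
        have : |(g s).arg| < Real.pi / 2 := hs.2.2.1.trans hη2
        rw [abs_arg_lt_pi_div_two_iff] at this
        rcases this with h | h
        · exact h.le
        · rw [h]; simp
      have hgV : ContinuousOn g V := hgR.mono inter_subset_left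
      have hargV : ContinuousOn (fun s => |(g s).arg|) V := by
        intro s hs
        exact ((continuousAt_arg (hVslit s hs)).comp_continuousWithinAt (hgV s hs)).abs
      have hpowV : ContinuousOn (fun s => ((g s) ^ (β : ℂ)).re) V := by
        intro s hs
        have : ContinuousWithinAt (fun s => (g s) ^ (β : ℂ)) V s :=
          (hgV s hs).cpow continuousWithinAt_const (hVslit s hs)
        exact continuous_re.continuousAt.comp_continuousWithinAt this
      set W : Set ℂ := (V ∩ (fun s => |(g s).arg|) ⁻¹' Iic η) ∩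
        (V ∩ (fun s => ((g s) ^ (β : ℂ)).re) ⁻¹' Ici (ρ ^ β)) with hW
      have hWcl : IsClosed W :=
        (hargV.preimage_isClosed_of_isClosed hVcl isClosed_Iic).inter
          (hpowV.preimage_isClosed_of_isClosed hVcl isClosed_Ici)
      have hUW : U ⊆ W := fun s hs => ⟨⟨hUV hs, hs.2.2.1.le⟩, ⟨hUV hs, hs.2.2.2.le⟩⟩
      intro s hs
      have := closure_minimal hUW hWcl hs
      exact ⟨this.1.1.1, hVslit s this.1.1, this.1.2, this.2.2⟩
    -- the analytic function
    let F : ℂ → ℂ := fun s => Complex.exp ((g s) ^ (β : ℂ) - ε * aux s)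
    have hFd : DiffContOnCl ℂ F U := by
      apply DifferentiableOn.diffContOnCl
      intro s hs
      obtain ⟨h1, h2, h3, h4⟩ := hcl hs
      have hgs := hg s h1.1 h1.2.1 h1.2.2.1
      apply DifferentiableAt.differentiableWithinAt
      apply DifferentiableAt.cexp
      apply DifferentiableAt.sub
      · exact hgs.cpow (differentiableAt_const _) h2
      · unfold aux
        fun_prop
    have hFn : ∀ s, ‖F s‖ = Real.exp (((g s) ^ (β : ℂ)).re - ε * (aux s).re) := by
      intro s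
      simp only [F, Complex.norm_exp, sub_re, re_ofReal_mul]
    have hfront : ∀ s ∈ frontier U, ‖F s‖ ≤ Real.exp (ρ ^ β) := by
      intro s hs
      rw [hUopen.frontier_eq] at hs
      obtain ⟨hsc, hsU⟩ := hs
      obtain ⟨hR, h2, h3, h5⟩ := hcl hsc
      rw [hFn, Real.exp_le_exp]
      have haux := aux_re_ge hR.1 hR.2.1
      have hauxpos : 0 ≤ (aux s).re := by
        have := Real.cosh_pos (s.im / 2)
        linarith
      by_cases hYs : s.im = Y
      · have e1 := hpow_re (g s)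
        have e2 : ‖g s‖ ^ β ≤ (K * Y) ^ β := by
          rw [← hYs]
          exact Real.rpow_le_rpow (norm_nonneg _) (hgrow s hR.1 hR.2.1 hR.2.2.1) hβ0.le
        rw [hYs] at haux
        have e3 : ε * (Real.cosh (Y / 2) / 2) ≤ ε * (aux s).re := by gcongr
        linarith
      · have hYs' : s.im < Y := lt_of_le_of_ne hR.2.2.2 hYs
        suffices hle : ((g s) ^ (β : ℂ)).re ≤ ρ ^ β by
          have : 0 ≤ ε * (aux s).re := by positivity
          linarith
        by_contra hgt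
        push Not at hgt
        have harg : |(g s).arg| < η := by
          refine lt_of_le_of_ne h3 ?_
          intro h
          rw [hedge _ h] at hgt
          linarith
        have hnorm := hlarge _ hgt
        by_cases hb : s.re = 1 / 2 ∨ s.re = 4 ∨ s.im = T
        · exact hbdry s hR.1 hR.2.1 hR.2.2.1 hb ⟨hnorm, harg⟩
        · push Not at hb
          apply hsU
          exact ⟨⟨lt_of_le_of_ne hR.1 (Ne.symm hb.1), lt_of_le_of_ne hR.2.1 hb.2.1,
            lt_of_le_of_ne hR.2.2.1 (Ne.symm hb.2.2), hYs'⟩, h2, harg, hgt⟩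
    -- s₀ belongs to U
    have hs₀ : s₀ ∈ U := by
      have hnorm := hlarge _ hu0
      have hb : ¬ (s₀.re = 1 / 2 ∨ s₀.re = 4 ∨ s₀.im = T) := fun hb =>
        hbdry s₀ h1 h4 hT hb ⟨hnorm, harg0⟩
      push Not at hb
      refine ⟨⟨lt_of_le_of_ne h1 (Ne.symm hb.1), lt_of_le_of_ne h4 hb.2.1,
        lt_of_le_of_ne hT (Ne.symm hb.2.2), hYT⟩, ?_, harg0, hu0⟩
      have : |(g s₀).arg| < Real.pi / 2 := harg0.trans hη2
      rw [abs_arg_lt_pi_div_two_iff] at this
      rw [mem_slitPlane_iff]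
      rcases this with h | h
      · left; exact h
      · exfalso
        rw [h, norm_zero] at hnorm
        linarith
    have hbd := norm_le_of_forall_mem_frontier_norm_le ((isBounded_R T Y).subset hUR) hFd hfront
      (subset_closure hs₀)
    rw [hFn, Real.exp_le_exp] at hbd
    linarith
  -- let ε → 0
  have hauxpos : 0 < (aux s₀).re := by
    have h5 := aux_re_ge h1 h4
    have := Real.cosh_pos (s₀.im / 2)
    linarith
  have hgap : 0 < ((g s₀) ^ (β : ℂ)).re - ρ ^ β := by linarith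
  have := main ((((g s₀) ^ (β : ℂ)).re - ρ ^ β) / (2 * (aux s₀).re)) (by positivity)
  have e : (((g s₀) ^ (β : ℂ)).re - ρ ^ β) / (2 * (aux s₀).re) * (aux s₀).re =
      (((g s₀) ^ (β : ℂ)).re - ρ ^ β) / 2 := by field_simp
  rw [e] at this
  linarith

/-- Consequence: inside the half strip no real value larger than `ρ` is taken. -/
theorem ray_omit {g : ℂ → ℂ} {T K ρ η : ℝ} (hη : 0 < η) (hη2 : η < Real.pi / 2) (hρ : 0 < ρ)
    (hK : 0 ≤ K)
    (hg : ∀ s : ℂ, 1 / 2 ≤ s.re → s.re ≤ 4 → T ≤ s.im → DifferentiableAt ℂ g s)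
    (hgrow : ∀ s : ℂ, 1 / 2 ≤ s.re → s.re ≤ 4 → T ≤ s.im → ‖g s‖ ≤ K * s.im)
    (hbdry : ∀ s : ℂ, 1 / 2 ≤ s.re → s.re ≤ 4 → T ≤ s.im →
      (s.re = 1 / 2 ∨ s.re = 4 ∨ s.im = T) → ¬ (ρ < ‖g s‖ ∧ |(g s).arg| < η))
    {s₀ : ℂ} (h1 : 1 / 2 ≤ s₀.re) (h4 : s₀.re ≤ 4) (hT : T ≤ s₀.im) (r : ℝ) (hr : ρ < r) :
    g s₀ ≠ r := by
  intro h
  apply sector_omit hη hη2 hρ hK hg hgrow hbdry h1 h4 hT
  have hr0 : 0 < r := by linarith
  rw [h]
  refine ⟨?_, ?_⟩
  · rw [cpow_ofReal_re, Complex.arg_ofReal_of_nonneg hr0.le, zero_mul, Real.cos_zero, mul_one,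
      Complex.norm_real, Real.norm_of_nonneg hr0.le]
    exact Real.rpow_lt_rpow hρ.le hr (by positivity)
  · rw [Complex.arg_ofReal_of_nonneg hr0.le, abs_zero]
    exact hη

end Pool.Agent.Lib.SectorOmit
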