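import Mathlib

set_option autoImplicit false

/-!
# Structured multi-stack programs and their compilation to Mathlib's TM2 machines

`StackProg.Prog K Γ σ` is a small structured language (push, pop, load, sequencing, branching on the
finite register, `loop k f p` = while stack `k` is nonempty: pop the top symbol `c`, set the
register to `f v c`, run `p`).  `StackProg.Exec p s t s'` is its big-step semantics with exact
step count `t`.  `StackProg.machine` compiles a program to a `Turing.FinTM2`, and
`StackProg.computable` turns a polynomially bounded family of executions into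
`Turing.TM2ComputableInPolyTime`.
-/

namespace Pool.Agent.StackProg

open Turing Function

/-- structured programs over stacks `K`, stack alphabet `Γ`, finite register `σ` -/
inductive Prog (K Γ σ : Type) : Type
  | skip : Prog K Γ σ
  | push (k : K) (f : σ → Γ) : Prog K Γ σ
  | pop (k : K) (f : σ → Option Γ → σ) : Prog K Γ σ
  | load (f : σ → σ) : Prog K Γ σ
  | seq (p q : Prog K Γ σ) : Prog K Γ σ
  | ite (f : σ → Bool) (p q : Prog K Γ σ) : Prog K Γ σ
  | loop (k : K) (f : σ → Γ → σ) (p : Prog K Γ σ) : Prog K Γ σ

variable {K Γ σ : Type} [DecidableEq K]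

/-- big-step semantics with exact number of machine steps -/
inductive Exec : Prog K Γ σ → σ × (K → List Γ) → ℕ → σ × (K → List Γ) → Prop
  | skip (s : σ × (K → List Γ)) : Exec .skip s 1 s
  | push (k : K) (f : σ → Γ) (v : σ) (S : K → List Γ) :
      Exec (.push k f) (v, S) 1 (v, update S k (f v :: S k))
  | pop (k : K) (f : σ → Option Γ → σ) (v : σ) (S : K → List Γ) :
      Exec (.pop k f) (v, S) 1 (f v (S k).head?, update S k (S k).tail)
  | load (f : σ → σ) (v : σ) (S : K → List Γ) : Exec (.load f) (v, S) 1 (f v, S)
  | seq {p q : Prog K Γ σ} {s s' s'' : σ × (K → List Γ)} {t t' : ℕ} :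
      Exec p s t s' → Exec q s' t' s'' → Exec (.seq p q) s (t + t') s''
  | iteT {f : σ → Bool} {p q : Prog K Γ σ} {v : σ} {S : K → List Γ} {s' : σ × (K → List Γ)}
      {t : ℕ} : f v = true → Exec p (v, S) t s' → Exec (.ite f p q) (v, S) (1 + t) s'
  | iteF {f : σ → Bool} {p q : Prog K Γ σ} {v : σ} {S : K → List Γ} {s' : σ × (K → List Γ)}
      {t : ℕ} : f v = false → Exec q (v, S) t s' → Exec (.ite f p q) (v, S) (1 + t) s'
  | loopNil {k : K} {f : σ → Γ → σ} {p : Prog K Γ σ} {v : σ} {S : K → List Γ} :
      S k = [] → Exec (.loop k f p) (v, S) 1 (v, S)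
  | loopCons {k : K} {f : σ → Γ → σ} {p : Prog K Γ σ} {v : σ} {S : K → List Γ} {c : Γ}
      {l : List Γ} {s' s'' : σ × (K → List Γ)} {t t' : ℕ} :
      S k = c :: l → Exec p (f v c, update S k l) t s' → Exec (.loop k f p) s' t' s'' →
      Exec (.loop k f p) (v, S) (1 + t + t') s''

/-- labels of the compiled machine -/
def Lab : Prog K Γ σ → Type
  | .skip => Unit
  | .push _ _ => Unit
  | .pop _ _ => Unit
  | .load _ => Unit
  | .seq p q => Lab p ⊕ Lab q
  | .ite _ p q => Option (Lab p ⊕ Lab q)
  | .loop _ _ p => Option (Lab p)

/-- there are finitely many labels -/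
@[reducible] def labFintype : (p : Prog K Γ σ) → Fintype (Lab p)
  | .skip => inferInstanceAs (Fintype Unit)
  | .push _ _ => inferInstanceAs (Fintype Unit)
  | .pop _ _ => inferInstanceAs (Fintype Unit)
  | .load _ => inferInstanceAs (Fintype Unit)
  | .seq p q =>
      letI := labFintype p
      letI := labFintype q
      inferInstanceAs (Fintype (Lab p ⊕ Lab q))
  | .ite _ p q =>
      letI := labFintype p
      letI := labFintype q
      inferInstanceAs (Fintype (Option (Lab p ⊕ Lab q)))
  | .loop _ _ p =>
      letI := labFintype p
      inferInstanceAs (Fintype (Option (Lab p)))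

/-- entry label -/
def entry : (p : Prog K Γ σ) → Lab p
  | .skip => ()
  | .push _ _ => ()
  | .pop _ _ => ()
  | .load _ => ()
  | .seq p _ => Sum.inl (entry p)
  | .ite _ _ _ => none
  | .loop _ _ _ => none

/-- machine code; `emb` embeds the labels of `p` into those of the whole machine, `ex` is the
label to jump to at the end. -/
def code {Λ : Type} : (p : Prog K Γ σ) → (Lab p → Λ) → Λ → Lab p →
    TM2.Stmt (fun _ : K => Γ) Λ (σ × Option Γ)
  | .skip, _, ex, _ => .goto fun _ => ex
  | .push k f, _, ex, _ => .push k (fun v => f v.1) (.goto fun _ => ex)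
  | .pop k f, _, ex, _ => .pop k (fun v o => (f v.1 o, none)) (.goto fun _ => ex)
  | .load f, _, ex, _ => .load (fun v => (f v.1, none)) (.goto fun _ => ex)
  | .seq p q, emb, ex, .inl l => code p (fun x => emb (.inl x)) (emb (.inr (entry q))) l
  | .seq _ q, emb, ex, .inr l => code q (fun x => emb (.inr x)) ex l
  | .ite f p q, emb, _, none =>
      .branch (fun v => f v.1) (.goto fun _ => emb (some (.inl (entry p))))
        (.goto fun _ => emb (some (.inr (entry q))))
  | .ite _ p _, emb, ex, some (.inl l) => code p (fun x => emb (some (.inl x))) ex l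
  | .ite _ _ q, emb, ex, some (.inr l) => code q (fun x => emb (some (.inr x))) ex l
  | .loop k f p, emb, ex, none =>
      .pop k (fun v o => match o with
        | none => (v.1, none)
        | some c => (f v.1 c, some c))
        (.branch (fun v => v.2.isSome)
          (.load (fun v => (v.1, none)) (.goto fun _ => emb (some (entry p))))
          (.goto fun _ => ex))
  | .loop _ _ p, emb, _, some l => code p (fun x => emb (some x)) (emb none) l

/-- iterated steps of a machine -/
def stepsTo {Λ : Type} (M : Λ → TM2.Stmt (fun _ : K => Γ) Λ (σ × Option Γ)) (t : ℕ)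
    (a b : TM2.Cfg (fun _ : K => Γ) Λ (σ × Option Γ)) : Prop :=
  (flip bind (TM2.step M))^[t] (some a) = some b

lemma stepsTo.trans {Λ : Type} {M : Λ → TM2.Stmt (fun _ : K => Γ) Λ (σ × Option Γ)} {t t' : ℕ}
    {a b c : TM2.Cfg (fun _ : K => Γ) Λ (σ × Option Γ)} (h : stepsTo M t a b)
    (h' : stepsTo M t' b c) : stepsTo M (t + t') a c := by
  unfold stepsTo at *
  rw [Nat.add_comm, Function.iterate_add_apply, h, h']

lemma stepsTo_one {Λ : Type} {M : Λ → TM2.Stmt (fun _ : K => Γ) Λ (σ × Option Γ)}
    {a b : TM2.Cfg (fun _ : K => Γ) Λ (σ × Option Γ)} (h : TM2.step M a = some b) :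
    stepsTo M 1 a b := by
  unfold stepsTo
  simp only [Function.iterate_one]
  exact h

/-- correctness of the compiler -/
theorem sim {Λ : Type} (M : Λ → TM2.Stmt (fun _ : K => Γ) Λ (σ × Option Γ))
    {p : Prog K Γ σ} {s s' : σ × (K → List Γ)} {t : ℕ} (h : Exec p s t s') :
    ∀ (emb : Lab p → Λ) (ex : Λ), (∀ l, M (emb l) = code p emb ex l) →
      stepsTo M t ⟨some (emb (entry p)), (s.1, none), s.2⟩ ⟨some ex, (s'.1, none), s'.2⟩ := by
  induction h with
  | skip s =>
    intro emb ex hM
    apply stepsTo_one
    simp only [TM2.step, hM]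
    rfl
  | push k f v S =>
    intro emb ex hM
    apply stepsTo_one
    simp only [TM2.step, hM]
    rfl
  | pop k f v S =>
    intro emb ex hM
    apply stepsTo_one
    simp only [TM2.step, hM]
    rfl
  | load f v S =>
    intro emb ex hM
    apply stepsTo_one
    simp only [TM2.step, hM]
    rfl
  | seq _ _ ih1 ih2 =>
    intro emb ex hM
    refine stepsTo.trans (ih1 (fun x => emb (.inl x)) _ (fun l => hM (.inl l)))
      (ih2 (fun x => emb (.inr x)) ex (fun l => hM (.inr l)))
  | @iteT f p q v S s' t hf _ ih =>
    intro emb ex hM
    refine stepsTo.trans (stepsTo_one ?_)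
      (ih (fun x => emb (some (.inl x))) ex (fun l => hM (some (.inl l))))
    simp only [TM2.step, hM]
    simp only [entry, code, TM2.stepAux, hf, cond_true]
  | @iteF f p q v S s' t hf _ ih =>
    intro emb ex hM
    refine stepsTo.trans (stepsTo_one ?_)
      (ih (fun x => emb (some (.inr x))) ex (fun l => hM (some (.inr l))))
    simp only [TM2.step, hM]
    simp only [entry, code, TM2.stepAux, hf, cond_false]
  | @loopNil k f p v S hS =>
    intro emb ex hM
    apply stepsTo_one
    simp only [TM2.step, hM]
    simp only [entry, code, TM2.stepAux, hS, List.head?_nil, List.tail_nil, Option.isSome_none,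
      cond_false]
    rw [← hS, update_eq_self]
  | @loopCons k f p v S c l s' s'' t t' hS _ _ ih1 ih2 =>
    intro emb ex hM
    refine stepsTo.trans (stepsTo.trans (stepsTo_one ?_)
      (ih1 (fun x => emb (some x)) (emb none) (fun l => hM (some l)))) (ih2 emb ex hM)
    simp only [TM2.step, hM]
    simp only [entry, code, TM2.stepAux, hS, List.head?_cons, List.tail_cons, Option.isSome_some,
      cond_true]

/-- the machine of a program -/
def machine (p : Prog K Γ σ) : Option (Lab p) →
    TM2.Stmt (fun _ : K => Γ) (Option (Lab p)) (σ × Option Γ)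
  | none => .halt
  | some l => code p some none l

/-- the bundled machine -/
def tm [Fintype K] [Fintype Γ] [Fintype σ] (p : Prog K Γ σ) (k₀ k₁ : K) (v₀ : σ) : FinTM2 :=
  letI := labFintype p
  { K := K
    k₀ := k₀
    k₁ := k₁
    Γ := fun _ => Γ
    Λ := Option (Lab p)
    main := some (entry p)
    σ := σ × Option Γ
    initialState := (v₀, none)
    m := machine p }

/-- the stack contents with only stack `k` nonempty -/
def only (k : K) (l : List Γ) : K → List Γ := fun j => if j = k then l else []

/-- A program which, started with the encoded input on stack `k₀` and all other stacks empty,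
reaches in polynomially many steps the state with the encoded output on stack `k₁`, all other
stacks empty and initial register, gives a polynomial time TM2 computation. -/
theorem computable [Fintype K] [Fintype Γ] [Fintype σ] {α β : Type} {ea : α → List Γ}
    {eb : β → List Γ} {f : α → β} (p : Prog K Γ σ) (k₀ k₁ : K) (v₀ : σ) (T : Polynomial ℕ)
    (h : ∀ a, ∃ t, t ≤ T.eval (ea a).length ∧
      Exec p (v₀, only k₀ (ea a)) t (v₀, only k₁ (eb (f a)))) :
    Nonempty (TM2ComputableInPolyTime ea eb f) := by
  classical
  refine ⟨{ tm := tm p k₀ k₁ v₀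
            inputAlphabet := Equiv.refl Γ
            outputAlphabet := Equiv.refl Γ
            time := T + 1
            outputsFun := ?_ }⟩
  intro a
  have ht := (h a).choose_spec
  refine { steps := (h a).choose + 1
           evals_in_steps := ?_
           steps_le_m := ?_ }
  · have h1 := sim (machine p) ht.2 some none (fun l => rfl)
    have h2 : stepsTo (machine p) 1 ⟨some none, (v₀, none), only k₁ (eb (f a))⟩
        ⟨none, (v₀, none), only k₁ (eb (f a))⟩ := stepsTo_one rfl
    have h3 := h1.trans h2
    unfold stepsTo at h3
    have hinit : initList (tm p k₀ k₁ v₀) (List.map (Equiv.refl Γ).invFun (ea a)) =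
        ⟨some (some (entry p)), (v₀, none), only k₀ (ea a)⟩ := by
      unfold initList
      congr 1
      funext k
      by_cases hk : k = k₀
      · simp only [only, if_pos hk]
        exact (dif_pos hk).trans (List.map_id _)
      · simp only [only, if_neg hk]
        exact dif_neg hk
    have hhalt : haltList (tm p k₀ k₁ v₀) (List.map (Equiv.refl Γ).invFun (eb (f a))) =
        ⟨none, (v₀, none), only k₁ (eb (f a))⟩ := by
      unfold haltList
      congr 1
      funext k
      by_cases hk : k = k₁
      · simp only [only, if_pos hk]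
        exact (dif_pos hk).trans (List.map_id _)
      · simp only [only, if_neg hk]
        exact dif_neg hk
    rw [hinit]
    simp only [Option.map_some]
    rw [hhalt]
    exact h3
  · have := ht.1
    simp only [Polynomial.eval_add, Polynomial.eval_one]
    omega

end Pool.Agent.StackProg
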