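import Mathlib

/-!
# Two flags in general position relative to a subspace

`F`, `G` are increasing families of subspaces of `V` and `K` is a subspace such that
`dim (F c ∩ G e ∩ K) = c + e - (A + n)`.  Subspaces `H ⊆ K` of dimension `k` with
`dim (H ∩ F (c i)) ≥ i + 1`, `dim (H ∩ G (e i)) ≥ k - i` exist iff `c i + e i = A + n + 1` for all
`i` (given the total codimension), and then there is exactly one and it is transverse.
-/

set_option autoImplicit false
set_option linter.unusedSectionVars false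

namespace Pool.Agent.TwoFlags

open Module Submodule

variable {𝕜 V : Type*} [Field 𝕜] [AddCommGroup V] [Module 𝕜 V] [FiniteDimensional 𝕜 V]

/-- Data: two families and a subspace in general position. -/
structure Pos (n A : ℕ) (F G : ℕ → Submodule 𝕜 V) (K : Submodule 𝕜 V) : Prop where
  dimV : finrank 𝕜 V = n
  monoF : Monotone F
  monoG : Monotone G
  topF : F n = ⊤
  topG : G n = ⊤
  dimF : ∀ c ≤ n, finrank 𝕜 (F c) = c
  dimG : ∀ c ≤ n, finrank 𝕜 (G c) = c
  gp : ∀ c e, c ≤ n → e ≤ n → finrank 𝕜 ↥(F c ⊓ G e ⊓ K) = c + e - (A + n)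

variable {n A : ℕ} {F G : ℕ → Submodule 𝕜 V} {K : Submodule 𝕜 V}

lemma Pos.symm (h : Pos n A F G K) : Pos n A G F K where
  dimV := h.dimV
  monoF := h.monoG
  monoG := h.monoF
  topF := h.topG
  topG := h.topF
  dimF := h.dimG
  dimG := h.dimF
  gp c e hc he := by rw [inf_comm (G c) (F e), h.gp e c he hc, add_comm e c]

lemma Pos.dimFK (h : Pos n A F G K) {c : ℕ} (hc : c ≤ n) : finrank 𝕜 ↥(F c ⊓ K) = c - A := by
  have h1 := h.gp c n hc le_rfl
  rw [h.topG, inf_top_eq] at h1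
  omega

lemma Pos.dimK (h : Pos n A F G K) : finrank 𝕜 K = n - A := by
  have h1 := h.dimFK le_rfl
  rwa [h.topF, top_inf_eq] at h1

lemma inf_dim (U W : Submodule 𝕜 V) {T : Submodule 𝕜 V} (hU : U ≤ T) (hW : W ≤ T) :
    finrank 𝕜 U + finrank 𝕜 W ≤ finrank 𝕜 ↥(U ⊓ W) + finrank 𝕜 T := by
  have h1 := Submodule.finrank_sup_add_finrank_inf_eq U W
  have h2 : finrank 𝕜 ↥(U ⊔ W) ≤ finrank 𝕜 T := Submodule.finrank_mono (sup_le hU hW)
  omega

/-- the intersection of `H` with one member of each family -/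
lemma inter_dim {H : Submodule 𝕜 V} (f g : Submodule 𝕜 V) :
    finrank 𝕜 ↥(H ⊓ f) + finrank 𝕜 ↥(H ⊓ g) ≤ finrank 𝕜 ↥(f ⊓ g ⊓ H) + finrank 𝕜 H := by
  have h1 := inf_dim (H ⊓ f) (H ⊓ g) (T := H) inf_le_left inf_le_left
  have h2 : (H ⊓ f) ⊓ (H ⊓ g) = f ⊓ g ⊓ H := by
    apply le_antisymm
    · exact le_inf (le_inf (inf_le_left.trans inf_le_right) (inf_le_right.trans inf_le_right))
        (inf_le_left.trans inf_le_left)
    · exact le_inf (le_inf inf_le_right (inf_le_left.trans inf_le_left))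
        (le_inf inf_le_right (inf_le_left.trans inf_le_right))
  rw [h2] at h1
  exact h1

/-- `H` satisfies the Schubert conditions. -/
structure Cond {k : ℕ} (F G : ℕ → Submodule 𝕜 V) (K : Submodule 𝕜 V) (c e : Fin k → ℕ)
    (H : Submodule 𝕜 V) : Prop where
  dim : finrank 𝕜 H = k
  le : H ≤ K
  hF : ∀ i : Fin k, (i : ℕ) + 1 ≤ finrank 𝕜 ↥(H ⊓ F (c i))
  hG : ∀ i : Fin k, k ≤ finrank 𝕜 ↥(H ⊓ G (e i)) + i

variable {k : ℕ} {c e : Fin k → ℕ}

lemma Cond.inter_pos {H : Submodule 𝕜 V} (hH : Cond F G K c e H) (i : Fin k) :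
    1 ≤ finrank 𝕜 ↥(F (c i) ⊓ G (e i) ⊓ H) := by
  have h1 := inter_dim (H := H) (F (c i)) (G (e i))
  have h2 := hH.hF i
  have h3 := hH.hG i
  rw [hH.dim] at h1
  omega

/-- necessary condition -/
lemma Cond.le_sum (h : Pos n A F G K) {H : Submodule 𝕜 V} (hH : Cond F G K c e H) (i : Fin k)
    (hc : c i ≤ n) (he : e i ≤ n) : A + n + 1 ≤ c i + e i := by
  have h1 := hH.inter_pos i
  have h2 : finrank 𝕜 ↥(F (c i) ⊓ G (e i) ⊓ H) ≤ finrank 𝕜 ↥(F (c i) ⊓ G (e i) ⊓ K) :=
    Submodule.finrank_mono (inf_le_inf_left _ hH.le)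
  rw [h.gp _ _ hc he] at h2
  omega

/-- Complementary data. -/
structure Compl (n A : ℕ) {k : ℕ} (c e : Fin k → ℕ) : Prop where
  sum : ∀ i, c i + e i = A + n + 1
  le_c : ∀ i, c i ≤ n
  le_e : ∀ i, e i ≤ n
  strict : StrictMono c

lemma Compl.anti (h : Compl n A c e) : StrictAnti e := by
  intro i j hij
  have h1 := h.strict hij
  have h2 := h.sum i
  have h3 := h.sum j
  omega

/-- the line `F (c i) ∩ G (e i) ∩ K` -/
def line (F G : ℕ → Submodule 𝕜 V) (K : Submodule 𝕜 V) (c e : Fin k → ℕ) (i : Fin k) :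
    Submodule 𝕜 V := F (c i) ⊓ G (e i) ⊓ K

/-- the unique solution -/
def sol (F G : ℕ → Submodule 𝕜 V) (K : Submodule 𝕜 V) (c e : Fin k → ℕ) : Submodule 𝕜 V :=
  ⨆ i, line F G K c e i

lemma finrank_line (h : Pos n A F G K) (hce : Compl n A c e) (i : Fin k) :
    finrank 𝕜 (line F G K c e i) = 1 := by
  rw [line, h.gp _ _ (hce.le_c i) (hce.le_e i), hce.sum i]
  omega

lemma exists_vec (h : Pos n A F G K) (hce : Compl n A c e) (i : Fin k) :
    ∃ v : V, v ≠ 0 ∧ line F G K c e i = 𝕜 ∙ v := by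
  obtain ⟨v, hv0, hv⟩ := finrank_eq_one_iff'.mp (finrank_line h hce i)
  refine ⟨(v : V), fun h0 => hv0 (Subtype.ext h0), ?_⟩
  apply le_antisymm
  · intro w hw
    obtain ⟨a, ha⟩ := hv ⟨w, hw⟩
    rw [mem_span_singleton]
    exact ⟨a, congrArg Subtype.val ha⟩
  · rw [span_singleton_le_iff_mem]
    exact v.2

lemma indep_vec (h : Pos n A F G K) (hce : Compl n A c e) (v : Fin k → V)
    (hv0 : ∀ i, v i ≠ 0) (hv : ∀ i, line F G K c e i = 𝕜 ∙ v i) : LinearIndependent 𝕜 v := by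
  have hmem : ∀ i, v i ∈ line F G K c e i := fun i => by
    rw [hv i]; exact mem_span_singleton_self _
  rw [Fintype.linearIndependent_iff]
  intro a ha
  by_contra hcon
  push Not at hcon
  have hdec : DecidablePred fun i : Fin k => a i ≠ 0 := Classical.decPred _
  obtain ⟨i₀, hi₀, hmax⟩ := (Finset.univ.filter fun i => a i ≠ 0).exists_max_image id
    (by obtain ⟨i, hi⟩ := hcon; exact ⟨i, by simp [hi]⟩)
  simp only [Finset.mem_filter, Finset.mem_univ, true_and, id] at hi₀ hmax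
  -- `v i₀` lies in `F (c i₀ - 1)`
  have hci : 1 ≤ c i₀ := by
    have := hce.sum i₀; have := hce.le_e i₀; omega
  have h1 : a i₀ • v i₀ ∈ F (c i₀ - 1) := by
    have h2 : a i₀ • v i₀ = - ∑ i ∈ Finset.univ.erase i₀, a i • v i := by
      rw [eq_neg_iff_add_eq_zero]
      exact (Finset.add_sum_erase Finset.univ (fun i => a i • v i) (Finset.mem_univ i₀)).trans ha
    rw [h2]
    refine neg_mem (sum_mem fun i hi => ?_)
    have hne := Finset.ne_of_mem_erase hi
    by_cases hai : a i = 0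
    · rw [hai, zero_smul]; exact zero_mem _
    · have hlt : i < i₀ := lt_of_le_of_ne (hmax i hai) hne
      have := hce.strict hlt
      exact smul_mem _ _ (h.monoF (by omega) (mem_inf.mp (mem_inf.mp (hmem i)).1).1)
  have h2 : v i₀ ∈ F (c i₀ - 1) := by
    have := smul_mem _ (a i₀)⁻¹ h1
    rwa [smul_smul, inv_mul_cancel₀ hi₀, one_smul] at this
  have h3 : v i₀ ∈ F (c i₀ - 1) ⊓ G (e i₀) ⊓ K :=
    mem_inf.mpr ⟨mem_inf.mpr ⟨h2, (mem_inf.mp (mem_inf.mp (hmem i₀)).1).2⟩,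
      (mem_inf.mp (hmem i₀)).2⟩
  have h4 := h.gp (c i₀ - 1) (e i₀) (by have := hce.le_c i₀; omega) (hce.le_e i₀)
  have h5 : c i₀ - 1 + e i₀ - (A + n) = 0 := by have := hce.sum i₀; omega
  rw [h5, Submodule.finrank_eq_zero] at h4
  rw [h4, mem_bot] at h3
  exact hv0 i₀ h3

lemma finrank_sol (h : Pos n A F G K) (hce : Compl n A c e) :
    finrank 𝕜 (sol F G K c e) = k := by
  choose v hv0 hv using exists_vec h hce
  have hli := indep_vec h hce v hv0 hv
  have : sol F G K c e = span 𝕜 (Set.range v) := by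
    rw [sol, span_range_eq_iSup]
    exact iSup_congr hv
  rw [this, finrank_span_eq_card hli, Fintype.card_fin]

lemma card_le_of_indep {ι : Type*} [Fintype ι] {v : ι → V} (hli : LinearIndependent 𝕜 v)
    {W : Submodule 𝕜 V} (hW : ∀ i, v i ∈ W) : Fintype.card ι ≤ finrank 𝕜 W := by
  have : LinearIndependent 𝕜 (fun i => (⟨v i, hW i⟩ : W)) := by
    rw [← LinearMap.linearIndependent_iff_of_injOn W.subtype] <;> [skip; exact
      (Submodule.subtype_injective W).injOn]
    exact hli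
  exact this.fintype_card_le_finrank

lemma sol_cond (h : Pos n A F G K) (hce : Compl n A c e) :
    Cond F G K c e (sol F G K c e) := by
  choose v hv0 hv using exists_vec h hce
  have hli := indep_vec h hce v hv0 hv
  have hmem : ∀ i, v i ∈ line F G K c e i := fun i => by
    rw [hv i]; exact mem_span_singleton_self _
  have hsol : ∀ i, v i ∈ sol F G K c e := fun i => mem_iSup_of_mem i (hmem i)
  refine ⟨finrank_sol h hce, ?_, ?_, ?_⟩
  · exact iSup_le fun i => inf_le_right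
  · intro i
    have h1 := card_le_of_indep (W := sol F G K c e ⊓ F (c i))
      (hli.comp (fun j : {j : Fin k // j ≤ i} => j.1) Subtype.val_injective) (fun j =>
        mem_inf.mpr ⟨hsol _, h.monoF (hce.strict.monotone j.2)
          (mem_inf.mp (mem_inf.mp (hmem j)).1).1⟩)
    have h2 : Fintype.card {j : Fin k // j ≤ i} = (i : ℕ) + 1 := by
      rw [Fintype.card_subtype]
      have : Finset.univ.filter (fun j : Fin k => j ≤ i) = Finset.Iic i := by ext j; simp
      rw [this, Fin.card_Iic]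
    omega
  · intro i
    have h1 := card_le_of_indep (W := sol F G K c e ⊓ G (e i))
      (hli.comp (fun j : {j : Fin k // i ≤ j} => j.1) Subtype.val_injective) (fun j =>
        mem_inf.mpr ⟨hsol _, h.monoG (hce.anti.antitone j.2)
          (mem_inf.mp (mem_inf.mp (hmem j)).1).2⟩)
    have h2 : Fintype.card {j : Fin k // i ≤ j} = k - (i : ℕ) := by
      rw [Fintype.card_subtype]
      have : Finset.univ.filter (fun j : Fin k => i ≤ j) = Finset.Ici i := by ext j; simp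
      rw [this, Fin.card_Ici]
    have := i.2
    omega

lemma cond_unique (h : Pos n A F G K) (hce : Compl n A c e) {H : Submodule 𝕜 V}
    (hH : Cond F G K c e H) : H = sol F G K c e := by
  have hle : sol F G K c e ≤ H := by
    refine iSup_le fun i => ?_
    have h1 := hH.inter_pos i
    have h2 : F (c i) ⊓ G (e i) ⊓ H ≤ line F G K c e i := inf_le_inf_left _ hH.le
    have h3 : F (c i) ⊓ G (e i) ⊓ H = line F G K c e i := by
      apply Submodule.eq_of_le_of_finrank_le h2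
      rw [finrank_line h hce]
      exact h1
    rw [← h3]
    exact inf_le_right
  symm
  apply Submodule.eq_of_le_of_finrank_le hle
  rw [finrank_sol h hce, hH.dim]

lemma exactF (h : Pos n A F G K) (hce : Compl n A c e) {H : Submodule 𝕜 V}
    (hH : Cond F G K c e H) (i : Fin k) : finrank 𝕜 ↥(H ⊓ F (c i)) = (i : ℕ) + 1 := by
  apply le_antisymm _ (hH.hF i)
  by_contra hcon
  push Not at hcon
  have hi : (i : ℕ) + 1 < k := by
    have h1 : finrank 𝕜 ↥(H ⊓ F (c i)) ≤ finrank 𝕜 H := Submodule.finrank_mono inf_le_left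
    rw [hH.dim] at h1
    omega
  have h1 := inter_dim (H := H) (F (c i)) (G (e ⟨i + 1, hi⟩))
  have h2 := hH.hG ⟨i + 1, hi⟩
  rw [hH.dim] at h1
  simp only at h2
  have h3 : finrank 𝕜 ↥(F (c i) ⊓ G (e ⟨i + 1, hi⟩) ⊓ H) ≤
      finrank 𝕜 ↥(F (c i) ⊓ G (e ⟨i + 1, hi⟩) ⊓ K) :=
    Submodule.finrank_mono (inf_le_inf_left _ hH.le)
  rw [h.gp _ _ (hce.le_c i) (hce.le_e _)] at h3
  have h4 := hce.sum ⟨i + 1, hi⟩
  have h5 : c i < c ⟨i + 1, hi⟩ := hce.strict (Fin.lt_def.mpr (Nat.lt_succ_self _))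
  omega

lemma exactG (h : Pos n A F G K) (hce : Compl n A c e) {H : Submodule 𝕜 V}
    (hH : Cond F G K c e H) (i : Fin k) : finrank 𝕜 ↥(H ⊓ G (e i)) + i = k := by
  apply le_antisymm _ (hH.hG i)
  by_contra hcon
  push Not at hcon
  have hi : 0 < (i : ℕ) := by
    have h1 : finrank 𝕜 ↥(H ⊓ G (e i)) ≤ finrank 𝕜 H := Submodule.finrank_mono inf_le_left
    rw [hH.dim] at h1
    omega
  have hik := i.2
  have h1 := inter_dim (H := H) (F (c ⟨i - 1, by omega⟩)) (G (e i))
  have h2 := hH.hF ⟨i - 1, by omega⟩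
  rw [hH.dim] at h1
  simp only at h2
  have h3 : finrank 𝕜 ↥(F (c ⟨i - 1, by omega⟩) ⊓ G (e i) ⊓ H) ≤
      finrank 𝕜 ↥(F (c ⟨i - 1, by omega⟩) ⊓ G (e i) ⊓ K) :=
    Submodule.finrank_mono (inf_le_inf_left _ hH.le)
  rw [h.gp _ _ (hce.le_c _) (hce.le_e _)] at h3
  have h4 := hce.sum i
  have h5 : c ⟨i - 1, by omega⟩ < c i := hce.strict (Fin.lt_def.mpr (by simp only; omega))
  omega

/-- transversality -/
lemma tangent (h : Pos n A F G K) (hce : Compl n A c e) {H : Submodule 𝕜 V}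
    (hH : Cond F G K c e H) (φ : ↥H →ₗ[𝕜] (V ⧸ H))
    (hF : ∀ i, ∀ v : ↥H, (v : V) ∈ F (c i) → φ v ∈ (F (c i)).map H.mkQ)
    (hG : ∀ i, ∀ v : ↥H, (v : V) ∈ G (e i) → φ v ∈ (G (e i)).map H.mkQ)
    (hK : ∀ v : ↥H, φ v ∈ K.map H.mkQ) : φ = 0 := by
  have hsol := cond_unique h hce hH
  -- membership in the image of a subspace
  have hmap : ∀ (W : Submodule 𝕜 V) (w : V), H.mkQ w ∈ W.map H.mkQ ↔ w ∈ W ⊔ H := by
    intro W w
    rw [← Submodule.mem_comap, Submodule.comap_map_mkQ, sup_comm]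
  -- the key dimension count
  have key : ∀ i, (H ⊔ F (c i) ⊓ K) ⊓ (H ⊔ G (e i) ⊓ K) = H := by
    intro i
    symm
    apply Submodule.eq_of_le_of_finrank_le (le_inf le_sup_left le_sup_left)
    have e1 := Submodule.finrank_sup_add_finrank_inf_eq H (F (c i) ⊓ K)
    have e2 := Submodule.finrank_sup_add_finrank_inf_eq H (G (e i) ⊓ K)
    have e3 : H ⊓ (F (c i) ⊓ K) = H ⊓ F (c i) := by
      rw [← inf_assoc]; exact inf_eq_left.mpr (inf_le_left.trans hH.le)
    have e4 : H ⊓ (G (e i) ⊓ K) = H ⊓ G (e i) := by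
      rw [← inf_assoc]; exact inf_eq_left.mpr (inf_le_left.trans hH.le)
    rw [e3, exactF h hce hH, h.dimFK (hce.le_c i), hH.dim] at e1
    rw [e4, h.symm.dimFK (hce.le_e i), hH.dim] at e2
    have e5 := exactG h hce hH i
    have e6 := Submodule.finrank_sup_add_finrank_inf_eq (F (c i) ⊓ K) (G (e i) ⊓ K)
    have e7 : (F (c i) ⊓ K) ⊓ (G (e i) ⊓ K) = line F G K c e i := by
      rw [line]
      apply le_antisymm
      · exact le_inf (le_inf (inf_le_left.trans inf_le_left) (inf_le_right.trans inf_le_left))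
          (inf_le_left.trans inf_le_right)
      · exact le_inf (le_inf (inf_le_left.trans inf_le_left) inf_le_right)
          (le_inf (inf_le_left.trans inf_le_right) inf_le_right)
    rw [e7, finrank_line h hce, h.dimFK (hce.le_c i), h.symm.dimFK (hce.le_e i)] at e6
    have e8 := Submodule.finrank_sup_add_finrank_inf_eq (H ⊔ F (c i) ⊓ K) (H ⊔ G (e i) ⊓ K)
    have e9 : finrank 𝕜 ↥(F (c i) ⊓ K ⊔ G (e i) ⊓ K) ≤
        finrank 𝕜 ↥((H ⊔ F (c i) ⊓ K) ⊔ (H ⊔ G (e i) ⊓ K)) :=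
      Submodule.finrank_mono (sup_le_sup le_sup_right le_sup_right)
    have e10 := hce.sum i
    have e11 := hce.le_c i
    have e12 := hce.le_e i
    have e13 := i.2
    rw [hH.dim]
    omega
  have hline : ∀ i, line F G K c e i ≤ (LinearMap.ker φ).map H.subtype := by
    intro i v hv
    have hvH : v ∈ H := by
      rw [hsol]; exact mem_iSup_of_mem i hv
    refine ⟨⟨v, hvH⟩, ?_, rfl⟩
    have hv1 := (mem_inf.mp (mem_inf.mp hv).1).1
    have hv2 := (mem_inf.mp (mem_inf.mp hv).1).2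
    obtain ⟨w, hw⟩ := Submodule.mkQ_surjective H (φ ⟨v, hvH⟩)
    have h1 := hF i ⟨v, hvH⟩ hv1
    have h2 := hG i ⟨v, hvH⟩ hv2
    have h3 := hK ⟨v, hvH⟩
    rw [← hw, hmap] at h1 h2 h3
    have h3' : w ∈ K := by
      rwa [sup_eq_left.mpr hH.le] at h3
    have e1 : w ∈ H ⊔ F (c i) ⊓ K := by
      rw [← sup_inf_assoc_of_le _ hH.le, sup_comm]
      exact mem_inf.mpr ⟨h1, h3'⟩
    have e2 : w ∈ H ⊔ G (e i) ⊓ K := by
      rw [← sup_inf_assoc_of_le _ hH.le, sup_comm]
      exact mem_inf.mpr ⟨h2, h3'⟩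
    have e3 : w ∈ H := by
      rw [← key i]; exact mem_inf.mpr ⟨e1, e2⟩
    change φ ⟨v, hvH⟩ = 0
    rw [← hw]
    exact (Submodule.Quotient.mk_eq_zero H).mpr e3
  ext v
  have h1 : (v : V) ∈ (LinearMap.ker φ).map H.subtype := by
    have h2 : H ≤ (LinearMap.ker φ).map H.subtype := by
      conv_lhs => rw [hsol]
      exact iSup_le hline
    exact h2 v.2
  obtain ⟨v', hv', hvv'⟩ := h1
  have : v' = v := Subtype.ext hvv'
  rw [← this]
  exact hv'

end Pool.Agent.TwoFlags
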